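import Pool.Statements.S00249
import Pool.Agent.H737R3.Bridge

set_option autoImplicit false
open Pool Pool.MP_70675a_ag

namespace Pool.Agent.S00249

/-- Over an algebraically closed field of char 0, for n≥1, any nonempty finite set W of points in P^n and r≥1, every nonzero degree-d form vanishing to order rn at all points of W has d ≥ r·α(W) + r(n−1). -/
theorem result :
    ∀ (k : Type) [Field k] [IsAlgClosed k] [CharZero k] (n : ℕ), 1 ≤ n →
    ∀ (W : Finset (Projectivization k (Fin (n+1) → k))), W.Nonempty →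
    ∀ (r : ℕ), 1 ≤ r →
    ∀ (d : ℕ) (f : MvPolynomial (Fin (n+1)) k), f ≠ 0 → f.IsHomogeneous d →
      (∀ P ∈ W, f ∈ (Ideal.span {g : MvPolynomial (Fin (n+1)) k |
          g.IsHomogeneous 1 ∧ MvPolynomial.eval P.rep g = 0}) ^ (r * n)) →
      ∃ (e : ℕ) (g : MvPolynomial (Fin (n+1)) k), g ≠ 0 ∧ g.IsHomogeneous e ∧
        (∀ P ∈ W, g ∈ Ideal.span {h : MvPolynomial (Fin (n+1)) k |
          h.IsHomogeneous 1 ∧ MvPolynomial.eval P.rep h = 0}) ∧
        r * e + r * (n - 1) ≤ d := by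
  classical
  intro k _ _ _ n hn W hW r hr d f hf0 hfh hfv
  set Z : Finset (Fin (n + 1) → k) := W.image (fun P => P.rep) with hZ
  have hZ0 : ∀ p ∈ Z, p ≠ 0 := by
    intro p hp
    rw [hZ, Finset.mem_image] at hp
    obtain ⟨P, _, rfl⟩ := hp
    exact P.rep_nonzero
  have hFv : ∀ p ∈ Z, f ∈ Pool.Agent.Chud.mI p ^ (r * n) := by
    intro p hp
    rw [hZ, Finset.mem_image] at hp
    obtain ⟨P, hP, rfl⟩ := hp
    exact Ideal.pow_right_mono (Pool.Agent.H737R3.linI_le_mI P.rep) _ (hfv P hP)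
  have hrn : 1 ≤ r * n := Nat.mul_pos hr hn
  -- a form of least degree which vanishes at the points
  have hex : ∃ e : ℕ, ∃ G : MvPolynomial (Fin (n + 1)) k, G ≠ 0 ∧ G.IsHomogeneous e ∧
      ∀ p ∈ Z, G ∈ Pool.Agent.Chud.mI p ^ 1 :=
    ⟨d, f, hf0, hfh, fun p hp => Ideal.pow_le_pow_right hrn (hFv p hp)⟩
  obtain ⟨G, hG0, hGh, hGv⟩ := Nat.find_spec hex
  have hlow : Pool.Agent.H580C.LowT (Z : Set (Fin (n + 1) → k)) 1 (Nat.find hex) := by
    intro F e hF hFd hFv
    exact Nat.find_min' hex ⟨F, hF, hFd, fun p hp => hFv p hp⟩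
  have key := Pool.Agent.H580C.p_CD k n 1 (Nat.find hex) (r * n) d
    (Z : Set (Fin (n + 1) → k)) _ hn le_rfl Z.finite_toSet
    (by simpa [hZ] using hW)
    (fun v hv => hZ0 v hv) hlow hf0 hfh (fun p hp => hFv p hp)
  refine ⟨Nat.find hex, G, hG0, hGh, ?_, ?_⟩
  · intro P hP
    have hmem : P.rep ∈ Z := by
      rw [hZ]
      exact Finset.mem_image_of_mem _ hP
    have := Pool.Agent.H737R3.mem_linI_pow hGh P.rep_nonzero (hGv _ hmem)
    rwa [pow_one] at this
  · have h1 : 1 + n - 1 = n := by omega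
    rw [h1] at key
    have h2 : n * (r * (Nat.find hex) + r * (n - 1)) ≤ n * d := by
      obtain ⟨n', rfl⟩ : ∃ n', n = n' + 1 := ⟨n - 1, by omega⟩
      have h3 : Nat.find hex + (n' + 1) - 1 = Nat.find hex + n' := by omega
      rw [h3] at key
      have h4 : n' + 1 - 1 = n' := by omega
      rw [h4]
      calc (n' + 1) * (r * (Nat.find hex) + r * n') = r * (n' + 1) * (Nat.find hex + n') := by ring
        _ ≤ d * (n' + 1) := key
        _ = (n' + 1) * d := by ring
    exact Nat.le_of_mul_le_mul_left h2 hn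

end Pool.Agent.S00249
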