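import Pool.Statements.S00348
import Pool.Agent.H51.PolyMin

set_option autoImplicit false
open Pool Pool.MP_a30cf1_ag

namespace Pool.Agent.S00348

open Pool.Agent.H51.PolyNet Pool.Agent.H51.PolyNum Pool.Agent.H51.PolyFill

/-- A vector on `Fin 8` as a function on `ℕ`. -/
def eN (e : Fin 8 → ℕ) (k : ℕ) : ℕ := if h : k < 8 then e ⟨k, h⟩ else 0

/-- Weights on `Fin 7` as a function on `ℕ`. -/
noncomputable def WN (W : Fin 7 → ℕ → ℕ → ℂ) (k a b : ℕ) : ℂ :=
  if h : k < 7 then W ⟨k, h⟩ a b else 0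

theorem foldl_eq (e : Fin 8 → ℕ) (W : Fin 7 → ℕ → ℕ → ℂ) (a : ℕ) :
    ((List.finRange 7).foldl
      (fun (h : ℕ → MvPolynomial ℕ ℂ) (k : Fin 7) (a : ℕ) =>
        ∑ b ∈ Finset.range (e k.castSucc),
          MvPolynomial.C (W k a b) * h b ^ (if (k : ℕ) = 0 then 1 else 2))
      (fun b : ℕ => (MvPolynomial.X b : MvPolynomial ℕ ℂ)) a) = out (eN e) (WN W) a := by
  have hl : List.finRange 7 = [0, 1, 2, 3, 4, 5, 6] := by decide
  rw [hl]
  rfl

theorem out_WN (e : ℕ → ℕ) (W : ℕ → ℕ → ℕ → ℂ) (a : ℕ) :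
    out e (WN fun k : Fin 7 => W k) a = out e W a := rfl

/-- The width vector. -/
def dv : Fin 8 → ℕ := ![2, 3, 4, 5, 4, 6, 4, 1]

theorem dv_eq : eN dv = dd := by
  funext k
  by_cases hk : k < 8
  · interval_cases k <;> decide
  · rw [eN, dif_neg hk, dd]
    have h1 : 8 ^ 8 ≤ 8 ^ k := Nat.pow_le_pow_right (by norm_num) (by omega)
    rw [Nat.div_eq_of_lt (lt_of_lt_of_le (by norm_num) h1)]

theorem fill_iff (e : Fin 8 → ℕ) : Fill (eN e) ↔
    ∀ P : MvPolynomial (ℕ × (ℕ →₀ ℕ)) ℂ,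
      (∀ W : Fin 7 → ℕ → ℕ → ℂ,
        MvPolynomial.eval (fun p : ℕ × (ℕ →₀ ℕ) => MvPolynomial.coeff p.2
          ((List.finRange 7).foldl
            (fun (h : ℕ → MvPolynomial ℕ ℂ) (k : Fin 7) (a : ℕ) =>
              ∑ b ∈ Finset.range (e k.castSucc),
                MvPolynomial.C (W k a b) * h b ^ (if (k : ℕ) = 0 then 1 else 2))
            (fun b : ℕ => (MvPolynomial.X b : MvPolynomial ℕ ℂ)) p.1)) P = 0) →
      ∀ c : ℕ × (ℕ →₀ ℕ) → ℂ,
        (∀ p : ℕ × (ℕ →₀ ℕ), c p ≠ 0 →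
          p.1 < e (Fin.last 7) ∧ (∑ b ∈ p.2.support, p.2 b) = 2 ^ (7 - 1) ∧
            ∀ b ∈ p.2.support, b < e 0) →
        MvPolynomial.eval c P = 0 := by
  simp only [foldl_eq]
  constructor
  · intro h P hP c hc
    refine h P (fun W => ?_) c hc
    have h1 := hP (fun k : Fin 7 => W k)
    simp only [out_WN] at h1
    exact h1
  · intro h P hP c hc
    exact h P (fun W => hP (WN W)) c hc

theorem minimal (d : Fin 8 → ℕ) (h0 : d 0 = dv 0) (h7 : d (Fin.last 7) = dv (Fin.last 7))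
    (hle : d ≤ dv) (hF : Fill (eN d)) : d = dv := by
  by_contra hne
  have hex : ∃ i, d i < dv i := by
    by_contra hall
    push Not at hall
    exact hne (le_antisymm hle hall)
  obtain ⟨i, hi⟩ := hex
  have e0 : eN d 0 = 2 := h0
  have e7 : eN d 7 = 1 := h7
  -- the outputs of `d` are outputs of a neighbour
  have key : ∀ N : ℕ → ℕ, (∀ k ≤ 6, eN d k ≤ N k) →
      (∃ P : MvPolynomial (Fin 65) ℂ, P ≠ 0 ∧
        ∀ W, MvPolynomial.eval (fun t => MvPolynomial.coeff (mono t) (out N W 0)) P = 0) →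
      False := by
    intro N hN ⟨P, hP0, hP⟩
    refine not_fill e0 e7 ⟨P, hP0, fun W => ?_⟩ hF
    obtain ⟨W', hW'⟩ := out_mono hN W
    rw [hW' 0]
    exact hP W'
  have hle' : ∀ k (hk : k < 8), d ⟨k, hk⟩ ≤ dv ⟨k, hk⟩ := fun k hk => hle _
  have hN : ∀ k ≤ 6, eN d k ≤ eN (Function.update dv i (dv i - 1)) k := by
    intro k hk
    rw [eN, eN, dif_pos (by omega), dif_pos (by omega)]
    by_cases hki : (⟨k, by omega⟩ : Fin 8) = i
    · rw [hki, Function.update_self]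
      omega
    · rw [Function.update_of_ne hki]
      exact hle' k _
  have hi' := i.2
  have hall : ∀ i : Fin 8, i = 0 ∨ i = 1 ∨ i = 2 ∨ i = 3 ∨ i = 4 ∨ i = 5 ∨ i = 6 ∨ i = 7 := by
    decide
  have hcases := hall i
  rcases hcases with rfl | rfl | rfl | rfl | rfl | rfl | rfl | rfl
  · omega
  · exact key _ hN (nbr1 (by decide) (by decide))
  · exact key _ hN (nbr2 (by decide) (by decide) (by decide))
  · exact key _ hN (nbr3 (by decide) (by decide) (by decide))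
  · exact key _ hN (nbr4 (by decide) (by decide))
  · exact key _ hN (nbr5 (by decide) (by decide) (by decide))
  · exact key _ hN (nbr6 (by decide) (by decide) (by decide))
  · have h7' : d 7 = dv 7 := h7
    omega

/-- The negation of the preceding statement: For L ≥ 1 and r ≥ 2, any coordinatewise-minimal positive width vector (with d_0, d_L fixed) whose depth-L polynomial network with x^r activation has Zariski-dense output set in the ambient space is unimodal. -/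
theorem result :
    ¬ (∀ (L r : ℕ), 1 ≤ L → 2 ≤ r →
  ∀ Filling : (Fin (L+1) → ℕ) → Prop,
  (∀ e : Fin (L+1) → ℕ, Filling e ↔
    ∀ P : MvPolynomial (ℕ × (ℕ →₀ ℕ)) ℂ,
      (∀ W : Fin L → ℕ → ℕ → ℂ,
        MvPolynomial.eval (fun p : ℕ × (ℕ →₀ ℕ) => MvPolynomial.coeff p.2
          ((List.finRange L).foldl
            (fun (h : ℕ → MvPolynomial ℕ ℂ) (k : Fin L) (a : ℕ) =>
              ∑ b ∈ Finset.range (e k.castSucc),
                MvPolynomial.C (W k a b) * h b ^ (if (k : ℕ) = 0 then 1 else r))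
            (fun b : ℕ => (MvPolynomial.X b : MvPolynomial ℕ ℂ)) p.1)) P = 0) →
      ∀ c : ℕ × (ℕ →₀ ℕ) → ℂ,
        (∀ p : ℕ × (ℕ →₀ ℕ), c p ≠ 0 →
          p.1 < e (Fin.last L) ∧ (∑ b ∈ p.2.support, p.2 b) = r ^ (L - 1) ∧
            ∀ b ∈ p.2.support, b < e 0) →
        MvPolynomial.eval c P = 0) →
  ∀ d : Fin (L+1) → ℕ, (∀ i, 1 ≤ d i) → Filling d →
  (∀ d' : Fin (L+1) → ℕ, (∀ i, 1 ≤ d' i) → d' 0 = d 0 →
      d' (Fin.last L) = d (Fin.last L) → d' ≤ d → Filling d' → d' = d) →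
  ∃ i : Fin (L+1), (∀ j k : Fin (L+1), j ≤ k → k ≤ i → d j ≤ d k) ∧
    (∀ j k : Fin (L+1), i ≤ j → j ≤ k → d k ≤ d j)) := by
  intro h
  have h1 := h 7 2 (by norm_num) (by norm_num) (fun e => Fill (eN e)) (fun e => fill_iff e) dv
    (by decide) (by rw [dv_eq]; exact fill_dd)
    (fun d' _ h0 h7 hle hF => minimal d' h0 h7 hle hF)
  revert h1
  decide

end Pool.Agent.S00348
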