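import Pool.Statements.S00362
import Pool.Agent.Deltoid.Top
import Pool.Agent.Deltoid.Loc

set_option autoImplicit false
open Pool Pool.MP_aaa69e_ag

namespace Pool.Agent.S00362

open Pool.Agent.Deltoid

/-- Singular points of the deltoid are the three cusps. -/
theorem sing_param {z : Fin 2 → ℂ} (h : MvPolynomial.eval z dp = 0)
    (h0 : MvPolynomial.eval z (MvPolynomial.pderiv 0 dp) = 0)
    (h1 : MvPolynomial.eval z (MvPolynomial.pderiv 1 dp) = 0) : ∃ ζ : ℂ, ζ ^ 3 = 1 ∧ ph ζ = z := by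
  obtain ⟨t, ht, rfl⟩ := exists_param h
  refine ⟨t, ?_, rfl⟩
  rw [eval_pd0, ph_zero, ph_one] at h0
  rw [eval_pd1, ph_zero, ph_one] at h1
  have k : (t ^ 3 - 1) ^ 3 = 0 := by
    field_simp at h0
    linear_combination (1 / 4) * h0
  have : t ^ 3 - 1 = 0 := by simpa using k
  linear_combination this

theorem cusp_sing {ζ : ℂ} (hζ : ζ ^ 3 = 1) (i : Fin 2) :
    MvPolynomial.eval (ph ζ) (MvPolynomial.pderiv i dp) = 0 := by
  have h1 := ph_cube hζ (one_ne_zero)
  rw [mul_one] at h1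
  have hp0 : ph ζ 0 = ζ * 3 := by rw [h1.1]; norm_num
  have hp1 : ph ζ 1 = ζ ^ 2 * 3 := by rw [h1.2]; norm_num
  fin_cases i
  · show MvPolynomial.eval (ph ζ) (MvPolynomial.pderiv 0 dp) = 0
    rw [eval_pd0, hp0, hp1]
    linear_combination 54 * ζ ^ 2 * hζ
  · show MvPolynomial.eval (ph ζ) (MvPolynomial.pderiv 1 dp) = 0
    rw [eval_pd1, hp0, hp1]
    linear_combination (-54 * ζ) * hζ

/-- The negation of the preceding statement: For every irreducible f in ℂ[x,y], the number of singular points of the curve f=0 where the curve has one local branch is at most the first Betti number (rank of abelianized fundamental group) of the curve plus one. -/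
theorem result :
    ¬ (∀ f : MvPolynomial (Fin 2) ℂ, Irreducible f →
    ∀ x₀ : ↥{z : Fin 2 → ℂ | MvPolynomial.eval z f = 0},
    Set.ncard {p : Fin 2 → ℂ | MvPolynomial.eval p f = 0 ∧
        (∀ i : Fin 2, MvPolynomial.eval p (MvPolynomial.pderiv i f) = 0) ∧
        ∃ ε : ℝ, 0 < ε ∧ ∀ δ : ℝ, 0 < δ → δ < ε →
          IsPreconnected {q : Fin 2 → ℂ | MvPolynomial.eval q f = 0 ∧ q ≠ p ∧
            ‖q 0 - p 0‖ ^ 2 + ‖q 1 - p 1‖ ^ 2 < δ ^ 2}}
      ≤ Module.finrank ℤ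
          (Additive (Abelianization
            (FundamentalGroup ↥{z : Fin 2 → ℂ | MvPolynomial.eval z f = 0} x₀))) + 1) := by
  intro H
  have hz : MvPolynomial.eval (ph 1) dp = 0 := ph_mem one_ne_zero
  have key := H dp irr_dp ⟨ph 1, hz⟩
  have hr := finrank_le ⟨ph 1, hz⟩
  -- three cube roots of unity
  set ω : ℂ := Complex.exp (2 * Real.pi * Complex.I / 3) with hω
  have hprim : IsPrimitiveRoot ω 3 := Complex.isPrimitiveRoot_exp 3 (by norm_num)
  have hω3 : ω ^ 3 = 1 := hprim.pow_eq_one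
  have hω1 : ω ≠ 1 := hprim.ne_one (by norm_num)
  have hω0 : ω ≠ 0 := hprim.ne_zero (by norm_num)
  have hω2 : ω ^ 2 ≠ 1 := hprim.pow_ne_one_of_pos_of_lt (by norm_num) (by norm_num)
  have hω23 : (ω ^ 2) ^ 3 = 1 := by rw [← pow_mul, mul_comm, pow_mul, hω3, one_pow]
  set S : Set (Fin 2 → ℂ) := {p : Fin 2 → ℂ | MvPolynomial.eval p dp = 0 ∧
        (∀ i : Fin 2, MvPolynomial.eval p (MvPolynomial.pderiv i dp) = 0) ∧
        ∃ ε : ℝ, 0 < ε ∧ ∀ δ : ℝ, 0 < δ → δ < ε →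
          IsPreconnected {q : Fin 2 → ℂ | MvPolynomial.eval q dp = 0 ∧ q ≠ p ∧
            ‖q 0 - p 0‖ ^ 2 + ‖q 1 - p 1‖ ^ 2 < δ ^ 2}} with hS
  have hfin : S.Finite := by
    have hroots : {ζ : ℂ | ζ ^ 3 = 1}.Finite := by
      have : {ζ : ℂ | ζ ^ 3 = 1} ⊆ {ζ : ℂ | Polynomial.IsRoot (Polynomial.X ^ 3 - Polynomial.C 1 : Polynomial ℂ) ζ} := by
        intro ζ hζ
        have h' : ζ ^ 3 = 1 := hζ
        show Polynomial.IsRoot _ ζ
        simp [Polynomial.IsRoot.def, h']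
      refine Set.Finite.subset (Polynomial.finite_setOf_isRoot ?_) this
      exact Polynomial.X_pow_sub_C_ne_zero (by norm_num) 1
    refine (hroots.image ph).subset ?_
    rintro p ⟨hp, hd, -⟩
    obtain ⟨ζ, hζ, rfl⟩ := sing_param hp (hd 0) (hd 1)
    exact ⟨ζ, hζ, rfl⟩
  have hmem : ∀ ζ : ℂ, ζ ^ 3 = 1 → ph ζ ∈ S := by
    intro ζ hζ
    have hz : ζ ≠ 0 := by
      rintro rfl
      norm_num at hζ
    refine ⟨ph_mem hz, cusp_sing hζ, 1/32, by norm_num, fun δ h0 h1 => ?_⟩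
    exact local_preconnected hζ h0 h1
  have hsub : ({ph 1, ph ω, ph (ω ^ 2)} : Set (Fin 2 → ℂ)) ⊆ S := by
    rintro p (rfl | rfl | rfl)
    · exact hmem 1 (by norm_num)
    · exact hmem ω hω3
    · exact hmem (ω ^ 2) hω23
  have hcard : ({ph 1, ph ω, ph (ω ^ 2)} : Set (Fin 2 → ℂ)).ncard = 3 := by
    rw [Set.ncard_eq_three]
    refine ⟨ph 1, ph ω, ph (ω ^ 2), ?_, ?_, ?_, rfl⟩
    · intro h
      exact hω1 (ph_inj one_ne_zero hω0 h).symm
    · intro h
      exact hω2 (ph_inj one_ne_zero (pow_ne_zero 2 hω0) h).symm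
    · intro h
      have h' : ω = ω ^ 2 := ph_inj hω0 (pow_ne_zero 2 hω0) h
      apply hω1
      have h2 : ω * (ω - 1) = 0 := by linear_combination -h'
      rcases mul_eq_zero.mp h2 with h3 | h3
      · exact absurd h3 hω0
      · linear_combination h3
  have h3 : 3 ≤ S.ncard := by
    rw [← hcard]
    exact Set.ncard_le_ncard hsub hfin
  omega

end Pool.Agent.S00362
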