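import Pool.Statements.S00526
import Pool.Agent.V1146.NH.Dim

set_option autoImplicit false
open Pool Pool.MP_e9da60_ag

namespace Pool.Agent.S00526

/-- The negation of the preceding statement: For an analytically unramified Noetherian local ring of dimension d>0 and an m-primary ideal I, if length(R/closure(I^(n+1))) equals sum of (-1)^i e_i C(n+d-i,d-i) for large n, then e_1 is nonnegative. -/
theorem result :
    ¬ (∀ (R : Type) [CommRing R] [IsNoetherianRing R] [IsLocalRing R],
      IsReduced (AdicCompletion (IsLocalRing.maximalIdeal R) R) →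
      ∀ (d : ℕ), ringKrullDim R = (d : WithBot ℕ∞) → 0 < d →
      ∀ (I : Ideal R), I.radical = IsLocalRing.maximalIdeal R →
      ∀ (Ibar : ℕ → Ideal R),
        (∀ (n : ℕ) (x : R), x ∈ Ibar n ↔
          ∃ k : ℕ, 0 < k ∧ ∃ a : ℕ → R, (∀ j, a j ∈ (I ^ n) ^ j) ∧
            x ^ k + ∑ j ∈ Finset.range k, a (k - j) * x ^ j = 0) →
      ∀ (e : ℕ → ℚ),
        (∀ᶠ n in Filter.atTop, ∃ m : ℕ,
          Module.length R (R ⧸ Ibar (n + 1)) = (m : ℕ∞) ∧
          (m : ℚ) = ∑ i ∈ Finset.range (d + 1),
            (-1 : ℚ) ^ i * e i * (((n + d - i).choose (d - i) : ℕ) : ℚ)) →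
        0 ≤ e 1) := by
  intro H
  have h := H (V1146.NH.RR ℚ) (V1146.NH.reduced_completion ℚ) 2 (V1146.NH.dim_eq ℚ) two_pos
    (IsLocalRing.maximalIdeal (V1146.NH.RR ℚ))
    (Ideal.IsPrime.radical (IsLocalRing.maximalIdeal.isMaximal _).isPrime)
    (fun n => V1146.NH.F ℚ n) ?_ (fun i => if i = 0 then 1 else -1) ?_
  · norm_num at h
  · intro n x
    constructor
    · intro hx
      refine ⟨1, one_pos, fun j => if j = 1 then -x else 0, ?_, ?_⟩
      · intro j
        by_cases hj : j = 1
        · subst hj
          simp only [if_true, pow_one]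
          rw [V1146.NH.pow_eq_F]
          exact neg_mem hx
        · simp only [if_neg hj]
          exact zero_mem _
      · simp
    · rintro ⟨k, hk, a, ha, hx⟩
      have ha' : ∀ j, a j ∈ V1146.NH.F ℚ (n * j) := by
        intro j
        have := ha j
        rw [← pow_mul, V1146.NH.pow_eq_F] at this
        exact this
      constructor
      · refine (V1146.NH.VF_J2 ℚ).integral hk
          (fun j => ((RingHom.fst _ _).comp (V1146.NH.RR ℚ).subtype) (a j)) (fun j => (ha' j).1) ?_
        have h1 := congrArg ((RingHom.fst _ _).comp (V1146.NH.RR ℚ).subtype) hx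
        rw [map_add, map_pow, map_sum, map_zero] at h1
        simp only [map_mul, map_pow] at h1
        exact h1
      · refine (V1146.NH.VF_J1 ℚ).integral hk
          (fun j => ((RingHom.snd _ _).comp (V1146.NH.RR ℚ).subtype) (a j)) (fun j => (ha' j).2) ?_
        have h1 := congrArg ((RingHom.snd _ _).comp (V1146.NH.RR ℚ).subtype) hx
        rw [map_add, map_pow, map_sum, map_zero] at h1
        simp only [map_mul, map_pow] at h1
        exact h1
  · refine Filter.Eventually.of_forall fun n => ⟨(n + 2).choose 2 + n, V1146.NH.length_quot ℚ n, ?_⟩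
    simp only [Finset.sum_range_succ, Finset.sum_range_zero]
    norm_num
    ring

end Pool.Agent.S00526
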