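import Pool.Statements.S00541
import Pool.Agent.H737R3.Bridge

set_option autoImplicit false
open Pool Pool.MP_ef83ea_ag

namespace Pool.Agent.S00541

/-- For any nonempty finite set of points in complex projective N-space (N at least 1) with ideal I, every m ≥ 1 satisfies alpha(I^(m))/m ≥ (alpha(I^(3)) + N - 1)/(N + 2), i.e. the Waldschmidt constant is at least that bound. -/
theorem result :
    ∀ (N : ℕ), 1 ≤ N → ∀ S : Finset (Fin (N + 1) → ℂ), S.Nonempty → (∀ p ∈ S, p ≠ 0) →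
      ∀ m : ℕ, 1 ≤ m →
        (((sInf {d : ℕ | ∃ f ∈ (⨅ p ∈ S,
              (Ideal.span (Set.range (fun ij : Fin (N + 1) × Fin (N + 1) =>
                (MvPolynomial.X ij.1 * MvPolynomial.C (p ij.2)
                  - MvPolynomial.X ij.2 * MvPolynomial.C (p ij.1) :
                  MvPolynomial (Fin (N + 1)) ℂ)))) ^ 3),
              f ≠ 0 ∧ f.totalDegree = d} : ℕ) : ℝ) + (N : ℝ) - 1) / ((N : ℝ) + 2)
          ≤ ((sInf {d : ℕ | ∃ f ∈ (⨅ p ∈ S,
              (Ideal.span (Set.range (fun ij : Fin (N + 1) × Fin (N + 1) =>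
                (MvPolynomial.X ij.1 * MvPolynomial.C (p ij.2)
                  - MvPolynomial.X ij.2 * MvPolynomial.C (p ij.1) :
                  MvPolynomial (Fin (N + 1)) ℂ)))) ^ m),
              f ≠ 0 ∧ f.totalDegree = d} : ℕ) : ℝ) / (m : ℝ) := by
  classical
  intro N hN S hS hS0 m hm
  have hset : ∀ t : ℕ, (⨅ p ∈ S,
              (Ideal.span (Set.range (fun ij : Fin (N + 1) × Fin (N + 1) =>
                (MvPolynomial.X ij.1 * MvPolynomial.C (p ij.2)
                  - MvPolynomial.X ij.2 * MvPolynomial.C (p ij.1) :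
                  MvPolynomial (Fin (N + 1)) ℂ)))) ^ t : Ideal (MvPolynomial (Fin (N + 1)) ℂ)) =
      ⨅ p ∈ S, Pool.Agent.H737R3.linI p ^ t := by
    intro t
    refine iInf_congr fun p => iInf_congr fun hp => ?_
    rw [Pool.Agent.H737R3.span_eq_linI (hS0 p hp)]
  rw [hset 3, hset m]
  set A : ℕ → Set ℕ := fun t => {d : ℕ | ∃ f ∈ (⨅ p ∈ S, Pool.Agent.H737R3.linI p ^ t :
      Ideal (MvPolynomial (Fin (N + 1)) ℂ)), f ≠ 0 ∧ f.totalDegree = d} with hA
  have hAne : ∀ t, (A t).Nonempty := by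
    intro t
    obtain ⟨f, hf, hf0⟩ := Pool.Agent.H737R3.exists_mem_iInf hN S hS0 (fun _ => t)
    exact ⟨f.totalDegree, f, hf, hf0, rfl⟩
  change (((sInf (A 3) : ℕ) : ℝ) + (N : ℝ) - 1) / ((N : ℝ) + 2) ≤ ((sInf (A m) : ℕ) : ℝ) / (m : ℝ)
  obtain ⟨f, hf, hf0, hfd⟩ := Nat.sInf_mem (hAne m)
  have hfp : ∀ p ∈ S, f ∈ Pool.Agent.H737R3.linI p ^ m := by
    intro p hp
    exact (Submodule.mem_iInf _).1 ((Submodule.mem_iInf _).1 hf p) hp
  have hF0 := Pool.Agent.H737R3.top_component hf0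
  have hFh := MvPolynomial.homogeneousComponent_isHomogeneous f.totalDegree f
  have hFv : ∀ p ∈ S, MvPolynomial.homogeneousComponent f.totalDegree f ∈
      Pool.Agent.Chud.mI p ^ m := fun p hp =>
    Ideal.pow_right_mono (Pool.Agent.H737R3.linI_le_mI p) m
      (Pool.Agent.H737R3.component_mem p m (hfp p hp) _)
  have hlow : Pool.Agent.H580C.LowT (S : Set (Fin (N + 1) → ℂ)) 3 (sInf (A 3)) := by
    intro F e hF hFd hFv
    apply Nat.sInf_le
    refine ⟨F, ?_, hF, hFd.totalDegree hF⟩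
    rw [Submodule.mem_iInf]
    intro p
    rw [Submodule.mem_iInf]
    intro hp
    exact Pool.Agent.H737R3.mem_linI_pow hFd (hS0 p hp) (hFv p hp)
  have key := Pool.Agent.H580C.p_CD ℂ N 3 (sInf (A 3)) m f.totalDegree
    (S : Set (Fin (N + 1) → ℂ)) _ hN (by norm_num) S.finite_toSet (by simpa using hS)
    (fun v hv => hS0 v hv) hlow hF0 hFh (fun p hp => hFv p hp)
  rw [hfd] at key
  have h1 : 3 + N - 1 = N + 2 := by omega
  rw [h1] at key
  have hm' : (0 : ℝ) < m := by exact_mod_cast hm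
  rw [div_le_div_iff₀ (by positivity) hm']
  have h2 : ((sInf (A 3) + N - 1 : ℕ) : ℝ) = ((sInf (A 3) : ℕ) : ℝ) + N - 1 := by
    rw [Nat.cast_sub (by omega)]
    push_cast
    ring
  have h3 : ((m * (sInf (A 3) + N - 1) : ℕ) : ℝ) ≤ ((sInf (A m) * (N + 2) : ℕ) : ℝ) := by
    exact_mod_cast key
  rw [Nat.cast_mul, h2, Nat.cast_mul] at h3
  push_cast at h3
  linarith

end Pool.Agent.S00541
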