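import Pool.Statements.S00566
import Pool.Agent.Results.MP_fa7d23_ag.NefNotB

set_option autoImplicit false
open Pool Pool.MP_fa7d23_ag

namespace Pool.Agent.S00566

open Pool.Agent.Results.MP_fa7d23_ag.NefNotB in
/-- The negation of the preceding statement: For any r≥1 distinct points of the plane over an algebraically closed field and any effective nef L on the blow-up failing (B), some multiple mL has h^0(mL) equal to its Riemann–Roch value, i.e. h^1(mL)=0. -/
theorem result :
    ¬ (∀ (k : Type) [Field k] [IsAlgClosed k] (r : ℕ), 1 ≤ r →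
  ∀ (p : Fin r → Fin 3 → k),
    (∀ i, p i ≠ 0) →
    (∀ i j, i ≠ j → ∀ c : k, p i ≠ c • p j) →
  ∀ (d : ℕ) (a : Fin r → ℕ),
    (∃ f : MvPolynomial (Fin 3) k, f ≠ 0 ∧ f.IsHomogeneous d ∧
        ∀ i, f ∈ (Ideal.span (Set.range fun ab : Fin 3 × Fin 3 =>
            MvPolynomial.C (p i ab.1) * MvPolynomial.X ab.2
              - MvPolynomial.C (p i ab.2) * MvPolynomial.X ab.1) :
              Ideal (MvPolynomial (Fin 3) k)) ^ a i) →
    (∀ (e : ℕ) (g : MvPolynomial (Fin 3) k), g.IsHomogeneous e → Irreducible g →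
        ∀ μ : Fin r → ℕ,
          (∀ i, g ∈ (Ideal.span (Set.range fun ab : Fin 3 × Fin 3 =>
            MvPolynomial.C (p i ab.1) * MvPolynomial.X ab.2
              - MvPolynomial.C (p i ab.2) * MvPolynomial.X ab.1) :
              Ideal (MvPolynomial (Fin 3) k)) ^ μ i) →
          ∑ i, a i * μ i ≤ d * e) →
    (¬ ∃ (e : ℕ) (γ : Fin r → ℤ), (e ≠ 0 ∨ γ ≠ 0) ∧
        (∃ f : MvPolynomial (Fin 3) k, f ≠ 0 ∧ f.IsHomogeneous e ∧
          ∀ i, f ∈ (Ideal.span (Set.range fun ab : Fin 3 × Fin 3 =>
            MvPolynomial.C (p i ab.1) * MvPolynomial.X ab.2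
              - MvPolynomial.C (p i ab.2) * MvPolynomial.X ab.1) :
              Ideal (MvPolynomial (Fin 3) k)) ^ (γ i).toNat) ∧
        e ≤ d ∧
        (∃ f : MvPolynomial (Fin 3) k, f ≠ 0 ∧ f.IsHomogeneous (d - e) ∧
          ∀ i, f ∈ (Ideal.span (Set.range fun ab : Fin 3 × Fin 3 =>
            MvPolynomial.C (p i ab.1) * MvPolynomial.X ab.2
              - MvPolynomial.C (p i ab.2) * MvPolynomial.X ab.1) :
              Ideal (MvPolynomial (Fin 3) k)) ^ ((a i : ℤ) - γ i).toNat) ∧
        (e : ℤ) ^ 2 - ∑ i, (γ i) ^ 2 - 3 * (e : ℤ) + ∑ i, γ i > -2 ∧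
        (d : ℤ) * (e : ℤ) - ∑ i, (a i : ℤ) * γ i = 0) →
    ∃ m : ℕ, 1 ≤ m ∧
      2 * (Module.finrank k
        ↥(MvPolynomial.homogeneousSubmodule (Fin 3) k (m * d) ⊓
          ⨅ i, Submodule.restrictScalars k
            ((Ideal.span (Set.range fun ab : Fin 3 × Fin 3 =>
              MvPolynomial.C (p i ab.1) * MvPolynomial.X ab.2
                - MvPolynomial.C (p i ab.2) * MvPolynomial.X ab.1) :
                Ideal (MvPolynomial (Fin 3) k)) ^ (m * a i))) : ℤ)
        = 2 + ((m * d : ℕ) : ℤ) ^ 2 - ∑ i, ((m * a i : ℕ) : ℤ) ^ 2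
            + 3 * ((m * d : ℕ) : ℤ) - ∑ i, ((m * a i : ℕ) : ℤ)) := by
  intro H
  obtain ⟨p, hdist, hEff, hNef, hB, hh1⟩ :=
    Pool.Agent.Results.MP_fa7d23_ag.NefNotB.result ℂ
  have key := H ℂ 15 (by norm_num) p hdist.1 hdist.2 4 (fun _ => 1) ?_ ?_ ?_
  · obtain ⟨m, hm, he⟩ := key
    have h1 := hh1 m hm
    have hsm : (m • ((4, fun _ => 1) : Cls 15)) =
        (((4 * m : ℕ) : ℤ), fun i => (((fun _ : Fin 15 => m) i : ℕ) : ℤ)) := smul_L15 m
    rw [hsm, h1_eq_superabundance p (4 * m) (fun _ => m)] at h1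
    have hH : H0 p (((4 * m : ℕ) : ℤ), fun i => (((fun _ : Fin 15 => m) i : ℕ) : ℤ)) =
        (MvPolynomial.homogeneousSubmodule (Fin 3) ℂ (m * 4) ⊓
          ⨅ i, Submodule.restrictScalars ℂ
            ((Ideal.span (Set.range fun ab : Fin 3 × Fin 3 =>
              MvPolynomial.C (p i ab.1) * MvPolynomial.X ab.2
                - MvPolynomial.C (p i ab.2) * MvPolynomial.X ab.1) :
                Ideal (MvPolynomial (Fin 3) ℂ)) ^ (m * 1))) := by
      unfold H0
      rw [if_pos (Int.natCast_nonneg _)]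
      simp only [Int.toNat_natCast, mul_one, mul_comm m 4]
      rfl
    rw [hH] at h1
    have k1 := key_choose (4 * m + 1)
    have k2 := key_choose m
    simp only [Finset.sum_const, Finset.card_univ, Fintype.card_fin, nsmul_eq_mul] at h1 he
    generalize (Module.finrank ℂ
      ↥(MvPolynomial.homogeneousSubmodule (Fin 3) ℂ (m * 4) ⊓
          ⨅ i, Submodule.restrictScalars ℂ
            ((Ideal.span (Set.range fun ab : Fin 3 × Fin 3 =>
              MvPolynomial.C (p i ab.1) * MvPolynomial.X ab.2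
                - MvPolynomial.C (p i ab.2) * MvPolynomial.X ab.1) :
                Ideal (MvPolynomial (Fin 3) ℂ)) ^ (m * 1)))) = N at h1 he
    have e1 : 4 * m + 1 + 1 = 4 * m + 2 := rfl
    rw [e1] at k1
    generalize (4 * m + 2).choose 2 = A at *
    generalize (m + 1).choose 2 = B at *
    push_cast at h1 he k1 k2
    nlinarith
  · obtain ⟨G, hG, hG0⟩ := Submodule.exists_mem_ne_zero_of_ne_bot hEff
    rw [mem_H0 _ _ _ hG0] at hG
    refine ⟨G, hG0, by simpa using hG.2.1, fun i => ?_⟩
    have := hG.2.2 i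
    simpa [pointIdeal] using this
  · intro e g hg hirr μ hμ
    have hg0 : g ≠ 0 := hirr.ne_zero
    have hex : ∀ i, ∃ n, g ∉ pointIdeal (p i) ^ n := by
      intro i
      by_contra hcon
      push Not at hcon
      have htop : pointIdeal (p i) ≠ ⊤ := by
        intro htop
        have h1 : (MvPolynomial.C (1 : ℂ) : MvPolynomial (Fin 3) ℂ) ∈ pointIdeal (p i) ^ 1 := by
          rw [htop]; simp
        exact absurd (eq_zero_of_const_mem one_ne_zero h1) one_ne_zero
      have hinf := Ideal.iInf_pow_eq_bot_of_isDomain _ htop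
      have : g ∈ (⨅ n : ℕ, pointIdeal (p i) ^ n) := by
        rw [Ideal.mem_iInf]
        exact hcon
      rw [hinf, Ideal.mem_bot] at this
      exact hg0 this
    classical
    have hspec := fun i => Nat.find_spec (hex i)
    have hmin := fun i (n : ℕ) => Nat.find_min (hex i) (m := n)
    obtain ⟨ν, hν⟩ : ∃ ν : Fin 15 → ℕ, ν = fun i => Nat.find (hex i) := ⟨_, rfl⟩
    have hν1 : ∀ i, g ∉ pointIdeal (p i) ^ (ν i) := by intro i; rw [hν]; exact hspec i
    have hν2 : ∀ i n, n < ν i → g ∈ pointIdeal (p i) ^ n := by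
      intro i n hn
      rw [hν] at hn
      have := hmin i n hn
      push Not at this
      exact this
    have hν0 : ∀ i, 0 < ν i := by
      intro i
      rcases Nat.eq_zero_or_pos (ν i) with h | h
      · exfalso
        have := hν1 i
        rw [h, pow_zero] at this
        exact this (by simp)
      · exact h
    have hle : ∀ i, μ i ≤ ν i - 1 := by
      intro i
      by_contra hcon
      push Not at hcon
      apply hν1 i
      have h1 : ν i ≤ μ i := by have := hν0 i; omega
      exact Ideal.pow_le_pow_right h1 (hμ i)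
    have h2 := hNef.2 e g (fun i => ν i - 1) hg hirr (fun i => ⟨hν2 i _ (by have := hν0 i; omega), by
      have h3 : ν i - 1 + 1 = ν i := by have := hν0 i; omega
      rw [h3]
      exact hν1 i⟩)
    simp only [inter] at h2
    have h4 : ∑ i, (1 : ℕ) * μ i ≤ ∑ i, (ν i - 1) :=
      Finset.sum_le_sum fun i _ => by rw [one_mul]; exact hle i
    have h5 : ((∑ i, (ν i - 1) : ℕ) : ℤ) ≤ 4 * e := by
      push_cast at h2 ⊢
      simp only [one_mul] at h2
      linarith
    have h6 : ∑ i, (ν i - 1) ≤ 4 * e := by exact_mod_cast h5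
    exact h4.trans h6
  · rintro ⟨e, γ, hne, ⟨f, hf0, hf, hfm⟩, hed, ⟨f', hf'0, hf', hfm'⟩, hpa, hint⟩
    apply hB
    refine ⟨((e : ℤ), γ), ?_, ?_, ?_, ?_, ?_⟩
    · intro h
      rw [Prod.ext_iff] at h
      rcases hne with h1 | h1
      · apply h1
        have := h.1
        simpa using this
      · exact h1 h.2
    · intro h
      have : f ∈ H0 p ((e : ℤ), γ) := by
        rw [mem_H0 _ _ _ hf0]
        exact ⟨Int.natCast_nonneg _, by simpa using hf, hfm⟩
      rw [h, Submodule.mem_bot] at this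
      exact hf0 this
    · intro h
      have : f' ∈ H0 p ((4, fun _ => 1) - ((e : ℤ), γ)) := by
        rw [mem_H0 _ _ _ hf'0]
        refine ⟨?_, ?_, ?_⟩
        · simp only [Prod.fst_sub]; omega
        · simp only [Prod.fst_sub]
          have h1 : ((4 : ℤ) - e).toNat = 4 - e := by omega
          rw [h1]
          exact hf'
        · intro i
          have h2 := hfm' i
          simp only [Nat.cast_one] at h2
          exact h2
      rw [h, Submodule.mem_bot] at this
      exact hf'0 this
    · unfold pa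
      simp only [inter, canon]
      have e1 : ∑ i, γ i * γ i = ∑ i, γ i ^ 2 := Finset.sum_congr rfl fun i _ => by ring
      have e2 : ∑ i, (-1 : ℤ) * γ i = - ∑ i, γ i := by
        rw [← Finset.sum_neg_distrib]
        exact Finset.sum_congr rfl fun i _ => by ring
      rw [e1, e2]
      have hev1 : (2 : ℤ) ∣ (e : ℤ) * (e : ℤ) - 3 * e := by
        have : (e : ℤ) * e - 3 * e = (e * (e + 1) : ℤ) - 2 * (2 * e) := by ring
        rw [this]
        exact dvd_sub (Int.even_mul_succ_self (e : ℤ)).two_dvd (dvd_mul_right _ _)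
      have hev2 : (2 : ℤ) ∣ ∑ i, (γ i - γ i ^ 2) := by
        apply Finset.dvd_sum
        intro i _
        have : γ i - γ i ^ 2 = 2 * γ i - γ i * (γ i + 1) := by ring
        rw [this]
        exact dvd_sub (dvd_mul_right _ _) (Int.even_mul_succ_self (γ i)).two_dvd
      rw [Finset.sum_sub_distrib] at hev2
      obtain ⟨x, hx⟩ := hev1
      obtain ⟨y, hy⟩ := hev2
      have h3 : (e : ℤ) * e - ∑ i, γ i ^ 2 + (-3 * e - - ∑ i, γ i) = 2 * (x + y) := by
        linarith
      have h4 : -2 < 2 * (x + y) := by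
        have : (e : ℤ) ^ 2 = e * e := by ring
        rw [this] at hpa
        linarith
      rw [h3]
      omega
    · simp only [inter]
      push_cast at hint ⊢
      simpa using hint

end Pool.Agent.S00566
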