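import Pool.Statements.S00609

set_option autoImplicit false
open Pool Pool.MP_042d8e_al

namespace Pool.Agent.S00609

open Equiv

/-- vertices of the binary rooted tree; the parent of a word is its tail -/
abbrev V := List (ZMod 2)

/-- `σ` is the tree automorphism with labels `φ`. -/
def IsAut (σ : Perm V) (φ : V → ZMod 2) : Prop :=
  σ [] = [] ∧ ∀ b v, σ (b :: v) = (b + φ v) :: σ v

theorem IsAut.length {σ : Perm V} {φ : V → ZMod 2} (h : IsAut σ φ) :
    ∀ v : V, (σ v).length = v.length
  | [] => by rw [h.1]
  | b :: v => by rw [h.2]; simp [h.length v]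

theorem IsAut.mul {σ τ : Perm V} {φ ψ : V → ZMod 2} (hσ : IsAut σ φ) (hτ : IsAut τ ψ) :
    IsAut (σ * τ) (fun v => ψ v + φ (τ v)) :=
  ⟨by rw [Perm.mul_apply, hτ.1, hσ.1], fun b v => by
    rw [Perm.mul_apply, hτ.2, hσ.2, add_assoc, Perm.mul_apply]⟩

theorem IsAut.inv {σ : Perm V} {φ : V → ZMod 2} (hσ : IsAut σ φ) :
    IsAut σ⁻¹ (fun v => - φ (σ⁻¹ v)) := by
  constructor
  · rw [Perm.inv_eq_iff_eq]; exact hσ.1.symm
  · intro b v
    rw [Perm.inv_eq_iff_eq, hσ.2]
    have : σ (σ⁻¹ v) = v := by rw [← Perm.mul_apply, mul_inv_cancel, Perm.one_apply]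
    rw [this, neg_add_cancel_right]

theorem IsAut.eq {σ : Perm V} {φ ψ : V → ZMod 2} (h : IsAut σ φ) (h' : IsAut σ ψ) : φ = ψ := by
  funext v
  have h1 := h.2 0 v
  rw [h'.2 0 v] at h1
  have h2 := (List.cons.inj h1).1
  simpa using h2.symm

theorem IsAut.one : IsAut 1 0 := ⟨rfl, fun b v => by simp⟩

theorem IsAut.eq_one {σ : Perm V} (h : IsAut σ 0) : σ = 1 := by
  ext1 v
  induction v with
  | nil => exact h.1
  | cons b v ih => rw [h.2, ih]; simp

/-- the action -/
def act (φ : V → ZMod 2) : V → V
  | [] => []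
  | b :: v => (b + φ v) :: act φ v

def actInv (φ : V → ZMod 2) : V → V
  | [] => []
  | b :: v => (b - φ (actInv φ v)) :: actInv φ v

theorem act_actInv (φ : V → ZMod 2) : ∀ v, act φ (actInv φ v) = v
  | [] => rfl
  | b :: v => by
      change (b - φ (actInv φ v) + φ (actInv φ v)) :: act φ (actInv φ v) = _
      rw [sub_add_cancel, act_actInv φ v]

theorem actInv_act (φ : V → ZMod 2) : ∀ v, actInv φ (act φ v) = v
  | [] => rfl
  | b :: v => by
      change (b + φ v - φ (actInv φ (act φ v))) :: actInv φ (act φ v) = _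
      rw [actInv_act φ v, add_sub_cancel_right]

/-- the tree automorphism with given labels -/
def toPerm (φ : V → ZMod 2) : Perm V := ⟨act φ, actInv φ, actInv_act φ, act_actInv φ⟩

theorem isAut_toPerm (φ : V → ZMod 2) : IsAut (toPerm φ) φ := ⟨rfl, fun _ _ => rfl⟩

theorem fix_of_length_le {σ : Perm V} {φ : V → ZMod 2} (h : IsAut σ φ) (w : V)
    (hφ : ∀ u : V, u.length < w.length → φ u = 0) : σ w = w := by
  induction w with
  | nil => exact h.1
  | cons b w ih =>
    rw [h.2, ih (fun u hu => hφ u (by rw [List.length_cons]; omega)),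
      hφ w (by rw [List.length_cons]; omega), add_zero]

/-- the label at a single vertex -/
noncomputable def sg (u : V) (x : ZMod 2) : Perm V := toPerm (Pi.single u x)

theorem isAut_sg (u : V) (x : ZMod 2) : IsAut (sg u x) (Pi.single u x) := isAut_toPerm _

theorem sg_fix_le (u : V) (x : ZMod 2) (w : V) (h : w.length ≤ u.length) : sg u x w = w :=
  fix_of_length_le (isAut_sg u x) w fun u' hu' => by
    rw [Pi.single_eq_of_ne]
    rintro rfl
    omega

theorem sg_fix (u : V) (x : ZMod 2) (w : V) (h : ∀ k, w.drop k ≠ u) : sg u x w = w := by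
  induction w with
  | nil => exact (isAut_sg u x).1
  | cons b w ih =>
    rw [(isAut_sg u x).2, ih (fun k => by simpa using h (k + 1)), Pi.single_eq_of_ne, add_zero]
    simpa using h 1

/-- the group of finitary automorphisms -/
def G : Subgroup (Perm V) where
  carrier := {σ | ∃ φ : V → ZMod 2, IsAut σ φ ∧ (Function.support φ).Finite}
  mul_mem' := by
    rintro σ τ ⟨φ, hφ, hf⟩ ⟨ψ, hψ, hf'⟩
    refine ⟨_, hφ.mul hψ, ?_⟩
    refine (hf'.union (hf.preimage (f := τ) τ.injective.injOn)).subset ?_
    intro v hv
    by_contra hcon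
    simp only [Set.mem_union, Function.mem_support, Set.mem_preimage, not_or, not_not] at hcon
    apply hv
    simp [hcon.1, hcon.2]
  one_mem' := ⟨0, IsAut.one, by simp⟩
  inv_mem' := by
    rintro σ ⟨φ, hφ, hf⟩
    refine ⟨_, hφ.inv, ?_⟩
    refine (hf.preimage (f := ⇑σ⁻¹) (σ⁻¹).injective.injOn).subset ?_
    intro v hv
    by_contra hcon
    simp only [Function.mem_support, Set.mem_preimage, not_not] at hcon
    apply hv
    simp only [hcon, neg_zero]

theorem sg_mem (u : V) (x : ZMod 2) : sg u x ∈ G :=
  ⟨_, isAut_sg u x, (Set.finite_singleton u).subset fun v hv => by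
    by_contra hcon
    exact hv (Pi.single_eq_of_ne hcon _)⟩

/-- label function of an element -/
def lab (σ : Perm V) (v : V) : ZMod 2 := (σ (0 :: v)).headI

theorem lab_eq {σ : Perm V} {φ : V → ZMod 2} (h : IsAut σ φ) : lab σ = φ := by
  funext v
  unfold lab
  rw [h.2]
  simp

theorem isAut_lab (g : G) : IsAut (g : Perm V) (lab (g : Perm V)) := by
  obtain ⟨φ, hφ, -⟩ := g.2
  rw [lab_eq hφ]; exact hφ

theorem lab_finite (g : G) : (Function.support (lab (g : Perm V))).Finite := by
  obtain ⟨φ, hφ, hf⟩ := g.2
  rw [lab_eq hφ]; exact hf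

theorem length_apply (g : G) (v : V) : ((g : Perm V) v).length = v.length :=
  (isAut_lab g).length v

theorem tail_apply (g : G) (v : V) : ((g : Perm V) v).tail = (g : Perm V) v.tail := by
  cases v with
  | nil => rw [(isAut_lab g).1]; exact (isAut_lab g).1.symm
  | cons b v => rw [(isAut_lab g).2]; rfl

theorem level_transitive : ∀ v w : V, v.length = w.length → ∃ g : G, (g : Perm V) v = w
  | [], w, h => ⟨1, by
      have : w = [] := List.eq_nil_of_length_eq_zero h.symm
      rw [this]; rfl⟩
  | b :: v, [], h => by simp at h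
  | b :: v, c :: w, h => by
      obtain ⟨g, hg⟩ := level_transitive v w (by simpa using h)
      refine ⟨⟨sg w (c - b - lab g v), sg_mem _ _⟩ * g, ?_⟩
      change sg w (c - b - lab g v) ((g : Perm V) (b :: v)) = _
      rw [(isAut_lab g).2, hg, (isAut_sg _ _).2, sg_fix_le w _ w le_rfl, Pi.single_eq_same]
      congr 1
      ring

/-- action on the levels up to `n` -/
def rho (n : ℕ) : G →* Perm {v : V // v.length ≤ n} where
  toFun g := (g : Perm V).subtypePerm fun v => by rw [length_apply]
  map_one' := by ext1 v; rfl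
  map_mul' g h := by ext1 v; rfl

theorem finite_level (n : ℕ) : {v : V | v.length = n}.Finite := List.finite_length_eq _ n

instance (n : ℕ) : Finite {v : V // v.length ≤ n} := (List.finite_length_le (ZMod 2) n).to_subtype

theorem mem_ker_rho {n : ℕ} {g : G} :
    g ∈ (rho n).ker ↔ ∀ v : V, v.length ≤ n → (g : Perm V) v = v := by
  rw [MonoidHom.mem_ker]
  constructor
  · intro h v hv
    have := congrArg (fun p : Perm {v : V // v.length ≤ n} => ((p ⟨v, hv⟩ : {v : V // v.length ≤ n}) : V)) h
    exact this
  · intro h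
    ext1 v
    apply Subtype.ext
    exact h v.1 v.2

/-- the set generating the rigid level stabilizer -/
def R (n : ℕ) : Set G := {g : G | ∃ v : V, v.length = n ∧
  ∀ w : V, (∀ k : ℕ, List.tail^[k] w ≠ v) → (g : Perm V) w = w}

theorem tail_iterate (k : ℕ) (w : V) : List.tail^[k] w = w.drop k := by
  induction k generalizing w with
  | zero => simp
  | succ k ih => rw [Function.iterate_succ_apply, ih, List.drop_tail]

theorem sg_mem_R {n : ℕ} {u : V} (hu : n ≤ u.length) (x : ZMod 2) :
    (⟨sg u x, sg_mem u x⟩ : G) ∈ R n := by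
  refine ⟨u.drop (u.length - n), by rw [List.length_drop]; omega, fun w hw => ?_⟩
  apply sg_fix
  intro k hk
  apply hw ((u.length - n) + k)
  rw [tail_iterate, Nat.add_comm, ← List.drop_drop, hk]

theorem mem_closure_R (n : ℕ) : ∀ (N : ℕ) (g : G), (lab_finite g).toFinset.card = N →
    (∀ u : V, u.length < n → lab g u = 0) → g ∈ Subgroup.closure (R n) := by
  intro N
  induction N with
  | zero =>
    intro g hg _
    have h1 : lab g = 0 := by
      funext v
      by_contra hv
      have h2 : v ∈ (lab_finite g).toFinset := by simpa using hv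
      rw [Finset.card_eq_zero] at hg
      rw [hg] at h2
      simp at h2
    have h3 := isAut_lab g
    rw [h1] at h3
    have h4 : g = 1 := Subtype.ext h3.eq_one
    rw [h4]
    exact Subgroup.one_mem _
  | succ N ih =>
    intro g hg hn
    obtain ⟨u, hu, hmax⟩ := Finset.exists_max_image (lab_finite g).toFinset List.length (by
      rw [← Finset.card_pos]; omega)
    have hu' : lab g u ≠ 0 := by simpa using hu
    have hun : n ≤ u.length := by
      by_contra h
      exact hu' (hn u (by omega))
    let s : G := ⟨sg u (- lab g u), sg_mem _ _⟩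
    have hlab : lab ((g * s : G) : Perm V) = fun w => if w = u then 0 else lab g w := by
      have h1 := (isAut_lab g).mul (isAut_sg u (- lab g u))
      have h2 := lab_eq h1
      change lab ((g : Perm V) * sg u (- lab g u)) = _
      rw [h2]
      funext w
      by_cases hw : w.length ≤ u.length
      · rw [sg_fix_le u _ w hw]
        by_cases hwu : w = u
        · subst hwu; rw [Pi.single_eq_same, if_pos rfl, neg_add_cancel]
        · simp [hwu]
      · have h3 : w ≠ u := by rintro rfl; omega
        have h4 : ∀ w' : V, u.length < w'.length → lab g w' = 0 := by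
          intro w' hw'
          by_contra hne
          have := hmax w' (by simpa using hne)
          omega
        rw [Pi.single_eq_of_ne h3, if_neg h3, h4 w (by omega), h4 _ (by
          rw [(isAut_sg u _).length]; omega), add_zero]
    have hcard : (lab_finite (g * s)).toFinset.card = N := by
      have : (lab_finite (g * s)).toFinset = (lab_finite g).toFinset.erase u := by
        ext w
        rw [Set.Finite.mem_toFinset, Finset.mem_erase, Set.Finite.mem_toFinset,
          Function.mem_support, Function.mem_support, hlab]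
        by_cases hwu : w = u
        · simp [hwu]
        · simp [hwu]
      rw [this, Finset.card_erase_of_mem hu, hg]
      rfl
    have h1 := ih (g * s) hcard (fun w hw => by
      rw [hlab]
      by_cases hwu : w = u
      · simp [hwu]
      · simp [hwu, hn w hw])
    have h2 : s ∈ Subgroup.closure (R n) := Subgroup.subset_closure (sg_mem_R hun _)
    have h3 := Subgroup.mul_mem _ h1 (Subgroup.inv_mem _ h2)
    rwa [mul_inv_cancel_right] at h3

theorem finiteIndex_rist (n : ℕ) : (Subgroup.closure (R n)).FiniteIndex := by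
  have h : (rho n).ker ≤ Subgroup.closure (R n) := by
    intro g hg
    rw [mem_ker_rho] at hg
    refine mem_closure_R n _ g rfl fun u hu => ?_
    have h1 := hg (0 :: u) (by rw [List.length_cons]; omega)
    rw [(isAut_lab g).2] at h1
    simpa using (List.cons.inj h1).1
  haveI : (rho n).ker.FiniteIndex := Subgroup.finiteIndex_ker _
  exact Subgroup.finiteIndex_of_le h

/-- sum of all labels on the levels in `A` -/
noncomputable def lam (A : Set ℕ) : G →* Multiplicative (ZMod 2) := by
  classical
  exact MonoidHom.mk' (fun g => Multiplicative.ofAdd (∑ᶠ v : V, if v.length ∈ A then lab g v else 0))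
    (by
      intro g h
      rw [← ofAdd_add]
      congr 1
      have h1 : lab ((g * h : G) : Perm V) = fun v => lab h v + lab g ((h : Perm V) v) :=
        lab_eq ((isAut_lab g).mul (isAut_lab h))
      have h2 : (∑ᶠ v : V, if v.length ∈ A then lab ((g * h : G) : Perm V) v else 0) =
          ∑ᶠ v : V, ((if v.length ∈ A then lab h v else 0) +
            (fun w : V => if w.length ∈ A then lab g w else 0) ((h : Perm V) v)) := by
        apply finsum_congr
        intro v
        rw [h1]
        simp only [length_apply]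
        split_ifs <;> simp
      have h3 : (∑ᶠ v : V, (fun w : V => if w.length ∈ A then lab g w else 0) ((h : Perm V) v)) =
          ∑ᶠ v : V, if v.length ∈ A then lab g v else 0 :=
        finsum_comp_equiv (h : Perm V) (f := fun w : V => if w.length ∈ A then lab g w else 0)
      rw [h2, finsum_add_distrib, add_comm, h3]
      · refine (lab_finite h).subset fun v hv => ?_
        by_contra hcon
        apply hv
        simp only [Function.mem_support, not_not] at hcon
        simp [hcon]
      · refine ((lab_finite g).preimage (f := (h : Perm V)) (h : Perm V).injective.injOn).subset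
          fun v hv => ?_
        by_contra hcon
        apply hv
        simp only [Set.mem_preimage, Function.mem_support, not_not] at hcon
        simp [hcon])

theorem lam_sg (A : Set ℕ) (u : V) : lam A ⟨sg u 1, sg_mem u 1⟩ = 1 ↔ u.length ∉ A := by
  classical
  change Multiplicative.ofAdd (∑ᶠ v : V, if v.length ∈ A then lab (sg u 1) v else 0) = 1 ↔ _
  rw [lab_eq (isAut_sg u 1)]
  have h1 : (∑ᶠ v : V, if v.length ∈ A then (Pi.single u 1 : V → ZMod 2) v else 0) =
      if u.length ∈ A then 1 else 0 := by
    rw [finsum_eq_single _ u]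
    · simp
    · intro v hv
      simp [hv]
  rw [h1]
  by_cases h : u.length ∈ A
  · simp [h]
  · simp [h]

noncomputable def M (a i : ℕ) : Subgroup G :=
  (rho i).ker ⊓ (lam {n | (Nat.unpair n).1 = a}).ker

theorem not_le (a b : ℕ) (hab : a ≠ b) (j : ℕ) : ¬ M b j ≤ M a 0 := by
  intro h
  let n := Nat.pair a j
  have hn : j ≤ n := Nat.right_le_pair a j
  let u : V := List.replicate n 0
  have hu : u.length = n := by simp [u]
  have h1 : (⟨sg u 1, sg_mem u 1⟩ : G) ∈ M b j := by
    refine Subgroup.mem_inf.2 ⟨mem_ker_rho.2 fun v hv => sg_fix_le u 1 v (by omega), ?_⟩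
    rw [MonoidHom.mem_ker, lam_sg, hu]
    simp only [n, Set.mem_ofPred_eq, Nat.unpair_pair]
    exact hab
  have h2 := (Subgroup.mem_inf.1 (h h1)).2
  rw [MonoidHom.mem_ker, lam_sg, hu] at h2
  apply h2
  simp [n, Nat.unpair_pair]

/-- There is a branch group (faithful, level-transitive on a locally finite rooted tree, finite-index rigid level stabilizers) with infinitely many pairwise inequivalent descending sequences of finite-index normal subgroups with trivial intersection. -/
theorem result :
    ∃ (G : Type) (_ : Group G) (V : Type) (_ : MulAction G V) (lev : V → ℕ) (par : V → V),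
      (∀ v w : V, lev v = 0 → lev w = 0 → v = w) ∧
      (∃ v : V, lev v = 0) ∧
      (∀ w : V, lev w = 0 → par w = w) ∧
      (∀ w : V, lev w ≠ 0 → lev (par w) + 1 = lev w) ∧
      (∀ n : ℕ, {v : V | lev v = n}.Finite) ∧
      (∀ v : V, ∃ w₁ w₂ : V, w₁ ≠ w₂ ∧ par w₁ = v ∧ par w₂ = v ∧
          lev w₁ = lev v + 1 ∧ lev w₂ = lev v + 1) ∧
      (∀ (g : G) (w : V), lev (g • w) = lev w ∧ par (g • w) = g • par w) ∧
      (∀ g : G, (∀ v : V, g • v = v) → g = 1) ∧
      (∀ v w : V, lev v = lev w → ∃ g : G, g • v = w) ∧
      (∀ n : ℕ, (Subgroup.closure {g : G | ∃ v : V, lev v = n ∧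
          ∀ w : V, (∀ k : ℕ, par^[k] w ≠ v) → g • w = w}).FiniteIndex) ∧
      ∃ M : ℕ → ℕ → Subgroup G,
        (∀ a : ℕ, Antitone (M a) ∧ (∀ i : ℕ, (M a i).Normal ∧ (M a i).FiniteIndex) ∧
            (⨅ i : ℕ, M a i) = ⊥) ∧
        (∀ a b : ℕ, a ≠ b →
            ¬ ((∀ i : ℕ, ∃ j : ℕ, M b j ≤ M a i) ∧ (∀ i : ℕ, ∃ j : ℕ, M a j ≤ M b i))) := by
  refine ⟨G, inferInstance, V, inferInstance, List.length, List.tail, ?_, ⟨[], rfl⟩, ?_, ?_,
    finite_level, ?_, fun g w => ⟨length_apply g w, tail_apply g w⟩, ?_, level_transitive,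
    finiteIndex_rist, M, ?_, ?_⟩
  · intro v w hv hw
    rw [List.eq_nil_of_length_eq_zero hv, List.eq_nil_of_length_eq_zero hw]
  · intro w hw
    rw [List.eq_nil_of_length_eq_zero hw]
    rfl
  · intro w hw
    rw [List.length_tail]
    omega
  · intro v
    exact ⟨0 :: v, 1 :: v, by simp, rfl, rfl, rfl, rfl⟩
  · intro g hg
    apply Subtype.ext
    ext1 v
    exact hg v
  · intro a
    refine ⟨?_, ?_, ?_⟩
    · intro i j hij g hg
      obtain ⟨h1, h2⟩ := Subgroup.mem_inf.1 hg
      refine Subgroup.mem_inf.2 ⟨mem_ker_rho.2 fun v hv => mem_ker_rho.1 h1 v (hv.trans hij), h2⟩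
    · intro i
      haveI : (rho i).ker.FiniteIndex := Subgroup.finiteIndex_ker _
      haveI : (lam {n | (Nat.unpair n).1 = a}).ker.FiniteIndex := Subgroup.finiteIndex_ker _
      exact ⟨by unfold M; infer_instance, by unfold M; infer_instance⟩
    · rw [eq_bot_iff]
      intro g hg
      rw [Subgroup.mem_iInf] at hg
      rw [Subgroup.mem_bot]
      apply Subtype.ext
      ext1 v
      exact mem_ker_rho.1 (Subgroup.mem_inf.1 (hg v.length)).1 v le_rfl
  · rintro a b hab ⟨h1, -⟩
    obtain ⟨j, hj⟩ := h1 0
    exact not_le a b hab j hj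

end Pool.Agent.S00609
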