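import Pool.Statements.S00753
-- import your own Pool.Agent.* helpers here
import Pool.Agent.V1121.SqGeo

set_option autoImplicit false
open Pool Pool.MP_104382_al

namespace Pool.Agent.S00753

/-- The open unit square in the plane can be split into finitely many pairwise disjoint pieces forming two groups, and each group can be moved by determinant-one real linear maps so that its images exactly cover the square again. -/
theorem result :
    ∃ (n m : ℕ) (A : Fin n → Set (Fin 2 → ℝ)) (B : Fin m → Set (Fin 2 → ℝ))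
      (g : Fin n → Matrix.SpecialLinearGroup (Fin 2) ℝ)
      (h : Fin m → Matrix.SpecialLinearGroup (Fin 2) ℝ),
      (∀ i, A i ⊆ {v : Fin 2 → ℝ | ∀ k, 0 < v k ∧ v k < 1}) ∧
      (∀ j, B j ⊆ {v : Fin 2 → ℝ | ∀ k, 0 < v k ∧ v k < 1}) ∧
      Pairwise (fun i i' => Disjoint (A i) (A i')) ∧
      Pairwise (fun j j' => Disjoint (B j) (B j')) ∧
      (∀ i j, Disjoint (A i) (B j)) ∧
      (⋃ i, (fun v => Matrix.mulVec ((g i : Matrix (Fin 2) (Fin 2) ℝ)) v) '' A i)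
        = {v : Fin 2 → ℝ | ∀ k, 0 < v k ∧ v k < 1} ∧
      (⋃ j, (fun v => Matrix.mulVec ((h j : Matrix (Fin 2) (Fin 2) ℝ)) v) '' B j)
        = {v : Fin 2 → ℝ | ∀ k, 0 < v k ∧ v k < 1} := by
  classical
  obtain ⟨S, hS⟩ := Pool.Agent.V1121.Sq.matching
  let Q : Set (Fin 2 → ℝ) := {v : Fin 2 → ℝ | ∀ k, 0 < v k ∧ v k < 1}
  let T : {x : Fin 2 → ℝ // x ∈ Q} × Bool → Finset (Fin 2 → ℝ) := fun p =>
    (S.image fun σ : Matrix.SpecialLinearGroup (Fin 2) ℝ =>
      (σ : Matrix (Fin 2) (Fin 2) ℝ).mulVec p.1.1).filter fun y => y ∈ Q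
  have hall : ∀ s : Finset ({x : Fin 2 → ℝ // x ∈ Q} × Bool), s.card ≤ (s.biUnion T).card := by
    intro s
    let H : Finset (Fin 2 → ℝ) := s.image fun p => p.1.1
    have hH : ∀ x ∈ H, x ∈ Pool.Agent.V1121.Sq.Q := by
      intro x hx
      obtain ⟨p, hp, rfl⟩ := Finset.mem_image.1 hx
      exact p.1.2
    obtain ⟨K, hK, hKH⟩ := hS H hH
    have h1 : s.card ≤ 2 * H.card := by
      have h2 : s.card ≤ (H ×ˢ (Finset.univ : Finset Bool)).card := by
        refine Finset.card_le_card_of_injOn (fun p => (p.1.1, p.2)) ?_ ?_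
        · intro p hp
          exact Finset.mem_product.2 ⟨Finset.mem_image.2 ⟨p, hp, rfl⟩, Finset.mem_univ _⟩
        · rintro ⟨p, b⟩ _ ⟨p', b'⟩ _ h
          have h3 := congrArg Prod.fst h
          have h4 := congrArg Prod.snd h
          exact Prod.ext (Subtype.ext h3) h4
      rw [Finset.card_product, Finset.card_univ, Fintype.card_bool] at h2
      omega
    refine h1.trans (hK.trans (Finset.card_le_card ?_))
    intro y hy
    obtain ⟨hyQ, x, hx, σ, hσ, rfl⟩ := hKH y hy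
    obtain ⟨p, hp, rfl⟩ := Finset.mem_image.1 hx
    exact Finset.mem_biUnion.2 ⟨p, hp, Finset.mem_filter.2 ⟨Finset.mem_image.2 ⟨σ, hσ, rfl⟩, hyQ⟩⟩
  obtain ⟨f, hf, hfT⟩ := (Finset.all_card_le_biUnion_card_iff_exists_injective T).1 hall
  have hσ : ∀ p, ∃ σ : Matrix.SpecialLinearGroup (Fin 2) ℝ, σ ∈ S ∧ (σ : Matrix (Fin 2) (Fin 2) ℝ).mulVec p.1.1 = f p := fun p => by
    obtain ⟨σ, h1, h2⟩ := Finset.mem_image.1 (Finset.mem_filter.1 (hfT p)).1
    exact ⟨σ, h1, h2⟩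
  choose σ hσS hσf using hσ
  have hfQ : ∀ p, f p ∈ Q := fun p => (Finset.mem_filter.1 (hfT p)).2
  let e := S.equivFin
  let A : Bool → Fin S.card → Set (Fin 2 → ℝ) := fun b i =>
    {y | ∃ x : {x : Fin 2 → ℝ // x ∈ Q}, σ (x, b) = (e.symm i).1 ∧ f (x, b) = y}
  have hA1 : ∀ b i, A b i ⊆ Q := by
    rintro b i y ⟨x, -, rfl⟩
    exact hfQ _
  have hA2 : ∀ b, Pairwise (fun i i' => Disjoint (A b i) (A b i')) := by
    intro b i i' hii
    rw [Set.disjoint_left]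
    rintro y ⟨x, h1, rfl⟩ ⟨x', h2, h3⟩
    have h4 := hf h3
    rw [h4, h1] at h2
    exact hii (e.symm.injective (Subtype.ext h2))
  have hA3 : ∀ i j, Disjoint (A false i) (A true j) := by
    intro i j
    rw [Set.disjoint_left]
    rintro y ⟨x, h1, rfl⟩ ⟨x', h2, h3⟩
    have h4 := congrArg Prod.snd (hf h3)
    exact Bool.noConfusion h4
  have hA4 : ∀ b, (⋃ i, (fun v => Matrix.mulVec ((((e.symm i).1)⁻¹ :
      Matrix.SpecialLinearGroup (Fin 2) ℝ) : Matrix (Fin 2) (Fin 2) ℝ) v) '' A b i) = Q := by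
    intro b
    have hinv : ∀ (τ : Matrix.SpecialLinearGroup (Fin 2) ℝ) (v : Fin 2 → ℝ),
        Matrix.mulVec ((τ⁻¹ : Matrix.SpecialLinearGroup (Fin 2) ℝ) : Matrix (Fin 2) (Fin 2) ℝ)
          (Matrix.mulVec (τ : Matrix (Fin 2) (Fin 2) ℝ) v) = v := by
      intro τ v
      rw [Matrix.mulVec_mulVec, ← Matrix.SpecialLinearGroup.coe_mul, inv_mul_cancel,
        Matrix.SpecialLinearGroup.coe_one, Matrix.one_mulVec]
    ext y
    constructor
    · intro hy
      obtain ⟨i, hi⟩ := Set.mem_iUnion.1 hy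
      obtain ⟨z, ⟨x, h1, rfl⟩, rfl⟩ := hi
      beta_reduce
      rw [← hσf, h1, hinv]
      exact x.2
    · intro hy
      refine Set.mem_iUnion.2 ⟨e ⟨σ (⟨y, hy⟩, b), hσS _⟩, ?_⟩
      refine ⟨f (⟨y, hy⟩, b), ⟨⟨y, hy⟩, by rw [Equiv.symm_apply_apply], rfl⟩, ?_⟩
      beta_reduce
      rw [Equiv.symm_apply_apply, ← hσf, hinv]
  exact ⟨S.card, S.card, A false, A true, fun i => ((e.symm i).1)⁻¹, fun i => ((e.symm i).1)⁻¹,
    hA1 false, hA1 true, hA2 false, hA2 true, hA3, hA4 false, hA4 true⟩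

end Pool.Agent.S00753
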