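import Pool.Statements.S00830
-- import your own Pool.Agent.* helpers here

set_option autoImplicit false
open Pool Pool.MP_196888_al

/-!
Counterexample. Let `G = (C₇ × C₁₃) ⋊ C₃`, where the generator of `C₃` acts on `C₇` by `a ↦ 2 a` and
on `C₁₃` by `b ↦ 3 b`, and let `K` be the group obtained from `G` by reversing the multiplication
in the second coordinate (so that the generator of `C₃` acts on `C₁₃` by `b ↦ 9 b`). The groups
`G` and `K` have the same underlying set and they are not isomorphic, but for every `n` a subset of the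
underlying set of `G ^ n` is a subgroup of `G ^ n` if and only if it is a subgroup of `K ^ n`:
the product of `x` and `y` in `K ^ n` is `x * y * (y⁻¹ * x⁻¹ * y * x) ^ 14` in `G ^ n`, and conversely.
-/

namespace Pool.Agent.S00830

/-- the character of `C₃` with values in the units modulo 7 -/
def c7 : ZMod 3 → ZMod 7 := ![1, 2, 4]

/-- the character of `C₃` with values in the units modulo 13 -/
def c13 : ZMod 3 → ZMod 13 := ![1, 3, 9]

lemma c7_add : ∀ k l : ZMod 3, c7 (k + l) = c7 k * c7 l := by decide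
lemma c13_add : ∀ k l : ZMod 3, c13 (k + l) = c13 k * c13 l := by decide
lemma c7_zero : c7 0 = 1 := rfl
lemma c13_zero : c13 0 = 1 := rfl

/-- The underlying set of the group `G`. -/
@[ext] structure GA where
  /-- the component in the cyclic group of order 7 -/
  a : ZMod 7
  /-- the component in the cyclic group of order 13 -/
  b : ZMod 13
  /-- the component in the cyclic group of order 3 -/
  k : ZMod 3

/-- The underlying set of the group `K`. -/
@[ext] structure GB where
  /-- the component in the cyclic group of order 7 -/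
  a : ZMod 7
  /-- the component in the cyclic group of order 13 -/
  b : ZMod 13
  /-- the component in the cyclic group of order 3 -/
  k : ZMod 3

instance : Mul GA := ⟨fun x y => ⟨x.a + c7 x.k * y.a, x.b + c13 x.k * y.b, x.k + y.k⟩⟩
instance : One GA := ⟨⟨0, 0, 0⟩⟩
instance : Inv GA := ⟨fun x => ⟨-(c7 (-x.k) * x.a), -(c13 (-x.k) * x.b), -x.k⟩⟩

instance : Mul GB := ⟨fun x y => ⟨x.a + c7 x.k * y.a, y.b + c13 y.k * x.b, x.k + y.k⟩⟩
instance : One GB := ⟨⟨0, 0, 0⟩⟩
instance : Inv GB := ⟨fun x => ⟨-(c7 (-x.k) * x.a), -(c13 (-x.k) * x.b), -x.k⟩⟩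

lemma A_mul (x y : GA) : x * y = ⟨x.a + c7 x.k * y.a, x.b + c13 x.k * y.b, x.k + y.k⟩ := rfl
lemma A_one : (1 : GA) = ⟨0, 0, 0⟩ := rfl
lemma A_inv (x : GA) : x⁻¹ = ⟨-(c7 (-x.k) * x.a), -(c13 (-x.k) * x.b), -x.k⟩ := rfl
lemma B_mul (x y : GB) : x * y = ⟨x.a + c7 x.k * y.a, y.b + c13 y.k * x.b, x.k + y.k⟩ := rfl
lemma B_one : (1 : GB) = ⟨0, 0, 0⟩ := rfl
lemma B_inv (x : GB) : x⁻¹ = ⟨-(c7 (-x.k) * x.a), -(c13 (-x.k) * x.b), -x.k⟩ := rfl

instance : Group GA := Group.ofLeftAxioms
  (by
    intro x y z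
    simp only [A_mul, c7_add, c13_add]
    ext <;> simp only <;> ring)
  (by
    intro x
    simp only [A_mul, A_one, c7_zero, c13_zero]
    ext <;> simp only <;> ring)
  (by
    intro x
    simp only [A_mul, A_one, A_inv]
    ext <;> simp only <;> ring)

instance : Group GB := Group.ofLeftAxioms
  (by
    intro x y z
    simp only [B_mul, c7_add, c13_add]
    ext <;> simp only <;> ring)
  (by
    intro x
    simp only [B_mul, B_one, c7_zero]
    ext <;> simp only <;> ring)
  (by
    intro x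
    have h : c13 x.k * c13 (-x.k) = 1 := by rw [← c13_add]; simp [c13_zero]
    simp only [B_mul, B_one, B_inv]
    ext
    · simp only; ring
    · simp only
      rw [show x.b + c13 x.k * -(c13 (-x.k) * x.b) = x.b - (c13 x.k * c13 (-x.k)) * x.b by ring, h]
      ring
    · simp only; ring)

/-- The identity map of the underlying sets of the two groups. -/
def e : GA ≃ GB where
  toFun x := ⟨x.a, x.b, x.k⟩
  invFun x := ⟨x.a, x.b, x.k⟩
  left_inv _ := rfl
  right_inv _ := rfl

lemma A_pow (c : ZMod 7) (d : ZMod 13) (n : ℕ) : (⟨c, d, 0⟩ : GA) ^ n = ⟨n * c, n * d, 0⟩ := by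
  induction n with
  | zero => simp [A_one]
  | succ n ih =>
    rw [pow_succ, ih, A_mul]
    simp only [c7_zero, c13_zero]
    ext <;> simp only <;> push_cast <;> ring

lemma B_pow (c : ZMod 7) (d : ZMod 13) (n : ℕ) : (⟨c, d, 0⟩ : GB) ^ n = ⟨n * c, n * d, 0⟩ := by
  induction n with
  | zero => simp [B_one]
  | succ n ih =>
    rw [pow_succ, ih, B_mul]
    simp only [c7_zero, c13_zero]
    ext <;> simp only <;> push_cast <;> ring

lemma h7 : ((14 : ℕ) : ZMod 7) = 0 := by decide
lemma h13 : ((14 : ℕ) : ZMod 13) = 1 := by decide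

lemma c13_neg (k : ZMod 3) : c13 k * c13 (-k) = 1 := by rw [← c13_add]; simp [c13_zero]

lemma keyA (x y : GA) : e.symm (e x * e y) = x * y * (y⁻¹ * x⁻¹ * y * x) ^ 14 := by
  obtain ⟨α, hα⟩ : ∃ α, y⁻¹ * x⁻¹ * y * x = ⟨α, c13 (-y.k) * c13 (-x.k) *
      (-(c13 x.k) * y.b - x.b + y.b + c13 y.k * x.b), 0⟩ := by
    refine ⟨(y⁻¹ * x⁻¹ * y * x).a, ?_⟩
    have hx := c13_neg x.k
    have hy := c13_neg y.k
    simp only [A_mul, A_inv, c7_add, c13_add]
    ext
    · rfl
    · simp only
      generalize c13 x.k = s at *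
      generalize c13 y.k = t at *
      generalize c13 (-x.k) = u at *
      generalize c13 (-y.k) = v at *
      linear_combination (v * y.b) * hx
    · simp only; ring
  rw [hα, A_pow, h7, h13]
  have hx := c13_neg x.k
  have hy := c13_neg y.k
  simp only [e, A_mul, B_mul, c13_add, Equiv.coe_fn_mk, Equiv.coe_fn_symm_mk]
  ext
  · simp only; ring
  · simp only
    generalize c13 x.k = s at *
    generalize c13 y.k = t at *
    generalize c13 (-x.k) = u at *
    generalize c13 (-y.k) = v at *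
    linear_combination (-(-s * y.b - x.b + y.b + t * x.b)) * (t * v) * hx
      + (-(-s * y.b - x.b + y.b + t * x.b)) * hy
  · simp only; ring

lemma keyB (x y : GB) : e (e.symm x * e.symm y) = x * y * (y⁻¹ * x⁻¹ * y * x) ^ 14 := by
  obtain ⟨α, hα⟩ : ∃ α, y⁻¹ * x⁻¹ * y * x = ⟨α,
      x.b + c13 x.k * y.b - y.b - c13 y.k * x.b, 0⟩ := by
    refine ⟨(y⁻¹ * x⁻¹ * y * x).a, ?_⟩
    have hx := c13_neg x.k
    have hy := c13_neg y.k
    simp only [B_mul, B_inv, c7_add]
    ext
    · rfl
    · simp only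
      generalize c13 x.k = s at *
      generalize c13 y.k = t at *
      generalize c13 (-x.k) = u at *
      generalize c13 (-y.k) = v at *
      linear_combination (-(x.b * t) - y.b * t * v) * hx + (-y.b) * hy
    · simp only; ring
  rw [hα, B_pow, h7, h13]
  simp only [e, A_mul, B_mul, Equiv.coe_fn_mk, Equiv.coe_fn_symm_mk]
  ext
  · simp only; ring
  · simp only [c13_zero]; ring
  · simp only; ring

lemma e_one : e 1 = 1 := rfl
lemma e_inv (x : GA) : e x⁻¹ = (e x)⁻¹ := rfl
lemma e_symm_inv (x : GB) : e.symm x⁻¹ = (e.symm x)⁻¹ := rfl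

/-- The identity map from the underlying set of `G × G` to that of `K × K`. -/
def E : (Fin 2 → GA) ≃ (Fin 2 → GB) := Equiv.piCongrRight fun _ => e

lemma E_apply (x : Fin 2 → GA) (i : Fin 2) : E x i = e (x i) := rfl
lemma E_symm_apply (x : Fin 2 → GB) (i : Fin 2) : E.symm x i = e.symm (x i) := rfl

lemma keyA' (x y : Fin 2 → GA) : E.symm (E x * E y) = x * y * (y⁻¹ * x⁻¹ * y * x) ^ 14 := by
  funext i
  exact keyA (x i) (y i)

lemma keyB' (x y : Fin 2 → GB) : E (E.symm x * E.symm y) = x * y * (y⁻¹ * x⁻¹ * y * x) ^ 14 := by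
  funext i
  exact keyB (x i) (y i)

lemma E_one : E 1 = 1 := by funext i; exact e_one
lemma E_symm_one : E.symm 1 = 1 := by rw [Equiv.symm_apply_eq]; exact E_one.symm
lemma E_inv (x : Fin 2 → GA) : E x⁻¹ = (E x)⁻¹ := by funext i; exact e_inv (x i)
lemma E_symm_inv (x : Fin 2 → GB) : E.symm x⁻¹ = (E.symm x)⁻¹ := by
  funext i; exact e_symm_inv (x i)

/-- A subgroup of `K × K` regarded as a subgroup of `G × G`. -/
def pull (S : Subgroup (Fin 2 → GB)) : Subgroup (Fin 2 → GA) where
  carrier := {x | E x ∈ S}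
  one_mem' := by
    rw [Set.mem_ofPred_eq, E_one]; exact S.one_mem
  inv_mem' {x} hx := by
    rw [Set.mem_ofPred_eq] at hx ⊢
    rw [E_inv]; exact S.inv_mem hx
  mul_mem' {x y} hx hy := by
    have h := keyB' (E x) (E y)
    simp only [Equiv.symm_apply_apply] at h
    simp only [Set.mem_ofPred_eq] at hx hy ⊢
    rw [h]
    exact S.mul_mem (S.mul_mem hx hy) (S.pow_mem (S.mul_mem (S.mul_mem (S.mul_mem
      (S.inv_mem hy) (S.inv_mem hx)) hy) hx) 14)

/-- A subgroup of `G × G` regarded as a subgroup of `K × K`. -/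
def push (S : Subgroup (Fin 2 → GA)) : Subgroup (Fin 2 → GB) where
  carrier := {x | E.symm x ∈ S}
  one_mem' := by
    rw [Set.mem_ofPred_eq, E_symm_one]; exact S.one_mem
  inv_mem' {x} hx := by
    rw [Set.mem_ofPred_eq] at hx ⊢
    rw [E_symm_inv]; exact S.inv_mem hx
  mul_mem' {x y} hx hy := by
    have h := keyA' (E.symm x) (E.symm y)
    simp only [Equiv.apply_symm_apply] at h
    simp only [Set.mem_ofPred_eq] at hx hy ⊢
    rw [h]
    exact S.mul_mem (S.mul_mem hx hy) (S.pow_mem (S.mul_mem (S.mul_mem (S.mul_mem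
      (S.inv_mem hy) (S.inv_mem hx)) hy) hx) 14)

/-- The projectivity. -/
def Φ : Subgroup (Fin 2 → GA) ≃o Subgroup (Fin 2 → GB) where
  toFun := push
  invFun := pull
  left_inv S := by
    ext x
    change E.symm (E x) ∈ S ↔ x ∈ S
    rw [Equiv.symm_apply_apply]
  right_inv S := by
    ext x
    change E (E.symm x) ∈ S ↔ x ∈ S
    rw [Equiv.apply_symm_apply]
  map_rel_iff' {S T} := by
    constructor
    · intro h x hx
      have h2 : E x ∈ push T := h (show E.symm (E x) ∈ S by rwa [Equiv.symm_apply_apply])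
      change E.symm (E x) ∈ T at h2
      rwa [Equiv.symm_apply_apply] at h2
    · intro h x hx
      exact h hx

lemma mem_range {G : Type} [Group G] (i : Fin 2) (x : Fin 2 → G) :
    x ∈ (MonoidHom.mulSingle (fun _ : Fin 2 => G) i).range ↔ ∀ j, j ≠ i → x j = 1 := by
  constructor
  · rintro ⟨g, rfl⟩ j hj
    exact Pi.mulSingle_eq_of_ne (M := fun _ => G) hj g
  · intro h
    refine ⟨x i, ?_⟩
    funext j
    by_cases hj : j = i
    · subst hj
      exact Pi.mulSingle_eq_same (M := fun _ => G) j (x j)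
    · rw [h j hj]
      exact Pi.mulSingle_eq_of_ne (M := fun _ => G) hj (x i)

lemma Φ_range (i : Fin 2) : Φ (MonoidHom.mulSingle (fun _ : Fin 2 => GA) i).range =
    (MonoidHom.mulSingle (fun _ : Fin 2 => GB) i).range := by
  ext x
  rw [mem_range]
  change E.symm x ∈ (MonoidHom.mulSingle (fun _ : Fin 2 => GA) i).range ↔ _
  rw [mem_range]
  constructor
  · intro h j hj
    have := congrArg e (h j hj)
    exact this
  · intro h j hj
    have := congrArg e.symm (h j hj)
    exact this

lemma B_pow_k (x : GB) (n : ℕ) : (x ^ n).k = n * x.k := by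
  induction n with
  | zero => simp [B_one]
  | succ n ih =>
    rw [pow_succ, B_mul]
    simp only [ih]
    push_cast
    ring

lemma not_iso : ¬ Nonempty (GB ≃* GA) := by
  rintro ⟨f⟩
  -- `x` acts on `C₇` by `2` and on `C₁₃` by `3`
  have h1 : (⟨0, 0, 1⟩ : GA) * ⟨1, 0, 0⟩ = ⟨1, 0, 0⟩ ^ 2 * ⟨0, 0, 1⟩ := by
    rw [A_pow, A_mul, A_mul]; ext <;> decide
  have h2 : (⟨0, 0, 1⟩ : GA) * ⟨0, 1, 0⟩ = ⟨0, 1, 0⟩ ^ 3 * ⟨0, 0, 1⟩ := by
    rw [A_pow, A_mul, A_mul]; ext <;> decide
  have h3 : (⟨1, 0, 0⟩ : GA) ^ 7 = 1 := by rw [A_pow, A_one]; ext <;> decide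
  have h4 : (⟨0, 1, 0⟩ : GA) ^ 13 = 1 := by rw [A_pow, A_one]; ext <;> decide
  have h5 : (⟨1, 0, 0⟩ : GA) ≠ 1 := by
    intro h; have := congrArg GA.a h; revert this; decide
  have h6 : (⟨0, 1, 0⟩ : GA) ≠ 1 := by
    intro h; have := congrArg GA.b h; revert this; decide
  obtain ⟨x, hx⟩ : ∃ x, f.symm (⟨0, 0, 1⟩ : GA) = x := ⟨_, rfl⟩
  obtain ⟨y, hy⟩ : ∃ y, f.symm (⟨1, 0, 0⟩ : GA) = y := ⟨_, rfl⟩
  obtain ⟨z, hz⟩ : ∃ z, f.symm (⟨0, 1, 0⟩ : GA) = z := ⟨_, rfl⟩
  have g1 := congrArg f.symm h1
  have g2 := congrArg f.symm h2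
  have g3 := congrArg f.symm h3
  have g4 := congrArg f.symm h4
  simp only [map_mul, map_pow, map_one, hx, hy, hz] at g1 g2 g3 g4
  have g5 : y ≠ 1 := by
    rintro rfl
    apply h5
    rw [← f.apply_symm_apply (⟨1, 0, 0⟩ : GA), hy, map_one]
  have g6 : z ≠ 1 := by
    rintro rfl
    apply h6
    rw [← f.apply_symm_apply (⟨0, 1, 0⟩ : GA), hz, map_one]
  have k1 : y.k = 0 := by
    have h := congrArg GB.k g3
    rw [B_pow_k] at h
    change _ = (0 : ZMod 3) at h
    revert h
    generalize y.k = k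
    revert k
    decide
  have k2 : z.k = 0 := by
    have h := congrArg GB.k g4
    rw [B_pow_k] at h
    change _ = (0 : ZMod 3) at h
    revert h
    generalize z.k = k
    revert k
    decide
  have y1 : y = ⟨y.a, y.b, 0⟩ := by ext <;> first | rfl | exact k1
  have z1 : z = ⟨z.a, z.b, 0⟩ := by ext <;> first | rfl | exact k2
  have y2 : y.b = 0 := by
    rw [y1, B_pow, B_one] at g3
    have h := congrArg GB.b g3
    simp only at h
    revert h
    generalize y.b = b
    revert b
    decide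
  have z2 : z.a = 0 := by
    rw [z1, B_pow, B_one] at g4
    have h := congrArg GB.a g4
    simp only at h
    revert h
    generalize z.a = a
    revert a
    decide
  have y3 : y.a ≠ 0 := by
    intro h
    apply g5
    rw [y1, h, y2, B_one]
  have z3 : z.b ≠ 0 := by
    intro h
    apply g6
    rw [z1, h, z2, B_one]
  have x1 : x.k = 1 := by
    rw [y1, B_pow, B_mul, B_mul] at g1
    have h := congrArg GB.a g1
    simp only [c7_zero, one_mul] at h
    have h' : c7 x.k * y.a = ((2 : ℕ) : ZMod 7) * y.a := by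
      linear_combination h
    revert h' y3
    generalize y.a = a
    generalize x.k = k
    revert a k
    decide
  rw [z1, B_pow, B_mul, B_mul] at g2
  have h := congrArg GB.b g2
  simp only [c13_zero, one_mul, x1] at h
  have h' : z.b = c13 1 * (((3 : ℕ) : ZMod 13) * z.b) := by
    linear_combination h
  revert h' z3
  generalize z.b = b
  revert b
  decide

lemma normal_range {G : Type} [Group G] (i : Fin 2) :
    (MonoidHom.mulSingle (fun _ : Fin 2 => G) i).range.Normal := by
  constructor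
  intro n hn g
  rw [mem_range] at hn ⊢
  intro j hj
  simp [hn j hj]

lemma iSup_range {G : Type} [Group G] :
    (⨆ i : Fin 2, (MonoidHom.mulSingle (fun _ : Fin 2 => G) i).range) = ⊤ := by
  rw [eq_top_iff]
  intro x _
  have h : x = Pi.mulSingle (M := fun _ : Fin 2 => G) 0 (x 0) *
      Pi.mulSingle (M := fun _ : Fin 2 => G) 1 (x 1) := by
    funext i
    fin_cases i <;> simp
  rw [h]
  refine Subgroup.mul_mem _ ?_ ?_
  · exact Subgroup.mem_iSup_of_mem 0 ⟨x 0, rfl⟩
  · exact Subgroup.mem_iSup_of_mem 1 ⟨x 1, rfl⟩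

lemma indep_range {G : Type} [Group G] :
    iSupIndep (fun i : Fin 2 => (MonoidHom.mulSingle (fun _ : Fin 2 => G) i).range) := by
  intro i
  rw [disjoint_iff_inf_le]
  rintro x ⟨h1, h2⟩
  have h3 : (⨆ j, ⨆ (_ : j ≠ i), (MonoidHom.mulSingle (fun _ : Fin 2 => G) j).range) ≤
      (Pi.evalMonoidHom (fun _ : Fin 2 => G) i).ker := by
    refine iSup_le fun j => iSup_le fun hj => ?_
    intro y hy
    rw [mem_range] at hy
    exact hy i (Ne.symm hj)
  have h4 : x i = 1 := h3 h2
  have h5 := (mem_range i x).1 h1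
  rw [Subgroup.mem_bot]
  funext j
  by_cases hj : j = i
  · rw [hj]; exact h4
  · exact h5 j hj

/-- The negation of the preceding statement: For every group G, every m ≥ 2 and every lattice isomorphism φ from the subgroups of G^m to the subgroups of a group H such that H is the internal direct product of the images of the coordinate subgroups, the image of the first coordinate subgroup is isomorphic to G. -/
theorem result :
    ¬ (∀ (G : Type) [Group G] (n : ℕ) (H : Type) [Group H]
      (φ : Subgroup (Fin (n + 2) → G) ≃o Subgroup H),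
      (∀ i : Fin (n + 2),
          (φ (MonoidHom.mulSingle (fun _ : Fin (n + 2) => G) i).range).Normal) →
      (⨆ i : Fin (n + 2), φ (MonoidHom.mulSingle (fun _ : Fin (n + 2) => G) i).range) = ⊤ →
      iSupIndep (fun i : Fin (n + 2) =>
          φ (MonoidHom.mulSingle (fun _ : Fin (n + 2) => G) i).range) →
      Nonempty (↥(φ (MonoidHom.mulSingle (fun _ : Fin (n + 2) => G) 0).range) ≃* G)) := by
  intro h
  have h1 := h GA 0 (Fin 2 → GB) Φ
    (fun i => by rw [Φ_range]; exact normal_range i)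
    ((iSup_congr Φ_range).trans iSup_range)
    (by
      have h2 := indep_range (G := GB)
      rw [← funext Φ_range] at h2
      exact h2)
  obtain ⟨f⟩ := h1
  apply not_iso
  refine ⟨MulEquiv.trans ?_ f⟩
  refine MulEquiv.trans ?_ (MulEquiv.subgroupCongr (Φ_range 0).symm)
  exact MonoidHom.ofInjective (Pi.mulSingle_injective (M := fun _ : Fin 2 => GB) 0)

end Pool.Agent.S00830
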