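import Pool.Statements.S00878
import Pool.Agent.Y55.Fpf.Neg

set_option autoImplicit false
open scoped Pointwise
open Pool Pool.MP_1dd661_al

namespace Pool.Agent.S00878

/-! The flat group is an infinite finitely generated periodic group `Γ` (from the starting library,
`Pool.Agent.Y55.Fpf.counter`) which acts by shifts on the compact group `(ℤ/2)^Γ`.  Every element has
finite order, so its nub is trivial; but no proper open subgroup is invariant under `Γ`, so that
the nub of the whole group is `(ℤ/2)^Γ`. -/

section Shift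

variable {Γ : Type} [Group Γ] {A : Type} [Group A]

/-- the shift by `g` -/
def shift (g : Γ) : MulAut (Γ → A) where
  toFun f := fun x => f (x * g)
  invFun f := fun x => f (x * g⁻¹)
  left_inv f := by funext x; simp
  right_inv f := by funext x; simp
  map_mul' f h := rfl

/-- the action by shifts -/
def sig : Γ →* MulAut (Γ → A) where
  toFun := shift
  map_one' := by
    ext f x
    simp [shift]
  map_mul' g h := by
    ext f x
    simp [shift, mul_assoc]

lemma sig_apply (g : Γ) (f : Γ → A) (x : Γ) : (sig g : MulAut (Γ → A)) f x = f (x * g) := rfl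

end Shift

/-- tidiness, as in the statement -/
def Tidy {G : Type} [Group G] [TopologicalSpace G] (a : MulAut G) (U : Subgroup G) : Prop :=
  ((U : Set G) =
      (⋂ n : ℕ, Set.image (⇑(a ^ n)) (U : Set G)) *
        (⋂ n : ℕ, Set.image (⇑(a⁻¹ ^ n)) (U : Set G)) ∧
    IsClosed (⋃ m : ℕ, Set.image (⇑(a ^ m))
        (⋂ n : ℕ, Set.image (⇑(a ^ n)) (U : Set G))))

lemma mul_self_sub {G : Type} [Group G] (U : Subgroup G) : (U : Set G) * (U : Set G) = U := by
  ext x
  constructor
  · rintro ⟨p, hp, q, hq, rfl⟩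
    exact U.mul_mem hp hq
  · intro hx
    exact ⟨x, hx, 1, U.one_mem, mul_one x⟩

/-- an invariant closed subgroup is tidy -/
lemma tidy_of_inv {G : Type} [Group G] [TopologicalSpace G] (a : MulAut G) (U : Subgroup G)
    (h1 : ∀ n : ℕ, Set.image (⇑(a ^ n)) (U : Set G) = U)
    (h2 : ∀ n : ℕ, Set.image (⇑(a⁻¹ ^ n)) (U : Set G) = U)
    (hc : IsClosed (U : Set G)) : Tidy a U := by
  unfold Tidy
  simp only [h1, h2, Set.iInter_const, mul_self_sub, Set.iUnion_const]
  exact ⟨trivial, hc⟩

/-- a subgroup which is tidy for an automorphism of finite order is invariant -/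
lemma sub_image {G : Type} [Group G] [TopologicalSpace G] (a : MulAut G) (ha : IsOfFinOrder a)
    (U : Subgroup G) (h : Tidy a U) : (U : Set G) ⊆ Set.image (⇑a) (U : Set G) := by
  intro x hx
  rw [h.1] at hx
  obtain ⟨p, hp, q, hq, rfl⟩ := hx
  rw [Set.mem_iInter] at hp hq
  have hp1 : p ∈ Set.image (⇑a) (U : Set G) := by simpa using hp 1
  have hq1 : q ∈ Set.image (⇑a) (U : Set G) := by
    obtain ⟨m, hm, hm1⟩ := (isOfFinOrder_iff_pow_eq_one).1 ha
    have h2 := hq (m - 1)
    have h3 : a⁻¹ ^ (m - 1) = a := by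
      have h4 : a⁻¹ ^ (m - 1) = a⁻¹ ^ m * a := by
        obtain ⟨k, rfl⟩ : ∃ k, m = k + 1 := ⟨m - 1, by omega⟩
        rw [pow_succ, Nat.add_sub_cancel, inv_mul_cancel_right]
      rw [h4, inv_pow, hm1, inv_one, one_mul]
    rwa [h3] at h2
  obtain ⟨p', hp', rfl⟩ := hp1
  obtain ⟨q', hq', rfl⟩ := hq1
  exact ⟨p' * q', U.mul_mem hp' hq', map_mul a p' q'⟩

/-- The negation of the preceding statement: For a t.d.l.c. group G and a finitely generated flat group H of topological automorphisms, there are finitely many distinct elements of H whose nubs multiply, as sets, to the nub of H. -/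
theorem result :
    ¬ (∀ (G : Type) [Group G] [TopologicalSpace G] [IsTopologicalGroup G]
      [LocallyCompactSpace G] [TotallyDisconnectedSpace G]
      (H : Subgroup (MulAut G)) (tidy : MulAut G → Subgroup G → Prop),
      (∀ (a : MulAut G) (U : Subgroup G), tidy a U ↔
          ((U : Set G) =
              (⋂ n : ℕ, Set.image (⇑(a ^ n)) (U : Set G)) *
                (⋂ n : ℕ, Set.image (⇑(a⁻¹ ^ n)) (U : Set G)) ∧
            IsClosed (⋃ m : ℕ, Set.image (⇑(a ^ m))
                (⋂ n : ℕ, Set.image (⇑(a ^ n)) (U : Set G))))) →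
      (∀ a ∈ H, Continuous (⇑a)) →
      H.FG →
      (∃ U : Subgroup G, IsCompact (U : Set G) ∧ IsOpen (U : Set G) ∧
          ∀ a ∈ H, tidy a U) →
      ∃ l : List (MulAut G), l.Nodup ∧ (∀ a ∈ l, a ∈ H) ∧
        (⋂ (U : Subgroup G)
            (_ : IsCompact (U : Set G) ∧ IsOpen (U : Set G) ∧ ∀ a ∈ H, tidy a U),
            (U : Set G)) =
          (l.map (fun a => ⋂ (U : Subgroup G)
              (_ : IsCompact (U : Set G) ∧ IsOpen (U : Set G) ∧ tidy a U),
              (U : Set G))).prod) := by
  intro hall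
  obtain ⟨V, _, α, β, -, -, -, -, htor, hinf⟩ := Pool.Agent.Y55.Fpf.counter 3 3 0 le_rfl le_rfl
    (by norm_num) (by intro q; omega)
  obtain ⟨Γ, hΓ⟩ : ∃ Γ : Subgroup (V ≃ₗ[ℤ] V), Γ = Subgroup.closure {α, β} := ⟨_, rfl⟩
  rw [← hΓ] at htor hinf
  have hfg : Group.FG Γ := by
    rw [Group.fg_iff_subgroup_fg, Subgroup.fg_iff]
    exact ⟨{α, β}, hΓ.symm, Set.toFinite _⟩
  have hinfΓ : Infinite Γ := not_finite_iff_infinite.1 hinf
  have htorΓ : ∀ g : Γ, IsOfFinOrder g := fun g => by
    rw [← Submonoid.isOfFinOrder_coe (H := Γ.toSubmonoid)]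
    exact htor g g.2
  have key : ∀ (a : MulAut (Γ → Multiplicative (ZMod 2))), a ∈ (sig (Γ := Γ)
      (A := Multiplicative (ZMod 2))).range → IsOfFinOrder a := by
    rintro _ ⟨g, rfl⟩
    exact MonoidHom.isOfFinOrder _ (htorΓ g)
  have c1 : ∀ a ∈ (sig (Γ := Γ) (A := Multiplicative (ZMod 2))).range, Continuous (⇑a) := by
    rintro _ ⟨g, rfl⟩
    exact continuous_pi fun x => continuous_apply (x * g)
  have c2 : ((sig (Γ := Γ) (A := Multiplicative (ZMod 2))).range).FG := by
    rw [← Group.fg_iff_subgroup_fg]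
    infer_instance
  have c3 : ∃ U : Subgroup (Γ → Multiplicative (ZMod 2)),
      IsCompact (U : Set (Γ → Multiplicative (ZMod 2))) ∧
      IsOpen (U : Set (Γ → Multiplicative (ZMod 2))) ∧
      ∀ a ∈ (sig (Γ := Γ) (A := Multiplicative (ZMod 2))).range, Tidy a U := by
    refine ⟨⊤, isCompact_univ, isOpen_univ, fun a _ => ?_⟩
    apply tidy_of_inv
    · intro n
      rw [Subgroup.coe_top, Set.image_univ]
      exact (a ^ n).surjective.range_eq
    · intro n
      rw [Subgroup.coe_top, Set.image_univ]
      exact (a⁻¹ ^ n).surjective.range_eq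
    · exact isClosed_univ
  obtain ⟨l, -, hl, heq⟩ := hall (Γ → Multiplicative (ZMod 2)) (sig (Γ := Γ)
    (A := Multiplicative (ZMod 2))).range Tidy (fun a U => Iff.rfl) c1 c2 c3
  · -- every `nub a` is trivial
    have hnub : ∀ a ∈ l, (⋂ (U : Subgroup (Γ → Multiplicative (ZMod 2)))
        (_ : IsCompact (U : Set (Γ → Multiplicative (ZMod 2))) ∧
          IsOpen (U : Set (Γ → Multiplicative (ZMod 2))) ∧ Tidy a U),
        (U : Set (Γ → Multiplicative (ZMod 2)))) = 1 := by
      intro a ha
      obtain ⟨g, rfl⟩ := hl a ha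
      ext x
      simp only [Set.mem_iInter, Set.mem_one, SetLike.mem_coe]
      constructor
      · intro hx
        by_contra hne
        obtain ⟨γ, hγ⟩ := Function.ne_iff.1 hne
        obtain ⟨m, hm, hm1⟩ := (isOfFinOrder_iff_pow_eq_one).1 (htorΓ g)
        have hper : ∀ i : ℕ, g ^ i = g ^ (i % m) := fun i => by
          conv_lhs => rw [← Nat.div_add_mod i m]
          rw [pow_add, pow_mul, hm1, one_pow, one_mul]
        let W : Subgroup (Γ → Multiplicative (ZMod 2)) :=
          { carrier := {f | ∀ i : ℕ, f (γ * g ^ i) = 1}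
            mul_mem' := by
              intro f h hf hh i
              rw [Pi.mul_apply, hf i, hh i, mul_one]
            one_mem' := fun i => rfl
            inv_mem' := by
              intro f hf i
              rw [Pi.inv_apply, hf i, inv_one] }
        have hWset : (W : Set (Γ → Multiplicative (ZMod 2))) =
            ⋂ i ∈ Finset.range m, {f | f (γ * g ^ i) = 1} := by
          ext f
          simp only [Set.mem_iInter, Finset.mem_range]
          constructor
          · intro hf i _
            exact hf i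
          · intro hf i
            rw [hper i]
            exact hf _ (Nat.mod_lt _ hm)
        have hopen : IsOpen (W : Set (Γ → Multiplicative (ZMod 2))) := by
          rw [hWset]
          refine isOpen_biInter_finset fun i _ => ?_
          have h0 : {f : Γ → Multiplicative (ZMod 2) | f (γ * g ^ i) = 1} =
              (fun f : Γ → Multiplicative (ZMod 2) => f (γ * g ^ i)) ⁻¹' {1} := rfl
          rw [h0]
          exact (isOpen_discrete _).preimage (continuous_apply _)
        have hclosed : IsClosed (W : Set (Γ → Multiplicative (ZMod 2))) :=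
          Subgroup.isClosed_of_isOpen W hopen
        have hstep : ∀ (h : Γ), (∃ k : ℕ, h = g ^ k) → Set.image (⇑(sig h : MulAut (Γ →
            Multiplicative (ZMod 2)))) (W : Set (Γ → Multiplicative (ZMod 2))) ⊆ W := by
          rintro _ ⟨k, rfl⟩ _ ⟨f, hf, rfl⟩ i
          rw [sig_apply, mul_assoc, ← pow_add]
          exact hf (i + k)
        have hinv : ∀ k : ℕ, ∃ j : ℕ, (g ^ k)⁻¹ = g ^ j := fun k =>
          ⟨(m - 1) * k, by
            have h1 : g⁻¹ = g ^ (m - 1) := by
              rw [inv_eq_iff_mul_eq_one, ← pow_succ', Nat.sub_add_cancel hm, hm1]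
            rw [← inv_pow, h1, pow_mul]⟩
        have hall2 : ∀ (h : Γ), (∃ k : ℕ, h = g ^ k) → Set.image (⇑(sig h : MulAut (Γ →
            Multiplicative (ZMod 2)))) (W : Set (Γ → Multiplicative (ZMod 2))) = W := by
          rintro _ ⟨k, rfl⟩
          apply Set.Subset.antisymm (hstep _ ⟨k, rfl⟩)
          intro f hf
          refine ⟨(sig ((g ^ k)⁻¹) : MulAut (Γ → Multiplicative (ZMod 2))) f,
            hstep _ (hinv k) ⟨f, hf, rfl⟩, ?_⟩
          rw [← MulAut.mul_apply, ← map_mul, mul_inv_cancel, map_one, MulAut.one_apply]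
        have htidy : Tidy (sig g : MulAut (Γ → Multiplicative (ZMod 2))) W := by
          refine tidy_of_inv _ W (fun n => ?_) (fun n => ?_) hclosed
          · rw [← map_pow]
            exact hall2 _ ⟨n, rfl⟩
          · rw [← map_inv, ← map_pow, inv_pow]
            exact hall2 _ (hinv n)
        have h1 := hx W ⟨hclosed.isCompact, hopen, htidy⟩
        have h2 := h1 0
        rw [pow_zero, mul_one] at h2
        exact hγ h2
      · rintro rfl U _
        exact U.one_mem
    have hprod : (l.map (fun a => ⋂ (U : Subgroup (Γ → Multiplicative (ZMod 2)))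
        (_ : IsCompact (U : Set (Γ → Multiplicative (ZMod 2))) ∧
          IsOpen (U : Set (Γ → Multiplicative (ZMod 2))) ∧ Tidy a U),
        (U : Set (Γ → Multiplicative (ZMod 2))))).prod = 1 := by
      apply List.prod_eq_one
      intro s hs
      obtain ⟨a, ha, rfl⟩ := List.mem_map.1 hs
      exact hnub a ha
    rw [hprod] at heq
    -- the nub of the whole group is everything
    have hbig : (fun _ => Multiplicative.ofAdd (1 : ZMod 2) : Γ → Multiplicative (ZMod 2)) ∈
        (⋂ (U : Subgroup (Γ → Multiplicative (ZMod 2)))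
          (_ : IsCompact (U : Set (Γ → Multiplicative (ZMod 2))) ∧
            IsOpen (U : Set (Γ → Multiplicative (ZMod 2))) ∧ ∀ a ∈ (sig (Γ := Γ)
              (A := Multiplicative (ZMod 2))).range, Tidy a U),
          (U : Set (Γ → Multiplicative (ZMod 2)))) := by
      simp only [Set.mem_iInter, SetLike.mem_coe]
      rintro U ⟨-, hopen, ht⟩
      have hsub : ∀ g : Γ, ∀ f ∈ U, (sig g : MulAut (Γ → Multiplicative (ZMod 2))) f ∈ U := by
        intro g f hf
        have h1 := sub_image (sig g⁻¹ : MulAut (Γ → Multiplicative (ZMod 2)))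
          (key _ ⟨g⁻¹, rfl⟩) U (ht _ ⟨g⁻¹, rfl⟩) hf
        obtain ⟨f', hf', rfl⟩ := h1
        rw [← MulAut.mul_apply, ← map_mul, mul_inv_cancel, map_one, MulAut.one_apply]
        exact hf'
      obtain ⟨I, u, hu, hI⟩ := isOpen_pi_iff.1 hopen 1 U.one_mem
      have hI2 : ∀ f : Γ → Multiplicative (ZMod 2), (∀ s ∈ I, f s = 1) → f ∈ U := by
        intro f hf
        apply hI
        intro s hs
        rw [hf s hs]
        exact (hu s hs).2
      classical
      obtain ⟨g, hg⟩ := Infinite.exists_notMem_finset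
        ((I ×ˢ I).image (fun p : Γ × Γ => p.2⁻¹ * p.1))
      obtain ⟨f0, hf0⟩ : ∃ f0 : Γ → Multiplicative (ZMod 2),
        f0 = fun _ => Multiplicative.ofAdd (1 : ZMod 2) := ⟨_, rfl⟩
      rw [← hf0]
      have hdec : f0 = (fun x => if x ∈ I then 1 else f0 x) * (fun x => if x ∈ I then f0 x else 1) := by
        funext x
        rw [Pi.mul_apply]
        by_cases hx : x ∈ I <;> simp [hx]
      rw [hdec]
      refine U.mul_mem (hI2 _ fun s hs => by simp [hs]) ?_
      have h2 : (fun x => if x ∈ I then f0 x else 1) =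
          (sig g : MulAut (Γ → Multiplicative (ZMod 2))) ((sig g⁻¹ : MulAut (Γ →
            Multiplicative (ZMod 2))) (fun x => if x ∈ I then f0 x else 1)) := by
        rw [← MulAut.mul_apply, ← map_mul, mul_inv_cancel, map_one, MulAut.one_apply]
      rw [h2]
      apply hsub
      apply hI2
      intro s hs
      rw [sig_apply]
      rw [if_neg]
      intro h3
      apply hg
      rw [Finset.mem_image]
      exact ⟨(s, s * g⁻¹), Finset.mem_product.2 ⟨hs, h3⟩, by group⟩
    rw [heq, Set.mem_one] at hbig
    have h1 : Multiplicative.ofAdd (1 : ZMod 2) = 1 := congrFun hbig 1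
    exact absurd h1 (by decide)

end Pool.Agent.S00878
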