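import Pool.Statements.S00905
-- import your own Pool.Agent.* helpers here

set_option autoImplicit false
open Pool Pool.MP_207b86_al

namespace Pool.Agent.S00905

/-- The finite centreless group used in every coordinate. -/
abbrev S3 : Type := Equiv.Perm (Fin 3)

instance : TopologicalSpace S3 := ⊥
instance : DiscreteTopology S3 := ⟨rfl⟩

lemma s3_centreless (z : S3) (h : ∀ g : S3, g * z * g⁻¹ * z⁻¹ = 1) : z = 1 := by
  revert z
  decide

/-- Evaluation of a word is continuous in a topological group. -/
lemma continuous_eval {G : Type} [Group G] [TopologicalSpace G] [IsTopologicalGroup G]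
    (w : Monoid.Coprod G (FreeGroup Unit)) :
    Continuous fun g : G =>
      Monoid.Coprod.lift (MonoidHom.id G) (FreeGroup.lift (fun _ => g)) w := by
  induction w using Monoid.Coprod.induction_on with
  | inl m => simpa using continuous_const
  | inr n =>
    simp only [Monoid.Coprod.lift_apply_inr]
    induction n using FreeGroup.induction_on with
    | C1 => simpa using continuous_const
    | of x => simpa using continuous_id'
    | inv_of x h => simpa using continuous_inv
    | mul x y hx hy =>
      simp only [map_mul]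
      exact hx.mul hy
  | mul x y hx hy =>
    simp only [map_mul]
    exact hx.mul hy

/-- The word expressing that `g` (in coordinate `i`) commutes with `x s⁻¹`. -/
noncomputable def wd (i : ℕ) (s g : S3) : Monoid.Coprod (ℕ → S3) (FreeGroup Unit) :=
  Monoid.Coprod.inl (Pi.mulSingle i g) * Monoid.Coprod.inr (FreeGroup.of ()) *
    Monoid.Coprod.inl (Pi.mulSingle i s⁻¹) * Monoid.Coprod.inl (Pi.mulSingle i g⁻¹) *
    Monoid.Coprod.inl (Pi.mulSingle i s) * Monoid.Coprod.inr (FreeGroup.of ())⁻¹

lemma eval_wd (i : ℕ) (s g : S3) (a : ℕ → S3) :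
    Monoid.Coprod.lift (MonoidHom.id (ℕ → S3)) (FreeGroup.lift (fun _ => a)) (wd i s g) =
      Pi.mulSingle i (g * (a i * s⁻¹) * g⁻¹ * (a i * s⁻¹)⁻¹) := by
  have h1 : Monoid.Coprod.lift (MonoidHom.id (ℕ → S3)) (FreeGroup.lift (fun _ => a)) (wd i s g) =
      Pi.mulSingle i g * a * Pi.mulSingle i s⁻¹ * Pi.mulSingle i g⁻¹ * Pi.mulSingle i s * a⁻¹ := by
    simp [wd]
  rw [h1]
  funext j
  by_cases hj : j = i
  · subst hj
    simp [mul_assoc]
  · simp [Pi.mulSingle_eq_of_ne hj]

theorem result :
    ∃ (G : Type) (_ : Group G) (T : TopologicalSpace G),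
      Infinite G ∧
      T = TopologicalSpace.generateFrom
        {U : Set G | ∃ w : Monoid.Coprod G (FreeGroup Unit),
          U = {g : G | Monoid.Coprod.lift (MonoidHom.id G) (FreeGroup.lift (fun _ => g)) w = 1}ᶜ} ∧
      @CompactSpace G T ∧ @T2Space G T := by
  refine ⟨ℕ → S3, inferInstance, Pi.topologicalSpace, inferInstance, ?_, inferInstance,
    inferInstance⟩
  apply le_antisymm
  · apply le_generateFrom
    rintro U ⟨w, rfl⟩
    rw [isOpen_compl_iff]
    exact isClosed_eq (continuous_eval w) continuous_const
  · set T : TopologicalSpace (ℕ → S3) := TopologicalSpace.generateFrom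
        {U : Set (ℕ → S3) | ∃ w : Monoid.Coprod (ℕ → S3) (FreeGroup Unit),
          U = {g : ℕ → S3 | Monoid.Coprod.lift (MonoidHom.id (ℕ → S3))
            (FreeGroup.lift (fun _ => g)) w = 1}ᶜ} with hT
    have hclosed : ∀ (i : ℕ) (s : S3), @IsClosed _ T {a : ℕ → S3 | a i = s} := by
      intro i s
      have he : {a : ℕ → S3 | a i = s} = ⋂ g : S3, {a : ℕ → S3 |
          Monoid.Coprod.lift (MonoidHom.id (ℕ → S3)) (FreeGroup.lift (fun _ => a))
            (wd i s g) = 1} := by
        ext a
        simp only [Set.mem_ofPred_eq, Set.mem_iInter, eval_wd]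
        constructor
        · rintro rfl g
          simp
        · intro h
          have h2 : a i * s⁻¹ = 1 := by
            apply s3_centreless
            intro g
            have := h g
            rwa [Pi.mulSingle_eq_one_iff] at this
          exact mul_inv_eq_one.mp h2
      rw [he]
      apply @isClosed_iInter _ _ T
      intro g
      refine @IsClosed.mk _ T _ ?_
      exact TopologicalSpace.GenerateOpen.basic _ ⟨wd i s g, rfl⟩
    rw [Pi.topologicalSpace]
    apply le_iInf
    intro i
    rw [← continuous_iff_le_induced]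
    rw [@continuous_def _ _ T _]
    intro U _
    rw [← @isClosed_compl_iff _ T]
    have he : ((fun a : ℕ → S3 => a i) ⁻¹' U)ᶜ = ⋃ s ∈ Uᶜ, {a : ℕ → S3 | a i = s} := by
      ext a
      simp
    rw [he]
    exact @Set.Finite.isClosed_biUnion _ _ T _ _ (Set.toFinite _) (fun s _ => hclosed i s)

end Pool.Agent.S00905
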