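import Pool.Statements.S01012
-- import your own Pool.Agent.* helpers here

set_option autoImplicit false
open Pool Pool.MP_293fae_al

/-!
Counterexample. Let `A = ℤ[i][X]`, let `P` be the maximal ideal generated by `1 + i` and `X`, and
let `R` be the localisation of `A` at `P`, a regular local ring of dimension 2. The fraction field
contains `i` and has characteristic zero, so that every element is a sum of two squares.
The element `f = X² + 6 = X² + 2² + 1² + 1²` is prime in `A` (Eisenstein at 3) and lies in `P`. If
`a² + b² = f s²` with `a, b, s ∈ A`, then `f` divides `a + i b` or `a - i b`, and as `2` and `f` are in `P`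
this gives `s² ∈ P`. So `f` is not a sum of two squares in `R`.
-/

namespace Pool.Agent.S01012

open Polynomial

noncomputable section

/-- the polynomial ring over the Gaussian integers -/
abbrev A : Type := GaussianInt[X]

/-- the Gaussian integer `i` -/
def I : GaussianInt := ⟨0, 1⟩

lemma I_mul_I : I * I = -1 := by decide

/-- reduction of the Gaussian integers modulo `1 + i` -/
def red : GaussianInt →+* ZMod 2 := Zsqrtd.lift ⟨1, by decide⟩

/-- reduction modulo `1 + i` and `X` -/
def φ : A →+* ZMod 2 := eval₂RingHom red 0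

/-- the maximal ideal generated by `1 + i` and `X` -/
def P : Ideal A := RingHom.ker φ

instance : P.IsPrime := RingHom.ker_isPrime φ

lemma mem_P (a : A) : a ∈ P ↔ φ a = 0 := RingHom.mem_ker

lemma red_apply (c : GaussianInt) : red c = (c.re : ZMod 2) + c.im := by
  simp [red]

lemma P_eq : P = Ideal.span {C (1 + I), X} := by
  apply le_antisymm
  · intro a ha
    rw [mem_P] at ha
    rw [Ideal.mem_span_pair]
    have h1 : φ a = red (a.coeff 0) := by
      simp [φ, eval₂_at_zero]
    rw [h1, red_apply] at ha
    have h2 : (2 : ℤ) ∣ (a.coeff 0).re + (a.coeff 0).im := by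
      have : (((a.coeff 0).re + (a.coeff 0).im : ℤ) : ZMod 2) = 0 := by push_cast; exact ha
      exact_mod_cast (ZMod.intCast_zmod_eq_zero_iff_dvd _ 2).1 this
    obtain ⟨m, hm⟩ := h2
    refine ⟨C ⟨m, m - (a.coeff 0).re⟩, a.divX, ?_⟩
    have h3 : a.coeff 0 = ⟨m, m - (a.coeff 0).re⟩ * (1 + I) := by
      rw [Zsqrtd.ext_iff]
      constructor
      · simp [I]
      · simp [I]
        omega
    rw [← C_mul, ← h3, add_comm]
    exact a.divX_mul_X_add
  · rw [Ideal.span_le]
    rintro x (rfl | rfl)
    · change _ ∈ P
      rw [mem_P]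
      simp [φ, red_apply, I]
      decide
    · change _ ∈ P
      rw [mem_P]
      simp [φ]

/-- the element which is not a sum of two squares -/
def f : A := X ^ 2 + C 6

lemma three_prime : Prime (3 : GaussianInt) := by
  have : Fact (Nat.Prime 3) := ⟨by norm_num⟩
  exact_mod_cast GaussianInt.prime_of_nat_prime_of_mod_four_eq_three 3 (by norm_num)

lemma f_natDegree : f.natDegree = 2 := by
  unfold f; compute_degree!

lemma f_monic : f.Monic := by
  unfold f; monicity!

lemma f_prime : Prime f := by
  apply Irreducible.prime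
  apply irreducible_of_eisenstein_criterion (P := Ideal.span {(3 : GaussianInt)})
  · exact (Ideal.span_singleton_prime three_prime.ne_zero).2 three_prime
  · rw [f_monic.leadingCoeff]
    intro h
    rw [Ideal.mem_span_singleton] at h
    exact three_prime.not_isUnit (isUnit_of_dvd_one h)
  · intro n hn
    rw [degree_eq_natDegree f_monic.ne_zero, f_natDegree] at hn
    have hn' : n < 2 := by exact_mod_cast hn
    rw [Ideal.mem_span_singleton]
    interval_cases n
    · exact ⟨2, by simp [f]; norm_num⟩
    · exact ⟨0, by simp [f]⟩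
  · rw [degree_eq_natDegree f_monic.ne_zero, f_natDegree]
    norm_num
  · rw [Ideal.span_singleton_pow, Ideal.mem_span_singleton]
    rintro ⟨c, hc⟩
    have h1 : f.coeff 0 = 6 := by simp [f]
    rw [h1] at hc
    have h2 := congrArg Zsqrtd.re hc
    have h3 : (3 : GaussianInt) ^ 2 = 9 := by norm_num
    rw [h3] at h2
    have h4 : (9 : GaussianInt) * c = ⟨9 * c.re, 9 * c.im⟩ := by
      rw [Zsqrtd.ext_iff]
      constructor <;> simp
    rw [h4] at h2
    have h5 : (6 : GaussianInt).re = 6 := rfl
    rw [h5] at h2
    simp only at h2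
    omega
  · exact f_monic.isPrimitive

lemma f_mem : f ∈ P := by
  rw [mem_P]
  simp [φ, f]
  decide

lemma two_mem : (2 : A) ∈ P := by
  rw [mem_P]
  rw [map_ofNat]
  decide

lemma CI : (C I : A) * C I = -1 := by rw [← C_mul, I_mul_I]; simp

/-- the algebraic core: `a² + b² = f s²` forces `s ∈ P` -/
lemma core (a b s : A) (h : a ^ 2 + b ^ 2 = f * s ^ 2) : s ∈ P := by
  have h1 : (a + C I * b) * (a - C I * b) = f * s ^ 2 := by
    rw [← h]; linear_combination (-(b ^ 2)) * CI
  have h2 : f ∣ (a + C I * b) * (a - C I * b) := ⟨s ^ 2, h1⟩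
  have key : s ^ 2 ∈ P := by
    rcases f_prime.dvd_or_dvd h2 with ⟨c, hc⟩ | ⟨c, hc⟩
    · have h3 : a - C I * b = f * c - 2 * (C I * b) := by rw [← hc]; ring
      rw [hc, h3, mul_assoc] at h1
      have h4 := mul_left_cancel₀ f_prime.ne_zero h1
      rw [← h4]
      apply P.mul_mem_left
      exact P.sub_mem (P.mul_mem_right _ f_mem) (P.mul_mem_right _ two_mem)
    · have h3 : a + C I * b = f * c + 2 * (C I * b) := by rw [← hc]; ring
      rw [hc, h3, mul_comm, mul_assoc] at h1
      have h4 := mul_left_cancel₀ f_prime.ne_zero h1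
      rw [← h4]
      apply P.mul_mem_left
      exact P.add_mem (P.mul_mem_right _ f_mem) (P.mul_mem_right _ two_mem)
  exact Ideal.IsPrime.mem_of_pow_mem inferInstance 2 key

/-- the regular local ring -/
abbrev R : Type := Localization.AtPrime P

lemma height_le : P.height ≤ 2 := by
  have h1 := P.height_le_spanFinrank (Ideal.IsPrime.ne_top inferInstance)
  have h2 : P.spanFinrank ≤ 2 := by
    rw [P_eq]
    have := Submodule.spanFinrank_span_le_ncard_of_finite (R := A) (s := {C (1 + I), X})
      (Set.toFinite _)
    refine this.trans ((Set.ncard_insert_le _ _).trans ?_)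
    rw [Set.ncard_singleton]
  exact h1.trans (by exact_mod_cast h2)

lemma two_le_height : 2 ≤ P.height := by
  have hX : (Ideal.span {(X : A)}).IsPrime :=
    (Ideal.span_singleton_prime X_ne_zero).2 prime_X
  have h1 : (⊥ : Ideal A) < Ideal.span {(X : A)} := by
    rw [bot_lt_iff_ne_bot, Ne, Ideal.span_singleton_eq_bot]
    exact X_ne_zero
  have h2 : Ideal.span {(X : A)} < P := by
    refine lt_of_le_of_ne ?_ ?_
    · rw [P_eq]; exact Ideal.span_mono (by simp)
    · intro h
      have h3 : (2 : A) ∈ Ideal.span {(X : A)} := h ▸ two_mem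
      rw [Ideal.mem_span_singleton, X_dvd_iff] at h3
      rw [coeff_ofNat_zero] at h3
      exact absurd h3 (by decide)
  have h3 := Ideal.height_add_one_le_of_lt_of_isPrime h1
  have h4 := Ideal.height_add_one_le_of_lt_of_isPrime h2
  have h5 : (1 : ℕ∞) ≤ (Ideal.span {(X : A)}).height := le_trans (by simp) h3
  calc (2 : ℕ∞) = 1 + 1 := by norm_num
    _ ≤ (Ideal.span {(X : A)}).height + 1 := by gcongr
    _ ≤ P.height := h4

lemma dim_R : ringKrullDim R = 2 := by
  rw [IsLocalization.AtPrime.ringKrullDim_eq_height P R, le_antisymm height_le two_le_height]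
  rfl

lemma max_R : ∃ a b : R, IsLocalRing.maximalIdeal R = Ideal.span {a, b} := by
  refine ⟨algebraMap A R (C (1 + I)), algebraMap A R X, ?_⟩
  rw [← Localization.AtPrime.map_eq_maximalIdeal]
  have : Ideal.map (algebraMap A R) P =
    Ideal.map (algebraMap A R) (Ideal.span {C (1 + I), X}) := by rw [← P_eq]
  rw [this, Ideal.map_span, Set.image_pair]

lemma inj_R : Function.Injective (algebraMap A R) :=
  IsLocalization.injective R P.primeCompl_le_nonZeroDivisors

lemma not_two (x y : R) (h : x ^ 2 + y ^ 2 = algebraMap A R f) : False := by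
  classical
  obtain ⟨s, hs⟩ := IsLocalization.exist_integer_multiples_of_finset P.primeCompl
    (insert x {y} : Finset R)
  obtain ⟨a, ha⟩ := hs x (by simp)
  obtain ⟨b, hb⟩ := hs y (by simp)
  apply s.2
  apply core a b s
  apply inj_R
  rw [Algebra.smul_def] at ha hb
  rw [map_add, map_mul, map_pow, map_pow, map_pow, ha, hb, ← h]
  ring

lemma f_sum : IsSumSq (algebraMap A R f) := by
  have h : algebraMap A R f = algebraMap A R X * algebraMap A R X + (2 * 2 + (1 * 1 + 1 * 1)) := by
    rw [f, map_add, map_pow]
    have : (C 6 : A) = 6 := rfl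
    rw [this, map_ofNat]
    ring
  rw [h]
  exact (IsSumSq.mul_self _).add ((IsSumSq.mul_self _).add
    ((IsSumSq.mul_self _).add (IsSumSq.mul_self _)))

instance : IsDomain R := IsLocalization.isDomain_localization P.primeCompl_le_nonZeroDivisors

/-- the fraction field -/
def K : Type := Localization (nonZeroDivisors R)

instance : Field K := inferInstanceAs (Field (FractionRing R))

instance : Algebra R K :=
  (OreLocalization.instAlgebra : Algebra R (Localization (nonZeroDivisors R)))

instance : IsFractionRing R K := by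
  unfold IsFractionRing
  exact @Localization.isLocalization R _ (nonZeroDivisors R)

lemma two_ne : (2 : K) ≠ 0 := by
  have h1 : (2 : R) ≠ 0 := by
    intro h
    have h2 : algebraMap A R 2 = algebraMap A R 0 := by rw [map_ofNat, map_zero, h]
    have h3 : (2 : A) = 0 := inj_R h2
    have h4 := congrArg (fun p : A => p.coeff 0) h3
    simp only [coeff_ofNat_zero, coeff_zero] at h4
    exact absurd h4 (by decide)
  intro h
  apply h1
  apply IsFractionRing.injective R K
  rw [map_ofNat, map_zero, h]

/-- the image of `i` in `K` -/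
def j : K := algebraMap R K (algebraMap A R (C I))

lemma j_mul_j : j * j = -1 := by
  rw [j, ← map_mul, ← map_mul, CI, map_neg, map_neg, map_one, map_one]

lemma K_two (x : K) : x = ((x + 1) / 2) ^ 2 + (j * (x - 1) / 2) ^ 2 := by
  have h2 := two_ne
  have h3 : (j * (x - 1) / 2) ^ 2 = (j * j) * ((x - 1) / 2) ^ 2 := by ring
  rw [h3, j_mul_j]
  field_simp
  ring

/-- The negation of the preceding statement: For every 2-dimensional regular local ring R with fraction field K, and every n, every sum of squares in R is a sum of n squares iff the same holds in K; that is, the Pythagoras numbers of R and K agree. -/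
theorem result :
    ¬ (∀ (R : Type) [CommRing R] [IsDomain R] [IsLocalRing R] [IsNoetherianRing R],
      ringKrullDim R = 2 →
      (∃ a b : R, IsLocalRing.maximalIdeal R = Ideal.span {a, b}) →
      ∀ (K : Type) [Field K] [Algebra R K] [IsFractionRing R K],
      ∀ n : ℕ,
        ((∀ x : R, IsSumSq x → ∃ f : Fin n → R, x = ∑ i, f i ^ 2) ↔
          (∀ x : K, IsSumSq x → ∃ f : Fin n → K, x = ∑ i, f i ^ 2))) := by
  intro H
  have h1 := (H R dim_R max_R K 2).2 (fun x _ => ⟨![(x + 1) / 2, j * (x - 1) / 2], by
    rw [Fin.sum_univ_two]; exact K_two x⟩)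
  obtain ⟨g, hg⟩ := h1 _ f_sum
  rw [Fin.sum_univ_two] at hg
  exact not_two _ _ hg.symm

end

end Pool.Agent.S01012
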