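import Pool.Statements.S01246
import Pool.Agent.V1194.HC.QD
import Pool.Agent.V1194.HC.P
import Pool.Agent.V1194.HC.M1
import Pool.Agent.V1194.HC.M2
import Pool.Agent.V1194.HC.M8
import Pool.Agent.V1194.HC.NFG
import Pool.Agent.V1194.HC.GEN

/-!
# The homological 1-2-3 conjecture is false

Let `L` be the barycentric subdivision of the `2`-complex with five vertices, ten edges and six
pentagons (a spine of the Poincare homology sphere): acyclic, but with a surjection of its
fundamental group onto `A₅`.  Let `A` be the right-angled Artin group of (the `1`-skeleton of) `L`,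
`Q` the Bestvina-Brady group (the kernel of the height `A → ℤ`), `F` the free group on the vertices
of `L` and `π₂ : F → Q`, `v ↦ v₀⁻¹ v`.  Let `G₁` be the HNN extension of `F × Q` whose stable letter
`t` centralises the graph of `π₂`, and `π₁ : G₁ → Q`, `(f, q) ↦ q`, `t ↦ 1`.

* `Q` has a resolution `0 → ℤQ^60 → ℤQ^20 → ℤQ → ℤ → 0` (up to a trivial summand), `V1194.HC.qfp`.
* `G₁` is of type `FP₂`, `V1194.HC.g1fp`; the kernel of `π₁` is generated by `F × 1` and `t`.
* If the fibre product `P` of `π₁` and `π₂` was of type `FP₂`, then the associated subgroup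
  `{((a, q), b) : q = π₂ a = π₂ b}` would be finitely generated, so that the kernel of `π₂` would be
  the normal closure in `F` of a finite set, `V1194.HC.pnfp`.
* It is not: the free group acts on `A × J`, `J = Perm (Fin 5)`, by means of a cocycle of `L` such
  that commutators of adjacent generators act trivially away from the identity of `A`, but loops in
  high levels around the identity have holonomy different from one, `V1194.HC.NFG.th`.

Written by helper194 (design, HNN part, exactness for `Q`), helper64 (`M1`), helper18 (`M2`),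
helper67 (`M8`, `GEN`), helper191 (`NFG`), over the starting library files on Salvetti complexes and
crossed homomorphisms (`W326.DU`, `W304.DU`, `W571.DU`, `W335.DU`, `W490.DU`, `Y66.HC`, `Y448.HC`,
`Helper158.Bridge`).
-/

set_option autoImplicit false
open CategoryTheory
open Pool Pool.MP_3ca9d5_al

namespace Pool.Agent.S01246

/-- The negation of the preceding statement: For surjections G₁→Q, G₂→Q with finitely generated kernel in G₁, G₁ and G₂ of type FP₂ and Q of type FP₃, the fibre product {(a,b) : π₁a = π₂b} is of type FP₂. -/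
theorem result :
    ¬ (∀ (G₁ G₂ Q : Type) [Group G₁] [Group G₂] [Group Q] (π₁ : G₁ →* Q) (π₂ : G₂ →* Q),
      Function.Surjective π₁ → Function.Surjective π₂ → Group.FG π₁.ker →
      (∃ R : ProjectiveResolution (Rep.trivial ℤ G₁ ℤ), ∀ k ≤ 2,
        ∃ s : Finset (R.complex.X k).V, ∀ x : (R.complex.X k).V,
          x ∈ Submodule.span ℤ
            (Set.range (fun p : G₁ × s => (R.complex.X k).ρ p.1 (p.2 : (R.complex.X k).V)))) →
      (∃ R : ProjectiveResolution (Rep.trivial ℤ G₂ ℤ), ∀ k ≤ 2,
        ∃ s : Finset (R.complex.X k).V, ∀ x : (R.complex.X k).V,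
          x ∈ Submodule.span ℤ
            (Set.range (fun p : G₂ × s => (R.complex.X k).ρ p.1 (p.2 : (R.complex.X k).V)))) →
      (∃ R : ProjectiveResolution (Rep.trivial ℤ Q ℤ), ∀ k ≤ 3,
        ∃ s : Finset (R.complex.X k).V, ∀ x : (R.complex.X k).V,
          x ∈ Submodule.span ℤ
            (Set.range (fun p : Q × s => (R.complex.X k).ρ p.1 (p.2 : (R.complex.X k).V)))) →
      (∃ R : ProjectiveResolution (Rep.trivial ℤ
          ↥((π₁.comp (MonoidHom.fst G₁ G₂)).eqLocus (π₂.comp (MonoidHom.snd G₁ G₂))) ℤ),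
        ∀ k ≤ 2,
        ∃ s : Finset (R.complex.X k).V, ∀ x : (R.complex.X k).V,
          x ∈ Submodule.span ℤ
            (Set.range (fun p : ↥((π₁.comp (MonoidHom.fst G₁ G₂)).eqLocus
                (π₂.comp (MonoidHom.snd G₁ G₂))) × s =>
              (R.complex.X k).ρ p.1 (p.2 : (R.complex.X k).V))))) := by
  intro hmain
  obtain ⟨V, _, _, ad, γ, l, p, hg⟩ := Pool.Agent.V1194.HC.M8.th
  let v₀ : V := p 0
  let π := Pool.Agent.V1194.HC.piF ad v₀
  have hπ : Function.Surjective π :=
    Pool.Agent.V1194.HC.GEN.th V (Equiv.Perm (Fin 5)) ad γ l p hg v₀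
  have hQ3 : Pool.Agent.Y66.HC.FPc 3 (Pool.Agent.V1194.HC.BB ad) :=
    Pool.Agent.V1194.HC.qfp V (Equiv.Perm (Fin 5)) ad γ l p hg
  have hQ2 : Pool.Agent.Y66.HC.FPc 2 (Pool.Agent.V1194.HC.BB ad) := by
    obtain ⟨R, hR⟩ := hQ3
    exact ⟨R, fun k hk => hR k (hk.trans (by norm_num))⟩
  have hclo : Subgroup.closure (Set.range (FreeGroup.of : V → FreeGroup V)) = ⊤ :=
    FreeGroup.closure_range_of V
  have hF : Pool.Agent.Y66.HC.FPc 2 (FreeGroup V) := by
    refine Pool.Agent.V1194.HC.M2.th (FreeGroup V) V FreeGroup.of hclo ?_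
    rw [Pool.Agent.V1194.HC.free V]
    exact Submodule.fg_bot
  have hG1 : Pool.Agent.Y66.HC.FPc 2 (Pool.Agent.V1194.HC.G1 π) :=
    Pool.Agent.V1194.HC.g1fp Pool.Agent.V1194.HC.M1.th Pool.Agent.V1194.HC.M2.th V
      (Pool.Agent.V1194.HC.BB ad) π hπ hQ2
  have hker : Group.FG (Pool.Agent.V1194.HC.pi1 π).ker :=
    Pool.Agent.V1194.HC.g1ker V (Pool.Agent.V1194.HC.BB ad) π hπ
  have hn : ¬ ∃ S : Set (FreeGroup V), S.Finite ∧ Subgroup.normalClosure S = π.ker :=
    Pool.Agent.V1194.HC.NFG.th V (Equiv.Perm (Fin 5)) ad γ l p hg v₀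
  have hs1 : Function.Surjective (Pool.Agent.V1194.HC.pi1 π) := by
    intro q
    exact ⟨HNNExtension.of (1, q), Pool.Agent.V1194.HC.pi1_of π _⟩
  exact Pool.Agent.V1194.HC.pnfp Pool.Agent.V1194.HC.M1.th V (Pool.Agent.V1194.HC.BB ad) π hπ hn
    (hmain (Pool.Agent.V1194.HC.G1 π) (FreeGroup V) (Pool.Agent.V1194.HC.BB ad)
      (Pool.Agent.V1194.HC.pi1 π) π hs1 hπ hker hG1 hF hQ3)

end Pool.Agent.S01246
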