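import Pool.Statements.S01384
-- import your own Pool.Agent.* helpers here
import Pool.Agent.V1130.Twisted
import Pool.Agent.V1130.TwistedPGL

set_option autoImplicit false
open Pool Pool.MP_4b4c0c_al

namespace Pool.Agent.S01384

open V1130.TwistedPGL OnePoint in
/-- Two matrices preserving two distinct lines commute on the projective line. -/
theorem comm_of_two_fixed {P : Type} [Field P] {A B : Matrix (Fin 2) (Fin 2) P}
    {v w : Fin 2 → P} (hvw : v 0 * w 1 - v 1 * w 0 ≠ 0) {α β γ δ : P}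
    (hAv : A.mulVec v = α • v) (hAw : A.mulVec w = β • w)
    (hBv : B.mulVec v = γ • v) (hBw : B.mulVec w = δ • w) : A * B = B * A := by
  have hv : (A * B - B * A).mulVec v = 0 := by
    rw [Matrix.sub_mulVec, ← Matrix.mulVec_mulVec, ← Matrix.mulVec_mulVec, hAv, hBv,
      Matrix.mulVec_smul, Matrix.mulVec_smul, hAv, hBv, smul_comm, sub_self]
  have hw : (A * B - B * A).mulVec w = 0 := by
    rw [Matrix.sub_mulVec, ← Matrix.mulVec_mulVec, ← Matrix.mulVec_mulVec, hAw, hBw,
      Matrix.mulVec_smul, Matrix.mulVec_smul, hAw, hBw, smul_comm, sub_self]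
  rw [← sub_eq_zero]
  set N := A * B - B * A with hN
  have e : ∀ i, N i 0 * v 0 + N i 1 * v 1 = 0 := by
    intro i
    have := congrFun hv i
    simpa [Matrix.mulVec, dotProduct, Fin.sum_univ_two] using this
  have f : ∀ i, N i 0 * w 0 + N i 1 * w 1 = 0 := by
    intro i
    have := congrFun hw i
    simpa [Matrix.mulVec, dotProduct, Fin.sum_univ_two] using this
  ext i j
  have h0 : N i 0 = 0 := by
    have : N i 0 * (v 0 * w 1 - v 1 * w 0) = 0 := by
      linear_combination (w 1) * e i - (v 1) * f i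
    exact (mul_eq_zero.1 this).resolve_right hvw
  have h1 : N i 1 = 0 := by
    have : N i 1 * (v 0 * w 1 - v 1 * w 0) = 0 := by
      linear_combination (v 0) * f i - (w 0) * e i
    exact (mul_eq_zero.1 this).resolve_right hvw
  fin_cases j
  · exact h0
  · exact h1

/-- The negation of the preceding statement: Every 3-transitive group on at least 3 points whose 3-point stabilizers are trivial and whose 2-point stabilizers have no involutions is permutation-isomorphic to PGL_2(P) on the projective line over some field P of characteristic 2. -/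
theorem result :
    ¬ (∀ (G X : Type) [Group G] [MulAction G X],
      (∃ a b c : X, a ≠ b ∧ a ≠ c ∧ b ≠ c) →
      (∀ a b c a' b' c' : X, a ≠ b → a ≠ c → b ≠ c → a' ≠ b' → a' ≠ c' → b' ≠ c' →
        ∃ g : G, g • a = a' ∧ g • b = b' ∧ g • c = c') →
      (∀ a b : X, a ≠ b → ∀ g : G, g • a = a → g • b = b → g * g = 1 → g = 1) →
      (∀ a b c : X, a ≠ b → a ≠ c → b ≠ c → ∀ g : G,
        g • a = a → g • b = b → g • c = c → g = 1) →
      ∃ (P : Type) (_ : Field P), CharP P 2 ∧
        ∃ e : X ≃ Projectivization P (Fin 2 → P),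
          ∀ σ : Equiv.Perm (Projectivization P (Fin 2 → P)),
            ((∃ g : G, ∀ x : X, σ (e x) = e (g • x)) ↔
              ∃ A : Matrix.GeneralLinearGroup (Fin 2) P,
                ∀ (v : Fin 2 → P) (hv : v ≠ 0) (w : Fin 2 → P) (hw : w ≠ 0),
                  w = Matrix.mulVec (A : Matrix (Fin 2) (Fin 2) P) v →
                    σ (Projectivization.mk P v hv) = Projectivization.mk P w hw)) := by
  classical
  intro H
  -- the group
  let K := V1130.Twisted.K
  let σ : K ≃+* K := V1130.Twisted.σ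
  let χ : Kˣ →* ℤˣ := V1130.Twisted.χ
  have hσ : ∀ x, σ (σ x) = x := V1130.Twisted.σσ
  have hχ : ∀ u, χ (Units.map σ.toRingHom.toMonoidHom u) = χ u := V1130.Twisted.χ_σ
  have hN : ∀ u : Kˣ, χ u = -1 → (u : K) * σ u ≠ 1 := V1130.Twisted.norm_ne_one
  let G := V1130.TwistedPGL.G σ χ hσ hχ
  -- sharply 3-transitive
  have hmove : ∀ a b c : OnePoint K, a ≠ b → a ≠ c → b ≠ c → ∃ g : G,
      g • (OnePoint.infty : OnePoint K) = a ∧ g • ((0 : K) : OnePoint K) = b ∧
      g • ((1 : K) : OnePoint K) = c :=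
    fun a b c hab hac hbc => V1130.TwistedPGL.exists_G σ χ hσ hχ a b c hab hac hbc
  have h3t : ∀ a b c a' b' c' : OnePoint K, a ≠ b → a ≠ c → b ≠ c → a' ≠ b' → a' ≠ c' →
      b' ≠ c' → ∃ g : G, g • a = a' ∧ g • b = b' ∧ g • c = c' := by
    intro a b c a' b' c' h1 h2 h3 h4 h5 h6
    obtain ⟨g, hg1, hg2, hg3⟩ := hmove a b c h1 h2 h3
    obtain ⟨h, hh1, hh2, hh3⟩ := hmove a' b' c' h4 h5 h6
    refine ⟨h * g⁻¹, ?_, ?_, ?_⟩
    · rw [← hg1, mul_smul, inv_smul_smul, hh1]
    · rw [← hg2, mul_smul, inv_smul_smul, hh2]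
    · rw [← hg3, mul_smul, inv_smul_smul, hh3]
  have h2s : ∀ a b : OnePoint K, a ≠ b → ∀ g : G, g • a = a → g • b = b → g * g = 1 →
      g = 1 := by
    intro a b hab g hga hgb hgg
    obtain ⟨c, hac, hbc⟩ := V1130.TwistedPGL.exists_third (K := K) a b
    obtain ⟨h, hh1, hh2, -⟩ := hmove a b c hab hac hbc
    have h1 : h⁻¹ * g * h = 1 := by
      apply V1130.TwistedPGL.no_inv σ χ hσ hχ hN
      · rw [mul_smul, mul_smul, hh1, hga, ← hh1, inv_smul_smul]
      · rw [mul_smul, mul_smul, hh2, hgb, ← hh2, inv_smul_smul]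
      · have : h⁻¹ * g * h * (h⁻¹ * g * h) = h⁻¹ * (g * g) * h := by group
        rw [this, hgg]; group
    have h2 : g = h * (h⁻¹ * g * h) * h⁻¹ := by group
    rw [h2, h1]; group
  have h3s : ∀ a b c : OnePoint K, a ≠ b → a ≠ c → b ≠ c → ∀ g : G,
      g • a = a → g • b = b → g • c = c → g = 1 := by
    intro a b c hab hac hbc g hga hgb hgc
    obtain ⟨h, hh1, hh2, hh3⟩ := hmove a b c hab hac hbc
    have h1 : h⁻¹ * g * h = 1 := by
      apply V1130.TwistedPGL.three_stab σ χ hσ hχ
      · rw [mul_smul, mul_smul, hh1, hga, ← hh1, inv_smul_smul]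
      · rw [mul_smul, mul_smul, hh2, hgb, ← hh2, inv_smul_smul]
      · rw [mul_smul, mul_smul, hh3, hgc, ← hh3, inv_smul_smul]
    have h2 : g = h * (h⁻¹ * g * h) * h⁻¹ := by group
    rw [h2, h1]; group
  have h0inf : (OnePoint.infty : OnePoint K) ≠ ((0 : K) : OnePoint K) :=
    OnePoint.infty_ne_coe _
  have h3 : ∃ a b c : OnePoint K, a ≠ b ∧ a ≠ c ∧ b ≠ c :=
    ⟨OnePoint.infty, ((0 : K) : OnePoint K), ((1 : K) : OnePoint K), h0inf,
      OnePoint.infty_ne_coe _, fun h => zero_ne_one (OnePoint.coe_injective h)⟩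
  obtain ⟨P, hP, -, e, he⟩ := H G (OnePoint K) h3 h3t h2s h3s
  -- two elements fixing `∞` and `0`
  obtain ⟨a, b, ha, hb, hab⟩ := V1130.Twisted.exists_noncomm
  obtain ⟨g, hg1, hg2⟩ := V1130.TwistedPGL.exists_stab σ χ hσ hχ a
  obtain ⟨h, hh1, hh2⟩ := V1130.TwistedPGL.exists_stab σ χ hσ hχ b
  -- translate
  have key : ∀ k : G, ∃ A : Matrix.GeneralLinearGroup (Fin 2) P,
      ∀ (v : Fin 2 → P) (hv : v ≠ 0) (w : Fin 2 → P) (hw : w ≠ 0),
        w = Matrix.mulVec (A : Matrix (Fin 2) (Fin 2) P) v →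
          e (k • e.symm (Projectivization.mk P v hv)) = Projectivization.mk P w hw := by
    intro k
    have h1 := (he ((e.symm.trans (MulAction.toPerm k)).trans e)).1 ⟨k, fun x => by simp⟩
    obtain ⟨A, hA⟩ := h1
    exact ⟨A, fun v hv w hw hvw => hA v hv w hw hvw⟩
  have hne : ∀ (A : Matrix.GeneralLinearGroup (Fin 2) P) (v : Fin 2 → P), v ≠ 0 →
      Matrix.mulVec (A : Matrix (Fin 2) (Fin 2) P) v ≠ 0 := by
    intro A v hv h0
    apply hv
    have h1 : Matrix.mulVec ((A⁻¹ : Matrix.GeneralLinearGroup (Fin 2) P) :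
        Matrix (Fin 2) (Fin 2) P) (Matrix.mulVec (A : Matrix (Fin 2) (Fin 2) P) v) = 0 := by
      rw [h0, Matrix.mulVec_zero]
    rw [Matrix.mulVec_mulVec, ← Units.val_mul, inv_mul_cancel, Units.val_one,
      Matrix.one_mulVec] at h1
    exact h1
  obtain ⟨A, hA⟩ := key g
  obtain ⟨B, hB⟩ := key h
  -- the two fixed lines
  set v := (e OnePoint.infty).rep with hv
  set w := (e ((0 : K) : OnePoint K)).rep with hw
  have hv0 : v ≠ 0 := Projectivization.rep_nonzero _
  have hw0 : w ≠ 0 := Projectivization.rep_nonzero _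
  have hmv : Projectivization.mk P v hv0 = e OnePoint.infty := Projectivization.mk_rep _
  have hmw : Projectivization.mk P w hw0 = e ((0 : K) : OnePoint K) := Projectivization.mk_rep _
  have hvw : v 0 * w 1 - v 1 * w 0 ≠ 0 := by
    intro h0
    apply h0inf
    apply e.injective
    rw [← hmv, ← hmw, Projectivization.mk_eq_mk_iff']
    by_cases hw1 : w 0 = 0
    · have hw2 : w 1 ≠ 0 := fun h => hw0 (by ext i; fin_cases i <;> assumption)
      refine ⟨v 1 / w 1, ?_⟩
      have hv1 : v 0 = 0 := by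
        rw [hw1, mul_zero, sub_zero] at h0
        exact (mul_eq_zero.1 h0).resolve_right hw2
      ext i
      fin_cases i
      · change v 1 / w 1 * w 0 = v 0
        rw [hw1, hv1, mul_zero]
      · change v 1 / w 1 * w 1 = v 1
        field_simp
    · refine ⟨v 0 / w 0, ?_⟩
      ext i
      fin_cases i
      · change v 0 / w 0 * w 0 = v 0
        field_simp
      · change v 0 / w 0 * w 1 = v 1
        field_simp
        linear_combination h0
  have fixed : ∀ (k : G) (C : Matrix.GeneralLinearGroup (Fin 2) P)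
      (hC : ∀ (v : Fin 2 → P) (hv : v ≠ 0) (w : Fin 2 → P) (hw : w ≠ 0),
        w = Matrix.mulVec (C : Matrix (Fin 2) (Fin 2) P) v →
          e (k • e.symm (Projectivization.mk P v hv)) = Projectivization.mk P w hw)
      (x : OnePoint K) (u : Fin 2 → P) (hu : u ≠ 0) (hx : Projectivization.mk P u hu = e x),
      k • x = x → ∃ α : P, Matrix.mulVec (C : Matrix (Fin 2) (Fin 2) P) u = α • u := by
    intro k C hC x u hu hx hk
    have h1 := hC u hu _ (hne C u hu) rfl
    rw [hx, Equiv.symm_apply_apply, hk, ← hx, Projectivization.mk_eq_mk_iff'] at h1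
    obtain ⟨α, hα⟩ := h1
    have hα0 : α ≠ 0 := by
      rintro rfl
      rw [zero_smul] at hα
      exact hu hα.symm
    refine ⟨α⁻¹, ?_⟩
    rw [← hα, smul_smul, inv_mul_cancel₀ hα0, one_smul]
    rw [hα]
  have hg0 : g • ((0 : K) : OnePoint K) = ((0 : K) : OnePoint K) := by
    rw [hg2, map_zero, mul_zero]
  have hh0 : h • ((0 : K) : OnePoint K) = ((0 : K) : OnePoint K) := by
    rw [hh2, map_zero, mul_zero]
  obtain ⟨α, hα⟩ := fixed g A hA _ v hv0 hmv hg1
  obtain ⟨β, hβ⟩ := fixed g A hA _ w hw0 hmw hg0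
  obtain ⟨γ, hγ⟩ := fixed h B hB _ v hv0 hmv hh1
  obtain ⟨δ, hδ⟩ := fixed h B hB _ w hw0 hmw hh0
  have hABcomm := comm_of_two_fixed hvw hα hβ hγ hδ
  -- hence `g` and `h` commute on `1`
  have hcomm : g • h • ((1 : K) : OnePoint K) = h • g • ((1 : K) : OnePoint K) := by
    apply e.injective
    set u := (e ((1 : K) : OnePoint K)).rep with hu
    have hu0 : u ≠ 0 := Projectivization.rep_nonzero _
    have hmu : Projectivization.mk P u hu0 = e ((1 : K) : OnePoint K) :=
      Projectivization.mk_rep _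
    have h1 := hB u hu0 _ (hne B u hu0) rfl
    rw [hmu, Equiv.symm_apply_apply] at h1
    have h2 := hA _ (hne B u hu0) _ (hne A _ (hne B u hu0)) rfl
    rw [← h1, Equiv.symm_apply_apply] at h2
    have h3 := hA u hu0 _ (hne A u hu0) rfl
    rw [hmu, Equiv.symm_apply_apply] at h3
    have h4 := hB _ (hne A u hu0) _ (hne B _ (hne A u hu0)) rfl
    rw [← h3, Equiv.symm_apply_apply] at h4
    rw [h2, h4]
    congr 1
    rw [Matrix.mulVec_mulVec, Matrix.mulVec_mulVec, hABcomm]
  rw [hg2, hh2, hg2, hh2, map_one, map_one, mul_one, mul_one] at hcomm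
  have h5 := OnePoint.coe_injective hcomm
  have ha' : χ a = -1 := ha
  have hb' : χ b = 1 := hb
  rw [ha', hb', V1130.TwistedPGL.tw_one, V1130.TwistedPGL.tw_neg_one, RingHom.id_apply,
    mul_comm (b : K) (a : K)] at h5
  exact hab (mul_left_cancel₀ a.ne_zero h5)

end Pool.Agent.S01384
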