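import Pool.Statements.S01554

set_option autoImplicit false
open Pool Pool.MP_58cc81_al

namespace Pool.Agent.S01554

/-- The finitely supported binary sequences, with the discrete topology. -/
def V : Type := ℕ →₀ ZMod 2

noncomputable instance : AddCommGroup V := inferInstanceAs (AddCommGroup (ℕ →₀ ZMod 2))
noncomputable instance : Module (ZMod 2) V := inferInstanceAs (Module (ZMod 2) (ℕ →₀ ZMod 2))
instance : TopologicalSpace V := ⊥
instance : DiscreteTopology V := ⟨rfl⟩

/-- the coordinates of an element of `V` -/
def co (v : V) (i : ℕ) : ZMod 2 := (show ℕ →₀ ZMod 2 from v) i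

theorem co_add (v w : V) (i : ℕ) : co (v + w) i = co v i + co w i := rfl
theorem co_zero (i : ℕ) : co 0 i = 0 := rfl
theorem co_neg (v : V) (i : ℕ) : co (-v) i = - co v i := rfl
theorem co_smul (c : ZMod 2) (v : V) (i : ℕ) : co (c • v) i = c * co v i := rfl
theorem co_ext {v w : V} (h : ∀ i, co v i = co w i) : v = w := Finsupp.ext h

/-- The compact group of binary matrices indexed by pairs of natural numbers. -/
abbrev N : Type := ℕ → ℕ → ZMod 2

/-- The bilinear map `V × V → N`. -/
def β (v w : V) : N := fun i j => co v i * co w j

/-- A two-step nilpotent group, an extension of the discrete group `V` by the compact group `N`. -/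
structure Hs where
  c : N
  v : V

theorem Hs.ext' {a b : Hs} (h1 : a.c = b.c) (h2 : a.v = b.v) : a = b := by
  cases a; cases b; simp_all

noncomputable instance : Group Hs where
  mul a b := ⟨a.c + b.c + β a.v b.v, a.v + b.v⟩
  one := ⟨0, 0⟩
  inv a := ⟨-a.c + β a.v a.v, -a.v⟩
  mul_assoc := by
    intro a b c
    apply Hs.ext'
    · funext i j
      show (a.c i j + b.c i j + co a.v i * co b.v j) + c.c i j + (co a.v i + co b.v i) * co c.v j
        = a.c i j + (b.c i j + c.c i j + co b.v i * co c.v j) +
          co a.v i * (co b.v j + co c.v j)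
      ring
    · exact add_assoc _ _ _
  one_mul := by
    intro a
    apply Hs.ext'
    · funext i j
      show 0 + a.c i j + 0 * co a.v j = a.c i j
      ring
    · exact zero_add _
  mul_one := by
    intro a
    apply Hs.ext'
    · funext i j
      show a.c i j + 0 + co a.v i * 0 = a.c i j
      ring
    · exact add_zero _
  inv_mul_cancel := by
    intro a
    apply Hs.ext'
    · funext i j
      show (-a.c i j + co a.v i * co a.v j) + a.c i j + (-co a.v i) * co a.v j = 0
      ring
    · exact neg_add_cancel _

theorem mul_c (a b : Hs) : (a * b).c = a.c + b.c + β a.v b.v := rfl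
theorem mul_v (a b : Hs) : (a * b).v = a.v + b.v := rfl
theorem one_c : (1 : Hs).c = 0 := rfl
theorem one_v : (1 : Hs).v = 0 := rfl
theorem inv_c (a : Hs) : (a⁻¹).c = -a.c + β a.v a.v := rfl
theorem inv_v (a : Hs) : (a⁻¹).v = -a.v := rfl

/-- the underlying pair -/
def toProd : Hs ≃ N × V where
  toFun a := (a.c, a.v)
  invFun p := ⟨p.1, p.2⟩
  left_inv _ := rfl
  right_inv _ := rfl

instance : TopologicalSpace Hs := TopologicalSpace.induced toProd inferInstance

/-- the homeomorphism with the product -/
def hom : Hs ≃ₜ N × V := toProd.toHomeomorphOfIsInducing ⟨rfl⟩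

theorem cont_c : Continuous Hs.c := continuous_fst.comp hom.continuous
theorem cont_v : Continuous Hs.v := continuous_snd.comp hom.continuous

theorem cont_mk {X : Type} [TopologicalSpace X] {f : X → N} {g : X → V}
    (hf : Continuous f) (hg : Continuous g) : Continuous (fun x => (⟨f x, g x⟩ : Hs)) :=
  hom.symm.continuous.comp (hf.prodMk hg)

theorem cont_β : Continuous (fun p : V × V => β p.1 p.2) := continuous_of_discreteTopology

instance : IsTopologicalGroup Hs where
  continuous_mul := by
    apply cont_mk
    · exact ((cont_c.comp continuous_fst).add (cont_c.comp continuous_snd)).add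
        (cont_β.comp ((cont_v.comp continuous_fst).prodMk (cont_v.comp continuous_snd)))
    · exact (cont_v.comp continuous_fst).add (cont_v.comp continuous_snd)
  continuous_inv := by
    apply cont_mk
    · exact cont_c.neg.add (cont_β.comp (cont_v.prodMk cont_v))
    · exact cont_v.neg

instance : T2Space Hs := hom.isEmbedding.t2Space
instance : LocallyCompactSpace Hs := hom.isClosedEmbedding.locallyCompactSpace

/-- The counterexample: the product of the extension with the circle group. -/
abbrev G : Type := Hs × Circle

theorem isCompact_slab {S : Set V} (hS : S.Finite) : IsCompact {x : G | x.1.v ∈ S} := by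
  have h : {x : G | x.1.v ∈ S} =
      (fun p : (N × V) × Circle => ((⟨p.1.1, p.1.2⟩ : Hs), p.2)) ''
        (((Set.univ : Set N) ×ˢ S) ×ˢ (Set.univ : Set Circle)) := by
    ext x
    constructor
    · intro hx
      exact ⟨((x.1.c, x.1.v), x.2), ⟨⟨trivial, hx⟩, trivial⟩, rfl⟩
    · rintro ⟨p, ⟨⟨_, hp⟩, _⟩, rfl⟩
      exact hp
  rw [h]
  apply IsCompact.image
  · exact (isCompact_univ.prod hS.isCompact).prod isCompact_univ
  · exact (cont_mk (continuous_fst.comp continuous_fst) (continuous_snd.comp continuous_fst)).prodMk
      continuous_snd

theorem central {x g : G} (hx : x.1.v = 0) : g * x * g⁻¹ = x := by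
  apply Prod.ext
  · apply Hs.ext'
    · show (g.1 * x.1 * g.1⁻¹).c = x.1.c
      rw [mul_c, mul_c, inv_c, inv_v, mul_v, hx]
      funext i j
      show (g.1.c i j + x.1.c i j + co g.1.v i * co (0 : V) j) +
          (-g.1.c i j + co g.1.v i * co g.1.v j) + (co (g.1.v + 0) i) * co (-g.1.v) j = x.1.c i j
      rw [co_zero, add_zero, co_neg]
      ring
    · show (g.1 * x.1 * g.1⁻¹).v = x.1.v
      rw [mul_v, mul_v, inv_v, hx, add_zero, add_neg_cancel]
  · show g.2 * x.2 * g.2⁻¹ = x.2
    rw [mul_comm g.2 x.2, mul_assoc, mul_inv_cancel, mul_one]

theorem isOpen_zero : IsOpen {x : G | x.1.v = 0} :=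
  (isOpen_discrete ({0} : Set V)).preimage (cont_v.comp continuous_fst)

/-- The negation of the preceding statement: A Hausdorff locally compact group with small invariant neighbourhoods, whose abelian subgroups have compact closure and whose relatively compact subsets generate relatively compact subgroups, is totally disconnected or compact. -/
theorem result :
    ¬ (∀ (G : Type) [Group G] [TopologicalSpace G] [IsTopologicalGroup G]
      [LocallyCompactSpace G] [T2Space G],
      (∀ U ∈ nhds (1 : G), ∃ V ∈ nhds (1 : G), V ⊆ U ∧
          ∀ g x : G, x ∈ V → g * x * g⁻¹ ∈ V) →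
      (∀ H : Subgroup G, (∀ a ∈ H, ∀ b ∈ H, a * b = b * a) →
          IsCompact (closure (H : Set G))) →
      (∀ K : Set G, IsCompact (closure K) →
          IsCompact (closure ((Subgroup.closure K : Subgroup G) : Set G))) →
      TotallyDisconnectedSpace G ∨ CompactSpace G) := by
  intro h
  have hG := h G ?_ ?_ ?_
  · rcases hG with hG | hG
    · -- the circle is connected
      have hc : Continuous (fun t : ℝ => ((1 : Hs), Circle.exp t)) :=
        continuous_const.prodMk Circle.exp.continuous
      have hpre : IsPreconnected (Set.range (fun t : ℝ => ((1 : Hs), Circle.exp t))) :=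
        isPreconnected_range hc
      have hsub := hpre.subsingleton
      have h0 := hsub ⟨0, rfl⟩ ⟨Real.pi, rfl⟩
      have h1 : Circle.exp 0 = Circle.exp Real.pi := (Prod.ext_iff.1 h0).2
      have h2 : ((Circle.exp 0 : Circle) : ℂ) = ((Circle.exp Real.pi : Circle) : ℂ) := by rw [h1]
      rw [Circle.coe_exp, Circle.coe_exp, Complex.exp_pi_mul_I] at h2
      norm_num at h2
    · -- the quotient `V` is infinite and discrete
      have hVc : IsCompact (Set.univ : Set V) := by
        have := (isCompact_univ (X := G)).image (cont_v.comp continuous_fst)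
        have himg : (Hs.v ∘ Prod.fst) '' (Set.univ : Set G) = (Set.univ : Set V) := by
          apply Set.eq_univ_of_forall
          intro v
          exact ⟨((⟨0, v⟩ : Hs), 1), trivial, rfl⟩
        rwa [himg] at this
      have hfin : (Set.univ : Set V).Finite := isCompact_iff_finite.1 hVc
      have : Infinite V := by
        apply Infinite.of_injective (fun n : ℕ => (Finsupp.single n (1 : ZMod 2) : ℕ →₀ ZMod 2))
        intro a b hab
        by_contra hne
        have := DFunLike.congr_fun hab a
        rw [Finsupp.single_eq_same, Finsupp.single_eq_of_ne hne] at this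
        exact one_ne_zero this
      exact Set.infinite_univ hfin
  · intro U hU
    refine ⟨U ∩ {x : G | x.1.v = 0}, Filter.inter_mem hU (isOpen_zero.mem_nhds rfl),
      Set.inter_subset_left, ?_⟩
    intro g x hx
    rw [central hx.2]
    exact hx
  · intro H hH
    by_cases h0 : ∀ x ∈ H, x.1.v = 0
    · apply (isCompact_slab (Set.finite_singleton (0 : V))).closure_of_subset
      intro x hx
      exact h0 x hx
    · push Not at h0
      obtain ⟨y, hy, hy0⟩ := h0
      apply (isCompact_slab ((Set.finite_singleton y.1.v).insert (0 : V))).closure_of_subset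
      intro x hx
      have hcomm := congrArg (fun z : G => z.1.c) (hH x hx y hy)
      have hcij : ∀ i j, co x.1.v i * co y.1.v j = co y.1.v i * co x.1.v j := by
        intro i j
        have := congrFun (congrFun hcomm i) j
        have h' : x.1.c i j + y.1.c i j + co x.1.v i * co y.1.v j =
          y.1.c i j + x.1.c i j + co y.1.v i * co x.1.v j := this
        linear_combination h'
      obtain ⟨j, hj⟩ : ∃ j, co y.1.v j ≠ 0 := by
        by_contra hcon
        push Not at hcon
        exact hy0 (co_ext hcon)
      have hj1 : co y.1.v j = 1 := by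
        have : ∀ t : ZMod 2, t ≠ 0 → t = 1 := by decide
        exact this _ hj
      have hxs : x.1.v = co x.1.v j • y.1.v := by
        apply co_ext
        intro i
        rw [co_smul]
        have := hcij i j
        rw [hj1, mul_one] at this
        rw [this, mul_comm]
      show x.1.v ∈ (insert (0 : V) {y.1.v} : Set V)
      have h01 : ∀ t : ZMod 2, t = 0 ∨ t = 1 := by decide
      rcases h01 (co x.1.v j) with h | h
      · left
        rw [hxs, h, zero_smul]
      · right
        rw [Set.mem_singleton_iff, hxs, h, one_smul]
  · intro K hK
    have hfin : (Hs.v ∘ Prod.fst '' closure K : Set V).Finite :=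
      isCompact_iff_finite.1 (hK.image (cont_v.comp continuous_fst))
    let S : Submodule (ZMod 2) V := Submodule.span (ZMod 2) (Hs.v ∘ Prod.fst '' closure K)
    have hSfin : (S : Set V).Finite := by
      have : Module.Finite (ZMod 2) S := Module.Finite.span_of_finite (ZMod 2) hfin
      have : Finite S := Module.finite_of_finite (ZMod 2)
      exact Set.toFinite _
    apply (isCompact_slab hSfin).closure_of_subset
    intro x hx
    induction hx using Subgroup.closure_induction with
    | mem x hx => exact Submodule.subset_span ⟨x, subset_closure hx, rfl⟩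
    | one => exact S.zero_mem
    | mul x y _ _ h1 h2 => exact S.add_mem h1 h2
    | inv x _ h1 => exact S.neg_mem h1

end Pool.Agent.S01554
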