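import Pool.Statements.S02070
import Pool.Agent.V1114.GL3Two

set_option autoImplicit false
open Pool Pool.MP_7ed69f_al

namespace Pool.Agent.S02070

open Pool.Agent.V1114.GL3 Pool.Agent.V1114.IndRep

section Aux

variable (p : ℕ) [hp : Fact p.Prime]

lemma ker_eq : IsLocalRing.maximalIdeal ℤ_[p] ^ 2
    = RingHom.ker (PadicInt.toZModPow 2 : ℤ_[p] →+* ZMod (p ^ 2)) := by
  rw [PadicInt.ker_toZModPow, PadicInt.maximalIdeal_eq_span_p, Ideal.span_singleton_pow]

/-- The ring isomorphism `ℤ_p / 𝔪² ≃ ℤ / p²`. -/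
noncomputable def ψ : (ℤ_[p] ⧸ IsLocalRing.maximalIdeal ℤ_[p] ^ 2) ≃+* A p :=
  (Ideal.quotEquivOfEq (ker_eq p)).trans
    (RingHom.quotientKerEquivOfSurjective (ZMod.ringHom_surjective (PadicInt.toZModPow 2)))

/-- The group isomorphism. -/
noncomputable def Φ : Matrix.GeneralLinearGroup (Fin 3)
    (ℤ_[p] ⧸ IsLocalRing.maximalIdeal ℤ_[p] ^ 2) ≃* Matrix.GeneralLinearGroup (Fin 3) (A p) :=
  Units.mapEquiv (ψ p).mapMatrix.toMulEquiv

lemma Φ_symm_apply (g : Matrix.GeneralLinearGroup (Fin 3) (A p)) (i j : Fin 3) :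
    ((Φ p).symm g).val i j = (ψ p).symm (g.val i j) := rfl

lemma finite_residue : Finite (IsLocalRing.ResidueField ℤ_[p]) :=
  Finite.of_equiv _ (PadicInt.residueField (p := p)).symm.toEquiv

lemma card_residue : Nat.card (IsLocalRing.ResidueField ℤ_[p]) = p := by
  rw [Nat.card_congr (PadicInt.residueField (p := p)).toEquiv, Nat.card_zmod]

lemma exists_rep (hp3 : 3 ≤ p) :
    ∃ (V : Type) (_ : AddCommGroup V) (_ : Module ℂ V)
        (ρ : Representation ℂ
          (Matrix.GeneralLinearGroup (Fin 3) (ℤ_[p] ⧸ IsLocalRing.maximalIdeal ℤ_[p] ^ 2)) V),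
        FiniteDimensional ℂ V ∧ Nontrivial V ∧
        (∀ W : Submodule ℂ V, (∀ g v, v ∈ W → ρ g v ∈ W) → W = ⊥ ∨ W = ⊤) ∧
        (∃ g : Matrix.GeneralLinearGroup (Fin 3)
            (ℤ_[p] ⧸ IsLocalRing.maximalIdeal ℤ_[p] ^ 2),
          (∀ i j, ∃ a ∈ IsLocalRing.maximalIdeal ℤ_[p] ^ (2 - 1),
            g.val i j
              - (1 : Matrix (Fin 3) (Fin 3) (ℤ_[p] ⧸ IsLocalRing.maximalIdeal ℤ_[p] ^ 2)) i j
              = Ideal.Quotient.mk (IsLocalRing.maximalIdeal ℤ_[p] ^ 2) a) ∧ ρ g ≠ 1) ∧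
        (Module.finrank ℂ V : ℤ) = (cdim p : ℤ) := by
  have hp2 : 2 ≤ p := by omega
  have hfr : Module.finrank ℂ (Space (S p) (χ p)) = cdim p := by
    rw [finrank_space, index_S p hp2]
  have hirr := irreducible (S p) (χ p) (separate p hp3)
  have hcpos : 1 < cdim p := by
    unfold cdim
    have h1 : 8 ≤ p ^ 3 := by
      calc 8 = 2 ^ 3 := by norm_num
        _ ≤ p ^ 3 := Nat.pow_le_pow_left hp2 3
    have h2 : 1 ≤ (p + 1) * (p ^ 2 + p + 1) := Nat.succ_le_of_lt (by positivity)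
    calc 1 < 8 * 1 := by norm_num
      _ ≤ p ^ 3 * ((p + 1) * (p ^ 2 + p + 1)) := Nat.mul_le_mul h1 h2
      _ = _ := by ring
  refine ⟨Space (S p) (χ p), inferInstance, inferInstance,
    (rep (S p) (χ p)).comp (Φ p).toMonoidHom, inferInstance, ?_, ?_, ?_, ?_⟩
  · apply Module.nontrivial_of_finrank_pos (R := ℂ)
    rw [hfr]
    omega
  · intro W hW
    apply hirr W
    intro g v hv
    have := hW ((Φ p).symm g) v hv
    have h2 : ((rep (S p) (χ p)).comp (Φ p).toMonoidHom) ((Φ p).symm g) = rep (S p) (χ p) g := by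
      show rep (S p) (χ p) ((Φ p) ((Φ p).symm g)) = _
      rw [MulEquiv.apply_symm_apply]
    rwa [h2] at this
  · -- an element outside `S`
    have hex : ∃ g, g ∉ S p := by
      by_contra hcon
      push Not at hcon
      have : S p = ⊤ := by
        rw [Subgroup.eq_top_iff']
        exact hcon
      have h2 := index_S p hp2
      rw [this, Subgroup.index_top] at h2
      omega
    obtain ⟨g₀, hg₀⟩ := hex
    obtain ⟨x, hx⟩ := separate' p hp3 g₀ hg₀
    refine ⟨(Φ p).symm (kx p x), ?_, ?_⟩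
    · intro i j
      obtain ⟨c, hc⟩ := Ideal.Quotient.mk_surjective ((ψ p).symm (x i j))
      refine ⟨(p : ℤ_[p]) * c, ?_, ?_⟩
      · rw [show 2 - 1 = 1 from rfl, pow_one, PadicInt.maximalIdeal_eq_span_p]
        exact Ideal.mul_mem_right _ _ (Ideal.mem_span_singleton_self _)
      · rw [Φ_symm_apply, kx_val, map_mul, hc, map_natCast]
        have h1 : (1 : Matrix (Fin 3) (Fin 3) (ℤ_[p] ⧸ IsLocalRing.maximalIdeal ℤ_[p] ^ 2)) i j
            = (ψ p).symm ((1 : Matrix (Fin 3) (Fin 3) (A p)) i j) := by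
          by_cases hij : i = j
          · subst hij; rw [Matrix.one_apply_eq, Matrix.one_apply_eq, map_one]
          · rw [Matrix.one_apply_ne hij, Matrix.one_apply_ne hij, map_zero]
        rw [h1, Matrix.add_apply, map_add, add_sub_cancel_left, Matrix.smul_apply, smul_eq_mul,
          map_mul, map_natCast]
    · intro hone
      have h1 : rep (S p) (χ p) (kx p x) = 1 := by
        have : ((rep (S p) (χ p)).comp (Φ p).toMonoidHom) ((Φ p).symm (kx p x))
            = rep (S p) (χ p) (kx p x) := by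
          show rep (S p) (χ p) ((Φ p) ((Φ p).symm (kx p x))) = _
          rw [MulEquiv.apply_symm_apply]
        rw [← this]
        exact hone
      have h2 : ∀ g, χ p ⟨g⁻¹ * kx p x * g, kx_mem p g x⟩ = 1 := by
        intro g
        let f : Space (S p) (χ p) := (equivCosets (S p) (χ p)).symm (fun _ => 1)
        have hf : f.1 g ≠ 0 := by
          show ((χ p (sOf (S p) g))⁻¹ : ℂˣ) * (1 : ℂ) ≠ 0
          rw [mul_one]
          exact Units.ne_zero _
        have h3 := rep_conj (S p) (χ p) (kx p x) g (kx_mem p g x) f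
        rw [h1] at h3
        have h4 : ((χ p ⟨g⁻¹ * kx p x * g, kx_mem p g x⟩ : ℂˣ) : ℂ) * f.1 g = 1 * f.1 g := by
          rw [← h3, one_mul]; rfl
        exact Units.ext (mul_right_cancel₀ hf h4)
      exact hx (by rw [h2, h2])
  · rw [hfr]

end Aux

lemma no_rep :
    ¬ ∃ (V : Type) (_ : AddCommGroup V) (_ : Module ℂ V)
        (ρ : Representation ℂ
          (Matrix.GeneralLinearGroup (Fin 3) (ℤ_[2] ⧸ IsLocalRing.maximalIdeal ℤ_[2] ^ 2)) V),
        FiniteDimensional ℂ V ∧ Nontrivial V ∧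
        (∀ W : Submodule ℂ V, (∀ g v, v ∈ W → ρ g v ∈ W) → W = ⊥ ∨ W = ⊤) ∧
        (∃ g : Matrix.GeneralLinearGroup (Fin 3)
            (ℤ_[2] ⧸ IsLocalRing.maximalIdeal ℤ_[2] ^ 2),
          (∀ i j, ∃ a ∈ IsLocalRing.maximalIdeal ℤ_[2] ^ (2 - 1),
            g.val i j
              - (1 : Matrix (Fin 3) (Fin 3) (ℤ_[2] ⧸ IsLocalRing.maximalIdeal ℤ_[2] ^ 2)) i j
              = Ideal.Quotient.mk (IsLocalRing.maximalIdeal ℤ_[2] ^ 2) a) ∧ ρ g ≠ 1) ∧
        (Module.finrank ℂ V : ℤ) = 168 := by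
  rintro ⟨V, i1, i2, ρ, hfd, hnt, hirr, -, hdim⟩
  have h := bound_two (ρ.comp (Φ 2).symm.toMonoidHom) (by
    intro W hW
    apply hirr W
    intro g v hv
    have := hW ((Φ 2) g) v hv
    have h2 : (ρ.comp (Φ 2).symm.toMonoidHom) ((Φ 2) g) = ρ g := by
      show ρ ((Φ 2).symm ((Φ 2) g)) = _
      rw [MulEquiv.symm_apply_apply]
    rwa [h2] at this)
  have h2 : (Module.finrank ℂ V : ℤ) ≤ 84 := by exact_mod_cast h
  omega

/-- The polynomial `X³ (X + 1) (X² + X + 1)`. -/
noncomputable def cpoly : Polynomial ℤ :=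
  Polynomial.X ^ 3 * (Polynomial.X + 1) * (Polynomial.X ^ 2 + Polynomial.X + 1)

lemma cpoly_eval (q : ℕ) : cpoly.eval (q : ℤ) = (cdim q : ℤ) := by
  unfold cpoly cdim
  simp

/-- The negation of the preceding statement: For all N,r ≥ 2 there is a finite set of integer polynomials of degree ≤ C(N,2)·r whose values at q are exactly the dimensions of irreducible complex reps of GL_N(o/p^r) nontrivial on the level-(r−1) kernel, for every compact DVR o. -/
theorem result :
    ¬ (∀ N r : ℕ, 2 ≤ N → 2 ≤ r →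
    ∃ P : Finset (Polynomial ℤ), (∀ d ∈ P, d.natDegree ≤ N.choose 2 * r) ∧
    ∀ (R : Type) [CommRing R] [IsDomain R] [IsDiscreteValuationRing R]
      [Finite (IsLocalRing.ResidueField R)]
      [IsAdicComplete (IsLocalRing.maximalIdeal R) R],
    {z : ℤ | ∃ (V : Type) (_ : AddCommGroup V) (_ : Module ℂ V)
        (ρ : Representation ℂ
          (Matrix.GeneralLinearGroup (Fin N) (R ⧸ IsLocalRing.maximalIdeal R ^ r)) V),
        FiniteDimensional ℂ V ∧ Nontrivial V ∧
        (∀ W : Submodule ℂ V, (∀ g v, v ∈ W → ρ g v ∈ W) → W = ⊥ ∨ W = ⊤) ∧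
        (∃ g : Matrix.GeneralLinearGroup (Fin N) (R ⧸ IsLocalRing.maximalIdeal R ^ r),
          (∀ i j, ∃ a ∈ IsLocalRing.maximalIdeal R ^ (r - 1),
            g.val i j
              - (1 : Matrix (Fin N) (Fin N) (R ⧸ IsLocalRing.maximalIdeal R ^ r)) i j
              = Ideal.Quotient.mk (IsLocalRing.maximalIdeal R ^ r) a) ∧ ρ g ≠ 1) ∧
        (Module.finrank ℂ V : ℤ) = z}
    = (fun d : Polynomial ℤ => d.eval (Nat.card (IsLocalRing.ResidueField R) : ℤ)) ''
        (P : Set (Polynomial ℤ))) := by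
  intro H
  obtain ⟨P, -, hP⟩ := H 3 2 (by norm_num) le_rfl
  have key : ∀ p : ℕ, p.Prime → 3 ≤ p → ∃ d ∈ P, d.eval (p : ℤ) = cpoly.eval (p : ℤ) := by
    intro p hp hp3
    have : Fact p.Prime := ⟨hp⟩
    have : Finite (IsLocalRing.ResidueField ℤ_[p]) := finite_residue p
    have h := hP ℤ_[p]
    have hmem : (cdim p : ℤ) ∈ (fun d : Polynomial ℤ =>
        d.eval (Nat.card (IsLocalRing.ResidueField ℤ_[p]) : ℤ)) '' (P : Set (Polynomial ℤ)) := by
      rw [← h]
      exact exists_rep p hp3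
    obtain ⟨d, hd, hd2⟩ := hmem
    refine ⟨d, hd, ?_⟩
    rw [cpoly_eval, ← hd2]
    show _ = d.eval (Nat.card (IsLocalRing.ResidueField ℤ_[p]) : ℤ)
    rw [card_residue]
  have hc : cpoly ∈ P := by
    by_contra hnot
    have hne : ∏ d ∈ P, (d - cpoly) ≠ 0 := by
      rw [Finset.prod_ne_zero_iff]
      intro d hd h0
      rw [sub_eq_zero] at h0
      exact hnot (h0 ▸ hd)
    apply hne
    apply Polynomial.eq_zero_of_infinite_isRoot
    have hinf : Set.Infinite {p : ℕ | p.Prime ∧ 3 ≤ p} := by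
      have h1 := Nat.infinite_setOfPred_prime
      have h2 : {p : ℕ | p.Prime} ⊆ {p : ℕ | p.Prime ∧ 3 ≤ p} ∪ {2} := by
        intro p hp
        rcases Nat.lt_or_ge p 3 with h | h
        · right
          have := Nat.Prime.two_le hp
          show p = 2
          omega
        · left
          exact ⟨hp, h⟩
      intro hfin
      exact h1 ((hfin.union (Set.finite_singleton 2)).subset h2)
    have himg : Set.Infinite ((fun n : ℕ => (n : ℤ)) '' {p : ℕ | p.Prime ∧ 3 ≤ p}) :=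
      hinf.image (Nat.cast_injective.injOn)
    refine himg.mono ?_
    rintro _ ⟨p, ⟨hp, hp3⟩, rfl⟩
    obtain ⟨d, hd, hd2⟩ := key p hp hp3
    show (∏ d ∈ P, (d - cpoly)).IsRoot (p : ℤ)
    rw [Polynomial.IsRoot.def, Polynomial.eval_prod]
    apply Finset.prod_eq_zero hd
    rw [Polynomial.eval_sub, hd2, sub_self]
  have : Fact (Nat.Prime 2) := ⟨Nat.prime_two⟩
  have : Finite (IsLocalRing.ResidueField ℤ_[2]) := finite_residue 2
  have h := hP ℤ_[2]
  apply no_rep
  have hmem : (168 : ℤ) ∈ (fun d : Polynomial ℤ =>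
      d.eval (Nat.card (IsLocalRing.ResidueField ℤ_[2]) : ℤ)) '' (P : Set (Polynomial ℤ)) := by
    refine ⟨cpoly, hc, ?_⟩
    show cpoly.eval (Nat.card (IsLocalRing.ResidueField ℤ_[2]) : ℤ) = 168
    rw [card_residue, cpoly_eval]
    rfl
  rw [← h] at hmem
  exact hmem

end Pool.Agent.S02070
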