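import Pool.Statements.S02286
-- import your own Pool.Agent.* helpers here

set_option autoImplicit false
open Pool Pool.MP_91b10e_al

namespace Pool.Agent.S02286

/-! The example is the group of all sequences of elements of `S_3`; its Zariski topology is the
product topology (as in S00905). -/

/-- The finite centreless group used in every coordinate. -/
abbrev S3 : Type := Equiv.Perm (Fin 3)

instance : TopologicalSpace S3 := ⊥
instance : DiscreteTopology S3 := ⟨rfl⟩

lemma s3_centreless (z : S3) (h : ∀ g : S3, g * z * g⁻¹ * z⁻¹ = 1) : z = 1 := by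
  revert z
  decide

/-- Evaluation of a word is continuous in a topological group. -/
lemma continuous_eval {G : Type} [Group G] [TopologicalSpace G] [IsTopologicalGroup G]
    (w : Monoid.Coprod G (Multiplicative ℤ)) :
    Continuous fun g : G =>
      Monoid.Coprod.lift (MonoidHom.id G) (zpowersHom G g) w := by
  induction w using Monoid.Coprod.induction_on with
  | inl m => simpa using continuous_const
  | inr n =>
    simp only [Monoid.Coprod.lift_apply_inr, zpowersHom_apply]
    exact continuous_zpow _
  | mul x y hx hy =>
    simp only [map_mul]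
    exact hx.mul hy

/-- The word expressing that `g` (in coordinate `i`) commutes with `x s⁻¹`. -/
noncomputable def wd (i : ℕ) (s g : S3) : Monoid.Coprod (ℕ → S3) (Multiplicative ℤ) :=
  Monoid.Coprod.inl (Pi.mulSingle i g) * Monoid.Coprod.inr (Multiplicative.ofAdd 1) *
    Monoid.Coprod.inl (Pi.mulSingle i s⁻¹) * Monoid.Coprod.inl (Pi.mulSingle i g⁻¹) *
    Monoid.Coprod.inl (Pi.mulSingle i s) * Monoid.Coprod.inr (Multiplicative.ofAdd (-1))

lemma eval_wd (i : ℕ) (s g : S3) (a : ℕ → S3) :
    Monoid.Coprod.lift (MonoidHom.id (ℕ → S3)) (zpowersHom (ℕ → S3) a) (wd i s g) =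
      Pi.mulSingle i (g * (a i * s⁻¹) * g⁻¹ * (a i * s⁻¹)⁻¹) := by
  have h1 : Monoid.Coprod.lift (MonoidHom.id (ℕ → S3)) (zpowersHom (ℕ → S3) a) (wd i s g) =
      Pi.mulSingle i g * a * Pi.mulSingle i s⁻¹ * Pi.mulSingle i g⁻¹ * Pi.mulSingle i s * a⁻¹ := by
    simp [wd, zpowersHom_apply]
  rw [h1]
  funext j
  by_cases hj : j = i
  · subst hj
    simp [mul_assoc]
  · simp [Pi.mulSingle_eq_of_ne hj]

/-- The negation of the preceding statement: For every group G, if the Zariski topology (closed subbasis: solution sets of one-variable equations with constants from G) is compact, then it is Noetherian. -/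
theorem result :
    ¬ (∀ (G : Type) [Group G],
      @IsCompact G
        (TopologicalSpace.generateFrom
          {U : Set G | ∃ w : Monoid.Coprod G (Multiplicative ℤ),
            U = {x : G | Monoid.Coprod.lift (MonoidHom.id G) (zpowersHom G x) w ≠ 1}})
        Set.univ →
      @TopologicalSpace.NoetherianSpace G
        (TopologicalSpace.generateFrom
          {U : Set G | ∃ w : Monoid.Coprod G (Multiplicative ℤ),
            U = {x : G | Monoid.Coprod.lift (MonoidHom.id G) (zpowersHom G x) w ≠ 1}})) := by
  intro hall
  have key : (Pi.topologicalSpace : TopologicalSpace (ℕ → S3)) =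
      TopologicalSpace.generateFrom
        {U : Set (ℕ → S3) | ∃ w : Monoid.Coprod (ℕ → S3) (Multiplicative ℤ),
          U = {x : ℕ → S3 | Monoid.Coprod.lift (MonoidHom.id (ℕ → S3))
            (zpowersHom (ℕ → S3) x) w ≠ 1}} := by
    apply le_antisymm
    · apply le_generateFrom
      rintro U ⟨w, rfl⟩
      have h1 : IsClosed {x : ℕ → S3 | Monoid.Coprod.lift (MonoidHom.id (ℕ → S3))
            (zpowersHom (ℕ → S3) x) w = 1} := isClosed_eq (continuous_eval w) continuous_const
      exact h1.isOpen_compl
    · set T : TopologicalSpace (ℕ → S3) := TopologicalSpace.generateFrom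
        {U : Set (ℕ → S3) | ∃ w : Monoid.Coprod (ℕ → S3) (Multiplicative ℤ),
          U = {x : ℕ → S3 | Monoid.Coprod.lift (MonoidHom.id (ℕ → S3))
            (zpowersHom (ℕ → S3) x) w ≠ 1}} with hT
      have hclosed : ∀ (i : ℕ) (s : S3), @IsClosed _ T {a : ℕ → S3 | a i = s} := by
        intro i s
        have he : {a : ℕ → S3 | a i = s} = ⋂ g : S3, {a : ℕ → S3 |
            Monoid.Coprod.lift (MonoidHom.id (ℕ → S3)) (zpowersHom (ℕ → S3) a)
              (wd i s g) = 1} := by
          ext a
          simp only [Set.mem_ofPred_eq, Set.mem_iInter, eval_wd]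
          constructor
          · rintro rfl g
            simp
          · intro h
            have h2 : a i * s⁻¹ = 1 := by
              apply s3_centreless
              intro g
              have := h g
              rwa [Pi.mulSingle_eq_one_iff] at this
            exact mul_inv_eq_one.mp h2
        rw [he]
        apply @isClosed_iInter _ _ T
        intro g
        refine @IsClosed.mk _ T _ ?_
        exact TopologicalSpace.GenerateOpen.basic _ ⟨wd i s g, rfl⟩
      rw [Pi.topologicalSpace]
      apply le_iInf
      intro i
      rw [← continuous_iff_le_induced]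
      rw [@continuous_def _ _ T _]
      intro U _
      rw [← @isClosed_compl_iff _ T]
      have he : ((fun a : ℕ → S3 => a i) ⁻¹' U)ᶜ = ⋃ s ∈ Uᶜ, {a : ℕ → S3 | a i = s} := by
        ext a
        simp
      rw [he]
      exact @Set.Finite.isClosed_biUnion _ _ T _ _ (Set.toFinite _) (fun s _ => hclosed i s)
  have h := hall (ℕ → S3)
  rw [← key] at h
  have h2 : TopologicalSpace.NoetherianSpace (ℕ → S3) := h isCompact_univ
  have h3 : Finite (ℕ → S3) := TopologicalSpace.NoetherianSpace.finite
  exact not_finite (ℕ → S3)

end Pool.Agent.S02286
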