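import Pool.Statements.S02425
import Pool.Agent.V1126.RatHeight
import Pool.Agent.V1126.QPBridge

set_option autoImplicit false
open Pointwise
open Pool Pool.MP_98b561_al

namespace Pool.Agent.S02425

open Pool.Agent.V1126

theorem main_qp : QP.IsQP RatAlg.height.gen := by
  refine RatAlg.height.isQP (RatAlg.τG 1) ?_ 0 fun n => ?_
  · show RatFunc.intDegree ((RatAlg.τG 1).1 1 - (RatAlg.τG 1).1 0) = 0
    rw [RatAlg.τG_apply, RatAlg.τG_apply, zero_add, add_sub_cancel_right, RatFunc.intDegree_one]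
  · have h0 : (RatAlg.TG ^ n * (RatAlg.τG 1 * (RatAlg.TG ^ n)⁻¹ * (RatAlg.τG 1)⁻¹)).1 0 =
        RatAlg.t ^ n + 1 := by
      have hT : ∀ z, (RatAlg.TG ^ n).1 z = RatAlg.t ^ n * z := by
        intro z
        have := RatAlg.zpow_apply RatAlg.t_ne RatAlg.TG_apply (n : ℤ) z
        rwa [zpow_natCast, zpow_natCast] at this
      have h1 : ((RatAlg.τG 1)⁻¹).1 0 = 1 := by
        apply RatAlg.inv_mul_apply
        rw [RatAlg.τG_apply]
        exact RatAlg.add_self 1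
      have h2 : ((RatAlg.TG ^ n)⁻¹).1 1 = (RatAlg.t ^ n)⁻¹ := by
        apply RatAlg.inv_mul_apply
        rw [hT, mul_inv_cancel₀ (pow_ne_zero _ RatAlg.t_ne)]
      rw [RatAlg.mul_apply, RatAlg.mul_apply, RatAlg.mul_apply, h1, h2, RatAlg.τG_apply, hT, mul_add,
        mul_inv_cancel₀ (pow_ne_zero _ RatAlg.t_ne), add_comm]
      show RatAlg.t ^ n * (1 : RatAlg.K) + 1 = _
      rw [mul_one]
    have h3 : RatFunc.intDegree (RatAlg.t ^ n + 1) = n := by
      have : RatAlg.t ^ n + 1 =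
          algebraMap (Polynomial RatAlg.F) RatAlg.K (Polynomial.X ^ n + Polynomial.C 1) := by
        rw [map_add, map_pow, Polynomial.C_1, map_one]; rfl
      rw [this, RatFunc.intDegree_polynomial, Polynomial.natDegree_X_pow_add_C]
    have h4 : RatFunc.intDegree
        ((RatAlg.TG ^ n * (RatAlg.τG 1 * (RatAlg.TG ^ n)⁻¹ * (RatAlg.τG 1)⁻¹)).1 0) ≤
        RatAlg.HG (RatAlg.TG ^ n * (RatAlg.τG 1 * (RatAlg.TG ^ n)⁻¹ * (RatAlg.τG 1)⁻¹)) :=
      le_trans (le_max_right _ _) (le_max_right _ _)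
    rw [h0, h3] at h4
    show (n : ℤ) - 0 ≤ RatAlg.HG (RatAlg.TG ^ n * (RatAlg.τG 1 * (RatAlg.TG ^ n)⁻¹ * (RatAlg.τG 1)⁻¹))
    omega

theorem main_unique (Y : Set RatAlg.Gr) (hY : QP.IsQP Y) :
    (∃ C : ℕ, ∀ y ∈ Y, QP.wlen RatAlg.height.gen y ≤ C) ∧
      (∃ C : ℕ, ∀ x ∈ RatAlg.height.gen, QP.wlen Y x ≤ C) := by
  obtain ⟨E, hE⟩ := QP.exists_HL hY.1 hY.2.1
  have hq : E.QP := hY.toHL hE
  obtain ⟨c⟩ := RatAlg.data.exists_ctx E hq
  constructor
  · obtain ⟨B, hB⟩ := c.bound_of_l RatAlg.deg 1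
    refine ⟨(3 * |B| + 1).toNat, fun y hy => ?_⟩
    obtain ⟨x, i, j, e, rfl, he⟩ := RatAlg.data.nf' y
    have h1 : E.l (RatAlg.data.τ x * RatAlg.data.U i j * e) ≤ 1 := by
      rw [hE]
      exact_mod_cast QP.wlen_le (by rw [pow_one]; exact Or.inl hy)
    obtain ⟨h2, h3⟩ := hB x i j e he h1
    have h4 := RatAlg.height.wlen_le_D (RatAlg.data.τ x * RatAlg.data.U i j * e)
    obtain ⟨h5, h6⟩ := RatAlg.height_form x i j e he
    have h7 : RatAlg.height.D (RatAlg.data.τ x * RatAlg.data.U i j * e) =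
        2 * max 0 (max (i + j) (RatFunc.intDegree (x : RatAlg.K))) - (i + j) := by
      show 2 * RatAlg.HG _ - RatAlg.kG _ = _
      rw [h5, h6]
    have h8 : RatFunc.intDegree (x : RatAlg.K) ≤ |B| := by
      rcases h3 with h3 | h3
      · rw [h3, RatFunc.intDegree_zero]; exact abs_nonneg B
      · exact h3.trans (le_abs_self B)
    have h9 := abs_le.1 h2
    have h10 := le_abs_self B
    rw [h7] at h4
    omega
  · obtain ⟨B, hB⟩ := c.l_of_bound RatAlg.deg 1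
    refine ⟨B.toNat, fun g hg => ?_⟩
    obtain ⟨x, i, j, e, rfl, he⟩ := RatAlg.data.nf' g
    have h1 : RatAlg.height.D (RatAlg.data.τ x * RatAlg.data.U i j * e) ≤ 1 := hg
    obtain ⟨h5, h6⟩ := RatAlg.height_form x i j e he
    have h7 : RatAlg.height.D (RatAlg.data.τ x * RatAlg.data.U i j * e) =
        2 * max 0 (max (i + j) (RatFunc.intDegree (x : RatAlg.K))) - (i + j) := by
      show 2 * RatAlg.HG _ - RatAlg.kG _ = _
      rw [h5, h6]
    have h8 := hB x i j e he (by rw [abs_le]; constructor <;> omega) (Or.inr (by omega))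
    rw [hE] at h8
    omega

/-- There is a group G with a generating set X whose Cayley graph is hyperbolic with a quasi-parabolic G-action, such that every other such generating set Y is equivalent to X (each has bounded word length with respect to the other). -/
theorem result :
  ∃ (G : Type) (_ : Group G),
    ∀ (len : Set G → G → ℕ),
      (∀ (S : Set G) (g : G), len S g = sInf {n : ℕ | g ∈ (S ∪ S⁻¹) ^ n}) →
    ∀ (gp : Set G → G → G → ℝ),
      (∀ (S : Set G) (a b : G),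
        gp S a b = ((len S a : ℝ) + (len S b : ℝ) - (len S (a⁻¹ * b) : ℝ)) / 2) →
    ∀ (lox : Set G → G → Prop),
      (∀ (S : Set G) (g : G),
        lox S g ↔ ∃ c : ℝ, 0 < c ∧ ∀ n : ℕ, c * (n : ℝ) ≤ (len S (g ^ n) : ℝ)) →
    ∀ (sameEnd : Set G → G → G → Prop),
      (∀ (S : Set G) (a b : G),
        sameEnd S a b ↔ ∀ K : ℝ, ∃ N : ℕ, ∀ n m : ℕ, N ≤ n → N ≤ m →
          K ≤ gp S (a ^ n) (b ^ m)) →
    ∀ (QP : Set G → Prop),
      (∀ S : Set G, QP S ↔
        (Subgroup.closure S = ⊤ ∧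
         (∃ δ : ℝ, ∀ x y z : G, min (gp S x y) (gp S y z) - δ ≤ gp S x z) ∧
         (∃ g h : G, lox S g ∧ lox S h ∧
            ¬ ((sameEnd S g h ∧ sameEnd S g⁻¹ h⁻¹) ∨
               (sameEnd S g h⁻¹ ∧ sameEnd S g⁻¹ h))) ∧
         (∀ g h : G, lox S g → lox S h →
            (sameEnd S g h ∨ sameEnd S g h⁻¹ ∨ sameEnd S g⁻¹ h ∨ sameEnd S g⁻¹ h⁻¹)))) →
    ∃ X : Set G, QP X ∧
      ∀ Y : Set G, QP Y →
        (∃ C : ℕ, ∀ y ∈ Y, len X y ≤ C) ∧ (∃ C : ℕ, ∀ x ∈ X, len Y x ≤ C) := by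
  refine ⟨RatAlg.Gr, inferInstance, ?_⟩
  intro len hlen gp hgp lox hlox se hse qp hqp
  obtain rfl : len = QP.wlen := by funext S g; rw [hlen]; rfl
  obtain rfl : gp = QP.gprod := by funext S a b; rw [hgp]; rfl
  obtain rfl : lox = QP.Loxodromic := by funext S g; exact propext (hlox S g)
  obtain rfl : se = QP.SameEnd := by funext S a b; exact propext (hse S a b)
  have hqp' : ∀ S, qp S ↔ QP.IsQP S := hqp
  refine ⟨RatAlg.height.gen, (hqp' _).2 main_qp, fun Y hY => ?_⟩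
  exact main_unique Y ((hqp' Y).1 hY)

end Pool.Agent.S02425
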