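import Pool.Statements.S02538

set_option autoImplicit false
open Pool Pool.MP_a19302_al

namespace Pool.Agent.S02538

/-- The operators on the space of rational sequences. -/
abbrev E : Type := Module.End ℚ (ℕ → ℚ)

/-- The shift. -/
def X : E where
  toFun f n := f (n + 1)
  map_add' _ _ := rfl
  map_smul' _ _ := rfl

/-- The powers of two. -/
def S : Set ℕ := {n | ∃ k : ℕ, n = 2 ^ k}

open Classical in
/-- The projection to the coordinates in `S`. -/
noncomputable def D : E where
  toFun f n := if n ∈ S then f n else 0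
  map_add' f g := by
    funext n
    by_cases h : n ∈ S <;> simp [h]
  map_smul' c f := by
    funext n
    by_cases h : n ∈ S <;> simp [h]

/-- The matrix units. -/
def Em (a b : ℕ) : E where
  toFun f n := if n = a then f b else 0
  map_add' f g := by
    funext n
    by_cases h : n = a <;> simp [h]
  map_smul' c f := by
    funext n
    by_cases h : n = a <;> simp [h]

lemma X_apply (f : ℕ → ℚ) (n : ℕ) : X f n = f (n + 1) := rfl

open Classical in
lemma D_apply (f : ℕ → ℚ) (n : ℕ) : D f n = if n ∈ S then f n else 0 := rfl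

lemma Em_apply (a b : ℕ) (f : ℕ → ℚ) (n : ℕ) : Em a b f n = if n = a then f b else 0 := rfl

lemma Xpow_apply (p : ℕ) (f : ℕ → ℚ) (n : ℕ) : (X ^ p) f n = f (n + p) := by
  induction p generalizing f n with
  | zero => simp
  | succ p ih =>
    rw [pow_succ, Module.End.mul_apply, ih, X_apply]
    rfl

lemma pow_diff {i j i' j' q : ℕ} (hq : 0 < q) (h : 2 ^ i + q = 2 ^ j) (h' : 2 ^ i' + q = 2 ^ j') :
    2 ^ i = 2 ^ i' := by
  have key : ∀ i j i' j' : ℕ, 2 ^ i + q = 2 ^ j → 2 ^ i' + q = 2 ^ j' → ¬ j < j' := by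
    intro i j i' j' h h' hlt
    have h1 : 2 ^ i' < 2 ^ j' := by omega
    have h2 : i' < j' := (Nat.pow_lt_pow_iff_right (by norm_num)).mp h1
    obtain ⟨t, rfl⟩ : ∃ t, j' = t + 1 := ⟨j' - 1, by omega⟩
    have h3 : 2 ^ i' ≤ 2 ^ t := Nat.pow_le_pow_right (by norm_num) (by omega)
    have h4 : 2 ^ j ≤ 2 ^ t := Nat.pow_le_pow_right (by norm_num) (by omega)
    have h5 : 0 < 2 ^ i := by positivity
    rw [pow_succ] at h'
    omega
  have h6 : j = j' := by
    have := key i j i' j' h h'
    have := key i' j' i j h' h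
    omega
  subst h6
  omega

lemma pow_bound {i j q : ℕ} (hq : 0 < q) (h : 2 ^ i + q = 2 ^ j) : 2 ^ j ≤ 2 * q := by
  have h1 : 2 ^ i < 2 ^ j := by omega
  have h2 : i < j := (Nat.pow_lt_pow_iff_right (by norm_num)).mp h1
  obtain ⟨t, rfl⟩ : ∃ t, j = t + 1 := ⟨j - 1, by omega⟩
  have h3 : 2 ^ i ≤ 2 ^ t := Nat.pow_le_pow_right (by norm_num) (by omega)
  rw [pow_succ] at *
  omega

lemma DXD (q : ℕ) (hq : 0 < q) :
    D * X ^ q * D = 0 ∨ ∃ a b : ℕ, a ≤ 2 * q ∧ b ≤ 2 * q ∧ D * X ^ q * D = Em a b := by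
  by_cases h : ∃ a b : ℕ, a ∈ S ∧ b ∈ S ∧ a + q = b
  · obtain ⟨a, b, ha, hb, hab⟩ := h
    right
    obtain ⟨i, rfl⟩ := ha
    obtain ⟨j, rfl⟩ := hb
    have hbd := pow_bound hq hab
    refine ⟨2 ^ i, 2 ^ j, by omega, hbd, ?_⟩
    apply LinearMap.ext
    intro f
    funext n
    rw [Module.End.mul_apply, Module.End.mul_apply, D_apply, Xpow_apply, D_apply, Em_apply]
    by_cases hn : n = 2 ^ i
    · subst hn
      rw [if_pos rfl, if_pos ⟨i, rfl⟩, if_pos ⟨j, hab⟩, hab]
    · rw [if_neg hn]
      by_cases h1 : n ∈ S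
      · rw [if_pos h1]
        by_cases h2 : n + q ∈ S
        · exfalso
          obtain ⟨i', rfl⟩ := h1
          obtain ⟨j', hj'⟩ := h2
          exact hn (pow_diff hq hj' hab)
        · rw [if_neg h2]
      · rw [if_neg h1]
  · left
    apply LinearMap.ext
    intro f
    funext n
    rw [Module.End.mul_apply, Module.End.mul_apply, D_apply, Xpow_apply, D_apply]
    by_cases h1 : n ∈ S
    · rw [if_pos h1]
      by_cases h2 : n + q ∈ S
      · exact absurd ⟨n, n + q, h1, h2, rfl⟩ h
      · rw [if_neg h2]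
        rfl
    · rw [if_neg h1]
      rfl

lemma DD : D * D = D := by
  apply LinearMap.ext
  intro f
  funext n
  rw [Module.End.mul_apply, D_apply, D_apply]
  by_cases h : n ∈ S <;> simp [h]

lemma Em_X (a b : ℕ) : Em a b * X = Em a (b + 1) := by
  apply LinearMap.ext
  intro f
  funext n
  rw [Module.End.mul_apply, Em_apply, Em_apply, X_apply]

lemma Em_D (a b : ℕ) : Em a b * D = 0 ∨ Em a b * D = Em a b := by
  by_cases h : b ∈ S
  · right
    apply LinearMap.ext
    intro f
    funext n
    rw [Module.End.mul_apply, Em_apply, Em_apply, D_apply, if_pos h]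
  · left
    apply LinearMap.ext
    intro f
    funext n
    rw [Module.End.mul_apply, Em_apply, D_apply, if_neg h]
    simp

lemma Xpow_Em (p a b : ℕ) : X ^ p * Em a b = 0 ∨ X ^ p * Em a b = Em (a - p) b := by
  by_cases h : p ≤ a
  · right
    apply LinearMap.ext
    intro f
    funext n
    rw [Module.End.mul_apply, Xpow_apply, Em_apply, Em_apply]
    have : n + p = a ↔ n = a - p := by omega
    simp only [this]
  · left
    apply LinearMap.ext
    intro f
    funext n
    rw [Module.End.mul_apply, Xpow_apply, Em_apply, if_neg (by omega)]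
    rfl

/-- The spanning family of `W n`. -/
noncomputable def G (n : ℕ) :
    (Fin (n + 1) ⊕ (Fin (n + 1) × Fin (n + 1))) ⊕ (Fin (3 * n + 1) × Fin (3 * n + 1)) → E
  | Sum.inl (Sum.inl m) => X ^ (m : ℕ)
  | Sum.inl (Sum.inr pq) => X ^ (pq.1 : ℕ) * D * X ^ (pq.2 : ℕ)
  | Sum.inr ab => Em ab.1 ab.2

/-- A finite-dimensional space containing all words of length at most `n`. -/
noncomputable def W (n : ℕ) : Submodule ℚ E := Submodule.span ℚ (Set.range (G n))

lemma memX {m n : ℕ} (h : m ≤ n) : X ^ m ∈ W n :=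
  Submodule.subset_span ⟨Sum.inl (Sum.inl ⟨m, by omega⟩), rfl⟩

lemma memXDX {p q n : ℕ} (h : p ≤ n) (h' : q ≤ n) : X ^ p * D * X ^ q ∈ W n :=
  Submodule.subset_span ⟨Sum.inl (Sum.inr (⟨p, by omega⟩, ⟨q, by omega⟩)), rfl⟩

lemma memE {a b n : ℕ} (h : a ≤ 3 * n) (h' : b ≤ 3 * n) : Em a b ∈ W n :=
  Submodule.subset_span ⟨Sum.inr (⟨a, by omega⟩, ⟨b, by omega⟩), rfl⟩

/-- The generating space, inside the algebra of all operators. -/
noncomputable def V' : Submodule ℚ E := Submodule.span ℚ {1, X, D}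

lemma W_mul (n : ℕ) : W n * V' ≤ W (n + 1) := by
  unfold V'
  rw [W, Submodule.span_mul_span, Submodule.span_le]
  rintro _ ⟨s, ⟨i, rfl⟩, t, ht, rfl⟩
  simp only [Set.mem_insert_iff, Set.mem_singleton_iff] at ht
  show G n i * t ∈ W (n + 1)
  rcases i with (m | ⟨p, q⟩) | ⟨a, b⟩
  · have hm := m.2
    rcases ht with rfl | rfl | rfl
    · rw [mul_one]
      exact memX (by omega)
    · show X ^ (m : ℕ) * X ∈ _
      rw [← pow_succ]
      exact memX (by omega)
    · show X ^ (m : ℕ) * D ∈ _
      have := memXDX (p := m) (q := 0) (n := n + 1) (by omega) (by omega)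
      rwa [pow_zero, mul_one] at this
  · have hp := p.2
    have hq := q.2
    rcases ht with rfl | rfl | rfl
    · rw [mul_one]
      exact memXDX (by omega) (by omega)
    · show X ^ (p : ℕ) * D * X ^ (q : ℕ) * X ∈ _
      rw [mul_assoc, ← pow_succ]
      exact memXDX (by omega) (by omega)
    · show X ^ (p : ℕ) * D * X ^ (q : ℕ) * D ∈ _
      rcases Nat.eq_zero_or_pos (q : ℕ) with h0 | h0
      · rw [h0, pow_zero, mul_one, mul_assoc, DD]
        have := memXDX (p := p) (q := 0) (n := n + 1) (by omega) (by omega)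
        rwa [pow_zero, mul_one] at this
      · rw [mul_assoc, mul_assoc, ← mul_assoc D]
        rcases DXD q h0 with h1 | ⟨a, b, ha, hb, h1⟩
        · rw [h1, mul_zero]
          exact Submodule.zero_mem _
        · rw [h1]
          rcases Xpow_Em p a b with h2 | h2
          · rw [h2]
            exact Submodule.zero_mem _
          · rw [h2]
            exact memE (by omega) (by omega)
  · have ha := a.2
    have hb := b.2
    rcases ht with rfl | rfl | rfl
    · rw [mul_one]
      exact memE (by omega) (by omega)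
    · show Em a b * X ∈ _
      rw [Em_X]
      exact memE (by omega) (by omega)
    · show Em a b * D ∈ _
      rcases Em_D a b with h2 | h2
      · rw [h2]
        exact Submodule.zero_mem _
      · rw [h2]
        exact memE (by omega) (by omega)

lemma V'_pow (n : ℕ) : V' ^ n ≤ W n := by
  induction n with
  | zero =>
    rw [Submodule.pow_zero, Submodule.one_le]
    exact memX (m := 0) (le_refl 0)
  | succ n ih =>
    rw [Submodule.pow_succ]
    exact (Submodule.mul_le.mpr fun a ha b hb => Submodule.mul_mem_mul (ih ha) hb).trans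
      (W_mul n)

lemma finrank_W (n : ℕ) : Module.finrank ℚ (W n) ≤ 11 * (n + 1) ^ 2 := by
  have h := finrank_range_le_card (R := ℚ) (G n)
  have h2 : Fintype.card ((Fin (n + 1) ⊕ (Fin (n + 1) × Fin (n + 1))) ⊕
      (Fin (3 * n + 1) × Fin (3 * n + 1))) = (n + 1) + (n + 1) * (n + 1)
        + (3 * n + 1) * (3 * n + 1) := by simp
  rw [h2] at h
  refine le_trans h ?_
  nlinarith

instance (n : ℕ) : FiniteDimensional ℚ (W n) :=
  FiniteDimensional.span_of_finite ℚ (Set.finite_range (G n))

/-- The algebra. -/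
noncomputable def A0 : Subalgebra ℚ E := Algebra.adjoin ℚ ({X, D} : Set E)

lemma X_mem : X ∈ A0 := Algebra.subset_adjoin (by simp)
lemma D_mem : D ∈ A0 := Algebra.subset_adjoin (by simp)

noncomputable def x : A0 := ⟨X, X_mem⟩
noncomputable def d : A0 := ⟨D, D_mem⟩

noncomputable def V : Submodule ℚ A0 := Submodule.span ℚ {1, x, d}

lemma finite_V : Module.Finite ℚ V := by
  unfold V
  exact Module.Finite.span_of_finite ℚ (Set.toFinite _)

lemma adjoin_V : Algebra.adjoin ℚ (V : Set A0) = ⊤ := by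
  have htop : Algebra.adjoin ℚ (Subtype.val ⁻¹' ({X, D} : Set E) : Set A0) = ⊤ :=
    Algebra.adjoin_adjoin_coe_preimage (R := ℚ) (s := ({X, D} : Set E))
  refine top_le_iff.mp (htop.ge.trans ?_)
  apply Algebra.adjoin_mono
  intro z hz
  apply Submodule.subset_span
  rcases hz with hz | hz
  · right; left
    exact Subtype.ext hz
  · right; right
    exact Subtype.ext hz

lemma map_V : V.map A0.val.toLinearMap = V' := by
  unfold V V'
  rw [Submodule.map_span]
  congr 1
  ext z
  constructor
  · rintro ⟨y, hy, rfl⟩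
    rcases hy with rfl | rfl | rfl
    · left; rfl
    · right; left; rfl
    · right; right; rfl
  · rintro (rfl | rfl | rfl)
    · exact ⟨1, by simp, rfl⟩
    · exact ⟨x, by simp, rfl⟩
    · exact ⟨d, by simp, rfl⟩

lemma finrank_V (n : ℕ) : Module.finrank ℚ ↥(V ^ n) ≤ 11 * (n + 1) ^ 2 := by
  have hinj : Function.Injective A0.val.toLinearMap := Subtype.val_injective
  have h1 := (Submodule.equivMapOfInjective A0.val.toLinearMap hinj (V ^ n)).finrank_eq
  rw [h1, Submodule.map_pow, map_V]
  exact (Submodule.finrank_mono (V'_pow n)).trans (finrank_W n)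

/-- The operators of `A0` are upper triangular. -/
lemma upper (w : E) (hw : w ∈ A0) : ∀ (m : ℕ) (f : ℕ → ℚ), (∀ n, m ≤ n → f n = 0) →
    ∀ n, m ≤ n → w f n = 0 := by
  induction hw using Algebra.adjoin_induction with
  | mem z hz =>
    intro m f hf n hn
    rcases hz with rfl | rfl
    · rw [X_apply]
      exact hf _ (by omega)
    · rw [D_apply, hf n hn]
      simp
  | algebraMap r =>
    intro m f hf n hn
    rw [Module.algebraMap_end_apply]
    simp [hf n hn]
  | add a b _ _ ha hb =>
    intro m f hf n hn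
    rw [LinearMap.add_apply, Pi.add_apply, ha m f hf n hn, hb m f hf n hn, add_zero]
  | mul a b _ _ ha hb =>
    intro m f hf n hn
    rw [Module.End.mul_apply]
    exact ha m _ (hb m f hf) n hn

/-- The property defining the ideal generated by the `i`-th matrix unit. -/
def P (i : ℕ) (z : E) : Prop :=
  (∀ (f : ℕ → ℚ) (n : ℕ), 2 ^ i < n → z f n = 0) ∧
  (∀ f : ℕ → ℚ, (∀ n, 2 ^ (i + 1) ≤ n → f n = 0) → z f = 0)

/-- The `i`-th nilpotent ideal. -/
noncomputable def I (i : ℕ) : TwoSidedIdeal A0 :=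
  TwoSidedIdeal.mk' {z : A0 | P i z}
    ⟨fun f n _ => rfl, fun f _ => rfl⟩
    (by
      rintro a b ⟨ha, ha'⟩ ⟨hb, hb'⟩
      refine ⟨fun f n hn => ?_, fun f hf => ?_⟩
      · show ((a : E) + (b : E)) f n = 0
        rw [LinearMap.add_apply, Pi.add_apply, ha f n hn, hb f n hn, add_zero]
      · show ((a : E) + (b : E)) f = 0
        rw [LinearMap.add_apply, ha' f hf, hb' f hf, add_zero])
    (by
      rintro a ⟨ha, ha'⟩
      refine ⟨fun f n hn => ?_, fun f hf => ?_⟩
      · show (-(a : E)) f n = 0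
        rw [LinearMap.neg_apply, Pi.neg_apply, ha f n hn, neg_zero]
      · show (-(a : E)) f = 0
        rw [LinearMap.neg_apply, ha' f hf, neg_zero])
    (by
      rintro a b ⟨hb, hb'⟩
      refine ⟨fun f n hn => ?_, fun f hf => ?_⟩
      · show ((a : E) * (b : E)) f n = 0
        rw [Module.End.mul_apply]
        exact upper a a.2 (2 ^ i + 1) _ (fun m hm => hb f m (by omega)) n (by omega)
      · show ((a : E) * (b : E)) f = 0
        rw [Module.End.mul_apply, hb' f hf, map_zero])
    (by
      rintro a b ⟨ha, ha'⟩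
      refine ⟨fun f n hn => ?_, fun f hf => ?_⟩
      · show ((a : E) * (b : E)) f n = 0
        rw [Module.End.mul_apply]
        exact ha _ n hn
      · show ((a : E) * (b : E)) f = 0
        rw [Module.End.mul_apply]
        exact ha' _ (upper b b.2 _ f hf))

lemma mem_I {i : ℕ} {z : A0} : z ∈ I i ↔ P i z := TwoSidedIdeal.mem_mk' _ _ _ _ _ _ _

lemma I_nilp (i : ℕ) (f : Fin 2 → A0) (hf : ∀ j, f j ∈ I i) : (List.ofFn f).prod = 0 := by
  have h0 := mem_I.mp (hf 0)
  have h1 := mem_I.mp (hf 1)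
  simp only [List.ofFn_succ, List.ofFn_zero, List.prod_cons, List.prod_nil, mul_one]
  apply Subtype.ext
  apply LinearMap.ext
  intro g
  show ((f 0 : E) * (f 1 : E)) g = 0
  rw [Module.End.mul_apply]
  refine h0.2 _ (fun n hn => h1.1 g n (lt_of_lt_of_le ?_ hn))
  exact Nat.pow_lt_pow_right (by norm_num) (by omega)

/-- The matrix unit generating the `i`-th ideal. -/
noncomputable def e (i : ℕ) : A0 := d * x ^ (2 ^ i) * d

lemma e_apply (i : ℕ) (f : ℕ → ℚ) (n : ℕ) :
    (e i : E) f n = if n = 2 ^ i then f (2 ^ (i + 1)) else 0 := by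
  show (D * X ^ (2 ^ i) * D) f n = _
  rw [Module.End.mul_apply, Module.End.mul_apply, D_apply, Xpow_apply, D_apply]
  have hpos : 0 < 2 ^ i := by positivity
  have hii : 2 ^ i + 2 ^ i = 2 ^ (i + 1) := by rw [pow_succ]; ring
  by_cases hn : n = 2 ^ i
  · subst hn
    rw [if_pos rfl, if_pos ⟨i, rfl⟩, if_pos ⟨i + 1, hii⟩, hii]
  · rw [if_neg hn]
    by_cases h1 : n ∈ S
    · rw [if_pos h1]
      by_cases h2 : n + 2 ^ i ∈ S
      · exfalso
        obtain ⟨i', rfl⟩ := h1
        obtain ⟨j', hj'⟩ := h2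
        exact hn (pow_diff hpos hj' hii)
      · rw [if_neg h2]
    · rw [if_neg h1]

lemma e_mem (i : ℕ) : e i ∈ I i := by
  rw [mem_I]
  refine ⟨fun f n hn => ?_, fun f hf => ?_⟩
  · rw [e_apply, if_neg (by omega)]
  · funext n
    rw [e_apply, hf _ (le_refl _)]
    simp

lemma prod_apply (m : ℕ) (f : ℕ → ℚ) (n : ℕ) :
    (((List.ofFn fun j : Fin m => e (j : ℕ)).prod : A0) : E) f n =
      if m = 0 then f n else if n = 1 then f (2 ^ m) else 0 := by
  induction m generalizing f n with
  | zero => simp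
  | succ m ih =>
    rw [List.ofFn_succ']
    simp only [List.concat_eq_append, List.prod_append, List.prod_cons, List.prod_nil, mul_one,
      Fin.val_castSucc, Fin.val_last]
    show ((((List.ofFn fun j : Fin m => e (j : ℕ)).prod : A0) : E) * (e m : E)) f n = _
    rw [Module.End.mul_apply, ih]
    rw [if_neg (Nat.succ_ne_zero m)]
    by_cases hm : m = 0
    · subst hm
      rw [if_pos rfl, e_apply]
      simp
    · rw [if_neg hm]
      by_cases hn : n = 1
      · rw [if_pos hn, if_pos hn, e_apply, if_pos rfl]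
      · rw [if_neg hn, if_neg hn]

/-- The negation of the preceding statement: Every finitely generated associative algebra over a field with polynomially bounded growth (finite GK dimension) has a nilpotent two-sided ideal containing every nilpotent two-sided ideal. -/
theorem result :
    ¬ (∀ (k : Type) [Field k] (A : Type) [Ring A] [Algebra k A],
      Algebra.FiniteType k A →
      (∃ V : Submodule k A, FiniteDimensional k V ∧ (1 : A) ∈ V ∧
          Algebra.adjoin k (V : Set A) = ⊤ ∧
          ∃ C d : ℕ, ∀ n : ℕ, Module.finrank k ↥(V ^ n) ≤ C * (n + 1) ^ d) →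
      ∃ N : TwoSidedIdeal A,
        (∃ m : ℕ, ∀ f : Fin m → A, (∀ i, f i ∈ N) → (List.ofFn f).prod = 0) ∧
        ∀ I : TwoSidedIdeal A,
          (∃ m : ℕ, ∀ f : Fin m → A, (∀ i, f i ∈ I) → (List.ofFn f).prod = 0) → I ≤ N) := by
  intro H
  classical
  have hft : Algebra.FiniteType ℚ A0 := by
    rw [← Subalgebra.fg_iff_finiteType]
    exact Subalgebra.fg_def.mpr ⟨{X, D}, Set.toFinite _, rfl⟩
  obtain ⟨N, ⟨m, hm⟩, hN⟩ := H ℚ A0 hft
    ⟨V, finite_V, Submodule.subset_span (by simp), adjoin_V, 11, 2, finrank_V⟩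
  have h1 : ∀ j : Fin m, (fun j : Fin m => e (j : ℕ)) j ∈ N := fun j =>
    hN (I j) ⟨2, I_nilp j⟩ (e_mem j)
  have h2 := hm _ h1
  have h3 := prod_apply m (fun _ => 1) 1
  rw [h2] at h3
  by_cases hm0 : m = 0
  · rw [if_pos hm0] at h3
    exact zero_ne_one h3
  · rw [if_neg hm0, if_pos rfl] at h3
    exact zero_ne_one h3

end Pool.Agent.S02538
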