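import Pool.Statements.S02592
import Pool.Agent.S02725

set_option autoImplicit false
open Pool Pool.MP_a5fc06_al

namespace Pool.Agent.S02592

/-- A finitely generated residually finite group is Hopfian (Malcev). -/
theorem hopf {G : Type} [Group G] [Group.FG G]
    (h : ∀ g : G, g ≠ 1 → ∃ H : Subgroup G, H.index ≠ 0 ∧ g ∉ H)
    (f : G →* G) (hf : Function.Surjective f) : Function.Injective f := by
  rw [injective_iff_map_eq_one]
  intro g hg
  by_contra hne
  obtain ⟨H, hH, hgH⟩ := h g hne
  have hfi : H.FiniteIndex := ⟨hH⟩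
  set N := H.normalCore with hN
  have hNfi : N.FiniteIndex := inferInstance
  have hfin : Finite (G ⧸ N) := inferInstance
  have hfinHom : Finite (G →* G ⧸ N) := by
    obtain ⟨S, hS, hSf⟩ := (Group.fg_iff (G := G)).1 inferInstance
    have := hSf.to_subtype
    refine Finite.of_injective (fun (φ : G →* G ⧸ N) (s : S) => φ s) ?_
    intro φ ψ hφ
    refine MonoidHom.eq_of_eqOn_dense hS ?_
    intro s hs
    exact congrFun hφ ⟨s, hs⟩
  let F : (G →* G ⧸ N) → (G →* G ⧸ N) := fun φ => φ.comp f
  have hFi : Function.Injective F := by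
    intro φ ψ hφ
    apply MonoidHom.ext
    intro x
    obtain ⟨y, rfl⟩ := hf x
    exact DFunLike.congr_fun hφ y
  have hFs : Function.Surjective F := Finite.injective_iff_surjective.1 hFi
  obtain ⟨φ, hφ⟩ := hFs (QuotientGroup.mk' N)
  have h1 : QuotientGroup.mk' N g = 1 := by
    rw [← hφ]
    show φ (f g) = 1
    rw [hg, map_one]
  have h2 : g ∈ N := by
    rwa [QuotientGroup.mk'_apply, QuotientGroup.eq_one_iff] at h1
  exact hgH (Subgroup.normalCore_le H h2)

/-- The negation of the preceding statement: For every set of group laws and every rank, if the relatively free group (free group modulo the verbal subgroup of those laws) is soluble, then every nontrivial element avoids some finite-index subgroup, i.e. the group is residually finite. -/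
theorem result :
    ¬ (∀ (W : Set (FreeGroup ℕ)) (α : Type),
      IsSolvable (FreeGroup α ⧸ Subgroup.normalClosure
        {x : FreeGroup α | ∃ w ∈ W, ∃ φ : FreeGroup ℕ →* FreeGroup α, φ w = x}) →
      ∀ g : FreeGroup α ⧸ Subgroup.normalClosure
          {x : FreeGroup α | ∃ w ∈ W, ∃ φ : FreeGroup ℕ →* FreeGroup α, φ w = x},
        g ≠ 1 →
          ∃ H : Subgroup (FreeGroup α ⧸ Subgroup.normalClosure
              {x : FreeGroup α | ∃ w ∈ W, ∃ φ : FreeGroup ℕ →* FreeGroup α, φ w = x}),
            H.index ≠ 0 ∧ g ∉ H) := by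
  intro H
  obtain ⟨L, d, hL, n, f, hf, hfn⟩ := Pool.Agent.S02725.result
  have hnor : (Subgroup.normalClosure
      {x : FreeGroup (Fin n) | ∃ w ∈ L, ∃ φ : FreeGroup ℕ →* FreeGroup (Fin n), φ w = x}).Normal :=
    inferInstance
  have hlaw : ∀ w ∈ L, ∀ φ : FreeGroup ℕ →* (FreeGroup (Fin n) ⧸ Subgroup.normalClosure
      {x : FreeGroup (Fin n) | ∃ w ∈ L, ∃ φ : FreeGroup ℕ →* FreeGroup (Fin n), φ w = x}), φ w = 1 := by
    intro w hw φ
    -- lift `φ` to the free group
    have hs := QuotientGroup.mk'_surjective (Subgroup.normalClosure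
      {x : FreeGroup (Fin n) | ∃ w ∈ L, ∃ φ : FreeGroup ℕ →* FreeGroup (Fin n), φ w = x})
    choose s hsv using hs
    let ψ : FreeGroup ℕ →* FreeGroup (Fin n) := FreeGroup.lift (fun k => s (φ (FreeGroup.of k)))
    have e : (QuotientGroup.mk' _).comp ψ = φ := by
      apply FreeGroup.ext_hom
      intro k
      simp only [MonoidHom.comp_apply, ψ, FreeGroup.lift_apply_of]
      exact hsv _
    rw [← e]
    show QuotientGroup.mk' _ (ψ w) = 1
    rw [QuotientGroup.mk'_apply, QuotientGroup.eq_one_iff]
    exact Subgroup.subset_normalClosure ⟨w, hw, ψ, rfl⟩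
  have hsol := hL _ hlaw
  refine hfn (hopf (H L (Fin n) ⟨d, hsol⟩) f hf)

end Pool.Agent.S02592
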