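import Pool.Statements.S02672
import Pool.Agent.Results.MP_ac3292_al.NoSplit

set_option autoImplicit false
open Pool Pool.MP_ac3292_al

namespace Pool.Agent.S02672

open Pool.Agent.Results.MP_ac3292_al.NoSplit in
/-- the frozen form of asymptotic dimension agrees with the indexed one -/
theorem conv {G : Type} (Γ : SimpleGraph G) (Y : Set G) (k : ℕ) :
    (∀ R : ℕ, ∃ 𝒰 : Set (Set G), (∀ U ∈ 𝒰, U ⊆ Y) ∧ Y ⊆ ⋃₀ 𝒰 ∧
        (∃ D : ℕ, ∀ U ∈ 𝒰, ∀ a ∈ U, ∀ b ∈ U, Γ.dist a b ≤ D) ∧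
        ∀ y ∈ Y, {U ∈ 𝒰 | ∃ z ∈ U, Γ.dist y z ≤ R}.encard ≤ (k + 1 : ℕ∞)) ↔
      AsdimLE Γ Y k := by
  constructor
  · intro h R
    obtain ⟨𝒰, h1, h2, ⟨D, h3⟩, h4⟩ := h R
    refine ⟨𝒰, fun U => U.1, D, fun U => h1 U.1 U.2, ?_, fun U x hx y hy => h3 U.1 U.2 x hx y hy,
      ?_⟩
    · intro y hy
      obtain ⟨U, hU, hyU⟩ := h2 hy
      exact ⟨⟨U, hU⟩, hyU⟩
    · intro y hy
      have h5 := h4 y hy
      have h6 : {i : 𝒰 | ∃ z ∈ i.1, Γ.dist y z ≤ R}.encard ≤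
          {U ∈ 𝒰 | ∃ z ∈ U, Γ.dist y z ≤ R}.encard := by
        rw [← Set.InjOn.encard_image (f := Subtype.val) Subtype.val_injective.injOn]
        apply Set.encard_le_encard
        rintro _ ⟨U, hU, rfl⟩
        exact ⟨U.2, hU⟩
      exact (h6.trans h5).trans (by norm_num)
  · intro h R
    obtain ⟨ι, U, D, h1, h2, h3, h4⟩ := h R
    refine ⟨Set.range U, ?_, ?_, ⟨D, ?_⟩, ?_⟩
    · rintro _ ⟨i, rfl⟩
      exact h1 i
    · intro y hy
      obtain ⟨i, hi⟩ := h2 y hy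
      exact ⟨U i, ⟨i, rfl⟩, hi⟩
    · rintro _ ⟨i, rfl⟩ a ha b hb
      exact h3 i a ha b hb
    · intro y hy
      have h5 := h4 y hy
      have h6 : {V ∈ Set.range U | ∃ z ∈ V, Γ.dist y z ≤ R} ⊆
          U '' {i : ι | ∃ z ∈ U i, Γ.dist y z ≤ R} := by
        rintro _ ⟨⟨i, rfl⟩, hz⟩
        exact ⟨i, hz, rfl⟩
      exact ((Set.encard_le_encard h6).trans (Set.encard_image_le _ _)).trans
        (h5.trans (by norm_num))

/-- The negation of the preceding statement: For all f.g. G with Cayley graph Γ and m:ℕ: if asdim G ≥ m+2 and some X with asdim X ≤ m coarsely separates Γ (two distinct deep components of the complement of the r-neighbourhood), then G is a nontrivial amalgam K₀ *_H K₁ or an HNN extension A*_H over some subgroup H with asdim H ≤ m+1. -/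
theorem result :
    ¬ (∀ (G : Type) [Group G] (S : Finset G), Subgroup.closure (S : Set G) = ⊤ →
  ∀ (Γ : SimpleGraph G), Γ = SimpleGraph.fromRel (fun g h : G => g⁻¹ * h ∈ S) →
  ∀ (asdimLE : Set G → ℕ → Prop),
    (∀ (Y : Set G) (k : ℕ), asdimLE Y k ↔
      ∀ R : ℕ, ∃ 𝒰 : Set (Set G), (∀ U ∈ 𝒰, U ⊆ Y) ∧ Y ⊆ ⋃₀ 𝒰 ∧
        (∃ D : ℕ, ∀ U ∈ 𝒰, ∀ a ∈ U, ∀ b ∈ U, Γ.dist a b ≤ D) ∧
        ∀ y ∈ Y, {U ∈ 𝒰 | ∃ z ∈ U, Γ.dist y z ≤ R}.encard ≤ (k + 1 : ℕ∞)) →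
  ∀ (m : ℕ), ¬ asdimLE Set.univ (m + 1) →
  ∀ (X : Set G), asdimLE X m →
  (∃ r : ℕ, ∃ Ω : Set G, Ω = {v : G | ∀ x ∈ X, r < Γ.dist v x} ∧
    ∃ C₁ C₂ : (Γ.induce Ω).ConnectedComponent, C₁ ≠ C₂ ∧
      ∀ C : (Γ.induce Ω).ConnectedComponent, (C = C₁ ∨ C = C₂) →
        ∀ D : ℕ, ∃ v : Ω, (Γ.induce Ω).connectedComponentMk v = C ∧
          ∀ x ∈ X, D < Γ.dist (v : G) x) →
  ∃ H : Subgroup G, asdimLE (H : Set G) (m + 1) ∧
    ((∃ (K : Bool → Subgroup G) (hK : ∀ i, H ≤ K i), (∀ i, H ≠ K i) ∧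
        ∃ e : Monoid.PushoutI (fun i : Bool => Subgroup.inclusion (hK i)) ≃* G,
          ∀ (i : Bool) (a : K i), e (Monoid.PushoutI.of i a) = (a : G)) ∨
     (∃ (A : Subgroup G) (B₁ B₂ : Subgroup A) (φ : B₁ ≃* B₂)
        (e : HNNExtension A B₁ B₂ φ ≃* G),
          (∀ a : A, e (HNNExtension.of a) = (a : G)) ∧ H = B₁.map A.subtype))) := by
  intro H0
  obtain ⟨G, iG, S, hS, hlow, ⟨X, hX, r, -, C₁, C₂, hne, hd1, hd2⟩, hsplit⟩ :=
    Pool.Agent.Results.MP_ac3292_al.NoSplit.result 2 le_rfl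
  obtain ⟨H, -, hH⟩ := H0 G S hS (Pool.Agent.Results.MP_ac3292_al.NoSplit.cayley S) rfl
    (Pool.Agent.Results.MP_ac3292_al.NoSplit.AsdimLE
      (Pool.Agent.Results.MP_ac3292_al.NoSplit.cayley S))
    (fun Y k => (conv _ Y k).symm) 0 hlow X hX
    ⟨r, _, rfl, C₁, C₂, hne, by
      rintro C (rfl | rfl) D
      · obtain ⟨v, hv, hvD⟩ := hd1 D
        exact ⟨v, hv, hvD⟩
      · obtain ⟨v, hv, hvD⟩ := hd2 D
        exact ⟨v, hv, hvD⟩⟩
  apply hsplit H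
  rcases hH with ⟨K, hK, hKne, e, he⟩ | ⟨A, B₁, B₂, φ, e, he, hHe⟩
  · left
    refine ⟨fun i => K i, fun i => inferInstance, fun i => Subgroup.inclusion (hK i),
      fun i => Subgroup.inclusion_injective (hK i), ?_, e, ?_⟩
    · intro i hs
      apply hKne i
      apply le_antisymm (hK i)
      intro x hx
      obtain ⟨h, hh⟩ := hs ⟨x, hx⟩
      have h1 := congrArg Subtype.val hh
      have h2 : (h : G) = x := h1
      rw [← h2]
      exact h.2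
    · intro h
      have h1 := he true (Subgroup.inclusion (hK true) h)
      rw [Monoid.PushoutI.of_apply_eq_base] at h1
      exact h1
  · right
    refine ⟨A, inferInstance, B₁, B₂, φ, e, ?_⟩
    rw [hHe, Subgroup.map_map]
    congr 1
    ext a
    exact (he a).symm

end Pool.Agent.S02672
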