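import Pool.Statements.S02882
import Pool.Agent.Results.MP_8bc403_al.GenDepend

set_option autoImplicit false
open Pool Pool.MP_bb0bfc_al

namespace Pool.Agent.S02882

open Pool.Agent.Results.MP_8bc403_al.GenDepend
open scoped commutatorElement

/-- palindromes of `GenDepend` are given by palindromic words of letters -/
lemma pal_word {X : Set F2} {p : F2} (h : IsPalindrome X p) :
    ∃ w : List F2, (∀ x ∈ w, x ∈ X ∨ x⁻¹ ∈ X) ∧ w.reverse = w ∧ w.prod = p := by
  obtain ⟨w, -, hw, hp⟩ := h
  refine ⟨w.map fun (q : X × Bool) => cond q.2 (q.1 : F2) (q.1 : F2)⁻¹, ?_, ?_, hp⟩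
  · intro x hx
    obtain ⟨⟨y, e⟩, -, rfl⟩ := List.mem_map.1 hx
    cases e
    · right; simp
    · left; exact y.2
  · rw [← List.map_reverse, hw]

lemma act_add_one (g : F2) (x : ℝ) : act g (x + 1) = act g x + 1 :=
  DFunLike.congr_fun (act_comm g) x

lemma act_add_int (g : F2) (x : ℝ) (n : ℤ) : act g (x + n) = act g x + n := by
  induction n using Int.induction_on generalizing x with
  | zero => simp
  | succ n ih =>
    have := act_add_one g (x + n)
    push_cast at this ⊢
    rw [← add_assoc, this]
    have := ih x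
    push_cast at this
    rw [this]; ring
  | pred n ih =>
    have := act_add_one g (x + (-(n : ℝ) - 1))
    have h2 := ih x
    push_cast at this h2 ⊢
    have e : x + (-(n : ℝ) - 1) + 1 = x + -(n : ℝ) := by ring
    rw [e, h2] at this
    linarith

/-- every element acts as a translation up to an error of one -/
lemma near (g : F2) (x : ℝ) : |act g x - x - act g 0| ≤ 1 := by
  have hx : x = Int.fract x + ⌊x⌋ := (Int.fract_add_floor x).symm
  have h1 : act g x = act g (Int.fract x) + ⌊x⌋ := by
    conv_lhs => rw [hx]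
    exact act_add_int g _ _
  have h0 : act g 0 ≤ act g (Int.fract x) := (act g).monotone (Int.fract_nonneg x)
  have h2 : act g (Int.fract x) ≤ act g (0 + 1) :=
    (act g).monotone (by rw [zero_add]; exact (Int.fract_lt_one x).le)
  rw [act_add_one] at h2
  have h3 := Int.fract_nonneg x
  have h4 := (Int.fract_lt_one x).le
  rw [abs_le]
  constructor <;> linarith

lemma inv_cancel_apply (g : F2) (x : ℝ) : act g (act g⁻¹ x) = x := by
  have : act g (act g⁻¹ x) = (act g * act g⁻¹) x := rfl
  rw [this, ← map_mul, mul_inv_cancel, map_one]; rfl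

lemma near_inv (g : F2) (x : ℝ) : |act g⁻¹ x - x + act g 0| ≤ 1 := by
  have h := near g (act g⁻¹ x)
  rw [inv_cancel_apply] at h
  rw [abs_le] at h ⊢
  constructor <;> linarith [h.1, h.2]

lemma comm_move (g : F2) (hg : g ∈ commutatorSet F2) (x : ℝ) : |act g x - x| ≤ 4 := by
  obtain ⟨u, v, rfl⟩ := hg
  rw [commutatorElement_def, map_mul, map_mul, map_mul]
  change |act u (act v (act u⁻¹ (act v⁻¹ x))) - x| ≤ 4
  have h1 := near u (act v (act u⁻¹ (act v⁻¹ x)))
  have h2 := near v (act u⁻¹ (act v⁻¹ x))
  have h3 := near_inv u (act v⁻¹ x)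
  have h4 := near_inv v x
  rw [abs_le] at h1 h2 h3 h4 ⊢
  constructor <;> linarith [h1.1, h1.2, h2.1, h2.2, h3.1, h3.2, h4.1, h4.2]

lemma list_move (l : List F2) (hl : ∀ p ∈ l, p ∈ commutatorSet F2) (x : ℝ) :
    |act l.prod x - x| ≤ 4 * l.length := by
  induction l generalizing x with
  | nil => simp
  | cons p l ih =>
    have h1 := ih (fun p hp => hl p (List.mem_cons_of_mem _ hp)) x
    have h2 := comm_move p (hl p List.mem_cons_self) (act l.prod x)
    rw [List.prod_cons, map_mul, List.length_cons]
    change |act p (act l.prod x) - x| ≤ _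
    push_cast
    calc |act p (act l.prod x) - x| = |(act p (act l.prod x) - act l.prod x) + (act l.prod x - x)| := by
          congr 1; ring
      _ ≤ _ := abs_add_le _ _
      _ ≤ _ := by linarith

lemma c_mem : c ∈ commutator F2 := by
  have h : c = ⁅a, b⁻¹⁆ := by rw [commutatorElement_def, c, inv_inv]
  rw [h]
  exact Subgroup.commutator_mem_commutator (Subgroup.mem_top _) (Subgroup.mem_top _)

/-- The negation of the preceding statement: For every finitely generated group G: some finite generating set gives a uniform bound on the number of palindromic words needed to write any element iff there is a uniform bound on the number of commutators needed to write any element of the derived subgroup. -/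
theorem result :
    ¬ (∀ (G : Type) [Group G] [Group.FG G],
      (∃ S : Finset G, Subgroup.closure (S : Set G) = ⊤ ∧
        ∃ n : ℕ, ∀ g : G, ∃ L : List (List G), L.length ≤ n ∧
          (∀ w ∈ L, w.reverse = w ∧ ∀ x ∈ w, x ∈ S ∨ x⁻¹ ∈ S) ∧
          (L.map List.prod).prod = g) ↔
      (∃ n : ℕ, ∀ g ∈ commutator G, ∃ l : List G, l.length ≤ n ∧
          (∀ c ∈ l, c ∈ commutatorSet G) ∧ l.prod = g)) := by
  classical
  intro hall
  have h := (hall F2).1
  have hpal : ∃ S : Finset F2, Subgroup.closure (S : Set F2) = ⊤ ∧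
        ∃ n : ℕ, ∀ g : F2, ∃ L : List (List F2), L.length ≤ n ∧
          (∀ w ∈ L, w.reverse = w ∧ ∀ x ∈ w, x ∈ S ∨ x⁻¹ ∈ S) ∧
          (L.map List.prod).prod = g := by
    refine ⟨{a, b, a * b}, ?_, 3, ?_⟩
    · rw [← closure_abc]; simp
    · intro g
      obtain ⟨i, j, h⟩ := exists_form g
      have hX : (({a, b, a * b} : Finset F2) : Set F2) = ({a, b, a * b} : Set F2) := by simp
      obtain ⟨w1, hw1, hr1, hp1⟩ := pal_word (isPalindrome_zpow (X := ({a, b, a * b} : Set F2)) (Or.inl rfl) i)
      obtain ⟨w2, hw2, hr2, hp2⟩ := pal_word (isPalindrome_zpow (X := ({a, b, a * b} : Set F2)) (Or.inr (Or.inl rfl)) j)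
      obtain ⟨w3, hw3, hr3, hp3⟩ := pal_word (mem_relSub h)
      refine ⟨[w1, w2, w3], by simp, ?_, ?_⟩
      · intro w hw
        simp only [List.mem_cons, List.not_mem_nil, or_false] at hw
        rcases hw with rfl | rfl | rfl
        · refine ⟨hr1, fun x hx => ?_⟩
          have := hw1 x hx
          rw [← hX] at this
          simpa only [Finset.mem_coe] using this
        · refine ⟨hr2, fun x hx => ?_⟩
          have := hw2 x hx
          rw [← hX] at this
          simpa only [Finset.mem_coe] using this
        · refine ⟨hr3, fun x hx => ?_⟩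
          have := hw3 x hx
          rw [← hX] at this
          simpa only [Finset.mem_coe] using this
      · simp only [List.map_cons, List.map_nil, List.prod_cons, List.prod_nil, hp1, hp2, hp3]
        simp [mul_assoc]
  obtain ⟨n, hn⟩ := h hpal
  obtain ⟨l, hlen, hl, hprod⟩ := hn (c ^ (4 * n + 1)) (Subgroup.pow_mem _ c_mem _)
  have h1 := list_move l hl 0
  rw [hprod, act_c_pow, sub_zero, abs_neg, Nat.abs_cast] at h1
  have h2 : 4 * n + 1 ≤ 4 * l.length := by exact_mod_cast h1
  omega

end Pool.Agent.S02882
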