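import Pool.Statements.S02883
import Pool.Agent.TH82.PC.Am

set_option autoImplicit false
open scoped Pointwise
open Pool Pool.MP_bb8083_al

namespace Pool.Agent.S02883

/-- For every group G and every partition of G into n pairwise disjoint sets, some cell A has (A·A⁻¹) raised to the power 4^(n−1) equal to a subgroup of G of finite index at most n. -/
theorem result :
    ∀ (G : Type) [Group G] (n : ℕ) (A : Fin n → Set G),
      Pairwise (fun i j => Disjoint (A i) (A j)) →
      (⋃ i, A i) = Set.univ →
      ∃ i : Fin n, ∃ H : Subgroup G,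
        ((A i * (A i)⁻¹) ^ (4 ^ (n - 1)) : Set G) = (H : Set G) ∧
        H.index ≠ 0 ∧ H.index ≤ n := by
  intro G _ n A _ hA
  have key : ∃ i : Fin n, ∃ H : Subgroup G, H.index ≠ 0 ∧ H.index ≤ n ∧
      ∀ k : ℕ, (if n ≤ 2 then n / H.index else 3 * (n / H.index) / 2 + 1) ≤ k →
        ((A i * (A i)⁻¹) ^ k : Set G) = (H : Set G) := by
    by_cases hn : n ≤ 2
    · simp only [hn, if_true]
      interval_cases n
      · have h : (1 : G) ∈ ⋃ i, A i := by rw [hA]; trivial
        obtain ⟨i, -⟩ := Set.mem_iUnion.1 h
        exact i.elim0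
      · exact Pool.Agent.TH82.PC.cover_one A hA
      · exact Pool.Agent.TH82.PC.cover_two A hA
    · simp only [hn, if_false]
      exact Pool.Agent.TH82.PC.cover_general n A hA
  obtain ⟨i, H, h0, hle, hk⟩ := key
  refine ⟨i, H, hk _ ?_, h0, hle⟩
  have hdiv : n / H.index ≤ n := Nat.div_le_self _ _
  by_cases hn : n ≤ 2
  · rw [if_pos hn]
    interval_cases n
    · omega
    · simpa using hdiv
    · exact le_trans hdiv (by norm_num)
  · rw [if_neg hn]
    have h3 : ∀ m : ℕ, 3 ≤ m → 3 * m / 2 + 1 ≤ 4 ^ (m - 1) := by
      intro m hm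
      induction m, hm using Nat.le_induction with
      | base => norm_num
      | succ m hm ih =>
        have e : m + 1 - 1 = (m - 1) + 1 := by omega
        rw [e, pow_succ]
        omega
    refine le_trans ?_ (h3 n (by omega))
    have : 3 * (n / H.index) / 2 ≤ 3 * n / 2 := Nat.div_le_div_right (by omega)
    omega

end Pool.Agent.S02883
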