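import Pool.Statements.S02896
import Pool.Agent.V1127.RC.Main

set_option autoImplicit false
open Pool Pool.MP_bcc336_al

namespace Pool.Agent.S02896

/-- The negation of the preceding statement: Every CAT(0) cube complex (as a median graph) with a proper cocompact cubical group action embeds as a convex subcomplex of the universal cover of the Salvetti complex of some RAAG on a finite graph, i.e. convexly into the RAAG's standard Cayley graph. -/
theorem result :
    ¬ (∀ (V : Type) (G : SimpleGraph V) (H : Type) [Group H] [MulAction H V],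
    G.Connected →
    (∀ x y z : V, ∃! m : V,
        G.dist x m + G.dist m y = G.dist x y ∧
        G.dist y m + G.dist m z = G.dist y z ∧
        G.dist x m + G.dist m z = G.dist x z) →
    (∀ v : V, (G.neighborSet v).Finite) →
    (∀ (h : H) (x y : V), G.Adj (h • x) (h • y) ↔ G.Adj x y) →
    (∀ v : V, (MulAction.stabilizer H v : Set H).Finite) →
    Finite (MulAction.orbitRel.Quotient H V) →
    ∃ (n : ℕ) (Γ : SimpleGraph (Fin n)) (R : Set (FreeGroup (Fin n))),
      R = {r | ∃ i j : Fin n, Γ.Adj i j ∧
        r = FreeGroup.of i * FreeGroup.of j * (FreeGroup.of i)⁻¹ * (FreeGroup.of j)⁻¹} ∧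
      ∃ (C : SimpleGraph (PresentedGroup R)),
        (∀ g h : PresentedGroup R, C.Adj g h ↔
          (g ≠ h ∧ ∃ i : Fin n, h = g * PresentedGroup.of i ∨ g = h * PresentedGroup.of i)) ∧
        ∃ f : G ↪g C,
          ∀ a b c : PresentedGroup R, a ∈ Set.range f → b ∈ Set.range f →
            C.dist a c + C.dist c b = C.dist a b → c ∈ Set.range f) := by
  intro hall
  have hadj : ∀ (h : Pool.Agent.V1127.RC.S.Grp) (x y : Pool.Agent.V1127.RC.S.Vx),
      Pool.Agent.V1127.RC.S.Cay.Adj x y →
        Pool.Agent.V1127.RC.S.Cay.Adj (h • x) (h • y) := by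
    rintro g u v ⟨a, h⟩
    refine ⟨a, ?_⟩
    rw [Pool.Agent.W387.SqSys.smul_def, Pool.Agent.W387.SqSys.smul_def, h, mul_assoc]
  obtain ⟨n, Γ, R, hR, C, hC, f, hf⟩ := hall Pool.Agent.V1127.RC.S.Vx Pool.Agent.V1127.RC.S.Cay
    Pool.Agent.V1127.RC.S.Grp Pool.Agent.W387.SqSys.cay_connected (by
      intro x y z
      simp only [Pool.Agent.W387.SqSys.cay_dist]
      obtain ⟨m, hm, hm2⟩ := Pool.Agent.W387.SqSys.medD.existsUnique x.g y.g z.g
      exact ⟨⟨m⟩, hm, fun m' hm' => Pool.Agent.W387.SqSys.Vx.ext (hm2 m'.g hm')⟩) (by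
      intro v
      apply Set.Finite.subset (Set.finite_range (fun a : Pool.Agent.V1127.RC.Dt =>
        (⟨Pool.Agent.V1127.RC.S.gn a * v.g⟩ : Pool.Agent.V1127.RC.S.Vx)))
      rintro w ⟨a, h⟩
      exact ⟨a, Pool.Agent.W387.SqSys.Vx.ext h.symm⟩) (by
      intro h x y
      refine ⟨fun hh => ?_, hadj h x y⟩
      have := hadj h⁻¹ _ _ hh
      simpa using this) (by
      intro v
      apply Set.Finite.subset (Set.finite_singleton (1 : Pool.Agent.V1127.RC.S.Grp))
      intro g hg
      have h1 : g • v = v := hg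
      rw [Pool.Agent.W387.SqSys.smul_def] at h1
      have h2 : v.g * g⁻¹ = v.g := congrArg Pool.Agent.W387.SqSys.Vx.g h1
      have h3 : g = 1 := by simpa using h2
      exact h3) (by
      have hs : Subsingleton (MulAction.orbitRel.Quotient Pool.Agent.V1127.RC.S.Grp
          Pool.Agent.V1127.RC.S.Vx) := by
        refine ⟨fun a b => ?_⟩
        induction a using Quotient.inductionOn' with
        | h a =>
          induction b using Quotient.inductionOn' with
          | h b =>
            apply Quotient.sound'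
            refine ⟨a.g⁻¹ * b.g, ?_⟩
            show (⟨b.g * (a.g⁻¹ * b.g)⁻¹⟩ : Pool.Agent.V1127.RC.S.Vx) = a
            apply Pool.Agent.W387.SqSys.Vx.ext
            simp
      infer_instance)
  subst hR
  exact Pool.Agent.V1127.RC.Emb.false (n := n) (Γ := Γ) (C := C) ⟨hC, f, hf⟩

end Pool.Agent.S02896
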