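import Pool.Statements.S03052

set_option autoImplicit false
open Pool Pool.MP_cacfbf_al

namespace Pool.Agent.S03052

attribute [local instance] LieRing.ofAssociativeRing LieAlgebra.ofAssociativeAlgebra

abbrev F : Type := ZMod 3

instance : Fact (Nat.Prime 3) := ⟨by norm_num⟩

/-- The Lie algebra `gl_3` over the field with three elements. -/
abbrev L : Type := Matrix (Fin 3) (Fin 3) F

section general
variable {A : Type*} [Ring A]

lemma cube_add (h3 : (3 : A) = 0) (x y : A) :
    (x + y) ^ 3 - x ^ 3 - y ^ 3 = ⁅x, ⁅x, y⁆⁆ + ⁅y, ⁅y, x⁆⁆ := by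
  have h : (x + y) ^ 3 - x ^ 3 - y ^ 3 = ⁅x, ⁅x, y⁆⁆ + ⁅y, ⁅y, x⁆⁆
      + 3 * (x * y * x + y * x * y) := by
    simp only [Ring.lie_def]
    noncomm_ring
  rw [h, h3, zero_mul, add_zero]

lemma ad_cube (h3 : (3 : A) = 0) (x y : A) :
    ⁅x, ⁅x, ⁅x, y⁆⁆⁆ = ⁅x ^ 3, y⁆ := by
  have h : ⁅x, ⁅x, ⁅x, y⁆⁆⁆ = ⁅x ^ 3, y⁆ + 3 * (x * y * x * x - x * x * y * x) := by
    simp only [Ring.lie_def]
    noncomm_ring
  rw [h, h3, zero_mul, add_zero]

/-- The relations from which `2 × 2` matrix units will be made. -/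
structure Rel (H E C : A) : Prop where
  h3 : (3 : A) = 0
  HH : H * H * H = H
  HE : H * E = E * H + E
  EE : E * E * E = C
  CC : C * C * C = C
  CH : C * H = H * C
  CE : C * E = E * C

variable {H E C : A}

/-- idempotents -/
def p0 (H : A) : A := 1 - H * H
def p1 (H : A) : A := -(H * H + H)
def u (C : A) : A := -(C * C + C)

lemma p0p0 (h : Rel H E C) : p0 H * p0 H = p0 H := by
  have : p0 H * p0 H = p0 H + (H * H * H - H) * H := by
    unfold p0; noncomm_ring
  rw [this, h.HH, sub_self, zero_mul, add_zero]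

lemma p1p1 (h : Rel H E C) : p1 H * p1 H = p1 H := by
  have : p1 H * p1 H = p1 H + (H * H * H - H) * (H + 2) + 3 * (H * H + H) := by
    unfold p1; noncomm_ring
  rw [this, h.HH, h.h3, sub_self, zero_mul, zero_mul, add_zero, add_zero]

lemma p0p1 (h : Rel H E C) : p0 H * p1 H = 0 := by
  have : p0 H * p1 H = (H * H * H - H) * (H + 1) := by
    unfold p0 p1; noncomm_ring
  rw [this, h.HH, sub_self, zero_mul]

lemma p1p0 (h : Rel H E C) : p1 H * p0 H = 0 := by
  have : p1 H * p0 H = (H * H * H - H) * (H + 1) := by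
    unfold p0 p1; noncomm_ring
  rw [this, h.HH, sub_self, zero_mul]

lemma uu (h : Rel H E C) : u C * u C = u C := by
  have : u C * u C = u C + (C * C * C - C) * (C + 2) + 3 * (C * C + C) := by
    unfold u; noncomm_ring
  rw [this, h.CC, h.h3, sub_self, zero_mul, zero_mul, add_zero, add_zero]

lemma Cu (h : Rel H E C) : C * u C = u C := by
  have : C * u C = u C - (C * C * C - C) := by
    unfold u; noncomm_ring
  rw [this, h.CC, sub_self, sub_zero]

lemma EH (h : Rel H E C) : E * H = H * E - E := by rw [h.HE]; abel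

/-- `E` maps the zero eigenspace of `H` to the eigenspace of `1` -/
lemma Ep0 (h : Rel H E C) : E * p0 H = p1 H * E := by
  have h1 : E * (H * H) = H * H * E - 2 * (H * E) + E := by
    rw [← mul_assoc, EH h, sub_mul, mul_assoc, EH h, mul_sub, mul_assoc]
    noncomm_ring
  have h2 : E * p0 H = p1 H * E + 3 * (H * E) := by
    unfold p0 p1
    rw [mul_sub, h1]
    noncomm_ring
  rw [h2, h.h3, zero_mul, add_zero]

lemma EEp1 (h : Rel H E C) : E * E * p1 H = p0 H * (E * E) := by
  have h1 : E * (H * H) = H * H * E - 2 * (H * E) + E := by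
    rw [← mul_assoc, EH h, sub_mul, mul_assoc, EH h, mul_sub, mul_assoc]
    noncomm_ring
  have h0 := EH h
  have h2 : E * p1 H = -(H * H * E) + H * E := by
    unfold p1
    rw [mul_neg, mul_add, h1, h0]
    noncomm_ring
  have h3 : E * (H * H * E) = (H * H * E - 2 * (H * E) + E) * E := by
    rw [← mul_assoc, h1]
  have h4 : E * (H * E) = (H * E - E) * E := by
    rw [← mul_assoc, h0]
  have h5 : E * E * p1 H = p0 H * (E * E) + 3 * (H * E * E - E * E) := by
    rw [mul_assoc, h2, mul_add, mul_neg, h3, h4]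
    unfold p0
    noncomm_ring
  rw [h5, h.h3, zero_mul, add_zero]

lemma uH (h : Rel H E C) : u C * H = H * u C := by
  unfold u
  rw [neg_mul, mul_neg, add_mul, mul_add, mul_assoc, h.CH, ← mul_assoc C H, h.CH, mul_assoc]

lemma uE (h : Rel H E C) : u C * E = E * u C := by
  unfold u
  rw [neg_mul, mul_neg, add_mul, mul_add, mul_assoc, h.CE, ← mul_assoc C E, h.CE, mul_assoc]

lemma up0 (h : Rel H E C) : u C * p0 H = p0 H * u C := by
  unfold p0
  rw [mul_sub, sub_mul, mul_one, one_mul, ← mul_assoc, uH h, mul_assoc, uH h, mul_assoc]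

lemma up1 (h : Rel H E C) : u C * p1 H = p1 H * u C := by
  unfold p1
  rw [mul_neg, neg_mul, mul_add, add_mul, ← mul_assoc, uH h, mul_assoc, uH h, mul_assoc]

lemma EEEu (h : Rel H E C) : E * (E * (E * u C)) = u C := by
  rw [← mul_assoc, ← mul_assoc, h.EE, Cu h]

/-- The matrix units. -/
def X00 (H _E C : A) : A := p0 H * u C
def X11 (H _E C : A) : A := p1 H * u C
def X10 (H E C : A) : A := p1 H * E * u C
def X01 (H E C : A) : A := p0 H * (E * E) * u C

lemma m0000 (h : Rel H E C) : X00 H E C * X00 H E C = X00 H E C := by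
  unfold X00
  rw [mul_assoc, ← mul_assoc (u C), up0 h, mul_assoc (p0 H) (u C), uu h, ← mul_assoc, p0p0 h]

lemma swap (h : Rel H E C) (a b : A) (hb : u C * b = b * u C) :
    (a * u C) * (b * u C) = a * b * u C := by
  rw [mul_assoc, ← mul_assoc (u C), hb, mul_assoc b, uu h, mul_assoc]

lemma uEE (h : Rel H E C) : u C * (E * E) = E * E * u C := by
  rw [← mul_assoc, uE h, mul_assoc, uE h, mul_assoc]

lemma u10 (h : Rel H E C) : u C * (p1 H * E) = p1 H * E * u C := by
  rw [← mul_assoc, up1 h, mul_assoc, uE h, mul_assoc]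

lemma u01 (h : Rel H E C) : u C * (p0 H * (E * E)) = p0 H * (E * E) * u C := by
  rw [← mul_assoc, up0 h, mul_assoc, uEE h]
  simp only [mul_assoc]

lemma m0001 (h : Rel H E C) : X00 H E C * X01 H E C = X01 H E C := by
  unfold X00 X01
  rw [swap h _ _ (u01 h), ← mul_assoc (p0 H), p0p0 h]

lemma m0010 (h : Rel H E C) : X00 H E C * X10 H E C = 0 := by
  unfold X00 X10
  rw [swap h _ _ (u10 h), ← mul_assoc (p0 H), p0p1 h, zero_mul, zero_mul]

lemma m0011 (h : Rel H E C) : X00 H E C * X11 H E C = 0 := by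
  unfold X00 X11
  rw [swap h _ _ (up1 h), p0p1 h, zero_mul]

lemma m0100 (h : Rel H E C) : X01 H E C * X00 H E C = 0 := by
  unfold X01 X00
  rw [swap h _ _ (up0 h), ← EEp1 h, mul_assoc (E * E), p1p0 h, mul_zero, zero_mul]

lemma m0101 (h : Rel H E C) : X01 H E C * X01 H E C = 0 := by
  unfold X01
  rw [swap h _ _ (u01 h), ← mul_assoc, ← EEp1 h, mul_assoc (E * E), p1p0 h, mul_zero, zero_mul,
    zero_mul]

lemma m0110 (h : Rel H E C) : X01 H E C * X10 H E C = X00 H E C := by
  unfold X01 X10 X00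
  rw [swap h _ _ (u10 h), ← mul_assoc, ← EEp1 h, mul_assoc (E * E), p1p1 h, EEp1 h, mul_assoc,
    mul_assoc, mul_assoc, EEEu h]

lemma m0111 (h : Rel H E C) : X01 H E C * X11 H E C = X01 H E C := by
  unfold X01 X11
  rw [swap h _ _ (up1 h), ← EEp1 h, mul_assoc (E * E), p1p1 h]

lemma m1000 (h : Rel H E C) : X10 H E C * X00 H E C = X10 H E C := by
  unfold X10 X00
  rw [swap h _ _ (up0 h), mul_assoc (p1 H) E, Ep0 h, ← mul_assoc (p1 H), p1p1 h]

lemma m1001 (h : Rel H E C) : X10 H E C * X01 H E C = X11 H E C := by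
  unfold X10 X01 X11
  rw [swap h _ _ (u01 h), mul_assoc (p1 H) E, ← mul_assoc E (p0 H), Ep0 h, mul_assoc (p1 H) E,
    ← mul_assoc (p1 H) (p1 H), p1p1 h, mul_assoc, mul_assoc, mul_assoc, EEEu h]

lemma m1010 (h : Rel H E C) : X10 H E C * X10 H E C = 0 := by
  unfold X10
  rw [swap h _ _ (u10 h), ← mul_assoc, ← Ep0 h, mul_assoc E, p0p1 h, mul_zero, zero_mul, zero_mul]

lemma m1011 (h : Rel H E C) : X10 H E C * X11 H E C = 0 := by
  unfold X10 X11
  rw [swap h _ _ (up1 h), ← Ep0 h, mul_assoc E, p0p1 h, mul_zero, zero_mul]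

lemma m1100 (h : Rel H E C) : X11 H E C * X00 H E C = 0 := by
  unfold X11 X00
  rw [swap h _ _ (up0 h), p1p0 h, zero_mul]

lemma m1101 (h : Rel H E C) : X11 H E C * X01 H E C = 0 := by
  unfold X11 X01
  rw [swap h _ _ (u01 h), ← mul_assoc, p1p0 h, zero_mul, zero_mul]

lemma m1110 (h : Rel H E C) : X11 H E C * X10 H E C = X10 H E C := by
  unfold X11 X10
  rw [swap h _ _ (u10 h), ← mul_assoc, p1p1 h]

lemma m1111 (h : Rel H E C) : X11 H E C * X11 H E C = X11 H E C := by
  unfold X11
  rw [swap h _ _ (up1 h), p1p1 h]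

variable [Algebra F A]

/-- The embedding of the `2 × 2` matrices. -/
def psi (H E C : A) (M : Matrix (Fin 2) (Fin 2) F) : A :=
  M 0 0 • X00 H E C + M 0 1 • X01 H E C + M 1 0 • X10 H E C + M 1 1 • X11 H E C

lemma psi_mul (h : Rel H E C) (M N : Matrix (Fin 2) (Fin 2) F) :
    psi H E C (M * N) = psi H E C M * psi H E C N := by
  unfold psi
  simp only [mul_add, add_mul, smul_mul_smul_comm, m0000 h, m0001 h, m0010 h, m0011 h, m0100 h,
    m0101 h, m0110 h, m0111 h, m1000 h, m1001 h, m1010 h, m1011 h, m1100 h, m1101 h, m1110 h,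
    m1111 h, Matrix.mul_apply, Fin.sum_univ_two, smul_zero, add_zero, zero_add, add_smul]
  abel

lemma psi_add (M N : Matrix (Fin 2) (Fin 2) F) :
    psi H E C (M + N) = psi H E C M + psi H E C N := by
  unfold psi
  simp only [Matrix.add_apply, add_smul]
  abel

lemma psi_smul (c : F) (M : Matrix (Fin 2) (Fin 2) F) :
    psi H E C (c • M) = c • psi H E C M := by
  unfold psi
  simp only [Matrix.smul_apply, smul_add, smul_eq_mul, mul_smul]

lemma psi_zero : psi H E C (0 : Matrix (Fin 2) (Fin 2) F) = 0 := by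
  unfold psi; simp

/-- `psi` as a linear map -/
def psiL (H E C : A) : Matrix (Fin 2) (Fin 2) F →ₗ[F] A where
  toFun := psi H E C
  map_add' := psi_add
  map_smul' := psi_smul

/-- The subalgebra. -/
def R0 (h : Rel H E C) : NonUnitalSubalgebra F A where
  carrier := Set.range (psi H E C)
  add_mem' := by
    rintro _ _ ⟨M, rfl⟩ ⟨N, rfl⟩
    exact ⟨M + N, psi_add M N⟩
  zero_mem' := ⟨0, psi_zero⟩
  mul_mem' := by
    rintro _ _ ⟨M, rfl⟩ ⟨N, rfl⟩
    exact ⟨M * N, psi_mul h M N⟩
  smul_mem' := by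
    rintro c _ ⟨M, rfl⟩
    exact ⟨c • M, psi_smul c M⟩

lemma mem_R0 (h : Rel H E C) (x : A) : x ∈ R0 h ↔ ∃ M, psi H E C M = x := Iff.rfl

lemma psi_pow (h : Rel H E C) (M : Matrix (Fin 2) (Fin 2) F) (k : ℕ) :
    psi H E C M ^ (k + 1) = psi H E C (M ^ (k + 1)) := by
  induction k with
  | zero => simp
  | succ k ih => rw [pow_succ, ih, ← psi_mul h, ← pow_succ]

end general

lemma pw : ∀ M : Matrix (Fin 2) (Fin 2) F, M ^ 26 = M ^ 2 := by decide +kernel

def e0 : Fin 4 → Fin 2 × Fin 2 := ![(0,0),(0,1),(1,0),(1,1)]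

lemma e0_inj : Function.Injective e0 := by decide

lemma S4base : ∑ σ : Equiv.Perm (Fin 4),
    ((Equiv.Perm.sign σ : ℤˣ) : ℤ) •
      (List.ofFn fun i => Matrix.single (e0 (σ i)).1 (e0 (σ i)).2 (1 : F)).prod = 0 := by
  decide +kernel

/-- The standard polynomial as an alternating map. -/
noncomputable def St (n : ℕ) (B : Type*) [Ring B] [Algebra F B] : B [⋀^Fin n]→ₗ[F] B :=
  MultilinearMap.alternatization (MultilinearMap.mkPiAlgebraFin F n B)

lemma St_apply (n : ℕ) (B : Type*) [Ring B] [Algebra F B] (v : Fin n → B) :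
    St n B v = ∑ σ : Equiv.Perm (Fin n),
      ((Equiv.Perm.sign σ : ℤˣ) : ℤ) • (List.ofFn fun i => v (σ i)).prod := by
  unfold St
  rw [MultilinearMap.alternatization_apply]
  apply Finset.sum_congr rfl
  intro σ _
  rw [MultilinearMap.domDomCongr_apply, MultilinearMap.mkPiAlgebraFin_apply]
  rfl

lemma S4zero : St 4 (Matrix (Fin 2) (Fin 2) F) = 0 := by
  apply Module.Basis.ext_alternating (Matrix.stdBasis F (Fin 2) (Fin 2))
  intro v hv
  have hbij : Function.Bijective v := by
    rw [Fintype.bijective_iff_injective_and_card]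
    exact ⟨hv, by simp⟩
  have hbij0 : Function.Bijective e0 := by
    rw [Fintype.bijective_iff_injective_and_card]
    exact ⟨e0_inj, by simp⟩
  set τ : Equiv.Perm (Fin 4) := (Equiv.ofBijective v hbij).trans (Equiv.ofBijective e0 hbij0).symm
    with hτ
  have h1 : v = e0 ∘ τ := by
    funext i
    simp only [hτ, Function.comp_apply, Equiv.trans_apply]
    exact ((Equiv.ofBijective e0 hbij0).apply_symm_apply _).symm
  have h2 : (fun i => (Matrix.stdBasis F (Fin 2) (Fin 2)) (v i)) =
      (fun i => (Matrix.stdBasis F (Fin 2) (Fin 2)) (e0 i)) ∘ τ := by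
    rw [h1]; rfl
  rw [h2, AlternatingMap.map_perm, St_apply]
  have h3 := S4base
  have h4 : ∀ i : Fin 4, (Matrix.stdBasis F (Fin 2) (Fin 2)) (e0 i) =
      Matrix.single (e0 i).1 (e0 i).2 (1 : F) := by
    intro i
    exact Matrix.stdBasis_eq_single F (e0 i).1 (e0 i).2
  simp only [h4]
  rw [h3, smul_zero]
  rfl

/-- the three elements of `gl_3` -/
def hM : L := !![0, 0, 0; 0, 1, 0; 0, 0, 2]
def eM : L := !![0, 0, 1; 1, 0, 0; 0, 1, 0]

lemma hM_cube : hM ^ 3 = hM := by decide +kernel
lemma eM_cube : eM ^ 3 = 1 := by decide +kernel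
lemma hM_eM : hM * eM - eM * hM = eM := by decide +kernel
lemma three_L : (3 : L) = 0 := by decide +kernel

open UniversalEnvelopingAlgebra

/-- The restricted enveloping algebra. -/
abbrev U : Type := RingQuot (fun a b : UniversalEnvelopingAlgebra F L =>
        ∃ x : L, a = UniversalEnvelopingAlgebra.ι F x ^ 3 ∧ b = UniversalEnvelopingAlgebra.ι F (x ^ 3))

/-- the quotient map -/
noncomputable def q : UniversalEnvelopingAlgebra F L →ₐ[F] U := RingQuot.mkAlgHom F _

/-- the image of `x` -/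
noncomputable def g (x : L) : U := q (ι F x)

lemma g_cube (x : L) : g x ^ 3 = g (x ^ 3) := by
  unfold g
  rw [← map_pow]
  exact RingQuot.mkAlgHom_rel F ⟨x, rfl, rfl⟩

lemma g_lie (x y : L) : g ⁅x, y⁆ = g x * g y - g y * g x := by
  unfold g
  rw [LieHom.map_lie, Ring.lie_def, map_sub, map_mul, map_mul]

lemma three_U : (3 : U) = 0 := by
  have h : ((3 : F) • (1 : U)) = 3 := by
    rw [Algebra.smul_def, mul_one, map_ofNat]
  rw [← h]
  have : (3 : F) = 0 := rfl
  rw [this, zero_smul]

lemma rel : Rel (g hM) (g eM) (g 1) where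
  h3 := three_U
  HH := by
    have := g_cube hM
    rw [hM_cube, pow_succ, pow_two] at this
    exact this
  HE := by
    have := g_lie hM eM
    rw [Ring.lie_def, hM_eM] at this
    exact sub_eq_iff_eq_add'.mp this.symm
  EE := by
    have := g_cube eM
    rw [eM_cube, pow_succ, pow_two] at this
    exact this
  CC := by
    have := g_cube 1
    rw [one_pow, pow_succ, pow_two] at this
    exact this
  CH := by
    have := g_lie 1 hM
    rw [Ring.lie_def, one_mul, mul_one, sub_self] at this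
    have h0 : g 0 = 0 := by unfold g; rw [map_zero, map_zero]
    rw [h0] at this
    exact (sub_eq_zero.mp this.symm)
  CE := by
    have := g_lie 1 eM
    rw [Ring.lie_def, one_mul, mul_one, sub_self] at this
    have h0 : g 0 = 0 := by unfold g; rw [map_zero, map_zero]
    rw [h0] at this
    exact (sub_eq_zero.mp this.symm)

/-- the tautological representation -/
noncomputable def rho : U →ₐ[F] L :=
  RingQuot.liftAlgHom F ⟨UniversalEnvelopingAlgebra.lift F (LieHom.id : L →ₗ⁅F⁆ L), by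
    rintro a b ⟨x, rfl, rfl⟩
    rw [map_pow, UniversalEnvelopingAlgebra.lift_ι_apply, UniversalEnvelopingAlgebra.lift_ι_apply]
    rfl⟩

lemma rho_g (x : L) : rho (g x) = x := by
  unfold rho g q
  rw [RingQuot.liftAlgHom_mkAlgHom_apply]
  rw [UniversalEnvelopingAlgebra.lift_ι_apply]
  rfl

lemma rho_X00 : rho (X00 (g hM) (g eM) (g 1)) = Matrix.diagonal ![1, 0, 0] := by
  unfold X00 p0 u
  simp only [map_mul, map_sub, map_neg, map_add, map_one, rho_g]
  decide +kernel

lemma rho_X11 : rho (X11 (g hM) (g eM) (g 1)) = Matrix.diagonal ![0, 1, 0] := by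
  unfold X11 p1 u
  simp only [map_mul, map_sub, map_neg, map_add, map_one, rho_g]
  decide +kernel

lemma no_pow (k : ℕ) : (2 : ℕ) ≠ 3 ^ k := by
  intro h
  rcases Nat.eq_zero_or_pos k with rfl | hk
  · simp at h
  · have : 3 ^ 1 ≤ 3 ^ k := Nat.pow_le_pow_right (by norm_num) hk
    omega

/-- The negation of the preceding statement: For every prime p, field F of char p, Lie p-algebra L and PI non-unital subalgebra R of u(L): if n is the least positive integer such that some power of the standard polynomial S_2n vanishes on R, then n is a power of p. -/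
theorem result :
    ¬ (∀ (p : ℕ), p.Prime → ∀ (F : Type) [Field F] [CharP F p] (L : Type) [LieRing L] [LieAlgebra F L]
    (f : L → L),
    (∀ (a : F) (x : L), f (a • x) = a ^ p • f x) →
    (∀ x y : L, (LieAlgebra.ad F L x ^ p) y = ⁅f x, y⁆) →
    (∀ x y : L,
      UniversalEnvelopingAlgebra.ι F (f (x + y)) - UniversalEnvelopingAlgebra.ι F (f x)
        - UniversalEnvelopingAlgebra.ι F (f y)
      = (UniversalEnvelopingAlgebra.ι F x + UniversalEnvelopingAlgebra.ι F y) ^ p
        - UniversalEnvelopingAlgebra.ι F x ^ p - UniversalEnvelopingAlgebra.ι F y ^ p) →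
    ∀ R : NonUnitalSubalgebra F (RingQuot (fun a b : UniversalEnvelopingAlgebra F L =>
        ∃ x : L, a = UniversalEnvelopingAlgebra.ι F x ^ p ∧ b = UniversalEnvelopingAlgebra.ι F (f x))),
    (∃ m : ℕ, ∃ φ : FreeAlgebra F (Fin m), φ ≠ 0 ∧
      ∀ r : Fin m → RingQuot (fun a b : UniversalEnvelopingAlgebra F L =>
        ∃ x : L, a = UniversalEnvelopingAlgebra.ι F x ^ p ∧ b = UniversalEnvelopingAlgebra.ι F (f x)),
        (∀ i, r i ∈ R) → FreeAlgebra.lift F r φ = 0) →
    ∀ n : ℕ, 1 ≤ n →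
      (∃ t : ℕ, 1 ≤ t ∧
        ∀ r : Fin (2 * n) → RingQuot (fun a b : UniversalEnvelopingAlgebra F L =>
          ∃ x : L, a = UniversalEnvelopingAlgebra.ι F x ^ p ∧ b = UniversalEnvelopingAlgebra.ι F (f x)),
          (∀ i, r i ∈ R) →
          (∑ σ : Equiv.Perm (Fin (2 * n)),
            ((Equiv.Perm.sign σ : ℤˣ) : ℤ) • (List.ofFn fun i => r (σ i)).prod) ^ t = 0) →
      (∀ m : ℕ, 1 ≤ m → m < n →
        ¬ ∃ t : ℕ, 1 ≤ t ∧
          ∀ r : Fin (2 * m) → RingQuot (fun a b : UniversalEnvelopingAlgebra F L =>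
            ∃ x : L, a = UniversalEnvelopingAlgebra.ι F x ^ p ∧ b = UniversalEnvelopingAlgebra.ι F (f x)),
            (∀ i, r i ∈ R) →
            (∑ σ : Equiv.Perm (Fin (2 * m)),
              ((Equiv.Perm.sign σ : ℤˣ) : ℤ) • (List.ofFn fun i => r (σ i)).prod) ^ t = 0) →
      ∃ k : ℕ, n = p ^ k) := by
  intro H0
  have h3U : (3 : UniversalEnvelopingAlgebra F L) = 0 := by
    have h : ((3 : F) • (1 : UniversalEnvelopingAlgebra F L)) = 3 := by
      rw [Algebra.smul_def, mul_one, map_ofNat]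
    rw [← h]
    have : (3 : F) = 0 := rfl
    rw [this, zero_smul]
  have key := H0 3 (by norm_num) F L (fun x => x ^ 3)
    (fun a x => by simp only [smul_pow])
    (fun x y => by
      rw [pow_succ, pow_two]
      simp only [Module.End.mul_apply, LieAlgebra.ad_apply]
      exact ad_cube three_L x y)
    (fun x y => by
      rw [← map_sub, ← map_sub, cube_add three_L, cube_add h3U, map_add, LieHom.map_lie,
        LieHom.map_lie, LieHom.map_lie, LieHom.map_lie])
    (R0 rel)
    ⟨1, FreeAlgebra.ι F 0 ^ 26 - FreeAlgebra.ι F 0 ^ 2, by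
      intro h
      have h2 := congrArg (FreeAlgebra.lift F (fun _ : Fin 1 => (Polynomial.X : Polynomial F))) h
      rw [map_sub, map_pow, map_pow, FreeAlgebra.lift_ι_apply, map_zero] at h2
      have h5 := congrArg (fun z => Polynomial.coeff z 2) h2
      simp [Polynomial.coeff_X_pow] at h5, by
      intro r hr
      obtain ⟨M, hM⟩ := (mem_R0 rel _).mp (hr 0)
      rw [map_sub, map_pow, map_pow, FreeAlgebra.lift_ι_apply, ← hM, psi_pow rel M 25,
        psi_pow rel M 1, pw, sub_self]⟩
    2 (by norm_num)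
    ⟨1, le_refl _, by
      intro r hr
      have hr' : ∀ i, ∃ M, psi (g hM) (g eM) (g 1) M = r i := fun i => (mem_R0 rel _).mp (hr i)
      choose M hM' using hr'
      rw [pow_one]
      have h4 := congrArg (fun z => psi (g hM) (g eM) (g 1) z)
        ((St_apply 4 (Matrix (Fin 2) (Fin 2) F) M).symm.trans
          (by rw [S4zero]; rfl : St 4 (Matrix (Fin 2) (Fin 2) F) M = 0))
      simp only [psi_zero] at h4
      rw [← h4]
      show _ = psiL (g hM) (g eM) (g 1) _
      rw [map_sum]
      apply Finset.sum_congr rfl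
      intro σ _
      rw [map_zsmul]
      congr 1
      simp only [List.ofFn_succ, List.ofFn_zero, List.prod_cons, List.prod_nil, mul_one]
      show _ = psi (g hM) (g eM) (g 1) _
      rw [psi_mul rel, psi_mul rel, psi_mul rel, hM', hM', hM', hM']⟩
    (by
      rintro m hm1 hm2 ⟨t, ht, hn⟩
      obtain rfl : m = 1 := by omega
      have h1 := hn ![X01 (g hM) (g eM) (g 1), X10 (g hM) (g eM) (g 1)] (by
        intro i
        fin_cases i
        · refine (mem_R0 rel _).mpr ⟨!![0, 1; 0, 0], ?_⟩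
          simp [psi]
        · refine (mem_R0 rel _).mpr ⟨!![0, 0; 1, 0], ?_⟩
          simp [psi])
      have h2 : (∑ σ : Equiv.Perm (Fin (2 * 1)), ((Equiv.Perm.sign σ : ℤˣ) : ℤ) •
          (List.ofFn fun i => (![X01 (g hM) (g eM) (g 1), X10 (g hM) (g eM) (g 1)] :
            Fin (2 * 1) → U) (σ i)).prod)
          = X00 (g hM) (g eM) (g 1) - X11 (g hM) (g eM) (g 1) := by
        rw [← m0110 rel, ← m1001 rel]
        show (∑ σ : Equiv.Perm (Fin 2), ((Equiv.Perm.sign σ : ℤˣ) : ℤ) •
          (List.ofFn fun i => (![X01 (g hM) (g eM) (g 1), X10 (g hM) (g eM) (g 1)] :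
            Fin 2 → U) (σ i)).prod) = _
        have huniv : (Finset.univ : Finset (Equiv.Perm (Fin 2))) = {1, Equiv.swap 0 1} := by
          decide
        rw [huniv, Finset.sum_pair (by decide)]
        simp [List.ofFn_succ, sub_eq_add_neg]
      have h3 := h1.symm.trans (congrArg (· ^ t) h2)
      have h5 := congrArg rho h3
      rw [map_zero, map_pow, map_sub, rho_X00, rho_X11, Matrix.diagonal_sub,
        Matrix.diagonal_pow] at h5
      have h6 := congrFun (congrFun h5 0) 0
      simp at h6)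
  obtain ⟨k, hk⟩ := key
  exact no_pow k hk

end Pool.Agent.S03052
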