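import Pool.Statements.S03067

set_option autoImplicit false
open Pool Pool.MP_cc18b0_al

namespace Pool.Agent.S03067

/-- The annihilator of a subgroup `H` of `A` in the group of all homomorphisms from `A` to the
rationals modulo one. -/
def perp {A : Type} [AddCommGroup A] (H : AddSubgroup A) : AddSubgroup (CharacterModule A) where
  carrier := {χ | ∀ a ∈ H, χ a = 0}
  zero_mem' := fun _ _ => rfl
  add_mem' := by
    intro χ ψ hχ hψ a ha
    show χ a + ψ a = 0
    rw [hχ a ha, hψ a ha, add_zero]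
  neg_mem' := by
    intro χ hχ a ha
    show -(χ a) = 0
    rw [hχ a ha, neg_zero]

theorem mem_perp {A : Type} [AddCommGroup A] {H : AddSubgroup A} {χ : CharacterModule A} :
    χ ∈ perp H ↔ ∀ a ∈ H, χ a = 0 := Iff.rfl

theorem perp_anti {A : Type} [AddCommGroup A] {H K : AddSubgroup A} (h : H ≤ K) :
    perp K ≤ perp H := fun _ hχ a ha => hχ a (h ha)

theorem le_of_perp_le {A : Type} [AddCommGroup A] {H K : AddSubgroup A} (h : perp K ≤ perp H) :
    H ≤ K := by
  intro a ha
  by_contra hna
  have hne : (QuotientAddGroup.mk a : A ⧸ K) ≠ 0 := by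
    intro h0
    exact hna ((QuotientAddGroup.eq_zero_iff a).1 h0)
  obtain ⟨c, hc⟩ := CharacterModule.exists_character_apply_ne_zero_of_ne_zero hne
  let χ : CharacterModule A := (c : (A ⧸ K) →+ AddCircle (1 : ℚ)).comp (QuotientAddGroup.mk' K)
  have hχ : χ ∈ perp K := by
    intro b hb
    show (c : (A ⧸ K) →+ AddCircle (1 : ℚ)) (QuotientAddGroup.mk b) = 0
    rw [(QuotientAddGroup.eq_zero_iff b).2 hb]
    exact map_zero _
  exact hc (h hχ a ha)

theorem perp_injective {A : Type} [AddCommGroup A] {H K : AddSubgroup A}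
    (h : perp H = perp K) : H = K :=
  le_antisymm (le_of_perp_le h.ge) (le_of_perp_le h.le)

theorem perp_sup {A : Type} [AddCommGroup A] (H K : AddSubgroup A) :
    perp (H ⊔ K) = perp H ⊓ perp K := by
  apply le_antisymm
  · exact le_inf (perp_anti le_sup_left) (perp_anti le_sup_right)
  · rintro χ ⟨h1, h2⟩ a ha
    obtain ⟨x, hx, y, hy, rfl⟩ := AddSubgroup.mem_sup.1 ha
    show (χ : A →+ AddCircle (1 : ℚ)) (x + y) = 0
    rw [map_add]
    rw [show (χ : A →+ AddCircle (1 : ℚ)) x = 0 from h1 x hx,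
      show (χ : A →+ AddCircle (1 : ℚ)) y = 0 from h2 y hy, add_zero]

theorem perp_inf {A : Type} [AddCommGroup A] (H K : AddSubgroup A) :
    perp (H ⊓ K) = perp H ⊔ perp K := by
  apply le_antisymm
  · intro χ hχ
    -- the map `A ⧸ (H ⊓ K) → A ⧸ H × A ⧸ K`
    let χ' : (A ⧸ (H ⊓ K)) →+ AddCircle (1 : ℚ) :=
      QuotientAddGroup.lift (H ⊓ K) (χ : A →+ AddCircle (1 : ℚ)) (fun a ha => hχ a ha)
    let j : (A ⧸ (H ⊓ K)) →+ (A ⧸ H) × (A ⧸ K) :=
      QuotientAddGroup.lift (H ⊓ K)
        ((QuotientAddGroup.mk' H).prod (QuotientAddGroup.mk' K)) (by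
          intro a ha
          show ((QuotientAddGroup.mk a : A ⧸ H), (QuotientAddGroup.mk a : A ⧸ K)) = 0
          rw [(QuotientAddGroup.eq_zero_iff a).2 ha.1, (QuotientAddGroup.eq_zero_iff a).2 ha.2]
          rfl)
    have hj : Function.Injective j := by
      rw [injective_iff_map_eq_zero]
      intro x
      obtain ⟨a, rfl⟩ := QuotientAddGroup.mk_surjective x
      intro h
      have h' : ((QuotientAddGroup.mk a : A ⧸ H), (QuotientAddGroup.mk a : A ⧸ K)) = 0 := h
      rw [Prod.mk_eq_zero] at h'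
      exact (QuotientAddGroup.eq_zero_iff a).2
        ⟨(QuotientAddGroup.eq_zero_iff a).1 h'.1, (QuotientAddGroup.eq_zero_iff a).1 h'.2⟩
    obtain ⟨ψ, hψ⟩ := CharacterModule.dual_surjective_of_injective (R := ℤ)
      (j.toIntLinearMap) hj χ'
    let ψ' : ((A ⧸ H) × (A ⧸ K)) →+ AddCircle (1 : ℚ) := ψ
    let χ₁ : CharacterModule A :=
      (ψ'.comp (AddMonoidHom.inl (A ⧸ H) (A ⧸ K))).comp (QuotientAddGroup.mk' H)
    let χ₂ : CharacterModule A :=
      (ψ'.comp (AddMonoidHom.inr (A ⧸ H) (A ⧸ K))).comp (QuotientAddGroup.mk' K)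
    have h1 : χ₁ ∈ perp H := by
      intro a ha
      show ψ' ((QuotientAddGroup.mk a : A ⧸ H), 0) = 0
      rw [(QuotientAddGroup.eq_zero_iff a).2 ha]
      exact map_zero _
    have h2 : χ₂ ∈ perp K := by
      intro a ha
      show ψ' (0, (QuotientAddGroup.mk a : A ⧸ K)) = 0
      rw [(QuotientAddGroup.eq_zero_iff a).2 ha]
      exact map_zero _
    have hsum : χ = χ₁ + χ₂ := by
      apply CharacterModule.ext
      intro a
      have h3 : χ' (QuotientAddGroup.mk a) = ψ' (j (QuotientAddGroup.mk a)) := by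
        rw [← hψ]
        rfl
      have h4 : χ a = χ' (QuotientAddGroup.mk a) := rfl
      rw [h4, h3]
      show ψ' ((QuotientAddGroup.mk a : A ⧸ H), (QuotientAddGroup.mk a : A ⧸ K)) =
        ψ' ((QuotientAddGroup.mk a : A ⧸ H), 0) + ψ' (0, (QuotientAddGroup.mk a : A ⧸ K))
      rw [← map_add]
      congr 1
      simp
    rw [hsum]
    exact AddSubgroup.add_mem_sup h1 h2
  · exact sup_le (perp_anti inf_le_left) (perp_anti inf_le_right)

/-- For every lattice L, if L embeds as a lattice into the subgroup lattice of some abelian group, then its order dual also embeds as a lattice into the subgroup lattice of some abelian group. -/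
theorem result :
    ∀ (L : Type) [Lattice L],
      (∃ (A : Type) (_ : AddCommGroup A), ∃ f : LatticeHom L (AddSubgroup A), Function.Injective f) →
      (∃ (B : Type) (_ : AddCommGroup B), ∃ g : LatticeHom Lᵒᵈ (AddSubgroup B), Function.Injective g) := by
  intro L _ ⟨A, _, f, hf⟩
  refine ⟨CharacterModule A, inferInstance,
    { toFun := fun x => perp (f (OrderDual.ofDual x))
      map_sup' := ?_
      map_inf' := ?_ }, ?_⟩
  · intro a b
    show perp (f (OrderDual.ofDual a ⊓ OrderDual.ofDual b)) = _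
    rw [map_inf, perp_inf]
  · intro a b
    show perp (f (OrderDual.ofDual a ⊔ OrderDual.ofDual b)) = _
    rw [map_sup, perp_sup]
  · intro a b h
    exact OrderDual.ofDual.injective (hf (perp_injective h))

end Pool.Agent.S03067
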