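import Pool.Statements.S03154
import Pool.Agent.V1128.FA.Ab

set_option autoImplicit false
open Pool Pool.MP_d2e081_al

namespace Pool.Agent.S03154

open Pool.Agent.V1128.FA

/-- The rotation `z ↦ ω z`. -/
def ga : W ℤ := SemidirectProduct.inr (Multiplicative.ofAdd 1)

/-- The rotation `z ↦ ω z + 1`. -/
def gb : W ℤ := SemidirectProduct.inl (Multiplicative.ofAdd (1, 0)) * SemidirectProduct.inr (Multiplicative.ofAdd 1)

theorem phi_one (v : Multiplicative (ℤ × ℤ)) :
    phi ℤ (Multiplicative.ofAdd 1) v = Multiplicative.ofAdd (om ℤ v.toAdd) := rfl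

theorem ga3 : ga ^ 3 = 1 := by decide

theorem gb3 : gb ^ 3 = 1 := by decide

theorem gab3 : (ga * gb) ^ 3 = 1 := by decide

theorem gen : Subgroup.closure {ga, gb} = (⊤ : Subgroup (W ℤ)) := by
  rw [eq_top_iff]
  intro g _
  set S := Subgroup.closure {ga, gb} with hS
  have h1 : ga ∈ S := Subgroup.subset_closure (by simp)
  have h2 : gb ∈ S := Subgroup.subset_closure (by simp)
  have h3 : (SemidirectProduct.inl (Multiplicative.ofAdd (1, 0)) : W ℤ) ∈ S := by
    have : (SemidirectProduct.inl (Multiplicative.ofAdd (1, 0)) : W ℤ) = gb * ga⁻¹ := by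
      rw [ga, gb]
      group
    rw [this]
    exact S.mul_mem h2 (S.inv_mem h1)
  have h4 : (SemidirectProduct.inl (Multiplicative.ofAdd (0, 1)) : W ℤ) ∈ S := by
    have : (SemidirectProduct.inl (Multiplicative.ofAdd (0, 1)) : W ℤ) =
        ga * SemidirectProduct.inl (Multiplicative.ofAdd (1, 0)) * ga⁻¹ := by
      rw [ga, ← map_inv, ← SemidirectProduct.inl_aut]
      rfl
    rw [this]
    exact S.mul_mem (S.mul_mem h1 h3) (S.inv_mem h1)
  have e1 : ∀ (v : Multiplicative (ℤ × ℤ)) (n : ℤ),
      (SemidirectProduct.inl v : W ℤ) ^ n = SemidirectProduct.inl (v ^ n) :=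
    fun v n => (map_zpow _ v n).symm
  have e2 : ∀ (v : Multiplicative (ZMod 3)) (n : ℕ),
      (SemidirectProduct.inr v : W ℤ) ^ n = SemidirectProduct.inr (v ^ n) :=
    fun v n => (map_pow _ v n).symm
  have h5 : g = (SemidirectProduct.inl (Multiplicative.ofAdd (1, 0))) ^ g.left.toAdd.1 *
      (SemidirectProduct.inl (Multiplicative.ofAdd (0, 1))) ^ g.left.toAdd.2 *
      ga ^ g.right.toAdd.val := by
    rw [e1, e1, ga, e2, ← map_mul]
    apply SemidirectProduct.ext
    · rw [SemidirectProduct.mul_left, SemidirectProduct.left_inl, SemidirectProduct.left_inr,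
        map_one, mul_one]
      apply Multiplicative.toAdd.injective
      rw [toAdd_mul, toAdd_zpow, toAdd_zpow, toAdd_ofAdd, toAdd_ofAdd]
      ext <;> simp
    · simp only [SemidirectProduct.mul_right, SemidirectProduct.right_inl,
        SemidirectProduct.right_inr, one_mul]
      apply Multiplicative.toAdd.injective
      simp
  rw [h5]
  exact S.mul_mem (S.mul_mem (S.zpow_mem h3 _) (S.zpow_mem h4 _)) (S.pow_mem h1 _)

/-- The negation of the preceding statement: For residually finite groups G, H and injective u: G→H inducing an isomorphism of profinite completions (given via finite-index normal subgroups), if every inversion-free action of G on a tree has a fixed vertex, the same holds for H. -/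
theorem result :
    ¬ (∀ (G H : Type) [Group G] [Group H] (u : G →* H),
      (∀ g : G, g ≠ 1 → ∃ N : Subgroup G, N.Normal ∧ N.index ≠ 0 ∧ g ∉ N) →
      (∀ h : H, h ≠ 1 → ∃ M : Subgroup H, M.Normal ∧ M.index ≠ 0 ∧ h ∉ M) →
      Function.Injective u →
      (∀ N : Subgroup G, N.Normal → N.index ≠ 0 →
        ∃ M : Subgroup H, M.Normal ∧ M.index ≠ 0 ∧ M.comap u ≤ N) →
      (∀ M : Subgroup H, M.Normal → M.index ≠ 0 →
        ∀ h : H, ∃ g : G, ∃ m ∈ M, h = u g * m) →
      (∀ (V : Type) [MulAction G V] (T : SimpleGraph V), T.IsTree →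
        (∀ g : G, ∀ x y : V, T.Adj x y → T.Adj (g • x) (g • y)) →
        (∀ g : G, ∀ x y : V, T.Adj x y → ¬ (g • x = y ∧ g • y = x)) →
        ∃ v : V, ∀ g : G, g • v = v) →
      (∀ (V : Type) [MulAction H V] (T : SimpleGraph V), T.IsTree →
        (∀ h : H, ∀ x y : V, T.Adj x y → T.Adj (h • x) (h • y)) →
        (∀ h : H, ∀ x y : V, T.Adj x y → ¬ (h • x = y ∧ h • y = x)) →
        ∃ v : V, ∀ h : H, h • v = v)) := by
  intro hall
  obtain ⟨V, hV, T, hT, h1, h2, h3⟩ := not_fix KK_mono KK_top KK_ne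
  apply h3
  refine hall (W ℤ) (W MM) (uu dg) (resFin dense_int sep_int) (resFin dg_dense sep_MM)
    (uu_inj dg_inj) ?_ ?_ ?_ V T hT h1 h2
  · intro N hN hi
    have hpos : 0 < N.index := Nat.pos_of_ne_zero hi
    exact ⟨small MM N.index, inferInstance, small_finite dg_dense hpos,
      (uu_comap dg_pure hpos).trans (small_le hN)⟩
  · intro M hM hi h
    have hpos : 0 < M.index := Nat.pos_of_ne_zero hi
    obtain ⟨g, m, hm, e⟩ := uu_dense dg_dense hpos h
    exact ⟨g, m, small_le hM hm, e⟩
  · intro V _ T hT hadj hinv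
    exact fix_of_gen hT hadj hinv ga gb (by norm_num : 0 < 3) ga3 gb3 gab3 gen

end Pool.Agent.S03154
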