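import Pool.Statements.S03595
import Pool.Agent.V1128.TIG.Mat
import Pool.Agent.V1128.TIG.Back
import Pool.Agent.V1128.TIG.Conn

set_option autoImplicit false
open Pool Pool.MP_f8d790_al

namespace Pool.Agent.S03595

/-- An infinite compact Hausdorff group G has every choice of conjugates of its elements topologically generating G if and only if G has a closed, connected, abelian normal subgroup with totally disconnected (profinite) quotient. -/
theorem result :
    ∀ (G : Type) [Group G] [TopologicalSpace G] [IsTopologicalGroup G] [CompactSpace G]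
      [T2Space G] [Infinite G],
      (∀ f : G → G,
          (Subgroup.closure (Set.range (fun x : G => f x * x * (f x)⁻¹))).topologicalClosure = ⊤) ↔
        ∃ N : Subgroup G, N.Normal ∧ IsClosed (N : Set G) ∧ IsConnected (N : Set G) ∧
          (∀ a ∈ N, ∀ b ∈ N, a * b = b * a) ∧ TotallyDisconnectedSpace (G ⧸ N) := by
  intro G _ _ _ _ _ _
  constructor
  · intro h
    refine ⟨Subgroup.connectedComponentOfOne G, Pool.Agent.V1128.TIG.conn_normal G,
      isClosed_connectedComponent, isConnected_connectedComponent, ?_, Pool.Agent.V1128.TIG.conn_td G⟩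
    intro a ha b hb
    by_contra hab
    obtain ⟨H, hH, hne, hc⟩ := Pool.Agent.V1128.TIG.step_main ha hb hab
    choose f hf using hc
    apply hne
    rw [← top_le_iff, ← h f]
    apply Subgroup.topologicalClosure_minimal _ _ hH
    rw [Subgroup.closure_le]
    rintro _ ⟨x, rfl⟩
    exact hf x
  · rintro ⟨N, hn, hN, -, hab, htd⟩ f
    apply Pool.Agent.V1128.TIG.back (Subgroup.isClosed_topologicalClosure _) hN hn hab htd
    intro x
    exact ⟨f x, Subgroup.le_topologicalClosure _ (Subgroup.subset_closure ⟨x, rfl⟩)⟩

end Pool.Agent.S03595
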