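import Pool.Statements.S03597
import Pool.Agent.V11209.Carl.Poly

set_option autoImplicit false
open Pool Pool.MP_f8ecd9_al

namespace Pool.Agent.S03597

open Matrix in
/-- the tensor-square differential is `X ↦ D X + X Dᵀ` -/
theorem kron_apply {R : Type} [CommRing R] {n : ℕ} (D : Matrix (Fin n) (Fin n) R)
    (v : Fin n × Fin n → R) (i j : Fin n) :
    ((Matrix.kronecker D (1 : Matrix (Fin n) (Fin n) R) +
      Matrix.kronecker (1 : Matrix (Fin n) (Fin n) R) D).mulVec v) (i, j) =
      (D * Matrix.of (fun a b => v (a, b)) + Matrix.of (fun a b => v (a, b)) * Dᵀ) i j := by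
  rw [Matrix.add_mulVec, Pi.add_apply, Matrix.add_apply]
  congr 1
  · simp only [Matrix.mulVec, dotProduct, Matrix.mul_apply, Matrix.kronecker, Matrix.kroneckerMap,
      Matrix.of_apply, Fintype.sum_prod_type, Matrix.one_apply]
    refine Finset.sum_congr rfl fun a _ => ?_
    simp
  · simp only [Matrix.mulVec, dotProduct, Matrix.mul_apply, Matrix.kronecker, Matrix.kroneckerMap,
      Matrix.of_apply, Fintype.sum_prod_type, Matrix.one_apply, Matrix.transpose_apply]
    rw [Finset.sum_eq_single i]
    · refine Finset.sum_congr rfl fun a _ => ?_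
      simp [mul_comm]
    · intro a _ ha
      simp [Ne.symm ha]
    · intro h; exact absurd (Finset.mem_univ i) h

/-- vectors indexed by pairs are matrices -/
noncomputable def uncEquiv (k R : Type) [Field k] [CommRing R] [Algebra k R] (n : ℕ) :
    (Fin n × Fin n → R) ≃ₗ[k] Matrix (Fin n) (Fin n) R where
  toFun v := Matrix.of fun a b => v (a, b)
  invFun X := fun p => X p.1 p.2
  map_add' _ _ := rfl
  map_smul' _ _ := rfl
  left_inv _ := rfl
  right_inv _ := rfl

theorem kron_conj {k R : Type} [Field k] [CommRing R] [Algebra k R] {n : ℕ}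
    (D : Matrix (Fin n) (Fin n) R) :
    ((Matrix.mulVecLin (Matrix.kronecker D (1 : Matrix (Fin n) (Fin n) R) +
      Matrix.kronecker (1 : Matrix (Fin n) (Fin n) R) D)).restrictScalars k) =
    ((uncEquiv k R n).symm : _ →ₗ[k] _) ∘ₗ (V11209.Carl.opT k D) ∘ₗ
      (uncEquiv k R n : _ →ₗ[k] _) := by
  apply LinearMap.ext
  intro v
  funext p
  obtain ⟨i, j⟩ := p
  exact kron_apply D v i j

/-- Over R = k[x_1..x_d]/(x_i^2) with char k = 2, every minimal graded finite free complex P of rank n has total homology of P ⊗_R P of k-dimension at least 2^d · n. -/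
theorem result :
    ∀ (k : Type) [Field k] [CharP k 2] (d : ℕ) (I : Ideal (MvPolynomial (Fin d) k)),
      I = Ideal.span (Set.range (fun i : Fin d => (MvPolynomial.X i : MvPolynomial (Fin d) k) ^ 2)) →
      ∀ (n : ℕ) (D : Matrix (Fin n) (Fin n) (MvPolynomial (Fin d) k ⧸ I)),
        D * D = 0 →
        (∃ deg : Fin n → ℕ, ∀ i j, D i j ≠ 0 → deg j = deg i + 1) →
        (∀ i j, IsNilpotent (D i j)) →
        2 ^ d * n +
            Module.finrank k
              (LinearMap.range
                ((Matrix.mulVecLin
                    (Matrix.kronecker D (1 : Matrix (Fin n) (Fin n) (MvPolynomial (Fin d) k ⧸ I)) +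
                      Matrix.kronecker (1 : Matrix (Fin n) (Fin n) (MvPolynomial (Fin d) k ⧸ I)) D)).restrictScalars k))
          ≤ Module.finrank k
              (LinearMap.ker
                ((Matrix.mulVecLin
                    (Matrix.kronecker D (1 : Matrix (Fin n) (Fin n) (MvPolynomial (Fin d) k ⧸ I)) +
                      Matrix.kronecker (1 : Matrix (Fin n) (Fin n) (MvPolynomial (Fin d) k ⧸ I)) D)).restrictScalars k)) := by
  intro k _ _ d I hI n D hD hdeg hnil
  subst hI
  obtain ⟨deg, hdeg⟩ := hdeg
  have h := V11209.Carl.main_matrix (k := k) (d := d) D hD deg hdeg hnil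
  rw [kron_conj (k := k) D, LinearMap.range_comp, LinearMap.range_comp, LinearEquiv.range,
    Submodule.map_top, LinearEquiv.finrank_map_eq,
    LinearMap.ker_comp_of_ker_eq_bot _ (LinearEquiv.ker _),
    LinearMap.ker_comp, Submodule.comap_equiv_eq_map_symm, LinearEquiv.finrank_map_eq]
  exact h

end Pool.Agent.S03597
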