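import Pool.Statements.S03774
import Pool.Agent.V1194.TTOOpen

set_option autoImplicit false
open Matrix
open Pool Pool.MP_0ac5c2_an

namespace Pool.Agent.S03774

/-- The negation of the preceding statement: For n at least 4, every complex symmetric n×n matrix with no two orthogonal nonzero eigenvectors is unitarily equivalent to a truncated Toeplitz operator, encoded via the compressed-shift model and Sarason's rank-two criterion M − TMT* = u⊗k + k⊗v. -/
theorem result :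
    ¬ (∀ n : ℕ, 4 ≤ n → ∀ M : Matrix (Fin n) (Fin n) ℂ, Mᵀ = M →
      (¬ ∃ x y : Fin n → ℂ, ∃ a b : ℂ, x ≠ 0 ∧ y ≠ 0 ∧
          M *ᵥ x = a • x ∧ M *ᵥ y = b • y ∧ star x ⬝ᵥ y = 0) →
      ∃ T : Matrix (Fin n) (Fin n) ℂ, ∃ k u v : Fin n → ℂ,
        1 - T * Tᴴ = Matrix.vecMulVec k (star k) ∧
        (∀ μ : ℂ, ∀ x : Fin n → ℂ, x ≠ 0 → T *ᵥ x = μ • x → ‖μ‖ < 1) ∧
        M - T * M * Tᴴ = Matrix.vecMulVec u (star k) + Matrix.vecMulVec k (star v)) := by
  intro H
  let a : Fin 20 → ℝ := fun i => (i : ℕ)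
  have ha : Function.Injective a := by
    intro i j hij
    have h1 : ((i : ℕ) : ℝ) = ((j : ℕ) : ℝ) := hij
    exact Fin.ext (by exact_mod_cast h1)
  obtain ⟨f, hf1, hf2⟩ := Pool.Agent.V1194.TTOParam.exists_good a ha
  obtain ⟨T, k, u, v, h1, h2, h3⟩ := H 20 (by norm_num) (Pool.Agent.V1194.TTOParam.Mm a f)
    (Pool.Agent.V1194.TTOParam.Mm_symm a f) hf1
  exact hf2 (Pool.Agent.V1194.TTOParam.mem_range a ha (by norm_num) hf1 ⟨h1, h2⟩ h3)

end Pool.Agent.S03774
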