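import Pool.Statements.S03793
import Pool.Agent.V203PL.Axis

set_option autoImplicit false
open Pool Pool.MP_0c3c48_an

namespace Pool.Agent.S03793

/-- For every ω>0 and integer r, if p,q are consecutive constrictions (A≠0, sole point of L_r on their horizontal line) of the phase-lock area L_r in A>0, then the segment from p to q lies in L_r. -/
theorem result :
    ∀ ω : ℝ, 0 < ω → ∀ r : ℤ, ∀ L : Set (ℝ × ℝ),
      L = {p : ℝ × ℝ | ∃ f : ℝ → ℝ,
            (∀ t : ℝ, HasDerivAt f (-Real.sin (f t) + p.1 + p.2 * Real.cos (ω * t)) t) ∧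
            Filter.Tendsto (fun t : ℝ => f t / (ω * t)) Filter.atTop (nhds (r : ℝ))} →
      ∀ p q : ℝ × ℝ,
        (p ∈ L ∧ p.2 ≠ 0 ∧ ∀ x ∈ L, x.2 = p.2 → x = p) →
        (q ∈ L ∧ q.2 ≠ 0 ∧ ∀ x ∈ L, x.2 = q.2 → x = q) →
        0 < p.2 → p.2 < q.2 →
        (∀ c ∈ L, c.2 ≠ 0 → (∀ x ∈ L, x.2 = c.2 → x = c) → ¬ (p.2 < c.2 ∧ c.2 < q.2)) →
        segment ℝ p q ⊆ L := by
  intro ω hω r L hL p q hp hq hp0 hpq _
  have hmem : ∀ B A : ℝ, (B, A) ∈ L ↔ (B / ω, A / ω) ∈ H535R3.Ls r (1 / ω) := by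
    intro B A
    rw [← V203PL.mem_area hω, hL]
    rfl
  have hε : (0 : ℝ) < 1 / ω := by positivity
  have haxis : ∀ c : ℝ × ℝ, 0 < c.2 → c ∈ L → (∀ x ∈ L, x.2 = c.2 → x = c) →
      c.1 = r * ω := by
    intro c hc h1 h2
    have h3 := V203PL.single_axis (r := r) (ε := 1 / ω) (b := c.1 / ω) (a := c.2 / ω) hε
      (by positivity) ((hmem c.1 c.2).1 h1) (by
        intro b' hb'
        have h4 : (b' * ω, c.2) ∈ L := by
          rw [hmem, mul_div_cancel_right₀ _ hω.ne']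
          exact hb'
        have h5 := h2 _ h4 rfl
        have h6 : b' * ω = c.1 := congrArg Prod.fst h5
        rw [← h6, mul_div_cancel_right₀ _ hω.ne'])
    rw [div_eq_iff hω.ne'] at h3
    exact h3
  have h1 := haxis p hp0 hp.1 hp.2.2
  have h2 := haxis q (hp0.trans hpq) hq.1 hq.2.2
  intro z hz
  obtain ⟨s, t, hs, ht, hst, rfl⟩ := hz
  have hs' : s = 1 - t := by linarith
  have e1 : (s • p + t • q).1 = r * ω := by
    simp only [Prod.fst_add, Prod.smul_fst, smul_eq_mul]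
    rw [h1, h2, hs']
    ring
  have e2 : p.2 ≤ (s • p + t • q).2 := by
    simp only [Prod.snd_add, Prod.smul_snd, smul_eq_mul]
    rw [hs']
    nlinarith
  have e3 : s • p + t • q = (r * ω, (s • p + t • q).2) := by
    rw [← e1]
  rw [e3, hmem, mul_div_cancel_right₀ _ hω.ne']
  have h3 := (hmem p.1 p.2).1 hp.1
  rw [h1, mul_div_cancel_right₀ _ hω.ne'] at h3
  exact V203PL.axis_above hε (by positivity) (div_le_div_of_nonneg_right e2 hω.le) h3

end Pool.Agent.S03793
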