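import Pool.Statements.S03851
import Pool.Agent.V1194.RulerDensity
import Pool.Agent.V1194.EllOne

set_option autoImplicit false
open Pool Pool.MP_115f17_an

namespace Pool.Agent.S03851

/-- Some bounded operator on a real or complex Banach space has a frequently hypercyclic vector x and a nonempty open U such that no subset of the visit set of x in U has a natural density that exists and is positive. -/
theorem result :
    ∃ (𝕜 : Type) (_ : RCLike 𝕜) (X : Type) (_ : NormedAddCommGroup X)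
      (_ : NormedSpace 𝕜 X) (_ : CompleteSpace X) (T : X →L[𝕜] X) (x : X),
      (∀ U : Set X, IsOpen U → U.Nonempty →
        ∃ δ : ℝ, 0 < δ ∧ ∀ᶠ n : ℕ in Filter.atTop,
          δ * (n : ℝ) ≤ (({k : ℕ | k < n ∧ (⇑T)^[k] x ∈ U}.ncard : ℕ) : ℝ)) ∧
      ∃ U : Set X, IsOpen U ∧ U.Nonempty ∧
        ∀ A : Set ℕ, A ⊆ {k : ℕ | (⇑T)^[k] x ∈ U} →
          ¬ ∃ d : ℝ, 0 < d ∧
            Filter.Tendsto
              (fun n : ℕ => (({k : ℕ | k < n ∧ k ∈ A}.ncard : ℕ) : ℝ) / (n : ℝ))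
              Filter.atTop (nhds d) := by
  obtain ⟨z, hz, hz2, hz3⟩ := Pool.Agent.V1194.EllOne.exists_blocks
  have hS : ∀ x, ‖Pool.Agent.V1194.EllOne.S x‖ ≤ ‖x‖ / 2 := fun x =>
    (Pool.Agent.V1194.EllOne.norm_S x).le
  refine ⟨ℝ, inferInstance, Pool.Agent.V1194.EllOne.L1, inferInstance, inferInstance,
    inferInstance, Pool.Agent.V1194.EllOne.T,
    Pool.Agent.V1194.RulerFHC.vec Pool.Agent.V1194.EllOne.S z, ?_, ?_⟩
  · intro U hU hne
    obtain ⟨j, hj⟩ := hz3 U hU hne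
    exact Pool.Agent.V1194.RulerFHC.freq Pool.Agent.V1194.EllOne.T_S hS hz hz2 hj
  · refine ⟨{x | 1 < ‖x‖}, isOpen_lt continuous_const continuous_norm, ?_, fun A hA => ?_⟩
    · refine ⟨(lp.single (E := fun _ : ℕ => ℝ) 1 0 (2 : ℝ) : Pool.Agent.V1194.EllOne.L1), ?_⟩
      show 1 < ‖_‖
      rw [lp.norm_single (by norm_num)]
      norm_num
    · exact Pool.Agent.V1194.RulerFHC.no_density Pool.Agent.V1194.EllOne.T_S hS hz hz2 hA

end Pool.Agent.S03851
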