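import Pool.Statements.S04135
import Pool.Agent.Helper704.RB.E
import Pool.Agent.V1173.Var

set_option autoImplicit false
open MeasureTheory
open Pool Pool.MP_28e115_an

namespace Pool.Agent.S04135

open Set Filter Topology

theorem variation_top {n : ℕ} {F : EuclideanSpace ℂ (Fin n) → ℂ}
    (hF : DifferentiableOn ℂ F (Metric.ball 0 1)) {ζ : EuclideanSpace ℂ (Fin n)} (hζ : ‖ζ‖ = 1)
    (h : ∫⁻ t in Set.Ioo (0:ℝ) 1, ‖deriv (fun t : ℝ => F ((t : ℂ) • ζ)) t‖ₑ = ⊤) :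
    eVariationOn (fun t : ℝ => F ((t : ℂ) • ζ)) (Set.Ico (0 : ℝ) 1) = ⊤ := by
  by_contra hV
  set h1 : ℂ → ℂ := fun w => F (w • ζ) with hh1
  have hd1 : DifferentiableOn ℂ h1 (Metric.ball 0 1) := by
    refine hF.comp (by fun_prop) ?_
    intro w hw
    rw [mem_ball_zero_iff] at hw ⊢
    rw [norm_smul, hζ, mul_one]
    exact hw
  have hd2 : ContinuousOn (deriv h1) (Metric.ball 0 1) :=
    (hd1.deriv Metric.isOpen_ball).continuousOn
  have hmem : ∀ t : ℝ, t ∈ Ico (0 : ℝ) 1 → ((t : ℝ) : ℂ) ∈ Metric.ball (0 : ℂ) 1 := by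
    intro t ht
    rw [mem_ball_zero_iff, Complex.norm_real, Real.norm_of_nonneg ht.1]
    exact ht.2
  have hder : ∀ t : ℝ, t ∈ Ico (0 : ℝ) 1 →
      HasDerivAt (fun t : ℝ => F ((t : ℂ) • ζ)) (deriv h1 t) t := by
    intro t ht
    have h2 : HasDerivAt h1 (deriv h1 t) (t : ℂ) :=
      (hd1.differentiableAt (Metric.isOpen_ball.mem_nhds (hmem t ht))).hasDerivAt
    exact h2.comp_ofReal
  have hcont : ContinuousOn (fun t : ℝ => deriv h1 t) (Ico 0 1) :=
    hd2.comp Complex.continuous_ofReal.continuousOn (fun t ht => hmem t ht)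
  have hb : ∀ b : ℝ, 0 < b → b < 1 →
      ∫⁻ t in Ioo (0:ℝ) b, ‖deriv (fun t : ℝ => F ((t : ℂ) • ζ)) t‖ₑ ≤
        eVariationOn (fun t : ℝ => F ((t : ℂ) • ζ)) (Set.Ico (0 : ℝ) 1) := by
    intro b hb0 hb1
    have hsub : Icc 0 b ⊆ Ico (0 : ℝ) 1 := fun t ht => ⟨ht.1, ht.2.trans_lt hb1⟩
    have hmono : eVariationOn (fun t : ℝ => F ((t : ℂ) • ζ)) (Icc 0 b) ≤
        eVariationOn (fun t : ℝ => F ((t : ℂ) • ζ)) (Set.Ico (0 : ℝ) 1) :=
      eVariationOn.mono _ hsub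
    have hne : eVariationOn (fun t : ℝ => F ((t : ℂ) • ζ)) (Icc 0 b) ≠ ⊤ :=
      ne_top_of_le_ne_top hV hmono
    have h3 := Pool.Agent.V1173.length_le_variation hb0
      (fun t ht => hder t (hsub ht)) (hcont.mono hsub) hne
    have hi : IntegrableOn (fun t : ℝ => deriv h1 t) (Icc 0 b) :=
      (hcont.mono hsub).integrableOn_compact isCompact_Icc
    have hi' : IntegrableOn (fun t : ℝ => deriv h1 t) (Ioo 0 b) := hi.mono_set Ioo_subset_Icc_self
    have h4 : ∫⁻ t in Ioo (0:ℝ) b, ‖deriv (fun t : ℝ => F ((t : ℂ) • ζ)) t‖ₑ =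
        ∫⁻ t in Ioo (0:ℝ) b, ‖deriv h1 t‖ₑ := by
      refine setLIntegral_congr_fun measurableSet_Ioo fun t ht => ?_
      beta_reduce
      rw [(hder t ⟨ht.1.le, ht.2.trans hb1⟩).deriv]
    rw [h4, ← ofReal_integral_norm_eq_lintegral_enorm hi']
    have h5 : ∫ t in Ioo (0:ℝ) b, ‖deriv h1 t‖ = ∫ t in (0:ℝ)..b, ‖deriv h1 t‖ := by
      rw [intervalIntegral.integral_of_le hb0.le, integral_Ioc_eq_integral_Ioo]
    rw [h5]
    exact (ENNReal.ofReal_le_ofReal h3).trans ((ENNReal.ofReal_toReal_le).trans hmono)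
  have hU : Ioo (0 : ℝ) 1 = ⋃ k : ℕ, Ioo (0 : ℝ) (1 - 1 / ((k : ℝ) + 2)) := by
    ext t
    simp only [mem_iUnion, mem_Ioo]
    constructor
    · rintro ⟨h6, h7⟩
      obtain ⟨k, hk⟩ := exists_nat_one_div_lt (sub_pos.2 h7)
      refine ⟨k, h6, ?_⟩
      have : 1 / ((k : ℝ) + 2) ≤ 1 / ((k : ℝ) + 1) :=
        one_div_le_one_div_of_le (by positivity) (by linarith)
      linarith
    · rintro ⟨k, h6, h7⟩
      have : 0 < 1 / ((k : ℝ) + 2) := by positivity
      exact ⟨h6, by linarith⟩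
  have hmon : Monotone fun k : ℕ => Ioo (0 : ℝ) (1 - 1 / ((k : ℝ) + 2)) := by
    intro i j hij
    refine Ioo_subset_Ioo_right ?_
    have : (i : ℝ) ≤ j := by exact_mod_cast hij
    have : 1 / ((j : ℝ) + 2) ≤ 1 / ((i : ℝ) + 2) :=
      one_div_le_one_div_of_le (by positivity) (by linarith)
    linarith
  rw [hU, setLIntegral_iUnion_of_directed _ hmon.directed_le] at h
  have h8 : (⨆ k : ℕ, ∫⁻ t in Ioo (0:ℝ) (1 - 1 / ((k : ℝ) + 2)),
      ‖deriv (fun t : ℝ => F ((t : ℂ) • ζ)) t‖ₑ) ≤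
      eVariationOn (fun t : ℝ => F ((t : ℂ) • ζ)) (Set.Ico (0 : ℝ) 1) := by
    refine iSup_le fun k => hb _ ?_ ?_
    · have : 1 / ((k : ℝ) + 2) < 1 := by
        rw [div_lt_one (by positivity)]
        have : (0 : ℝ) ≤ k := Nat.cast_nonneg k
        linarith
      linarith
    · have : 0 < 1 / ((k : ℝ) + 2) := by positivity
      linarith
  rw [h] at h8
  exact hV (top_le_iff.1 h8)

/-- For every n ≥ 2 there is a bounded holomorphic function on the unit ball of ℂⁿ whose restriction to almost every radius r ↦ f(rζ), 0 ≤ r < 1, has infinite total variation, i.e. a nonrectifiable image. -/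
theorem result :
    ∀ n : ℕ, 2 ≤ n →
      ∃ f : (Fin n → ℂ) → ℂ,
        DifferentiableOn ℂ f {z : Fin n → ℂ | ∑ i, ‖z i‖ ^ 2 < 1} ∧
        (∃ M : ℝ, ∀ z ∈ {z : Fin n → ℂ | ∑ i, ‖z i‖ ^ 2 < 1}, ‖f z‖ ≤ M) ∧
        ∀ᵐ x ∂(volume : Measure (Fin n → ℂ)),
          eVariationOn
            (fun r : ℝ => f ((((r / Real.sqrt (∑ i, ‖x i‖ ^ 2) : ℝ)) : ℂ) • x))
            (Set.Ico (0 : ℝ) 1) = ⊤ := by
  classical
  intro n hn
  have hne : Nonempty (Fin n) := ⟨⟨0, by omega⟩⟩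
  set E := EuclideanSpace ℂ (Fin n) with hE
  set T : (Fin n → ℂ) →L[ℂ] E :=
    (PiLp.continuousLinearEquiv 2 ℂ (fun _ : Fin n => ℂ)).symm.toContinuousLinearMap with hT
  have hTn : ∀ x, ‖T x‖ = Real.sqrt (∑ i, ‖x i‖ ^ 2) := by
    intro x
    rw [EuclideanSpace.norm_eq]
    rfl
  -- the direction
  set e0 : E := EuclideanSpace.single ⟨0, by omega⟩ (1 : ℂ) with he0
  have he0n : ‖e0‖ = 1 := by
    rw [he0, EuclideanSpace.norm_single, norm_one]
  set v : (Fin n → ℂ) → E := fun x => if T x = 0 then e0 else ((‖T x‖⁻¹ : ℝ) : ℂ) • T x with hv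
  have hvn : ∀ x, v x ∈ Metric.sphere (0 : E) 1 := by
    intro x
    rw [mem_sphere_zero_iff_norm]
    by_cases h : T x = 0
    · simp only [hv, h, if_true]
      exact he0n
    · simp only [hv, h, if_false]
      rw [norm_smul, Complex.norm_real, norm_inv, norm_norm]
      exact inv_mul_cancel₀ (norm_ne_zero_iff.2 h)
  have hTm : Measurable T := T.continuous.measurable
  have hvm : Measurable v := by
    refine Measurable.ite (hTm (measurableSet_singleton (0 : E))) measurable_const ?_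
    exact (Complex.measurable_ofReal.comp hTm.norm.inv).smul hTm
  set d : (Fin n → ℂ) → Metric.sphere (0 : E) 1 := fun x => ⟨v x, hvn x⟩ with hd
  have hdm : Measurable d := hvm.subtype_mk
  set ν : Measure (Fin n → ℂ) := (volume : Measure (Fin n → ℂ)).toFinite with hν
  obtain ⟨F, hF1, hF2, hF3⟩ := Pool.Agent.Helper704.RadBall.main (n := n) (by omega) (ν.map d)
  have hball : ∀ z : Fin n → ℂ, ∑ i, ‖z i‖ ^ 2 < 1 → T z ∈ Metric.ball (0 : E) 1 := by
    intro z hz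
    rw [mem_ball_zero_iff, hTn, Real.sqrt_lt' one_pos]
    simpa using hz
  refine ⟨fun z => F (T z), ?_, ⟨1, fun z hz => hF2 _ (hball z hz)⟩, ?_⟩
  · exact hF1.comp T.differentiable.differentiableOn fun z hz => hball z hz
  · have h1 := ae_of_ae_map hdm.aemeasurable hF3
    have h2 : (volume : Measure (Fin n → ℂ)) ≪ ν := absolutelyContinuous_toFinite _
    have h3 := h2.ae_le h1
    have h4 : ∀ᵐ x ∂(volume : Measure (Fin n → ℂ)), x ≠ 0 := by
      exact Measure.ae_ne volume 0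
    filter_upwards [h3, h4] with x hx hx0
    have hTx : T x ≠ 0 := by
      intro h
      apply hx0
      have : T x = T 0 := by rw [h, map_zero]
      exact (PiLp.continuousLinearEquiv 2 ℂ (fun _ : Fin n => ℂ)).symm.injective this
    have hvx : v x = ((‖T x‖⁻¹ : ℝ) : ℂ) • T x := by
      simp only [hv, hTx, if_false]
    have h5 := variation_top hF1 (mem_sphere_zero_iff_norm.1 (hvn x)) hx
    have h6 : (fun r : ℝ => F (T ((((r / Real.sqrt (∑ i, ‖x i‖ ^ 2) : ℝ)) : ℂ) • x))) =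
        fun t : ℝ => F ((t : ℂ) • v x) := by
      funext t
      rw [hvx, smul_smul, ← Complex.ofReal_mul, map_smul, hTn, div_eq_mul_inv]
    rw [h6]
    exact h5

end Pool.Agent.S04135
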