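import Pool.Statements.S04283
import Pool.Agent.V11113.BL.Mod

set_option autoImplicit false
open MeasureTheory
open Pool Pool.MP_32c791_an

namespace Pool.Agent.S04283

open Pool.Agent.V11113.BL
open Pool.Agent.Results.MP_6c6e33_an.GaborOrbit (IsRieszBasis)
open Pool.Agent.Y165.GO (tfn mdn norm_mdn mdn_add mdn_sub coeFn_tfn)

variable {d : ℕ}

lemma atom_eq (M : Matrix (Fin d ⊕ Fin d) (Fin d ⊕ Fin d) ℝ) (k : Fin d ⊕ Fin d → ℤ)
    (g : (Fin d → ℝ) → ℂ) (x : Fin d → ℝ) :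
    (Complex.exp (2 * (Real.pi : ℂ) * Complex.I *
        ((∑ j, Matrix.mulVec M (fun i => ((k i : ℤ) : ℝ)) (Sum.inr j) * x j : ℝ) : ℂ)) *
      g (x - fun j => Matrix.mulVec M (fun i => ((k i : ℤ) : ℝ)) (Sum.inl j))) =
    mdn (Lb M k) x * g (x - La M k) := by
  unfold mdn Lb La
  congr 2
  push_cast
  ring

lemma coe_Wk (M : Matrix (Fin d ⊕ Fin d) (Fin d ⊕ Fin d) ℝ) (g : (Fin d → ℝ) → ℂ)
    (hg : MemLp g 2 volume) (k : Fin d ⊕ Fin d → ℤ) :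
    (Wk M k (hg.toLp g) : (Fin d → ℝ) → ℂ) =ᵐ[volume] fun x => mdn (Lb M k) x * g (x - La M k) := by
  have h1 := coeFn_tfn (La M k) (Lb M k) (hg.toLp g)
  have h2 := (measurePreserving_sub_right (volume : Measure (Fin d → ℝ))
    (La M k)).quasiMeasurePreserving.ae hg.coeFn_toLp
  filter_upwards [h1, h2] with x e1 e2
  unfold Wk
  rw [e1, e2]

lemma riesz (M : Matrix (Fin d ⊕ Fin d) (Fin d ⊕ Fin d) ℝ) (g : (Fin d → ℝ) → ℂ)
    (hg : MemLp g 2 volume)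
    (h1 : ∀ h : (Fin d → ℝ) → ℂ, MemLp h 2 volume →
      (∀ k : Fin d ⊕ Fin d → ℤ,
        ∫ x, (starRingEnd ℂ) (h x) * (mdn (Lb M k) x * g (x - La M k)) = 0) →
      h =ᵐ[volume] 0)
    (h2 : ∃ A B : ℝ, 0 < A ∧ 0 < B ∧
      ∀ (s : Finset (Fin d ⊕ Fin d → ℤ)) (c : (Fin d ⊕ Fin d → ℤ) → ℂ),
        A * ∑ k ∈ s, ‖c k‖ ^ 2 ≤
          ∫ x, ‖∑ k ∈ s, c k * (mdn (Lb M k) x * g (x - La M k))‖ ^ 2 ∧
        ∫ x, ‖∑ k ∈ s, c k * (mdn (Lb M k) x * g (x - La M k))‖ ^ 2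
          ≤ B * ∑ k ∈ s, ‖c k‖ ^ 2) :
    IsRieszBasis (fun k => Wk M k (hg.toLp g)) := by
  refine ⟨?_, ?_⟩
  · rw [Submodule.dense_iff_topologicalClosure_eq_top, Submodule.topologicalClosure_eq_top_iff,
      Submodule.eq_bot_iff]
    intro u hu
    rw [Submodule.mem_orthogonal'] at hu
    have hu0 := h1 (u : (Fin d → ℝ) → ℂ) (Lp.memLp u) (fun k => by
      have h3 := hu _ (Submodule.subset_span ⟨k, rfl⟩)
      rw [L2.inner_def] at h3
      rw [← h3]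
      apply integral_congr_ae
      filter_upwards [coe_Wk M g hg k] with x hx
      rw [hx, mul_comm]
      rfl)
    exact (Lp.eq_zero_iff_ae_eq_zero).2 hu0
  · obtain ⟨A, B, hA, hB, h⟩ := h2
    refine ⟨A, B, hA, hB, fun s c => ?_⟩
    have key : ‖∑ k ∈ s, c k • Wk M k (hg.toLp g)‖ ^ 2 =
        ∫ x, ‖∑ k ∈ s, c k * (mdn (Lb M k) x * g (x - La M k))‖ ^ 2 := by
      rw [norm_sq_eq]
      apply integral_congr_ae
      have e1 : (((∑ k ∈ s, c k • Wk M k (hg.toLp g) : HH d)) : (Fin d → ℝ) → ℂ) =ᵐ[volume]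
          ∑ k ∈ s, ((c k • Wk M k (hg.toLp g) : HH d) : (Fin d → ℝ) → ℂ) :=
        Lp.coeFn_finsetSum s fun i => c i • (Wk M i) (MemLp.toLp g hg)
      have e2 : ∀ᵐ x ∂(volume : Measure (Fin d → ℝ)), ∀ k ∈ s,
          ((c k • Wk M k (hg.toLp g) : HH d) : (Fin d → ℝ) → ℂ) x =
            c k * (mdn (Lb M k) x * g (x - La M k)) := by
        rw [Filter.eventually_all_finset]
        intro k _
        filter_upwards [Lp.coeFn_smul (c k) (Wk M k (hg.toLp g)), coe_Wk M g hg k] with x f1 f2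
        rw [f1, Pi.smul_apply, f2, smul_eq_mul]
      filter_upwards [e1, e2] with x f1 f2
      rw [f1, Finset.sum_apply, Finset.sum_congr rfl f2]
    rw [key]
    exact h s c

/-- For every dimension d and every lattice M·Z^{2d} in R^{2d}, if the Gabor system of g in L^2(R^d) over that lattice is a Riesz basis, then ∣x∣g is not in L^2 or g is not in H^1, i.e. ∣ξ∣ĝ is not in L^2. -/
theorem result :
  ∀ (d : ℕ), 0 < d →
  ∀ (M : Matrix (Fin d ⊕ Fin d) (Fin d ⊕ Fin d) ℝ), M.det ≠ 0 →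
  ∀ (g : (Fin d → ℝ) → ℂ), MemLp g 2 volume →
  ((∀ h : (Fin d → ℝ) → ℂ, MemLp h 2 volume →
      (∀ k : Fin d ⊕ Fin d → ℤ,
        ∫ x, (starRingEnd ℂ) (h x) *
          (Complex.exp (2 * (Real.pi : ℂ) * Complex.I *
              ((∑ j, Matrix.mulVec M (fun i => ((k i : ℤ) : ℝ)) (Sum.inr j) * x j : ℝ) : ℂ)) *
            g (x - fun j => Matrix.mulVec M (fun i => ((k i : ℤ) : ℝ)) (Sum.inl j))) = 0) →
      h =ᵐ[volume] 0) ∧
    ∃ A B : ℝ, 0 < A ∧ 0 < B ∧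
      ∀ (s : Finset (Fin d ⊕ Fin d → ℤ)) (c : (Fin d ⊕ Fin d → ℤ) → ℂ),
        A * ∑ k ∈ s, ‖c k‖ ^ 2 ≤
          ∫ x, ‖∑ k ∈ s, c k *
            (Complex.exp (2 * (Real.pi : ℂ) * Complex.I *
                ((∑ j, Matrix.mulVec M (fun i => ((k i : ℤ) : ℝ)) (Sum.inr j) * x j : ℝ) : ℂ)) *
              g (x - fun j => Matrix.mulVec M (fun i => ((k i : ℤ) : ℝ)) (Sum.inl j)))‖ ^ 2 ∧
        ∫ x, ‖∑ k ∈ s, c k *
            (Complex.exp (2 * (Real.pi : ℂ) * Complex.I *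
                ((∑ j, Matrix.mulVec M (fun i => ((k i : ℤ) : ℝ)) (Sum.inr j) * x j : ℝ) : ℂ)) *
              g (x - fun j => Matrix.mulVec M (fun i => ((k i : ℤ) : ℝ)) (Sum.inl j)))‖ ^ 2
          ≤ B * ∑ k ∈ s, ‖c k‖ ^ 2) →
  ¬ (Integrable (fun x : Fin d → ℝ => (∑ j, x j ^ 2) * ‖g x‖ ^ 2) volume ∧
     ∀ j : Fin d, ∃ h : (Fin d → ℝ) → ℂ, MemLp h 2 volume ∧
       ∀ φ : (Fin d → ℝ) → ℂ, ContDiff ℝ ((⊤ : ℕ∞) : WithTop ℕ∞) φ → HasCompactSupport φ →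
         ∫ x, g x * fderiv ℝ φ x (Pi.single j (1 : ℝ) : Fin d → ℝ) = - ∫ x, h x * φ x) := by
  intro d hd M _ g hg hR hcon
  obtain ⟨hx, hder⟩ := hcon
  obtain ⟨h, hh, hw⟩ := hder ⟨0, hd⟩
  have hx' : Integrable (fun x : Fin d → ℝ => (x ⟨0, hd⟩) ^ 2 * ‖g x‖ ^ 2) volume := by
    apply hx.mono'
    · apply AEStronglyMeasurable.mul
      · apply Continuous.aestronglyMeasurable
        fun_prop
      · exact hg.1.norm.pow 2
    · filter_upwards with x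
      rw [Real.norm_of_nonneg (by positivity)]
      gcongr
      exact Finset.single_le_sum (f := fun j => x j ^ 2) (fun i _ => sq_nonneg _)
        (Finset.mem_univ _)
  simp only [atom_eq] at hR
  exact no_riesz ⟨0, hd⟩ M g h hg hh hw hx' (riesz M g hg hR.1 hR.2)

end Pool.Agent.S04283
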