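import Pool.Statements.S04349
import Pool.Agent.V1172.HR.Main

set_option autoImplicit false
open Pool Pool.MP_37b94e_an

namespace Pool.Agent.S04349

/-- For n ≥ 2 and each k there is c such that any real-analytic p on ℂⁿ whose restriction to every affine complex hyperplane is a sum of k terms ±∣holomorphic∣² is itself a sum of c terms ±∣entire holomorphic∣². -/
theorem result :
    ∀ n : ℕ, 2 ≤ n → ∀ k : ℕ, ∃ c : ℕ, ∀ p : (Fin n → ℂ) → ℝ,
      AnalyticOnNhd ℝ p Set.univ →
      (∀ (a : Fin n → ℂ) (L : (Fin (n - 1) → ℂ) →ₗ[ℂ] (Fin n → ℂ)),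
        Function.Injective L →
        ∃ (ε : Fin k → ℝ) (g : Fin k → (Fin (n - 1) → ℂ) → ℂ),
          (∀ j, ε j = 1 ∨ ε j = -1) ∧ (∀ j, Differentiable ℂ (g j)) ∧
          ∀ x, p (a + L x) = ∑ j, ε j * Complex.normSq (g j x)) →
      ∃ (ε : Fin c → ℝ) (f : Fin c → (Fin n → ℂ) → ℂ),
        (∀ j, ε j = 1 ∨ ε j = -1) ∧ (∀ j, Differentiable ℂ (f j)) ∧
        ∀ z, p z = ∑ j, ε j * Complex.normSq (f j z) := by
  intro n hn k
  refine ⟨(k ^ n) ^ n + (k ^ n) ^ n, fun p hp hyp => ?_⟩
  have hlines : ∀ u b : Fin n → ℂ, ∃ (ε : Fin k → ℝ) (g : Fin k → ℂ → ℂ),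
      (∀ j, Differentiable ℂ (g j)) ∧
        ∀ s : ℂ, p (u + s • b) = ∑ j, ε j * Complex.normSq (g j s) := by
    intro u b
    obtain ⟨L, e, hL, hLe⟩ : ∃ (L : (Fin (n - 1) → ℂ) →ₗ[ℂ] (Fin n → ℂ)) (e : Fin (n - 1) → ℂ),
        Function.Injective L ∧ L e = b := by
      have hle : n - 1 ≤ n := Nat.sub_le n 1
      have hpos : 0 < n - 1 := by omega
      let L0 : (Fin (n - 1) → ℂ) →ₗ[ℂ] (Fin n → ℂ) :=
        { toFun := fun x i => if h : i.1 < n - 1 then x ⟨i.1, h⟩ else 0
          map_add' := by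
            intro x y
            ext i
            by_cases h : i.1 < n - 1
            · simp [h]
            · simp [h]
          map_smul' := by
            intro r x
            ext i
            by_cases h : i.1 < n - 1
            · simp [h]
            · simp [h] }
      have hL0a : ∀ (x : Fin (n - 1) → ℂ) (i : Fin (n - 1)), L0 x (Fin.castLE hle i) = x i := by
        intro x i
        have h : (Fin.castLE hle i).1 < n - 1 := i.2
        show (if h : (Fin.castLE hle i).1 < n - 1 then x ⟨(Fin.castLE hle i).1, h⟩ else 0) = x i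
        rw [dif_pos h]
        rfl
      have hL0 : Function.Injective L0 := by
        intro x y hxy
        ext i
        rw [← hL0a x i, ← hL0a y i, hxy]
      by_cases hb : b = 0
      · exact ⟨L0, 0, hL0, by rw [map_zero, hb]⟩
      · let e : Fin (n - 1) → ℂ := fun _ => 1
        have he : L0 e ≠ 0 := by
          intro h
          have h1 := hL0a e ⟨0, hpos⟩
          rw [h] at h1
          simp [e] at h1
        obtain ⟨T, hT⟩ := SeparatingDual.exists_continuousLinearEquiv_apply_eq (R := ℂ) he hb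
        refine ⟨T.toLinearEquiv.toLinearMap ∘ₗ L0, e, ?_, ?_⟩
        · exact T.injective.comp hL0
        · exact hT
    obtain ⟨ε, g, _, hg, hpg⟩ := hyp u L hL
    refine ⟨ε, fun j s => g j (s • e), fun j => ?_, fun s => ?_⟩
    · have h1 : Differentiable ℂ (fun s : ℂ => s • e) := by fun_prop
      exact (hg j).comp h1
    · rw [← hpg (s • e), map_smul, hLe]
  obtain ⟨d, hd, A, C, hA, hC, hAC⟩ := Pool.Agent.V1172.HR.main_lines k p hp hlines
  exact Pool.Agent.V1172.HR.squares hd p A C hA hC hAC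

end Pool.Agent.S04349
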