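import Pool.Statements.S04415
import Pool.Agent.V11110.GL11

set_option autoImplicit false
open scoped TensorProduct
open Pool Pool.MP_3d22c5_an

namespace Pool.Agent.S04415

/-- If the rational 2-step nilpotent Lie algebra of a finite graph has an automorphism with integral char poly, constant term ±1 and no eigenvalue of modulus 1, then so does every rational Lie algebra whose real form is isomorphic to its real form. -/
theorem result :
    ∀ (n : ℕ) (G : SimpleGraph (Fin n)) (N : Type) [LieRing N] [LieAlgebra ℚ N]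
      [FiniteDimensional ℚ N] (b : Module.Basis (Fin n ⊕ G.edgeSet) ℚ N),
      (∀ (i j : Fin n) (h : G.Adj i j), i < j →
          ⁅b (Sum.inl i), b (Sum.inl j)⁆ = b (Sum.inr ⟨s(i, j), G.mem_edgeSet.mpr h⟩)) →
      (∀ i j : Fin n, ¬ G.Adj i j → ⁅b (Sum.inl i), b (Sum.inl j)⁆ = 0) →
      (∀ (e : G.edgeSet) (k : Fin n ⊕ G.edgeSet), ⁅b (Sum.inr e), b k⁆ = 0) →
      (∃ f : N ≃ₗ⁅ℚ⁆ N, ∃ p : Polynomial ℤ,
          p.map (Int.castRingHom ℚ) = LinearMap.charpoly f.toLinearEquiv.toLinearMap ∧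
          (p.coeff 0 = 1 ∨ p.coeff 0 = -1) ∧
          ∀ z : ℂ, (p.map (Int.castRingHom ℂ)).IsRoot z → ‖z‖ ≠ 1) →
      ∀ (M : Type) [LieRing M] [LieAlgebra ℚ M] [FiniteDimensional ℚ M],
        Nonempty ((ℝ ⊗[ℚ] M) ≃ₗ⁅ℝ⁆ (ℝ ⊗[ℚ] N)) →
        ∃ g : M ≃ₗ⁅ℚ⁆ M, ∃ q : Polynomial ℤ,
          q.map (Int.castRingHom ℚ) = LinearMap.charpoly g.toLinearEquiv.toLinearMap ∧
          (q.coeff 0 = 1 ∨ q.coeff 0 = -1) ∧
          ∀ z : ℂ, (q.map (Int.castRingHom ℂ)).IsRoot z → ‖z‖ ≠ 1 := by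
  intro n G N _ _ _ b hb1 hb2 hb3 hf M _ _ _ hφ
  obtain ⟨f, p, hp, hp0, hroot⟩ := hf
  obtain ⟨φ⟩ := hφ
  have hb : Pool.Agent.V11110.GL.GraphBasis b := ⟨hb1, hb2, hb3⟩
  have hmonic : p.Monic := by
    have h1 : (p.map (Int.castRingHom ℚ)).Monic := by
      rw [hp]; exact LinearMap.charpoly_monic _
    exact (Function.Injective.monic_map_iff (RingHom.injective_int _)).mpr h1
  have haev : Polynomial.aeval (f.toLinearEquiv.toLinearMap : Module.End ℚ N)
      (p.map (Int.castRingHom ℚ)) = 0 := by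
    rw [hp]; exact LinearMap.aeval_self_charpoly _
  have hG := Pool.Agent.V11110.GL.graph_of_anosov hb
    (f.toLinearEquiv.toLinearMap : Module.End ℚ N)
    (f.symm.toLinearEquiv.toLinearMap : Module.End ℚ N)
    (fun x y => f.map_lie x y) (fun x y => f.symm.map_lie x y)
    (by ext x; exact f.symm_apply_apply x) (by ext x; exact f.apply_symm_apply x)
    p haev hmonic hp0 hroot
  obtain ⟨α, hα⟩ := Pool.Agent.V11110.GL.exists_MData hb φ
  exact Pool.Agent.V11110.GL.exists_hyperbolic hα hG.1 hG.2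

end Pool.Agent.S04415
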