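import Pool.Statements.S04503
import Pool.Agent.H352R4.CA.End

set_option autoImplicit false
open Filter Topology
open scoped ENNReal NNReal
open Pool Pool.MP_437602_an

namespace Pool.Agent.S04503

/-- For the (uniquely determined) continuous analytic capacity α(S)=sup over compact F⊆S and continuous f on ℂ, holomorphic off F, ∣f∣≤1, f(∞)=0, of ∣lim z f(z)∣: for compact K,E with α(K)=0, α(E\K)=α(E). -/
theorem result :
    ∀ α : Set ℂ → ℝ≥0∞,
      (∀ S : Set ℂ, α S =
        ⨆ (F : Set ℂ) (_ : IsCompact F) (_ : F ⊆ S) (f : ℂ → ℂ) (c : ℂ)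
          (_ : Continuous f ∧ DifferentiableOn ℂ f Fᶜ ∧ (∀ z, ‖f z‖ ≤ 1) ∧
                Tendsto f (cocompact ℂ) (𝓝 0) ∧
                Tendsto (fun z => z * f z) (cocompact ℂ) (𝓝 c)),
          ((‖c‖₊ : ℝ≥0) : ℝ≥0∞)) →
      ∀ K E : Set ℂ, IsCompact K → IsCompact E → α K = 0 → α (E \ K) = α E := by
  intro α hα K E hK hE h0
  -- the capacity of a compact set is a lower bound
  have low : ∀ S L : Set ℂ, IsCompact L → L ⊆ S →
      ENNReal.ofReal (Pool.Agent.H352R4.CA.alpha L) ≤ α S := by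
    intro S L hL hLS
    by_cases ht : α S = ⊤
    · rw [ht]; exact le_top
    rw [ENNReal.ofReal_le_iff_le_toReal ht]
    refine Real.sSup_le ?_ ENNReal.toReal_nonneg
    rintro c ⟨f, l, hf, hb, rfl⟩
    have h1 : ((‖l‖₊ : ℝ≥0) : ℝ≥0∞) ≤ α S := by
      rw [hα S]
      exact le_iSup_of_le L (le_iSup_of_le hL (le_iSup_of_le hLS (le_iSup_of_le f
        (le_iSup_of_le l (le_iSup_of_le ⟨hf.cont, hf.hol, hb, hf.zero, hf.lim⟩ le_rfl)))))
    have h2 := ENNReal.toReal_mono ht h1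
    simpa using h2
  have mono : ∀ S T : Set ℂ, S ⊆ T → α S ≤ α T := by
    intro S T hST
    rw [hα S]
    refine iSup_le fun F => iSup_le fun hF => iSup_le fun hFS => ?_
    refine iSup_le fun f => iSup_le fun c => iSup_le fun h => ?_
    rw [hα T]
    exact le_iSup_of_le F (le_iSup_of_le hF (le_iSup_of_le (hFS.trans hST) (le_iSup_of_le f
      (le_iSup_of_le c (le_iSup_of_le h le_rfl)))))
  have up : α E ≤ ENNReal.ofReal (Pool.Agent.H352R4.CA.alpha E) := by
    rw [hα E]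
    refine iSup_le fun F => iSup_le fun hF => iSup_le fun hFS => ?_
    refine iSup_le fun f => iSup_le fun c => iSup_le fun h => ?_
    have h1 : ‖c‖ ≤ Pool.Agent.H352R4.CA.alpha E := by
      refine le_csSup (Pool.Agent.H352R4.CA.alpha_bdd hE) ⟨f, c, ⟨h.1, ?_, h.2.2.2.2⟩, h.2.2.1, rfl⟩
      exact h.2.1.mono (Set.compl_subset_compl.2 hFS)
    rw [← ENNReal.ofReal_coe_nnreal]
    exact ENNReal.ofReal_le_ofReal (by simpa using h1)
  have hK0 : Pool.Agent.H352R4.CA.alpha K = 0 := by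
    have h1 := low K K hK subset_rfl
    rw [h0, nonpos_iff_eq_zero, ENNReal.ofReal_eq_zero] at h1
    exact le_antisymm h1 (Pool.Agent.H352R4.CA.alpha_nonneg K)
  have hrem := Pool.Agent.H352R4.CA.alpha_remove hE hK hK0
  apply le_antisymm (mono _ _ Set.sdiff_subset)
  have hfin : α (E \ K) ≠ ⊤ :=
    ne_top_of_le_ne_top ENNReal.ofReal_ne_top ((mono _ _ Set.sdiff_subset).trans up)
  refine up.trans ?_
  rw [ENNReal.ofReal_le_iff_le_toReal hfin, ← hrem]
  refine Real.sSup_le ?_ ENNReal.toReal_nonneg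
  rintro c ⟨L, hL, hLE, rfl⟩
  have := low (E \ K) L hL hLE
  rwa [ENNReal.ofReal_le_iff_le_toReal hfin] at this

end Pool.Agent.S04503
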