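import Pool.Statements.S04554
-- import your own Pool.Agent.* helpers here
import Pool.Agent.V11105.IetTower

set_option autoImplicit false
open Pool Pool.MP_483d01_an

namespace Pool.Agent.S04554

/-- The permutation whose image order is `1, 3, 0, 2`. -/
def perm : Equiv.Perm (Fin 4) where
  toFun := ![2, 0, 3, 1]
  invFun := ![1, 3, 0, 2]
  left_inv := by decide
  right_inv := by decide

/-- The exchange of four intervals of lengths `v` for the permutation `perm`. -/
noncomputable def mp (v : Fin 4 → ℝ) (x : ℝ) : ℝ := x + ∑ j : Fin 4,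
          (Set.Ico (∑ i ∈ (Finset.univ : Finset (Fin 4)).filter (fun i : Fin 4 => i < j), v i)
             ((∑ i ∈ (Finset.univ : Finset (Fin 4)).filter (fun i : Fin 4 => i < j), v i) + v j)).indicator
            (fun _ : ℝ => (∑ i ∈ (Finset.univ : Finset (Fin 4)).filter (fun i : Fin 4 => perm i < perm j), v i) -
                      ∑ i ∈ (Finset.univ : Finset (Fin 4)).filter (fun i : Fin 4 => i < j), v i) x

lemma measurable_mp (v : Fin 4 → ℝ) : Measurable (mp v) := by
  unfold mp
  refine measurable_id.add (Finset.measurable_sum _ fun j _ => ?_)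
  exact measurable_const.indicator measurableSet_Ico

lemma mp_eq (v : Fin 4 → ℝ) (x : ℝ) : mp v x = x
    + ((Set.Ico 0 (v 0)).indicator (fun _ => v 1 + v 3) x
    + (Set.Ico (v 0) (v 0 + v 1)).indicator (fun _ => - v 0) x
    + (Set.Ico (v 0 + v 1) (v 0 + v 1 + v 2)).indicator (fun _ => v 3) x
    + (Set.Ico (v 0 + v 1 + v 2) (v 0 + v 1 + v 2 + v 3)).indicator (fun _ => - (v 0 + v 2)) x) := by
  have s0 : ((Finset.univ : Finset (Fin 4)).filter (fun i : Fin 4 => i < 0)) = ∅ := by decide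
  have s1 : ((Finset.univ : Finset (Fin 4)).filter (fun i : Fin 4 => i < 1)) = {0} := by decide
  have s2 : ((Finset.univ : Finset (Fin 4)).filter (fun i : Fin 4 => i < 2)) = {0, 1} := by decide
  have s3 : ((Finset.univ : Finset (Fin 4)).filter (fun i : Fin 4 => i < 3)) = {0, 1, 2} := by decide
  have r0 : ((Finset.univ : Finset (Fin 4)).filter (fun i : Fin 4 => perm i < perm 0)) = {1, 3} := by decide
  have r1 : ((Finset.univ : Finset (Fin 4)).filter (fun i : Fin 4 => perm i < perm 1)) = ∅ := by decide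
  have r2 : ((Finset.univ : Finset (Fin 4)).filter (fun i : Fin 4 => perm i < perm 2)) = {0, 1, 3} := by decide
  have r3 : ((Finset.univ : Finset (Fin 4)).filter (fun i : Fin 4 => perm i < perm 3)) = {1} := by decide
  have t1 : ∑ i ∈ ({0} : Finset (Fin 4)), v i = v 0 := by simp
  have t2 : ∑ i ∈ ({0, 1} : Finset (Fin 4)), v i = v 0 + v 1 := by
    rw [Finset.sum_pair (by decide)]
  have t3 : ∑ i ∈ ({0, 1, 2} : Finset (Fin 4)), v i = v 0 + v 1 + v 2 := by
    rw [Finset.sum_insert (by decide), Finset.sum_pair (by decide)]; ring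
  have u0 : ∑ i ∈ ({1, 3} : Finset (Fin 4)), v i = v 1 + v 3 := by
    rw [Finset.sum_pair (by decide)]
  have u2 : ∑ i ∈ ({0, 1, 3} : Finset (Fin 4)), v i = v 0 + v 1 + v 3 := by
    rw [Finset.sum_insert (by decide), Finset.sum_pair (by decide)]; ring
  have u3 : ∑ i ∈ ({1} : Finset (Fin 4)), v i = v 1 := by simp
  unfold mp
  rw [Fin.sum_univ_four, s0, s1, s2, s3, r0, r1, r2, r3, t1, t2, t3, u0, u2, u3, Finset.sum_empty]
  have w1 : (0 : ℝ) - v 0 = - v 0 := by ring
  have w2 : v 0 + v 1 + v 3 - (v 0 + v 1) = v 3 := by ring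
  have w3 : v 1 - (v 0 + v 1 + v 2) = - (v 0 + v 2) := by ring
  rw [zero_add, sub_zero, w1, w2, w3]

lemma mp_zero (v : Fin 4 → ℝ) (hv : ∀ i, 0 < v i) (x : ℝ) (h0 : 0 ≤ x) (h1 : x < v 0) :
    mp v x = x + (v 1 + v 3) := by
  have := hv 0; have := hv 1; have := hv 2; have := hv 3
  rw [mp_eq, Set.indicator_of_mem (show x ∈ Set.Ico 0 (v 0) from ⟨h0, h1⟩),
      Set.indicator_of_notMem (fun h : x ∈ Set.Ico (v 0) (v 0 + v 1) => by linarith [h.1]),
      Set.indicator_of_notMem (fun h : x ∈ Set.Ico (v 0 + v 1) (v 0 + v 1 + v 2) => by linarith [h.1]),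
      Set.indicator_of_notMem (fun h : x ∈ Set.Ico (v 0 + v 1 + v 2) (v 0 + v 1 + v 2 + v 3) => by
        linarith [h.1])]
  ring

lemma mp_one (v : Fin 4 → ℝ) (hv : ∀ i, 0 < v i) (x : ℝ) (h0 : v 0 ≤ x) (h1 : x < v 0 + v 1) :
    mp v x = x - v 0 := by
  have := hv 0; have := hv 1; have := hv 2; have := hv 3
  rw [mp_eq, Set.indicator_of_notMem (fun h : x ∈ Set.Ico 0 (v 0) => by linarith [h.2]),
      Set.indicator_of_mem (show x ∈ Set.Ico (v 0) (v 0 + v 1) from ⟨h0, h1⟩),
      Set.indicator_of_notMem (fun h : x ∈ Set.Ico (v 0 + v 1) (v 0 + v 1 + v 2) => by linarith [h.1]),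
      Set.indicator_of_notMem (fun h : x ∈ Set.Ico (v 0 + v 1 + v 2) (v 0 + v 1 + v 2 + v 3) => by
        linarith [h.1])]
  ring

lemma mp_two (v : Fin 4 → ℝ) (hv : ∀ i, 0 < v i) (x : ℝ) (h0 : v 0 + v 1 ≤ x)
    (h1 : x < v 0 + v 1 + v 2) : mp v x = x + v 3 := by
  have := hv 0; have := hv 1; have := hv 2; have := hv 3
  rw [mp_eq, Set.indicator_of_notMem (fun h : x ∈ Set.Ico 0 (v 0) => by linarith [h.2]),
      Set.indicator_of_notMem (fun h : x ∈ Set.Ico (v 0) (v 0 + v 1) => by linarith [h.2]),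
      Set.indicator_of_mem (show x ∈ Set.Ico (v 0 + v 1) (v 0 + v 1 + v 2) from ⟨h0, h1⟩),
      Set.indicator_of_notMem (fun h : x ∈ Set.Ico (v 0 + v 1 + v 2) (v 0 + v 1 + v 2 + v 3) => by
        linarith [h.1])]
  ring

lemma mp_three (v : Fin 4 → ℝ) (hv : ∀ i, 0 < v i) (x : ℝ) (h0 : v 0 + v 1 + v 2 ≤ x)
    (h1 : x < v 0 + v 1 + v 2 + v 3) : mp v x = x - (v 0 + v 2) := by
  have := hv 0; have := hv 1; have := hv 2; have := hv 3
  rw [mp_eq, Set.indicator_of_notMem (fun h : x ∈ Set.Ico 0 (v 0) => by linarith [h.2]),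
      Set.indicator_of_notMem (fun h : x ∈ Set.Ico (v 0) (v 0 + v 1) => by linarith [h.2]),
      Set.indicator_of_notMem (fun h : x ∈ Set.Ico (v 0 + v 1) (v 0 + v 1 + v 2) => by linarith [h.2]),
      Set.indicator_of_mem (show x ∈ Set.Ico (v 0 + v 1 + v 2) (v 0 + v 1 + v 2 + v 3) from ⟨h0, h1⟩)]
  ring

/-- The frozen form of unique ergodicity, for the permutation `perm`. -/
def UErg (v : Fin 4 → ℝ) : Prop := ∃! μ : MeasureTheory.Measure ℝ,
        MeasureTheory.IsProbabilityMeasure μ ∧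
        μ ((Set.Ico (0 : ℝ) (∑ i : Fin 4, v i))ᶜ) = 0 ∧
        MeasureTheory.Measure.map (mp v) μ = μ

lemma not_uerg (p q t : ℝ) (hp : 0 < p) (hq : 0 < q) (hpq : p + q = 1) (ht : 0 < t) :
    ¬ UErg ![p + t, p, q, q + t] := by
  intro h
  set v : Fin 4 → ℝ := ![p + t, p, q, q + t] with hv
  have v0 : v 0 = p + t := rfl
  have v1 : v 1 = p := rfl
  have v2 : v 2 = q := rfl
  have v3 : v 3 = q + t := rfl
  have hsum : ∑ i : Fin 4, v i = 2 + 2 * t := by
    rw [Fin.sum_univ_four, v0, v1, v2, v3]; linarith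
  have hvpos : ∀ i, 0 < v i := by
    intro i
    fin_cases i
    · show 0 < p + t
      linarith
    · exact hp
    · exact hq
    · show 0 < q + t
      linarith
  have hm1 : ∀ x, p ≤ x → x < p + t → mp v x = x + 1 + t := by
    intro x hx hx'
    rw [mp_zero v hvpos x (by linarith) (by rw [v0]; exact hx'), v1, v3]
    linarith
  have hm2 : ∀ x, p ≤ x → x < p + t → mp v (x + 1 + t) = x := by
    intro x hx hx'
    rw [mp_three v hvpos (x + 1 + t) (by rw [v0, v1, v2]; linarith)
      (by rw [v0, v1, v2, v3]; linarith), v0, v2]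
    linarith
  have key : ∀ x, p ≤ x → x < p + t →
      (MeasureTheory.IsProbabilityMeasure ((2 : ENNReal)⁻¹ • MeasureTheory.Measure.dirac x
        + (2 : ENNReal)⁻¹ • MeasureTheory.Measure.dirac (x + 1 + t)) ∧
      ((2 : ENNReal)⁻¹ • MeasureTheory.Measure.dirac x
        + (2 : ENNReal)⁻¹ • MeasureTheory.Measure.dirac (x + 1 + t)) ((Set.Ico (0 : ℝ) (∑ i : Fin 4, v i))ᶜ) = 0 ∧
      MeasureTheory.Measure.map (mp v) ((2 : ENNReal)⁻¹ • MeasureTheory.Measure.dirac x
        + (2 : ENNReal)⁻¹ • MeasureTheory.Measure.dirac (x + 1 + t)) =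
        ((2 : ENNReal)⁻¹ • MeasureTheory.Measure.dirac x
        + (2 : ENNReal)⁻¹ • MeasureTheory.Measure.dirac (x + 1 + t))) := by
    intro x hx hx'
    refine ⟨⟨?_⟩, ?_, ?_⟩
    · simp [ENNReal.inv_two_add_inv_two]
    · rw [hsum, MeasureTheory.Measure.add_apply, MeasureTheory.Measure.smul_apply,
        MeasureTheory.Measure.smul_apply,
        MeasureTheory.Measure.dirac_apply' _ measurableSet_Ico.compl,
        MeasureTheory.Measure.dirac_apply' _ measurableSet_Ico.compl,
        Set.indicator_of_notMem (fun h : x ∈ (Set.Ico 0 (2 + 2 * t))ᶜ =>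
          h ⟨by linarith, by linarith⟩),
        Set.indicator_of_notMem (fun h : x + 1 + t ∈ (Set.Ico 0 (2 + 2 * t))ᶜ =>
          h ⟨by linarith, by linarith⟩)]
      simp
    · rw [MeasureTheory.Measure.map_add _ _ (measurable_mp v), MeasureTheory.Measure.map_smul,
        MeasureTheory.Measure.map_smul, MeasureTheory.Measure.map_dirac' (measurable_mp v),
        MeasureTheory.Measure.map_dirac' (measurable_mp v), hm1 x hx hx', hm2 x hx hx', add_comm]
  have heq := h.unique (key p le_rfl (by linarith)) (key (p + t / 2) (by linarith) (by linarith))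
  have h2 := congrArg (fun μ : MeasureTheory.Measure ℝ => μ {p}) heq
  simp only [MeasureTheory.Measure.add_apply, MeasureTheory.Measure.smul_apply,
    MeasureTheory.Measure.dirac_apply' _ (measurableSet_singleton p)] at h2
  rw [Set.indicator_of_mem (Set.mem_singleton p),
    Set.indicator_of_notMem (fun h => by
      have h' : p + 1 + t = p := h
      linarith),
    Set.indicator_of_notMem (fun h => by
      have h' : p + t / 2 = p := h
      linarith),
    Set.indicator_of_notMem (fun h => by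
      have h' : p + t / 2 + 1 + t = p := h
      linarith)] at h2
  simp at h2

lemma uerg (p q : ℝ) (hp : 0 < p) (hq : 0 < q) (hpq : p + q = 1) (hirr : Irrational q) :
    UErg ![p, p, q, q] := by
  set v : Fin 4 → ℝ := ![p, p, q, q] with hv
  have v0 : v 0 = p := rfl
  have v1 : v 1 = p := rfl
  have v2 : v 2 = q := rfl
  have v3 : v 3 = q := rfl
  have hsum : ∑ i : Fin 4, v i = 2 := by
    rw [Fin.sum_univ_four, v0, v1, v2, v3]; linarith
  unfold UErg
  rw [hsum]
  have hvpos : ∀ i, 0 < v i := by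
    intro i
    fin_cases i
    · exact hp
    · exact hp
    · exact hq
    · exact hq
  refine Pool.Agent.V11105.IetTower.unique_invariant p q hp hq hpq hirr (mp v) (measurable_mp v)
    ?_ ?_ ?_ ?_
  · intro x hx hx'
    rw [mp_zero v hvpos x hx hx', v1, v3]
    linarith
  · intro x hx hx'
    rw [mp_one v hvpos x hx (by rw [v0, v1]; linarith), v0]
  · intro x hx hx'
    rw [mp_two v hvpos x (by rw [v0, v1]; linarith) (by rw [v0, v1, v2]; linarith), v3]
  · intro x hx hx'
    rw [mp_three v hvpos x (by rw [v0, v1, v2]; linarith) (by rw [v0, v1, v2, v3]; linarith), v0, v2]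
    linarith

/-- The negation of the preceding statement: For any permutation and any positive length vector a whose interval exchange has a unique invariant probability measure, and any direction b, there is ε>0 such that for almost every t in (−ε,ε) the lengths a+tb are again uniquely ergodic. -/
theorem result :
    ¬ (∀ (d : ℕ) (π : Equiv.Perm (Fin d)) (UE : (Fin d → ℝ) → Prop),
    (∀ v : Fin d → ℝ, UE v ↔ ∃! μ : MeasureTheory.Measure ℝ,
        MeasureTheory.IsProbabilityMeasure μ ∧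
        μ ((Set.Ico (0 : ℝ) (∑ i : Fin d, v i))ᶜ) = 0 ∧
        MeasureTheory.Measure.map (fun x : ℝ => x + ∑ j : Fin d,
          (Set.Ico (∑ i ∈ (Finset.univ : Finset (Fin d)).filter (fun i : Fin d => i < j), v i)
             ((∑ i ∈ (Finset.univ : Finset (Fin d)).filter (fun i : Fin d => i < j), v i) + v j)).indicator
            (fun _ : ℝ => (∑ i ∈ (Finset.univ : Finset (Fin d)).filter (fun i : Fin d => π i < π j), v i) -
                      ∑ i ∈ (Finset.univ : Finset (Fin d)).filter (fun i : Fin d => i < j), v i) x) μ = μ) →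
    ∀ a b : Fin d → ℝ, (∀ i, 0 < a i) → UE a →
      ∃ ε : ℝ, 0 < ε ∧
        ∀ᵐ t : ℝ ∂(MeasureTheory.volume.restrict (Set.Ioo (-ε) ε)), UE (a + t • b)) := by
  intro H
  have hirr : Irrational (Real.sqrt 2 - 1) := by
    have := irrational_sqrt_two.sub_intCast 1
    simpa using this
  have hq0 : 0 < Real.sqrt 2 - 1 := by
    have : (1 : ℝ) < Real.sqrt 2 := by
      rw [Real.lt_sqrt (by norm_num)]; norm_num
    linarith
  have hq1 : Real.sqrt 2 - 1 < 1 := by
    have : Real.sqrt 2 < 2 := by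
      rw [Real.sqrt_lt' (by norm_num)]; norm_num
    linarith
  obtain ⟨q, hq⟩ : ∃ q : ℝ, q = Real.sqrt 2 - 1 := ⟨_, rfl⟩
  rw [← hq] at hirr hq0 hq1
  obtain ⟨p, hp⟩ : ∃ p : ℝ, p = 1 - q := ⟨_, rfl⟩
  have hp0 : 0 < p := by linarith
  have hpq : p + q = 1 := by linarith
  obtain ⟨ε, hε, hae⟩ := H 4 perm UErg (fun v => Iff.rfl) ![p, p, q, q] ![1, 0, 0, 1]
    (by
      intro i
      fin_cases i
      · exact hp0
      · exact hp0
      · exact hq0
      · exact hq0) (uerg p q hp0 hq0 hpq hirr)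
  have hae2 : ∀ᵐ t : ℝ ∂(MeasureTheory.volume.restrict (Set.Ioo 0 ε)),
      UErg (![p, p, q, q] + t • ![1, 0, 0, 1]) :=
    MeasureTheory.ae_mono (MeasureTheory.Measure.restrict_mono
      (Set.Ioo_subset_Ioo (by linarith) le_rfl) le_rfl) hae
  have hae3 : ∀ᵐ t : ℝ ∂(MeasureTheory.volume.restrict (Set.Ioo 0 ε)), False := by
    filter_upwards [hae2, MeasureTheory.ae_restrict_mem measurableSet_Ioo] with t ht ht'
    refine not_uerg p q t hp0 hq0 hpq ht'.1 ?_
    have e : (![p, p, q, q] + t • ![1, 0, 0, 1] : Fin 4 → ℝ) = ![p + t, p, q, q + t] := by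
      ext i
      fin_cases i <;> simp
    rw [← e]
    exact ht
  rw [Filter.eventually_false_iff_eq_bot, MeasureTheory.ae_eq_bot,
    MeasureTheory.Measure.restrict_eq_zero, Real.volume_Ioo] at hae3
  simp at hae3
  linarith

end Pool.Agent.S04554
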