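import Pool.Statements.S04575
import Pool.Agent.V11100.Complete

set_option autoImplicit false
open Pool Pool.MP_49bdf6_an

namespace Pool.Agent.S04575

/-- Over ℝ or ℂ, in every separable Banach space, every strictly bounded minimal sequence extends, by adding countably many vectors, to a minimal, strictly bounded sequence whose closed linear span is the whole space. -/
theorem result :
    ∀ (𝕜 : Type) [RCLike 𝕜] (E : Type) [NormedAddCommGroup E] [NormedSpace 𝕜 E]
      [CompleteSpace E] [TopologicalSpace.SeparableSpace E] (x : ℕ → E),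
      (∃ (C D : ℝ) (f : ℕ → (E →L[𝕜] 𝕜)),
        (∀ i j : ℕ, (i = j → f i (x j) = 1) ∧ (i ≠ j → f i (x j) = 0)) ∧
        (∀ n : ℕ, ‖x n‖ ≤ C ∧ ‖f n‖ ≤ D)) →
      ∃ (ι : Type) (_ : Countable ι) (y : ι → E) (C D : ℝ) (g : ℕ ⊕ ι → (E →L[𝕜] 𝕜)),
        (∀ i j : ℕ ⊕ ι, (i = j → g i (Sum.elim x y j) = 1) ∧
            (i ≠ j → g i (Sum.elim x y j) = 0)) ∧
        (∀ i : ℕ ⊕ ι, ‖Sum.elim x y i‖ ≤ C ∧ ‖g i‖ ≤ D) ∧
        (Submodule.span 𝕜 (Set.range (Sum.elim x y))).topologicalClosure = ⊤ := by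
  intro 𝕜 _ E _ _ _ _ x h
  obtain ⟨C, D, f, hb, hbd⟩ := h
  have hb' : ∀ i j, f i (x j) = if i = j then 1 else 0 := by
    intro i j
    by_cases hij : i = j
    · rw [if_pos hij]; exact (hb i j).1 hij
    · rw [if_neg hij]; exact (hb i j).2 hij
  exact Pool.Agent.V11100.complete_extension x f hb' (fun n => (hbd n).1) (fun n => (hbd n).2)

end Pool.Agent.S04575
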