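import Pool.Statements.S04624
-- import your own Pool.Agent.* helpers here

set_option autoImplicit false
open MeasureTheory
open Pool Pool.MP_4d58d7_an

namespace Pool.Agent.S04624


/-- The random matrix `[b I | (1/10) (1, σ)ᵀ]`. -/
noncomputable def om (b s : ℝ) : Fin 2 → Fin 3 → ℝ := ![![b, 0, 1/10], ![0, b, s/10]]

/-- The law of the random matrix. -/
noncomputable def law : Measure (Fin 2 → Fin 3 → ℝ) :=
  ENNReal.ofReal (99/200) • Measure.dirac (om 1 1) +
  (ENNReal.ofReal (99/200) • Measure.dirac (om 1 (-1)) +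
  (ENNReal.ofReal (1/200) • Measure.dirac (om 0 1) +
   ENNReal.ofReal (1/200) • Measure.dirac (om 0 (-1))))

lemma law_apply (s : Set (Fin 2 → Fin 3 → ℝ)) :
    law s = ENNReal.ofReal (99/200) * s.indicator 1 (om 1 1) +
      (ENNReal.ofReal (99/200) * s.indicator 1 (om 1 (-1)) +
      (ENNReal.ofReal (1/200) * s.indicator 1 (om 0 1) +
       ENNReal.ofReal (1/200) * s.indicator 1 (om 0 (-1)))) := by
  simp [law, Measure.dirac_apply]

instance : IsProbabilityMeasure law := by
  constructor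
  rw [law_apply]
  simp only [Set.indicator_univ, Pi.one_apply, mul_one]
  rw [← ENNReal.ofReal_add (by norm_num) (by norm_num),
    ← ENNReal.ofReal_add (by norm_num) (by norm_num),
    ← ENNReal.ofReal_add (by norm_num) (by norm_num)]
  norm_num

lemma integrable_sd (f : (Fin 2 → Fin 3 → ℝ) → ℝ) (c : ℝ) (a : Fin 2 → Fin 3 → ℝ) :
    Integrable f (ENNReal.ofReal c • Measure.dirac a) :=
  (integrable_dirac (by simp)).smul_measure ENNReal.ofReal_ne_top

lemma integral_law (f : (Fin 2 → Fin 3 → ℝ) → ℝ) :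
    ∫ ω, f ω ∂law = 99/200 * f (om 1 1) + (99/200 * f (om 1 (-1)) +
      (1/200 * f (om 0 1) + 1/200 * f (om 0 (-1)))) := by
  unfold law
  rw [integral_add_measure (integrable_sd _ _ _)
      ((integrable_sd _ _ _).add_measure ((integrable_sd _ _ _).add_measure (integrable_sd _ _ _))),
    integral_add_measure (integrable_sd _ _ _)
      ((integrable_sd _ _ _).add_measure (integrable_sd _ _ _)),
    integral_add_measure (integrable_sd _ _ _) (integrable_sd _ _ _)]
  simp only [integral_smul_measure, integral_dirac]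
  rw [ENNReal.toReal_ofReal (by norm_num), ENNReal.toReal_ofReal (by norm_num)]
  simp only [smul_eq_mul]

lemma isotropy (x : Fin 2 → ℝ) :
    ∫ ω, (∑ j, (∑ i, ω i j * x i) ^ 2) ∂law = ∑ i, x i ^ 2 := by
  rw [integral_law]
  simp only [om, Fin.sum_univ_three, Fin.sum_univ_two]
  simp
  ring

lemma lower (s : ℝ) (x : Fin 2 → ℝ) {ε : ℝ} (hε : 0 < ε) :
    (1 - ε) * ∑ i, x i ^ 2 ≤ ∑ j, (∑ i, om 1 s i j * x i) ^ 2 := by
  simp only [om, Fin.sum_univ_three, Fin.sum_univ_two]
  simp
  nlinarith [sq_nonneg (x 0), sq_nonneg (x 1), sq_nonneg (10⁻¹ * x 0 + s / 10 * x 1)]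

/-- the matrix `A = e₁`. -/
def Am : Matrix (Fin 2) (Fin 1) ℝ := !![1; 0]
/-- the matrix `B = e₂`. -/
def Bm : Matrix (Fin 2) (Fin 1) ℝ := !![0; 1]

/-- the Moore-Penrose inverse of `Ωᵀ A`. -/
noncomputable def Gm (b : ℝ) : Matrix (Fin 1) (Fin 3) ℝ :=
  !![b / (b^2 + 1/100), 0, (1/10) / (b^2 + 1/100)]

lemma OA (b s : ℝ) : Matrix.transpose (Matrix.of (om b s)) * Am = !![b; 0; 1/10] := by
  ext i j
  fin_cases i <;> fin_cases j <;>
    simp [Matrix.mul_apply, om, Am, Fin.sum_univ_two]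

lemma OB (b s : ℝ) : Matrix.transpose (Matrix.of (om b s)) * Bm = !![0; b; s/10] := by
  ext i j
  fin_cases i <;> fin_cases j <;>
    simp [Matrix.mul_apply, om, Bm, Fin.sum_univ_two]

lemma bad (b s : ℝ) (hb : b = 1 ∨ b = 0) (hs : s = 1 ∨ s = -1) (C ε : ℝ)
    (hC : C * ε ≤ 1/30000) :
    om b s ∉ {ω : Fin 2 → Fin 3 → ℝ | ∀ G : Matrix (Fin 1) (Fin 3) ℝ,
          (Matrix.transpose (Matrix.of ω) * Am) * G * (Matrix.transpose (Matrix.of ω) * Am)
              = Matrix.transpose (Matrix.of ω) * Am →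
          G * (Matrix.transpose (Matrix.of ω) * Am) * G = G →
          Matrix.transpose ((Matrix.transpose (Matrix.of ω) * Am) * G)
              = (Matrix.transpose (Matrix.of ω) * Am) * G →
          Matrix.transpose (G * (Matrix.transpose (Matrix.of ω) * Am))
              = G * (Matrix.transpose (Matrix.of ω) * Am) →
          ∀ X : Matrix (Fin 1) (Fin 1) ℝ,
            Real.sqrt (∑ i, ∑ j, ((Am * (G * Matrix.transpose (Matrix.of ω) * Bm) - Bm) i j) ^ 2) ≤
              (1 + C * ε) * Real.sqrt (∑ i, ∑ j, ((Am * X - Bm) i j) ^ 2)} := by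
  intro h
  change ∀ G : Matrix (Fin 1) (Fin 3) ℝ, _ at h
  have hpos : (0:ℝ) < b^2 + 1/100 := by positivity
  have hGv : Gm b * (!![b; 0; 1/10] : Matrix (Fin 3) (Fin 1) ℝ) = 1 := by
    ext i j
    fin_cases i; fin_cases j
    simp [Gm, Matrix.mul_apply, Fin.sum_univ_three]
    rcases hb with rfl | rfl <;> norm_num
  have h1 := h (Gm b)
  rw [OA] at h1
  have h2 := h1 (by rw [Matrix.mul_assoc, hGv, Matrix.mul_one]) (by rw [hGv, Matrix.one_mul]) ?_
    (by rw [hGv, Matrix.transpose_one]) 0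
  · rw [Matrix.mul_assoc, OB] at h2
    have e1 : (Gm b * (!![0; b; s/10] : Matrix (Fin 3) (Fin 1) ℝ)) =
        !![s * ((1/100) / (b^2+1/100))] := by
      ext i j
      fin_cases i; fin_cases j
      simp [Gm, Matrix.mul_apply, Fin.sum_univ_three]
      ring
    rw [e1] at h2
    simp only [Fin.sum_univ_two, Finset.univ_unique, Fin.default_eq_zero, Finset.sum_singleton,
      Matrix.sub_apply, Matrix.mul_apply, Am, Bm] at h2
    simp at h2
    have h3 : (1 + 1/30000 : ℝ) < Real.sqrt ((s * (100⁻¹ / (b ^ 2 + 100⁻¹))) ^ 2 + 1) := by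
      apply Real.lt_sqrt_of_sq_lt
      rcases hb with rfl | rfl <;> rcases hs with rfl | rfl <;> norm_num
    linarith
  · ext i j
    fin_cases i <;> fin_cases j <;>
      simp [Gm, Matrix.mul_apply, Matrix.transpose_apply] <;> ring

lemma rankA : Am.rank = 1 := by
  apply le_antisymm
  · simpa using Matrix.rank_le_width Am
  · have h : Matrix.transpose Am * Am = 1 := by
      ext i j
      fin_cases i; fin_cases j
      simp [Am, Matrix.mul_apply, Fin.sum_univ_two]
    have h2 := Matrix.rank_mul_le_right (Matrix.transpose Am) Am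
    rw [h, Matrix.rank_one] at h2
    simpa using h2

/-- The negation of the preceding statement: There are constants C and c₀>0 such that, for any isotropic n×k random matrix Ω that is a dimension-d OSI with injectivity 1−ε and failure 0.01, sketch-and-solve has error at most (1+Cε)·OPT with probability at least c₀. -/
theorem result :
    ¬ (∃ C : ℝ, ∃ c₀ : ℝ, 0 < c₀ ∧
    ∀ (n d p k : ℕ), 0 < n → 0 < d → 0 < p → 0 < k →
    ∀ ε : ℝ, 0 < ε → ε < 1 →
    ∀ (A : Matrix (Fin n) (Fin d) ℝ), A.rank = d →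
    ∀ (B : Matrix (Fin n) (Fin p) ℝ),
    ∀ (μ : Measure (Fin n → Fin k → ℝ)) [IsProbabilityMeasure μ],
      (∀ x : Fin n → ℝ, ∫ ω, (∑ j, (∑ i, ω i j * x i) ^ 2) ∂μ = ∑ i, x i ^ 2) →
      (∀ V : Submodule ℝ (Fin n → ℝ), Module.finrank ℝ V = d →
         ENNReal.ofReal (99 / 100) ≤
           μ {ω | ∀ x ∈ V, (1 - ε) * ∑ i, x i ^ 2 ≤ ∑ j, (∑ i, ω i j * x i) ^ 2}) →
      ENNReal.ofReal c₀ ≤ μ {ω | ∀ G : Matrix (Fin d) (Fin k) ℝ,
          (Matrix.transpose (Matrix.of ω) * A) * G * (Matrix.transpose (Matrix.of ω) * A)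
              = Matrix.transpose (Matrix.of ω) * A →
          G * (Matrix.transpose (Matrix.of ω) * A) * G = G →
          Matrix.transpose ((Matrix.transpose (Matrix.of ω) * A) * G)
              = (Matrix.transpose (Matrix.of ω) * A) * G →
          Matrix.transpose (G * (Matrix.transpose (Matrix.of ω) * A))
              = G * (Matrix.transpose (Matrix.of ω) * A) →
          ∀ X : Matrix (Fin d) (Fin p) ℝ,
            Real.sqrt (∑ i, ∑ j, ((A * (G * Matrix.transpose (Matrix.of ω) * B) - B) i j) ^ 2) ≤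
              (1 + C * ε) * Real.sqrt (∑ i, ∑ j, ((A * X - B) i j) ^ 2)}) := by
  rintro ⟨C, c₀, hc₀, h⟩
  set ε : ℝ := 1 / (30000 * (|C| + 1)) with hε
  have hC1 : (0:ℝ) < |C| + 1 := by positivity
  have hεpos : 0 < ε := by positivity
  have hεlt : ε < 1 := by
    rw [hε, div_lt_one (by positivity)]
    nlinarith [abs_nonneg C]
  have hCε : C * ε ≤ 1 / 30000 := by
    have : C ≤ |C| + 1 := by linarith [le_abs_self C]
    calc C * ε ≤ (|C| + 1) * ε := by gcongr
      _ = 1 / 30000 := by rw [hε]; field_simp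
  have h1 := h 2 1 1 3 (by norm_num) (by norm_num) (by norm_num) (by norm_num) ε hεpos hεlt
    Am rankA Bm law isotropy ?_
  · rw [law_apply] at h1
    rw [Set.indicator_of_notMem (bad 1 1 (by simp) (by simp) C ε hCε),
      Set.indicator_of_notMem (bad 1 (-1) (by simp) (by simp) C ε hCε),
      Set.indicator_of_notMem (bad 0 1 (by simp) (by simp) C ε hCε),
      Set.indicator_of_notMem (bad 0 (-1) (by simp) (by simp) C ε hCε)] at h1
    simp at h1
    linarith
  · intro V hV
    rw [law_apply]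
    have m1 : om 1 1 ∈ {ω : Fin 2 → Fin 3 → ℝ | ∀ x ∈ V,
        (1 - ε) * ∑ i, x i ^ 2 ≤ ∑ j, (∑ i, ω i j * x i) ^ 2} := fun x _ => lower 1 x hεpos
    have m2 : om 1 (-1) ∈ {ω : Fin 2 → Fin 3 → ℝ | ∀ x ∈ V,
        (1 - ε) * ∑ i, x i ^ 2 ≤ ∑ j, (∑ i, ω i j * x i) ^ 2} := fun x _ => lower (-1) x hεpos
    rw [Set.indicator_of_mem m1, Set.indicator_of_mem m2]
    simp only [Pi.one_apply, mul_one]
    rw [← add_assoc, ← ENNReal.ofReal_add (by norm_num) (by norm_num)]
    refine le_trans ?_ le_self_add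
    apply ENNReal.ofReal_le_ofReal
    norm_num

end Pool.Agent.S04624
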