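import Pool.Statements.S04683
import Pool.Agent.V1179.Uniq.Gauge
-- import your own Pool.Agent.* helpers here

set_option autoImplicit false
open Filter Topology
open scoped ENNReal
open Pool Pool.MP_535d13_an

namespace Pool.Agent.S04683

/-- For every gauge φ (increasing, φ(0)=0, positive, continuous at 0) with r/φ(r)→0, there is a closed set of uniqueness K⊆[0,1] on the circle whose set of absolutely normal points has positive φ-Hausdorff measure. -/
theorem result :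
    ∀ φ : ℝ → ℝ, MonotoneOn φ (Set.Ici 0) → φ 0 = 0 → (∀ r : ℝ, 0 < r → 0 < φ r) →
      Tendsto φ (𝓝[>] (0:ℝ)) (𝓝 0) →
      Tendsto (fun r : ℝ => r / φ r) (𝓝[>] (0:ℝ)) (𝓝 0) →
      ∃ K : Set ℝ, IsClosed K ∧ K ⊆ Set.Icc (0:ℝ) 1 ∧
        (∀ c : ℤ → ℂ,
          (∀ x : ℝ, (∀ m : ℤ, x + (m:ℝ) ∉ K) →
            Tendsto (fun N : ℕ => ∑ n ∈ Finset.Icc (-(N:ℤ)) (N:ℤ),
              c n * Complex.exp (2 * (Real.pi:ℂ) * Complex.I * (n:ℂ) * (x:ℂ))) atTop (𝓝 0)) →
          ∀ n : ℤ, c n = 0) ∧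
        0 < MeasureTheory.Measure.mkMetric (fun r : ℝ≥0∞ => ENNReal.ofReal (φ r.toReal))
          (K ∩ {x : ℝ | ∀ b : ℕ, 2 ≤ b → ∀ k : ℕ, ∀ w : Fin k → ℤ,
            (∀ j : Fin k, 0 ≤ w j ∧ w j < (b:ℤ)) →
            Tendsto (fun N : ℕ =>
              ((((Finset.range N).filter (fun i : ℕ =>
                ∀ j : Fin k, ⌊x * (b:ℝ) ^ (i + j.val + 1)⌋ % (b:ℤ) = w j)).card : ℝ) / (N:ℝ)))
              atTop (𝓝 (1 / (b:ℝ) ^ k))}) := by
  intro φ _ h0 hpos hφ hlim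
  obtain ⟨q, hq, hg1, hg2⟩ := V1179.Uniq.exists_q hpos hlim
  refine ⟨V1179.Uniq.KK q, V1179.Uniq.KK_closed q, fun x hx => ⟨hx.1, hx.2.1⟩, ?_, ?_⟩
  · intro c hc
    apply V1179.Uniq.uniq hq
    intro k j x hx
    have h1 := hc x (by
      intro m hm
      apply hm.2.2 k (j + 2 ^ q k * m)
      have h2 : (0 : ℝ) < 2 ^ q k := by positivity
      have h3 := (div_lt_iff₀ h2).1 hx.1
      have h4 := (lt_div_iff₀ h2).1 hx.2
      push_cast
      constructor
      · linarith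
      · linarith)
    refine h1.congr fun N => ?_
    unfold V1179.Uniq.SS
    apply Finset.sum_congr rfl
    intro n _
    congr 1
    unfold Pool.Agent.H493R3.ee
    congr 1
    push_cast
    ring
  · have h1 := V1179.Uniq.mu_good hq hg1
    have h2 := V1179.Uniq.hausdorff_pos h0 hpos hφ hq hg2
    have h3 := h2 (V1179.Uniq.KK q ∩ V1179.Uniq.AN)
    exact lt_of_lt_of_le one_pos (h1.trans h3)

end Pool.Agent.S04683
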