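import Pool.Statements.S04766
import Pool.Agent.V1199.HamC

set_option autoImplicit false
open Pool Pool.MP_5bf80f_an

namespace Pool.Agent.S04766

open Pool.Agent.V1199.Ham Filter Topology

/-- the increasing tuple of a decreasing list -/
def toFn (K : ℕ) (s : List ℕ) : Fin K → ℕ := fun i => s.getD (K - 1 - i.val) 0

lemma toFn_mono {K : ℕ} {s : List ℕ} (hs : s.length = K) (hd : Dec s) : StrictMono (toFn K s) := by
  intro i j hij
  have hi := i.2
  have hj := j.2
  have hij' : i.val < j.val := hij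
  unfold toFn
  rw [List.getD_eq_getElem s 0 (by omega : K - 1 - i.val < s.length),
    List.getD_eq_getElem s 0 (by omega : K - 1 - j.val < s.length)]
  exact (List.pairwise_iff_getElem.1 hd) (K - 1 - j.val) (K - 1 - i.val) (by omega) (by omega) (by omega)

lemma toFn_mem {K : ℕ} {s : List ℕ} (hs : s.length = K) (i : Fin K) : toFn K s i ∈ s := by
  have hi := i.2
  unfold toFn
  rw [List.getD_eq_getElem s 0 (by omega : K - 1 - i.val < s.length)]
  exact List.getElem_mem _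

lemma getD_eq (t s : List ℕ) (m m' n : ℕ) (h : n ≠ t.length) :
    (t ++ m :: s).getD n 0 = (t ++ m' :: s).getD n 0 := by
  induction t generalizing n with
  | nil =>
    cases n with
    | zero => exact absurd rfl h
    | succ n => simp
  | cons a t ih =>
    cases n with
    | zero => simp
    | succ n =>
      have := ih n (by simpa using h)
      simpa using this

lemma ham_le {K : ℕ} (t s : List ℕ) (m m' : ℕ) :
    hammingDist (toFn K (t ++ m :: s)) (toFn K (t ++ m' :: s)) ≤ 1 := by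
  unfold hammingDist
  rw [Finset.card_le_one]
  intro i hi j hj
  simp only [Finset.mem_filter, Finset.mem_univ, true_and] at hi hj
  have h1 : K - 1 - i.val = t.length := by
    by_contra h
    exact hi (getD_eq t s m m' _ h)
  have h2 : K - 1 - j.val = t.length := by
    by_contra h
    exact hj (getD_eq t s m m' _ h)
  have := i.2
  have := j.2
  apply Fin.ext
  omega

lemma card_first {k K : ℕ} (h : k ≤ K) {x : Fin K → ℕ} (hx : StrictMono x) :
    ((Finset.univ.filter (fun i : Fin K => i.val < k)).image x).card = k := by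
  rw [Finset.card_image_of_injective _ hx.injective]
  have h1 : (Finset.univ.filter (fun i : Fin K => i.val < k)) =
      (Finset.univ : Finset (Fin k)).map (Fin.castLEEmb h) := by
    ext i
    simp only [Finset.mem_filter, Finset.mem_univ, true_and, Finset.mem_map, Fin.castLEEmb_apply]
    constructor
    · intro hi
      exact ⟨⟨i.val, hi⟩, rfl⟩
    · rintro ⟨j, rfl⟩
      exact j.2
  rw [h1, Finset.card_map, Finset.card_univ, Fintype.card_fin]

/-- The negation of the preceding statement: For every real Banach space whose bidual modulo the canonical image is infinite-dimensional, there are ℓ≥1 and L>0 such that each [ℕ]^{ℓk} maps into X with distance at least half the symmetric difference of the first k entries and at most L times Hamming distance. -/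
theorem result :
    ¬ (∀ (X : Type) [NormedAddCommGroup X] [NormedSpace ℝ X] [CompleteSpace X],
    (∀ s : Finset ((X →L[ℝ] ℝ) →L[ℝ] ℝ), ∃ φ : (X →L[ℝ] ℝ) →L[ℝ] ℝ,
      φ ∉ Submodule.span ℝ
        ((↑s : Set ((X →L[ℝ] ℝ) →L[ℝ] ℝ)) ∪
          {ψ : (X →L[ℝ] ℝ) →L[ℝ] ℝ | ∃ x : X, ∀ g : X →L[ℝ] ℝ, ψ g = g x})) →
    ∃ ℓ : ℕ, 1 ≤ ℓ ∧ ∃ L : ℝ, 0 < L ∧ ∀ k : ℕ, ∃ f : (Fin (ℓ * k) → ℕ) → X,
      ∀ x y : Fin (ℓ * k) → ℕ, StrictMono x → StrictMono y →
        ((symmDiff ((Finset.univ.filter (fun i : Fin (ℓ * k) => i.val < k)).image x)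
            ((Finset.univ.filter (fun i : Fin (ℓ * k) => i.val < k)).image y)).card : ℝ) / 2
          ≤ ‖f x - f y‖ ∧
        ‖f x - f y‖ ≤ L * (hammingDist x y : ℝ)) := by
  intro hmain
  obtain ⟨ℓ, hℓ, L, hL, hall⟩ := hmain XX not_qr
  obtain ⟨C1, hC1⟩ : ∃ C1 : ℝ, C1 = 4 * L ^ 2 + 1 := ⟨_, rfl⟩
  have hC1p : 1 ≤ C1 := by rw [hC1]; nlinarith [sq_nonneg L]
  have hℓr : (1 : ℝ) ≤ ℓ := by exact_mod_cast hℓ
  obtain ⟨n, hn⟩ := exists_nat_gt (8 * ℓ * C1 + 24 * L * C1 * (ℓ : ℝ) ^ 2)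
  have hnpos : (1 : ℝ) ≤ n := by
    have h1 : (1 : ℝ) ≤ 8 * ℓ * C1 := by nlinarith
    have h2 : (0 : ℝ) ≤ 24 * L * C1 * (ℓ : ℝ) ^ 2 := by positivity
    linarith
  obtain ⟨k, hk⟩ : ∃ k : ℕ, k = n ^ 2 := ⟨_, rfl⟩
  have hex := hall k
  obtain ⟨K, hK⟩ : ∃ K : ℕ, K = ℓ * k := ⟨_, rfl⟩
  rw [← hK] at hex
  obtain ⟨f, hf⟩ := hex
  have hKr : (K : ℝ) = ℓ * (n : ℝ) ^ 2 := by rw [hK, hk]; push_cast; ring
  have hkr : (k : ℝ) = (n : ℝ) ^ 2 := by rw [hk]; push_cast; ring
  have hkK : k ≤ K := by rw [hK]; exact Nat.le_mul_of_pos_left k hℓ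
  -- the tree function
  let F : List ℕ → ℕ → HH := fun s => val (f (toFn K s))
  let U : Ultrafilter ℕ := hyperfilter ℕ
  have hU : (U : Filter ℕ) ≤ atTop := Nat.hyperfilter_le_atTop
  have hbd : ∃ R : ℝ, BdP R K F := by
    refine ⟨‖f (fun i : Fin K => i.val)‖ + L * K, fun s hs hd t => ?_⟩
    have h1 := (hf (toFn K s) (fun i : Fin K => i.val) (toFn_mono hs hd) (fun i j h => h)).2
    have h2 : (hammingDist (toFn K s) (fun i : Fin K => i.val) : ℝ) ≤ K := by
      have := hammingDist_le_card_fintype (x := toFn K s) (y := fun i : Fin K => i.val)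
      rw [Fintype.card_fin] at this
      exact_mod_cast this
    have h3 : ‖val (f (toFn K s)) t‖ ≤ ‖f (toFn K s)‖ := norm_val_le _ t
    have h4 : ‖f (toFn K s)‖ ≤ ‖f (toFn K s) - f (fun i : Fin K => i.val)‖ +
        ‖f (fun i : Fin K => i.val)‖ := by
      have := norm_add_le (f (toFn K s) - f (fun i : Fin K => i.val)) (f (fun i : Fin K => i.val))
      rwa [sub_add_cancel] at this
    have h5 : L * (hammingDist (toFn K s) (fun i : Fin K => i.val) : ℝ) ≤ L * K := by gcongr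
    change ‖val (f (toFn K s)) t‖ ≤ _
    linarith
  obtain ⟨R, hR⟩ := hbd
  have hlip : LipP L K F := by
    intro t s m m' hlen h1 h2
    have hlen' : (t ++ m' :: s).length = K := by simpa using hlen
    have h3 := (hf (toFn K (t ++ m :: s)) (toFn K (t ++ m' :: s)) (toFn_mono hlen h1)
      (toFn_mono hlen' h2)).2
    have h4 : (hammingDist (toFn K (t ++ m :: s)) (toFn K (t ++ m' :: s)) : ℝ) ≤ 1 := by
      exact_mod_cast ham_le (K := K) t s m m'
    have h5 : ‖f (toFn K (t ++ m :: s)) - f (toFn K (t ++ m' :: s))‖ ≤ L := by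
      refine h3.trans ?_
      calc L * (hammingDist (toFn K (t ++ m :: s)) (toFn K (t ++ m' :: s)) : ℝ) ≤ L * 1 := by gcongr
        _ = L := mul_one L
    have h6 : F (t ++ m :: s) - F (t ++ m' :: s) =
        val (f (toFn K (t ++ m :: s)) - f (toFn K (t ++ m' :: s))) := by
      rw [val_sub]
    rw [h6]
    exact ⟨fun S hS => (Q_val_le _ hS).trans (pow_le_pow_left₀ (norm_nonneg _) h5 2),
      fun τ => pow_le_pow_left₀ (norm_nonneg _) ((norm_val_le _ τ).trans h5) 2⟩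
  obtain ⟨B, hB⟩ : ∃ B : ℝ, B = 3 * C1 * n * ℓ := ⟨_, rfl⟩
  have hB0 : 0 ≤ B := by rw [hB]; positivity
  obtain ⟨C2, hC2⟩ : ∃ C2 : ℝ, C2 = 6 * K * C1 := ⟨_, rfl⟩
  obtain ⟨C3, hC3⟩ : ∃ C3 : ℝ, C3 = 4 * L ^ 2 + 8 * B * L + 1 := ⟨_, rfl⟩
  have hBB : C2 + K * C1 ≤ B ^ 2 := by
    rw [hC2, hB, hKr]
    have h1 : (ℓ : ℝ) * C1 ≤ (ℓ : ℝ) ^ 2 * C1 ^ 2 := by
      have : (1 : ℝ) ≤ ℓ * C1 := by nlinarith
      nlinarith
    have h2 : 0 ≤ (n : ℝ) ^ 2 * ((ℓ : ℝ) ^ 2 * C1 ^ 2 - ℓ * C1) := by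
      apply mul_nonneg (by positivity)
      linarith
    nlinarith [mul_nonneg (sq_nonneg (n : ℝ)) (mul_nonneg (by positivity : (0 : ℝ) ≤ (ℓ : ℝ) ^ 2) (sq_nonneg C1))]
  obtain ⟨s, s', hs, hs', hd, hd', hdisj, hsup, hvar⟩ :=
    Pool.Agent.V1199.Ham.main hU hR hlip hL.le hC1 hC2 hB0 hBB hC3
  have hx := toFn_mono hs hd
  have hy := toFn_mono hs' hd'
  have hlow := (hf _ _ hx hy).1
  -- the lower bound is `k`
  have hcard : ((symmDiff ((Finset.univ.filter (fun i : Fin K => i.val < k)).image (toFn K s))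
      ((Finset.univ.filter (fun i : Fin K => i.val < k)).image (toFn K s'))).card : ℝ) / 2 = k := by
    have hdj : Disjoint ((Finset.univ.filter (fun i : Fin K => i.val < k)).image (toFn K s))
        ((Finset.univ.filter (fun i : Fin K => i.val < k)).image (toFn K s')) := by
      rw [Finset.disjoint_left]
      intro a ha ha'
      obtain ⟨i, _, rfl⟩ := Finset.mem_image.1 ha
      obtain ⟨j, _, hj⟩ := Finset.mem_image.1 ha'
      exact hdisj _ (toFn_mem hs i) _ (toFn_mem hs' j) hj.symm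
    rw [hdj.symmDiff_eq_sup, Finset.sup_eq_union, Finset.card_union_of_disjoint hdj,
      card_first hkK hx, card_first hkK hy]
    push_cast
    ring
  rw [hcard] at hlow
  -- the upper bound
  have hC3p : 0 ≤ C3 := by rw [hC3]; positivity
  have hC2p : 0 ≤ C2 := by rw [hC2]; positivity
  have hup : ‖f (toFn K s) - f (toFn K s')‖ ≤ Real.sqrt (K * C3 + C2 + K * C1) := by
    have hnn : 0 ≤ K * C3 + C2 + K * C1 := by positivity
    refine norm_le_of (Real.sqrt_nonneg _) (fun S hS => ?_) (fun t => ?_)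
    · rw [Real.sq_sqrt hnn, val_sub]
      have h1 := hvar S hS
      have h2 : 0 ≤ K * C1 := by positivity
      change Q S (F s - F s') ≤ _
      linarith
    · rw [Real.sq_sqrt hnn, val_sub]
      have h1 := hsup t
      have h2 : 0 ≤ K * C3 := by positivity
      change ‖(F s - F s') t‖ ^ 2 ≤ _
      linarith
  have hfin : (k : ℝ) ^ 2 ≤ K * C3 + C2 + K * C1 := by
    have h1 : (k : ℝ) ≤ Real.sqrt (K * C3 + C2 + K * C1) := hlow.trans hup
    have h2 := pow_le_pow_left₀ (Nat.cast_nonneg k) h1 2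
    rwa [Real.sq_sqrt (by positivity)] at h2
  rw [hkr, hC2, hC3, hB, hKr] at hfin
  have h4 : (4 * L ^ 2 + 8 * (3 * C1 * n * ℓ) * L + 1 : ℝ) = C1 + 24 * C1 * n * ℓ * L := by
    rw [hC1]; ring
  rw [h4] at hfin
  have h5 : (n : ℝ) ^ 2 * ((n : ℝ) ^ 2 - (8 * ℓ * C1 + 24 * L * C1 * (ℓ : ℝ) ^ 2 * n)) ≤ 0 := by
    nlinarith
  have h6 : 0 < (n : ℝ) ^ 2 - (8 * ℓ * C1 + 24 * L * C1 * (ℓ : ℝ) ^ 2 * n) := by
    have h7 : 0 ≤ 8 * (ℓ : ℝ) * C1 := by positivity
    have h8 : 8 * (ℓ : ℝ) * C1 ≤ 8 * ℓ * C1 * n := by nlinarith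
    nlinarith
  have h7 : 0 < (n : ℝ) ^ 2 := by positivity
  nlinarith [mul_pos h7 h6]

end Pool.Agent.S04766
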