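import Pool.Statements.S04820
import Pool.Agent.V1179.Spec.CE

set_option autoImplicit false
open MeasureTheory Matrix
open scoped ENNReal Real
open Pool Pool.MP_5f557b_an

namespace Pool.Agent.S04820

/-- The negation of the preceding statement: For expanding integer R and simple digits B with 0 in B, 2 ≤ #B < ∣det R∣ and ℤ[R,B] = ℤ^d: if the self-affine measure has an orthonormal basis of exponentials, then some L in ℤ^d with #L = #B makes (R,B,L) a Hadamard triple. -/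
theorem result :
    ¬ (∀ (d : ℕ), 1 ≤ d → ∀ (R : Matrix (Fin d) (Fin d) ℤ) (B : Finset (Fin d → ℤ)),
    (∀ z : ℂ, (R.map (Int.cast : ℤ → ℂ)).charpoly.IsRoot z → 1 < ‖z‖) →
    (∀ b ∈ B, ∀ b' ∈ B, b ≠ b' → ¬ ∃ v : Fin d → ℤ, R *ᵥ v = b - b') →
    2 ≤ B.card → (B.card : ℤ) < |R.det| → (0 : Fin d → ℤ) ∈ B →
    AddSubgroup.closure {v : Fin d → ℤ | ∃ k : ℕ, ∃ b ∈ B, v = (R ^ k) *ᵥ b} = ⊤ →
    ∀ μ : Measure (Fin d → ℝ), IsProbabilityMeasure μ →
      μ = ((B.card : ℝ≥0∞)⁻¹) • ∑ b ∈ B,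
            μ.map (fun x => (R.map (Int.cast : ℤ → ℝ))⁻¹ *ᵥ (x + fun i => (b i : ℝ))) →
      (∃ Λ : Set (Fin d → ℝ),
        (∀ l ∈ Λ, ∀ l' ∈ Λ,
          (l = l' → ∫ x, Complex.exp (2 * π * Complex.I * ((∑ i, (l i - l' i) * x i : ℝ) : ℂ)) ∂μ = 1) ∧
          (l ≠ l' → ∫ x, Complex.exp (2 * π * Complex.I * ((∑ i, (l i - l' i) * x i : ℝ) : ℂ)) ∂μ = 0)) ∧
        (∀ f : (Fin d → ℝ) → ℂ, MemLp f 2 μ →
          (∀ l ∈ Λ, ∫ x, f x * Complex.exp (-(2 * π * Complex.I * ((∑ i, l i * x i : ℝ) : ℂ))) ∂μ = 0) →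
          f =ᵐ[μ] 0)) →
      ∃ L : Finset (Fin d → ℤ), L.card = B.card ∧
        ∀ l ∈ L, ∀ l' ∈ L,
          (l = l' → ∑ b ∈ B, Complex.exp (2 * π * Complex.I *
              ((∑ i, ((R.map (Int.cast : ℤ → ℝ))⁻¹ *ᵥ (fun j => (b j : ℝ))) i * ((l i : ℝ) - (l' i : ℝ)) : ℝ) : ℂ))
              = (B.card : ℂ)) ∧
          (l ≠ l' → ∑ b ∈ B, Complex.exp (2 * π * Complex.I *
              ((∑ i, ((R.map (Int.cast : ℤ → ℝ))⁻¹ *ᵥ (fun j => (b j : ℝ))) i * ((l i : ℝ) - (l' i : ℝ)) : ℝ) : ℂ))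
              = 0)) := by
  intro hall
  have hroot : ∀ z : ℂ, (V1179.Spec.R.map (Int.cast : ℤ → ℂ)).charpoly.IsRoot z → 1 < ‖z‖ := by
    intro z hz
    have h1 : (V1179.Spec.R.map (Int.cast : ℤ → ℂ)) = !![4, 0; 0, 3] := by
      ext i j
      fin_cases i <;> fin_cases j <;> simp [V1179.Spec.R]
    rw [h1, Polynomial.IsRoot.def, Matrix.eval_charpoly] at hz
    rw [Matrix.det_fin_two] at hz
    simp at hz
    rcases hz with hz | hz
    · have : z = 4 := sub_eq_zero.1 hz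
      rw [this]
      norm_num
    · have : z = 3 := sub_eq_zero.1 hz
      rw [this]
      norm_num
  have hsimple : ∀ b ∈ V1179.Spec.B, ∀ b' ∈ V1179.Spec.B, b ≠ b' →
      ¬ ∃ v : Fin 2 → ℤ, V1179.Spec.R *ᵥ v = b - b' := by
    intro b hb b' hb' hne
    rintro ⟨v, hv⟩
    have h0 := congrFun hv 0
    have h1 := congrFun hv 1
    simp only [V1179.Spec.R, Matrix.mulVec, dotProduct, Fin.sum_univ_two, Matrix.of_apply,
      Matrix.cons_val_zero, Matrix.cons_val_one, Pi.sub_apply] at h0 h1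
    simp only [V1179.Spec.B, Finset.mem_insert, Finset.mem_singleton] at hb hb'
    rcases hb with rfl | rfl | rfl | rfl <;> rcases hb' with rfl | rfl | rfl | rfl <;>
      first
      | exact absurd rfl hne
      | (simp at h0 h1; omega)
  have hcl : AddSubgroup.closure {v : Fin 2 → ℤ | ∃ k : ℕ, ∃ b ∈ V1179.Spec.B,
      v = (V1179.Spec.R ^ k) *ᵥ b} = ⊤ := by
    set S := AddSubgroup.closure {v : Fin 2 → ℤ | ∃ k : ℕ, ∃ b ∈ V1179.Spec.B,
      v = (V1179.Spec.R ^ k) *ᵥ b} with hS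
    have h1 : (![1, 0] : Fin 2 → ℤ) ∈ S := by
      apply AddSubgroup.subset_closure
      refine ⟨0, ![1, 0], by simp [V1179.Spec.B], by simp⟩
    have h2 : (![8, 1] : Fin 2 → ℤ) ∈ S := by
      apply AddSubgroup.subset_closure
      refine ⟨0, ![8, 1], by simp [V1179.Spec.B], by simp⟩
    rw [eq_top_iff]
    intro v _
    have hv : v = (v 0 - 8 * v 1) • (![1, 0] : Fin 2 → ℤ) + (v 1) • (![8, 1] : Fin 2 → ℤ) := by
      ext i
      fin_cases i
      · simp
        ring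
      · simp
    rw [hv]
    exact S.add_mem (S.zsmul_mem h1 _) (S.zsmul_mem h2 _)
  obtain ⟨L, hcard, hL⟩ := hall 2 (by norm_num) V1179.Spec.R V1179.Spec.B hroot hsimple
    (by rw [V1179.Spec.card_B]; norm_num)
    (by rw [V1179.Spec.card_B]; simp [V1179.Spec.R, Matrix.det_fin_two])
    (by
      have : (0 : Fin 2 → ℤ) = ![0, 0] := by ext i; fin_cases i <;> rfl
      rw [this]; simp [V1179.Spec.B])
    hcl V1179.Spec.μ inferInstance V1179.Spec.μ_inv
    ⟨V1179.Spec.Λ, by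
      intro l hl l' hl'
      constructor
      · rintro rfl
        simp
      · intro hne
        have key : ∀ t : ℝ, (∀ x : Fin 2 → ℝ, ∑ i, (l i - l' i) * x i = t * x 0) →
            ((∃ n : ℤ, n ≠ 0 ∧ t = n) ∨ (∃ n : ℤ, t = n + 1 / 4 ∨ t = n - 1 / 4)) →
            ∫ x, Complex.exp (2 * π * Complex.I * ((∑ i, (l i - l' i) * x i : ℝ) : ℂ)) ∂V1179.Spec.μ = 0 := by
          intro t ht h
          simp_rw [ht]
          rcases h with ⟨n, hn, rfl⟩ | h
          · exact V1179.Spec.orth_int n hn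
          · exact V1179.Spec.orth_quarter t h
        obtain ⟨n, hn⟩ := hl
        obtain ⟨m, hm⟩ := hl'
        rcases hn with rfl | rfl <;> rcases hm with rfl | rfl
        · refine key (n - m) (fun x => by simp [Fin.sum_univ_two]) (Or.inl ⟨n - m, ?_, by push_cast; ring⟩)
          intro h0
          apply hne
          rw [sub_eq_zero.1 h0]
        · refine key (n - m - 1 / 4) (fun x => by simp [Fin.sum_univ_two]; left; ring)
            (Or.inr ⟨n - m, Or.inr (by push_cast; ring)⟩)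
        · refine key (n - m + 1 / 4) (fun x => by simp [Fin.sum_univ_two]; left; ring)
            (Or.inr ⟨n - m, Or.inl (by push_cast; ring)⟩)
        · refine key (n - m) (fun x => by simp [Fin.sum_univ_two]) (Or.inl ⟨n - m, ?_, by push_cast; ring⟩)
          intro h0
          apply hne
          rw [sub_eq_zero.1 h0], V1179.Spec.complete⟩
  rw [V1179.Spec.card_B] at hcard
  -- the sum for a difference
  have hprod : ∀ l l' : Fin 2 → ℤ, ∑ b ∈ V1179.Spec.B, Complex.exp (2 * π * Complex.I *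
      ((∑ i, ((V1179.Spec.R.map (Int.cast : ℤ → ℝ))⁻¹ *ᵥ (fun j => (b j : ℝ))) i *
        ((l i : ℝ) - (l' i : ℝ)) : ℝ) : ℂ)) =
      (1 + Complex.exp (2 * π * Complex.I * ((l 0 - l' 0 : ℤ) / 4))) *
      (1 + Complex.exp (2 * π * Complex.I * ((l 1 - l' 1 : ℤ) / 3))) := by
    intro l l'
    rw [V1179.Spec.B, Finset.sum_insert (by decide), Finset.sum_insert (by decide),
      Finset.sum_insert (by decide), Finset.sum_singleton]
    simp only [V1179.Spec.invR, Fin.sum_univ_two, Matrix.cons_val_zero, Matrix.cons_val_one]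
    have e8 : Complex.exp (2 * π * Complex.I * ((((8 : ℤ) : ℝ) / 4 * ((l 0 : ℝ) - (l' 0 : ℝ)) +
        ((1 : ℤ) : ℝ) / 3 * ((l 1 : ℝ) - (l' 1 : ℝ)) : ℝ) : ℂ))
        = Complex.exp (2 * π * Complex.I * ((l 1 - l' 1 : ℤ) / 3)) := by
      have : 2 * π * Complex.I * ((((8 : ℤ) : ℝ) / 4 * ((l 0 : ℝ) - (l' 0 : ℝ)) +
        ((1 : ℤ) : ℝ) / 3 * ((l 1 : ℝ) - (l' 1 : ℝ)) : ℝ) : ℂ)
        = 2 * π * Complex.I * ((l 1 - l' 1 : ℤ) / 3) + ((2 * (l 0 - l' 0) : ℤ) : ℂ) *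
          (2 * π * Complex.I) := by
        push_cast
        ring
      rw [this, Complex.exp_add, Complex.exp_int_mul_two_pi_mul_I, mul_one]
    have e9 : Complex.exp (2 * π * Complex.I * ((((9 : ℤ) : ℝ) / 4 * ((l 0 : ℝ) - (l' 0 : ℝ)) +
        ((1 : ℤ) : ℝ) / 3 * ((l 1 : ℝ) - (l' 1 : ℝ)) : ℝ) : ℂ))
        = Complex.exp (2 * π * Complex.I * ((l 0 - l' 0 : ℤ) / 4)) *
          Complex.exp (2 * π * Complex.I * ((l 1 - l' 1 : ℤ) / 3)) := by
      have : 2 * π * Complex.I * ((((9 : ℤ) : ℝ) / 4 * ((l 0 : ℝ) - (l' 0 : ℝ)) +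
        ((1 : ℤ) : ℝ) / 3 * ((l 1 : ℝ) - (l' 1 : ℝ)) : ℝ) : ℂ)
        = 2 * π * Complex.I * ((l 0 - l' 0 : ℤ) / 4) + 2 * π * Complex.I * ((l 1 - l' 1 : ℤ) / 3)
          + ((2 * (l 0 - l' 0) : ℤ) : ℂ) * (2 * π * Complex.I) := by
        push_cast
        ring
      rw [this, Complex.exp_add, Complex.exp_int_mul_two_pi_mul_I, mul_one, Complex.exp_add]
    have e1 : Complex.exp (2 * π * Complex.I * ((((1 : ℤ) : ℝ) / 4 * ((l 0 : ℝ) - (l' 0 : ℝ)) +
        ((0 : ℤ) : ℝ) / 3 * ((l 1 : ℝ) - (l' 1 : ℝ)) : ℝ) : ℂ))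
        = Complex.exp (2 * π * Complex.I * ((l 0 - l' 0 : ℤ) / 4)) := by
      congr 1
      push_cast
      ring
    have e0 : Complex.exp (2 * π * Complex.I * ((((0 : ℤ) : ℝ) / 4 * ((l 0 : ℝ) - (l' 0 : ℝ)) +
        ((0 : ℤ) : ℝ) / 3 * ((l 1 : ℝ) - (l' 1 : ℝ)) : ℝ) : ℂ))
        = 1 := by
      simp
    rw [e0, e1, e8, e9]
    ring
  have hmod : ∀ l ∈ L, ∀ l' ∈ L, l ≠ l' → (l 0 - l' 0) % 4 = 2 := by
    intro l hl l' hl' hne
    have h := (hL l hl l' hl').2 hne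
    rw [hprod] at h
    rcases mul_eq_zero.1 h with h | h
    · have h1 : Complex.exp (2 * π * Complex.I * ((l 0 - l' 0 : ℤ) / 4)) = -1 := by
        linear_combination h
      have h2 : Complex.exp (2 * π * Complex.I * ((l 0 - l' 0 : ℤ) / 4) - π * Complex.I) = 1 := by
        rw [Complex.exp_sub, h1, Complex.exp_pi_mul_I]
        norm_num
      rw [Complex.exp_eq_one_iff] at h2
      obtain ⟨n, hn⟩ := h2
      have h3 : ((l 0 - l' 0 : ℤ) : ℂ) = ((4 * n + 2 : ℤ) : ℂ) := by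
        have hpi : (2 * π * Complex.I) ≠ 0 := Complex.two_pi_I_ne_zero
        have : (2 * π * Complex.I) * ((l 0 - l' 0 : ℤ) : ℂ) = (2 * π * Complex.I) * ((4 * n + 2 : ℤ) : ℂ) := by
          push_cast at hn ⊢
          linear_combination 4 * hn
        exact mul_left_cancel₀ hpi this
      have h4 : l 0 - l' 0 = 4 * n + 2 := by exact_mod_cast h3
      omega
    · exfalso
      have h1 : Complex.exp (2 * π * Complex.I * ((l 1 - l' 1 : ℤ) / 3)) = -1 := by
        linear_combination h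
      have h2 : Complex.exp (2 * π * Complex.I * ((l 1 - l' 1 : ℤ) / 3) - π * Complex.I) = 1 := by
        rw [Complex.exp_sub, h1, Complex.exp_pi_mul_I]
        norm_num
      rw [Complex.exp_eq_one_iff] at h2
      obtain ⟨n, hn⟩ := h2
      have h3 : ((2 * (l 1 - l' 1) : ℤ) : ℂ) = ((6 * n + 3 : ℤ) : ℂ) := by
        have hpi : (2 * π * Complex.I) ≠ 0 := Complex.two_pi_I_ne_zero
        have : (2 * π * Complex.I) * ((2 * (l 1 - l' 1) : ℤ) : ℂ) = (2 * π * Complex.I) * ((6 * n + 3 : ℤ) : ℂ) := by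
          push_cast at hn ⊢
          linear_combination 6 * hn
        exact mul_left_cancel₀ hpi this
      have h4 : 2 * (l 1 - l' 1) = 6 * n + 3 := by exact_mod_cast h3
      omega
  obtain ⟨a, b, c, ha, hb, hc, hab, hac, hbc⟩ := (Finset.two_lt_card_iff (s := L)).1 (by omega)
  have h1 := hmod a ha b hb hab
  have h2 := hmod b hb c hc hbc
  have h3 := hmod a ha c hc hac
  omega

end Pool.Agent.S04820
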