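import Pool.Statements.S04862
import Pool.Agent.V11113.FH.Freq
import Pool.Agent.V11113.FH.Circ

set_option autoImplicit false
open Pool Pool.MP_63a02b_an

namespace Pool.Agent.S04862

open Pool.Agent.V11113.FH in
/-- For the operator `T`, no dense set and no map can satisfy the criterion. -/
lemma no_criterion (X₀ : Set XX) (hd : Dense X₀) (S : XX → XX) (hS : ∀ x ∈ X₀, S x ∈ X₀)
    (h : ∀ x ∈ X₀, Summable (fun n : ℕ => (T lam ^ n) x) ∧
      Summable (fun n : ℕ => S^[n] x) ∧ T lam (S x) = x) : False := by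
  have key : ∀ x ∈ X₀, x.1 0 = 0 := by
    intro x hx
    obtain ⟨hs1, hs2, -⟩ := h x hx
    have hmem : ∀ n, S^[n] x ∈ X₀ := by
      intro n
      induction n with
      | zero => exact hx
      | succ n ih => rw [Function.iterate_succ_apply']; exact hS _ ih
    have hT : ∀ n, T lam (S^[n + 1] x) = S^[n] x := by
      intro n
      rw [Function.iterate_succ_apply']
      exact (h _ (hmem n)).2.2
    -- coordinates are summable
    have c1 : Summable (fun n : ℕ => ((T lam ^ n) x).1 0) :=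
      hs1.map ((Pi.evalAddMonoidHom (fun _ : ℕ => ℂ) 0).comp (AddMonoidHom.fst (ℕ → ℂ) (ℕ → ℂ)))
        (by
          show Continuous (fun y : XX => y.1 0)
          fun_prop)
    have c2 : ∀ i, Summable (fun n : ℕ => ((T lam ^ n) x).2 i) := fun i =>
      hs1.map ((Pi.evalAddMonoidHom (fun _ : ℕ => ℂ) i).comp (AddMonoidHom.snd (ℕ → ℂ) (ℕ → ℂ)))
        (by
          show Continuous (fun y : XX => y.2 i)
          fun_prop)
    have c3 : Summable (fun n : ℕ => (S^[n] x).1 0) :=
      hs2.map ((Pi.evalAddMonoidHom (fun _ : ℕ => ℂ) 0).comp (AddMonoidHom.fst (ℕ → ℂ) (ℕ → ℂ)))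
        (by
          show Continuous (fun y : XX => y.1 0)
          fun_prop)
    have c4 : ∀ i, Summable (fun n : ℕ => (S^[n] x).2 i) := fun i =>
      hs2.map ((Pi.evalAddMonoidHom (fun _ : ℕ => ℂ) i).comp (AddMonoidHom.snd (ℕ → ℂ) (ℕ → ℂ)))
        (by
          show Continuous (fun y : XX => y.2 i)
          fun_prop)
    have c5 : Summable (fun n : ℕ => (S^[n + 1] x).1 0) := (summable_nat_add_iff 1).2 c3
    have res := coeff_zero (fun n => ((T lam ^ n) x).1 0) (fun n => (S^[n + 1] x).1 0)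
      c1.norm c5.norm ?_
    · simpa using res
    · intro i
      have e1 := telescoping_fwd (lam i) (lam_norm i) (fun n => ((T lam ^ n) x).2 i)
        (fun n => ((T lam ^ n) x).1 0) (fun n => by
          show ((T lam ^ (n + 1)) x).2 i = _
          rw [pow_succ_apply, T_snd]) (c2 i) c1.norm
      have e2 := telescoping_bwd (lam i) (lam_norm i) (fun n => (S^[n] x).2 i)
        (fun n => (S^[n + 1] x).1 0) (fun n => by
          show (S^[n] x).2 i = lam i * (S^[n + 1] x).2 i + (S^[n + 1] x).1 0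
          rw [← T_snd, hT]) (c4 i) c5.norm
      simp_rw [lam_zpow] at e1
      simp_rw [lam_pow] at e2
      rw [e1, e2]
      simp
  -- contradiction with density
  have hopen : IsOpen {x : XX | x.1 0 ≠ 0} :=
    isOpen_ne_fun (by fun_prop) continuous_const
  obtain ⟨x, hx1, hx2⟩ := hd.exists_mem_open hopen ⟨((fun _ => 1), 0), by simp⟩
  exact hx2 (key x hx1)

/-- The negation of the preceding statement: Every operator on a real or complex separable F-space that is chaotic, topologically mixing and frequently hypercyclic admits a dense set X0 and a self-map S of X0 with the series of T^n x and S^n x unconditionally convergent and TSx = x on X0. -/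
theorem result :
    ¬ (∀ (𝕂 : Type) [RCLike 𝕂] (X : Type) [AddCommGroup X] [Module 𝕂 X] [UniformSpace X]
      [IsUniformAddGroup X] [CompleteSpace X] [TopologicalSpace.MetrizableSpace X]
      [TopologicalSpace.SeparableSpace X] [ContinuousSMul 𝕂 X] (T : X →L[𝕂] X),
      ((∃ x : X, Dense (Set.range (fun n : ℕ => (T ^ n) x))) ∧
        Dense {x : X | ∃ n : ℕ, 0 < n ∧ (T ^ n) x = x}) →
      (∀ U V : Set X, IsOpen U → IsOpen V → U.Nonempty → V.Nonempty →
        ∃ N : ℕ, ∀ n : ℕ, N ≤ n → ((⇑(T ^ n)) ⁻¹' V ∩ U).Nonempty) →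
      (∃ x : X, ∀ U : Set X, IsOpen U → U.Nonempty →
        ∃ δ : ℝ, 0 < δ ∧ ∃ N₀ : ℕ, ∀ N : ℕ, N₀ ≤ N →
          δ * (N : ℝ) ≤ (Nat.card {n : ℕ // n < N ∧ (T ^ n) x ∈ U} : ℝ)) →
      ∃ X₀ : Set X, Dense X₀ ∧ ∃ S : X → X, (∀ x ∈ X₀, S x ∈ X₀) ∧
        ∀ x ∈ X₀, Summable (fun n : ℕ => (T ^ n) x) ∧
          Summable (fun n : ℕ => S^[n] x) ∧ T (S x) = x) := by
  intro H
  have : TopologicalSpace.MetrizableSpace V11113.FH.XX :=
    UniformSpace.metrizableSpace
  have hyp : ∃ x : V11113.FH.XX, Dense (Set.range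
      (fun n : ℕ => (V11113.FH.T V11113.FH.lam ^ n) x)) := by
    obtain ⟨x, hx⟩ := V11113.FH.freq _ V11113.FH.lam_injective
    refine ⟨x, ?_⟩
    rw [dense_iff_inter_open]
    intro U hU hUn
    obtain ⟨δ, hδ, N₀, hN⟩ := hx U hU hUn
    have h1 := hN (max N₀ 1) (le_max_left _ _)
    have h2 : (0 : ℝ) < δ * ((max N₀ 1 : ℕ) : ℝ) := by
      apply mul_pos hδ
      have : 0 < max N₀ 1 := lt_of_lt_of_le Nat.one_pos (le_max_right _ _)
      exact_mod_cast this
    have h3 : 0 < Nat.card {n : ℕ // n < max N₀ 1 ∧ (V11113.FH.T V11113.FH.lam ^ n) x ∈ U} := by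
      exact_mod_cast lt_of_lt_of_le h2 h1
    obtain ⟨⟨n, -, hn⟩⟩ := (Nat.card_pos_iff.1 h3).1
    exact ⟨_, hn, n, rfl⟩
  obtain ⟨X₀, hd, S, hS, h⟩ := H ℂ V11113.FH.XX (V11113.FH.T V11113.FH.lam)
    ⟨hyp, V11113.FH.periodic_dense _ V11113.FH.lam_injective
      (fun i n hn => V11113.FH.lam_root i n hn)⟩
    (fun U V hU hV hUn hVn => V11113.FH.mixing _ V11113.FH.lam_injective U V hU hV hUn hVn)
    (V11113.FH.freq _ V11113.FH.lam_injective)
  exact no_criterion X₀ hd S hS h

end Pool.Agent.S04862
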