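import Pool.Statements.S04980
import Pool.Agent.Results.MP_6ded3d_an.PlanarNonsmoothMinimizer

set_option autoImplicit false
open MeasureTheory Set
open Pool Pool.MP_6ded3d_an

namespace Pool.Agent.S04980

open Pool.Agent.Results.MP_6ded3d_an.PlanarNonsmoothMinimizer in
/-- continuity of the inverse on a compact set -/
theorem inv_cont {n : ℕ} {h : E n → E n} {A B : Set (E n)} (hA : IsCompact A)
    (h1 : ContinuousOn h A) (h2 : InjOn h A) (h3 : h '' A = B) :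
    ContinuousOn (Function.invFunOn h A) B := by
  subst h3
  have hmem : ∀ y ∈ h '' A, Function.invFunOn h A y ∈ A ∧ h (Function.invFunOn h A y) = y :=
    fun y hy => ⟨Function.invFunOn_mem hy, Function.invFunOn_eq hy⟩
  rw [continuousOn_iff_isClosed]
  intro t ht
  refine ⟨h '' (A ∩ t), ((hA.inter_right ht).image_of_continuousOn (h1.mono inter_subset_left)).isClosed,
    ?_⟩
  ext y
  constructor
  · rintro ⟨hy1, hy2⟩
    exact ⟨⟨_, ⟨(hmem y hy2).1, hy1⟩, (hmem y hy2).2⟩, hy2⟩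
  · rintro ⟨⟨x, ⟨hx1, hx2⟩, rfl⟩, hy2⟩
    refine ⟨?_, hy2⟩
    have := h2 (hmem _ hy2).1 hx1 (hmem _ hy2).2
    show Function.invFunOn h A (h x) ∈ t
    rw [this]
    exact hx2

open Pool.Agent.Results.MP_6ded3d_an.PlanarNonsmoothMinimizer in
theorem opNorm_eq {n : ℕ} (A : Mat n) :
    ‖LinearMap.toContinuousLinearMap (Matrix.toEuclideanLin A)‖ = opNorm A := by
  unfold opNorm
  exact (Matrix.l2_opNorm_def A).symm

/-- The negation of the preceding statement: For all n≥2, bounded domains Ω, p>1 and homeomorphic g of finite distortion with L^p inner distortion, every homeomorphism with g's boundary values minimizing the L^p inner-distortion energy is a C^∞ diffeomorphism of Ω onto g(Ω). -/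
theorem result :
    ¬ (∀ (n : ℕ), 2 ≤ n →
  ∀ (Ω : Set (EuclideanSpace ℝ (Fin n))), IsOpen Ω → IsConnected Ω → Bornology.IsBounded Ω →
  ∀ (opNorm : Matrix (Fin n) (Fin n) ℝ → ℝ),
    (∀ A : Matrix (Fin n) (Fin n) ℝ,
      opNorm A = ‖LinearMap.toContinuousLinearMap (Matrix.toEuclideanLin A)‖) →
  ∀ (FD : (EuclideanSpace ℝ (Fin n) → EuclideanSpace ℝ (Fin n)) →
      (EuclideanSpace ℝ (Fin n) → Matrix (Fin n) (Fin n) ℝ) → Prop),
    (∀ (f : EuclideanSpace ℝ (Fin n) → EuclideanSpace ℝ (Fin n))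
       (Df : EuclideanSpace ℝ (Fin n) → Matrix (Fin n) (Fin n) ℝ),
      FD f Df ↔
      ((∀ i : Fin n, LocallyIntegrableOn (fun x => WithLp.ofLp (f x) i) Ω) ∧
       (∀ i j : Fin n, LocallyIntegrableOn (fun x => Df x i j) Ω) ∧
       (∀ φ : EuclideanSpace ℝ (Fin n) → ℝ,
          ContDiff ℝ ((⊤ : ℕ∞) : WithTop ℕ∞) φ → HasCompactSupport φ → tsupport φ ⊆ Ω →
          ∀ i j : Fin n,
            ∫ x in Ω, WithLp.ofLp (f x) i * fderiv ℝ φ x (EuclideanSpace.single j (1 : ℝ))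
              = - ∫ x in Ω, Df x i j * φ x) ∧
       LocallyIntegrableOn (fun x => (Df x).det) Ω ∧
       (∀ᵐ x ∂(volume.restrict Ω), 0 ≤ (Df x).det) ∧
       ∃ K : EuclideanSpace ℝ (Fin n) → ℝ, Measurable K ∧ (∀ x ∈ Ω, 1 ≤ K x) ∧
         ∀ᵐ x ∂(volume.restrict Ω), opNorm (Df x) ^ n ≤ K x * (Df x).det)) →
  ∀ (KI : (EuclideanSpace ℝ (Fin n) → Matrix (Fin n) (Fin n) ℝ) → EuclideanSpace ℝ (Fin n) → ℝ),
    (∀ (Df : EuclideanSpace ℝ (Fin n) → Matrix (Fin n) (Fin n) ℝ) (x : EuclideanSpace ℝ (Fin n)),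
      KI Df x = if 0 < (Df x).det
        then opNorm (Df x).adjugate ^ n / (Df x).det ^ (n - 1) else 1) →
  ∀ p : ℝ, 1 < p →
  ∀ g : EuclideanSpace ℝ (Fin n) → EuclideanSpace ℝ (Fin n),
    ContinuousOn g (closure Ω) → InjOn g (closure Ω) → g '' closure Ω = closure (g '' Ω) →
    (∃ Dg : EuclideanSpace ℝ (Fin n) → Matrix (Fin n) (Fin n) ℝ,
      FD g Dg ∧ ∫⁻ x in Ω, ENNReal.ofReal (KI Dg x ^ p) < ⊤) →
  ∀ (f : EuclideanSpace ℝ (Fin n) → EuclideanSpace ℝ (Fin n))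
    (Df : EuclideanSpace ℝ (Fin n) → Matrix (Fin n) (Fin n) ℝ),
    ContinuousOn f (closure Ω) → InjOn f (closure Ω) → f '' closure Ω = closure (g '' Ω) →
    (∀ x ∈ frontier Ω, f x = g x) → FD f Df →
    (∀ (h : EuclideanSpace ℝ (Fin n) → EuclideanSpace ℝ (Fin n))
       (Dh : EuclideanSpace ℝ (Fin n) → Matrix (Fin n) (Fin n) ℝ),
       ContinuousOn h (closure Ω) → InjOn h (closure Ω) → h '' closure Ω = closure (g '' Ω) →
       (∀ x ∈ frontier Ω, h x = g x) → FD h Dh →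
       ∫⁻ x in Ω, ENNReal.ofReal (KI Df x ^ p) ≤ ∫⁻ x in Ω, ENNReal.ofReal (KI Dh x ^ p)) →
    (f '' Ω = g '' Ω ∧ ContDiffOn ℝ ((⊤ : ℕ∞) : WithTop ℕ∞) f Ω ∧
      ∃ f' : EuclideanSpace ℝ (Fin n) → EuclideanSpace ℝ (Fin n),
        MapsTo f' (g '' Ω) Ω ∧ (∀ x ∈ Ω, f' (f x) = x) ∧ (∀ y ∈ g '' Ω, f (f' y) = y) ∧
        ContDiffOn ℝ ((⊤ : ℕ∞) : WithTop ℕ∞) f' (g '' Ω))) := by
  intro H
  obtain ⟨Ω, g, Dg, hΩ, hg, hmin, hC2, -⟩ :=
    Pool.Agent.Results.MP_6ded3d_an.PlanarNonsmoothMinimizer.planar_example 2 (by norm_num)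
  have hcomp : IsCompact (closure Ω) := hΩ.2.2.isCompact_closure
  have hfd : ∀ (h : EuclideanSpace ℝ (Fin 2) → EuclideanSpace ℝ (Fin 2))
      (Dh : EuclideanSpace ℝ (Fin 2) → Matrix (Fin 2) (Fin 2) ℝ),
      ((∀ i : Fin 2, LocallyIntegrableOn (fun x => WithLp.ofLp (h x) i) Ω) ∧
       (∀ i j : Fin 2, LocallyIntegrableOn (fun x => Dh x i j) Ω) ∧
       (∀ φ : EuclideanSpace ℝ (Fin 2) → ℝ,
          ContDiff ℝ ((⊤ : ℕ∞) : WithTop ℕ∞) φ → HasCompactSupport φ → tsupport φ ⊆ Ω →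
          ∀ i j : Fin 2,
            ∫ x in Ω, WithLp.ofLp (h x) i * fderiv ℝ φ x (EuclideanSpace.single j (1 : ℝ))
              = - ∫ x in Ω, Dh x i j * φ x) ∧
       LocallyIntegrableOn (fun x => (Dh x).det) Ω ∧
       (∀ᵐ x ∂(volume.restrict Ω), 0 ≤ (Dh x).det) ∧
       ∃ K : EuclideanSpace ℝ (Fin 2) → ℝ, Measurable K ∧ (∀ x ∈ Ω, 1 ≤ K x) ∧
         ∀ᵐ x ∂(volume.restrict Ω), ‖LinearMap.toContinuousLinearMap
          (Matrix.toEuclideanLin (Dh x))‖ ^ 2 ≤ K x * (Dh x).det) ↔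
      Pool.Agent.Results.MP_6ded3d_an.PlanarNonsmoothMinimizer.FiniteDistortion Ω h Dh := by
    intro h Dh
    constructor
    · rintro ⟨h1, h2, h3, h4, h5, K, hK1, hK2, hK3⟩
      refine ⟨⟨h1, h2, ?_⟩, h4, h5, fun x => max (K x) 1, hK1.max measurable_const,
        fun x => le_max_right _ _, ?_⟩
      · rintro φ ⟨hφ1, hφ2, hφ3⟩ i j
        have := h3 φ hφ1 hφ2 hφ3 i j
        exact Eq.trans (integral_congr_ae (Filter.Eventually.of_forall fun x => mul_comm _ _))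
          (this.trans (congrArg Neg.neg (integral_congr_ae
            (Filter.Eventually.of_forall fun x => mul_comm _ _))))
      · filter_upwards [hK3, h5] with x hx hx5
        rw [← opNorm_eq]
        exact hx.trans (mul_le_mul_of_nonneg_right (le_max_left _ _) hx5)
    · rintro ⟨⟨h1, h2, h3⟩, h4, h5, K, hK1, hK2, hK3⟩
      refine ⟨h1, h2, ?_, h4, h5, K, hK1, fun x _ => hK2 x, ?_⟩
      · intro φ hφ1 hφ2 hφ3 i j
        have := h3 φ ⟨hφ1, hφ2, hφ3⟩ i j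
        exact Eq.trans (integral_congr_ae (Filter.Eventually.of_forall fun x => mul_comm _ _))
          (this.trans (congrArg Neg.neg (integral_congr_ae
            (Filter.Eventually.of_forall fun x => mul_comm _ _))))
      · filter_upwards [hK3] with x hx
        rw [opNorm_eq]
        exact hx
  have hKI : ∀ (Df : EuclideanSpace ℝ (Fin 2) → Matrix (Fin 2) (Fin 2) ℝ)
      (x : EuclideanSpace ℝ (Fin 2)), (if 0 < (Df x).det
        then ‖LinearMap.toContinuousLinearMap (Matrix.toEuclideanLin (Df x).adjugate)‖ ^ 2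
          / (Df x).det ^ (2 - 1) else 1)
      = Pool.Agent.Results.MP_6ded3d_an.PlanarNonsmoothMinimizer.innerDistortion (Df x) := by
    intro Df x
    unfold Pool.Agent.Results.MP_6ded3d_an.PlanarNonsmoothMinimizer.innerDistortion
    rw [opNorm_eq]
  have hgD := (hfd g Dg).mpr hg.finiteDistortion
  have hgim : g '' closure Ω = closure (g '' Ω) := hg.homeo.2.1.image_eq
  have hginj : InjOn g (closure Ω) := hg.homeo.2.1.injOn
  have hfin : ∫⁻ x in Ω, ENNReal.ofReal ((if 0 < (Dg x).det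
        then ‖LinearMap.toContinuousLinearMap (Matrix.toEuclideanLin (Dg x).adjugate)‖ ^ 2
          / (Dg x).det ^ (2 - 1) else 1) ^ (2 : ℝ)) < ⊤ := by
    simp_rw [hKI]
    have h1 := hg.distortion_Lp.2
    rw [eLpNorm_lt_top_iff_lintegral_rpow_enorm_lt_top (by simp) (by simp)] at h1
    refine lt_of_le_of_lt (lintegral_mono fun x => ?_) h1
    rw [ENNReal.toReal_ofReal (by norm_num)]
    rw [Real.enorm_eq_ofReal_abs, ENNReal.ofReal_rpow_of_nonneg (abs_nonneg _) (by norm_num)]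
    apply ENNReal.ofReal_le_ofReal
    norm_num
  have hres := H 2 le_rfl Ω hΩ.1 hΩ.2.1 hΩ.2.2
    (fun A => ‖LinearMap.toContinuousLinearMap (Matrix.toEuclideanLin A)‖) (fun A => rfl)
    (fun f Df => ((∀ i : Fin 2, LocallyIntegrableOn (fun x => WithLp.ofLp (f x) i) Ω) ∧
       (∀ i j : Fin 2, LocallyIntegrableOn (fun x => Df x i j) Ω) ∧
       (∀ φ : EuclideanSpace ℝ (Fin 2) → ℝ,
          ContDiff ℝ ((⊤ : ℕ∞) : WithTop ℕ∞) φ → HasCompactSupport φ → tsupport φ ⊆ Ω →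
          ∀ i j : Fin 2,
            ∫ x in Ω, WithLp.ofLp (f x) i * fderiv ℝ φ x (EuclideanSpace.single j (1 : ℝ))
              = - ∫ x in Ω, Df x i j * φ x) ∧
       LocallyIntegrableOn (fun x => (Df x).det) Ω ∧
       (∀ᵐ x ∂(volume.restrict Ω), 0 ≤ (Df x).det) ∧
       ∃ K : EuclideanSpace ℝ (Fin 2) → ℝ, Measurable K ∧ (∀ x ∈ Ω, 1 ≤ K x) ∧
         ∀ᵐ x ∂(volume.restrict Ω), ‖LinearMap.toContinuousLinearMap
          (Matrix.toEuclideanLin (Df x))‖ ^ 2 ≤ K x * (Df x).det)) (fun f Df => Iff.rfl)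
    (fun Df x => if 0 < (Df x).det
        then ‖LinearMap.toContinuousLinearMap (Matrix.toEuclideanLin (Df x).adjugate)‖ ^ 2
          / (Df x).det ^ (2 - 1) else 1) (fun Df x => rfl) 2 (by norm_num) g hg.homeo.1 hginj hgim
    ⟨Dg, hgD, hfin⟩ g Dg hg.homeo.1 hginj hgim (fun x _ => rfl) hgD ?_
  · exact hC2 (by exact_mod_cast contDiffOn_infty.1 hres.2.1 2)
  · intro h Dh h1 h2 h3 h4 h5
    have h6 := hmin.2 h Dh ⟨⟨h1, ⟨fun x hx => h3 ▸ mem_image_of_mem h hx, h2, by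
      rw [SurjOn, h3]⟩, inv_cont hcomp h1 h2 h3⟩, (hfd h Dh).mp h5, h4⟩
    unfold Pool.Agent.Results.MP_6ded3d_an.PlanarNonsmoothMinimizer.energy at h6
    simp_rw [hKI]
    exact h6

end Pool.Agent.S04980
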