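import Mathlib
import Pool.Statements.S05106

set_option autoImplicit false
open Pool Pool.MP_7987d1_an

namespace Pool.Agent.S05106

/-! The front `u(x,t) = 1 / (1 + exp (-(x / √2 + 3 t / 2)))` of the Newell-Whitehead equation
joins the unstable state `0` to the stable state `1`; it is increasing in `x` and in `t`. -/

open Real

/-- the derivative of the logistic function -/
noncomputable def T (s : ℝ) : ℝ := sigmoid s * (1 - sigmoid s)

theorem hS (s : ℝ) : HasDerivAt sigmoid (T s) s := hasDerivAt_sigmoid s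

theorem hT (s : ℝ) : HasDerivAt T (T s * (1 - 2 * sigmoid s)) s := by
  have h1 := hS s
  have h2 := h1.mul ((hasDerivAt_const s (1 : ℝ)).sub h1)
  refine h2.congr_deriv ?_
  simp only [T, Pi.sub_apply]
  ring

theorem T_pos (s : ℝ) : 0 < T s := by
  have h1 := sigmoid_pos s
  have h2 := sigmoid_lt_one s
  unfold T
  exact mul_pos h1 (by linarith)

abbrev Ee := EuclideanSpace ℝ (Fin 1)

noncomputable def L : Ee →L[ℝ] ℝ := EuclideanSpace.proj 0

theorem L_single : L (EuclideanSpace.single 0 (1 : ℝ)) = 1 := by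
  simp [L]

theorem hf (a c : ℝ) (y : Ee) :
    HasFDerivAt (fun y : Ee => sigmoid (a * L y + c)) ((a * T (a * L y + c)) • L) y := by
  have h1 : HasFDerivAt (fun y : Ee => a * L y + c) (a • L) y :=
    ((L.hasFDerivAt).const_mul a).add_const c
  have h2 := (hS (a * L y + c)).comp_hasFDerivAt y h1
  refine h2.congr_fderiv ?_
  rw [smul_smul, mul_comm]

theorem hf2 (a c : ℝ) (y : Ee) :
    HasFDerivAt (fun y : Ee => (a * T (a * L y + c)) • L)
      (((a * a * (T (a * L y + c) * (1 - 2 * sigmoid (a * L y + c)))) • L).smulRight L) y := by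
  have h1 : HasFDerivAt (fun y : Ee => a * L y + c) (a • L) y :=
    ((L.hasFDerivAt).const_mul a).add_const c
  have h2 := ((hT (a * L y + c)).comp_hasFDerivAt y h1).const_mul a
  have h3 := h2.smul_const L
  refine h3.congr_fderiv ?_
  rw [smul_smul, smul_smul]
  congr 2
  ring

noncomputable def u (p : Ee × ℝ) : ℝ := sigmoid ((1 / √2) * L p.1 + (3 / 2) * p.2)

theorem second (x : Ee) (t : ℝ) :
    iteratedFDeriv ℝ 2 (fun y => u (y, t)) x (fun _ => EuclideanSpace.single 0 (1 : ℝ)) =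
      (1 / 2) * (T ((1 / √2) * L x + (3 / 2) * t) *
        (1 - 2 * sigmoid ((1 / √2) * L x + (3 / 2) * t))) := by
  rw [iteratedFDeriv_two_apply]
  have e1 : fderiv ℝ (fun y => u (y, t)) =
      fun y : Ee => ((1 / √2) * T ((1 / √2) * L y + (3 / 2) * t)) • L := by
    funext y
    exact (hf (1 / √2) ((3 / 2) * t) y).fderiv
  rw [e1, (hf2 (1 / √2) ((3 / 2) * t) x).fderiv]
  have hs : (1 / √2) * (1 / √2) = (1 / 2 : ℝ) := by
    rw [div_mul_div_comm, Real.mul_self_sqrt (by norm_num)]
    norm_num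
  simp only [ContinuousLinearMap.smulRight_apply, _root_.smul_apply, L_single, hs,
    smul_eq_mul, mul_one]

theorem first (x : Ee) (t : ℝ) :
    fderiv ℝ (fun y => u (y, t)) x (EuclideanSpace.single 0 (1 : ℝ)) =
      (1 / √2) * T ((1 / √2) * L x + (3 / 2) * t) := by
  have e1 := (hf (1 / √2) ((3 / 2) * t) x).fderiv
  have e2 : fderiv ℝ (fun y => u (y, t)) x =
      ((1 / √2) * T ((1 / √2) * L x + (3 / 2) * t)) • L := e1
  rw [e2]
  simp only [_root_.smul_apply, L_single, smul_eq_mul, mul_one]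

theorem time (x : Ee) (t : ℝ) :
    deriv (fun s => u (x, s)) t = (3 / 2) * T ((1 / √2) * L x + (3 / 2) * t) := by
  have h1 : HasDerivAt (fun s : ℝ => (1 / √2) * L x + (3 / 2) * s) (3 / 2) t := by
    have := ((hasDerivAt_id t).const_mul (3 / 2 : ℝ)).const_add ((1 / √2) * L x)
    simpa using this
  have h2 := (hS ((1 / √2) * L x + (3 / 2) * t)).comp t h1
  have h3 := h2.deriv
  have h4 : (sigmoid ∘ fun s : ℝ => (1 / √2) * L x + (3 / 2) * s) = fun s => u (x, s) := rfl
  rw [h4] at h3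
  rw [h3, mul_comm]

theorem smooth : ContDiff ℝ 2 u := by
  have h1 : ContDiff ℝ 2 (fun p : Ee × ℝ => (1 / √2) * L p.1 + (3 / 2) * p.2) := by
    have hL : ContDiff ℝ 2 (fun p : Ee × ℝ => L p.1) := L.contDiff.comp contDiff_fst
    exact (contDiff_const.mul hL).add (contDiff_const.mul contDiff_snd)
  have h2 : ContDiff ℝ 2 sigmoid := contDiff_sigmoid.of_le le_top
  exact h2.comp h1

/-- The negation of the preceding statement: For 1≤n≤8, every C² solution of Δu−u_t=u³−u for t<0 with ∣u∣≤1, ∂u/∂x_n>0 and u_t≥0 has the form u(x,t)=g(ν·x) for a unit vector ν, i.e. is one-dimensional and time-independent. -/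
theorem result :
    ¬ (∀ m : ℕ, m + 1 ≤ 8 → ∀ u : EuclideanSpace ℝ (Fin (m + 1)) × ℝ → ℝ,
    ContDiffOn ℝ 2 u {p | p.2 < 0} →
    (∀ x : EuclideanSpace ℝ (Fin (m + 1)), ∀ t : ℝ, t < 0 →
      |u (x, t)| ≤ 1 ∧
      (∑ i : Fin (m + 1), iteratedFDeriv ℝ 2 (fun y => u (y, t)) x
          (fun _ => EuclideanSpace.single i (1 : ℝ)))
        - deriv (fun s => u (x, s)) t = u (x, t) ^ 3 - u (x, t) ∧
      0 < fderiv ℝ (fun y => u (y, t)) x (EuclideanSpace.single (Fin.last m) (1 : ℝ)) ∧
      0 ≤ deriv (fun s => u (x, s)) t) →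
    ∃ ν : EuclideanSpace ℝ (Fin (m + 1)), ‖ν‖ = 1 ∧
      ∃ g : ℝ → ℝ, ∀ x : EuclideanSpace ℝ (Fin (m + 1)), ∀ t : ℝ, t < 0 →
        u (x, t) = g (inner ℝ ν x)) := by
  intro h
  obtain ⟨ν, -, g, hg⟩ := h 0 (by norm_num) u smooth.contDiffOn (by
    intro x t _
    have hpos := T_pos ((1 / √2) * L x + (3 / 2) * t)
    refine ⟨?_, ?_, ?_, ?_⟩
    · rw [abs_le]
      have h1 := sigmoid_pos ((1 / √2) * L x + (3 / 2) * t)
      have h2 := sigmoid_lt_one ((1 / √2) * L x + (3 / 2) * t)
      exact ⟨by unfold u; simp only; linarith, by unfold u; simp only; linarith⟩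
    · rw [Fin.sum_univ_one, second, time]
      unfold u T
      simp only
      ring
    · have e := first x t
      have hl : Fin.last 0 = (0 : Fin 1) := rfl
      rw [hl, e]
      have : (0 : ℝ) < 1 / √2 := by positivity
      exact mul_pos this hpos
    · rw [time]
      linarith)
  have h1 := hg 0 (-1) (by norm_num)
  have h2 := hg 0 (-2) (by norm_num)
  rw [← h2] at h1
  unfold u at h1
  simp only [map_zero, mul_zero, zero_add] at h1
  have h3 := sigmoid_injective h1
  norm_num at h3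

end Pool.Agent.S05106
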