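import Pool.Statements.S05156


set_option autoImplicit false
open Pool Pool.MP_7d5b5f_an

namespace Pool.Agent.S05156

/-- The negation of the preceding statement: For each p>1 there is C, independent of dimension d and coordinate k, so the discrete Riesz transform with kernel Γ((d+1)/2)π^{-(d+1)/2} x_k/∣x∣^{d+1} on ℤ^d is bounded on ℓ^p with norm at most C (tested on finitely supported f). -/
theorem result :
    ¬ (∀ p : ℝ, 1 < p → ∃ C : ℝ, 0 < C ∧
      ∀ (d : ℕ) (k : Fin d) (S T : Finset (Fin d → ℤ)) (f : (Fin d → ℤ) → ℝ),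
        ∑ n ∈ T, |∑ m ∈ S,
            ((Real.Gamma (((d : ℝ) + 1) / 2) / Real.pi ^ (((d : ℝ) + 1) / 2)) *
              (((n k - m k : ℤ) : ℝ) /
                (Real.sqrt (∑ i, (((n i - m i : ℤ) : ℝ)) ^ 2)) ^ (d + 1))) * f m| ^ p
          ≤ C ^ p * ∑ m ∈ S, |f m| ^ p) := by
  intro H
  obtain ⟨C, hC0, hC⟩ := H 2 (by norm_num)
  have hlim : Filter.Tendsto (fun n : ℕ => Real.pi ^ n / (n.factorial : ℝ)) Filter.atTop (nhds 0) :=
    FloorSemiring.tendsto_pow_div_factorial_atTop Real.pi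
  have hev := hlim.eventually (gt_mem_nhds (show (0 : ℝ) < 1 / (Real.pi * (C + 1)) by positivity))
  obtain ⟨j, hj⟩ := hev.exists
  have hfac : (0 : ℝ) < (j.factorial : ℝ) := by exact_mod_cast j.factorial_pos
  have hbig : C < (j.factorial : ℝ) / Real.pi ^ (j + 1) := by
    rw [div_lt_div_iff₀ hfac (by positivity)] at hj
    rw [lt_div_iff₀ (by positivity), pow_succ]
    have hp : 0 < Real.pi ^ j * Real.pi := by positivity
    nlinarith [Real.pi_pos]
  have h := hC (2 * j + 1) 0 {0} {Pi.single 0 1} (fun _ => 1)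
  have hsum : ∑ i : Fin (2 * j + 1), ((((Pi.single (0 : Fin (2 * j + 1)) (1 : ℤ) : Fin (2 * j + 1) → ℤ) i -
      (0 : Fin (2 * j + 1) → ℤ) i : ℤ) : ℝ)) ^ 2 = 1 := by
    rw [Finset.sum_eq_single 0]
    · simp
    · intro b _ hb
      simp [Pi.single_eq_of_ne hb]
    · simp
  rw [Finset.sum_singleton, Finset.sum_singleton, Finset.sum_singleton, hsum] at h
  have e1 : (((2 * j + 1 : ℕ) : ℝ) + 1) / 2 = (j : ℝ) + 1 := by push_cast; ring
  rw [e1, Real.Gamma_nat_eq_factorial] at h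
  have e2 : Real.pi ^ ((j : ℝ) + 1) = Real.pi ^ (j + 1) := by
    rw [← Real.rpow_natCast]; push_cast; rfl
  rw [e2] at h
  simp only [Pi.single_eq_same, Pi.zero_apply, sub_zero, Int.cast_one, Real.sqrt_one, one_pow,
    div_one, mul_one, abs_one, Real.one_rpow] at h
  have hpos : 0 ≤ (j.factorial : ℝ) / Real.pi ^ (j + 1) := by positivity
  rw [abs_of_nonneg hpos] at h
  have h2 := Real.rpow_le_rpow_iff hpos hC0.le (show (0 : ℝ) < 2 by norm_num)
  exact absurd (h2.1 h) (not_le.2 hbig)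

end Pool.Agent.S05156
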