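import Pool.Statements.S05242
import Pool.Agent.H70J.Fin

set_option autoImplicit false
open Pool Pool.MP_830bfa_an

namespace Pool.Agent.S05242

/-- The negation of the preceding statement: For every n ≥ 2, a C¹ map f from ℝⁿ to ℝⁿ whose Jacobian is everywhere invertible, with every complex eigenvalue of every Jacobian of modulus at least some fixed ε > 0, is injective. -/
theorem result :
    ¬ (∀ n : ℕ, 2 ≤ n → ∀ f : (Fin n → ℝ) → (Fin n → ℝ), ContDiff ℝ 1 f →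
      (∀ x : Fin n → ℝ,
        (LinearMap.toMatrix' ((fderiv ℝ f x : (Fin n → ℝ) →L[ℝ] (Fin n → ℝ)) :
          (Fin n → ℝ) →ₗ[ℝ] (Fin n → ℝ))).det ≠ 0) →
      (∃ ε : ℝ, 0 < ε ∧ ∀ x : Fin n → ℝ, ∀ z : ℂ,
        Polynomial.aeval z
          (LinearMap.toMatrix' ((fderiv ℝ f x : (Fin n → ℝ) →L[ℝ] (Fin n → ℝ)) :
            (Fin n → ℝ) →ₗ[ℝ] (Fin n → ℝ))).charpoly = 0 → ε ≤ ‖z‖) →
      Function.Injective f) := by
  intro h
  obtain ⟨N, hN, f, h1, h2, h3⟩ := Pool.Agent.H70J.exists_map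
  refine h3 (h N hN f h1 (fun x => ?_) ⟨1, one_pos, fun x z hz => ?_⟩)
  · intro h0
    have h4 := Matrix.det_eq_sign_charpoly_coeff
      (LinearMap.toMatrix' ((fderiv ℝ f x : (Fin N → ℝ) →L[ℝ] (Fin N → ℝ)) :
          (Fin N → ℝ) →ₗ[ℝ] (Fin N → ℝ)))
    rw [h0, h2 x, Polynomial.coeff_zero_eq_eval_zero] at h4
    simp at h4
  · rw [h2 x] at hz
    have h5 : z = 1 := by
      have h6 : (z - 1) ^ N = 0 := by simpa using hz
      exact sub_eq_zero.1 (pow_eq_zero_iff (by omega) |>.1 h6)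
    rw [h5, norm_one]

end Pool.Agent.S05242
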