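import Pool.Statements.S05316
import Pool.Agent.V1194.ResSemi

set_option autoImplicit false
open Pool Pool.MP_8a8b2f_an

namespace Pool.Agent.S05316

/-- The negation of the preceding statement: Take a strongly continuous contraction semigroup on a complex Hilbert space with generator A, and some m>0 with ‖(μ−A)x‖ ≥ m∣Re μ∣‖x‖ for all x in D(A) and Re μ<0. Then some m₁>0 gives ‖T(t)x‖ ≥ m₁‖x‖ for all t≥0 and all x. -/
theorem result :
    ¬ (∀ (H : Type) [NormedAddCommGroup H] [InnerProductSpace ℂ H] [CompleteSpace H]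
      (T : ℝ → H →L[ℂ] H),
      T 0 = ContinuousLinearMap.id ℂ H →
      (∀ s t : ℝ, 0 ≤ s → 0 ≤ t → T (s + t) = (T s).comp (T t)) →
      (∀ x : H, ContinuousOn (fun t : ℝ => T t x) (Set.Ici 0)) →
      (∀ t : ℝ, 0 ≤ t → ‖T t‖ ≤ 1) →
      ∀ m : ℝ, 0 < m →
      (∀ x y : H,
        Filter.Tendsto (fun h : ℝ => ((h : ℂ)⁻¹) • (T h x - x))
          (nhdsWithin 0 (Set.Ioi 0)) (nhds y) →
        ∀ μ : ℂ, μ.re < 0 → m * |μ.re| * ‖x‖ ≤ ‖μ • x - y‖) →
      ∃ m₁ : ℝ, 0 < m₁ ∧ ∀ t : ℝ, 0 ≤ t → ∀ x : H, m₁ * ‖x‖ ≤ ‖T t x‖) := by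
  intro hall
  have : CompleteSpace Pool.Agent.V1194.ResSemi.H := Pool.Agent.V1194.ResSemi.isClosed_H.completeSpace_coe
  exact Pool.Agent.V1194.ResSemi.not_below
    (hall Pool.Agent.V1194.ResSemi.H Pool.Agent.V1194.ResSemi.T Pool.Agent.V1194.ResSemi.T_zero
      (fun s t hs ht => Pool.Agent.V1194.ResSemi.T_add hs ht)
      Pool.Agent.V1194.ResSemi.continuousOn_T
      (fun t _ => Pool.Agent.V1194.ResSemi.norm_T_le t) (1 / 4) (by norm_num)
      (fun x y h μ hμ => Pool.Agent.V1194.ResSemi.lower x y h μ hμ))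

end Pool.Agent.S05316
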