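import Pool.Statements.S05326
-- import your own Pool.Agent.* helpers here

set_option autoImplicit false
open MeasureTheory Filter Topology
open Pool Pool.MP_8b8979_an

namespace Pool.Agent.S05326

/-- the point: indicator of the squares of the `n` with `log₂ n` even -/
def x0 (m : ℕ) : Bool := decide (∃ n ≤ m, n * n = m ∧ Even (Nat.log 2 n))

/-- shifts of `x0` -/
def orb (n : ℕ) : ℕ → Bool := fun i => x0 (n + i)

/-- orbit closure -/
def K : Set (ℕ → Bool) := closure (Set.range orb)

lemma x0_eq_true {m : ℕ} : x0 m = true ↔ ∃ n, n * n = m ∧ Even (Nat.log 2 n) := by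
  unfold x0
  rw [decide_eq_true_iff]
  constructor
  · rintro ⟨n, _, h⟩; exact ⟨n, h⟩
  · rintro ⟨n, h, h2⟩
    refine ⟨n, ?_, h, h2⟩
    rw [← h]; exact Nat.le_mul_self n

lemma orb_mem (n : ℕ) : orb n ∈ K := subset_closure ⟨n, rfl⟩

def sh (y : ℕ → Bool) : ℕ → Bool := fun i => y (i + 1)

lemma sh_cont : Continuous sh := continuous_pi fun i => continuous_apply (i + 1)

lemma sh_orb (n : ℕ) : sh (orb n) = orb (n + 1) := by
  funext i
  simp only [sh, orb]
  congr 1
  ring

lemma sh_mem {y : ℕ → Bool} (hy : y ∈ K) : sh y ∈ K := by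
  apply map_mem_closure sh_cont hy
  rintro _ ⟨n, rfl⟩
  exact ⟨n + 1, (sh_orb n).symm⟩

/-- the space -/
abbrev X : Type := K

/-- the map -/
def T (y : X) : X := ⟨sh y.1, sh_mem y.2⟩

lemma T_cont : Continuous T := by
  apply Continuous.subtype_mk
  exact sh_cont.comp continuous_subtype_val

instance : CompactSpace X := isCompact_iff_compactSpace.mp isClosed_closure.isCompact

noncomputable instance : MetricSpace X := TopologicalSpace.metrizableSpaceMetric X

instance : MeasurableSpace X := borel X

instance : BorelSpace X := ⟨rfl⟩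

def pt : X := ⟨orb 0, orb_mem 0⟩

lemma T_iter (n : ℕ) : T^[n] pt = ⟨orb n, orb_mem n⟩ := by
  induction n with
  | zero => rfl
  | succ n ih =>
    rw [Function.iterate_succ_apply', ih]
    apply Subtype.ext
    exact sh_orb n

lemma T_iter_apply (y : X) (n i : ℕ) : (T^[n] y).1 i = y.1 (i + n) := by
  induction n generalizing i with
  | zero => rfl
  | succ n ih =>
    rw [Function.iterate_succ_apply']
    show (T^[n] y).1 (i + 1) = _
    rw [ih, show i + 1 + n = i + (n + 1) by ring]

/-- count of ones in a window -/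
lemma count_orb (n L : ℕ) :
    ∑ i ∈ Finset.range (L * L), (if orb n i = true then 1 else 0) ≤ L := by
  classical
  rw [← Finset.card_filter]
  have hex : ∃ b, n ≤ b * b := ⟨n, Nat.le_mul_self n⟩
  set a := Nat.find hex with ha
  have haspec : n ≤ a * a := Nat.find_spec hex
  have hsub : ∀ i ∈ (Finset.range (L * L)).filter (fun i => orb n i = true),
      Nat.sqrt (n + i) ∈ Finset.Ico a (a + L) := by
    intro i hi
    rw [Finset.mem_filter, Finset.mem_range] at hi
    obtain ⟨hi1, hi2⟩ := hi
    obtain ⟨b, hb, _⟩ := x0_eq_true.mp hi2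
    rw [← hb, Nat.sqrt_eq, Finset.mem_Ico]
    constructor
    · exact Nat.find_min' hex (by omega)
    · by_contra hcon
      push Not at hcon
      have : (a + L) * (a + L) ≤ b * b := Nat.mul_self_le_mul_self hcon
      nlinarith
  have hinj : Set.InjOn (fun i => Nat.sqrt (n + i))
      ((Finset.range (L * L)).filter (fun i => orb n i = true) : Finset ℕ) := by
    intro i hi j hj hij
    rw [Finset.mem_coe, Finset.mem_filter, Finset.mem_range] at hi hj
    obtain ⟨b, hb, _⟩ := x0_eq_true.mp hi.2
    obtain ⟨c, hc, _⟩ := x0_eq_true.mp hj.2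
    simp only at hij
    rw [← hb, ← hc, Nat.sqrt_eq, Nat.sqrt_eq] at hij
    subst hij
    omega
  have := Finset.card_le_card_of_injOn (fun i => Nat.sqrt (n + i)) hsub hinj
  simpa using this

lemma count_K (y : X) (L : ℕ) :
    ∑ i ∈ Finset.range (L * L), (if y.1 i = true then 1 else 0) ≤ L := by
  have hclosed : IsClosed {z : ℕ → Bool | ∑ i ∈ Finset.range (L * L), (if z i = true then 1 else 0) ≤ L} := by
    have hc : Continuous fun z : ℕ → Bool => ∑ i ∈ Finset.range (L * L), (if z i = true then 1 else 0) := by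
      apply continuous_finsetSum
      intro i _
      exact (continuous_of_discreteTopology (f := fun b : Bool => if b = true then (1 : ℕ) else 0)).comp
        (continuous_apply i)
    exact isClosed_le hc continuous_const
  have hsub : K ⊆ {z : ℕ → Bool | ∑ i ∈ Finset.range (L * L), (if z i = true then 1 else 0) ≤ L} := by
    apply closure_minimal _ hclosed
    rintro _ ⟨n, rfl⟩
    exact count_orb n L
  exact hsub y.2

lemma zero_mem : (fun _ => false : ℕ → Bool) ∈ K := by
  have hlim : Tendsto (fun a : ℕ => orb (a * a + 1)) atTop (𝓝 (fun _ => false : ℕ → Bool)) := by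
    rw [tendsto_pi_nhds]
    intro i
    apply tendsto_const_nhds.congr'
    filter_upwards [eventually_ge_atTop (i + 1)] with a ha
    symm
    rw [← Bool.not_eq_true]
    intro h
    obtain ⟨b, hb, _⟩ := x0_eq_true.mp h
    rcases Nat.lt_or_ge a b with h1 | h1
    · have : (a + 1) * (a + 1) ≤ b * b := Nat.mul_self_le_mul_self h1
      nlinarith
    · have : b * b ≤ a * a := Nat.mul_self_le_mul_self h1
      omega
  exact mem_closure_of_tendsto hlim (Eventually.of_forall fun a => ⟨_, rfl⟩)

def z0 : X := ⟨fun _ => false, zero_mem⟩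

lemma T_z0 : T z0 = z0 := by
  apply Subtype.ext
  rfl

/-- the cylinder sets -/
def E (i : ℕ) : Set X := {y | y.1 i = true}

lemma E_meas (i : ℕ) : MeasurableSet (E i) := by
  have hc : Continuous fun y : X => y.1 i := (continuous_apply i).comp continuous_subtype_val
  have : IsOpen (E i) := by
    have h2 : E i = (fun y : X => y.1 i) ⁻¹' {true} := rfl
    rw [h2]
    exact (isOpen_discrete _).preimage hc
  exact this.measurableSet

lemma E_null (μ : Measure X) [IsProbabilityMeasure μ] (hμ : MeasurePreserving T μ μ) (i : ℕ) :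
    μ (E i) = 0 := by
  have hE : ∀ i, μ (E i) = μ (E 0) := by
    intro i
    have h1 : E i = (T^[i]) ⁻¹' (E 0) := by
      ext y
      show y.1 i = true ↔ (T^[i] y).1 0 = true
      rw [T_iter_apply, zero_add]
    rw [h1, (hμ.iterate i).measure_preimage (E_meas 0).nullMeasurableSet]
  rw [hE]
  have hbound : ∀ L : ℕ, (L * L : ℕ) * μ (E 0) ≤ L := by
    intro L
    have h1 : ∑ i ∈ Finset.range (L * L), μ (E i) = (L * L : ℕ) * μ (E 0) := by
      rw [Finset.sum_congr rfl (fun i _ => hE i)]
      simp
    rw [← h1]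
    have h2 : ∑ i ∈ Finset.range (L * L), μ (E i)
        = ∫⁻ y, ∑ i ∈ Finset.range (L * L), (E i).indicator (fun _ => (1 : ENNReal)) y ∂μ := by
      rw [lintegral_finsetSum _ (fun i _ => measurable_const.indicator (E_meas i))]
      apply Finset.sum_congr rfl
      intro i _
      rw [lintegral_indicator (E_meas i)]
      simp
    rw [h2]
    have h3 : ∫⁻ y, ∑ i ∈ Finset.range (L * L), (E i).indicator (fun _ => (1 : ENNReal)) y ∂μ
        ≤ ∫⁻ _, (L : ENNReal) ∂μ := by
      apply lintegral_mono
      intro y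
      have h4 := count_K y L
      have h5 : ∑ i ∈ Finset.range (L * L), (E i).indicator (fun _ => (1 : ENNReal)) y
          = ((∑ i ∈ Finset.range (L * L), (if y.1 i = true then 1 else 0) : ℕ) : ENNReal) := by
        rw [Nat.cast_sum]
        apply Finset.sum_congr rfl
        intro i _
        by_cases h : y.1 i = true
        · rw [Set.indicator_of_mem (show y ∈ E i from h), if_pos h]; simp
        · rw [Set.indicator_of_notMem (show y ∉ E i from h), if_neg h]; simp
      show ∑ i ∈ Finset.range (L * L), (E i).indicator (fun _ => (1 : ENNReal)) y ≤ (L : ENNReal)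
      rw [h5]
      exact_mod_cast h4
    refine h3.trans ?_
    simp
  by_contra hne
  have hpos : 0 < (μ (E 0)).toReal := ENNReal.toReal_pos hne (measure_ne_top μ _)
  obtain ⟨L, hL⟩ := exists_nat_gt (1 / (μ (E 0)).toReal)
  have h1 := hbound L
  have h2 := ENNReal.toReal_mono (by simp) h1
  rw [ENNReal.toReal_mul] at h2
  simp only [ENNReal.toReal_natCast] at h2
  push_cast at h2
  rw [div_lt_iff₀ hpos] at hL
  have hLpos : (0 : ℝ) < L := by
    by_contra hcon
    push Not at hcon
    have : (L : ℝ) * (μ (E 0)).toReal ≤ 0 := mul_nonpos_of_nonpos_of_nonneg hcon hpos.le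
    linarith
  nlinarith

lemma unique_measure : ∃! μ : Measure X, IsProbabilityMeasure μ ∧ MeasurePreserving T μ μ := by
  refine ⟨Measure.dirac z0, ⟨inferInstance, ⟨T_cont.measurable, ?_⟩⟩, ?_⟩
  · rw [Measure.map_dirac' T_cont.measurable, T_z0]
  · rintro μ ⟨h1, h2⟩
    have hnull : μ {z0}ᶜ = 0 := by
      have : ({z0}ᶜ : Set X) ⊆ ⋃ i, E i := by
        intro y hy
        rw [Set.mem_iUnion]
        by_contra hcon
        push Not at hcon
        apply hy
        rw [Set.mem_singleton_iff]
        apply Subtype.ext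
        funext i
        have := hcon i
        show y.1 i = false
        simpa [E] using this
      refine measure_mono_null this ?_
      rw [measure_iUnion_null_iff]
      intro i
      exact E_null μ h2 i
    ext s hs
    rw [Measure.dirac_apply' _ hs]
    by_cases hz : z0 ∈ s
    · rw [Set.indicator_of_mem hz]
      have h3 : μ sᶜ = 0 := measure_mono_null (by
        intro y hy
        intro hy2
        apply hy
        rw [Set.mem_singleton_iff] at hy2
        rw [hy2]; exact hz) hnull
      have h4 := prob_compl_eq_zero_iff (μ := μ) hs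
      exact h4.mp h3
    · rw [Set.indicator_of_notMem hz]
      refine measure_mono_null ?_ hnull
      intro y hy hy2
      rw [Set.mem_singleton_iff] at hy2
      rw [hy2] at hy
      exact hz hy

/-- the test function -/
noncomputable def f : C(X, ℝ) where
  toFun y := if y.1 0 = true then 1 else 0
  continuous_toFun := (continuous_of_discreteTopology (f := fun b : Bool => if b = true then (1 : ℝ) else 0)).comp
        ((continuous_apply 0).comp continuous_subtype_val)

lemma isolated : IsOpen ({pt} : Set X) := by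
  have hU : IsOpen {z : ℕ → Bool | z 0 = true ∧ z 1 = true} := by
    have h : {z : ℕ → Bool | z 0 = true ∧ z 1 = true}
        = (fun z : ℕ → Bool => z 0) ⁻¹' {true} ∩ (fun z : ℕ → Bool => z 1) ⁻¹' {true} := rfl
    rw [h]
    exact ((isOpen_discrete _).preimage (continuous_apply 0)).inter
      ((isOpen_discrete _).preimage (continuous_apply 1))
  have h1 : {z : ℕ → Bool | z 0 = true ∧ z 1 = true} ∩ K ⊆ {orb 0} := by
    have h2 : {z : ℕ → Bool | z 0 = true ∧ z 1 = true} ∩ Set.range orb ⊆ {orb 0} := by
      rintro _ ⟨⟨hz0, hz1⟩, n, rfl⟩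
      obtain ⟨a, ha, _⟩ := x0_eq_true.mp hz0
      obtain ⟨b, hb, _⟩ := x0_eq_true.mp hz1
      have hab : a < b := by
        by_contra hcon
        push Not at hcon
        have := Nat.mul_self_le_mul_self hcon
        omega
      have h3 : (a + 1) * (a + 1) ≤ b * b := Nat.mul_self_le_mul_self hab
      have h4 : a = 0 := by nlinarith
      have h5 : n = 0 := by
        rw [h4] at ha
        omega
      rw [h5]
      rfl
    have h6 := hU.inter_closure (t := Set.range orb)
    refine h6.trans ?_
    refine (closure_mono h2).trans ?_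
    rw [closure_singleton]
  have h7 : ({pt} : Set X) = Subtype.val ⁻¹' {z : ℕ → Bool | z 0 = true ∧ z 1 = true} := by
    ext y
    constructor
    · intro hy
      rw [Set.mem_singleton_iff] at hy
      rw [hy]
      refine ⟨x0_eq_true.mpr ⟨0, rfl, by simp⟩, x0_eq_true.mpr ⟨1, rfl, by simp⟩⟩
    · intro hy
      have := h1 ⟨hy, y.2⟩
      rw [Set.mem_singleton_iff] at this ⊢
      exact Subtype.ext this
  rw [h7]
  exact hU.preimage continuous_subtype_val

lemma f_val (n : ℕ) : f (T^[n * n] pt) = if Even (Nat.log 2 n) then 1 else 0 := by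
  rw [T_iter]
  show (if orb (n * n) 0 = true then (1 : ℝ) else 0) = _
  have : orb (n * n) 0 = true ↔ Even (Nat.log 2 n) := by
    show x0 (n * n + 0) = true ↔ _
    rw [add_zero, x0_eq_true]
    constructor
    · rintro ⟨m, hm, he⟩
      have : m = n := Nat.mul_self_inj.mp hm
      rwa [this] at he
    · intro h
      exact ⟨n, rfl, h⟩
  by_cases h : Even (Nat.log 2 n)
  · rw [if_pos (this.mpr h), if_pos h]
  · rw [if_neg (fun h' => h (this.mp h')), if_neg h]

/-- partial sums -/
noncomputable def a (N : ℕ) : ℝ := ∑ n ∈ Finset.range N, if Even (Nat.log 2 n) then (1 : ℝ) else 0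

lemma a_even (k : ℕ) : a (2 * 4 ^ k) = a (4 ^ k) + 4 ^ k := by
  unfold a
  rw [two_mul, Finset.sum_range_add]
  congr 1
  have : ∀ i ∈ Finset.range (4 ^ k), (if Even (Nat.log 2 (4 ^ k + i)) then (1 : ℝ) else 0) = 1 := by
    intro i hi
    rw [Finset.mem_range] at hi
    have : Nat.log 2 (4 ^ k + i) = 2 * k := by
      have h4 : (4 : ℕ) ^ k = 2 ^ (2 * k) := by rw [pow_mul]; norm_num
      apply Nat.log_eq_of_pow_le_of_lt_pow
      · rw [← h4]; omega
      · rw [pow_succ, ← h4]; omega
    rw [this, if_pos (even_two_mul k)]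
  rw [Finset.sum_congr rfl this]
  simp

lemma a_odd (k : ℕ) : a (2 * (2 * 4 ^ k)) = a (2 * 4 ^ k) := by
  unfold a
  rw [two_mul (2 * 4 ^ k), Finset.sum_range_add]
  have : ∀ i ∈ Finset.range (2 * 4 ^ k), (if Even (Nat.log 2 (2 * 4 ^ k + i)) then (1 : ℝ) else 0) = 0 := by
    intro i hi
    rw [Finset.mem_range] at hi
    have : Nat.log 2 (2 * 4 ^ k + i) = 2 * k + 1 := by
      have h4 : (4 : ℕ) ^ k = 2 ^ (2 * k) := by rw [pow_mul]; norm_num
      apply Nat.log_eq_of_pow_le_of_lt_pow
      · rw [pow_succ, ← h4]; omega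
      · rw [pow_succ, pow_succ, ← h4]; omega
    rw [this, if_neg (by
      rw [Nat.not_even_iff_odd]
      exact odd_two_mul_add_one k)]
  rw [Finset.sum_congr rfl this]
  simp

lemma not_conv (L : ℝ) : ¬ Tendsto (fun N : ℕ => (N : ℝ)⁻¹ * a N) atTop (𝓝 L) := by
  intro h
  have t1 : Tendsto (fun k : ℕ => 4 ^ k) atTop (atTop : Filter ℕ) :=
    tendsto_pow_atTop_atTop_of_one_lt (by norm_num)
  have t2 : Tendsto (fun k : ℕ => 2 * 4 ^ k) atTop (atTop : Filter ℕ) :=
    t1.const_mul_atTop' (by norm_num)
  have t3 : Tendsto (fun k : ℕ => 2 * (2 * 4 ^ k)) atTop (atTop : Filter ℕ) :=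
    t2.const_mul_atTop' (by norm_num)
  have h1 := h.comp t1
  have h2 := h.comp t2
  have h3 := h.comp t3
  have e2 : (fun N : ℕ => (N : ℝ)⁻¹ * a N) ∘ (fun k : ℕ => 2 * 4 ^ k)
      = fun k => (((fun N : ℕ => (N : ℝ)⁻¹ * a N) ∘ (fun k : ℕ => 4 ^ k)) k) / 2 + 1 / 2 := by
    funext k
    simp only [Function.comp]
    rw [a_even]
    push_cast
    have : (4 : ℝ) ^ k ≠ 0 := by positivity
    field_simp
  have e3 : (fun N : ℕ => (N : ℝ)⁻¹ * a N) ∘ (fun k : ℕ => 2 * (2 * 4 ^ k))
      = fun k => (((fun N : ℕ => (N : ℝ)⁻¹ * a N) ∘ (fun k : ℕ => 2 * 4 ^ k)) k) / 2 := by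
    funext k
    simp only [Function.comp]
    rw [a_odd]
    push_cast
    have : (4 : ℝ) ^ k ≠ 0 := by positivity
    field_simp
  rw [e2] at h2
  have u1 := tendsto_nhds_unique h2 ((h1.div_const 2).add_const (1 / 2))
  have h2' := h.comp t2
  rw [e3] at h3
  have u2 := tendsto_nhds_unique h3 (h2'.div_const 2)
  linarith

/-- The negation of the preceding statement: For every compact metric space with a continuous uniquely ergodic map T, every integer polynomial p nonnegative on the naturals, and every continuous real f, the averages (1/N)·Σ_{n<N} f(T^{p(n)}x) converge for all x outside a meagre set. -/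
theorem result :
    ¬ (∀ (X : Type) [MetricSpace X] [CompactSpace X] [MeasurableSpace X] [BorelSpace X]
      (T : X → X), Continuous T →
      (∃! μ : Measure X, IsProbabilityMeasure μ ∧ MeasurePreserving T μ μ) →
      ∀ p : Polynomial ℤ, (∀ n : ℕ, 0 ≤ p.eval (n : ℤ)) →
      ∀ f : C(X, ℝ),
        ∀ᶠ x in residual X, ∃ L : ℝ,
          Tendsto (fun N : ℕ => (N : ℝ)⁻¹ *
              ∑ n ∈ Finset.range N, f (T^[(p.eval (n : ℤ)).toNat] x))
            atTop (𝓝 L)) := by
  intro hmain
  have h := hmain X T T_cont unique_measure (Polynomial.X ^ 2) (by intro n; simp) f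
  have hd : Dense {x : X | ∃ L : ℝ, Tendsto (fun N : ℕ => (N : ℝ)⁻¹ *
              ∑ n ∈ Finset.range N, f (T^[((Polynomial.X ^ 2 : Polynomial ℤ).eval (n : ℤ)).toNat] x))
            atTop (𝓝 L)} := dense_of_mem_residual h
  obtain ⟨y, hy1, hy2⟩ := hd.inter_open_nonempty {pt} isolated ⟨pt, rfl⟩
  rw [Set.mem_singleton_iff] at hy1
  rw [hy1] at hy2
  obtain ⟨L, hL⟩ := hy2
  apply not_conv L
  refine hL.congr ?_
  intro N
  congr 1
  unfold a
  apply Finset.sum_congr rfl
  intro n _
  rw [← f_val]
  congr 3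
  simp [sq]
  norm_cast

end Pool.Agent.S05326
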