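import Pool.Statements.S05335
-- import your own Pool.Agent.* helpers here

set_option autoImplicit false
open Pool Pool.MP_8c09cc_an

namespace Pool.Agent.S05335

open Set Topology

section Aux

variable {k : ℕ} {X : Type} [NormedAddCommGroup X] [NormedSpace ℂ X]
  {K : Type} [TopologicalSpace K] [CompactSpace K]

/-- The pointwise action of a multilinear map on `C(K, X)`. -/
noncomputable def lift (A : ContinuousMultilinearMap ℂ (fun _ : Fin k => X) X) :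
    ContinuousMultilinearMap ℂ (fun _ : Fin k => C(K, X)) C(K, X) :=
  MultilinearMap.mkContinuous
    { toFun := fun f => ⟨fun t => A (fun i => f i t), by fun_prop⟩
      map_update_add' := by
        intro _ m i x y
        ext t
        have key : ∀ z : C(K, X), (fun j => (Function.update m i z j) t) =
            Function.update (fun j => m j t) i (z t) := by
          intro z
          funext j
          exact Function.apply_update (fun _ (g : C(K, X)) => g t) m i z j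
        change A (fun j => (Function.update m i (x + y) j) t) =
          A (fun j => (Function.update m i x j) t) + A (fun j => (Function.update m i y j) t)
        rw [key, key, key, ContinuousMap.add_apply, A.map_update_add]
      map_update_smul' := by
        intro _ m i c x
        ext t
        have key : ∀ z : C(K, X), (fun j => (Function.update m i z j) t) =
            Function.update (fun j => m j t) i (z t) := by
          intro z
          funext j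
          exact Function.apply_update (fun _ (g : C(K, X)) => g t) m i z j
        change A (fun j => (Function.update m i (c • x) j) t) =
          c • A (fun j => (Function.update m i x j) t)
        rw [key, key, ContinuousMap.smul_apply, A.map_update_smul] }
    ‖A‖ (by
      intro f
      rw [ContinuousMap.norm_le _ (by positivity)]
      intro t
      refine (A.le_opNorm _).trans ?_
      gcongr with i
      exact (f i).norm_coe_le_norm t)

theorem lift_apply (A : ContinuousMultilinearMap ℂ (fun _ : Fin k => X) X) (f : Fin k → C(K, X))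
    (t : K) : lift A f t = A (fun i => f i t) := rfl

/-- Growth of the norm in the direction of `A x`. -/
theorem growth (A : ContinuousMultilinearMap ℂ (fun _ : Fin k => X) X) {v : ℝ} (hv0 : 0 ≤ v)
    (hv : ∀ (x : X) (φ : X →L[ℂ] ℂ), ‖x‖ = 1 → ‖φ‖ = 1 → φ x = 1 → ‖φ (A fun _ => x)‖ ≤ v)
    {x : X} (hx : ‖x‖ ≤ 1) {ω : ℂ} (hω : ‖ω‖ = 1) {l : ℝ} (hl : 0 < l) :
    ‖x + ((l : ℂ) * ω) • A (fun _ => x)‖ ≤ 1 + l * (v + 2 * k * ‖A‖ ^ 2 * l) := by
  set z : X := x + ((l : ℂ) * ω) • A (fun _ => x) with hz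
  by_cases hz1 : ‖z‖ ≤ 1
  · refine hz1.trans ?_
    have : 0 ≤ l * (v + 2 * k * ‖A‖ ^ 2 * l) := by positivity
    linarith
  push Not at hz1
  have hz0 : ‖z‖ ≠ 0 := by positivity
  have hAx : ∀ y : X, ‖y‖ ≤ 1 → ‖A fun _ => y‖ ≤ ‖A‖ := by
    intro y hy
    refine (A.le_opNorm _).trans ?_
    refine mul_le_of_le_one_right (norm_nonneg _) ?_
    exact Finset.prod_le_one (fun _ _ => norm_nonneg _) fun _ _ => hy
  have hzx : ‖z - x‖ ≤ l * ‖A‖ := by
    rw [hz, add_sub_cancel_left, norm_smul, norm_mul, hω, mul_one, Complex.norm_real,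
      Real.norm_of_nonneg hl.le]
    exact mul_le_mul_of_nonneg_left (hAx x hx) hl.le
  obtain ⟨φ, hφ, hφz⟩ := exists_dual_vector ℂ z hz0
  set u : X := ((‖z‖ : ℂ)⁻¹) • z with hu
  have hu1 : ‖u‖ = 1 := by
    rw [hu, norm_smul, norm_inv, Complex.norm_real, norm_norm, inv_mul_cancel₀ hz0]
  have hφu : φ u = 1 := by
    rw [hu, map_smul, hφz, smul_eq_mul]
    exact inv_mul_cancel₀ (by exact_mod_cast hz0)
  have huz : ‖u - z‖ = ‖z‖ - 1 := by
    have : u - z = ((‖z‖ : ℂ)⁻¹ - 1) • z := by rw [hu, sub_smul, one_smul]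
    rw [this, norm_smul]
    have h2 : ((‖z‖ : ℂ)⁻¹ - 1) = (((‖z‖)⁻¹ - 1 : ℝ) : ℂ) := by push_cast; ring
    rw [h2, Complex.norm_real, Real.norm_eq_abs, abs_sub_comm, abs_of_nonneg, sub_mul, one_mul,
      inv_mul_cancel₀ hz0]
    rw [sub_nonneg]
    exact inv_le_one_of_one_le₀ hz1.le
  have hux : ‖u - x‖ ≤ 2 * l * ‖A‖ := by
    have h1 : u - x = (u - z) + (z - x) := by abel
    have h2 : ‖z‖ ≤ ‖x‖ + ‖z - x‖ := by
      have := norm_add_le x (z - x)
      rwa [add_sub_cancel] at this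
    rw [h1]
    refine (norm_add_le _ _).trans ?_
    rw [huz]
    linarith
  have hA : ‖(A fun _ => u) - A fun _ => x‖ ≤ 2 * k * ‖A‖ ^ 2 * l := by
    have h1 := A.norm_image_sub_le (fun _ => u) (fun _ => x)
    have h2 : ‖(fun _ : Fin k => u)‖ ≤ 1 := (pi_norm_const_le u).trans hu1.le
    have h3 : ‖(fun _ : Fin k => x)‖ ≤ 1 := (pi_norm_const_le x).trans hx
    have h4 : ‖(fun _ : Fin k => u) - (fun _ => x)‖ ≤ 2 * l * ‖A‖ := by
      refine le_trans ?_ hux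
      exact pi_norm_const_le (u - x)
    have h5 : max ‖(fun _ : Fin k => u)‖ ‖(fun _ : Fin k => x)‖ ^ (Fintype.card (Fin k) - 1) ≤ 1 :=
      pow_le_one₀ (le_max_of_le_left (norm_nonneg _)) (max_le h2 h3)
    rw [Fintype.card_fin] at h1 h5
    refine h1.trans ?_
    calc ‖A‖ * k * max ‖(fun _ : Fin k => u)‖ ‖(fun _ : Fin k => x)‖ ^ (k - 1) *
          ‖(fun _ : Fin k => u) - (fun _ => x)‖ ≤ ‖A‖ * k * 1 * (2 * l * ‖A‖) := by gcongr
      _ = 2 * k * ‖A‖ ^ 2 * l := by ring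
  have h1 : ‖φ (A fun _ => x)‖ ≤ v + 2 * k * ‖A‖ ^ 2 * l := by
    have h2 := hv u φ hu1 hφ hφu
    have h3 : ‖φ ((A fun _ => u) - A fun _ => x)‖ ≤ ‖(A fun _ => u) - A fun _ => x‖ := by
      have := φ.le_opNorm ((A fun _ => u) - A fun _ => x)
      rwa [hφ, one_mul] at this
    rw [map_sub] at h3
    have h4 := norm_sub_norm_le (φ (A fun _ => x)) (φ (A fun _ => u))
    rw [norm_sub_rev] at h4
    linarith
  have h2 : φ z = φ x + ((l : ℂ) * ω) * φ (A fun _ => x) := by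
    rw [hz, map_add, map_smul, smul_eq_mul]
  have h3 : ‖φ z‖ = ‖z‖ := by rw [hφz]; simp
  rw [← h3, h2]
  refine (norm_add_le _ _).trans ?_
  rw [norm_mul, norm_mul, hω, mul_one, Complex.norm_real, Real.norm_of_nonneg hl.le]
  have h4 : ‖φ x‖ ≤ 1 := by
    have := φ.le_opNorm x
    rw [hφ, one_mul] at this
    exact this.trans hx
  have h5 := mul_le_mul_of_nonneg_left h1 hl.le
  linarith

/-- The easy inequality: pointwise polynomials. -/
theorem radius_lift_le (A : ContinuousMultilinearMap ℂ (fun _ : Fin k => X) X) {v : ℝ}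
    (hv0 : 0 ≤ v)
    (hv : ∀ (x : X) (φ : X →L[ℂ] ℂ), ‖x‖ = 1 → ‖φ‖ = 1 → φ x = 1 → ‖φ (A fun _ => x)‖ ≤ v)
    {f : C(K, X)} {F : C(K, X) →L[ℂ] ℂ} (hf : ‖f‖ = 1) (hF : ‖F‖ = 1) (hFf : F f = 1) :
    ‖F (lift A fun _ => f)‖ ≤ v := by
  set w := F (lift A fun _ => f) with hw
  by_cases hw0 : w = 0
  · rw [hw0, norm_zero]; exact hv0
  have hwn : ‖w‖ ≠ 0 := norm_ne_zero_iff.mpr hw0
  -- a unimodular number rotating `w` to the positive half-line
  set ω : ℂ := (starRingEnd ℂ) w / (‖w‖ : ℂ) with hω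
  have hω1 : ‖ω‖ = 1 := by
    rw [hω, norm_div, RCLike.norm_conj, Complex.norm_real, norm_norm, div_self hwn]
  have hωw : ω * w = (‖w‖ : ℂ) := by
    have h1 : (‖w‖ : ℂ) ≠ 0 := by exact_mod_cast hwn
    rw [hω, div_mul_eq_mul_div, div_eq_iff h1, mul_comm, Complex.mul_conj, Complex.normSq_eq_norm_sq]
    push_cast
    ring
  have key : ∀ l : ℝ, 0 < l → ‖w‖ ≤ v + 2 * k * ‖A‖ ^ 2 * l := by
    intro l hl
    have h1 : ‖f + ((l : ℂ) * ω) • (lift A fun _ => f)‖ ≤ 1 + l * (v + 2 * k * ‖A‖ ^ 2 * l) := by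
      rw [ContinuousMap.norm_le _ (by positivity)]
      intro t
      exact growth A hv0 hv ((f.norm_coe_le_norm t).trans hf.le) hω1 hl
    have h2 : F (f + ((l : ℂ) * ω) • (lift A fun _ => f)) = ((1 + l * ‖w‖ : ℝ) : ℂ) := by
      rw [map_add, map_smul, hFf, smul_eq_mul, ← hw, mul_assoc, hωw]
      push_cast
      ring
    have h3 := F.le_opNorm (f + ((l : ℂ) * ω) • (lift A fun _ => f))
    rw [h2, hF, one_mul, Complex.norm_real, Real.norm_of_nonneg (by positivity)] at h3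
    have h4 : l * ‖w‖ ≤ l * (v + 2 * k * ‖A‖ ^ 2 * l) := by linarith
    exact le_of_mul_le_mul_left h4 hl
  refine le_of_forall_pos_le_add fun ε hε => ?_
  have h1 := key (ε / (2 * k * ‖A‖ ^ 2 + 1)) (by positivity)
  refine h1.trans ?_
  have h2 : 2 * (k : ℝ) * ‖A‖ ^ 2 * (ε / (2 * k * ‖A‖ ^ 2 + 1)) ≤ ε := by
    rw [mul_div_assoc', div_le_iff₀ (by positivity)]
    nlinarith [hε.le]
  linarith

/-- The map `x ↦ x*(x) (1 - φ) f₀ + φ x`. -/
noncomputable def Phi (φ : C(K, ℝ)) (f₀ : C(K, X)) (s : X →L[ℂ] ℂ) (hφ : ∀ t, 0 ≤ φ t ∧ φ t ≤ 1)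
    (hf₀ : ‖f₀‖ ≤ 1) (hs : ‖s‖ = 1) : X →L[ℂ] C(K, X) :=
  LinearMap.mkContinuous
    { toFun := fun x => ⟨fun t => s x • (((1 - φ t : ℝ) : ℂ) • f₀ t) + ((φ t : ℝ) : ℂ) • x,
        by fun_prop⟩
      map_add' := by
        intro x y
        ext t
        change s (x + y) • (((1 - φ t : ℝ) : ℂ) • f₀ t) + ((φ t : ℝ) : ℂ) • (x + y) =
          (s x • (((1 - φ t : ℝ) : ℂ) • f₀ t) + ((φ t : ℝ) : ℂ) • x) +
          (s y • (((1 - φ t : ℝ) : ℂ) • f₀ t) + ((φ t : ℝ) : ℂ) • y)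
        rw [map_add, add_smul, smul_add]
        abel
      map_smul' := by
        intro c x
        ext t
        change s (c • x) • (((1 - φ t : ℝ) : ℂ) • f₀ t) + ((φ t : ℝ) : ℂ) • (c • x) =
          c • (s x • (((1 - φ t : ℝ) : ℂ) • f₀ t) + ((φ t : ℝ) : ℂ) • x)
        rw [map_smul, smul_add, smul_assoc, smul_comm c _ x] }
    1 (by
      intro x
      rw [one_mul, ContinuousMap.norm_le _ (norm_nonneg _)]
      intro t
      change ‖s x • (((1 - φ t : ℝ) : ℂ) • f₀ t) + ((φ t : ℝ) : ℂ) • x‖ ≤ ‖x‖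
      refine (norm_add_le _ _).trans ?_
      rw [norm_smul, norm_smul, norm_smul, Complex.norm_real, Complex.norm_real,
        Real.norm_of_nonneg (hφ t).1, Real.norm_of_nonneg (by linarith [(hφ t).2])]
      have h1 : ‖s x‖ ≤ ‖x‖ := by
        have := s.le_opNorm x
        rwa [hs, one_mul] at this
      have h2 : ‖f₀ t‖ ≤ 1 := (f₀.norm_coe_le_norm t).trans hf₀
      have h3 : 0 ≤ 1 - φ t := by linarith [(hφ t).2]
      calc ‖s x‖ * ((1 - φ t) * ‖f₀ t‖) + φ t * ‖x‖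
          ≤ ‖x‖ * ((1 - φ t) * 1) + φ t * ‖x‖ := by gcongr
        _ = ‖x‖ := by ring)

theorem Phi_apply {φ : C(K, ℝ)} {f₀ : C(K, X)} {s : X →L[ℂ] ℂ} {hφ : ∀ t, 0 ≤ φ t ∧ φ t ≤ 1}
    {hf₀ : ‖f₀‖ ≤ 1} {hs : ‖s‖ = 1} (x : X) (t : K) :
    Phi φ f₀ s hφ hf₀ hs x t = s x • (((1 - φ t : ℝ) : ℂ) • f₀ t) + ((φ t : ℝ) : ℂ) • x := rfl

theorem norm_Phi_le {φ : C(K, ℝ)} {f₀ : C(K, X)} {s : X →L[ℂ] ℂ} {hφ : ∀ t, 0 ≤ φ t ∧ φ t ≤ 1}
    {hf₀ : ‖f₀‖ ≤ 1} {hs : ‖s‖ = 1} (x : X) : ‖Phi φ f₀ s hφ hf₀ hs x‖ ≤ ‖x‖ := by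
  have h1 : ‖Phi φ f₀ s hφ hf₀ hs‖ ≤ 1 := LinearMap.mkContinuous_norm_le _ zero_le_one _
  have h2 := (Phi φ f₀ s hφ hf₀ hs).le_opNorm x
  calc _ ≤ _ := h2
    _ ≤ 1 * ‖x‖ := by gcongr
    _ = ‖x‖ := one_mul _

theorem exists_sphere [Nontrivial X]
    (A : ContinuousMultilinearMap ℂ (fun _ : Fin k => C(K, X)) C(K, X))
    {f₀ : C(K, X)} (hf₀ : ‖f₀‖ ≤ 1) (t₀ : K) {η : ℝ} (hη : 0 < η) :
    ∃ (φ : C(K, ℝ)) (z : X), (∀ t, 0 ≤ φ t ∧ φ t ≤ 1) ∧ φ t₀ = 1 ∧ ‖z‖ = 1 ∧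
      ∀ g : C(K, X), (∀ t, g t = ((1 - φ t : ℝ) : ℂ) • f₀ t + ((φ t : ℝ) : ℂ) • z) →
        ‖A (fun _ => f₀) t₀‖ - η ≤ ‖A (fun _ => g) t₀‖ := by
  have hcont : Continuous fun g : C(K, X) => A fun _ => g := by fun_prop
  obtain ⟨δ, hδ, hδA⟩ := Metric.continuous_iff.mp hcont f₀ η hη
  -- the bump function
  let φ : C(K, ℝ) := ⟨fun t => max 0 (1 - ‖f₀ t - f₀ t₀‖ * (2 / δ)), by fun_prop⟩
  have hφ0 : ∀ t, 0 ≤ φ t := fun t => le_max_left _ _
  have hφ1 : ∀ t, φ t ≤ 1 := fun t => max_le zero_le_one (by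
    have : 0 ≤ ‖f₀ t - f₀ t₀‖ * (2 / δ) := by positivity
    linarith)
  have hφt : φ t₀ = 1 := by
    change max 0 (1 - ‖f₀ t₀ - f₀ t₀‖ * (2 / δ)) = 1
    simp
  have hφs : ∀ t, φ t * ‖f₀ t - f₀ t₀‖ ≤ δ / 2 := by
    intro t
    by_cases h : ‖f₀ t - f₀ t₀‖ ≤ δ / 2
    · calc φ t * ‖f₀ t - f₀ t₀‖ ≤ 1 * (δ / 2) :=
          mul_le_mul (hφ1 t) h (norm_nonneg _) zero_le_one
        _ = δ / 2 := one_mul _
    · push Not at h
      have h1 : φ t = 0 := by
        change max 0 (1 - ‖f₀ t - f₀ t₀‖ * (2 / δ)) = 0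
        refine max_eq_left ?_
        have : δ / 2 * (2 / δ) ≤ ‖f₀ t - f₀ t₀‖ * (2 / δ) := by gcongr
        have h2 : δ / 2 * (2 / δ) = 1 := by field_simp
        linarith
      rw [h1, zero_mul]
      positivity
  -- a unit vector in the direction of `f₀ t₀`
  obtain ⟨u, hu, r, hr0, hr1, hru⟩ : ∃ u : X, ‖u‖ = 1 ∧ ∃ r : ℝ, 0 ≤ r ∧ r ≤ 1 ∧
      f₀ t₀ = (r : ℂ) • u := by
    by_cases h : f₀ t₀ = 0
    · obtain ⟨u, hu⟩ := exists_norm_eq X (c := 1) zero_le_one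
      exact ⟨u, hu, 0, le_rfl, zero_le_one, by rw [h]; simp⟩
    · have h1 : ‖f₀ t₀‖ ≠ 0 := norm_ne_zero_iff.mpr h
      refine ⟨((‖f₀ t₀‖ : ℂ)⁻¹) • f₀ t₀, ?_, ‖f₀ t₀‖, norm_nonneg _,
        (f₀.norm_coe_le_norm t₀).trans hf₀, ?_⟩
      · rw [norm_smul, norm_inv, Complex.norm_real, norm_norm, inv_mul_cancel₀ h1]
      · rw [smul_smul, mul_inv_cancel₀ (by exact_mod_cast h1), one_smul]
  let G₀ : C(K, X) := ⟨fun t => ((1 - φ t : ℝ) : ℂ) • f₀ t, by fun_prop⟩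
  let U : C(K, X) := ⟨fun t => ((φ t : ℝ) : ℂ) • u, by fun_prop⟩
  let h : ℂ → X := fun ζ => (A fun _ => G₀ + ζ • U) t₀
  have hdiff : Differentiable ℂ h := by
    have h1 : Differentiable ℂ fun ζ : ℂ => G₀ + ζ • U := by fun_prop
    have h2 : Differentiable ℂ fun m : Fin k → C(K, X) => A m :=
      (ContinuousMultilinearMap.contDiff A (n := 1)).differentiable one_ne_zero
    have h3 : Differentiable ℂ fun ζ : ℂ => A fun _ => G₀ + ζ • U :=
      h2.comp (differentiable_pi.mpr fun _ => h1)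
    exact (ContinuousMap.evalCLM ℂ t₀ : C(K, X) →L[ℂ] X).differentiable.comp h3
  obtain ⟨ζ, hζ, hmax⟩ := Complex.exists_mem_frontier_isMaxOn_norm (f := h)
    (U := Metric.ball (0 : ℂ) 1) Metric.isBounded_ball ⟨0, by simp⟩ hdiff.diffContOnCl
  rw [frontier_ball _ one_ne_zero, mem_sphere_zero_iff_norm] at hζ
  have hr : ‖h r‖ ≤ ‖h ζ‖ := by
    refine hmax ?_
    rw [closure_ball _ one_ne_zero, mem_closedBall_zero_iff, Complex.norm_real,
      Real.norm_of_nonneg hr0]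
    exact hr1
  refine ⟨φ, ζ • u, fun t => ⟨hφ0 t, hφ1 t⟩, hφt, by rw [norm_smul, hζ, hu, one_mul], ?_⟩
  intro g hg
  have hg' : g = G₀ + ζ • U := by
    ext t
    rw [hg]
    change _ = ((1 - φ t : ℝ) : ℂ) • f₀ t + ζ • (((φ t : ℝ) : ℂ) • u)
    rw [smul_comm ζ]
  have h1 : ‖A (fun _ => g) t₀‖ = ‖h ζ‖ := by rw [hg']
  rw [h1]
  refine le_trans ?_ hr
  have h2 : dist (G₀ + (r : ℂ) • U) f₀ < δ := by
    rw [dist_eq_norm]
    refine lt_of_le_of_lt (b := δ / 2) ?_ (by linarith)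
    rw [ContinuousMap.norm_le _ (by positivity)]
    intro t
    have h3 : (G₀ + (r : ℂ) • U - f₀) t = -(((φ t : ℝ) : ℂ) • (f₀ t - f₀ t₀)) := by
      change ((1 - φ t : ℝ) : ℂ) • f₀ t + (r : ℂ) • (((φ t : ℝ) : ℂ) • u) - f₀ t = _
      rw [smul_comm (r : ℂ), ← hru]
      push_cast
      module
    rw [h3, norm_neg, norm_smul, Complex.norm_real, Real.norm_of_nonneg (hφ0 t)]
    exact hφs t
  have h3 := hδA _ h2
  rw [dist_eq_norm] at h3
  have h4 : ‖(A (fun _ => G₀ + (r : ℂ) • U)) t₀ - A (fun _ => f₀) t₀‖ ≤ η := by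
    refine le_trans ?_ h3.le
    exact ((A fun _ => G₀ + (r : ℂ) • U) - A fun _ => f₀).norm_coe_le_norm t₀
  have h5 := norm_sub_norm_le (A (fun _ => f₀) t₀) ((A (fun _ => G₀ + (r : ℂ) • U)) t₀)
  rw [norm_sub_rev] at h5
  change ‖A (fun _ => f₀) t₀‖ - η ≤ ‖(A (fun _ => G₀ + (r : ℂ) • U)) t₀‖
  linarith

end Aux

/-- For every k ≥ 1, nontrivial complex Banach space X and nonempty compact Hausdorff K, the k-th polynomial numerical index of C(K,X) equals that of X: a constant c bounds v(P) ≥ c‖P‖ for all k-homogeneous P on X iff it does on C(K,X). -/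
theorem result :
  ∀ (k : ℕ), 1 ≤ k →
  ∀ (X : Type) [NormedAddCommGroup X] [NormedSpace ℂ X] [CompleteSpace X] [Nontrivial X],
  ∀ (K : Type) [TopologicalSpace K] [CompactSpace K] [T2Space K] [Nonempty K],
  ∀ c : ℝ,
    (∀ (A : ContinuousMultilinearMap ℂ (fun _ : Fin k => X) X) (y : X), ‖y‖ ≤ 1 →
      ∀ ε : ℝ, 0 < ε →
        ∃ (x : X) (f : X →L[ℂ] ℂ), ‖x‖ = 1 ∧ ‖f‖ = 1 ∧ f x = 1 ∧
          c * ‖A (fun _ => y)‖ - ε < ‖f (A (fun _ => x))‖) ↔
    (∀ (A : ContinuousMultilinearMap ℂ (fun _ : Fin k => C(K, X)) C(K, X)) (y : C(K, X)),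
      ‖y‖ ≤ 1 → ∀ ε : ℝ, 0 < ε →
        ∃ (x : C(K, X)) (f : C(K, X) →L[ℂ] ℂ), ‖x‖ = 1 ∧ ‖f‖ = 1 ∧ f x = 1 ∧
          c * ‖A (fun _ => y)‖ - ε < ‖f (A (fun _ => x))‖) := by
  intro k hk X _ _ _ _ K _ _ _ _ c
  constructor
  · intro H A y hy ε hε
    -- the point at which the norm is attained
    obtain ⟨t₀, ht₀⟩ : ∃ t₀ : K, ‖A (fun _ => y) t₀‖ = ‖A (fun _ => y)‖ := by
      obtain ⟨t₀, -, h⟩ := isCompact_univ.exists_isMaxOn (s := (univ : Set K)) univ_nonempty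
        (f := fun t => ‖A (fun _ => y) t‖) (by fun_prop)
      refine ⟨t₀, le_antisymm (ContinuousMap.norm_coe_le_norm _ _) ?_⟩
      rw [ContinuousMap.norm_le _ (norm_nonneg _)]
      exact fun t => h (mem_univ t)
    set η : ℝ := ε / (2 * (|c| + 1)) with hη
    have hη0 : 0 < η := by positivity
    obtain ⟨φ, z, hφ, hφt, hz, hg⟩ := exists_sphere A hy t₀ hη0
    obtain ⟨s, hs, hsz⟩ := exists_dual_vector ℂ z (by rw [hz]; exact one_ne_zero)
    rw [hz] at hsz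
    have hsz' : s z = 1 := by rw [hsz]; norm_num
    let Φ := Phi φ y s hφ hy hs
    let Q : ContinuousMultilinearMap ℂ (fun _ : Fin k => X) X :=
      (ContinuousMap.evalCLM ℂ t₀ : C(K, X) →L[ℂ] X).compContinuousMultilinearMap
        (A.compContinuousLinearMap fun _ => Φ)
    have hQ : ∀ x : X, Q (fun _ => x) = A (fun _ => Φ x) t₀ := fun x => rfl
    obtain ⟨x, ψ, hx, hψ, hψx, hlt⟩ := H Q z hz.le (ε / 2) (by positivity)
    have hΦt : ∀ x : X, Φ x t₀ = x := by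
      intro x
      rw [Phi_apply, hφt]
      simp
    have hev : ∀ g : C(K, X), (ψ.comp (ContinuousMap.evalCLM ℂ t₀ : C(K, X) →L[ℂ] X)) g =
      ψ (g t₀) := fun g => rfl
    have hΦx : ‖Φ x‖ = 1 := by
      refine le_antisymm ((norm_Phi_le x).trans hx.le) ?_
      have := (Φ x).norm_coe_le_norm t₀
      rwa [hΦt, hx] at this
    refine ⟨Φ x, ψ.comp (ContinuousMap.evalCLM ℂ t₀ : C(K, X) →L[ℂ] X), hΦx, ?_, ?_, ?_⟩
    · refine le_antisymm (ContinuousLinearMap.opNorm_le_bound _ zero_le_one fun g => ?_) ?_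
      · rw [hev, one_mul]
        have h1 := ψ.le_opNorm (g t₀)
        rw [hψ, one_mul] at h1
        exact h1.trans (g.norm_coe_le_norm t₀)
      · have h1 := (ψ.comp (ContinuousMap.evalCLM ℂ t₀ : C(K, X) →L[ℂ] X)).le_opNorm (Φ x)
        rwa [hev, hΦt, hψx, hΦx, mul_one, norm_one] at h1
    · rw [hev, hΦt, hψx]
    · rw [hev, ← hQ x]
      have h1 : ‖A (fun _ => y)‖ - η ≤ ‖Q fun _ => z‖ := by
        rw [hQ, ← ht₀]
        refine hg (Φ z) fun t => ?_
        rw [Phi_apply, hsz', one_smul]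
      rcases le_or_gt 0 c with hc | hc
      · refine lt_of_le_of_lt ?_ hlt
        have h2 := mul_le_mul_of_nonneg_left h1 hc
        have h3 : c * η ≤ ε / 2 := by
          rw [hη, abs_of_nonneg hc, mul_div_assoc', div_le_iff₀ (by positivity)]
          nlinarith
        linarith
      · have h2 : c * ‖A fun _ => y‖ ≤ 0 :=
          mul_nonpos_of_nonpos_of_nonneg hc.le (norm_nonneg _)
        have h3 := norm_nonneg (ψ (Q fun _ => x))
        linarith
  · intro H A y hy ε hε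
    by_contra hcon
    push Not at hcon
    obtain ⟨x, F, hx, hF, hFx, hlt⟩ := H (lift A) (ContinuousMap.const K y) (by
      rw [ContinuousMap.norm_le _ zero_le_one]
      exact fun _ => hy) (ε / 2) (by positivity)
    have h0 : ‖lift A fun _ => ContinuousMap.const K y‖ = ‖A fun _ => y‖ := by
      have : (lift A fun _ => ContinuousMap.const K y) = ContinuousMap.const K (A fun _ => y) := by
        ext t; rfl
      rw [this]
      refine le_antisymm ?_ ?_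
      · rw [ContinuousMap.norm_le _ (norm_nonneg _)]
        exact fun _ => le_rfl
      · exact (ContinuousMap.const K (A fun _ => y)).norm_coe_le_norm (Classical.arbitrary K)
    rw [h0] at hlt
    have hstate : ∃ (x : X) (φ : X →L[ℂ] ℂ), ‖x‖ = 1 ∧ ‖φ‖ = 1 ∧ φ x = 1 := by
      obtain ⟨u, hu⟩ := exists_norm_eq X (c := 1) zero_le_one
      obtain ⟨s, hs, hsz⟩ := exists_dual_vector ℂ u (by rw [hu]; exact one_ne_zero)
      rw [hu] at hsz
      exact ⟨u, s, hu, hs, by rw [hsz]; norm_num⟩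
    obtain ⟨u, s, hu, hs, hsu⟩ := hstate
    have hv0 : 0 ≤ c * ‖A fun _ => y‖ - ε := (norm_nonneg _).trans (hcon u s hu hs hsu)
    have h1 := radius_lift_le (K := K) A hv0 hcon hx hF hFx
    linarith

end Pool.Agent.S05335
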