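import Pool.Statements.S05348

set_option autoImplicit false
open Filter Topology
open Pool Pool.MP_8d2143_an

namespace Pool.Agent.S05348

noncomputable section

open scoped BoundedContinuousFunction

abbrev H : Type := EuclideanSpace ℂ (Fin 2)
abbrev B0 : Type := H →L[ℂ] H

/-- the vector `(1,t)` -/
def v (t : ℝ) : H := !₂[(1:ℂ), (t:ℂ)]

/-- the projection onto the line through `(1,t)` -/
def E0 (t : ℝ) : B0 := (Submodule.span ℂ {v t}).starProjection

lemma E0_idem (t : ℝ) : E0 t * E0 t = E0 t := by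
  have h := (isStarProjection_starProjection (U := Submodule.span ℂ {v t})).isIdempotentElem
  exact h

lemma E0_star (t : ℝ) : star (E0 t) = E0 t := by
  have h := (isStarProjection_starProjection (U := Submodule.span ℂ {v t})).isSelfAdjoint
  exact h

lemma E0_apply (t : ℝ) (x : H) : ∃ c : ℂ, E0 t x = c • v t := by
  have h : E0 t x ∈ Submodule.span ℂ {v t} := Submodule.starProjection_apply_mem _ x
  obtain ⟨c, hc⟩ := Submodule.mem_span_singleton.1 h
  exact ⟨c, hc.symm⟩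

lemma E0_v (t : ℝ) : E0 t (v t) = v t :=
  Submodule.starProjection_eq_self_iff.2 (Submodule.mem_span_singleton_self _)

lemma E0_norm_le (t : ℝ) (x : H) : ‖E0 t x‖ ≤ ‖x‖ := 
  Submodule.norm_starProjection_apply_le _ x

lemma E0_zero_apply (x : H) : E0 0 x = !₂[x 0, 0] := by
  obtain ⟨c, hc⟩ := E0_apply 0 x
  have hdec : x = !₂[x 0, 0] + !₂[0, x 1] := by
    ext i; fin_cases i <;> simp
  have h1 : E0 0 (!₂[x 0, 0]) = !₂[x 0, 0] := by
    have : (!₂[x 0, 0] : H) = (x 0) • v 0 := by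
      ext i; fin_cases i <;> simp [v]
    rw [this, map_smul, E0_v]
  have h2 : E0 0 (!₂[0, x 1]) = 0 := by
    apply Submodule.starProjection_apply_eq_zero_iff _ |>.2
    rw [Submodule.mem_orthogonal_singleton_iff_inner_right]
    simp [v, PiLp.inner_apply, Fin.sum_univ_two]
  conv_lhs => rw [hdec, map_add, h1, h2, add_zero]

lemma E0_ne0_norm (t : ℝ) : (1:ℝ) ≤ ‖E0 t‖ := by
  have hv : v t ≠ 0 := by
    intro h
    have := congrArg (fun x : H => x 0) h
    simp [v] at this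
  have h1 : ‖E0 t (v t)‖ ≤ ‖E0 t‖ * ‖v t‖ := (E0 t).le_opNorm _
  rw [E0_v] at h1
  have h2 : 0 < ‖v t‖ := norm_pos_iff.2 hv
  nlinarith

lemma one_sub_E0 (t : ℝ) (ht : 0 ≤ t) : ‖(1 - E0 0) * E0 t‖ ≤ t := by
  apply ContinuousLinearMap.opNorm_le_bound _ ht
  intro x
  obtain ⟨c, hc⟩ := E0_apply t x
  have h1 : ((1 - E0 0) * E0 t) x = !₂[0, c * t] := by
    have : ((1 - E0 0) * E0 t) x = E0 t x - E0 0 (E0 t x) := rfl
    rw [this, E0_zero_apply, hc]
    ext i; fin_cases i <;> simp [v]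
  rw [h1]
  have h2 : ‖(!₂[0, c * t] : H)‖ = ‖c‖ * t := by
    rw [EuclideanSpace.norm_eq]
    simp [Fin.sum_univ_two, abs_of_nonneg ht]
    rw [Real.sqrt_eq_iff_mul_self_eq (by positivity) (by positivity)]
    ring
  rw [h2]
  have h3 : ‖c‖ ≤ ‖x‖ := by
    have h4 := E0_norm_le t x
    rw [hc, norm_smul] at h4
    have h5 : (1:ℝ) ≤ ‖v t‖ := by
      rw [EuclideanSpace.norm_eq]
      simp [v, Fin.sum_univ_two]
      positivity
    nlinarith [norm_nonneg c]
  nlinarith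

lemma one_sub_Et (t : ℝ) (ht : 0 ≤ t) : ‖(1 - E0 t) * E0 0‖ ≤ t := by
  apply ContinuousLinearMap.opNorm_le_bound _ ht
  intro x
  have h1 : ((1 - E0 t) * E0 0) x = (1 - E0 t) (!₂[0, - (x 0) * t]) := by
    have h : ((1 - E0 t) * E0 0) x = E0 0 x - E0 t (E0 0 x) := rfl
    have h' : (1 - E0 t) (!₂[0, - (x 0) * t]) = !₂[0, - (x 0) * t] - E0 t (!₂[0, - (x 0) * t]) := rfl
    rw [h, h', E0_zero_apply]
    have h2 : (!₂[0, - (x 0) * t] : H) = !₂[x 0, 0] - (x 0) • v t := by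
      ext i; fin_cases i <;> simp [v]
    rw [h2, map_sub, map_smul, E0_v]
    abel
  rw [h1]
  have h3 : ‖(1 - E0 t) (!₂[0, - (x 0) * t] : H)‖ ≤ ‖(!₂[0, - (x 0) * t] : H)‖ := by
    have h4 : (1 - E0 t) = (Submodule.span ℂ {v t})ᗮ.starProjection := by
      rw [Submodule.starProjection_orthogonal]
      rfl
    rw [h4]
    exact Submodule.norm_starProjection_apply_le _ _
  have h2 : ‖(!₂[0, - (x 0) * t] : H)‖ = ‖x 0‖ * t := by
    rw [EuclideanSpace.norm_eq]
    simp [Fin.sum_univ_two, abs_of_nonneg ht]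
    rw [Real.sqrt_eq_iff_mul_self_eq (by positivity) (by positivity)]
    ring
  have h5 : ‖x 0‖ ≤ ‖x‖ := PiLp.norm_apply_le x 0
  rw [h2] at h3
  nlinarith

lemma one_sub_E_self (t : ℝ) : (1 - E0 t) * E0 t = 0 := by
  rw [sub_mul, one_mul, E0_idem, sub_self]

/-- a projection whose range is close to the line of `E0 t` is minimal -/
lemma minimal (t : ℝ) (q q' : B0) (hq : q * q = q) (hqs : star q = q) (hq's : star q' = q')
    (hq' : q' * q' = q') (hle : q * q' = q) (hne : q ≠ 0) (hlt : ‖(1 - E0 t) * q'‖ < 1) :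
    q = q' := by
  have hle' : q' * q = q := by
    have := congrArg star hle
    rwa [star_mul, hqs, hq's] at this
  have key : ∀ y : H, q' y = y → E0 t y = 0 → y = 0 := by
    intro y hy h0
    by_contra hne
    have h1 : ((1 - E0 t) * q') y = y := by
      have : ((1 - E0 t) * q') y = q' y - E0 t (q' y) := rfl
      rw [this, hy, h0, sub_zero]
    have h2 := ((1 - E0 t) * q').le_opNorm y
    rw [h1] at h2
    have h3 : 0 < ‖y‖ := norm_pos_iff.2 hne
    nlinarith
  obtain ⟨x, hx0⟩ : ∃ x, q x ≠ 0 := by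
    by_contra h
    push Not at h
    exact hne (ContinuousLinearMap.ext h)
  set w := q x with hw
  have hqw : q w = w := by
    have : (q * q) x = q x := by rw [hq]
    exact this
  have hq'w : q' w = w := by
    have : (q' * q) x = q x := by rw [hle']
    exact this
  have hEw : E0 t w ≠ 0 := fun h => hx0 (key w hq'w h)
  have hall : q * q' = q' := by
    ext1 y
    show q (q' y) = q' y
    set z := q' y with hz
    have hq'z : q' z = z := by
      have : (q' * q') y = q' y := by rw [hq']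
      exact this
    obtain ⟨c, hc⟩ := E0_apply t z
    obtain ⟨d, hd⟩ := E0_apply t w
    have hd0 : d ≠ 0 := by
      rintro rfl
      rw [zero_smul] at hd
      exact hEw hd
    have hz' : z - (c / d) • w = 0 := by
      apply key
      · rw [map_sub, map_smul, hq'z, hq'w]
      · rw [map_sub, map_smul, hc, hd, smul_smul, div_mul_cancel₀ _ hd0, sub_self]
    have hz2 : z = (c / d) • w := sub_eq_zero.1 hz'
    rw [hz2, map_smul, hqw]
  rw [← hle, hall]

/-- a nonzero projection cannot be close to below both lines -/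
lemma not_both (t : ℝ) (ht : 0 < t) (ht1 : t ≤ 1) (q : B0) (hq : q * q = q) (hne : q ≠ 0)
    (h0 : ‖(1 - E0 0) * q‖ < t / 4) (h1 : ‖(1 - E0 t) * q‖ < t / 4) : False := by
  obtain ⟨x, hx0⟩ : ∃ x, q x ≠ 0 := by
    by_contra h
    push Not at h
    exact hne (ContinuousLinearMap.ext h)
  set w := q x with hw
  have hqw : q w = w := by
    have : (q * q) x = q x := by rw [hq]
    exact this
  have hwpos : 0 < ‖w‖ := norm_pos_iff.2 hx0
  have a0 : ‖w - E0 0 w‖ < t / 4 * ‖w‖ := by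
    have h2 := ((1 - E0 0) * q).le_opNorm w
    have h3 : ((1 - E0 0) * q) w = w - E0 0 w := by
      have : ((1 - E0 0) * q) w = q w - E0 0 (q w) := rfl
      rw [this, hqw]
    rw [h3] at h2
    nlinarith
  have a1 : ‖w - E0 t w‖ < t / 4 * ‖w‖ := by
    have h2 := ((1 - E0 t) * q).le_opNorm w
    have h3 : ((1 - E0 t) * q) w = w - E0 t w := by
      have : ((1 - E0 t) * q) w = q w - E0 t (q w) := rfl
      rw [this, hqw]
    rw [h3] at h2
    nlinarith
  obtain ⟨c, hc⟩ := E0_apply t w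
  have b1 : ‖w 1‖ < t / 4 * ‖w‖ := by
    have h2 := PiLp.norm_apply_le (w - E0 0 w) 1
    rw [E0_zero_apply] at h2
    simp at h2
    rw [E0_zero_apply] at a0
    linarith
  have b2 : ‖w 0 - c‖ < t / 4 * ‖w‖ := by
    have h2 := PiLp.norm_apply_le (w - E0 t w) 0
    rw [hc] at h2 a1
    simp [v] at h2
    simp [v] at a1
    linarith
  have b3 : ‖w 1 - c * t‖ < t / 4 * ‖w‖ := by
    have h2 := PiLp.norm_apply_le (w - E0 t w) 1
    rw [hc] at h2 a1
    simp [v] at h2
    simp [v] at a1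
    linarith
  have b4 : ‖c‖ * t < t / 2 * ‖w‖ := by
    have h2 : ‖c * t‖ ≤ ‖w 1‖ + ‖w 1 - c * t‖ := by
      have : c * t = w 1 - (w 1 - c * t) := by ring
      calc ‖c * t‖ = ‖w 1 - (w 1 - c * t)‖ := by rw [← this]
        _ ≤ _ := norm_sub_le _ _
    rw [norm_mul, Complex.norm_real, Real.norm_of_nonneg ht.le] at h2
    linarith
  have b5 : ‖c‖ < ‖w‖ / 2 := by
    by_contra h
    push Not at h
    nlinarith
  have b6 : ‖w 0‖ ≤ ‖c‖ + ‖w 0 - c‖ := by
    have : w 0 = c + (w 0 - c) := by ring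
    calc ‖w 0‖ = ‖c + (w 0 - c)‖ := by rw [← this]
      _ ≤ _ := norm_add_le _ _
  have b7 : ‖w‖ ≤ ‖w 0‖ + ‖w 1‖ := by
    rw [EuclideanSpace.norm_eq, Real.sqrt_le_left (by positivity), Fin.sum_univ_two]
    nlinarith [norm_nonneg (w 0), norm_nonneg (w 1)]
  nlinarith

lemma E0_norm (t : ℝ) : ‖E0 t‖ ≤ 1 := by
  apply ContinuousLinearMap.opNorm_le_bound _ zero_le_one
  intro x
  rw [one_mul]
  exact E0_norm_le t x

lemma one_sub_norm0 (t : ℝ) : ‖(1 : B0) - E0 t‖ ≤ 1 := by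
  apply ContinuousLinearMap.opNorm_le_bound _ zero_le_one
  intro x
  rw [one_mul]
  have h4 : (1 - E0 t) = (Submodule.span ℂ {v t})ᗮ.starProjection := by
    rw [Submodule.starProjection_orthogonal]
    rfl
  rw [h4]
  exact Submodule.norm_starProjection_apply_le _ _

lemma one_norm0 : ‖(1 : B0)‖ ≤ 1 := ContinuousLinearMap.norm_id_le

/-- the fibre algebra -/
def B : Type := B0

instance : CStarAlgebra B := inferInstanceAs (CStarAlgebra B0)

def E (t : ℝ) : B := E0 t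

lemma E_idem (t : ℝ) : E t * E t = E t := E0_idem t
lemma E_star (t : ℝ) : star (E t) = E t := E0_star t
lemma E_norm (t : ℝ) : ‖E t‖ ≤ 1 := E0_norm t
lemma one_le_norm_E (t : ℝ) : (1:ℝ) ≤ ‖E t‖ := E0_ne0_norm t
lemma one_sub_norm (t : ℝ) : ‖(1 : B) - E t‖ ≤ 1 := one_sub_norm0 t
lemma one_norm : ‖(1 : B)‖ ≤ 1 := one_norm0
lemma one_sub_Ez (t : ℝ) (ht : 0 ≤ t) : ‖(1 - E 0) * E t‖ ≤ t := one_sub_E0 t ht
lemma one_sub_Ett (t : ℝ) (ht : 0 ≤ t) : ‖(1 - E t) * E 0‖ ≤ t := one_sub_Et t ht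
lemma one_sub_EE (t : ℝ) : (1 - E t) * E t = 0 := one_sub_E_self t
lemma minimalB (t : ℝ) (q q' : B) (hq : q * q = q) (hqs : star q = q) (hq's : star q' = q')
    (hq' : q' * q' = q') (hle : q * q' = q) (hne : q ≠ 0) (hlt : ‖(1 - E t) * q'‖ < 1) :
    q = q' := minimal t q q' hq hqs hq's hq' hle hne hlt
lemma not_bothB (t : ℝ) (ht : 0 < t) (ht1 : t ≤ 1) (q : B) (hq : q * q = q) (hne : q ≠ 0)
    (h0 : ‖(1 - E 0) * q‖ < t / 4) (h1 : ‖(1 - E t) * q‖ < t / 4) : False :=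
  not_both t ht ht1 q hq hne h0 h1

/-! ### the algebra -/

/-- a set of cardinality larger than the continuum -/
abbrev Xi : Type := Set ℝ

/-- points: two labels and a natural number -/
structure Pt : Type where
  a : Xi
  b : Xi
  n : ℕ

instance : TopologicalSpace Pt := ⊥
instance : DiscreteTopology Pt := ⟨rfl⟩

def tt (n : ℕ) : ℝ := 1 / ((n:ℝ) + 1)

lemma tt_pos (n : ℕ) : 0 < tt n := by unfold tt; positivity

lemma tt_le_one (n : ℕ) : tt n ≤ 1 := by
  unfold tt
  rw [div_le_one (by positivity)]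
  linarith [Nat.cast_nonneg (α := ℝ) n]

lemma tt_anti {m n : ℕ} (h : m ≤ n) : tt n ≤ tt m := by
  unfold tt
  have : (m:ℝ) ≤ n := by exact_mod_cast h
  gcongr

lemma tt_lt {ε : ℝ} (hε : 0 < ε) : ∃ M : ℕ, tt M < ε :=
  exists_nat_one_div_lt hε

/-- the index set -/
abbrev Lam : Type := Finset Xi × ℕ × Finset Pt

instance lamDir : IsDirected Lam (· ≤ ·) := by
  classical
  refine ⟨fun x y => ⟨(x.1 ∪ y.1, max x.2.1 y.2.1, x.2.2 ∪ y.2.2), ?_, ?_⟩⟩
  · exact ⟨Finset.subset_union_left, le_max_left _ _, Finset.subset_union_left⟩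
  · exact ⟨Finset.subset_union_right, le_max_right _ _, Finset.subset_union_right⟩

instance lamNe : Nonempty Lam := ⟨(∅, 0, ∅)⟩

open Classical in
/-- the projection valued functions -/
def efun (l : Lam) (s : Pt) : B :=
  if s ∈ l.2.2 ∨ (s.a ∈ l.1 ∧ s.b ∈ l.1 ∧ s.n < l.2.1) then 1
  else if s.a ∈ l.1 then E 0
  else if s.b ∈ l.1 then E (tt s.n)
  else 0

lemma efun_norm (l : Lam) (s : Pt) : ‖efun l s‖ ≤ 1 := by
  unfold efun
  split_ifs
  · exact one_norm
  · exact E_norm _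
  · exact E_norm _
  · simp

lemma efun_idem (l : Lam) (s : Pt) : efun l s * efun l s = efun l s := by
  unfold efun
  split_ifs
  · simp
  · exact E_idem _
  · exact E_idem _
  · simp

lemma efun_star (l : Lam) (s : Pt) : star (efun l s) = efun l s := by
  unfold efun
  split_ifs
  · simp
  · exact E_star _
  · exact E_star _
  · simp

/-- the projections of the algebra -/
def e (l : Lam) : Pt →ᵇ B :=
  BoundedContinuousFunction.ofNormedAddCommGroupDiscrete (efun l) 1 (efun_norm l)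

lemma e_apply (l : Lam) (s : Pt) : e l s = efun l s := rfl

lemma e_norm (l : Lam) : ‖e l‖ ≤ 1 :=
  (BoundedContinuousFunction.norm_le zero_le_one).2 (efun_norm l)

lemma e_idem (l : Lam) : e l * e l = e l := by
  ext1 s
  exact efun_idem l s

lemma e_star (l : Lam) : star (e l) = e l := by
  ext1 s
  exact efun_star l s

lemma key_est (l m : Lam) (h : l ≤ m) (s : Pt) :
    ‖efun m s * efun l s - efun l s‖ ≤ tt m.2.1 := by
  have h1 : l.1 ⊆ m.1 := h.1
  have h2 : l.2.1 ≤ m.2.1 := h.2.1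
  have h3 : l.2.2 ⊆ m.2.2 := h.2.2
  by_cases hm : s ∈ m.2.2 ∨ (s.a ∈ m.1 ∧ s.b ∈ m.1 ∧ s.n < m.2.1)
  · have : efun m s = 1 := by
      unfold efun
      rw [if_pos hm]
    rw [this, one_mul, sub_self, norm_zero]
    exact (tt_pos _).le
  · have hl : ¬ (s ∈ l.2.2 ∨ (s.a ∈ l.1 ∧ s.b ∈ l.1 ∧ s.n < l.2.1)) := by
      rintro (h' | ⟨ha, hb, hn⟩)
      · exact hm (Or.inl (h3 h'))
      · exact hm (Or.inr ⟨h1 ha, h1 hb, lt_of_lt_of_le hn h2⟩)
    unfold efun
    rw [if_neg hm, if_neg hl]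
    by_cases ha : s.a ∈ l.1
    · rw [if_pos ha, if_pos (h1 ha), E_idem, sub_self, norm_zero]
      exact (tt_pos _).le
    · rw [if_neg ha]
      by_cases hb : s.b ∈ l.1
      · rw [if_pos hb, if_pos (h1 hb)]
        by_cases ha' : s.a ∈ m.1
        · rw [if_pos ha']
          have hn : m.2.1 ≤ s.n := by
            by_contra hcon
            push Not at hcon
            exact hm (Or.inr ⟨ha', h1 hb, hcon⟩)
          have h4 : E 0 * E (tt s.n) - E (tt s.n) = -((1 - E 0) * E (tt s.n)) := by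
            rw [sub_mul, one_mul]
            abel
          rw [h4, norm_neg]
          exact (one_sub_Ez _ (tt_pos _).le).trans (tt_anti hn)
        · rw [if_neg ha', E_idem, sub_self, norm_zero]
          exact (tt_pos _).le
      · rw [if_neg hb, mul_zero, sub_self, norm_zero]
        exact (tt_pos _).le

lemma key_est' (l m : Lam) (h : l ≤ m) : ‖e m * e l - e l‖ ≤ tt m.2.1 :=
  (BoundedContinuousFunction.norm_le (tt_pos _).le).2 (fun s => key_est l m h s)

lemma e_tendsto (l : Lam) : Tendsto (fun m => e m * e l) atTop (𝓝 (e l)) := by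
  rw [Metric.tendsto_nhds]
  intro ε hε
  obtain ⟨M, hM⟩ := tt_lt hε
  filter_upwards [eventually_ge_atTop ((l.1, max l.2.1 M, l.2.2) : Lam)] with m hm
  have h1 : l ≤ m := ⟨hm.1, (le_max_left _ _).trans hm.2.1, hm.2.2⟩
  have h2 : M ≤ m.2.1 := (le_max_right _ _).trans hm.2.1
  rw [dist_eq_norm]
  exact ((key_est' l m h1).trans (tt_anti h2)).trans_lt hM

lemma e_tendsto' (l : Lam) : Tendsto (fun m => e l * e m) atTop (𝓝 (e l)) := by
  have h := (continuous_star.tendsto (e l)).comp (e_tendsto l)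
  rw [e_star] at h
  refine h.congr (fun m => ?_)
  simp only [Function.comp]
  rw [star_mul, e_star, e_star]

lemma closed_left : IsClosed {x : Pt →ᵇ B | Tendsto (fun l => e l * x) atTop (𝓝 x)} := by
  apply isClosed_of_closure_subset
  intro x hx
  rw [Metric.mem_closure_iff] at hx
  show Tendsto (fun l => e l * x) atTop (𝓝 x)
  rw [Metric.tendsto_nhds]
  intro ε hε
  obtain ⟨y, hy, hxy⟩ := hx (ε / 3) (by positivity)
  have hy' : Tendsto (fun l => e l * y) atTop (𝓝 y) := hy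
  filter_upwards [Metric.tendsto_nhds.1 hy' (ε / 3) (by positivity)] with l hl
  rw [dist_eq_norm] at hl hxy ⊢
  have h1 : e l * x - x = e l * (x - y) + (e l * y - y) - (x - y) := by
    rw [mul_sub]
    abel
  have h2 : ‖e l * (x - y)‖ ≤ ‖x - y‖ := by
    refine (norm_mul_le _ _).trans ?_
    have := e_norm l
    nlinarith [norm_nonneg (x - y)]
  calc ‖e l * x - x‖ = ‖e l * (x - y) + (e l * y - y) - (x - y)‖ := by rw [h1]
    _ ≤ ‖e l * (x - y) + (e l * y - y)‖ + ‖x - y‖ := norm_sub_le _ _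
    _ ≤ ‖e l * (x - y)‖ + ‖e l * y - y‖ + ‖x - y‖ := by gcongr; exact norm_add_le _ _
    _ < ε := by linarith

lemma right_iff (x : Pt →ᵇ B) : Tendsto (fun l => x * e l) atTop (𝓝 x) ↔
    Tendsto (fun l => e l * star x) atTop (𝓝 (star x)) := by
  constructor
  · intro h
    have h' := (continuous_star.tendsto x).comp h
    refine h'.congr (fun m => ?_)
    simp only [Function.comp]
    rw [star_mul, e_star]
  · intro h
    have h' := (continuous_star.tendsto (star x)).comp h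
    rw [star_star] at h'
    refine h'.congr (fun m => ?_)
    simp only [Function.comp]
    rw [star_mul, e_star, star_star]

/-- the algebra -/
def Alg : NonUnitalStarSubalgebra ℂ (Pt →ᵇ B) where
  carrier := {x | Tendsto (fun l => e l * x) atTop (𝓝 x) ∧ Tendsto (fun l => x * e l) atTop (𝓝 x)}
  add_mem' := by
    rintro x y ⟨hx, hx'⟩ ⟨hy, hy'⟩
    refine ⟨?_, ?_⟩
    · refine (hx.add hy).congr (fun l => ?_)
      rw [mul_add]
    · refine (hx'.add hy').congr (fun l => ?_)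
      rw [add_mul]
  zero_mem' := by
    refine ⟨?_, ?_⟩
    · simp only [mul_zero]
      exact tendsto_const_nhds
    · simp only [zero_mul]
      exact tendsto_const_nhds
  mul_mem' := by
    rintro x y ⟨hx, hx'⟩ ⟨hy, hy'⟩
    refine ⟨?_, ?_⟩
    · refine (hx.mul_const y).congr (fun l => ?_)
      rw [mul_assoc]
    · refine (hy'.const_mul x).congr (fun l => ?_)
      rw [mul_assoc]
  smul_mem' := by
    rintro c x ⟨hx, hx'⟩
    refine ⟨?_, ?_⟩
    · refine (hx.const_smul c).congr (fun l => ?_)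
      rw [mul_smul_comm]
    · refine (hx'.const_smul c).congr (fun l => ?_)
      rw [smul_mul_assoc]
  star_mem' := by
    rintro x ⟨hx, hx'⟩
    refine ⟨(right_iff x).1 hx', ?_⟩
    rw [right_iff, star_star]
    exact hx

lemma alg_closed : IsClosed (Alg : Set (Pt →ᵇ B)) := by
  have h1 : IsClosed {x : Pt →ᵇ B | Tendsto (fun l => x * e l) atTop (𝓝 x)} := by
    have : {x : Pt →ᵇ B | Tendsto (fun l => x * e l) atTop (𝓝 x)} =
        star ⁻¹' {x : Pt →ᵇ B | Tendsto (fun l => e l * x) atTop (𝓝 x)} := by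
      ext x
      exact right_iff x
    rw [this]
    exact closed_left.preimage continuous_star
  exact closed_left.inter h1

instance : NonUnitalCStarAlgebra Alg :=
  NonUnitalStarSubalgebra.nonUnitalCStarAlgebra Alg (h_closed := alg_closed)

lemma e_mem (l : Lam) : e l ∈ Alg := ⟨e_tendsto l, e_tendsto' l⟩

open Classical in
/-- the line field of the label `ξ` -/
def P (s : Pt) (ξ : Xi) : B := if ξ = s.a then E 0 else E (tt s.n)

lemma P_norm (s : Pt) (ξ : Xi) : ‖1 - P s ξ‖ ≤ 1 := by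
  unfold P
  split_ifs
  · exact one_sub_norm _
  · exact one_sub_norm _

lemma efun_small (l : Lam) (ξ : Xi) {δ : ℝ} (hδ : 0 < δ) :
    {s : Pt | (ξ = s.a ∨ ξ = s.b) ∧ δ ≤ ‖(1 - P s ξ) * efun l s‖}.Finite := by
  classical
  obtain ⟨N, hN⟩ := tt_lt hδ
  have hfin : ((l.2.2 : Set Pt) ∪ (fun r : Xi × Xi × ℕ => Pt.mk r.1 r.2.1 r.2.2) ''
      (((insert ξ l.1) ×ˢ ((insert ξ l.1) ×ˢ (Finset.range (max l.2.1 N))) :
        Finset (Xi × Xi × ℕ)) : Set (Xi × Xi × ℕ))).Finite :=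
    (Finset.finite_toSet _).union ((Finset.finite_toSet _).image _)
  refine hfin.subset ?_
  rintro s ⟨hs, hsd⟩
  have hin : s.a ∈ insert ξ l.1 → s.b ∈ insert ξ l.1 → s.n < max l.2.1 N →
      s ∈ ((l.2.2 : Set Pt) ∪ (fun r : Xi × Xi × ℕ => Pt.mk r.1 r.2.1 r.2.2) ''
      (((insert ξ l.1) ×ˢ ((insert ξ l.1) ×ˢ (Finset.range (max l.2.1 N))) :
        Finset (Xi × Xi × ℕ)) : Set (Xi × Xi × ℕ))) := by
    intro ha hb hn
    right
    refine ⟨(s.a, s.b, s.n), ?_, rfl⟩
    simp only [Finset.mem_coe, Finset.mem_product, Finset.mem_range]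
    exact ⟨ha, hb, hn⟩
  have hnN : δ ≤ tt s.n → s.n < max l.2.1 N := by
    intro h
    refine lt_of_lt_of_le ?_ (le_max_right _ _)
    by_contra hcon
    push Not at hcon
    linarith [tt_anti hcon]
  by_cases hT : s ∈ l.2.2
  · left
    exact hT
  · by_cases h2 : s.a ∈ l.1 ∧ s.b ∈ l.1 ∧ s.n < l.2.1
    · exact hin (Finset.mem_insert_of_mem h2.1) (Finset.mem_insert_of_mem h2.2.1)
        (lt_of_lt_of_le h2.2.2 (le_max_left _ _))
    · have h3 : ¬ (s ∈ l.2.2 ∨ (s.a ∈ l.1 ∧ s.b ∈ l.1 ∧ s.n < l.2.1)) := by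
        rintro (h' | h')
        · exact hT h'
        · exact h2 h'
      unfold efun P at hsd
      rw [if_neg h3] at hsd
      by_cases ha : s.a ∈ l.1
      · rw [if_pos ha] at hsd
        by_cases hξ : ξ = s.a
        · rw [if_pos hξ, one_sub_EE, norm_zero] at hsd
          linarith
        · rw [if_neg hξ] at hsd
          have hb : ξ = s.b := by
            rcases hs with h | h
            · exact absurd h hξ
            · exact h
          refine hin (Finset.mem_insert_of_mem ha) (by rw [← hb]; exact Finset.mem_insert_self _ _) (hnN ?_)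
          exact hsd.trans (one_sub_Ett _ (tt_pos _).le)
      · rw [if_neg ha] at hsd
        by_cases hb : s.b ∈ l.1
        · rw [if_pos hb] at hsd
          by_cases hξ : ξ = s.a
          · rw [if_pos hξ] at hsd
            refine hin (by rw [← hξ]; exact Finset.mem_insert_self _ _) (Finset.mem_insert_of_mem hb) (hnN ?_)
            exact hsd.trans (one_sub_Ez _ (tt_pos _).le)
          · rw [if_neg hξ, one_sub_EE, norm_zero] at hsd
            linarith
        · rw [if_neg hb, mul_zero, norm_zero] at hsd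
          linarith

lemma mem_small (x : Pt →ᵇ B) (hx : x ∈ Alg) (ξ : Xi) {ε : ℝ} (hε : 0 < ε) :
    {s : Pt | (ξ = s.a ∨ ξ = s.b) ∧ ε ≤ ‖(1 - P s ξ) * x s‖}.Finite := by
  have hx1 : Tendsto (fun l => e l * x) atTop (𝓝 x) := hx.1
  obtain ⟨l, hl⟩ := (Metric.tendsto_nhds.1 hx1 (ε / 2) (by positivity)).exists
  rw [dist_eq_norm] at hl
  have hδ : 0 < ε / (2 * (‖x‖ + 1)) := by positivity
  refine (efun_small l ξ hδ).subset ?_
  rintro s ⟨hs, hsd⟩
  refine ⟨hs, ?_⟩
  by_contra hcon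
  push Not at hcon
  have h1 : (1 - P s ξ) * x s = ((1 - P s ξ) * efun l s) * x s
      - (1 - P s ξ) * ((e l * x - x) s) := by
    have : (e l * x - x) s = efun l s * x s - x s := rfl
    rw [this, mul_assoc, mul_sub]
    abel
  have h2 : ‖(e l * x - x) s‖ < ε / 2 :=
    (BoundedContinuousFunction.norm_coe_le_norm _ s).trans_lt hl
  have h3 : ‖x s‖ ≤ ‖x‖ := BoundedContinuousFunction.norm_coe_le_norm _ s
  have h4 : ‖((1 - P s ξ) * efun l s) * x s‖ ≤ ε / (2 * (‖x‖ + 1)) * ‖x‖ := by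
    refine (norm_mul_le _ _).trans ?_
    exact mul_le_mul hcon.le h3 (norm_nonneg _) hδ.le
  have h5 : ‖(1 - P s ξ) * ((e l * x - x) s)‖ < ε / 2 := by
    refine (norm_mul_le _ _).trans_lt ?_
    have := P_norm s ξ
    have h6 := norm_nonneg ((e l * x - x) s)
    nlinarith
  have h6 : ε / (2 * (‖x‖ + 1)) * ‖x‖ ≤ ε / 2 := by
    rw [div_mul_eq_mul_div, div_le_div_iff₀ (by positivity) (by positivity)]
    nlinarith [norm_nonneg x]
  have h7 : ‖(1 - P s ξ) * x s‖ ≤ ‖((1 - P s ξ) * efun l s) * x s‖ + ‖(1 - P s ξ) * ((e l * x - x) s)‖ := by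
    rw [h1]
    exact norm_sub_le _ _
  linarith

open Cardinal in
/-- Sierpinski: no countable set mapping on a set larger than the continuum covers all pairs -/
lemma no_free (F : Xi → Set Xi) (hF : ∀ ξ, (F ξ).Countable)
    (h : ∀ ξ η, ξ ≠ η → η ∈ F ξ ∨ ξ ∈ F η) : False := by
  have hU : #(⋃ r : ℝ, (F {r} ∪ {({r} : Set ℝ)}) : Set Xi) ≤ #ℝ := by
    refine (Cardinal.mk_iUnion_le _).trans ?_
    have h1 : (⨆ r : ℝ, #(F {r} ∪ {({r} : Set ℝ)} : Set Xi)) ≤ ℵ₀ := by
      apply ciSup_le'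
      intro r
      exact Cardinal.le_aleph0_iff_set_countable.2 ((hF _).union (Set.countable_singleton _))
    calc #ℝ * (⨆ r : ℝ, #(F {r} ∪ {({r} : Set ℝ)} : Set Xi)) ≤ #ℝ * ℵ₀ := mul_le_mul' le_rfl h1
      _ = #ℝ := Cardinal.mul_aleph0_eq (Cardinal.aleph0_le_mk ℝ)
  obtain ⟨η, hη⟩ : ∃ η : Xi, η ∉ (⋃ r : ℝ, (F {r} ∪ {({r} : Set ℝ)}) : Set Xi) := by
    by_contra hcon
    push Not at hcon
    have : (⋃ r : ℝ, (F {r} ∪ {({r} : Set ℝ)}) : Set Xi) = Set.univ := Set.eq_univ_of_forall hcon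
    rw [this, Cardinal.mk_univ, Cardinal.mk_set] at hU
    exact absurd hU (not_le.2 (Cardinal.cantor _))
  have hall : ∀ r : ℝ, ({r} : Set ℝ) ∈ F η := by
    intro r
    have h1 : η ∉ F {r} := fun h' => hη (Set.mem_iUnion.2 ⟨r, Or.inl h'⟩)
    have h2 : ({r} : Set ℝ) ≠ η := fun h' => hη (Set.mem_iUnion.2 ⟨r, Or.inr h'.symm⟩)
    rcases h {r} η h2 with h3 | h3
    · exact absurd h3 h1
    · exact h3
  have hc : (Set.univ : Set ℝ).Countable := by
    have h1 : ((fun r : ℝ => ({r} : Set ℝ)) ⁻¹' (F η)).Countable :=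
      (hF η).preimage_of_injOn (Set.singleton_injective.injOn)
    refine h1.mono ?_
    intro r _
    exact hall r
  exact Cardinal.not_countable_real hc

end

open scoped BoundedContinuousFunction

/-- The negation of the preceding statement: Every C*-algebra that has an approximate identity (a net over a nonempty directed set) made of projections also has one made of projections that increases, meaning e_i e_j = e_i whenever i ≤ j. -/
theorem result :
    ¬ (∀ (A : Type) [NonUnitalCStarAlgebra A],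
      (∃ (Λ : Type) (_ : Preorder Λ) (_ : IsDirected Λ (· ≤ ·)) (_ : Nonempty Λ) (e : Λ → A),
        (∀ i, IsIdempotentElem (e i) ∧ IsSelfAdjoint (e i)) ∧
        ∀ a : A, Tendsto (fun i => e i * a) atTop (𝓝 a) ∧
          Tendsto (fun i => a * e i) atTop (𝓝 a)) →
      (∃ (Λ : Type) (_ : Preorder Λ) (_ : IsDirected Λ (· ≤ ·)) (_ : Nonempty Λ) (e : Λ → A),
        (∀ i, IsIdempotentElem (e i) ∧ IsSelfAdjoint (e i)) ∧
        (∀ i j, i ≤ j → e i * e j = e i) ∧
        ∀ a : A, Tendsto (fun i => e i * a) atTop (𝓝 a) ∧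
          Tendsto (fun i => a * e i) atTop (𝓝 a))) := by
  intro hall
  have hex : (∃ (Λ : Type) (_ : Preorder Λ) (_ : IsDirected Λ (· ≤ ·)) (_ : Nonempty Λ) (e : Λ → Alg),
        (∀ i, IsIdempotentElem (e i) ∧ IsSelfAdjoint (e i)) ∧
        ∀ a : Alg, Tendsto (fun i => e i * a) atTop (𝓝 a) ∧
          Tendsto (fun i => a * e i) atTop (𝓝 a)) := by
    refine ⟨Lam, inferInstance, inferInstance, inferInstance, fun l => ⟨e l, e_mem l⟩, ?_, ?_⟩
    · intro l
      exact ⟨Subtype.ext (e_idem l), Subtype.ext (e_star l)⟩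
    · intro a
      exact ⟨tendsto_subtype_rng.2 a.2.1, tendsto_subtype_rng.2 a.2.2⟩
  obtain ⟨Λ, _, _, _, p, hproj, hmono, hlim⟩ := hall Alg hex
  have hidem : ∀ i s, (p i : Pt →ᵇ B) s * (p i : Pt →ᵇ B) s = (p i : Pt →ᵇ B) s := by
    intro i s
    have h1 : (p i * p i : Alg) = p i := (hproj i).1
    have h2 : (p i : Pt →ᵇ B) * (p i : Pt →ᵇ B) = (p i : Pt →ᵇ B) := congrArg Subtype.val h1
    exact congrArg (fun f : Pt →ᵇ B => f s) h2
  have hstar : ∀ i s, star ((p i : Pt →ᵇ B) s) = (p i : Pt →ᵇ B) s := by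
    intro i s
    have h1 : star (p i) = p i := (hproj i).2
    have h2 : star (p i : Pt →ᵇ B) = (p i : Pt →ᵇ B) := congrArg Subtype.val h1
    exact congrArg (fun f : Pt →ᵇ B => f s) h2
  have hle : ∀ i j, i ≤ j → ∀ s, (p i : Pt →ᵇ B) s * (p j : Pt →ᵇ B) s = (p i : Pt →ᵇ B) s := by
    intro i j hij s
    have h1 : (p i * p j : Alg) = p i := hmono i j hij
    have h2 : (p i : Pt →ᵇ B) * (p j : Pt →ᵇ B) = (p i : Pt →ᵇ B) := congrArg Subtype.val h1
    exact congrArg (fun f : Pt →ᵇ B => f s) h2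
  have hchoice : ∀ ξ : Xi, ∃ i : Λ, ∀ s : Pt, (ξ = s.a ∨ ξ = s.b) → (p i : Pt →ᵇ B) s ≠ 0 := by
    intro ξ
    have h1 := (hlim ⟨e ({ξ}, 0, ∅), e_mem _⟩).1
    obtain ⟨i, hi⟩ := (Metric.tendsto_nhds.1 h1 (1 / 2) (by norm_num)).exists
    refine ⟨i, ?_⟩
    intro s hs h0
    rw [dist_eq_norm] at hi
    have hi' : ‖(p i : Pt →ᵇ B) * e ({ξ}, 0, ∅) - e ({ξ}, 0, ∅)‖ < 1 / 2 := hi
    have h2 := (BoundedContinuousFunction.norm_coe_le_norm
      ((p i : Pt →ᵇ B) * e ({ξ}, 0, ∅) - e ({ξ}, 0, ∅)) s).trans_lt hi'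
    have h3 : ((p i : Pt →ᵇ B) * e ({ξ}, 0, ∅) - e ({ξ}, 0, ∅)) s =
        (p i : Pt →ᵇ B) s * efun ({ξ}, 0, ∅) s - efun ({ξ}, 0, ∅) s := rfl
    rw [h3, h0, zero_mul, zero_sub, norm_neg] at h2
    have h4 : (1:ℝ) ≤ ‖efun ({ξ}, 0, ∅) s‖ := by
      unfold efun
      rw [if_neg (by simp)]
      rcases hs with h | h
      · rw [if_pos (by simp [h])]
        exact one_le_norm_E _
      · by_cases ha : s.a ∈ (({ξ}, 0, ∅) : Lam).1
        · rw [if_pos ha]
          exact one_le_norm_E _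
        · rw [if_neg ha, if_pos (by simp [h])]
          exact one_le_norm_E _
    linarith
  choose ι hι using hchoice
  refine no_free (fun ξ => {η | ∃ s : Pt, ((s.a = ξ ∧ s.b = η) ∨ (s.a = η ∧ s.b = ξ)) ∧
    tt s.n / 4 ≤ ‖(1 - P s ξ) * (p (ι ξ) : Pt →ᵇ B) s‖}) ?_ ?_
  · intro ξ
    have hfin : ∀ n : ℕ, {s : Pt | (ξ = s.a ∨ ξ = s.b) ∧
        tt n / 4 ≤ ‖(1 - P s ξ) * (p (ι ξ) : Pt →ᵇ B) s‖}.Finite := by
      intro n
      exact mem_small _ (p (ι ξ)).2 ξ (by have := tt_pos n; positivity)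
    have hc : (⋃ n : ℕ, (((fun s : Pt => s.a) '' {s : Pt | (ξ = s.a ∨ ξ = s.b) ∧
        tt n / 4 ≤ ‖(1 - P s ξ) * (p (ι ξ) : Pt →ᵇ B) s‖}) ∪
        ((fun s : Pt => s.b) '' {s : Pt | (ξ = s.a ∨ ξ = s.b) ∧
        tt n / 4 ≤ ‖(1 - P s ξ) * (p (ι ξ) : Pt →ᵇ B) s‖}))).Countable := by
      apply Set.countable_iUnion
      intro n
      exact (((hfin n).image _).union ((hfin n).image _)).countable
    refine hc.mono ?_
    rintro η ⟨s, hs, hsn⟩
    refine Set.mem_iUnion.2 ⟨s.n, ?_⟩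
    rcases hs with ⟨ha, hb⟩ | ⟨ha, hb⟩
    · right
      exact ⟨s, ⟨Or.inl ha.symm, hsn⟩, hb⟩
    · left
      exact ⟨s, ⟨Or.inr hb.symm, hsn⟩, ha⟩
  · intro ξ η hne
    obtain ⟨k, hk1, hk2⟩ := directed_of (· ≤ ·) (ι ξ) (ι η)
    have hfin := mem_small _ (p k).2 ξ (one_pos : (0:ℝ) < 1)
    have hfin2 : ((fun n : ℕ => Pt.mk ξ η n) ⁻¹' {s : Pt | (ξ = s.a ∨ ξ = s.b) ∧
        1 ≤ ‖(1 - P s ξ) * (p k : Pt →ᵇ B) s‖}).Finite := by
      refine hfin.preimage ?_
      intro m _ n _ hmn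
      exact congrArg Pt.n hmn
    obtain ⟨n, hn⟩ := hfin2.exists_notMem
    have hlt : ‖(1 - E 0) * (p k : Pt →ᵇ B) (Pt.mk ξ η n)‖ < 1 := by
      by_contra hcon
      push Not at hcon
      apply hn
      refine ⟨Or.inl rfl, ?_⟩
      have : P (Pt.mk ξ η n) ξ = E 0 := by
        unfold P
        rw [if_pos rfl]
      rw [this]
      exact hcon
    have hq1 : (p (ι ξ) : Pt →ᵇ B) (Pt.mk ξ η n) = (p k : Pt →ᵇ B) (Pt.mk ξ η n) :=
      minimalB 0 _ _ (hidem _ _) (hstar _ _) (hstar _ _) (hidem _ _) (hle _ _ hk1 _)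
        (hι ξ _ (Or.inl rfl)) hlt
    have hq2 : (p (ι η) : Pt →ᵇ B) (Pt.mk ξ η n) = (p k : Pt →ᵇ B) (Pt.mk ξ η n) :=
      minimalB 0 _ _ (hidem _ _) (hstar _ _) (hstar _ _) (hidem _ _) (hle _ _ hk2 _)
        (hι η _ (Or.inr rfl)) hlt
    by_contra hcon
    push Not at hcon
    obtain ⟨hc1, hc2⟩ := hcon
    have hc1' : ‖(1 - E 0) * (p k : Pt →ᵇ B) (Pt.mk ξ η n)‖ < tt n / 4 := by
      by_contra h
      push Not at h
      apply hc1
      refine ⟨Pt.mk ξ η n, Or.inl ⟨rfl, rfl⟩, ?_⟩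
      have : P (Pt.mk ξ η n) ξ = E 0 := by
        unfold P
        rw [if_pos rfl]
      rw [this, hq1]
      exact h
    have hc2' : ‖(1 - E (tt n)) * (p k : Pt →ᵇ B) (Pt.mk ξ η n)‖ < tt n / 4 := by
      by_contra h
      push Not at h
      apply hc2
      refine ⟨Pt.mk ξ η n, Or.inr ⟨rfl, rfl⟩, ?_⟩
      have : P (Pt.mk ξ η n) η = E (tt n) := by
        unfold P
        rw [if_neg (fun h' => hne h'.symm)]
      rw [this, hq2]
      exact h
    refine not_bothB (tt n) (tt_pos n) (tt_le_one n) _ (hidem k _) ?_ hc1' hc2'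
    rw [← hq1]
    exact hι ξ _ (Or.inl rfl)

end Pool.Agent.S05348
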