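import Pool.Statements.S05596
import Pool.Agent.Konyagin305.Newman
import Pool.Agent.Konyagin305.Step1

set_option autoImplicit false
open MeasureTheory
open Pool Pool.MP_9faca0_an

namespace Pool.Agent.S05596

open Konyagin305 in
/-- sums of distinct monomials which are small off a set of small measure (on `ℝ/ℤ`) -/
theorem small (δ ε : ℝ) (hδ : 0 < δ) (hε : 0 < ε) :
    ∃ K : Finset ℕ, K.Nonempty ∧
      (volume : Measure Ω).real {x | ε ≤ ‖∑ e ∈ K, z x ^ e‖} ≤ δ := by
  obtain ⟨K₀, μ, c, hc, h⟩ := step1 (δ / 3) (by positivity)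
  obtain ⟨K, hK, h2⟩ := step2 K₀ μ c (δ / 3) hc (by positivity) h ε hε
  exact ⟨K, hK, by linarith⟩

/-- the function of the statement -/
noncomputable def f (K : Finset ℕ) (t : ℝ) : ℝ :=
  ‖∑ k ∈ K, Complex.exp ((k : ℂ) * (t : ℂ) * Complex.I)‖

lemma continuous_f (K : Finset ℕ) : Continuous (f K) := by
  unfold f
  fun_prop

open Konyagin305 in
lemma f_eq (K : Finset ℕ) (t : ℝ) :
    f K t = ‖∑ k ∈ K, z (((2 * Real.pi)⁻¹ * t : ℝ) : Ω) ^ k‖ := by
  unfold f
  congr 1
  apply Finset.sum_congr rfl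
  intro k _
  unfold z
  rw [AddCircle.toCircle_apply_mk, Circle.coe_exp, ← Complex.exp_nat_mul]
  congr 1
  have hpi : (Real.pi : ℂ) ≠ 0 := by exact_mod_cast Real.pi_ne_zero
  push_cast
  field_simp

open Konyagin305 in
lemma conv (K : Finset ℕ) (ε : ℝ) :
    volume {t : ℝ | t ∈ Set.Ioc 0 (2 * Real.pi) ∧ ε ≤ f K t}
      = ENNReal.ofReal (2 * Real.pi) * (volume : Measure Ω) {x | ε ≤ ‖∑ e ∈ K, z x ^ e‖} := by
  have hpi := Real.pi_pos
  let S : Set ℝ := {s | s ∈ Set.Ioc (0 : ℝ) 1 ∧ ε ≤ ‖∑ e ∈ K, z (s : Ω) ^ e‖}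
  have h1 : {t : ℝ | t ∈ Set.Ioc 0 (2 * Real.pi) ∧ ε ≤ f K t}
      = (fun t => (2 * Real.pi)⁻¹ * t) ⁻¹' S := by
    ext t
    simp only [S, Set.mem_preimage, Set.mem_ofPred_eq, Set.mem_Ioc, f_eq]
    constructor
    · rintro ⟨⟨ha, hb⟩, hc⟩
      refine ⟨⟨by positivity, ?_⟩, hc⟩
      rw [inv_mul_le_iff₀ (by positivity)]; linarith
    · rintro ⟨⟨ha, hb⟩, hc⟩
      refine ⟨⟨?_, ?_⟩, hc⟩
      · by_contra hneg
        push Not at hneg
        have : (2 * Real.pi)⁻¹ * t ≤ 0 := mul_nonpos_of_nonneg_of_nonpos (by positivity) hneg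
        linarith
      · rw [inv_mul_le_iff₀ (by positivity)] at hb; linarith
  rw [h1, Real.volume_preimage_mul_left (by positivity)]
  rw [inv_inv, abs_of_pos (by positivity)]
  congr 1
  have hmeas : MeasurableSet {x : Ω | ε ≤ ‖∑ e ∈ K, z x ^ e‖} := by
    apply measurableSet_le measurable_const
    exact (continuous_finsetSum _ (fun j _ => continuous_z.pow j)).norm.measurable
  have h2 := (UnitAddCircle.measurePreserving_mk 0).measure_preimage hmeas.nullMeasurableSet
  rw [← h2, zero_add, Measure.restrict_apply (by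
    exact (UnitAddCircle.measurePreserving_mk 0).measurable hmeas)]
  congr 1
  ext s
  simp only [S, Set.mem_inter_iff, Set.mem_preimage, Set.mem_ofPred_eq]
  exact and_comm

/-- The negation of the preceding statement: For every measurable set E of positive measure in (0,2π] there is c>0 such that for every nonempty finite set K of nonnegative integers, the integral over E of the modulus of the sum of exp(ikt) over k in K is at least c. -/
theorem result :
    ¬ (∀ E : Set ℝ, E ⊆ Set.Ioc 0 (2 * Real.pi) → MeasurableSet E → 0 < volume E →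
      ∃ c : ℝ, 0 < c ∧ ∀ K : Finset ℕ, K.Nonempty →
        c ≤ ∫ t in E, ‖∑ k ∈ K, Complex.exp ((k : ℂ) * (t : ℂ) * Complex.I)‖) := by
  intro hmain
  have hpi := Real.pi_pos
  obtain ⟨η, hη0, hηsum⟩ := ENNReal.exists_pos_sum_of_countable
    (ε := ENNReal.ofReal Real.pi) (by simp [hpi]) ℕ
  have hex : ∀ n : ℕ, ∃ K : Finset ℕ, K.Nonempty ∧
      volume {t : ℝ | t ∈ Set.Ioc 0 (2 * Real.pi) ∧ 1 / ((n : ℝ) + 1) ≤ f K t} ≤ η n := by
    intro n
    obtain ⟨K, hK, h⟩ := small ((η n : ℝ) / (2 * Real.pi)) (1 / ((n : ℝ) + 1))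
      (div_pos (by exact_mod_cast hη0 n) (by positivity)) (by positivity)
    refine ⟨K, hK, ?_⟩
    rw [conv]
    have h2 : (volume : Measure Konyagin305.Ω) {x | 1 / ((n : ℝ) + 1) ≤
        ‖∑ e ∈ K, Konyagin305.z x ^ e‖} ≤ ENNReal.ofReal ((η n : ℝ) / (2 * Real.pi)) := by
      rw [← ENNReal.ofReal_toReal (measure_ne_top (volume : Measure Konyagin305.Ω) _)]
      exact ENNReal.ofReal_le_ofReal h
    calc ENNReal.ofReal (2 * Real.pi) * _
        ≤ ENNReal.ofReal (2 * Real.pi) * ENNReal.ofReal ((η n : ℝ) / (2 * Real.pi)) := by gcongr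
      _ = ENNReal.ofReal (η n : ℝ) := by
        rw [← ENNReal.ofReal_mul (by positivity)]
        congr 1
        field_simp
      _ = η n := ENNReal.ofReal_coe_nnreal
  choose K hKne hK using hex
  let B : ℕ → Set ℝ := fun n => {t : ℝ | t ∈ Set.Ioc 0 (2 * Real.pi) ∧ 1 / ((n : ℝ) + 1) ≤ f (K n) t}
  let E : Set ℝ := Set.Ioc 0 (2 * Real.pi) ∩ ⋂ n : ℕ, {t | f (K n) t < 1 / ((n : ℝ) + 1)}
  have hEsub : E ⊆ Set.Ioc 0 (2 * Real.pi) := Set.inter_subset_left
  have hEmeas : MeasurableSet E := by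
    apply measurableSet_Ioc.inter
    apply MeasurableSet.iInter
    intro n
    exact measurableSet_lt (continuous_f _).measurable measurable_const
  have hcover : Set.Ioc 0 (2 * Real.pi) ⊆ E ∪ ⋃ n, B n := by
    intro t ht
    by_cases h : ∀ n : ℕ, f (K n) t < 1 / ((n : ℝ) + 1)
    · exact Or.inl ⟨ht, Set.mem_iInter.2 h⟩
    · push Not at h
      obtain ⟨n, hn⟩ := h
      exact Or.inr (Set.mem_iUnion.2 ⟨n, ht, hn⟩)
  have hEpos : 0 < volume E := by
    by_contra h0
    have h0' : volume E = 0 := by simpa using h0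
    have h1 : volume (Set.Ioc (0 : ℝ) (2 * Real.pi)) ≤ ENNReal.ofReal Real.pi := by
      calc volume (Set.Ioc (0 : ℝ) (2 * Real.pi)) ≤ volume (E ∪ ⋃ n, B n) := measure_mono hcover
        _ ≤ volume E + volume (⋃ n, B n) := measure_union_le _ _
        _ ≤ 0 + ∑' n, volume (B n) := by
          gcongr
          · exact h0'.le
          · exact measure_iUnion_le _
        _ ≤ 0 + ∑' n, (η n : ENNReal) := by
          gcongr with n
          exact hK n
        _ ≤ ENNReal.ofReal Real.pi := by rw [zero_add]; exact hηsum.le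
    rw [Real.volume_Ioc, sub_zero, ENNReal.ofReal_le_ofReal_iff hpi.le] at h1
    linarith
  obtain ⟨c, hc, hcK⟩ := hmain E hEsub hEmeas hEpos
  obtain ⟨n, hn⟩ := exists_nat_gt (2 * Real.pi / c)
  have h1 := hcK (K n) (hKne n)
  have hEfin : volume E ≠ ⊤ := by
    refine ne_top_of_le_ne_top ?_ (measure_mono hEsub)
    rw [Real.volume_Ioc]; exact ENNReal.ofReal_ne_top
  have hEle : volume.real E ≤ 2 * Real.pi := by
    have : volume.real E ≤ volume.real (Set.Ioc (0 : ℝ) (2 * Real.pi)) :=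
      measureReal_mono hEsub (by rw [Real.volume_Ioc]; exact ENNReal.ofReal_ne_top)
    refine this.trans (le_of_eq ?_)
    rw [Real.volume_real_Ioc_of_le (by positivity)]; ring
  have h2 : ∫ t in E, ‖∑ k ∈ K n, Complex.exp ((k : ℂ) * (t : ℂ) * Complex.I)‖
      ≤ 1 / ((n : ℝ) + 1) * volume.real E := by
    have h3 : ∀ t ∈ E, ‖f (K n) t‖ ≤ 1 / ((n : ℝ) + 1) := by
      intro t ht
      have h4 := Set.mem_iInter.1 ht.2 n
      simp only [Set.mem_ofPred_eq] at h4
      have h7 : 0 ≤ f (K n) t := norm_nonneg _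
      rw [Real.norm_of_nonneg h7]
      exact h4.le
    have h5 := norm_setIntegral_le_of_norm_le_const (μ := volume) (s := E) (f := f (K n))
      (lt_top_iff_ne_top.2 hEfin) h3
    refine le_trans (le_abs_self _) ?_
    rw [← Real.norm_eq_abs]
    exact h5
  have h6 : 1 / ((n : ℝ) + 1) * volume.real E < c := by
    have hn1 : (0 : ℝ) < (n : ℝ) + 1 := by positivity
    rw [div_lt_iff₀ hc] at hn
    rw [one_div, inv_mul_lt_iff₀ hn1]
    nlinarith
  linarith

end Pool.Agent.S05596
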