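import Pool.Statements.S05648
import Pool.Agent.V11210.HS.Main

set_option autoImplicit false
open MeasureTheory Filter Topology
open Pool Pool.MP_a271d0_an

namespace Pool.Agent.S05648

open Pool.Agent.V11210.HS in
theorem dil_ball {c : EuclideanSpace ℝ (Fin 3)} (hc : ‖c‖ = 1) {τ : ℝ} (h0 : 0 < τ) (h1 : τ < 1)
    {x : EuclideanSpace ℝ (Fin 3)} (hx : x ∈ Metric.ball c 1) : (τ ^ 2) • x ∈ Metric.ball c 1 := by
  rw [Metric.mem_ball, dist_eq_norm] at hx ⊢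
  have e1 : ‖x - c‖ ^ 2 = ‖x‖ ^ 2 - 2 * inner ℝ x c + 1 := by
    rw [norm_sub_sq_real, hc]; ring
  have e2 : ‖(τ ^ 2) • x - c‖ ^ 2 = (τ ^ 2) ^ 2 * ‖x‖ ^ 2 - 2 * (τ ^ 2) * inner ℝ x c + 1 := by
    rw [norm_sub_sq_real, hc, norm_smul, Real.norm_eq_abs, abs_of_pos (by positivity),
      inner_smul_left]
    simp only [conj_trivial]
    ring
  have h2 : ‖x - c‖ ^ 2 < 1 := by nlinarith [norm_nonneg (x - c)]
  have h3 : ‖x‖ ^ 2 < 2 * inner ℝ x c := by rw [e1] at h2; linarith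
  have ht : 0 < τ ^ 2 := by positivity
  have ht1 : τ ^ 2 < 1 := by nlinarith
  have h4 : ‖(τ ^ 2) • x - c‖ ^ 2 < 1 := by
    rw [e2]
    have h5 : τ ^ 2 * ‖x‖ ^ 2 ≤ ‖x‖ ^ 2 := by nlinarith [sq_nonneg ‖x‖]
    nlinarith
  nlinarith [norm_nonneg ((τ ^ 2) • x - c)]

theorem bdry {c : EuclideanSpace ℝ (Fin 3)} {x : EuclideanSpace ℝ (Fin 3)}
    (hx : ‖x - c‖ = 1) :
    fderiv ℝ (fun x : EuclideanSpace ℝ (Fin 3) => ‖x - c‖ ^ 2 - 1) x ≠ 0 := by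
  have h1 : HasFDerivAt (fun x : EuclideanSpace ℝ (Fin 3) => ‖x - c‖ ^ 2 - 1)
      ((2 • (innerSL ℝ (x - c))).comp (ContinuousLinearMap.id ℝ _)) x :=
    (((hasStrictFDerivAt_norm_sq (x - c)).hasFDerivAt).comp x
      ((hasFDerivAt_id x).sub_const c)).sub_const 1
  rw [h1.fderiv]
  intro h2
  have h3 := congrArg (fun L => L (x - c)) h2
  simp at h3
  rw [← inner_sub_left, real_inner_self_eq_norm_sq, hx] at h3
  norm_num at h3


/-- The negation of the preceding statement: For every N≥3, smooth bounded domain Ω in R^N with 0 on its boundary, s in (0,2) and 2*(s)-1<p<(N+2)/(N-2), there is an H^1_0 function u>0 on Ω weakly solving Δu - u^p + u^(2*(s)-1)/∣x∣^s = 0. -/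
theorem result :
    ¬ (∀ (N : ℕ), 3 ≤ N →
  ∀ (Ω : Set (EuclideanSpace ℝ (Fin N))),
    IsOpen Ω → IsConnected Ω → Bornology.IsBounded Ω →
    (∃ ρ : EuclideanSpace ℝ (Fin N) → ℝ,
        ContDiff ℝ ((⊤ : ℕ∞) : WithTop ℕ∞) ρ ∧ Ω = {x | ρ x < 0} ∧
        ∀ x ∈ frontier Ω, fderiv ℝ ρ x ≠ 0) →
    (0 : EuclideanSpace ℝ (Fin N)) ∈ frontier Ω →
  ∀ s : ℝ, 0 < s → s < 2 →
  ∀ p : ℝ, 2 * ((N : ℝ) - s) / ((N : ℝ) - 2) - 1 < p →
    p < ((N : ℝ) + 2) / ((N : ℝ) - 2) →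
  ∃ u : EuclideanSpace ℝ (Fin N) → ℝ,
  ∃ G : EuclideanSpace ℝ (Fin N) → EuclideanSpace ℝ (Fin N),
    MemLp u 2 volume ∧ MemLp G 2 volume ∧
    (∃ φ : ℕ → EuclideanSpace ℝ (Fin N) → ℝ,
        (∀ n, ContDiff ℝ ((⊤ : ℕ∞) : WithTop ℕ∞) (φ n) ∧
              HasCompactSupport (φ n) ∧ tsupport (φ n) ⊆ Ω) ∧
        Tendsto (fun n => eLpNorm (fun x => φ n x - u x) 2 volume) atTop (𝓝 0) ∧
        Tendsto (fun n => eLpNorm (fun x => gradient (φ n) x - G x) 2 volume)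
          atTop (𝓝 0)) ∧
    (∀ᵐ x ∂(volume : Measure (EuclideanSpace ℝ (Fin N))), x ∈ Ω → 0 < u x) ∧
    ∀ ψ : EuclideanSpace ℝ (Fin N) → ℝ,
      ContDiff ℝ ((⊤ : ℕ∞) : WithTop ℕ∞) ψ → HasCompactSupport ψ → tsupport ψ ⊆ Ω →
        Integrable (fun x => inner ℝ (G x) (gradient ψ x)) volume ∧
        Integrable (fun x => u x ^ p * ψ x) volume ∧
        Integrable (fun x => u x ^ (2 * ((N : ℝ) - s) / ((N : ℝ) - 2) - 1) * ψ x / ‖x‖ ^ s)
          volume ∧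
        ∫ x, (inner ℝ (G x) (gradient ψ x) + u x ^ p * ψ x
              - u x ^ (2 * ((N : ℝ) - s) / ((N : ℝ) - 2) - 1) * ψ x / ‖x‖ ^ s) = 0) := by
  intro H
  obtain ⟨c, hcd⟩ : ∃ c : EuclideanSpace ℝ (Fin 3), c = EuclideanSpace.single 0 (1 : ℝ) := ⟨_, rfl⟩
  have hc : ‖c‖ = 1 := by rw [hcd]; simp
  obtain ⟨u, G, hu, hG, ⟨φ, hφ, h1, h2⟩, hpos, hw⟩ := H 3 le_rfl (Metric.ball c 1)
    Metric.isOpen_ball
    ⟨⟨c, Metric.mem_ball_self one_pos⟩, (convex_ball c 1).isPreconnected⟩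
    Metric.isBounded_ball
    ⟨fun x => ‖x - c‖ ^ 2 - 1, by
      exact (((contDiff_id.sub contDiff_const).norm_sq ℝ).sub contDiff_const), by
      ext x
      rw [Metric.mem_ball, dist_eq_norm, Set.mem_ofPred_eq]
      constructor
      · intro h
        nlinarith [norm_nonneg (x - c)]
      · intro h
        nlinarith [norm_nonneg (x - c)], by
      intro x hx
      rw [frontier_ball c one_ne_zero, mem_sphere_iff_norm] at hx
      exact bdry hx⟩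
    (by
      rw [frontier_ball c one_ne_zero, mem_sphere_iff_norm]
      rw [zero_sub, norm_neg, hc])
    1 (by norm_num) (by norm_num) 4 (by norm_num) (by norm_num)
  refine Pool.Agent.V11210.HS.no_solution (Ω := Metric.ball c 1) Metric.isOpen_ball
    ⟨c, Metric.mem_ball_self one_pos⟩ (fun τ h0 h1 x hx => dil_ball hc h0 h1 hx)
    (u := u) (G := G) ⟨hu, hG, φ, hφ, h1, h2⟩ (fun ψ hψ => ?_) hpos
  have h3 := (hw ψ hψ.1 hψ.2.1 hψ.2.2).2.2.2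
  rw [← h3]
  apply integral_congr_ae
  refine Filter.Eventually.of_forall fun x => ?_
  simp only
  have e1 : (2 * (((3 : ℕ) : ℝ) - 1) / (((3 : ℕ) : ℝ) - 2) - 1) = ((3 : ℕ) : ℝ) := by norm_num
  have e2 : (4 : ℝ) = ((4 : ℕ) : ℝ) := by norm_num
  rw [e1, Real.rpow_natCast, Real.rpow_one, e2, Real.rpow_natCast]

end Pool.Agent.S05648
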