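import Pool.Statements.S05680
import Pool.Agent.V1171.ConformalDisc

set_option autoImplicit false
open Pool Pool.MP_a50f86_an

namespace Pool.Agent.S05680

/-- The negation of the preceding statement: For every bounded convex smoothly bounded domain in R^n (n≥3), point p and nonzero conformal frame (u,v), there is a conformal harmonic disc with maximal scaling at p, unique on the disc, and it is an injective immersion proper into the domain. -/
theorem result :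
    ¬ (∀ n : ℕ, 3 ≤ n → ∀ Ω : Set (EuclideanSpace ℝ (Fin n)),
    IsOpen Ω → Bornology.IsBounded Ω → Convex ℝ Ω →
    (∃ U : Set (EuclideanSpace ℝ (Fin n)), ∃ ρ : EuclideanSpace ℝ (Fin n) → ℝ,
        IsOpen U ∧ closure Ω ⊆ U ∧ ContDiffOn ℝ ((⊤ : ℕ∞) : WithTop ℕ∞) ρ U ∧
        Ω = {x | x ∈ U ∧ ρ x < 0} ∧ ∀ x ∈ frontier Ω, fderiv ℝ ρ x ≠ 0) →
    ∀ p ∈ Ω, ∀ u v : EuclideanSpace ℝ (Fin n),
      ‖u‖ = ‖v‖ → inner ℝ u v = 0 → u ≠ 0 →
      ∃ f : ℂ → EuclideanSpace ℝ (Fin n),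
        (∃ r : ℝ, 0 < r ∧
          (ContDiffOn ℝ 2 f (Metric.ball (0 : ℂ) 1) ∧
            (∀ z ∈ Metric.ball (0 : ℂ) 1, f z ∈ Ω) ∧
            (∀ z ∈ Metric.ball (0 : ℂ) 1,
              ‖fderiv ℝ f z (1 : ℂ)‖ = ‖fderiv ℝ f z Complex.I‖ ∧
              inner ℝ (fderiv ℝ f z (1 : ℂ)) (fderiv ℝ f z Complex.I) = 0) ∧
            (∀ z ∈ Metric.ball (0 : ℂ) 1,
              fderiv ℝ (fun w => fderiv ℝ f w (1 : ℂ)) z (1 : ℂ) +
                fderiv ℝ (fun w => fderiv ℝ f w Complex.I) z Complex.I = 0)) ∧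
          f 0 = p ∧ fderiv ℝ f 0 (1 : ℂ) = r • u ∧ fderiv ℝ f 0 Complex.I = r • v ∧
          ∀ g : ℂ → EuclideanSpace ℝ (Fin n), ∀ s : ℝ, 0 < s →
            (ContDiffOn ℝ 2 g (Metric.ball (0 : ℂ) 1) ∧
              (∀ z ∈ Metric.ball (0 : ℂ) 1, g z ∈ Ω) ∧
              (∀ z ∈ Metric.ball (0 : ℂ) 1,
                ‖fderiv ℝ g z (1 : ℂ)‖ = ‖fderiv ℝ g z Complex.I‖ ∧
                inner ℝ (fderiv ℝ g z (1 : ℂ)) (fderiv ℝ g z Complex.I) = 0) ∧
              (∀ z ∈ Metric.ball (0 : ℂ) 1,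
                fderiv ℝ (fun w => fderiv ℝ g w (1 : ℂ)) z (1 : ℂ) +
                  fderiv ℝ (fun w => fderiv ℝ g w Complex.I) z Complex.I = 0)) →
            g 0 = p → fderiv ℝ g 0 (1 : ℂ) = s • u → fderiv ℝ g 0 Complex.I = s • v →
            s ≤ r) ∧
        (∀ h : ℂ → EuclideanSpace ℝ (Fin n),
          (∃ r : ℝ, 0 < r ∧
            (ContDiffOn ℝ 2 h (Metric.ball (0 : ℂ) 1) ∧
              (∀ z ∈ Metric.ball (0 : ℂ) 1, h z ∈ Ω) ∧
              (∀ z ∈ Metric.ball (0 : ℂ) 1,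
                ‖fderiv ℝ h z (1 : ℂ)‖ = ‖fderiv ℝ h z Complex.I‖ ∧
                inner ℝ (fderiv ℝ h z (1 : ℂ)) (fderiv ℝ h z Complex.I) = 0) ∧
              (∀ z ∈ Metric.ball (0 : ℂ) 1,
                fderiv ℝ (fun w => fderiv ℝ h w (1 : ℂ)) z (1 : ℂ) +
                  fderiv ℝ (fun w => fderiv ℝ h w Complex.I) z Complex.I = 0)) ∧
            h 0 = p ∧ fderiv ℝ h 0 (1 : ℂ) = r • u ∧ fderiv ℝ h 0 Complex.I = r • v ∧
            ∀ g : ℂ → EuclideanSpace ℝ (Fin n), ∀ s : ℝ, 0 < s →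
              (ContDiffOn ℝ 2 g (Metric.ball (0 : ℂ) 1) ∧
                (∀ z ∈ Metric.ball (0 : ℂ) 1, g z ∈ Ω) ∧
                (∀ z ∈ Metric.ball (0 : ℂ) 1,
                  ‖fderiv ℝ g z (1 : ℂ)‖ = ‖fderiv ℝ g z Complex.I‖ ∧
                  inner ℝ (fderiv ℝ g z (1 : ℂ)) (fderiv ℝ g z Complex.I) = 0) ∧
                (∀ z ∈ Metric.ball (0 : ℂ) 1,
                  fderiv ℝ (fun w => fderiv ℝ g w (1 : ℂ)) z (1 : ℂ) +
                    fderiv ℝ (fun w => fderiv ℝ g w Complex.I) z Complex.I = 0)) →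
              g 0 = p → fderiv ℝ g 0 (1 : ℂ) = s • u → fderiv ℝ g 0 Complex.I = s • v →
              s ≤ r) →
          Set.EqOn h f (Metric.ball (0 : ℂ) 1)) ∧
        Set.InjOn f (Metric.ball (0 : ℂ) 1) ∧
        (∀ z ∈ Metric.ball (0 : ℂ) 1, fderiv ℝ f z (1 : ℂ) ≠ 0) ∧
        (∀ K : Set (EuclideanSpace ℝ (Fin n)), IsCompact K → K ⊆ Ω →
          IsCompact (Metric.ball (0 : ℂ) 1 ∩ f ⁻¹' K))) := by
  intro H
  have hz0 : (0 : ℂ) ∈ Metric.ball (0 : ℂ) 1 := Metric.mem_ball_self one_pos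
  obtain ⟨f, ⟨r, hr, hfCH, hf0, hf1, hfI, hmax⟩, huniq, -, -, -⟩ :=
    H 3 le_rfl Pool.Agent.V1171.Conf.Om Pool.Agent.V1171.Conf.isOpen_Om
      Pool.Agent.V1171.Conf.isBounded_Om Pool.Agent.V1171.Conf.convex_Om
      Pool.Agent.V1171.Conf.smooth_Om 0
      (by
        show (0 : EuclideanSpace ℝ (Fin 3)) 0 ^ 64 + (0 : EuclideanSpace ℝ (Fin 3)) 1 ^ 64
          + (0 : EuclideanSpace ℝ (Fin 3)) 2 ^ 64 < 4
        simp)
      (EuclideanSpace.single 0 1) (EuclideanSpace.single 1 1)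
      (by simp) (by simp [EuclideanSpace.inner_single_left]) (by simp)
  -- the competitor
  have hge : Pool.Agent.V1171.Conf.ca ≤ r :=
    hmax Pool.Agent.V1171.Conf.gg Pool.Agent.V1171.Conf.ca Pool.Agent.V1171.Conf.ca_pos
      Pool.Agent.V1171.Conf.gg_CH Pool.Agent.V1171.Conf.gg_0 Pool.Agent.V1171.Conf.gg_1
      Pool.Agent.V1171.Conf.gg_I
  -- the reflected disc
  have hfd : ∀ (g : ℂ → EuclideanSpace ℝ (Fin 3)) (z v : ℂ),
      fderiv ℝ (fun z => Pool.Agent.V1171.Conf.sg (g z)) z v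
        = Pool.Agent.V1171.Conf.sg (fderiv ℝ g z v) := by
    intro g z v
    have := Pool.Agent.V1171.Conf.sg.toContinuousLinearEquiv.comp_fderiv (f := g) (x := z)
    have h2 := congrArg (fun l : ℂ →L[ℝ] EuclideanSpace ℝ (Fin 3) => l v) this
    simpa [Function.comp_def] using h2
  have hs0 : Pool.Agent.V1171.Conf.sg (EuclideanSpace.single 0 1) = EuclideanSpace.single 0 1 := by
    ext i
    fin_cases i
    · simp [Pool.Agent.V1171.Conf.sg_0]
    · simp [Pool.Agent.V1171.Conf.sg_1]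
    · simp [Pool.Agent.V1171.Conf.sg_2]
  have hs1 : Pool.Agent.V1171.Conf.sg (EuclideanSpace.single 1 1) = EuclideanSpace.single 1 1 := by
    ext i
    fin_cases i
    · simp [Pool.Agent.V1171.Conf.sg_0]
    · simp [Pool.Agent.V1171.Conf.sg_1]
    · simp [Pool.Agent.V1171.Conf.sg_2]
  have heq := huniq (fun z => Pool.Agent.V1171.Conf.sg (f z))
    ⟨r, hr, Pool.Agent.V1171.Conf.sg_CH hfCH, by simp [hf0],
      by rw [hfd, hf1, map_smul, hs0], by rw [hfd, hfI, map_smul, hs1], hmax⟩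
  have h3 : ∀ z ∈ Metric.ball (0 : ℂ) 1, f z 2 = 0 := by
    intro z hz
    have h4 := congrArg (fun x : EuclideanSpace ℝ (Fin 3) => x 2) (heq hz)
    simp only [Pool.Agent.V1171.Conf.sg_2] at h4
    linarith
  have hub := Pool.Agent.V1171.Conf.upper_bound hfCH hr hf0 hf1 hfI h3
  have h5 : (4 / 3 : ℝ) ≤ r ^ 2 := by
    rw [← Pool.Agent.V1171.Conf.ca_sq]
    exact pow_le_pow_left₀ Pool.Agent.V1171.Conf.ca_pos.le hge 2
  have h6 := Real.pi_gt_d2
  nlinarith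

end Pool.Agent.S05680
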