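import Pool.Statements.S05718
import Pool.Agent.V1193.Gen
-- import your own Pool.Agent.* helpers here

set_option autoImplicit false
open MeasureTheory Filter Topology
open Pool Pool.MP_a70d84_an

namespace Pool.Agent.S05718

/-- The negation of the preceding statement: On ℓ²(ℕ), a finite-section sequence has the form P_nKP_n+W_nK'W_n+C_n (K,K' compact, ‖C_n‖→0) iff it lies in the closed algebra generated by P_nT(a)P_n, a∈L^∞, and both s-lim A_n and s-lim W_nA_nW_n are compact. -/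
theorem result :
    ¬ (∀ (P W : ℕ → (lp (fun _ : ℕ => ℂ) 2 →L[ℂ] lp (fun _ : ℕ => ℂ) 2)),
    (∀ (n : ℕ) (x : lp (fun _ : ℕ => ℂ) 2) (j : ℕ), (P n x) j = if j ≤ n then x j else 0) →
    (∀ (n : ℕ) (x : lp (fun _ : ℕ => ℂ) 2) (j : ℕ), (W n x) j = if j ≤ n then x (n - j) else 0) →
    ∀ A : ℕ → (lp (fun _ : ℕ => ℂ) 2 →L[ℂ] lp (fun _ : ℕ => ℂ) 2),
      (∃ K K' : lp (fun _ : ℕ => ℂ) 2 →L[ℂ] lp (fun _ : ℕ => ℂ) 2,
        IsCompactOperator K ∧ IsCompactOperator K' ∧
        ∃ C : ℕ → (lp (fun _ : ℕ => ℂ) 2 →L[ℂ] lp (fun _ : ℕ => ℂ) 2),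
          (∀ n, C n = P n * C n * P n) ∧
          Tendsto (fun n => ‖C n‖) atTop (𝓝 0) ∧
          ∀ n, A n = P n * K * P n + W n * K' * W n + C n)
      ↔
      ((∀ ε : ℝ, 0 < ε →
          ∃ B ∈ NonUnitalAlgebra.adjoin ℂ
            {G : ℕ → (lp (fun _ : ℕ => ℂ) 2 →L[ℂ] lp (fun _ : ℕ => ℂ) 2) |
              ∃ a : Lp ℂ ⊤ (volume : Measure (AddCircle (1 : ℝ))),
              ∃ T : lp (fun _ : ℕ => ℂ) 2 →L[ℂ] lp (fun _ : ℕ => ℂ) 2,
                (∀ j k : ℕ, (T (lp.single 2 k (1 : ℂ) : lp (fun _ : ℕ => ℂ) 2)) j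
                    = fourierCoeff (⇑a : AddCircle (1 : ℝ) → ℂ) ((j : ℤ) - (k : ℤ))) ∧
                ∀ n, G n = P n * T * P n},
            ∀ n, ‖A n - B n‖ ≤ ε) ∧
       (∃ K : lp (fun _ : ℕ => ℂ) 2 →L[ℂ] lp (fun _ : ℕ => ℂ) 2,
          IsCompactOperator K ∧ ∀ x, Tendsto (fun n => A n x) atTop (𝓝 (K x))) ∧
       (∃ K : lp (fun _ : ℕ => ℂ) 2 →L[ℂ] lp (fun _ : ℕ => ℂ) 2,
          IsCompactOperator K ∧
          ∀ x, Tendsto (fun n => (W n * A n * W n) x) atTop (𝓝 (K x))))) := by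
  intro H
  have H2 := H V1193.PP V1193.WW V1193.PP_apply V1193.WW_apply V1193.ZZ
  have hrhs := H2.mpr ?_
  · obtain ⟨K, K', hK, hK', C, _, hC, hZ⟩ := hrhs
    have hnx : ∀ n, ‖V1193.uu (V1193.rr n) (V1193.rr_pos n).le (V1193.rr_lt n)‖ ≤ 1 := by
      intro n
      have := V1193.uu_norm (V1193.rr n) (V1193.rr_pos n).le (V1193.rr_lt n)
      nlinarith [norm_nonneg (V1193.uu (V1193.rr n) (V1193.rr_pos n).le (V1193.rr_lt n))]
    have hcoord : ∀ (n j : ℕ), ‖(V1193.uu (V1193.rr n) (V1193.rr_pos n).le (V1193.rr_lt n)) j‖ ≤ Real.sqrt (1 - V1193.rr n ^ 2) := by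
      intro n j
      rw [V1193.uu_apply, Complex.norm_real, Real.norm_eq_abs, abs_mul, abs_of_nonneg (Real.sqrt_nonneg _),
        abs_of_nonneg (pow_nonneg (V1193.rr_pos n).le _)]
      have h1 : V1193.rr n ^ j ≤ 1 := pow_le_one₀ (V1193.rr_pos n).le (V1193.rr_lt n).le
      calc _ ≤ Real.sqrt (1 - V1193.rr n ^ 2) * 1 := mul_le_mul_of_nonneg_left h1 (Real.sqrt_nonneg _)
        _ = _ := mul_one _
    have hsq : Tendsto (fun n => Real.sqrt (1 - V1193.rr n ^ 2)) atTop (𝓝 0) := by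
      have h1 : Tendsto (fun n => Real.sqrt (1 - V1193.rr n ^ 2)) atTop (𝓝 (Real.sqrt (1 - 1 ^ 2))) :=
        (Real.continuous_sqrt.tendsto _).comp ((V1193.rr_tendsto.pow 2).const_sub 1)
      simpa using h1
    have hW0 : ∀ j, Tendsto (fun n => (V1193.WW n (V1193.uu (V1193.rr n) (V1193.rr_pos n).le (V1193.rr_lt n))) j) atTop (𝓝 0) := by
      intro j
      apply squeeze_zero_norm _ hsq
      intro n
      rw [V1193.WW_apply]
      split_ifs
      · exact hcoord n _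
      · simp
    have hP0 : ∀ j, Tendsto (fun n => (V1193.PP n (V1193.uu (V1193.rr n) (V1193.rr_pos n).le (V1193.rr_lt n))) j) atTop (𝓝 0) := by
      intro j
      apply squeeze_zero_norm _ hsq
      intro n
      rw [V1193.PP_apply]
      split_ifs
      · exact hcoord n _
      · simp
    have h1 := V1193.compact_weak K hK _ (fun n => (V1193.WW_norm_le n _).trans (hnx n)) hW0
    have h2 := V1193.compact_weak K' hK' _ (fun n => (V1193.PP_norm_le n _).trans (hnx n)) hP0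
    have h3 : Tendsto (fun n => ‖V1193.ZZ n (V1193.WW n (V1193.uu (V1193.rr n) (V1193.rr_pos n).le (V1193.rr_lt n)))‖) atTop (𝓝 0) := by
      have hsum := (h1.norm.add h2.norm).add hC
      simp only [norm_zero, add_zero] at hsum
      refine squeeze_zero (fun n => norm_nonneg _) (fun n => ?_) hsum
      rw [hZ n]
      simp only [add_apply, mul_apply_eq_comp]
      refine (norm_add_le _ _).trans (add_le_add ((norm_add_le _ _).trans (add_le_add ?_ ?_)) ?_)
      · rw [V1193.PP_WW]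
        exact V1193.PP_norm_le _ _
      · rw [V1193.WW_WW]
        exact V1193.WW_norm_le _ _
      · refine (ContinuousLinearMap.le_opNorm _ _).trans ?_
        calc _ ≤ ‖C n‖ * 1 := mul_le_mul_of_nonneg_left ((V1193.WW_norm_le n _).trans (hnx n)) (norm_nonneg _)
          _ = _ := mul_one _
    have h4 := h3.eventually (gt_mem_nhds (Real.exp_pos (-2)))
    obtain ⟨n, hn1, hn2⟩ := (h4.and V1193.final_lower).exists
    exact absurd hn1 (not_lt.mpr hn2)
  · refine ⟨?_, ⟨0, isCompactOperator_zero, ?_⟩, ⟨0, isCompactOperator_zero, ?_⟩⟩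
    · intro ε hε
      refine ⟨V1193.ZZ, V1193.ZZ_mem, ?_⟩
      intro n
      simp [hε.le]
    · intro x
      simpa using V1193.ZZ_tendsto x
    · intro x
      simpa [mul_apply_eq_comp] using V1193.WZW_tendsto x

end Pool.Agent.S05718
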