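import Pool.Statements.S05792
import Pool.Agent.V110.LW.Main

set_option autoImplicit false
open scoped InnerProductSpace
open Pool Pool.MP_ace6cd_an

namespace Pool.Agent.S05792

/-- The negation of the preceding statement: For a bounded operator A on a complex Hilbert space whose closed invariant subspaces are all closed spans of eigenvectors, every operator leaving those subspaces invariant is a weak-operator limit of polynomials in A, i.e. A is reflexive. -/
theorem result :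
    ¬ (∀ (H : Type) [NormedAddCommGroup H] [InnerProductSpace ℂ H] [CompleteSpace H]
      (A : H →L[ℂ] H),
      (∀ M : Submodule ℂ H, IsClosed (M : Set H) → (∀ x ∈ M, A x ∈ M) →
        M = (Submodule.span ℂ {x : H | x ∈ M ∧ ∃ c : ℂ, A x = c • x}).topologicalClosure) →
      ∀ B : H →L[ℂ] H,
        (∀ M : Submodule ℂ H, IsClosed (M : Set H) → (∀ x ∈ M, A x ∈ M) →
          ∀ x ∈ M, B x ∈ M) →
        ∀ (s : Finset (H × H)) (ε : ℝ), 0 < ε →
          ∃ p : Polynomial ℂ, ∀ z ∈ s,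
            ‖⟪(B - Polynomial.aeval A p) z.1, z.2⟫_ℂ‖ < ε) := by
  intro hall
  have h := hall V110.LW.H V110.LW.A (fun M hM hi => V110.LW.synthesis hM hi) V110.LW.B
    (fun M hM hi => V110.LW.B_mem hM hi)
  classical
  obtain ⟨p, hp⟩ := h {(V110.LW.X1, V110.LW.Y1), (V110.LW.X2, V110.LW.Y2),
    (V110.LW.e 1, V110.LW.e 1), (V110.LW.e 0, V110.LW.e 0)} (1 / 4) (by norm_num)
  set T : V110.LW.H →L[ℂ] V110.LW.H := V110.LW.B - Polynomial.aeval V110.LW.A p with hT
  have h1 := hp (V110.LW.X1, V110.LW.Y1) (by simp)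
  have h2 := hp (V110.LW.X2, V110.LW.Y2) (by simp)
  have h3 := hp (V110.LW.e 1, V110.LW.e 1) (by simp)
  have h4 := hp (V110.LW.e 0, V110.LW.e 0) (by simp)
  have h5 : V110.LW.Psi T = 1 := by
    rw [hT, V110.LW.Psi_sub, V110.LW.Psi_B, V110.LW.Psi_poly, sub_zero]
  simp only at h1 h2 h3 h4
  rw [norm_inner_symm] at h1 h2 h3 h4
  have h6 : ‖V110.LW.Psi T‖ < 1 := by
    unfold V110.LW.Psi
    refine (norm_sub_le _ _).trans_lt ?_
    have h7 := norm_add₃_le (a := ⟪V110.LW.Y1, T V110.LW.X1⟫_ℂ)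
      (b := ⟪V110.LW.Y2, T V110.LW.X2⟫_ℂ) (c := ⟪V110.LW.e 1, T (V110.LW.e 1)⟫_ℂ)
    linarith
  rw [h5, norm_one] at h6
  exact lt_irrefl _ h6

end Pool.Agent.S05792
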