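import Pool.Statements.S05947
import Pool.Agent.V1179.Spec.Unif
import Pool.Agent.V1179.Spec.Contr
import Pool.Agent.V1179.Spec.Geo

set_option autoImplicit false
open MeasureTheory Matrix
open Pool Pool.MP_bc76ba_an

namespace Pool.Agent.S05947

/-- For an expanding integer matrix R and finite digit set B in Z^d, if the equal-weight self-affine measure is spectral, then the pieces R^{-1}(T+b) of its attractor T pairwise meet in a set of measure zero. -/
theorem result :
  ∀ (d : ℕ) (R : Matrix (Fin d) (Fin d) ℤ) (B : Finset (Fin d → ℤ))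
    (φ : (Fin d → ℤ) → (Fin d → ℝ) → (Fin d → ℝ))
    (μ : MeasureTheory.Measure (Fin d → ℝ)),
    (∀ z : ℂ, (R.map (Int.castRingHom ℂ)).charpoly.IsRoot z → 1 < ‖z‖) →
    (∀ b x, φ b x = (R.map (Int.castRingHom ℝ))⁻¹ *ᵥ (x + fun i => (b i : ℝ))) →
    MeasureTheory.IsProbabilityMeasure μ →
    μ = ∑ b ∈ B, ((B.card : ENNReal)⁻¹) • μ.map (φ b) →
    (∃ (Λ : Set (Fin d → ℝ)) (e : Λ → MeasureTheory.Lp ℂ 2 μ),
      (∀ l : Λ, (e l : (Fin d → ℝ) → ℂ) =ᵐ[μ]
        fun x => Complex.exp (2 * Real.pi * Complex.I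
          * ((∑ i, (l : Fin d → ℝ) i * x i : ℝ) : ℂ))) ∧
      Orthonormal ℂ e ∧
      (Submodule.span ℂ (Set.range e)).topologicalClosure = ⊤) →
    ∀ T : Set (Fin d → ℝ), IsCompact T → T.Nonempty → T = ⋃ b ∈ B, φ b '' T →
    ∀ b ∈ B, ∀ b' ∈ B, b ≠ b' → μ (φ b '' T ∩ φ b' '' T) = 0 := by
  intro d R B φ μ hR hφ hμ hinv hspec T hT hTne hTeq b hb b' hb' hbb
  have hd : 0 < d := by
    rcases Nat.eq_zero_or_pos d with h | h
    · subst h
      exact absurd (Subsingleton.elim b b') hbb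
    · exact h
  have hφ' : ∀ c, φ c = V1179.Spec.ph R c := by
    intro c
    funext x
    exact hφ c x
  have hBne : B.Nonempty := ⟨b, hb⟩
  have hdet := V1179.Spec.det_ne R hR
  obtain ⟨c, hc0, hc, hcon⟩ := V1179.Spec.contr hd R hR
  simp only [hφ'] at hinv hTeq ⊢
  have hInv : V1179.Spec.Inv R B μ := by
    intro s hs
    have h1 : μ s = ∑ c ∈ B, (B.card : ENNReal)⁻¹ * μ (V1179.Spec.ph R c ⁻¹' s) := by
      conv_lhs => rw [hinv]
      rw [Measure.finsetSum_apply]
      refine Finset.sum_congr rfl fun c _ => ?_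
      rw [Measure.smul_apply, Measure.map_apply (V1179.Spec.measurable_ph R c) hs, smul_eq_mul]
    rw [measureReal_def, h1, ENNReal.toReal_sum, Finset.mul_sum]
    · refine Finset.sum_congr rfl fun c _ => ?_
      rw [ENNReal.toReal_mul, ENNReal.toReal_inv, ENNReal.toReal_natCast, measureReal_def]
    · intro c _
      refine ENNReal.mul_ne_top ?_ (measure_ne_top _ _)
      rw [Ne, ENNReal.inv_eq_top]
      exact_mod_cast hBne.card_pos.ne'
  have hsupp := V1179.Spec.supp hdet hInv hBne c hc0 hc hcon hT hTne hTeq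
  obtain ⟨Λ, e, he, ho, hs⟩ := hspec
  have huni : ∀ U, MeasurableSet U → ∀ a : Fin d → ℝ,
      (∀ s, MeasurableSet s → 2 * μ.real (U ∩ (fun x => x + a) ⁻¹' s) ≤ μ.real s) →
      μ.real U = 0 := by
    intro U hU a h
    rw [measureReal_eq_zero_iff (measure_ne_top _ _)]
    refine V1179.Spec.uniformity μ Λ e he ho hs U hU a ?_
    intro s hs
    have h1 := h s hs
    rw [measureReal_def, measureReal_def] at h1
    rw [← ENNReal.toReal_le_toReal (ENNReal.mul_ne_top (by norm_num) (measure_ne_top _ _))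
      (measure_ne_top _ _), ENNReal.toReal_mul]
    simpa using h1
  exact V1179.Spec.no_overlap hdet hInv hT hTeq hsupp
    (V1179.Spec.distinct hdet hInv hT hsupp huni) b hb b' hb' hbb

end Pool.Agent.S05947
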