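import Pool.Statements.S06037
import Pool.Agent.V1169.EL7

set_option autoImplicit false
open Pool Pool.MP_c2df89_an

namespace Pool.Agent.S06037

/-- In the convolution algebra ℓ¹ of the free group on countably many generators, every closed two-sided ideal of codimension two equals the linear span of products of pairs of its elements. -/
theorem result :
    ∀ I : Submodule ℂ (lp (fun _ : FreeGroup ℕ => ℂ) 1),
      IsClosed (I : Set (lp (fun _ : FreeGroup ℕ => ℂ) 1)) →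
      (∀ f ∈ I, ∀ g h : lp (fun _ : FreeGroup ℕ => ℂ) 1,
        ((∀ x : FreeGroup ℕ, h x = ∑' y : FreeGroup ℕ, f y * g (y⁻¹ * x)) → h ∈ I) ∧
        ((∀ x : FreeGroup ℕ, h x = ∑' y : FreeGroup ℕ, g y * f (y⁻¹ * x)) → h ∈ I)) →
      Module.finrank ℂ ((lp (fun _ : FreeGroup ℕ => ℂ) 1) ⧸ I) = 2 →
      Submodule.span ℂ
        {h : lp (fun _ : FreeGroup ℕ => ℂ) 1 |
          ∃ a ∈ I, ∃ b ∈ I, ∀ x : FreeGroup ℕ,
            h x = ∑' y : FreeGroup ℕ, a y * b (y⁻¹ * x)} = I := by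
  intro I hI hid hfin
  have hideal : ∀ a ∈ I, ∀ b : Pool.Agent.V1169.EL.L (FreeGroup ℕ), a * b ∈ I ∧ b * a ∈ I := by
    intro a ha b
    constructor
    · exact (hid a ha b (a * b)).1 (fun x => rfl)
    · exact (hid a ha b (b * a)).2 (fun x => rfl)
  have hmain := Pool.Agent.V1169.EL.idempotent_codim_two I hI hideal hfin
  have hset : {h : lp (fun _ : FreeGroup ℕ => ℂ) 1 |
          ∃ a ∈ I, ∃ b ∈ I, ∀ x : FreeGroup ℕ,
            h x = ∑' y : FreeGroup ℕ, a y * b (y⁻¹ * x)} =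
      {h : Pool.Agent.V1169.EL.L (FreeGroup ℕ) | ∃ a ∈ I, ∃ b ∈ I, h = a * b} := by
    ext h
    constructor
    · rintro ⟨a, ha, b, hb, hx⟩
      exact ⟨a, ha, b, hb, Pool.Agent.V1169.EL.L_ext hx⟩
    · rintro ⟨a, ha, b, hb, rfl⟩
      exact ⟨a, ha, b, hb, fun x => rfl⟩
  rw [hset]
  exact hmain

end Pool.Agent.S06037
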