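import Pool.Statements.S06063
-- import your own Pool.Agent.* helpers here

set_option autoImplicit false
open Pool Pool.MP_c4a887_an

namespace Pool.Agent.S06063

section generic

variable {𝔸 : Type*} [NormedRing 𝔸] [NormedAlgebra ℝ 𝔸] [CompleteSpace 𝔸]

lemma sum0 (B : 𝔸) (l : ℝ) :
    HasSum (fun k : ℕ => (l ^ k / (k.factorial : ℝ)) • B ^ k) (NormedSpace.exp (l • B)) := by
  have h := NormedSpace.exp_series_hasSum_exp' (𝕂 := ℝ) (l • B)
  have e : (fun k : ℕ => (l ^ k / (k.factorial : ℝ)) • B ^ k)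
      = fun k : ℕ => ((k.factorial : ℝ)⁻¹) • (l • B) ^ k := by
    funext k
    rw [smul_pow, smul_smul]
    congr 1
    ring
  rw [e]
  exact h

lemma sum1 (B : 𝔸) (l : ℝ) :
    HasSum (fun k : ℕ => ((k : ℝ) * (l ^ k / (k.factorial : ℝ))) • B ^ k)
      ((l • B) * NormedSpace.exp (l • B)) := by
  have h := (sum0 B l).mul_left (l • B)
  have h2 := (hasSum_nat_add_iff (f := fun k : ℕ => ((k : ℝ) * (l ^ k / (k.factorial : ℝ))) • B ^ k) 1
    (g := (l • B) * NormedSpace.exp (l • B))).mp (by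
      have e : (fun n : ℕ => (((n + 1 : ℕ) : ℝ) * (l ^ (n + 1) / ((n + 1).factorial : ℝ))) • B ^ (n + 1))
          = fun k : ℕ => (l • B) * ((l ^ k / (k.factorial : ℝ)) • B ^ k) := by
        funext k
        rw [smul_mul_smul_comm, ← pow_succ']
        congr 1
        rw [Nat.factorial_succ]
        push_cast
        have h1 : ((k : ℝ) + 1) ≠ 0 := by positivity
        have h2 : (k.factorial : ℝ) ≠ 0 := by positivity
        field_simp
        ring
      rw [e]
      exact h)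
  simpa using h2

/-- scalar sums -/
lemma s0 (l : ℝ) : HasSum (fun k : ℕ => l ^ k / (k.factorial : ℝ)) (Real.exp l) := by
  have h := sum0 (1 : ℝ) l
  simp only [one_pow, smul_eq_mul, mul_one] at h
  rwa [← Real.exp_eq_exp_ℝ] at h

lemma s1 (l : ℝ) : HasSum (fun k : ℕ => (k : ℝ) * (l ^ k / (k.factorial : ℝ))) (l * Real.exp l) := by
  have h := sum1 (1 : ℝ) l
  simp only [one_pow, smul_eq_mul, mul_one] at h
  rwa [← Real.exp_eq_exp_ℝ] at h

lemma s2 (l : ℝ) : HasSum (fun k : ℕ => (k : ℝ) ^ 2 * (l ^ k / (k.factorial : ℝ)))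
    (l * (l * Real.exp l + Real.exp l)) := by
  have h := ((s1 l).add (s0 l)).mul_left l
  have h2 := (hasSum_nat_add_iff (f := fun k : ℕ => (k : ℝ) ^ 2 * (l ^ k / (k.factorial : ℝ))) 1
    (g := l * (l * Real.exp l + Real.exp l))).mp (by
      have e : (fun n : ℕ => ((n + 1 : ℕ) : ℝ) ^ 2 * (l ^ (n + 1) / ((n + 1).factorial : ℝ)))
          = fun k : ℕ => l * ((k : ℝ) * (l ^ k / (k.factorial : ℝ)) + l ^ k / (k.factorial : ℝ)) := by
        funext k
        rw [Nat.factorial_succ]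
        push_cast
        have h1 : ((k : ℝ) + 1) ≠ 0 := by positivity
        have h2 : (k.factorial : ℝ) ≠ 0 := by positivity
        field_simp
        ring
      rw [e]
      exact h)
  simpa using h2

lemma scalar_bound {l : ℝ} (hl : 0 < l) :
    HasSum (fun k : ℕ => (((k : ℝ) - l) ^ 2 / √l + √l) / 2 * (l ^ k / (k.factorial : ℝ)))
      (√l * Real.exp l) := by
  have h := ((((s2 l).add ((s1 l).mul_left (-2 * l))).add ((s0 l).mul_left (l ^ 2))).mul_left
    ((√l)⁻¹ / 2)).add ((s0 l).mul_left (√l / 2))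
  have hs : √l ≠ 0 := by positivity
  have hs2 : √l * √l = l := Real.mul_self_sqrt hl.le
  have e0 : (fun k : ℕ => (((k : ℝ) - l) ^ 2 / √l + √l) / 2 * (l ^ k / (k.factorial : ℝ)))
      = fun b : ℕ => (√l)⁻¹ / 2 *
          ((b : ℝ) ^ 2 * (l ^ b / (b.factorial : ℝ)) + -2 * l * ((b : ℝ) * (l ^ b / (b.factorial : ℝ)))
            + l ^ 2 * (l ^ b / (b.factorial : ℝ))) + √l / 2 * (l ^ b / (b.factorial : ℝ)) := by
    funext k
    have h2 : (k.factorial : ℝ) ≠ 0 := by positivity
    field_simp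
    ring
  have e1 : √l * Real.exp l = (√l)⁻¹ / 2 * (l * (l * Real.exp l + Real.exp l) + -2 * l * (l * Real.exp l)
      + l ^ 2 * Real.exp l) + √l / 2 * Real.exp l := by
    have e : (l * (l * Real.exp l + Real.exp l) + -2 * l * (l * Real.exp l) + l ^ 2 * Real.exp l)
        = √l * √l * Real.exp l := by rw [hs2]; ring
    rw [e]
    field_simp
    ring
  rw [e0, e1]
  exact h

lemma poisson (B : 𝔸) (hB : ∀ k : ℕ, ‖B ^ k‖ ≤ 1) {l : ℝ} (hl : 0 < l) :
    ‖(l • (B - 1)) * NormedSpace.exp (l • (B - 1))‖ ≤ √l := by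
  have hexp : NormedSpace.exp (l • (B - 1)) = Real.exp (-l) • NormedSpace.exp (l • B) := by
    let _ : NormedAlgebra ℚ 𝔸 := NormedAlgebra.restrictScalars ℚ ℝ 𝔸
    have e1 : l • (B - 1) = algebraMap ℝ 𝔸 (-l) + l • B := by
      rw [smul_sub, Algebra.algebraMap_eq_smul_one, neg_smul]; abel
    rw [e1, NormedSpace.exp_add_of_commute (Algebra.commutes' _ _), ← NormedSpace.algebraMap_exp_comm,
      ← Real.exp_eq_exp_ℝ, Algebra.algebraMap_eq_smul_one, smul_mul_assoc, one_mul]
  have h1 := (sum1 B l).sub ((sum0 B l).const_smul l)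
  have e2 : (l • (B - 1)) * NormedSpace.exp (l • (B - 1))
      = Real.exp (-l) • ((l • B) * NormedSpace.exp (l • B) - l • NormedSpace.exp (l • B)) := by
    rw [hexp, mul_smul_comm, smul_sub l, sub_mul, smul_mul_assoc l (1 : 𝔸), one_mul]
  rw [e2, norm_smul, Real.norm_of_nonneg (Real.exp_pos _).le]
  have h2 : ‖(l • B) * NormedSpace.exp (l • B) - l • NormedSpace.exp (l • B)‖ ≤ √l * Real.exp l := by
    refine h1.norm_le_of_bounded (scalar_bound hl) ?_
    intro k
    have e3 : ((k : ℝ) * (l ^ k / (k.factorial : ℝ))) • B ^ k - l • ((l ^ k / (k.factorial : ℝ)) • B ^ k)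
        = (((k : ℝ) - l) * (l ^ k / (k.factorial : ℝ))) • B ^ k := by
      rw [smul_smul, ← sub_smul]
      congr 1
      ring
    rw [e3, norm_smul, norm_mul]
    have hp : 0 ≤ l ^ k / (k.factorial : ℝ) := by positivity
    rw [Real.norm_of_nonneg hp, Real.norm_eq_abs]
    have hs : 0 < √l := by positivity
    have h3 : |(k : ℝ) - l| ≤ (((k : ℝ) - l) ^ 2 / √l + √l) / 2 := by
      rw [le_div_iff₀ (by norm_num), ← sub_nonneg]
      have h4 : ((k : ℝ) - l) ^ 2 / √l + √l - |(k : ℝ) - l| * 2 = (|(k : ℝ) - l| - √l) ^ 2 / √l := by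
        rw [← sq_abs ((k : ℝ) - l)]
        field_simp
        ring
      rw [h4]
      positivity
    calc |(k : ℝ) - l| * (l ^ k / (k.factorial : ℝ)) * ‖B ^ k‖
        ≤ |(k : ℝ) - l| * (l ^ k / (k.factorial : ℝ)) * 1 := by
          gcongr
          exact hB k
      _ = |(k : ℝ) - l| * (l ^ k / (k.factorial : ℝ)) := mul_one _
      _ ≤ _ := by gcongr
  calc Real.exp (-l) * ‖(l • B) * NormedSpace.exp (l • B) - l • NormedSpace.exp (l • B)‖
      ≤ Real.exp (-l) * (√l * Real.exp l) := by gcongr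
    _ = √l * (Real.exp (-l) * Real.exp l) := by ring
    _ = √l := by rw [← Real.exp_add]; simp

lemma norm_le_of_poisson (R : 𝔸) {s : ℝ} (h : ‖R * NormedSpace.exp R‖ ≤ s) :
    ‖R‖ ≤ s * ‖NormedSpace.exp (-R)‖ := by
  let _ : NormedAlgebra ℚ 𝔸 := NormedAlgebra.restrictScalars ℚ ℝ 𝔸
  have h9 : R = (R * NormedSpace.exp R) * NormedSpace.exp (-R) := by
    rw [mul_assoc, ← NormedSpace.exp_add_of_commute (Commute.neg_right (Commute.refl R)), add_neg_cancel,
      NormedSpace.exp_zero, mul_one]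
  calc ‖R‖ = ‖(R * NormedSpace.exp R) * NormedSpace.exp (-R)‖ := by rw [← h9]
      _ ≤ ‖R * NormedSpace.exp R‖ * ‖NormedSpace.exp (-R)‖ := norm_mul_le _ _
      _ ≤ s * ‖NormedSpace.exp (-R)‖ := mul_le_mul_of_nonneg_right h (norm_nonneg _)

end generic

section matrix

attribute [local instance] Matrix.linftyOpNormedRing Matrix.linftyOpNormedAlgebra

variable {d : ℕ}

lemma norm_le_iff' (R : Matrix (Fin d) (Fin d) ℝ) {c : ℝ} (hc : 0 ≤ c) :
    ‖R‖ ≤ c ↔ ∀ i, ∑ j, |R i j| ≤ c := by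
  rw [Matrix.linfty_opNorm_def]
  lift c to NNReal using hc
  rw [NNReal.coe_le_coe, Finset.sup_le_iff]
  constructor
  · intro h i
    have := h i (Finset.mem_univ i)
    rw [← NNReal.coe_le_coe] at this
    push_cast at this
    simpa using this
  · intro h i _
    have := h i
    rw [← NNReal.coe_le_coe]
    push_cast
    simpa using this

lemma row_le_norm (R : Matrix (Fin d) (Fin d) ℝ) (i : Fin d) : ∑ j, |R i j| ≤ ‖R‖ :=
  (norm_le_iff' R (norm_nonneg R)).mp le_rfl i

/-- entrywise derivative at `0` -/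
lemma entry_slope (Q : Matrix (Fin d) (Fin d) ℝ) (φ : Matrix (Fin d) (Fin d) ℝ →ₗ[ℝ] ℝ) :
    Filter.Tendsto (fun t : ℝ => t⁻¹ * (φ (NormedSpace.exp (t • Q)) - φ 1)) (nhdsWithin 0 (Set.Ioi 0))
      (nhds (φ Q)) := by
  have h := hasDerivAt_exp_smul_const (𝕂 := ℝ) Q (0 : ℝ)
  rw [zero_smul, NormedSpace.exp_zero, one_mul] at h
  have h2 := (φ.toContinuousLinearMap.hasFDerivAt.comp_hasDerivAt (0 : ℝ) h)
  have h3 := h2.tendsto_slope_zero_right
  simp at h3
  exact h3

lemma norm_one_le : ‖(1 : Matrix (Fin d) (Fin d) ℝ)‖ ≤ 1 := by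
  rw [norm_le_iff' _ zero_le_one]
  intro i
  have : ∀ j, |(1 : Matrix (Fin d) (Fin d) ℝ) i j| = if i = j then 1 else 0 := by
    intro j
    rw [Matrix.one_apply]
    split_ifs <;> simp
  simp [this]

lemma key (R : Matrix (Fin d) (Fin d) ℝ) (hoff : ∀ i j, i ≠ j → 0 ≤ R i j)
    (hrow : ∀ i, ∑ j, R i j = 0) {M : ℝ} (hM : 0 ≤ M) (hinv : ‖NormedSpace.exp (-R)‖ ≤ M) :
    ‖R‖ ≤ M ^ 2 / 2 := by
  rcases (norm_nonneg R).eq_or_lt with h0 | h0
  · rw [← h0]; positivity
  set l := ‖R‖ / 2 with hl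
  have hlpos : 0 < l := by positivity
  -- diagonal bound
  have hdiag : ∀ i, -l ≤ R i i := by
    intro i
    have h1 := row_le_norm R i
    have h2 := hrow i
    rw [← Finset.add_sum_erase _ _ (Finset.mem_univ i)] at h1 h2
    have h3 : ∑ j ∈ Finset.univ.erase i, |R i j| = ∑ j ∈ Finset.univ.erase i, R i j := by
      apply Finset.sum_congr rfl
      intro j hj
      exact abs_of_nonneg (hoff i j (Finset.ne_of_mem_erase hj).symm)
    rw [h3] at h1
    have h4 := neg_abs_le (R i i)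
    have h5 : -R i i ≤ |R i i| := neg_le_abs _
    linarith
  let B : Matrix (Fin d) (Fin d) ℝ := 1 + l⁻¹ • R
  have hBR : l • (B - 1) = R := by
    simp only [B]
    rw [add_sub_cancel_left, smul_smul, mul_inv_cancel₀ hlpos.ne', one_smul]
  have hBnn : ∀ i j, 0 ≤ B i j := by
    intro i j
    simp only [B, Matrix.add_apply, Matrix.smul_apply, smul_eq_mul]
    by_cases hij : i = j
    · subst hij
      rw [Matrix.one_apply_eq]
      have := mul_le_mul_of_nonneg_left (hdiag i) (inv_pos.mpr hlpos).le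
      have h6 : l⁻¹ * -l = -1 := by field_simp
      linarith
    · rw [Matrix.one_apply_ne hij, zero_add]
      exact mul_nonneg (inv_pos.mpr hlpos).le (hoff i j hij)
  have hB1 : ‖B‖ ≤ 1 := by
    rw [norm_le_iff' _ zero_le_one]
    intro i
    have h7 : ∑ j, |B i j| = ∑ j, B i j := Finset.sum_congr rfl fun j _ => abs_of_nonneg (hBnn i j)
    rw [h7]
    simp only [B, Matrix.add_apply, Matrix.smul_apply, smul_eq_mul]
    rw [Finset.sum_add_distrib, ← Finset.mul_sum, hrow i, mul_zero, add_zero]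
    have : ∀ j, (1 : Matrix (Fin d) (Fin d) ℝ) i j = if i = j then 1 else 0 := fun j => Matrix.one_apply
    simp [this]
  have hBpow : ∀ k : ℕ, ‖B ^ k‖ ≤ 1 := by
    intro k
    induction k with
    | zero => rw [pow_zero]; exact norm_one_le
    | succ k ih =>
      rw [pow_succ]
      refine (norm_mul_le _ _).trans ?_
      nlinarith [norm_nonneg B, norm_nonneg (B ^ k)]
  have h8 := poisson B hBpow hlpos
  rw [hBR] at h8
  have h9 := norm_le_of_poisson R h8
  have h10 : ‖R‖ ≤ √l * M := h9.trans (mul_le_mul_of_nonneg_left hinv (Real.sqrt_nonneg _))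
  have hs : 0 < √l := by positivity
  have hs2 : √l * √l = l := Real.mul_self_sqrt hlpos.le
  have h11 : ‖R‖ = 2 * (√l * √l) := by rw [hs2, hl]; ring
  have h12 : 2 * √l ≤ M := by
    rw [h11] at h10
    have : (2 * √l) * √l ≤ M * √l := by nlinarith
    exact le_of_mul_le_mul_right this hs
  rw [h11]
  nlinarith

end matrix

/-- For every M ≥ 1 there is C ≥ 0 such that any real d×d matrix Q, in any dimension d, with max column abs-sum of exp(-Q) at most M and exp(tQ) column stochastic for all t ≥ 0, has max column abs-sum at most C. -/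
theorem result :
    ∀ M : ℝ, 1 ≤ M → ∃ C : ℝ, 0 ≤ C ∧
      ∀ d : ℕ, ∀ Q : Matrix (Fin d) (Fin d) ℝ,
        (∀ j : Fin d, ∑ i : Fin d, |NormedSpace.exp (-Q) i j| ≤ M) →
        (∀ t : ℝ, 0 ≤ t →
          (∀ i j : Fin d, 0 ≤ NormedSpace.exp (t • Q) i j) ∧
          (∀ j : Fin d, ∑ i : Fin d, NormedSpace.exp (t • Q) i j = 1)) →
        ∀ j : Fin d, ∑ i : Fin d, |Q i j| ≤ C := by
  intro M hM
  refine ⟨M ^ 2 / 2, by positivity, ?_⟩
  intro d Q h1 h2 j0
  let _ := (Matrix.linftyOpNormedRing : NormedRing (Matrix (Fin d) (Fin d) ℝ))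
  let _ := (Matrix.linftyOpNormedAlgebra : NormedAlgebra ℝ (Matrix (Fin d) (Fin d) ℝ))
  have hoff : ∀ i j, i ≠ j → 0 ≤ Q i j := by
    intro i j hij
    have h := entry_slope Q (Matrix.entryLinearMap ℝ ℝ i j)
    refine ge_of_tendsto h ?_
    filter_upwards [self_mem_nhdsWithin] with t ht
    have ht' : (0 : ℝ) < t := ht
    have h3 := (h2 t ht'.le).1 i j
    have h4 : (Matrix.entryLinearMap ℝ ℝ i j) (1 : Matrix (Fin d) (Fin d) ℝ) = 0 := Matrix.one_apply_ne hij
    rw [h4, sub_zero]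
    exact mul_nonneg (inv_pos.mpr ht').le h3
  have hcol : ∀ j, ∑ i, Q i j = 0 := by
    intro j
    have h := entry_slope Q (∑ i, Matrix.entryLinearMap ℝ ℝ i j)
    have e : ∀ X : Matrix (Fin d) (Fin d) ℝ,
        (∑ i, Matrix.entryLinearMap ℝ ℝ i j) X = ∑ i, X i j := by
      intro X
      rw [LinearMap.sum_apply]
      rfl
    simp only [e] at h
    refine tendsto_nhds_unique h ?_
    refine tendsto_const_nhds.congr' ?_
    filter_upwards [self_mem_nhdsWithin] with t ht
    have ht' : (0 : ℝ) < t := ht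
    have h3 := (h2 t ht'.le).2 j
    have h4 : ∑ i, (1 : Matrix (Fin d) (Fin d) ℝ) i j = 1 := by simp [Matrix.one_apply]
    rw [h3, h4, sub_self, mul_zero]
  have hinv : ‖NormedSpace.exp (-Q.transpose)‖ ≤ M := by
    rw [norm_le_iff' _ (by linarith)]
    intro i
    have e : NormedSpace.exp (-Q.transpose) = (NormedSpace.exp (-Q)).transpose := by
      rw [← Matrix.transpose_neg, Matrix.exp_transpose]
    rw [e]
    exact h1 i
  have h := key Q.transpose (fun i j hij => hoff j i hij.symm) hcol (by linarith) hinv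
  exact (row_le_norm Q.transpose j0).trans h

end Pool.Agent.S06063
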