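import Pool.Statements.S06280

set_option autoImplicit false
open Pool Pool.MP_d4c9a2_an

namespace Pool.Agent.S06280

open scoped BigOperators

/-- The monomial germ `(z₀, z₁, z₂) ↦ (z₁², z₂, z₀² z₂)` of `ℂ³`. -/
noncomputable def F (z : Fin 3 → ℂ) : Fin 3 → ℂ := ![z 1 ^ 2, z 2, z 0 ^ 2 * z 2]

/-- Degree of the second component of the iterates. -/
def y : ℕ → ℕ
  | 0 => 1
  | 1 => 1
  | 2 => 3
  | (k + 3) => y (k + 2) + 4 * y k

/-- Degree of the first component of the iterates. -/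
def x : ℕ → ℕ
  | 0 => 1
  | (k + 1) => 2 * y k

theorem y_rec (k : ℕ) : y (k + 2) = y (k + 1) + 2 * x k := by
  cases k with
  | zero => simp [y, x]
  | succ k => simp only [y, x]; ring

/-- Vanishing to order at least `D` at the origin. -/
def V (g : (Fin 3 → ℂ) → ℂ) (D : ℕ) : Prop := ∀ m < D, iteratedFDeriv ℂ m g 0 = 0

theorem V_mul {g h : (Fin 3 → ℂ) → ℂ} {D E : ℕ} (hg : ContDiff ℂ ⊤ g) (hh : ContDiff ℂ ⊤ h)
    (vg : V g D) (vh : V h E) : V (fun z => g z * h z) (D + E) := by
  intro m hm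
  have key := norm_iteratedFDeriv_mul_le (𝕜 := ℂ) (N := ⊤) hg hh (0 : Fin 3 → ℂ) (n := m)
    (by exact_mod_cast le_top)
  have : ∑ i ∈ Finset.range (m + 1), (m.choose i : ℝ) * ‖iteratedFDeriv ℂ i g 0‖ *
      ‖iteratedFDeriv ℂ (m - i) h 0‖ = 0 := by
    apply Finset.sum_eq_zero
    intro i hi
    have hi' := Finset.mem_range.1 hi
    rcases Nat.lt_or_ge i D with h1 | h1
    · rw [vg i h1]; simp
    · rw [vh (m - i) (by omega)]; simp
  rw [this] at key
  exact norm_le_zero_iff.1 key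

theorem V_sq {g : (Fin 3 → ℂ) → ℂ} {D : ℕ} (hg : ContDiff ℂ ⊤ g)
    (vg : V g D) : V (fun z => g z ^ 2) (2 * D) := by
  have := V_mul hg hg vg vg
  simpa [sq, two_mul] using this

theorem V_coord (i : Fin 3) : V (fun z => z i) 1 := by
  intro m hm
  obtain rfl : m = 0 := by omega
  ext v
  simp

theorem comps (k : ℕ) :
    (∀ i, ContDiff ℂ ⊤ (fun z => (F^[k] z) i)) ∧ V (fun z => (F^[k] z) 0) (x k) ∧
      V (fun z => (F^[k] z) 1) (y k) ∧ V (fun z => (F^[k] z) 2) (y (k + 1)) := by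
  induction k with
  | zero =>
    refine ⟨fun i => ?_, ?_, ?_, ?_⟩
    · simpa using contDiff_apply ℂ ℂ i
    · simpa [x] using V_coord 0
    · simpa [y] using V_coord 1
    · simpa [y] using V_coord 2
  | succ k ih =>
    obtain ⟨hc, h0, h1, h2⟩ := ih
    have e0 : (fun z => (F^[k + 1] z) 0) = fun z => (F^[k] z) 1 ^ 2 := by
      funext z; rw [Function.iterate_succ_apply']; simp [F]
    have e1 : (fun z => (F^[k + 1] z) 1) = fun z => (F^[k] z) 2 := by
      funext z; rw [Function.iterate_succ_apply']; simp [F]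
    have e2 : (fun z => (F^[k + 1] z) 2) = fun z => (F^[k] z) 0 ^ 2 * (F^[k] z) 2 := by
      funext z; rw [Function.iterate_succ_apply']; simp [F]
    refine ⟨fun i => ?_, ?_, ?_, ?_⟩
    · fin_cases i
      · exact e0 ▸ (hc 1).pow 2
      · exact e1 ▸ hc 2
      · exact e2 ▸ ((hc 0).pow 2).mul (hc 2)
    · rw [e0]; exact V_sq (hc 1) h1
    · rw [e1]; exact h2
    · rw [e2]
      have := V_mul ((hc 0).pow 2) (hc 2) (V_sq (hc 0) h0) h2
      have h : y (k + 1 + 1) = 2 * x k + y (k + 1) := by rw [y_rec]; ring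
      rw [h]; exact this

theorem diag (k : ℕ) (t : ℂ) : F^[k] (fun _ => t) = ![t ^ x k, t ^ y k, t ^ y (k + 1)] := by
  induction k with
  | zero => funext i; fin_cases i <;> simp [x, y]
  | succ k ih =>
    rw [Function.iterate_succ_apply', ih]
    funext i
    fin_cases i
    · simp [F, x, ← pow_mul]; ring
    · simp [F]
    · simp only [F]
      rw [y_rec]
      simp [← pow_mul, ← pow_add]
      ring

theorem y_mono (k : ℕ) : y k ≤ y (k + 1) := by
  cases k with
  | zero => simp [y]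
  | succ k => rw [y_rec]; omega

theorem contDiff_iter (k : ℕ) : ContDiff ℂ ⊤ (F^[k]) := by
  rw [contDiff_pi]
  exact (comps k).1

/-- The order of the `k`-th iterate. -/
theorem order (k : ℕ) :
    sInf {m : ℕ | iteratedFDeriv ℂ m (F^[k]) 0 ≠ 0} = min (x k) (y k) := by
  have hleast : IsLeast {m : ℕ | iteratedFDeriv ℂ m (F^[k]) 0 ≠ 0} (min (x k) (y k)) := by
    constructor
    · intro h0
      set M := min (x k) (y k) with hM
      let L : ℂ →L[ℂ] (Fin 3 → ℂ) := ContinuousLinearMap.pi fun _ => ContinuousLinearMap.id ℂ ℂ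
      have hL : ∀ t, L t = fun _ => t := fun t => rfl
      have h1 : iteratedFDeriv ℂ M (F^[k] ∘ L) 0 = 0 := by
        rw [ContinuousLinearMap.iteratedFDeriv_comp_right L (contDiff_iter k) 0
          (by exact_mod_cast le_top)]
        rw [map_zero, h0]
        rfl
      -- a component with exponent `M`
      have h2 : ∃ i : Fin 3, ∀ t : ℂ, (F^[k] (L t)) i = t ^ M := by
        rcases le_total (x k) (y k) with h | h
        · refine ⟨0, fun t => ?_⟩
          rw [hL, diag, hM, min_eq_left h]; rfl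
        · refine ⟨1, fun t => ?_⟩
          rw [hL, diag, hM, min_eq_right h]; rfl
      obtain ⟨i, hi⟩ := h2
      have h3 : iteratedFDeriv ℂ M (fun t : ℂ => t ^ M) 0 = 0 := by
        have e : (fun t : ℂ => t ^ M) =
            (ContinuousLinearMap.proj (R := ℂ) (φ := fun _ : Fin 3 => ℂ) i) ∘ (F^[k] ∘ L) := by
          funext t; simp [hi]
        rw [e, ContinuousLinearMap.iteratedFDeriv_comp_left _
          (((contDiff_iter k).comp L.contDiff).contDiffAt) (by exact_mod_cast le_top), h1]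
        ext; simp
      have h4 : iteratedDeriv M (fun t : ℂ => t ^ M) 0 = 0 := by
        rw [iteratedDeriv_eq_iteratedFDeriv, h3]; rfl
      rw [iteratedDeriv_eq_iterate] at h4
      simp at h4
      rw [Finset.prod_eq_zero_iff] at h4
      obtain ⟨j, hj, hj0⟩ := h4
      have hj1 := Finset.mem_range.1 hj
      rw [sub_eq_zero] at hj0
      have : M = j := by exact_mod_cast hj0
      omega
    · intro m hm
      by_contra hlt
      rw [not_le] at hlt
      apply hm
      obtain ⟨hc, v0, v1, v2⟩ := comps k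
      have key : ∀ i : Fin 3, iteratedFDeriv ℂ m (fun z => (F^[k] z) i) 0 = 0 := by
        intro i
        fin_cases i
        · exact v0 m (lt_of_lt_of_le hlt (min_le_left _ _))
        · exact v1 m (lt_of_lt_of_le hlt (min_le_right _ _))
        · exact v2 m (lt_of_lt_of_le hlt ((min_le_right _ _).trans (y_mono k)))
      ext v i
      have e : (fun z => (F^[k] z) i) =
          (ContinuousLinearMap.proj (R := ℂ) (φ := fun _ : Fin 3 => ℂ) i) ∘ (F^[k]) := by
        funext z; rfl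
      have h5 := key i
      rw [e, ContinuousLinearMap.iteratedFDeriv_comp_left _ (contDiff_iter k).contDiffAt
        (by exact_mod_cast le_top)] at h5
      have h6 := congrArg (fun T => T v) h5
      simpa using h6
  exact hleast.csInf_eq

/-! ### Arithmetic of the sequences -/

/-- Difference of the first two degrees. -/
def δ (k : ℕ) : ℤ := (x k : ℤ) - (y k : ℤ)

theorem δ_zero : δ 0 = 0 := by simp [δ, x, y]
theorem δ_one : δ 1 = 1 := by simp [δ, x, y]

theorem δ_rec (k : ℕ) : δ (k + 2) = -δ (k + 1) - 2 * δ k := by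
  have h1 : (y (k + 2) : ℤ) = y (k + 1) + 2 * x k := by exact_mod_cast y_rec k
  have h2 : (x (k + 2) : ℤ) = 2 * y (k + 1) := by simp [x]
  have h3 : (x (k + 1) : ℤ) = 2 * y k := by simp [x]
  simp only [δ]
  rw [h1, h2, h3]; ring

theorem y_odd (k : ℕ) : y k % 2 = 1 := by
  have : y k % 2 = 1 ∧ y (k + 1) % 2 = 1 := by
    induction k with
    | zero => simp [y]
    | succ k ih => exact ⟨ih.2, by rw [y_rec]; omega⟩
  exact this.1

theorem x_even (k : ℕ) : x (k + 1) % 2 = 0 := by simp [x]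

/-- The root `(-1 + i √7) / 2` of `X² + X + 2`. -/
noncomputable def μ : ℂ := ⟨-1 / 2, Real.sqrt 7 / 2⟩

theorem μ_sq : μ ^ 2 = -μ - 2 := by
  have h7 : Real.sqrt 7 * Real.sqrt 7 = 7 := Real.mul_self_sqrt (by norm_num)
  apply Complex.ext
  · simp [μ, sq]
    nlinarith
  · simp [μ, sq]
    ring

theorem δ_im (k : ℕ) : (δ k : ℝ) * (Real.sqrt 7 / 2) = (μ ^ k).im := by
  have : (δ k : ℝ) * (Real.sqrt 7 / 2) = (μ ^ k).im ∧
      (δ (k + 1) : ℝ) * (Real.sqrt 7 / 2) = (μ ^ (k + 1)).im := by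
    induction k with
    | zero => simp [δ_zero, δ_one, μ]
    | succ k ih =>
      refine ⟨ih.2, ?_⟩
      have e : μ ^ (k + 1 + 1) = -μ ^ (k + 1) - 2 * μ ^ k := by
        have : μ ^ (k + 1 + 1) = μ ^ k * μ ^ 2 := by ring
        rw [this, μ_sq]; ring
      have r : (δ (k + 1 + 1) : ℝ) = -δ (k + 1) - 2 * δ k := by
        have := δ_rec k
        exact_mod_cast this
      rw [e, r]
      have h2 : ((2 : ℂ) * μ ^ k).im = 2 * (μ ^ k).im := by simp
      rw [Complex.sub_im, Complex.neg_im, h2, ← ih.1, ← ih.2]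
      ring
  exact this.1

theorem δ_odd (k : ℕ) : δ (k + 1) % 2 = 1 := by
  have h1 := y_odd (k + 1)
  have h2 := x_even k
  simp only [δ]
  omega

/-- Parity of the order detects the sign of `δ`. -/
theorem parity (k : ℕ) : (min (x (k + 1)) (y (k + 1))) % 2 = 1 ↔ 0 < δ (k + 1) := by
  have h1 := y_odd (k + 1)
  have h2 := x_even k
  simp only [δ]
  rcases le_total (x (k + 1)) (y (k + 1)) with h | h
  · rw [min_eq_left h]; omega
  · rw [min_eq_right h]; omega

/-- A real sequence satisfying a second order recursion without real characteristic root is not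
always positive. -/
theorem no_pos (a : ℕ → ℝ) (T Q : ℝ) (hQ : 0 < Q) (hT : T < 2 * Real.sqrt Q)
    (hrec : ∀ j, a (j + 2) = T * a (j + 1) - Q * a j) (hpos : ∀ j, 0 < a j) : False := by
  set ε := 2 * Real.sqrt Q - T with hε
  have hε0 : 0 < ε := by linarith
  have hstep : ∀ j, a (j + 2) / a (j + 1) ≤ a (j + 1) / a j - ε := by
    intro j
    have h0 := hpos j
    have h1 := hpos (j + 1)
    have e1 : a (j + 2) / a (j + 1) = T - Q * a j / a (j + 1) := by
      rw [hrec]; field_simp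
    have hs : Real.sqrt Q * Real.sqrt Q = Q := Real.mul_self_sqrt hQ.le
    have e2 : a (j + 1) / a j + Q * a j / a (j + 1) - 2 * Real.sqrt Q =
        (a (j + 1) - Real.sqrt Q * a j) ^ 2 / (a j * a (j + 1)) := by
      field_simp
      ring_nf
      rw [Real.sq_sqrt hQ.le]
    have e3 : 0 ≤ (a (j + 1) - Real.sqrt Q * a j) ^ 2 / (a j * a (j + 1)) := by positivity
    rw [e1]; linarith
  have hlin : ∀ j : ℕ, a (j + 1) / a j ≤ a 1 / a 0 - j * ε := by
    intro j
    induction j with
    | zero => simp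
    | succ j ih =>
      have := hstep j
      push_cast
      linarith
  obtain ⟨N, hN⟩ := exists_nat_gt (a 1 / a 0 / ε)
  have h1 := hlin N
  have h2 : a 1 / a 0 < N * ε := by
    rwa [div_lt_iff₀ hε0] at hN
  have h3 : 0 < a (N + 1) / a N := div_pos (hpos _) (hpos _)
  linarith

theorem no_periodic_sign (P K : ℕ) (hP : 0 < P)
    (h : ∀ k, K ≤ k → (0 < δ (k + P) ↔ 0 < δ k)) : False := by
  set ν : ℂ := μ ^ P with hν
  have h7 : 0 < Real.sqrt 7 / 2 := by positivity
  have hνim : ν.im ≠ 0 := by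
    rw [hν, ← δ_im]
    have : δ P ≠ 0 := by
      obtain ⟨p, rfl⟩ : ∃ p, P = p + 1 := ⟨P - 1, by omega⟩
      have := δ_odd p
      omega
    have h' : (δ P : ℝ) ≠ 0 := by exact_mod_cast this
    positivity
  -- the recursion along the progression
  have hrec : ∀ j, ((μ ^ (K + 1 + (j + 2) * P)).im) =
      (2 * ν.re) * (μ ^ (K + 1 + (j + 1) * P)).im - Complex.normSq ν * (μ ^ (K + 1 + j * P)).im := by
    intro j
    have e0 : ν ^ 2 = ((2 * ν.re : ℝ) : ℂ) * ν - ((Complex.normSq ν : ℝ) : ℂ) := by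
      apply Complex.ext
      · simp [sq, Complex.normSq_apply]; ring
      · simp [sq]; ring
    have e1 : μ ^ (K + 1 + (j + 2) * P) = ((2 * ν.re : ℝ) : ℂ) * μ ^ (K + 1 + (j + 1) * P) -
        ((Complex.normSq ν : ℝ) : ℂ) * μ ^ (K + 1 + j * P) := by
      have a1 : μ ^ (K + 1 + (j + 2) * P) = μ ^ (K + 1 + j * P) * ν ^ 2 := by
        rw [hν]; ring
      have a2 : μ ^ (K + 1 + (j + 1) * P) = μ ^ (K + 1 + j * P) * ν := by
        rw [hν]; ring
      rw [a1, a2, e0]; ring
    rw [e1, Complex.sub_im, Complex.im_ofReal_mul, Complex.im_ofReal_mul]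
  have hQ : 0 < Complex.normSq ν := by
    rw [Complex.normSq_pos]
    intro h0; apply hνim; rw [h0]; simp
  have hT : 2 * ν.re < 2 * Real.sqrt (Complex.normSq ν) := by
    have : ν.re < Real.sqrt (Complex.normSq ν) := by
      apply Real.lt_sqrt_of_sq_lt
      rw [Complex.normSq_apply]
      have : 0 < ν.im * ν.im := mul_self_pos.2 hνim
      nlinarith
    linarith
  have hsign : ∀ j : ℕ, (0 < δ (K + 1 + j * P) ↔ 0 < δ (K + 1)) := by
    intro j
    induction j with
    | zero => simp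
    | succ j ih =>
      have := h (K + 1 + j * P) (by omega)
      rw [← ih, ← this]
      have e : K + 1 + (j + 1) * P = K + 1 + j * P + P := by ring
      rw [e]
  by_cases hs : 0 < δ (K + 1)
  · refine no_pos (fun j => (μ ^ (K + 1 + j * P)).im) (2 * ν.re) (Complex.normSq ν) hQ hT hrec ?_
    intro j
    have h1 : 0 < δ (K + 1 + j * P) := (hsign j).2 hs
    have h2 : (0 : ℝ) < δ (K + 1 + j * P) := by exact_mod_cast h1
    show 0 < (μ ^ (K + 1 + j * P)).im
    rw [← δ_im]; positivity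
  · refine no_pos (fun j => -(μ ^ (K + 1 + j * P)).im) (2 * ν.re) (Complex.normSq ν) hQ hT ?_ ?_
    · intro j
      show -(μ ^ (K + 1 + (j + 2) * P)).im = _
      rw [hrec j]; ring
    · intro j
      have h1 : ¬ 0 < δ (K + 1 + j * P) := fun h' => hs ((hsign j).1 h')
      have h3 : δ (K + 1 + j * P) % 2 = 1 := by
        have e : K + 1 + j * P = (K + j * P) + 1 := by ring
        rw [e]; exact δ_odd _
      have h4 : δ (K + 1 + j * P) < 0 := by omega
      have h2 : (δ (K + 1 + j * P) : ℝ) < 0 := by exact_mod_cast h4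
      show 0 < -(μ ^ (K + 1 + j * P)).im
      rw [← δ_im]
      nlinarith

/-- An integer sequence satisfying an integral linear recursion is eventually periodic
modulo two. -/
theorem periodic_mod_two (u : ℕ → ℤ) (d : ℕ) (a : Fin d → ℤ) (K : ℕ)
    (h : ∀ k, K ≤ k → u (k + d) = ∑ i : Fin d, a i * u (k + (i : ℕ))) :
    ∃ P K' : ℕ, 0 < P ∧ ∀ k, K' ≤ k → ((u (k + P) : ZMod 2) = (u k : ZMod 2)) := by
  obtain ⟨i, j, hij, hs⟩ := Finite.exists_ne_map_eq_of_infinite
    (fun j : ℕ => (fun i : Fin d => (u (K + j + i) : ZMod 2)))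
  wlog hlt : i < j generalizing i j
  · exact this j i hij.symm hs.symm (lt_of_le_of_ne (not_lt.1 hlt) hij.symm)
  have key : ∀ m : ℕ, (u (K + i + m) : ZMod 2) = (u (K + j + m) : ZMod 2) := by
    intro m
    induction m using Nat.strong_induction_on with
    | _ m ih =>
      rcases Nat.lt_or_ge m d with hm | hm
      · exact congrFun hs ⟨m, hm⟩
      · obtain ⟨m', rfl⟩ : ∃ m', m = m' + d := ⟨m - d, by omega⟩
        have e1 := h (K + i + m') (by omega)
        have e2 := h (K + j + m') (by omega)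
        rw [← add_assoc, ← add_assoc, e1, e2]
        push_cast
        apply Finset.sum_congr rfl
        intro l _
        have := ih (m' + l) (by have := l.2; omega)
        rw [← add_assoc, ← add_assoc] at this
        rw [this]
  refine ⟨j - i, K + i, by omega, fun k hk => ?_⟩
  obtain ⟨m, rfl⟩ : ∃ m, k = K + i + m := ⟨k - (K + i), by omega⟩
  have e : K + i + m + (j - i) = K + j + m := by omega
  rw [e, key m]

/-! ### The germ satisfies the hypotheses -/

theorem F_analytic : AnalyticAt ℂ F 0 := by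
  rw [analyticAt_pi_iff]
  intro i
  have hp : ∀ j : Fin 3, AnalyticAt ℂ (fun z : Fin 3 → ℂ => z j) 0 := fun j =>
    (ContinuousLinearMap.proj (R := ℂ) (φ := fun _ : Fin 3 => ℂ) j).analyticAt 0
  fin_cases i
  · show AnalyticAt ℂ (fun z : Fin 3 → ℂ => z 1 ^ 2) 0
    exact (hp 1).fun_pow 2
  · exact hp 2
  · show AnalyticAt ℂ (fun z : Fin 3 → ℂ => z 0 ^ 2 * z 2) 0
    exact ((hp 0).fun_pow 2).fun_mul (hp 2)

/-- The derivative of `F` as a matrix. -/
noncomputable def J (z : Fin 3 → ℂ) : Matrix (Fin 3) (Fin 3) ℂ :=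
  !![0, 2 * z 1, 0; 0, 0, 1; 2 * z 0 * z 2, 0, z 0 ^ 2]

theorem F_hasFDerivAt (z : Fin 3 → ℂ) :
    HasFDerivAt F (LinearMap.toContinuousLinearMap (Matrix.toLin' (J z))) z := by
  rw [hasFDerivAt_pi']
  intro i
  have hp : ∀ j : Fin 3, HasFDerivAt (fun z : Fin 3 → ℂ => z j)
      (ContinuousLinearMap.proj (R := ℂ) (φ := fun _ : Fin 3 => ℂ) j) z := fun j =>
    (ContinuousLinearMap.proj (R := ℂ) (φ := fun _ : Fin 3 => ℂ) j).hasFDerivAt
  fin_cases i
  · refine HasFDerivAt.congr_fderiv (HasFDerivAt.pow (hp 1) 2) ?_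
    ext v
    simp [J, Matrix.mulVec, dotProduct, Fin.sum_univ_three]
  · refine HasFDerivAt.congr_fderiv (hp 2) ?_
    ext v
    simp [J, Matrix.mulVec, dotProduct, Fin.sum_univ_three]
  · refine HasFDerivAt.congr_fderiv (HasFDerivAt.fun_mul (HasFDerivAt.pow (hp 0) 2) (hp 2)) ?_
    ext v
    simp [J, Matrix.mulVec, dotProduct, Fin.sum_univ_three]
    ring

theorem F_det (z : Fin 3 → ℂ) : (fderiv ℂ F z).det = 4 * z 0 * z 1 * z 2 := by
  rw [(F_hasFDerivAt z).fderiv]
  show LinearMap.det (LinearMap.toContinuousLinearMap (Matrix.toLin' (J z)) :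
    (Fin 3 → ℂ) →ₗ[ℂ] (Fin 3 → ℂ)) = _
  rw [LinearMap.coe_toContinuousLinearMap, LinearMap.det_toLin']
  simp [J, Matrix.det_fin_three]
  ring

/-- The negation of the preceding statement: For every holomorphic germ f of ℂⁿ fixing 0 that is non-invertible and dominant, the orders of vanishing c(f^k) of its iterates at 0 eventually satisfy a linear recursion with integer coefficients. -/
theorem result :
    ¬ (∀ (n : ℕ) (f : (Fin n → ℂ) → (Fin n → ℂ)),
      AnalyticAt ℂ f 0 → f 0 = 0 →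
      (fderiv ℂ f 0).det = 0 →
      (∀ ε : ℝ, 0 < ε → ∃ z : Fin n → ℂ, ‖z‖ < ε ∧ (fderiv ℂ f z).det ≠ 0) →
      ∃ (d : ℕ) (a : Fin d → ℤ) (K : ℕ), ∀ k : ℕ, K ≤ k →
        ((sInf {m : ℕ | iteratedFDeriv ℂ m (f^[k + d]) 0 ≠ 0} : ℕ) : ℤ) =
          ∑ i : Fin d, a i *
            ((sInf {m : ℕ | iteratedFDeriv ℂ m (f^[k + (i : ℕ)]) 0 ≠ 0} : ℕ) : ℤ)) := by
  intro H
  obtain ⟨d, a, K, hK⟩ := H 3 F F_analytic (by funext i; fin_cases i <;> simp [F])
    (by rw [F_det]; simp) (by
      intro ε hε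
      refine ⟨fun _ => ((ε / 2 : ℝ) : ℂ), ?_, ?_⟩
      · rw [pi_norm_const, Complex.norm_real, Real.norm_eq_abs, abs_of_pos (by linarith)]
        linarith
      · rw [F_det]
        have : ((ε / 2 : ℝ) : ℂ) ≠ 0 := by
          exact_mod_cast (by linarith : ε / 2 ≠ 0)
        simp only [ne_eq, mul_eq_zero, not_or]
        exact ⟨⟨⟨by norm_num, this⟩, this⟩, this⟩)
  simp only [order] at hK
  obtain ⟨P, K', hP, hper⟩ := periodic_mod_two (fun k => ((min (x k) (y k) : ℕ) : ℤ)) d a K hK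
  apply no_periodic_sign P (K' + 1) hP
  intro k hk
  obtain ⟨m, rfl⟩ : ∃ m, k = m + 1 := ⟨k - 1, by omega⟩
  have h1 := hper (m + 1) (by omega)
  have e : m + 1 + P = (m + P) + 1 := by ring
  rw [e] at h1 ⊢
  rw [← parity, ← parity]
  simp only [Int.cast_natCast] at h1
  rw [ZMod.natCast_eq_natCast_iff'] at h1
  rw [h1]

end Pool.Agent.S06280
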