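import Pool.Statements.S06506
import Pool.Agent.V1171.Hardy.Remove
import Pool.Agent.V1171.Hardy.Cantor

set_option autoImplicit false
open Pool Pool.MP_e5f19a_an

namespace Pool.Agent.S06506

open Pool.Agent.V1171.Hardy

theorem connected_compl : IsConnected (cop CE 0 1)ᶜ := by
  have hup : IsPreconnected {z : ℂ | 0 < z.im} := (convex_halfSpace_im_gt 0).isPreconnected
  have hdn : IsPreconnected {z : ℂ | z.im < 0} := (convex_halfSpace_im_lt 0).isPreconnected
  have hrt : IsPreconnected {z : ℂ | 1 < z.re} := (convex_halfSpace_re_gt 1).isPreconnected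
  have h1 : IsPreconnected ({z : ℂ | 0 < z.im} ∪ {z : ℂ | 1 < z.re}) :=
    hup.union (⟨2, 1⟩ : ℂ) (by simp) (by simp) hrt
  have h2 : IsPreconnected (({z : ℂ | 0 < z.im} ∪ {z : ℂ | 1 < z.re}) ∪ {z : ℂ | z.im < 0}) :=
    h1.union (⟨2, -1⟩ : ℂ) (by simp) (by simp) hdn
  refine ⟨⟨Complex.I, fun h => ?_⟩, ?_⟩
  · have := mem_cop_im h
    simp at this
  · apply h2.subset_closure
    · rintro z ((hz | hz) | hz) h
      · have := mem_cop_im h
        rw [Set.mem_setOf_eq, this] at hz
        exact lt_irrefl _ hz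
      · have := mem_cop_re isSelf_CE zero_le_one h
        rw [sub_zero] at this
        have h3 := le_abs_self z.re
        have h4 : (1 : ℝ) < z.re := hz
        linarith
      · have := mem_cop_im h
        rw [Set.mem_setOf_eq, this] at hz
        exact lt_irrefl _ hz
    · intro z _
      rw [Metric.mem_closure_iff]
      intro ε hε
      rcases le_or_gt 0 z.im with h | h
      · refine ⟨z + ((ε / 2 : ℝ) : ℂ) * Complex.I, Or.inl (Or.inl ?_), ?_⟩
        · show 0 < (z + ((ε / 2 : ℝ) : ℂ) * Complex.I).im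
          simp
          linarith
        · rw [dist_eq_norm]
          have : z - (z + ((ε / 2 : ℝ) : ℂ) * Complex.I) = -(((ε / 2 : ℝ) : ℂ) * Complex.I) := by ring
          rw [this, norm_neg, norm_mul, Complex.norm_I, mul_one, Complex.norm_real,
            Real.norm_of_nonneg (by positivity)]
          linarith
      · exact ⟨z, Or.inr h, by simpa using hε⟩

/-- The negation of the preceding statement: Every domain in ℂ whose complement has positive logarithmic capacity (it contains a compact set carrying a finite-energy probability measure) has a non-constant holomorphic f on it with ∣f∣² bounded by a harmonic function. -/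
theorem result :
    ¬ (∀ Ω : Set ℂ, IsOpen Ω → IsConnected Ω →
      (∃ K : Set ℂ, IsCompact K ∧ K ⊆ Ωᶜ ∧
        ∃ μ : MeasureTheory.Measure ℂ, MeasureTheory.IsProbabilityMeasure μ ∧
          MeasureTheory.NoAtoms μ ∧ μ Kᶜ = 0 ∧
          MeasureTheory.Integrable (fun p : ℂ × ℂ => Real.log ‖p.1 - p.2‖) (μ.prod μ)) →
      ∃ f : ℂ → ℂ, DifferentiableOn ℂ f Ω ∧
        (∃ u : ℂ → ℝ,
          (∀ z ∈ Ω, ∃ r > 0, Metric.ball z r ⊆ Ω ∧
            ∃ g : ℂ → ℂ, DifferentiableOn ℂ g (Metric.ball z r) ∧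
              ∀ w ∈ Metric.ball z r, u w = (g w).re) ∧
          ∀ z ∈ Ω, ‖f z‖ ^ 2 ≤ u z) ∧
        ∃ z ∈ Ω, ∃ w ∈ Ω, f z ≠ f w) := by
  intro H
  have hcpt := isCompact_cop
  obtain ⟨f, hf, ⟨u, hu, hfu⟩, z, hz, w, hw, hne⟩ := H (cop CE 0 1)ᶜ hcpt.isClosed.isOpen_compl
    connected_compl ⟨cop CE 0 1, hcpt, by rw [compl_compl], mu, inferInstance, noAtoms_mu,
      mu_compl, energy⟩
  apply hne
  have hharm : InnerProductSpace.HarmonicOnNhd u (cop CE 0 1)ᶜ := by
    intro p hp
    obtain ⟨r, hr, hsub, g, hg, hug⟩ := hu p hp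
    have hga : AnalyticAt ℂ g p := hg.analyticAt (Metric.isOpen_ball.mem_nhds (Metric.mem_ball_self hr))
    have h1 := hga.harmonicAt_re
    refine (InnerProductSpace.harmonicAt_congr_nhds ?_).mpr h1
    filter_upwards [Metric.isOpen_ball.mem_nhds (Metric.mem_ball_self hr)] with x hx
    exact hug x hx
  refine constant ra_pos (by unfold ra; norm_num) ?_ isSelf_CE hcpt.isClosed hf hharm hfu hz hw
  have h1 : √(24 / ra) ≤ 160 := by
    rw [Real.sqrt_le_left (by norm_num)]
    unfold ra
    norm_num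
  unfold ra at h1 ⊢
  linarith

end Pool.Agent.S06506
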