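import Pool.Statements.S06520
import Pool.Agent.V1169.EM4

set_option autoImplicit false
open Pool Pool.MP_e7dc85_an

namespace Pool.Agent.S06520

/-- The negation of the preceding statement: There is a closed two-sided ideal of codimension exactly 4 in the convolution algebra ℓ¹ of the free group on two generators such that the linear span of products of pairs of elements of the ideal is not the whole ideal. -/
theorem result :
    ¬ (∃ I : Submodule ℂ (lp (fun _ : FreeGroup (Fin 2) => ℂ) 1),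
      IsClosed (I : Set (lp (fun _ : FreeGroup (Fin 2) => ℂ) 1)) ∧
      (∀ a ∈ I, ∀ b c : lp (fun _ : FreeGroup (Fin 2) => ℂ) 1,
        (∀ x : FreeGroup (Fin 2),
          (c : FreeGroup (Fin 2) → ℂ) x
            = ∑' y : FreeGroup (Fin 2),
                (a : FreeGroup (Fin 2) → ℂ) y * (b : FreeGroup (Fin 2) → ℂ) (y⁻¹ * x)) →
        c ∈ I) ∧
      (∀ a ∈ I, ∀ b c : lp (fun _ : FreeGroup (Fin 2) => ℂ) 1,
        (∀ x : FreeGroup (Fin 2),
          (c : FreeGroup (Fin 2) → ℂ) x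
            = ∑' y : FreeGroup (Fin 2),
                (b : FreeGroup (Fin 2) → ℂ) y * (a : FreeGroup (Fin 2) → ℂ) (y⁻¹ * x)) →
        c ∈ I) ∧
      Module.finrank ℂ ((lp (fun _ : FreeGroup (Fin 2) => ℂ) 1) ⧸ I) = 4 ∧
      ∃ c ∈ I, c ∉ Submodule.span ℂ
        {d : lp (fun _ : FreeGroup (Fin 2) => ℂ) 1 |
          ∃ a ∈ I, ∃ b ∈ I, ∀ x : FreeGroup (Fin 2),
            (d : FreeGroup (Fin 2) → ℂ) x
              = ∑' y : FreeGroup (Fin 2),
                  (a : FreeGroup (Fin 2) → ℂ) y * (b : FreeGroup (Fin 2) → ℂ) (y⁻¹ * x)}) := by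
  rintro ⟨I, hI, hr, hl, hfin, c, hc, hcn⟩
  apply hcn
  have hideal : ∀ a ∈ I, ∀ b : Pool.Agent.V1169.EL.L (FreeGroup (Fin 2)),
      a * b ∈ I ∧ b * a ∈ I := by
    intro a ha b
    constructor
    · exact hr a ha b (a * b) (fun x => rfl)
    · exact hl a ha b (b * a) (fun x => rfl)
  haveI : FiniteDimensional ℂ (lp (fun _ : FreeGroup (Fin 2) => ℂ) 1 ⧸ I) :=
    FiniteDimensional.of_finrank_pos (by rw [hfin]; norm_num)
  have hmain := Pool.Agent.V1169.EM.cofinite_idempotent I hI hideal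
  have hset : {d : lp (fun _ : FreeGroup (Fin 2) => ℂ) 1 |
          ∃ a ∈ I, ∃ b ∈ I, ∀ x : FreeGroup (Fin 2),
            (d : FreeGroup (Fin 2) → ℂ) x
              = ∑' y : FreeGroup (Fin 2),
                  (a : FreeGroup (Fin 2) → ℂ) y * (b : FreeGroup (Fin 2) → ℂ) (y⁻¹ * x)} =
      {h : Pool.Agent.V1169.EL.L (FreeGroup (Fin 2)) | ∃ a ∈ I, ∃ b ∈ I, h = a * b} := by
    ext h
    constructor
    · rintro ⟨a, ha, b, hb, hx⟩
      exact ⟨a, ha, b, hb, Pool.Agent.V1169.EL.L_ext hx⟩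
    · rintro ⟨a, ha, b, hb, rfl⟩
      exact ⟨a, ha, b, hb, fun x => rfl⟩
  rw [hset]
  have h2 : c ∈ Submodule.span ℂ
      {h : Pool.Agent.V1169.EL.L (FreeGroup (Fin 2)) | ∃ a ∈ I, ∃ b ∈ I, h = a * b} := by
    rw [hmain]; exact hc
  exact h2

end Pool.Agent.S06520
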