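import Pool.Statements.S06521
-- import your own Pool.Agent.* helpers here

set_option autoImplicit false
open Pool Pool.MP_e7ec4f_an

namespace Pool.Agent.S06521

open Finset

noncomputable section

/-- the space `ℓ¹` -/
abbrev E : Type := lp (fun _ : ℕ => ℝ) 1

/-- weight of the edge from `n` to its parent `n/4` -/
def tau (n : ℕ) : ℝ := if IsSquare (Nat.log 4 n) then 0 else 1 / 2

lemma tau_nonneg (n : ℕ) : 0 ≤ tau n := by
  unfold tau; split_ifs <;> norm_num

lemma tau_le (n : ℕ) : tau n ≤ 1 / 2 := by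
  unfold tau; split_ifs <;> norm_num

lemma tau_zero : tau 0 = 0 := by
  unfold tau
  rw [if_pos]
  simp

def e (n : ℕ) : E := lp.single 1 n 1

lemma e_apply (n m : ℕ) : (e n) m = if m = n then 1 else 0 := by
  unfold e
  rw [lp.single_apply, Pi.single_apply]

lemma norm_e (n : ℕ) : ‖e n‖ = 1 := by
  unfold e
  rw [lp.norm_single one_pos]; simp

/-- the basis -/
def x (n : ℕ) : E := e n - ∑ i ∈ range 4, tau (4 * n + i) • e (4 * n + i)

lemma x_apply (n m : ℕ) : (x n) m = (if m = n then 1 else 0) - tau m * (if m / 4 = n then 1 else 0) := by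
  unfold x
  rw [lp.coeFn_sub, Pi.sub_apply, e_apply]
  congr 1
  rw [lp.coeFn_sum, Finset.sum_apply]
  have h : ∀ i ∈ range 4, (tau (4 * n + i) • e (4 * n + i)) m
      = if m = 4 * n + i then tau m else 0 := by
    intro i _
    rw [lp.coeFn_smul, Pi.smul_apply, e_apply, smul_eq_mul]
    split_ifs with h
    · rw [h]; ring
    · ring
  rw [Finset.sum_congr rfl h]
  by_cases hm : m / 4 = n
  · rw [if_pos hm, mul_one]
    rw [Finset.sum_eq_single (m % 4)]
    · rw [if_pos]; omega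
    · intro i hi hne
      rw [if_neg]
      rw [mem_range] at hi
      omega
    · intro h; exfalso; apply h; rw [mem_range]; omega
  · rw [if_neg hm, mul_zero]
    apply Finset.sum_eq_zero
    intro i hi
    rw [mem_range] at hi
    rw [if_neg]
    omega

lemma norm_x (n : ℕ) : ‖x n‖ ≤ 3 := by
  unfold x
  refine (norm_sub_le _ _).trans ?_
  rw [norm_e]
  have h : ‖∑ i ∈ range 4, tau (4 * n + i) • e (4 * n + i)‖ ≤ ∑ i ∈ range 4, (1 / 2 : ℝ) := by
    refine (norm_sum_le _ _).trans ?_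
    apply Finset.sum_le_sum
    intro i _
    rw [norm_smul, norm_e, mul_one, Real.norm_of_nonneg (tau_nonneg _)]
    exact tau_le _
  simp at h
  linarith

/-- coordinate functional of `ℓ¹` -/
def coord (n : ℕ) : E →ₗ[ℝ] ℝ where
  toFun f := f n
  map_add' f g := by simp
  map_smul' c f := by simp

lemma coord_apply (n : ℕ) (f : E) : coord n f = f n := rfl

/-- the biorthogonal functionals -/
def xs : ℕ → (E →ₗ[ℝ] ℝ)
  | 0 => coord 0
  | (n + 1) => coord (n + 1) + tau (n + 1) • xs ((n + 1) / 4)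
decreasing_by omega

lemma xs_eq (n : ℕ) (f : E) : xs n f = f n + tau n * xs (n / 4) f := by
  rcases n with _ | n
  · rw [tau_zero, zero_mul, add_zero, xs]; rfl
  · rw [xs]; rfl

lemma xs_bound (n : ℕ) (f : E) : |xs n f| ≤ 2 * ‖f‖ := by
  induction n using Nat.strong_induction_on with
  | _ n ih =>
    have h1 : ‖f n‖ ≤ ‖f‖ := lp.norm_apply_le_norm one_ne_zero f n
    rw [Real.norm_eq_abs] at h1
    rw [xs_eq]
    rcases Nat.eq_zero_or_pos n with h0 | h0
    · rw [h0, tau_zero, zero_mul, add_zero]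
      rw [h0] at h1
      linarith [norm_nonneg f]
    · have h2 := ih (n / 4) (by omega)
      have h3 := tau_nonneg n
      have h4 := tau_le n
      have h5 : |f n + tau n * xs (n / 4) f| ≤ |f n| + tau n * |xs (n / 4) f| := by
        refine (abs_add_le _ _).trans ?_
        rw [abs_mul, abs_of_nonneg h3]
      have h6 : tau n * |xs (n / 4) f| ≤ 1 / 2 * (2 * ‖f‖) := by
        apply mul_le_mul h4 h2 (abs_nonneg _) (by norm_num)
      linarith

lemma biorth (m n : ℕ) : xs m (x n) = if m = n then 1 else 0 := by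
  induction m using Nat.strong_induction_on with
  | _ m ih =>
    rw [xs_eq, x_apply]
    rcases Nat.eq_zero_or_pos m with h0 | h0
    · rw [h0, tau_zero]; simp
    · rw [ih (m / 4) (by omega)]
      ring

lemma hasSum_abs (f : E) : HasSum (fun i => |f i|) ‖f‖ := by
  have h := lp.hasSum_norm (p := 1) (by simp) f
  simpa using h

lemma sum_abs_le (f : E) (s : Finset ℕ) : ∑ i ∈ s, |f i| ≤ ‖f‖ :=
  sum_le_hasSum s (fun i _ => abs_nonneg _) (hasSum_abs f)

lemma sum_div (g : ℕ → ℝ) (N K : ℕ) (hN : 0 < N) :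
    ∑ n ∈ range (N * K), g (n / N) = N * ∑ k ∈ range K, g k := by
  induction K with
  | zero => simp
  | succ K ih =>
    rw [Nat.mul_succ, Finset.sum_range_add, ih, Finset.sum_range_succ, mul_add]
    congr 1
    have h : ∀ i ∈ range N, g ((N * K + i) / N) = g K := by
      intro i hi
      rw [mem_range] at hi
      rw [Nat.mul_add_div hN, Nat.div_eq_of_lt hi, add_zero]
    rw [Finset.sum_congr rfl h]
    simp

lemma sum_anc (f : E) (A : Finset ℕ) (l : ℕ) : ∑ n ∈ A, |f (n / 4 ^ l)| ≤ 4 ^ l * ‖f‖ := by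
  obtain ⟨K, hK⟩ : ∃ K, A ⊆ range (4 ^ l * K) := by
    refine ⟨A.sup id + 1, ?_⟩
    intro n hn
    rw [mem_range]
    have h1 : n ≤ A.sup id := Finset.le_sup (f := id) hn
    have h2 : 1 ≤ 4 ^ l := Nat.one_le_pow _ _ (by norm_num)
    nlinarith
  refine (Finset.sum_le_sum_of_subset_of_nonneg hK (fun i _ _ => abs_nonneg _)).trans ?_
  have h := sum_div (fun n => |f n|) (4 ^ l) K (by positivity)
  rw [h]
  push_cast
  exact mul_le_mul_of_nonneg_left (sum_abs_le f _) (by positivity)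

/-- expansion along the ancestors -/
lemma anc_bound (f : E) (hQ : ∀ n, |xs n f| ≤ 1) (m n : ℕ) :
    |xs n f| ≤ ∑ l ∈ range m, |f (n / 4 ^ l)| + (1 / 2) ^ m := by
  induction m generalizing n with
  | zero => simpa using hQ n
  | succ m ih =>
    rw [xs_eq]
    have h1 := ih (n / 4)
    have h3 := tau_nonneg n
    have h4 := tau_le n
    have h5 : |f n + tau n * xs (n / 4) f| ≤ |f n| + tau n * |xs (n / 4) f| := by
      refine (abs_add_le _ _).trans ?_
      rw [abs_mul, abs_of_nonneg h3]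
    rw [Finset.sum_range_succ', pow_zero, Nat.div_one]
    have h6 : ∀ l, n / 4 / 4 ^ l = n / 4 ^ (l + 1) := by
      intro l
      rw [Nat.div_div_eq_div_mul, pow_succ']
    simp only [h6] at h1
    have hS : 0 ≤ ∑ l ∈ range m, |f (n / 4 ^ (l + 1))| := Finset.sum_nonneg fun _ _ => abs_nonneg _
    have h7 : tau n * |xs (n / 4) f| ≤ 1 / 2 * (∑ l ∈ range m, |f (n / 4 ^ (l + 1))| + (1 / 2) ^ m) := by
      apply mul_le_mul h4 h1 (abs_nonneg _) (by norm_num)
    rw [pow_succ]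
    linarith

lemma near_uncond {a : ℝ} (ha : 0 < a) (f : E) (hQ : ∀ n, |xs n f| ≤ 1) (m : ℕ)
    (hm : (1 / 2 : ℝ) ^ m ≤ a / 2) (A : Finset ℕ) (hA : ∀ n ∈ A, a ≤ |xs n f|) :
    ‖∑ n ∈ A, xs n f • x n‖ ≤ (3 * (2 / a) * (m * 4 ^ m)) * ‖f‖ := by
  have h1 : ‖∑ n ∈ A, xs n f • x n‖ ≤ 3 * A.card := by
    refine (norm_sum_le _ _).trans ?_
    have : ∀ n ∈ A, ‖xs n f • x n‖ ≤ 3 := by
      intro n _
      rw [norm_smul, Real.norm_eq_abs]
      have := hQ n
      have := norm_x n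
      nlinarith [abs_nonneg (xs n f), norm_nonneg (x n)]
    refine (Finset.sum_le_sum this).trans ?_
    simp [mul_comm]
  have h2 : (A.card : ℝ) * (a / 2) ≤ m * 4 ^ m * ‖f‖ := by
    have h3 : ∀ n ∈ A, a / 2 ≤ ∑ l ∈ range m, |f (n / 4 ^ l)| := by
      intro n hn
      have := anc_bound f hQ m n
      have := hA n hn
      linarith
    have h4 : ∑ n ∈ A, (a / 2) ≤ ∑ n ∈ A, ∑ l ∈ range m, |f (n / 4 ^ l)| := Finset.sum_le_sum h3
    rw [Finset.sum_comm] at h4
    have h5 : ∑ l ∈ range m, ∑ n ∈ A, |f (n / 4 ^ l)| ≤ ∑ l ∈ range m, (4 : ℝ) ^ m * ‖f‖ := by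
      apply Finset.sum_le_sum
      intro l hl
      rw [mem_range] at hl
      refine (sum_anc f A l).trans ?_
      apply mul_le_mul_of_nonneg_right _ (norm_nonneg _)
      exact pow_le_pow_right₀ (by norm_num) hl.le
    simp at h4 h5
    linarith
  have h6 : (A.card : ℝ) ≤ (2 / a) * (m * 4 ^ m * ‖f‖) := by
    rw [div_mul_eq_mul_div, le_div_iff₀ ha]
    linarith
  calc ‖∑ n ∈ A, xs n f • x n‖ ≤ 3 * A.card := h1
    _ ≤ 3 * ((2 / a) * (m * 4 ^ m * ‖f‖)) := by linarith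
    _ = _ := by ring

/-! ### density -/

lemma log_child {n i : ℕ} (hn : 1 ≤ n) (hi : i < 4) : Nat.log 4 (4 * n + i) = Nat.log 4 n + 1 := by
  have h1 : (4 * n + i) / 4 = n := by omega
  have h2 := Nat.log_div_base 4 (4 * n + i)
  rw [h1] at h2
  have h3 : 1 ≤ Nat.log 4 (4 * n + i) := by
    apply Nat.log_pos (by norm_num)
    omega
  omega

lemma e_mem_span (d : ℕ) : ∀ n : ℕ, 1 ≤ n → IsSquare (Nat.log 4 n + d + 1) →
    e n ∈ Submodule.span ℝ (Set.range x) := by
  induction d with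
  | zero =>
    intro n hn hsq
    have h : x n = e n := by
      unfold x
      rw [sub_eq_self]
      apply Finset.sum_eq_zero
      intro i hi
      rw [mem_range] at hi
      have : tau (4 * n + i) = 0 := by
        unfold tau
        rw [log_child hn hi, if_pos (by simpa using hsq)]
      rw [this, zero_smul]
    rw [← h]
    exact Submodule.subset_span ⟨n, rfl⟩
  | succ d ih =>
    intro n hn hsq
    have h : e n = x n + ∑ i ∈ range 4, tau (4 * n + i) • e (4 * n + i) := by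
      unfold x; abel
    rw [h]
    apply Submodule.add_mem _ (Submodule.subset_span (Set.mem_range_self n))
    apply Submodule.sum_mem
    intro i hi
    rw [mem_range] at hi
    apply Submodule.smul_mem
    apply ih _ (by omega)
    rw [log_child hn hi]
    rwa [show Nat.log 4 n + 1 + d + 1 = Nat.log 4 n + (d + 1) + 1 by ring]

lemma e_mem (n : ℕ) : e n ∈ Submodule.span ℝ (Set.range x) := by
  rcases Nat.eq_zero_or_pos n with h0 | h0
  · have h : x 0 = e 0 := by
      unfold x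
      rw [sub_eq_self]
      apply Finset.sum_eq_zero
      intro i hi
      rw [mem_range] at hi
      have : tau (4 * 0 + i) = 0 := by
        unfold tau
        have h4 : Nat.log 4 (4 * 0 + i) = 0 := by
          rw [Nat.log_eq_zero_iff]; left; omega
        rw [h4, if_pos]
        exact ⟨0, rfl⟩
      rw [this, zero_smul]
    rw [h0, ← h]
    exact Submodule.subset_span ⟨0, rfl⟩
  · apply e_mem_span ((Nat.log 4 n + 1) * (Nat.log 4 n + 1) - Nat.log 4 n - 1) n h0
    refine ⟨Nat.log 4 n + 1, ?_⟩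
    have : Nat.log 4 n + 1 ≤ (Nat.log 4 n + 1) * (Nat.log 4 n + 1) := Nat.le_mul_self _
    omega

lemma dense_span (f : E) (ε : ℝ) (hε : 0 < ε) : ∃ g ∈ Submodule.span ℝ (Set.range x), ‖f - g‖ < ε := by
  have h := lp.hasSum_single (E := fun _ : ℕ => ℝ) (p := 1) (by simp) f
  rw [HasSum, SummationFilter.unconditional_filter] at h
  obtain ⟨s, hs⟩ := (Metric.tendsto_atTop.mp h) ε hε
  refine ⟨∑ i ∈ s, lp.single 1 i (f i), ?_, ?_⟩
  · apply Submodule.sum_mem
    intro i _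
    have : lp.single 1 i (f i) = (f i) • e i := by
      unfold e
      rw [← lp.single_smul, smul_eq_mul, mul_one]
    rw [this]
    exact Submodule.smul_mem _ _ (e_mem i)
  · have := hs s le_rfl
    rwa [dist_comm, dist_eq_norm] at this

/-! ### failure of truncation quasi-greediness -/

/-- level `i` below `4^(J²)` -/
def Blk (J i : ℕ) : Finset ℕ := Finset.Ico (4 ^ (J * J) * 4 ^ i) ((4 ^ (J * J) + 1) * 4 ^ i)

lemma mem_Blk {J i n : ℕ} : n ∈ Blk J i ↔ n / 4 ^ i = 4 ^ (J * J) := by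
  unfold Blk
  rw [mem_Ico]
  have hpos : 0 < 4 ^ i := by positivity
  constructor
  · rintro ⟨h1, h2⟩
    exact Nat.div_eq_of_lt_le h1 h2
  · intro h
    constructor
    · have := Nat.div_mul_le_self n (4 ^ i)
      rwa [h] at this
    · exact Nat.lt_mul_of_div_lt (show n / 4 ^ i < 4 ^ (J * J) + 1 by omega) hpos

lemma log_Blk {J i n : ℕ} (h : n ∈ Blk J i) : Nat.log 4 n = J * J + i := by
  unfold Blk at h
  rw [mem_Ico] at h
  apply Nat.log_eq_of_pow_le_of_lt_pow
  · rw [pow_add]; exact h.1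
  · refine h.2.trans_le ?_
    rw [pow_succ, pow_add]
    have : 1 ≤ 4 ^ (J * J) := Nat.one_le_pow _ _ (by norm_num)
    nlinarith [Nat.one_le_pow i 4 (by norm_num)]

lemma card_Blk (J i : ℕ) : (Blk J i).card = 4 ^ i := by
  unfold Blk
  rw [Nat.card_Ico]
  rw [add_mul, one_mul, Nat.add_sub_cancel_left]

lemma tau_Blk_zero {J n : ℕ} (h : n ∈ Blk J 0) : tau n = 0 := by
  unfold tau
  rw [log_Blk h, if_pos ⟨J, by ring⟩]

lemma tau_Blk_last {J n : ℕ} (h : n ∈ Blk J (2 * J + 1)) : tau n = 0 := by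
  unfold tau
  rw [log_Blk h, if_pos ⟨J + 1, by ring⟩]

lemma tau_Blk {J i n : ℕ} (h : n ∈ Blk J i) (h1 : 1 ≤ i) (h2 : i ≤ 2 * J) : tau n = 1 / 2 := by
  unfold tau
  rw [log_Blk h, if_neg]
  rintro ⟨k, hk⟩
  rcases Nat.lt_or_ge J k with h3 | h3
  · have : (J + 1) * (J + 1) ≤ k * k := Nat.mul_self_le_mul_self h3
    nlinarith
  · have : k * k ≤ J * J := Nat.mul_self_le_mul_self h3
    omega

lemma Blk_parent {J i n : ℕ} : n ∈ Blk J (i + 1) ↔ n / 4 ∈ Blk J i := by
  rw [mem_Blk, mem_Blk, pow_succ', Nat.div_div_eq_div_mul]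

/-- values of the coordinate functionals on `e_r` -/
lemma xs_e (J n : ℕ) : (∀ i ≤ 2 * J, n ∈ Blk J i → xs n (e (4 ^ (J * J))) = (1 / 2) ^ i) ∧
    ((∀ i ≤ 2 * J, n ∉ Blk J i) → xs n (e (4 ^ (J * J))) = 0) := by
  induction n using Nat.strong_induction_on with
  | _ n ih =>
    constructor
    · intro i hi hn
      rw [xs_eq, e_apply]
      rcases i with _ | i
      · rw [tau_Blk_zero hn, zero_mul, add_zero, if_pos, pow_zero]
        have := mem_Blk.mp hn
        simpa using this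
      · have hne : n ≠ 4 ^ (J * J) := by
          intro h
          have h1 := log_Blk hn
          rw [h, Nat.log_pow (by norm_num)] at h1
          omega
        have hn0 : 0 < n := by
          rcases Nat.eq_zero_or_pos n with h | h
          · exfalso
            rw [mem_Blk, h, Nat.zero_div] at hn
            have : 0 < 4 ^ (J * J) := by positivity
            omega
          · exact h
        rw [if_neg hne, zero_add, tau_Blk hn (by omega) hi,
          (ih (n / 4) (by omega)).1 i (by omega) (Blk_parent.mp hn), pow_succ]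
        ring
    · intro hn
      have hne : n ≠ 4 ^ (J * J) := by
        intro h
        apply hn 0 (by omega)
        rw [mem_Blk, h, pow_zero, Nat.div_one]
      rw [xs_eq, e_apply, if_neg hne, zero_add]
      rcases Nat.eq_zero_or_pos n with h0 | h0
      · rw [h0, tau_zero, zero_mul]
      · by_cases hp : ∃ i ≤ 2 * J, n / 4 ∈ Blk J i
        · obtain ⟨i, hi, hmem⟩ := hp
          have h1 : n ∈ Blk J (i + 1) := Blk_parent.mpr hmem
          have h2 : i = 2 * J := by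
            by_contra h3
            exact hn (i + 1) (by omega) h1
          subst h2
          rw [tau_Blk_last h1, zero_mul]
        · push Not at hp
          rw [(ih (n / 4) (by omega)).2 hp, mul_zero]

/-- the greedy set -/
def AA (J : ℕ) : Finset ℕ := (range (2 * J + 1)).biUnion (Blk J)

lemma mem_AA {J n : ℕ} : n ∈ AA J ↔ ∃ i ≤ 2 * J, n ∈ Blk J i := by
  unfold AA
  rw [mem_biUnion]
  constructor
  · rintro ⟨i, hi, h⟩
    exact ⟨i, by rw [mem_range] at hi; omega, h⟩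
  · rintro ⟨i, hi, h⟩
    exact ⟨i, by rw [mem_range]; omega, h⟩

lemma xs_AA {J n : ℕ} (h : n ∈ AA J) : (1 / 2 : ℝ) ^ (2 * J) ≤ xs n (e (4 ^ (J * J))) := by
  obtain ⟨i, hi, hn⟩ := mem_AA.mp h
  rw [(xs_e J n).1 i hi hn]
  exact pow_le_pow_of_le_one (by norm_num) (by norm_num) hi

lemma xs_not_AA {J n : ℕ} (h : n ∉ AA J) : xs n (e (4 ^ (J * J))) = 0 := by
  apply (xs_e J n).2
  intro i hi hn
  exact h (mem_AA.mpr ⟨i, hi, hn⟩)

lemma norm_sum_AA (J : ℕ) (hJ : 1 ≤ J) : 1 / 2 * 4 ^ (2 * J) ≤ ‖∑ n ∈ AA J, x n‖ := by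
  refine le_trans ?_ (sum_abs_le _ (Blk J (2 * J)))
  have h : ∀ m ∈ Blk J (2 * J), |(∑ n ∈ AA J, x n : E) m| = 1 / 2 := by
    intro m hm
    rw [lp.coeFn_sum, Finset.sum_apply]
    simp only [x_apply]
    rw [Finset.sum_sub_distrib]
    have h1 : ∑ n ∈ AA J, (if m = n then (1 : ℝ) else 0) = 1 := by
      rw [Finset.sum_ite_eq, if_pos]
      exact mem_AA.mpr ⟨2 * J, le_rfl, hm⟩
    have h2 : ∑ n ∈ AA J, tau m * (if m / 4 = n then (1 : ℝ) else 0) = 1 / 2 := by
      rw [← Finset.mul_sum, Finset.sum_ite_eq, if_pos, mul_one]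
      · exact tau_Blk hm (by omega) le_rfl
      · refine mem_AA.mpr ⟨2 * J - 1, by omega, ?_⟩
        apply Blk_parent.mp
        rwa [show 2 * J - 1 + 1 = 2 * J by omega]
    rw [h1, h2]
    norm_num
  rw [Finset.sum_congr rfl h]
  rw [Finset.sum_const, card_Blk]
  simp
  linarith

end

/-- There is a real or complex quasi-Banach space with a bounded biorthogonal basis that is nearly unconditional (coordinates at least a can be projected boundedly) but not truncation quasi-greedy. -/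
theorem result :
    ∃ (𝕂 : Type) (_ : RCLike 𝕂) (X : Type) (_ : AddCommGroup X) (_ : Module 𝕂 X)
      (q : X → ℝ) (κ : ℝ) (x : ℕ → X) (xs : ℕ → X →ₗ[𝕂] 𝕂),
      (∀ f : X, 0 ≤ q f) ∧
      (∀ f : X, q f = 0 → f = 0) ∧
      (∀ (c : 𝕂) (f : X), q (c • f) = ‖c‖ * q f) ∧
      (∀ f g : X, q (f + g) ≤ κ * (q f + q g)) ∧
      (∀ u : ℕ → X, (∀ ε : ℝ, 0 < ε → ∃ N : ℕ, ∀ m ≥ N, ∀ n ≥ N, q (u m - u n) < ε) →
        ∃ f : X, ∀ ε : ℝ, 0 < ε → ∃ N : ℕ, ∀ n ≥ N, q (u n - f) < ε) ∧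
      (∃ B : ℝ, ∀ n : ℕ, q (x n) ≤ B) ∧
      (∃ M : ℝ, ∀ (n : ℕ) (f : X), ‖xs n f‖ ≤ M * q f) ∧
      (∀ m n : ℕ, xs m (x n) = if m = n then 1 else 0) ∧
      (∀ f : X, ∀ ε : ℝ, 0 < ε → ∃ g ∈ Submodule.span 𝕂 (Set.range x), q (f - g) < ε) ∧
      (∀ a : ℝ, 0 < a → a ≤ 1 → ∃ C : ℝ, ∀ f : X, (∀ n : ℕ, ‖xs n f‖ ≤ 1) →
        ∀ A : Finset ℕ, (∀ n ∈ A, a ≤ ‖xs n f‖) →
          q (∑ n ∈ A, xs n f • x n) ≤ C * q f) ∧
      ¬ (∃ C : ℝ, ∀ f : X, ∀ A : Finset ℕ, A.Nonempty →
          (∀ n ∈ A, ∀ k : ℕ, k ∉ A → ‖xs k f‖ ≤ ‖xs n f‖) →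
          ∀ t : ℝ, (∀ n ∈ A, t ≤ ‖xs n f‖) →
            t * q (∑ n ∈ A, (xs n f / ((‖xs n f‖ : ℝ) : 𝕂)) • x n) ≤ C * q f) := by
  refine ⟨ℝ, inferInstance, E, inferInstance, inferInstance, fun f => ‖f‖, 1, x, xs, ?_, ?_, ?_, ?_, ?_, ?_,
    ?_, ?_, ?_, ?_, ?_⟩
  · intro f; exact norm_nonneg f
  · intro f hf; exact norm_eq_zero.mp hf
  · intro c f; exact norm_smul c f
  · intro f g
    rw [one_mul]
    exact norm_add_le f g
  · intro u hu
    have hc : CauchySeq u := by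
      rw [Metric.cauchySeq_iff]
      intro ε hε
      obtain ⟨N, hN⟩ := hu ε hε
      exact ⟨N, fun m hm n hn => by rw [dist_eq_norm]; exact hN m hm n hn⟩
    obtain ⟨f, hf⟩ := cauchySeq_tendsto_of_complete hc
    refine ⟨f, fun ε hε => ?_⟩
    obtain ⟨N, hN⟩ := Metric.tendsto_atTop.mp hf ε hε
    exact ⟨N, fun n hn => by
      have := hN n hn
      rwa [dist_eq_norm] at this⟩
  · exact ⟨3, norm_x⟩
  · exact ⟨2, fun n f => xs_bound n f⟩
  · exact biorth
  · exact dense_span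
  · intro a ha _
    obtain ⟨m, hm⟩ := exists_pow_lt_of_lt_one (show (0 : ℝ) < a / 2 by positivity)
      (show (1 / 2 : ℝ) < 1 by norm_num)
    exact ⟨_, fun f hQ A hA => near_uncond ha f hQ m hm.le A hA⟩
  · rintro ⟨C, hC⟩
    obtain ⟨J, hJ⟩ := pow_unbounded_of_one_lt (2 * C) (show (1 : ℝ) < 4 by norm_num)
    have hJ2 : 2 * C < 4 ^ (J + 1) := by
      refine hJ.trans_le ?_
      exact pow_le_pow_right₀ (by norm_num) (by omega)
    have h1 := hC (e (4 ^ ((J + 1) * (J + 1)))) (AA (J + 1)) ⟨4 ^ ((J + 1) * (J + 1)), by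
        refine mem_AA.mpr ⟨0, by omega, ?_⟩
        rw [mem_Blk, pow_zero, Nat.div_one]⟩ (by
        intro n _ k hk
        rw [xs_not_AA hk, norm_zero]
        exact norm_nonneg _) ((1 / 2 : ℝ) ^ (2 * (J + 1))) (by
        intro n hn
        refine (xs_AA hn).trans ?_
        exact le_abs_self _)
    have h2 : ∑ n ∈ AA (J + 1), (xs n (e (4 ^ ((J + 1) * (J + 1)))) /
        ((‖xs n (e (4 ^ ((J + 1) * (J + 1))))‖ : ℝ) : ℝ)) • x n = ∑ n ∈ AA (J + 1), x n := by
      apply Finset.sum_congr rfl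
      intro n hn
      have h3 := xs_AA hn
      have h4 : 0 < xs n (e (4 ^ ((J + 1) * (J + 1)))) := lt_of_lt_of_le (by positivity) h3
      rw [Real.norm_of_nonneg h4.le, div_self h4.ne', one_smul]
    have h5 : (1 / 2 : ℝ) ^ (2 * (J + 1)) * ‖∑ n ∈ AA (J + 1), x n‖ ≤ C * 1 := by
      have h6 := h1
      simp only [norm_e] at h6
      rw [← h2]
      exact h6
    have h7 := norm_sum_AA (J + 1) (by omega)
    have h8 : (1 / 2 : ℝ) ^ (2 * (J + 1)) * (1 / 2 * 4 ^ (2 * (J + 1))) = 1 / 2 * 4 ^ (J + 1) := by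
      rw [show (4 : ℝ) ^ (2 * (J + 1)) = 4 ^ (J + 1) * 4 ^ (J + 1) by rw [two_mul, pow_add],
        pow_mul (1 / 2 : ℝ) 2, show ((1 / 2 : ℝ) ^ 2) = 1 / 4 by norm_num]
      have : (1 / 4 : ℝ) ^ (J + 1) * 4 ^ (J + 1) = 1 := by
        rw [← mul_pow]; norm_num
      linear_combination (1 / 2 * 4 ^ (J + 1)) * this
    have h9 := mul_le_mul_of_nonneg_left h7 (show (0 : ℝ) ≤ (1 / 2 : ℝ) ^ (2 * (J + 1)) by positivity)
    rw [h8] at h9
    linarith

end Pool.Agent.S06521
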