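import Pool.Statements.S06580
import Pool.Agent.V1195.C0Semi

set_option autoImplicit false
open Filter Topology MeasureTheory
open Pool Pool.MP_ec63c8_an

namespace Pool.Agent.S06580

open Pool.Agent.V1195.C0Semi in
/-- The vector with the stable orbit whose resolvent integrals do not tend to zero. -/
noncomputable def vec : X where
  toFun w := ((Real.exp (-(|w.1| / 2 + |w.2|)) : ℝ) : ℂ)
  continuous_toFun := by fun_prop
  zero_at_infty' := by
    rw [tendsto_zero_iff_norm_tendsto_zero]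
    have h1 : Tendsto (fun w : ℝ × ℝ => Real.exp (-(‖w‖ * (1 / 2)))) (cocompact (ℝ × ℝ)) (𝓝 0) := by
      refine Real.tendsto_exp_atBot.comp (tendsto_neg_atTop_atBot.comp ?_)
      exact (tendsto_norm_cocompact_atTop (E := ℝ × ℝ)).atTop_mul_const (by norm_num)
    refine squeeze_zero (fun w => norm_nonneg _) (fun w => ?_) h1
    rw [Complex.norm_real, Real.norm_eq_abs, abs_of_pos (Real.exp_pos _)]
    apply Real.exp_le_exp.2
    have h2 : ‖w‖ ≤ |w.1| + |w.2| := by
      rw [Prod.norm_def]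
      exact max_le (by rw [Real.norm_eq_abs]; linarith [abs_nonneg w.2])
        (by rw [Real.norm_eq_abs]; linarith [abs_nonneg w.1])
    linarith [abs_nonneg w.2, abs_nonneg w.1]

open Pool.Agent.V1195.C0Semi in
/-- Lower bound for the norm of the resolvent applied to the vector. -/
lemma lower (a s : ℝ) (ha : 0 < a) (ha1 : a ≤ 1) (hs : s ∈ Set.Icc (0 : ℝ) 1) :
    Real.sqrt (1 / (36 * a)) ≤ ‖∫ t in Set.Ioi (0 : ℝ), integrand a s vec t‖ := by
  refine le_trans ?_ (apply_le _ (Real.log a, s))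
  rw [integral_eval a s (Real.log a) ha vec, norm_div, Complex.norm_real]
  have hlog : |Real.log a| = - Real.log a := abs_of_nonpos (Real.log_nonpos ha.le ha1)
  have h1 : ‖vec (Real.log a, s)‖ = Real.sqrt a * Real.exp (-s) := by
    change ‖((Real.exp (-(|Real.log a| / 2 + |s|)) : ℝ) : ℂ)‖ = _
    rw [Complex.norm_real, Real.norm_eq_abs, abs_of_pos (Real.exp_pos _), hlog,
      abs_of_nonneg hs.1]
    have : -(-Real.log a / 2 + s) = Real.log a * (1 / 2) + -s := by ring
    rw [this, Real.exp_add, Real.exp_mul, Real.exp_log ha, ← Real.sqrt_eq_rpow]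
  rw [h1, hlog, neg_neg, Real.exp_log ha, Real.norm_eq_abs, abs_of_pos (by linarith)]
  have h3 : (1 : ℝ) / 3 ≤ Real.exp (-s) := by
    have h4 : Real.exp (-1) ≤ Real.exp (-s) := Real.exp_le_exp.2 (by linarith [hs.2])
    have h5 : Real.exp 1 < 3 := by linarith [Real.exp_one_lt_d9]
    rw [Real.exp_neg] at h4
    refine le_trans ?_ h4
    rw [one_div]
    exact inv_anti₀ (Real.exp_pos 1) h5.le
  have hsq : Real.sqrt a * Real.sqrt a = a := Real.mul_self_sqrt ha.le
  have hsp : 0 < Real.sqrt a := Real.sqrt_pos.2 ha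
  rw [Real.sqrt_le_left (by positivity)]
  rw [div_pow, mul_pow, sq (Real.sqrt a), hsq, div_le_div_iff₀ (by positivity) (by positivity)]
  have h6 : (1 / 3 : ℝ) ^ 2 ≤ Real.exp (-s) ^ 2 := pow_le_pow_left₀ (by norm_num) h3 2
  nlinarith [mul_pos ha ha]

/-- The negation of the preceding statement: For every bounded strongly continuous semigroup T on a complex Banach space and every x, T(t)x tends to 0 iff a times the integral over s of the squared norm of the Laplace-transform resolvent at a+is applied to x tends to 0 as a tends to 0 from above. -/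
theorem result :
    ¬ (∀ (X : Type) [NormedAddCommGroup X] [NormedSpace ℂ X] [CompleteSpace X]
      (T : ℝ → (X →L[ℂ] X)),
      T 0 = 1 →
      (∀ s t : ℝ, 0 ≤ s → 0 ≤ t → T (s + t) = T s * T t) →
      (∀ x : X, ContinuousOn (fun t : ℝ => T t x) (Set.Ici (0 : ℝ))) →
      (∃ M : ℝ, ∀ t : ℝ, 0 ≤ t → ‖T t‖ ≤ M) →
      ∀ x : X,
        (Tendsto (fun t : ℝ => T t x) atTop (𝓝 0) ↔
          Tendsto
            (fun a : ℝ => ENNReal.ofReal a *
              ∫⁻ s : ℝ,
                ((‖∫ t in Set.Ioi (0 : ℝ),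
                    Complex.exp (-(((a : ℂ) + (s : ℂ) * Complex.I) * (t : ℂ))) • T t x‖₊ : ENNReal)) ^ 2)
            (𝓝[>] (0 : ℝ)) (𝓝 0))) := by
  intro h
  have h1 := (h Pool.Agent.V1195.C0Semi.X Pool.Agent.V1195.C0Semi.T
    Pool.Agent.V1195.C0Semi.T_zero Pool.Agent.V1195.C0Semi.T_add
    (fun x => (Pool.Agent.V1195.C0Semi.continuous_T x).continuousOn)
    ⟨1, fun t _ => Pool.Agent.V1195.C0Semi.norm_T_le t⟩ vec).1
    (Pool.Agent.V1195.C0Semi.tendsto_T vec)
  have h2 : ∀ᶠ a : ℝ in 𝓝[>] (0 : ℝ), ENNReal.ofReal (1 / 36) ≤ ENNReal.ofReal a *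
      ∫⁻ s : ℝ, ((‖∫ t in Set.Ioi (0 : ℝ),
        Complex.exp (-(((a : ℂ) + (s : ℂ) * Complex.I) * (t : ℂ))) •
          Pool.Agent.V1195.C0Semi.T t vec‖₊ : ENNReal)) ^ 2 := by
    filter_upwards [Ioc_mem_nhdsGT (show (0 : ℝ) < 1 by norm_num)] with a ha
    have h3 : ENNReal.ofReal (1 / (36 * a)) ≤ ∫⁻ s : ℝ, ((‖∫ t in Set.Ioi (0 : ℝ),
        Complex.exp (-(((a : ℂ) + (s : ℂ) * Complex.I) * (t : ℂ))) •
          Pool.Agent.V1195.C0Semi.T t vec‖₊ : ENNReal)) ^ 2 := by
      calc ENNReal.ofReal (1 / (36 * a))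
          = ∫⁻ _ in Set.Icc (0 : ℝ) 1, ENNReal.ofReal (1 / (36 * a)) := by
            rw [setLIntegral_const, Real.volume_Icc]
            simp
        _ ≤ ∫⁻ s in Set.Icc (0 : ℝ) 1, ((‖∫ t in Set.Ioi (0 : ℝ),
              Complex.exp (-(((a : ℂ) + (s : ℂ) * Complex.I) * (t : ℂ))) •
              Pool.Agent.V1195.C0Semi.T t vec‖₊ : ENNReal)) ^ 2 := by
            refine setLIntegral_mono' measurableSet_Icc (fun s hs => ?_)
            have h4 := lower a s ha.1 ha.2 hs
            have h5 : (1 : ℝ) / (36 * a) = Real.sqrt (1 / (36 * a)) ^ 2 := by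
              rw [Real.sq_sqrt]
              have := ha.1
              positivity
            rw [h5, ENNReal.ofReal_pow (Real.sqrt_nonneg _)]
            refine pow_le_pow_left' ?_ 2
            rw [← enorm_eq_nnnorm, ← ofReal_norm]
            exact ENNReal.ofReal_le_ofReal h4
        _ ≤ _ := setLIntegral_le_lintegral _ _
    calc ENNReal.ofReal (1 / 36) = ENNReal.ofReal a * ENNReal.ofReal (1 / (36 * a)) := by
          rw [← ENNReal.ofReal_mul ha.1.le]
          congr 1
          have := ha.1.ne'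
          field_simp
      _ ≤ _ := by gcongr
  have h3 := ge_of_tendsto h1 h2
  have h4 : (0 : ENNReal) < ENNReal.ofReal (1 / 36) := by
    rw [ENNReal.ofReal_pos]; norm_num
  exact absurd h3 (not_le.2 h4)

end Pool.Agent.S06580
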