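import Pool.Statements.S07056

set_option autoImplicit false
open Pool Pool.MP_0959cd_co

namespace Pool.Agent.S07056

/-- Weights (in units of 1/41) of a strong digraph on seven vertices: every vertex has weighted
out-degree 41, while every directed cycle has weight 40. -/
def w (i j : Fin 7) : ℕ :=
  match i.val, j.val with
  | 0, 5 => 13
  | 0, 6 => 28
  | 1, 2 => 30
  | 1, 5 => 11
  | 2, 1 => 10
  | 2, 3 => 10
  | 2, 5 => 21
  | 3, 2 => 30
  | 3, 5 => 11
  | 4, 5 => 33
  | 4, 6 => 8
  | 5, 2 => 19
  | 5, 4 => 7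
  | 5, 6 => 15
  | 6, 0 => 12
  | 6, 2 => 4
  | 6, 5 => 25
  | _, _ => 0

/-- a depth-first search through all directed cycles with a given starting point -/
def check (g : Fin 7 → Fin 7 → ℕ) : ℕ → Fin 7 → Fin 7 → List (Fin 7) → ℕ → Bool
  | 0, _, _, _, _ => false
  | f + 1, s, u, vis, acc =>
    (g u s == 0 || decide (acc + g u s < 41)) &&
      (List.finRange 7).all (fun v => g u v == 0 || vis.contains v ||
        check g f s v (v :: vis) (acc + g u v))

theorem sound (g : Fin 7 → Fin 7 → ℕ) (e : ℕ → Fin 7) (n : ℕ)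
    (hinj : ∀ i, i < n → ∀ j, j < n → e i = e j → i = j)
    (harc : ∀ i, g (e i) (e (i + 1)) ≠ 0) (hclose : e n = e 0) :
    ∀ (r i f : ℕ) (vis : List (Fin 7)) (acc : ℕ), i + r + 1 = n →
      (∀ x ∈ vis, ∃ j, j ≤ i ∧ e j = x) → check g f (e 0) (e i) vis acc = true →
      acc + ∑ j ∈ Finset.range (r + 1), g (e (i + j)) (e (i + j + 1)) < 41 := by
  intro r
  induction r with
  | zero =>
    intro i f vis acc hn hvis hc
    rcases f with _ | f
    · simp [check] at hc
    · unfold check at hc
      rw [Bool.and_eq_true, Bool.or_eq_true] at hc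
      have h1 : e (i + 1) = e 0 := by rw [← hclose]; congr 1
      have h2 := harc i
      rw [h1] at h2
      rcases hc.1 with h3 | h3
      · exact absurd (by simpa using h3) h2
      · simpa [h1] using h3
  | succ r ih =>
    intro i f vis acc hn hvis hc
    rcases f with _ | f
    · simp [check] at hc
    · unfold check at hc
      rw [Bool.and_eq_true, List.all_eq_true] at hc
      have h1 := hc.2 (e (i + 1)) (List.mem_finRange _)
      rw [Bool.or_eq_true, Bool.or_eq_true] at h1
      rcases h1 with (h1 | h1) | h1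
      · exact absurd (by simpa using h1) (harc i)
      · exfalso
        rw [List.contains_iff_mem] at h1
        obtain ⟨j, hj, hje⟩ := hvis _ h1
        have := hinj j (by omega) (i + 1) (by omega) hje
        omega
      · have h2 := ih (i + 1) f (e (i + 1) :: vis) (acc + g (e i) (e (i + 1))) (by omega) (by
          intro x hx
          rcases List.mem_cons.mp hx with rfl | hx
          · exact ⟨i + 1, le_rfl, rfl⟩
          · obtain ⟨j, hj, hje⟩ := hvis x hx
            exact ⟨j, by omega, hje⟩) h1
        rw [Finset.sum_range_succ']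
        have h3 : ∑ j ∈ Finset.range (r + 1), g (e (i + (j + 1))) (e (i + (j + 1) + 1)) =
            ∑ j ∈ Finset.range (r + 1), g (e (i + 1 + j)) (e (i + 1 + j + 1)) := by
          apply Finset.sum_congr rfl
          intro j _
          rw [show i + (j + 1) = i + 1 + j by ring]
        rw [h3]
        simp only [add_zero] at h2 ⊢
        omega

theorem check_out : ∀ s : Fin 7, check w 7 s s [s] 0 = true := by decide +kernel

theorem check_in : ∀ s : Fin 7, check (fun u v => w v u) 7 s s [s] 0 = true := by decide +kernel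

/-- the weights of the whole digraph: a copy, a reversed copy, and all arcs from the second to the
first -/
def W : Fin 7 ⊕ Fin 7 → Fin 7 ⊕ Fin 7 → ℕ
  | Sum.inl u, Sum.inl v => w u v
  | Sum.inr u, Sum.inr v => w v u
  | Sum.inr _, Sum.inl _ => 41
  | Sum.inl _, Sum.inr _ => 0

theorem W_irrefl : ∀ v, W v v = 0 := by decide +kernel

theorem W_le : ∀ u v, W u v ≤ 41 := by decide +kernel

theorem W_out : ∀ u, 41 ≤ ∑ v, W u v := by decide +kernel

theorem W_in : ∀ u, 41 ≤ ∑ v, W v u := by decide +kernel

theorem cycle_lt (n : ℕ) (hn : 0 < n) (d : ℕ → Fin 7 ⊕ Fin 7)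
    (hinj : ∀ i, i < n → ∀ j, j < n → d i = d j → i = j)
    (harc : ∀ i, W (d i) (d (i + 1)) ≠ 0) (hclose : d n = d 0) :
    ∑ j ∈ Finset.range n, W (d j) (d (j + 1)) < 41 := by
  have hstep : ∀ i, (∃ u, d i = Sum.inl u) → ∃ u, d (i + 1) = Sum.inl u := by
    rintro i ⟨u, hu⟩
    rcases h : d (i + 1) with v | v
    · exact ⟨v, rfl⟩
    · exfalso
      apply harc i
      rw [hu, h]
      rfl
  have hmono : ∀ i j, i ≤ j → (∃ u, d i = Sum.inl u) → ∃ u, d j = Sum.inl u := by
    intro i j hij hi
    induction j, hij using Nat.le_induction with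
    | base => exact hi
    | succ j _ ih => exact hstep j ih
  obtain ⟨m, rfl⟩ : ∃ m, n = m + 1 := ⟨n - 1, by omega⟩
  by_cases h0 : ∃ u, d 0 = Sum.inl u
  · have hall : ∀ i, ∃ u, d i = Sum.inl u := fun i => hmono 0 i (Nat.zero_le _) h0
    choose e he using hall
    have h1 := sound w e (m + 1)
      (fun i hi j hj hij => hinj i hi j hj (by rw [he, he, hij]))
      (fun i => by
        have := harc i
        rwa [he, he] at this)
      (by
        have := hclose
        rw [he, he] at this
        exact Sum.inl_injective this)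
      m 0 7 [e 0] 0 (by omega) (by
        intro x hx
        exact ⟨0, le_rfl, (List.mem_singleton.mp hx).symm⟩) (check_out (e 0))
    have h2 : ∑ j ∈ Finset.range (m + 1), W (d j) (d (j + 1)) =
        ∑ j ∈ Finset.range (m + 1), w (e (0 + j)) (e (0 + j + 1)) := by
      apply Finset.sum_congr rfl
      intro j _
      rw [he, he, zero_add]
      rfl
    rw [h2]
    omega
  · have hall : ∀ i, i ≤ m + 1 → ∃ u, d i = Sum.inr u := by
      intro i hi
      rcases h : d i with v | v
      · exfalso
        apply h0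
        rw [← hclose]
        exact hmono i (m + 1) hi ⟨v, h⟩
      · exact ⟨v, rfl⟩
    have hall' : ∀ i, ∃ u, i ≤ m + 1 → d i = Sum.inr u := by
      intro i
      by_cases hi : i ≤ m + 1
      · obtain ⟨u, hu⟩ := hall i hi
        exact ⟨u, fun _ => hu⟩
      · exact ⟨0, fun h => absurd h hi⟩
    choose e0 he0 using hall'
    -- make the sequence periodic
    have hpos : 0 < m + 1 := Nat.succ_pos m
    let e : ℕ → Fin 7 := fun i => e0 (i % (m + 1))
    have he : ∀ i, i ≤ m + 1 → d i = Sum.inr (e i) := by
      intro i hi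
      rcases Nat.lt_or_ge i (m + 1) with h | h
      · show d i = Sum.inr (e0 (i % (m + 1)))
        rw [Nat.mod_eq_of_lt h]
        exact he0 i hi
      · have h' : i = m + 1 := le_antisymm hi h
        subst h'
        show d (m + 1) = Sum.inr (e0 ((m + 1) % (m + 1)))
        rw [Nat.mod_self, hclose]
        exact he0 0 (Nat.zero_le _)
    have harc' : ∀ i, (fun u v => w v u) (e i) (e (i + 1)) ≠ 0 := by
      intro i
      have h1 : e i = e (i % (m + 1)) := by
        show e0 (i % (m + 1)) = e0 (i % (m + 1) % (m + 1))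
        rw [Nat.mod_mod]
      have h2 : e (i + 1) = e (i % (m + 1) + 1) := by
        show e0 ((i + 1) % (m + 1)) = e0 ((i % (m + 1) + 1) % (m + 1))
        rw [Nat.mod_add_mod]
      have hlt : i % (m + 1) < m + 1 := Nat.mod_lt _ hpos
      rw [h1, h2]
      have := harc (i % (m + 1))
      rwa [he _ (by omega), he _ (by omega)] at this
    have h1 := sound (fun u v => w v u) e (m + 1)
      (fun i hi j hj hij => hinj i hi j hj (by rw [he _ (by omega), he _ (by omega), hij]))
      harc'
      (by
        have := hclose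
        rw [he _ le_rfl, he _ (Nat.zero_le _)] at this
        exact Sum.inr_injective this)
      m 0 7 [e 0] 0 (by omega) (by
        intro x hx
        exact ⟨0, le_rfl, (List.mem_singleton.mp hx).symm⟩) (check_in (e 0))
    have h2 : ∑ j ∈ Finset.range (m + 1), W (d j) (d (j + 1)) =
        ∑ j ∈ Finset.range (m + 1), w (e (0 + j + 1)) (e (0 + j)) := by
      apply Finset.sum_congr rfl
      intro j hj
      have := Finset.mem_range.mp hj
      rw [he _ (by omega), he _ (by omega), zero_add]
      rfl
    rw [h2]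
    have h3 : ∑ j ∈ Finset.range (m + 1), w (e (0 + j + 1)) (e (0 + j)) =
      ∑ j ∈ Finset.range (m + 1), (fun u v => w v u) (e (0 + j)) (e (0 + j + 1)) := rfl
    rw [h3]
    omega

theorem result :
    ¬ (∀ (V : Type) [Fintype V] [Nonempty V] (G : Digraph V) (p : V → V → ℝ),
      (∀ v, ¬ G.Adj v v) →
      (∀ u v, 0 ≤ p u v ∧ p u v ≤ 1) →
      (∀ u v, ¬ G.Adj u v → p u v = 0) →
      (∀ u, 1 ≤ ∑ v, p u v) →
      (∀ u, 1 ≤ ∑ v, p v u) →
      ∃ (k : ℕ) (c : Fin (k + 2) → V),
        Function.Injective c ∧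
        (∀ i, G.Adj (c i) (c (i + 1))) ∧
        1 ≤ ∑ i, p (c i) (c (i + 1))) := by
  intro H
  obtain ⟨k, c, hinj, hadj, hsum⟩ := H (Fin 7 ⊕ Fin 7) ⟨fun u v => W u v ≠ 0⟩
    (fun u v => (W u v : ℝ) / 41)
    (fun v h => h (W_irrefl v))
    (fun u v => ⟨by positivity, by
      rw [div_le_one (by norm_num)]
      exact_mod_cast W_le u v⟩)
    (fun u v h => by
      have h' : W u v = 0 := by
        by_contra hne
        exact h hne
      rw [h']
      simp)
    (fun u => by
      rw [← Finset.sum_div, le_div_iff₀ (by norm_num)]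
      have := W_out u
      rw [one_mul]
      exact_mod_cast this)
    (fun u => by
      rw [← Finset.sum_div, le_div_iff₀ (by norm_num)]
      have := W_in u
      rw [one_mul]
      exact_mod_cast this)
  have hsucc : ∀ i : ℕ, Fin.ofNat (k + 2) (i + 1) = Fin.ofNat (k + 2) i + 1 := by
    intro i
    apply Fin.ext
    rw [Fin.val_add, Fin.val_ofNat, Fin.val_ofNat, Fin.val_one, Nat.mod_add_mod]
  have h1 := cycle_lt (k + 2) (by omega) (fun n => c (Fin.ofNat (k + 2) n))
    (fun i hi j hj hij => by
      have h2 := hinj hij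
      have h3 := congrArg Fin.val h2
      rwa [Fin.val_ofNat, Fin.val_ofNat, Nat.mod_eq_of_lt hi, Nat.mod_eq_of_lt hj] at h3)
    (fun i => by
      have := hadj (Fin.ofNat (k + 2) i)
      rw [← hsucc] at this
      exact this)
    (by
      show c (Fin.ofNat (k + 2) (k + 2)) = c (Fin.ofNat (k + 2) 0)
      congr 1
      apply Fin.ext
      rw [Fin.val_ofNat, Fin.val_ofNat, Nat.mod_self, Nat.zero_mod])
  have h2 : ∑ j ∈ Finset.range (k + 2), W (c (Fin.ofNat (k + 2) j)) (c (Fin.ofNat (k + 2) (j + 1))) =
      ∑ i : Fin (k + 2), W (c i) (c (i + 1)) := by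
    rw [Finset.sum_range]
    apply Finset.sum_congr rfl
    intro i _
    rw [hsucc]
    have h3 : Fin.ofNat (k + 2) i.val = i := by
      apply Fin.ext
      rw [Fin.val_ofNat, Nat.mod_eq_of_lt i.isLt]
    rw [h3]
  beta_reduce at h1
  rw [h2] at h1
  rw [← Finset.sum_div, le_div_iff₀ (by norm_num), one_mul] at hsum
  have h3 : (41 : ℕ) ≤ ∑ i : Fin (k + 2), W (c i) (c (i + 1)) := by exact_mod_cast hsum
  omega

end Pool.Agent.S07056
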