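import Pool.Statements.S07091
import Pool.Agent.V11146.HalfDense

set_option autoImplicit false
open Pool Pool.MP_0a407b_co

namespace Pool.Agent.S07091

open Pool.Agent.V11146.HalfDense

/-- For every c>0 and k there are ε>0 and N so that any graph on n≥N vertices with ⌊cn²⌋ edges, in which every ⌊n/2⌋-vertex set spans at least (1−ε)c(n/2)² edges, contains a k-clique. -/
theorem result :
    ∀ c : ℝ, 0 < c → ∀ k : ℕ, ∃ ε : ℝ, 0 < ε ∧ ∃ N : ℕ, ∀ n : ℕ, N ≤ n →
      ∀ G : SimpleGraph (Fin n),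
        G.edgeSet.ncard = ⌊c * (n : ℝ) ^ 2⌋₊ →
        (∀ W : Finset (Fin n), W.card = n / 2 →
          (1 - ε) * c * ((n : ℝ) / 2) ^ 2 ≤
            (({e : Sym2 (Fin n) | e ∈ G.edgeSet ∧ ∀ v ∈ e, v ∈ W}).ncard : ℝ)) →
        ∃ s : Finset (Fin n), G.IsNClique k s := by
  classical
  intro c hc k
  set d : ℝ := min c 1 / 2 with hdd
  have hm : 0 < min c 1 := lt_min hc one_pos
  have hd : 0 < d := by positivity
  have hd1 : d ≤ 1 := by
    have := min_le_right c 1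
    linarith
  have hdc : d ≤ c / 2 := by
    have := min_le_left c 1
    linarith
  set ρ : ℝ := d ^ k with hρd
  have hρ : 0 < ρ := by positivity
  obtain ⟨T, hT⟩ : ∃ T : ℕ, 1 / c < (1 + ρ / 4) ^ T :=
    pow_unbounded_of_one_lt _ (by linarith)
  have hT' : 1 < (1 + ρ / 4) ^ T * c := by
    rwa [div_lt_iff₀ hc] at hT
  set θ : ℝ := min (c / 4) 1 with hθd
  have hθ : 0 < θ := lt_min (by positivity) one_pos
  have hθ1 : θ ≤ 1 := min_le_right _ _
  have hθc : θ ≤ c / 4 := min_le_left _ _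
  set η : ℝ := c * (ρ / 4) * (c / 4) ^ 2 * ρ * (θ ^ T) ^ 4 with hηd
  have hη : 0 < η := by positivity
  refine ⟨η / (2 * c), by positivity, ⌈2 / c⌉₊ + 1, ?_⟩
  intro n hn G hG hW
  set A := adjR G with hAd
  have hn1 : 1 ≤ n := by omega
  have hn0 : (0:ℝ) < n := by exact_mod_cast hn1
  have hn1' : (1:ℝ) ≤ n := by exact_mod_cast hn1
  have hn2 : 2 / c ≤ n := by
    have h1 : 2 / c ≤ ⌈2 / c⌉₊ := Nat.le_ceil _
    have h2 : ((⌈2 / c⌉₊ : ℕ) : ℝ) ≤ n := by
      have : ⌈2 / c⌉₊ ≤ n := by omega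
      exact_mod_cast this
    linarith
  have hcn : 2 ≤ c * (n:ℝ) ^ 2 := by
    rw [div_le_iff₀ hc] at hn2
    nlinarith
  have hAG : ∀ i j, A i j = 1 ∧ G.Adj i j ∨ A i j = 0 ∧ ¬ G.Adj i j := by
    intro i j
    simp only [hAd, adjR]
    by_cases h : G.Adj i j <;> simp [h]
  have hA : ∀ i j, A i j = A j i := by
    intro i j
    simp only [hAd, adjR, G.adj_comm]
  have hA0 : ∀ i, A i i = 0 := by
    intro i; simp [hAd, adjR]
  have hA1 : ∀ i j, A i j ≤ 1 := by
    intro i j; rcases hAG i j with h | h <;> rw [h.1]; norm_num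
  have hAp : ∀ i j, 0 ≤ A i j := by
    intro i j; rcases hAG i j with h | h <;> rw [h.1]; norm_num
  -- total
  have htot : E A Finset.univ Finset.univ = 2 * (⌊c * (n : ℝ) ^ 2⌋₊ : ℝ) := by
    rw [hAd, E_eq_ncard, ← hG]
    congr 3
    ext e; simp
  have hfl1 : (⌊c * (n : ℝ) ^ 2⌋₊ : ℝ) ≤ c * (n:ℝ) ^ 2 := Nat.floor_le (by positivity)
  have hfl2 : c * (n:ℝ) ^ 2 < (⌊c * (n : ℝ) ^ 2⌋₊ : ℝ) + 1 := Nat.lt_floor_add_one _
  -- psd
  have hpsd : ∀ U Z : Finset (Fin n), Disjoint U Z → -(η * (n:ℝ) ^ 2) * (n:ℝ) ^ 2 ≤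
      (Z.card:ℝ) ^ 2 * E A U U + (U.card:ℝ) ^ 2 * E A Z Z - 2 * U.card * Z.card * E A U Z := by
    intro U Z hUZ
    apply psd hA hA0 hAp _ hn1 hUZ
    intro x hx hs
    have := full_bound (A := A) hA hAp (L := (1 - η / (2 * c)) * c * (n:ℝ) ^ 2 / 2)
      (M := 2 * (c * (n:ℝ) ^ 2)) (by
        intro W hWc
        have h1 := hW W hWc
        rw [hAd, E_eq_ncard]
        have e : (1 - η / (2 * c)) * c * ((n:ℝ) / 2) ^ 2 = (1 - η / (2 * c)) * c * (n:ℝ) ^ 2 / 4 := by
          ring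
        rw [e] at h1
        linarith) (by rw [htot]; linarith) x hx hs
    refine le_trans (le_of_eq ?_) this
    field_simp
    ring
  by_contra hno
  -- density increment
  have main : ∀ t : ℕ, t ≤ T → ∃ J : Finset (Fin n), θ ^ t * n ≤ J.card ∧
      ((1 + ρ / 4) ^ t * c) * (J.card : ℝ) ^ 2 ≤ E A J J := by
    intro t
    induction t with
    | zero =>
      intro _
      refine ⟨Finset.univ, by simp, ?_⟩
      rw [htot]
      simp only [pow_zero, one_mul, Finset.card_univ, Fintype.card_fin]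
      linarith
    | succ t ih =>
      intro ht
      obtain ⟨J, hJ1, hJ2⟩ := ih (by omega)
      have hJc : (0:ℝ) < J.card := lt_of_lt_of_le (by positivity) hJ1
      have hJn : J.Nonempty := by
        rw [← Finset.card_pos]; exact_mod_cast hJc
      obtain ⟨U, hU1, hU2, hU3⟩ : ∃ U ⊆ J, d ^ k * J.card ≤ U.card ∧ E A U U < d * (U.card:ℝ) ^ 2 := by
        by_contra hcon
        push Not at hcon
        obtain ⟨s, _, hs⟩ := clique_of_locally_dense (A := A) G hAG hd hd1 k J hJn hcon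
        exact hno ⟨s, hs⟩
      have hbase : (1:ℝ) ≤ (1 + ρ / 4) ^ t := one_le_pow₀ (by linarith)
      have hθT : θ ^ T ≤ θ ^ t := pow_le_pow_of_le_one hθ.le hθ1 (by omega)
      obtain ⟨h1, h2⟩ := increment (A := A) (K := η * (n:ℝ)^2) (c := c) (ρ := ρ) (θ := θ ^ T)
        (γ := (1 + ρ / 4) ^ t * c) hA hA1 hAp hc hρ (by positivity) (by nlinarith) hn1 hpsd
        (by rw [hηd]; apply le_of_eq; ring) hU1
        (le_trans (mul_le_mul_of_nonneg_right hθT hn0.le) hJ1) hJ2 hU2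
        (hU3.le.trans (mul_le_mul_of_nonneg_right hdc (sq_nonneg _)))
      refine ⟨J \ U, ?_, ?_⟩
      · refine le_trans ?_ h1
        rw [pow_succ]
        calc θ ^ t * θ * n = θ * (θ ^ t * n) := by ring
          _ ≤ (c / 4) * J.card := mul_le_mul hθc hJ1 (by positivity) (by positivity)
      · refine le_trans (le_of_eq ?_) h2
        ring
  obtain ⟨J, hJ1, hJ2⟩ := main T le_rfl
  have hJc : (0:ℝ) < J.card := lt_of_lt_of_le (by positivity) hJ1
  have := E_le_card (A := A) hA1 J J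
  nlinarith [mul_pos hJc hJc]

end Pool.Agent.S07091
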