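import Pool.Statements.S07114
-- import your own Pool.Agent.* helpers here

set_option autoImplicit false
open Filter Topology
open Pool Pool.MP_0b90e2_co

namespace Pool.Agent.S07114

/-- edges of `K_n` -/
abbrev Ed (n : ℕ) : Type := {e : Sym2 (Fin n) // ¬ e.IsDiag}

/-- the colour of the pair `u, v`: `0` inside the two halves, arbitrary between the halves -/
def col (t : ℕ) (g : Fin t × Fin t → Fin 25) (u v : Fin (2 * t)) : Fin 25 :=
  if h : u.val < t ∧ t ≤ v.val then g (⟨u.val, h.1⟩, ⟨v.val - t, by omega⟩)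
  else if h : v.val < t ∧ t ≤ u.val then g (⟨v.val, h.1⟩, ⟨u.val - t, by omega⟩)
  else 0

lemma col_symm (t : ℕ) (g : Fin t × Fin t → Fin 25) (u v : Fin (2 * t)) :
    col t g u v = col t g v u := by
  unfold col
  by_cases h1 : u.val < t ∧ t ≤ v.val
  · have h2 : ¬ (v.val < t ∧ t ≤ u.val) := by omega
    rw [dif_pos h1, dif_neg h2, dif_pos h1]
  · by_cases h2 : v.val < t ∧ t ≤ u.val
    · rw [dif_neg h1, dif_pos h2, dif_pos h2]
    · rw [dif_neg h1, dif_neg h2, dif_neg h2, dif_neg h1]

/-- the colouring -/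
def colouring (t : ℕ) (g : Fin t × Fin t → Fin 25) (e : Ed (2 * t)) : Fin 25 :=
  Sym2.lift ⟨fun u v => col t g u v, fun u v => col_symm t g u v⟩ e.1

lemma colouring_inj (t : ℕ) : Function.Injective (colouring t) := by
  intro g g' h
  funext p
  obtain ⟨i, j⟩ := p
  have hi : i.val < t := i.2
  have hj : j.val < t := j.2
  let u : Fin (2 * t) := ⟨i.val, by omega⟩
  let v : Fin (2 * t) := ⟨t + j.val, by omega⟩
  have huv : ¬ (s(u, v)).IsDiag := by
    rw [Sym2.mk_isDiag_iff]
    intro he
    have := congrArg Fin.val he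
    simp only [u, v] at this
    omega
  have h1 := congrFun h ⟨s(u, v), huv⟩
  have h2 : ∀ g : Fin t × Fin t → Fin 25, colouring t g ⟨s(u, v), huv⟩ = g (i, j) := by
    intro g
    unfold colouring
    rw [Sym2.lift_mk]
    show col t g u v = g (i, j)
    unfold col
    rw [dif_pos ⟨hi, by simp [v]⟩]
    congr 1
    refine Prod.ext (Fin.ext rfl) (Fin.ext ?_)
    show t + j.val - t = j.val
    omega
  rw [h2, h2] at h1
  exact h1

lemma colouring_valid (t : ℕ) (g : Fin t × Fin t → Fin 25) (S : Finset (Fin (2 * t)))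
    (hS : S.card = 4) :
    ((Finset.univ.filter (fun e : Ed (2 * t) => e.1 ∈ S.sym2)).image (colouring t g)).card < 6 := by
  classical
  let A := S.filter (fun v => v.val < t)
  let B := S.filter (fun v => ¬ v.val < t)
  have hAB : A.card + B.card = 4 := by
    rw [← hS]
    exact Finset.card_filter_add_card_filter_not _
  have hsub : (Finset.univ.filter (fun e : Ed (2 * t) => e.1 ∈ S.sym2)).image (colouring t g)
      ⊆ insert 0 ((A ×ˢ B).image (fun p => col t g p.1 p.2)) := by
    intro x hx
    rw [Finset.mem_image] at hx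
    obtain ⟨⟨e, he⟩, heS, rfl⟩ := hx
    rw [Finset.mem_filter] at heS
    have heS := heS.2
    induction e using Sym2.ind with
    | _ u v =>
      rw [Finset.mk_mem_sym2_iff] at heS
      obtain ⟨hu, hv⟩ := heS
      rw [Finset.mem_insert, Finset.mem_image]
      have hc : colouring t g ⟨s(u, v), he⟩ = col t g u v := by
        unfold colouring
        rw [Sym2.lift_mk]
      rw [hc]
      by_cases h1 : u.val < t
      · by_cases h2 : v.val < t
        · left
          unfold col
          rw [dif_neg (by omega), dif_neg (by omega)]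
        · right
          refine ⟨(u, v), ?_, rfl⟩
          rw [Finset.mem_product, Finset.mem_filter, Finset.mem_filter]
          exact ⟨⟨hu, h1⟩, ⟨hv, h2⟩⟩
      · by_cases h2 : v.val < t
        · right
          refine ⟨(v, u), ?_, (col_symm t g v u)⟩
          rw [Finset.mem_product, Finset.mem_filter, Finset.mem_filter]
          exact ⟨⟨hv, h2⟩, ⟨hu, h1⟩⟩
        · left
          unfold col
          rw [dif_neg (by omega), dif_neg (by omega)]
  have h1 := Finset.card_le_card hsub
  have h2 := Finset.card_insert_le (0 : Fin 25) ((A ×ˢ B).image (fun p => col t g p.1 p.2))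
  have h3 : ((A ×ˢ B).image (fun p => col t g p.1 p.2)).card ≤ A.card * B.card := by
    rw [← Finset.card_product]
    exact Finset.card_image_le
  have h4 : A.card * B.card ≤ 4 := by
    have : B.card = 4 - A.card := by omega
    rw [this]
    have ha : A.card ≤ 4 := by omega
    interval_cases A.card <;> norm_num
  omega

/-- The negation of the preceding statement: For all k≥3, 3≤s≤C(k,2), r≥s: the number of r-colorings of the edges of K_n in which every k-vertex set spans fewer than s colors, divided by C(r,s-1)·(s-1)^{C(n,2)}, tends to 1 as n→∞. -/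
theorem result :
    ¬ (∀ k s r : ℕ, 3 ≤ k → 3 ≤ s → s ≤ k.choose 2 → s ≤ r →
      Tendsto
        (fun n : ℕ =>
          (Nat.card {c : {e : Sym2 (Fin n) // ¬ e.IsDiag} → Fin r //
              ∀ S : Finset (Fin n), S.card = k →
                ((Finset.univ.filter
                    (fun e : {e : Sym2 (Fin n) // ¬ e.IsDiag} => e.1 ∈ S.sym2)).image c).card < s} : ℝ)
            / ((r.choose (s - 1) : ℝ) * ((s : ℝ) - 1) ^ (n.choose 2)))
        atTop (𝓝 1)) := by
  intro hall
  have h := hall 4 6 25 (by norm_num) (by norm_num) (by decide) (by norm_num)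
  have h1 := h.eventually (gt_mem_nhds (show (1:ℝ) < 2 by norm_num))
  obtain ⟨n0, hn0⟩ := Filter.eventually_atTop.1 h1
  -- take n = 2 t with t large
  obtain ⟨t, ht⟩ : ∃ t : ℕ, t = n0 + 9 := ⟨_, rfl⟩
  have h2 := hn0 (2 * t) (by omega)
  -- the lower bound on the number of colourings
  have hcount : 25 ^ (t * t) ≤ Nat.card {c : {e : Sym2 (Fin (2 * t)) // ¬ e.IsDiag} → Fin 25 //
              ∀ S : Finset (Fin (2 * t)), S.card = 4 →
                ((Finset.univ.filter
                    (fun e : {e : Sym2 (Fin (2 * t)) // ¬ e.IsDiag} => e.1 ∈ S.sym2)).image c).card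
                      < 6} := by
    have hinj : Function.Injective (fun g : Fin t × Fin t → Fin 25 =>
        (⟨colouring t g, fun S hS => colouring_valid t g S hS⟩ :
          {c : {e : Sym2 (Fin (2 * t)) // ¬ e.IsDiag} → Fin 25 //
              ∀ S : Finset (Fin (2 * t)), S.card = 4 →
                ((Finset.univ.filter
                    (fun e : {e : Sym2 (Fin (2 * t)) // ¬ e.IsDiag} => e.1 ∈ S.sym2)).image c).card
                      < 6})) := by
      intro g g' hg
      exact colouring_inj t (congrArg Subtype.val hg)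
    have h3 := Nat.card_le_card_of_injective _ hinj
    refine le_trans (le_of_eq ?_) h3
    rw [Nat.card_eq_fintype_card]
    simp
  have hcountR : ((25 : ℝ) ^ (t * t)) ≤ ((Nat.card {c : {e : Sym2 (Fin (2 * t)) // ¬ e.IsDiag} →
      Fin 25 // ∀ S : Finset (Fin (2 * t)), S.card = 4 →
                ((Finset.univ.filter
                    (fun e : {e : Sym2 (Fin (2 * t)) // ¬ e.IsDiag} => e.1 ∈ S.sym2)).image c).card
                      < 6} : ℕ) : ℝ) := by exact_mod_cast hcount
  have hch : (2 * t).choose 2 + t = 2 * (t * t) := by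
    rw [Nat.choose_two_right]
    have : 2 * t * (2 * t - 1) = 2 * (t * (2 * t - 1)) := by ring
    rw [this, Nat.mul_div_cancel_left _ (by norm_num)]
    obtain ⟨u, rfl⟩ : ∃ u, t = u + 1 := ⟨t - 1, by omega⟩
    have : 2 * (u + 1) - 1 = 2 * u + 1 := by omega
    rw [this]
    ring
  have hpos : (0:ℝ) < ((25 : ℕ).choose (6 - 1) : ℝ) * (((6 : ℕ) : ℝ) - 1) ^ ((2 * t).choose 2) := by
    have : (0:ℝ) < ((25 : ℕ).choose (6 - 1) : ℝ) := by
      have h5 : 0 < (25 : ℕ).choose (6 - 1) := Nat.choose_pos (by norm_num)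
      exact_mod_cast h5
    have h6 : (0:ℝ) < (((6 : ℕ) : ℝ) - 1) := by norm_num
    positivity
  rw [div_lt_iff₀ hpos] at h2
  have h7 : (25 : ℝ) ^ (t * t) = 5 ^ ((2 * t).choose 2) * 5 ^ t := by
    rw [← pow_add, hch, show (25:ℝ) = 5 ^ 2 by norm_num, ← pow_mul]
  have h8 : (((6 : ℕ) : ℝ) - 1) = 5 := by norm_num
  rw [h8] at h2
  have h9 : ((25 : ℕ).choose (6 - 1) : ℝ) = 53130 := by
    have : (25 : ℕ).choose (6 - 1) = 53130 := by decide
    rw [this]
    norm_num
  rw [h9] at h2
  have h10 : (5:ℝ) ^ ((2 * t).choose 2) * 5 ^ t < 2 * (53130 * 5 ^ ((2 * t).choose 2)) := by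
    rw [← h7]
    exact lt_of_le_of_lt hcountR h2
  have h11 : (0:ℝ) < 5 ^ ((2 * t).choose 2) := by positivity
  have h12 : (5:ℝ) ^ t < 106260 := by
    nlinarith
  have h13 : (5:ℝ) ^ 9 ≤ 5 ^ t := pow_le_pow_right₀ (by norm_num) (by omega)
  norm_num at h13
  linarith

end Pool.Agent.S07114
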