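-- Proof of frozen statement S07181: pair up the vertices and apply the symmetric local lemma.
import Pool.Statements.S07181
import Pool.Agent.Helper635.LLL

set_option autoImplicit false
open Pool Pool.MP_0dd31c_co

namespace Pool.Agent.S07181

open Classical
open Pool.Agent.Helper635.LLL

/-- number of functions with prescribed values on `S` -/
lemma cnt_prescribed {T : Type} [Fintype T] (S : Finset T) (f : T → Bool) :
    cnt (fun ω : T → Bool => ∀ t ∈ S, ω t = f t) = 2 ^ (Fintype.card T - S.card) := by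
  have h1 : ev (fun ω : T → Bool => ∀ t ∈ S, ω t = f t) =
      Fintype.piFinset (fun t => if t ∈ S then ({f t} : Finset Bool) else Finset.univ) := by
    ext ω
    rw [mem_ev, Fintype.mem_piFinset]
    constructor
    · intro h t
      by_cases ht : t ∈ S
      · simp [ht, h t ht]
      · simp [ht]
    · intro h t ht
      have := h t
      simpa [ht] using this
  rw [cnt, h1, Fintype.card_piFinset]
  have h2 : ∀ t : T, (if t ∈ S then ({f t} : Finset Bool) else Finset.univ).card
      = if t ∈ S then 1 else 2 := by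
    intro t
    by_cases ht : t ∈ S
    · simp [ht]
    · simp [ht]
  rw [Finset.prod_congr rfl (fun t _ => h2 t), Finset.prod_ite, Finset.prod_const, Finset.prod_const]
  have h3 : (Finset.univ.filter (fun t : T => t ∉ S)) = Sᶜ := by
    ext t; simp
  rw [h3, Finset.card_compl]
  simp

section
variable (V : Finset ℕ)

/-- index of a vertex -/
noncomputable def idx (v : ℕ) : ℕ := if h : v ∈ V then (V.equivFin ⟨v, h⟩).val else 0

lemma idx_lt {v : ℕ} (h : v ∈ V) : idx V v < V.card := by
  rw [idx, dif_pos h]; exact (V.equivFin ⟨v, h⟩).isLt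

lemma idx_inj {v w : ℕ} (hv : v ∈ V) (hw : w ∈ V) (h : idx V v = idx V w) : v = w := by
  rw [idx, idx, dif_pos hv, dif_pos hw] at h
  have := V.equivFin.injective (Fin.ext h)
  simpa using congrArg Subtype.val this

/-- vertex of an index -/
noncomputable def vtx (i : Fin V.card) : ℕ := (V.equivFin.symm i).val

lemma vtx_mem (i : Fin V.card) : vtx V i ∈ V := (V.equivFin.symm i).property

lemma idx_vtx (i : Fin V.card) : idx V (vtx V i) = i.val := by
  rw [idx, dif_pos (vtx_mem V i)]
  simp [vtx]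

/-- the red set of an outcome -/
noncomputable def R (ω : Fin (V.card / 2) → Bool) : Finset ℕ :=
  V.filter (fun v => ∃ h : idx V v / 2 < V.card / 2, ω ⟨idx V v / 2, h⟩ = decide (idx V v % 2 = 0))

lemma pick_lt (ω : Fin (V.card / 2) → Bool) (t : Fin (V.card / 2)) :
    2 * t.val + (if ω t then 0 else 1) < V.card := by
  have := t.isLt
  split_ifs <;> omega

/-- the red vertex of a pair -/
noncomputable def pick (ω : Fin (V.card / 2) → Bool) (t : Fin (V.card / 2)) : ℕ :=
  vtx V ⟨2 * t.val + (if ω t then 0 else 1), pick_lt V ω t⟩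

lemma idx_pick (ω : Fin (V.card / 2) → Bool) (t : Fin (V.card / 2)) :
    idx V (pick V ω t) = 2 * t.val + (if ω t then 0 else 1) := by
  rw [pick, idx_vtx]

lemma pick_inj (ω : Fin (V.card / 2) → Bool) : Function.Injective (pick V ω) := by
  intro s t h
  have h1 := congrArg (idx V) h
  rw [idx_pick, idx_pick] at h1
  apply Fin.ext
  split_ifs at h1 <;> omega

lemma R_eq (ω : Fin (V.card / 2) → Bool) : R V ω = Finset.univ.image (pick V ω) := by
  ext v
  rw [R, Finset.mem_filter, Finset.mem_image]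
  constructor
  · rintro ⟨hv, h, hω⟩
    refine ⟨⟨idx V v / 2, h⟩, Finset.mem_univ _, ?_⟩
    apply idx_inj V (vtx_mem V _) hv
    rw [idx_vtx]
    show 2 * (idx V v / 2) + (if ω ⟨idx V v / 2, h⟩ then 0 else 1) = idx V v
    rw [hω]
    by_cases h0 : idx V v % 2 = 0
    · simp [h0]; omega
    · simp [h0]; omega
  · rintro ⟨t, -, rfl⟩
    have hi := idx_pick V ω t
    refine ⟨vtx_mem V _, ?_, ?_⟩
    · rw [hi]
      have := t.isLt
      split_ifs <;> omega
    · have ht : (⟨idx V (pick V ω t) / 2, by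
          rw [hi]
          have := t.isLt
          split_ifs <;> omega⟩ : Fin (V.card / 2)) = t := by
        apply Fin.ext
        show idx V (pick V ω t) / 2 = t.val
        rw [hi]; split_ifs <;> omega
      rw [ht, hi]
      by_cases h0 : ω t = true
      · simp [h0]
      · have h1 : ω t = false := by simpa using h0
        simp [h1]

lemma card_R (ω : Fin (V.card / 2) → Bool) : (R V ω).card = V.card / 2 := by
  rw [R_eq, Finset.card_image_of_injective _ (pick_inj V ω)]
  simp

/-- pairs met by an edge -/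
noncomputable def S (A : Finset ℕ) : Finset (Fin (V.card / 2)) :=
  Finset.univ.filter (fun t => ∃ v ∈ A, idx V v / 2 = t.val)

/-- bad event -/
def Bad (A : Finset ℕ) (ω : Fin (V.card / 2) → Bool) : Prop :=
  ¬ ((A ∩ R V ω).Nonempty ∧ ¬ A ⊆ R V ω)

lemma mem_R_iff {ω : Fin (V.card / 2) → Bool} {v : ℕ} (hv : v ∈ V) :
    v ∈ R V ω ↔ ∃ h : idx V v / 2 < V.card / 2, ω ⟨idx V v / 2, h⟩ = decide (idx V v % 2 = 0) := by
  rw [R, Finset.mem_filter]
  exact ⟨fun h => h.2, fun h => ⟨hv, h⟩⟩

lemma dep (A : Finset ℕ) : Helper635.LLL.DependsOn (Bad V A) (S V A) := by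
  intro ω ω' hag hbad
  have key : ∀ v ∈ A, (v ∈ R V ω ↔ v ∈ R V ω') := by
    intro v hv
    rw [R, R, Finset.mem_filter, Finset.mem_filter]
    constructor
    · rintro ⟨h1, h2, h3⟩
      refine ⟨h1, h2, ?_⟩
      rw [← hag]
      · exact h3
      · rw [S, Finset.mem_filter]
        exact ⟨Finset.mem_univ _, v, hv, rfl⟩
    · rintro ⟨h1, h2, h3⟩
      refine ⟨h1, h2, ?_⟩
      rw [hag]
      · exact h3
      · rw [S, Finset.mem_filter]
        exact ⟨Finset.mem_univ _, v, hv, rfl⟩
  have e1 : A ∩ R V ω = A ∩ R V ω' := by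
    ext v
    rw [Finset.mem_inter, Finset.mem_inter]
    constructor
    · rintro ⟨h1, h2⟩; exact ⟨h1, (key v h1).mp h2⟩
    · rintro ⟨h1, h2⟩; exact ⟨h1, (key v h1).mpr h2⟩
  have e2 : A ⊆ R V ω ↔ A ⊆ R V ω' := by
    constructor
    · intro h v hv; exact (key v hv).mp (h hv)
    · intro h v hv; exact (key v hv).mpr (h hv)
  rw [Bad] at hbad ⊢
  rw [← e1, ← e2]
  exact hbad

/-- if some pair lies inside `A`, the bad event is impossible; otherwise it meets many pairs -/
lemma dichotomy (A : Finset ℕ) (hA : A ⊆ V) (n : ℕ) (hn : A.card = n) :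
    (∀ ω, ¬ Bad V A ω) ∨ n - 1 ≤ (S V A).card := by
  by_cases hinj : Set.InjOn (fun v => idx V v / 2) (A : Set ℕ)
  · right
    have h1 : (A.image (fun v => idx V v / 2)).card = n := by
      rw [Finset.card_image_of_injOn hinj, hn]
    have h2 : A.image (fun v => idx V v / 2) ⊆
        insert (V.card / 2) ((S V A).image (fun t => t.val)) := by
      intro x hx
      rw [Finset.mem_image] at hx
      obtain ⟨v, hv, rfl⟩ := hx
      have hlt := idx_lt V (hA hv)
      rw [Finset.mem_insert]
      by_cases h : idx V v / 2 < V.card / 2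
      · right
        rw [Finset.mem_image]
        refine ⟨⟨idx V v / 2, h⟩, ?_, rfl⟩
        rw [S, Finset.mem_filter]
        exact ⟨Finset.mem_univ _, v, hv, rfl⟩
      · left
        show idx V v / 2 = V.card / 2
        omega
    have h3 := Finset.card_le_card h2
    have h4 := Finset.card_insert_le (V.card / 2) ((S V A).image (fun t => t.val))
    have h5 : ((S V A).image (fun t => t.val)).card ≤ (S V A).card := Finset.card_image_le
    omega
  · left
    rw [Set.InjOn] at hinj
    push Not at hinj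
    obtain ⟨v, hv, w, hw, heq0, hne⟩ := hinj
    have heq : idx V v / 2 = idx V w / 2 := heq0
    have hv' : v ∈ A := hv
    have hw' : w ∈ A := hw
    have hidx : idx V v ≠ idx V w := fun h => hne (idx_inj V (hA hv') (hA hw') h)
    have hlv := idx_lt V (hA hv')
    have hlw := idx_lt V (hA hw')
    intro ω hbad
    apply hbad
    have hlt : idx V v / 2 < V.card / 2 := by omega
    have hlt' : idx V w / 2 < V.card / 2 := by omega
    have hmv := mem_R_iff V (ω := ω) (hA hv')
    have hmw := mem_R_iff V (ω := ω) (hA hw')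
    have hvv : v ∈ R V ω ↔ ω ⟨idx V v / 2, hlt⟩ = decide (idx V v % 2 = 0) := by
      rw [hmv]; exact ⟨fun ⟨_, h⟩ => h, fun h => ⟨hlt, h⟩⟩
    have hww : w ∈ R V ω ↔ ω ⟨idx V v / 2, hlt⟩ = decide (idx V w % 2 = 0) := by
      rw [hmw]
      have : (⟨idx V w / 2, hlt'⟩ : Fin (V.card / 2)) = ⟨idx V v / 2, hlt⟩ := Fin.ext heq.symm
      constructor
      · rintro ⟨_, h⟩; rw [← this]; exact h
      · intro h; exact ⟨hlt', by rw [this]; exact h⟩
    have hpar : decide (idx V w % 2 = 0) = !decide (idx V v % 2 = 0) := by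
      by_cases h0 : idx V v % 2 = 0
      · have : ¬ idx V w % 2 = 0 := by omega
        simp [h0, this]
      · have : idx V w % 2 = 0 := by omega
        simp [h0, this]
    rw [hpar] at hww
    by_cases hr : v ∈ R V ω
    · refine ⟨⟨v, Finset.mem_inter.mpr ⟨hv', hr⟩⟩, fun hsub => ?_⟩
      have h1 := hvv.mp hr
      have h2 := hww.mp (hsub hw')
      rw [h1] at h2
      cases h3 : decide (idx V v % 2 = 0) <;> simp [h3] at h2
    · have h1 : ω ⟨idx V v / 2, hlt⟩ ≠ decide (idx V v % 2 = 0) := fun h => hr (hvv.mpr h)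
      have h2 : w ∈ R V ω := by
        rw [hww]
        cases h3 : decide (idx V v % 2 = 0) <;> cases h4 : ω ⟨idx V v / 2, hlt⟩ <;> simp_all
      exact ⟨⟨w, Finset.mem_inter.mpr ⟨hw', h2⟩⟩, fun hsub => hr (hsub hv')⟩

/-- counting the bad event -/
lemma count_bad (A : Finset ℕ) (hA : A ⊆ V) (n : ℕ) (hn : A.card = n) :
    (cnt (Bad V A) : ℝ) ≤ (4 / 2 ^ n) * 2 ^ (V.card / 2) := by
  rcases dichotomy V A hA n hn with h | h
  · have : cnt (Bad V A) = 0 := by
      rw [cnt, Finset.card_eq_zero]
      ext ω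
      rw [mem_ev]
      simp [h ω]
    rw [this]
    have : (0 : ℝ) ≤ 4 / 2 ^ n * 2 ^ (V.card / 2) := by positivity
    simpa using this
  · -- choose a vertex of each pair met
    have hch : ∀ t : Fin (V.card / 2), ∃ v : ℕ, t ∈ S V A → (v ∈ A ∧ idx V v / 2 = t.val) := by
      intro t
      by_cases ht : t ∈ S V A
      · have ht' := ht
        rw [S, Finset.mem_filter] at ht'
        obtain ⟨-, v, hv, he⟩ := ht'
        exact ⟨v, fun _ => ⟨hv, he⟩⟩
      · exact ⟨0, fun h => absurd h ht⟩
    choose f hf using hch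
    set g : Fin (V.card / 2) → Bool := fun t => decide (idx V (f t) % 2 = 0) with hg
    have hsub : ev (Bad V A) ⊆ ev (fun ω => ∀ t ∈ S V A, ω t = g t) ∪
        ev (fun ω => ∀ t ∈ S V A, ω t = (fun t => ! g t) t) := by
      intro ω hω
      rw [mem_ev] at hω
      rw [Finset.mem_union, mem_ev, mem_ev]
      have hR : ∀ t ∈ S V A, (f t ∈ R V ω ↔ ω t = g t) := by
        intro t ht
        obtain ⟨h1, h2⟩ := hf t ht
        rw [mem_R_iff V (hA h1)]
        have hlt : idx V (f t) / 2 < V.card / 2 := by rw [h2]; exact t.isLt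
        have he : (⟨idx V (f t) / 2, hlt⟩ : Fin (V.card / 2)) = t := Fin.ext h2
        constructor
        · rintro ⟨_, h⟩; rw [he] at h; exact h
        · intro h; exact ⟨hlt, by rw [he]; exact h⟩
      rw [Bad, not_and_or, not_not] at hω
      rcases hω with hω | hω
      · right
        intro t ht
        have h1 : f t ∉ R V ω := fun h => hω ⟨f t, Finset.mem_inter.mpr ⟨(hf t ht).1, h⟩⟩
        rw [hR t ht] at h1
        show ω t = ! g t
        cases h3 : ω t <;> cases h4 : g t <;> simp_all
      · left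
        intro t ht
        exact (hR t ht).mp (hω (hf t ht).1)
    have hle : cnt (Bad V A) ≤ 2 ^ (V.card / 2 - (S V A).card) + 2 ^ (V.card / 2 - (S V A).card) := by
      refine (Finset.card_le_card hsub).trans ((Finset.card_union_le _ _).trans ?_)
      have e1 := cnt_prescribed (S V A) g
      have e2 := cnt_prescribed (S V A) (fun t => ! g t)
      rw [cnt, Fintype.card_fin] at e1 e2
      rw [e1, e2]
    have hS : (S V A).card ≤ V.card / 2 := by
      have := Finset.card_le_univ (S V A)
      simpa using this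
    have h1 : (cnt (Bad V A) : ℝ) ≤ 2 * 2 ^ (V.card / 2 - (S V A).card) := by
      have : cnt (Bad V A) ≤ 2 * 2 ^ (V.card / 2 - (S V A).card) := by omega
      exact_mod_cast this
    refine h1.trans ?_
    rw [div_mul_eq_mul_div, le_div_iff₀ (by positivity)]
    have h2 : (2 : ℝ) * 2 ^ (V.card / 2 - (S V A).card) * 2 ^ n
        ≤ 4 * 2 ^ (V.card / 2) := by
      have h3 : (2 : ℕ) * 2 ^ (V.card / 2 - (S V A).card) * 2 ^ n ≤ 4 * 2 ^ (V.card / 2) := by
        have : (2 : ℕ) * 2 ^ (V.card / 2 - (S V A).card) * 2 ^ n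
            = 2 ^ (1 + (V.card / 2 - (S V A).card) + n) := by
          rw [pow_add, pow_add, pow_one]
        rw [this]
        have h4 : (4 : ℕ) * 2 ^ (V.card / 2) = 2 ^ (2 + V.card / 2) := by
          rw [pow_add]; norm_num
        rw [h4]
        apply Nat.pow_le_pow_right (by norm_num)
        omega
      exact_mod_cast h3
    exact h2

end

/-- number of edges meeting the pairs of an edge -/
lemma deg_bound (F : Finset (Finset ℕ)) (V : Finset ℕ) (hV : ∀ A ∈ F, A ⊆ V) (n : ℕ) (M : ℝ)
    (hM0 : 0 ≤ M)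
    (hM : ∀ v : ℕ, ((F.filter (fun A => v ∈ A)).card : ℝ) ≤ M) (A : Finset ℕ) (hA : A.card = n) :
    ((F.filter (fun B => ¬ Disjoint (S V A) (S V B))).card : ℝ) ≤ 2 * n * M := by
  -- vertices in the pairs of `A`
  set W : Finset ℕ := V.filter (fun v => ∃ u ∈ A, idx V u / 2 = idx V v / 2) with hW
  have hWcard : W.card ≤ 2 * n := by
    have h1 : (W.image (idx V)) ⊆ (A.image (fun u => 2 * (idx V u / 2))) ∪
        (A.image (fun u => 2 * (idx V u / 2) + 1)) := by
      intro x hx
      rw [Finset.mem_image] at hx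
      obtain ⟨v, hv, rfl⟩ := hx
      rw [hW, Finset.mem_filter] at hv
      obtain ⟨-, u, hu, he⟩ := hv
      rw [Finset.mem_union, Finset.mem_image, Finset.mem_image]
      rcases Nat.mod_two_eq_zero_or_one (idx V v) with h | h
      · left; exact ⟨u, hu, by omega⟩
      · right; exact ⟨u, hu, by omega⟩
    have h2 : (W.image (idx V)).card = W.card := by
      apply Finset.card_image_of_injOn
      intro v hv w hw h
      have hv' : v ∈ W := hv
      have hw' : w ∈ W := hw
      rw [hW, Finset.mem_filter] at hv' hw'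
      exact idx_inj V hv'.1 hw'.1 h
    rw [← h2]
    refine (Finset.card_le_card h1).trans ((Finset.card_union_le _ _).trans ?_)
    have h3 : (A.image (fun u => 2 * (idx V u / 2))).card ≤ n := by
      rw [← hA]; exact Finset.card_image_le
    have h4 : (A.image (fun u => 2 * (idx V u / 2) + 1)).card ≤ n := by
      rw [← hA]; exact Finset.card_image_le
    omega
  have hsub : F.filter (fun B => ¬ Disjoint (S V A) (S V B)) ⊆
      W.biUnion (fun v => F.filter (fun B => v ∈ B)) := by
    intro B hB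
    rw [Finset.mem_filter] at hB
    obtain ⟨hBF, hB⟩ := hB
    rw [Finset.not_disjoint_iff] at hB
    obtain ⟨t, htA, htB⟩ := hB
    rw [S, Finset.mem_filter] at htA htB
    obtain ⟨-, u, hu, hut⟩ := htA
    obtain ⟨-, v, hv, hvt⟩ := htB
    rw [Finset.mem_biUnion]
    refine ⟨v, ?_, ?_⟩
    · rw [hW, Finset.mem_filter]
      exact ⟨hV B hBF hv, u, hu, by rw [hut, hvt]⟩
    · rw [Finset.mem_filter]; exact ⟨hBF, hv⟩
  have h1 : ((F.filter (fun B => ¬ Disjoint (S V A) (S V B))).card : ℝ) ≤
      ∑ v ∈ W, ((F.filter (fun B => v ∈ B)).card : ℝ) := by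
    have := (Finset.card_le_card hsub).trans Finset.card_biUnion_le
    exact_mod_cast this
  refine h1.trans ?_
  have h2 : ∑ v ∈ W, ((F.filter (fun B => v ∈ B)).card : ℝ) ≤ ∑ _v ∈ W, M :=
    Finset.sum_le_sum (fun v _ => hM v)
  refine h2.trans ?_
  rw [Finset.sum_const, nsmul_eq_mul]
  have h3 : (W.card : ℝ) ≤ 2 * n := by exact_mod_cast hWcard
  exact mul_le_mul_of_nonneg_right h3 hM0

lemma card_any (k : ℕ) (i : Fintype (Fin k → Bool)) : @Fintype.card _ i = 2 ^ k := by
  rw [← @Nat.card_eq_fintype_card _ i, Nat.card_fun, Nat.card_eq_fintype_card,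
    Nat.card_eq_fintype_card, Fintype.card_fin, Fintype.card_bool]

lemma numeric (c : ℝ) (h1 : 1 < c) (h2 : c < 2) : ∃ n₀ : ℕ, ∀ n : ℕ, n₀ ≤ n →
    4 * (4 / 2 ^ n) * (2 * n * c ^ n + 1) ≤ (1 : ℝ) := by
  have t1 : Filter.Tendsto (fun n : ℕ => 32 * ((n : ℝ) * (c / 2) ^ n)) Filter.atTop (nhds (32 * 0)) := by
    apply Filter.Tendsto.const_mul
    apply tendsto_self_mul_const_pow_of_lt_one
    · positivity
    · linarith
  have t2 : Filter.Tendsto (fun n : ℕ => 16 * ((1 / 2 : ℝ) ^ n)) Filter.atTop (nhds (16 * 0)) := by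
    apply Filter.Tendsto.const_mul
    apply tendsto_pow_atTop_nhds_zero_of_lt_one <;> norm_num
  have t3 := t1.add t2
  simp only [mul_zero, add_zero] at t3
  have t4 := t3.eventually (gt_mem_nhds (show (0 : ℝ) < 1 by norm_num))
  rw [Filter.eventually_atTop] at t4
  obtain ⟨n₀, hn₀⟩ := t4
  refine ⟨n₀, fun n hn => ?_⟩
  have := hn₀ n hn
  have e : 4 * (4 / 2 ^ n) * (2 * n * c ^ n + 1) =
      32 * ((n : ℝ) * (c / 2) ^ n) + 16 * ((1 / 2 : ℝ) ^ n) := by
    rw [div_pow, div_pow]
    field_simp
    ring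
  rw [e]
  exact this.le

/-- For every c in (1,2) there is n0 such that for n ≥ n0 every n-uniform finite hypergraph with all degrees at most c^n has a red set of exactly half (floor) of its vertices such that no edge is all red or all blue. -/
theorem result :
    ∀ c : ℝ, 1 < c → c < 2 →
      ∃ n₀ : ℕ, ∀ n : ℕ, n₀ ≤ n →
        ∀ F : Finset (Finset ℕ),
          (∀ A ∈ F, A.card = n) →
          (∀ v : ℕ, ((F.filter (fun A => v ∈ A)).card : ℝ) ≤ c ^ n) →
          ∃ R : Finset ℕ, R ⊆ F.biUnion id ∧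
            R.card = (F.biUnion id).card / 2 ∧
            ∀ A ∈ F, (A ∩ R).Nonempty ∧ ¬ A ⊆ R := by
  intro c hc1 hc2
  obtain ⟨n₀, hn₀⟩ := numeric c hc1 hc2
  refine ⟨n₀, fun n hn F hF hdeg => ?_⟩
  set V := F.biUnion id with hVdef
  have hV : ∀ A ∈ F, A ⊆ V := by
    intro A hA v hv
    rw [hVdef, Finset.mem_biUnion]
    exact ⟨A, hA, hv⟩
  have hcn : (0 : ℝ) ≤ c ^ n := by positivity
  set d : ℕ := ⌊2 * n * c ^ n⌋₊ + 1 with hd
  have hdeg' : ∀ v : ℕ, ((F.filter (fun A => v ∈ A)).card : ℝ) ≤ c ^ n := by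
    intro v
    have := hdeg v
    convert this
  obtain ⟨ω, hω⟩ := lll (T := Fin (V.card / 2)) (C := Bool) F (fun A => Bad V A) (S V)
    (fun A _ => dep V A) (4 / 2 ^ n) d (by positivity)
    (fun A hA => by
      rw [card_any]
      push_cast
      exact count_bad V A (hV A hA) n (hF A hA))
    (by
      intro A hA
      have h := deg_bound F V hV n (c ^ n) hcn hdeg' A (hF A hA)
      have h2 : (F.filter (fun B => ¬ Disjoint (S V A) (S V B))).card ≤ ⌊2 * n * c ^ n⌋₊ :=
        Nat.le_floor h
      rw [hd]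
      refine le_trans (le_of_eq ?_) (h2.trans (Nat.le_succ _))
      congr)
    (by
      have h := hn₀ n hn
      have h2 : (d : ℝ) ≤ 2 * n * c ^ n + 1 := by
        rw [hd]; push_cast
        have := Nat.floor_le (show (0 : ℝ) ≤ 2 * n * c ^ n by positivity)
        linarith
      refine le_trans ?_ h
      apply mul_le_mul_of_nonneg_left h2
      positivity)
    (by rw [hd]; omega) (by rw [card_any]; positivity)
  refine ⟨R V ω, Finset.filter_subset _ _, card_R V ω, ?_⟩
  intro A hA
  have := hω A hA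
  rw [Bad, not_not] at this
  exact this

end Pool.Agent.S07181
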