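import Pool.Statements.S07316
import Pool.Agent.V11142.StepUp

set_option autoImplicit false
open Pool Pool.MP_150b74_co

namespace Pool.Agent.S07316

open Finset Pool.Agent.V11142.StepUp

/-- The colouring of all sets; only the quadruples matter. -/
noncomputable def col {n : ℕ} (e : Finset (Fin n)) : Fin 4 :=
  if h : e.card = 4 then
    c4 (e.orderEmbOfFin h 0) (e.orderEmbOfFin h 1) (e.orderEmbOfFin h 2) (e.orderEmbOfFin h 3)
  else 0

theorem col_eq {n : ℕ} {x y z t : Fin n} (hxy : x < y) (hyz : y < z) (hzt : z < t) :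
    col {x, y, z, t} = c4 x y z t := by
  have hcard : ({x, y, z, t} : Finset (Fin n)).card = 4 := by
    have h1 : x ∉ ({y, z, t} : Finset (Fin n)) := by
      simp only [mem_insert, mem_singleton, not_or]
      exact ⟨hxy.ne, (hxy.trans hyz).ne, ((hxy.trans hyz).trans hzt).ne⟩
    have h2 : y ∉ ({z, t} : Finset (Fin n)) := by
      simp only [mem_insert, mem_singleton, not_or]
      exact ⟨hyz.ne, (hyz.trans hzt).ne⟩
    have h3 : z ∉ ({t} : Finset (Fin n)) := by
      simp only [mem_singleton]
      exact hzt.ne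
    rw [card_insert_of_notMem h1, card_insert_of_notMem h2, card_insert_of_notMem h3,
      card_singleton]
  have hf : (![x, y, z, t] : Fin 4 → Fin n) =
      ({x, y, z, t} : Finset (Fin n)).orderEmbOfFin hcard := by
    apply orderEmbOfFin_unique
    · intro i
      fin_cases i <;> simp
    · rw [Fin.strictMono_iff_lt_succ]
      intro i
      fin_cases i
      · exact hxy
      · exact hyz
      · exact hzt
  unfold col
  rw [dif_pos hcard, ← hf]
  rfl

/-- In a clique all quadruples have the same colour. -/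
theorem clique {n : ℕ} {S : Finset (Fin n)} {j : Fin 4}
    (h : ∀ v ∈ S, (((S.card - 1).choose (4 - 1) : ℕ) : ℝ) ≤
      (((S.powersetCard 4).filter (fun e => v ∈ e ∧ col e = j)).card : ℝ)) :
    ∀ e ∈ S.powersetCard 4, col e = j := by
  classical
  intro e he
  have he' := mem_powersetCard.1 he
  obtain ⟨v, hv⟩ : e.Nonempty := card_pos.1 (by omega)
  have h1 := h v (he'.1 hv)
  norm_cast at h1
  have h2 : (S.powersetCard 4).filter (fun e => v ∈ e ∧ col e = j) ⊆
      (S.powersetCard 4).filter (fun e => v ∈ e) := by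
    intro f hf
    rw [mem_filter] at hf ⊢
    exact ⟨hf.1, hf.2.1⟩
  have h3 : ((S.powersetCard 4).filter (fun e => v ∈ e)).card ≤ (S.card - 1).choose (4 - 1) := by
    have h4 : ((S.erase v).powersetCard 3).card = (S.card - 1).choose 3 := by
      rw [card_powersetCard, card_erase_of_mem (he'.1 hv)]
    rw [show (4 - 1 : ℕ) = 3 from rfl, ← h4]
    refine card_le_card_of_injOn (fun f => f.erase v) ?_ ?_
    · intro f hf
      rw [mem_coe, mem_filter, mem_powersetCard] at hf
      rw [mem_coe, mem_powersetCard]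
      refine ⟨erase_subset_erase _ hf.1.1, ?_⟩
      rw [card_erase_of_mem hf.2, hf.1.2]
    · intro f hf g hg hfg
      rw [mem_coe, mem_filter] at hf hg
      have := congrArg (insert v) hfg
      simpa [insert_erase hf.2, insert_erase hg.2] using this
  have h5 := eq_of_subset_of_card_le h2 (h3.trans h1)
  have h6 : e ∈ (S.powersetCard 4).filter (fun e => v ∈ e ∧ col e = j) := by
    rw [h5, mem_filter]
    exact ⟨he, hv⟩
  exact (mem_filter.1 h6).2.2

/-- The sorted elements of a set. -/
theorem exists_seq {n : ℕ} (S : Finset (Fin n)) (hS : 1 ≤ S.card) :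
    ∃ s : ℕ → Fin n, (∀ i, i + 1 < S.card → s i < s (i + 1)) ∧ ∀ i, s i ∈ S := by
  classical
  obtain ⟨m, hm⟩ : ∃ m, S.card = m + 1 := ⟨S.card - 1, by omega⟩
  refine ⟨fun i => S.orderEmbOfFin hm ⟨min i m, by omega⟩, ?_, ?_⟩
  · intro i hi
    apply (S.orderEmbOfFin hm).strictMono
    rw [Fin.lt_def]
    show min i m < min (i + 1) m
    omega
  · intro i
    exact orderEmbOfFin_mem _ _ _

theorem quad_mem {n : ℕ} {S : Finset (Fin n)} {x y z t : Fin n} (hxy : x < y) (hyz : y < z)
    (hzt : z < t) (hx : x ∈ S) (hy : y ∈ S) (hz : z ∈ S) (ht : t ∈ S) :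
    ({x, y, z, t} : Finset (Fin n)) ∈ S.powersetCard 4 := by
  rw [mem_powersetCard]
  refine ⟨?_, ?_⟩
  · intro a ha
    simp only [mem_insert, mem_singleton] at ha
    rcases ha with rfl | rfl | rfl | rfl <;> assumption
  · have h1 : x ∉ ({y, z, t} : Finset (Fin n)) := by
      simp only [mem_insert, mem_singleton, not_or]
      exact ⟨hxy.ne, (hxy.trans hyz).ne, ((hxy.trans hyz).trans hzt).ne⟩
    have h2 : y ∉ ({z, t} : Finset (Fin n)) := by
      simp only [mem_insert, mem_singleton, not_or]
      exact ⟨hyz.ne, (hyz.trans hzt).ne⟩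
    have h3 : z ∉ ({t} : Finset (Fin n)) := by
      simp only [mem_singleton]
      exact hzt.ne
    rw [card_insert_of_notMem h1, card_insert_of_notMem h2, card_insert_of_notMem h3,
      card_singleton]

/-- Every five-set contains a quadruple whose colour is not `3`. -/
theorem exists_ne_three {n : ℕ} {T : Finset (Fin n)} (hT : T.card = 5) :
    ∃ e ∈ T.powersetCard 4, col e ≠ 3 := by
  obtain ⟨s, hs, hm⟩ := exists_seq T (by omega)
  by_contra hcon
  push Not at hcon
  have h0 := hs 0 (by omega)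
  have h1 := hs 1 (by omega)
  have h2 := hs 2 (by omega)
  have h3 := hs 3 (by omega)
  have e1 := hcon _ (quad_mem h0 h1 h2 (hm 0) (hm 1) (hm 2) (hm 3))
  have e2 := hcon _ (quad_mem h1 h2 h3 (hm 1) (hm 2) (hm 3) (hm 4))
  rw [col_eq h0 h1 h2] at e1
  rw [col_eq h1 h2 h3] at e2
  exact three_three e1 e2

/-- At least a fifth of the quadruples of a set do not have colour `3`. -/
theorem many_ne_three {n : ℕ} (S : Finset (Fin n)) (hS : 5 ≤ S.card) :
    S.card.choose 4 ≤ 5 * ((S.powersetCard 4).filter (fun e => col e ≠ 3)).card := by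
  classical
  have hex : ∀ T : Finset (Fin n), ∃ e : Finset (Fin n), T ∈ S.powersetCard 5 →
      e ∈ T.powersetCard 4 ∧ col e ≠ 3 := by
    intro T
    by_cases hT : T ∈ S.powersetCard 5
    · obtain ⟨e, he, he'⟩ := exists_ne_three (mem_powersetCard.1 hT).2
      exact ⟨e, fun _ => ⟨he, he'⟩⟩
    · exact ⟨∅, fun h => absurd h hT⟩
  choose f hf using hex
  have h1 := card_le_mul_card_image_of_maps_to (s := S.powersetCard 5)
    (t := (S.powersetCard 4).filter (fun e => col e ≠ 3)) (f := f) (by
      intro T hT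
      have h := hf T hT
      have hT' := mem_powersetCard.1 hT
      have h' := mem_powersetCard.1 h.1
      rw [mem_filter, mem_powersetCard]
      exact ⟨⟨h'.1.trans hT'.1, h'.2⟩, h.2⟩) (S.card - 4) (by
      intro e he
      rw [mem_filter, mem_powersetCard] at he
      have h2 : ((S \ e).powersetCard 1).card = S.card - 4 := by
        rw [card_powersetCard, card_sdiff_of_subset he.1.1, he.1.2, Nat.choose_one_right]
      rw [← h2]
      refine card_le_card_of_injOn (fun T => T \ e) ?_ ?_
      · intro T hT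
        rw [mem_coe, mem_filter] at hT
        obtain ⟨hT1, hT2⟩ := hT
        have h3 := (hf T hT1).1
        rw [hT2, mem_powersetCard] at h3
        have hT' := mem_powersetCard.1 hT1
        rw [mem_coe, mem_powersetCard]
        refine ⟨sdiff_subset_sdiff hT'.1 (Subset.refl _), ?_⟩
        rw [card_sdiff_of_subset h3.1, hT'.2, h3.2]
      · intro T hT U hU hTU
        rw [mem_coe, mem_filter] at hT hU
        have h3 := (hf T hT.1).1
        rw [hT.2, mem_powersetCard] at h3
        have h4 := (hf U hU.1).1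
        rw [hU.2, mem_powersetCard] at h4
        have h5 : T \ e = U \ e := hTU
        rw [← sdiff_union_of_subset h3.1, ← sdiff_union_of_subset h4.1, h5])
  rw [card_powersetCard] at h1
  have h2 : S.card.choose 5 * 5 = S.card.choose 4 * (S.card - 4) := by
    have := Nat.choose_succ_right_eq S.card 4
    omega
  have h3 : 0 < S.card - 4 := by omega
  have h4 : S.card.choose 4 * (S.card - 4) ≤
      (5 * ((S.powersetCard 4).filter (fun e => col e ≠ 3)).card) * (S.card - 4) := by
    rw [← h2]
    nlinarith [h1]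
  exact Nat.le_of_mul_le_mul_right h4 h3

/-- The sum of the degrees in colour `3`. -/
theorem sum_deg {n : ℕ} (S : Finset (Fin n)) :
    ∑ v ∈ S, ((S.powersetCard 4).filter (fun e => v ∈ e ∧ col e = 3)).card =
      4 * ((S.powersetCard 4).filter (fun e => col e = 3)).card := by
  classical
  have h := sum_card_bipartiteAbove_eq_sum_card_bipartiteBelow (s := S)
    (t := (S.powersetCard 4).filter (fun e => col e = 3)) (r := fun v e => v ∈ e)
  have h1 : ∀ v ∈ S, (bipartiteAbove (fun v e => v ∈ e)
      ((S.powersetCard 4).filter (fun e => col e = 3)) v) =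
      (S.powersetCard 4).filter (fun e => v ∈ e ∧ col e = 3) := by
    intro v _
    ext e
    simp only [bipartiteAbove, mem_filter]
    tauto
  have h2 : ∀ e ∈ (S.powersetCard 4).filter (fun e => col e = 3),
      (bipartiteBelow (fun v e => v ∈ e) S e).card = 4 := by
    intro e he
    rw [mem_filter, mem_powersetCard] at he
    have : bipartiteBelow (fun v e => v ∈ e) S e = e := by
      ext v
      simp only [bipartiteBelow, mem_filter]
      exact ⟨fun h => h.2, fun h => ⟨he.1.1 h, h⟩⟩
    rw [this, he.1.2]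
  rw [sum_congr rfl h2] at h
  rw [sum_congr rfl (fun v hv => congrArg card (h1 v hv))] at h
  rw [h, sum_const, smul_eq_mul, mul_comm]

/-- The colouring has no large set of the required kind. -/
theorem main {M n : ℕ} (hM : 3 ≤ M) (hn : n ≤ 2 ^ (2 ^ M)) (S : Finset (Fin n))
    (hS : M + 3 ≤ S.card) (j : Fin 4) :
    ¬ ∀ v ∈ S, (![1, 1, 1, 17 / 20] : Fin 4 → ℝ) j * (((S.card - 1).choose (4 - 1) : ℕ) : ℝ) ≤
      (((S.powersetCard 4).filter (fun e => v ∈ e ∧ col e = j)).card : ℝ) := by
  classical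
  intro h
  obtain ⟨s, hs, hm⟩ := exists_seq S (by omega)
  have hquad : ∀ i, i + 3 < S.card →
      ({s i, s (i + 1), s (i + 2), s (i + 3)} : Finset (Fin n)) ∈ S.powersetCard 4 ∧
      col {s i, s (i + 1), s (i + 2), s (i + 3)} =
        c4 (s i) (s (i + 1)) (s (i + 2)) (s (i + 3)) := by
    intro i hi
    have h0 := hs i (by omega)
    have h1 := hs (i + 1) (by omega)
    have h2 := hs (i + 2) (by omega)
    exact ⟨quad_mem h0 h1 h2 (hm _) (hm _) (hm _) (hm _), col_eq h0 h1 h2⟩
  by_cases hj : j = 3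
  · subst hj
    have h1 : ∀ v ∈ S, (17 / 20 : ℝ) * (((S.card - 1).choose 3 : ℕ) : ℝ) ≤
        (((S.powersetCard 4).filter (fun e => v ∈ e ∧ col e = 3)).card : ℝ) := by
      intro v hv
      have := h v hv
      simpa using this
    have h2 := sum_le_sum h1
    rw [sum_const, nsmul_eq_mul] at h2
    have h3 := sum_deg S
    have h4 := many_ne_three S (by omega)
    have h5 : ((S.powersetCard 4).filter (fun e => col e = 3)).card +
        ((S.powersetCard 4).filter (fun e => col e ≠ 3)).card = S.card.choose 4 := by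
      rw [card_filter_add_card_filter_not, card_powersetCard]
    have h6 : S.card * (S.card - 1).choose 3 = 4 * S.card.choose 4 := by
      obtain ⟨m, hm'⟩ : ∃ m, S.card = m + 1 := ⟨S.card - 1, by omega⟩
      have h8 : (m + 1) * m.choose 3 = (m + 1).choose 4 * 4 := Nat.add_one_mul_choose_eq m 3
      rw [hm']
      simp only [Nat.add_sub_cancel]
      omega
    have h7 : 0 < S.card.choose 4 := Nat.choose_pos (by omega)
    have h3' : (∑ v ∈ S, (((S.powersetCard 4).filter
        (fun e => v ∈ e ∧ col e = 3)).card : ℝ)) =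
        4 * (((S.powersetCard 4).filter (fun e => col e = 3)).card : ℝ) := by
      exact_mod_cast h3
    have h4' : ((S.card.choose 4 : ℕ) : ℝ) ≤
        5 * (((S.powersetCard 4).filter (fun e => col e ≠ 3)).card : ℝ) := by
      exact_mod_cast h4
    have h5' : (((S.powersetCard 4).filter (fun e => col e = 3)).card : ℝ) +
        (((S.powersetCard 4).filter (fun e => col e ≠ 3)).card : ℝ) =
        ((S.card.choose 4 : ℕ) : ℝ) := by
      exact_mod_cast h5
    have h6' : (S.card : ℝ) * (((S.card - 1).choose 3 : ℕ) : ℝ) =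
        4 * ((S.card.choose 4 : ℕ) : ℝ) := by
      exact_mod_cast h6
    have h7' : (0 : ℝ) < ((S.card.choose 4 : ℕ) : ℝ) := by exact_mod_cast h7
    rw [h3'] at h2
    nlinarith
  · have hj' : j = 0 ∨ j = 1 ∨ j = 2 := by
      fin_cases j
      · left; rfl
      · right; left; rfl
      · right; right; rfl
      · exact absurd rfl hj
    have h1 : ∀ v ∈ S, (((S.card - 1).choose (4 - 1) : ℕ) : ℝ) ≤
        (((S.powersetCard 4).filter (fun e => v ∈ e ∧ col e = j)).card : ℝ) := by
      intro v hv
      have h2 := h v hv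
      rcases hj' with rfl | rfl | rfl <;> simpa using h2
    have hcl := clique h1
    rcases hj' with rfl | rfl | rfl
    · have := len_le (s := fun i => (s i : ℕ)) (l := S.card) (M := M) (c := 0) (Or.inl rfl)
        (by omega) (fun i hi => hs i hi) (fun i _ => (s i).2.trans_le hn) (fun i hi => by
          rw [← (hquad i hi).2]
          exact hcl _ (hquad i hi).1)
      omega
    · have := len_le (s := fun i => (s i : ℕ)) (l := S.card) (M := M) (c := 1) (Or.inr rfl)
        (by omega) (fun i hi => hs i hi) (fun i _ => (s i).2.trans_le hn) (fun i hi => by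
          rw [← (hquad i hi).2]
          exact hcl _ (hquad i hi).1)
      omega
    · have e1 := hcl _ (hquad 0 (by omega)).1
      have e2 := hcl _ (hquad 1 (by omega)).1
      rw [(hquad 0 (by omega)).2] at e1
      rw [(hquad 1 (by omega)).2] at e2
      exact two_two e1 e2

/-- Exponentials grow faster than powers. -/
theorem exists_k (D C : ℝ) : ∃ k : ℕ, 6 ≤ k ∧ C * (k : ℝ) ^ D < 2 ^ (k - 3) * Real.log 2 := by
  have h := tendsto_pow_const_div_const_pow_of_one_lt (⌈|D|⌉₊) (r := (2 : ℝ)) (by norm_num)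
  have hlog : (0 : ℝ) < Real.log 2 := Real.log_pos (by norm_num)
  have hpos : (0 : ℝ) < Real.log 2 / (8 * (|C| + 1)) := by positivity
  have h1 := (h.eventually (gt_mem_nhds hpos)).and (Filter.eventually_ge_atTop 6)
  obtain ⟨k, hk, hk6⟩ := h1.exists
  refine ⟨k, hk6, ?_⟩
  have hk1 : (1 : ℝ) ≤ (k : ℝ) := by exact_mod_cast (by omega : 1 ≤ k)
  have h2 : (k : ℝ) ^ D ≤ (k : ℝ) ^ (⌈|D|⌉₊) := by
    rw [← Real.rpow_natCast]
    apply Real.rpow_le_rpow_of_exponent_le hk1
    exact (le_abs_self D).trans (Nat.le_ceil _)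
  have h3 : (0 : ℝ) ≤ (k : ℝ) ^ D := Real.rpow_nonneg (by linarith) _
  have h4 : (0 : ℝ) < 2 ^ k := by positivity
  rw [div_lt_iff₀ h4] at hk
  have h5 : (2 : ℝ) ^ k = 2 ^ (k - 3) * 8 := by
    rw [show (8 : ℝ) = 2 ^ 3 by norm_num, ← pow_add]
    congr 1
    omega
  calc C * (k : ℝ) ^ D ≤ |C| * (k : ℝ) ^ D :=
        mul_le_mul_of_nonneg_right (le_abs_self C) h3
    _ ≤ (|C| + 1) * (k : ℝ) ^ (⌈|D|⌉₊) := by
        apply mul_le_mul (by linarith) h2 h3 (by positivity)
    _ < (|C| + 1) * (Real.log 2 / (8 * (|C| + 1)) * 2 ^ k) := by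
        apply mul_lt_mul_of_pos_left hk (by positivity)
    _ = 2 ^ (k - 3) * Real.log 2 := by
        rw [h5]
        field_simp

/-- The negation of the preceding statement: For r≥3, q≥2, ε>0 there is D such that for every ρ in [0,1]^q with sum below q−ε, some C gives, for all k≥1, an n with ln n ≤ C·k^D where every q-colouring of r-sets of [n] has an S of size ≥k and colour j with min colour-j degree in S ≥ ρ_j·C(∣S∣−1,r−1). -/
theorem result :
    ¬ (∀ r q : ℕ, 3 ≤ r → 2 ≤ q → ∀ ε : ℝ, 0 < ε →
      ∃ D : ℝ, ∀ ρ : Fin q → ℝ, (∀ i, 0 ≤ ρ i ∧ ρ i ≤ 1) → ∑ i, ρ i < (q : ℝ) - ε →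
        ∃ C : ℝ, ∀ k : ℕ, 1 ≤ k → ∃ n : ℕ, Real.log (n : ℝ) ≤ C * (k : ℝ) ^ D ∧
          ∀ φ : Finset (Fin n) → Fin q, ∃ S : Finset (Fin n), k ≤ S.card ∧ ∃ j : Fin q,
            ∀ v ∈ S, ρ j * (((S.card - 1).choose (r - 1) : ℕ) : ℝ) ≤
              (((S.powersetCard r).filter (fun e => v ∈ e ∧ φ e = j)).card : ℝ)) := by
  intro hall
  obtain ⟨D, hD⟩ := hall 4 4 (by norm_num) (by norm_num) (1 / 10) (by norm_num)
  obtain ⟨C, hC⟩ := hD ![1, 1, 1, 17 / 20] (by
    intro i
    fin_cases i
    · simp
    · simp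
    · simp
    · constructor
      · show (0 : ℝ) ≤ 17 / 20
        norm_num
      · show (17 / 20 : ℝ) ≤ 1
        norm_num) (by
    rw [Fin.sum_univ_four]
    show (1 : ℝ) + 1 + 1 + 17 / 20 < ((4 : ℕ) : ℝ) - 1 / 10
    norm_num)
  obtain ⟨k, hk6, hk⟩ := exists_k D C
  obtain ⟨n, hn, hφ⟩ := hC k (by omega)
  obtain ⟨S, hS, j, hj⟩ := hφ col
  have hn' : n ≤ 2 ^ (2 ^ (k - 3)) := by
    rcases Nat.eq_zero_or_pos n with h0 | h0
    · rw [h0]; exact Nat.zero_le _
    have h1 : Real.log (n : ℝ) < Real.log ((2 : ℝ) ^ (2 ^ (k - 3))) := by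
      rw [Real.log_pow]
      push_cast
      linarith
    have h2 := (Real.log_lt_log_iff (by exact_mod_cast h0) (by positivity)).1 h1
    have h3 : n < 2 ^ (2 ^ (k - 3)) := by exact_mod_cast h2
    exact h3.le
  exact main (M := k - 3) (by omega) hn' S (by omega) j hj

end Pool.Agent.S07316
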