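import Pool.Statements.S07574
-- import your own Pool.Agent.* helpers here

set_option autoImplicit false
open Pool Pool.MP_1f8616_co

namespace Pool.Agent.S07574


/-- The disjoint union of chains with `0, 1, 2, ...` elements. -/
abbrev Al : Type := (n : ℕ) × Fin n

/-- A chain of the disjoint union lies in one summand. -/
theorem chain_fst (C : Set Al) (hC : IsChain (· ≤ ·) C) (x y : Al) (hx : x ∈ C) (hy : y ∈ C) :
    x.1 = y.1 := by
  by_cases hxy : x = y
  · rw [hxy]
  · rcases hC hx hy hxy with h | h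
    · cases h; rfl
    · cases h; rfl

theorem chain_finite (C : Set Al) (hC : IsChain (· ≤ ·) C) : C.Finite := by
  rcases C.eq_empty_or_nonempty with rfl | ⟨x, hx⟩
  · exact Set.finite_empty
  · refine Set.Finite.subset (Set.finite_range (fun a : Fin x.1 => (⟨x.1, a⟩ : Al))) ?_
    rintro ⟨m, b⟩ hy
    have h : x.1 = m := chain_fst C hC x ⟨m, b⟩ hx hy
    subst h
    exact ⟨b, rfl⟩

theorem key (k : ℕ) (hk : 2 ≤ k) (C : Fin k → Set Al) (hC : ∀ j, IsChain (· ≤ ·) (C j))
    (g : Al → ℕ) (hg : ∀ i : ℕ, IsAntichain (· ≤ ·) {x | g x = i} ∧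
          min (Set.encard {x | g x = i}) (k : ℕ∞) ≤
            Set.encard {j : Fin k | (C j ∩ {x | g x = i}).Nonempty}) : False := by
  have hfin : (⋃ j, C j).Finite := Set.finite_iUnion fun j => chain_finite _ (hC j)
  set n := (⋃ j, C j).ncard + 1 with hn
  -- for every point of the chain with `n` elements there is a point of the union on its level
  have h1 : ∀ a : Fin n, ∃ y ∈ ⋃ j, C j, g y = g ⟨n, a⟩ := by
    intro a
    have h2 := (hg (g ⟨n, a⟩)).2
    have h3 : 1 ≤ Set.encard {x : Al | g x = g ⟨n, a⟩} :=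
      Set.one_le_encard_iff_nonempty.2 ⟨⟨n, a⟩, rfl⟩
    have h4 : (1 : ℕ∞) ≤ (k : ℕ∞) := by
      exact_mod_cast (by omega : 1 ≤ k)
    have h5 := (le_min h3 h4).trans h2
    obtain ⟨j, y, hy1, hy2⟩ := Set.one_le_encard_iff_nonempty.1 h5
    exact ⟨y, Set.mem_iUnion.2 ⟨j, hy1⟩, hy2⟩
  choose y hy1 hy2 using h1
  have hinj : Function.Injective y := by
    intro a b hab
    have h2 : g ⟨n, a⟩ = g ⟨n, b⟩ := by rw [← hy2 a, ← hy2 b, hab]
    by_contra hne
    have h3 : (⟨n, a⟩ : Al) ≠ ⟨n, b⟩ := by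
      intro h
      apply hne
      simpa using h
    have h4 := (hg (g ⟨n, b⟩)).1
    rcases le_total a b with h | h
    · exact h4 (show g ⟨n, a⟩ = _ from h2) (show g ⟨n, b⟩ = _ from rfl) h3
        (Sigma.le_def.2 ⟨rfl, h⟩)
    · exact h4 (show g ⟨n, b⟩ = _ from rfl) (show g ⟨n, a⟩ = _ from h2) (Ne.symm h3)
        (Sigma.le_def.2 ⟨rfl, h⟩)
  have h2 : Set.range y ⊆ ⋃ j, C j := by
    rintro _ ⟨a, rfl⟩
    exact hy1 a
  have h3 := Set.ncard_le_ncard h2 hfin
  rw [← Set.image_univ, Set.ncard_image_of_injective _ hinj, Set.ncard_univ,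
    Nat.card_eq_fintype_card, Fintype.card_fin] at h3
  omega

/-- The negation of the preceding statement: Every countable poset with no saturated chain (or its reverse) that is an ω-indexed linear sum of infinite co-wellfounded chains has, for each k≥2, k disjoint chains and a partition into antichains where each antichain A meets at least min(∣A∣,k) chains. -/
theorem result :
    ¬ (∀ (α : Type) [PartialOrder α] [Countable α],
    (¬ ∃ C : Set α, IsChain (· ≤ ·) C ∧
        (∀ x, x ∉ C → ∀ y ∈ C, ∀ z ∈ C, y < x → x < z → ¬ IsChain (· ≤ ·) (insert x C)) ∧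
        ∃ f : α → ℕ,
          ((∀ x ∈ C, ∀ y ∈ C, x ≤ y → f x ≤ f y) ∧
            ∀ i : ℕ, Set.Infinite {x | x ∈ C ∧ f x = i} ∧
              ¬ ∃ s : ℕ → α, StrictMono s ∧ ∀ n, s n ∈ C ∧ f (s n) = i) ∨
          ((∀ x ∈ C, ∀ y ∈ C, x ≤ y → f y ≤ f x) ∧
            ∀ i : ℕ, Set.Infinite {x | x ∈ C ∧ f x = i} ∧
              ¬ ∃ s : ℕ → α, StrictAnti s ∧ ∀ n, s n ∈ C ∧ f (s n) = i)) →
    ∀ k : ℕ, 2 ≤ k →
      ∃ C : Fin k → Set α, (∀ j, IsChain (· ≤ ·) (C j)) ∧
        Pairwise (fun i j => Disjoint (C i) (C j)) ∧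
        ∃ g : α → ℕ, ∀ i : ℕ, IsAntichain (· ≤ ·) {x | g x = i} ∧
          min (Set.encard {x | g x = i}) (k : ℕ∞) ≤
            Set.encard {j : Fin k | (C j ∩ {x | g x = i}).Nonempty}) := by
  intro H
  obtain ⟨C, hC, -, g, hg⟩ := H Al (by
    rintro ⟨C, hC, -, f, h⟩
    rcases h with ⟨-, h⟩ | ⟨-, h⟩
    · exact (h 0).1 ((chain_finite C hC).subset fun x hx => hx.1)
    · exact (h 0).1 ((chain_finite C hC).subset fun x hx => hx.1)) 2 le_rfl
  exact key 2 le_rfl C hC g hg

end Pool.Agent.S07574
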