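import Pool.Statements.S07719
-- import your own Pool.Agent.* helpers here

set_option autoImplicit false
open Pool Pool.MP_25e1d2_co

namespace Pool.Agent.S07719

open Filter

attribute [local instance] Ultrafilter.add Ultrafilter.addSemigroup

/-- A set `B` is reachable from the ultrafilter `q` if, adding `q`-generic summands adaptively,
one always lands in `B` after finitely many steps. -/
inductive Reach (q : Ultrafilter ℕ) : Set ℕ → Prop
  | mk (B S : Set ℕ) (_ : S ∈ q) (_ : ∀ s ∈ S, s ∉ B → Reach q {t | s + t ∈ B}) : Reach q B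

lemma Reach.of_mem {q : Ultrafilter ℕ} {B : Set ℕ} (h : B ∈ q) : Reach q B :=
  Reach.mk B B h (fun s hs hn => absurd hs hn)

lemma Reach.comp {q : Ultrafilter ℕ} {B' : Set ℕ} (h' : Reach q B') :
    ∀ B : Set ℕ, (∀ x ∈ B', Reach q {y | x + y ∈ B}) → Reach q B := by
  induction h' with
  | mk B' S hS h ih =>
    intro B hB
    refine Reach.mk B S hS ?_
    intro s hs _
    by_cases hsB : s ∈ B'
    · exact hB s hsB
    · refine ih s hs hsB {y | s + y ∈ B} ?_
      intro x hx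
      have := hB (s + x) hx
      have h2 : {y | x + y ∈ {y | s + y ∈ B}} = {y | s + x + y ∈ B} := by
        ext y
        simp only [Set.mem_ofPred_eq, add_assoc]
      rw [h2]
      exact this

/-- Membership in a sum of ultrafilters. -/
lemma mem_add_iff (U V : Ultrafilter ℕ) (B : Set ℕ) :
    B ∈ U + V ↔ {x | {y | x + y ∈ B} ∈ V} ∈ U :=
  Ultrafilter.eventually_add U V (fun m => m ∈ B)

/-- The set of ultrafilters all of whose members are reachable. -/
def Z (q : Ultrafilter ℕ) : Set (Ultrafilter ℕ) := {z | ∀ B : Set ℕ, B ∈ z → Reach q B}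

lemma isClosed_Z (q : Ultrafilter ℕ) : IsClosed (Z q) := by
  have : Z q = ⋂ (B : Set ℕ) (_ : ¬ Reach q B), {z : Ultrafilter ℕ | B ∉ z} := by
    ext z
    simp only [Z, Set.mem_ofPred_eq, Set.mem_iInter]
    constructor
    · intro h B hB hz
      exact hB (h B hz)
    · intro h B hB
      by_contra hn
      exact h B hn hB
  rw [this]
  refine isClosed_iInter fun B => isClosed_iInter fun _ => ?_
  exact (ultrafilter_isOpen_basic B).isClosed_compl

lemma mem_Z_self (q : Ultrafilter ℕ) : q ∈ Z q := fun _ hB => Reach.of_mem hB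

lemma Z_add (q z₁ z₂ : Ultrafilter ℕ) (h₁ : z₁ ∈ Z q) (h₂ : z₂ ∈ Z q) : z₁ + z₂ ∈ Z q := by
  intro B hB
  rw [mem_add_iff] at hB
  exact (h₁ _ hB).comp B (fun x hx => h₂ _ hx)

/-- Closed nonempty left ideals consisting of ultrafilters on positive numbers. -/
def LI : Set (Set (Ultrafilter ℕ)) :=
  {N | IsClosed N ∧ N.Nonempty ∧ (∀ u : Ultrafilter ℕ, ∀ v ∈ N, u + v ∈ N) ∧
    ∀ v ∈ N, {x : ℕ | 0 < x} ∈ v}

lemma exists_minimal_LI : ∃ L, Minimal (· ∈ LI) L := by
  let I : Set (Ultrafilter ℕ) := {v | {x : ℕ | 0 < x} ∈ v}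
  have hI : I ∈ LI := by
    refine ⟨ultrafilter_isClosed_basic _, ?_, ?_, fun v hv => hv⟩
    · refine ⟨(pure 1 : Ultrafilter ℕ), ?_⟩
      show {x : ℕ | 0 < x} ∈ (pure 1 : Ultrafilter ℕ)
      simp
    · intro u v hv
      show {x : ℕ | 0 < x} ∈ u + v
      rw [mem_add_iff]
      refine Filter.univ_mem' (fun x => ?_)
      refine Filter.mem_of_superset hv ?_
      intro y hy
      have : 0 < y := hy
      show 0 < x + y
      omega
  have := zorn_superset_nonempty LI ?_ I hI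
  · obtain ⟨m, _, hm⟩ := this
    exact ⟨m, hm⟩
  · intro c hcs hc hcn
    refine ⟨⋂₀ c, ⟨isClosed_sInter fun t ht => (hcs ht).1, ?_, ?_, ?_⟩,
      fun s hs => Set.sInter_subset_of_mem hs⟩
    · convert!
        @IsCompact.nonempty_iInter_of_directed_nonempty_isCompact_isClosed _ _ _ hcn.coe_sort
          ((↑) : c → Set (Ultrafilter ℕ)) ?_ ?_ ?_ ?_
      · exact Set.sInter_eq_iInter
      · refine DirectedOn.directed_val (IsChain.directedOn hc.symm)
      exacts [fun i => (hcs i.prop).2.1, fun i => (hcs i.prop).1.isCompact,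
        fun i => (hcs i.prop).1]
    · intro u v hv
      rw [Set.mem_sInter] at hv ⊢
      exact fun t ht => (hcs ht).2.2.1 u v (hv t ht)
    · intro v hv
      obtain ⟨t, ht⟩ := hcn
      exact (hcs ht).2.2.2 v (Set.mem_sInter.mp hv t ht)

/-- The ultrafilters used in the construction. -/
lemma exists_pair : ∃ p e : Ultrafilter ℕ,
    {x : ℕ | 0 < x} ∈ p ∧ p + p = p ∧ p + e = p ∧ e + p = e ∧ e + e = e ∧
    ∀ B ∈ e, Reach (Ultrafilter.map (fun x => 2 * x) p + p) B := by
  obtain ⟨L, hL⟩ := exists_minimal_LI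
  obtain ⟨hcl, hne, hid, hpos⟩ := hL.prop
  have hcont : ∀ r : Ultrafilter ℕ, Continuous (· + r) := Ultrafilter.continuous_add_left
  obtain ⟨p, hpL, hpp⟩ := exists_idempotent_in_compact_add_subsemigroup hcont L hne
    hcl.isCompact (fun x _ y hy => hid x y hy)
  set q : Ultrafilter ℕ := Ultrafilter.map (fun x => 2 * x) p + p with hq
  have hqL : q ∈ L := hid _ _ hpL
  obtain ⟨e, ⟨heZ, heL⟩, hee⟩ := exists_idempotent_in_compact_add_subsemigroup hcont (Z q ∩ L)
    ⟨q, mem_Z_self q, hqL⟩ ((isClosed_Z q).inter hcl).isCompact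
    (fun x hx y hy => ⟨Z_add q x y hx.1 hy.1, hid x y hy.2⟩)
  have key : ∀ x ∈ L, (· + x) '' (Set.univ : Set (Ultrafilter ℕ)) = L := by
    intro x hx
    apply hL.eq_of_subset
    · refine ⟨(hcont x).isClosedMap _ isClosed_univ, ⟨_, ⟨x, trivial, rfl⟩⟩, ?_, ?_⟩
      · rintro u _ ⟨w, _, rfl⟩
        exact ⟨u + w, trivial, add_assoc _ _ _⟩
      · rintro _ ⟨w, _, rfl⟩
        exact hpos _ (hid w x hx)
    · rintro _ ⟨w, _, rfl⟩
      exact hid w x hx
  have abs : ∀ a b : Ultrafilter ℕ, a ∈ L → b ∈ L → b + b = b → a + b = a := by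
    intro a b ha hb hbb
    have := key b hb
    rw [← this] at ha
    obtain ⟨w, _, hw⟩ := ha
    have hw' : w + b = a := hw
    rw [← hw', add_assoc, hbb]
  refine ⟨p, e, hpos p hpL, hpp, abs p e hpL heL hee, abs e p heL hpL hpp, hee, ?_⟩
  exact fun B hB => heZ B hB

section Construction

variable (p e : Ultrafilter ℕ) (A : Set ℕ)

/-- The star set of `A` relative to `p` and `e`. -/
def Star : Set ℕ := {x | x ∈ A ∧ {y | x + y ∈ A} ∈ p ∧ {y | x + y ∈ A} ∈ e}

/-- Ready state. -/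
def Ready (u : ℕ) : Prop := Reach (Ultrafilter.map (fun x => 2 * x) p + p) {y | u + y ∈ Star p e A}

variable {p e A}

lemma star_mem (hpp : p + p = p) (hpe : p + e = p) (hA : A ∈ p) : Star p e A ∈ p := by
  have h1 : {x | {y | x + y ∈ A} ∈ p} ∈ p := by
    rw [← mem_add_iff, hpp]; exact hA
  have h2 : {x | {y | x + y ∈ A} ∈ e} ∈ p := by
    rw [← mem_add_iff, hpe]; exact hA
  filter_upwards [hA, h1, h2] with x hx h1 h2
  exact ⟨hx, h1, h2⟩

lemma star_ext_p (hpp : p + p = p) (hpe : p + e = p) {x : ℕ} (hx : x ∈ Star p e A) :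
    {y | x + y ∈ Star p e A} ∈ p := by
  obtain ⟨_, hx1, _⟩ := hx
  have h1 : {y | {z | x + y + z ∈ A} ∈ p} ∈ p := by
    have : {y | x + y ∈ A} ∈ p + p := by rw [hpp]; exact hx1
    rw [mem_add_iff] at this
    simpa only [Set.mem_ofPred_eq, add_assoc] using this
  have h2 : {y | {z | x + y + z ∈ A} ∈ e} ∈ p := by
    have : {y | x + y ∈ A} ∈ p + e := by rw [hpe]; exact hx1
    rw [mem_add_iff] at this
    simpa only [Set.mem_ofPred_eq, add_assoc] using this
  filter_upwards [hx1, h1, h2] with y hy h1 h2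
  exact ⟨hy, h1, h2⟩

lemma star_ext_e (hep : e + p = e) (hee : e + e = e) {x : ℕ} (hx : x ∈ Star p e A) :
    {y | x + y ∈ Star p e A} ∈ e := by
  obtain ⟨_, _, hx2⟩ := hx
  have h1 : {y | {z | x + y + z ∈ A} ∈ p} ∈ e := by
    have : {y | x + y ∈ A} ∈ e + p := by rw [hep]; exact hx2
    rw [mem_add_iff] at this
    simpa only [Set.mem_ofPred_eq, add_assoc] using this
  have h2 : {y | {z | x + y + z ∈ A} ∈ e} ∈ e := by
    have : {y | x + y ∈ A} ∈ e + e := by rw [hee]; exact hx2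
    rw [mem_add_iff] at this
    simpa only [Set.mem_ofPred_eq, add_assoc] using this
  filter_upwards [hx2, h1, h2] with y hy h1 h2
  exact ⟨hy, h1, h2⟩

lemma Ready.of_star (hep : e + p = e) (hee : e + e = e)
    (hR : ∀ B ∈ e, Reach (Ultrafilter.map (fun x => 2 * x) p + p) B) {x : ℕ}
    (hx : x ∈ Star p e A) : Ready p e A x :=
  hR _ (star_ext_e hep hee hx)

lemma Ready.step (hst : ∀ x ∈ Star p e A, Ready p e A x) {u : ℕ} (h : Ready p e A u) :
    ∀ᶠ a in (p : Filter ℕ), ∀ᶠ b in (p : Filter ℕ), Ready p e A (u + 2 * a + b) := by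
  unfold Ready at h
  cases h with
  | mk _ S hS h =>
    rw [mem_add_iff] at hS
    have hS' : {a | {y | 2 * a + y ∈ S} ∈ p} ∈ p := hS
    filter_upwards [hS'] with a ha
    have ha' : {y | 2 * a + y ∈ S} ∈ p := ha
    filter_upwards [ha'] with b hb
    have hb' : 2 * a + b ∈ S := hb
    by_cases hB : u + (2 * a + b) ∈ Star p e A
    · rw [add_assoc]
      exact hst _ hB
    · have := h _ hb' hB
      unfold Ready
      convert this using 1
      ext y
      simp only [Set.mem_ofPred_eq, add_assoc]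

/-- The invariant of the construction. -/
structure Inv0 (p e : Ultrafilter ℕ) (A Φ : Set ℕ) (w c d : ℕ) : Prop where
  i1 : ∀ f ∈ Φ, f + c ∈ Star p e A
  i2 : ∀ f ∈ Φ, f + d ∈ Star p e A
  i3 : ∀ f ∈ Φ, f + c + d ∈ Star p e A
  ii : w + c ∈ Star p e A
  iv : ∀ᶠ b in (p : Filter ℕ), Ready p e A (c + 2 * d + b)

lemma phase (hpp : p + p = p) (hpe : p + e = p) 
    (hst : ∀ x ∈ Star p e A, Ready p e A x) (Φ : Set ℕ) (hΦ : Φ.Finite) (r w : ℕ) (B : Set ℕ)
    (hB : Reach (Ultrafilter.map (fun x => 2 * x) p + p) B) :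
    ∀ c d : ℕ, B = {y | r + 2 * c + d + y ∈ Star p e A} → Inv0 p e A Φ w c d →
      ∃ c' d' : ℕ, Inv0 p e A Φ w c' d' ∧ r + 2 * c' + d' ∈ Star p e A := by
  induction hB with
  | mk B S hS h ih =>
    intro c d hBeq hI
    rw [mem_add_iff] at hS
    have hS' : {a | {y | 2 * a + y ∈ S} ∈ p} ∈ p := hS
    have hA1 : ∀ᶠ a in (p : Filter ℕ), ∀ f ∈ Φ, f + c + a ∈ Star p e A :=
      (Filter.eventually_all_finite hΦ).2 (fun f hf => star_ext_p hpp hpe (hI.i1 f hf))
    have hA2 : ∀ᶠ a in (p : Filter ℕ), ∀ f ∈ Φ, f + c + d + a ∈ Star p e A :=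
      (Filter.eventually_all_finite hΦ).2 (fun f hf => star_ext_p hpp hpe (hI.i3 f hf))
    have hA3 : ∀ᶠ a in (p : Filter ℕ), w + c + a ∈ Star p e A := star_ext_p hpp hpe hI.ii
    obtain ⟨a, haS, ha1, ha2, ha3, ha4⟩ :=
      ((show ∀ᶠ a in (p : Filter ℕ), {y | 2 * a + y ∈ S} ∈ p from hS').and
        (hA1.and (hA2.and (hA3.and hI.iv)))).exists
    have hB1 : ∀ᶠ b in (p : Filter ℕ), ∀ f ∈ Φ, f + d + b ∈ Star p e A :=
      (Filter.eventually_all_finite hΦ).2 (fun f hf => star_ext_p hpp hpe (hI.i2 f hf))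
    have hB2 : ∀ᶠ b in (p : Filter ℕ), ∀ f ∈ Φ, f + c + d + a + b ∈ Star p e A :=
      (Filter.eventually_all_finite hΦ).2 (fun f hf => star_ext_p hpp hpe (ha2 f hf))
    have hB3 := Ready.step hst ha4
    obtain ⟨b, hbS, hb1, hb2, hb3⟩ :=
      ((show ∀ᶠ b in (p : Filter ℕ), 2 * a + b ∈ S from haS).and
        (hB1.and (hB2.and hB3))).exists
    have hI' : Inv0 p e A Φ w (c + a) (d + b) := by
      refine ⟨?_, ?_, ?_, ?_, ?_⟩
      · intro f hf
        rw [← add_assoc]
        exact ha1 f hf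
      · intro f hf
        rw [← add_assoc]
        exact hb1 f hf
      · intro f hf
        have := hb2 f hf
        have h2 : f + (c + a) + (d + b) = f + c + d + a + b := by ring
        rw [h2]; exact this
      · rw [← add_assoc]
        exact ha3
      · filter_upwards [hb3] with b' hb'
        have h2 : c + a + 2 * (d + b) + b' = c + 2 * d + a + 2 * b + b' := by ring
        rw [h2]; exact hb'
    by_cases hin : 2 * a + b ∈ B
    · refine ⟨c + a, d + b, hI', ?_⟩
      rw [hBeq] at hin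
      have hin' : r + 2 * c + d + (2 * a + b) ∈ Star p e A := hin
      have h2 : r + 2 * (c + a) + (d + b) = r + 2 * c + d + (2 * a + b) := by ring
      rw [h2]; exact hin'
    · refine ih (2 * a + b) hbS hin (c + a) (d + b) ?_ hI'
      rw [hBeq]
      ext y
      simp only [Set.mem_ofPred_eq]
      have h2 : r + 2 * (c + a) + (d + b) + y = r + 2 * c + d + (2 * a + b + y) := by ring
      rw [h2]

/-- A state of the construction. -/
structure State where
  Φ : Set ℕ
  r : ℕ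
  w : ℕ
  c : ℕ
  d : ℕ

structure Inv (p e : Ultrafilter ℕ) (A : Set ℕ) (s : State) : Prop where
  fin : s.Φ.Finite
  zero : (0 : ℕ) ∈ s.Φ
  ext : ∀ f ∈ s.Φ, {y | f + y ∈ Star p e A} ∈ p
  inv0 : Inv0 p e A s.Φ s.w s.c s.d
  iii : Ready p e A (s.r + 2 * s.c + s.d)

/-- One bigStep step. -/
structure Step (p e : Ultrafilter ℕ) (A : Set ℕ) (s t : State) : Prop where
  phi : t.Φ = s.Φ ∪ (fun f => f + t.r) '' s.Φ
  w : t.w = s.r + 2 * t.r
  fs : ∀ f ∈ s.Φ, f + t.r ∈ Star p e A
  tt : s.w + t.r ∈ Star p e A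

lemma bigStep (hpp : p + p = p) (hpe : p + e = p)
    (hst : ∀ x ∈ Star p e A, Ready p e A x) (hSp : Star p e A ∈ p) (s : State)
    (hs : Inv p e A s) : ∃ t : State, Inv p e A t ∧ Step p e A s t := by
  obtain ⟨c, d, hI, hfin⟩ := phase hpp hpe hst s.Φ hs.fin s.r s.w _ hs.iii s.c s.d rfl hs.inv0
  -- the new set of sums
  set Ψ : Set ℕ := s.Φ ∪ (fun f => f + c) '' s.Φ with hΨ
  have hΨfin : Ψ.Finite := hs.fin.union (hs.fin.image _)
  have hd : d ∈ Star p e A := by
    have := hI.i2 0 hs.zero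
    simpa using this
  have hΨext : ∀ f ∈ Ψ, {y | f + y ∈ Star p e A} ∈ p := by
    rintro f (hf | ⟨g, hg, rfl⟩)
    · exact hs.ext f hf
    · exact star_ext_p hpp hpe (hI.i1 g hg)
  have hΨd : ∀ f ∈ Ψ, f + d ∈ Star p e A := by
    rintro f (hf | ⟨g, hg, rfl⟩)
    · exact hI.i2 f hf
    · exact hI.i3 g hg
  have h1 : ∀ᶠ x in (p : Filter ℕ), ∀ f ∈ Ψ, f + x ∈ Star p e A :=
    (Filter.eventually_all_finite hΨfin).2 (fun f hf => hΨext f hf)
  have h2 : ∀ᶠ x in (p : Filter ℕ), ∀ f ∈ Ψ, f + d + x ∈ Star p e A :=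
    (Filter.eventually_all_finite hΨfin).2 (fun f hf => star_ext_p hpp hpe (hΨd f hf))
  have h3 := Ready.step hst (hst d hd)
  obtain ⟨x, hx1, hx2, hx3, hx4⟩ := (h1.and (h2.and (h3.and hI.iv))).exists
  refine ⟨⟨Ψ, c, s.r + 2 * c, d, x⟩, ⟨hΨfin, Or.inl hs.zero, hΨext, ⟨hΨd, hx1, hx2, hfin, hx3⟩, hx4⟩,
    ⟨rfl, rfl, hI.i1, hI.ii⟩⟩

lemma init (hpp : p + p = p) (hpe : p + e = p)
    (hst : ∀ x ∈ Star p e A, Ready p e A x) (hSp : Star p e A ∈ p) :
    ∃ s : State, Inv p e A s ∧ s.Φ = {0} := by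
  obtain ⟨r, hr⟩ := (show ∀ᶠ x in (p : Filter ℕ), x ∈ Star p e A from hSp).exists
  obtain ⟨c, hc, hc2⟩ := ((show ∀ᶠ x in (p : Filter ℕ), x ∈ Star p e A from hSp).and
    (Ready.step hst (hst r hr))).exists
  obtain ⟨d, hd, hd2, hd3, hd4⟩ := ((show ∀ᶠ x in (p : Filter ℕ), x ∈ Star p e A from hSp).and
    (hc2.and ((Ready.step hst (hst c hc)).and
      (show ∀ᶠ x in (p : Filter ℕ), c + x ∈ Star p e A from star_ext_p hpp hpe hc)))).exists
  refine ⟨⟨{0}, r, 0, c, d⟩, ⟨Set.finite_singleton 0, rfl, ?_, ⟨?_, ?_, ?_, ?_, hd3⟩, hd2⟩, rfl⟩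
  · rintro f rfl
    simpa using hSp
  · rintro f rfl
    simpa using hc
  · rintro f rfl
    simpa using hd
  · rintro f rfl
    simpa using hd4
  · simpa using hc

theorem main (hpp : p + p = p) (hpe : p + e = p)
    (hst : ∀ x ∈ Star p e A, Ready p e A x) (hSp : Star p e A ∈ p) :
    ∃ y : ℕ → ℕ, (∀ s : Finset ℕ, s.Nonempty → ∑ i ∈ s, y i ∈ Star p e A) ∧
      ∀ n : ℕ, y n + 2 * y (n + 1) + y (n + 2) ∈ Star p e A := by
  classical
  obtain ⟨s0, hs0, hΦ0⟩ := init hpp hpe hst hSp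
  let nxt : {s : State // Inv p e A s} → {s : State // Inv p e A s} := fun s =>
    ⟨(bigStep hpp hpe hst hSp s.1 s.2).choose, (bigStep hpp hpe hst hSp s.1 s.2).choose_spec.1⟩
  have hnxt : ∀ s, Step p e A s.1 (nxt s).1 := fun s =>
    (bigStep hpp hpe hst hSp s.1 s.2).choose_spec.2
  let st : ℕ → {s : State // Inv p e A s} := fun n => nxt^[n] ⟨s0, hs0⟩
  have hst1 : ∀ n, st (n + 1) = nxt (st n) := fun n => Function.iterate_succ_apply' _ _ _
  have hstep : ∀ n, Step p e A (st n).1 (st (n + 1)).1 := by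
    intro n
    rw [hst1]
    exact hnxt _
  let y : ℕ → ℕ := fun n => (st (n + 1)).1.r
  have hsub : ∀ n : ℕ, ∀ s : Finset ℕ, (∀ i ∈ s, i < n) → ∑ i ∈ s, y i ∈ (st n).1.Φ := by
    intro n
    induction n with
    | zero =>
      intro s hs
      have : s = ∅ := by
        rw [Finset.eq_empty_iff_forall_notMem]
        intro i hi
        exact absurd (hs i hi) (by omega)
      subst this
      show ∑ i ∈ (∅ : Finset ℕ), y i ∈ s0.Φ
      rw [hΦ0]
      simp
    | succ n ih =>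
      intro s hs
      rw [(hstep n).phi]
      by_cases hn : n ∈ s
      · right
        refine ⟨∑ i ∈ s.erase n, y i, ih _ ?_, ?_⟩
        · intro i hi
          rw [Finset.mem_erase] at hi
          have := hs i hi.2
          omega
        · show ∑ i ∈ s.erase n, y i + y n = _
          rw [add_comm, Finset.add_sum_erase s y hn]
      · left
        refine ih s ?_
        intro i hi
        have := hs i hi
        have : i ≠ n := fun h => hn (h ▸ hi)
        omega
  refine ⟨y, ?_, ?_⟩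
  · intro s hs
    set m := s.max' hs with hm
    have hms : m ∈ s := Finset.max'_mem s hs
    rw [← Finset.add_sum_erase s y hms, add_comm]
    refine (hstep m).fs _ (hsub m _ ?_)
    intro i hi
    rw [Finset.mem_erase] at hi
    have := Finset.le_max' s i hi.2
    omega
  · intro n
    have h1 := (hstep (n + 2)).tt
    have h2 := (hstep (n + 1)).w
    rw [h2] at h1
    exact h1

end Construction

end Pool.Agent.S07719

namespace Pool.Agent.S07719

open Filter

/-- For every finite colouring of the naturals there is a sequence of positive integers y_0, y_1, ... such that all nonempty finite sums of distinct terms, and all sums y_n + 2y_{n+1} + y_{n+2}, get one and the same colour. -/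
theorem result :
    ∀ (k : ℕ) (c : ℕ → Fin k), ∃ y : ℕ → ℕ, (∀ n, 0 < y n) ∧
      ∃ col : Fin k,
        (∀ s : Finset ℕ, s.Nonempty → c (∑ i ∈ s, y i) = col) ∧
        (∀ n : ℕ, c (y n + 2 * y (n + 1) + y (n + 2)) = col) := by
  intro k c
  obtain ⟨p, e, hpos, hpp, hpe, hep, hee, hR⟩ := exists_pair
  obtain ⟨col, hcol⟩ := Ultrafilter.eq_pure_of_finite (Ultrafilter.map c p)
  have hc : {x | c x = col} ∈ p := by
    have : ({col} : Set (Fin k)) ∈ Ultrafilter.map c p := by
      rw [hcol]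
      exact Set.mem_singleton col
    exact this
  have hA : {x | 0 < x ∧ c x = col} ∈ p := by
    filter_upwards [hpos, hc] with x hx hx'
    exact ⟨hx, hx'⟩
  have hst : ∀ x ∈ Star p e {x | 0 < x ∧ c x = col}, Ready p e {x | 0 < x ∧ c x = col} x :=
    fun x hx => Ready.of_star hep hee hR hx
  obtain ⟨y, hy1, hy2⟩ := main hpp hpe hst (star_mem hpp hpe hA)
  refine ⟨y, ?_, col, ?_, ?_⟩
  · intro n
    have := (hy1 {n} (Finset.singleton_nonempty n)).1.1
    simpa using this
  · intro s hs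
    exact (hy1 s hs).1.2
  · intro n
    exact (hy2 n).1.2

end Pool.Agent.S07719
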