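import Pool.Statements.S07891
import Pool.Agent.V11153.Dress2

set_option autoImplicit false
open Pool Pool.MP_2e1090_co

namespace Pool.Agent.S07891


open Finset Pool.Agent.V11153.Dress

theorem affine' {v : Finset (Fin 9) → ℝ} (h : Refines w v) :
    ∃ (lam : ℝ) (a : Fin 9 → ℝ), ∀ B : Finset (Fin 9), B.card = 3 →
      v B = lam * w B + ∑ t ∈ B, a t := by
  obtain ⟨lam, a, hP⟩ := affine_form h
  refine ⟨lam, a, fun B hB => ?_⟩
  obtain ⟨x, y, z, h1, h2, rfl⟩ := exists_triple hB
  have h3 := hP _ (cd_mem x y z h1 h2)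
  unfold P at h3
  rw [dec_cd x y z h1.ne (h1.trans h2).ne h2.ne] at h3
  rw [h3, w_ins h1.ne (h1.trans h2).ne h2.ne]

theorem gap1 {v : Finset (Fin 9) → ℝ} {lam : ℝ} {a : Fin 9 → ℝ}
    (h : ∀ B : Finset (Fin 9), B.card = 3 → v B = lam * w B + ∑ t ∈ B, a t) :
    v (insert 1 (insert 4 {0})) + v (insert 2 (insert 3 {0})) -
      v (insert 1 (insert 2 {0})) - v (insert 3 (insert 4 {0})) = lam ∧
    v (insert 1 (insert 2 {0})) + v (insert 3 (insert 4 {0})) =
      v (insert 1 (insert 3 {0})) + v (insert 2 (insert 4 {0})) := by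
  have k : ∀ x y z : Fin 9, x ≠ y → x ≠ z → y ≠ z →
      v (insert x (insert y {z})) = lam * (W0 (cd x y z) : ℝ) + (a x + (a y + a z)) := by
    intro x y z h1 h2 h3
    rw [h _ (card_ins h1 h2 h3), w_ins h1 h2 h3, sum_ins _ h1 h2 h3]
  rw [k 1 4 0 (by decide) (by decide) (by decide), k 2 3 0 (by decide) (by decide) (by decide),
    k 1 2 0 (by decide) (by decide) (by decide), k 3 4 0 (by decide) (by decide) (by decide),
    k 1 3 0 (by decide) (by decide) (by decide), k 2 4 0 (by decide) (by decide) (by decide),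
    show W0 (cd 1 4 0) = 1 by decide +kernel, show W0 (cd 2 3 0) = 0 by decide +kernel,
    show W0 (cd 1 2 0) = 0 by decide +kernel, show W0 (cd 3 4 0) = 0 by decide +kernel,
    show W0 (cd 1 3 0) = 0 by decide +kernel, show W0 (cd 2 4 0) = 0 by decide +kernel]
  constructor
  · push_cast; ring
  · push_cast; ring

theorem gap3 {v : Finset (Fin 9) → ℝ} {lam : ℝ} {a : Fin 9 → ℝ}
    (h : ∀ B : Finset (Fin 9), B.card = 3 → v B = lam * w B + ∑ t ∈ B, a t) :
    v (insert 1 (insert 5 {0})) + v (insert 2 (insert 6 {0})) -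
      v (insert 1 (insert 2 {0})) - v (insert 5 (insert 6 {0})) = 3 * lam := by
  have k : ∀ x y z : Fin 9, x ≠ y → x ≠ z → y ≠ z →
      v (insert x (insert y {z})) = lam * (W0 (cd x y z) : ℝ) + (a x + (a y + a z)) := by
    intro x y z h1 h2 h3
    rw [h _ (card_ins h1 h2 h3), w_ins h1 h2 h3, sum_ins _ h1 h2 h3]
  rw [k 1 5 0 (by decide) (by decide) (by decide), k 2 6 0 (by decide) (by decide) (by decide),
    k 1 2 0 (by decide) (by decide) (by decide), k 5 6 0 (by decide) (by decide) (by decide),
    show W0 (cd 1 5 0) = 2 by decide +kernel, show W0 (cd 2 6 0) = 1 by decide +kernel,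
    show W0 (cd 1 2 0) = 0 by decide +kernel, show W0 (cd 5 6 0) = 0 by decide +kernel]
  push_cast; ring

theorem w_affine : ∀ B : Finset (Fin 9), B.card = 3 →
    w B = 1 * w B + ∑ t ∈ B, (fun _ : Fin 9 => (0 : ℝ)) t := by
  intro B _; simp

/-- the subdivision of `w` is not trivial -/
theorem w_nontrivial : ¬ ∃ c : Fin 9 → ℝ, ∀ B : Finset (Fin 9), B.card = 3 →
    ∀ B' : Finset (Fin 9), B'.card = 3 →
      w B - ∑ i ∈ B, c i ≤ w B' - ∑ i ∈ B', c i := by
  rintro ⟨c, hc⟩
  have h1 := (gap1 w_affine).1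
  have e1 := hc (insert 1 (insert 4 {0})) (card_ins (by decide) (by decide) (by decide))
    (insert 1 (insert 2 {0})) (card_ins (by decide) (by decide) (by decide))
  have e2 := hc (insert 2 (insert 3 {0})) (card_ins (by decide) (by decide) (by decide))
    (insert 3 (insert 4 {0})) (card_ins (by decide) (by decide) (by decide))
  rw [sum_ins c (by decide) (by decide) (by decide), sum_ins c (by decide) (by decide) (by decide)]
    at e1 e2
  linarith

theorem rank_step (M : Matroid (Fin 9)) {B B' : Finset (Fin 9)} {x : Fin 9}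
    (h : B ⊆ insert x B') :
    ((M.eRk (B : Set (Fin 9))).toNat : ℤ) ≤ ((M.eRk (B' : Set (Fin 9))).toNat : ℤ) + 1 := by
  have h1 : M.eRk (B : Set (Fin 9)) ≤ M.eRk (B' : Set (Fin 9)) + 1 := by
    have hsub : (B : Set (Fin 9)) ⊆ insert x (B' : Set (Fin 9)) := by
      intro y hy
      have := h (Finset.mem_coe.1 hy)
      rw [Finset.mem_insert] at this
      rcases this with rfl | h2
      · exact Set.mem_insert _ _
      · exact Set.mem_insert_of_mem _ (Finset.mem_coe.2 h2)
    exact le_trans (M.eRk_mono hsub) (M.eRk_insert_le_add_one _ _)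
  have hfin : M.eRk (B' : Set (Fin 9)) ≠ ⊤ := by
    have h2 : M.eRk (B' : Set (Fin 9)) ≤ (B' : Set (Fin 9)).encard := M.eRk_le_encard _
    intro h3
    rw [h3] at h2
    exact (Set.encard_ne_top_iff.2 (Finset.finite_toSet B')) (top_le_iff.1 h2)
  have h3 := ENat.toNat_le_toNat h1 (WithTop.add_ne_top.2 ⟨hfin, ENat.one_ne_top⟩)
  rw [ENat.toNat_add hfin ENat.one_ne_top] at h3
  have : (M.eRk (B : Set (Fin 9))).toNat ≤ (M.eRk (B' : Set (Fin 9))).toNat + 1 := by
    simpa using h3
  exact_mod_cast this

/-- Some Dressian Dr(d,n) has a tropical Plücker vector inducing a coarsest nontrivial matroid subdivision (a ray) that differs from the subdivision induced by the corank vector of every rank-d matroid on n elements. -/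
theorem result :
    ∃ d n : ℕ, ∃ w : Finset (Fin n) → ℝ,
      (∀ (S : Finset (Fin n)) (i j k l : Fin n), S.card + 2 = d →
        i ∉ S → j ∉ S → k ∉ S → l ∉ S →
        i ≠ j → i ≠ k → i ≠ l → j ≠ k → j ≠ l → k ≠ l →
        ((w (insert i (insert j S)) + w (insert k (insert l S))
            = w (insert i (insert k S)) + w (insert j (insert l S)) ∧
          w (insert i (insert j S)) + w (insert k (insert l S))
            ≤ w (insert i (insert l S)) + w (insert j (insert k S))) ∨
         (w (insert i (insert j S)) + w (insert k (insert l S))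
            = w (insert i (insert l S)) + w (insert j (insert k S)) ∧
          w (insert i (insert j S)) + w (insert k (insert l S))
            ≤ w (insert i (insert k S)) + w (insert j (insert l S))) ∨
         (w (insert i (insert k S)) + w (insert j (insert l S))
            = w (insert i (insert l S)) + w (insert j (insert k S)) ∧
          w (insert i (insert k S)) + w (insert j (insert l S))
            ≤ w (insert i (insert j S)) + w (insert k (insert l S))))) ∧
      (¬ ∃ c : Fin n → ℝ, ∀ B : Finset (Fin n), B.card = d →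
          ∀ B' : Finset (Fin n), B'.card = d →
            w B - ∑ i ∈ B, c i ≤ w B' - ∑ i ∈ B', c i) ∧
      (∀ v : Finset (Fin n) → ℝ,
        (∀ (S : Finset (Fin n)) (i j k l : Fin n), S.card + 2 = d →
          i ∉ S → j ∉ S → k ∉ S → l ∉ S →
          i ≠ j → i ≠ k → i ≠ l → j ≠ k → j ≠ l → k ≠ l →
          ((v (insert i (insert j S)) + v (insert k (insert l S))
              = v (insert i (insert k S)) + v (insert j (insert l S)) ∧
            v (insert i (insert j S)) + v (insert k (insert l S))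
              ≤ v (insert i (insert l S)) + v (insert j (insert k S))) ∨
           (v (insert i (insert j S)) + v (insert k (insert l S))
              = v (insert i (insert l S)) + v (insert j (insert k S)) ∧
            v (insert i (insert j S)) + v (insert k (insert l S))
              ≤ v (insert i (insert k S)) + v (insert j (insert l S))) ∨
           (v (insert i (insert k S)) + v (insert j (insert l S))
              = v (insert i (insert l S)) + v (insert j (insert k S)) ∧
            v (insert i (insert k S)) + v (insert j (insert l S))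
              ≤ v (insert i (insert j S)) + v (insert k (insert l S))))) →
        (∀ c : Fin n → ℝ, ∃ c' : Fin n → ℝ,
          {B : Finset (Fin n) | B.card = d ∧ ∀ B' : Finset (Fin n), B'.card = d →
              w B - ∑ i ∈ B, c i ≤ w B' - ∑ i ∈ B', c i} ⊆
          {B : Finset (Fin n) | B.card = d ∧ ∀ B' : Finset (Fin n), B'.card = d →
              v B - ∑ i ∈ B, c' i ≤ v B' - ∑ i ∈ B', c' i}) →
        (∃ c : Fin n → ℝ, ∀ B : Finset (Fin n), B.card = d →
          ∀ B' : Finset (Fin n), B'.card = d →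
            v B - ∑ i ∈ B, c i ≤ v B' - ∑ i ∈ B', c i) ∨
        ((∀ c : Fin n → ℝ, ∃ c' : Fin n → ℝ,
          {B : Finset (Fin n) | B.card = d ∧ ∀ B' : Finset (Fin n), B'.card = d →
              w B - ∑ i ∈ B, c i ≤ w B' - ∑ i ∈ B', c i} =
          {B : Finset (Fin n) | B.card = d ∧ ∀ B' : Finset (Fin n), B'.card = d →
              v B - ∑ i ∈ B, c' i ≤ v B' - ∑ i ∈ B', c' i}) ∧
         (∀ c : Fin n → ℝ, ∃ c' : Fin n → ℝ,
          {B : Finset (Fin n) | B.card = d ∧ ∀ B' : Finset (Fin n), B'.card = d →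
              v B - ∑ i ∈ B, c i ≤ v B' - ∑ i ∈ B', c i} =
          {B : Finset (Fin n) | B.card = d ∧ ∀ B' : Finset (Fin n), B'.card = d →
              w B - ∑ i ∈ B, c' i ≤ w B' - ∑ i ∈ B', c' i}))) ∧
      (¬ ∃ M : Matroid (Fin n), M.E = Set.univ ∧ M.eRank = (d : ℕ∞) ∧
        (∀ c : Fin n → ℝ, ∃ c' : Fin n → ℝ,
          {B : Finset (Fin n) | B.card = d ∧ ∀ B' : Finset (Fin n), B'.card = d →
              w B - ∑ i ∈ B, c i ≤ w B' - ∑ i ∈ B', c i} =
          {B : Finset (Fin n) | B.card = d ∧ ∀ B' : Finset (Fin n), B'.card = d →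
              ((d : ℝ) - ((M.eRk (B : Set (Fin n))).toNat : ℝ)) - ∑ i ∈ B, c' i ≤
              ((d : ℝ) - ((M.eRk (B' : Set (Fin n))).toNat : ℝ)) - ∑ i ∈ B', c' i}) ∧
        (∀ c : Fin n → ℝ, ∃ c' : Fin n → ℝ,
          {B : Finset (Fin n) | B.card = d ∧ ∀ B' : Finset (Fin n), B'.card = d →
              ((d : ℝ) - ((M.eRk (B : Set (Fin n))).toNat : ℝ)) - ∑ i ∈ B, c i ≤
              ((d : ℝ) - ((M.eRk (B' : Set (Fin n))).toNat : ℝ)) - ∑ i ∈ B', c i} =
          {B : Finset (Fin n) | B.card = d ∧ ∀ B' : Finset (Fin n), B'.card = d →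
              w B - ∑ i ∈ B, c' i ≤ w B' - ∑ i ∈ B', c' i})) := by
  refine ⟨3, 9, w, ?_, w_nontrivial, ?_, ?_⟩
  · -- tropical Plücker vector
    intro S i j k l hS hi hj hk hl hij hik hil hjk hjl hkl
    obtain ⟨s, rfl⟩ := Finset.card_eq_one.1 (show S.card = 1 by omega)
    rw [Finset.mem_singleton] at hi hj hk hl
    rw [w_ins hij hi hj, w_ins hkl hk hl, w_ins hik hi hk, w_ins hjl hj hl, w_ins hil hi hl,
      w_ins hjk hj hk]
    have h := plucker s i j k l ⟨hi, hj, hk, hl, hij, hik, hil, hjk, hjl, hkl⟩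
    unfold Pl at h
    rcases h with ⟨h1, h2⟩ | ⟨h1, h2⟩ | ⟨h1, h2⟩
    · left; exact ⟨by exact_mod_cast h1, by exact_mod_cast h2⟩
    · right; left; exact ⟨by exact_mod_cast h1, by exact_mod_cast h2⟩
    · right; right; exact ⟨by exact_mod_cast h1, by exact_mod_cast h2⟩
  · -- coarsest
    intro v hv href
    obtain ⟨lam, a, ha⟩ := affine' (v := v) href
    have hg := gap1 ha
    have hlam : 0 ≤ lam := by
      have h1 := hv {0} 1 2 3 4 (by simp) (by decide) (by decide) (by decide) (by decide)
        (by decide) (by decide) (by decide) (by decide) (by decide) (by decide)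
      rcases h1 with ⟨h1, h2⟩ | ⟨h1, h2⟩ | ⟨h1, h2⟩
      · linarith [hg.1, hg.2]
      · linarith [hg.1, hg.2]
      · linarith [hg.1, hg.2]
    rcases hlam.eq_or_lt with h0 | hpos
    · left
      refine ⟨a, fun B hB B' hB' => ?_⟩
      rw [ha B hB, ha B' hB', ← h0]
      simp
    · right
      have key : ∀ (c : Fin 9 → ℝ) (B : Finset (Fin 9)), B.card = 3 →
          v B - ∑ i ∈ B, (lam * c i + a i) = lam * (w B - ∑ i ∈ B, c i) := by
        intro c B hB
        rw [ha B hB, Finset.sum_add_distrib, ← Finset.mul_sum]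
        ring
      have iff : ∀ (c : Fin 9 → ℝ) (B : Finset (Fin 9)),
          (B.card = 3 ∧ ∀ B' : Finset (Fin 9), B'.card = 3 →
            w B - ∑ i ∈ B, c i ≤ w B' - ∑ i ∈ B', c i) ↔
          (B.card = 3 ∧ ∀ B' : Finset (Fin 9), B'.card = 3 →
            v B - ∑ i ∈ B, (lam * c i + a i) ≤ v B' - ∑ i ∈ B', (lam * c i + a i)) := by
        intro c B
        constructor
        · rintro ⟨h1, h2⟩
          refine ⟨h1, fun B' hB' => ?_⟩
          rw [key c B h1, key c B' hB']
          exact mul_le_mul_of_nonneg_left (h2 B' hB') hpos.le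
        · rintro ⟨h1, h2⟩
          refine ⟨h1, fun B' hB' => ?_⟩
          have h3 := h2 B' hB'
          rw [key c B h1, key c B' hB'] at h3
          exact le_of_mul_le_mul_left h3 hpos
      constructor
      · intro c
        refine ⟨fun i => lam * c i + a i, ?_⟩
        ext B
        exact iff c B
      · intro c
        refine ⟨fun i => (c i - a i) / lam, ?_⟩
        ext B
        have h4 := iff (fun i => (c i - a i) / lam) B
        have h5 : (fun i => lam * ((c i - a i) / lam) + a i) = c := by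
          funext i
          field_simp
          ring
        refine Iff.trans ?_ (Iff.trans h4.symm Iff.rfl)
        have h6 : ∀ B' : Finset (Fin 9),
            ∑ i ∈ B', (lam * ((fun i => (c i - a i) / lam) i) + a i) = ∑ i ∈ B', c i := by
          intro B'
          exact Finset.sum_congr rfl (fun i _ => congrFun h5 i)
        simp only [h6]
        exact Iff.rfl
  · -- not a corank subdivision
    rintro ⟨M, -, -, h1, h2⟩
    have href : Refines w (fun B => (((3 : ℕ) : ℝ) - ((M.eRk (B : Set (Fin 9))).toNat : ℝ))) := by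
      intro c
      obtain ⟨c', hc'⟩ := h1 c
      exact ⟨c', hc'.subset⟩
    obtain ⟨lam, a, ha⟩ := affine' href
    have g1 := (gap1 ha).1
    have g3 := gap3 ha
    have q1 := rank_step M (B := insert 1 (insert 2 {0})) (B' := insert 1 (insert 5 {0})) (x := 2)
      (by decide)
    have q2 := rank_step M (B := insert 5 (insert 6 {0})) (B' := insert 2 (insert 6 {0})) (x := 5)
      (by decide)
    have q3 := rank_step M (B := insert 1 (insert 5 {0})) (B' := insert 1 (insert 2 {0})) (x := 5)
      (by decide)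
    have q4 := rank_step M (B := insert 2 (insert 6 {0})) (B' := insert 5 (insert 6 {0})) (x := 2)
      (by decide)
    have hlam0 : lam = 0 := by
      obtain ⟨z, hz⟩ : ∃ z : ℤ, lam = (z : ℝ) := by
        refine ⟨- ((M.eRk ((insert 1 (insert 4 {0}) : Finset (Fin 9)) : Set (Fin 9))).toNat : ℤ)
          - ((M.eRk ((insert 2 (insert 3 {0}) : Finset (Fin 9)) : Set (Fin 9))).toNat : ℤ)
          + ((M.eRk ((insert 1 (insert 2 {0}) : Finset (Fin 9)) : Set (Fin 9))).toNat : ℤ)
          + ((M.eRk ((insert 3 (insert 4 {0}) : Finset (Fin 9)) : Set (Fin 9))).toNat : ℤ), ?_⟩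
        push_cast
        push_cast at g1
        linarith
      have h3 : ((- ((M.eRk ((insert 1 (insert 5 {0}) : Finset (Fin 9)) : Set (Fin 9))).toNat : ℤ)
          - ((M.eRk ((insert 2 (insert 6 {0}) : Finset (Fin 9)) : Set (Fin 9))).toNat : ℤ)
          + ((M.eRk ((insert 1 (insert 2 {0}) : Finset (Fin 9)) : Set (Fin 9))).toNat : ℤ)
          + ((M.eRk ((insert 5 (insert 6 {0}) : Finset (Fin 9)) : Set (Fin 9))).toNat : ℤ) : ℤ) : ℝ)
          = ((3 * z : ℤ) : ℝ) := by
        push_cast
        push_cast at g3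
        rw [hz] at g3
        linarith
      have h4 := Int.cast_injective h3
      have h5 : z = 0 := by omega
      rw [hz, h5]; simp
    obtain ⟨c', hc'⟩ := h2 a
    refine w_nontrivial ⟨c', fun B hB B' hB' => ?_⟩
    have h6 : B ∈ {B : Finset (Fin 9) | B.card = 3 ∧ ∀ B' : Finset (Fin 9), B'.card = 3 →
        w B - ∑ i ∈ B, c' i ≤ w B' - ∑ i ∈ B', c' i} := by
      rw [← hc']
      refine ⟨hB, fun B'' hB'' => ?_⟩
      have e1 := ha B hB
      have e2 := ha B'' hB''
      rw [hlam0] at e1 e2
      have e1' : (((3 : ℕ) : ℝ) - ((M.eRk (B : Set (Fin 9))).toNat : ℝ)) =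
          0 * w B + ∑ t ∈ B, a t := e1
      have e2' : (((3 : ℕ) : ℝ) - ((M.eRk (B'' : Set (Fin 9))).toNat : ℝ)) =
          0 * w B'' + ∑ t ∈ B'', a t := e2
      rw [e1', e2']
      simp
    exact h6.2 B' hB'


end Pool.Agent.S07891
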