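import Pool.Statements.S07942

set_option autoImplicit false
open Pool Pool.MP_30ed83_co

namespace Pool.Agent.S07942

open SimpleGraph

/-- The claw `K_{1,3}` with centre `0`. -/
def claw : SimpleGraph (Fin 4) where
  Adj x y := (x = 0 ∧ y ≠ 0) ∨ (y = 0 ∧ x ≠ 0)
  symm := ⟨by decide⟩
  loopless := ⟨by decide⟩

instance : DecidableRel claw.Adj := fun x y =>
  inferInstanceAs (Decidable ((x = 0 ∧ y ≠ 0) ∨ (y = 0 ∧ x ≠ 0)))

theorem claw_colorable : claw.Colorable 2 :=
  ⟨SimpleGraph.Coloring.mk (fun x => if x = 0 then (0 : Fin 2) else 1)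
    (by intro u v; revert u v; decide)⟩

/-- Every graph that is not two-colourable has a claw-free induced subgraph that is not
two-colourable, namely the one on a shortest odd closed walk. -/
theorem exists_clawfree {V : Type} (G : SimpleGraph V) (hG : ¬ G.Colorable 2) :
    ∃ s : Set V, ¬ claw.IsIndContained (G.induce s) ∧ ¬ (G.induce s).Colorable 2 := by
  classical
  have hex : ∃ n, Odd n ∧ ∃ (u : V) (w : G.Walk u u), w.length = n := by
    rw [two_colorable_iff_forall_loop_even] at hG
    push Not at hG
    obtain ⟨u, w, hw⟩ := hG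
    exact ⟨w.length, Nat.not_even_iff_odd.1 hw, u, w, rfl⟩
  obtain ⟨hodd, u, w, hw⟩ := Nat.find_spec hex
  have hmin : ∀ m, Odd m → ∀ (x : V) (p : G.Walk x x), p.length = m → Nat.find hex ≤ m :=
    fun m hm x p hp => Nat.find_min' hex ⟨hm, x, p, hp⟩
  generalize Nat.find hex = n at hodd hw hmin
  -- chords of the walk
  have chord : ∀ i j, i < j → j < n → G.Adj (w.getVert i) (w.getVert j) →
      j = i + 1 ∨ j + 1 = i + n := by
    intro i j hij hjn hadj
    let p1 : G.Walk (w.getVert i) (w.getVert j) := ((w.drop i).take (j - i)).copy rfl (by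
      rw [Walk.drop_getVert]; congr 1; omega)
    have hp1 : p1.length = j - i := by
      simp only [p1, Walk.length_copy, Walk.take_length, Walk.drop_length]
      omega
    let c1 : G.Walk (w.getVert j) (w.getVert j) := Walk.cons hadj.symm p1
    have hc1 : c1.length = j - i + 1 := by simp only [c1, Walk.length_cons, hp1]
    let c2 : G.Walk u u := (w.take i).append (Walk.cons hadj (w.drop j))
    have hc2 : c2.length = i + (n - j + 1) := by
      simp only [c2, Walk.length_append, Walk.length_cons, Walk.take_length, Walk.drop_length, hw]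
      omega
    rcases Nat.even_or_odd (j - i + 1) with he | ho
    · have ho : Odd (i + (n - j + 1)) := by
        rw [Nat.odd_iff] at hodd ⊢
        rw [Nat.even_iff] at he
        omega
      have := hmin _ ho _ c2 hc2
      omega
    · have := hmin _ ho _ c1 hc1
      omega
  refine ⟨{x | x ∈ w.support}, ?_, ?_⟩
  · rintro ⟨e⟩
    have hpos : ∀ x ∈ w.support, ∃ i < n, w.getVert i = x := by
      intro x hx
      obtain ⟨i, hi, hin⟩ := Walk.mem_support_iff_exists_getVert.1 hx
      rcases Nat.lt_or_ge i n with h | h
      · exact ⟨i, h, hi⟩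
      · refine ⟨0, ?_, ?_⟩
        · rcases hodd with ⟨k, hk⟩; omega
        · have : i = w.length := by omega
          rw [this, Walk.getVert_length] at hi
          rw [Walk.getVert_zero, hi]
    choose g hg1 hg2 using hpos
    let f : Fin 4 → ℕ := fun a => g (e a).1 (e a).2
    have hf1 : ∀ a, f a < n := fun a => hg1 _ _
    have hf2 : ∀ a, w.getVert (f a) = (e a : V) := fun a => hg2 _ _
    have hfne : ∀ a b, a ≠ b → f a ≠ f b := by
      intro a b hab h
      apply hab
      apply e.injective
      apply Subtype.ext
      rw [← hf2 a, ← hf2 b, h]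
    have hfadj : ∀ a, a ≠ 0 → f a = f 0 + 1 ∨ f a + 1 = f 0 + n ∨ f 0 = f a + 1 ∨
        f 0 + 1 = f a + n := by
      intro a ha
      have h1 : claw.Adj 0 a := Or.inl ⟨rfl, ha⟩
      have h2 : (G.induce {x | x ∈ w.support}).Adj (e 0) (e a) := e.map_rel_iff.2 h1
      rw [SimpleGraph.induce_adj, ← hf2 0, ← hf2 a] at h2
      rcases lt_trichotomy (f 0) (f a) with h | h | h
      · rcases chord _ _ h (hf1 a) h2 with h | h
        · exact Or.inl h
        · exact Or.inr (Or.inl h)
      · exact absurd h (hfne 0 a ha.symm)
      · rcases chord _ _ h (hf1 0) h2.symm with h | h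
        · exact Or.inr (Or.inr (Or.inl h))
        · exact Or.inr (Or.inr (Or.inr h))
    have h1 := hfadj 1 (by decide)
    have h2 := hfadj 2 (by decide)
    have h3 := hfadj 3 (by decide)
    have h12 := hfne 1 2 (by decide)
    have h13 := hfne 1 3 (by decide)
    have h23 := hfne 2 3 (by decide)
    have hb0 := hf1 0
    have hb1 := hf1 1
    have hb2 := hf1 2
    have hb3 := hf1 3
    omega
  · intro hc
    rw [two_colorable_iff_forall_loop_even] at hc
    have h1 := hc _ (w.induce {x | x ∈ w.support} (fun x hx => hx))
    have h2 : (w.induce {x | x ∈ w.support} (fun x hx => hx)).length = w.length := by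
      have h3 := congrArg Walk.length (w.map_induce (s := {x | x ∈ w.support}) (fun x hx => hx))
      exact (Walk.length_map _ _).symm.trans h3
    rw [h2, hw] at h1
    exact (Nat.not_even_iff_odd.2 hodd) h1

/-- The negation of the preceding statement: For every finite graph F with an edge and every r, some finite graph G has chromatic number above r and clique number equal to F's, and every induced subgraph of G with no induced copy of F has chromatic number at most that of F. -/
theorem result :
    ¬ (∀ (n : ℕ) (F : SimpleGraph (Fin n)), F ≠ ⊥ →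
      ∀ r : ℕ, ∃ (m : ℕ) (G : SimpleGraph (Fin m)),
        (r : ℕ∞) < G.chromaticNumber ∧
        G.cliqueNum = F.cliqueNum ∧
        ∀ s : Set (Fin m), ¬ F.IsIndContained (G.induce s) →
          (G.induce s).chromaticNumber ≤ F.chromaticNumber) := by
  intro h
  have hne : claw ≠ ⊥ := by
    intro h
    have h1 : claw.Adj 0 1 := by decide
    rw [h] at h1
    exact h1
  obtain ⟨m, G, hr, -, hs⟩ := h 4 claw hne 2
  have hG : ¬ G.Colorable 2 := by
    intro hc
    have h1 := hc.chromaticNumber_le
    exact absurd (lt_of_lt_of_le hr h1) (lt_irrefl _)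
  obtain ⟨s, hs1, hs2⟩ := exists_clawfree G hG
  have h1 := hs s hs1
  have h2 : claw.chromaticNumber ≤ 2 := claw_colorable.chromaticNumber_le
  exact hs2 (SimpleGraph.chromaticNumber_le_iff_colorable.1 (h1.trans h2))

end Pool.Agent.S07942
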