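import Pool.Statements.S07963
import Pool.Agent.V11147.CliqueRatio

set_option autoImplicit false
open Pool Pool.MP_31cced_co

namespace Pool.Agent.S07963

open Pool.Agent.V11147.CliqueRatio in
lemma card_coloring (V : Type) [Fintype V] (G : SimpleGraph V) (μ : ℕ) :
    Nat.card (G.Coloring (Fin μ)) = (Col G Finset.univ μ).card := by
  rw [← Fintype.card_coe, ← Nat.card_eq_fintype_card]
  symm
  apply Nat.card_congr
  refine ⟨fun f => SimpleGraph.Coloring.mk
      (fun v => ⟨f.1 v, (mem_Col.1 f.2).1 v (Finset.mem_univ v)⟩) ?_,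
    fun c => ⟨fun v => (c v : ℕ), ?_⟩, ?_, ?_⟩
  · intro v w hvw h
    exact (mem_Col.1 f.2).2.2 v (Finset.mem_univ v) w (Finset.mem_univ w) hvw
      (congrArg Fin.val h)
  · rw [mem_Col]
    exact ⟨fun v _ => (c v).2, fun v hv => absurd (Finset.mem_univ v) hv,
      fun a _ b _ hab h => c.valid hab (Fin.ext h)⟩
  · intro f
    rfl
  · intro c
    ext v
    rfl

/-- For every finite simple graph G on n vertices with clique number ω and every integer λ ≥ n, the number of proper (λ−1)-colourings divided by the number of proper λ-colourings is at most (1−ω/λ)(1−1/λ)^(n−ω). -/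
theorem result :
    ∀ (V : Type) [Fintype V] (G : SimpleGraph V) (lam : ℕ),
      Fintype.card V ≤ lam →
      (Nat.card (G.Coloring (Fin (lam - 1))) : ℝ) / (Nat.card (G.Coloring (Fin lam)) : ℝ)
        ≤ (1 - ((sSup {k : ℕ | ∃ s : Finset V, G.IsNClique k s} : ℕ) : ℝ) / (lam : ℝ))
          * (1 - 1 / (lam : ℝ)) ^ (Fintype.card V - sSup {k : ℕ | ∃ s : Finset V, G.IsNClique k s}) := by
  intro V _ G lam hn
  classical
  rw [card_coloring, card_coloring]
  -- the clique number is attained
  have hmem : sSup {k : ℕ | ∃ s : Finset V, G.IsNClique k s} ∈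
      {k : ℕ | ∃ s : Finset V, G.IsNClique k s} := by
    apply Nat.sSup_mem
    · exact ⟨0, ∅, by simp⟩
    · refine ⟨Fintype.card V, ?_⟩
      rintro k ⟨s, hs⟩
      rw [← hs.card_eq]
      exact Finset.card_le_univ s
  obtain ⟨K, hK⟩ := hmem
  generalize sSup {k : ℕ | ∃ s : Finset V, G.IsNClique k s} = k at hK ⊢
  have hkV : k ≤ Fintype.card V := by
    rw [← hK.card_eq]
    exact Finset.card_le_univ K
  rcases Nat.eq_zero_or_pos lam with h0 | h0
  · -- no vertices, no colours
    subst h0
    have hV : Fintype.card V = 0 := Nat.le_zero.1 hn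
    have hk0 : k = 0 := by omega
    subst hk0
    rw [hV]
    simp only [Nat.cast_zero, zero_div, sub_zero, Nat.sub_zero, pow_zero, mul_one,
      Nat.zero_sub]
    exact div_self_le_one _
  · have hmain := Pool.Agent.V11147.CliqueRatio.main (V := V) lam h0 (Fintype.card V) hn k G
      Finset.univ K Finset.card_univ hK.card_eq (Finset.subset_univ K)
      (fun a ha b hb hab => hK.isClique ha hb hab)
    apply div_le_of_le_mul₀ (Nat.cast_nonneg _) _ hmain
    exact Pool.Agent.V11147.CliqueRatio.rho_nonneg h0 (by omega)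

end Pool.Agent.S07963
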