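import Pool.Statements.S08250
import Pool.Agent.V11133.FrozenP5S
import Pool.Agent.V11133.FrozenP5K

set_option autoImplicit false
open Pool Pool.MP_3d2668_co

namespace Pool.Agent.S08250

/-- The negation of the preceding statement: There is a finite nonempty graph that is 3-colourable, has no induced 5-vertex path, and has a proper 4-colouring in which every vertex has neighbours of all three colours other than its own. -/
theorem result :
    ¬ (∃ (V : Type) (_ : Fintype V) (_ : Nonempty V) (G : SimpleGraph V),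
      G.Colorable 3 ∧
      IsEmpty (SimpleGraph.pathGraph 5 ↪g G) ∧
      ∃ c : G.Coloring (Fin 4), ∀ v : V, ∀ i : Fin 4, i ≠ c v →
        ∃ w : V, G.Adj v w ∧ c w = i) := by
  rintro ⟨V, _, ⟨v0⟩, G, hcol, hP5, c, hfroz⟩
  classical
  obtain ⟨d⟩ := hcol
  have hd : ∀ u v, G.Adj u v → d u ≠ d v := fun u v h => d.valid h
  -- rename the colours so that `v0` has colour `0`
  set σ : Equiv.Perm (Fin 4) := Equiv.swap (c v0) 0 with hσ
  have hc : ∀ u v, G.Adj u v → σ (c u) ≠ σ (c v) := by
    intro u v h he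
    exact c.valid h (σ.injective he)
  have hf : ∀ (v : V) (i : Fin 4), i ≠ σ (c v) → ∃ w, G.Adj v w ∧ σ (c w) = i := by
    intro v i hi
    obtain ⟨w, hw1, hw2⟩ := hfroz v (σ.symm i) (by
      intro h
      apply hi
      rw [← h, Equiv.apply_symm_apply])
    exact ⟨w, hw1, by rw [hw2, Equiv.apply_symm_apply]⟩
  have h0 : σ (c v0) = 0 := by rw [hσ, Equiv.swap_apply_left]
  refine Pool.Agent.V11133.FrozenP5.check_sound (G := G) (fun v => σ (c v)) hc (fun v => d v) hd
    hf (fun a b c d e h01 h12 h23 h34 h02 h03 h04 h13 h14 h24 =>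
      Pool.Agent.V11133.FrozenP5.pattern_path hP5 a b c d e h01 h12 h23 h34 h02 h03 h04 h13 h14 h24)
    Pool.Agent.V11133.FrozenP5.troot 0 0 0 0 (fun _ => v0) ?_ Pool.Agent.V11133.FrozenP5.chk
  refine ⟨by norm_num, by norm_num, ?_, by simp, by simp⟩
  intro i hi
  simp [h0]

end Pool.Agent.S08250
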