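import Pool.Statements.S08268

set_option autoImplicit false
open Pool Pool.MP_3df3be_co

namespace Pool.Agent.S08268

/-- An injective map sending `A` into a set `S` of the same size hits `S` exactly from `A`. -/
lemma mem_iff_of_card {n : ℕ} (f : Fin n → Fin n) (hf : Function.Injective f)
    (A S : Finset (Fin n)) (hc : A.card = S.card) (h : ∀ a ∈ A, f a ∈ S) (x : Fin n) :
    f x ∈ S ↔ x ∈ A := by
  have hsub : A.image f ⊆ S := by
    intro y hy
    obtain ⟨a, ha, rfl⟩ := Finset.mem_image.mp hy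
    exact h a ha
  have heq : A.image f = S := by
    apply Finset.eq_of_subset_of_card_le hsub
    rw [Finset.card_image_of_injective A hf, hc]
  constructor
  · intro hx
    rw [← heq] at hx
    obtain ⟨a, ha, hax⟩ := Finset.mem_image.mp hx
    rwa [← hf hax]
  · exact h x

/-- In an order-8 latin square, a subsquare of order 4 and one of order 3 cannot coexist. -/
lemma key (L : Fin 8 → Fin 8 → Fin 8)
    (hr : ∀ i, Function.Injective (L i)) (hc : ∀ j, Function.Injective (fun i => L i j))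
    (R C S : Finset (Fin 8)) (hR : R.card = 4) (hC : C.card = 4) (hS : S.card = 4)
    (h4 : ∀ r ∈ R, ∀ c ∈ C, L r c ∈ S)
    (T U V : Finset (Fin 8)) (hT : T.card = 3) (hU : U.card = 3) (hV : V.card = 3)
    (h3 : ∀ r ∈ T, ∀ c ∈ U, L r c ∈ V) : False := by
  classical
  -- the block structure forced by the subsquare of order 4
  have hblock : ∀ r c, L r c ∈ S ↔ (r ∈ R ↔ c ∈ C) := by
    intro r c
    by_cases hrR : r ∈ R
    · have := mem_iff_of_card (L r) (hr r) C S (by rw [hC, hS]) (fun c hc' => h4 r hrR c hc') c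
      simp [hrR, this]
    · have hcompl : ∀ c' ∈ C, L r c' ∈ Sᶜ := by
        intro c' hc'
        rw [Finset.mem_compl]
        intro hmem
        have := (mem_iff_of_card (fun i => L i c') (hc c') R S (by rw [hR, hS])
          (fun r' hr' => h4 r' hr' c' hc') r).mp hmem
        exact hrR this
      have hScard : (Sᶜ : Finset (Fin 8)).card = 4 := by
        rw [Finset.card_compl, hS]; simp
      have := mem_iff_of_card (L r) (hr r) C Sᶜ (by rw [hC, hScard]) hcompl c
      rw [Finset.mem_compl] at this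
      constructor
      · intro hmem
        constructor
        · intro h; exact absurd h hrR
        · intro h; exact absurd hmem (this.mpr h)
      · intro hiff
        by_contra hnot
        exact hrR (hiff.mpr (this.mp hnot))
  have hrow3 : ∀ t ∈ T, ∀ c, L t c ∈ V ↔ c ∈ U := fun t ht c =>
    mem_iff_of_card (L t) (hr t) U V (by rw [hU, hV]) (fun c hc' => h3 t ht c hc') c
  have hcol3 : ∀ u ∈ U, ∀ r, L r u ∈ V ↔ r ∈ T := fun u hu r =>
    mem_iff_of_card (fun i => L i u) (hc u) T V (by rw [hT, hV]) (fun r hr' => h3 r hr' u hu) r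
  -- counting symbols of S in a row of the subsquare of order 3
  have hcountR : ∀ t ∈ T, (V ∩ S).card = (U.filter (fun c => t ∈ R ↔ c ∈ C)).card := by
    intro t ht
    rw [← Finset.card_image_of_injective (U.filter (fun c => t ∈ R ↔ c ∈ C)) (hr t)]
    congr 1
    ext s
    simp only [Finset.mem_inter, Finset.mem_image, Finset.mem_filter]
    constructor
    · rintro ⟨hsV, hsS⟩
      obtain ⟨c, hc'⟩ : ∃ c, L t c = s := (Finite.injective_iff_surjective.mp (hr t)) s
      subst hc'
      exact ⟨c, ⟨(hrow3 t ht c).mp hsV, (hblock t c).mp hsS⟩, rfl⟩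
    · rintro ⟨c, ⟨hcU, hiff⟩, rfl⟩
      exact ⟨h3 t ht c hcU, (hblock t c).mpr hiff⟩
  have hcountC : ∀ u ∈ U, (V ∩ S).card = (T.filter (fun r => r ∈ R ↔ u ∈ C)).card := by
    intro u hu
    rw [← Finset.card_image_of_injective (T.filter (fun r => r ∈ R ↔ u ∈ C)) (hc u)]
    congr 1
    ext s
    simp only [Finset.mem_inter, Finset.mem_image, Finset.mem_filter]
    constructor
    · rintro ⟨hsV, hsS⟩
      obtain ⟨r, hr'⟩ : ∃ r, L r u = s := (Finite.injective_iff_surjective.mp (hc u)) s
      subst hr'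
      exact ⟨r, ⟨(hcol3 u hu r).mp hsV, (hblock r u).mp hsS⟩, rfl⟩
    · rintro ⟨r, ⟨hrT, hiff⟩, rfl⟩
      exact ⟨h3 r hrT u hu, (hblock r u).mpr hiff⟩
  have hRconst : ∀ t₁ ∈ T, ∀ t₂ ∈ T, (t₁ ∈ R ↔ t₂ ∈ R) := by
    by_contra hcon
    push Not at hcon
    obtain ⟨t₁, ht₁, t₂, ht₂, hne⟩ := hcon
    have key2 : ∀ a ∈ T, ∀ b ∈ T, a ∈ R → b ∉ R → False := by
      intro a ha b hb haR hbR
      have e1 := hcountR a ha
      have e2 := hcountR b hb
      have e3 : (U.filter (fun c => a ∈ R ↔ c ∈ C)).card = (U.filter (fun c => c ∈ C)).card := by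
        congr 1; ext c; simp [haR]
      have e4 : (U.filter (fun c => b ∈ R ↔ c ∈ C)).card = (U.filter (fun c => ¬ c ∈ C)).card := by
        congr 1; ext c; simp [hbR]
      have e5 := Finset.card_filter_add_card_filter_not (s := U) (fun c => c ∈ C)
      omega
    rcases hne with ⟨h1, h2⟩ | ⟨h1, h2⟩
    · exact key2 t₁ ht₁ t₂ ht₂ h1 h2
    · exact key2 t₂ ht₂ t₁ ht₁ h2 h1
  have hCconst : ∀ u₁ ∈ U, ∀ u₂ ∈ U, (u₁ ∈ C ↔ u₂ ∈ C) := by
    by_contra hcon
    push Not at hcon
    obtain ⟨t₁, ht₁, t₂, ht₂, hne⟩ := hcon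
    have key2 : ∀ a ∈ U, ∀ b ∈ U, a ∈ C → b ∉ C → False := by
      intro a ha b hb haR hbR
      have e1 := hcountC a ha
      have e2 := hcountC b hb
      have e3 : (T.filter (fun c => c ∈ R ↔ a ∈ C)).card = (T.filter (fun c => c ∈ R)).card := by
        congr 1; ext c; simp [haR]
      have e4 : (T.filter (fun c => c ∈ R ↔ b ∈ C)).card = (T.filter (fun c => ¬ c ∈ R)).card := by
        congr 1; ext c; simp [hbR]
      have e5 := Finset.card_filter_add_card_filter_not (s := T) (fun c => c ∈ R)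
      omega
    rcases hne with ⟨h1, h2⟩ | ⟨h1, h2⟩
    · exact key2 t₁ ht₁ t₂ ht₂ h1 h2
    · exact key2 t₂ ht₂ t₁ ht₁ h2 h1
  -- choose base elements
  obtain ⟨t₀, ht₀⟩ : T.Nonempty := Finset.card_pos.mp (by omega)
  obtain ⟨u₀, hu₀⟩ : U.Nonempty := Finset.card_pos.mp (by omega)
  -- a further row of the same block outside T
  have hrows : (Finset.univ.filter (fun r => (r ∈ R ↔ t₀ ∈ R))).card = 4 := by
    by_cases h : t₀ ∈ R
    · have : (Finset.univ.filter (fun r => (r ∈ R ↔ t₀ ∈ R))) = R := by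
        ext r; simp [h]
      rw [this, hR]
    · have : (Finset.univ.filter (fun r => (r ∈ R ↔ t₀ ∈ R))) = Rᶜ := by
        ext r; simp [h]
      rw [this, Finset.card_compl, hR]; simp
  obtain ⟨t', ht'mem, ht'T⟩ : ∃ t' ∈ (Finset.univ.filter (fun r => (r ∈ R ↔ t₀ ∈ R))), t' ∉ T := by
    by_contra hcon
    push Not at hcon
    have := Finset.card_le_card (fun x hx => hcon x hx : _ ⊆ T)
    omega
  have ht'R : (t' ∈ R ↔ t₀ ∈ R) := (Finset.mem_filter.mp ht'mem).2
  -- the symbols of the block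
  set q : Prop := (t₀ ∈ R ↔ u₀ ∈ C) with hq
  have hW : (Finset.univ.filter (fun s => (s ∈ S ↔ q))).card = 4 := by
    by_cases h : q
    · have : (Finset.univ.filter (fun s => (s ∈ S ↔ q))) = S := by
        ext r; simp [h]
      rw [this, hS]
    · have : (Finset.univ.filter (fun s => (s ∈ S ↔ q))) = Sᶜ := by
        ext r; simp [h]
      rw [this, Finset.card_compl, hS]; simp
  have hVW : V ⊆ Finset.univ.filter (fun s => (s ∈ S ↔ q)) := by
    intro v hv
    obtain ⟨c, hc'⟩ : ∃ c, L t₀ c = v := (Finite.injective_iff_surjective.mp (hr t₀)) v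
    subst hc'
    have hcU := (hrow3 t₀ ht₀ c).mp hv
    rw [Finset.mem_filter]
    refine ⟨Finset.mem_univ _, ?_⟩
    rw [hblock t₀ c, hCconst c hcU u₀ hu₀]
  have hcardW : ((Finset.univ.filter (fun s => (s ∈ S ↔ q))) \ V).card = 1 := by
    rw [Finset.card_sdiff_of_subset hVW, hW, hV]
  have himg : U.image (L t') ⊆ (Finset.univ.filter (fun s => (s ∈ S ↔ q))) \ V := by
    intro s hs
    obtain ⟨u, hu, rfl⟩ := Finset.mem_image.mp hs
    rw [Finset.mem_sdiff, Finset.mem_filter]
    refine ⟨⟨Finset.mem_univ _, ?_⟩, ?_⟩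
    · rw [hblock t' u, ht'R, hCconst u hu u₀ hu₀]
    · intro hmem
      exact ht'T ((hcol3 u hu t').mp hmem)
  have := Finset.card_le_card himg
  rw [Finset.card_image_of_injective U (hr t'), hU, hcardW] at this
  omega

/-- The negation of the preceding statement: For every n there is a latin square of order n such that, for each m with 1 ≤ m and 2m ≤ n, some m rows and m columns meet in an m×m subarray using only m symbols, i.e. a latin subsquare of order m. -/
theorem result :
    ¬ (∀ n : ℕ, ∃ L : Fin n → Fin n → Fin n,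
      (∀ i : Fin n, Function.Bijective (L i)) ∧
      (∀ j : Fin n, Function.Bijective (fun i : Fin n => L i j)) ∧
      ∀ m : ℕ, 1 ≤ m → 2 * m ≤ n →
        ∃ R C S : Finset (Fin n),
          R.card = m ∧ C.card = m ∧ S.card = m ∧
          ∀ r ∈ R, ∀ c ∈ C, L r c ∈ S) := by
  intro h
  obtain ⟨L, hrow, hcol, hsub⟩ := h 8
  obtain ⟨R, C, S, hR, hC, hS, h4⟩ := hsub 4 (by norm_num) (by norm_num)
  obtain ⟨T, U, V, hT, hU, hV, h3⟩ := hsub 3 (by norm_num) (by norm_num)
  exact key L (fun i => (hrow i).1) (fun j => (hcol j).1) R C S hR hC hS h4 T U V hT hU hV h3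

end Pool.Agent.S08268
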