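import Pool.Statements.S08598
-- import your own Pool.Agent.* helpers here

set_option autoImplicit false
open Pool Pool.MP_4a9f27_co

namespace Pool.Agent.S08598

open Multiplicative

/-- the test set: `Z_p × {0}` together with `m` points of `Z_p × {1}` -/
noncomputable def SS (p m : ℕ) [NeZero p] : Finset (Multiplicative (ZMod p × ℤ)) := by
  classical
  exact (Finset.univ.image (fun a : ZMod p => ofAdd ((a, 0) : ZMod p × ℤ))) ∪
    ((Finset.range m).image (fun i : ℕ => ofAdd (((i : ZMod p), 1) : ZMod p × ℤ)))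

lemma mem_SS (p m : ℕ) [NeZero p] (x : Multiplicative (ZMod p × ℤ)) :
    x ∈ SS p m ↔ (toAdd x).2 = 0 ∨ ((toAdd x).2 = 1 ∧ ∃ i < m, ((i : ℕ) : ZMod p) = (toAdd x).1) := by
  classical
  unfold SS
  rw [Finset.mem_union, Finset.mem_image, Finset.mem_image]
  constructor
  · rintro (⟨a, _, rfl⟩ | ⟨i, hi, rfl⟩)
    · left; simp
    · right; exact ⟨by simp, i, Finset.mem_range.1 hi, by simp⟩
  · rintro (h | ⟨h, i, hi, hx⟩)
    · left
      refine ⟨(toAdd x).1, Finset.mem_univ _, ?_⟩
      apply toAdd.injective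
      rw [toAdd_ofAdd]
      exact Prod.ext rfl h.symm
    · right
      refine ⟨i, Finset.mem_range.2 hi, ?_⟩
      apply toAdd.injective
      rw [toAdd_ofAdd]
      exact Prod.ext hx h.symm

/-- upper part -/
noncomputable def UU (p m : ℕ) [NeZero p] : Finset (Multiplicative (ZMod p × ℤ)) := by
  classical
  exact ((Finset.range m).image (fun i : ℕ => ofAdd (((i : ZMod p), 1) : ZMod p × ℤ)))

lemma card_UU (p m : ℕ) [NeZero p] (hm : m ≤ p) : (UU p m).card = m := by
  classical
  unfold UU
  rw [Finset.card_image_of_injOn, Finset.card_range]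
  intro i hi j hj hij
  rw [Finset.coe_range, Set.mem_Iio] at hi hj
  have h1 := congrArg (fun z => (toAdd z).1) hij
  simp only [toAdd_ofAdd] at h1
  have := congrArg ZMod.val h1
  rwa [ZMod.val_cast_of_lt (by omega), ZMod.val_cast_of_lt (by omega)] at this

lemma sum_SS (p m : ℕ) [NeZero p] (hm : m ≤ p) :
    ∑ x ∈ SS p m, (toAdd x).2 = m := by
  classical
  have hd : Disjoint (Finset.univ.image (fun a : ZMod p => ofAdd ((a, 0) : ZMod p × ℤ)))
      (UU p m) := by
    rw [Finset.disjoint_left]
    intro x hx hy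
    unfold UU at hy
    rw [Finset.mem_image] at hx hy
    obtain ⟨a, _, rfl⟩ := hx
    obtain ⟨i, _, h⟩ := hy
    have := congrArg (fun z => (toAdd z).2) h
    simp at this
  have hS : SS p m = (Finset.univ.image (fun a : ZMod p => ofAdd ((a, 0) : ZMod p × ℤ))) ∪ UU p m := rfl
  rw [hS, Finset.sum_union hd]
  have h1 : ∑ x ∈ Finset.univ.image (fun a : ZMod p => ofAdd ((a, 0) : ZMod p × ℤ)), (toAdd x).2 = 0 := by
    apply Finset.sum_eq_zero
    intro x hx
    rw [Finset.mem_image] at hx
    obtain ⟨a, _, rfl⟩ := hx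
    simp
  have h2 : ∑ x ∈ UU p m, (toAdd x).2 = ∑ x ∈ UU p m, (1 : ℤ) := by
    apply Finset.sum_congr rfl
    intro x hx
    unfold UU at hx
    rw [Finset.mem_image] at hx
    obtain ⟨a, _, rfl⟩ := hx
    simp
  rw [h1, h2, Finset.sum_const, card_UU p m hm]
  simp

/-- the bounding box -/
noncomputable def TT (p m : ℕ) [NeZero p] : Finset (Multiplicative (ZMod p × ℤ)) :=
  ((Finset.univ : Finset (ZMod p)) ×ˢ Finset.Icc (0 : ℤ) m).map Multiplicative.ofAdd.toEmbedding

lemma card_TT (p m : ℕ) [NeZero p] : (TT p m).card = p * (m + 1) := by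
  unfold TT
  rw [Finset.card_map, Finset.card_product, Finset.card_univ, ZMod.card, Int.card_Icc]
  congr 1

lemma prods_sub (p m : ℕ) [NeZero p] (hm : m ≤ p) :
    {g : Multiplicative (ZMod p × ℤ) | ∃ l : List (Multiplicative (ZMod p × ℤ)),
      l.Nodup ∧ (∀ x ∈ l, x ∈ SS p m) ∧ l.prod = g} ⊆ (TT p m : Set _) := by
  classical
  rintro g ⟨l, hl, hS, rfl⟩
  have hnn : ∀ x ∈ SS p m, 0 ≤ (toAdd x).2 := by
    intro x hx
    rw [mem_SS] at hx
    rcases hx with h | ⟨h, _⟩ <;> omega
  have hprod : (toAdd l.prod).2 = ∑ x ∈ l.toFinset, (toAdd x).2 := by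
    have h1 : ∀ l : List (Multiplicative (ZMod p × ℤ)),
        (toAdd l.prod).2 = (l.map (fun x => (toAdd x).2)).sum := by
      intro l
      induction l with
      | nil => simp
      | cons a t ih => rw [List.prod_cons, toAdd_mul, Prod.snd_add, ih, List.map_cons, List.sum_cons]
    rw [h1, List.sum_toFinset _ hl]
  have hle : (toAdd l.prod).2 ≤ m := by
    rw [hprod, ← sum_SS p m hm]
    apply Finset.sum_le_sum_of_subset_of_nonneg
    · intro x hx
      exact hS x (List.mem_toFinset.1 hx)
    · intro x hx _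
      exact hnn x hx
  have hge : 0 ≤ (toAdd l.prod).2 := by
    rw [hprod]
    exact Finset.sum_nonneg fun x hx => hnn x (hS x (List.mem_toFinset.1 hx))
  rw [Finset.mem_coe]
  unfold TT
  rw [Finset.mem_map]
  refine ⟨toAdd l.prod, ?_, rfl⟩
  rw [Finset.mem_product, Finset.mem_Icc]
  exact ⟨Finset.mem_univ _, hge, hle⟩

/-- a finite subgroup lies in `Z_p × {0}` -/
lemma fin_sub (p : ℕ) [NeZero p] (H : Subgroup (Multiplicative (ZMod p × ℤ)))
    (hH : (H : Set (Multiplicative (ZMod p × ℤ))).Finite) :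
    ∀ x ∈ H, (toAdd x).2 = 0 := by
  intro x hx
  by_contra hne
  apply Set.infinite_of_injective_forall_mem (f := fun n : ℕ => x ^ n) ?_ ?_ hH
  · intro a b hab
    have h1 := congrArg (fun z => (toAdd z).2) hab
    simp only [toAdd_pow, nsmul_eq_mul] at h1
    have h2 := mul_right_cancel₀ hne h1
    exact Int.ofNat_inj.1 h2
  · intro n
    exact H.pow_mem hx n

/-- The negation of the preceding statement: There is c>0 such that for every group G and finite S in G, some finite subgroup H has #(products of distinct elements of S in any order, including 1) at least ∣H∣ + c·∣H∣·∣S minus H∣². -/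
theorem result :
    ¬ (∃ c : ℝ, 0 < c ∧ ∀ (G : Type) [Group G] (S : Finset G),
      ∃ H : Subgroup G, (H : Set G).Finite ∧
        ((Set.ncard {g : G | ∃ l : List G, l.Nodup ∧ (∀ x ∈ l, x ∈ S) ∧ l.prod = g} : ℕ) : ℝ)
          ≥ (Nat.card H : ℝ) + c * (Nat.card H : ℝ)
              * ((Set.ncard ((S : Set G) \ (H : Set G)) : ℕ) : ℝ) ^ 2) := by
  classical
  rintro ⟨c, hc, h⟩
  obtain ⟨m, hm⟩ := exists_nat_gt (1 / c)
  have hcm : 1 < c * m := by
    rw [div_lt_iff₀ hc] at hm
    linarith
  have hm1 : 1 ≤ m := by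
    by_contra h0
    have : m = 0 := by omega
    subst this
    simp at hcm
    linarith
  obtain ⟨B, hB⟩ := exists_nat_gt (((m : ℝ) + 1) / c)
  obtain ⟨p, hpB, hp⟩ := Nat.exists_infinite_primes (max B m)
  have hpm : m ≤ p := le_trans (le_max_right _ _) hpB
  have hpB' : (m : ℝ) + 1 < c * p := by
    have h1 : (B : ℝ) ≤ p := by exact_mod_cast le_trans (le_max_left _ _) hpB
    rw [div_lt_iff₀ hc] at hB
    nlinarith
  have : Fact p.Prime := ⟨hp⟩
  have : NeZero p := ⟨hp.ne_zero⟩
  obtain ⟨H, hHf, hH⟩ := h (Multiplicative (ZMod p × ℤ)) (SS p m)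
  have hub : (Set.ncard {g : Multiplicative (ZMod p × ℤ) |
      ∃ l : List (Multiplicative (ZMod p × ℤ)),
      l.Nodup ∧ (∀ x ∈ l, x ∈ SS p m) ∧ l.prod = g} : ℕ) ≤ p * (m + 1) := by
    rw [← card_TT p m, ← Set.ncard_coe_finset]
    exact Set.ncard_le_ncard (prods_sub p m hpm) (Finset.finite_toSet _)
  have hub' : ((Set.ncard {g : Multiplicative (ZMod p × ℤ) |
      ∃ l : List (Multiplicative (ZMod p × ℤ)),
      l.Nodup ∧ (∀ x ∈ l, x ∈ SS p m) ∧ l.prod = g} : ℕ) : ℝ) ≤ (p : ℝ) * (m + 1) := by
    exact_mod_cast hub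
  have h0 := fin_sub p H hHf
  -- the subgroup Z_p × 0
  let K : Subgroup (Multiplicative (ZMod p × ℤ)) :=
    { carrier := {x | (toAdd x).2 = 0}
      mul_mem' := by
        intro a b ha hb
        simp only [Set.mem_ofPred_eq] at ha hb ⊢
        simp [ha, hb]
      one_mem' := by simp
      inv_mem' := by
        intro a ha
        simp only [Set.mem_ofPred_eq] at ha ⊢
        simp [ha] }
  have hK : ∀ x, x ∈ K ↔ (toAdd x).2 = 0 := fun x => Iff.rfl
  have hHK : H ≤ K := fun x hx => h0 x hx
  have hKcard : Nat.card K = p := by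
    have e : K ≃ ZMod p :=
      { toFun := fun x => (toAdd x.1).1
        invFun := fun a => ⟨ofAdd (a, 0), by rw [hK]; simp⟩
        left_inv := by
          rintro ⟨x, hx⟩
          apply Subtype.ext
          apply toAdd.injective
          rw [toAdd_ofAdd]
          exact Prod.ext rfl ((hK x).1 hx).symm
        right_inv := by
          intro a
          simp }
    rw [Nat.card_congr e, Nat.card_eq_fintype_card, ZMod.card]
  have hdvd : Nat.card H ∣ p := by
    have h1 := Subgroup.card_dvd_of_le hHK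
    rwa [hKcard] at h1
  rcases (Nat.dvd_prime hp).1 hdvd with h1 | h1
  · -- trivial subgroup
    have hbot : H = ⊥ := by
      rw [← Subgroup.card_eq_one]; exact h1
    have hsub : Finset.univ.image (fun a : ZMod p => ofAdd ((a, 0) : ZMod p × ℤ)) ⊆ SS p m := by
      unfold SS; exact Finset.subset_union_left
    have hlow : p ≤ Set.ncard ((SS p m : Set (Multiplicative (ZMod p × ℤ))) \ (H : Set _)) := by
      rw [hbot]
      have : ((SS p m : Set (Multiplicative (ZMod p × ℤ))) \
            ((⊥ : Subgroup (Multiplicative (ZMod p × ℤ))) : Set (Multiplicative (ZMod p × ℤ))))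
          = (((SS p m).erase 1 : Finset (Multiplicative (ZMod p × ℤ))) : Set (Multiplicative (ZMod p × ℤ))) := by
        ext x
        simp [and_comm]
      rw [this, Set.ncard_coe_finset]
      have hone : (1 : Multiplicative (ZMod p × ℤ)) ∈ SS p m := by
        rw [mem_SS]; left; simp
      rw [Finset.card_erase_of_mem hone]
      have hlt : p < (SS p m).card := by
        have h2 : (Finset.univ.image (fun a : ZMod p => ofAdd ((a, 0) : ZMod p × ℤ))).card = p := by
          rw [Finset.card_image_of_injective, Finset.card_univ, ZMod.card]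
          intro a b hab
          have := congrArg (fun z => (toAdd z).1) hab
          simpa using this
        refine lt_of_eq_of_lt h2.symm ?_
        apply Finset.card_lt_card
        refine ⟨hsub, ?_⟩
        intro hcon
        have : ofAdd (((0 : ℕ) : ZMod p), (1 : ℤ)) ∈ SS p m := by
          rw [mem_SS]; right
          exact ⟨by simp, 0, by omega, by simp⟩
        have := hcon this
        rw [Finset.mem_image] at this
        obtain ⟨a, _, ha⟩ := this
        have := congrArg (fun z => (toAdd z).2) ha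
        simp at this
      omega
    rw [h1] at hH
    have hlow' : (p : ℝ) ≤ (Set.ncard ((SS p m : Set (Multiplicative (ZMod p × ℤ))) \ (H : Set _)) : ℝ) := by
      exact_mod_cast hlow
    have hp0 : (0 : ℝ) < p := by exact_mod_cast hp.pos
    have h5 : (p : ℝ) ^ 2 ≤ (Set.ncard ((SS p m : Set (Multiplicative (ZMod p × ℤ))) \ (H : Set _)) : ℝ) ^ 2 := by
      apply pow_le_pow_left₀ hp0.le hlow'
    have h6 : c * (p : ℝ) ^ 2 ≤ c * (Set.ncard ((SS p m : Set (Multiplicative (ZMod p × ℤ))) \ (H : Set _)) : ℝ) ^ 2 :=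
      mul_le_mul_of_nonneg_left h5 hc.le
    have h7 : (p : ℝ) * (m + 1) ≤ c * (p : ℝ) ^ 2 := by nlinarith
    push_cast at hH
    linarith
  · -- the whole of Z_p × 0
    have hHeq : H = K := by
      have : Finite K := Nat.finite_of_card_ne_zero (by rw [hKcard]; exact hp.ne_zero)
      apply Subgroup.eq_of_le_of_card_ge hHK
      rw [h1, hKcard]
    have hlow : m ≤ Set.ncard ((SS p m : Set (Multiplicative (ZMod p × ℤ))) \ (H : Set _)) := by
      refine le_trans (b := Set.ncard (UU p m : Set (Multiplicative (ZMod p × ℤ)))) ?_ ?_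
      · rw [Set.ncard_coe_finset, card_UU p m hpm]
      apply Set.ncard_le_ncard
      · intro x hx
        rw [Finset.mem_coe] at hx
        refine ⟨?_, ?_⟩
        · rw [Finset.mem_coe]
          exact Finset.mem_union_right _ hx
        · intro hxH
          rw [hHeq] at hxH
          have h2 : (toAdd x).2 = 0 := (hK x).1 hxH
          unfold UU at hx
          rw [Finset.mem_image] at hx
          obtain ⟨i, _, rfl⟩ := hx
          simp at h2
      · exact (Finset.finite_toSet _).subset Set.sdiff_subset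
    rw [h1] at hH
    have hlow' : (m : ℝ) ≤ (Set.ncard ((SS p m : Set (Multiplicative (ZMod p × ℤ))) \ (H : Set _)) : ℝ) := by
      exact_mod_cast hlow
    have hp0 : (0 : ℝ) < p := by exact_mod_cast hp.pos
    have hm0 : (0 : ℝ) < m := by exact_mod_cast hm1
    have h5 : (m : ℝ) ^ 2 ≤ (Set.ncard ((SS p m : Set (Multiplicative (ZMod p × ℤ))) \ (H : Set _)) : ℝ) ^ 2 := by
      apply pow_le_pow_left₀ hm0.le hlow'
    have h6 : c * p * (m : ℝ) ^ 2 ≤ c * p * (Set.ncard ((SS p m : Set (Multiplicative (ZMod p × ℤ))) \ (H : Set _)) : ℝ) ^ 2 :=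
      mul_le_mul_of_nonneg_left h5 (by positivity)
    have h7 : (p : ℝ) * m < c * p * (m : ℝ) ^ 2 := by
      have : (p : ℝ) * m * 1 < (p : ℝ) * m * (c * m) := by
        apply mul_lt_mul_of_pos_left hcm (by positivity)
      nlinarith
    linarith

end Pool.Agent.S08598
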