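import Pool.Statements.S08686

set_option autoImplicit false
open Pool Pool.MP_4e7ec3_co

namespace Pool.Agent.S08686

/-- The map used in the counterexample: on the set `{0, 1/10, 1/5, 4/5, 9/10, 1}` it sends
`0 ↦ 1/10`, `1/10 ↦ 0`, `1/5 ↦ 0`, `4/5 ↦ 1`, `9/10 ↦ 1`, `1 ↦ 9/10`. -/
noncomputable def T0 (p : ℝ) : ℝ :=
  if p < 1 / 20 then 1 / 10 else if p < 1 / 2 then 0 else if p < 19 / 20 then 1 else 9 / 10

lemma T0_low {p : ℝ} (hp : p ≤ 1 / 5) : T0 p ≤ 1 / 10 := by
  unfold T0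
  split_ifs <;> linarith

lemma T0_high {p : ℝ} (hp : 4 / 5 ≤ p) : 9 / 10 ≤ T0 p := by
  unfold T0
  split_ifs <;> linarith

theorem result :
    ¬ (∃ k : ℝ, ∀ (F : Finset ℝ) (ε : ℝ) (T : ℝ → ℝ),
      (∀ p ∈ F, 0 ≤ p ∧ p ≤ 1) → (0 : ℝ) ∈ F → (1 : ℝ) ∈ F → 0 < ε →
      (∀ p ∈ F, T p ∈ F ∧ ε < |p - T p|) →
      ∃ p₀ ∈ F, ∃ n : ℕ, (n : ℝ) ≤ k / ε ∧
        ∃ x : ℕ → ℝ, x 0 = p₀ ∧
          (∀ i < n,
            x (i + 1) = T (x i) ∨
            (x (i + 1) ∈ F ∧ x (i + 1) < T (x i) ∧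
              ∀ r ∈ F, r < T (x i) → r ≤ x (i + 1)) ∨
            (x (i + 1) ∈ F ∧ T (x i) < x (i + 1) ∧
              ∀ r ∈ F, T (x i) < r → x (i + 1) ≤ r)) ∧
          1 / 3 ≤ |x n - p₀|) := by
  rintro ⟨k, h⟩
  obtain ⟨p₀, hp₀, n, -, x, hx0, hstep, hfar⟩ :=
    h {0, 1 / 10, 1 / 5, 4 / 5, 9 / 10, 1} (1 / 20) T0
      (by
        intro p hp
        simp only [Finset.mem_insert, Finset.mem_singleton] at hp
        rcases hp with rfl | rfl | rfl | rfl | rfl | rfl <;> norm_num)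
      (by simp) (by simp) (by norm_num)
      (by
        intro p hp
        simp only [Finset.mem_insert, Finset.mem_singleton] at hp
        rcases hp with rfl | rfl | rfl | rfl | rfl | rfl
        all_goals
          unfold T0
          norm_num [abs_of_pos, abs_of_neg])
  have hcase : p₀ ≤ 1 / 5 ∨ 4 / 5 ≤ p₀ := by
    simp only [Finset.mem_insert, Finset.mem_singleton] at hp₀
    rcases hp₀ with rfl | rfl | rfl | rfl | rfl | rfl <;> norm_num
  have hbd : 0 ≤ p₀ ∧ p₀ ≤ 1 := by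
    simp only [Finset.mem_insert, Finset.mem_singleton] at hp₀
    rcases hp₀ with rfl | rfl | rfl | rfl | rfl | rfl <;> norm_num
  have hF : ∀ y ∈ ({0, 1 / 10, 1 / 5, 4 / 5, 9 / 10, 1} : Finset ℝ), 0 ≤ y ∧ y ≤ 1 := by
    intro p hp
    simp only [Finset.mem_insert, Finset.mem_singleton] at hp
    rcases hp with rfl | rfl | rfl | rfl | rfl | rfl <;> norm_num
  have hT01 : ∀ y, 0 ≤ T0 y ∧ T0 y ≤ 1 := by
    intro y
    unfold T0
    split_ifs <;> norm_num
  rcases hcase with hlow | hhigh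
  · have key : ∀ i ≤ n, 0 ≤ x i ∧ x i ≤ 1 / 5 := by
      intro i
      induction i with
      | zero =>
        intro _
        rw [hx0]
        exact ⟨hbd.1, hlow⟩
      | succ i ih =>
        intro hi
        have hxi := ih (by omega)
        have hT := T0_low hxi.2
        rcases hstep i (by omega) with h1 | ⟨hm, h1, -⟩ | ⟨hm, h1, h2⟩
        · rw [h1]
          exact ⟨(hT01 _).1, by linarith⟩
        · exact ⟨(hF _ hm).1, by linarith⟩
        · exact ⟨(hF _ hm).1, h2 (1 / 5) (by simp) (by linarith)⟩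
    have hn := key n le_rfl
    have : |x n - p₀| ≤ 1 / 5 := by
      rw [abs_le]
      constructor <;> linarith [hn.1, hn.2, hbd.1]
    linarith
  · have key : ∀ i ≤ n, 4 / 5 ≤ x i ∧ x i ≤ 1 := by
      intro i
      induction i with
      | zero =>
        intro _
        rw [hx0]
        exact ⟨hhigh, hbd.2⟩
      | succ i ih =>
        intro hi
        have hxi := ih (by omega)
        have hT := T0_high hxi.1
        rcases hstep i (by omega) with h1 | ⟨hm, h1, h2⟩ | ⟨hm, h1, -⟩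
        · rw [h1]
          exact ⟨by linarith, (hT01 _).2⟩
        · exact ⟨h2 (4 / 5) (by simp) (by linarith), (hF _ hm).2⟩
        · exact ⟨by linarith, (hF _ hm).2⟩
    have hn := key n le_rfl
    have : |x n - p₀| ≤ 1 / 5 := by
      rw [abs_le]
      constructor <;> linarith [hn.1, hn.2, hbd.2]
    linarith

end Pool.Agent.S08686
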