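import Pool.Statements.S08706

set_option autoImplicit false
open Pool Pool.MP_4f8534_co

namespace Pool.Agent.S08706

open SimpleGraph

/-- Names of the stable sets of the Burling graphs. -/
inductive I : ℕ → Type
  | base : I 0
  | mk {k : ℕ} (S Q : I k) (b : Bool) : I (k + 1)

/-- Vertices of the Burling graphs. -/
inductive B : ℕ → Type
  | base : B 0
  | top {k : ℕ} (v : B k) : B (k + 1)
  | copy {k : ℕ} (S : I k) (v : B k) : B (k + 1)
  | newv {k : ℕ} (S Q : I k) : B (k + 1)

/-- Membership of vertices in the stable sets. -/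
def Mem : {k : ℕ} → B k → I k → Prop
  | _, .base, .base => True
  | _, .top v, .mk S _ _ => Mem v S
  | _, .copy S' v, .mk S Q b => S' = S ∧ b = false ∧ Mem v Q
  | _, .newv S' Q', .mk S Q b => S' = S ∧ Q' = Q ∧ b = true

/-- Adjacency of the Burling graphs. -/
def Adj : {k : ℕ} → B k → B k → Prop
  | _, .base, .base => False
  | _, .top u, .top v => Adj u v
  | _, .top _, .copy _ _ => False
  | _, .top _, .newv _ _ => False
  | _, .copy _ _, .top _ => False
  | _, .copy S u, .copy S' v => S = S' ∧ Adj u v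
  | _, .copy S u, .newv S' Q => S = S' ∧ Mem u Q
  | _, .newv _ _, .top _ => False
  | _, .newv S' Q, .copy S u => S = S' ∧ Mem u Q
  | _, .newv _ _, .newv _ _ => False

theorem Adj.symm : ∀ {k : ℕ} (u v : B k), Adj u v → Adj v u
  | _, .base, .base, h => h
  | _, .top u, .top v, h => by
      simp only [Adj] at h ⊢
      exact Adj.symm u v h
  | _, .top _, .copy _ _, h => by simp [Adj] at h
  | _, .top _, .newv _ _, h => by simp [Adj] at h
  | _, .copy _ _, .top _, h => by simp [Adj] at h
  | _, .copy S u, .copy S' v, h => by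
      simp only [Adj] at h ⊢
      exact ⟨h.1.symm, Adj.symm u v h.2⟩
  | _, .copy S u, .newv S' Q, h => by
      simp only [Adj] at h ⊢
      exact h
  | _, .newv _ _, .top _, h => by simp [Adj] at h
  | _, .newv S' Q, .copy S u, h => by
      simp only [Adj] at h ⊢
      exact h
  | _, .newv _ _, .newv _ _, h => by simp [Adj] at h

theorem Adj.irrefl : ∀ {k : ℕ} (u : B k), ¬ Adj u u
  | _, .base, h => by simp [Adj] at h
  | _, .top u, h => by
      simp only [Adj] at h
      exact Adj.irrefl u h
  | _, .copy S u, h => by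
      simp only [Adj] at h
      exact Adj.irrefl u h.2
  | _, .newv _ _, h => by simp [Adj] at h

theorem stable : ∀ {k : ℕ} (u v : B k) (S : I k), Mem u S → Mem v S → ¬ Adj u v
  | _, .base, .base, _, _, _, h => by simp [Adj] at h
  | _, .top u, .top v, .mk S _ _, h1, h2, h => by
      simp only [Mem] at h1 h2
      simp only [Adj] at h
      exact stable u v S h1 h2 h
  | _, .top _, .copy _ _, _, _, _, h => by simp [Adj] at h
  | _, .top _, .newv _ _, _, _, _, h => by simp [Adj] at h
  | _, .copy _ _, .top _, _, _, _, h => by simp [Adj] at h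
  | _, .copy S u, .copy S' v, .mk _ Q _, h1, h2, h => by
      simp only [Mem] at h1 h2
      simp only [Adj] at h
      exact stable u v Q h1.2.2 h2.2.2 h.2
  | _, .copy S u, .newv S' Q, .mk _ _ b, h1, h2, h => by
      simp only [Mem] at h1 h2
      have := h1.2.1.symm.trans h2.2.2
      simp at this
  | _, .newv _ _, .top _, _, _, _, h => by simp [Adj] at h
  | _, .newv S' Q, .copy S u, .mk _ _ b, h1, h2, h => by
      simp only [Mem] at h1 h2
      have := h2.2.1.symm.trans h1.2.2
      simp at this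
  | _, .newv _ _, .newv _ _, _, _, _, h => by simp [Adj] at h

theorem triangleFree : ∀ {k : ℕ} (u v w : B k), Adj u v → Adj v w → ¬ Adj u w
  | _, .base, .base, _, h, _, _ => by simp [Adj] at h
  | _, .top u, .top v, .top w, h1, h2, h3 => by
      simp only [Adj] at h1 h2 h3
      exact triangleFree u v w h1 h2 h3
  | _, .top u, .top v, .copy _ _, _, h, _ => by simp [Adj] at h
  | _, .top u, .top v, .newv _ _, _, h, _ => by simp [Adj] at h
  | _, .top _, .copy _ _, _, h, _, _ => by simp [Adj] at h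
  | _, .top _, .newv _ _, _, h, _, _ => by simp [Adj] at h
  | _, .copy _ _, .top _, _, h, _, _ => by simp [Adj] at h
  | _, .copy S u, .copy S' v, .top _, _, h, _ => by simp [Adj] at h
  | _, .copy S u, .copy S' v, .copy S'' w, h1, h2, h3 => by
      simp only [Adj] at h1 h2 h3
      exact triangleFree u v w h1.2 h2.2 h3.2
  | _, .copy S u, .copy S' v, .newv S'' Q, h1, h2, h3 => by
      simp only [Adj] at h1 h2 h3
      exact stable u v Q h3.2 h2.2 h1.2
  | _, .copy S u, .newv S' Q, .top _, _, h, _ => by simp [Adj] at h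
  | _, .copy S u, .newv S' Q, .copy _ w, h1, h2, h3 => by
      simp only [Adj] at h1 h2 h3
      exact stable u w Q h1.2 h2.2 h3.2
  | _, .copy S u, .newv S' Q, .newv _ _, _, h, _ => by simp [Adj] at h
  | _, .newv _ _, .top _, _, h, _, _ => by simp [Adj] at h
  | _, .newv S' Q, .copy S u, .top _, _, h, _ => by simp [Adj] at h
  | _, .newv S' Q, .copy S u, .copy _ w, h1, h2, h3 => by
      simp only [Adj] at h1 h2 h3
      exact stable u w Q h1.2 h3.2 h2.2
  | _, .newv S' Q, .copy S u, .newv _ _, _, _, h => by simp [Adj] at h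
  | _, .newv _ _, .newv _ _, _, h, _, _ => by simp [Adj] at h

/-- The Burling graph. -/
def BG (k : ℕ) : SimpleGraph (B k) where
  Adj := Adj
  symm := ⟨fun u v h => Adj.symm u v h⟩
  loopless := ⟨fun u h => Adj.irrefl u h⟩

def defI : (k : ℕ) → I k
  | 0 => .base
  | k + 1 => .mk (defI k) (defI k) false

def defB : (k : ℕ) → B k
  | 0 => .base
  | k + 1 => .top (defB k)

instance finI : (k : ℕ) → Finite (I k)
  | 0 => Finite.of_injective (fun _ => (0 : Fin 1)) (by
      intro a b _
      cases a; cases b; rfl)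
  | k + 1 => by
      have := finI k
      apply Finite.of_injective (fun x : I (k + 1) => match x with
        | .mk S Q b => ((S, Q, b) : I k × I k × Bool))
      intro a b hab
      cases a; cases b
      simpa using hab

instance finB : (k : ℕ) → Finite (B k)
  | 0 => Finite.of_injective (fun _ => (0 : Fin 1)) (by
      intro a b _
      cases a; cases b; rfl)
  | k + 1 => by
      have := finB k
      have := finI k
      apply Finite.of_injective (fun x : B (k + 1) => match x with
        | .top v => (Sum.inl v : B k ⊕ (I k × B k) ⊕ (I k × I k))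
        | .copy S v => Sum.inr (Sum.inl (S, v))
        | .newv S Q => Sum.inr (Sum.inr (S, Q)))
      intro a b hab
      cases a <;> cases b <;> simp_all

theorem many_colours {n : ℕ} : ∀ (k : ℕ) (c : B k → Fin n),
    (∀ u v, Adj u v → c u ≠ c v) → ∃ S : I k, k + 1 ≤ (c '' {v | Mem v S}).ncard
  | 0, c, hc => by
      refine ⟨.base, ?_⟩
      have : (c '' {v | Mem v .base}).Nonempty := ⟨c .base, .base, by simp [Mem], rfl⟩
      have := (Set.ncard_pos (Set.toFinite _)).2 this
      omega
  | k + 1, c, hc => by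
      obtain ⟨S, hS⟩ := many_colours k (fun v => c (.top v)) (fun u v h => hc _ _ (by
        rw [Adj]; exact h))
      obtain ⟨Q, hQ⟩ := many_colours k (fun v => c (.copy S v)) (fun u v h => hc _ _ (by
        rw [Adj]; exact ⟨rfl, h⟩))
      set A := (fun v => c (.top v)) '' {v | Mem v S} with hA
      set D := (fun v => c (.copy S v)) '' {v | Mem v Q} with hD
      by_cases hAD : k + 1 + 1 ≤ (A ∪ D).ncard
      · refine ⟨.mk S Q false, hAD.trans (Set.ncard_le_ncard ?_ (Set.toFinite _))⟩
        rintro x (⟨v, hv, rfl⟩ | ⟨v, hv, rfl⟩)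
        · exact ⟨.top v, by simpa [Mem] using hv, rfl⟩
        · exact ⟨.copy S v, by simpa [Mem] using hv, rfl⟩
      · have h1 : A = A ∪ D := Set.eq_of_subset_of_ncard_le Set.subset_union_left (by omega)
          (Set.toFinite _)
        have h2 : D = A ∪ D := Set.eq_of_subset_of_ncard_le Set.subset_union_right (by omega)
          (Set.toFinite _)
        have h3 : c (.newv S Q) ∉ A := by
          rw [h1, ← h2]
          rintro ⟨v, hv, hv2⟩
          exact hc (.copy S v) (.newv S Q) (by rw [Adj]; exact ⟨rfl, hv⟩) hv2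
        refine ⟨.mk S Q true, ?_⟩
        have h4 : (insert (c (.newv S Q)) A).ncard = A.ncard + 1 :=
          Set.ncard_insert_of_notMem h3 (Set.toFinite _)
        have h5 : insert (c (.newv S Q)) A ⊆ c '' {v | Mem v (.mk S Q true)} := by
          rintro x (rfl | ⟨v, hv, rfl⟩)
          · exact ⟨.newv S Q, by simp [Mem], rfl⟩
          · exact ⟨.top v, by simpa [Mem] using hv, rfl⟩
        have h6 := Set.ncard_le_ncard h5 (Set.toFinite _)
        omega

def partOf {k : ℕ} : B (k + 1) → Option (I k)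
  | .top _ => none
  | .copy S _ => some S
  | .newv S _ => some S

def under {k : ℕ} : B (k + 1) → B k
  | .top v => v
  | .copy _ v => v
  | .newv _ _ => defB k

def newQ {k : ℕ} : B (k + 1) → I k
  | .top _ => defI k
  | .copy _ _ => defI k
  | .newv _ Q => Q

def fstI {k : ℕ} : I (k + 1) → I k
  | .mk S _ _ => S

def sndI {k : ℕ} : I (k + 1) → I k
  | .mk _ Q _ => Q

def bit {k : ℕ} : I (k + 1) → Bool
  | .mk _ _ b => b

/-- A star cutset of the subgraph induced on `W`, in terms of a separation. -/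
def StarCut {V : Type} (G : SimpleGraph V) (W : Set V) : Prop :=
  ∃ C : Set V, C ⊆ W ∧ (∃ v ∈ C, ∀ w ∈ C, w ≠ v → G.Adj v w) ∧
    ∃ A : Set V, (∃ a ∈ A, a ∈ W \ C) ∧ (∃ b ∈ W \ C, b ∉ A) ∧
      ∀ a ∈ A, a ∈ W \ C → ∀ b ∈ W \ C, b ∉ A → ¬ G.Adj a b

def Goal {V : Type} (G : SimpleGraph V) (W : Set V) : Prop :=
  (G.induce W).Colorable 3 ∨ StarCut G W

structure Fam {V : Type} (G : SimpleGraph V) (j : ℕ) (X D T : Set V) (β : V → B j) (σ : V → I j)
    (root : V → Prop) (κ : V → Bool) : Prop where
  XD : ∀ x ∈ X, x ∉ D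
  XT : ∀ x ∈ X, x ∉ T
  DT : ∀ d ∈ D, d ∉ T
  sub : ∀ x ∈ X, ∀ y ∈ X, x = y
  hDD : ∀ d ∈ D, ∀ d' ∈ D, G.Adj d d' ↔ Adj (β d) (β d')
  hTT : ∀ t ∈ T, ∀ t' ∈ T, G.Adj t t' → σ t = σ t' ∧ κ t ≠ κ t'
  hroot : ∀ t ∈ T, root t → κ t = true
  hTD : ∀ t ∈ T, ∀ d ∈ D, G.Adj t d ↔ root t ∧ Mem (β d) (σ t)
  hX : ∀ x ∈ X, ∀ d ∈ D, ¬ G.Adj x d

theorem goal_disc {V : Type} {G : SimpleGraph V} {W A : Set V} {a b : V} (ha : a ∈ W) (hb : b ∈ W)
    (haA : a ∈ A) (hbA : b ∉ A) (h : ∀ x ∈ A, x ∈ W → ∀ y ∈ W, y ∉ A → ¬ G.Adj x y) :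
    Goal G W := by
  classical
  by_cases hc : ∃ c ∈ W, c ≠ a ∧ c ≠ b
  · obtain ⟨c, hcW, hca, hcb⟩ := hc
    right
    refine ⟨{c}, by simpa using hcW, ⟨c, rfl, fun w hw hne => absurd hw hne⟩, A,
      ⟨a, haA, ha, fun h => hca (Eq.symm h)⟩, ⟨b, ⟨hb, fun h => hcb (Eq.symm h)⟩, hbA⟩, ?_⟩
    intro x hx hxW y hyW hy
    exact h x hx hxW.1 y hyW.1 hy
  · push Not at hc
    left
    refine ⟨SimpleGraph.Coloring.mk (fun x : W => if (x : V) = a then (0 : Fin 3) else 1) ?_⟩
    intro u v huv heq
    have hu := hc u.1 u.2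
    have hv := hc v.1 v.2
    have hne : (u : V) ≠ v := fun h => huv.ne (Subtype.ext h)
    split_ifs at heq with h1 h2 h2
    · exact hne (h1.trans h2.symm)
    · simp at heq
    · simp at heq
    · exact hne ((hu h1).trans (hv h2).symm)

theorem goal_disc_x {V : Type} {G : SimpleGraph V} {W A : Set V} {x a b : V} (hx : x ∈ W)
    (ha : a ∈ W) (hb : b ∈ W) (hax : a ≠ x) (hbx : b ≠ x)
    (haA : a ∈ A) (hbA : b ∉ A)
    (h : ∀ u ∈ A, u ∈ W → u ≠ x → ∀ v ∈ W, v ∉ A → v ≠ x → ¬ G.Adj u v) :
    Goal G W := by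
  right
  refine ⟨{x}, by simpa using hx, ⟨x, rfl, fun w hw hne => absurd hw hne⟩, A,
      ⟨a, haA, ha, hax⟩, ⟨b, ⟨hb, hbx⟩, hbA⟩, ?_⟩
  intro u hu huW v hvW hv
  exact h u hu huW.1 huW.2 v hvW.1 hv hvW.2

theorem fam_zero {V : Type} {G : SimpleGraph V} {X D T : Set V} {β : V → B 0} {σ : V → I 0}
    {root : V → Prop} {κ : V → Bool} (h : Fam G 0 X D T β σ root κ) :
    (G.induce (X ∪ (D ∪ T))).Colorable 3 := by
  classical
  refine ⟨SimpleGraph.Coloring.mk (fun x : ↥(X ∪ (D ∪ T)) => if (x : V) ∈ X then (2 : Fin 3)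
    else if (x : V) ∈ D then 0 else if κ x = true then 1 else 0) ?_⟩
  have key : ∀ u v : V, G.Adj u v → u ∈ X ∪ (D ∪ T) → v ∈ X ∪ (D ∪ T) →
      ¬ (u ∈ X ∧ v ∈ X) ∧ ¬ (u ∈ D ∧ v ∈ D) ∧ ¬ (u ∈ T ∧ v ∈ T ∧ κ u = κ v) ∧
      ¬ (u ∈ D ∧ v ∈ T ∧ κ v ≠ true) := by
    intro u v huv hu hv
    refine ⟨?_, ?_, ?_, ?_⟩
    · rintro ⟨h1, h2⟩
      exact huv.ne (h.sub u h1 v h2)
    · rintro ⟨h1, h2⟩
      have := (h.hDD u h1 v h2).1 huv
      generalize β u = p at this
      generalize β v = q at this
      cases p; cases q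
      simp [Adj] at this
    · rintro ⟨h1, h2, h3⟩
      exact (h.hTT u h1 v h2 huv).2 h3
    · rintro ⟨h1, h2, h3⟩
      exact h3 (h.hroot v h2 ((h.hTD v h2 u h1).1 huv.symm).1)
  intro u v huv
  have huv' : G.Adj u.1 v.1 := huv
  have k1 := key u.1 v.1 huv' u.2 v.2
  have k2 := key v.1 u.1 huv'.symm v.2 u.2
  have hu := u.2
  have hv := v.2
  simp only [Set.mem_union] at hu hv
  have e1 := h.XD u.1
  have e2 := h.XT u.1
  have e3 := h.DT u.1
  have e4 := h.XD v.1
  have e5 := h.XT v.1
  have e6 := h.DT v.1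
  split_ifs <;> simp_all

/-- The step into one part. -/
theorem fam_part {V : Type} {G : SimpleGraph V} {j : ℕ} {X D T X' : Set V} {β : V → B (j + 1)}
    {σ : V → I (j + 1)} {root : V → Prop} {κ : V → Bool} (h : Fam G (j + 1) X D T β σ root κ)
    (S : I j) (hT : ∀ t ∈ T, fstI (σ t) = S)
    (hsub : ∀ x ∈ X', ∀ y ∈ X', x = y) (hX' : ∀ x ∈ X', x ∈ X ∨ (x ∈ D ∧ partOf (β x) = none)) :
    ∃ (β' : V → B j) (σ' : V → I j) (root' : V → Prop) (κ' : V → Bool),
      Fam G j X' {d | d ∈ D ∧ ∃ v, β d = .copy S v} (T ∪ {d | d ∈ D ∧ ∃ Q, β d = .newv S Q})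
        β' σ' root' κ' := by
  classical
  refine ⟨fun v => under (β v), fun v => if v ∈ T then sndI (σ v) else newQ (β v),
    fun v => if v ∈ T then root v ∧ bit (σ v) = false else True,
    fun v => if v ∈ T then (if bit (σ v) = true then !κ v else κ v) else true, ?_⟩
  have hσ : ∀ t ∈ T, ∃ Q b, σ t = .mk S Q b := by
    intro t ht
    have := hT t ht
    generalize σ t = s at this
    cases s
    simp only [fstI] at this
    subst this
    exact ⟨_, _, rfl⟩
  constructor
  · rintro x hx ⟨h1, v, hv⟩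
    rcases hX' x hx with h2 | ⟨-, h2⟩
    · exact h.XD x h2 h1
    · rw [hv] at h2
      simp [partOf] at h2
  · rintro x hx (h1 | ⟨h1, Q, hQ⟩)
    · rcases hX' x hx with h2 | ⟨h2, -⟩
      · exact h.XT x h2 h1
      · exact h.DT x h2 h1
    · rcases hX' x hx with h2 | ⟨-, h2⟩
      · exact h.XD x h2 h1
      · rw [hQ] at h2
        simp [partOf] at h2
  · rintro d ⟨h1, v, hv⟩ (h2 | ⟨h2, Q, hQ⟩)
    · exact h.DT d h1 h2
    · rw [hv] at hQ
      simp at hQ
  · exact hsub
  · rintro d ⟨h1, v, hv⟩ d' ⟨h1', v', hv'⟩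
    rw [h.hDD d h1 d' h1', hv, hv']
    simp [under, Adj]
  · rintro t ht t' ht' hadj
    rcases ht with ht | ⟨ht, Q, hQ⟩ <;> rcases ht' with ht' | ⟨ht', Q', hQ'⟩
    · obtain ⟨h1, h2⟩ := h.hTT t ht t' ht' hadj
      simp only [if_pos ht, if_pos ht']
      refine ⟨by rw [h1], ?_⟩
      rw [h1]
      split_ifs
      · simpa using h2
      · exact h2
    · have h3 : t' ∉ T := h.DT t' ht'
      obtain ⟨Q2, b, hs⟩ := hσ t ht
      have h4 := (h.hTD t ht t' ht').1 hadj
      have h5 := h.hroot t ht h4.1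
      rw [hQ', hs] at h4
      simp only [Mem] at h4
      simp only [if_pos ht, if_neg h3, hs, hQ', sndI, newQ, bit, h4.2.2.2, h5, h4.2.2.1]
      simp
    · have h3 : t ∉ T := h.DT t ht
      obtain ⟨Q2, b, hs⟩ := hσ t' ht'
      have h4 := (h.hTD t' ht' t ht).1 hadj.symm
      have h5 := h.hroot t' ht' h4.1
      rw [hQ, hs] at h4
      simp only [Mem] at h4
      simp only [if_pos ht', if_neg h3, hs, hQ, sndI, newQ, bit, h4.2.2.2, h5, h4.2.2.1]
      simp
    · have := (h.hDD t ht t' ht').1 hadj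
      rw [hQ, hQ'] at this
      simp [Adj] at this
  · rintro t ht hr
    rcases ht with ht | ⟨ht, Q, hQ⟩
    · simp only [if_pos ht] at hr ⊢
      rw [hr.2]
      simpa using h.hroot t ht hr.1
    · simp only [if_neg (h.DT t ht)]
  · rintro t ht d ⟨hd, v, hv⟩
    rcases ht with ht | ⟨ht, Q, hQ⟩
    · obtain ⟨Q2, b, hs⟩ := hσ t ht
      rw [h.hTD t ht d hd]
      simp only [if_pos ht, hv, hs, under, sndI, bit, Mem]
      tauto
    · rw [h.hDD t ht d hd]
      simp only [if_neg (h.DT t ht), hv, hQ, under, newQ, Adj]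
  · rintro x hx d ⟨hd, v, hv⟩ hadj
    rcases hX' x hx with h2 | ⟨h2, h3⟩
    · exact h.hX x h2 d hd hadj
    · rw [h.hDD x h2 d hd, hv] at hadj
      generalize β x = p at hadj h3
      cases p <;> simp [partOf, Adj] at hadj h3

/-- The step into the top part. -/
theorem fam_top {V : Type} {G : SimpleGraph V} {j : ℕ} {X D T : Set V} {β : V → B (j + 1)}
    {σ : V → I (j + 1)} {root : V → Prop} {κ : V → Bool} (h : Fam G (j + 1) X D T β σ root κ)
    (hD : ∀ d ∈ D, partOf (β d) = none) :
    Fam G j X D T (fun v => under (β v)) (fun v => fstI (σ v)) root κ := by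
  have hβ : ∀ d ∈ D, ∃ v, β d = .top v := by
    intro d hd
    have := hD d hd
    generalize β d = p at this
    cases p
    · exact ⟨_, rfl⟩
    · simp [partOf] at this
    · simp [partOf] at this
  constructor
  · exact h.XD
  · exact h.XT
  · exact h.DT
  · exact h.sub
  · intro d hd d' hd'
    obtain ⟨v, hv⟩ := hβ d hd
    obtain ⟨v', hv'⟩ := hβ d' hd'
    rw [h.hDD d hd d' hd']
    simp only [hv, hv', under, Adj]
  · intro t ht t' ht' hadj
    obtain ⟨h1, h2⟩ := h.hTT t ht t' ht' hadj
    exact ⟨by rw [h1], h2⟩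
  · exact h.hroot
  · intro t ht d hd
    obtain ⟨v, hv⟩ := hβ d hd
    rw [h.hTD t ht d hd]
    generalize σ t = s
    cases s
    simp only [hv, under, fstI, Mem]
  · exact h.hX

theorem adj_part {k : ℕ} (u v : B (k + 1)) (h : Adj u v) : partOf u = partOf v := by
  cases u <;> cases v <;> simp_all [Adj, partOf]

theorem mem_part {k : ℕ} (u : B (k + 1)) (s : I (k + 1)) (h : Mem u s) :
    partOf u = none ∧ Mem (under u) (fstI s) ∨ partOf u = some (fstI s) := by
  cases u <;> cases s <;> simp_all [Mem, partOf, under, fstI]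

theorem mem_top {k : ℕ} (u : B (k + 1)) (s : I (k + 1)) (h : partOf u = none)
    (h2 : Mem (under u) (fstI s)) : Mem u s := by
  cases u <;> cases s <;> simp_all [Mem, partOf, under, fstI]

theorem part_some {k : ℕ} (u : B (k + 1)) (S : I k) (h : partOf u = some S) :
    (∃ v, u = .copy S v) ∨ (∃ Q, u = .newv S Q) := by
  cases u <;> simp_all [partOf]

theorem main_step {V : Type} (G : SimpleGraph V) : ∀ (j : ℕ) (X D T : Set V) (β : V → B j)
    (σ : V → I j) (root : V → Prop) (κ : V → Bool), Fam G j X D T β σ root κ →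
    Goal G (X ∪ (D ∪ T)) := by
  classical
  intro j
  induction j with
  | zero =>
    intro X D T β σ root κ h
    exact Or.inl (fam_zero h)
  | succ j ih =>
    intro X D T β σ root κ h
    by_cases hA : ∃ y ∈ D, ∃ z ∈ D, ∃ S, partOf (β y) = none ∧ partOf (β z) = some S ∧
        Mem (under (β y)) S
    · obtain ⟨y, hy, z, hz, S, hy1, hz1, hyS⟩ := hA
      by_cases hrest : ∃ w ∈ X ∪ (D ∪ T), w ≠ y ∧ ¬ (w ∈ T ∧ root w ∧ fstI (σ w) = S) ∧
          ¬ (w ∈ D ∧ partOf (β w) = some S)
      · right
        obtain ⟨w, hwW, hwy, hw1, hw2⟩ := hrest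
        refine ⟨insert y {t | t ∈ T ∧ root t ∧ fstI (σ t) = S}, ?_, ⟨y, Set.mem_insert _ _, ?_⟩,
          {d | d ∈ D ∧ partOf (β d) = some S}, ?_, ?_, ?_⟩
        · rintro x (rfl | ⟨hx, -⟩)
          · exact Or.inr (Or.inl hy)
          · exact Or.inr (Or.inr hx)
        · rintro t (rfl | ⟨ht, hr, hf⟩) hne
          · exact absurd rfl hne
          · rw [G.adj_comm, h.hTD t ht y hy]
            exact ⟨hr, mem_top _ _ hy1 (by rw [hf]; exact hyS)⟩
        · refine ⟨z, ⟨hz, hz1⟩, Or.inr (Or.inl hz), ?_⟩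
          rintro (rfl | ⟨h1, -⟩)
          · rw [hy1] at hz1
            simp at hz1
          · exact h.DT z hz h1
        · refine ⟨w, ⟨hwW, ?_⟩, hw2⟩
          rintro (h1 | h1)
          · exact hwy h1
          · exact hw1 h1
        · rintro a ⟨ha, ha2⟩ - b ⟨hbW, hbC⟩ hb hadj
          rcases hbW with hbX | hbD | hbT
          · exact h.hX b hbX a ha hadj.symm
          · apply hb
            refine ⟨hbD, ?_⟩
            rw [← adj_part _ _ ((h.hDD a ha b hbD).1 hadj), ha2]
          · apply hbC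
            have h1 := (h.hTD b hbT a ha).1 hadj.symm
            rcases mem_part _ _ h1.2 with ⟨h2, -⟩ | h2
            · rw [ha2] at h2
              simp at h2
            · rw [ha2] at h2
              exact Or.inr ⟨hbT, h1.1, (Option.some.inj h2).symm⟩
      · push Not at hrest
        have hT : ∀ t ∈ T, fstI (σ t) = S := by
          intro t ht
          have h1 : t ≠ y := fun h2 => h.DT y hy (h2 ▸ ht)
          by_contra h2
          have h3 := hrest t (Or.inr (Or.inr ht)) h1 (fun _ _ => h2)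
          exact h.DT t h3.1 ht
        obtain ⟨β', σ', root', κ', hF⟩ := fam_part (X' := {y}) h S hT
          (by rintro a rfl b rfl; rfl)
          (by rintro a rfl; exact Or.inr ⟨hy, hy1⟩)
        have := ih _ _ _ _ _ _ _ hF
        convert this using 1
        ext w
        constructor
        · intro hw
          by_cases h1 : w = y
          · exact Or.inl h1
          · by_cases h2 : w ∈ T
            · exact Or.inr (Or.inr (Or.inl h2))
            · obtain ⟨h3, h4⟩ := hrest w hw h1 (fun h => absurd h h2)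
              rcases part_some _ _ h4 with h5 | h5
              · exact Or.inr (Or.inl ⟨h3, h5⟩)
              · exact Or.inr (Or.inr (Or.inr ⟨h3, h5⟩))
        · rintro (h1 | ⟨h1, -⟩ | h1 | ⟨h1, -⟩)
          · rw [Set.mem_singleton_iff] at h1
            rw [h1]
            exact Or.inr (Or.inl hy)
          · exact Or.inr (Or.inl h1)
          · exact Or.inr (Or.inr h1)
          · exact Or.inr (Or.inl h1)
    · push Not at hA
      let p : V → Option (I j) := fun v => if v ∈ D then partOf (β v) else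
        if ∃ z ∈ D, partOf (β z) = some (fstI (σ v)) then some (fstI (σ v)) else none
      have hpD : ∀ v ∈ D, p v = partOf (β v) := fun v hv => by simp only [p, if_pos hv]
      have hpT1 : ∀ v ∈ T, (∃ z ∈ D, partOf (β z) = some (fstI (σ v))) →
          p v = some (fstI (σ v)) := fun v hv h1 => by
        have : v ∉ D := fun h2 => h.DT v h2 hv
        simp only [p, if_neg this, if_pos h1]
      have hpT2 : ∀ v ∈ T, ¬ (∃ z ∈ D, partOf (β z) = some (fstI (σ v))) →
          p v = none := fun v hv h1 => by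
        have : v ∉ D := fun h2 => h.DT v h2 hv
        simp only [p, if_neg this, if_neg h1]
      have hTDp : ∀ t ∈ T, ∀ d ∈ D, G.Adj t d → p t = p d := by
        intro t ht d hd hadj
        have h1 := (h.hTD t ht d hd).1 hadj
        rw [hpD d hd]
        rcases mem_part _ _ h1.2 with ⟨h2, h3⟩ | h2
        · rw [h2]
          apply hpT2 t ht
          rintro ⟨z, hz, hz2⟩
          exact hA d hd z hz _ h2 hz2 h3
        · rw [h2]
          exact hpT1 t ht ⟨d, hd, h2⟩
      have hp : ∀ u ∈ D ∪ T, ∀ v ∈ D ∪ T, G.Adj u v → p u = p v := by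
        rintro u (hu | hu) v (hv | hv) hadj
        · rw [hpD u hu, hpD v hv]
          exact adj_part _ _ ((h.hDD u hu v hv).1 hadj)
        · exact (hTDp v hv u hu hadj.symm).symm
        · exact hTDp u hu v hv hadj
        · have h1 := (h.hTT u hu v hv hadj).1
          by_cases h2 : ∃ z ∈ D, partOf (β z) = some (fstI (σ u))
          · rw [hpT1 u hu h2, hpT1 v hv (h1 ▸ h2), h1]
          · rw [hpT2 u hu h2, hpT2 v hv (h1 ▸ h2)]
      by_cases hsplit : ∃ a ∈ D ∪ T, ∃ b ∈ D ∪ T, p a ≠ p b
      · obtain ⟨a, ha, b, hb, hab⟩ := hsplit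
        by_cases hX : ∃ x, x ∈ X
        · obtain ⟨x, hx⟩ := hX
          have hne : ∀ u ∈ D ∪ T, u ≠ x := by
            rintro u (hu | hu) rfl
            · exact h.XD u hx hu
            · exact h.XT u hx hu
          refine goal_disc_x (A := {u | p u = p a}) (Or.inl hx) (Or.inr ha) (Or.inr hb)
            (hne a ha) (hne b hb) rfl (fun h => hab h.symm) ?_
          intro u hu huW hux v hvW hv hvx hadj
          have hu' : u ∈ D ∪ T := by
            rcases huW with h1 | h1
            · exact absurd (h.sub u h1 x hx) hux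
            · exact h1
          have hv' : v ∈ D ∪ T := by
            rcases hvW with h1 | h1
            · exact absurd (h.sub v h1 x hx) hvx
            · exact h1
          exact hv ((hp u hu' v hv' hadj).symm.trans hu)
        · refine goal_disc (A := {u | p u = p a}) (Or.inr ha) (Or.inr hb) rfl
            (fun h => hab h.symm) ?_
          intro u hu huW v hvW hv hadj
          have hu' : u ∈ D ∪ T := by
            rcases huW with h1 | h1
            · exact absurd ⟨u, h1⟩ hX
            · exact h1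
          have hv' : v ∈ D ∪ T := by
            rcases hvW with h1 | h1
            · exact absurd ⟨v, h1⟩ hX
            · exact h1
          exact hv ((hp u hu' v hv' hadj).symm.trans hu)
      · push Not at hsplit
        by_cases hn : ∃ d ∈ D, partOf (β d) ≠ none
        · obtain ⟨d, hd, hd2⟩ := hn
          obtain ⟨S, hS⟩ := Option.ne_none_iff_exists'.1 hd2
          have hall : ∀ u ∈ D ∪ T, p u = some S := by
            intro u hu
            rw [hsplit u hu d (Or.inl hd), hpD d hd, hS]
          have hT : ∀ t ∈ T, fstI (σ t) = S := by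
            intro t ht
            have h1 := hall t (Or.inr ht)
            by_cases h2 : ∃ z ∈ D, partOf (β z) = some (fstI (σ t))
            · rw [hpT1 t ht h2] at h1
              exact Option.some.inj h1
            · rw [hpT2 t ht h2] at h1
              simp at h1
          obtain ⟨β', σ', root', κ', hF⟩ := fam_part (X' := X) h S hT h.sub
            (fun x hx => Or.inl hx)
          have := ih _ _ _ _ _ _ _ hF
          convert this using 1
          ext w
          constructor
          · rintro (h1 | h1 | h1)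
            · exact Or.inl h1
            · have h2 := hall w (Or.inl h1)
              rw [hpD w h1] at h2
              rcases part_some _ _ h2 with h5 | h5
              · exact Or.inr (Or.inl ⟨h1, h5⟩)
              · exact Or.inr (Or.inr (Or.inr ⟨h1, h5⟩))
            · exact Or.inr (Or.inr (Or.inl h1))
          · rintro (h1 | ⟨h1, -⟩ | h1 | ⟨h1, -⟩)
            · exact Or.inl h1
            · exact Or.inr (Or.inl h1)
            · exact Or.inr (Or.inr h1)
            · exact Or.inr (Or.inl h1)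
        · push Not at hn
          exact ih _ _ _ _ _ _ _ (fam_top h hn)

theorem starCut_iff {V : Type} {G : SimpleGraph V} {W : Set V} (h : StarCut G W) :
    ∃ S : Set V, S ⊆ W ∧ (∃ v ∈ S, ∀ w ∈ S, w ≠ v → G.Adj v w) ∧
      ∃ a b : ↥(W \ S), ¬ (G.induce (W \ S)).Reachable a b := by
  obtain ⟨C, hC, hv, A, ⟨a, haA, ha⟩, ⟨b, hb, hbA⟩, hsep⟩ := h
  refine ⟨C, hC, hv, ⟨a, ha⟩, ⟨b, hb⟩, ?_⟩
  rintro ⟨w⟩
  have key : ∀ (x y : ↥(W \ C)) (w : (G.induce (W \ C)).Walk x y), (x : V) ∈ A → (y : V) ∈ A := by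
    intro x y w
    induction w with
    | nil => exact id
    | @cons u v w huv p ih =>
      intro hu
      apply ih
      by_contra hvA
      exact hsep u hu u.2 v v.2 hvA huv
  exact hbA (key _ _ w haA)

/-- The negation of the preceding statement: There is a constant c such that every finite triangle-free graph, each of whose induced subgraphs is 3-colorable or has a star cutset (a star whose removal leaves two mutually unreachable vertices), is c-colorable. -/
theorem result :
    ¬ (∃ c : ℕ, ∀ (V : Type) [Fintype V] (G : SimpleGraph V),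
      G.CliqueFree 3 →
      (∀ T : Set V, (G.induce T).Colorable 3 ∨
        ∃ S : Set V, S ⊆ T ∧ (∃ v ∈ S, ∀ w ∈ S, w ≠ v → G.Adj v w) ∧
          ∃ a b : ↥(T \ S), ¬ (G.induce (T \ S)).Reachable a b) →
      G.Colorable c) := by
  classical
  rintro ⟨c, h⟩
  have : Fintype (B c) := Fintype.ofFinite _
  obtain ⟨f⟩ := h (B c) (BG c) (by
    intro s hs
    rw [SimpleGraph.is3Clique_iff] at hs
    obtain ⟨u, v, w, h1, h2, h3, -⟩ := hs
    exact triangleFree u v w h1 h3 h2) (by
    intro T
    have hF : Fam (BG c) c ∅ T ∅ id (fun _ => defI c) (fun _ => True) (fun _ => true) := by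
      constructor <;> simp [BG]
    have hg := main_step (BG c) c ∅ T ∅ _ _ _ _ hF
    rw [Set.empty_union, Set.union_empty] at hg
    rcases hg with h1 | h1
    · exact Or.inl h1
    · exact Or.inr (starCut_iff h1))
  obtain ⟨S, hS⟩ := many_colours c f (fun u v huv => f.valid huv)
  have h1 := Set.ncard_le_ncard (Set.subset_univ (f '' {v | Mem v S})) (Set.toFinite _)
  rw [Set.ncard_univ, Nat.card_eq_fintype_card, Fintype.card_fin] at h1
  omega

end Pool.Agent.S08706
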