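import Pool.Statements.S08708
-- import your own Pool.Agent.* helpers here

set_option autoImplicit false
open Pool Pool.MP_4f9096_co

namespace Pool.Agent.S08708

/-- A `5 × 5` array with seven symbols, each occurring in at most four cells,
without a latin transversal. -/
def arr : Fin 5 → Fin 5 → ℕ :=
  ![![0, 2, 2, 0, 1],
    ![3, 1, 4, 3, 5],
    ![3, 1, 4, 3, 5],
    ![2, 6, 5, 2, 6],
    ![6, 4, 0, 6, 0]]

theorem arr_lt (p : Fin 5 × Fin 5) : arr p.1 p.2 < 7 := by
  revert p
  decide +kernel

theorem arr_small : ∀ s : Fin 7,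
    (Finset.univ.filter (fun p : Fin 5 × Fin 5 => arr p.1 p.2 = (s : ℕ))).card ≤ 5 - 1 := by
  decide +kernel

theorem arr_card (s : ℕ) :
    (Finset.univ.filter (fun p : Fin 5 × Fin 5 => arr p.1 p.2 = s)).card ≤ 5 - 1 := by
  by_cases hs : s < 7
  · exact arr_small ⟨s, hs⟩
  · have h0 : Finset.univ.filter (fun p : Fin 5 × Fin 5 => arr p.1 p.2 = s) = ∅ := by
      rw [Finset.filter_eq_empty_iff]
      intro p _ hp
      have := arr_lt p
      omega
    rw [h0]
    simp

/-- every choice of five cells in distinct rows and columns repeats a symbol -/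
theorem arr_no_transversal : ∀ a b c d e : Fin 5, [a, b, c, d, e].Nodup →
    ¬ [arr 0 a, arr 1 b, arr 2 c, arr 3 d, arr 4 e].Nodup := by
  decide +kernel

/-- The negation of the preceding statement: For every n and every n×n array of natural-number symbols in which each symbol occurs in at most n−1 cells, there is a permutation σ such that the entries A(i, σ(i)) are pairwise distinct. -/
theorem result :
    ¬ (∀ (n : ℕ) (A : Fin n → Fin n → ℕ),
      (∀ s : ℕ, (Finset.univ.filter (fun p : Fin n × Fin n => A p.1 p.2 = s)).card ≤ n - 1) →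
      ∃ σ : Equiv.Perm (Fin n), Function.Injective (fun i : Fin n => A i (σ i))) := by
  intro h
  obtain ⟨σ, hσ⟩ := h 5 arr arr_card
  have h1 : (List.ofFn (fun i : Fin 5 => σ i)).Nodup := List.nodup_ofFn.2 σ.injective
  have h2 : (List.ofFn (fun i : Fin 5 => arr i (σ i))).Nodup := List.nodup_ofFn.2 hσ
  exact arr_no_transversal (σ 0) (σ 1) (σ 2) (σ 3) (σ 4) (by simp)
    (by simpa [List.ofFn_succ] using h2)

end Pool.Agent.S08708
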