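import Pool.Statements.S08782
import Pool.Agent.V11165.SNP.Final

set_option autoImplicit false
open Pool Pool.MP_5400b1_co

namespace Pool.Agent.S08782

/-- The negation of the preceding statement: For every finite graph G: if, for each k, its chromatic polynomial in k variables is a nonnegative integer combination of Schur polynomials, then for each k every lattice point in its Newton polytope is an exponent of that polynomial. -/
theorem result :
    ¬ (∀ (V : Type) [Fintype V] (G : SimpleGraph V),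
      (∀ k : ℕ, ∃ c : YoungDiagram →₀ ℕ,
        (∑ᶠ κ : {κ : V → Fin k // ∀ u v, G.Adj u v → κ u ≠ κ v},
            ∏ v, (MvPolynomial.X ((κ.1 v : ℕ)) : MvPolynomial ℕ ℤ)) =
          c.sum (fun μ a => a • ∑ᶠ T : {T : SemistandardYoungTableau μ //
              ∀ p ∈ μ.cells, T p.1 p.2 < k},
            ∏ p ∈ μ.cells, (MvPolynomial.X (T.1 p.1 p.2) : MvPolynomial ℕ ℤ))) →
      ∀ k : ℕ, ∀ α : ℕ →₀ ℕ,
        (fun i : ℕ => (α i : ℝ)) ∈ convexHull ℝ
          ((fun β : ℕ →₀ ℕ => (fun i : ℕ => (β i : ℝ))) ''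
            ((∑ᶠ κ : {κ : V → Fin k // ∀ u v, G.Adj u v → κ u ≠ κ v},
              ∏ v, (MvPolynomial.X ((κ.1 v : ℕ)) : MvPolynomial ℕ ℤ)).support : Set (ℕ →₀ ℕ))) →
        α ∈ (∑ᶠ κ : {κ : V → Fin k // ∀ u v, G.Adj u v → κ u ≠ κ v},
              ∏ v, (MvPolynomial.X ((κ.1 v : ℕ)) : MvPolynomial ℕ ℤ)).support) := by
  intro hall
  have h := hall (Fin 12) V11165.SNP.G12 (fun k => V11165.SNP.schur_positive k) 4
    (V11165.SNP.e4 5 3 3 1) ?_
  · -- the exponent `(5,3,3,1)` does not occur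
    rw [MvPolynomial.mem_support_iff] at h
    apply h
    have h1 := V11165.SNP.coeff_XP4 5 3 3 1
    have h2 := V11165.SNP.cnt_perm _ V11165.SNP.initG (V11165.SNP.commG V11165.SNP.G12)
      (show ([1, 3, 3, 5] : List ℕ).Perm [5, 3, 3, 1] by decide) Finset.univ
    have h3 := V11165.SNP.Nm_spec 12 le_rfl 4095 [5, 3, 3, 1] (by norm_num)
      (by intro i hi; omega) (by decide) (by rw [V11165.SNP.FF_full]; rfl)
    have h4 : V11165.SNP.Nm 12 4095 [5, 3, 3, 1] = 0 := by decide +kernel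
    rw [V11165.SNP.FF_full, h4] at h3
    rw [h2, ← h3] at h1
    exact h1
  · -- it is the midpoint of `(6,2,2,2)` and `(4,4,4,0)`
    have m1 : V11165.SNP.e4 6 2 2 2 ∈ (V11165.SNP.XP V11165.SNP.G12 4).support := by
      rw [MvPolynomial.mem_support_iff, V11165.SNP.coeff_XP4]
      have h2 := V11165.SNP.cnt_perm _ V11165.SNP.initG (V11165.SNP.commG V11165.SNP.G12)
        (show ([2, 2, 2, 6] : List ℕ).Perm [6, 2, 2, 2] by decide) Finset.univ
      have h3 := V11165.SNP.Nm_spec 12 le_rfl 4095 [6, 2, 2, 2] (by norm_num)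
        (by intro i hi; omega) (by decide) (by rw [V11165.SNP.FF_full]; rfl)
      have h4 : V11165.SNP.Nm 12 4095 [6, 2, 2, 2] = 6 := by decide +kernel
      rw [V11165.SNP.FF_full, h4] at h3
      rw [h2, ← h3]
      norm_num
    have m2 : V11165.SNP.e4 4 4 4 0 ∈ (V11165.SNP.XP V11165.SNP.G12 4).support := by
      rw [MvPolynomial.mem_support_iff, V11165.SNP.coeff_XP4]
      have h1 : V11165.SNP.cnt (V11165.SNP.stepG V11165.SNP.G12) V11165.SNP.initG [0, 4, 4, 4]
          Finset.univ = V11165.SNP.cnt (V11165.SNP.stepG V11165.SNP.G12) V11165.SNP.initG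
            [4, 4, 4] Finset.univ := by
        rw [V11165.SNP.cnt_filter _ _
          (fun a => V11165.SNP.stp_zero_stepG V11165.SNP.G12 a) [0, 4, 4, 4]]
        rfl
      have h3 := V11165.SNP.Nm_spec 12 le_rfl 4095 [4, 4, 4] (by norm_num)
        (by intro i hi; omega) (by decide) (by rw [V11165.SNP.FF_full]; rfl)
      have h4 : V11165.SNP.Nm 12 4095 [4, 4, 4] = 6 := by decide +kernel
      rw [V11165.SNP.FF_full, h4] at h3
      rw [h1, ← h3]
      norm_num
    have c1 := subset_convexHull ℝ _ (Set.mem_image_of_mem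
      (fun β : ℕ →₀ ℕ => (fun i : ℕ => (β i : ℝ))) (Finset.mem_coe.2 m1))
    have c2 := subset_convexHull ℝ _ (Set.mem_image_of_mem
      (fun β : ℕ →₀ ℕ => (fun i : ℕ => (β i : ℝ))) (Finset.mem_coe.2 m2))
    have hc := convex_convexHull ℝ ((fun β : ℕ →₀ ℕ => (fun i : ℕ => (β i : ℝ))) ''
      ((V11165.SNP.XP V11165.SNP.G12 4).support : Set (ℕ →₀ ℕ)))
    have h5 := hc c1 c2 (show (0 : ℝ) ≤ 1 / 2 by norm_num) (show (0 : ℝ) ≤ 1 / 2 by norm_num)
      (by norm_num)
    have h6 : (fun i : ℕ => ((V11165.SNP.e4 5 3 3 1) i : ℝ)) =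
        (1 / 2 : ℝ) • (fun i : ℕ => ((V11165.SNP.e4 6 2 2 2) i : ℝ)) +
          (1 / 2 : ℝ) • (fun i : ℕ => ((V11165.SNP.e4 4 4 4 0) i : ℝ)) := by
      funext i
      simp only [Pi.add_apply, Pi.smul_apply, smul_eq_mul, V11165.SNP.e4_apply]
      split_ifs <;> norm_num
    rw [h6]
    exact h5

end Pool.Agent.S08782
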