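import Pool.Statements.S08825
import Pool.Agent.V11121.PathSys
import Pool.Agent.V11121.MaderDeg

set_option autoImplicit false
open Pool Pool.MP_5651c1_co

namespace Pool.Agent.S08825

open Finset Pool.Agent.V11121

/-- a good map yields a model of a complete graph -/
theorem model_of_good {V : Type} [Fintype V] [DecidableEq V] (G : SimpleGraph V) (T : ℕ)
    (hT : 2 ≤ T) (S : V → V → Finset V) (h1 : ∀ u w, u ∈ S u w) (h2 : ∀ u w, S u w = S w u)
    (h3 : ∀ u w, (G.induce (S u w : Set V)).Connected)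
    (φ : Fin T × Fin T → V)
    (hφ : ∀ a b c d : Fin T × Fin T, a ≠ b → a ≠ c → a ≠ d → b ≠ c → b ≠ d → c ≠ d →
      Disjoint (S (φ a) (φ b)) (S (φ c) (φ d))) :
    ∃ g : Fin T → Set V, (∀ i, (G.induce (g i)).Connected) ∧
      (∀ i j, i ≠ j → Disjoint (g i) (g j)) ∧
      ∀ i j, i ≠ j → ∃ u ∈ g i, ∃ v ∈ g j, G.Adj u v := by
  -- another index
  have hother : ∀ i : Fin T, ∃ j : Fin T, j ≠ i := by
    intro i
    by_cases hi : i.val = 0
    · refine ⟨⟨1, by omega⟩, ?_⟩
      intro h
      rw [← h] at hi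
      simp at hi
    · refine ⟨⟨0, by omega⟩, ?_⟩
      intro h
      rw [← h] at hi
      simp at hi
  let f : Fin T → Set V := fun i => ⋃₀ {s | ∃ j, j ≠ i ∧ s = (S (φ (i, i)) (φ (i, j)) : Set V)}
  have hfmem : ∀ i x, x ∈ f i ↔ ∃ j, j ≠ i ∧ x ∈ S (φ (i, i)) (φ (i, j)) := by
    intro i x
    constructor
    · rintro ⟨s, ⟨j, hj, rfl⟩, hx⟩
      exact ⟨j, hj, hx⟩
    · rintro ⟨j, hj, hx⟩
      exact ⟨_, ⟨j, hj, rfl⟩, hx⟩
  refine exists_model G T f (fun i j => (S (φ (i, j)) (φ (j, i)) : Set V)) ?_ ?_ ?_ ?_ ?_ ?_ ?_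
  · intro i
    apply SimpleGraph.induce_sUnion_connected_of_pairwise_not_disjoint
    · obtain ⟨j, hj⟩ := hother i
      exact ⟨_, j, hj, rfl⟩
    · rintro s s' ⟨j, _, rfl⟩ ⟨j', _, rfl⟩
      exact ⟨φ (i, i), h1 _ _, h1 _ _⟩
    · rintro s ⟨j, _, rfl⟩
      exact h3 _ _
  · intro i j hij
    rw [Set.disjoint_left]
    intro x hx hx'
    obtain ⟨k, hk, hxk⟩ := (hfmem i x).1 hx
    obtain ⟨l, hl, hxl⟩ := (hfmem j x).1 hx'
    have := hφ (i, i) (i, k) (j, j) (j, l) (by simp [hk.symm]) (by simp [hij]) (by simp [hij])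
      (by simp [hij]) (by simp [hij]) (by simp [hl.symm])
    exact Finset.disjoint_left.1 this hxk hxl
  · intro i j _
    exact h3 _ _
  · intro i j
    rw [h2]
  · intro i j hij
    refine ⟨φ (i, j), h1 _ _, ?_⟩
    rw [hfmem]
    refine ⟨j, hij.symm, ?_⟩
    rw [h2]
    exact h1 _ _
  · intro i j k hij hki hkj
    rw [Set.disjoint_left]
    intro x hx hx'
    obtain ⟨l, hl, hxl⟩ := (hfmem k x).1 hx'
    have := hφ (i, j) (j, i) (k, k) (k, l) (by simp [hij]) (by simp [hki.symm])
      (by simp [hki.symm]) (by simp [hkj.symm]) (by simp [hkj.symm]) (by simp [hl.symm])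
    exact Finset.disjoint_left.1 this hx hxl
  · intro i j k l hij hkl hki hkj
    rw [Set.disjoint_left]
    intro x hx hx'
    have := hφ (i, j) (j, i) (k, l) (l, k) (by simp [hij]) (by simp [hki.symm])
      (by simp only [ne_eq, Prod.mk.injEq, not_and]; exact fun _ h => hkj h.symm)
      (by simp [hkj.symm])
      (by simp only [ne_eq, Prod.mk.injEq, not_and]; exact fun _ h => hki h.symm)
      (by simp [hkl])
    exact Finset.disjoint_left.1 this hx hx'

/-- For every t there is c>0 such that every finite path-pairable graph on n≥2 vertices with no K_t minor has a vertex of degree at least c·n. -/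
theorem result :
    ∀ t : ℕ, ∃ c : ℝ, 0 < c ∧
      ∀ (V : Type) [Fintype V] (G : SimpleGraph V) [DecidableRel G.Adj],
        2 ≤ Fintype.card V →
        (∀ (k : ℕ) (s r : Fin k → V), Function.Injective (Sum.elim s r) →
          ∃ p : (i : Fin k) → G.Walk (s i) (r i),
            (∀ i, (p i).IsPath) ∧
            ∀ i j, i ≠ j → ∀ e ∈ (p i).edges, e ∉ (p j).edges) →
        (¬ ∃ f : Fin t → Set V,
            (∀ i, (G.induce (f i)).Connected) ∧
            (∀ i j, i ≠ j → Disjoint (f i) (f j)) ∧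
            (∀ i j, i ≠ j → ∃ u ∈ f i, ∃ v ∈ f j, G.Adj u v)) →
        ∃ v : V, c * (Fintype.card V : ℝ) ≤ (G.degree v : ℝ) := by
  intro t
  obtain ⟨C, hC⟩ : ∃ C : ℕ, C = ((t + 2) * (t + 2)) ^ 4 * 2 ^ (t + 3) := ⟨_, rfl⟩
  have hCpos : 0 < C := by rw [hC]; positivity
  refine ⟨1 / (3 * C : ℝ), by positivity, ?_⟩
  intro V _ G _ hn hpp hmin
  classical
  obtain ⟨n, hnn⟩ : ∃ n, n = Fintype.card V := ⟨_, rfl⟩
  rw [← hnn] at hn ⊢
  have : NeZero n := ⟨by omega⟩
  have e : V ≃ Fin n := Fintype.equivFinOfCardEq hnn.symm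
  have hne : Nonempty V := ⟨e.symm 0⟩
  let _ : AddCommGroup V := e.addCommGroup
  let _ : LinearOrder V := LinearOrder.lift' e e.injective
  obtain ⟨S, h1, h2, h3, h4⟩ := exists_pairs G hpp
  -- a vertex of maximum degree
  obtain ⟨v, hv⟩ := Finite.exists_max (fun v => G.degree v)
  refine ⟨v, ?_⟩
  -- the maximum degree is positive
  have hD : 1 ≤ G.degree v := by
    have ha : (e.symm 0) ≠ (e.symm ⟨1, by omega⟩) := by
      intro h
      have := e.symm.injective h
      simp [Fin.ext_iff] at this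
    obtain ⟨p, _, _⟩ := hpp 1 (fun _ => e.symm 0) (fun _ => e.symm ⟨1, by omega⟩) (by
      rintro (i | i) (j | j) h
      · rw [Subsingleton.elim i j]
      · simp only [Sum.elim_inl, Sum.elim_inr] at h
        exact absurd h ha
      · simp only [Sum.elim_inl, Sum.elim_inr] at h
        exact absurd h.symm ha
      · rw [Subsingleton.elim i j])
    have hnil : ¬ (p 0).Nil := fun h => ha h.eq
    have hadj := (p 0).adj_snd hnil
    have hpos : 0 < G.degree (e.symm 0) := by
      rw [G.degree_pos_iff_exists_adj]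
      exact ⟨_, hadj⟩
    exact le_trans hpos (hv _)
  -- the count
  have hsum : ∑ w : V, (univ.filter (fun x : V × V => w ∈ S x.1 x.2)).card ^ 2 ≤
      n ^ 2 * ((2 * G.degree v + 1) * (2 ^ (t + 3) * n)) := by
    calc ∑ w : V, (univ.filter (fun x : V × V => w ∈ S x.1 x.2)).card ^ 2
        ≤ ∑ w : V, n ^ 2 * ((2 * G.degree v + 1) * (2 * G.degree w + 1)) := by
          apply sum_le_sum
          intro w _
          have h5 := h4 w
          rw [← hnn] at h5
          calc _ ≤ (n * (2 * G.degree w + 1)) ^ 2 := Nat.pow_le_pow_left h5 2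
            _ = n ^ 2 * ((2 * G.degree w + 1) * (2 * G.degree w + 1)) := by ring
            _ ≤ _ := by
              apply Nat.mul_le_mul_left
              apply Nat.mul_le_mul_right
              have := hv w
              omega
      _ = n ^ 2 * ((2 * G.degree v + 1) * (2 * ∑ w, G.degree w + n)) := by
          rw [← mul_sum, ← mul_sum, sum_add_distrib, ← mul_sum, sum_const, card_univ, ← hnn]
          simp
      _ ≤ _ := by
          apply Nat.mul_le_mul_left
          apply Nat.mul_le_mul_left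
          have h6 := sum_degree_le G t hmin
          rw [← hnn] at h6
          have h7 : 2 * (2 ^ (t + 1) * n) + n ≤ 2 ^ (t + 3) * n := by
            have h8 : 1 ≤ 2 ^ (t + 1) := Nat.one_le_two_pow
            have h9 : 2 ^ (t + 3) = 4 * 2 ^ (t + 1) := by ring
            rw [h9]
            nlinarith
          omega
  by_cases hbig : ((t + 2) * (t + 2)) ^ 4 *
      ∑ w : V, (univ.filter (fun x : V × V => w ∈ S x.1 x.2)).card ^ 2 < n ^ 4
  · -- a model exists
    exfalso
    obtain ⟨φ, hφ⟩ := exists_good (A := Fin (t + 2) × Fin (t + 2)) S (by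
      rw [Fintype.card_prod, Fintype.card_fin, ← hnn]
      exact hbig)
    obtain ⟨g, g1, g2, g3⟩ := model_of_good G (t + 2) (by omega) S h1 h2 h3 φ hφ
    apply hmin
    exact ⟨fun i => g (Fin.castLE (by omega) i), fun i => g1 _,
      fun i j hij => g2 _ _ (fun he => hij (Fin.castLE_injective _ he)),
      fun i j hij => g3 _ _ (fun he => hij (Fin.castLE_injective _ he))⟩
  · push Not at hbig
    have h5 : n ^ 4 ≤ n ^ 3 * (C * (2 * G.degree v + 1)) := by
      refine hbig.trans ?_
      refine (Nat.mul_le_mul_left _ hsum).trans (le_of_eq ?_)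
      rw [hC]
      ring
    have h6 : n ≤ C * (2 * G.degree v + 1) := by
      have hn3 : 0 < n ^ 3 := by positivity
      apply Nat.le_of_mul_le_mul_left _ hn3
      calc n ^ 3 * n = n ^ 4 := by ring
        _ ≤ _ := h5
    have h7 : n ≤ 3 * C * G.degree v := by
      refine h6.trans ?_
      nlinarith
    have h8 : (n : ℝ) ≤ 3 * C * G.degree v := by exact_mod_cast h7
    have hC' : (0 : ℝ) < 3 * C := by positivity
    rw [one_div, inv_mul_le_iff₀ hC']
    exact h8

end Pool.Agent.S08825
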