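import Pool.Statements.S08907
import Pool.Agent.V11261.PM.Count

set_option autoImplicit false
open Pool Pool.MP_596cf1_co

namespace Pool.Agent.S08907

/-- There is a constant c > 1 such that, for all large n, the number of distinct values taken by the permanent of n×n matrices with entries ±1 is at least c^n. -/
theorem result :
    ∃ c : ℝ, 1 < c ∧ ∃ N : ℕ, ∀ n : ℕ, N ≤ n →
      c ^ n ≤ ((Set.ncard {p : ℤ | ∃ A : Matrix (Fin n) (Fin n) ℤ,
        (∀ i j, A i j = 1 ∨ A i j = -1) ∧ A.permanent = p} : ℕ) : ℝ) := by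
  refine ⟨(2 : ℝ) ^ ((1 : ℝ) / 16), Real.one_lt_rpow (by norm_num) (by norm_num), 16, ?_⟩
  intro n hn
  have h := Pool.Agent.V11261.PM.main n hn
  have h1 : ((2 : ℝ) ^ ((1 : ℝ) / 16)) ^ n ≤ (2 : ℝ) ^ ((n / 4) / 2) := by
    rw [← Real.rpow_natCast ((2 : ℝ) ^ ((1 : ℝ) / 16)) n, ← Real.rpow_mul (by norm_num),
      ← Real.rpow_natCast (2 : ℝ) ((n / 4) / 2)]
    apply Real.rpow_le_rpow_of_exponent_le (by norm_num)
    have h2 : n ≤ 16 * ((n / 4) / 2) := by omega
    have h3 : (n : ℝ) ≤ 16 * (((n / 4) / 2 : ℕ) : ℝ) := by exact_mod_cast h2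
    linarith
  refine h1.trans ?_
  exact_mod_cast h

end Pool.Agent.S08907
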