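import Pool.Statements.S09469
import Pool.Agent.V11287.PT4

set_option autoImplicit false
open Pool Pool.MP_72c5f4_co

namespace Pool.Agent.S09469

open Pool.Agent.V11287.PT

theorem quad_le (l : ℕ) (hl : 10 ≤ l) : 6 * l ^ 2 + 24 * l + 15 ≤ 2 ^ l := by
  induction l, hl using Nat.le_induction with
  | base => norm_num
  | succ l hl ih =>
    have h2 : 2 ^ (l + 1) = 2 * 2 ^ l := by ring
    rw [h2]
    nlinarith

/-- For every M, all sufficiently large n with n ≡ 1 or 3 mod 6 admit at least M pairwise non-isomorphic cyclic Steiner triple systems on Z/nZ, i.e. the number of cyclic STS(n) up to isomorphism tends to infinity. -/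
theorem result :
    ∀ M : ℕ, ∃ N : ℕ, ∀ n : ℕ, N ≤ n → (n % 6 = 1 ∨ n % 6 = 3) →
      ∃ B : Fin M → Finset (Finset (ZMod n)),
        (∀ i, (∀ b ∈ B i, b.card = 3) ∧
          (∀ x y : ZMod n, x ≠ y → ∃! b : Finset (ZMod n), b ∈ B i ∧ x ∈ b ∧ y ∈ b) ∧
          (∀ b ∈ B i, b.image (fun x => x + 1) ∈ B i)) ∧
        (∀ i j, i ≠ j → ¬ ∃ σ : Equiv.Perm (ZMod n),
          ∀ b : Finset (ZMod n), b ∈ B i ↔ b.map σ.toEmbedding ∈ B j) := by
  intro M
  refine ⟨2 ^ (max 10 M) + 63, fun n hn hmod => ?_⟩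
  have hn63 : 63 ≤ n := le_trans (Nat.le_add_left _ _) hn
  haveI : NeZero n := ⟨by omega⟩
  obtain ⟨k, y, hG, hk⟩ := exists_good n hn63 hmod
  set l := Nat.log 2 n with hl
  have hlmax : max 10 M ≤ l := by
    rw [hl]
    apply Nat.le_log_of_pow_le (by norm_num)
    omega
  have hl10 : 10 ≤ l := le_trans (le_max_left _ _) hlmax
  have hlM : M ≤ l := le_trans (le_max_right _ _) hlmax
  have h2l : 2 ^ l ≤ n := Nat.pow_log_le_self 2 (by omega)
  have h2l' : n < 2 ^ (l + 1) := Nat.lt_pow_succ_log_self (by norm_num) n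
  have hq := quad_le l hl10
  have hkk : M + (l + 1) * (l + 2) ≤ k := by
    have : 6 * (M + (l + 1) * (l + 2)) + 3 ≤ 6 * k + 3 := by
      have h1 : 6 * (M + (l + 1) * (l + 2)) + 3 ≤ 6 * l ^ 2 + 24 * l + 15 := by nlinarith
      omega
    omega
  have hcount : M * n ^ (l + 2) ≤ 2 ^ k := by
    calc M * n ^ (l + 2) ≤ 2 ^ M * (2 ^ (l + 1)) ^ (l + 2) :=
          Nat.mul_le_mul (Nat.lt_two_pow_self).le (Nat.pow_le_pow_left h2l'.le _)
      _ = 2 ^ (M + (l + 1) * (l + 2)) := by rw [← pow_mul, ← pow_add]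
      _ ≤ 2 ^ k := Nat.pow_le_pow_right (by norm_num) hkk
  let F : {A : Finset ℕ // A ∈ (Finset.Icc 1 k).powerset} → Finset (Finset (ZMod n)) :=
    fun A => Sys n k y A.1
  have hF : Function.Injective F := by
    intro A A' h
    have h1 : A.1 ⊆ Finset.Icc 1 k := Finset.mem_powerset.1 A.2
    have h2 : A'.1 ⊆ Finset.Icc 1 k := Finset.mem_powerset.1 A'.2
    have := @Sys_inj n k _ y hG hk ⟨A.1, h1⟩ ⟨A'.1, h2⟩ h
    exact Subtype.ext (by simpa using this)
  obtain ⟨f, -, hf⟩ := pick F hF Finset.univ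
    (fun i _ => ⟨Sys_sts hG hk _, Sys_cyc _⟩) (l + 2)
    (by rw [pow_succ]; omega) M (by
      rw [Finset.card_univ, Fintype.card_coe, Finset.card_powerset, Nat.card_Icc]
      simpa using hcount)
  refine ⟨fun i => F (f i), fun i => ⟨(Sys_sts hG hk _).1, ?_, Sys_cyc _⟩, fun i j hij => ?_⟩
  · intro a b hab
    exact (Sys_sts hG hk _).2 a b hab
  · exact hf i j hij

end Pool.Agent.S09469
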