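import Pool.Statements.S09637
-- import your own Pool.Agent.* helpers here

set_option autoImplicit false
open Pool Pool.MP_7a5332_co

namespace Pool.Agent.S09637

open Finset

theorem recolour {V : Type} [DecidableEq V] (G : SimpleGraph V) (u v : V)
    (C : (G.deleteEdges {s(u, v)}).Coloring (Fin 3)) (w : V) (hw : w = u ∨ w = v) (i : Fin 3)
    (h : ∀ z, G.Adj w z → C z ≠ i) : G.Colorable 3 := by
  refine ⟨SimpleGraph.Coloring.mk (Function.update C w i) ?_⟩
  intro a b hab
  by_cases ha : a = w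
  · subst ha
    have hb : b ≠ a := hab.ne'
    rw [Function.update_self, Function.update_of_ne hb]
    exact (h b hab).symm
  · by_cases hb : b = w
    · subst hb
      rw [Function.update_self, Function.update_of_ne ha]
      exact h a hab.symm
    · rw [Function.update_of_ne ha, Function.update_of_ne hb]
      refine C.valid ?_
      rw [SimpleGraph.deleteEdges_adj]
      refine ⟨hab, ?_⟩
      rw [Set.mem_singleton_iff, Sym2.eq_iff]
      rintro (⟨h1, h2⟩ | ⟨h1, h2⟩) <;> rcases hw with hw | hw <;> subst hw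
      · exact ha h1
      · exact hb h2
      · exact hb h2
      · exact ha h1

theorem core {V : Type} [Fintype V] [DecidableEq V] (G : SimpleGraph V) [DecidableRel G.Adj]
    (h4 : ¬ G.Colorable 3) (hcrit : ∀ e ∈ G.edgeSet, (G.deleteEdges {e}).Colorable 3)
    (TA TB : Finset V) (hA : ∀ a ∈ TA, ∀ a' ∈ TA, ¬ G.Adj a a')
    (hB : ∀ b ∈ TB, ∀ b' ∈ TB, ¬ G.Adj b b') (s : ℕ)
    (hsA : ∀ a ∈ TA, (TB.filter (fun b => ¬ G.Adj a b)).card < s)
    (hsB : ∀ b ∈ TB, (TA.filter (fun a => ¬ G.Adj a b)).card < s)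
    (h3A : 3 * s < TA.card) (h3B : 3 * s < TB.card) :
    ((TA ×ˢ TB).filter (fun p => G.Adj p.1 p.2)).card ≤ ((TA ∪ TB)ᶜ).card ^ 2 := by
  have key : ∀ p ∈ (TA ×ˢ TB).filter (fun p => G.Adj p.1 p.2), ∃ q : V × V,
      q.1 ∈ (TA ∪ TB)ᶜ ∧ q.2 ∈ (TA ∪ TB)ᶜ ∧ G.Adj q.1 p.1 ∧ G.Adj q.2 p.2 ∧
      ∀ a ∈ TA, ∀ b ∈ TB, G.Adj q.1 a → G.Adj q.2 b → G.Adj a b → (a, b) = p := by
    rintro ⟨u, v⟩ hp
    simp only [mem_filter, mem_product] at hp
    obtain ⟨⟨hu, hv⟩, huv⟩ := hp
    obtain ⟨C⟩ := hcrit s(u, v) huv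
    -- an edge with equal colours at both ends is the deleted edge
    have hmono : ∀ a b, G.Adj a b → C a = C b → (a = u ∧ b = v) ∨ (a = v ∧ b = u) := by
      intro a b hab hC
      by_contra hne
      refine C.valid (v := a) (w := b) ?_ hC
      rw [SimpleGraph.deleteEdges_adj]
      refine ⟨hab, ?_⟩
      rw [Set.mem_singleton_iff, Sym2.eq_iff]
      exact hne
    have hmono' : ∀ a ∈ TA, ∀ b ∈ TB, G.Adj a b → C a = C b → a = u ∧ b = v := by
      intro a ha b hb hab hC
      rcases hmono a b hab hC with h | ⟨rfl, rfl⟩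
      · exact h
      · exact absurd hab.symm (hA _ hu _ ha)
    have hCuv : C u = C v := by
      by_contra hne
      refine h4 ⟨SimpleGraph.Coloring.mk (fun x => C x) ?_⟩
      intro a b hab hC
      rcases hmono a b hab hC with ⟨rfl, rfl⟩ | ⟨rfl, rfl⟩
      · exact hne hC
      · exact hne hC.symm
    have claim1 : ∀ i : Fin 3, (∃ b ∈ TB, C b = i) → (TA.filter (fun a => C a = i)).card ≤ s := by
      rintro i ⟨b, hb, hbi⟩
      have hsub : TA.filter (fun a => C a = i) ⊆
          insert u (TA.filter (fun a => ¬ G.Adj a b)) := by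
        intro a ha
        rw [mem_filter] at ha
        rw [mem_insert, mem_filter]
        by_cases hab : G.Adj a b
        · left
          exact (hmono' a ha.1 b hb hab (ha.2.trans hbi.symm)).1
        · right
          exact ⟨ha.1, hab⟩
      have h1 := card_le_card hsub
      have h2 := card_insert_le u (TA.filter (fun a => ¬ G.Adj a b))
      have h3 := hsB b hb
      omega
    have claim2 : ∀ i : Fin 3, (∃ a ∈ TA, C a = i) → (TB.filter (fun b => C b = i)).card ≤ s := by
      rintro i ⟨a, ha, hai⟩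
      have hsub : TB.filter (fun b => C b = i) ⊆
          insert v (TB.filter (fun b => ¬ G.Adj a b)) := by
        intro b hb
        rw [mem_filter] at hb
        rw [mem_insert, mem_filter]
        by_cases hab : G.Adj a b
        · left
          exact (hmono' a ha b hb.1 hab (hai.trans hb.2.symm)).2
        · right
          exact ⟨hb.1, hab⟩
      have h1 := card_le_card hsub
      have h2 := card_insert_le v (TB.filter (fun b => ¬ G.Adj a b))
      have h3 := hsA a ha
      omega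
    have hlarge : ∀ T : Finset V, 3 * s < T.card → ∃ i : Fin 3,
        s < (T.filter (fun a => C a = i)).card := by
      intro T hT
      by_contra hcon
      push Not at hcon
      have h1 : T.card = ∑ i : Fin 3, (T.filter (fun a => C a = i)).card :=
        card_eq_sum_card_fiberwise (fun _ _ => mem_univ _)
      have h2 : ∑ i : Fin 3, (T.filter (fun a => C a = i)).card ≤ ∑ _i : Fin 3, s :=
        sum_le_sum fun i _ => hcon i
      rw [sum_const, card_univ, Fintype.card_fin, smul_eq_mul] at h2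
      omega
    obtain ⟨i, hi⟩ := hlarge TA h3A
    obtain ⟨j, hj⟩ := hlarge TB h3B
    have hBi : ∀ b ∈ TB, C b ≠ i := by
      intro b hb hbi
      have := claim1 i ⟨b, hb, hbi⟩
      omega
    have hAj : ∀ a ∈ TA, C a ≠ j := by
      intro a ha haj
      have := claim2 j ⟨a, ha, haj⟩
      omega
    have hik : i ≠ C u := fun h => hBi v hv (hCuv.symm.trans h.symm)
    have hjk : j ≠ C u := fun h => hAj u hu h.symm
    have hij : i ≠ j := by
      rintro rfl
      have : (TA.filter (fun a => C a = i)).Nonempty := by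
        rw [← card_pos]
        omega
      obtain ⟨a, ha⟩ := this
      rw [mem_filter] at ha
      exact hAj a ha.1 ha.2
    have hthree : ∀ c : Fin 3, c ≠ i → c ≠ j → c = C u := by
      intro c hci hcj
      have h3 : ∀ i j k c : Fin 3, i ≠ k → j ≠ k → i ≠ j → c ≠ i → c ≠ j → c = k := by
        intro i j k c h1 h2 h3 h4 h5
        rw [ne_eq, Fin.ext_iff] at h1 h2 h3 h4 h5
        exact Fin.ext (by omega)
      exact h3 i j (C u) c hik hjk hij hci hcj
    obtain ⟨z, hz, hzi⟩ : ∃ z, G.Adj u z ∧ C z = i := by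
      by_contra hcon
      push Not at hcon
      exact h4 (recolour G u v C u (Or.inl rfl) i hcon)
    obtain ⟨z', hz', hzj⟩ : ∃ z, G.Adj v z ∧ C z = j := by
      by_contra hcon
      push Not at hcon
      exact h4 (recolour G u v C v (Or.inr rfl) j hcon)
    have hzA : z ∉ TA := fun h => hA u hu z h hz
    have hzB : z ∉ TB := fun h => hBi z h hzi
    have hz'A : z' ∉ TA := fun h => hAj z' h hzj
    have hz'B : z' ∉ TB := fun h => hB v hv z' h hz'
    refine ⟨(z, z'), ?_, ?_, hz.symm, hz'.symm, ?_⟩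
    · rw [mem_compl, mem_union]
      tauto
    · rw [mem_compl, mem_union]
      tauto
    · intro a ha b hb hza hzb hab
      simp only at hza hzb
      have h1 : C a ≠ i := by
        intro h
        rcases hmono z a hza (hzi.trans h.symm) with ⟨rfl, rfl⟩ | ⟨rfl, rfl⟩
        · exact hzA hu
        · exact hzB hv
      have h2 : C b ≠ j := by
        intro h
        rcases hmono z' b hzb (hzj.trans h.symm) with ⟨rfl, rfl⟩ | ⟨rfl, rfl⟩
        · exact hz'A hu
        · exact hz'B hv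
      have h3 : C a = C u := hthree _ h1 (hAj a ha)
      have h4' : C b = C u := hthree _ (hBi b hb) h2
      have h5 := hmono' a ha b hb hab (h3.trans h4'.symm)
      rw [h5.1, h5.2]
  choose! f hf using key
  rw [pow_two, ← card_product]
  refine card_le_card_of_injOn f ?_ ?_
  · intro p hp
    obtain ⟨h1, h2, -⟩ := hf p hp
    rw [mem_coe, mem_product]
    exact ⟨h1, h2⟩
  · intro p hp q hq hpq
    obtain ⟨-, -, -, -, h5⟩ := hf p hp
    obtain ⟨-, -, h3, h4', -⟩ := hf q hq
    rw [mem_coe, mem_filter, mem_product] at hq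
    have := h5 q.1 hq.1.1 q.2 hq.1.2 (hpq ▸ h3) (hpq ▸ h4') hq.2
    exact this.symm

/-- Counting the edges outside a pair of independent sets. -/
theorem edges_le {n : ℕ} (G : SimpleGraph (Fin n)) [DecidableRel G.Adj] (X Y : Finset (Fin n))
    (hX : ∀ a ∈ X, ∀ a' ∈ X, ¬ G.Adj a a') (hY : ∀ b ∈ Y, ∀ b' ∈ Y, ¬ G.Adj b b') :
    G.edgeFinset.card ≤ ((X ×ˢ Y).filter (fun p => G.Adj p.1 p.2)).card +
      ((X ∪ Y)ᶜ).card * n := by
  have h1 : 2 * G.edgeFinset.card =
      (((univ : Finset (Fin n)) ×ˢ (univ : Finset (Fin n))).filter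
        (fun p => G.Adj p.1 p.2)).card := by
    rw [← SimpleGraph.sum_degrees_eq_twice_card_edges]
    rw [card_filter, sum_product]
    refine sum_congr rfl ?_
    intro v _
    rw [← SimpleGraph.card_neighborFinset_eq_degree, SimpleGraph.neighborFinset_eq_filter,
      card_filter]
  have h2 : ((univ : Finset (Fin n)) ×ˢ (univ : Finset (Fin n))).filter
        (fun p => G.Adj p.1 p.2) ⊆
      (((X ×ˢ Y).filter (fun p => G.Adj p.1 p.2)) ∪
        ((X ×ˢ Y).filter (fun p => G.Adj p.1 p.2)).image Prod.swap) ∪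
      (((X ∪ Y)ᶜ ×ˢ univ) ∪ (univ ×ˢ (X ∪ Y)ᶜ)) := by
    rintro ⟨a, b⟩ hab
    simp only [mem_filter, mem_product, mem_univ, and_true, true_and] at hab
    by_cases ha : a ∈ X ∪ Y
    · by_cases hb : b ∈ X ∪ Y
      · rw [mem_union] at ha hb
        rw [mem_union, mem_union]
        left
        rcases ha with ha | ha <;> rcases hb with hb | hb
        · exact absurd hab (hX a ha b hb)
        · left
          simp only [mem_filter, mem_product]
          exact ⟨⟨ha, hb⟩, hab⟩
        · right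
          rw [mem_image]
          refine ⟨(b, a), ?_, rfl⟩
          simp only [mem_filter, mem_product]
          exact ⟨⟨hb, ha⟩, hab.symm⟩
        · exact absurd hab (hY a ha b hb)
      · rw [mem_union]
        right
        rw [mem_union]
        right
        simp only [mem_product, mem_univ, true_and, mem_compl]
        exact hb
    · rw [mem_union]
      right
      rw [mem_union]
      left
      simp only [mem_product, mem_univ, and_true, mem_compl]
      exact ha
  have h3 := card_le_card h2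
  have h4 := card_union_le (((X ×ˢ Y).filter (fun p => G.Adj p.1 p.2)) ∪
        ((X ×ˢ Y).filter (fun p => G.Adj p.1 p.2)).image Prod.swap)
      (((X ∪ Y)ᶜ ×ˢ univ) ∪ (univ ×ˢ (X ∪ Y)ᶜ))
  have h5 := card_union_le ((X ×ˢ Y).filter (fun p => G.Adj p.1 p.2))
        (((X ×ˢ Y).filter (fun p => G.Adj p.1 p.2)).image Prod.swap)
  have h6 := card_union_le ((X ∪ Y)ᶜ ×ˢ (univ : Finset (Fin n)))
    ((univ : Finset (Fin n)) ×ˢ (X ∪ Y)ᶜ)
  have h7 : (((X ×ˢ Y).filter (fun p => G.Adj p.1 p.2)).image Prod.swap).card ≤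
    ((X ×ˢ Y).filter (fun p => G.Adj p.1 p.2)).card := card_image_le
  rw [card_product, card_product, card_univ, Fintype.card_fin] at h6
  have h8 : n * ((X ∪ Y)ᶜ).card = ((X ∪ Y)ᶜ).card * n := Nat.mul_comm _ _
  omega

/-- There is an edge whose ends have a large degree sum. -/
theorem exists_edge {n : ℕ} (G : SimpleGraph (Fin n)) [DecidableRel G.Adj] (D : ℝ)
    (hpos : 0 < G.edgeFinset.card) (hD : (n : ℝ) * D < 4 * (G.edgeFinset.card : ℝ)) :
    ∃ x y, G.Adj x y ∧ D ≤ (G.degree x : ℝ) + (G.degree y : ℝ) := by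
  by_contra hcon
  push Not at hcon
  have h1 : ∑ x : Fin n, ∑ y ∈ G.neighborFinset x, ((G.degree x : ℝ) + (G.degree y : ℝ)) ≤
      ∑ x : Fin n, ∑ _y ∈ G.neighborFinset x, D := by
    refine sum_le_sum fun x _ => sum_le_sum fun y hy => ?_
    rw [SimpleGraph.mem_neighborFinset] at hy
    exact (hcon x y hy).le
  have hdeg : ∑ x : Fin n, (G.degree x : ℝ) = 2 * (G.edgeFinset.card : ℝ) := by
    have := G.sum_degrees_eq_twice_card_edges
    exact_mod_cast this
  have h2 : ∑ x : Fin n, ∑ _y ∈ G.neighborFinset x, D = 2 * (G.edgeFinset.card : ℝ) * D := by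
    rw [← hdeg, sum_mul]
    refine sum_congr rfl fun x _ => ?_
    rw [sum_const, SimpleGraph.card_neighborFinset_eq_degree, nsmul_eq_mul]
  have h3 : ∑ x : Fin n, ∑ y ∈ G.neighborFinset x, ((G.degree x : ℝ) + (G.degree y : ℝ)) =
      2 * ∑ x : Fin n, (G.degree x : ℝ) ^ 2 := by
    simp_rw [sum_add_distrib]
    have h4 : ∑ x : Fin n, ∑ _y ∈ G.neighborFinset x, (G.degree x : ℝ) =
        ∑ x : Fin n, (G.degree x : ℝ) ^ 2 := by
      refine sum_congr rfl fun x _ => ?_
      rw [sum_const, SimpleGraph.card_neighborFinset_eq_degree, nsmul_eq_mul, pow_two]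
    have h5 : ∑ x : Fin n, ∑ y ∈ G.neighborFinset x, (G.degree y : ℝ) =
        ∑ y : Fin n, ∑ _x ∈ G.neighborFinset y, (G.degree y : ℝ) := by
      refine sum_comm' ?_
      intro x y
      simp only [mem_univ, true_and, and_true, SimpleGraph.mem_neighborFinset]
      exact ⟨fun h => h.symm, fun h => h.symm⟩
    rw [h5, h4]
    ring
  have h6 : (∑ x : Fin n, (G.degree x : ℝ)) ^ 2 ≤
      (n : ℝ) * ∑ x : Fin n, (G.degree x : ℝ) ^ 2 := by
    have := sq_sum_le_card_mul_sum_sq (s := (univ : Finset (Fin n)))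
      (f := fun x => (G.degree x : ℝ))
    rw [card_univ, Fintype.card_fin] at this
    exact this
  rw [h2, h3] at h1
  rw [hdeg] at h6
  have hn : (0 : ℝ) ≤ n := Nat.cast_nonneg n
  have he : (0 : ℝ) < (G.edgeFinset.card : ℝ) := by exact_mod_cast hpos
  have h7 : (n : ℝ) * ∑ x : Fin n, (G.degree x : ℝ) ^ 2 ≤
      n * ((G.edgeFinset.card : ℝ) * D) := by
    refine mul_le_mul_of_nonneg_left ?_ hn
    linarith
  nlinarith

theorem independent_nbrs {n : ℕ} (G : SimpleGraph (Fin n)) [DecidableRel G.Adj]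
    (hfree : G.CliqueFree 3) (y : Fin n) : ∀ a ∈ G.neighborFinset y, ∀ a' ∈ G.neighborFinset y,
    ¬ G.Adj a a' := by
  intro a ha a' ha' h
  rw [SimpleGraph.mem_neighborFinset] at ha ha'
  exact hfree {y, a, a'} (SimpleGraph.is3Clique_triple_iff.2 ⟨ha, ha', h⟩)

theorem bad_le {V : Type} [Fintype V] [DecidableEq V] (A B : Finset V) (r : V → V → Prop)
    [∀ a b, Decidable (r a b)] (n : ℕ) :
    n * (A.filter (fun a => ¬ 50 * (B.filter (fun b => r a b)).card ≤ n)).card ≤
      50 * ((A ×ˢ B).filter (fun p => r p.1 p.2)).card := by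
  have h1 : ((A ×ˢ B).filter (fun p => r p.1 p.2)).card =
      ∑ a ∈ A, (B.filter (fun b => r a b)).card := by
    rw [card_filter, sum_product]
    refine sum_congr rfl fun a _ => ?_
    rw [card_filter]
  rw [h1]
  calc n * (A.filter (fun a => ¬ 50 * (B.filter (fun b => r a b)).card ≤ n)).card
      = ∑ _a ∈ A.filter (fun a => ¬ 50 * (B.filter (fun b => r a b)).card ≤ n), n := by
        rw [sum_const, smul_eq_mul, Nat.mul_comm]
    _ ≤ ∑ a ∈ A.filter (fun a => ¬ 50 * (B.filter (fun b => r a b)).card ≤ n),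
        50 * (B.filter (fun b => r a b)).card := by
        refine sum_le_sum fun a ha => ?_
        rw [mem_filter] at ha
        omega
    _ ≤ ∑ a ∈ A, 50 * (B.filter (fun b => r a b)).card :=
        sum_le_sum_of_subset_of_nonneg (filter_subset _ _) (fun _ _ _ => Nat.zero_le _)
    _ = 50 * ∑ a ∈ A, (B.filter (fun b => r a b)).card := by rw [mul_sum]

theorem num1 (n e : ℝ) (hn : 100 ≤ n) (he : (1 / 4 - 1 / 100000) * n ^ 2 < e) :
    0 < e ∧ n * ((1 - 4 / 100000) * n) < 4 * e := by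
  constructor
  · nlinarith
  · nlinarith

theorem num2 (n e a b c m k : ℝ) (hn : 0 < n) (ha : 0 ≤ a) (hb : 0 ≤ b) (hc : 0 ≤ c)
    (hsum : c + a + b = n) (hd : (1 - 4 / 100000) * n ≤ a + b) (hedges : e ≤ m + c * n)
    (he : (1 / 4 - 1 / 100000) * n ^ 2 < e) (hsplit : m + k = a * b) (hk : 0 ≤ k) :
    k ≤ 5 / 100000 * n ^ 2 ∧ 24 / 100 * n ≤ a ∧ 24 / 100 * n ≤ b := by
  have h1 : c ≤ 4 / 100000 * n := by linarith
  have h2 : c * n ≤ 4 / 100000 * n * n := mul_le_mul_of_nonneg_right h1 hn.le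
  have h3 : (1 / 4 - 5 / 100000) * n ^ 2 < m := by nlinarith
  have h4 : a * b ≤ 1 / 4 * n ^ 2 := by
    have h5 : 4 * (a * b) ≤ (a + b) ^ 2 := by nlinarith [sq_nonneg (a - b)]
    have h6 : (a + b) ^ 2 ≤ n ^ 2 := pow_le_pow_left₀ (by linarith) (by linarith) 2
    linarith
  have h5 : (1 / 4 - 5 / 100000) * n ^ 2 < a * b := by linarith
  refine ⟨by linarith, ?_, ?_⟩
  · by_contra hlt
    push Not at hlt
    have h6 : a * b ≤ (24 / 100) * n * n := mul_le_mul hlt.le (by linarith) hb (by positivity)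
    nlinarith
  · by_contra hlt
    push Not at hlt
    have h6 : a * b ≤ n * ((24 / 100) * n) := mul_le_mul (by linarith) hlt.le hb (by positivity)
    nlinarith

theorem num3 (n k u : ℝ) (hn : 0 < n) (h : n * u ≤ 50 * k) (hk : k ≤ 5 / 100000 * n ^ 2) :
    u ≤ 250 / 100000 * n := by
  have h2 : n * u ≤ n * (250 / 100000 * n) := by nlinarith
  exact le_of_mul_le_mul_left h2 hn

theorem num4 (n e z : ℝ) (hn : 0 < n) (hz : 0 ≤ z) (hz2 : z ≤ 504 / 100000 * n)
    (h : e ≤ z ^ 2 + z * n) : e ≤ (1 / 4 - 1 / 100000) * n ^ 2 := by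
  have h3 : z ^ 2 ≤ (504 / 100000 * n) ^ 2 := pow_le_pow_left₀ hz hz2 2
  have h5 : z * n ≤ 504 / 100000 * n * n := mul_le_mul_of_nonneg_right hz2 hn.le
  nlinarith

theorem side_count {n : ℕ} (G : SimpleGraph (Fin n)) [DecidableRel G.Adj]
    (A B : Finset (Fin n)) :
    ((B ×ˢ A).filter (fun p => ¬ G.Adj p.2 p.1)).card =
      ((A ×ˢ B).filter (fun p => ¬ G.Adj p.1 p.2)).card := by
  refine card_bij (fun p _ => p.swap) ?_ ?_ ?_
  · rintro ⟨a, b⟩ h
    simp only [mem_filter, mem_product, Prod.swap] at h ⊢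
    exact ⟨⟨h.1.2, h.1.1⟩, h.2⟩
  · intro p _ q _ h
    exact Prod.swap_injective h
  · rintro ⟨a, b⟩ h
    simp only [mem_filter, mem_product] at h
    refine ⟨(b, a), ?_, rfl⟩
    simp only [mem_filter, mem_product]
    exact ⟨⟨h.1.2, h.1.1⟩, h.2⟩

/-- From two large independent sets with few missing pairs to the final bound. -/
theorem second_step {n : ℕ} (G : SimpleGraph (Fin n)) [DecidableRel G.Adj] (hn : 100 ≤ n)
    (h4 : ¬ G.Colorable 3)
    (hcrit : ∀ e ∈ G.edgeSet, (G.deleteEdges {e}).Colorable 3) (A B : Finset (Fin n))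
    (hA : ∀ a ∈ A, ∀ a' ∈ A, ¬ G.Adj a a') (hB : ∀ b ∈ B, ∀ b' ∈ B, ¬ G.Adj b b')
    (hC : (((A ∪ B)ᶜ).card : ℝ) ≤ 4 / 100000 * n)
    (hM : (((A ×ˢ B).filter (fun p => ¬ G.Adj p.1 p.2)).card : ℝ) ≤ 5 / 100000 * (n : ℝ) ^ 2)
    (hAl : 24 / 100 * (n : ℝ) ≤ (A.card : ℝ)) (hBl : 24 / 100 * (n : ℝ) ≤ (B.card : ℝ)) :
    (G.edgeFinset.card : ℝ) ≤ (1 / 4 - 1 / 100000) * (n : ℝ) ^ 2 := by
  have hn' : (100 : ℝ) ≤ (n : ℝ) := by exact_mod_cast hn
  have hn0 : (0 : ℝ) < (n : ℝ) := by linarith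
  have hbadA := bad_le A B (fun a b => ¬ G.Adj a b) n
  have hbadB := bad_le B A (fun b a => ¬ G.Adj a b) n
  rw [side_count G A B] at hbadB
  have hsumA : (A.filter (fun a => 50 * (B.filter (fun b => ¬ G.Adj a b)).card ≤ n)).card +
      (A.filter (fun a => ¬ 50 * (B.filter (fun b => ¬ G.Adj a b)).card ≤ n)).card = A.card :=
    card_filter_add_card_filter_not (s := A)
      (fun a => 50 * (B.filter (fun b => ¬ G.Adj a b)).card ≤ n)
  have hsumB : (B.filter (fun b => 50 * (A.filter (fun a => ¬ G.Adj a b)).card ≤ n)).card +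
      (B.filter (fun b => ¬ 50 * (A.filter (fun a => ¬ G.Adj a b)).card ≤ n)).card = B.card :=
    card_filter_add_card_filter_not (s := B)
      (fun b => 50 * (A.filter (fun a => ¬ G.Adj a b)).card ≤ n)
  have hmemA : ∀ a ∈ A.filter (fun a => 50 * (B.filter (fun b => ¬ G.Adj a b)).card ≤ n),
      a ∈ A ∧ 50 * (B.filter (fun b => ¬ G.Adj a b)).card ≤ n := fun a ha => mem_filter.1 ha
  have hmemB : ∀ b ∈ B.filter (fun b => 50 * (A.filter (fun a => ¬ G.Adj a b)).card ≤ n),
      b ∈ B ∧ 50 * (A.filter (fun a => ¬ G.Adj a b)).card ≤ n := fun b hb => mem_filter.1 hb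
  have hcov : (A.filter (fun a => 50 * (B.filter (fun b => ¬ G.Adj a b)).card ≤ n) ∪
      B.filter (fun b => 50 * (A.filter (fun a => ¬ G.Adj a b)).card ≤ n))ᶜ ⊆
      (A ∪ B)ᶜ ∪ ((A.filter (fun a => ¬ 50 * (B.filter (fun b => ¬ G.Adj a b)).card ≤ n)) ∪
        (B.filter (fun b => ¬ 50 * (A.filter (fun a => ¬ G.Adj a b)).card ≤ n))) := by
    intro v hv
    rw [mem_compl, mem_union, not_or, mem_filter, mem_filter] at hv
    rw [mem_union, mem_compl, mem_union, mem_union, mem_filter, mem_filter]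
    tauto
  have hUA' : ((A.filter (fun a => ¬ 50 * (B.filter (fun b => ¬ G.Adj a b)).card ≤ n)).card : ℝ)
      ≤ 250 / 100000 * n :=
    num3 n _ _ hn0 (by exact_mod_cast hbadA) hM
  have hUB' : ((B.filter (fun b => ¬ 50 * (A.filter (fun a => ¬ G.Adj a b)).card ≤ n)).card : ℝ)
      ≤ 250 / 100000 * n :=
    num3 n _ _ hn0 (by exact_mod_cast hbadB) hM
  generalize hTA : A.filter (fun a => 50 * (B.filter (fun b => ¬ G.Adj a b)).card ≤ n) = TA at *
  generalize hTB : B.filter (fun b => 50 * (A.filter (fun a => ¬ G.Adj a b)).card ≤ n) = TB at *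
  generalize hUA : A.filter (fun a => ¬ 50 * (B.filter (fun b => ¬ G.Adj a b)).card ≤ n) = UA at *
  generalize hUB : B.filter (fun b => ¬ 50 * (A.filter (fun a => ¬ G.Adj a b)).card ≤ n) = UB at *
  have hsumA' : (TA.card : ℝ) + (UA.card : ℝ) = (A.card : ℝ) := by exact_mod_cast hsumA
  have hsumB' : (TB.card : ℝ) + (UB.card : ℝ) = (B.card : ℝ) := by exact_mod_cast hsumB
  have hTAsub : TA ⊆ A := fun a ha => (hmemA a ha).1
  have hTBsub : TB ⊆ B := fun b hb => (hmemB b hb).1
  have hZ : (((TA ∪ TB)ᶜ).card : ℝ) ≤ 504 / 100000 * n := by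
    have h2 := card_le_card hcov
    have h3 := card_union_le ((A ∪ B)ᶜ) (UA ∪ UB)
    have h4 := card_union_le UA UB
    have h5 : ((TA ∪ TB)ᶜ).card ≤ ((A ∪ B)ᶜ).card + UA.card + UB.card := by omega
    have h6 : (((TA ∪ TB)ᶜ).card : ℝ) ≤ (((A ∪ B)ᶜ).card : ℝ) + (UA.card : ℝ) + (UB.card : ℝ) := by
      exact_mod_cast h5
    linarith
  have hs : (((n / 50 + 1 : ℕ)) : ℝ) ≤ 2 / 100 * (n : ℝ) + 1 := by
    have h1 : 50 * (n / 50) ≤ n := Nat.mul_div_le n 50
    have h2 : (50 : ℝ) * ((n / 50 : ℕ) : ℝ) ≤ n := by exact_mod_cast h1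
    rw [Nat.cast_add, Nat.cast_one]
    linarith
  have hTAl : 3 * (n / 50 + 1) < TA.card := by
    have h1 : (3 : ℝ) * ((n / 50 + 1 : ℕ) : ℝ) < (TA.card : ℝ) := by linarith
    exact_mod_cast h1
  have hTBl : 3 * (n / 50 + 1) < TB.card := by
    have h1 : (3 : ℝ) * ((n / 50 + 1 : ℕ) : ℝ) < (TB.card : ℝ) := by linarith
    exact_mod_cast h1
  have hcore := core G h4 hcrit TA TB (fun a ha a' ha' => hA a (hTAsub ha) a' (hTAsub ha'))
    (fun b hb b' hb' => hB b (hTBsub hb) b' (hTBsub hb')) (n / 50 + 1) (by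
      intro a ha
      have h1 : (TB.filter (fun b => ¬ G.Adj a b)).card ≤ (B.filter (fun b => ¬ G.Adj a b)).card :=
        card_le_card (filter_subset_filter _ hTBsub)
      have h2 := (hmemA a ha).2
      omega) (by
      intro b hb
      have h1 : (TA.filter (fun a => ¬ G.Adj a b)).card ≤ (A.filter (fun a => ¬ G.Adj a b)).card :=
        card_le_card (filter_subset_filter _ hTAsub)
      have h2 := (hmemB b hb).2
      omega) hTAl hTBl
  have hedges2 := edges_le G TA TB (fun a ha a' ha' => hA a (hTAsub ha) a' (hTAsub ha'))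
    (fun b hb b' hb' => hB b (hTBsub hb) b' (hTBsub hb'))
  have h1 : G.edgeFinset.card ≤ ((TA ∪ TB)ᶜ).card ^ 2 + ((TA ∪ TB)ᶜ).card * n := by omega
  have h2 : (G.edgeFinset.card : ℝ) ≤ (((TA ∪ TB)ᶜ).card : ℝ) ^ 2 +
      (((TA ∪ TB)ᶜ).card : ℝ) * n := by exact_mod_cast h1
  exact num4 n _ _ hn0 (Nat.cast_nonneg _) hZ h2

theorem main_bound {n : ℕ} (G : SimpleGraph (Fin n)) [DecidableRel G.Adj] (hn : 100 ≤ n)
    (hfree : G.CliqueFree 3) (h4 : ¬ G.Colorable 3)
    (hcrit : ∀ e ∈ G.edgeSet, (G.deleteEdges {e}).Colorable 3) :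
    (G.edgeFinset.card : ℝ) ≤ (1 / 4 - 1 / 100000) * (n : ℝ) ^ 2 := by
  by_contra hcon
  push Not at hcon
  have hn' : (100 : ℝ) ≤ (n : ℝ) := by exact_mod_cast hn
  have hn0 : (0 : ℝ) < (n : ℝ) := by linarith
  obtain ⟨hp1, hp2⟩ := num1 n _ hn' hcon
  have hpos : 0 < G.edgeFinset.card := by exact_mod_cast hp1
  obtain ⟨x, y, hxy, hd⟩ := exists_edge G ((1 - 4 / 100000) * (n : ℝ)) hpos hp2
  have hA := independent_nbrs G hfree y
  have hB := independent_nbrs G hfree x
  have hdisj : Disjoint (G.neighborFinset y) (G.neighborFinset x) := by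
    rw [disjoint_left]
    intro a ha hb
    rw [SimpleGraph.mem_neighborFinset] at ha hb
    exact hfree {x, y, a} (SimpleGraph.is3Clique_triple_iff.2 ⟨hxy, hb, ha⟩)
  have hcA : (G.neighborFinset y).card = G.degree y := rfl
  have hcB : (G.neighborFinset x).card = G.degree x := rfl
  rw [← hcA, ← hcB] at hd
  have hC : ((G.neighborFinset y ∪ G.neighborFinset x)ᶜ).card + (G.neighborFinset y).card +
      (G.neighborFinset x).card = n := by
    have h1 := card_compl_add_card (G.neighborFinset y ∪ G.neighborFinset x)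
    rw [card_union_of_disjoint hdisj, Fintype.card_fin] at h1
    omega
  have hedges := edges_le G _ _ hA hB
  have hsplit : (((G.neighborFinset y) ×ˢ (G.neighborFinset x)).filter
        (fun p => G.Adj p.1 p.2)).card +
      (((G.neighborFinset y) ×ˢ (G.neighborFinset x)).filter (fun p => ¬ G.Adj p.1 p.2)).card =
      (G.neighborFinset y).card * (G.neighborFinset x).card := by
    rw [← card_product]
    exact card_filter_add_card_filter_not
      (s := (G.neighborFinset y) ×ˢ (G.neighborFinset x)) (fun p => G.Adj p.1 p.2)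
  generalize G.neighborFinset y = A at *
  generalize G.neighborFinset x = B at *
  have hCr : (((A ∪ B)ᶜ).card : ℝ) + (A.card : ℝ) + (B.card : ℝ) = (n : ℝ) := by exact_mod_cast hC
  have hedges' : (G.edgeFinset.card : ℝ) ≤
      (((A ×ˢ B).filter (fun p => G.Adj p.1 p.2)).card : ℝ) + (((A ∪ B)ᶜ).card : ℝ) * n := by
    exact_mod_cast hedges
  have hsplit' : (((A ×ˢ B).filter (fun p => G.Adj p.1 p.2)).card : ℝ) +
      (((A ×ˢ B).filter (fun p => ¬ G.Adj p.1 p.2)).card : ℝ) = (A.card : ℝ) * (B.card : ℝ) := by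
    exact_mod_cast hsplit
  obtain ⟨h1, h2, h3⟩ := num2 n _ _ _ _ _ _ hn0 (Nat.cast_nonneg _) (Nat.cast_nonneg _)
    (Nat.cast_nonneg _) hCr (by linarith) hedges' hcon hsplit' (Nat.cast_nonneg _)
  have h5 := second_step G hn h4 hcrit A B hA hB (by linarith) h1 h2 h3
  linarith

end Pool.Agent.S09637

namespace Pool.Agent.S09637

/-- There is a constant c < 1/4 such that, for all large n, every triangle-free 4-critical graph on n vertices (chromatic number 4, no isolated vertices, each edge deletion leaves it 3-colorable) has at most c·n² edges. -/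
theorem result :
    ∃ c : ℝ, c < 1 / 4 ∧ ∃ N : ℕ, ∀ n : ℕ, N ≤ n → ∀ G : SimpleGraph (Fin n),
      G.CliqueFree 3 → G.chromaticNumber = 4 → (∀ v : Fin n, ∃ w : Fin n, G.Adj v w) →
      (∀ e ∈ G.edgeSet, (G.deleteEdges {e}).Colorable 3) →
      (G.edgeSet.ncard : ℝ) ≤ c * (n : ℝ) ^ 2 := by
  classical
  refine ⟨1 / 4 - 1 / 100000, by norm_num, 100, ?_⟩
  intro n hn G hfree hchi _ hcrit
  have h4 : ¬ G.Colorable 3 := by
    intro h
    have h1 := h.chromaticNumber_le
    rw [hchi] at h1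
    exact absurd h1 (by decide)
  have h := main_bound G hn hfree h4 hcrit
  have h2 : G.edgeSet.ncard = G.edgeFinset.card := by
    rw [Set.ncard_eq_toFinset_card']
    rfl
  rw [h2]
  exact h

end Pool.Agent.S09637
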