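import Pool.Statements.S09692
-- import your own Pool.Agent.* helpers here

/-!
A regular graph on 108 vertices (degree 80) in which every two maximal cliques share a vertex.

In the complement `H`: take three triangles with vertices `(i, a)`, `i, a : Fin 3`, replace every vertex
`(i, a)` by nine pairwise non-adjacent copies `(i, a, x)`, and add 27 further vertices `f = (f 0, f 1, f 2)`,
pairwise non-adjacent, where `f` is joined to all copies of `(0, f 0)`, `(1, f 1)` and `(2, f 2)`.
Every vertex of `H` has degree 27.  An independent set of `H` uses copies of at most one vertex of each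
triangle, so for two independent sets there is a vertex `f` that is joined to neither of them, and
`f` lies in both if both are maximal.
-/

set_option autoImplicit false
open Pool Pool.MP_7cf704_co

namespace Pool.Agent.S09692

/-- The vertices: `81` copies of the vertices of three triangles and `27` choices. -/
abbrev VV : Type := (Fin 3 × Fin 3 × Fin 9) ⊕ (Fin 3 × Fin 3 × Fin 3)

/-- The entry of a choice in the triangle `i`. -/
def get (f : Fin 3 × Fin 3 × Fin 3) (i : Fin 3) : Fin 3 :=
  if i = 0 then f.1 else if i = 1 then f.2.1 else f.2.2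

/-- Adjacency of the graph (as a Boolean). -/
def ad : VV → VV → Bool
  | Sum.inl u, Sum.inl v => u ≠ v && !(u.1 = v.1 && u.2.1 ≠ v.2.1)
  | Sum.inl u, Sum.inr f => get f u.1 ≠ u.2.1
  | Sum.inr f, Sum.inl u => get f u.1 ≠ u.2.1
  | Sum.inr f, Sum.inr g => f ≠ g

/-- The graph. -/
def gr : SimpleGraph VV where
  Adj u v := ad u v = true
  symm := ⟨by
    rintro (u | f) (v | g) h
    · simp only [ad, Bool.and_eq_true, Bool.not_eq_true', decide_eq_true_eq] at h ⊢
      refine ⟨fun e => h.1 e.symm, ?_⟩
      have h2 := h.2
      simp only [Bool.and_eq_false_iff, decide_eq_false_iff_not] at h2 ⊢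
      rcases h2 with h2 | h2
      · left; exact fun e => h2 e.symm
      · right; exact fun e => h2 (fun e' => e e'.symm)
    · exact h
    · exact h
    · simp only [ad, decide_eq_true_eq] at h ⊢
      exact fun e => h e.symm⟩
  loopless := ⟨by
    rintro (u | f) h
    · simp [ad] at h
    · simp [ad] at h⟩

instance : DecidableRel gr.Adj := fun u v => inferInstanceAs (Decidable (ad u v = true))

theorem regular : ∀ v, gr.degree v = 80 := by
  decide +kernel

theorem avoid : ∀ p q : Fin 3, ∃ c : Fin 3, c ≠ p ∧ c ≠ q := by decide

/-- A clique uses copies of at most one vertex of each triangle. -/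
theorem clique_col (s : Set VV) (hs : gr.IsClique s) :
    ∃ p : Fin 3 → Fin 3, ∀ i a x, Sum.inl (i, a, x) ∈ s → a = p i := by
  classical
  have h : ∀ i : Fin 3, ∃ b : Fin 3, ∀ a x, Sum.inl (i, a, x) ∈ s → a = b := by
    intro i
    by_cases h : ∃ b y, (Sum.inl (i, b, y) : VV) ∈ s
    · obtain ⟨b, y, hb⟩ := h
      refine ⟨b, fun a x ha => ?_⟩
      by_contra hab
      have hne : (Sum.inl (i, a, x) : VV) ≠ Sum.inl (i, b, y) := by
        intro e
        simp only [Sum.inl.injEq, Prod.mk.injEq] at e
        exact hab e.2.1
      have := hs ha hb hne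
      change ad _ _ = true at this
      simp [ad, hab] at this
    · refine ⟨0, fun a x ha => absurd ⟨a, x, ha⟩ h⟩
  choose p hp using h
  exact ⟨p, hp⟩

/-- A choice that avoids all the copies of a maximal clique belongs to it. -/
theorem mem_of_avoid (s : Set VV) (hs : Maximal gr.IsClique s) (p : Fin 3 → Fin 3)
    (hp : ∀ i a x, Sum.inl (i, a, x) ∈ s → a = p i) (f : Fin 3 × Fin 3 × Fin 3)
    (hf : ∀ i, get f i ≠ p i) : (Sum.inr f : VV) ∈ s := by
  apply hs.mem_of_prop_insert
  rw [SimpleGraph.isClique_insert]
  refine ⟨hs.prop, ?_⟩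
  rintro (⟨i, a, x⟩ | g) hg hne
  · change ad _ _ = true
    simp only [ad, decide_eq_true_eq]
    rw [hp i a x hg]
    exact hf i
  · change ad _ _ = true
    simp only [ad, decide_eq_true_eq]
    exact fun e => hne (by rw [e])

/-- The negation of the preceding statement: Every finite simple graph that is regular of some degree and is not complete contains two disjoint cliques, each maximal under inclusion. -/
theorem result :
    ¬ (∀ (V : Type) [Fintype V] [DecidableEq V] (G : SimpleGraph V) [DecidableRel G.Adj] (d : ℕ),
      G.IsRegularOfDegree d → G ≠ ⊤ →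
        ∃ s t : Set V, Maximal G.IsClique s ∧ Maximal G.IsClique t ∧ Disjoint s t) := by
  intro H
  have hne : gr ≠ ⊤ := by
    intro e
    have h : gr.Adj (Sum.inl (0, 0, 0)) (Sum.inl (0, 1, 0)) := by
      rw [e, SimpleGraph.top_adj]
      intro e'
      simp only [Sum.inl.injEq, Prod.mk.injEq] at e'
      exact absurd e'.2.1 (by decide)
    exact absurd h (by decide)
  obtain ⟨s, t, hs, ht, hst⟩ := H VV gr 80 regular hne
  obtain ⟨p, hp⟩ := clique_col s hs.prop
  obtain ⟨q, hq⟩ := clique_col t ht.prop
  choose c hc using fun i => avoid (p i) (q i)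
  have hget : ∀ i, get (c 0, c 1, c 2) i = c i := by
    intro i
    fin_cases i <;> rfl
  have h1 := mem_of_avoid s hs p hp (c 0, c 1, c 2) (fun i => by rw [hget]; exact (hc i).1)
  have h2 := mem_of_avoid t ht q hq (c 0, c 1, c 2) (fun i => by rw [hget]; exact (hc i).2)
  exact Set.disjoint_left.1 hst h1 h2

end Pool.Agent.S09692
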