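import Pool.Statements.S09798
-- import your own Pool.Agent.* helpers here

set_option autoImplicit false
open Pool Pool.MP_82152b_co

namespace Pool.Agent.S09798

/-- The list of edges of the small graph: `0 = x`, `1 = y`, `2 = z`, `3, 4, 5, 6 = a, b, c, d`. -/
def adjb (i j : Fin 7) : Bool :=
  match i.val, j.val with
  | 0, 3 => true | 3, 0 => true
  | 0, 4 => true | 4, 0 => true
  | 1, 5 => true | 5, 1 => true
  | 1, 6 => true | 6, 1 => true
  | 2, 0 => true | 0, 2 => true
  | 2, 1 => true | 1, 2 => true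
  | 3, 4 => true | 4, 3 => true
  | 4, 5 => true | 5, 4 => true
  | 5, 6 => true | 6, 5 => true
  | 6, 3 => true | 3, 6 => true
  | _, _ => false

/-- The small graph. -/
def H : SimpleGraph (Fin 7) where
  Adj i j := adjb i j = true
  symm := ⟨by decide⟩
  loopless := ⟨by decide⟩

instance : DecidableRel H.Adj := fun i j => inferInstanceAs (Decidable (adjb i j = true))

theorem H_degenerate (S : Finset (Fin 7)) (hS : S.Nonempty) :
    ∃ v ∈ S, {w : Fin 7 | w ∈ S ∧ H.Adj v w}.ncard ≤ 2 := by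
  have key : ∀ v p q : Fin 7, v ∈ S → (∀ w ∈ S, H.Adj v w → w = p ∨ w = q) →
      ∃ v ∈ S, {w : Fin 7 | w ∈ S ∧ H.Adj v w}.ncard ≤ 2 := by
    intro v p q hv h
    refine ⟨v, hv, ?_⟩
    calc {w : Fin 7 | w ∈ S ∧ H.Adj v w}.ncard ≤ ({p, q} : Set (Fin 7)).ncard := by
          refine Set.ncard_le_ncard ?_ (Set.toFinite _)
          rintro w ⟨hw1, hw2⟩
          simpa using h w hw1 hw2
      _ ≤ 2 := (Set.ncard_insert_le p {q}).trans (by rw [Set.ncard_singleton])
  by_cases h2 : (2 : Fin 7) ∈ S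
  · refine key 2 0 1 h2 ?_
    intro w hw1 hw
    clear hw1
    revert w; decide
  · by_cases h0 : (0 : Fin 7) ∈ S
    · refine key 0 3 4 h0 ?_
      intro w hw1 hw
      have : w ≠ 2 := fun h => h2 (h ▸ hw1)
      clear hw1
      revert w; decide
    · by_cases h1 : (1 : Fin 7) ∈ S
      · refine key 1 5 6 h1 ?_
        intro w hw1 hw
        have : w ≠ 2 := fun h => h2 (h ▸ hw1)
        clear hw1
        revert w; decide
      · obtain ⟨v, hv⟩ := hS
        have hv2 : v ≠ 2 := fun h => h2 (h ▸ hv)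
        have hv0 : v ≠ 0 := fun h => h0 (h ▸ hv)
        have hv1 : v ≠ 1 := fun h => h1 (h ▸ hv)
        have h4 : v = 3 ∨ v = 4 ∨ v = 5 ∨ v = 6 := by
          clear hv
          revert v; decide
        rcases h4 with rfl | rfl | rfl | rfl
        · refine key 3 4 6 hv ?_
          intro w hw1 hw
          have : w ≠ 0 := fun h => h0 (h ▸ hw1)
          clear hw1
          revert w; decide
        · refine key 4 3 5 hv ?_
          intro w hw1 hw
          have : w ≠ 0 := fun h => h0 (h ▸ hw1)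
          clear hw1
          revert w; decide
        · refine key 5 4 6 hv ?_
          intro w hw1 hw
          have : w ≠ 1 := fun h => h1 (h ▸ hw1)
          clear hw1
          revert w; decide
        · refine key 6 3 5 hv ?_
          intro w hw1 hw
          have : w ≠ 1 := fun h => h1 (h ▸ hw1)
          clear hw1
          revert w; decide

/-- In a graph in which every nonempty vertex set spans a vertex of degree at most `k` the vertices
can be ranked so that every vertex has at most `k` neighbours of higher rank. -/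
theorem exists_rank {n : ℕ} (k : ℕ) (G : SimpleGraph (Fin n))
    (hG : ∀ S : Finset (Fin n), S.Nonempty → ∃ v ∈ S, {w : Fin n | w ∈ S ∧ G.Adj v w}.ncard ≤ k) :
    ∃ r : Fin n → ℕ, Function.Injective r ∧ ∀ v, {w : Fin n | G.Adj v w ∧ r v < r w}.ncard ≤ k := by
  have main : ∀ m : ℕ, ∀ S : Finset (Fin n), S.card = m → ∃ r : Fin n → ℕ, Set.InjOn r S ∧
      ∀ v ∈ S, {w : Fin n | w ∈ S ∧ G.Adj v w ∧ r v < r w}.ncard ≤ k := by
    intro m
    induction m with
    | zero =>
      intro S hS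
      have : S = ∅ := Finset.card_eq_zero.1 hS
      subst this
      exact ⟨fun _ => 0, by simp, by simp⟩
    | succ m ih =>
      intro S hS
      have hne : S.Nonempty := by
        rw [← Finset.card_pos]
        omega
      obtain ⟨v, hv, hle⟩ := hG S hne
      obtain ⟨r, hr1, hr2⟩ := ih (S.erase v) (by rw [Finset.card_erase_of_mem hv]; omega)
      refine ⟨fun w => if w = v then 0 else r w + 1, ?_, ?_⟩
      · intro a ha b hb hab
        by_cases h1 : a = v <;> by_cases h2 : b = v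
        · rw [h1, h2]
        · simp only [h1, if_true, if_neg h2] at hab
          omega
        · simp only [h2, if_true, if_neg h1] at hab
          omega
        · simp only [if_neg h1, if_neg h2] at hab
          refine hr1 ?_ ?_ (by omega)
          · rw [Finset.mem_coe, Finset.mem_erase]
            exact ⟨h1, ha⟩
          · rw [Finset.mem_coe, Finset.mem_erase]
            exact ⟨h2, hb⟩
      · intro u hu
        by_cases h1 : u = v
        · subst h1
          refine (Set.ncard_le_ncard ?_ (Set.toFinite _)).trans hle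
          rintro w ⟨hw1, hw2, -⟩
          exact ⟨hw1, hw2⟩
        · have hu' : u ∈ S.erase v := Finset.mem_erase.2 ⟨h1, hu⟩
          refine (Set.ncard_le_ncard ?_ (Set.toFinite _)).trans (hr2 u hu')
          rintro w ⟨hw1, hw2, hw3⟩
          have hwv : w ≠ v := by
            intro h
            simp only [h, if_true] at hw3
            omega
          simp only [if_neg h1, if_neg hwv] at hw3
          exact ⟨Finset.mem_erase.2 ⟨hwv, hw1⟩, hw2, by omega⟩
  obtain ⟨r, hr1, hr2⟩ := main _ Finset.univ rfl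
  refine ⟨r, fun a b hab => hr1 (by simp) (by simp) hab, ?_⟩
  intro v
  have := hr2 v (Finset.mem_univ _)
  simpa using this

/-- The vertices that can be reached from `v` in at most `j` steps along `O`. -/
def reach {n : ℕ} (O : Fin n → Finset (Fin n)) (v : Fin n) : ℕ → Finset (Fin n)
  | 0 => {v}
  | j + 1 => reach O v j ∪ (reach O v j).biUnion O

theorem card_reach {n : ℕ} (O : Fin n → Finset (Fin n)) (hO : ∀ v, (O v).card ≤ 2) (v : Fin n)
    (j : ℕ) : (reach O v j).card ≤ 3 ^ j := by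
  induction j with
  | zero => simp [reach]
  | succ j ih =>
    unfold reach
    have h1 := Finset.card_union_le (reach O v j) ((reach O v j).biUnion O)
    have h2 : ((reach O v j).biUnion O).card ≤ (reach O v j).card * 2 :=
      Finset.card_biUnion_le_card_mul _ _ _ (fun w _ => hO w)
    rw [pow_succ]
    omega

theorem reach_mono {n : ℕ} (O : Fin n → Finset (Fin n)) (v : Fin n) {i j : ℕ} (hij : i ≤ j) :
    reach O v i ⊆ reach O v j := by
  induction hij with
  | refl => exact Finset.Subset.refl _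
  | step _ ih =>
    refine ih.trans ?_
    intro w hw
    unfold reach
    exact Finset.mem_union_left _ hw

/-- In a `2`-degenerate graph on `n` vertices there are at most linearly many copies of `H`. -/
theorem count_le {n : ℕ} (G : SimpleGraph (Fin n))
    (hG : ∀ S : Finset (Fin n), S.Nonempty → ∃ v ∈ S, {w : Fin n | w ∈ S ∧ G.Adj v w}.ncard ≤ 2) :
    {φ : Fin 7 ↪ Fin n | ∀ u v, H.Adj u v → G.Adj (φ u) (φ v)}.ncard ≤ n * (3 ^ 6) ^ 7 := by
  classical
  obtain ⟨r, hr, hdeg⟩ := exists_rank 2 G hG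
  set O : Fin n → Finset (Fin n) := fun v => Finset.univ.filter (fun w => G.Adj v w ∧ r v < r w)
    with hOdef
  have hO : ∀ v, (O v).card ≤ 2 := by
    intro v
    have h := hdeg v
    have h2 : {w : Fin n | G.Adj v w ∧ r v < r w} = ((O v : Finset (Fin n)) : Set (Fin n)) := by
      ext w
      simp [hOdef]
    rw [h2, Set.ncard_coe_finset] at h
    exact h
  have hsub : (fun φ : Fin 7 ↪ Fin n => (φ : Fin 7 → Fin n)) ''
      {φ : Fin 7 ↪ Fin n | ∀ u v, H.Adj u v → G.Adj (φ u) (φ v)} ⊆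
      (((Finset.univ : Finset (Fin n)).biUnion
        (fun v => Fintype.piFinset (fun _ : Fin 7 => reach O v 6)) : Finset (Fin 7 → Fin n)) :
          Set (Fin 7 → Fin n)) := by
    rintro _ ⟨φ, hφ, rfl⟩
    simp only [Finset.coe_biUnion, Finset.mem_coe, Finset.mem_univ, Set.mem_iUnion,
      Fintype.mem_piFinset, Set.iUnion_true]
    refine ⟨φ 2, ?_⟩
    have hinj : Function.Injective (fun u => r (φ u)) := fun a b hab => φ.injective (hr hab)
    -- every vertex other than `z` has a neighbour of lower rank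
    have hlow : ∀ u : Fin 7, u ≠ 2 → ∃ u', H.Adj u' u ∧ r (φ u') < r (φ u) := by
      intro u hu
      by_contra hcon
      push Not at hcon
      have h3 : ∃ T : Finset (Fin 7), T.card = 3 ∧ ∀ w ∈ T, H.Adj u w := by
        revert u
        have : ∀ u : Fin 7, u ≠ 2 → (Finset.univ.filter (fun w => H.Adj u w)).card = 3 := by
          decide
        intro u hu _
        exact ⟨_, this u hu, by simp⟩
      obtain ⟨T, hT, hT2⟩ := h3
      have h4 : T.map φ ⊆ O (φ u) := by
        intro x hx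
        obtain ⟨w, hw, rfl⟩ := Finset.mem_map.1 hx
        have h5 := hT2 w hw
        have h6 := hcon w h5.symm
        have h7 : r (φ u) ≠ r (φ w) := by
          intro h
          have := hinj h
          exact h5.ne this
        simp only [hOdef, Finset.mem_filter, Finset.mem_univ, true_and]
        exact ⟨hφ u w h5, lt_of_le_of_ne h6 h7⟩
      have h8 := Finset.card_le_card h4
      rw [Finset.card_map, hT] at h8
      have := hO (φ u)
      omega
    have hrank : ∀ m : ℕ, ∀ u : Fin 7,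
        (Finset.univ.filter (fun u' => r (φ u') < r (φ u))).card = m →
        φ u ∈ reach O (φ 2) m := by
      intro m
      induction m using Nat.strong_induction_on with
      | _ m ih =>
        intro u hu
        by_cases h2 : u = 2
        · subst h2
          exact reach_mono O _ (Nat.zero_le m) (by simp [reach])
        · obtain ⟨u', hadj, hlt⟩ := hlow u h2
          have hlt2 : (Finset.univ.filter (fun u'' => r (φ u'') < r (φ u'))).card < m := by
            rw [← hu]
            refine Finset.card_lt_card ?_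
            rw [Finset.ssubset_iff_of_subset]
            · refine ⟨u', ?_, ?_⟩
              · simpa using hlt
              · simp
            · intro w hw
              simp only [Finset.mem_filter, Finset.mem_univ, true_and] at hw ⊢
              omega
          have h9 := ih _ hlt2 u' rfl
          refine reach_mono O _ (Nat.succ_le_of_lt hlt2) ?_
          unfold reach
          refine Finset.mem_union_right _ (Finset.mem_biUnion.2 ⟨φ u', h9, ?_⟩)
          simp only [hOdef, Finset.mem_filter, Finset.mem_univ, true_and]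
          exact ⟨hφ _ _ hadj, hlt⟩
    intro u
    refine reach_mono O _ ?_ (hrank _ u rfl)
    have h10 : (Finset.univ.filter (fun u' => r (φ u') < r (φ u))) ⊆ Finset.univ.erase u := by
      intro w hw
      simp only [Finset.mem_filter, Finset.mem_univ, true_and] at hw
      rw [Finset.mem_erase]
      refine ⟨?_, Finset.mem_univ _⟩
      rintro rfl
      omega
    have h11 := Finset.card_le_card h10
    rw [Finset.card_erase_of_mem (Finset.mem_univ _)] at h11
    simpa using h11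
  calc {φ : Fin 7 ↪ Fin n | ∀ u v, H.Adj u v → G.Adj (φ u) (φ v)}.ncard
      = ((fun φ : Fin 7 ↪ Fin n => (φ : Fin 7 → Fin n)) ''
        {φ : Fin 7 ↪ Fin n | ∀ u v, H.Adj u v → G.Adj (φ u) (φ v)}).ncard := by
        rw [Set.ncard_image_of_injective _ DFunLike.coe_injective]
    _ ≤ _ := Set.ncard_le_ncard hsub (Finset.finite_toSet _)
    _ = ((Finset.univ : Finset (Fin n)).biUnion
        (fun v => Fintype.piFinset (fun _ : Fin 7 => reach O v 6))).card :=
        Set.ncard_coe_finset _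
    _ ≤ (Finset.univ : Finset (Fin n)).card * (3 ^ 6) ^ 7 := by
        refine Finset.card_biUnion_le_card_mul _ _ _ ?_
        intro v _
        rw [Fintype.card_piFinset, Finset.prod_const, Finset.card_univ, Fintype.card_fin]
        exact Nat.pow_le_pow_left (card_reach O hO v 6) 7
    _ = n * (3 ^ 6) ^ 7 := by rw [Finset.card_univ, Fintype.card_fin]

/-- The big side of the separation. -/
def sA : H.Subgraph where
  verts := {v | v ≠ 2}
  Adj u v := H.Adj u v ∧ u ≠ 2 ∧ v ≠ 2
  adj_sub := fun h => h.1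
  edge_vert := fun h => h.2.1
  symm := ⟨fun _ _ h => ⟨h.1.symm, h.2.2, h.2.1⟩⟩

/-- The small side of the separation. -/
def sB : H.Subgraph where
  verts := {v | v = 0 ∨ v = 1 ∨ v = 2}
  Adj u v := H.Adj u v ∧ (u = 2 ∨ v = 2)
  adj_sub := fun h => h.1
  edge_vert := by
    intro u v
    change H.Adj u v ∧ (u = 2 ∨ v = 2) → u = 0 ∨ u = 1 ∨ u = 2
    revert u v
    decide
  symm := ⟨fun _ _ h => ⟨h.1.symm, h.2.symm⟩⟩

theorem sA_sup_sB : sA ⊔ sB = ⊤ := by
  refine SimpleGraph.Subgraph.ext ?_ ?_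
  · ext v
    simp only [SimpleGraph.Subgraph.verts_sup, SimpleGraph.Subgraph.verts_top, Set.mem_univ,
      iff_true, Set.mem_union]
    change v ≠ 2 ∨ (v = 0 ∨ v = 1 ∨ v = 2)
    by_cases h : v = 2
    · exact Or.inr (Or.inr (Or.inr h))
    · exact Or.inl h
  · ext u v
    simp only [SimpleGraph.Subgraph.sup_adj, SimpleGraph.Subgraph.top_adj]
    change ((H.Adj u v ∧ u ≠ 2 ∧ v ≠ 2) ∨ (H.Adj u v ∧ (u = 2 ∨ v = 2))) ↔ H.Adj u v
    tauto

theorem sB_sup_sA : sB ⊔ sA = ⊤ := by rw [sup_comm, sA_sup_sB]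

theorem sA_not_sB (u v : Fin 7) (h : sA.Adj u v) : ¬ sB.Adj u v := by
  intro h'
  have h1 : u ≠ 2 ∧ v ≠ 2 := h.2
  have h2 : u = 2 ∨ v = 2 := h'.2
  tauto

theorem sB_not_sA (u v : Fin 7) (h : sB.Adj u v) : ¬ sA.Adj u v := fun h' => sA_not_sB u v h' h

theorem sep1 : sA ⊔ sB = ⊤ ∧ (∀ u v, sA.Adj u v → ¬ sB.Adj u v) ∧
    (∃ v, v ∈ sA.verts ∧ v ∉ sB.verts) ∧ (∃ v, v ∈ sB.verts ∧ v ∉ sA.verts) ∧
    (sA.verts ∩ sB.verts).ncard ≤ 2 := by
  refine ⟨sA_sup_sB, sA_not_sB, ⟨3, ?_, ?_⟩, ⟨2, ?_, ?_⟩, ?_⟩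
  · change (3 : Fin 7) ≠ 2
    decide
  · change ¬ ((3 : Fin 7) = 0 ∨ (3 : Fin 7) = 1 ∨ (3 : Fin 7) = 2)
    decide
  · change ((2 : Fin 7) = 0 ∨ (2 : Fin 7) = 1 ∨ (2 : Fin 7) = 2)
    decide
  · change ¬ ((2 : Fin 7) ≠ 2)
    decide
  · calc (sA.verts ∩ sB.verts).ncard ≤ ({0, 1} : Set (Fin 7)).ncard := by
          refine Set.ncard_le_ncard ?_ (Set.toFinite _)
          rintro w ⟨hw1, hw2⟩
          have h1 : w ≠ 2 := hw1
          have h2 : w = 0 ∨ w = 1 ∨ w = 2 := hw2
          simp only [Set.mem_insert_iff, Set.mem_singleton_iff]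
          tauto
      _ ≤ 2 := (Set.ncard_insert_le _ _).trans (by rw [Set.ncard_singleton])

theorem sep2 : sB ⊔ sA = ⊤ ∧ (∀ u v, sB.Adj u v → ¬ sA.Adj u v) ∧
    (∃ v, v ∈ sB.verts ∧ v ∉ sA.verts) ∧ (∃ v, v ∈ sA.verts ∧ v ∉ sB.verts) ∧
    (sB.verts ∩ sA.verts).ncard ≤ 2 := by
  obtain ⟨_, _, h3, h4, h5⟩ := sep1
  refine ⟨sB_sup_sA, sB_not_sA, h4, h3, ?_⟩
  rw [Set.inter_comm]
  exact h5

end Pool.Agent.S09798

namespace Pool.Agent.S09798

/-- The negation of the preceding statement: For every k and every nonempty k-degenerate graph H with flap number f (1 if H has no (≤k)-separation, else the max number of pairwise independent ones), the max number of copies of H in an n-vertex k-degenerate graph is Θ(n^f). -/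
theorem result :
    ¬ (∀ (k : ℕ) (V : Type) [Fintype V] [Nonempty V] (H : SimpleGraph V),
    (∀ S : Finset V, S.Nonempty → ∃ v ∈ S, {w : V | w ∈ S ∧ H.Adj v w}.ncard ≤ k) →
    ∀ f : ℕ,
      (((¬ ∃ A B : H.Subgraph, A ⊔ B = ⊤ ∧ (∀ u v, A.Adj u v → ¬ B.Adj u v) ∧
            (∃ v, v ∈ A.verts ∧ v ∉ B.verts) ∧ (∃ v, v ∈ B.verts ∧ v ∉ A.verts) ∧
            (A.verts ∩ B.verts).ncard ≤ k) ∧ f = 1) ∨
       ((∃ A B : H.Subgraph, A ⊔ B = ⊤ ∧ (∀ u v, A.Adj u v → ¬ B.Adj u v) ∧
            (∃ v, v ∈ A.verts ∧ v ∉ B.verts) ∧ (∃ v, v ∈ B.verts ∧ v ∉ A.verts) ∧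
            (A.verts ∩ B.verts).ncard ≤ k) ∧
         IsGreatest {m : ℕ | ∃ A B : Fin m → H.Subgraph,
            (∀ i, A i ⊔ B i = ⊤ ∧ (∀ u v, (A i).Adj u v → ¬ (B i).Adj u v) ∧
              (∃ v, v ∈ (A i).verts ∧ v ∉ (B i).verts) ∧
              (∃ v, v ∈ (B i).verts ∧ v ∉ (A i).verts) ∧
              ((A i).verts ∩ (B i).verts).ncard ≤ k) ∧
            ∀ i j, i ≠ j →
              (∀ u v, (A i).Adj u v → ¬ (A j).Adj u v) ∧
              ∀ v, v ∈ (A i).verts → v ∉ (B i).verts → ¬ (v ∈ (A j).verts ∧ v ∉ (B j).verts)} f)) →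
      ∃ c₁ c₂ : ℝ, 0 < c₁ ∧ 0 < c₂ ∧ ∃ N : ℕ, ∀ n : ℕ, N ≤ n →
        (∃ G : SimpleGraph (Fin n),
            (∀ S : Finset (Fin n), S.Nonempty → ∃ v ∈ S, {w : Fin n | w ∈ S ∧ G.Adj v w}.ncard ≤ k) ∧
            c₁ * (n : ℝ) ^ f ≤
              (({φ : V ↪ Fin n | ∀ u v, H.Adj u v → G.Adj (φ u) (φ v)}.ncard : ℕ) : ℝ)) ∧
        ∀ G : SimpleGraph (Fin n),
            (∀ S : Finset (Fin n), S.Nonempty → ∃ v ∈ S, {w : Fin n | w ∈ S ∧ G.Adj v w}.ncard ≤ k) →
            (({φ : V ↪ Fin n | ∀ u v, H.Adj u v → G.Adj (φ u) (φ v)}.ncard : ℕ) : ℝ) ≤ c₂ * (n : ℝ) ^ f) := by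
  intro hmain
  set F : Set ℕ := {m : ℕ | ∃ A B : Fin m → H.Subgraph,
            (∀ i, A i ⊔ B i = ⊤ ∧ (∀ u v, (A i).Adj u v → ¬ (B i).Adj u v) ∧
              (∃ v, v ∈ (A i).verts ∧ v ∉ (B i).verts) ∧
              (∃ v, v ∈ (B i).verts ∧ v ∉ (A i).verts) ∧
              ((A i).verts ∩ (B i).verts).ncard ≤ 2) ∧
            ∀ i j, i ≠ j →
              (∀ u v, (A i).Adj u v → ¬ (A j).Adj u v) ∧
              ∀ v, v ∈ (A i).verts → v ∉ (B i).verts → ¬ (v ∈ (A j).verts ∧ v ∉ (B j).verts)}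
    with hF
  have h2F : 2 ∈ F := by
    refine ⟨![sA, sB], ![sB, sA], ?_, ?_⟩
    · intro i
      fin_cases i
      · exact sep1
      · exact sep2
    · intro i j hij
      fin_cases i <;> fin_cases j
      · exact absurd rfl hij
      · refine ⟨sA_not_sB, ?_⟩
        rintro v hv1 hv2 ⟨hv3, hv4⟩
        exact hv2 hv3
      · refine ⟨sB_not_sA, ?_⟩
        rintro v hv1 hv2 ⟨hv3, hv4⟩
        exact hv2 hv3
      · exact absurd rfl hij
  have hbdd : BddAbove F := by
    refine ⟨7, ?_⟩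
    rintro m ⟨A, B, hAB, hind⟩
    choose w hw1 hw2 using fun i => (hAB i).2.2.1
    have hinj : Function.Injective w := by
      intro i j hij
      by_contra hne
      exact (hind i j hne).2 (w i) (hw1 i) (hw2 i) ⟨hij ▸ hw1 j, hij ▸ hw2 j⟩
    have := Fintype.card_le_of_injective w hinj
    simpa using this
  have hgreat : IsGreatest F (sSup F) :=
    ⟨Nat.sSup_mem ⟨2, h2F⟩ hbdd, fun m hm => le_csSup hbdd hm⟩
  have hf2 : 2 ≤ sSup F := le_csSup hbdd h2F
  obtain ⟨c₁, c₂, hc₁, hc₂, N, hN⟩ := hmain 2 (Fin 7) H H_degenerate (sSup F)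
    (Or.inr ⟨⟨sA, sB, sep1⟩, hgreat⟩)
  obtain ⟨n, hn⟩ := exists_nat_gt (((3 ^ 6) ^ 7 : ℝ) / c₁)
  obtain ⟨m, hm, hm1, hnm⟩ : ∃ m : ℕ, N ≤ m ∧ 1 ≤ m ∧ n ≤ m :=
    ⟨max N (max n 1), le_max_left _ _, (le_max_right n 1).trans (le_max_right _ _),
      (le_max_left n 1).trans (le_max_right _ _)⟩
  obtain ⟨⟨G, hG, hle⟩, -⟩ := hN m hm
  have hcount := count_le G hG
  have hcount' : ((({φ : Fin 7 ↪ Fin m | ∀ u v, H.Adj u v → G.Adj (φ u) (φ v)}.ncard : ℕ)) : ℝ)
      ≤ (m : ℝ) * (3 ^ 6) ^ 7 := by exact_mod_cast hcount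
  have hm1' : (1 : ℝ) ≤ (m : ℝ) := by exact_mod_cast hm1
  have hpow : (m : ℝ) ^ 2 ≤ (m : ℝ) ^ (sSup F) := pow_le_pow_right₀ hm1' hf2
  have h1 : c₁ * (m : ℝ) ^ 2 ≤ (m : ℝ) * (3 ^ 6) ^ 7 :=
    (mul_le_mul_of_nonneg_left hpow hc₁.le).trans (hle.trans hcount')
  have h2 : c₁ * (m : ℝ) ≤ (3 ^ 6) ^ 7 := by
    have hm0 : (0 : ℝ) < m := by linarith
    have h3 : (m : ℝ) * (c₁ * (m : ℝ)) ≤ (m : ℝ) * (3 ^ 6) ^ 7 := by
      calc (m : ℝ) * (c₁ * (m : ℝ)) = c₁ * (m : ℝ) ^ 2 := by ring
        _ ≤ _ := h1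
    exact le_of_mul_le_mul_left h3 hm0
  have h3 : (m : ℝ) ≤ (3 ^ 6) ^ 7 / c₁ := by
    rw [le_div_iff₀ hc₁]
    linarith
  have h4 : (n : ℝ) ≤ (m : ℝ) := by exact_mod_cast hnm
  linarith

end Pool.Agent.S09798
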