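import Pool.Statements.S09825
import Pool.Agent.V11143.Deg7
-- import your own Pool.Agent.* helpers here

set_option autoImplicit false
open Classical
open Pool Pool.MP_837616_co

namespace Pool.Agent.S09825

/-- There is c > 0 such that for all large n, at least a c fraction of the 5-uniform hypergraphs on n labeled vertices have pairwise distinct vertex degrees. -/
theorem result :
    ∃ c : ℝ, 0 < c ∧ ∃ N : ℕ, ∀ n : ℕ, N ≤ n →
      c ≤ ((((Finset.univ : Finset (Fin n)).powersetCard 5).powerset.filter
              (fun H => Function.Injective
                (fun v : Fin n => (H.filter (fun e => v ∈ e)).card))).card : ℝ)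
            / (2 : ℝ) ^ (n.choose 5) := by
  obtain ⟨c, hc, N, h⟩ := Pool.Agent.V11143.Deg.main5
  refine ⟨c, hc, N, fun n hn => ?_⟩
  rw [le_div_iff₀ (by positivity)]
  refine (h n hn).trans (le_of_eq ?_)
  congr 2

end Pool.Agent.S09825
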