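import Pool.Statements.S09874
-- import your own Pool.Agent.* helpers here

set_option autoImplicit false
open Pool Pool.MP_85fffe_co

namespace Pool.Agent.S09874

/-- the set `{0, 1, ..., 2 k} \ {k}` as a set of real numbers -/
noncomputable def XX (k : ℕ) : Finset ℝ :=
  ((Finset.range (2 * k + 1)).erase k).image (fun n : ℕ => (n : ℝ))

/-- the pattern `{1} ∪ s` -/
noncomputable def AA (s : Finset ℕ) : Finset ℝ := (insert 1 s).image (fun n : ℕ => (n : ℝ))

lemma mem_XX {k : ℕ} {x : ℝ} : x ∈ XX k ↔ ∃ n : ℕ, n ≤ 2 * k ∧ n ≠ k ∧ (n : ℝ) = x := by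
  unfold XX
  simp only [Finset.mem_image, Finset.mem_erase, Finset.mem_range]
  constructor
  · rintro ⟨n, ⟨h1, h2⟩, h3⟩
    exact ⟨n, by omega, h1, h3⟩
  · rintro ⟨n, h1, h2, h3⟩
    exact ⟨n, ⟨h2, by omega⟩, h3⟩

lemma mem_AA {s : Finset ℕ} {x : ℝ} : x ∈ AA s ↔ ∃ n : ℕ, (n = 1 ∨ n ∈ s) ∧ (n : ℝ) = x := by
  unfold AA
  simp only [Finset.mem_image, Finset.mem_insert]

lemma card_XX (k : ℕ) : (XX k).card = 2 * k := by
  unfold XX
  rw [Finset.card_image_of_injective _ Nat.cast_injective, Finset.card_erase_of_mem, Finset.card_range]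
  · omega
  · rw [Finset.mem_range]; omega

lemma AA_inj : ∀ k : ℕ, Set.InjOn AA ((Finset.Ico 2 k).powerset : Set (Finset ℕ)) := by
  intro k s hs t ht h
  rw [Finset.mem_coe, Finset.mem_powerset] at hs ht
  unfold AA at h
  have h1 := Finset.image_injective (Nat.cast_injective (R := ℝ)) h
  have hs1 : 1 ∉ s := fun h => by have := Finset.mem_Ico.1 (hs h); omega
  have ht1 : 1 ∉ t := fun h => by have := Finset.mem_Ico.1 (ht h); omega
  rw [← Finset.erase_insert hs1, ← Finset.erase_insert ht1, h1]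

/-- The negation of the preceding statement: There is a constant C such that for every finite set X of n reals, any family of maximally repeated patterns of X, no two of which are translates of each other, has at most C·n members. -/
theorem result :
    ¬ (∃ C : ℕ, ∀ X : Finset ℝ, ∀ S : Finset (Finset ℝ),
      (∀ A ∈ S,
        A.Nonempty ∧ A ⊆ X ∧
        (∃ t : ℝ, t ≠ 0 ∧ A.image (· + t) ⊆ X) ∧
        (∀ B : Finset ℝ, A ⊂ B →
          ¬ (∀ t : ℝ, A.image (· + t) ⊆ X → B.image (· + t) ⊆ X))) →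
      (∀ A ∈ S, ∀ B ∈ S, ∀ t : ℝ, B = A.image (· + t) → A = B) →
      S.card ≤ C * X.card) := by
  rintro ⟨C, hC⟩
  set k : ℕ := 8 * C + 2 with hk
  have key := hC (XX k) ((Finset.Ico 2 k).powerset.image AA) ?_ ?_
  · rw [Finset.card_image_of_injOn (AA_inj k), Finset.card_powerset, Nat.card_Ico, card_XX] at key
    have h1 : k - 2 = 4 * C + 4 * C := by omega
    have h2 : 4 * C < 2 ^ (4 * C) := Nat.lt_two_pow_self
    rw [h1, pow_add] at key
    have h3 : (4 * C + 1) * (4 * C + 1) ≤ 2 ^ (4 * C) * 2 ^ (4 * C) := Nat.mul_le_mul h2 h2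
    have h4 : C * (2 * k) = 4 * C * (4 * C + 1) := by rw [hk]; ring
    nlinarith
  · intro A hA
    rw [Finset.mem_image] at hA
    obtain ⟨s, hs, rfl⟩ := hA
    rw [Finset.mem_powerset] at hs
    have hs' : ∀ n : ℕ, (n = 1 ∨ n ∈ s) → 1 ≤ n ∧ n ≤ k - 1 := by
      rintro n (h | h)
      · omega
      · have := Finset.mem_Ico.1 (hs h)
        omega
    refine ⟨⟨1, mem_AA.2 ⟨1, Or.inl rfl, by norm_num⟩⟩, ?_, ⟨k, ?_, ?_⟩, ?_⟩
    · intro x hx
      obtain ⟨n, hn, rfl⟩ := mem_AA.1 hx
      have := hs' n hn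
      exact mem_XX.2 ⟨n, by omega, by omega, rfl⟩
    · have : (0 : ℝ) < k := by exact_mod_cast (by omega : 0 < k)
      exact this.ne'
    · intro x hx
      obtain ⟨y, hy, rfl⟩ := Finset.mem_image.1 hx
      obtain ⟨n, hn, rfl⟩ := mem_AA.1 hy
      have := hs' n hn
      exact mem_XX.2 ⟨n + k, by omega, by omega, by push_cast; ring⟩
    · intro B hAB hB
      obtain ⟨hsub, x, hxB, hxA⟩ := Finset.ssubset_iff_exists_cons_subset.1 hAB |>.elim
        (fun x hx => by
          obtain ⟨h1, h2⟩ := hx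
          exact (⟨hAB.subset, x, h2 (Finset.mem_cons_self _ _), h1⟩ : AA s ⊆ B ∧ ∃ x, x ∈ B ∧ x ∉ AA s))
      -- the translate by zero
      have h0 : x ∈ XX k := by
        have := hB 0 (by
          intro y hy
          obtain ⟨z, hz, rfl⟩ := Finset.mem_image.1 hy
          obtain ⟨n, hn, rfl⟩ := mem_AA.1 hz
          have := hs' n hn
          exact mem_XX.2 ⟨n, by omega, by omega, by push_cast; ring⟩)
        have h2 := this (Finset.mem_image.2 ⟨x, hxB, rfl⟩)
        simpa using h2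
      have hkk : x + (k : ℝ) ∈ XX k := by
        have := hB k (by
          intro y hy
          obtain ⟨z, hz, rfl⟩ := Finset.mem_image.1 hy
          obtain ⟨n, hn, rfl⟩ := mem_AA.1 hz
          have := hs' n hn
          exact mem_XX.2 ⟨n + k, by omega, by omega, by push_cast; ring⟩)
        exact this (Finset.mem_image.2 ⟨x, hxB, rfl⟩)
      obtain ⟨a, ha1, ha2, rfl⟩ := mem_XX.1 h0
      obtain ⟨b, hb1, hb2, hb3⟩ := mem_XX.1 hkk
      have hb4 : b = a + k := by exact_mod_cast hb3
      have ha3 : a ≠ 0 := by omega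
      have ha4 : a < k := by omega
      have ha5 : ¬ (a = 1 ∨ a ∈ s) := by
        intro h
        exact hxA (mem_AA.2 ⟨a, h, rfl⟩)
      have := hB ((k : ℝ) - a) (by
          intro y hy
          obtain ⟨z, hz, rfl⟩ := Finset.mem_image.1 hy
          obtain ⟨n, hn, rfl⟩ := mem_AA.1 hz
          have := hs' n hn
          have hna : n ≠ a := by
            rintro rfl
            exact ha5 hn
          refine mem_XX.2 ⟨n + k - a, by omega, by omega, ?_⟩
          rw [Nat.cast_sub (by omega)]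
          push_cast
          ring)
      have h2 := this (Finset.mem_image.2 ⟨(a : ℝ), hxB, rfl⟩)
      obtain ⟨c, hc1, hc2, hc3⟩ := mem_XX.1 h2
      apply hc2
      have : (c : ℝ) = k := by rw [hc3]; ring
      exact_mod_cast this
  · intro A hA B hB t h
    rw [Finset.mem_image] at hA hB
    obtain ⟨s, hs, rfl⟩ := hA
    obtain ⟨s', hs', rfl⟩ := hB
    rw [Finset.mem_powerset] at hs hs'
    have hpos : ∀ s : Finset ℕ, s ⊆ Finset.Ico 2 k → ∀ x ∈ AA s, (1 : ℝ) ≤ x := by
      intro s hs x hx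
      obtain ⟨n, hn, rfl⟩ := mem_AA.1 hx
      have : 1 ≤ n := by
        rcases hn with h | h
        · omega
        · have := Finset.mem_Ico.1 (hs h)
          omega
      exact_mod_cast this
    have h1 : (1 : ℝ) ∈ AA s := mem_AA.2 ⟨1, Or.inl rfl, by norm_num⟩
    have h1' : (1 : ℝ) ∈ AA s' := mem_AA.2 ⟨1, Or.inl rfl, by norm_num⟩
    have ht1 : 0 ≤ t := by
      have : (1 : ℝ) + t ∈ AA s' := by
        rw [h]
        exact Finset.mem_image.2 ⟨1, h1, rfl⟩
      have := hpos s' hs' _ this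
      linarith
    have ht2 : t ≤ 0 := by
      rw [h] at h1'
      obtain ⟨y, hy, hy1⟩ := Finset.mem_image.1 h1'
      have := hpos s hs y hy
      linarith
    have ht : t = 0 := le_antisymm ht2 ht1
    rw [h, ht]
    simp

end Pool.Agent.S09874
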