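import Pool.Statements.S09946
-- import your own Pool.Agent.* helpers here

set_option autoImplicit false
open Pool Pool.MP_8888ff_co

namespace Pool.Agent.S09946

open Finset

open scoped Classical

/-- Twice the number of edges spanned by `S`. -/
noncomputable def D {V : Type} [DecidableEq V] (G : SimpleGraph V) (S : Finset V) : ℕ :=
  ∑ a ∈ S, (S.filter (fun b => G.Adj a b)).card

/-- Every nonempty set of at most `g` vertices spans fewer edges than it has vertices. -/
def Loc {V : Type} [DecidableEq V] (g : ℕ) (G : SimpleGraph V) : Prop :=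
  ∀ S : Finset V, S.Nonempty → S.card ≤ g → D G S + 2 ≤ 2 * S.card

/-- The vertices of `S` that can be reached from `u` in at most `j` steps inside `S`. -/
noncomputable def reachIn {V : Type} [DecidableEq V] (G : SimpleGraph V) (S : Finset V)
    (u : V) : ℕ → Finset V
  | 0 => {u}
  | j + 1 => reachIn G S u j ∪ S.filter (fun v => ∃ w ∈ reachIn G S u j, G.Adj w v)

theorem reachIn_sub {V : Type} [DecidableEq V] (G : SimpleGraph V)
    (S : Finset V) (u : V) (hu : u ∈ S) (j : ℕ) : reachIn G S u j ⊆ S := by
  induction j with
  | zero =>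
    intro x hx
    simp only [reachIn, mem_singleton] at hx
    exact hx ▸ hu
  | succ j ih =>
    intro x hx
    rw [reachIn, mem_union, mem_filter] at hx
    rcases hx with hx | hx
    · exact ih hx
    · exact hx.1

theorem mem_reachIn_self {V : Type} [DecidableEq V] (G : SimpleGraph V)
    (S : Finset V) (u : V) (j : ℕ) : u ∈ reachIn G S u j := by
  induction j with
  | zero => simp [reachIn]
  | succ j ih =>
    rw [reachIn, mem_union]
    exact Or.inl ih

theorem D_split {V : Type} [DecidableEq V] (G : SimpleGraph V)
    (S C : Finset V) (hC : C ⊆ S) (h : ∀ a ∈ C, ∀ b ∈ S \ C, ¬ G.Adj a b) :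
    D G S = D G C + D G (S \ C) := by
  unfold D
  rw [← sum_sdiff hC, Nat.add_comm]
  congr 1
  · refine sum_congr rfl fun a ha => ?_
    congr 1
    ext b
    rw [mem_filter, mem_filter]
    constructor
    · rintro ⟨hb, hab⟩
      refine ⟨?_, hab⟩
      by_contra hbC
      exact h a ha b (mem_sdiff.2 ⟨hb, hbC⟩) hab
    · rintro ⟨hb, hab⟩
      exact ⟨hC hb, hab⟩
  · refine sum_congr rfl fun a ha => ?_
    congr 1
    ext b
    rw [mem_filter, mem_filter]
    constructor
    · rintro ⟨hb, hab⟩
      refine ⟨?_, hab⟩
      rw [mem_sdiff]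
      refine ⟨hb, fun hbC => ?_⟩
      exact h b hbC a ha hab.symm
    · rintro ⟨hb, hab⟩
      exact ⟨(mem_sdiff.1 hb).1, hab⟩

/-- A nearly dense small set is connected. -/
theorem reachIn_eq {V : Type} [DecidableEq V] (G : SimpleGraph V) (g : ℕ)
    (hG : Loc g G) (S : Finset V) (hS : S.card ≤ g) (hD : 2 * S.card ≤ D G S + 3) (u : V)
    (hu : u ∈ S) : reachIn G S u S.card = S := by
  have key : ∀ j : ℕ, reachIn G S u j = S ∨ j + 1 ≤ (reachIn G S u j).card := by
    intro j
    induction j with
    | zero =>
      right
      simp [reachIn]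
    | succ j ih =>
      by_cases hj : reachIn G S u j = S
      · left
        refine Subset.antisymm (reachIn_sub G S u hu _) ?_
        rw [reachIn]
        intro x hx
        exact mem_union_left _ (hj.symm ▸ hx)
      · right
        rcases ih with ih | ih
        · exact absurd ih hj
        · have hlt : (reachIn G S u j).card < (reachIn G S u (j + 1)).card := by
            refine card_lt_card ?_
            rw [ssubset_iff_subset_ne]
            refine ⟨?_, ?_⟩
            · rw [reachIn]
              exact subset_union_left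
            · intro heq
              -- the set is closed
              have hsub := reachIn_sub G S u hu j
              have hclosed : ∀ a ∈ reachIn G S u j, ∀ b ∈ S \ reachIn G S u j, ¬ G.Adj a b := by
                intro a ha b hb hab
                rw [mem_sdiff] at hb
                apply hb.2
                rw [heq, reachIn, mem_union, mem_filter]
                exact Or.inr ⟨hb.1, a, ha, hab⟩
              have h1 := D_split G S _ hsub hclosed
              have h2 := hG (reachIn G S u j) ⟨u, mem_reachIn_self G S u j⟩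
                ((card_le_card hsub).trans hS)
              have hne : (S \ reachIn G S u j).Nonempty := by
                rw [sdiff_nonempty]
                intro h
                exact hj (Subset.antisymm hsub h)
              have h3 := hG (S \ reachIn G S u j) hne
                ((card_le_card sdiff_subset).trans hS)
              have h4 := card_sdiff_add_card_eq_card hsub
              omega
          omega
  rcases key S.card with h | h
  · exact h
  · have := card_le_card (reachIn_sub G S u hu S.card)
    omega

/-- The vertices that can be reached from `v` in at most `j` steps. -/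
noncomputable def reach {V : Type} [Fintype V] [DecidableEq V] (G : SimpleGraph V)
    (v : V) : ℕ → Finset V
  | 0 => {v}
  | j + 1 => reach G v j ∪ (reach G v j).biUnion (fun w => univ.filter (fun x => G.Adj w x))

theorem card_reach {V : Type} [Fintype V] [DecidableEq V] (G : SimpleGraph V)
    (K : ℕ) (hK : ∀ v, (univ.filter (fun x => G.Adj v x)).card ≤ K) (v : V)
    (j : ℕ) : (reach G v j).card ≤ (K + 1) ^ j := by
  induction j with
  | zero => simp [reach]
  | succ j ih =>
    unfold reach
    have h1 := card_union_le (reach G v j)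
      ((reach G v j).biUnion (fun w => univ.filter (fun x => G.Adj w x)))
    have h2 : ((reach G v j).biUnion (fun w => univ.filter (fun x => G.Adj w x))).card ≤
        (reach G v j).card * K :=
      card_biUnion_le_card_mul _ _ _ (fun w _ => hK w)
    calc _ ≤ (reach G v j).card + (reach G v j).card * K := h1.trans (by omega)
      _ = (reach G v j).card * (K + 1) := by ring
      _ ≤ (K + 1) ^ j * (K + 1) := Nat.mul_le_mul_right _ ih
      _ = (K + 1) ^ (j + 1) := by rw [pow_succ]

theorem reach_mono {V : Type} [Fintype V] [DecidableEq V] (G : SimpleGraph V)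
    (v : V) {i j : ℕ} (hij : i ≤ j) : reach G v i ⊆ reach G v j := by
  induction hij with
  | refl => exact Subset.refl _
  | step _ ih =>
    refine ih.trans ?_
    intro w hw
    unfold reach
    exact mem_union_left _ hw

theorem reachIn_sub_reach {V : Type} [Fintype V] [DecidableEq V] (G : SimpleGraph V)
    (S : Finset V) (v : V) (j : ℕ) : reachIn G S v j ⊆ reach G v j := by
  induction j with
  | zero =>
    intro x hx
    simpa [reachIn, reach] using hx
  | succ j ih =>
    intro x hx
    rw [reachIn, mem_union, mem_filter] at hx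
    rw [reach, mem_union, mem_biUnion]
    rcases hx with hx | ⟨-, w, hw, hwx⟩
    · exact Or.inl (ih hx)
    · right
      exact ⟨w, ih hw, by simpa using hwx⟩

/-- Adding an edge. -/
def addEdge {V : Type} (G : SimpleGraph V) (u v : V) (huv : u ≠ v) : SimpleGraph V where
  Adj a b := G.Adj a b ∨ (a = u ∧ b = v) ∨ (a = v ∧ b = u)
  symm := ⟨by
    rintro a b (h | ⟨h1, h2⟩ | ⟨h1, h2⟩)
    · exact Or.inl h.symm
    · exact Or.inr (Or.inr ⟨h2, h1⟩)
    · exact Or.inr (Or.inl ⟨h2, h1⟩)⟩
  loopless := ⟨by
    rintro a (h | ⟨h1, h2⟩ | ⟨h1, h2⟩)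
    · exact G.loopless.irrefl a h
    · exact huv (h1.symm.trans h2)
    · exact huv (h2.symm.trans h1)⟩

theorem D_addEdge {V : Type} [DecidableEq V] (G : SimpleGraph V) (u v : V)
    (huv : u ≠ v) (S : Finset V) : D (addEdge G u v huv) S ≤ D G S + 2 ∧
      (¬ (u ∈ S ∧ v ∈ S) → D (addEdge G u v huv) S = D G S) := by
  have hterm : ∀ a : V, (S.filter (fun b => (addEdge G u v huv).Adj a b)).card ≤
      (S.filter (fun b => G.Adj a b)).card + (if a = u then 1 else 0) + (if a = v then 1 else 0) := by
    intro a
    have hsub : S.filter (fun b => (addEdge G u v huv).Adj a b) ⊆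
        S.filter (fun b => G.Adj a b) ∪ ((if a = u then {v} else ∅) ∪ (if a = v then {u} else ∅)) := by
      intro b hb
      rw [mem_filter] at hb
      rw [mem_union, mem_union, mem_filter]
      rcases hb.2 with h | ⟨h1, h2⟩ | ⟨h1, h2⟩
      · exact Or.inl ⟨hb.1, h⟩
      · right
        left
        rw [if_pos h1, mem_singleton]
        exact h2
      · right
        right
        rw [if_pos h1, mem_singleton]
        exact h2
    have h1 := card_le_card hsub
    have h2 := card_union_le (S.filter (fun b => G.Adj a b))
      ((if a = u then {v} else ∅) ∪ (if a = v then {u} else ∅))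
    have h3 := card_union_le (if a = u then {v} else ∅) (if a = v then {u} else ∅)
    have h4 : (if a = u then ({v} : Finset V) else ∅).card = if a = u then 1 else 0 := by
      split_ifs <;> simp
    have h5 : (if a = v then ({u} : Finset V) else ∅).card = if a = v then 1 else 0 := by
      split_ifs <;> simp
    omega
  constructor
  · unfold D
    calc ∑ a ∈ S, (S.filter (fun b => (addEdge G u v huv).Adj a b)).card
        ≤ ∑ a ∈ S, ((S.filter (fun b => G.Adj a b)).card + (if a = u then 1 else 0) +
          (if a = v then 1 else 0)) := sum_le_sum fun a _ => hterm a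
      _ = ∑ a ∈ S, (S.filter (fun b => G.Adj a b)).card + (∑ a ∈ S, if a = u then 1 else 0) +
          (∑ a ∈ S, if a = v then 1 else 0) := by rw [sum_add_distrib, sum_add_distrib]
      _ ≤ ∑ a ∈ S, (S.filter (fun b => G.Adj a b)).card + 1 + 1 := by
          have h1 : (∑ a ∈ S, if a = u then 1 else 0) ≤ 1 := by
            rw [sum_ite_eq']
            split_ifs <;> simp
          have h2 : (∑ a ∈ S, if a = v then 1 else 0) ≤ 1 := by
            rw [sum_ite_eq']
            split_ifs <;> simp
          omega
  · intro hnot
    unfold D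
    refine sum_congr rfl fun a ha => ?_
    congr 1
    ext b
    rw [mem_filter, mem_filter]
    constructor
    · rintro ⟨hb, h | ⟨rfl, rfl⟩ | ⟨rfl, rfl⟩⟩
      · exact ⟨hb, h⟩
      · exact absurd ⟨ha, hb⟩ hnot
      · exact absurd ⟨hb, ha⟩ hnot
    · rintro ⟨hb, h⟩
      exact ⟨hb, Or.inl h⟩

/-- Locally sparse graphs with many edges. -/
theorem exists_dense (g k : ℕ) : ∃ M : ℕ, ∀ m : ℕ, M ≤ m → ∃ T : SimpleGraph (Fin m),
    (∀ p : Σ k : ℕ, SimpleGraph (Fin k), 1 ≤ p.1 → p.1 ≤ g → p.1 ≤ p.2.edgeSet.ncard →
      ¬ p.2.IsContained T) ∧ k * m ≤ T.edgeSet.ncard := by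
  refine ⟨2 * (4 * k + 1) ^ (g + 1), ?_⟩
  intro m hm
  set 𝓢 : Set (SimpleGraph (Fin m)) := {G | Loc g G ∧ ∀ v, (univ.filter (fun x => G.Adj v x)).card ≤ 4 * k}
    with hS
  have hne : 𝓢.Nonempty := by
    refine ⟨⊥, ?_, ?_⟩
    · intro S hS _
      have h1 : D (⊥ : SimpleGraph (Fin m)) S = 0 := by
        unfold D
        refine sum_eq_zero fun a _ => ?_
        rw [card_eq_zero]
        ext b
        simp
      have h2 := hS.card_pos
      omega
    · intro v
      simp
  obtain ⟨T, hT⟩ := (Set.toFinite 𝓢).exists_maximal hne
  have hTS : T ∈ 𝓢 := hT.1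
  obtain ⟨hloc, hdeg⟩ := hTS
  refine ⟨T, ?_, ?_⟩
  · rintro ⟨r, P⟩ hr1 hr hP ⟨f⟩
    simp only at hr1 hr hP f
    have hinj : Function.Injective f := f.injective
    have hcard : (univ.image f).card = r := by
      rw [card_image_of_injective _ hinj, card_univ, Fintype.card_fin]
    have h1 := hloc (univ.image f) ⟨f ⟨0, hr1⟩, mem_image_of_mem _ (mem_univ _)⟩ (by omega)
    have h2 : 2 * P.edgeFinset.card ≤ D T (univ.image f) := by
      rw [← SimpleGraph.sum_degrees_eq_twice_card_edges]
      unfold D
      rw [sum_image (fun a _ b _ h => hinj h)]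
      refine sum_le_sum fun a _ => ?_
      rw [← SimpleGraph.card_neighborFinset_eq_degree,
        ← card_image_of_injective (P.neighborFinset a) hinj]
      refine card_le_card ?_
      intro x hx
      rw [mem_image] at hx
      obtain ⟨b, hb, rfl⟩ := hx
      rw [SimpleGraph.mem_neighborFinset] at hb
      rw [mem_filter]
      exact ⟨mem_image_of_mem _ (mem_univ _), f.toHom.map_adj hb⟩
    have h3 : P.edgeSet.ncard = P.edgeFinset.card := by
      rw [Set.ncard_eq_toFinset_card']
      rfl
    omega
  · -- few vertices of low degree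
    set L : Finset (Fin m) := univ.filter (fun v => (univ.filter (fun x => T.Adj v x)).card < 4 * k)
      with hL
    have hLcard : L.card ≤ (4 * k + 1) ^ (g + 1) := by
      rcases L.eq_empty_or_nonempty with h | ⟨u, hu⟩
      · rw [h]
        simp
      · refine (card_le_card ?_).trans (card_reach T (4 * k) hdeg u (g + 1))
        intro v hv
        by_cases huv : u = v
        · subst huv
          exact reach_mono T u (Nat.zero_le (g + 1)) (by simp [reach])
        · rw [hL, mem_filter] at hu hv
          -- the graph with the additional edge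
          by_cases hmem : addEdge T u v huv ∈ 𝓢
          · have hle : T ≤ addEdge T u v huv := by
              intro a b hab
              exact Or.inl hab
            have h1 := hT.2 hmem hle
            have h2 : T.Adj u v := h1 (Or.inr (Or.inl ⟨rfl, rfl⟩))
            refine reach_mono T u (Nat.succ_le_succ (Nat.zero_le g)) ?_
            rw [reach, mem_union, mem_biUnion]
            right
            exact ⟨u, by simp [reach], by simpa using h2⟩
          · have hdeg' : ∀ w, (univ.filter (fun x => (addEdge T u v huv).Adj w x)).card ≤ 4 * k := by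
              intro w
              by_cases hwu : w = u
              · subst hwu
                have hsub : univ.filter (fun x => (addEdge T w v huv).Adj w x) ⊆
                    insert v (univ.filter (fun x => T.Adj w x)) := by
                  intro x hx
                  rw [mem_filter] at hx
                  rw [mem_insert, mem_filter]
                  rcases hx.2 with h | ⟨h1, h2⟩ | ⟨h1, h2⟩
                  · exact Or.inr ⟨mem_univ _, h⟩
                  · exact Or.inl h2
                  · exact absurd h1 huv
                have h1 := card_le_card hsub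
                have h2 := card_insert_le v (univ.filter (fun x => T.Adj w x))
                have h3 := hu.2
                omega
              · by_cases hwv : w = v
                · subst hwv
                  have hsub : univ.filter (fun x => (addEdge T u w huv).Adj w x) ⊆
                      insert u (univ.filter (fun x => T.Adj w x)) := by
                    intro x hx
                    rw [mem_filter] at hx
                    rw [mem_insert, mem_filter]
                    rcases hx.2 with h | ⟨h1, h2⟩ | ⟨h1, h2⟩
                    · exact Or.inr ⟨mem_univ _, h⟩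
                    · exact absurd h1 hwu
                    · exact Or.inl h2
                  have h1 := card_le_card hsub
                  have h2 := card_insert_le u (univ.filter (fun x => T.Adj w x))
                  have h3 := hv.2
                  omega
                · refine (card_le_card ?_).trans (hdeg w)
                  intro x hx
                  rw [mem_filter] at hx ⊢
                  rcases hx.2 with h | ⟨h1, h2⟩ | ⟨h1, h2⟩
                  · exact ⟨mem_univ _, h⟩
                  · exact absurd h1 hwu
                  · exact absurd h1 hwv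
            have hnl : ¬ Loc g (addEdge T u v huv) := fun h => hmem ⟨h, hdeg'⟩
            unfold Loc at hnl
            push Not at hnl
            obtain ⟨S, hSne, hSg, hSD⟩ := hnl
            obtain ⟨h1, h2⟩ := D_addEdge T u v huv S
            have h3 := hloc S hSne hSg
            by_cases hin : u ∈ S ∧ v ∈ S
            · have h4 := reachIn_eq T g hloc S hSg (by omega) u hin.1
              have h5 : v ∈ reachIn T S u S.card := h4.symm ▸ hin.2
              exact reach_mono T u (hSg.trans (Nat.le_succ g)) (reachIn_sub_reach T S u _ h5)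
            · have := h2 hin
              omega
    have h1 : T.edgeSet.ncard = T.edgeFinset.card := by
      rw [Set.ncard_eq_toFinset_card']
      rfl
    have h2 : 4 * k * (m - L.card) ≤ 2 * T.edgeFinset.card := by
      rw [← SimpleGraph.sum_degrees_eq_twice_card_edges]
      have h3 : (univ \ L).card = m - L.card := by
        rw [card_sdiff_of_subset (subset_univ _), card_univ, Fintype.card_fin]
      calc 4 * k * (m - L.card) = ∑ _v ∈ univ \ L, 4 * k := by
            rw [sum_const, h3, smul_eq_mul, Nat.mul_comm]
        _ ≤ ∑ v ∈ univ \ L, T.degree v := by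
            refine sum_le_sum fun v hv => ?_
            rw [hL, mem_sdiff, mem_filter] at hv
            rw [← SimpleGraph.card_neighborFinset_eq_degree, SimpleGraph.neighborFinset_eq_filter]
            have := hv.2
            push Not at this
            exact this (mem_univ _)
        _ ≤ ∑ v, T.degree v :=
            sum_le_sum_of_subset_of_nonneg (subset_univ _) (fun _ _ _ => Nat.zero_le _)
    rw [h1]
    have h4 : m ≤ 2 * (m - L.card) := by omega
    have h5 : 4 * (k * m) ≤ 2 * (2 * T.edgeFinset.card) := by
      calc 4 * (k * m) = 4 * k * m := by ring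
        _ ≤ 4 * k * (2 * (m - L.card)) := Nat.mul_le_mul_left _ h4
        _ = 2 * (4 * k * (m - L.card)) := by ring
        _ ≤ 2 * (2 * T.edgeFinset.card) := Nat.mul_le_mul_left _ h2
    omega

theorem acyclic_edges {k : ℕ} (hk : 1 ≤ k) (P : SimpleGraph (Fin k)) (hP : P.IsAcyclic) :
    P.edgeSet.ncard < k := by
  have hne : Nonempty (Fin k) := ⟨⟨0, hk⟩⟩
  obtain ⟨F, hPF, hmax⟩ :=
    SimpleGraph.exists_maximal_isAcyclic_of_le_isAcyclic (G := (⊤ : SimpleGraph (Fin k))) le_top hP
  have hmax' : Maximal SimpleGraph.IsAcyclic F := by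
    refine ⟨hmax.1.2, ?_⟩
    intro F' hF' hle
    exact hmax.2 ⟨le_top, hF'⟩ hle
  have htree := SimpleGraph.maximal_isAcyclic_iff_isTree.1 hmax'
  have h1 := htree.card_edgeFinset
  rw [Fintype.card_fin] at h1
  have h2 : P.edgeSet.ncard ≤ F.edgeSet.ncard :=
    Set.ncard_le_ncard (SimpleGraph.edgeSet_subset_edgeSet.2 hPF) (Set.toFinite _)
  have h3 : F.edgeSet.ncard = F.edgeFinset.card := by
    rw [Set.ncard_eq_toFinset_card']
    rfl
  omega

/-- The order bound from `exists_dense`. -/
noncomputable def M (g k : ℕ) : ℕ := Classical.choose (exists_dense g k)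

theorem M_spec (g k : ℕ) : ∀ m : ℕ, M g k ≤ m → ∃ T : SimpleGraph (Fin m),
    (∀ p : Σ k : ℕ, SimpleGraph (Fin k), 1 ≤ p.1 → p.1 ≤ g → p.1 ≤ p.2.edgeSet.ncard →
      ¬ p.2.IsContained T) ∧ k * m ≤ T.edgeSet.ncard := Classical.choose_spec (exists_dense g k)

/-- The orders of the members of the family. -/
noncomputable def ord : ℕ → ℕ
  | 0 => 4
  | j + 1 => max (M (ord j) (j + 1)) (ord j) + 1

theorem ord_lt (j : ℕ) : ord j < ord (j + 1) := by
  rw [ord]
  exact Nat.lt_succ_of_le (le_max_right _ _)

theorem ord_mono : StrictMono ord := strictMono_nat_of_lt_succ ord_lt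

theorem four_le_ord (j : ℕ) : 4 ≤ ord j := by
  have h : ord 0 ≤ ord j := ord_mono.monotone (Nat.zero_le j)
  have h0 : ord 0 = 4 := by rw [ord]
  omega

/-- The family: all graphs with `ord j` vertices and at least as many edges, for some `j`. -/
def Fam : Set (Σ k : ℕ, SimpleGraph (Fin k)) :=
  {p | (∃ j, p.1 = ord j) ∧ p.1 ≤ p.2.edgeSet.ncard}

theorem fam_cyclic : ∀ p ∈ Fam, ¬ p.2.IsAcyclic := by
  rintro p ⟨⟨j, hj⟩, hp⟩ hac
  have h1 := four_le_ord j
  have h2 := acyclic_edges (by omega) p.2 hac
  omega

theorem fam_bipartite : ∃ p ∈ Fam, p.2.Colorable 2 := by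
  refine ⟨⟨4, SimpleGraph.cycleGraph 4⟩, ⟨⟨0, by rw [ord]⟩, ?_⟩, ?_⟩
  · have h1 : (SimpleGraph.cycleGraph 4).edgeSet.ncard
        = (SimpleGraph.cycleGraph 4).edgeFinset.card := by
      rw [Set.ncard_eq_toFinset_card']
      rfl
    have h2 := SimpleGraph.sum_degrees_eq_twice_card_edges (SimpleGraph.cycleGraph 4)
    have h3 : ∑ v : Fin 4, (SimpleGraph.cycleGraph 4).degree v = 8 := by
      have h4 : ∀ v : Fin 4, (SimpleGraph.cycleGraph 4).degree v = 2 := by decide
      simp_rw [h4]
      simp
    simp only
    rw [h1]
    omega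
  · refine ⟨SimpleGraph.Coloring.mk (fun i : Fin 4 => (⟨i.val % 2, by omega⟩ : Fin 2)) ?_⟩
    decide

end Pool.Agent.S09946

namespace Pool.Agent.S09946

/-- The negation of the preceding statement: For every graph family whose members all contain a cycle and one is bipartite, some c>0 ensures every graph with min degree δ≥1 and max degree Δ has a spanning F-free subgraph of min degree at least c·ex(K_Δ,F)·δ/Δ². -/
theorem result :
    ¬ (∀ F : Set (Σ k : ℕ, SimpleGraph (Fin k)),
      (∀ p ∈ F, ¬ p.2.IsAcyclic) →
      (∃ p ∈ F, p.2.Colorable 2) →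
      ∃ c : ℝ, 0 < c ∧
        ∀ δ Δ : ℕ, 1 ≤ δ → δ ≤ Δ →
          ∀ n : ℕ, ∀ G : SimpleGraph (Fin n),
            (∀ v, δ ≤ (G.neighborSet v).ncard) →
            (∃ v, (G.neighborSet v).ncard = δ) →
            (∀ v, (G.neighborSet v).ncard ≤ Δ) →
            (∃ v, (G.neighborSet v).ncard = Δ) →
            ∀ T : SimpleGraph (Fin Δ),
              (∀ p ∈ F, ¬ p.2.IsContained T) →
              ∃ H : SimpleGraph (Fin n), H ≤ G ∧
                (∀ p ∈ F, ¬ p.2.IsContained H) ∧
                ∀ v, c * (T.edgeSet.ncard : ℝ) * (δ : ℝ) / (Δ : ℝ) ^ 2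
                  ≤ ((H.neighborSet v).ncard : ℝ)) := by
  classical
  intro hmain
  obtain ⟨c, hc, hall⟩ := hmain Fam fam_cyclic fam_bipartite
  obtain ⟨j, hj⟩ := exists_nat_gt (1 / c)
  have hcj : 1 < c * ((j : ℝ) + 1) := by
    rw [div_lt_iff₀ hc] at hj
    nlinarith
  obtain ⟨m, hm, hmM, hmo⟩ : ∃ m : ℕ, ord (j + 1) = m + 1 ∧ M (ord j) (j + 1) ≤ m ∧ ord j ≤ m :=
    ⟨_, by rw [ord], le_max_left _ _, le_max_right _ _⟩
  have h4m : 4 ≤ m := (four_le_ord j).trans hmo
  obtain ⟨T, hT1, hT2⟩ := M_spec (ord j) (j + 1) m hmM
  have hdeg : ∀ v : Fin (m + 1), ((⊤ : SimpleGraph (Fin (m + 1))).neighborSet v).ncard = m := by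
    intro v
    rw [SimpleGraph.neighborSet_top, Set.ncard_compl, Set.ncard_singleton,
      Nat.card_eq_fintype_card, Fintype.card_fin]
    rfl
  obtain ⟨H, -, hH1, hH2⟩ := hall m m (by omega) le_rfl (m + 1) ⊤ (fun v => (hdeg v).ge)
    ⟨0, hdeg 0⟩ (fun v => (hdeg v).le) ⟨0, hdeg 0⟩ T (by
      rintro p ⟨⟨i, hi⟩, hp⟩ hcon
      rcases Nat.lt_or_ge j i with hij | hij
      · obtain ⟨f⟩ := hcon
        have h1 := Fintype.card_le_of_injective f f.injective
        rw [Fintype.card_fin, Fintype.card_fin] at h1
        have h2 : ord (j + 1) ≤ ord i := ord_mono.monotone hij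
        omega
      · have h1 : ord i ≤ ord j := ord_mono.monotone hij
        exact hT1 p (by have := four_le_ord i; omega) (by omega) hp hcon)
  -- all degrees of `H` are at least two
  have hm0 : (0 : ℝ) < m := by exact_mod_cast (by omega : 0 < m)
  have hdeg2 : ∀ v, 2 ≤ (H.neighborSet v).ncard := by
    intro v
    have h1 := hH2 v
    have h2 : (((j + 1) * m : ℕ) : ℝ) ≤ (T.edgeSet.ncard : ℝ) := by exact_mod_cast hT2
    push_cast at h2
    have h3 : c * (((j : ℝ) + 1) * m) * m / (m : ℝ) ^ 2 ≤
        c * (T.edgeSet.ncard : ℝ) * (m : ℝ) / (m : ℝ) ^ 2 := by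
      gcongr
    have h4 : c * (((j : ℝ) + 1) * m) * m / (m : ℝ) ^ 2 = c * ((j : ℝ) + 1) := by
      field_simp
    rw [h4] at h3
    have h5 : (1 : ℝ) < ((H.neighborSet v).ncard : ℝ) := hcj.trans_le (h3.trans h1)
    exact_mod_cast h5
  have hedges : m + 1 ≤ H.edgeSet.ncard := by
    have h1 : H.edgeSet.ncard = H.edgeFinset.card := by
      rw [Set.ncard_eq_toFinset_card']
      rfl
    have h2 : 2 * (m + 1) ≤ 2 * H.edgeFinset.card := by
      rw [← SimpleGraph.sum_degrees_eq_twice_card_edges]
      calc 2 * (m + 1) = ∑ _v : Fin (m + 1), 2 := by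
            rw [Finset.sum_const, Finset.card_univ, Fintype.card_fin, smul_eq_mul, Nat.mul_comm]
        _ ≤ ∑ v, H.degree v := by
            refine Finset.sum_le_sum fun v _ => ?_
            have h3 := hdeg2 v
            rw [Set.ncard_eq_toFinset_card'] at h3
            exact h3
    omega
  exact hH1 ⟨m + 1, H⟩ ⟨⟨j + 1, hm.symm⟩, hedges⟩ (SimpleGraph.IsContained.refl H)

end Pool.Agent.S09946
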