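import Pool.Statements.S10055
import Mathlib

set_option autoImplicit false
open Pool Pool.MP_8d311f_co

namespace Pool.Agent.S10055

/-- the table of a spread function on the vector space of binary words of length 6 -/
def T : ℕ := 1310176036858344473775734293929962426469433003811947937792

/-- the eight elements of the dihedral group of order eight -/
def e (a : ℕ) : DihedralGroup 4 :=
  if a < 4 then DihedralGroup.r (a : ZMod 4) else DihedralGroup.sr ((a - 4 : ℕ) : ZMod 4)

/-- index of an element -/
def idx : DihedralGroup 4 → ℕ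
  | DihedralGroup.r i => i.val
  | DihedralGroup.sr i => 4 + i.val

def F (k : ℕ) : ℕ := (T >>> (3 * k)) % 8

/-- index of `e a * (e b)⁻¹` -/
def q (a b : ℕ) : ℕ :=
  if a < 4 then (if b < 4 then (a + (4 - b)) % 4 else 4 + ((b - 4) + (4 - a)) % 4)
  else (if b < 4 then 4 + ((a - 4) + (4 - b)) % 4 else ((b - 4) + (4 - (a - 4))) % 4)

theorem q_spec : ∀ a : Fin 8, ∀ b : Fin 8, e a.val * (e b.val)⁻¹ = e (q a.val b.val) := by
  decide +kernel

theorem e_idx : ∀ g : DihedralGroup 4, e (idx g) = g ∧ idx g < 8 := by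
  decide +kernel

theorem e_inj : ∀ a : Fin 8, ∀ b : Fin 8, e a.val = e b.val → a = b := by
  decide +kernel

theorem q_lt : ∀ a : Fin 8, ∀ b : Fin 8, q a.val b.val < 8 := by
  decide +kernel

def cnt (d g : ℕ) : ℕ := ((List.range 64).filter fun k => q (F k) (F (d ^^^ k)) == g).length

theorem cnt_all : ((List.range 64).all fun d => d == 0 || (List.range 8).all fun g => cnt d g == 8)
    = true := by
  decide +kernel

theorem cnt_spec (d g : ℕ) (hd : d < 64) (hd0 : d ≠ 0) (hg : g < 8) : cnt d g = 8 := by
  have h := cnt_all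
  rw [List.all_eq_true] at h
  have h1 := h d (List.mem_range.2 hd)
  rw [Bool.or_eq_true] at h1
  rcases h1 with h1 | h1
  · exact absurd (by simpa using h1) hd0
  · rw [List.all_eq_true] at h1
    have h2 := h1 g (List.mem_range.2 hg)
    simpa using h2

theorem F_lt (k : ℕ) : F k < 8 := Nat.mod_lt _ (by norm_num)

theorem key (a b : ℕ) (ha : a < 8) (hb : b < 8) (g : DihedralGroup 4) :
    e a * (e b)⁻¹ = g ↔ q a b = idx g := by
  have h1 := q_spec ⟨a, ha⟩ ⟨b, hb⟩
  have h2 := e_idx g
  have h3 := q_lt ⟨a, ha⟩ ⟨b, hb⟩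
  simp only at h1 h3
  constructor
  · intro h
    rw [h1] at h
    have := e_inj ⟨q a b, h3⟩ ⟨idx g, h2.2⟩ (by simpa [h2.1] using h)
    simpa using this
  · intro h
    rw [h1, h, h2.1]

theorem filter_range_card (n : ℕ) (p : ℕ → Bool) :
    Nat.card {k : Fin n // p k.val = true} = ((List.range n).filter p).length := by
  classical
  rw [Nat.card_eq_fintype_card, Fintype.card_subtype]
  have h1 : ((Finset.univ : Finset (Fin n)).filter (fun k => p k.val = true)).card
      = ((Finset.range n).filter (fun k => p k = true)).card := by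
    refine Finset.card_bij (fun k _ => k.val) ?_ ?_ ?_
    · intro k hk
      simp only [Finset.mem_filter, Finset.mem_univ, true_and, Finset.mem_range] at hk ⊢
      exact ⟨k.isLt, hk⟩
    · intro k1 _ k2 _ h
      exact Fin.ext h
    · intro k hk
      simp only [Finset.mem_filter, Finset.mem_range] at hk
      exact ⟨⟨k, hk.1⟩, by simpa using hk.2, rfl⟩
  rw [h1]
  have h2 : ((Finset.range n).filter (fun k => p k = true)) = ((List.range n).filter p).toFinset := by
    ext k
    simp
  rw [h2, List.toFinset_card_of_nodup ((List.nodup_range).filter _)]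

theorem base (d : ℕ) (hd : d < 64) (hd0 : d ≠ 0) (g : DihedralGroup 4) :
    Nat.card {k : Fin 64 // e (F k.val) * (e (F (d ^^^ k.val)))⁻¹ = g} = 8 := by
  rw [← cnt_spec d (idx g) hd hd0 (e_idx g).2]
  unfold cnt
  rw [← filter_range_card]
  apply Nat.card_congr
  apply Equiv.subtypeEquivRight
  intro k
  rw [key _ _ (F_lt _) (F_lt _)]
  simp

theorem xor_lt (a b : ℕ) (ha : a < 64) (hb : b < 64) : a ^^^ b < 64 :=
  Nat.xor_lt_two_pow (n := 6) ha hb

def sig (i : Fin 64) : Fin 64 ≃ Fin 64 where
  toFun k := ⟨i.val ^^^ k.val, xor_lt _ _ i.isLt k.isLt⟩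
  invFun k := ⟨i.val ^^^ k.val, xor_lt _ _ i.isLt k.isLt⟩
  left_inv k := by
    apply Fin.ext
    simp
  right_inv k := by
    apply Fin.ext
    simp

theorem base2 (i j : Fin 64) (hij : i ≠ j) (g : DihedralGroup 4) :
    Nat.card {k : Fin 64 // e (F (i.val ^^^ k.val)) * (e (F (j.val ^^^ k.val)))⁻¹ = g} = 8 := by
  have hd : (j.val ^^^ i.val) ≠ 0 := by
    intro h
    exact hij (Fin.ext (Nat.xor_eq_zero_iff.1 h).symm)
  rw [← base (j.val ^^^ i.val) (xor_lt _ _ j.isLt i.isLt) hd g]
  apply Nat.card_congr
  refine Equiv.subtypeEquiv (sig i) ?_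
  intro k
  have h1 : ((sig i) k).val = i.val ^^^ k.val := rfl
  rw [h1]
  have h2 : (j.val ^^^ i.val) ^^^ (i.val ^^^ k.val) = j.val ^^^ k.val := by
    rw [Nat.xor_assoc, ← Nat.xor_assoc i.val i.val k.val]
    simp
  rw [h2]

/-- the matrix -/
def H (i k : Fin 64) : DihedralGroup 4 :=
  if i = 0 then e 1 * e (F (i.val ^^^ k.val)) else e (F (i.val ^^^ k.val))

/-- There is a finite group N of order w dividing v and a v×v matrix over N such that, for any two distinct rows, each group element occurs exactly v/w times among the entrywise quotients h_ik h_jk⁻¹, while this fails for some pair of distinct columns. -/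
theorem result :
    ∃ (N : Type) (_ : Group N) (_ : Finite N) (v : ℕ) (H : Fin v → Fin v → N),
      Nat.card N ∣ v ∧
      (∀ i j : Fin v, i ≠ j → ∀ g : N,
        Nat.card {k : Fin v // H i k * (H j k)⁻¹ = g} = v / Nat.card N) ∧
      ¬ (∀ i j : Fin v, i ≠ j → ∀ g : N,
        Nat.card {k : Fin v // H k i * (H k j)⁻¹ = g} = v / Nat.card N) := by
  have hcard : Nat.card (DihedralGroup 4) = 8 := by
    rw [Nat.card_eq_fintype_card]; rfl
  refine ⟨DihedralGroup 4, inferInstance, inferInstance, 64, H, ?_, ?_, ?_⟩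
  · rw [hcard]; norm_num
  · intro i j hij g
    rw [hcard, show (64 / 8 : ℕ) = 8 from rfl]
    by_cases hi : i = 0
    · have hj : j ≠ 0 := fun h => hij (hi.trans h.symm)
      rw [← base2 i j hij ((e 1)⁻¹ * g)]
      apply Nat.card_congr
      apply Equiv.subtypeEquivRight
      intro k
      simp only [H, if_pos hi, if_neg hj]
      rw [mul_assoc, eq_inv_mul_iff_mul_eq]
    · by_cases hj : j = 0
      · rw [← base2 i j hij (g * (e 1))]
        apply Nat.card_congr
        apply Equiv.subtypeEquivRight
        intro k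
        simp only [H, if_neg hi, if_pos hj]
        rw [mul_inv_rev, ← mul_assoc, mul_inv_eq_iff_eq_mul]
      · rw [← base2 i j hij g]
        apply Nat.card_congr
        apply Equiv.subtypeEquivRight
        intro k
        simp only [H, if_neg hi, if_neg hj]
  · intro h
    have h1 := h 0 12 (by decide) (DihedralGroup.sr 0)
    rw [hcard, Nat.card_eq_fintype_card] at h1
    revert h1
    decide +kernel

end Pool.Agent.S10055
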