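import Pool.Statements.S10143
import Pool.Agent.V11147.MotzkinStraus
import Pool.Agent.V11147.CompactHull

set_option autoImplicit false
open Classical
open Pool Pool.MP_913d4e_co

namespace Pool.Agent.S10143

open Finset

theorem descFactorial_cast (r k : ℕ) :
    (r.descFactorial k : ℝ) = ∏ j ∈ range k, ((r : ℝ) - j) := by
  induction k with
  | zero => simp
  | succ k ih =>
    rw [Nat.descFactorial_succ, prod_range_succ, ← ih]
    rcases le_or_gt k r with h | h
    · rw [Nat.cast_mul, Nat.cast_sub h]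
      ring
    · rw [Nat.descFactorial_eq_zero_iff_lt.2 h]
      simp

theorem choose_fall (r k : ℕ) (hr : 1 ≤ r) :
    (r.choose k : ℝ) * ((k.factorial : ℝ) * (1 / (r : ℝ)) ^ k) =
      ∏ j ∈ range k, (1 - (j : ℝ) / (r : ℝ)) := by
  have hr0 : (r : ℝ) ≠ 0 := by
    have : (0 : ℝ) < (r : ℝ) := by exact_mod_cast hr
    exact this.ne'
  have h1 : (r.choose k : ℝ) * (k.factorial : ℝ) = (r.descFactorial k : ℝ) := by
    rw [Nat.descFactorial_eq_factorial_mul_choose]
    push_cast
    ring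
  rw [← mul_assoc, h1, descFactorial_cast]
  have h2 : (1 / (r : ℝ)) ^ k = ∏ _j ∈ range k, (1 / (r : ℝ)) := by
    rw [prod_const, card_range]
  rw [h2, ← prod_mul_distrib]
  refine prod_congr rfl fun j _ => ?_
  field_simp

theorem range_to_Ico (r : ℝ) (k : ℕ) (hk : 0 < k) :
    ∏ j ∈ range k, (1 - (j : ℝ) / r) = ∏ j ∈ Ico 1 k, (1 - (j : ℝ) / r) := by
  rw [range_eq_Ico, prod_eq_prod_Ico_succ_bot hk]
  simp

theorem card_injOn (N K : ℕ) (S : Finset (Fin N)) :
    (univ.filter (fun c : Fin N → Fin K => Set.InjOn c (S : Set (Fin N)))).card =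
      K.descFactorial S.card * K ^ (N - S.card) := by
  rw [← Fintype.card_subtype]
  have e : {c : Fin N → Fin K // Set.InjOn c (S : Set (Fin N))} ≃
      ({x // x ∈ S} ↪ Fin K) × ({x // x ∉ S} → Fin K) :=
    { toFun := fun c => (⟨fun x => c.1 x.1, fun x y h => Subtype.ext (c.2 x.2 y.2 h)⟩,
        fun x => c.1 x.1)
      invFun := fun p => ⟨fun x => if h : x ∈ S then p.1 ⟨x, h⟩ else p.2 ⟨x, h⟩, by
        intro x hx y hy h
        have hx' : x ∈ S := hx
        have hy' : y ∈ S := hy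
        simp only [dif_pos hx', dif_pos hy'] at h
        exact congrArg Subtype.val (p.1.injective h)⟩
      left_inv := by
        rintro ⟨c, hc⟩
        apply Subtype.ext
        funext x
        by_cases hx : x ∈ S
        · simp [hx]
        · simp [hx]
      right_inv := by
        rintro ⟨f, g⟩
        refine Prod.ext ?_ ?_
        · ext x
          simp
        · funext x
          simp [x.2] }
  rw [Fintype.card_congr e, Fintype.card_prod, Fintype.card_embedding_eq, Fintype.card_fun,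
    Fintype.card_fin, Fintype.card_coe]
  congr 2
  rw [Fintype.card_subtype]
  have h : univ.filter (fun x => x ∉ S) = univ \ S := by
    ext x
    simp
  rw [h, card_sdiff_of_subset (subset_univ _), card_univ, Fintype.card_fin]

/-- The number of `r`-cliques. -/
noncomputable def cq {N : ℕ} (G : SimpleGraph (Fin N)) (r : ℕ) : ℕ := (G.cliqueFinset r).card

theorem cq_eq {N : ℕ} (G : SimpleGraph (Fin N)) (r : ℕ) (T : Finset (Finset (Fin N)))
    (h : ∀ S, G.IsNClique r S ↔ S ∈ T) : cq G r = T.card := by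
  unfold cq
  congr 1
  ext S
  rw [SimpleGraph.mem_cliqueFinset_iff, h]

theorem sum_cliques (N K r : ℕ) :
    ∑ c : Fin N → Fin K, cq ((⊤ : SimpleGraph (Fin K)).comap c) r =
      N.choose r * (K.descFactorial r * K ^ (N - r)) := by
  have h1 : ∀ c : Fin N → Fin K, cq ((⊤ : SimpleGraph (Fin K)).comap c) r =
      ∑ S ∈ powersetCard r (univ : Finset (Fin N)),
        if Set.InjOn c (S : Set (Fin N)) then 1 else 0 := by
    intro c
    rw [← card_filter]
    refine cq_eq _ _ _ ?_
    intro S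
    rw [mem_filter, mem_powersetCard, SimpleGraph.isNClique_iff]
    constructor
    · rintro ⟨h1, h2⟩
      refine ⟨⟨subset_univ _, h2⟩, ?_⟩
      intro x hx y hy hxy
      by_contra hne
      have := h1 hx hy hne
      simp only [SimpleGraph.comap_adj, SimpleGraph.top_adj] at this
      exact this hxy
    · rintro ⟨⟨-, h2⟩, h1⟩
      refine ⟨?_, h2⟩
      intro x hx y hy hne
      simp only [SimpleGraph.comap_adj, SimpleGraph.top_adj]
      exact fun h => hne (h1 hx hy h)
  simp_rw [h1]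
  rw [sum_comm]
  have h2 : ∀ S ∈ powersetCard r (univ : Finset (Fin N)),
      ∑ c : Fin N → Fin K, (if Set.InjOn c (S : Set (Fin N)) then 1 else 0) =
      K.descFactorial r * K ^ (N - r) := by
    intro S hS
    rw [mem_powersetCard] at hS
    rw [← card_filter, card_injOn, hS.2]
  rw [sum_congr rfl h2, sum_const, card_powersetCard, card_univ, Fintype.card_fin, smul_eq_mul]

/-- The limit points. -/
noncomputable def pt {m : ℕ} (e : Fin m → ℕ) (k : ℕ) (i : Fin m) : ℝ :=
  ∏ j ∈ Ico 1 (e i), (1 - (j : ℝ) / ((k : ℝ) + 1))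

/-- The density vectors of graphs on `N` vertices. -/
def Dn {m : ℕ} (e : Fin m → ℕ) (N : ℕ) : Set (Fin m → ℝ) :=
  { x : Fin m → ℝ | ∃ G : SimpleGraph (Fin N),
              x = fun i => ((cq G (e i) : ℕ) : ℝ) /
                ((Nat.choose N (e i) : ℕ) : ℝ) }

theorem one_mem {m : ℕ} (e : Fin m → ℕ) (N : ℕ) (hN : ∀ i, e i ≤ N) :
    (1 : Fin m → ℝ) ∈ Dn e N := by
  refine ⟨⊤, ?_⟩
  funext i
  have h1 : cq (⊤ : SimpleGraph (Fin N)) (e i) =
      (powersetCard (e i) (univ : Finset (Fin N))).card := by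
    refine cq_eq _ _ _ ?_
    intro S
    rw [mem_powersetCard, SimpleGraph.isNClique_iff]
    constructor
    · rintro ⟨-, h⟩
      exact ⟨subset_univ _, h⟩
    · rintro ⟨-, h⟩
      refine ⟨?_, h⟩
      intro x _ y _ hne
      exact hne
  rw [h1, card_powersetCard, card_univ, Fintype.card_fin, Pi.one_apply, div_self]
  have := Nat.choose_pos (hN i)
  exact_mod_cast this.ne'

theorem pt_mem {m : ℕ} (e : Fin m → ℕ) (he : ∀ i, 0 < e i) (N : ℕ) (hN : ∀ i, e i ≤ N) (k : ℕ) :
    pt e k ∈ convexHull ℝ (Dn e N) := by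
  have hK : (0 : ℝ) < ((k + 1 : ℕ) : ℝ) := by positivity
  have h1 : pt e k = ∑ c : Fin N → Fin (k + 1), (1 / ((k + 1 : ℕ) : ℝ) ^ N) •
      (fun i => ((cq ((⊤ : SimpleGraph (Fin (k + 1))).comap c) (e i) : ℕ) : ℝ) /
        ((Nat.choose N (e i) : ℕ) : ℝ)) := by
    funext i
    rw [Finset.sum_apply]
    simp only [Pi.smul_apply, smul_eq_mul]
    rw [← mul_sum, ← sum_div]
    have h2 := sum_cliques N (k + 1) (e i)
    have h3 : ∑ c : Fin N → Fin (k + 1),
        ((cq ((⊤ : SimpleGraph (Fin (k + 1))).comap c) (e i) : ℕ) : ℝ) =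
        ((N.choose (e i) : ℕ) : ℝ) * (((k + 1).descFactorial (e i) : ℝ) *
          ((k + 1 : ℕ) : ℝ) ^ (N - e i)) := by exact_mod_cast h2
    rw [h3]
    have hch : ((N.choose (e i) : ℕ) : ℝ) ≠ 0 := by
      have := Nat.choose_pos (hN i)
      exact_mod_cast this.ne'
    have hpow : ((k + 1 : ℕ) : ℝ) ^ N = ((k + 1 : ℕ) : ℝ) ^ (N - e i) *
        ((k + 1 : ℕ) : ℝ) ^ (e i) := by
      rw [← pow_add, Nat.sub_add_cancel (hN i)]
    rw [hpow]
    have h4 : pt e k i = ((k + 1).descFactorial (e i) : ℝ) / ((k + 1 : ℕ) : ℝ) ^ (e i) := by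
      unfold pt
      have h5 := range_to_Ico ((k : ℝ) + 1) (e i) (he i)
      rw [← h5]
      have h6 := choose_fall (k + 1) (e i) (by omega)
      have h7 : (((k + 1 : ℕ)) : ℝ) = (k : ℝ) + 1 := by push_cast; ring
      rw [h7] at h6 ⊢
      rw [← h6, Nat.descFactorial_eq_factorial_mul_choose]
      push_cast
      rw [one_div, inv_pow]
      field_simp
    rw [h4]
    have hK0 := hK.ne'
    field_simp
  rw [h1]
  have hw0 : ∀ c ∈ (univ : Finset (Fin N → Fin (k + 1))), (0 : ℝ) ≤ 1 / ((k + 1 : ℕ) : ℝ) ^ N :=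
    fun c _ => by positivity
  have hw1 : ∑ _c : Fin N → Fin (k + 1), 1 / ((k + 1 : ℕ) : ℝ) ^ N = 1 := by
    rw [sum_const, card_univ, Fintype.card_fun, Fintype.card_fin, Fintype.card_fin, nsmul_eq_mul,
      Nat.cast_pow]
    have : ((k + 1 : ℕ) : ℝ) ^ N ≠ 0 := by positivity
    field_simp
  have hz : ∀ c ∈ (univ : Finset (Fin N → Fin (k + 1))),
      (fun i => ((cq ((⊤ : SimpleGraph (Fin (k + 1))).comap c) (e i) : ℕ) : ℝ) /
        ((Nat.choose N (e i) : ℕ) : ℝ)) ∈ convexHull ℝ (Dn e N) :=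
    fun c _ => subset_convexHull ℝ _ ⟨_, rfl⟩
  exact (convex_convexHull ℝ (Dn e N)).sum_mem hw0 hw1 hz

theorem tendsto_pt {m : ℕ} (e : Fin m → ℕ) :
    Filter.Tendsto (fun k => pt e k) Filter.atTop (nhds (1 : Fin m → ℝ)) := by
  rw [tendsto_pi_nhds]
  intro i
  unfold pt
  have h : (1 : Fin m → ℝ) i = ∏ _j ∈ Ico 1 (e i), (1 : ℝ) := by simp
  rw [h]
  refine tendsto_finsetProd _ fun j _ => ?_
  have h1 : Filter.Tendsto (fun k : ℕ => (j : ℝ) / ((k : ℝ) + 1)) Filter.atTop (nhds 0) := by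
    have h2 := (tendsto_one_div_add_atTop_nhds_zero_nat (𝕜 := ℝ)).const_mul (j : ℝ)
    rw [mul_zero] at h2
    refine h2.congr fun k => ?_
    ring
  have h3 := h1.const_sub 1
  rw [sub_zero] at h3
  exact h3

theorem tendsto_rho (k s : ℕ) :
    Filter.Tendsto (fun n : ℕ => ∏ j ∈ range k, (1 - (j : ℝ) / ((n + s : ℕ) : ℝ)))
      Filter.atTop (nhds 1) := by
  suffices h : Filter.Tendsto (fun n : ℕ => ∏ j ∈ range k, (1 - (j : ℝ) / ((n + s : ℕ) : ℝ)))
      Filter.atTop (nhds (∏ _j ∈ range k, (1 : ℝ))) by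
    rwa [prod_const_one] at h
  refine tendsto_finsetProd _ fun j _ => ?_
  have h1 : Filter.Tendsto (fun n : ℕ => (j : ℝ) / ((n + s : ℕ) : ℝ)) Filter.atTop (nhds 0) := by
    have h2 : Filter.Tendsto (fun n : ℕ => ((n + s : ℕ) : ℝ)) Filter.atTop Filter.atTop := by
      refine tendsto_natCast_atTop_atTop.comp ?_
      exact Filter.tendsto_add_atTop_nat s
    exact h2.const_div_atTop (j : ℝ)
  have h3 := h1.const_sub 1
  rw [sub_zero] at h3
  exact h3

/-- The weights on the sizes that come from a linear functional. -/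
noncomputable def W {m : ℕ} (e : Fin m → ℕ) (c : Fin m → ℝ) (k : ℕ) : ℝ :=
  ∑ i, if e i = k then c i * (k.factorial : ℝ) else 0

theorem W_sum {m : ℕ} (e : Fin m → ℕ) (he : ∀ i, 0 < e i) (c : Fin m → ℝ) (r : ℕ) (hr : 1 ≤ r) :
    ∑ k ∈ range (r + 1), (r.choose k : ℝ) * (W e c k * (1 / (r : ℝ)) ^ k) =
      ∑ i, pt e (r - 1) i * c i := by
  unfold W
  have h1 : ∀ k, (r.choose k : ℝ) * ((∑ i, if e i = k then c i * (k.factorial : ℝ) else 0) *
      (1 / (r : ℝ)) ^ k) = ∑ i, if e i = k then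
        ((r.choose (e i) : ℝ) * ((e i).factorial * (1 / (r : ℝ)) ^ (e i))) * c i else 0 := by
    intro k
    rw [sum_mul, mul_sum]
    refine sum_congr rfl fun i _ => ?_
    split_ifs with h
    · rw [h]
      ring
    · ring
  simp_rw [h1]
  rw [sum_comm]
  refine sum_congr rfl fun i _ => ?_
  rw [sum_ite_eq, choose_fall r (e i) hr]
  have h2 : pt e (r - 1) i = ∏ j ∈ range (e i), (1 - (j : ℝ) / (r : ℝ)) := by
    unfold pt
    rw [range_to_Ico (r : ℝ) (e i) (he i)]
    have h3 : ((r - 1 : ℕ) : ℝ) + 1 = (r : ℝ) := by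
      rw [Nat.cast_sub hr]
      push_cast
      ring
    rw [h3]
  rw [h2]
  split_ifs with h
  · rfl
  · have h3 : r.choose (e i) = 0 := by
      rw [mem_range] at h
      exact Nat.choose_eq_zero_of_lt (by omega)
    rw [← choose_fall r (e i) hr, h3]
    simp

theorem P_uniform {m : ℕ} (e : Fin m → ℕ) (c : Fin m → ℝ) (N : ℕ) (hN : 1 ≤ N)
    (hNe : ∀ i, e i ≤ N) (G : SimpleGraph (Fin N)) :
    Pool.Agent.V11147.MS.P G (W e c) (fun _ => 1 / (N : ℝ)) =
      ∑ i, (∏ j ∈ range (e i), (1 - (j : ℝ) / (N : ℝ))) *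
        (((cq G (e i) : ℕ) : ℝ) / ((Nat.choose N (e i) : ℕ) : ℝ)) * c i := by
  unfold Pool.Agent.V11147.MS.P W cq
  have h1 : ∀ S : Finset (Fin N), (if G.IsClique (S : Set (Fin N)) then
      (∑ i, if e i = S.card then c i * (S.card.factorial : ℝ) else 0) else 0) *
      ∏ _v ∈ S, (1 / (N : ℝ)) = ∑ i, if S ∈ G.cliqueFinset (e i) then
        c i * ((e i).factorial : ℝ) * (1 / (N : ℝ)) ^ (e i) else 0 := by
    intro S
    rw [prod_const]
    by_cases hS : G.IsClique (S : Set (Fin N))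
    · rw [if_pos hS, sum_mul]
      refine sum_congr rfl fun i _ => ?_
      by_cases hi : e i = S.card
      · have hmem : S ∈ G.cliqueFinset (e i) := by
          rw [SimpleGraph.mem_cliqueFinset_iff, SimpleGraph.isNClique_iff]
          exact ⟨hS, hi.symm⟩
        rw [if_pos hi, if_pos hmem, hi]
      · have hmem : S ∉ G.cliqueFinset (e i) := by
          rw [SimpleGraph.mem_cliqueFinset_iff, SimpleGraph.isNClique_iff]
          exact fun h => hi h.2.symm
        rw [if_neg hi, if_neg hmem, zero_mul]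
    · rw [if_neg hS, zero_mul]
      symm
      refine sum_eq_zero fun i _ => ?_
      have hmem : S ∉ G.cliqueFinset (e i) := by
        rw [SimpleGraph.mem_cliqueFinset_iff, SimpleGraph.isNClique_iff]
        exact fun h => hS h.1
      rw [if_neg hmem]
  simp_rw [h1]
  rw [sum_comm]
  refine sum_congr rfl fun i _ => ?_
  rw [← sum_filter, filter_mem_eq_inter, univ_inter, sum_const, nsmul_eq_mul,
    ← choose_fall N (e i) hN]
  have hch : ((N.choose (e i) : ℕ) : ℝ) ≠ 0 := by
    have := Nat.choose_pos (hNe i)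
    exact_mod_cast this.ne'
  field_simp

theorem cq_le {N : ℕ} (G : SimpleGraph (Fin N)) (r : ℕ) : cq G r ≤ N.choose r := by
  unfold cq
  calc (G.cliqueFinset r).card ≤ (powersetCard r (univ : Finset (Fin N))).card := by
        refine card_le_card fun S hS => ?_
        rw [SimpleGraph.mem_cliqueFinset_iff, SimpleGraph.isNClique_iff] at hS
        rw [mem_powersetCard]
        exact ⟨subset_univ _, hS.2⟩
    _ = N.choose r := by rw [card_powersetCard, card_univ, Fintype.card_fin]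

theorem hard {m : ℕ} (e : Fin m → ℕ) (he : ∀ i, 0 < e i) (x : Fin m → ℝ)
    (hx : ∀ n : ℕ, x ∈ convexHull ℝ (Dn e (n + ∑ i, e i))) :
    x ∈ convexHull ℝ (insert (1 : Fin m → ℝ) (Set.range (pt e))) := by
  by_contra hcon
  have hcomp : IsCompact (convexHull ℝ (insert (1 : Fin m → ℝ) (Set.range (pt e)))) :=
    Pool.Agent.V11147.compact_hull (tendsto_pt e).isCompact_insert_range
  obtain ⟨f, u, hfx, hfu⟩ := geometric_hahn_banach_point_closed (convex_convexHull ℝ _)
    hcomp.isClosed hcon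
  set c : Fin m → ℝ := fun i => f (Pi.single i 1) with hc
  have hf : ∀ y : Fin m → ℝ, f y = ∑ i, y i * c i := by
    intro y
    have h1 : y = ∑ i, y i • (Pi.single i (1 : ℝ) : Fin m → ℝ) := by
      funext j
      rw [Finset.sum_apply]
      simp [Pi.single_apply]
    conv_lhs => rw [h1]
    rw [map_sum]
    refine sum_congr rfl fun i _ => ?_
    rw [map_smul, smul_eq_mul]
  have hW : ∀ r : ℕ, 1 ≤ r →
      u ≤ ∑ k ∈ range (r + 1), (r.choose k : ℝ) * (W e c k * (1 / (r : ℝ)) ^ k) := by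
    intro r hr
    rw [W_sum e he c r hr, ← hf]
    exact (hfu _ (subset_convexHull ℝ _ (Set.mem_insert_of_mem _ ⟨r - 1, rfl⟩))).le
  -- the bound for every `n`
  have hbound : ∀ n : ℕ, u - ∑ i, |c i| *
      |1 - ∏ j ∈ range (e i), (1 - (j : ℝ) / (((n + 1) + ∑ i, e i : ℕ) : ℝ))| ≤ f x := by
    intro n
    set N : ℕ := (n + 1) + ∑ i, e i with hN
    have hNe : ∀ i, e i ≤ N := by
      intro i
      have : e i ≤ ∑ i, e i := single_le_sum (fun i _ => Nat.zero_le _) (mem_univ i)
      omega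
    have hN1 : 1 ≤ N := by omega
    obtain ⟨G, hG⟩ : ∃ G : SimpleGraph (Fin N),
        f (fun i => ((cq G (e i) : ℕ) : ℝ) / ((Nat.choose N (e i) : ℕ) : ℝ)) ≤ f x := by
      by_contra hno
      push Not at hno
      have hsub : Dn e N ⊆ {y | f x < f y} := by
        rintro y ⟨G, rfl⟩
        exact hno G
      have hconv : Convex ℝ {y : Fin m → ℝ | f x < f y} :=
        convex_halfSpace_gt (f : (Fin m → ℝ) →ₗ[ℝ] ℝ).isLinear (f x)
      have hmem : x ∈ {y : Fin m → ℝ | f x < f y} := convexHull_min hsub hconv (hx (n + 1))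
      exact lt_irrefl (f x) hmem
    have hsimp : (fun _ : Fin N => 1 / (N : ℝ)) ∈ stdSimplex ℝ (Fin N) := by
      refine ⟨fun _ => by positivity, ?_⟩
      rw [sum_const, card_univ, Fintype.card_fin, nsmul_eq_mul]
      have : (N : ℝ) ≠ 0 := by
        have : (0 : ℝ) < (N : ℝ) := by exact_mod_cast hN1
        exact this.ne'
      field_simp
    have hMS := Pool.Agent.V11147.MS.main G (W e c) u hW _ hsimp
    rw [P_uniform e c N hN1 hNe G] at hMS
    rw [hf] at hG
    have hdiff : ∑ i, (∏ j ∈ range (e i), (1 - (j : ℝ) / (N : ℝ))) *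
        (((cq G (e i) : ℕ) : ℝ) / ((Nat.choose N (e i) : ℕ) : ℝ)) * c i ≤
        ∑ i, ((cq G (e i) : ℕ) : ℝ) / ((Nat.choose N (e i) : ℕ) : ℝ) * c i +
        ∑ i, |c i| * |1 - ∏ j ∈ range (e i), (1 - (j : ℝ) / (N : ℝ))| := by
      rw [← sum_add_distrib]
      refine sum_le_sum fun i _ => ?_
      set ρ := ∏ j ∈ range (e i), (1 - (j : ℝ) / (N : ℝ))
      have hd0 : 0 ≤ ((cq G (e i) : ℕ) : ℝ) / ((Nat.choose N (e i) : ℕ) : ℝ) := by positivity
      have hd1 : ((cq G (e i) : ℕ) : ℝ) / ((Nat.choose N (e i) : ℕ) : ℝ) ≤ 1 := by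
        have h1 : 0 < N.choose (e i) := Nat.choose_pos (hNe i)
        have h2 : (0 : ℝ) < ((Nat.choose N (e i) : ℕ) : ℝ) := by exact_mod_cast h1
        rw [div_le_one h2]
        exact_mod_cast cq_le G (e i)
      generalize ((cq G (e i) : ℕ) : ℝ) / ((Nat.choose N (e i) : ℕ) : ℝ) = d at hd0 hd1
      have h3 : ρ * d * c i - d * c i ≤ |c i| * |1 - ρ| := by
        have h4 : ρ * d * c i - d * c i = -(d * (c i * (1 - ρ))) := by ring
        rw [h4, ← abs_mul]
        have h5 : -(c i * (1 - ρ)) ≤ |c i * (1 - ρ)| := neg_le_abs _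
        have h6 : 0 ≤ |c i * (1 - ρ)| := abs_nonneg _
        calc -(d * (c i * (1 - ρ))) = d * (-(c i * (1 - ρ))) := by ring
          _ ≤ d * |c i * (1 - ρ)| := mul_le_mul_of_nonneg_left h5 hd0
          _ ≤ 1 * |c i * (1 - ρ)| := mul_le_mul_of_nonneg_right hd1 h6
          _ = _ := one_mul _
      linarith
    linarith
  have hlim : Filter.Tendsto (fun n : ℕ => u - ∑ i, |c i| *
      |1 - ∏ j ∈ range (e i), (1 - (j : ℝ) / (((n + 1) + ∑ i, e i : ℕ) : ℝ))|)
      Filter.atTop (nhds (u - ∑ i : Fin m, |c i| * |1 - (1 : ℝ)|)) := by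
    refine Filter.Tendsto.const_sub u ?_
    refine tendsto_finsetSum _ fun i _ => ?_
    refine Filter.Tendsto.const_mul _ ?_
    refine Filter.Tendsto.abs ?_
    refine Filter.Tendsto.const_sub 1 ?_
    have h1 := tendsto_rho (e i) (1 + ∑ i, e i)
    refine h1.congr fun n => ?_
    rw [show n + (1 + ∑ i, e i) = n + 1 + ∑ i, e i by ring]
  have h1 := le_of_tendsto' hlim hbound
  simp only [sub_self, abs_zero, mul_zero, sum_const_zero, sub_zero] at h1
  linarith

end Pool.Agent.S10143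

namespace Pool.Agent.S10143

/-- For 0<e_1<…<e_m, take the convex hull of the e_i-clique density vectors (cliques over binom(n,e_i)) of all n-vertex graphs, and intersect over n≥Σe_i. This equals the hull of the all-ones vector and the points (∏_{j<e_i}(1−j/k))_i for k≥1. -/
theorem result :
    ∀ (m : ℕ) (e : Fin m → ℕ), (∀ i, 0 < e i) → StrictMono e →
      (⋂ n : ℕ, convexHull ℝ
          { x : Fin m → ℝ | ∃ G : SimpleGraph (Fin (n + ∑ i, e i)),
              x = fun i => ((G.cliqueFinset (e i)).card : ℝ) /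
                ((Nat.choose (n + ∑ i, e i) (e i) : ℕ) : ℝ) })
        = convexHull ℝ (insert (1 : Fin m → ℝ)
            (Set.range fun k : ℕ => fun i : Fin m =>
              ∏ j ∈ Finset.Ico 1 (e i), (1 - (j : ℝ) / ((k : ℝ) + 1)))) := by
  intro m e he _
  have hN : ∀ n i, e i ≤ n + ∑ i, e i := by
    intro n i
    have : e i ≤ ∑ i, e i := Finset.single_le_sum (fun i _ => Nat.zero_le _) (Finset.mem_univ i)
    omega
  refine Set.Subset.antisymm ?_ ?_
  · intro x hx
    rw [Set.mem_iInter] at hx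
    exact hard e he x hx
  · intro x hx
    rw [Set.mem_iInter]
    intro n
    have hsub : (insert (1 : Fin m → ℝ) (Set.range (pt e))) ⊆
        convexHull ℝ (Dn e (n + ∑ i, e i)) := by
      intro y hy
      rcases hy with rfl | ⟨k, rfl⟩
      · exact subset_convexHull ℝ _ (one_mem e _ (hN n))
      · exact pt_mem e he _ (hN n) k
    exact convexHull_min hsub (convex_convexHull ℝ _) hx

end Pool.Agent.S10143
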