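import Pool.Statements.S10153
-- import your own Pool.Agent.* helpers here

set_option autoImplicit false
open Pool Pool.MP_91f506_co

namespace Pool.Agent.S10153

open Finset

section Aux

variable {V : Type} [Fintype V] [DecidableEq V] (N : V → Finset V)

/-- `A` is a proper 2-colouring of the hyperedges `N v`, `v ∈ F`. -/
def Col (F A : Finset V) : Prop := ∀ v ∈ F, (∃ u ∈ N v, u ∈ A) ∧ (∃ u ∈ N v, u ∉ A)

/-- `T` meets every hyperedge `N v`, `v ∈ F`. -/
def Hit (F T : Finset V) : Prop := ∀ v ∈ F, ∃ u ∈ N v, u ∈ T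

/-- A uniform distribution on transversals with all marginals at most `1/2`. -/
def Good (F : Finset V) : Prop :=
  ∃ (ι : Type) (_ : Fintype ι) (_ : Nonempty ι) (f : ι → Finset V),
    (∀ i, Hit N F (f i)) ∧ ∀ x, 2 * (univ.filter (fun i => x ∈ f i)).card ≤ Fintype.card ι

lemma good_of_col (F A : Finset V) (h : Col N F A) : Good N F := by
  refine ⟨Bool, inferInstance, inferInstance, fun b => if b then A else univ \ A, ?_, ?_⟩
  · intro i v hv
    obtain ⟨⟨u, hu, hu'⟩, ⟨w, hw, hw'⟩⟩ := h v hv
    cases i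
    · exact ⟨w, hw, by simpa using hw'⟩
    · exact ⟨u, hu, by simpa using hu'⟩
  · intro x
    have : (univ.filter (fun i : Bool => x ∈ (if i = true then A else univ \ A))).card ≤ 1 := by
      rw [Finset.card_le_one]
      intro a ha b hb
      rw [Finset.mem_filter] at ha hb
      cases a <;> cases b <;> simp_all
    simp only [Fintype.card_bool]
    omega

lemma good_combine (F F' U : Finset V) (h1 : ∀ v ∈ F', N v ⊆ U)
    (h2 : ∀ v ∈ F \ F', Disjoint (N v) U) (g1 : Good N F') (g2 : Good N (F \ F')) : Good N F := by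
  obtain ⟨ι, i1, i2, f, hf, cf⟩ := g1
  obtain ⟨κ, k1, k2, g, hg, cg⟩ := g2
  refine ⟨ι × κ, inferInstance, inferInstance, fun p => (f p.1 ∩ U) ∪ (g p.2 \ U), ?_, ?_⟩
  · rintro ⟨i, j⟩ v hv
    by_cases hv' : v ∈ F'
    · obtain ⟨u, hu, hu'⟩ := hf i v hv'
      refine ⟨u, hu, ?_⟩
      simp only [Finset.mem_union, Finset.mem_inter]
      exact Or.inl ⟨hu', h1 v hv' hu⟩
    · have hv2 : v ∈ F \ F' := by simp [hv, hv']
      obtain ⟨u, hu, hu'⟩ := hg j v hv2
      refine ⟨u, hu, ?_⟩
      have := Finset.disjoint_left.mp (h2 v hv2) hu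
      simp only [Finset.mem_union, Finset.mem_sdiff]
      exact Or.inr ⟨hu', this⟩
  · intro x
    rw [Fintype.card_prod]
    by_cases hx : x ∈ U
    · have e : (univ.filter (fun p : ι × κ => x ∈ (f p.1 ∩ U) ∪ (g p.2 \ U))) =
          (univ.filter (fun i => x ∈ f i)) ×ˢ (univ : Finset κ) := by
        ext ⟨i, j⟩
        simp [hx]
      rw [e, Finset.card_product, Finset.card_univ, ← mul_assoc]
      exact Nat.mul_le_mul_right _ (cf x)
    · have e : (univ.filter (fun p : ι × κ => x ∈ (f p.1 ∩ U) ∪ (g p.2 \ U))) =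
          (univ : Finset ι) ×ˢ (univ.filter (fun j => x ∈ g j)) := by
        ext ⟨i, j⟩
        simp [hx]
      rw [e, Finset.card_product, Finset.card_univ]
      have := cg x
      nlinarith

/-- Linear-algebra bound: a minimal non-2-colourable family has at least as many hyperedges as
vertices. -/
lemma card_ge (F : Finset V) (hno : ¬ ∃ A, Col N F A) (hmin : ∀ F' ⊂ F, ∃ A, Col N F' A) :
    (F.biUnion N).card ≤ F.card := by
  by_contra hcon
  push Not at hcon
  let U := F.biUnion N
  let M : (U → ℝ) →ₗ[ℝ] (F → ℝ) :=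
    { toFun := fun u v => ∑ x : U, if (x : V) ∈ N v then u x else 0
      map_add' := by
        intro a b
        ext v
        simp only [Pi.add_apply]
        rw [← Finset.sum_add_distrib]
        refine Finset.sum_congr rfl (fun x _ => ?_)
        split_ifs <;> simp
      map_smul' := by
        intro c a
        ext v
        simp only [Pi.smul_apply, smul_eq_mul, RingHom.id_apply]
        rw [Finset.mul_sum]
        refine Finset.sum_congr rfl (fun x _ => ?_)
        split_ifs <;> simp }
  have hfr : Module.finrank ℝ (F → ℝ) < Module.finrank ℝ (U → ℝ) := by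
    rw [Module.finrank_fintype_fun_eq_card, Module.finrank_fintype_fun_eq_card,
      Fintype.card_coe, Fintype.card_coe]
    exact hcon
  have hker := LinearMap.ker_ne_bot_of_finrank_lt (f := M) hfr
  obtain ⟨u, hu, hu0⟩ := (Submodule.ne_bot_iff _).mp hker
  rw [LinearMap.mem_ker] at hu
  have hsum : ∀ v ∈ F, ∑ x : U, (if (x : V) ∈ N v then u x else 0) = 0 := by
    intro v hv
    have := congrFun hu ⟨v, hv⟩
    simpa [M] using this
  -- extend by zero
  let w : V → ℝ := fun x => if h : x ∈ U then u ⟨x, h⟩ else 0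
  have hw : ∀ v ∈ F, ∑ x ∈ N v, w x = 0 := by
    intro v hv
    have hsub : N v ⊆ U := Finset.subset_biUnion_of_mem N hv
    rw [← hsum v hv]
    rw [Finset.univ_eq_attach, ← Finset.sum_filter]
    symm
    refine Finset.sum_bij (fun (x : U) _ => (x : V)) ?_ ?_ ?_ ?_
    · intro x hx
      exact (Finset.mem_filter.mp hx).2
    · intro a _ b _ h
      exact Subtype.ext h
    · intro b hb
      exact ⟨⟨b, hsub hb⟩, Finset.mem_filter.mpr ⟨Finset.mem_attach _ _, hb⟩, rfl⟩
    · intro x _
      simp [w]
  obtain ⟨x0, hx0⟩ : ∃ x : U, u x ≠ 0 := by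
    by_contra h
    push Not at h
    exact hu0 (funext h)
  obtain ⟨v0, hv0, hxv0⟩ := Finset.mem_biUnion.mp x0.2
  have hwx0 : w x0 ≠ 0 := by simpa [w] using hx0
  let F'' := F.filter (fun v => ∀ x ∈ N v, w x = 0)
  have hss : F'' ⊂ F := by
    rw [Finset.ssubset_iff_of_subset (Finset.filter_subset _ _)]
    exact ⟨v0, hv0, fun h => hwx0 ((Finset.mem_filter.mp h).2 _ hxv0)⟩
  obtain ⟨A, hA⟩ := hmin F'' hss
  apply hno
  refine ⟨univ.filter (fun x => 0 < w x ∨ (w x = 0 ∧ x ∈ A)), ?_⟩
  intro v hv
  by_cases hz : ∀ x ∈ N v, w x = 0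
  · obtain ⟨⟨a, ha, ha'⟩, ⟨b, hb, hb'⟩⟩ := hA v (Finset.mem_filter.mpr ⟨hv, hz⟩)
    refine ⟨⟨a, ha, ?_⟩, ⟨b, hb, ?_⟩⟩
    · simp [hz a ha, ha']
    · simp [hz b hb, hb']
  · push Not at hz
    obtain ⟨y, hy, hy0⟩ := hz
    have hs := hw v hv
    have hpos : ∃ a ∈ N v, 0 < w a := by
      by_contra hc
      push Not at hc
      have := (Finset.sum_eq_zero_iff_of_nonpos hc).mp hs y hy
      exact hy0 this
    have hneg : ∃ b ∈ N v, w b < 0 := by
      by_contra hc
      push Not at hc
      have := (Finset.sum_eq_zero_iff_of_nonneg hc).mp hs y hy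
      exact hy0 this
    obtain ⟨a, ha, ha'⟩ := hpos
    obtain ⟨b, hb, hb'⟩ := hneg
    refine ⟨⟨a, ha, ?_⟩, ⟨b, hb, ?_⟩⟩
    · simp [ha']
    · simp only [Finset.mem_filter, Finset.mem_univ, true_and, not_or, not_and]
      exact ⟨not_lt.mpr hb'.le, fun h => absurd h hb'.ne⟩

/-- Flip the colour of `z`. -/
def flip (A : Finset V) (z : V) : Finset V := univ.filter (fun u => ¬ ((u ∈ A) ↔ (u = z)))

lemma mem_flip (A : Finset V) (z u : V) : u ∈ flip A z ↔ ¬ ((u ∈ A) ↔ (u = z)) := by
  simp [flip]

lemma exists_single (S A : Finset V) (h3 : S.card = 3) (h1 : ∃ u ∈ S, u ∈ A)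
    (h2 : ∃ u ∈ S, u ∉ A) :
    ∃ s : V, ∀ z, z ≠ s → (∃ u ∈ S, u ∈ flip A z) ∧ (∃ u ∈ S, u ∉ flip A z) := by
  obtain ⟨a, b, c, hab, hac, hbc, rfl⟩ := Finset.card_eq_three.mp h3
  have hba : b ≠ a := hab.symm
  have hca : c ≠ a := hac.symm
  have hcb : c ≠ b := hbc.symm
  simp only [Finset.mem_insert, Finset.mem_singleton, exists_eq_or_imp, exists_eq_left, mem_flip] at *
  by_cases ha : a ∈ A <;> by_cases hb : b ∈ A <;> by_cases hc : c ∈ A
  · simp_all
  · refine ⟨c, fun z hz => ?_⟩
    by_cases h : a = z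
    · subst h; simp_all
    · simp_all
      tauto
  · refine ⟨b, fun z hz => ?_⟩
    by_cases h : a = z
    · subst h; simp_all
    · simp_all
      tauto
  · refine ⟨a, fun z hz => ?_⟩
    by_cases h : b = z
    · subst h; simp_all
    · simp_all
      tauto
  · refine ⟨a, fun z hz => ?_⟩
    by_cases h : b = z
    · subst h; simp_all
    · simp_all
      tauto
  · refine ⟨b, fun z hz => ?_⟩
    by_cases h : a = z
    · subst h; simp_all
    · simp_all
      tauto
  · refine ⟨c, fun z hz => ?_⟩
    by_cases h : a = z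
    · subst h; simp_all
    · simp_all
      tauto
  · simp_all

/-- The step lemma for a minimal non-2-colourable family. -/
lemma step (hN : ∀ v, (N v).card = 3) (F : Finset V) (hno : ¬ ∃ A, Col N F A)
    (hmin : ∀ F' ⊂ F, ∃ A, Col N F' A) (hcard : F.card ≤ (F.biUnion N).card)
    (x : V) (hx : x ∈ F.biUnion N) :
    ∃ z ∈ F.biUnion N, ∃ T1 T2 : Finset V, Hit N F T1 ∧ Hit N F T2 ∧
      ∀ y, ((if y ∈ T1 then 1 else 0) + (if y ∈ T2 then 1 else 0) + (if y = z then 1 else 0) : ℤ) =
        1 + (if y = x then 1 else 0) := by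
  obtain ⟨e, he, hxe⟩ := Finset.mem_biUnion.mp hx
  obtain ⟨A0, hA0⟩ := hmin (F.erase e) (Finset.erase_ssubset he)
  -- normalise so that `N e ⊆ A`
  have hA : ∃ A, Col N (F.erase e) A ∧ N e ⊆ A := by
    by_cases h : ∃ u ∈ N e, u ∈ A0
    · by_cases h' : ∃ u ∈ N e, u ∉ A0
      · exact absurd ⟨A0, fun v hv => by
          by_cases hve : v = e
          · rw [hve]; exact ⟨h, h'⟩
          · exact hA0 v (Finset.mem_erase.mpr ⟨hve, hv⟩)⟩ hno
      · push Not at h'
        exact ⟨A0, hA0, h'⟩
    · push Not at h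
      refine ⟨univ \ A0, fun v hv => ?_, fun u hu => by simpa using h u hu⟩
      obtain ⟨⟨a, ha, ha'⟩, ⟨b, hb, hb'⟩⟩ := hA0 v hv
      exact ⟨⟨b, hb, by simpa using hb'⟩, ⟨a, ha, by simpa using ha'⟩⟩
  obtain ⟨A, hcol, heA⟩ := hA
  have hs : ∀ f : V, ∃ s : V, f ∈ F.erase e → ∀ z, z ≠ s →
      (∃ u ∈ N f, u ∈ flip A z) ∧ (∃ u ∈ N f, u ∉ flip A z) := by
    intro f
    by_cases hf : f ∈ F.erase e
    · obtain ⟨s, hs⟩ := exists_single (N f) A (hN f) (hcol f hf).1 (hcol f hf).2
      exact ⟨s, fun _ => hs⟩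
    · exact ⟨x, fun h => absurd h hf⟩
  choose s hs using hs
  have hlt : ((F.erase e).image s).card < (F.biUnion N).card := by
    calc ((F.erase e).image s).card ≤ (F.erase e).card := Finset.card_image_le
      _ < F.card := Finset.card_erase_lt_of_mem he
      _ ≤ _ := hcard
  obtain ⟨z, hzU, hz⟩ := Finset.exists_mem_notMem_of_card_lt_card hlt
  have hflip : Col N (F.erase e) (flip A z) := by
    intro f hf
    exact hs f hf z (fun h => hz (Finset.mem_image.mpr ⟨f, hf, h.symm⟩))
  have hze : z ∉ N e := by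
    intro hze
    apply hno
    refine ⟨flip A z, fun v hv => ?_⟩
    by_cases hve : v = e
    · rw [hve]
      refine ⟨?_, ⟨z, hze, by rw [mem_flip]; simp [heA hze]⟩⟩
      have : ∃ u ∈ N e, u ≠ z := by
        by_contra hcon
        push Not at hcon
        have : (N e).card ≤ 1 := Finset.card_le_one.mpr (fun a ha b hb =>
          (hcon a ha).trans (hcon b hb).symm)
        rw [hN e] at this
        omega
      obtain ⟨u, hu, huz⟩ := this
      exact ⟨u, hu, by rw [mem_flip]; simp [heA hu, huz]⟩
    · exact hflip v (Finset.mem_erase.mpr ⟨hve, hv⟩)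
  have hxz : x ≠ z := fun h => hze (h ▸ hxe)
  have hxA : x ∈ A := heA hxe
  refine ⟨z, hzU, ?_⟩
  by_cases hzA : z ∈ A
  · refine ⟨A.erase z, insert x (univ \ A), ?_, ?_, ?_⟩
    · intro v hv
      by_cases hve : v = e
      · rw [hve]
        exact ⟨x, hxe, Finset.mem_erase.mpr ⟨hxz, hxA⟩⟩
      · obtain ⟨u, hu, hu'⟩ := (hflip v (Finset.mem_erase.mpr ⟨hve, hv⟩)).1
        refine ⟨u, hu, ?_⟩
        rw [mem_flip] at hu'
        rw [Finset.mem_erase]
        by_cases huz : u = z
        · exact absurd (by rw [huz]; simp [hzA]) hu'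
        · refine ⟨huz, ?_⟩
          by_contra h
          exact hu' (by simp [h, huz])
    · intro v hv
      by_cases hve : v = e
      · rw [hve]
        exact ⟨x, hxe, Finset.mem_insert_self _ _⟩
      · obtain ⟨u, hu, hu'⟩ := (hcol v (Finset.mem_erase.mpr ⟨hve, hv⟩)).2
        exact ⟨u, hu, by simp [hu']⟩
    · intro y
      by_cases h1 : y = z
      · subst h1
        simp [hzA, hxz.symm]
      · by_cases h2 : y = x
        · subst h2
          simp [hxz, hxA]
        · by_cases h3 : y ∈ A
          · simp [h1, h2, h3]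
          · simp [h1, h2, h3]
  · refine ⟨A, insert x ((univ \ A).erase z), ?_, ?_, ?_⟩
    · intro v hv
      by_cases hve : v = e
      · rw [hve]
        exact ⟨x, hxe, hxA⟩
      · exact (hcol v (Finset.mem_erase.mpr ⟨hve, hv⟩)).1
    · intro v hv
      by_cases hve : v = e
      · rw [hve]
        exact ⟨x, hxe, Finset.mem_insert_self _ _⟩
      · obtain ⟨u, hu, hu'⟩ := (hflip v (Finset.mem_erase.mpr ⟨hve, hv⟩)).2
        refine ⟨u, hu, ?_⟩
        rw [mem_flip, not_not] at hu'
        by_cases huz : u = z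
        · exact absurd (hu'.mpr huz) (by rw [huz]; exact hzA)
        · have huA : u ∉ A := fun h => huz (hu'.mp h)
          simp [huz, huA]
    · intro y
      by_cases h1 : y = z
      · subst h1
        simp [hzA, hxz.symm]
      · by_cases h2 : y = x
        · subst h2
          simp [hxz, hxA]
        · by_cases h3 : y ∈ A
          · simp [h1, h2, h3]
          · simp [h1, h2, h3]

/-- A minimal non-2-colourable family is good. -/
lemma good_min (hN : ∀ v, (N v).card = 3) (F : Finset V) (hno : ¬ ∃ A, Col N F A)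
    (hmin : ∀ F' ⊂ F, ∃ A, Col N F' A) (hcard : F.card ≤ (F.biUnion N).card) : Good N F := by
  classical
  have hFne : F.Nonempty := by
    rw [Finset.nonempty_iff_ne_empty]
    rintro rfl
    exact hno ⟨∅, fun v hv => absurd hv (Finset.notMem_empty v)⟩
  obtain ⟨e, he⟩ := hFne
  have hne : (N e).Nonempty := by
    rw [← Finset.card_pos, hN e]; norm_num
  obtain ⟨x0, hx0⟩ := hne
  have hx0U : x0 ∈ F.biUnion N := Finset.mem_biUnion.mpr ⟨e, he, hx0⟩
  have key := step N hN F hno hmin hcard
  let W := {x : V // x ∈ F.biUnion N}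
  have key' : ∀ x : W, ∃ z : W, ∃ T1 T2 : Finset V, Hit N F T1 ∧ Hit N F T2 ∧
      ∀ y, ((if y ∈ T1 then 1 else 0) + (if y ∈ T2 then 1 else 0) +
        (if y = z.1 then 1 else 0) : ℤ) = 1 + (if y = x.1 then 1 else 0) := by
    intro x
    obtain ⟨z, hz, T1, T2, h⟩ := key x.1 x.2
    exact ⟨⟨z, hz⟩, T1, T2, h⟩
  choose σ T1 T2 h1 h2 h3 using key'
  let seq : ℕ → W := fun t => σ^[t] ⟨x0, hx0U⟩
  have hseq : ∀ t, seq (t + 1) = σ (seq t) := fun t => Function.iterate_succ_apply' σ t _
  obtain ⟨i, j, hij, hijeq⟩ : ∃ i j, i < j ∧ seq i = seq j := by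
    obtain ⟨i, j, hne, heq⟩ := Finite.exists_ne_map_eq_of_infinite seq
    rcases lt_or_gt_of_ne hne with h | h
    · exact ⟨i, j, h, heq⟩
    · exact ⟨j, i, h, heq.symm⟩
  obtain ⟨m, rfl⟩ : ∃ m, j = i + m := ⟨j - i, by omega⟩
  have hm : 0 < m := by omega
  have : Nonempty (Fin m × Bool) := ⟨(⟨0, hm⟩, true)⟩
  refine ⟨Fin m × Bool, inferInstance, this,
    fun p => if p.2 then T1 (seq (i + p.1)) else T2 (seq (i + p.1)), ?_, ?_⟩
  · rintro ⟨t, b⟩
    cases b
    · exact h2 _
    · exact h1 _
  · intro y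
    have hcount : ((univ.filter (fun p : Fin m × Bool => y ∈
        (if p.2 then T1 (seq (i + p.1)) else T2 (seq (i + p.1))))).card : ℤ) = m := by
      rw [Finset.card_filter]
      push_cast
      rw [Fintype.sum_prod_type]
      simp only [Fintype.sum_bool, if_true, Bool.false_eq_true, if_false]
      have hterm : ∀ t : Fin m, ((if y ∈ T1 (seq (i + t)) then (1 : ℤ) else 0) +
          (if y ∈ T2 (seq (i + t)) then (1 : ℤ) else 0)) =
          1 - ((if y = (seq (i + (t + 1))).1 then (1 : ℤ) else 0) -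
            (if y = (seq (i + t)).1 then (1 : ℤ) else 0)) := by
        intro t
        have := h3 (seq (i + t)) y
        have e : seq (i + (t + 1)) = σ (seq (i + t)) := hseq (i + t)
        rw [e]
        linarith
      rw [Finset.sum_congr rfl (fun t _ => hterm t), Finset.sum_sub_distrib,
        Fin.sum_univ_eq_sum_range (fun t => ((if y = (seq (i + (t + 1))).1 then (1 : ℤ) else 0) -
            (if y = (seq (i + t)).1 then (1 : ℤ) else 0))) m,
        Finset.sum_range_sub (fun t => (if y = (seq (i + t)).1 then (1 : ℤ) else 0)) m]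
      simp only [add_zero]
      rw [← hijeq]
      simp
    have hc : (univ.filter (fun p : Fin m × Bool => y ∈
        (if p.2 then T1 (seq (i + p.1)) else T2 (seq (i + p.1))))).card = m := by
      exact_mod_cast hcount
    rw [hc, Fintype.card_prod, Fintype.card_fin, Fintype.card_bool]
    omega

/-- Every family of hyperedges of a 3-uniform hypergraph of maximum degree 3 is good. -/
theorem good_all (hN : ∀ v, (N v).card = 3)
    (hD : ∀ x, (univ.filter (fun v => x ∈ N v)).card ≤ 3) : ∀ F : Finset V, Good N F := by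
  classical
  intro F
  induction F using Finset.strongInduction with
  | H F ih =>
    by_cases hcol : ∃ A, Col N F A
    · obtain ⟨A, hA⟩ := hcol
      exact good_of_col N F A hA
    · -- choose a minimal non-colourable subfamily
      have hS : (F.powerset.filter (fun F' => ¬ ∃ A, Col N F' A)).Nonempty :=
        ⟨F, Finset.mem_filter.mpr ⟨Finset.mem_powerset_self F, hcol⟩⟩
      obtain ⟨F', hF', hF'min⟩ := Finset.exists_min_image _ Finset.card hS
      rw [Finset.mem_filter, Finset.mem_powerset] at hF'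
      obtain ⟨hsub, hno⟩ := hF'
      have hmin : ∀ F'' ⊂ F', ∃ A, Col N F'' A := by
        intro F'' h
        by_contra hc
        have := hF'min F'' (Finset.mem_filter.mpr
          ⟨Finset.mem_powerset.mpr (h.subset.trans hsub), hc⟩)
        exact absurd (Finset.card_lt_card h) (not_lt.mpr this)
      have hge := card_ge N F' hno hmin
      -- double counting
      have hdc := Finset.sum_card_bipartiteAbove_eq_sum_card_bipartiteBelow
        (s := F') (t := F'.biUnion N) (fun v x => x ∈ N v)
      have hab : ∀ v ∈ F', ((F'.biUnion N).bipartiteAbove (fun v x => x ∈ N v) v).card = 3 := by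
        intro v hv
        have : (F'.biUnion N).bipartiteAbove (fun v x => x ∈ N v) v = N v := by
          ext x
          simp only [Finset.mem_bipartiteAbove]
          exact ⟨fun h => h.2, fun h => ⟨Finset.mem_biUnion.mpr ⟨v, hv, h⟩, h⟩⟩
        rw [this, hN v]
      rw [Finset.sum_congr rfl hab, Finset.sum_const, smul_eq_mul] at hdc
      have hbe : ∀ x ∈ F'.biUnion N, (F'.bipartiteBelow (fun v x => x ∈ N v) x).card ≤ 3 := by
        intro x _
        refine le_trans (Finset.card_le_card ?_) (hD x)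
        intro v hv
        rw [Finset.mem_bipartiteBelow] at hv
        exact Finset.mem_filter.mpr ⟨Finset.mem_univ _, hv.2⟩
      have hle : ∑ x ∈ F'.biUnion N, (F'.bipartiteBelow (fun v x => x ∈ N v) x).card ≤
          ∑ _x ∈ F'.biUnion N, 3 := Finset.sum_le_sum hbe
      have hle' := hle
      rw [Finset.sum_const, smul_eq_mul, ← hdc] at hle'
      have hcardeq : F'.card = (F'.biUnion N).card := by omega
      have hsumeq : ∑ x ∈ F'.biUnion N, (F'.bipartiteBelow (fun v x => x ∈ N v) x).card =
          ∑ _x ∈ F'.biUnion N, 3 := by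
        rw [← hdc, Finset.sum_const, smul_eq_mul, hcardeq]
      have heach := (Finset.sum_eq_sum_iff_of_le hbe).mp hsumeq
      refine good_combine N F F' (F'.biUnion N)
        (fun v hv => Finset.subset_biUnion_of_mem N hv) ?_ ?_ ?_
      · intro v hv
        rw [Finset.mem_sdiff] at hv
        rw [Finset.disjoint_left]
        intro x hxv hxU
        have h3 := heach x hxU
        have hlt : (F'.bipartiteBelow (fun v x => x ∈ N v) x).card <
            (univ.filter (fun v => x ∈ N v)).card := by
          apply Finset.card_lt_card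
          rw [Finset.ssubset_iff_of_subset]
          · exact ⟨v, Finset.mem_filter.mpr ⟨Finset.mem_univ _, hxv⟩, fun h =>
              hv.2 (Finset.mem_bipartiteBelow _ |>.mp h).1⟩
          · intro w hw
            rw [Finset.mem_bipartiteBelow] at hw
            exact Finset.mem_filter.mpr ⟨Finset.mem_univ _, hw.2⟩
        have := hD x
        omega
      · exact good_min N hN F' hno hmin hcardeq.le
      · apply ih
        refine Finset.sdiff_ssubset hsub ?_
        rw [Finset.nonempty_iff_ne_empty]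
        rintro rfl
        exact hno ⟨∅, fun v hv => absurd hv (Finset.notMem_empty v)⟩

end Aux

/-- Every finite cubic graph has a nonnegative weighting of its total dominating sets with each vertex in sets of total weight at most 1 and overall weight at least 2, i.e. fractional total domatic number at least 2. -/
theorem result :
    ∀ (V : Type) [Fintype V] [DecidableEq V] (G : SimpleGraph V) [DecidableRel G.Adj],
      G.IsRegularOfDegree 3 →
      ∃ w : Finset V → ℝ,
        (∀ S, 0 ≤ w S) ∧
        (∀ S, w S ≠ 0 → ∀ v : V, ∃ u ∈ S, G.Adj v u) ∧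
        (∀ v : V, ∑ S ∈ Finset.univ.filter (fun S : Finset V => v ∈ S), w S ≤ 1) ∧
        2 ≤ ∑ S, w S := by
  classical
  intro V _ _ G _ hG
  have hN : ∀ v, (G.neighborFinset v).card = 3 := fun v => hG v
  have hD : ∀ x, (univ.filter (fun v => x ∈ G.neighborFinset v)).card ≤ 3 := by
    intro x
    have : (univ.filter (fun v => x ∈ G.neighborFinset v)) = G.neighborFinset x := by
      ext v
      simp [SimpleGraph.adj_comm]
    rw [this, hN x]
  obtain ⟨ι, i1, i2, f, hf, cf⟩ := good_all (fun v => G.neighborFinset v) hN hD univ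
  have hι : (0 : ℝ) < Fintype.card ι := by exact_mod_cast Fintype.card_pos
  refine ⟨fun S => (2 / (Fintype.card ι : ℝ)) * ((univ.filter (fun i => f i = S)).card : ℝ),
    ?_, ?_, ?_, ?_⟩
  · intro S
    positivity
  · intro S hS v
    have hne : (univ.filter (fun i => f i = S)).Nonempty := by
      rw [← Finset.card_pos]
      by_contra h
      have h0 : (univ.filter (fun i => f i = S)).card = 0 := by omega
      exact hS (by simp [h0])
    obtain ⟨i, hi⟩ := hne
    obtain ⟨u, hu, hu'⟩ := hf i v (Finset.mem_univ v)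
    exact ⟨u, (Finset.mem_filter.mp hi).2 ▸ hu', by simpa using hu⟩
  · intro v
    rw [← Finset.mul_sum]
    have h1 := Finset.card_eq_sum_card_fiberwise (f := f) (s := univ.filter (fun i => v ∈ f i))
      (t := univ.filter (fun S : Finset V => v ∈ S)) (by
        intro i hi
        simpa using hi)
    have h2 : ∀ S ∈ univ.filter (fun S : Finset V => v ∈ S),
        ((univ.filter (fun i => v ∈ f i)).filter (fun i => f i = S)).card =
        (univ.filter (fun i => f i = S)).card := by
      intro S hS
      congr 1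
      ext i
      simp only [Finset.mem_filter, Finset.mem_univ, true_and] at hS ⊢
      exact ⟨fun h => h.2, fun h => ⟨h ▸ hS, h⟩⟩
    rw [Finset.sum_congr rfl h2] at h1
    have h3 := cf v
    rw [h1] at h3
    have h4 : (2 : ℝ) * ∑ S ∈ univ.filter (fun S : Finset V => v ∈ S),
        ((univ.filter (fun i => f i = S)).card : ℝ) ≤ Fintype.card ι := by exact_mod_cast h3
    rw [div_mul_eq_mul_div, div_le_one hι]
    exact h4
  · rw [← Finset.mul_sum]
    have h1 := Finset.card_eq_sum_card_fiberwise (f := f) (s := (univ : Finset ι))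
      (t := (univ : Finset (Finset V))) (fun i _ => Finset.mem_coe.mpr (Finset.mem_univ _))
    have h2 : ∑ S : Finset V, ((univ.filter (fun i => f i = S)).card : ℝ) = Fintype.card ι := by
      rw [← Finset.card_univ (α := ι), h1]
      push_cast
      rfl
    rw [h2, div_mul_cancel₀ _ hι.ne']

end Pool.Agent.S10153
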