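import Pool.Statements.S10180
import Pool.Agent.V11122.IrrTree

set_option autoImplicit false
open Pool Pool.MP_936c16_co

namespace Pool.Agent.S10180

open Pool.Agent.V11122.IrrTree in
/-- The negation of the preceding statement: For every tree with at least 3 vertices, if L is the ceiling of the max over i≤j≤Δ of (#vertices with degree in [i,j] + i − 1)/j, then irregularity strength is L or L+1. -/
theorem result :
    ¬ (∀ (V : Type) [Fintype V] [DecidableEq V] (G : SimpleGraph V) [DecidableRel G.Adj],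
    G.IsTree → 3 ≤ Fintype.card V →
    ∀ L : ℕ,
      ((∀ i j : ℕ, 1 ≤ i → i ≤ j → j ≤ G.maxDegree →
          ((Fintype.card {v : V // i ≤ G.degree v ∧ G.degree v ≤ j} : ℚ)
              + (i : ℚ) - 1) / (j : ℚ) ≤ (L : ℚ)) ∧
       (∃ i j : ℕ, 1 ≤ i ∧ i ≤ j ∧ j ≤ G.maxDegree ∧
          (L : ℚ) - 1 <
            ((Fintype.card {v : V // i ≤ G.degree v ∧ G.degree v ≤ j} : ℚ)
              + (i : ℚ) - 1) / (j : ℚ))) →
      (∃ w : V → V → ℕ,
          (∀ u v : V, G.Adj u v → 1 ≤ w u v ∧ w u v ≤ L + 1 ∧ w u v = w v u) ∧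
          Function.Injective (fun v : V => ∑ u ∈ G.neighborFinset v, w v u)) ∧
      (∀ k : ℕ, (∃ w : V → V → ℕ,
          (∀ u v : V, G.Adj u v → 1 ≤ w u v ∧ w u v ≤ k ∧ w u v = w v u) ∧
          Function.Injective (fun v : V => ∑ u ∈ G.neighborFinset v, w v u)) → L ≤ k)) := by
  intro h
  have c11 : ((Finset.univ : Finset (Fin 301)).filter
      (fun v => 1 ≤ dg v.val ∧ dg v.val ≤ 1)).card = 101 := by decide +kernel
  have c12 : ((Finset.univ : Finset (Fin 301)).filter
      (fun v => 1 ≤ dg v.val ∧ dg v.val ≤ 2)).card = 202 := by decide +kernel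
  have c13 : ((Finset.univ : Finset (Fin 301)).filter
      (fun v => 1 ≤ dg v.val ∧ dg v.val ≤ 3)).card = 301 := by decide +kernel
  have c22 : ((Finset.univ : Finset (Fin 301)).filter
      (fun v => 2 ≤ dg v.val ∧ dg v.val ≤ 2)).card = 101 := by decide +kernel
  have c23 : ((Finset.univ : Finset (Fin 301)).filter
      (fun v => 2 ≤ dg v.val ∧ dg v.val ≤ 3)).card = 200 := by decide +kernel
  have c33 : ((Finset.univ : Finset (Fin 301)).filter
      (fun v => 3 ≤ dg v.val ∧ dg v.val ≤ 3)).card = 99 := by decide +kernel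
  have key : ∀ w : Fin 301 → Fin 301 → ℕ,
      (∀ u v : Fin 301, T.Adj u v → 1 ≤ w u v ∧ w u v ≤ 101 + 1 ∧ w u v = w v u) →
      Function.Injective (fun v : Fin 301 => ∑ u ∈ T.neighborFinset v, w v u) → False :=
    fun w hw hinj => no_weight w hw hinj
  refine (fun hh => Exists.elim (And.left hh) fun w hw => key w hw.1 hw.2)
    (h (Fin 301) T isTree (by simp) 101 ⟨?_, ?_⟩)
  · intro i j h1 h2 h3
    have h4 := h3.trans maxDegree_le
    rw [card_deg]
    interval_cases j <;> interval_cases i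
    · rw [c11]; norm_num
    · rw [c12]; norm_num
    · rw [c22]; norm_num
    · rw [c13]; norm_num
    · rw [c23]; norm_num
    · rw [c33]; norm_num
  · have hd : 1 ≤ T.maxDegree := by
      have h2 := T.degree_le_maxDegree ⟨0, Nat.succ_pos _⟩
      rw [degree_eq] at h2
      exact le_trans (by decide) h2
    refine ⟨1, 1, le_rfl, le_rfl, hd, ?_⟩
    rw [card_deg, c11]
    norm_num

end Pool.Agent.S10180
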