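import Pool.Statements.S10281
import Pool.Agent.V11170.SemiBaxter

set_option autoImplicit false
open Pool Pool.MP_975621_co

namespace Pool.Agent.S10281

open Pool.Agent.V11170.SemiBaxter

theorem av_iff {n : ℕ} (σ : Equiv.Perm (Fin n)) :
    (∀ i j k l : Fin n, i < j → j < k → k < l →
          σ j < σ i → σ i < σ l → σ l < σ k →
          ∃ m : Fin n, j < m ∧ m < k ∧ σ i < σ m ∧ σ m < σ l) ↔ AvP n (exP σ) := by
  constructor
  · intro h a b d hab hbd hd
    rw [exP_of_lt σ (by omega : a < n), exP_of_lt σ (by omega : b < n), exP_of_lt σ hd,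
      exP_of_lt σ (by omega : b + 1 < n)]
    rintro ⟨h1, h2, h3⟩
    obtain ⟨m, hm1, hm2, _⟩ := h ⟨a, by omega⟩ ⟨b, by omega⟩ ⟨b + 1, by omega⟩ ⟨d, hd⟩ hab
      (Nat.lt_succ_self b) hbd h1 h2 h3
    have e1 : b < (m : ℕ) := hm1
    have e2 : (m : ℕ) < b + 1 := hm2
    omega
  · intro h i j k l hij hjk hkl h1 h2 h3
    by_contra hc
    push Not at hc
    have hinj := (isP_exP σ).2.1
    have e1 : exP σ j < exP σ i := by
      rw [exP_of_lt σ j.is_lt, exP_of_lt σ i.is_lt]
      exact h1
    have e2 : exP σ i < exP σ l := by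
      rw [exP_of_lt σ i.is_lt, exP_of_lt σ l.is_lt]
      exact h2
    have e3 : exP σ l < exP σ k := by
      rw [exP_of_lt σ l.is_lt, exP_of_lt σ k.is_lt]
      exact h3
    have key : ∀ t, (j : ℕ) ≤ t → t ≤ k → exP σ t < exP σ i := by
      intro t ht
      induction t, ht using Nat.le_induction with
      | base => exact fun _ => e1
      | succ t ht ih =>
        intro htk
        have h4 := ih (by omega)
        by_contra h5
        have hl := l.is_lt
        have hij' : (i : ℕ) < j := hij
        have hkl' : (k : ℕ) < l := hkl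
        have h6 : exP σ (t + 1) ≠ exP σ i := fun h => by
          have := hinj _ _ (by omega) i.is_lt h
          omega
        have h7 : exP σ (t + 1) ≠ exP σ l := fun h => by
          have := hinj _ _ (by omega) l.is_lt h
          omega
        have h8 : exP σ l < exP σ (t + 1) := by
          by_cases h9 : t + 1 = k
          · rw [h9]
            exact e3
          · by_contra h10
            have htn : t + 1 < n := by omega
            have h11 : σ i < σ ⟨t + 1, htn⟩ := by
              show ((σ i : Fin n) : ℕ) < σ ⟨t + 1, htn⟩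
              rw [← exP_of_lt σ htn, ← exP_of_lt σ i.is_lt]
              omega
            have h12 := hc ⟨t + 1, htn⟩ (show (j : ℕ) < t + 1 by omega)
              (show t + 1 < (k : ℕ) by omega) h11
            have h13 : ((σ l : Fin n) : ℕ) ≤ σ ⟨t + 1, htn⟩ := h12
            rw [← exP_of_lt σ htn, ← exP_of_lt σ l.is_lt] at h13
            omega
        exact h i t l (by omega) (by omega) hl ⟨h4, e2, h8⟩
    have := key k hjk.le le_rfl
    omega

theorem card_left (n : ℕ) : Nat.card {σ : Equiv.Perm (Fin (n + 1)) //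
        ∀ i j k l : Fin (n + 1), i < j → j < k → k < l →
          σ j < σ i → σ i < σ l → σ l < σ k →
          ∃ m : Fin (n + 1), j < m ∧ m < k ∧ σ i < σ m ∧ σ m < σ l} =
    SB n (fun _ _ => 1) := by
  classical
  rw [← card_P, Nat.card_eq_fintype_card, Fintype.card_subtype]
  congr 1
  ext σ
  simp only [Finset.mem_filter, Finset.mem_univ, true_and]
  exact av_iff σ

theorem card_right (n : ℕ) : Nat.card {e : Fin (n + 1) → Fin (n + 1) //
        (∀ i : Fin (n + 1), (e i).val ≤ i.val) ∧
        ∀ i j k : Fin (n + 1), i < j → j < k →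
          ¬ (e i = e k ∧ e j < e i) ∧ ¬ (e j < e k ∧ e k < e i)} =
    SB n (fun _ _ => 1) := by
  classical
  rw [← card_I, Nat.card_eq_fintype_card, Fintype.card_subtype]
  apply Finset.card_bij' (fun e _ => fun i => ((e i : Fin (n + 1)) : ℕ))
    (fun e _ => fun i => if h : e i < n + 1 then ⟨e i, h⟩ else 0)
  · intro e he
    rw [Finset.mem_filter] at he
    obtain ⟨_, h1, h2⟩ := he
    rw [Finset.mem_filter, mem_T]
    refine ⟨h1, fun i j k hij hjk hk => ?_⟩
    rw [ex_of_lt _ (by omega : i < n + 1), ex_of_lt _ (by omega : j < n + 1), ex_of_lt _ hk]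
    rintro ⟨h3, h4⟩
    obtain ⟨h5, h6⟩ := h2 ⟨i, by omega⟩ ⟨j, by omega⟩ ⟨k, hk⟩ hij hjk
    rcases Nat.lt_or_eq_of_le h4 with h7 | h7
    · exact h6 ⟨h3, h7⟩
    · apply h5
      have h8 : e ⟨i, by omega⟩ = e ⟨k, hk⟩ := Fin.ext h7.symm
      refine ⟨h8, ?_⟩
      rw [h8]
      exact h3
  · intro e he
    rw [Finset.mem_filter, mem_T] at he
    obtain ⟨h1, h2⟩ := he
    have hb : ∀ i : Fin (n + 1), e i < n + 1 := fun i => lt_of_le_of_lt (h1 i) i.is_lt
    rw [Finset.mem_filter]
    refine ⟨Finset.mem_univ _, fun i => ?_, fun i j k hij hjk => ?_⟩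
    · simp only [dif_pos (hb i)]
      exact h1 i
    · simp only [dif_pos (hb i), dif_pos (hb j), dif_pos (hb k)]
      have h3 := h2 i j k hij hjk k.is_lt
      rw [ex_apply, ex_apply, ex_apply] at h3
      constructor
      · rintro ⟨h4, h5⟩
        have h6 : e i = e k := congrArg Fin.val h4
        have h7 : e j < e i := h5
        apply h3
        omega
      · rintro ⟨h4, h5⟩
        have h6 : e j < e k := h4
        have h7 : e k < e i := h5
        apply h3
        omega
  · intro e _
    funext i
    have hb : ((e i : Fin (n + 1)) : ℕ) < n + 1 := (e i).is_lt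
    simp only [dif_pos hb]
  · intro e he
    rw [Finset.mem_filter, mem_T] at he
    funext i
    have hb : e i < n + 1 := lt_of_le_of_lt (he.1 i) i.is_lt
    simp only [dif_pos hb]


/-- For every n, the number of permutations of length n in which every 2154 occurrence extends to a 21354 occurrence equals the number of inversion sequences of length n avoiding the patterns 101 and 201. -/
theorem result :
    ∀ n : ℕ,
      Nat.card {σ : Equiv.Perm (Fin n) //
        ∀ i j k l : Fin n, i < j → j < k → k < l →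
          σ j < σ i → σ i < σ l → σ l < σ k →
          ∃ m : Fin n, j < m ∧ m < k ∧ σ i < σ m ∧ σ m < σ l}
      =
      Nat.card {e : Fin n → Fin n //
        (∀ i : Fin n, (e i).val ≤ i.val) ∧
        ∀ i j k : Fin n, i < j → j < k →
          ¬ (e i = e k ∧ e j < e i) ∧ ¬ (e j < e k ∧ e k < e i)} := by
  intro n
  cases n with
  | zero =>
    have h1 : Nat.card {σ : Equiv.Perm (Fin 0) //
        ∀ i j k l : Fin 0, i < j → j < k → k < l →
          σ j < σ i → σ i < σ l → σ l < σ k →
          ∃ m : Fin 0, j < m ∧ m < k ∧ σ i < σ m ∧ σ m < σ l} = 1 := by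
      rw [Nat.card_eq_one_iff_unique]
      exact ⟨inferInstance, ⟨1, fun i => i.elim0⟩⟩
    have h2 : Nat.card {e : Fin 0 → Fin 0 //
        (∀ i : Fin 0, (e i).val ≤ i.val) ∧
        ∀ i j k : Fin 0, i < j → j < k →
          ¬ (e i = e k ∧ e j < e i) ∧ ¬ (e j < e k ∧ e k < e i)} = 1 := by
      rw [Nat.card_eq_one_iff_unique]
      exact ⟨inferInstance, ⟨id, fun i => i.elim0, fun i => i.elim0⟩⟩
    rw [h1, h2]
  | succ n => rw [card_left, card_right]

end Pool.Agent.S10281
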