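import Pool.Statements.S10311
import Pool.Agent.H176R2.R5.GV

set_option autoImplicit false
open Pool Pool.MP_98a5df_co

namespace Pool.Agent.S10311

/-- Every finite 5-regular graph in which each set of k≥3 vertices spans at most 3k−6 edges has a placement in R^3 whose rigidity matrix has linearly independent rows. -/
theorem result :
    ∀ (n : ℕ) (G : SimpleGraph (Fin n)) [DecidableRel G.Adj],
      G.IsRegularOfDegree 5 →
      (∀ S : Finset (Fin n), 3 ≤ S.card →
        (Finset.univ.filter (fun e : Fin n × Fin n =>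
          e.1 ∈ S ∧ e.2 ∈ S ∧ e.1 < e.2 ∧ G.Adj e.1 e.2)).card ≤ 3 * S.card - 6) →
      ∃ p : Fin n → Fin 3 → ℝ,
        LinearIndependent ℝ
          (fun e : {e : Fin n × Fin n // e.1 < e.2 ∧ G.Adj e.1 e.2} =>
            (fun (w : Fin n) (i : Fin 3) =>
              if w = e.val.1 then p e.val.1 i - p e.val.2 i
              else if w = e.val.2 then p e.val.2 i - p e.val.1 i
              else 0)) := by
  open H176R2.R5 in
  intro n G _ hreg hsp
  have hlt : ∀ e ∈ ({e : Fin n × Fin n | e.1 < e.2 ∧ G.Adj e.1 e.2} : Set (Fin n × Fin n)),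
      e.1 < e.2 := fun e he => he.1
  have hG : SimpleGraph.fromRel
      (fun a b => (a, b) ∈ ({e : Fin n × Fin n | e.1 < e.2 ∧ G.Adj e.1 e.2} : Set (Fin n × Fin n)))
      = G := by
    ext a b
    rw [SimpleGraph.fromRel_adj]
    constructor
    · rintro ⟨-, h | h⟩
      · exact h.2
      · exact h.2.symm
    · intro h
      refine ⟨h.ne, ?_⟩
      rcases lt_or_gt_of_ne h.ne with h1 | h1
      · exact Or.inl ⟨h1, h⟩
      · exact Or.inr ⟨h1, h.symm⟩
  have hc : CoreLeFive (SimpleGraph.fromRel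
      (fun a b => (a, b) ∈ ({e : Fin n × Fin n | e.1 < e.2 ∧ G.Adj e.1 e.2} : Set (Fin n × Fin n)))) := by
    rw [hG]
    apply coreLeFive_of_degree
    intro v
    rw [Set.ncard_eq_toFinset_card']
    have := hreg v
    rw [← SimpleGraph.card_neighborSet_eq_degree] at this
    rw [Set.toFinset_card]
    omega
  have hS : Sparse (OR.gr ({e : Fin n × Fin n | e.1 < e.2 ∧ G.Adj e.1 e.2} : Set (Fin n × Fin n))) := by
    intro X hX
    rw [OR.i2_gr hlt X]
    have h1 := hsp X hX
    have h2 : ({e : Fin n × Fin n | e.1 < e.2 ∧ G.Adj e.1 e.2} ∩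
        {e | e.1 ∈ X ∧ e.2 ∈ X ∧ e.1 < e.2}).ncard =
        (Finset.univ.filter (fun e : Fin n × Fin n =>
          e.1 ∈ X ∧ e.2 ∈ X ∧ e.1 < e.2 ∧ G.Adj e.1 e.2)).card := by
      rw [← Set.ncard_coe_finset]
      congr 1
      ext e
      simp only [Set.mem_inter_iff, Set.mem_setOf_eq, Finset.coe_filter, Finset.mem_univ, true_and]
      tauto
    rw [h2]
    omega
  obtain ⟨p, hp⟩ := OR.exists_of_sparse hlt hc hS
  exact ⟨p, (OR.ind_iff hlt p _ (fun e v k => rfl)).2 hp⟩

end Pool.Agent.S10311
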