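import Pool.Statements.S10336
import Pool.Agent.H136.Occ

set_option autoImplicit false
open Classical
open Pool Pool.MP_99d978_co

namespace Pool.Agent.S10336

/-- The negation of the preceding statement: Let L be the largest real root of the sextic. For every finite 4-regular triangle-free G and λ>0: if λ≤L, G's occupancy fraction is at least the Robertson graph's (4-regular, girth 5, 19 vertices); if λ≥L, at least that of the circulant on Z13 with jumps ±1,±5. -/
theorem result :
    ¬ (∀ L : ℝ,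
      90*L^6 + 729*L^5 - 188*L^4 - 1632*L^3 - 1247*L^2 - 363*L - 38 = 0 →
      (∀ x : ℝ, 90*x^6 + 729*x^5 - 188*x^4 - 1632*x^3 - 1247*x^2 - 363*x - 38 = 0 → x ≤ L) →
      ∀ (V : Type) [Fintype V] [Nonempty V] (G : SimpleGraph V),
        G.IsRegularOfDegree 4 → G.CliqueFree 3 →
        ∀ H : SimpleGraph (Fin 19), H.IsRegularOfDegree 4 → (5 : ℕ∞) ≤ H.egirth →
        ∀ l : ℝ, 0 < l →
          (l ≤ L →
            (∑ I : Finset (Fin 19), if H.IsIndepSet (I : Set (Fin 19)) then (I.card : ℝ) * l ^ I.card else 0) /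
              ((Fintype.card (Fin 19) : ℝ) *
                ∑ I : Finset (Fin 19), if H.IsIndepSet (I : Set (Fin 19)) then l ^ I.card else 0)
            ≤
            (∑ I : Finset V, if G.IsIndepSet (I : Set V) then (I.card : ℝ) * l ^ I.card else 0) /
              ((Fintype.card V : ℝ) *
                ∑ I : Finset V, if G.IsIndepSet (I : Set V) then l ^ I.card else 0)) ∧
          (L ≤ l →
            (∑ I : Finset (ZMod 13),
                if (SimpleGraph.fromRel (fun x y : ZMod 13 => x - y = 1 ∨ x - y = 5)).IsIndepSet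
                    (I : Set (ZMod 13))
                then (I.card : ℝ) * l ^ I.card else 0) /
              ((Fintype.card (ZMod 13) : ℝ) *
                ∑ I : Finset (ZMod 13),
                  if (SimpleGraph.fromRel (fun x y : ZMod 13 => x - y = 1 ∨ x - y = 5)).IsIndepSet
                      (I : Set (ZMod 13))
                  then l ^ I.card else 0)
            ≤
            (∑ I : Finset V, if G.IsIndepSet (I : Set V) then (I.card : ℝ) * l ^ I.card else 0) /
              ((Fintype.card V : ℝ) *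
                ∑ I : Finset V, if G.IsIndepSet (I : Set V) then l ^ I.card else 0))) := by
  intro h
  have hcont : Continuous (fun x : ℝ =>
      90*x^6 + 729*x^5 - 188*x^4 - 1632*x^3 - 1247*x^2 - 363*x - 38) := by fun_prop
  have hpos : ∀ x : ℝ, 2 < x →
      0 < 90*x^6 + 729*x^5 - 188*x^4 - 1632*x^3 - 1247*x^2 - 363*x - 38 := by
    intro x hx
    obtain ⟨t, rfl⟩ : ∃ t, x = t + 2 := ⟨x - 2, by ring⟩
    have ht : 0 < t := by linarith
    have : 90*(t+2)^6 + 729*(t+2)^5 - 188*(t+2)^4 - 1632*(t+2)^3 - 1247*(t+2)^2 - 363*(t+2) - 38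
        = 90*t^6 + 1809*t^5 + 12502*t^4 + 40424*t^3 + 64369*t^2 + 44649*t + 7272 := by ring
    rw [this]
    positivity
  have hclosed : IsClosed {x : ℝ |
      90*x^6 + 729*x^5 - 188*x^4 - 1632*x^3 - 1247*x^2 - 363*x - 38 = 0} :=
    isClosed_eq hcont continuous_const
  have hne : {x : ℝ |
      90*x^6 + 729*x^5 - 188*x^4 - 1632*x^3 - 1247*x^2 - 363*x - 38 = 0}.Nonempty := by
    have := intermediate_value_Icc (show (0:ℝ) ≤ 2 by norm_num) hcont.continuousOn
    obtain ⟨x, _, hx⟩ := this (show (0:ℝ) ∈ _ by constructor <;> norm_num)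
    exact ⟨x, hx⟩
  have hub : ∀ x ∈ {x : ℝ |
      90*x^6 + 729*x^5 - 188*x^4 - 1632*x^3 - 1247*x^2 - 363*x - 38 = 0}, x ≤ 2 := by
    intro x hx
    by_contra hlt
    have := hpos x (not_le.mp hlt)
    exact (ne_of_gt this) hx
  have hbdd : BddAbove {x : ℝ |
      90*x^6 + 729*x^5 - 188*x^4 - 1632*x^3 - 1247*x^2 - 363*x - 38 = 0} := ⟨2, hub⟩
  have hmem := hclosed.csSup_mem hne hbdd
  have key := (h _ hmem (fun x hx => le_csSup hbdd hx) (Fin 20) Pool.Agent.H136.Occ.G20
    Pool.Agent.H136.Occ.G20_reg Pool.Agent.H136.Occ.G20_cf Pool.Agent.H136.Occ.R19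
    Pool.Agent.H136.Occ.R19_reg Pool.Agent.H136.Occ.R19_girth 2 (by norm_num)).2 (hub _ hmem)
  have hca : ∀ i j : ZMod 13,
      (SimpleGraph.fromRel (fun x y : ZMod 13 => x - y = 1 ∨ x - y = 5)).Adj i j ↔
      (Pool.Agent.H136.Occ.ca ((Equiv.refl (Fin 13) : ZMod 13 ≃ Fin 13) i).val).testBit
        ((Equiv.refl (Fin 13) : ZMod 13 ≃ Fin 13) j).val = true := fun i j =>
    (SimpleGraph.fromRel_adj (fun x y : ZMod 13 => x - y = 1 ∨ x - y = 5) i j).trans
      (Pool.Agent.H136.Occ.ca_adj i j)
  have e1 : (4810 : ℝ) / (13 * 1483) ≤ 359800 / (20 * 72225) := by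
    refine le_of_eq_of_le ?_ (key.trans_eq ?_)
    · symm
      congr 1
      · refine (Pool.Agent.H136.Occ.sums_eq_equiv (V := ZMod 13) (n := 13) (Equiv.refl (Fin 13))
          (SimpleGraph.fromRel (fun x y : ZMod 13 => x - y = 1 ∨ x - y = 5))
          Pool.Agent.H136.Occ.ca hca _).2.trans ?_
        rw [Pool.Agent.H136.Occ.mc]
        norm_num
      · congr 1
        refine (Pool.Agent.H136.Occ.sums_eq_equiv (V := ZMod 13) (n := 13) (Equiv.refl (Fin 13))
          (SimpleGraph.fromRel (fun x y : ZMod 13 => x - y = 1 ∨ x - y = 5))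
          Pool.Agent.H136.Occ.ca hca _).1.trans ?_
        rw [Pool.Agent.H136.Occ.zc]
        norm_num
    · congr 1
      · refine (Pool.Agent.H136.Occ.sums_eq Pool.Agent.H136.Occ.G20
          Pool.Agent.H136.Occ.ga (fun i j => Iff.rfl) _).2.trans ?_
        rw [Pool.Agent.H136.Occ.mg]
        norm_num
      · congr 1
        refine (Pool.Agent.H136.Occ.sums_eq Pool.Agent.H136.Occ.G20
          Pool.Agent.H136.Occ.ga (fun i j => Iff.rfl) _).1.trans ?_
        rw [Pool.Agent.H136.Occ.zg]
        norm_num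
  norm_num at e1

end Pool.Agent.S10336
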