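import Pool.Statements.S10529
import Pool.Agent.V11181.Stan6

set_option autoImplicit false
open Pool Pool.MP_a323b2_co

namespace Pool.Agent.S10529

/-- For every nonnegative integer r other than 1,3,5,9,11,15 there is a greedy 3-AP-free (Stanley) sequence that is eventually independent: blocks repeat via a(2^k+i)=a(2^k)+a(i) and a(2^k)=2a(2^k−1)−r+1. -/
theorem result :
    ∀ r : ℤ, 0 ≤ r → r ∉ ({1, 3, 5, 9, 11, 15} : Finset ℤ) →
      ∃ a : ℕ → ℕ, ∃ t : ℕ, StrictMono a ∧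
        (∀ i j k : ℕ, i < j → j < k → a i + a k ≠ 2 * a j) ∧
        (∀ n : ℕ, t < n → ∀ m : ℕ, a (n - 1) < m → m < a n →
          ∃ i j : ℕ, i < j ∧ j < n ∧ a i + m = 2 * a j) ∧
        (∃ k : ℕ, ∀ k' : ℕ, k ≤ k' →
          (∀ i : ℕ, i < 2 ^ k' → a (2 ^ k' + i) = a (2 ^ k') + a i) ∧
          ((a (2 ^ k') : ℤ) = 2 * (a (2 ^ k' - 1) : ℤ) - r + 1)) := by
  intro r hr hne
  obtain ⟨l, rfl⟩ := Int.eq_ofNat_of_zero_le hr
  simp only [Finset.mem_insert, Finset.mem_singleton, not_or] at hne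
  obtain ⟨N, hN⟩ := Pool.Agent.V11181.Stan.cover (l := l) (by omega) (by omega) (by omega)
    (by omega) (by omega) (by omega)
  exact hN.main

end Pool.Agent.S10529
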