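import Pool.Statements.S10718
import Pool.Agent.Helper337.PolygonProofC
import Pool.Agent.V11159.Radial

set_option autoImplicit false
open Pool Pool.MP_ab53bf_co

namespace Pool.Agent.S10718

open Pool.Agent.Helper337.PolygonPattern Pool.Agent.V11159.Radial

/-- Integer version of the pendant vector. -/
def W (i : ZMod 14) : ℤ × ℤ :=
  (2 * (XZ i).1 - (XZ (i - 1)).1 - (XZ (i + 1)).1, 2 * (XZ i).2 - (XZ (i - 1)).2 - (XZ (i + 1)).2)

/-- The pendant vector. -/
noncomputable def wv (i : ZMod 14) : Plane := (2 : ℝ) • xx i - xx (i - 1) - xx (i + 1)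

theorem wv_eq (i : ZMod 14) : wv i = toR (W i) := by
  unfold wv W xx toR
  apply Prod.ext
  · simp
  · simp

theorem W_spec : ∀ i : ZMod 14, W i ≠ (0, 0) ∧ |(W i).1| ≤ 240 ∧ |(W i).2| ≤ 240 := by decide +kernel

theorem toR_norm (p : ℤ × ℤ) : ‖toR p‖ = max |(p.1 : ℝ)| |(p.2 : ℝ)| := by
  simp [toR, Prod.norm_def]

theorem toR_sub (p q : ℤ × ℤ) : toR p - toR q = toR (p - q) := by
  simp [toR]

theorem one_le_norm {p : ℤ × ℤ} (h : p ≠ 0) : 1 ≤ ‖toR p‖ := by
  rw [toR_norm]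
  have : p.1 ≠ 0 ∨ p.2 ≠ 0 := by
    by_contra hcon
    push Not at hcon
    exact h (Prod.ext hcon.1 hcon.2)
  rcases this with h | h
  · refine le_trans ?_ (le_max_left _ _)
    exact_mod_cast Int.one_le_abs h
  · refine le_trans ?_ (le_max_right _ _)
    exact_mod_cast Int.one_le_abs h

theorem wv_ne (i : ZMod 14) : wv i ≠ 0 := by
  rw [wv_eq]
  intro h
  have := one_le_norm (p := W i) (W_spec i).1
  rw [h, norm_zero] at this
  linarith

theorem wv_norm (i : ZMod 14) : ‖wv i‖ ≤ 240 := by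
  rw [wv_eq, toR_norm]
  apply max_le
  · exact_mod_cast (W_spec i).2.1
  · exact_mod_cast (W_spec i).2.2

theorem XZ_inj : ∀ i j : ZMod 14, i ≠ j → XZ i - XZ j ≠ 0 := by decide +kernel

theorem dist_vert {i j : ZMod 14} (h : i ≠ j) : 1 ≤ ‖xx i - xx j‖ := by
  unfold xx
  rw [toR_sub]
  exact one_le_norm (XZ_inj i j h)

/-- The eight functionals. -/
def fs : List (ℤ × ℤ) := [(1, 0), (-1, 0), (0, 1), (0, -1), (1, 1), (1, -1), (-1, 1), (-1, -1)]

/-- The separation test. -/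
def sepT (i k : ZMod 14) : Bool := fs.any fun f =>
  decide (|f.1| ≤ 1) && decide (|f.2| ≤ 1) &&
  decide (f.1 * (XZ k).1 + f.2 * (XZ k).2 + 1 ≤ f.1 * (XZ i).1 + f.2 * (XZ i).2) &&
  decide (f.1 * (XZ (k + 1)).1 + f.2 * (XZ (k + 1)).2 + 1 ≤ f.1 * (XZ i).1 + f.2 * (XZ i).2)

theorem sepT_all : ∀ i k : ZMod 14, k ≠ i → k + 1 ≠ i → sepT i k = true := by decide +kernel

theorem dist_edge {i k : ZMod 14} (h1 : k ≠ i) (h2 : k + 1 ≠ i) {p : Plane} (hp : p ∈ edge xx k) :
    1 / 4 ≤ ‖p - xx i‖ := by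
  have h := sepT_all i k h1 h2
  unfold sepT at h
  rw [List.any_eq_true] at h
  obtain ⟨f, -, hf⟩ := h
  simp only [Bool.and_eq_true, decide_eq_true_eq] at hf
  obtain ⟨⟨⟨f1, f2⟩, f3⟩, f4⟩ := hf
  obtain ⟨t, ht0, ht1, hx, hy⟩ := mem_segment_coords hp
  have g1 : |(f.1 : ℝ)| ≤ 1 := by exact_mod_cast f1
  have g2 : |(f.2 : ℝ)| ≤ 1 := by exact_mod_cast f2
  have g3 : (f.1 : ℝ) * (xx k).1 + f.2 * (xx k).2 + 1 ≤ f.1 * (xx i).1 + f.2 * (xx i).2 := by
    simp only [xx, toR]; exact_mod_cast f3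
  have g4 : (f.1 : ℝ) * (xx (k + 1)).1 + f.2 * (xx (k + 1)).2 + 1 ≤ f.1 * (xx i).1 + f.2 * (xx i).2 := by
    simp only [xx, toR]; exact_mod_cast f4
  have g5 : (f.1 : ℝ) * p.1 + f.2 * p.2 + 1 ≤ f.1 * (xx i).1 + f.2 * (xx i).2 := by
    rw [hx, hy]
    nlinarith [mul_le_mul_of_nonneg_left g3 (sub_nonneg.2 ht1), mul_le_mul_of_nonneg_left g4 ht0]
  have n1 : |(xx i).1 - p.1| ≤ ‖p - xx i‖ := by
    rw [norm_sub_rev]; exact norm_fst_le (xx i - p)
  have n2 : |(xx i).2 - p.2| ≤ ‖p - xx i‖ := by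
    rw [norm_sub_rev]; exact norm_snd_le (xx i - p)
  have m1 : (f.1 : ℝ) * ((xx i).1 - p.1) ≤ ‖p - xx i‖ := by
    calc (f.1 : ℝ) * ((xx i).1 - p.1) ≤ |(f.1 : ℝ) * ((xx i).1 - p.1)| := le_abs_self _
      _ = |(f.1 : ℝ)| * |(xx i).1 - p.1| := abs_mul _ _
      _ ≤ 1 * ‖p - xx i‖ := mul_le_mul g1 n1 (abs_nonneg _) zero_le_one
      _ = _ := one_mul _
  have m2 : (f.2 : ℝ) * ((xx i).2 - p.2) ≤ ‖p - xx i‖ := by
    calc (f.2 : ℝ) * ((xx i).2 - p.2) ≤ |(f.2 : ℝ) * ((xx i).2 - p.2)| := le_abs_self _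
      _ = |(f.2 : ℝ)| * |(xx i).2 - p.2| := abs_mul _ _
      _ ≤ 1 * ‖p - xx i‖ := mul_le_mul g2 n2 (abs_nonneg _) zero_le_one
      _ = _ := one_mul _
  linarith

/-- End point of the pendant edge. -/
noncomputable def pend (e : ZMod 14 → ℝ) (i : ZMod 14) : Plane := xx i + e i • wv i

/-- The polygon with its pendant edges. -/
def MS (e : ZMod 14 → ℝ) : Set Plane := (⋃ i, edge xx i) ∪ ⋃ i, segment ℝ (xx i) (pend e i)

/-- The crossing points and vertices. -/
def CR : Set Plane := {p | ∃ i j, i ≠ j ∧ p ∈ edge xx i ∧ p ∈ edge xx j}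

/-- The nodes. -/
def ND (e : ZMod 14 → ℝ) : Set Plane := Set.range xx ∪ CR ∪ Set.range (pend e)

theorem image_fixed {R : Plane ≃ₜ Plane} {S : Set Plane} (h : ∀ p ∈ S, R p = p) : R '' S = S := by
  rw [Set.image_congr h, Set.image_id']

theorem step (i0 : ZMod 14) (e : ZMod 14 → ℝ) (he : ∀ i, 0 < e i ∧ e i < 1 / 1000) {b : ℝ}
    (hb : 0 < b) (hb' : b < 1 / 1000) : ∃ h : Plane ≃ₜ Plane,
    h '' MS e = MS (Function.update e i0 b) ∧ h '' ND e = ND (Function.update e i0 b) := by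
  have hρ : (0 : ℝ) < 1 / 4 := by norm_num
  have hw := wv_ne i0
  have hw0 : 0 < ‖wv i0‖ := norm_pos_iff.2 hw
  have hwn := wv_norm i0
  obtain ⟨α, hα, hprof⟩ := exists_exponent (ρ := 1 / 4) hρ (a := e i0 * ‖wv i0‖) (b := b * ‖wv i0‖)
    (mul_pos (he i0).1 hw0) (by nlinarith [(he i0).1, (he i0).2]) (by positivity) (by nlinarith)
  set R := radH (E := Plane) hρ hα (xx i0) with hR
  have hRa : ∀ p, R p = rad (1 / 4) α (xx i0) p := fun _ => rfl
  have hout : ∀ p : Plane, 1 / 4 ≤ ‖p - xx i0‖ → R p = p := fun p hp => by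
    rw [hRa]; exact rad_outside hρ _ _ hp
  have hadj : ∀ j, j ≠ i0 → R '' segment ℝ (xx i0) (xx j) = segment ℝ (xx i0) (xx j) := by
    intro j hj
    have h1 := dist_vert hj
    have h2 : xx j = xx i0 + (1 : ℝ) • (xx j - xx i0) := by rw [one_smul, add_sub_cancel]
    have h3 : xx j - xx i0 ≠ 0 := by
      intro h0; rw [h0, norm_zero] at h1; linarith
    rw [h2]
    exact radH_image hρ hα _ _ h3 zero_le_one zero_le_one
      (prof_of_ge hρ (by rw [one_mul]; linarith))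
  have hne : ∀ i : ZMod 14, i + 1 ≠ i := by decide
  have hedge : ∀ k, R '' edge xx k = edge xx k := by
    intro k
    by_cases h1 : k = i0
    · rw [h1]; exact hadj _ (hne i0)
    · by_cases h2 : k + 1 = i0
      · unfold edge
        rw [h2, segment_symm]
        exact hadj _ h1
      · exact image_fixed fun p hp => hout p (dist_edge h1 h2 hp)
  have hvert : ∀ j, R (xx j) = xx j := by
    intro j
    by_cases h : j = i0
    · rw [h, hRa, rad_self]
    · exact hout _ (by have := dist_vert h; linarith)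
  have hpend : ∀ j, j ≠ i0 → ∀ p ∈ segment ℝ (xx j) (pend e j), R p = p := by
    intro j hj p hp
    apply hout
    unfold pend at hp
    rw [segment_ray _ _ (he j).1.le] at hp
    obtain ⟨t, t0, t1, rfl⟩ := hp
    have h1 := dist_vert hj
    have h2 : ‖t • wv j‖ ≤ 1 / 4 := by
      rw [norm_smul, Real.norm_eq_abs, abs_of_nonneg t0]
      have := wv_norm j
      have := (he j).2
      nlinarith [norm_nonneg (wv j)]
    have h3 : ‖xx j - xx i0‖ ≤ ‖xx j + t • wv j - xx i0‖ + ‖t • wv j‖ := by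
      have : xx j - xx i0 = (xx j + t • wv j - xx i0) - t • wv j := by abel
      calc ‖xx j - xx i0‖ = ‖(xx j + t • wv j - xx i0) - t • wv j‖ := by rw [← this]
        _ ≤ _ := norm_sub_le _ _
    linarith
  have hpend0 : R '' segment ℝ (xx i0) (pend e i0) = segment ℝ (xx i0) (xx i0 + b • wv i0) :=
    radH_image hρ hα _ _ hw (he i0).1.le hb.le hprof
  have hend : ∀ j, R (pend e j) = pend (Function.update e i0 b) j := by
    intro j
    by_cases h : j = i0
    · subst h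
      unfold pend
      rw [Function.update_self, hRa, rad_ray hρ hα _ _ hw (he j).1.le, hprof,
        mul_div_cancel_right₀ _ hw0.ne']
    · rw [hpend j h _ (right_mem_segment ℝ _ _)]
      unfold pend
      rw [Function.update_of_ne h]
  refine ⟨R, ?_, ?_⟩
  · unfold MS
    rw [Set.image_union, Set.image_iUnion, Set.image_iUnion]
    congr 1
    · exact Set.iUnion_congr hedge
    · refine Set.iUnion_congr fun j => ?_
      by_cases h : j = i0
      · subst h
        rw [hpend0]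
        unfold pend
        rw [Function.update_self]
      · rw [image_fixed (hpend j h)]
        unfold pend
        rw [Function.update_of_ne h]
  · unfold ND
    rw [Set.image_union, Set.image_union]
    congr 1
    · congr 1
      · rw [← Set.range_comp]
        congr 1
        funext j
        exact hvert j
      · apply Set.Subset.antisymm
        · rintro _ ⟨p, ⟨i, j, hij, hi, hj⟩, rfl⟩
          refine ⟨i, j, hij, ?_, ?_⟩
          · rw [← hedge i]; exact ⟨p, hi, rfl⟩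
          · rw [← hedge j]; exact ⟨p, hj, rfl⟩
        · rintro q ⟨i, j, hij, hi, hj⟩
          rw [← hedge i] at hi
          rw [← hedge j] at hj
          obtain ⟨p, hp, rfl⟩ := hi
          obtain ⟨p', hp', he'⟩ := hj
          have : p' = p := R.injective he'
          rw [this] at hp'
          exact ⟨p, ⟨i, j, hij, hp, hp'⟩, rfl⟩
    · rw [← Set.range_comp]
      congr 1
      funext j
      exact hend j

theorem stretch {a b : ℝ} (ha : 0 < a) (ha' : a < 1 / 1000) (hb : 0 < b) (hb' : b < 1 / 1000) :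
    ∃ h : Plane ≃ₜ Plane, h '' MS (fun _ => a) = MS (fun _ => b) ∧
      h '' ND (fun _ => a) = ND (fun _ => b) := by
  classical
  have key : ∀ s : Finset (ZMod 14), ∃ h : Plane ≃ₜ Plane,
      h '' MS (fun _ => a) = MS (fun i => if i ∈ s then b else a) ∧
      h '' ND (fun _ => a) = ND (fun i => if i ∈ s then b else a) := by
    intro s
    induction s using Finset.induction_on with
    | empty => exact ⟨Homeomorph.refl _, by simp, by simp⟩
    | insert i0 s hi ih =>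
      obtain ⟨h, h1, h2⟩ := ih
      obtain ⟨g, g1, g2⟩ := step i0 (fun i => if i ∈ s then b else a)
        (fun i => by
          by_cases h : i ∈ s
          · rw [if_pos h]; exact ⟨hb, hb'⟩
          · rw [if_neg h]; exact ⟨ha, ha'⟩) hb hb'
      have hu : Function.update (fun i => if i ∈ s then b else a) i0 b =
          fun i => if i ∈ insert i0 s then b else a := by
        funext i
        by_cases h : i = i0
        · subst h; simp
        · rw [Function.update_of_ne h]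
          simp [h]
      rw [hu] at g1 g2
      refine ⟨h.trans g, ?_, ?_⟩
      · rw [← g1, ← h1, ← Set.image_comp]; rfl
      · rw [← g2, ← h2, ← Set.image_comp]; rfl
  obtain ⟨h, h1, h2⟩ := key Finset.univ
  refine ⟨h, ?_, ?_⟩
  · rw [h1]; simp
  · rw [h2]; simp



/-- Rotation of the labels. -/
def rot : Equiv.Perm (ZMod 14) := (finRotate 14 : Equiv.Perm (Fin 14))

theorem rot_apply (i : ZMod 14) : rot i = i + 1 := by
  revert i; decide +kernel

theorem rot_symm (i : ZMod 14) : rot.symm i = i - 1 := by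
  revert i; decide +kernel

/-- Edges. -/
def Ed (x : ZMod 14 → Plane) (i : ZMod 14) : Set Plane := segment ℝ (x i) (x (rot i))

/-- Pendant end points. -/
noncomputable def Pe (x : ZMod 14 → Plane) (ε : ℝ) (i : ZMod 14) : Plane :=
  x i + ε • ((2 : ℝ) • x i - x (rot.symm i) - x (rot i))

/-- Ordinary. -/
def Od (x : ZMod 14 → Plane) : Prop := ∀ (p : Plane) (i j k : ZMod 14),
  p ∈ Ed x i → p ∈ Ed x j → p ∈ Ed x k → i = j ∨ j = k ∨ i = k

/-- Proper. -/
def Pr (x : ZMod 14 → Plane) : Prop := (∀ i, x i ≠ x (rot i)) ∧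
  ∀ i, ¬ Collinear ℝ ({x (rot.symm i), x i, x (rot i)} : Set Plane)

/-- The map. -/
def Ma (x : ZMod 14 → Plane) (ε : ℝ) : Set Plane := (⋃ i, Ed x i) ∪ ⋃ i, segment ℝ (x i) (Pe x ε i)

/-- The nodes. -/
def No (x : ZMod 14 → Plane) (ε : ℝ) : Set Plane :=
  Set.range x ∪ {p : Plane | ∃ i j, i ≠ j ∧ p ∈ Ed x i ∧ p ∈ Ed x j} ∪ Set.range (Pe x ε)

/-- Same pattern. -/
def Sa (x y : ZMod 14 → Plane) : Prop := ∃ δ : ℝ, 0 < δ ∧ ∀ ε₁ ε₂ : ℝ, 0 < ε₁ → ε₁ < δ → 0 < ε₂ →
  ε₂ < δ → ∃ h : Homeomorph Plane Plane, h '' Ma x ε₁ = Ma y ε₂ ∧ h '' No x ε₁ = No y ε₂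

/-- Dihedral. -/
def Di (σ : Equiv.Perm (ZMod 14)) : Prop := (∀ i, σ (rot i) = rot (σ i)) ∨
  (∀ i, σ (rot i) = rot.symm (σ i))

/-- Parallel. -/
def Pa (x z : ZMod 14 → Plane) : Prop :=
  ∀ i, ∃ c : ℝ, 0 < c ∧ z (rot i) - z i = c • (x (rot i) - x i)

theorem Ed_eq (x : ZMod 14 → Plane) : Ed x = edge x := by
  funext i
  unfold Ed edge
  rw [rot_apply]

theorem Od_iff (x : ZMod 14 → Plane) : Od x ↔ Ordinary x := by
  unfold Od Ordinary
  rw [Ed_eq]
  constructor
  · intro h p i j k h1 h2 h3 ⟨h4, h5, h6⟩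
    rcases h p i j k h4 h5 h6 with h | h | h
    · exact h1 h
    · exact h2 h
    · exact h3 h
  · intro h p i j k h4 h5 h6
    by_contra hcon
    push Not at hcon
    exact h p i j k hcon.1 hcon.2.1 hcon.2.2 ⟨h4, h5, h6⟩

theorem Pr_of {x : ZMod 14 → Plane} (h1 : IsPolygon x) (h2 : Proper x) : Pr x :=
  ⟨fun i => by rw [rot_apply]; exact h1 i, fun i => by rw [rot_apply, rot_symm]; exact h2 i⟩

theorem Pa_iff (x z : ZMod 14 → Plane) : Pa x z ↔ ParallelEdges x z := by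
  unfold Pa ParallelEdges
  simp only [rot_apply]

theorem Pe_xx (a : ℝ) : Pe xx a = pend (fun _ => a) := by
  funext i
  unfold Pe pend wv
  rw [rot_apply, rot_symm]

theorem Ma_xx (a : ℝ) : Ma xx a = MS (fun _ => a) := by
  unfold Ma MS
  rw [Ed_eq, Pe_xx]

theorem No_xx (a : ℝ) : No xx a = ND (fun _ => a) := by
  unfold No ND CR
  rw [Ed_eq, Pe_xx]

theorem tau_pe (a : ℝ) (i : ZMod 14) : tau (Pe xx a i) = Pe yy a (i + 7) := by
  unfold Pe
  simp only [rot_apply, rot_symm]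
  have h1 : i + 7 - 1 = (i - 1) + 7 := by ring
  have h2 : i + 7 + 1 = (i + 1) + 7 := by ring
  rw [h1, h2, ← tau_xx, ← tau_xx, ← tau_xx]
  simp only [tau_apply]
  apply Prod.ext
  · simp
  · simp; ring

theorem range_shift {α : Type} (f : ZMod 14 → α) : Set.range (fun i => f (i + 7)) = Set.range f :=
  (Equiv.addRight (7 : ZMod 14)).surjective.range_comp f

theorem tau_ed (i : ZMod 14) : tau '' Ed xx i = Ed yy (i + 7) := by
  rw [Ed_eq, Ed_eq, tau_edge]

theorem tau_Ma (a : ℝ) : tau '' Ma xx a = Ma yy a := by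
  unfold Ma
  rw [Set.image_union, Set.image_iUnion, Set.image_iUnion]
  simp only [tau_ed, tau_segment, tau_pe, tau_xx]
  rw [iUnion_shift (fun i => Ed yy i), iUnion_shift (fun i => segment ℝ (yy i) (Pe yy a i))]

theorem tau_No (a : ℝ) : tau '' No xx a = No yy a := by
  unfold No
  rw [Set.image_union, Set.image_union]
  congr 1
  · congr 1
    · rw [← Set.range_comp, ← range_shift yy]
      congr 1
      funext i
      exact tau_xx i
    · apply Set.Subset.antisymm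
      · rintro _ ⟨p, ⟨i, j, hij, hi, hj⟩, rfl⟩
        refine ⟨i + 7, j + 7, fun h => hij (add_right_cancel h), ?_, ?_⟩
        · rw [← tau_ed]; exact ⟨p, hi, rfl⟩
        · rw [← tau_ed]; exact ⟨p, hj, rfl⟩
      · rintro q ⟨i, j, hij, hi, hj⟩
        have e : ∀ k : ZMod 14, k = (k - 7) + 7 := fun k => by ring
        rw [e i, ← tau_ed] at hi
        rw [e j, ← tau_ed] at hj
        obtain ⟨p, hp, rfl⟩ := hi
        obtain ⟨p', hp', he'⟩ := hj
        have : p' = p := tau.injective he'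
        rw [this] at hp'
        exact ⟨p, ⟨i - 7, j - 7, fun h => hij (sub_left_injective h), hp, hp'⟩, rfl⟩
  · rw [← Set.range_comp, ← range_shift (Pe yy a)]
    congr 1
    funext i
    exact tau_pe a i

theorem samePat : Sa xx yy := by
  refine ⟨1 / 1000, by norm_num, fun a b ha ha' hb hb' => ?_⟩
  obtain ⟨h, h1, h2⟩ := stretch ha ha' hb hb'
  refine ⟨h.trans tau, ?_, ?_⟩
  · rw [← tau_Ma, Ma_xx, Ma_xx, ← h1, ← Set.image_comp]; rfl
  · rw [← tau_No, No_xx, No_xx, ← h2, ← Set.image_comp]; rfl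

theorem relab {σ : Equiv.Perm (ZMod 14)} (h : Di σ) : IsRelabelling σ := by
  rcases h with h | h
  · refine ⟨σ 0, Or.inl ?_⟩
    have key : ∀ n : ℕ, σ (n : ZMod 14) = σ 0 + n := by
      intro n
      induction n with
      | zero => simp
      | succ n ih =>
        have := h n
        rw [rot_apply, rot_apply] at this
        push_cast
        rw [this, ih]; ring
    intro i
    have := key i.val
    rwa [ZMod.natCast_zmod_val] at this
  · refine ⟨σ 0, Or.inr ?_⟩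
    have key : ∀ n : ℕ, σ (n : ZMod 14) = σ 0 - n := by
      intro n
      induction n with
      | zero => simp
      | succ n ih =>
        have := h n
        rw [rot_apply, rot_symm] at this
        push_cast
        rw [this, ih]; ring
    intro i
    have := key i.val
    rwa [ZMod.natCast_zmod_val] at this

theorem core (H : ∃ σ : Equiv.Perm (ZMod 14), Di σ ∧ Pa xx (fun i => yy (σ i)) ∧
      ∃ X : ℝ → ZMod 14 → Plane,
        (∀ j, ContinuousOn (fun t => X t j) (Set.Icc (0:ℝ) 1)) ∧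
        X 0 = xx ∧ X 1 = (fun i => yy (σ i)) ∧
        ∀ t ∈ Set.Icc (0:ℝ) 1, Od (X t) ∧ Pr (X t) ∧ Sa xx (X t) ∧ Pa xx (X t)) : False := by
  obtain ⟨σ, hσ, hpar, X, hXc, hX0, hX1, hX⟩ := H
  obtain ⟨t, ht, hto⟩ := no_ordinary_path σ (relab hσ) ((Pa_iff _ _).1 hpar) X hXc hX0 hX1
    (fun t ht => (Pa_iff _ _).1 (hX t ht).2.2.2)
  exact hto ((Od_iff _).1 (hX t ht).1)

/-- The negation of the preceding statement: If two ordinary proper n-gons have the same pattern and some dihedral relabelling of the second makes corresponding edges same-direction parallel, then some such relabelling admits a continuous deformation of the first into it keeping the pattern and all edge directions. -/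
theorem result :
    ¬ (∀ (n : ℕ), 3 ≤ n →
  ∀ (Edge : (Fin n → ℝ × ℝ) → Fin n → Set (ℝ × ℝ)),
    (∀ x i, Edge x i = segment ℝ (x i) (x (finRotate n i))) →
  ∀ (Pend : (Fin n → ℝ × ℝ) → ℝ → Fin n → ℝ × ℝ),
    (∀ x ε i, Pend x ε i = x i + ε • ((2:ℝ) • x i - x ((finRotate n).symm i) - x (finRotate n i))) →
  ∀ (Ordinary : (Fin n → ℝ × ℝ) → Prop),
    (∀ x, Ordinary x ↔ ∀ (p : ℝ × ℝ) (i j k : Fin n), p ∈ Edge x i → p ∈ Edge x j → p ∈ Edge x k →
      i = j ∨ j = k ∨ i = k) →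
  ∀ (Proper : (Fin n → ℝ × ℝ) → Prop),
    (∀ x, Proper x ↔ (∀ i, x i ≠ x (finRotate n i)) ∧
      ∀ i, ¬ Collinear ℝ ({x ((finRotate n).symm i), x i, x (finRotate n i)} : Set (ℝ × ℝ))) →
  ∀ (MapSet : (Fin n → ℝ × ℝ) → ℝ → Set (ℝ × ℝ)),
    (∀ x ε, MapSet x ε = (⋃ i, Edge x i) ∪ ⋃ i, segment ℝ (x i) (Pend x ε i)) →
  ∀ (Nodes : (Fin n → ℝ × ℝ) → ℝ → Set (ℝ × ℝ)),
    (∀ x ε, Nodes x ε = Set.range x ∪ {p : ℝ × ℝ | ∃ i j, i ≠ j ∧ p ∈ Edge x i ∧ p ∈ Edge x j}
      ∪ Set.range (Pend x ε)) →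
  ∀ (SamePattern : (Fin n → ℝ × ℝ) → (Fin n → ℝ × ℝ) → Prop),
    (∀ x y, SamePattern x y ↔ ∃ δ : ℝ, 0 < δ ∧ ∀ ε₁ ε₂ : ℝ, 0 < ε₁ → ε₁ < δ → 0 < ε₂ → ε₂ < δ →
      ∃ h : Homeomorph (ℝ × ℝ) (ℝ × ℝ), h '' MapSet x ε₁ = MapSet y ε₂ ∧ h '' Nodes x ε₁ = Nodes y ε₂) →
  ∀ (Dihedral : Equiv.Perm (Fin n) → Prop),
    (∀ σ, Dihedral σ ↔ (∀ i, σ (finRotate n i) = finRotate n (σ i)) ∨
      (∀ i, σ (finRotate n i) = (finRotate n).symm (σ i))) →
  ∀ (Parallel : (Fin n → ℝ × ℝ) → (Fin n → ℝ × ℝ) → Prop),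
    (∀ x z, Parallel x z ↔ ∀ i, ∃ c : ℝ, 0 < c ∧ z (finRotate n i) - z i = c • (x (finRotate n i) - x i)) →
  ∀ x y : Fin n → ℝ × ℝ,
    Ordinary x → Proper x → Ordinary y → Proper y → SamePattern x y →
    (∃ σ : Equiv.Perm (Fin n), Dihedral σ ∧ Parallel x (fun i => y (σ i))) →
    ∃ σ : Equiv.Perm (Fin n), Dihedral σ ∧ Parallel x (fun i => y (σ i)) ∧
      ∃ X : ℝ → Fin n → ℝ × ℝ,
        (∀ j, ContinuousOn (fun t => X t j) (Set.Icc (0:ℝ) 1)) ∧
        X 0 = x ∧ X 1 = (fun i => y (σ i)) ∧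
        ∀ t ∈ Set.Icc (0:ℝ) 1,
          Ordinary (X t) ∧ Proper (X t) ∧ SamePattern x (X t) ∧ Parallel x (X t)) := by
  intro H
  exact core (H 14 (by norm_num) Ed (fun _ _ => rfl) Pe (fun _ _ _ => rfl) Od (fun _ => Iff.rfl)
    Pr (fun _ => Iff.rfl) Ma (fun _ _ => rfl) No (fun _ _ => rfl) Sa (fun _ _ => Iff.rfl)
    Di (fun _ => Iff.rfl) Pa (fun _ _ => Iff.rfl) xx yy
    ((Od_iff _).2 ordinaryX) (Pr_of polyX properX) ((Od_iff _).2 ordinaryY) (Pr_of polyY properY)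
    samePat ⟨Equiv.refl _, Or.inl fun _ => rfl, (Pa_iff _ _).2 parallel_xy⟩)

end Pool.Agent.S10718
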