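import Pool.Statements.S10731
import Pool.Agent.W31.JP.Win

set_option autoImplicit false
open Classical
open Pool Pool.MP_abf15b_co

namespace Pool.Agent.S10731

theorem card_pairs {n : ℕ} (G : SimpleGraph (Fin n)) [Fintype G.edgeSet] (P : Sym2 (Fin n) → Prop)
    [DecidablePred P] (Q : Fin n × Fin n → Prop) [DecidablePred Q]
    (hQ : ∀ p : Fin n × Fin n, Q p ↔ p.1 < p.2 ∧ G.Adj p.1 p.2 ∧ P s(p.1, p.2)) :
    (G.edgeFinset.filter P).card = ((Finset.univ : Finset (Fin n × Fin n)).filter Q).card := by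
  symm
  have : ((Finset.univ : Finset (Fin n × Fin n)).filter Q) =
      ((Finset.univ : Finset (Fin n × Fin n)).filter
      (fun p => p.1 < p.2 ∧ G.Adj p.1 p.2 ∧ P s(p.1, p.2))) := by
    ext p
    simp only [Finset.mem_filter, Finset.mem_univ, true_and]
    exact hQ p
  rw [this]
  refine Finset.card_bij (fun p _ => s(p.1, p.2)) ?_ ?_ ?_
  · intro p hp
    rw [Finset.mem_filter] at hp ⊢
    refine ⟨?_, hp.2.2.2⟩
    rw [SimpleGraph.mem_edgeFinset, SimpleGraph.mem_edgeSet]
    exact hp.2.2.1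
  · intro p hp q hq h
    rw [Finset.mem_filter] at hp hq
    rcases Sym2.eq_iff.1 h with ⟨h1, h2⟩ | ⟨h1, h2⟩
    · exact Prod.ext h1 h2
    · have a := hp.2.1
      have b := hq.2.1
      rw [h1, h2] at a
      exact absurd a (lt_asymm b)
  · intro e he
    rw [Finset.mem_filter] at he
    obtain ⟨h1, h2⟩ := he
    induction e using Sym2.ind with
    | _ a b =>
      rw [SimpleGraph.mem_edgeFinset, SimpleGraph.mem_edgeSet] at h1
      rcases lt_or_gt_of_ne h1.ne with h | h
      · exact ⟨(a, b), Finset.mem_filter.2 ⟨Finset.mem_univ _, h, h1, h2⟩, rfl⟩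
      · refine ⟨(b, a), Finset.mem_filter.2 ⟨Finset.mem_univ _, h, h1.symm, ?_⟩, Sym2.eq_swap⟩
        rw [Sym2.eq_swap]
        exact h2

/-- For every real C there is m such that every finite graph with m edges has a vertex bipartition where both parts span fewer than m/4 + sqrt(m/32) − C edges; i.e. m/4 + sqrt(m/32) − g(m) is unbounded above. -/
theorem result :
    ∀ C : ℝ, ∃ m : ℕ, ∀ n : ℕ, ∀ G : SimpleGraph (Fin n),
      G.edgeFinset.card = m →
      ∃ S : Finset (Fin n),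
        ((max (G.edgeFinset.filter (fun e => ∀ v ∈ e, v ∈ S)).card
              (G.edgeFinset.filter (fun e => ∀ v ∈ e, v ∉ S)).card : ℕ) : ℝ) + C
          < (m : ℝ) / 4 + Real.sqrt ((m : ℝ) / 32) := by
  intro C
  obtain ⟨l, hl⟩ := exists_nat_ge (max 2000 (max 1 C * 20000))
  have hl0 : (2000 : ℝ) ≤ l := (le_max_left _ _).trans hl
  have hl1 : max 1 C * 20000 ≤ (l : ℝ) := (le_max_right _ _).trans hl
  have hl2 : 2000 ≤ l := by exact_mod_cast hl0
  refine ⟨l * (2 * l - 1), ?_⟩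
  intro n G hG
  have hm : ((Finset.univ : Finset (Fin n × Fin n)).filter
            (fun p => p.1 < p.2 ∧ G.Adj p.1 p.2)).card = l * (2 * l - 1) := by
    rw [← hG, ← card_pairs G (fun _ => True) _ (by simp)]
    congr 1
    ext e
    simp
  obtain ⟨S, hS⟩ := Pool.Agent.W31.JP.main_window hl2 le_rfl (Nat.le_add_right _ _) n G hm
  refine ⟨S, ?_⟩
  rw [← card_pairs G (fun e => ∀ v ∈ e, v ∈ S) _ (by simp [Sym2.mem_iff]),
    ← card_pairs G (fun e => ∀ v ∈ e, v ∉ S) _ (by simp [Sym2.mem_iff])] at hS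
  have hC : C ≤ Real.sqrt ((l * (2 * l - 1) : ℕ) : ℝ) / 20000 := by
    rw [le_div_iff₀ (by norm_num)]
    have h1 : C * 20000 ≤ l := by
      have := le_max_right (1 : ℝ) C
      nlinarith
    by_cases hC0 : 0 ≤ C
    · apply Real.le_sqrt_of_sq_le
      have h2 : ((l * (2 * l - 1) : ℕ) : ℝ) = (l : ℝ) * (2 * l - 1) := by
        rw [Nat.cast_mul, Nat.cast_sub (by omega)]
        push_cast
        ring
      rw [h2]
      nlinarith [mul_nonneg hC0 (by norm_num : (0 : ℝ) ≤ 20000)]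
    · have := Real.sqrt_nonneg ((l * (2 * l - 1) : ℕ) : ℝ)
      push Not at hC0
      nlinarith
  have e3 : ((max (G.edgeFinset.filter (fun e => ∀ v ∈ e, v ∈ S)).card
              (G.edgeFinset.filter (fun e => ∀ v ∈ e, v ∉ S)).card : ℕ) : ℝ)
      < ((l * (2 * l - 1) : ℕ) : ℝ) / 4 + Real.sqrt (((l * (2 * l - 1) : ℕ) : ℝ) / 32)
        - Real.sqrt ((l * (2 * l - 1) : ℕ) : ℝ) / 20000 := by
    convert hS using 6
  linarith

end Pool.Agent.S10731
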