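-- Proof of the frozen statement S11006. The example is the eight-dimensional polytope of
-- `Pool.Agent.H160R3.Join` with the action of the group with two elements.
import Pool.Statements.S11006
import Pool.Agent.H160R3.Join

set_option autoImplicit false
open scoped Pointwise
open Pool Pool.MP_b7cbb2_co

namespace Pool.Agent.S11006

open Pool.Agent.H160R3 Pool.Agent.H160R3.Join

theorem gm_mul : gm * gm = 1 := by
  apply Matrix.toLin'.injective
  apply LinearMap.ext
  intro x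
  rw [Matrix.toLin'_apply, Matrix.toLin'_one, ← Matrix.mulVec_mulVec, gm_mulVec, gm_mulVec]
  funext j
  fin_cases j <;> simp

/-- the action of the group with two elements -/
def rho : ℤˣ →* Matrix (Fin 9) (Fin 9) ℤ where
  toFun u := if u = 1 then 1 else gm
  map_one' := by simp
  map_mul' := by
    intro a b
    rcases Int.units_eq_one_or a with rfl | rfl <;> rcases Int.units_eq_one_or b with rfl | rfl
    · simp
    · simp
    · simp
    · have h : (-1 : ℤˣ) ≠ 1 := by decide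
      rw [if_neg h, gm_mul]
      simp

theorem rho_one : rho 1 = 1 := map_one _

theorem rho_neg : rho (-1) = gm := by
  have h : (-1 : ℤˣ) ≠ 1 := by decide
  show (if (-1 : ℤˣ) = 1 then 1 else gm) = gm
  rw [if_neg h]

/-- the action, with values in the general linear group -/
noncomputable def rhoU : ℤˣ →* Matrix.GeneralLinearGroup (Fin 9) ℤ := rho.toHomUnits

theorem rhoU_coe (g : ℤˣ) : (rhoU g : Matrix (Fin 9) (Fin 9) ℤ) = rho g := rfl

/-- the vertex set -/
def S : Finset (Fin 9 → ℤ) := Finset.univ.image v10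

theorem S_image : ((fun w : Fin 9 → ℤ => fun k => ((w k : ℤ) : ℝ)) '' (S : Set (Fin 9 → ℤ)))
    = Set.range fun i : Fin 10 => fun j => ((v10 i j : ℤ) : ℝ) := by
  rw [S, Finset.coe_image, Finset.coe_univ, Set.image_univ, ← Set.range_comp]
  rfl

theorem S_inv (g : ℤˣ) (v : Fin 9 → ℤ) (hv : v ∈ S) : Matrix.mulVec (rho g) v ∈ S := by
  rcases Int.units_eq_one_or g with rfl | rfl
  · rw [rho_one, Matrix.one_mulVec]; exact hv
  · rw [rho_neg, gm_mulVec]
    rw [S, Finset.mem_image] at hv ⊢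
    obtain ⟨i, _, rfl⟩ := hv
    fin_cases i
    · exact ⟨1, Finset.mem_univ _, by decide⟩
    · exact ⟨0, Finset.mem_univ _, by decide⟩
    · exact ⟨3, Finset.mem_univ _, by decide⟩
    · exact ⟨2, Finset.mem_univ _, by decide⟩
    · exact ⟨4, Finset.mem_univ _, by decide⟩
    · exact ⟨5, Finset.mem_univ _, by decide⟩
    · exact ⟨6, Finset.mem_univ _, by decide⟩
    · exact ⟨7, Finset.mem_univ _, by decide⟩
    · exact ⟨8, Finset.mem_univ _, by decide⟩
    · exact ⟨9, Finset.mem_univ _, by decide⟩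

theorem count_one (m : ℕ) :
    ((Set.ncard {v : Fin 9 → ℤ | (fun k => ((v k : ℤ) : ℝ)) ∈ (m : ℝ) • P10 ∧
      Matrix.mulVec (1 : Matrix (Fin 9) (Fin 9) ℤ) v = v} : ℕ) : ℤ) =
      PowerSeries.coeff m (ser hT) := by
  rw [coeff_ser]
  congr 1
  rw [← Nat.card_coe_set_eq]
  apply Nat.card_congr
  exact
    { toFun := fun x => ⟨⟨(x.1, m), (mem_iff _ _).1 x.2.1⟩, rfl⟩
      invFun := fun t => ⟨t.1.1.1, (mem_iff _ _).2 (by
        have h1 := t.1.2
        have h2 : t.1.1.2 = m := t.2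
        rw [h2] at h1; exact h1), by rw [Matrix.one_mulVec]⟩
      left_inv := fun x => rfl
      right_inv := by
        rintro ⟨⟨⟨x, m'⟩, h⟩, rfl⟩
        rfl }

theorem count_neg (m : ℕ) :
    ((Set.ncard {v : Fin 9 → ℤ | (fun k => ((v k : ℤ) : ℝ)) ∈ (m : ℝ) • P10 ∧
      Matrix.mulVec gm v = v} : ℕ) : ℤ) =
      PowerSeries.coeff m (ser hTg) := by
  rw [coeff_ser]
  congr 1
  rw [← Nat.card_coe_set_eq]
  apply Nat.card_congr
  exact
    { toFun := fun x => ⟨⟨(x.1, m), (mem_iff _ _).1 x.2.1, x.2.2⟩, rfl⟩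
      invFun := fun t => ⟨t.1.1.1, (mem_iff _ _).2 (by
        have h1 := t.1.2.1
        have h2 : t.1.1.2 = m := t.2
        rw [h2] at h1; exact h1), t.1.2.2⟩
      left_inv := fun x => rfl
      right_inv := by
        rintro ⟨⟨⟨x, m'⟩, h⟩, rfl⟩
        rfl }

/-- the inclusion of the lattice of the direction space -/
def inc : (Fin 8 → ℤ) →ₗ[ℤ] (Fin 9 → ℤ) where
  toFun y := ![y 0, y 1, y 2, y 3, y 4, y 5, y 6, y 7, 0]
  map_add' y z := by funext j; fin_cases j <;> simp
  map_smul' c y := by funext j; fin_cases j <;> simp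

theorem inc_apply (y : Fin 8 → ℤ) :
    inc y = ![y 0, y 1, y 2, y 3, y 4, y 5, y 6, y 7, 0] := rfl

theorem inc_inj : Function.Injective inc := by
  intro y z h
  rw [inc_apply, inc_apply] at h
  funext j
  have e0 := congrFun h 0
  have e1 := congrFun h 1
  have e2 := congrFun h 2
  have e3 := congrFun h 3
  have e4 := congrFun h 4
  have e5 := congrFun h 5
  have e6 := congrFun h 6
  have e7 := congrFun h 7
  simp at e0 e1 e2 e3 e4 e5 e6 e7
  fin_cases j <;> simp [e0, e1, e2, e3, e4, e5, e6, e7]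

theorem inc_range (x : Fin 9 → ℤ) : (∃ y, inc y = x) ↔ x 8 = 0 := by
  constructor
  · rintro ⟨y, rfl⟩
    rfl
  · intro h
    refine ⟨![x 0, x 1, x 2, x 3, x 4, x 5, x 6, x 7], ?_⟩
    rw [inc_apply]
    funext j
    fin_cases j <;> simp [h]

/-- the involution on the direction space -/
def g8 : Matrix (Fin 8) (Fin 8) ℤ :=
  Matrix.of fun i j => if i = 0 then (if j = 0 then -1 else if j = 2 then 1 else 0)
    else if i = j then 1 else 0

theorem g8_mulVec (x : Fin 8 → ℤ) :
    Matrix.mulVec g8 x = ![x 2 - x 0, x 1, x 2, x 3, x 4, x 5, x 6, x 7] := by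
  funext j
  fin_cases j <;> simp [g8, Matrix.mulVec, dotProduct, Fin.sum_univ_castSucc] <;> ring

/-- the action on the direction space -/
def sg (g : ℤˣ) : Matrix (Fin 8) (Fin 8) ℤ := if g = 1 then 1 else g8

theorem sg_one : sg 1 = 1 := if_pos rfl

theorem sg_neg : sg (-1) = g8 := by
  have h : (-1 : ℤˣ) ≠ 1 := by decide
  exact if_neg h

theorem inc_sg (g : ℤˣ) (y : Fin 8 → ℤ) :
    inc (Matrix.mulVec (sg g) y) = Matrix.mulVec (rho g) (inc y) := by
  rcases Int.units_eq_one_or g with rfl | rfl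
  · rw [sg_one, rho_one, Matrix.one_mulVec, Matrix.one_mulVec]
  · rw [sg_neg, rho_neg, gm_mulVec, g8_mulVec, inc_apply, inc_apply]
    funext j
    fin_cases j <;> simp

theorem vec_mem (i : Fin 10) : (fun j => ((v10 i j : ℤ) : ℝ)) - (fun j => ((v10 8 j : ℤ) : ℝ)) ∈
    vectorSpan ℝ P10 := by
  apply vsub_mem_vectorSpan
  · exact subset_convexHull _ _ ⟨i, rfl⟩
  · exact subset_convexHull _ _ ⟨8, rfl⟩

theorem span_iff (x : Fin 9 → ℤ) :
    x 8 = 0 ↔ (fun j => ((x j : ℤ) : ℝ)) ∈ vectorSpan ℝ P10 := by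
  constructor
  · intro hx
    have e : (fun j => ((x j : ℤ) : ℝ)) =
        ((x 2 : ℝ) - x 0 - x 1) •
          ((fun j => ((v10 0 j : ℤ) : ℝ)) - (fun j => ((v10 8 j : ℤ) : ℝ))) +
        (x 0 : ℝ) • ((fun j => ((v10 1 j : ℤ) : ℝ)) - (fun j => ((v10 8 j : ℤ) : ℝ))) +
        (x 1 : ℝ) • ((fun j => ((v10 2 j : ℤ) : ℝ)) - (fun j => ((v10 8 j : ℤ) : ℝ))) +
        ((x 3 : ℝ) + x 7 / 2) •
          ((fun j => ((v10 4 j : ℤ) : ℝ)) - (fun j => ((v10 8 j : ℤ) : ℝ))) +
        ((x 4 : ℝ) + x 7 / 2) •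
          ((fun j => ((v10 5 j : ℤ) : ℝ)) - (fun j => ((v10 8 j : ℤ) : ℝ))) +
        ((x 5 : ℝ) + x 7 / 2) •
          ((fun j => ((v10 6 j : ℤ) : ℝ)) - (fun j => ((v10 8 j : ℤ) : ℝ))) +
        ((x 6 : ℝ) + x 7 / 2) •
          ((fun j => ((v10 7 j : ℤ) : ℝ)) - (fun j => ((v10 8 j : ℤ) : ℝ))) +
        ((x 7 : ℝ) / 2) • ((fun j => ((v10 9 j : ℤ) : ℝ)) - (fun j => ((v10 8 j : ℤ) : ℝ))) := by
      funext j
      fin_cases j <;> simp [v10, hx] <;> ring
    rw [e]
    have h := fun (c : ℝ) (i : Fin 10) =>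
      (vectorSpan ℝ P10).smul_mem c (vec_mem i)
    exact Submodule.add_mem _ (Submodule.add_mem _ (Submodule.add_mem _ (Submodule.add_mem _
      (Submodule.add_mem _ (Submodule.add_mem _ (Submodule.add_mem _ (h _ 0) (h _ 1)) (h _ 2))
      (h _ 4)) (h _ 5)) (h _ 6)) (h _ 7)) (h _ 9)
  · intro h
    have h8 : ∀ p ∈ P10, p 8 = 1 := by
      intro p hp
      have hc : Convex ℝ {p : Fin 9 → ℝ | p 8 = 1} := by
        intro p hp q hq a b _ _ hab
        simp only [Set.mem_ofPred_eq] at hp hq ⊢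
        simp [hp, hq, hab]
      have hsub : P10 ⊆ {p : Fin 9 → ℝ | p 8 = 1} := by
        apply convexHull_min _ hc
        rintro _ ⟨i, rfl⟩
        fin_cases i <;> simp [v10]
      exact hsub hp
    have hle : vectorSpan ℝ P10 ≤ LinearMap.ker (LinearMap.proj (R := ℝ) (φ := fun _ => ℝ)
        (8 : Fin 9)) := by
      rw [vectorSpan_def, Submodule.span_le]
      rintro _ ⟨p, hp, q, hq, rfl⟩
      simp only [SetLike.mem_coe, LinearMap.mem_ker, LinearMap.proj_apply, vsub_eq_sub,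
        Pi.sub_apply]
      rw [h8 p hp, h8 q hq, sub_self]
    have h1 := hle h
    simp only [LinearMap.mem_ker, LinearMap.proj_apply] at h1
    exact_mod_cast h1

theorem det_one (n : ℕ) :
    Matrix.det (1 - (Polynomial.X : Polynomial ℤ) •
      (1 : Matrix (Fin n) (Fin n) ℤ).map Polynomial.C) = (1 - Polynomial.X) ^ n := by
  have : (1 - (Polynomial.X : Polynomial ℤ) • (1 : Matrix (Fin n) (Fin n) ℤ).map Polynomial.C)
      = (1 - Polynomial.X : Polynomial ℤ) • (1 : Matrix (Fin n) (Fin n) (Polynomial ℤ)) := by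
    rw [Matrix.map_one _ (map_zero _) (map_one _), sub_smul, one_smul]
  rw [this, Matrix.det_smul, Matrix.det_one, Fintype.card_fin, mul_one]

theorem det_g8 :
    Matrix.det (1 - (Polynomial.X : Polynomial ℤ) • g8.map Polynomial.C) =
      (1 - Polynomial.X) ^ 7 * (1 + Polynomial.X) := by
  rw [Matrix.det_of_isUpperTriangular]
  · simp [Fin.prod_univ_castSucc, g8]
    ring
  · intro i j hij
    have hij' : j < i := hij
    have hne : i ≠ j := hij'.ne'
    have h0 : i ≠ 0 := by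
      intro h; rw [h] at hij'; exact absurd hij' (Fin.not_lt_zero _)
    simp [g8, hne, h0]

/-- the two series -/
noncomputable def Phi (g : ℤˣ) : PowerSeries ℤ :=
  PowerSeries.mk (fun m : ℕ =>
          ((Set.ncard {x : Fin 9 → ℤ |
              (fun j => ((x j : ℤ) : ℝ)) ∈ (m : ℝ) • P10 ∧
              Matrix.mulVec (rhoU g : Matrix (Fin 9) (Fin 9) ℤ) x = x} : ℕ) : ℤ))
        * (1 - PowerSeries.X)
        * ((Matrix.det (1 - (Polynomial.X : Polynomial ℤ) •
              (sg g).map Polynomial.C) : Polynomial ℤ) : PowerSeries ℤ)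

theorem Phi_one : Phi 1 = (1 + PowerSeries.X) * (1 + PowerSeries.X ^ 3) := by
  rw [Phi, sg_one, det_one]
  have e : PowerSeries.mk (fun m : ℕ =>
          ((Set.ncard {x : Fin 9 → ℤ |
              (fun j => ((x j : ℤ) : ℝ)) ∈ (m : ℝ) • P10 ∧
              Matrix.mulVec (rhoU 1 : Matrix (Fin 9) (Fin 9) ℤ) x = x} : ℕ) : ℤ)) = ser hT := by
    ext m
    rw [PowerSeries.coeff_mk, ← count_one, rhoU_coe, rho_one]
  rw [e, ← ser_T]
  push_cast
  ring

theorem Phi_neg : Phi (-1) =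
    (1 + PowerSeries.X ^ 2) * (1 - PowerSeries.X + PowerSeries.X ^ 2) := by
  rw [Phi, sg_neg, det_g8]
  have e : PowerSeries.mk (fun m : ℕ =>
          ((Set.ncard {x : Fin 9 → ℤ |
              (fun j => ((x j : ℤ) : ℝ)) ∈ (m : ℝ) • P10 ∧
              Matrix.mulVec (rhoU (-1) : Matrix (Fin 9) (Fin 9) ℤ) x = x} : ℕ) : ℤ)) =
      ser hTg := by
    ext m
    rw [PowerSeries.coeff_mk, ← count_neg, rhoU_coe, rho_neg]
  rw [e, ← ser_Tg]
  push_cast
  ring

/-- The negation of the preceding statement: For any finite group acting linearly on Z^n and invariant lattice polytope P whose equivariant h*-series is a polynomial, every coefficient with positive h*_i has nonzero sum over the group, i.e. contains the trivial representation. -/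
theorem result :
    ¬ (∀ (G : Type) [Group G] [Fintype G] (n : ℕ)
      (ρ : G →* Matrix.GeneralLinearGroup (Fin n) ℤ)
      (V : Finset (Fin n → ℤ)) (P : Set (Fin n → ℝ)),
      V.Nonempty →
      (∀ g : G, ∀ v ∈ V,
        Matrix.mulVec (ρ g : Matrix (Fin n) (Fin n) ℤ) v ∈ V) →
      P = convexHull ℝ
        ((fun v : Fin n → ℤ => fun j => ((v j : ℤ) : ℝ)) '' (V : Set (Fin n → ℤ))) →
      ∀ (d : ℕ) (ι : (Fin d → ℤ) →ₗ[ℤ] (Fin n → ℤ))
        (σ : G → Matrix (Fin d) (Fin d) ℤ) (Φ : G → PowerSeries ℤ),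
      Function.Injective ι →
      (∀ x : Fin n → ℤ,
        (∃ y : Fin d → ℤ, ι y = x) ↔
          (fun j => ((x j : ℤ) : ℝ)) ∈ vectorSpan ℝ P) →
      (∀ (g : G) (y : Fin d → ℤ),
        ι (Matrix.mulVec (σ g) y) =
          Matrix.mulVec (ρ g : Matrix (Fin n) (Fin n) ℤ) (ι y)) →
      (∀ g : G, Φ g =
        PowerSeries.mk (fun m : ℕ =>
          ((Set.ncard {x : Fin n → ℤ |
              (fun j => ((x j : ℤ) : ℝ)) ∈ (m : ℝ) • P ∧
              Matrix.mulVec (ρ g : Matrix (Fin n) (Fin n) ℤ) x = x} : ℕ) : ℤ))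
        * (1 - PowerSeries.X)
        * ((Matrix.det (1 - (Polynomial.X : Polynomial ℤ) •
              (σ g).map Polynomial.C) : Polynomial ℤ) : PowerSeries ℤ)) →
      (∃ N : ℕ, ∀ g : G, ∀ i : ℕ, N ≤ i →
        PowerSeries.coeff (R := ℤ) i (Φ g) = 0) →
      ∀ i : ℕ, 0 < PowerSeries.coeff (R := ℤ) i (Φ 1) →
        (∑ g : G, PowerSeries.coeff (R := ℤ) i (Φ g)) ≠ 0) := by
  intro H
  have e1 : ((1 + PowerSeries.X) * (1 + PowerSeries.X ^ 3) : PowerSeries ℤ)
      = 1 + PowerSeries.X + PowerSeries.X ^ 3 + PowerSeries.X ^ 4 := by ring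
  have e2 : ((1 + PowerSeries.X ^ 2) * (1 - PowerSeries.X + PowerSeries.X ^ 2) : PowerSeries ℤ)
      = 1 - PowerSeries.X + PowerSeries.X ^ 2 + PowerSeries.X ^ 2 - PowerSeries.X ^ 3
        + PowerSeries.X ^ 4 := by ring
  have hP : P10 = convexHull ℝ
      ((fun v : Fin 9 → ℤ => fun j => ((v j : ℤ) : ℝ)) '' (S : Set (Fin 9 → ℤ))) := by
    rw [S_image]; rfl
  have := H ℤˣ 9 rhoU S P10 ⟨v10 0, Finset.mem_image_of_mem _ (Finset.mem_univ _)⟩
    (fun g v hv => S_inv g v hv) hP 8 inc sg Phi inc_inj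
    (fun x => (inc_range x).trans (span_iff x)) inc_sg (fun g => rfl)
    ⟨5, by
      intro g i hi
      rcases Int.units_eq_one_or g with rfl | rfl
      · rw [Phi_one, e1]
        have h0 : i ≠ 0 := by omega
        have h1 : i ≠ 1 := by omega
        have h3 : i ≠ 3 := by omega
        have h4 : i ≠ 4 := by omega
        simp [PowerSeries.coeff_X, PowerSeries.coeff_X_pow, PowerSeries.coeff_one, h0, h1, h3, h4]
      · rw [Phi_neg, e2]
        have h0 : i ≠ 0 := by omega
        have h1 : i ≠ 1 := by omega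
        have h2 : i ≠ 2 := by omega
        have h3 : i ≠ 3 := by omega
        have h4 : i ≠ 4 := by omega
        simp [PowerSeries.coeff_X, PowerSeries.coeff_X_pow, PowerSeries.coeff_one, h0, h1, h2,
          h3, h4]⟩ 1 (by
      rw [Phi_one, e1]
      simp [PowerSeries.coeff_X, PowerSeries.coeff_X_pow, PowerSeries.coeff_one])
  apply this
  have hu : (Finset.univ : Finset ℤˣ) = {1, -1} := by decide
  rw [hu, Finset.sum_pair (by decide), Phi_one, Phi_neg, e1, e2]
  simp [PowerSeries.coeff_X, PowerSeries.coeff_X_pow, PowerSeries.coeff_one]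

end Pool.Agent.S11006
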