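import Pool.Statements.S11127
import Pool.Agent.V11143.Deg4
-- import your own Pool.Agent.* helpers here

set_option autoImplicit false
open Pool Pool.MP_bd7745_co

namespace Pool.Agent.S11127

/-- For k = 3 and k = 4: among all k-uniform hypergraphs on n labelled vertices, the fraction having two distinct vertices of equal degree tends to 1 as n → ∞. -/
theorem result :
    ∀ k : ℕ, (k = 3 ∨ k = 4) →
      Filter.Tendsto
        (fun n : ℕ =>
          ((((Finset.univ : Finset (Fin n)).powersetCard k).powerset.filter
              (fun H => ∃ v w : Fin n, v ≠ w ∧
                (H.filter (fun e => v ∈ e)).card = (H.filter (fun e => w ∈ e)).card)).card : ℝ)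
            / ((((Finset.univ : Finset (Fin n)).powersetCard k).powerset.card : ℝ)))
        Filter.atTop (nhds 1) := by
  exact Pool.Agent.V11143.Deg.main

end Pool.Agent.S11127
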