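import Pool.Statements.S11238

set_option autoImplicit false
open Pool Pool.MP_c1e4cd_co

namespace Pool.Agent.S11238

open Equiv Finset

/-- permutations sending `0` into the first `k` points -/
lemma card_low (m k : ℕ) (hk : k ≤ m + 1) :
    (univ.filter (fun σ : Perm (Fin (m + 1)) => (σ 0).val < k)).card = k * m.factorial := by
  have h1 : (univ.filter (fun σ : Perm (Fin (m + 1)) => (σ 0).val < k)).card =
      ((univ.filter (fun p : Fin (m + 1) => p.val < k)) ×ˢ (univ : Finset (Perm (Fin m)))).card := by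
    refine Finset.card_bij (fun σ _ => Equiv.Perm.decomposeFin σ) ?_ ?_ ?_
    · intro σ hσ
      simp only [Finset.mem_filter, Finset.mem_univ, true_and, Finset.mem_product, and_true] at hσ ⊢
      have : σ 0 = (Equiv.Perm.decomposeFin σ).1 := by
        conv_lhs => rw [← Equiv.symm_apply_apply Equiv.Perm.decomposeFin σ]
        rw [← Equiv.Perm.decomposeFin_symm_apply_zero (Equiv.Perm.decomposeFin σ).1
          (Equiv.Perm.decomposeFin σ).2]
      rw [← this]; exact hσ
    · intro a _ b _ hab
      exact Equiv.Perm.decomposeFin.injective hab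
    · rintro ⟨p, e⟩ hb
      simp only [Finset.mem_filter, Finset.mem_univ, true_and, Finset.mem_product, and_true] at hb
      refine ⟨Equiv.Perm.decomposeFin.symm (p, e), ?_, by simp⟩
      simp only [Finset.mem_filter, Finset.mem_univ, true_and]
      rw [Equiv.Perm.decomposeFin_symm_apply_zero]; exact hb
  rw [h1, Finset.card_product]
  have h2 : (univ.filter (fun p : Fin (m + 1) => p.val < k)).card = k := by
    have : (univ.filter (fun p : Fin (m + 1) => p.val < k)).card
        = ((Finset.range k)).card := by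
      refine Finset.card_bij (fun p _ => p.val) ?_ ?_ ?_
      · intro p hp; simpa using hp
      · intro a _ b _ h; exact Fin.ext h
      · intro b hb
        have hb' : b < k := by simpa using hb
        exact ⟨⟨b, by omega⟩, by simpa using hb', rfl⟩
    rw [this, Finset.card_range]
  rw [h2, Finset.card_univ, Fintype.card_perm, Fintype.card_fin]

/-- The negation of the preceding statement: Some C₀>0 works for all n≥1: if A⊆S_n, c=∣A∣/(n-1)!, and 1_A is within mean-square εc/n of the span of 1-coset indicators, then 1_A is within C₀εc/n of a union of round(c) distinct 1-cosets, and ∣c−round(c)∣≤C₀ε. -/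
theorem result :
    ¬ (∃ C₀ : ℝ, 0 < C₀ ∧ ∀ n : ℕ, 1 ≤ n → ∀ A : Finset (Equiv.Perm (Fin n)), ∀ ε : ℝ, 0 ≤ ε →
    (∃ a : Fin n → Fin n → ℝ,
      (1 / (n.factorial : ℝ)) * ∑ σ : Equiv.Perm (Fin n),
          ((if σ ∈ A then (1:ℝ) else 0) - ∑ i : Fin n, a i (σ i)) ^ 2
        ≤ ε * ((A.card : ℝ) / ((n - 1).factorial : ℝ)) / n) →
    ∃ S : Finset (Fin n × Fin n),
      (S.card : ℤ) = round ((A.card : ℝ) / ((n - 1).factorial : ℝ)) ∧
      (1 / (n.factorial : ℝ)) * ∑ σ : Equiv.Perm (Fin n),
          ((if σ ∈ A then (1:ℝ) else 0) - (if ∃ p ∈ S, σ p.1 = p.2 then (1:ℝ) else 0)) ^ 2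
        ≤ C₀ * ε * ((A.card : ℝ) / ((n - 1).factorial : ℝ)) / n ∧
      |(A.card : ℝ) / ((n - 1).factorial : ℝ)
          - ((round ((A.card : ℝ) / ((n - 1).factorial : ℝ)) : ℤ) : ℝ)| ≤ C₀ * ε) := by
  rintro ⟨C₀, hC0, h⟩
  obtain ⟨k, hk⟩ := exists_nat_gt C₀
  -- n = (k + 3) + 1
  set m : ℕ := k + 3 with hm
  let τ : Perm (Fin (m + 1)) := Equiv.swap 0 ⟨k, by omega⟩
  have hτ0 : (τ 0).val = k := by simp [τ]
  let B : Finset (Perm (Fin (m + 1))) := univ.filter (fun σ => (σ 0).val < k)
  have hτB : τ ∉ B := by simp [B, hτ0]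
  have hA : (insert τ B).card = k * m.factorial + 1 := by
    rw [Finset.card_insert_of_notMem hτB, card_low m k (by omega)]
  have hmf : (0 : ℝ) < (m.factorial : ℝ) := by exact_mod_cast m.factorial_pos
  have hm6 : (6 : ℝ) ≤ (m.factorial : ℝ) := by
    have : Nat.factorial 3 ≤ m.factorial := Nat.factorial_le (by omega)
    have h6 : Nat.factorial 3 = 6 := rfl
    rw [h6] at this
    exact_mod_cast this
  set c : ℝ := ((insert τ B).card : ℝ) / (m.factorial : ℝ) with hc
  have hceq : c = k + 1 / (m.factorial : ℝ) := by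
    rw [hc, hA]; push_cast; field_simp
  have hkpos : (0 : ℝ) ≤ k := by positivity
  have hcpos : 0 < c := by rw [hceq]; positivity
  have hfac : ((m + 1).factorial : ℝ) = (m + 1) * m.factorial := by
    rw [Nat.factorial_succ]; push_cast; ring
  have key := h (m + 1) (by omega) (insert τ B) (1 / (c * m.factorial)) (by positivity) ?_
  · obtain ⟨S, -, -, h3⟩ := key
    have e1 : m + 1 - 1 = m := by omega
    rw [e1] at h3
    change |c - ((round c : ℤ) : ℝ)| ≤ C₀ * (1 / (c * m.factorial)) at h3
    have hr : round c = (k : ℤ) := by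
      rw [round_eq, Int.floor_eq_iff]
      have : 1 / (m.factorial : ℝ) ≤ 1 / 6 := by
        apply one_div_le_one_div_of_le <;> linarith
      have h0 : 0 < 1 / (m.factorial : ℝ) := by positivity
      constructor
      · rw [hceq]; push_cast; linarith
      · rw [hceq]; push_cast; linarith
    rw [hr, hceq] at h3
    have h4 : |(k : ℝ) + 1 / (m.factorial : ℝ) - ((k : ℤ) : ℝ)| = 1 / (m.factorial : ℝ) := by
      have : (k : ℝ) + 1 / (m.factorial : ℝ) - ((k : ℤ) : ℝ) = 1 / (m.factorial : ℝ) := by
        push_cast; ring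
      rw [this, abs_of_pos (by positivity)]
    rw [h4, ← hceq] at h3
    have h5 : c ≤ C₀ := by
      have h6 : C₀ * (1 / (c * (m.factorial : ℝ))) = (C₀ / c) * (1 / (m.factorial : ℝ)) := by
        field_simp
      rw [h6] at h3
      have h7 : 1 ≤ C₀ / c := by
        by_contra hcon
        push Not at hcon
        have : (C₀ / c) * (1 / (m.factorial : ℝ)) < 1 * (1 / (m.factorial : ℝ)) :=
          mul_lt_mul_of_pos_right hcon (by positivity)
        linarith
      rwa [le_div_iff₀ hcpos, one_mul] at h7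
    have h8 : (k : ℝ) ≤ c := by rw [hceq]; have : 0 < 1 / (m.factorial : ℝ) := by positivity
                                linarith
    linarith
  · refine ⟨fun i j => if i = 0 ∧ j.val < k then 1 else 0, ?_⟩
    have hsum : ∀ σ : Perm (Fin (m + 1)),
        (∑ i : Fin (m + 1), (if i = 0 ∧ (σ i).val < k then (1 : ℝ) else 0)) =
          if (σ 0).val < k then 1 else 0 := by
      intro σ
      rw [Finset.sum_eq_single (0 : Fin (m + 1))]
      · simp
      · intro b _ hb; simp [hb]
      · intro hh; exact absurd (Finset.mem_univ _) hh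
    have hterm : ∀ σ : Perm (Fin (m + 1)),
        ((if σ ∈ insert τ B then (1:ℝ) else 0) -
          ∑ i : Fin (m + 1), (if i = 0 ∧ (σ i).val < k then (1 : ℝ) else 0)) ^ 2
        = if σ = τ then 1 else 0 := by
      intro σ
      rw [hsum σ]
      by_cases hσ : σ = τ
      · subst hσ
        simp [hτ0]
      · by_cases h1 : (σ 0).val < k
        · simp [hσ, B, h1]
        · simp [hσ, B, h1]
    have e1 : m + 1 - 1 = m := by omega
    rw [e1]
    change (1 / ((m + 1).factorial : ℝ)) * ∑ σ : Equiv.Perm (Fin (m + 1)),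
          ((if σ ∈ insert τ B then (1:ℝ) else 0) -
            ∑ i : Fin (m + 1), (if i = 0 ∧ (σ i).val < k then (1 : ℝ) else 0)) ^ 2
        ≤ 1 / (c * m.factorial) * c / ((m + 1 : ℕ) : ℝ)
    rw [Finset.sum_congr rfl (fun σ _ => hterm σ)]
    rw [Finset.sum_ite_eq' Finset.univ τ (fun _ => (1 : ℝ))]
    simp only [Finset.mem_univ, if_true, mul_one]
    rw [hfac]
    apply le_of_eq
    push_cast
    field_simp

end Pool.Agent.S11238
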