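import Pool.Statements.S11473
import Pool.Agent.V11118.LDimMain

set_option autoImplicit false
open Pool Pool.MP_cc29fe_co

namespace Pool.Agent.S11473

/-- Every finite connected graph with n vertices and clique number ω, where n ≥ ω+1 ≥ 4, has a set of at most (ω−2)/(ω−1)·n vertices distinguishing every adjacent pair by distance, i.e. local metric dimension ≤ (ω−2)n/(ω−1). -/
theorem result :
    ∀ (V : Type) [Fintype V] (G : SimpleGraph V), G.Connected →
      ∀ ω : ℕ, (∃ s : Finset V, G.IsNClique ω s) → G.CliqueFree (ω + 1) →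
        4 ≤ ω + 1 → ω + 1 ≤ Fintype.card V →
        ∃ W : Finset V,
          (∀ u v : V, G.Adj u v → ∃ w ∈ W, G.dist u w ≠ G.dist v w) ∧
          (W.card : ℝ) ≤ ((ω : ℝ) - 2) / ((ω : ℝ) - 1) * (Fintype.card V : ℝ) := by
  intro V _ G hconn ω _ hfree h4 hcard
  obtain ⟨k, rfl⟩ : ∃ k, ω = k + 1 := ⟨ω - 1, by omega⟩
  obtain ⟨W, hW, hWc⟩ := Pool.Agent.V11118.LDim.main hconn k (by omega) hfree hcard
  refine ⟨W, hW, ?_⟩
  obtain ⟨m, rfl⟩ : ∃ m, k = m + 2 := ⟨k - 2, by omega⟩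
  have h1 : ((m : ℝ) + 2) * (W.card : ℝ) ≤ ((m : ℝ) + 1) * (Fintype.card V : ℝ) := by
    have : (m + 2) * W.card ≤ (m + 1) * Fintype.card V := hWc
    exact_mod_cast this
  have h2 : (0 : ℝ) < (m : ℝ) + 2 := by positivity
  have h3 : (((m + 2 + 1 : ℕ) : ℝ) - 2) / (((m + 2 + 1 : ℕ) : ℝ) - 1) = ((m : ℝ) + 1) / ((m : ℝ) + 2) := by
    push_cast
    congr 1 <;> ring
  rw [h3, div_mul_eq_mul_div, le_div_iff₀ h2]
  linarith

end Pool.Agent.S11473
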