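import Pool.Statements.S11612
import Pool.Agent.H430R3.Helly

set_option autoImplicit false
open Pool Pool.MP_d20af1_co

namespace Pool.Agent.S11612

/-- The five-cycle `(i, false)` with a false twin `(i, true)` of every vertex, the twins being
pairwise non-adjacent. -/
def G : SimpleGraph (Fin 5 × Bool) where
  Adj x y := (y.1 = x.1 + 1 ∨ x.1 = y.1 + 1) ∧ (x.2 && y.2) = false
  symm := ⟨by decide⟩
  loopless := ⟨by decide⟩

instance : DecidableRel G.Adj := fun x y =>
  inferInstanceAs (Decidable ((y.1 = x.1 + 1 ∨ x.1 = y.1 + 1) ∧ (x.2 && y.2) = false))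

/-- Bags with independence number two. -/
def B1 : Fin 6 → Finset (Fin 5 × Bool) :=
  ![{(0, false), (1, false), (2, false), (3, false), (4, false)},
    {(0, true), (4, false), (1, false)}, {(1, true), (0, false), (2, false)},
    {(2, true), (1, false), (3, false)}, {(3, true), (2, false), (4, false)},
    {(4, true), (3, false), (0, false)}]

/-- Bipartite bags. -/
def B2 : Fin 3 → Finset (Fin 5 × Bool) :=
  ![{(0, false), (0, true), (1, false), (1, true), (2, false), (2, true)},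
    {(0, false), (0, true), (2, false), (2, true), (3, false), (3, true)},
    {(0, false), (0, true), (3, false), (3, true), (4, false), (4, true)}]

theorem star_conn {n : ℕ} (c : Fin n) (S : Set (Fin n)) (h : c ∈ S ∨ ∃ a, ∀ i, i ∈ S ↔ i = a) :
    ((SimpleGraph.starGraph c).induce S).Connected := by
  rcases h with h | ⟨a, ha⟩
  · have : Nonempty S := ⟨⟨c, h⟩⟩
    refine ⟨?_⟩
    have key : ∀ x : S, ((SimpleGraph.starGraph c).induce S).Reachable ⟨c, h⟩ x := by
      intro x
      by_cases hx : (x : Fin n) = c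
      · have : x = ⟨c, h⟩ := Subtype.ext hx
        rw [this]
      · apply SimpleGraph.Adj.reachable
        rw [SimpleGraph.induce_adj, SimpleGraph.starGraph_adj]
        exact ⟨fun h' => hx h'.symm, Or.inl rfl⟩
    intro x y
    exact (key x).symm.trans (key y)
  · have : Nonempty S := ⟨⟨a, (ha a).2 rfl⟩⟩
    have : Subsingleton S := ⟨fun x y => Subtype.ext
      (((ha _).1 x.2).trans ((ha _).1 y.2).symm)⟩
    exact ⟨fun x y => by rw [Subsingleton.elim x y]⟩

theorem no_small {n : ℕ} (T : SimpleGraph (Fin n)) (B : Fin n → Finset (Fin 5 × Bool))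
    (hT : T.IsTree) (hE : ∀ u v, G.Adj u v → ∃ i, u ∈ B i ∧ v ∈ B i)
    (hC : ∀ v, (T.induce {i : Fin n | v ∈ B i}).Connected) : ∃ t, 5 ≤ (B t).card := by
  classical
  have hadj1 : ∀ i : Fin 5, G.Adj (i, false) (i + 1, true) := by decide
  have hadj2 : ∀ i : Fin 5, G.Adj (i, false) (i + 1, false) := by decide
  have hadj3 : ∀ i : Fin 5, G.Adj (i + 1, true) (i + 2, false) := by decide
  let S : Fin 5 → Set (Fin n) := fun i =>
    {t | ((i, false) : Fin 5 × Bool) ∈ B t} ∪ {t | ((i + 1, true) : Fin 5 × Bool) ∈ B t}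
  have hS : ∀ i, (T.induce (S i)).Connected := by
    intro i
    obtain ⟨t, ht1, ht2⟩ := hE _ _ (hadj1 i)
    exact SimpleGraph.induce_union_connected (hC _).preconnected (hC _).preconnected ⟨t, ht1, ht2⟩
  have h1 : ∀ i, (S i ∩ S (i + 1)).Nonempty := by
    intro i
    obtain ⟨t, ht1, ht2⟩ := hE _ _ (hadj2 i)
    exact ⟨t, Or.inl ht1, Or.inl ht2⟩
  have h2 : ∀ i, (S i ∩ S (i + 2)).Nonempty := by
    intro i
    obtain ⟨t, ht1, ht2⟩ := hE _ _ (hadj3 i)
    exact ⟨t, Or.inr ht1, Or.inl ht2⟩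
  have hp : ∀ i j, (S i ∩ S j).Nonempty := by
    intro i j
    have hcase : ∀ i j : Fin 5, j = i ∨ j = i + 1 ∨ j = i + 2 ∨ i = j + 1 ∨ i = j + 2 := by
      decide
    rcases hcase i j with rfl | rfl | rfl | rfl | rfl
    · rw [Set.inter_self]
      obtain ⟨t, ht, -⟩ := h1 j
      exact ⟨t, ht⟩
    · exact h1 i
    · exact h2 i
    · rw [Set.inter_comm]; exact h1 j
    · rw [Set.inter_comm]; exact h2 j
  obtain ⟨t, ht⟩ := Pool.Agent.H430R3.helly hT S hS hp
  refine ⟨t, ?_⟩
  have hg : ∀ i : Fin 5, ∃ x : Fin 5 × Bool, x ∈ B t ∧ (x = (i, false) ∨ x = (i + 1, true)) := by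
    intro i
    rcases ht i with h | h
    · exact ⟨_, h, Or.inl rfl⟩
    · exact ⟨_, h, Or.inr rfl⟩
  choose g hg1 hg2 using hg
  have hinj : Function.Injective g := by
    intro i j hij
    have hi := hg2 i
    have hj := hg2 j
    rw [← hij] at hj
    rcases hi with hi | hi <;> rcases hj with hj | hj <;> rw [hi] at hj
    · exact (Prod.ext_iff.1 hj).1
    · exact absurd (Prod.ext_iff.1 hj).2 (by simp)
    · exact absurd (Prod.ext_iff.1 hj).2 (by simp)
    · exact add_right_cancel (Prod.ext_iff.1 hj).1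
  have hcard : (Finset.univ.image g).card ≤ (B t).card := by
    apply Finset.card_le_card
    intro x hx
    rw [Finset.mem_image] at hx
    obtain ⟨i, -, rfl⟩ := hx
    exact hg1 i
  rw [Finset.card_image_of_injective _ hinj] at hcard
  simpa using hcard

/-- The negation of the preceding statement: For every finite graph G and all a, k: if G has a tree decomposition whose bags all have independence number at most a, and one whose bags all induce k-colorable subgraphs, then G has a tree decomposition with all bags of size at most a·k. -/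
theorem result :
    ¬ (∀ (V : Type) [Fintype V] (G : SimpleGraph V) (a k : ℕ),
      (∃ (n : ℕ) (T : SimpleGraph (Fin n)) (B : Fin n → Finset V),
        T.IsTree ∧
        (∀ u v : V, G.Adj u v → ∃ i, u ∈ B i ∧ v ∈ B i) ∧
        (∀ v : V, (T.induce {i : Fin n | v ∈ B i}).Connected) ∧
        (∀ i : Fin n, ∀ S : Finset V, S ⊆ B i → G.IsIndepSet (S : Set V) → S.card ≤ a)) →
      (∃ (n : ℕ) (T : SimpleGraph (Fin n)) (B : Fin n → Finset V),
        T.IsTree ∧
        (∀ u v : V, G.Adj u v → ∃ i, u ∈ B i ∧ v ∈ B i) ∧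
        (∀ v : V, (T.induce {i : Fin n | v ∈ B i}).Connected) ∧
        (∀ i : Fin n, (G.induce (B i : Set V)).Colorable k)) →
      (∃ (n : ℕ) (T : SimpleGraph (Fin n)) (B : Fin n → Finset V),
        T.IsTree ∧
        (∀ u v : V, G.Adj u v → ∃ i, u ∈ B i ∧ v ∈ B i) ∧
        (∀ v : V, (T.induce {i : Fin n | v ∈ B i}).Connected) ∧
        (∀ i : Fin n, (B i).card ≤ a * k))) := by
  intro h
  have hA1 : ∀ v : Fin 5 × Bool,
      ((SimpleGraph.starGraph (0 : Fin 6)).induce {i : Fin 6 | v ∈ B1 i}).Connected := by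
    intro v
    apply star_conn
    have key : ∀ v : Fin 5 × Bool, v ∈ B1 0 ∨ ∃ a, ∀ i, v ∈ B1 i ↔ i = a := by decide
    exact key v
  have hA2 : ∀ i : Fin 6, ∀ S : Finset (Fin 5 × Bool), S ⊆ B1 i →
      G.IsIndepSet (S : Set (Fin 5 × Bool)) → S.card ≤ 2 := by
    intro i S hS hind
    have key : ∀ i : Fin 6, ∀ S ∈ (B1 i).powerset, (∀ u ∈ S, ∀ v ∈ S, ¬ G.Adj u v) →
        S.card ≤ 2 := by decide +kernel
    refine key i S (Finset.mem_powerset.2 hS) ?_
    intro u hu v hv hadj
    exact hind (Finset.mem_coe.2 hu) (Finset.mem_coe.2 hv) hadj.ne hadj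
  have hB1 : ∀ v : Fin 5 × Bool,
      ((SimpleGraph.starGraph (1 : Fin 3)).induce {i : Fin 3 | v ∈ B2 i}).Connected := by
    intro v
    apply star_conn
    have key : ∀ v : Fin 5 × Bool, v ∈ B2 1 ∨ ∃ a, ∀ i, v ∈ B2 i ↔ i = a := by decide
    exact key v
  have hB2 : ∀ i : Fin 3, (G.induce (B2 i : Set (Fin 5 × Bool))).Colorable 2 := by
    intro i
    have key : ∀ i : Fin 3, ∀ u ∈ B2 i, ∀ v ∈ B2 i, G.Adj u v →
        (if u.1 = (![1, 3, 4] : Fin 3 → Fin 5) i then (1 : Fin 2) else 0) ≠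
          (if v.1 = (![1, 3, 4] : Fin 3 → Fin 5) i then (1 : Fin 2) else 0) := by
      decide +kernel
    refine ⟨SimpleGraph.Coloring.mk (fun x => if x.1.1 = (![1, 3, 4] : Fin 3 → Fin 5) i
      then (1 : Fin 2) else 0) ?_⟩
    intro u v huv
    exact key i u.1 u.2 v.1 v.2 huv
  have hE1 : ∀ u v : Fin 5 × Bool, G.Adj u v → ∃ i, u ∈ B1 i ∧ v ∈ B1 i := by decide
  have hE2 : ∀ u v : Fin 5 × Bool, G.Adj u v → ∃ i, u ∈ B2 i ∧ v ∈ B2 i := by decide
  obtain ⟨n, T, B, hT, hE, hC, hcard⟩ := h (Fin 5 × Bool) G 2 2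
    ⟨6, SimpleGraph.starGraph 0, B1, SimpleGraph.isTree_starGraph 0, hE1, hA1, hA2⟩
    ⟨3, SimpleGraph.starGraph 1, B2, SimpleGraph.isTree_starGraph 1, hE2, hB1, hB2⟩
  obtain ⟨t, ht⟩ := no_small T B hT hE hC
  have := hcard t
  omega

end Pool.Agent.S11612
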