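import Pool.Statements.S11655
import Pool.Agent.V11180.Chg5

set_option autoImplicit false
open Filter
open Pool Pool.MP_d33b86_co

namespace Pool.Agent.S11655

/-- For all integers g ≥ h ≥ 2 there is an infinite set A of positive integers containing no g distinct translates of any h-element set, such that for every ε>0, eventually ∣A ∩ [1,n]∣ ≥ n^(α(g,h)−ε). -/
theorem result :
    ∀ g h : ℕ, 2 ≤ h → h ≤ g →
      ∃ A : Set ℤ,
        A ⊆ {n : ℤ | 1 ≤ n} ∧ A.Infinite ∧
        (∀ X : Finset ℤ, X.card = h → ∀ k : Fin g → ℤ, Function.Injective k →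
          ¬ (∀ i : Fin g, ∀ x ∈ X, x + k i ∈ A)) ∧
        ∀ ε : ℝ, 0 < ε →
          ∀ᶠ n : ℕ in atTop,
            (n : ℝ) ^ ((1 - 1 / (h : ℝ)) * (1 - 1 / (g : ℝ)) *
                (1 + 1 / ((h : ℝ) * (g : ℝ) - 1)) - ε)
              ≤ ((A ∩ Set.Icc (1 : ℤ) (n : ℤ)).ncard : ℝ) := by
  intro g' h' hh' hg'
  obtain ⟨h, rfl⟩ : ∃ h, h' = h + 1 := ⟨h' - 1, by omega⟩
  obtain ⟨g, rfl⟩ : ∃ g, g' = g + 1 := ⟨g' - 1, by omega⟩
  have hh : 1 ≤ h := by omega
  have hg : 1 ≤ g := by omega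
  have hh0 : (1 : ℝ) ≤ h := by exact_mod_cast hh
  have hg0 : (1 : ℝ) ≤ g := by exact_mod_cast hg
  have hτ := V11180.Chg.log4_bounds
  set τ := Real.log 4 with hτdef
  set N : ℝ := h * g + h + g with hN
  have hNpos : 0 < N := by positivity
  set κ : ℝ := τ * (h + g) / N with hκdef
  have hκ0 : 0 ≤ κ := by positivity
  have hκ : κ * (h * g + h + g) = τ * (h + g) := by
    rw [hκdef, ← hN]
    field_simp
  set α : ℝ := h * g / N with hα
  have hα0 : 0 < α := by positivity
  have hκα : τ - κ = τ * α := by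
    rw [hκdef, hα]
    field_simp
    rw [hN]
    ring
  have hκ1 : κ < τ := by
    have : 0 < τ * α := by positivity
    linarith
  obtain ⟨i₀, A, hA1, hA2, hA3⟩ := V11180.Chg.exists_infinite hh hg hκ0 hκ
  have hcount : ∀ i, i₀ ≤ i → ∀ n : ℕ, 3 * 4 ^ i ≤ n →
      (V11180.Chg.mJ κ i : ℝ) ≤ 2 * ((A ∩ Set.Icc (1 : ℤ) (n : ℤ)).ncard : ℝ) := by
    intro i hi n hn
    obtain ⟨F, hF1, hF2, -, hF3⟩ := hA3 i hi
    have h1 : F.card ≤ (A ∩ Set.Icc (1 : ℤ) (n : ℤ)).ncard := by
      rw [← Set.ncard_coe_finset]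
      apply Set.ncard_le_ncard
      · intro y hy
        refine ⟨hF1 hy, hA1 y (hF1 hy), ?_⟩
        have h2 := (V11180.Chg.S_bounds (hF2 hy)).2
        have h3 : ((3 * 4 ^ i : ℕ) : ℤ) ≤ n := by exact_mod_cast hn
        push_cast at h3
        omega
      · exact (Set.finite_Icc _ _).subset Set.inter_subset_right
    exact_mod_cast hF3.trans (Nat.mul_le_mul_left 2 h1)
  refine ⟨A, fun y hy => hA1 y hy, ?_, ?_, ?_⟩
  · -- infinite
    intro hfin
    obtain ⟨b, hb⟩ := hfin.bddAbove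
    obtain ⟨i, hi1, hi2⟩ : ∃ i, i₀ ≤ i ∧ b < 2 * 4 ^ i := by
      refine ⟨i₀ + b.toNat, by omega, ?_⟩
      have h1 : i₀ + b.toNat < 4 ^ (i₀ + b.toNat) := Nat.lt_pow_self (by norm_num)
      have h2 : ((i₀ + b.toNat : ℕ) : ℤ) < ((4 ^ (i₀ + b.toNat) : ℕ) : ℤ) := by exact_mod_cast h1
      push_cast at h2
      have h3 := Int.self_le_toNat b
      have h4 : (0 : ℤ) < 4 ^ (i₀ + b.toNat) := by positivity
      omega
    obtain ⟨F, hF1, hF2, hF3, hF4⟩ := hA3 i hi1
    have h5 : 0 < F.card := by omega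
    obtain ⟨y, hy⟩ := Finset.card_pos.1 h5
    have h6 := hb (hF1 hy)
    have h7 := (V11180.Chg.S_bounds (hF2 hy)).1
    omega
  · -- no translates
    intro X hX k hk hall
    set K : Finset ℤ := Finset.univ.image k with hK
    have hKc : K.card = g + 1 := by
      rw [hK, Finset.card_image_of_injective _ hk, Finset.card_univ, Fintype.card_fin]
    set xs := X.orderEmbOfFin hX with hxs
    set ks := K.orderEmbOfFin hKc with hks
    let c : V11180.Chg.Cfg h g :=
      (xs 0 + ks 0, fun a => xs a.succ + ks 0, fun b => xs 0 + ks b.succ)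
    have hU : ∀ a, V11180.Chg.U c a = xs a + ks 0 := by
      intro a
      refine Fin.cases ?_ (fun a => ?_) a
      · rfl
      · rfl
    have hV : ∀ b, V11180.Chg.V c b = xs 0 + ks b := by
      intro b
      refine Fin.cases ?_ (fun b => ?_) b
      · rfl
      · rfl
    have hval : V11180.Chg.Valid c := by
      constructor
      · intro a a' haa
        rw [hU, hU]
        have := xs.strictMono haa
        omega
      · intro b b' hbb
        rw [hV, hV]
        have := ks.strictMono hbb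
        omega
    apply hA2 c hval
    intro p
    have h1 : V11180.Chg.Y c p = xs p.1 + ks p.2 := by
      unfold V11180.Chg.Y
      rw [hU, hV]
      show xs p.1 + ks 0 + (xs 0 + ks p.2) - (xs 0 + ks 0) = _
      ring
    rw [h1]
    have h2 : ks p.2 ∈ K := Finset.orderEmbOfFin_mem K hKc p.2
    rw [hK, Finset.mem_image] at h2
    obtain ⟨i, -, hi⟩ := h2
    rw [← hi]
    exact hall i _ (Finset.orderEmbOfFin_mem X hX p.1)
  · -- the counting function
    intro ε hε
    have hexp : (1 - 1 / ((h + 1 : ℕ) : ℝ)) * (1 - 1 / ((g + 1 : ℕ) : ℝ)) *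
        (1 + 1 / (((h + 1 : ℕ) : ℝ) * ((g + 1 : ℕ) : ℝ) - 1)) = α := by
      push_cast
      have h1 : ((h : ℝ) + 1) * (g + 1) - 1 = N := by rw [hN]; ring
      rw [h1, hα]
      have h2 : (h : ℝ) + 1 ≠ 0 := by positivity
      have h3 : (g : ℝ) + 1 ≠ 0 := by positivity
      field_simp
      rw [hN]
      ring
    rw [hexp]
    set ε' := min ε α with hε'
    have hε'0 : 0 < ε' := lt_min hε hα0
    have hε'α : 0 ≤ α - ε' := sub_nonneg.2 (min_le_right _ _)
    -- the index of the block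
    have hev : ∀ᶠ i : ℕ in atTop, i₀ ≤ i ∧
        Real.exp ((α - ε') * ((i + 2) * τ)) ≤ (1 / 8) * Real.exp ((τ - κ) * i - 7 * √(i : ℝ)) ∧
        (1 / 4) * Real.exp ((τ - κ) * i - 7 * √(i : ℝ)) ≤ V11180.Chg.mJ κ i := by
      filter_upwards [eventually_ge_atTop i₀, V11180.Chg.mJ_ge hκ0 hκ1,
        V11180.Chg.ev_lin (show 0 < ε' * τ by positivity) 7
          (Real.log 8 + 2 * (α - ε') * τ)] with i h1 h2 h3
      refine ⟨h1, ?_, h2⟩
      rw [show (1 : ℝ) / 8 = Real.exp (-Real.log 8) by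
        rw [Real.exp_neg, Real.exp_log (by norm_num)]; norm_num, ← Real.exp_add,
        Real.exp_le_exp, hκα]
      nlinarith
    rw [eventually_atTop] at hev
    obtain ⟨i₁, hi₁⟩ := hev
    filter_upwards [eventually_ge_atTop (4 ^ (i₁ + 1))] with n hn
    have hn0 : n ≠ 0 := by
      have : 0 < 4 ^ (i₁ + 1) := by positivity
      omega
    set l := Nat.log 4 n with hl
    have hl1 : 4 ^ l ≤ n := Nat.pow_log_le_self 4 hn0
    have hl2 : n < 4 ^ (l + 1) := Nat.lt_pow_succ_log_self (by norm_num) n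
    have hl3 : i₁ + 1 ≤ l := Nat.le_log_of_pow_le (by norm_num) hn
    obtain ⟨i, hi⟩ : ∃ i, l = i + 1 := ⟨l - 1, by omega⟩
    rw [hi] at hl1 hl2 hl3
    obtain ⟨h1, h2, h3⟩ := hi₁ i (by omega)
    have h4 := hcount i h1 n (by rw [pow_succ] at hl1; omega)
    have hn1 : (1 : ℝ) ≤ n := by exact_mod_cast Nat.one_le_iff_ne_zero.2 hn0
    have h5 : (n : ℝ) ^ (α - ε) ≤ (n : ℝ) ^ (α - ε') :=
      Real.rpow_le_rpow_of_exponent_le hn1 (by linarith [min_le_left ε α])
    have h6 : (n : ℝ) ^ (α - ε') ≤ Real.exp ((α - ε') * ((i + 2) * τ)) := by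
      rw [Real.rpow_def_of_pos (by linarith), Real.exp_le_exp, mul_comm]
      apply mul_le_mul_of_nonneg_left _ hε'α
      have h7 : (n : ℝ) ≤ 4 ^ (i + 2) := by exact_mod_cast hl2.le
      have h8 := Real.log_le_log (by linarith) h7
      rw [Real.log_pow] at h8
      push_cast at h8
      exact h8
    linarith

end Pool.Agent.S11655
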