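-- Proof of the frozen statement, from the sharp count of subset sums in finite abelian groups.
import Pool.Statements.S11675
import Pool.Agent.Helper398.EEFinal

set_option autoImplicit false
open Pool Pool.MP_d40e3c_co

namespace Pool.Agent.S11675

/-- Any finite set of nonzero elements of an abelian group survives in a torsion group: there is a
homomorphism to a torsion group that kills none of them. -/
theorem exists_hom (G : Type) [AddCommGroup G] (F : Finset G) (hF : ∀ x ∈ F, x ≠ 0) :
    ∃ (T : Type) (_ : AddCommGroup T) (f : G →+ T), IsAddTorsion T ∧ ∀ x ∈ F, f x ≠ 0 := by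
  have key : ∀ x : F, ∃ c : CharacterModule G, c (x : G) ≠ 0 := fun x =>
    CharacterModule.exists_character_apply_ne_zero_of_ne_zero (hF x x.2)
  choose c hc using key
  refine ⟨F → AddCircle (1 : ℚ), inferInstance, AddMonoidHom.mk' (fun g x => c x g) ?_, ?_, ?_⟩
  · intro a b
    funext x
    exact map_add (c x) a b
  · intro v
    have hn : ∀ y : AddCircle (1 : ℚ), ∃ n : ℕ, 0 < n ∧ n • y = 0 := by
      intro y
      obtain ⟨q, rfl⟩ := QuotientAddGroup.mk_surjective y
      refine ⟨q.den, q.den_pos, ?_⟩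
      rw [← QuotientAddGroup.mk_nsmul, QuotientAddGroup.eq_zero_iff]
      rw [AddSubgroup.mem_zmultiples_iff]
      refine ⟨q.num, ?_⟩
      rw [zsmul_eq_mul, mul_one, nsmul_eq_mul, mul_comm]
      exact (Rat.mul_den_eq_num q).symm
    choose n hn0 hn1 using hn
    rw [isOfFinAddOrder_iff_nsmul_eq_zero]
    refine ⟨∏ x, n (v x), Finset.prod_pos (fun x _ => hn0 _), ?_⟩
    funext x
    rw [Pi.smul_apply, Pi.zero_apply]
    obtain ⟨k, hk⟩ := Finset.dvd_prod_of_mem (fun x => n (v x)) (Finset.mem_univ x)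
    rw [hk, mul_comm, mul_smul, hn1, smul_zero]
  · intro x hx h
    exact hc ⟨x, hx⟩ (congrFun h ⟨x, hx⟩)

/-- There is a real c > 1/9 such that for all large m, every m-element subset of an abelian group with no nonempty subset summing to zero has at least ⌈c m²⌉ distinct nonempty subset sums. -/
theorem result :
    ∃ c : ℝ, 1 / 9 < c ∧ ∃ M : ℕ, ∀ m : ℕ, M ≤ m →
      ∀ (G : Type) [AddCommGroup G] [DecidableEq G] (A : Finset G),
        A.card = m →
        (∀ B ⊆ A, B.Nonempty → ∑ x ∈ B, x ≠ 0) →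
        ⌈c * ((m : ℝ) ^ 2)⌉ ≤
          (((A.powerset.erase ∅).image (fun B => ∑ x ∈ B, x)).card : ℤ) := by
  obtain ⟨M, hM⟩ := Pool.Agent.Helper398.main_exact
  refine ⟨1 / 2, by norm_num, M, ?_⟩
  intro m hm G _ _ A hA hZ
  classical
  -- the finite set of elements to keep alive
  obtain ⟨F, hF⟩ : ∃ F : Finset G, F = ((A.powerset.erase ∅).image (fun B => ∑ x ∈ B, x)) ∪
      ((A ×ˢ A).filter (fun p => p.1 ≠ p.2)).image (fun p => p.1 - p.2) := ⟨_, rfl⟩
  have hF0 : ∀ x ∈ F, x ≠ 0 := by
    intro x hx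
    rw [hF, Finset.mem_union, Finset.mem_image, Finset.mem_image] at hx
    rcases hx with ⟨B, hB, rfl⟩ | ⟨p, hp, rfl⟩
    · rw [Finset.mem_erase, Finset.mem_powerset] at hB
      exact hZ B hB.2 (Finset.nonempty_iff_ne_empty.mpr hB.1)
    · rw [Finset.mem_filter] at hp
      exact sub_ne_zero.mpr hp.2
  obtain ⟨T, _, f, hT, hf⟩ := exists_hom G F hF0
  have hinj : Set.InjOn f (A : Set G) := by
    intro x hx y hy hxy
    by_contra hne
    apply hf (x - y)
    · rw [hF, Finset.mem_union]
      right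
      rw [Finset.mem_image]
      refine ⟨(x, y), ?_, rfl⟩
      rw [Finset.mem_filter, Finset.mem_product]
      exact ⟨⟨hx, hy⟩, hne⟩
    · rw [map_sub, hxy, sub_self]
  have hZ' : ∀ B ⊆ A, B.Nonempty → f (∑ x ∈ B, x) ≠ 0 := by
    intro B hB hne
    apply hf
    rw [hF, Finset.mem_union]
    left
    rw [Finset.mem_image]
    refine ⟨B, ?_, rfl⟩
    rw [Finset.mem_erase, Finset.mem_powerset]
    exact ⟨Finset.nonempty_iff_ne_empty.mp hne, hB⟩
  -- the finite group generated by the image
  obtain ⟨K, hK⟩ : ∃ K : AddSubgroup T, K = AddSubgroup.closure ((A.image f : Finset T) : Set T) :=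
    ⟨_, rfl⟩
  have hKfg : AddGroup.FG K := by
    rw [hK]
    exact AddGroup.closure_finset_fg _
  have hKfin : Finite K := AddCommGroup.finite_of_fg_isAddTorsion K (hT.addSubgroup K)
  have hfK : ∀ x ∈ A, f x ∈ K := by
    intro x hx
    rw [hK]
    exact AddSubgroup.subset_closure (Finset.mem_coe.mpr (Finset.mem_image_of_mem f hx))
  obtain ⟨g, hg⟩ : ∃ g : G → K, ∀ x ∈ A, ((g x : K) : T) = f x := by
    refine ⟨fun x => if h : f x ∈ K then ⟨f x, h⟩ else 0, ?_⟩
    intro x hx
    simp only [dif_pos (hfK x hx)]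
  have ginj : Set.InjOn g (A : Set G) := by
    intro x hx y hy hxy
    apply hinj hx hy
    rw [← hg x hx, ← hg y hy, hxy]
  have hgsum : ∀ B ⊆ A, ((∑ x ∈ B, g x : K) : T) = f (∑ x ∈ B, x) := by
    intro B hB
    rw [map_sum, AddSubgroup.val_finset_sum]
    exact Finset.sum_congr rfl (fun x hx => hg x (hB hx))
  have hcard : (A.image g).card = m := by
    rw [Finset.card_image_of_injOn ginj, hA]
  -- every subset of the image comes from a subset
  have hsub : ∀ B' ⊆ A.image g, ∃ B ⊆ A, B' = B.image g := by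
    intro B' hB'
    exact Finset.subset_image_iff.mp hB' |>.imp (fun B h => ⟨h.1, h.2.symm⟩)
  have hsumim : ∀ B ⊆ A, ∑ y ∈ B.image g, y = ∑ x ∈ B, g x := by
    intro B hB
    rw [Finset.sum_image]
    intro x hx y hy h
    exact ginj (hB hx) (hB hy) h
  have hZSF : Pool.Agent.Helper398.ZSF (A.image g) := by
    intro B' hB' hne h0
    obtain ⟨B, hB, rfl⟩ := hsub B' hB'
    rw [hsumim B hB] at h0
    apply hZ' B hB (by simpa using hne)
    rw [← hgsum B hB, h0]
    rfl
  have hmain := hM K (A.image g) hZSF (by rw [hcard]; exact hm)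
  rw [hcard] at hmain
  -- compare the numbers of subset sums
  have hle : (A.image g).subsetSum.card ≤
      ((A.powerset.erase ∅).image (fun B => ∑ x ∈ B, x)).card + 1 := by
    have h1 : ((A.image g).subsetSum.image (fun y : K => (y : T))) ⊆
        insert 0 (((A.powerset.erase ∅).image (fun B => ∑ x ∈ B, x)).image f) := by
      intro t ht
      rw [Finset.mem_image] at ht
      obtain ⟨y, hy, rfl⟩ := ht
      rw [Finset.mem_subsetSum_iff] at hy
      obtain ⟨B', hB', rfl⟩ := hy
      obtain ⟨B, hB, rfl⟩ := hsub B' hB'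
      rw [hsumim B hB, hgsum B hB]
      rw [Finset.mem_insert]
      by_cases hne : B = ∅
      · left
        rw [hne, Finset.sum_empty, map_zero]
      · right
        apply Finset.mem_image_of_mem
        apply Finset.mem_image_of_mem (fun B : Finset G => ∑ x ∈ B, x)
        rw [Finset.mem_erase, Finset.mem_powerset]
        exact ⟨hne, hB⟩
    have h2 : ((A.image g).subsetSum.image (fun y : K => (y : T))).card =
        (A.image g).subsetSum.card :=
      Finset.card_image_of_injective _ Subtype.val_injective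
    have h3 := Finset.card_le_card h1
    have h4 := Finset.card_insert_le (0 : T)
      (((A.powerset.erase ∅).image (fun B => ∑ x ∈ B, x)).image f)
    have h5 : (((A.powerset.erase ∅).image (fun B => ∑ x ∈ B, x)).image f).card ≤
      ((A.powerset.erase ∅).image (fun B => ∑ x ∈ B, x)).card := Finset.card_image_le
    omega
  have hfin : m ^ 2 / 2 + 1 ≤ ((A.powerset.erase ∅).image (fun B => ∑ x ∈ B, x)).card := by
    omega
  rw [Int.ceil_le]
  have h6 : ((m ^ 2 / 2 + 1 : ℕ) : ℝ) ≤
      (((A.powerset.erase ∅).image (fun B => ∑ x ∈ B, x)).card : ℝ) := by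
    exact_mod_cast hfin
  have h7 : m ^ 2 ≤ 2 * (m ^ 2 / 2 + 1) := by omega
  have h8 : ((m ^ 2 : ℕ) : ℝ) ≤ ((2 * (m ^ 2 / 2 + 1) : ℕ) : ℝ) := by exact_mod_cast h7
  push_cast at h6 h8 ⊢
  linarith

end Pool.Agent.S11675
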