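import Pool.Statements.S11707
import Pool.Agent.V11149.ThreeGraph4

set_option autoImplicit false
open Classical
open Pool Pool.MP_d61016_co

namespace Pool.Agent.S11707

/-- Every finite three-graph A embeds as an induced substructure in some finite three-graph B such that every partial automorphism of A extends to an automorphism of B. -/
theorem result :
    ∀ (n : ℕ) (rA : Fin n → Fin n → Prop) (HA : Finset (Finset (Fin n))),
      (Equivalence rA ∧ (∀ a b c, rA a b ∨ rA b c ∨ rA a c) ∧
        (∀ e ∈ HA, e.card = 4 ∧ ∀ v ∈ e, (e.filter (fun w => rA v w)).card = 2) ∧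
        (∀ S : Finset (Fin n), S.card = 5 →
          (∀ v ∈ S, (S.filter (fun w => rA v w)).card ≤ 3) →
          Even (HA.filter (fun e => e ⊆ S)).card)) →
      ∃ (m : ℕ) (rB : Fin m → Fin m → Prop) (HB : Finset (Finset (Fin m))),
        (Equivalence rB ∧ (∀ a b c, rB a b ∨ rB b c ∨ rB a c) ∧
          (∀ e ∈ HB, e.card = 4 ∧ ∀ v ∈ e, (e.filter (fun w => rB v w)).card = 2) ∧
          (∀ S : Finset (Fin m), S.card = 5 →
            (∀ v ∈ S, (S.filter (fun w => rB v w)).card ≤ 3) →
            Even (HB.filter (fun e => e ⊆ S)).card)) ∧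
        ∃ f : Fin n ↪ Fin m,
          (∀ x y, rA x y ↔ rB (f x) (f y)) ∧
          (∀ e : Finset (Fin n), e ∈ HA ↔ e.map f ∈ HB) ∧
          ∀ (S : Finset (Fin n)) (p : Fin n → Fin n),
            Set.InjOn p (S : Set (Fin n)) →
            (∀ x ∈ S, ∀ y ∈ S, rA x y ↔ rA (p x) (p y)) →
            (∀ e ⊆ S, e ∈ HA ↔ e.image p ∈ HA) →
            ∃ σ : Fin m ≃ Fin m,
              (∀ x y, rB x y ↔ rB (σ x) (σ y)) ∧
              (∀ e : Finset (Fin m), e ∈ HB ↔ e.map σ.toEmbedding ∈ HB) ∧
              ∀ x ∈ S, σ (f x) = f (p x) := by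
  intro n rA HA hA
  obtain ⟨hEq, hTwo, hCard, hFive⟩ := hA
  -- class function
  obtain ⟨c, hc⟩ : ∃ c : Fin n → Bool, ∀ x y, rA x y ↔ c x = c y := by
    by_cases hn : Nonempty (Fin n)
    · obtain ⟨v0⟩ := hn
      refine ⟨fun x => decide (rA v0 x), fun x y => ?_⟩
      simp only [decide_eq_decide]
      constructor
      · intro h
        exact ⟨fun h1 => hEq.trans h1 h, fun h1 => hEq.trans h1 (hEq.symm h)⟩
      · intro h
        by_cases hx : rA v0 x
        · exact hEq.trans (hEq.symm hx) (h.1 hx)
        · have hy : ¬ rA v0 y := fun h' => hx (h.2 h')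
          rcases hTwo x v0 y with h1 | h1 | h1
          · exact absurd (hEq.symm h1) hx
          · exact absurd h1 hy
          · exact h1
    · exact ⟨fun _ => true, fun x => absurd ⟨x⟩ hn⟩
  have hT : ∀ e ∈ HA, Pool.Agent.V11149.ThreeGraph.T c e := by
    intro e he
    obtain ⟨h4, h2⟩ := hCard e he
    refine ⟨h4, fun v hv => ?_⟩
    rw [← h2 v hv]
    congr 1
    ext w
    simp only [Finset.mem_filter, hc]
  have h5 : ∀ S : Finset (Fin n), S.card = 5 → (∀ v ∈ S, (S.filter (fun w => c v = c w)).card ≤ 3) →
      Even (HA.filter (fun e => e ⊆ S)).card := by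
    intro S hS hle
    have := hFive S hS (fun v hv => by
      refine le_trans (le_of_eq ?_) (hle v hv)
      congr 1
      ext w
      simp only [Finset.mem_filter, hc])
    convert this using 2
  obtain ⟨f, hf1, hf2, hf3⟩ := Pool.Agent.V11149.ThreeGraph.main c HA hT h5
  let β := Pool.Agent.V11149.ThreeGraph.Bt n
  let cB : β → Bool := Pool.Agent.V11149.ThreeGraph.cB
  let HB0 : Finset (Finset β) := Pool.Agent.V11149.ThreeGraph.HG cB Pool.Agent.V11149.ThreeGraph.gB
  let E : β ≃ Fin (Fintype.card β) := Fintype.equivFin β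
  have hHBT : ∀ e ∈ HB0, Pool.Agent.V11149.ThreeGraph.T cB e :=
    Pool.Agent.V11149.ThreeGraph.HG_T _ _
  let M : Finset β ↪ Finset (Fin (Fintype.card β)) := (E.finsetCongr).toEmbedding
  have hM : ∀ e : Finset β, M e = e.map E.toEmbedding := fun e => rfl
  have memM : ∀ e : Finset (Fin (Fintype.card β)), e ∈ HB0.map M ↔ e.map E.symm.toEmbedding ∈ HB0 := by
    intro e
    rw [Finset.mem_map]
    constructor
    · rintro ⟨d, hd, rfl⟩
      rw [hM, Finset.map_map]
      convert hd
      ext x
      simp
    · intro h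
      refine ⟨_, h, ?_⟩
      rw [hM, Finset.map_map]
      ext x
      simp
  refine ⟨Fintype.card β, fun x y => cB (E.symm x) = cB (E.symm y), HB0.map M, ⟨⟨?_, ?_, ?_⟩, ?_, ?_, ?_⟩, ?_⟩
  · intro x; rfl
  · intro x y h; exact h.symm
  · intro x y z h1 h2; exact h1.trans h2
  · intro a b d
    change cB (E.symm a) = cB (E.symm b) ∨ cB (E.symm b) = cB (E.symm d) ∨ cB (E.symm a) = cB (E.symm d)
    generalize cB (E.symm a) = x
    generalize cB (E.symm b) = y
    generalize cB (E.symm d) = z
    cases x <;> cases y <;> cases z <;> simp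
  · intro e he
    rw [memM] at he
    obtain ⟨h4, h2⟩ := hHBT _ he
    rw [Finset.card_map] at h4
    refine ⟨h4, fun v hv => ?_⟩
    have := h2 (E.symm v) (Finset.mem_map_of_mem _ hv)
    rw [Finset.filter_map, Finset.card_map] at this
    refine Eq.trans ?_ this
    congr 1
    ext w
    simp only [Finset.mem_filter, Function.comp, Equiv.coe_toEmbedding]
  · intro S hS hle
    have h1 := Pool.Agent.V11149.ThreeGraph.HG_five cB Pool.Agent.V11149.ThreeGraph.gB
      Pool.Agent.V11149.ThreeGraph.gB_symm (S.map E.symm.toEmbedding) (by rw [Finset.card_map, hS]) (by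
        intro v hv
        rw [Finset.mem_map] at hv
        obtain ⟨u, hu, rfl⟩ := hv
        rw [Finset.filter_map, Finset.card_map]
        refine le_trans (le_of_eq ?_) (hle u hu)
        congr 1
        ext w
        simp only [Finset.mem_filter, Function.comp, Equiv.coe_toEmbedding])
    have h2 : ((HB0.map M).filter (fun e => e ⊆ S)).card =
        (HB0.filter (fun e => e ⊆ S.map E.symm.toEmbedding)).card := by
      rw [Finset.filter_map, Finset.card_map]
      congr 1
      ext e
      simp only [Finset.mem_filter, Function.comp, hM]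
      constructor
      · rintro ⟨h3, h4⟩
        refine ⟨h3, fun x hx => ?_⟩
        rw [Finset.mem_map]
        exact ⟨E x, h4 (Finset.mem_map_of_mem _ hx), by simp⟩
      · rintro ⟨h3, h4⟩
        refine ⟨h3, fun x hx => ?_⟩
        rw [Finset.mem_map] at hx
        obtain ⟨y, hy, rfl⟩ := hx
        have := h4 hy
        rw [Finset.mem_map] at this
        obtain ⟨z, hz, hz2⟩ := this
        rw [← hz2]; simpa using hz
    have h3 : Even ((HB0.map M).filter (fun e => e ⊆ S)).card := by
      rw [h2]; exact h1
    convert h3 using 2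
  · refine ⟨f.trans E.toEmbedding, ?_, ?_, ?_⟩
    · intro x y
      rw [hc]
      simp only [Function.Embedding.trans_apply, Equiv.coe_toEmbedding, Equiv.symm_apply_apply]
      change c x = c y ↔ Pool.Agent.V11149.ThreeGraph.cB (f x) = Pool.Agent.V11149.ThreeGraph.cB (f y)
      rw [hf1, hf1]
    · intro e
      rw [memM, hf2 e, Finset.map_map]
      have : (f.trans E.toEmbedding).trans E.symm.toEmbedding = f := by
        ext1 x; simp
      rw [this]
    · intro S p hp hpc hpe
      obtain ⟨s, σ, h1, h2, h3⟩ := hf3 S p hp (fun x hx y hy => by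
        have := hpc x hx y hy
        rw [hc, hc] at this; exact this) (fun e he => by
        have := hpe e he
        convert this using 2)
      refine ⟨(E.symm.trans σ).trans E, ?_, ?_, ?_⟩
      · intro x y
        simp only [Equiv.trans_apply, Equiv.symm_apply_apply]
        change Pool.Agent.V11149.ThreeGraph.cB _ = Pool.Agent.V11149.ThreeGraph.cB _ ↔
          Pool.Agent.V11149.ThreeGraph.cB _ = Pool.Agent.V11149.ThreeGraph.cB _
        rw [h1, h1]
        generalize Pool.Agent.V11149.ThreeGraph.cB (E.symm x) = b1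
        generalize Pool.Agent.V11149.ThreeGraph.cB (E.symm y) = b2
        cases b1 <;> cases b2 <;> cases s <;> simp
      · intro e
        rw [memM, memM]
        have := h2 (e.map E.symm.toEmbedding)
        rw [show HB0 = Pool.Agent.V11149.ThreeGraph.HG Pool.Agent.V11149.ThreeGraph.cB
          Pool.Agent.V11149.ThreeGraph.gB from rfl, this]
        rw [Finset.map_map, Finset.map_map]
        have : E.symm.toEmbedding.trans σ.toEmbedding =
            (((E.symm.trans σ).trans E).toEmbedding).trans E.symm.toEmbedding := by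
          ext1 x; simp
        rw [this]
      · intro x hx
        simp only [Function.Embedding.trans_apply, Equiv.coe_toEmbedding, Equiv.trans_apply,
          Equiv.symm_apply_apply]
        rw [h3 x hx]

end Pool.Agent.S11707
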