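import Pool.Statements.S11816

set_option autoImplicit false
open Pool Pool.MP_daf6f7_co

namespace Pool.Agent.S11816

/-- Dual hypergraph of the wheel with five spokes: its ten vertices are the edges of the wheel
(spokes `0..4`, rim edges `5..9`), its six edges are the stars of the six wheel vertices
(`0` is the hub, `1..5` is the rim). -/
def wheelStar : Fin 6 → Finset (Fin 10)
  | 0 => {0, 1, 2, 3, 4}
  | 1 => {0, 5, 9}
  | 2 => {1, 5, 6}
  | 3 => {2, 6, 7}
  | 4 => {3, 7, 8}
  | 5 => {4, 8, 9}

/-- The negation of the preceding statement: For any finite hypergraph (edges may repeat) in which every subfamily of edges has a matching of size at least its edge count divided by its max degree plus one, the edges can be colored with max degree plus one colors so same-colored edges are disjoint. -/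
theorem result :
    ¬ (∀ (V : Type) [Fintype V] [DecidableEq V] (m : ℕ) (e : Fin m → Finset V),
    (∀ i, (e i).Nonempty) →
    (∀ S : Finset (Fin m), ∃ M ⊆ S,
        (∀ i ∈ M, ∀ j ∈ M, i ≠ j → Disjoint (e i) (e j)) ∧
        S.card ≤ M.card *
          (Finset.univ.sup (fun v : V => (S.filter (fun i => v ∈ e i)).card) + 1)) →
    ∃ c : Fin m → Fin (Finset.univ.sup
        (fun v : V => (Finset.univ.filter (fun i : Fin m => v ∈ e i)).card) + 1),
      ∀ i j, i ≠ j → c i = c j → Disjoint (e i) (e j)) := by
  intro h
  obtain ⟨c, hc⟩ := h (Fin 10) 6 wheelStar (by decide) (by decide +kernel)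
  have hsup : Finset.univ.sup
      (fun v : Fin 10 => (Finset.univ.filter (fun i : Fin 6 => v ∈ wheelStar i)).card) = 2 := by
    decide
  have key : ∀ i j : Fin 6, i ≠ j → ¬ Disjoint (wheelStar i) (wheelStar j) →
      (c i).val ≠ (c j).val := by
    intro i j hij hd he
    exact hd (hc i j hij (Fin.ext he))
  have b : ∀ i, (c i).val < 3 := by
    intro i
    exact lt_of_lt_of_eq (c i).isLt (by rw [hsup])
  have b0 := b 0
  have b1 := b 1
  have b2 := b 2
  have b3 := b 3
  have b4 := b 4
  have b5 := b 5
  have h01 := key 0 1 (by decide) (by decide)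
  have h02 := key 0 2 (by decide) (by decide)
  have h03 := key 0 3 (by decide) (by decide)
  have h04 := key 0 4 (by decide) (by decide)
  have h05 := key 0 5 (by decide) (by decide)
  have h12 := key 1 2 (by decide) (by decide)
  have h23 := key 2 3 (by decide) (by decide)
  have h34 := key 3 4 (by decide) (by decide)
  have h45 := key 4 5 (by decide) (by decide)
  have h51 := key 5 1 (by decide) (by decide)
  generalize (c 0).val = x0 at *
  generalize (c 1).val = x1 at *
  generalize (c 2).val = x2 at *
  generalize (c 3).val = x3 at *
  generalize (c 4).val = x4 at *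
  generalize (c 5).val = x5 at *
  interval_cases x0 <;> interval_cases x1 <;> omega

end Pool.Agent.S11816
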