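import Pool.Statements.S11885

set_option autoImplicit false
open Classical
open Pool Pool.MP_dd5ef2_co

namespace Pool.Agent.S11885

open Finset

/-- Second moment of a sampled sum of a centred function. -/
theorem second_moment (n : ℕ) (g : Fin n → ℝ) (hg : ∑ k, g k = 0) (m : ℕ) :
    (n : ℝ) * ∑ K : Fin m → Fin n, (∑ l, g (K l)) ^ 2 = m * (n : ℝ) ^ m * ∑ k, g k ^ 2 := by
  induction m with
  | zero => simp
  | succ m ih =>
    have h1 : ∑ K : Fin (m + 1) → Fin n, (∑ l, g (K l)) ^ 2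
        = ∑ k : Fin n, ∑ K : Fin m → Fin n, (g k + ∑ l, g (K l)) ^ 2 := by
      rw [← (Fin.consEquiv (fun _ => Fin n)).sum_comp, Fintype.sum_prod_type]
      refine Finset.sum_congr rfl fun k _ => Finset.sum_congr rfl fun K _ => ?_
      simp [Fin.sum_univ_succ, Fin.consEquiv]
    have h2 : ∀ k : Fin n, ∑ K : Fin m → Fin n, (g k + ∑ l, g (K l)) ^ 2
        = (n : ℝ) ^ m * g k ^ 2 + 2 * g k * (∑ K : Fin m → Fin n, ∑ l, g (K l))
          + ∑ K : Fin m → Fin n, (∑ l, g (K l)) ^ 2 := by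
      intro k
      have : ∀ K : Fin m → Fin n, (g k + ∑ l, g (K l)) ^ 2
          = g k ^ 2 + 2 * g k * (∑ l, g (K l)) + (∑ l, g (K l)) ^ 2 := by
        intro K; ring
      simp only [this, Finset.sum_add_distrib, ← Finset.mul_sum]
      simp
    rw [h1]
    simp only [h2, Finset.sum_add_distrib, ← Finset.mul_sum, ← Finset.sum_mul]
    rw [hg]
    simp only [Finset.sum_const, Finset.card_univ, Fintype.card_fin, nsmul_eq_mul]
    push_cast
    rw [mul_add, mul_add, ih]
    ring

/-- The empirical disagreement fraction of rows `i, j` of a `0/1` table. -/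
noncomputable def dHat {n m : ℕ} (T : Fin n → Fin m → Bool) (i j : Fin n) : ℝ :=
  ((univ.filter (fun l => T i l ≠ T j l)).card : ℝ) / m

theorem dHat_nonneg {n m : ℕ} (T : Fin n → Fin m → Bool) (i j : Fin n) : 0 ≤ dHat T i j := by
  unfold dHat; positivity

theorem dHat_le_one {n m : ℕ} (T : Fin n → Fin m → Bool) (i j : Fin n) : dHat T i j ≤ 1 := by
  unfold dHat
  refine div_le_one_of_le₀ ?_ (by positivity)
  have := Finset.card_filter_le (univ : Finset (Fin m)) (fun l => T i l ≠ T j l)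
  simp only [Finset.card_univ, Fintype.card_fin] at this
  exact_mod_cast this

/-- The disagreement indicator. -/
noncomputable def dis {n : ℕ} (G : SimpleGraph (Fin n)) (i j k : Fin n) : ℝ :=
  if (G.Adj i k ↔ G.Adj j k) then 0 else 1

/-- The true disagreement fraction of rows `i, j`. -/
noncomputable def mu {n : ℕ} (G : SimpleGraph (Fin n)) (i j : Fin n) : ℝ :=
  (∑ k, dis G i j k) / n

/-- The table of adjacencies to sampled vertices. -/
noncomputable def table {n m : ℕ} (G : SimpleGraph (Fin n)) (K : Fin m → Fin n) :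
    Fin n → Fin m → Bool := fun i l => decide (G.Adj i (K l))

theorem dHat_table {n m : ℕ} (G : SimpleGraph (Fin n)) (K : Fin m → Fin n) (i j : Fin n) :
    dHat (table G K) i j = (∑ l, dis G i j (K l)) / m := by
  unfold dHat
  congr 1
  rw [Finset.card_filter]
  push_cast
  refine Finset.sum_congr rfl fun l _ => ?_
  unfold dis table
  by_cases h1 : G.Adj i (K l) <;> by_cases h2 : G.Adj j (K l) <;> simp [h1, h2]

theorem mu_bounds {n : ℕ} (hn : 0 < n) (G : SimpleGraph (Fin n)) (i j : Fin n) :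
    0 ≤ mu G i j ∧ mu G i j ≤ 1 := by
  have h1 : ∀ k, 0 ≤ dis G i j k ∧ dis G i j k ≤ 1 := by
    intro k; unfold dis; split_ifs <;> simp
  have hn' : (0 : ℝ) < n := by exact_mod_cast hn
  unfold mu
  refine ⟨div_nonneg (Finset.sum_nonneg fun k _ => (h1 k).1) hn'.le, ?_⟩
  rw [div_le_one hn']
  calc ∑ k, dis G i j k ≤ ∑ _k : Fin n, (1 : ℝ) := Finset.sum_le_sum fun k _ => (h1 k).2
    _ = n := by simp

/-- Chebyshev: few samples misjudge a given pair. -/
theorem cheb {n m : ℕ} (hn : 0 < n) (hm : 0 < m) (G : SimpleGraph (Fin n)) (i j : Fin n)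
    (δ : ℝ) (hδ : 0 < δ) :
    ((univ.filter (fun K : Fin m → Fin n => δ ≤ |dHat (table G K) i j - mu G i j|)).card : ℝ)
      * (m * δ ^ 2) ≤ (n : ℝ) ^ m := by
  have hn' : (0 : ℝ) < n := by exact_mod_cast hn
  have hm' : (0 : ℝ) < m := by exact_mod_cast hm
  set g : Fin n → ℝ := fun k => dis G i j k - mu G i j with hg
  have hg0 : ∑ k, g k = 0 := by
    simp only [hg, Finset.sum_sub_distrib, Finset.sum_const, Finset.card_univ, Fintype.card_fin,
      nsmul_eq_mul]
    unfold mu
    field_simp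
    ring
  have h1 : ∀ k, g k ^ 2 ≤ 1 := by
    intro k
    have hb := mu_bounds hn G i j
    have h1 : 0 ≤ dis G i j k ∧ dis G i j k ≤ 1 := by
      unfold dis; split_ifs <;> simp
    simp only [hg]
    nlinarith [hb.1, hb.2, h1.1, h1.2]
  have h2 : ∑ k, g k ^ 2 ≤ n := by
    calc ∑ k, g k ^ 2 ≤ ∑ _k : Fin n, (1 : ℝ) := Finset.sum_le_sum fun k _ => h1 k
      _ = n := by simp
  have h3 := second_moment n g hg0 m
  have h4 : ∑ K : Fin m → Fin n, (∑ l, g (K l)) ^ 2 ≤ m * (n : ℝ) ^ m := by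
    have : (n : ℝ) * ∑ K : Fin m → Fin n, (∑ l, g (K l)) ^ 2 ≤ n * (m * (n : ℝ) ^ m) := by
      rw [h3]
      have : m * (n : ℝ) ^ m * ∑ k, g k ^ 2 ≤ m * (n : ℝ) ^ m * n :=
        mul_le_mul_of_nonneg_left h2 (by positivity)
      linarith
    exact le_of_mul_le_mul_left this hn'
  have h5 : ∀ K : Fin m → Fin n, (∑ l, g (K l)) = m * (dHat (table G K) i j - mu G i j) := by
    intro K
    rw [dHat_table]
    simp only [hg, Finset.sum_sub_distrib, Finset.sum_const, Finset.card_univ, Fintype.card_fin,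
      nsmul_eq_mul]
    field_simp
  have h6 : ((univ.filter (fun K : Fin m → Fin n =>
      δ ≤ |dHat (table G K) i j - mu G i j|)).card : ℝ) * (m * δ) ^ 2
      ≤ ∑ K : Fin m → Fin n, (∑ l, g (K l)) ^ 2 := by
    rw [← nsmul_eq_mul, ← Finset.sum_const]
    refine (Finset.sum_le_sum ?_).trans
      (Finset.sum_le_sum_of_subset_of_nonneg (Finset.filter_subset _ _)
        fun K _ _ => sq_nonneg (∑ l, g (K l)))
    intro K hK
    rw [Finset.mem_filter] at hK
    rw [h5 K, mul_pow, mul_pow]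
    refine mul_le_mul_of_nonneg_left ?_ (by positivity)
    rw [← sq_abs (dHat (table G K) i j - mu G i j)]
    exact pow_le_pow_left₀ hδ.le hK.2 2
  have h7 := h6.trans h4
  have h8 : ((univ.filter (fun K : Fin m → Fin n =>
      δ ≤ |dHat (table G K) i j - mu G i j|)).card : ℝ) * (m * δ) ^ 2
      = m * (((univ.filter (fun K : Fin m → Fin n =>
      δ ≤ |dHat (table G K) i j - mu G i j|)).card : ℝ) * (m * δ ^ 2)) := by ring
  rw [h8] at h7
  exact le_of_mul_le_mul_left h7 hm'

/-- The index set of pairs `i < j`. -/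
abbrev PP (n : ℕ) : Type := {p : Fin n × Fin n // p.1 < p.2}

/-- Some sample misjudges few pairs. -/
theorem exists_sample {n m : ℕ} (hn : 0 < n) (hm : 0 < m) (G : SimpleGraph (Fin n))
    (δ : ℝ) (hδ : 0 < δ) :
    ∃ K : Fin m → Fin n,
      ((univ.filter (fun p : PP n =>
        δ ≤ |dHat (table G K) p.1.1 p.1.2 - mu G p.1.1 p.1.2|)).card : ℝ) * (m * δ ^ 2)
        ≤ Fintype.card (PP n) := by
  have hn' : (0 : ℝ) < n := by exact_mod_cast hn
  by_contra hcon
  push Not at hcon
  have h1 : ∑ K : Fin m → Fin n, ((univ.filter (fun p : PP n =>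
        δ ≤ |dHat (table G K) p.1.1 p.1.2 - mu G p.1.1 p.1.2|)).card : ℝ) * (m * δ ^ 2)
      = ∑ p : PP n, ((univ.filter (fun K : Fin m → Fin n =>
        δ ≤ |dHat (table G K) p.1.1 p.1.2 - mu G p.1.1 p.1.2|)).card : ℝ) * (m * δ ^ 2) := by
    rw [← Finset.sum_mul, ← Finset.sum_mul]
    congr 1
    simp only [Finset.card_filter]
    push_cast
    rw [Finset.sum_comm]
  have h2 : ∑ p : PP n, ((univ.filter (fun K : Fin m → Fin n =>
        δ ≤ |dHat (table G K) p.1.1 p.1.2 - mu G p.1.1 p.1.2|)).card : ℝ) * (m * δ ^ 2)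
      ≤ ∑ _p : PP n, (n : ℝ) ^ m :=
    Finset.sum_le_sum fun p _ => cheb hn hm G p.1.1 p.1.2 δ hδ
  have h3 : ∑ _K : Fin m → Fin n, (Fintype.card (PP n) : ℝ)
      < ∑ K : Fin m → Fin n, ((univ.filter (fun p : PP n =>
        δ ≤ |dHat (table G K) p.1.1 p.1.2 - mu G p.1.1 p.1.2|)).card : ℝ) * (m * δ ^ 2) := by
    refine Finset.sum_lt_sum_of_nonempty ?_ fun K _ => hcon K
    exact ⟨fun _ => ⟨0, hn⟩, Finset.mem_univ _⟩
  rw [h1] at h3
  have h4 := h3.trans_le h2
  simp only [Finset.sum_const, Finset.card_univ, Fintype.card_fun, Fintype.card_fin,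
    nsmul_eq_mul] at h4
  push_cast at h4
  rw [mul_comm] at h4
  exact lt_irrefl _ h4

/-- The factor of a pair. -/
noncomputable def phi {n : ℕ} (G : SimpleGraph (Fin n)) (i j : Fin n) : ℝ :=
  (((Finset.univ.filter (fun k : Fin n => k ≠ i ∧ k ≠ j ∧
    Even ((if G.Adj i j then 1 else 0) + (if G.Adj i k then 1 else 0)
      + (if G.Adj j k then 1 else 0) : ℕ))).card : ℝ) / ((n : ℝ) - 2))

theorem phi_nonneg {n : ℕ} (hn : 3 ≤ n) (G : SimpleGraph (Fin n)) (i j : Fin n) :
    0 ≤ phi G i j := by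
  have : (3 : ℝ) ≤ n := by exact_mod_cast hn
  unfold phi
  exact div_nonneg (by positivity) (by linarith)

theorem phi_le_one {n : ℕ} (hn : 3 ≤ n) (G : SimpleGraph (Fin n)) (i j : Fin n) (hij : i ≠ j) :
    phi G i j ≤ 1 := by
  have h3 : (3 : ℝ) ≤ n := by exact_mod_cast hn
  unfold phi
  rw [div_le_one (by linarith)]
  have h1 : (Finset.univ.filter (fun k : Fin n => k ≠ i ∧ k ≠ j ∧
    Even ((if G.Adj i j then 1 else 0) + (if G.Adj i k then 1 else 0)
      + (if G.Adj j k then 1 else 0) : ℕ))) ⊆ Finset.univ \ {i, j} := by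
    intro k hk
    simp only [Finset.mem_filter, Finset.mem_univ, true_and] at hk
    simp only [Finset.mem_sdiff, Finset.mem_univ, Finset.mem_insert, Finset.mem_singleton,
      true_and, not_or]
    exact ⟨hk.1, hk.2.1⟩
  have h2 := Finset.card_le_card h1
  have h4 : (Finset.univ \ {i, j} : Finset (Fin n)).card = n - 2 := by
    rw [Finset.card_sdiff_of_subset (Finset.subset_univ _), Finset.card_univ, Fintype.card_fin,
      Finset.card_pair hij]
  rw [h4] at h2
  have h5 : ((n - 2 : ℕ) : ℝ) = (n : ℝ) - 2 := by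
    rw [Nat.cast_sub (by omega)]; norm_num
  rw [← h5]
  exact_mod_cast h2

theorem phi_le_mu {n : ℕ} (hn : 3 ≤ n) (G : SimpleGraph (Fin n)) (i j : Fin n) :
    phi G i j ≤ (if G.Adj i j then mu G i j else 1 - mu G i j) + 2 / ((n : ℝ) - 2) := by
  have h3 : (3 : ℝ) ≤ n := by exact_mod_cast hn
  have hn0 : (0 : ℝ) < n := by linarith
  have hn2 : (0 : ℝ) < (n : ℝ) - 2 := by linarith
  have hmu := mu_bounds (by omega : 0 < n) G i j
  set x : ℝ := (if G.Adj i j then mu G i j else 1 - mu G i j) with hx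
  have hx1 : x ≤ 1 := by
    rw [hx]; split_ifs <;> linarith [hmu.1, hmu.2]
  have key : (((Finset.univ.filter (fun k : Fin n => k ≠ i ∧ k ≠ j ∧
    Even ((if G.Adj i j then 1 else 0) + (if G.Adj i k then 1 else 0)
      + (if G.Adj j k then 1 else 0) : ℕ))).card : ℝ)) ≤ n * x := by
    by_cases hadj : G.Adj i j
    · have h1 : n * x = ∑ k, dis G i j k := by
        rw [hx, if_pos hadj]
        unfold mu
        field_simp
      rw [h1, Finset.card_filter]
      push_cast
      refine Finset.sum_le_sum fun k _ => ?_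
      unfold dis
      by_cases h1 : G.Adj i k <;> by_cases h2 : G.Adj j k <;> simp [h1, h2, hadj] <;>
        split_ifs <;> norm_num
      all_goals
        rename_i hh
        exact absurd hh.2.2 (by decide)
    · have h1 : n * x = ∑ k, (1 - dis G i j k) := by
        rw [hx, if_neg hadj]
        unfold mu
        simp only [Finset.sum_sub_distrib, Finset.sum_const, Finset.card_univ, Fintype.card_fin,
          nsmul_eq_mul]
        field_simp
      rw [h1, Finset.card_filter]
      push_cast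
      refine Finset.sum_le_sum fun k _ => ?_
      unfold dis
      by_cases h1 : G.Adj i k <;> by_cases h2 : G.Adj j k <;> simp [h1, h2, hadj] <;>
        split_ifs <;> norm_num
  unfold phi
  rw [div_le_iff₀ hn2]
  refine key.trans ?_
  have : (x + 2 / ((n : ℝ) - 2)) * ((n : ℝ) - 2) = n * x + 2 * (1 - x) := by
    field_simp
    ring
  rw [this]
  linarith

/-- The smoothed guess for a factor. -/
noncomputable def phiHat {n m : ℕ} (T : Fin n → Fin m → Bool) (i j : Fin n) (b : Bool) : ℝ :=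
  if b then dHat T i j else 1 - dHat T i j

theorem phiHat_nonneg {n m : ℕ} (T : Fin n → Fin m → Bool) (i j : Fin n) (b : Bool) :
    0 ≤ phiHat T i j b := by
  unfold phiHat
  split_ifs
  · exact dHat_nonneg T i j
  · linarith [dHat_le_one T i j]

/-- The adjacency bits of a graph. -/
noncomputable def bits {n : ℕ} (G : SimpleGraph (Fin n)) : PP n → Bool :=
  fun p => decide (G.Adj p.1.1 p.1.2)

theorem bits_injective {n : ℕ} : Function.Injective (bits (n := n)) := by
  intro G H h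
  ext i j
  have key : ∀ i j : Fin n, i < j → (G.Adj i j ↔ H.Adj i j) := by
    intro i j hij
    have := congrFun h ⟨(i, j), hij⟩
    unfold bits at this
    simpa using this
  rcases lt_trichotomy i j with hij | hij | hij
  · exact key i j hij
  · subst hij
    simp
  · rw [G.adj_comm, H.adj_comm]
    exact key j i hij

theorem prod_bound {n m : ℕ} (hn : 3 ≤ n) (G : SimpleGraph (Fin n)) (K : Fin m → Fin n)
    (δ : ℝ) (hδ : 0 < δ) (hn2 : 2 / ((n : ℝ) - 2) ≤ δ) :
    ∏ p : PP n, phi G p.1.1 p.1.2 ≤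
      (1 / (2 * δ)) ^ (univ.filter (fun p : PP n =>
        δ ≤ |dHat (table G K) p.1.1 p.1.2 - mu G p.1.1 p.1.2|)).card *
      ∏ p : PP n, (phiHat (table G K) p.1.1 p.1.2 (bits G p) + 2 * δ) := by
  set B := univ.filter (fun p : PP n =>
        δ ≤ |dHat (table G K) p.1.1 p.1.2 - mu G p.1.1 p.1.2|) with hB
  have h1 : (1 / (2 * δ)) ^ B.card = ∏ p : PP n, (if p ∈ B then 1 / (2 * δ) else 1) := by
    rw [Finset.prod_ite_mem, Finset.univ_inter, Finset.prod_const]
  rw [h1, ← Finset.prod_mul_distrib]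
  refine Finset.prod_le_prod (fun p _ => phi_nonneg hn G _ _) fun p _ => ?_
  have hne : p.1.1 ≠ p.1.2 := ne_of_lt p.2
  by_cases hp : p ∈ B
  · rw [if_pos hp]
    refine (phi_le_one hn G _ _ hne).trans ?_
    have h2 : 1 / (2 * δ) * (2 * δ) ≤
        1 / (2 * δ) * (phiHat (table G K) p.1.1 p.1.2 (bits G p) + 2 * δ) := by
      refine mul_le_mul_of_nonneg_left ?_ (by positivity)
      linarith [phiHat_nonneg (table G K) p.1.1 p.1.2 (bits G p)]
    have h3 : 1 / (2 * δ) * (2 * δ) = 1 := by field_simp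
    linarith
  · rw [if_neg hp, one_mul]
    refine (phi_le_mu hn G _ _).trans ?_
    have h2 : |dHat (table G K) p.1.1 p.1.2 - mu G p.1.1 p.1.2| < δ := by
      rw [hB] at hp
      simpa using hp
    rw [abs_lt] at h2
    unfold phiHat bits
    by_cases hadj : G.Adj p.1.1 p.1.2
    · simp only [hadj, if_true, decide_true]
      linarith [h2.1, h2.2]
    · simp only [hadj, if_false, decide_false, Bool.false_eq_true]
      linarith [h2.1, h2.2]

theorem sum_prod_phiHat {n m : ℕ} (T : Fin n → Fin m → Bool) (δ : ℝ) (hδ : 0 < δ) :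
    ∑ G : SimpleGraph (Fin n), ∏ p : PP n, (phiHat T p.1.1 p.1.2 (bits G p) + 2 * δ)
      ≤ (1 + 4 * δ) ^ Fintype.card (PP n) := by
  have h1 : ∑ G : SimpleGraph (Fin n), ∏ p : PP n, (phiHat T p.1.1 p.1.2 (bits G p) + 2 * δ)
      ≤ ∑ x : PP n → Bool, ∏ p : PP n, (phiHat T p.1.1 p.1.2 (x p) + 2 * δ) := by
    rw [← Finset.sum_image (f := fun x : PP n → Bool =>
      ∏ p : PP n, (phiHat T p.1.1 p.1.2 (x p) + 2 * δ)) (g := bits)
      (fun G _ H _ h => bits_injective h)]
    refine Finset.sum_le_sum_of_subset_of_nonneg (Finset.subset_univ _) fun x _ _ => ?_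
    refine Finset.prod_nonneg fun p _ => ?_
    linarith [phiHat_nonneg T p.1.1 p.1.2 (x p)]
  refine h1.trans (le_of_eq ?_)
  have h2 := Finset.prod_univ_sum (fun _ : PP n => (Finset.univ : Finset Bool))
    (fun (p : PP n) (b : Bool) => phiHat T p.1.1 p.1.2 b + 2 * δ)
  rw [Fintype.piFinset_univ] at h2
  rw [← h2]
  have h3 : ∀ p : PP n, ∑ b : Bool, (phiHat T p.1.1 p.1.2 b + 2 * δ) = 1 + 4 * δ := by
    intro p
    simp only [Fintype.sum_bool, phiHat]
    simp
    ring
  rw [Finset.prod_congr rfl fun p _ => h3 p, Finset.prod_const, Finset.card_univ]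

theorem prod_convert {n : ℕ} (G : SimpleGraph (Fin n)) :
    (∏ i : Fin n, ∏ j : Fin n, (if i < j then phi G i j else 1))
      = ∏ p : PP n, phi G p.1.1 p.1.2 := by
  rw [← Finset.prod_product' (f := fun i j : Fin n => if i < j then phi G i j else 1)]
  rw [← Finset.prod_filter]
  rw [Finset.prod_subtype (p := fun p : Fin n × Fin n => p.1 < p.2)]
  intro x
  simp

theorem card_PP (n : ℕ) : Fintype.card (PP n) ≤ n ^ 2 := by
  have := Fintype.card_subtype_le (fun p : Fin n × Fin n => p.1 < p.2)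
  simpa [sq] using this

theorem main_bound (ε : ℝ) (hε : 0 < ε) : ∃ N : ℕ, ∀ n : ℕ, N ≤ n →
    ∑ G : SimpleGraph (Fin n), ∏ p : PP n, phi G p.1.1 p.1.2 ≤ (2 : ℝ) ^ (ε * (n : ℝ) ^ 2) := by
  set a : ℝ := (2 : ℝ) ^ (ε / 4) with ha
  have ha1 : 1 < a := Real.one_lt_rpow (by norm_num) (by positivity)
  have ha0 : 0 < a := by linarith
  set δ : ℝ := min (1 / 2) ((a - 1) / 4) with hδdef
  have hδ : 0 < δ := lt_min (by norm_num) (by linarith)
  have hδ2 : 2 * δ ≤ 1 := by
    have : δ ≤ 1 / 2 := min_le_left _ _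
    linarith
  have hδa : 1 + 4 * δ ≤ a := by
    have : δ ≤ (a - 1) / 4 := min_le_right _ _
    linarith
  set L : ℝ := 1 / (2 * δ) with hL
  have hL1 : 1 ≤ L := by
    rw [hL, le_div_iff₀ (by positivity)]
    linarith
  have hb : 1 < a ^ (δ ^ 2) := Real.one_lt_rpow ha1 (by positivity)
  obtain ⟨m, hm⟩ := pow_unbounded_of_one_lt L hb
  have hm0 : 0 < m := by
    rcases Nat.eq_zero_or_pos m with h | h
    · subst h
      rw [pow_zero] at hm
      linarith
    · exact h
  obtain ⟨N1, hN1⟩ := exists_nat_ge (2 / δ + 2)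
  obtain ⟨N2, hN2⟩ := exists_nat_ge (4 * m / ε)
  refine ⟨max 3 (max N1 N2), fun n hn => ?_⟩
  have hn3 : 3 ≤ n := (le_max_left _ _).trans hn
  have hnN1 : N1 ≤ n := (le_max_left _ _).trans ((le_max_right _ _).trans hn)
  have hnN2 : N2 ≤ n := (le_max_right _ _).trans ((le_max_right _ _).trans hn)
  have hn3' : (3 : ℝ) ≤ n := by exact_mod_cast hn3
  have hn2 : 2 / ((n : ℝ) - 2) ≤ δ := by
    rw [div_le_iff₀ (by linarith)]
    have h1 : 2 / δ + 2 ≤ n := hN1.trans (by exact_mod_cast hnN1)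
    have h2 : 2 / δ ≤ n - 2 := by linarith
    rw [div_le_iff₀ hδ] at h2
    linarith
  have hmn : 4 * (m : ℝ) ≤ ε * n := by
    have h1 : 4 * m / ε ≤ n := hN2.trans (by exact_mod_cast hnN2)
    rw [div_le_iff₀ hε] at h1
    linarith
  -- the estimate for one graph
  have step1 : ∀ G : SimpleGraph (Fin n), ∏ p : PP n, phi G p.1.1 p.1.2 ≤
      a ^ Fintype.card (PP n) * ∑ K : Fin m → Fin n, ∑ T : Fin n → Fin m → Bool,
        ∏ p : PP n, (phiHat T p.1.1 p.1.2 (bits G p) + 2 * δ) := by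
    intro G
    obtain ⟨K, hK⟩ := exists_sample (by omega : 0 < n) hm0 G δ hδ
    set B := univ.filter (fun p : PP n =>
        δ ≤ |dHat (table G K) p.1.1 p.1.2 - mu G p.1.1 p.1.2|) with hB
    have h1 := prod_bound hn3 G K δ hδ hn2
    rw [← hB, ← hL] at h1
    have h2 : L ^ B.card ≤ a ^ Fintype.card (PP n) := by
      calc L ^ B.card ≤ ((a ^ (δ ^ 2)) ^ m) ^ B.card :=
            pow_le_pow_left₀ (by linarith) hm.le _
        _ = a ^ ((B.card : ℝ) * (m * δ ^ 2)) := by
            rw [← Real.rpow_natCast, ← Real.rpow_natCast, ← Real.rpow_mul ha0.le,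
              ← Real.rpow_mul ha0.le]
            congr 1
            ring
        _ ≤ a ^ (Fintype.card (PP n) : ℝ) := Real.rpow_le_rpow_of_exponent_le ha1.le hK
        _ = a ^ Fintype.card (PP n) := Real.rpow_natCast _ _
    have hnn : ∀ T : Fin n → Fin m → Bool,
        0 ≤ ∏ p : PP n, (phiHat T p.1.1 p.1.2 (bits G p) + 2 * δ) := by
      intro T
      refine Finset.prod_nonneg fun p _ => ?_
      linarith [phiHat_nonneg T p.1.1 p.1.2 (bits G p)]
    refine h1.trans ?_
    refine mul_le_mul h2 ?_ (hnn _) (by positivity)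
    refine le_trans ?_ (Finset.single_le_sum (f := fun K : Fin m → Fin n =>
      ∑ T : Fin n → Fin m → Bool, ∏ p : PP n, (phiHat T p.1.1 p.1.2 (bits G p) + 2 * δ))
      (fun K _ => Finset.sum_nonneg fun T _ => hnn T) (Finset.mem_univ K))
    exact Finset.single_le_sum (f := fun T : Fin n → Fin m → Bool =>
      ∏ p : PP n, (phiHat T p.1.1 p.1.2 (bits G p) + 2 * δ)) (fun T _ => hnn T)
      (Finset.mem_univ (table G K))
  have step2 : ∑ G : SimpleGraph (Fin n), ∏ p : PP n, phi G p.1.1 p.1.2 ≤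
      a ^ Fintype.card (PP n) * ((n : ℝ) ^ m * ((2 : ℝ) ^ m) ^ n *
        (1 + 4 * δ) ^ Fintype.card (PP n)) := by
    refine (Finset.sum_le_sum fun G _ => step1 G).trans ?_
    rw [← Finset.mul_sum]
    refine mul_le_mul_of_nonneg_left ?_ (by positivity)
    rw [Finset.sum_comm]
    have h1 : ∀ K : Fin m → Fin n, ∑ G : SimpleGraph (Fin n), ∑ T : Fin n → Fin m → Bool,
        ∏ p : PP n, (phiHat T p.1.1 p.1.2 (bits G p) + 2 * δ)
        ≤ ((2 : ℝ) ^ m) ^ n * (1 + 4 * δ) ^ Fintype.card (PP n) := by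
      intro K
      rw [Finset.sum_comm]
      refine (Finset.sum_le_sum fun T _ => sum_prod_phiHat T δ hδ).trans ?_
      simp only [Finset.sum_const, Finset.card_univ, Fintype.card_fun, Fintype.card_fin,
        Fintype.card_bool, nsmul_eq_mul]
      push_cast
      exact le_refl _
    refine (Finset.sum_le_sum fun K _ => h1 K).trans ?_
    simp only [Finset.sum_const, Finset.card_univ, Fintype.card_fun, Fintype.card_fin,
      nsmul_eq_mul]
    push_cast
    rw [mul_assoc]
  refine step2.trans ?_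
  have h3 : (1 + 4 * δ) ^ Fintype.card (PP n) ≤ a ^ Fintype.card (PP n) :=
    pow_le_pow_left₀ (by positivity) hδa _
  have h4 : (n : ℝ) ^ m ≤ ((2 : ℝ) ^ n) ^ m := by
    refine pow_le_pow_left₀ (by positivity) ?_ _
    exact_mod_cast (Nat.lt_two_pow_self (n := n)).le
  have h5 : (n : ℝ) ^ m * ((2 : ℝ) ^ m) ^ n ≤ (2 : ℝ) ^ (ε / 2 * (n : ℝ) ^ 2) := by
    calc (n : ℝ) ^ m * ((2 : ℝ) ^ m) ^ n ≤ ((2 : ℝ) ^ n) ^ m * ((2 : ℝ) ^ m) ^ n :=
          mul_le_mul_of_nonneg_right h4 (by positivity)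
      _ = (2 : ℝ) ^ (2 * (m : ℝ) * n) := by
          rw [← pow_mul, ← pow_mul, ← pow_add, ← Real.rpow_natCast]
          congr 1
          push_cast
          ring
      _ ≤ (2 : ℝ) ^ (ε / 2 * (n : ℝ) ^ 2) := by
          refine Real.rpow_le_rpow_of_exponent_le (by norm_num) ?_
          nlinarith
  have h6 : a ^ Fintype.card (PP n) ≤ (2 : ℝ) ^ (ε / 4 * (n : ℝ) ^ 2) := by
    rw [ha, ← Real.rpow_natCast, ← Real.rpow_mul (by norm_num)]
    refine Real.rpow_le_rpow_of_exponent_le (by norm_num) ?_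
    refine mul_le_mul_of_nonneg_left ?_ (by positivity)
    exact_mod_cast card_PP n
  calc a ^ Fintype.card (PP n) * ((n : ℝ) ^ m * ((2 : ℝ) ^ m) ^ n *
        (1 + 4 * δ) ^ Fintype.card (PP n))
      ≤ (2 : ℝ) ^ (ε / 4 * (n : ℝ) ^ 2) * ((2 : ℝ) ^ (ε / 2 * (n : ℝ) ^ 2) *
        (2 : ℝ) ^ (ε / 4 * (n : ℝ) ^ 2)) := by
        refine mul_le_mul h6 (mul_le_mul h5 (h3.trans h6) (by positivity) (by positivity))
          (by positivity) (by positivity)
    _ = (2 : ℝ) ^ (ε * (n : ℝ) ^ 2) := by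
        rw [← Real.rpow_add (by norm_num), ← Real.rpow_add (by norm_num)]
        congr 1
        ring

/-- For every ε>0 and all large n, summing over all graphs on n vertices the product over pairs i<j of the fraction of other vertices k with an even number of edges in triangle ijk gives at most 2^(εn²). -/
theorem result :
    ∀ ε : ℝ, 0 < ε → ∃ N : ℕ, ∀ n : ℕ, N ≤ n →
      (∑ G : SimpleGraph (Fin n),
        ∏ i : Fin n, ∏ j : Fin n,
          (if i < j then
            (((Finset.univ.filter (fun k : Fin n => k ≠ i ∧ k ≠ j ∧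
                Even ((if G.Adj i j then 1 else 0) + (if G.Adj i k then 1 else 0)
                  + (if G.Adj j k then 1 else 0) : ℕ))).card : ℝ) / ((n : ℝ) - 2))
          else 1)) ≤ (2 : ℝ) ^ (ε * (n : ℝ) ^ 2) := by
  intro ε hε
  obtain ⟨N, hN⟩ := main_bound ε hε
  refine ⟨N, fun n hn => ?_⟩
  refine le_trans (le_of_eq ?_) (hN n hn)
  exact Finset.sum_congr rfl fun G _ => prod_convert G

end Pool.Agent.S11885
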