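import Pool.Statements.S11888
import Pool.Agent.V11205.BorT

set_option autoImplicit false
open Pool Pool.MP_dd77b8_co

namespace Pool.Agent.S11888

/-- The negation of the preceding statement: For all large n, any way of writing the unit-norm vectors f_g of U_{4,n} in R^{C(n,4)} as a union of m sets, each of diameter below that of the whole set, needs m ≥ exp(C(n,4)^{4/5}). -/
theorem result :
    ¬ (∃ N : ℕ, ∀ n : ℕ, N ≤ n →
      ∀ X : Set (EuclideanSpace ℝ {T : Finset (Fin n) // T.card = 4}),
        X = {f | ∃ g : Finset (Fin n) → ℝ,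
              f = WithLp.toLp 2 (fun T : {T : Finset (Fin n) // T.card = 4} =>
                    ∏ S ∈ T.1.powersetCard 3, g S) ∧ ‖f‖ = 1} →
        ∀ m : ℕ, ∀ A : Fin m → Set (EuclideanSpace ℝ {T : Finset (Fin n) // T.card = 4}),
          (⋃ i, A i) = X →
          (∀ i, Metric.diam (A i) < Metric.diam X) →
          Real.exp (((n.choose 4 : ℕ) : ℝ) ^ ((4 : ℝ) / 5)) ≤ (m : ℝ)) := by
  exact Pool.Agent.V11205.BorT.final

end Pool.Agent.S11888
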