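import Pool.Statements.S11986
import Pool.Agent.V11147.TensorBlow

set_option autoImplicit false
open Filter Topology
open Pool Pool.MP_e10300_co

namespace Pool.Agent.S11986

open Finset Pool.Agent.V11147.TB

open scoped Classical

theorem cols_top {k : ℕ} (F : SimpleGraph (Fin k)) (hF : ∀ a b, F.Adj a b ↔ a ≠ b) (M : ℕ) :
    (cols F M).card = M.descFactorial k := by
  have h1 : (cols F M).card = Fintype.card (Fin k ↪ Fin M) := by
    rw [← card_univ]
    symm
    refine card_bij (fun f _ => (f : Fin k → Fin M)) ?_ ?_ ?_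
    · intro f _
      rw [mem_cols]
      intro a b hab h
      exact (hF a b).1 hab (f.injective h)
    · intro f _ g _ h
      exact DFunLike.coe_injective h
    · intro g hg
      rw [mem_cols] at hg
      refine ⟨⟨g, ?_⟩, mem_univ _, rfl⟩
      intro a b hab
      by_contra hne
      exact hg a b ((hF a b).2 hne) hab
  rw [h1, Fintype.card_embedding_eq, Fintype.card_fin, Fintype.card_fin]

theorem cols_c4 (M : ℕ) (hM : 2 ≤ M) : ((cols (SimpleGraph.cycleGraph 4) M).card : ℝ) =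
    ((M : ℝ) - 1) ^ 4 + ((M : ℝ) - 1) := by
  have hadj : ∀ g : Fin 4 → Fin M, (∀ a b, (SimpleGraph.cycleGraph 4).Adj a b → g a ≠ g b) ↔
      (g 1 ≠ g 0 ∧ g 1 ≠ g 2 ∧ g 3 ≠ g 0 ∧ g 3 ≠ g 2) := by
    intro g
    constructor
    · intro h
      exact ⟨h 1 0 (by decide), h 1 2 (by decide), h 3 0 (by decide), h 3 2 (by decide)⟩
    · rintro ⟨h1, h2, h3, h4⟩ a b hab
      have key : ∀ a b : Fin 4, (SimpleGraph.cycleGraph 4).Adj a b →
          (a = 1 ∧ b = 0) ∨ (a = 0 ∧ b = 1) ∨ (a = 1 ∧ b = 2) ∨ (a = 2 ∧ b = 1) ∨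
          (a = 3 ∧ b = 0) ∨ (a = 0 ∧ b = 3) ∨ (a = 3 ∧ b = 2) ∨ (a = 2 ∧ b = 3) := by
        decide
      rcases key a b hab with ⟨rfl, rfl⟩ | ⟨rfl, rfl⟩ | ⟨rfl, rfl⟩ | ⟨rfl, rfl⟩ | ⟨rfl, rfl⟩ |
        ⟨rfl, rfl⟩ | ⟨rfl, rfl⟩ | ⟨rfl, rfl⟩
      · exact h1
      · exact h1.symm
      · exact h2
      · exact h2.symm
      · exact h3
      · exact h3.symm
      · exact h4
      · exact h4.symm
  have h1 : (cols (SimpleGraph.cycleGraph 4) M).card =
      ∑ p : Fin M × Fin M, ((univ \ {p.1, p.2} : Finset (Fin M)).card) ^ 2 := by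
    rw [card_eq_sum_card_fiberwise (f := fun g : Fin 4 → Fin M => (g 0, g 2)) (t := univ)
      (fun _ _ => mem_univ _)]
    refine sum_congr rfl fun p _ => ?_
    rw [pow_two, ← card_product]
    refine card_bij (fun g _ => (g 1, g 3)) ?_ ?_ ?_
    · intro g hg
      rw [mem_filter, mem_cols, hadj] at hg
      obtain ⟨⟨h1, h2, h3, h4⟩, rfl⟩ := hg
      rw [mem_product, Finset.mem_sdiff, Finset.mem_sdiff]
      simp only [mem_univ, mem_insert, mem_singleton, true_and, not_or]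
      exact ⟨⟨h1, h2⟩, ⟨h3, h4⟩⟩
    · intro g hg g' hg' h
      rw [mem_filter] at hg hg'
      have e1 := hg.2.trans hg'.2.symm
      rw [Prod.mk.injEq] at e1 h
      funext i
      fin_cases i
      · exact e1.1
      · exact h.1
      · exact e1.2
      · exact h.2
    · rintro ⟨x, y⟩ hxy
      rw [mem_product, Finset.mem_sdiff, Finset.mem_sdiff] at hxy
      simp only [mem_univ, mem_insert, mem_singleton, true_and, not_or] at hxy
      refine ⟨![p.1, x, p.2, y], ?_, ?_⟩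
      · rw [mem_filter, mem_cols, hadj]
        refine ⟨?_, ?_⟩
        · exact ⟨hxy.1.1, hxy.1.2, hxy.2.1, hxy.2.2⟩
        · rfl
      · rfl
  have h2 : ∀ p : Fin M × Fin M, (((univ \ {p.1, p.2} : Finset (Fin M)).card : ℕ) : ℝ) =
      (if p.1 = p.2 then ((M : ℝ) - 1) else ((M : ℝ) - 2)) := by
    intro p
    rw [card_sdiff_of_subset (subset_univ _), card_univ, Fintype.card_fin]
    split_ifs with h
    · have h3 : ({p.1, p.2} : Finset (Fin M)).card = 1 := by
        rw [h]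
        simp
      rw [h3, Nat.cast_sub (by omega)]
      simp
    · rw [card_pair h, Nat.cast_sub (by omega)]
      simp
  rw [h1]
  push_cast
  simp_rw [h2]
  rw [Fintype.sum_prod_type]
  have h3 : ∀ a : Fin M, ∑ c : Fin M, (if a = c then ((M : ℝ) - 1) else ((M : ℝ) - 2)) ^ 2 =
      ((M : ℝ) - 1) ^ 2 + ((M : ℝ) - 1) * ((M : ℝ) - 2) ^ 2 := by
    intro a
    rw [← add_sum_erase univ _ (mem_univ a), if_pos rfl]
    congr 1
    have h4 : ∀ c ∈ univ.erase a, (if a = c then ((M : ℝ) - 1) else ((M : ℝ) - 2)) ^ 2 =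
        ((M : ℝ) - 2) ^ 2 := by
      intro c hc
      rw [mem_erase] at hc
      rw [if_neg hc.1.symm]
    rw [sum_congr rfl h4, sum_const, card_erase_of_mem (mem_univ _), card_univ, Fintype.card_fin,
      nsmul_eq_mul, Nat.cast_sub (by omega)]
    simp
  simp_rw [h3]
  rw [sum_const, card_univ, Fintype.card_fin, nsmul_eq_mul]
  ring

theorem cols_kst (s t M : ℕ) : (cols (completeBipartiteGraph (Fin s) (Fin t)) M).card ≤
    M.descFactorial s * (M - s) ^ t + (M ^ s - M.descFactorial s) * M ^ t := by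
  have h1 : (cols (completeBipartiteGraph (Fin s) (Fin t)) M).card ≤
      ∑ x : Fin s → Fin M, if Function.Injective x then (M - s) ^ t else M ^ t := by
    rw [card_eq_sum_card_fiberwise (f := fun g : Fin s ⊕ Fin t → Fin M => fun i => g (Sum.inl i))
      (t := univ) (fun _ _ => mem_univ _)]
    refine sum_le_sum fun x _ => ?_
    have h2 : ((cols (completeBipartiteGraph (Fin s) (Fin t)) M).filter
        (fun g => (fun i => g (Sum.inl i)) = x)).card ≤ (M - (univ.image x).card) ^ t := by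
      have h3 : (M - (univ.image x).card) ^ t =
          (Fintype.piFinset (fun _ : Fin t => (univ \ univ.image x : Finset (Fin M)))).card := by
        rw [Fintype.card_piFinset, prod_const, card_univ, Fintype.card_fin,
          card_sdiff_of_subset (subset_univ _), card_univ, Fintype.card_fin]
      rw [h3]
      refine card_le_card_of_injOn (fun g => fun j => g (Sum.inr j)) ?_ ?_
      · intro g hg
        rw [mem_coe, mem_filter, mem_cols] at hg
        rw [mem_coe, Fintype.mem_piFinset]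
        intro j
        rw [Finset.mem_sdiff]
        refine ⟨mem_univ _, ?_⟩
        rw [mem_image]
        rintro ⟨i, -, hi⟩
        rw [← hg.2] at hi
        exact hg.1 (Sum.inl i) (Sum.inr j) (by simp [completeBipartiteGraph]) hi
      · intro g hg g' hg' h
        rw [mem_coe, mem_filter] at hg hg'
        have e1 := hg.2.trans hg'.2.symm
        funext i
        rcases i with i | i
        · exact congrFun e1 i
        · exact congrFun h i
    refine h2.trans ?_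
    split_ifs with hx
    · rw [card_image_of_injective _ hx, card_univ, Fintype.card_fin]
    · exact Nat.pow_le_pow_left (Nat.sub_le _ _) t
  refine h1.trans ?_
  rw [sum_ite, sum_const, sum_const, smul_eq_mul, smul_eq_mul]
  have h2 : (univ.filter (fun x : Fin s → Fin M => Function.Injective x)).card =
      M.descFactorial s := by
    rw [← Fintype.card_subtype]
    have e : {x : Fin s → Fin M // Function.Injective x} ≃ (Fin s ↪ Fin M) :=
      ⟨fun x => ⟨x.1, x.2⟩, fun f => ⟨f, f.injective⟩, fun _ => rfl, fun _ => rfl⟩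
    rw [Fintype.card_congr e, Fintype.card_embedding_eq, Fintype.card_fin, Fintype.card_fin]
  have h3 : (univ.filter (fun x : Fin s → Fin M => Function.Injective x)).card +
      (univ.filter (fun x : Fin s → Fin M => ¬ Function.Injective x)).card = M ^ s := by
    rw [card_filter_add_card_filter_not, card_univ, Fintype.card_fun, Fintype.card_fin,
      Fintype.card_fin]
  have h4 : (univ.filter (fun x : Fin s → Fin M => ¬ Function.Injective x)).card =
      M ^ s - M.descFactorial s := by omega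
  rw [h2, h4]

theorem desc_ge (M : ℕ) (hM : 1 ≤ M) (k : ℕ) :
    (M : ℝ) ^ k * (1 - (k : ℝ) ^ 2 / M) ≤ (M.descFactorial k : ℝ) := by
  have hM0 : (0 : ℝ) < M := by exact_mod_cast hM
  induction k with
  | zero => simp
  | succ k ih =>
    rcases lt_or_ge (1 - ((k + 1 : ℕ) : ℝ) ^ 2 / M) 0 with h | h
    · have h1 : (M : ℝ) ^ (k + 1) * (1 - ((k + 1 : ℕ) : ℝ) ^ 2 / M) ≤ 0 :=
        mul_nonpos_of_nonneg_of_nonpos (by positivity) h.le
      exact h1.trans (Nat.cast_nonneg _)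
    · have h1 : ((k + 1 : ℕ) : ℝ) ^ 2 ≤ M := by
        have : ((k + 1 : ℕ) : ℝ) ^ 2 / M ≤ 1 := by linarith
        rwa [div_le_one hM0] at this
      have h2 : (k + 1) ^ 2 ≤ M := by exact_mod_cast h1
      have hkM : k ≤ M := by nlinarith
      rw [Nat.descFactorial_succ, Nat.cast_mul, Nat.cast_sub hkM]
      have hkM' : (0 : ℝ) ≤ (M : ℝ) - k := by
        have : (k : ℝ) ≤ M := by exact_mod_cast hkM
        linarith
      have h3 := mul_le_mul_of_nonneg_left ih hkM'
      refine le_trans ?_ h3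
      have h4 : ((M : ℝ) - k) * ((M : ℝ) ^ k * (1 - (k : ℝ) ^ 2 / M)) =
          (M : ℝ) ^ (k + 1) * ((1 - k / M) * (1 - (k : ℝ) ^ 2 / M)) := by
        field_simp
        ring
      rw [h4]
      refine mul_le_mul_of_nonneg_left ?_ (by positivity)
      have h5 : (0 : ℝ) ≤ (k : ℝ) / M * ((k : ℝ) ^ 2 / M) := by positivity
      have h6 : ((k + 1 : ℕ) : ℝ) ^ 2 / M = (k : ℝ) ^ 2 / M + 2 * (k / M) + 1 / M := by
        push_cast
        ring
      have h7 : (0 : ℝ) ≤ 1 / M := by positivity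
      have h8 : (0 : ℝ) ≤ (k : ℝ) / M := by positivity
      rw [h6]
      nlinarith

/-- The normalised number of colourings. -/
noncomputable def X {A : Type} [Fintype A] [DecidableEq A] (F : SimpleGraph A) (e M : ℕ) : ℝ :=
  ((cols F M).card : ℝ) / ((M : ℝ) ^ Fintype.card A * (1 - 1 / (M : ℝ)) ^ e)

theorem X_kst (s t M : ℕ) (hM : 2 ≤ M) : X (completeBipartiteGraph (Fin s) (Fin t)) (s * t) M ≤
    1 + (s : ℝ) ^ 2 * (s * t * 2 ^ (s * t)) / (M : ℝ) ^ 2 := by
  have hM0 : (0 : ℝ) < M := by exact_mod_cast (by omega : 0 < M)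
  have hM2 : (2 : ℝ) ≤ M := by exact_mod_cast hM
  set q : ℝ := 1 - 1 / (M : ℝ) with hq
  have hinv : 1 / (M : ℝ) ≤ 1 / 2 := one_div_le_one_div_of_le (by norm_num) hM2
  have hinv0 : 0 < 1 / (M : ℝ) := by positivity
  have hq2 : 1 / 2 ≤ q := by linarith
  have hq0 : 0 < q := by linarith
  have hq1 : q ≤ 1 := by linarith
  set P : ℝ := (M.descFactorial s : ℝ) / (M : ℝ) ^ s with hP
  have hMs : (0 : ℝ) < (M : ℝ) ^ s := by positivity
  have hP0 : 0 ≤ P := by positivity
  have hP1 : 1 - (s : ℝ) ^ 2 / M ≤ P := by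
    rw [hP, le_div_iff₀ hMs, mul_comm]
    exact desc_ge M (by omega) s
  have hdle : M.descFactorial s ≤ M ^ s := Nat.descFactorial_le_pow M s
  have hP2 : P ≤ 1 := by
    rw [hP, div_le_one hMs]
    exact_mod_cast hdle
  have hbern : ((M - s : ℕ) : ℝ) / M ≤ q ^ s := by
    rcases le_or_gt s M with h | h
    · rw [Nat.cast_sub h]
      have h1 := one_add_mul_le_pow (a := -(1 / (M : ℝ))) (by linarith) s
      have h2 : ((M : ℝ) - s) / M = 1 + s * -(1 / (M : ℝ)) := by field_simp; ring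
      rw [h2]
      refine h1.trans (le_of_eq ?_)
      rw [hq]
      ring
    · have : M - s = 0 := by omega
      rw [this]
      simp only [Nat.cast_zero, zero_div]
      positivity
  have hbern0 : 0 ≤ ((M - s : ℕ) : ℝ) / M := by positivity
  have hqst : q ^ (s * t) = (q ^ s) ^ t := by rw [pow_mul]
  have hqst1 : q ^ (s * t) ≤ 1 := pow_le_one₀ hq0.le hq1
  have hqst2 : 1 - (s * t : ℕ) * (1 / (M : ℝ)) ≤ q ^ (s * t) := by
    have h1 := one_add_mul_le_pow (a := -(1 / (M : ℝ))) (by linarith) (s * t)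
    rw [show (1 : ℝ) + -(1 / (M : ℝ)) = q by rw [hq]; ring] at h1
    linarith
  have hqst3 : (1 / 2 : ℝ) ^ (s * t) ≤ q ^ (s * t) := pow_le_pow_left₀ (by norm_num) hq2 _
  have hqstpos : 0 < q ^ (s * t) := by positivity
  -- the numerator
  have hnum : ((cols (completeBipartiteGraph (Fin s) (Fin t)) M).card : ℝ) / (M : ℝ) ^ (s + t) ≤
      P * q ^ (s * t) + (1 - P) := by
    have h1 := cols_kst s t M
    have h2 : ((cols (completeBipartiteGraph (Fin s) (Fin t)) M).card : ℝ) ≤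
        (M.descFactorial s : ℝ) * ((M - s : ℕ) : ℝ) ^ t +
        ((M : ℝ) ^ s - (M.descFactorial s : ℝ)) * (M : ℝ) ^ t := by
      have h3 : ((cols (completeBipartiteGraph (Fin s) (Fin t)) M).card : ℝ) ≤
        ((M.descFactorial s * (M - s) ^ t + (M ^ s - M.descFactorial s) * M ^ t : ℕ) : ℝ) := by
        exact_mod_cast h1
      rw [Nat.cast_add, Nat.cast_mul, Nat.cast_mul, Nat.cast_sub hdle, Nat.cast_pow, Nat.cast_pow,
        Nat.cast_pow] at h3
      exact h3
    rw [div_le_iff₀ (by positivity)]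
    refine h2.trans ?_
    have h4 : (P * q ^ (s * t) + (1 - P)) * (M : ℝ) ^ (s + t) =
        (M.descFactorial s : ℝ) * ((q ^ s) ^ t * (M : ℝ) ^ t) +
        ((M : ℝ) ^ s - (M.descFactorial s : ℝ)) * (M : ℝ) ^ t := by
      rw [hqst, hP, pow_add]
      field_simp
    rw [h4]
    have h5 : ((M - s : ℕ) : ℝ) ^ t ≤ (q ^ s) ^ t * (M : ℝ) ^ t := by
      rw [← mul_pow]
      refine pow_le_pow_left₀ (Nat.cast_nonneg _) ?_ t
      rwa [div_le_iff₀ hM0] at hbern
    have h6 := mul_le_mul_of_nonneg_left h5 (Nat.cast_nonneg (M.descFactorial s) : (0 : ℝ) ≤ _)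
    linarith
  unfold X
  rw [Fintype.card_sum, Fintype.card_fin, Fintype.card_fin, ← hq, ← div_div,
    div_le_iff₀ hqstpos]
  refine hnum.trans ?_
  -- compare
  have h7 : P * q ^ (s * t) + (1 - P) = q ^ (s * t) + (1 - P) * (1 - q ^ (s * t)) := by ring
  rw [h7]
  have h8 : 1 - P ≤ (s : ℝ) ^ 2 / M := by linarith
  have h9 : 1 - q ^ (s * t) ≤ (s * t : ℕ) * (1 / (M : ℝ)) := by linarith
  have h10 : (1 - P) * (1 - q ^ (s * t)) ≤ (s : ℝ) ^ 2 / M * ((s * t : ℕ) * (1 / (M : ℝ))) :=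
    mul_le_mul h8 h9 (by linarith) (by positivity)
  have h11 : (s : ℝ) ^ 2 / M * ((s * t : ℕ) * (1 / (M : ℝ))) ≤
      (s : ℝ) ^ 2 * (s * t * 2 ^ (s * t)) / (M : ℝ) ^ 2 * q ^ (s * t) := by
    have h12 : (s : ℝ) ^ 2 / M * ((s * t : ℕ) * (1 / (M : ℝ))) =
        (s : ℝ) ^ 2 * (s * t * 2 ^ (s * t)) / (M : ℝ) ^ 2 * (1 / 2) ^ (s * t) := by
      have h13 : (1 / 2 : ℝ) ^ (s * t) * 2 ^ (s * t) = 1 := by
        rw [← mul_pow]
        norm_num
      have h14 : (s : ℝ) ^ 2 * (s * t * 2 ^ (s * t)) / (M : ℝ) ^ 2 * (1 / 2) ^ (s * t) =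
          (s : ℝ) ^ 2 * (s * t) / (M : ℝ) ^ 2 * ((1 / 2 : ℝ) ^ (s * t) * 2 ^ (s * t)) := by ring
      rw [h14, h13]
      push_cast
      field_simp
    rw [h12]
    exact mul_le_mul_of_nonneg_left hqst3 (by positivity)
  linarith

/-- The upper bound for the normalised count. -/
theorem ratio_le {A : Type} [Fintype A] [DecidableEq A] (F : SimpleGraph A)
    (hiso : ∀ a, ∃ b, F.Adj a b) (e M D n : ℕ) (hM : 2 ≤ M) :
    (emb F (host M D n) : ℝ) /
      ((n.descFactorial (Fintype.card A) : ℝ) * (((1 - 1 / (M : ℝ)) ^ D)) ^ e) ≤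
    (X F e M) ^ D * ((((n / M ^ D : ℕ) : ℝ) * ((M ^ D : ℕ) : ℝ)) ^ Fintype.card A /
      (n.descFactorial (Fintype.card A) : ℝ)) := by
  have hM0 : (0 : ℝ) < M := by exact_mod_cast (by omega : 0 < M)
  have hq : (0 : ℝ) < 1 - 1 / (M : ℝ) := by
    have : (1 : ℝ) / M ≤ 1 / 2 := one_div_le_one_div_of_le (by norm_num) (by exact_mod_cast hM)
    linarith
  have h1 : (emb F (host M D n) : ℝ) ≤
      ((cols F M).card : ℝ) ^ D * ((n / M ^ D : ℕ) : ℝ) ^ Fintype.card A := by
    exact_mod_cast emb_le F hiso M D n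
  rw [mul_comm ((n.descFactorial (Fintype.card A) : ℝ)), ← div_div, ← mul_div_assoc]
  refine div_le_div_of_nonneg_right ?_ (Nat.cast_nonneg _)
  rw [div_le_iff₀ (by positivity)]
  refine h1.trans (le_of_eq ?_)
  unfold X
  have h2 : ((1 - 1 / (M : ℝ)) ^ D) ^ e = ((1 - 1 / (M : ℝ)) ^ e) ^ D := by
    rw [← pow_mul, ← pow_mul, mul_comm]
  have h3 : (((M ^ D : ℕ) : ℝ)) ^ Fintype.card A = ((M : ℝ) ^ Fintype.card A) ^ D := by
    push_cast
    rw [← pow_mul, ← pow_mul, mul_comm]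
  rw [h2, mul_pow, h3, div_pow, mul_pow]
  have h4 : ((1 - 1 / (M : ℝ)) ^ e) ^ D ≠ 0 := by positivity
  have h5 : ((M : ℝ) ^ Fintype.card A) ^ D ≠ 0 := by positivity
  generalize ((1 - 1 / (M : ℝ)) ^ e) ^ D = z at h4
  generalize ((M : ℝ) ^ Fintype.card A) ^ D = w at h5
  field_simp

/-- The lower bound for the normalised count. -/
theorem le_ratio {A : Type} [Fintype A] [DecidableEq A] (F : SimpleGraph A)
    (e M D n : ℕ) (hM : 2 ≤ M) :
    (X F e M) ^ D * (((n / M ^ D).descFactorial (Fintype.card A) : ℝ) *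
      ((M ^ D : ℕ) : ℝ) ^ Fintype.card A / (n.descFactorial (Fintype.card A) : ℝ)) ≤
    (emb F (host M D n) : ℝ) /
      ((n.descFactorial (Fintype.card A) : ℝ) * (((1 - 1 / (M : ℝ)) ^ D)) ^ e) := by
  have hM0 : (0 : ℝ) < M := by exact_mod_cast (by omega : 0 < M)
  have hq : (0 : ℝ) < 1 - 1 / (M : ℝ) := by
    have : (1 : ℝ) / M ≤ 1 / 2 := one_div_le_one_div_of_le (by norm_num) (by exact_mod_cast hM)
    linarith
  have h1 : ((cols F M).card : ℝ) ^ D * ((n / M ^ D).descFactorial (Fintype.card A) : ℝ) ≤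
      (emb F (host M D n) : ℝ) := by
    exact_mod_cast le_emb F M D n
  rw [mul_comm ((n.descFactorial (Fintype.card A) : ℝ)), ← div_div, ← mul_div_assoc]
  refine div_le_div_of_nonneg_right ?_ (Nat.cast_nonneg _)
  rw [le_div_iff₀ (by positivity)]
  refine le_trans (le_of_eq ?_) h1
  unfold X
  have h2 : ((1 - 1 / (M : ℝ)) ^ D) ^ e = ((1 - 1 / (M : ℝ)) ^ e) ^ D := by
    rw [← pow_mul, ← pow_mul, mul_comm]
  have h3 : (((M ^ D : ℕ) : ℝ)) ^ Fintype.card A = ((M : ℝ) ^ Fintype.card A) ^ D := by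
    push_cast
    rw [← pow_mul, ← pow_mul, mul_comm]
  rw [h2, h3, div_pow, mul_pow]
  have h4 : ((1 - 1 / (M : ℝ)) ^ e) ^ D ≠ 0 := by positivity
  have h5 : ((M : ℝ) ^ Fintype.card A) ^ D ≠ 0 := by positivity
  generalize ((1 - 1 / (M : ℝ)) ^ e) ^ D = z at h4
  generalize ((M : ℝ) ^ Fintype.card A) ^ D = w at h5
  field_simp

theorem X_k2 (M : ℕ) (hM : 2 ≤ M) : X (⊤ : SimpleGraph (Fin 2)) 1 M = 1 := by
  unfold X
  rw [cols_top _ (fun a b => by simp), Fintype.card_fin, descFactorial_cast]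
  have hM0 : (0 : ℝ) < M := by exact_mod_cast (by omega : 0 < M)
  have hM1 : (M : ℝ) - 1 ≠ 0 := by
    have : (2 : ℝ) ≤ M := by exact_mod_cast hM
    linarith
  rw [prod_range_succ, prod_range_succ, prod_range_zero]
  push_cast
  have h : (M : ℝ) ^ 2 * (1 - 1 / (M : ℝ)) ^ 1 = M * (M - 1) := by
    field_simp
  rw [h]
  simp only [sub_zero, one_mul]
  exact div_self (mul_ne_zero hM0.ne' hM1)

theorem X_c3 (M : ℕ) (hM : 2 ≤ M) : X (SimpleGraph.cycleGraph 3) 3 M =
    1 - 1 / ((M : ℝ) - 1) ^ 2 := by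
  unfold X
  rw [cols_top _ (by decide), Fintype.card_fin, descFactorial_cast]
  have hM0 : (0 : ℝ) < M := by exact_mod_cast (by omega : 0 < M)
  have hM1 : (M : ℝ) - 1 ≠ 0 := by
    have : (2 : ℝ) ≤ M := by exact_mod_cast hM
    linarith
  rw [prod_range_succ, prod_range_succ, prod_range_succ, prod_range_zero]
  push_cast
  have h : (M : ℝ) ^ 3 * (1 - 1 / (M : ℝ)) ^ 3 = (M - 1) ^ 3 := by
    rw [← mul_pow]
    congr 1
    field_simp
  rw [h]
  field_simp
  ring

theorem X_c4 (M : ℕ) (hM : 2 ≤ M) : X (SimpleGraph.cycleGraph 4) 4 M =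
    1 + 1 / ((M : ℝ) - 1) ^ 3 := by
  unfold X
  rw [cols_c4 M hM, Fintype.card_fin]
  have hM0 : (0 : ℝ) < M := by exact_mod_cast (by omega : 0 < M)
  have hM1 : (M : ℝ) - 1 ≠ 0 := by
    have : (2 : ℝ) ≤ M := by exact_mod_cast hM
    linarith
  have h : (M : ℝ) ^ 4 * (1 - 1 / (M : ℝ)) ^ 4 = (M - 1) ^ 4 := by
    rw [← mul_pow]
    congr 1
    field_simp
  rw [h]
  field_simp

theorem eventually_good (s : ℕ) (hs : 2 ≤ s) (a : ℝ) (M : ℕ) : ∀ᶠ n : ℕ in atTop,
    M ≤ n / (M + 2) ^ ((M + 1) ^ 2) ∧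
    (M : ℝ) ≤ (1 - 1 / ((M + 2 : ℕ) : ℝ)) ^ ((M + 1) ^ 2) /
      ((Real.log n) ^ a * (n : ℝ) ^ (-(1 / (s : ℝ)))) := by
  have hq : (0 : ℝ) < 1 - 1 / ((M + 2 : ℕ) : ℝ) := by
    have : (1 : ℝ) / ((M + 2 : ℕ) : ℝ) ≤ 1 / 2 :=
      one_div_le_one_div_of_le (by norm_num) (by push_cast; linarith [(Nat.cast_nonneg M : (0 : ℝ) ≤ M)])
    linarith
  have hp : (0 : ℝ) < (1 - 1 / ((M + 2 : ℕ) : ℝ)) ^ ((M + 1) ^ 2) := by positivity
  have hs0 : (0 : ℝ) < 1 / (s : ℝ) := by
    have : (0 : ℝ) < s := by exact_mod_cast (by omega : 0 < s)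
    positivity
  have hlim : Tendsto (fun n : ℕ => (M : ℝ) * ((Real.log n) ^ a * (n : ℝ) ^ (-(1 / (s : ℝ)))))
      atTop (𝓝 0) := by
    have h1 := (isLittleO_log_rpow_rpow_atTop a hs0).tendsto_div_nhds_zero
    have h2 := (h1.comp tendsto_natCast_atTop_atTop).const_mul (M : ℝ)
    rw [mul_zero] at h2
    refine h2.congr fun n => ?_
    simp only [Function.comp]
    rw [Real.rpow_neg (Nat.cast_nonneg n), div_eq_mul_inv]
  have h3 := hlim.eventually (eventually_le_nhds hp)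
  filter_upwards [h3, eventually_ge_atTop 3, eventually_ge_atTop ((M + 2) ^ ((M + 1) ^ 2) * M)]
    with n h3 h4 h5
  constructor
  · rw [Nat.le_div_iff_mul_le (by positivity)]
    rw [mul_comm]
    exact h5
  · have hn : (1 : ℝ) < (n : ℝ) := by exact_mod_cast (by omega : 1 < n)
    have hlog : 0 < Real.log n := Real.log_pos hn
    have hpos : 0 < (Real.log n) ^ a * (n : ℝ) ^ (-(1 / (s : ℝ))) := by
      have h6 : 0 < (Real.log n) ^ a := Real.rpow_pos_of_pos hlog a
      have h7 : 0 < (n : ℝ) ^ (-(1 / (s : ℝ))) := Real.rpow_pos_of_pos (by linarith) _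
      positivity
    rw [le_div_iff₀ hpos]
    exact h3

end Pool.Agent.S11986

namespace Pool.Agent.S11986

/-- The negation of the preceding statement: There are s≥2, a>0 such that whenever p(n)/((log n)^a n^(-1/s))→∞ and n-vertex graphs have normalized labelled K2 and C4 counts tending to 1 and bounded normalized K_{s,t} counts for each t, the normalized triangle count tends to 1. -/
theorem result :
    ¬ (∃ s : ℕ, 2 ≤ s ∧ ∃ a : ℝ, 0 < a ∧
      ∀ p : ℕ → ℝ, (∀ n, 0 < p n ∧ p n ≤ 1) →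
        Tendsto (fun n : ℕ => p n / ((Real.log n) ^ a * (n : ℝ) ^ (-(1 / (s : ℝ))))) atTop atTop →
        ∀ G : ∀ n : ℕ, SimpleGraph (Fin n),
          Tendsto (fun n : ℕ =>
            (Set.ncard {f : Fin 2 → Fin n | Function.Injective f ∧
                ∀ i j, (⊤ : SimpleGraph (Fin 2)).Adj i j → (G n).Adj (f i) (f j)} : ℝ) /
              ((n.descFactorial 2 : ℝ) * p n ^ 1)) atTop (𝓝 1) →
          Tendsto (fun n : ℕ =>
            (Set.ncard {f : Fin 4 → Fin n | Function.Injective f ∧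
                ∀ i j, (SimpleGraph.cycleGraph 4).Adj i j → (G n).Adj (f i) (f j)} : ℝ) /
              ((n.descFactorial 4 : ℝ) * p n ^ 4)) atTop (𝓝 1) →
          (∀ t : ℕ, 1 ≤ t → ∃ C : ℝ, ∀ n : ℕ,
            (Set.ncard {f : Fin s ⊕ Fin t → Fin n | Function.Injective f ∧
                ∀ i j, (completeBipartiteGraph (Fin s) (Fin t)).Adj i j → (G n).Adj (f i) (f j)} : ℝ) /
              ((n.descFactorial (s + t) : ℝ) * p n ^ (s * t)) ≤ C) →
          Tendsto (fun n : ℕ =>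
            (Set.ncard {f : Fin 3 → Fin n | Function.Injective f ∧
                ∀ i j, (SimpleGraph.cycleGraph 3).Adj i j → (G n).Adj (f i) (f j)} : ℝ) /
              ((n.descFactorial 3 : ℝ) * p n ^ 3)) atTop (𝓝 1)) := by
  classical
  rintro ⟨s, hs, a, ha, hmain⟩
  obtain ⟨f, hf, hfQ⟩ := Pool.Agent.V11147.TB.exists_slow
    (fun M n => M ≤ n / (M + 2) ^ ((M + 1) ^ 2) ∧
      (M : ℝ) ≤ (1 - 1 / ((M + 2 : ℕ) : ℝ)) ^ ((M + 1) ^ 2) /
        ((Real.log n) ^ a * (n : ℝ) ^ (-(1 / (s : ℝ))))) (eventually_good s hs a)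
  have hM2 : ∀ n, 2 ≤ f n + 2 := fun n => by omega
  have hm : ∀ n, 0 < (f n + 2) ^ ((f n + 1) ^ 2) := fun n => by positivity
  have hh : Tendsto (fun n => n / (f n + 2) ^ ((f n + 1) ^ 2)) atTop atTop :=
    tendsto_atTop_mono' atTop (hfQ.mono fun n h => h.1) hf
  have hq : ∀ n, (0 : ℝ) < 1 - 1 / ((f n + 2 : ℕ) : ℝ) := by
    intro n
    have : (1 : ℝ) / ((f n + 2 : ℕ) : ℝ) ≤ 1 / 2 :=
      one_div_le_one_div_of_le (by norm_num)
        (by push_cast; linarith [(Nat.cast_nonneg (f n) : (0 : ℝ) ≤ f n)])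
    linarith
  have hfR : Tendsto (fun n => ((f n : ℕ) : ℝ)) atTop atTop :=
    tendsto_natCast_atTop_atTop.comp hf
  have hplus := fun k => Pool.Agent.V11147.TB.tendsto_plus k
    (fun n => (f n + 2) ^ ((f n + 1) ^ 2)) hm hh
  have hminus := fun k => Pool.Agent.V11147.TB.tendsto_minus k
    (fun n => (f n + 2) ^ ((f n + 1) ^ 2)) hm hh
  have hcast : ∀ n, ((f n + 2 : ℕ) : ℝ) - 1 = (f n : ℝ) + 1 := by
    intro n
    push_cast
    ring
  have hC3 := hmain (fun n => (1 - 1 / ((f n + 2 : ℕ) : ℝ)) ^ ((f n + 1) ^ 2)) ?_ ?_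
    (fun n => Pool.Agent.V11147.TB.host (f n + 2) ((f n + 1) ^ 2) n) ?_ ?_ ?_
  · -- the triangle count stays below `exp (-1)`
    have hup : ∀ n : ℕ, (Set.ncard {g : Fin 3 → Fin n | Function.Injective g ∧
        ∀ i j, (SimpleGraph.cycleGraph 3).Adj i j →
          (Pool.Agent.V11147.TB.host (f n + 2) ((f n + 1) ^ 2) n).Adj (g i) (g j)} : ℝ) /
        ((n.descFactorial 3 : ℝ) * ((1 - 1 / ((f n + 2 : ℕ) : ℝ)) ^ ((f n + 1) ^ 2)) ^ 3) ≤
        Real.exp (-1) * ((((n / (f n + 2) ^ ((f n + 1) ^ 2) : ℕ) : ℝ) *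
          (((f n + 2) ^ ((f n + 1) ^ 2) : ℕ) : ℝ)) ^ 3 / (n.descFactorial 3 : ℝ)) := by
      intro n
      have h1 := ratio_le (SimpleGraph.cycleGraph 3)
        (fun a => ⟨a + 1, by revert a; decide⟩) 3 (f n + 2) ((f n + 1) ^ 2) n (hM2 n)
      rw [Fintype.card_fin, X_c3 _ (hM2 n), hcast n] at h1
      refine h1.trans ?_
      refine mul_le_mul_of_nonneg_right ?_ (by positivity)
      have hf1 : (0 : ℝ) < (f n : ℝ) + 1 := by positivity
      have h2 : (1 : ℝ) - 1 / ((f n : ℝ) + 1) ^ 2 ≤ Real.exp (-(1 / ((f n : ℝ) + 1) ^ 2)) :=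
        Real.one_sub_le_exp_neg _
      have h3 : (0 : ℝ) ≤ 1 - 1 / ((f n : ℝ) + 1) ^ 2 := by
        have : 1 / ((f n : ℝ) + 1) ^ 2 ≤ 1 := by
          rw [div_le_one (by positivity)]
          have : (0 : ℝ) ≤ (f n : ℝ) := Nat.cast_nonneg _
          nlinarith
        linarith
      refine (pow_le_pow_left₀ h3 h2 _).trans (le_of_eq ?_)
      rw [← Real.exp_nat_mul]
      congr 1
      push_cast
      field_simp
    have hlim := (hplus 3).const_mul (Real.exp (-1))
    have hle := le_of_tendsto_of_tendsto' hC3 hlim hup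
    rw [mul_one] at hle
    have : Real.exp (-1) < 1 := by
      rw [Real.exp_lt_one_iff]
      norm_num
    linarith
  · intro n
    refine ⟨pow_pos (hq n) _, pow_le_one₀ (hq n).le ?_⟩
    have : (0 : ℝ) ≤ 1 / ((f n + 2 : ℕ) : ℝ) := by positivity
    linarith
  · exact tendsto_atTop_mono' atTop (hfQ.mono fun n h => h.2) hfR
  · -- edges
    have h2 : ∀ n : ℕ, X (⊤ : SimpleGraph (Fin 2)) 1 (f n + 2) = 1 := fun n => X_k2 _ (hM2 n)
    refine tendsto_of_tendsto_of_tendsto_of_le_of_le (hminus 2) (hplus 2) ?_ ?_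
    · intro n
      have h1 := le_ratio (⊤ : SimpleGraph (Fin 2)) 1 (f n + 2) ((f n + 1) ^ 2) n (hM2 n)
      rw [Fintype.card_fin, h2, one_pow, one_mul] at h1
      exact h1
    · intro n
      have h1 := ratio_le (⊤ : SimpleGraph (Fin 2)) (fun a => ⟨a + 1, by revert a; decide⟩) 1
        (f n + 2) ((f n + 1) ^ 2) n (hM2 n)
      rw [Fintype.card_fin, h2, one_pow, one_mul] at h1
      exact h1
  · -- four-cycles
    have hX : ∀ n : ℕ, X (SimpleGraph.cycleGraph 4) 4 (f n + 2) = 1 + 1 / ((f n : ℝ) + 1) ^ 3 := by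
      intro n
      rw [X_c4 _ (hM2 n), hcast n]
    have hXD1 : ∀ n : ℕ, 1 ≤ X (SimpleGraph.cycleGraph 4) 4 (f n + 2) ^ ((f n + 1) ^ 2) := by
      intro n
      rw [hX]
      refine one_le_pow₀ ?_
      have : (0 : ℝ) ≤ 1 / ((f n : ℝ) + 1) ^ 3 := by positivity
      linarith
    have hXD2 : ∀ n : ℕ, X (SimpleGraph.cycleGraph 4) 4 (f n + 2) ^ ((f n + 1) ^ 2) ≤
        Real.exp (1 / ((f n : ℝ) + 1)) := by
      intro n
      rw [hX]
      have h2 : (1 : ℝ) + 1 / ((f n : ℝ) + 1) ^ 3 ≤ Real.exp (1 / ((f n : ℝ) + 1) ^ 3) := by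
        have := Real.add_one_le_exp (1 / ((f n : ℝ) + 1) ^ 3)
        linarith
      refine (pow_le_pow_left₀ (by positivity) h2 _).trans (le_of_eq ?_)
      rw [← Real.exp_nat_mul]
      congr 1
      push_cast
      field_simp
    have hexp : Tendsto (fun n : ℕ => Real.exp (1 / ((f n : ℝ) + 1))) atTop (𝓝 1) := by
      have h1 : Tendsto (fun n : ℕ => 1 / ((f n : ℝ) + 1)) atTop (𝓝 0) :=
        (tendsto_atTop_add_const_right atTop 1 hfR).const_div_atTop 1
      have h2 := (Real.continuous_exp.tendsto 0).comp h1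
      rw [Real.exp_zero] at h2
      exact h2
    have hlow : Tendsto (fun n : ℕ => (((n / (f n + 2) ^ ((f n + 1) ^ 2)).descFactorial 4 : ℕ) : ℝ) *
        (((f n + 2) ^ ((f n + 1) ^ 2) : ℕ) : ℝ) ^ 4 / (n.descFactorial 4 : ℝ)) atTop (𝓝 1) :=
      hminus 4
    have hupp := hexp.mul (hplus 4)
    rw [one_mul] at hupp
    refine tendsto_of_tendsto_of_tendsto_of_le_of_le hlow hupp ?_ ?_
    · intro n
      have h1 := le_ratio (SimpleGraph.cycleGraph 4) 4 (f n + 2) ((f n + 1) ^ 2) n (hM2 n)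
      rw [Fintype.card_fin] at h1
      refine le_trans ?_ h1
      refine le_mul_of_one_le_left (by positivity) (hXD1 n)
    · intro n
      have h1 := ratio_le (SimpleGraph.cycleGraph 4) (fun a => ⟨a + 1, by revert a; decide⟩) 4
        (f n + 2) ((f n + 1) ^ 2) n (hM2 n)
      rw [Fintype.card_fin] at h1
      refine h1.trans ?_
      exact mul_le_mul_of_nonneg_right (hXD2 n) (by positivity)
  · -- complete bipartite graphs
    intro t ht
    obtain ⟨B, hB⟩ := (hplus (s + t)).bddAbove_range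
    set C : ℝ := (s : ℝ) ^ 2 * (s * t * 2 ^ (s * t)) with hC
    have hC0 : 0 ≤ C := by positivity
    refine ⟨Real.exp C * B, ?_⟩
    intro n
    have hiso : ∀ a : Fin s ⊕ Fin t, ∃ b, (completeBipartiteGraph (Fin s) (Fin t)).Adj a b := by
      intro a
      rcases a with a | a
      · exact ⟨Sum.inr ⟨0, ht⟩, by simp [completeBipartiteGraph]⟩
      · exact ⟨Sum.inl ⟨0, by omega⟩, by simp [completeBipartiteGraph]⟩
    have h1 := ratio_le (completeBipartiteGraph (Fin s) (Fin t)) hiso (s * t) (f n + 2)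
      ((f n + 1) ^ 2) n (hM2 n)
    rw [Fintype.card_sum, Fintype.card_fin, Fintype.card_fin] at h1
    refine h1.trans ?_
    have h2 := X_kst s t (f n + 2) (hM2 n)
    rw [← hC] at h2
    have hX0 : 0 ≤ X (completeBipartiteGraph (Fin s) (Fin t)) (s * t) (f n + 2) := by
      unfold X
      have := (hq n).le
      positivity
    have h3 : X (completeBipartiteGraph (Fin s) (Fin t)) (s * t) (f n + 2) ^ ((f n + 1) ^ 2) ≤
        Real.exp C := by
      have h4 : (1 : ℝ) + C / ((f n + 2 : ℕ) : ℝ) ^ 2 ≤ Real.exp (C / ((f n + 2 : ℕ) : ℝ) ^ 2) := by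
        have := Real.add_one_le_exp (C / ((f n + 2 : ℕ) : ℝ) ^ 2)
        linarith
      refine (pow_le_pow_left₀ hX0 (h2.trans h4) _).trans ?_
      rw [← Real.exp_nat_mul, Real.exp_le_exp]
      have h5 : (0 : ℝ) < ((f n + 2 : ℕ) : ℝ) ^ 2 := by positivity
      rw [mul_div_assoc', div_le_iff₀ h5]
      push_cast
      have h6 : (0 : ℝ) ≤ (f n : ℝ) := Nat.cast_nonneg _
      have h7 : ((f n : ℝ) + 1) ^ 2 ≤ ((f n : ℝ) + 2) ^ 2 := by nlinarith
      nlinarith
    have h4 : (((n / (f n + 2) ^ ((f n + 1) ^ 2) : ℕ) : ℝ) *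
          (((f n + 2) ^ ((f n + 1) ^ 2) : ℕ) : ℝ)) ^ (s + t) / (n.descFactorial (s + t) : ℝ) ≤ B :=
      hB ⟨n, rfl⟩
    exact mul_le_mul h3 h4 (by positivity) (Real.exp_pos C).le

end Pool.Agent.S11986
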