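import Pool.Statements.S12060
import Pool.Agent.Results.MP_e3c312_co.CuspSymmetry

set_option autoImplicit false
open Pool Pool.MP_e3c312_co

namespace Pool.Agent.S12060

open Pool.Agent.Results.MP_e3c312_co.CuspSymmetry
open scoped Topology

/-- The congruence of placements. -/
def cg : (Fin 7 → EuclideanSpace ℝ (Fin 3)) → (Fin 7 → EuclideanSpace ℝ (Fin 3)) → Prop :=
  fun q q' => ∃ T : EuclideanSpace ℝ (Fin 3) ≃ᵢ EuclideanSpace ℝ (Fin 3), ∀ i, T (q i) = q' i

theorem cg_equiv : Equivalence cg := by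
  refine ⟨fun q => ⟨IsometryEquiv.refl _, fun _ => rfl⟩, ?_, ?_⟩
  · rintro q q' ⟨T, h⟩
    exact ⟨T.symm, fun i => by rw [← h i, T.symm_apply_apply]⟩
  · rintro q q' q'' ⟨T, h⟩ ⟨T', h'⟩
    exact ⟨T.trans T', fun i => by rw [← h' i, ← h i]; rfl⟩

theorem mk_eq {q q' : Fin 7 → EuclideanSpace ℝ (Fin 3)} : Quot.mk cg q = Quot.mk cg q' ↔ cg q q' := by
  rw [Quot.eq, cg_equiv.eqvGen_iff]

/-- The invariant. -/
noncomputable def iv (q : Fin 7 → EuclideanSpace ℝ (Fin 3)) : ℝ :=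
  dist (q 2) (q 6) ^ 2 - dist (q 1) (q 6) ^ 2

theorem iv_congr (q q' : Fin 7 → EuclideanSpace ℝ (Fin 3)) (h : cg q q') : iv q = iv q' := by
  obtain ⟨T, hT⟩ := h
  unfold iv
  rw [← hT 1, ← hT 2, ← hT 6, T.dist_eq, T.dist_eq]

theorem iv_continuous : Continuous iv := by
  unfold iv
  fun_prop

/-- The invariant on the quotient. -/
noncomputable def ivC : Quot cg → ℝ := Quot.lift iv iv_congr

theorem ivC_continuous : Continuous ivC := iv_continuous.quotient_lift (s := ⟨cg, cg_equiv⟩) iv_congr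

/-- The rescaling of the parameter. -/
theorem dom_s (s : Set.Ioo (0 : ℝ) 1) : (2 * (s : ℝ) - 1) / 10 ∈ Dom := by
  obtain ⟨s, h1, h2⟩ := s
  constructor <;> simp only <;> linarith

/-- The curve of classes. -/
noncomputable def crv (s : Set.Ioo (0 : ℝ) 1) : Quot cg := Quot.mk cg (std ((2 * (s : ℝ) - 1) / 10))

theorem crv_continuous : Continuous crv := by
  unfold crv
  refine continuous_quot_mk.comp ?_
  refine cont_std.comp_continuous (by fun_prop) ?_
  exact fun s => dom_s s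

theorem ivC_crv (s : Set.Ioo (0 : ℝ) 1) : ivC (crv s) = 4 * fh ((2 * (s : ℝ) - 1) / 10) :=
  inv_std (dom_s s)

theorem crv_isEmbedding : Topology.IsEmbedding crv := by
  refine Topology.IsEmbedding.of_comp crv_continuous ivC_continuous ?_
  have hc : Continuous (ivC ∘ crv) := ivC_continuous.comp crv_continuous
  have hm : StrictMono (ivC ∘ crv) := by
    intro y y' h
    simp only [Function.comp, ivC_crv]
    have h' : (2 * (y : ℝ) - 1) / 10 < (2 * (y' : ℝ) - 1) / 10 := by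
      have : (y : ℝ) < y' := h
      linarith
    have := fh_strictMono (dom_s y) (dom_s y') h'
    linarith
  refine hm.isEmbedding_of_ordConnected ?_
  have : PreconnectedSpace (Set.Ioo (0 : ℝ) 1) :=
    Subtype.preconnectedSpace isPreconnected_Ioo
  exact (isPreconnected_range hc).ordConnected

/-- The local conditions. -/
def Nr (q : Fin 7 → EuclideanSpace ℝ (Fin 3)) : Prop :=
  0 < dist (q 1) (q 2) ∧ dist (q 1) (q 2) ^ 2 < 8 ∧
    |dist (q 3) (q 4) ^ 2 - 25| < 12 / 100 ∧ dist (q 3) (q 5) ^ 2 < 5661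

theorem nr_congr (q q' : Fin 7 → EuclideanSpace ℝ (Fin 3)) (h : cg q q') (hq : Nr q) : Nr q' := by
  obtain ⟨T, hT⟩ := h
  unfold Nr at *
  rw [← hT 1, ← hT 2, ← hT 3, ← hT 4, ← hT 5, T.dist_eq, T.dist_eq, T.dist_eq]
  exact hq

theorem nr_isOpen : IsOpen {q : Fin 7 → EuclideanSpace ℝ (Fin 3) | Nr q} := by
  have c12 : Continuous fun q : Fin 7 → EuclideanSpace ℝ (Fin 3) => dist (q 1) (q 2) := by fun_prop
  have c34 : Continuous fun q : Fin 7 → EuclideanSpace ℝ (Fin 3) => dist (q 3) (q 4) := by fun_prop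
  have c35 : Continuous fun q : Fin 7 → EuclideanSpace ℝ (Fin 3) => dist (q 3) (q 5) := by fun_prop
  refine (isOpen_lt continuous_const c12).inter ((isOpen_lt (c12.pow 2) continuous_const).inter
    ((isOpen_lt ((c34.pow 2).sub continuous_const).abs continuous_const).inter
      (isOpen_lt (c35.pow 2) continuous_const)))

theorem nr_std {x : ℝ} (hx : x ∈ Dom) : Nr (std x) := by
  have hX := dom_X hx
  have hX0 : 0 ≤ x ^ 2 := sq_nonneg x
  have hrel := rel_std hx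
  obtain ⟨h12, h34, h35, _, _, _, _⟩ := hrel.nonedges
  change dist (std x 1) (std x 2) ^ 2 = _ at h12
  change dist (std x 3) (std x 4) ^ 2 = _ at h34
  change dist (std x 3) (std x 5) ^ 2 = _ at h35
  have hz0 := hrel.z0
  have hA := hrel.hA
  have hz2 : fz (x ^ 2) ^ 2 < 2 := by
    have hs : 0 < fs (x ^ 2) ^ 2 := by
      have h1 := hrel.hs
      have h2 : fs (x ^ 2) ≠ 0 := by
        intro h0
        rw [h0, zero_mul] at h1
        norm_num at h1
      positivity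
    linarith
  refine ⟨?_, ?_, ?_, ?_⟩
  · have h1 : dist (std x 1) (std x 2) ≠ 0 := by
      intro h
      rw [h] at h12
      have : 0 < 4 * fz (x ^ 2) ^ 2 := by positivity
      linarith [h12]
    exact lt_of_le_of_ne dist_nonneg (Ne.symm h1)
  · rw [h12]; linarith
  · rw [h34, abs_lt]; constructor <;> linarith
  · rw [h35]; linarith

/-- The open set. -/
def O : Set (Quot cg) := Quot.mk cg '' {q | Nr q}

theorem O_isOpen : IsOpen O := by
  have hq : Topology.IsQuotientMap (Quot.mk cg) := isQuotientMap_quot_mk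
  rw [← hq.isOpen_preimage]
  have : Quot.mk cg ⁻¹' O = {q | Nr q} := by
    ext q
    constructor
    · rintro ⟨q', hq', h⟩
      exact nr_congr q' q (mk_eq.1 h) hq'
    · intro hq
      exact ⟨q, hq, rfl⟩
  rw [this]
  exact nr_isOpen

theorem range_crv : Set.range crv = O ∩ {x : Quot cg | ∃ q : Fin 7 → EuclideanSpace ℝ (Fin 3),
    Quot.mk cg q = x ∧ ∀ i j : Fin 7, G7.Adj i j → dist (q i) (q j) = dist (p7 i) (p7 j)} := by
  ext c
  constructor
  · rintro ⟨s, rfl⟩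
    exact ⟨⟨_, nr_std (dom_s s), rfl⟩, _, rfl, std_mem (dom_s s)⟩
  · rintro ⟨⟨q', hq', hc⟩, q, rfl, hq⟩
    have hnr : Nr q := nr_congr q' q (mk_eq.1 hc) hq'
    obtain ⟨h1, h2, h3, h4⟩ := hnr
    obtain ⟨T, x, hx, hT⟩ := local_unique q hq h1 h2 h3 h4
    have hs : (10 * x + 1) / 2 ∈ Set.Ioo (0 : ℝ) 1 := by
      obtain ⟨a, b⟩ := hx
      constructor <;> linarith
    refine ⟨⟨_, hs⟩, ?_⟩
    apply mk_eq.2
    refine ⟨T.symm, fun i => ?_⟩
    have e : (2 * ((10 * x + 1) / 2) - 1) / 10 = x := by ring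
    simp only
    rw [e, ← hT i, T.symm_apply_apply]

/-- The group of order two generated by the reflection. -/
noncomputable def Gm : Subgroup (EuclideanSpace ℝ (Fin 3) ≃ᵢ EuclideanSpace ℝ (Fin 3)) where
  carrier := {g | g = 1 ∨ g = refl3}
  one_mem' := Or.inl rfl
  mul_mem' := by
    have h : refl3 * refl3 = 1 := refl3_mul
    rintro a b (rfl | rfl) (rfl | rfl)
    · left; simp
    · right; simp
    · right; simp
    · left; exact h
  inv_mem' := by
    have h : refl3 * refl3 = 1 := refl3_mul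
    rintro a (rfl | rfl)
    · left; simp
    · right; exact inv_eq_of_mul_eq_one_left h

/-- The reflection as an element of the group. -/
noncomputable def rg : Gm := ⟨refl3, Or.inr rfl⟩

theorem gm_cases (g : Gm) : g = 1 ∨ g = rg := by
  obtain ⟨g, hg⟩ := g
  rcases hg with h | h
  · left; exact Subtype.ext h
  · right; exact Subtype.ext h

theorem rg_mul : rg * rg = 1 := by
  apply Subtype.ext
  have h : refl3 * refl3 = 1 := refl3_mul
  exact h

theorem rg_ne : rg ≠ 1 := fun h => refl3_ne (congrArg Subtype.val h)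

open Classical in
/-- The action on the vertices. -/
noncomputable def th : Gm →* Equiv.Perm (Fin 7) :=
  MonoidHom.mk' (fun g => if g = 1 then 1 else Equiv.swap 1 2) (by
    intro g h
    rcases gm_cases g with rfl | rfl <;> rcases gm_cases h with rfl | rfl
    · simp
    · simp
    · simp
    · rw [rg_mul, if_pos rfl, if_neg rg_ne, Equiv.swap_mul_self])

theorem th_rg : th rg = Equiv.swap 1 2 := by
  simp [th, rg_ne]

theorem th_symm (g : Gm) (i : Fin 7) :
    (g : EuclideanSpace ℝ (Fin 3) ≃ᵢ EuclideanSpace ℝ (Fin 3)) (p7 i) = p7 (th g i) := by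
  rcases gm_cases g with rfl | rfl
  · rw [map_one]; rfl
  · rw [th_rg]
    have := p7_symm rG i
    rw [theta_rG] at this
    exact this

theorem th_adj (g : Gm) (u v : Fin 7) : G7.Adj u v ↔ G7.Adj (th g u) (th g v) := by
  rcases gm_cases g with rfl | rfl
  · rw [map_one]; rfl
  · rw [th_rg]
    revert u v
    decide

/-- The motion. -/
noncomputable def mot (t : ℝ) : Fin 7 → EuclideanSpace ℝ (Fin 3) := std (t / 2 / 10)

theorem mot_dom {t : ℝ} (ht : t ∈ Set.Icc (0 : ℝ) 1) : t / 2 / 10 ∈ Dom := by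
  obtain ⟨h1, h2⟩ := ht
  constructor <;> linarith

/-- The negation of the preceding statement: For any Γ-symmetric framework in ℝ^d, every expansive motion tracing one half-branch of a neighbourhood of [p] homeomorphic to an interval in the configuration space mod isometries can be moved by continuous isometries so it stays Γ-symmetric. -/
theorem result :
    ¬ (∀ (d : ℕ) (V : Type) [Fintype V] (G : SimpleGraph V) (p : V → EuclideanSpace ℝ (Fin d))
    (Γ : Subgroup (EuclideanSpace ℝ (Fin d) ≃ᵢ EuclideanSpace ℝ (Fin d))) [Finite Γ]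
    (θ : Γ →* Equiv.Perm V),
    (∀ γ : Γ, ∀ u v : V, G.Adj u v ↔ G.Adj (θ γ u) (θ γ v)) →
    (∀ γ : Γ, ∀ i : V,
      (γ : EuclideanSpace ℝ (Fin d) ≃ᵢ EuclideanSpace ℝ (Fin d)) (p i) = p (θ γ i)) →
    ∀ m : ℝ → V → EuclideanSpace ℝ (Fin d),
      ContinuousOn m (Set.Icc 0 1) → m 0 = p →
      (∀ t ∈ Set.Icc (0:ℝ) 1, ∀ i j : V, G.Adj i j → dist (m t i) (m t j) = dist (p i) (p j)) →
      (∀ i j : V, MonotoneOn (fun t => dist (m t i) (m t j)) (Set.Icc (0:ℝ) 1)) →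
      (∃ t ∈ Set.Icc (0:ℝ) 1, ∃ i j : V, dist (m t i) (m t j) ≠ dist (p i) (p j)) →
      Set.InjOn (fun t => Quot.mk (fun q q' : V → EuclideanSpace ℝ (Fin d) =>
          ∃ T : EuclideanSpace ℝ (Fin d) ≃ᵢ EuclideanSpace ℝ (Fin d), ∀ i, T (q i) = q' i) (m t))
        (Set.Icc (0:ℝ) 1) →
      (∃ O : Set (Quot (fun q q' : V → EuclideanSpace ℝ (Fin d) =>
          ∃ T : EuclideanSpace ℝ (Fin d) ≃ᵢ EuclideanSpace ℝ (Fin d), ∀ i, T (q i) = q' i)),
        IsOpen O ∧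
        ∃ h : ↥(O ∩ {x : Quot (fun q q' : V → EuclideanSpace ℝ (Fin d) =>
              ∃ T : EuclideanSpace ℝ (Fin d) ≃ᵢ EuclideanSpace ℝ (Fin d), ∀ i, T (q i) = q' i) |
              ∃ q : V → EuclideanSpace ℝ (Fin d),
                Quot.mk (fun q q' : V → EuclideanSpace ℝ (Fin d) =>
                  ∃ T : EuclideanSpace ℝ (Fin d) ≃ᵢ EuclideanSpace ℝ (Fin d), ∀ i, T (q i) = q' i) q = x ∧
                ∀ i j : V, G.Adj i j → dist (q i) (q j) = dist (p i) (p j)}) ≃ₜ ↥(Set.Ioo (0:ℝ) 1),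
        ∃ a : Set.Ioo (0:ℝ) 1,
          (h.symm a).1 = Quot.mk (fun q q' : V → EuclideanSpace ℝ (Fin d) =>
            ∃ T : EuclideanSpace ℝ (Fin d) ≃ᵢ EuclideanSpace ℝ (Fin d), ∀ i, T (q i) = q' i) p ∧
          ((∀ t ∈ Set.Ioc (0:ℝ) 1, ∃ b : Set.Ioo (0:ℝ) 1,
              (h.symm b).1 = Quot.mk (fun q q' : V → EuclideanSpace ℝ (Fin d) =>
                ∃ T : EuclideanSpace ℝ (Fin d) ≃ᵢ EuclideanSpace ℝ (Fin d), ∀ i, T (q i) = q' i) (m t) ∧
              (a : ℝ) < (b : ℝ)) ∨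
           (∀ t ∈ Set.Ioc (0:ℝ) 1, ∃ b : Set.Ioo (0:ℝ) 1,
              (h.symm b).1 = Quot.mk (fun q q' : V → EuclideanSpace ℝ (Fin d) =>
                ∃ T : EuclideanSpace ℝ (Fin d) ≃ᵢ EuclideanSpace ℝ (Fin d), ∀ i, T (q i) = q' i) (m t) ∧
              (b : ℝ) < (a : ℝ)))) →
      ∃ T : ℝ → (EuclideanSpace ℝ (Fin d) ≃ᵢ EuclideanSpace ℝ (Fin d)),
        (∀ x, T 0 x = x) ∧
        (∀ x, ContinuousOn (fun t => T t x) (Set.Icc (0:ℝ) 1)) ∧
        ∀ t ∈ Set.Icc (0:ℝ) 1, ∀ γ : Γ, ∀ i : V,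
          (γ : EuclideanSpace ℝ (Fin d) ≃ᵢ EuclideanSpace ℝ (Fin d)) (T t (m t i))
            = T t (m t (θ γ i))) := by
  intro H
  have hfin : Finite Gm := by
    have : Finite ({1, refl3} : Set (EuclideanSpace ℝ (Fin 3) ≃ᵢ EuclideanSpace ℝ (Fin 3))) :=
      Set.toFinite _
    exact this
  have hm0 : mot 0 = p7 := by
    show std (0 / 2 / 10) = p7
    rw [show (0 : ℝ) / 2 / 10 = 0 by norm_num, std_zero]
  have hmk : ∀ t : ℝ, t ∈ Set.Icc (0 : ℝ) 1 → ∃ b : Set.Ioo (0 : ℝ) 1, (b : ℝ) = (1 + t / 2) / 2 ∧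
      crv b = Quot.mk cg (mot t) := by
    rintro t ⟨h0, h1⟩
    have hb : (1 + t / 2) / 2 ∈ Set.Ioo (0 : ℝ) 1 := by constructor <;> linarith
    refine ⟨⟨_, hb⟩, rfl, ?_⟩
    show Quot.mk cg (std ((2 * ((1 + t / 2) / 2) - 1) / 10)) = Quot.mk cg (std (t / 2 / 10))
    rw [show (2 * ((1 + t / 2) / 2) - 1) / 10 = t / 2 / 10 by ring]
  have g1 : ContinuousOn mot (Set.Icc 0 1) := cont_std.comp (by fun_prop) fun t ht => mot_dom ht
  have g2 : ∀ t ∈ Set.Icc (0:ℝ) 1, ∀ i j : Fin 7, G7.Adj i j →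
      dist (mot t i) (mot t j) = dist (p7 i) (p7 j) := fun t ht i j hij => std_mem (mot_dom ht) i j hij
  have g3 : ∀ i j : Fin 7, MonotoneOn (fun t => dist (mot t i) (mot t j)) (Set.Icc (0:ℝ) 1) := by
    intro i j t ht t' ht' htt
    exact std_dist_mono (by have := ht.1; positivity) (by linarith) (mot_dom ht) (mot_dom ht') i j
  have g4 : ∃ t ∈ Set.Icc (0:ℝ) 1, ∃ i j : Fin 7, dist (mot t i) (mot t j) ≠ dist (p7 i) (p7 j) := by
    refine ⟨1, by constructor <;> norm_num, 3, 4, ?_⟩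
    have hdom : (1 : ℝ) / 2 / 10 ∈ Dom := mot_dom (by constructor <;> norm_num)
    obtain ⟨_, h1, _⟩ := (rel_std hdom).nonedges
    obtain ⟨_, h2, _⟩ := rel0.nonedges
    intro h
    have h3 : dist (mot 1 3) (mot 1 4) ^ 2 = dist (p7 3) (p7 4) ^ 2 := by rw [h]
    have h4 := (h1.symm.trans h3).trans h2
    norm_num at h4
  have g5 : Set.InjOn (fun t => Quot.mk cg (mot t)) (Set.Icc (0:ℝ) 1) := by
    intro t ht t' ht' h
    obtain ⟨b, hb, hb'⟩ := hmk t ht
    obtain ⟨b', hbb, hbb'⟩ := hmk t' ht'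
    have h1 : crv b = crv b' := by rw [hb', hbb']; exact h
    have h2 := congrArg Subtype.val (crv_isEmbedding.injective h1)
    rw [hb, hbb] at h2
    linarith
  have g6 : ∃ O : Set (Quot cg), IsOpen O ∧
      ∃ h : ↥(O ∩ {x : Quot cg | ∃ q : Fin 7 → EuclideanSpace ℝ (Fin 3), Quot.mk cg q = x ∧
        ∀ i j : Fin 7, G7.Adj i j → dist (q i) (q j) = dist (p7 i) (p7 j)}) ≃ₜ ↥(Set.Ioo (0:ℝ) 1),
      ∃ a : Set.Ioo (0:ℝ) 1, (h.symm a).1 = Quot.mk cg p7 ∧
        ((∀ t ∈ Set.Ioc (0:ℝ) 1, ∃ b : Set.Ioo (0:ℝ) 1, (h.symm b).1 = Quot.mk cg (mot t) ∧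
          (a : ℝ) < (b : ℝ)) ∨
        (∀ t ∈ Set.Ioc (0:ℝ) 1, ∃ b : Set.Ioo (0:ℝ) 1, (h.symm b).1 = Quot.mk cg (mot t) ∧
          (b : ℝ) < (a : ℝ))) := by
    refine ⟨O, O_isOpen, (crv_isEmbedding.toHomeomorph.trans (Homeomorph.setCongr range_crv)).symm,
      ⟨1 / 2, by constructor <;> norm_num⟩, ?_, Or.inl ?_⟩
    · show Quot.mk cg (std ((2 * (1 / 2) - 1) / 10)) = Quot.mk cg p7
      rw [show (2 * (1 / 2) - 1 : ℝ) / 10 = 0 by norm_num, std_zero]
    · intro t ht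
      obtain ⟨b, hb, hb'⟩ := hmk t ⟨ht.1.le, ht.2⟩
      refine ⟨b, hb', ?_⟩
      show (1 : ℝ) / 2 < b
      rw [hb]
      have := ht.1
      linarith
  obtain ⟨T, -, -, hT⟩ := H 3 (Fin 7) G7 p7 Gm th th_adj th_symm mot g1 hm0 g2 g3 g4 g5 g6
  have h1 := hT 1 (by constructor <;> norm_num) rg
  have e6 := h1 6
  have e1 := h1 1
  rw [th_rg] at e6 e1
  have s6 : Equiv.swap (1 : Fin 7) 2 6 = 6 := by decide
  have s1 : Equiv.swap (1 : Fin 7) 2 1 = 2 := by decide
  rw [s6] at e6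
  rw [s1] at e1
  have e6' : refl3 (T 1 (mot 1 6)) = T 1 (mot 1 6) := e6
  have e1' : refl3 (T 1 (mot 1 1)) = T 1 (mot 1 2) := e1
  have hd : dist (mot 1 2) (mot 1 6) = dist (mot 1 1) (mot 1 6) := by
    calc dist (mot 1 2) (mot 1 6)
        = dist (T 1 (mot 1 2)) (T 1 (mot 1 6)) := ((T 1).dist_eq _ _).symm
      _ = dist (refl3 (T 1 (mot 1 1))) (refl3 (T 1 (mot 1 6))) := by rw [e1', e6']
      _ = dist (T 1 (mot 1 1)) (T 1 (mot 1 6)) := refl3.dist_eq _ _
      _ = dist (mot 1 1) (mot 1 6) := (T 1).dist_eq _ _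
  have hdom : (1 : ℝ) / 2 / 10 ∈ Dom := mot_dom (by constructor <;> norm_num)
  have h2 := inv_std hdom
  have h3 : inv (stdR ((1 : ℝ) / 2 / 10) hdom) = 0 := by
    show dist (mot 1 2) (mot 1 6) ^ 2 - dist (mot 1 1) (mot 1 6) ^ 2 = 0
    rw [hd, sub_self]
  have h5 : fh 0 = 0 := by simp [fh, fm]
  have h6 := fh_lt (x := 0) (y := (1 : ℝ) / 2 / 10) le_rfl (by norm_num) zero_dom hdom
  linarith

end Pool.Agent.S12060
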