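import Pool.Statements.S12199

set_option autoImplicit false
open Pool Pool.MP_ea35a0_co

namespace Pool.Agent.S12199

open Finset

/-! ### The sharp discrete Dirichlet and Wirtinger inequalities -/

lemma dirichlet (k : ℕ) (s : ℕ → ℝ) (h0 : s 0 = 0) (hk : s (k + 1) = 0) :
    (2 - 2 * Real.cos (Real.pi / (k + 1 : ℕ))) * ∑ j ∈ range k, s (j + 1) ^ 2 ≤
      ∑ j ∈ range (k + 1), (s (j + 1) - s j) ^ 2 := by
  set θ : ℝ := Real.pi / (k + 1 : ℕ) with hθ
  set φ : ℕ → ℝ := fun j => Real.sin (j * θ) with hφ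
  have hkpos : (0:ℝ) < (k + 1 : ℕ) := by positivity
  have hθpos : 0 < θ := div_pos Real.pi_pos hkpos
  have hφpos : ∀ j : ℕ, 1 ≤ j → j ≤ k → 0 < φ j := by
    intro j h1 h2
    apply Real.sin_pos_of_pos_of_lt_pi
    · have : (0:ℝ) < j := by exact_mod_cast h1
      positivity
    · have h3 : (j:ℝ) < (k + 1 : ℕ) := by exact_mod_cast (by omega : j < k + 1)
      calc (j:ℝ) * θ < (k + 1 : ℕ) * θ := by gcongr
        _ = Real.pi := by rw [hθ]; field_simp
  have hφ0 : φ 0 = 0 := by simp [hφ]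
  have hφk : φ (k + 1) = 0 := by
    have : ((k + 1 : ℕ) : ℝ) * θ = Real.pi := by rw [hθ]; field_simp
    simp only [hφ]
    rw [this, Real.sin_pi]
  have hrec : ∀ j : ℕ, φ j + φ (j + 2) = 2 * Real.cos θ * φ (j + 1) := by
    intro j
    have e1 : ((j : ℕ) : ℝ) * θ = ((j + 1 : ℕ) : ℝ) * θ - θ := by push_cast; ring
    have e2 : ((j + 2 : ℕ) : ℝ) * θ = ((j + 1 : ℕ) : ℝ) * θ + θ := by push_cast; ring
    simp only [hφ]
    rw [e1, e2, Real.sin_sub, Real.sin_add]
    ring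
  have hstep : ∀ j ∈ range (k + 1),
      s (j + 1) ^ 2 * (1 - φ j / φ (j + 1)) + s j ^ 2 * (1 - φ (j + 1) / φ j) ≤
        (s (j + 1) - s j) ^ 2 := by
    intro j hj
    rw [mem_range] at hj
    rcases Nat.eq_zero_or_pos j with rfl | hjpos
    · rw [hφ0, h0]; simp
    · rcases (show j = k ∨ j < k by omega) with rfl | hjk
      · rw [hφk, hk]; simp
      · have p1 := hφpos j hjpos (by omega)
        have p2 := hφpos (j + 1) (by omega) (by omega)
        have key : 0 ≤ (s (j + 1) * φ j - s j * φ (j + 1)) ^ 2 / (φ j * φ (j + 1)) := by positivity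
        have e : (s (j + 1) - s j) ^ 2 - (s (j + 1) ^ 2 * (1 - φ j / φ (j + 1)) +
            s j ^ 2 * (1 - φ (j + 1) / φ j)) =
            (s (j + 1) * φ j - s j * φ (j + 1)) ^ 2 / (φ j * φ (j + 1)) := by
          field_simp
          ring
        linarith
  have hsum := sum_le_sum hstep
  rw [sum_add_distrib] at hsum
  have a1 : ∑ j ∈ range (k + 1), s (j + 1) ^ 2 * (1 - φ j / φ (j + 1)) =
      ∑ j ∈ range k, s (j + 1) ^ 2 * (1 - φ j / φ (j + 1)) := by
    rw [sum_range_succ, hk]; simp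
  have a2 : ∑ j ∈ range (k + 1), s j ^ 2 * (1 - φ (j + 1) / φ j) =
      ∑ j ∈ range k, s (j + 1) ^ 2 * (1 - φ (j + 2) / φ (j + 1)) := by
    rw [sum_range_succ', h0]; simp
  rw [a1, a2, ← sum_add_distrib] at hsum
  refine le_trans (le_of_eq ?_) hsum
  rw [mul_sum]
  refine sum_congr rfl fun j hj => ?_
  rw [mem_range] at hj
  have p := hφpos (j + 1) (by omega) (by omega)
  have hr := hrec j
  have : φ (j + 2) = 2 * Real.cos θ * φ (j + 1) - φ j := by linarith
  rw [this]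
  field_simp
  ring

lemma parts (y s : ℕ → ℝ) (K : ℕ) :
    ∑ j ∈ range (K + 1), y j * (s (j + 1) - s j) =
      y K * s (K + 1) - y 0 * s 0 - ∑ j ∈ range K, s (j + 1) * (y (j + 1) - y j) := by
  induction K with
  | zero => simp; ring
  | succ K ih =>
    rw [sum_range_succ, ih, sum_range_succ (fun j => s (j + 1) * (y (j + 1) - y j))]
    ring

lemma wirtinger (k : ℕ) (x : ℕ → ℝ) :
    (2 - 2 * Real.cos (Real.pi / (k + 1 : ℕ))) *
      ∑ j ∈ range (k + 1), (x j - (∑ i ∈ range (k + 1), x i) / (k + 1 : ℕ)) ^ 2 ≤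
      ∑ j ∈ range k, (x (j + 1) - x j) ^ 2 := by
  set c : ℝ := (∑ i ∈ range (k + 1), x i) / (k + 1 : ℕ) with hc
  set s : ℕ → ℝ := fun j => ∑ i ∈ range j, (x i - c) with hs
  have hkpos : (0:ℝ) < (k + 1 : ℕ) := by positivity
  have h0 : s 0 = 0 := by simp [hs]
  have hk : s (k + 1) = 0 := by
    simp only [hs, sum_sub_distrib, sum_const, card_range, nsmul_eq_mul]
    rw [hc]
    field_simp
    ring
  have hd : ∀ j, s (j + 1) - s j = x j - c := by
    intro j
    simp only [hs, sum_range_succ]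
    ring
  set W : ℝ := ∑ j ∈ range (k + 1), (x j - c) ^ 2 with hW
  have hW1 : W = ∑ j ∈ range (k + 1), (s (j + 1) - s j) ^ 2 := by
    rw [hW]
    exact sum_congr rfl fun j _ => by rw [hd]
  have hdir := dirichlet k s h0 hk
  rw [← hW1] at hdir
  have hW2 : W = - ∑ j ∈ range k, s (j + 1) * (x (j + 1) - x j) := by
    have hp := parts (fun j => x j - c) s k
    rw [h0, hk] at hp
    have e1 : W = ∑ j ∈ range (k + 1), (x j - c) * (s (j + 1) - s j) := by
      rw [hW]
      exact sum_congr rfl fun j _ => by rw [hd]; ring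
    rw [e1, hp]
    have e2 : ∀ j, s (j + 1) * (x (j + 1) - c - (x j - c)) = s (j + 1) * (x (j + 1) - x j) := by
      intro j; ring
    simp only [e2]
    ring
  have hCS := sum_mul_sq_le_sq_mul_sq (range k) (fun j => s (j + 1)) (fun j => x (j + 1) - x j)
  have hWsq : W ^ 2 ≤ (∑ j ∈ range k, s (j + 1) ^ 2) * ∑ j ∈ range k, (x (j + 1) - x j) ^ 2 := by
    have : W ^ 2 = (∑ j ∈ range k, s (j + 1) * (x (j + 1) - x j)) ^ 2 := by rw [hW2]; ring
    rw [this]
    exact hCS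
  have hWnn : 0 ≤ W := by rw [hW]; positivity
  have hZnn : 0 ≤ ∑ j ∈ range k, (x (j + 1) - x j) ^ 2 := by positivity
  have hlam : 0 ≤ 2 - 2 * Real.cos (Real.pi / (k + 1 : ℕ)) := by
    linarith [Real.cos_le_one (Real.pi / (k + 1 : ℕ))]
  rcases hWnn.eq_or_lt with h | h
  · rw [← h]; simpa using hZnn
  · have h1 : (2 - 2 * Real.cos (Real.pi / (k + 1 : ℕ))) * W * W ≤
        (∑ j ∈ range k, (x (j + 1) - x j) ^ 2) * W := by
      calc (2 - 2 * Real.cos (Real.pi / (k + 1 : ℕ))) * W * W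
          = (2 - 2 * Real.cos (Real.pi / (k + 1 : ℕ))) * W ^ 2 := by ring
        _ ≤ (2 - 2 * Real.cos (Real.pi / (k + 1 : ℕ))) *
            ((∑ j ∈ range k, s (j + 1) ^ 2) * ∑ j ∈ range k, (x (j + 1) - x j) ^ 2) := by
            gcongr
        _ = ((2 - 2 * Real.cos (Real.pi / (k + 1 : ℕ))) * ∑ j ∈ range k, s (j + 1) ^ 2) *
            ∑ j ∈ range k, (x (j + 1) - x j) ^ 2 := by ring
        _ ≤ W * ∑ j ∈ range k, (x (j + 1) - x j) ^ 2 := by gcongr
        _ = (∑ j ∈ range k, (x (j + 1) - x j) ^ 2) * W := by ring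
    exact le_of_mul_le_mul_right h1 h

/-! ### Sequences with step-two differences -/

lemma sum_two (F : ℕ → ℝ) (m : ℕ) :
    ∑ i ∈ range (2 * m), F i = ∑ j ∈ range m, F (2 * j) + ∑ j ∈ range m, F (2 * j + 1) := by
  induction m with
  | zero => simp
  | succ m ih =>
    rw [show 2 * (m + 1) = 2 * m + 1 + 1 by ring, sum_range_succ, sum_range_succ, ih,
      sum_range_succ (fun j => F (2 * j)), sum_range_succ (fun j => F (2 * j + 1))]
    ring

lemma two_step (k : ℕ) (hk : 1 ≤ k) (v : ℕ → ℝ) (hmono : ∀ i, i + 1 < 2 * (k + 1) → v i ≤ v (i + 1)) :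
    ∃ c : ℝ, (2 - 2 * Real.cos (Real.pi / (k + 1 : ℕ))) *
      ∑ i ∈ range (2 * (k + 1)), (v i - c) ^ 2 ≤
      (1 + (2 - 2 * Real.cos (Real.pi / (k + 1 : ℕ)))) *
        ∑ i ∈ range (2 * k), (v (i + 2) - v i) ^ 2 := by
  set lam : ℝ := 2 - 2 * Real.cos (Real.pi / (k + 1 : ℕ)) with hlam
  have hlam0 : 0 ≤ lam := by
    linarith [Real.cos_le_one (Real.pi / (k + 1 : ℕ))]
  have hkpos : (0:ℝ) < (k + 1 : ℕ) := by positivity
  set c0 : ℝ := (∑ i ∈ range (k + 1), v (2 * i)) / (k + 1 : ℕ) with hc0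
  set c1 : ℝ := (∑ i ∈ range (k + 1), v (2 * i + 1)) / (k + 1 : ℕ) with hc1
  refine ⟨c0, ?_⟩
  have w0 := wirtinger k (fun j => v (2 * j))
  have w1 := wirtinger k (fun j => v (2 * j + 1))
  rw [← hlam] at w0 w1
  rw [← hc0] at w0
  rw [← hc1] at w1
  rw [sum_two, sum_two]
  have hodd : ∑ j ∈ range (k + 1), (v (2 * j + 1) - c0) ^ 2 =
      ∑ j ∈ range (k + 1), (v (2 * j + 1) - c1) ^ 2 + (k + 1 : ℕ) * (c1 - c0) ^ 2 := by
    have e1 : ∑ j ∈ range (k + 1), (v (2 * j + 1) - c1) = 0 := by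
      rw [sum_sub_distrib, sum_const, card_range, nsmul_eq_mul, hc1]
      field_simp
      ring
    have e2 : ∀ j, (v (2 * j + 1) - c0) ^ 2 = (v (2 * j + 1) - c1) ^ 2 +
        2 * (c1 - c0) * (v (2 * j + 1) - c1) + (c1 - c0) ^ 2 := by intro j; ring
    simp only [e2]
    rw [sum_add_distrib, sum_add_distrib, ← mul_sum, e1, sum_const, card_range, nsmul_eq_mul]
    ring
  have hdiff : (k + 1 : ℕ) * (c1 - c0) ^ 2 ≤
      ∑ j ∈ range k, (v (2 * j + 2) - v (2 * j)) ^ 2 +
      ∑ j ∈ range k, (v (2 * j + 1 + 2) - v (2 * j + 1)) ^ 2 := by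
    have e1 : (k + 1 : ℕ) * (c1 - c0) = ∑ j ∈ range (k + 1), (v (2 * j + 1) - v (2 * j)) := by
      rw [hc0, hc1, sum_sub_distrib]
      field_simp
    have e2 : (∑ j ∈ range (k + 1), (v (2 * j + 1) - v (2 * j))) ^ 2 ≤
        (k + 1 : ℕ) * ∑ j ∈ range (k + 1), (v (2 * j + 1) - v (2 * j)) ^ 2 := by
      have := sq_sum_le_card_mul_sum_sq (s := range (k + 1))
        (f := fun j => v (2 * j + 1) - v (2 * j))
      simpa using this
    have e3 : ∑ j ∈ range (k + 1), (v (2 * j + 1) - v (2 * j)) ^ 2 ≤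
        ∑ j ∈ range k, (v (2 * j + 2) - v (2 * j)) ^ 2 +
        ∑ j ∈ range k, (v (2 * j + 1 + 2) - v (2 * j + 1)) ^ 2 := by
      rw [sum_range_succ]
      refine add_le_add ?_ ?_
      · refine sum_le_sum fun j hj => ?_
        rw [mem_range] at hj
        have m1 := hmono (2 * j) (by omega)
        have m2 := hmono (2 * j + 1) (by omega)
        have m2' : v (2 * j + 1) ≤ v (2 * j + 2) := m2
        apply pow_le_pow_left₀ (by linarith) (by linarith)
      · obtain ⟨k', rfl⟩ : ∃ k', k = k' + 1 := ⟨k - 1, by omega⟩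
        rw [sum_range_succ]
        have m1 := hmono (2 * k' + 1) (by omega)
        have m2 := hmono (2 * (k' + 1)) (by omega)
        have m1' : v (2 * k' + 1) ≤ v (2 * (k' + 1)) := by
          have : 2 * k' + 1 + 1 = 2 * (k' + 1) := by ring
          rwa [this] at m1
        have i1 : v (2 * k' + 1 + 2) = v (2 * (k' + 1) + 1) := by
          congr 1
        rw [i1]
        have nn : 0 ≤ ∑ j ∈ range k', (v (2 * j + 1 + 2) - v (2 * j + 1)) ^ 2 := by positivity
        have : (v (2 * (k' + 1) + 1) - v (2 * (k' + 1))) ^ 2 ≤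
            (v (2 * (k' + 1) + 1) - v (2 * k' + 1)) ^ 2 := by
          apply pow_le_pow_left₀ (by linarith) (by linarith)
        linarith
    have e4 : (k + 1 : ℕ) * ((k + 1 : ℕ) * (c1 - c0) ^ 2) ≤
        (k + 1 : ℕ) * (∑ j ∈ range k, (v (2 * j + 2) - v (2 * j)) ^ 2 +
      ∑ j ∈ range k, (v (2 * j + 1 + 2) - v (2 * j + 1)) ^ 2) := by
      calc ((k + 1 : ℕ):ℝ) * ((k + 1 : ℕ) * (c1 - c0) ^ 2) = ((k + 1 : ℕ) * (c1 - c0)) ^ 2 := by
            ring
        _ ≤ _ := by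
            rw [e1]
            refine e2.trans ?_
            gcongr
    exact le_of_mul_le_mul_left e4 hkpos
  rw [hodd]
  have f0 : ∀ j, v (2 * (j + 1)) = v (2 * j + 2) := fun j => by congr 1
  have f1 : ∀ j, v (2 * (j + 1) + 1) = v (2 * j + 1 + 2) := fun j => by congr 1
  simp only [f0] at w0
  simp only [f1] at w1
  nlinarith [mul_le_mul_of_nonneg_left hdiff hlam0]

/-! ### Sorting the half-edges -/

/-- half-edges -/
abbrev Half {n : ℕ} (G : SimpleGraph (Fin n)) : Type := {p : Fin n × Fin n // G.Adj p.1 p.2}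

lemma covering {n : ℕ} (G : SimpleGraph (Fin n)) (hG : G.Connected) (f : Fin n → ℝ) (N : ℕ)
    (d : Fin N ≃ Half G) (hmono : Monotone fun i => f (d i).1.1) (i : ℕ) (hi : i + 2 < N)
    (hlt : f (d ⟨i, by omega⟩).1.1 < f (d ⟨i + 2, hi⟩).1.1) :
    ∃ u v, G.Adj u v ∧ f u ≤ f (d ⟨i, by omega⟩).1.1 ∧ f (d ⟨i + 2, hi⟩).1.1 ≤ f v := by
  set α := f (d ⟨i, by omega⟩).1.1 with hα
  set β := f (d ⟨i + 2, hi⟩).1.1 with hβ
  have hidx : ∀ (p : Half G), α < f p.1.1 → f p.1.1 < β → (d.symm p).val = i + 1 := by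
    intro p h1 h2
    by_contra hne
    rcases (show (d.symm p).val ≤ i ∨ i + 2 ≤ (d.symm p).val by omega) with h | h
    · have := hmono (show d.symm p ≤ (⟨i, by omega⟩ : Fin N) from h)
      simp only [Equiv.apply_symm_apply] at this
      linarith
    · have := hmono (show (⟨i + 2, hi⟩ : Fin N) ≤ d.symm p from h)
      simp only [Equiv.apply_symm_apply] at this
      linarith
  have huniq : ∀ (p q : Half G), α < f p.1.1 → f p.1.1 < β → α < f q.1.1 → f q.1.1 < β →
      p = q := by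
    intro p q h1 h2 h3 h4
    have e : d.symm p = d.symm q := by
      apply Fin.ext
      rw [hidx p h1 h2, hidx q h3 h4]
    exact d.symm.injective e
  obtain ⟨w⟩ := hG.preconnected (d ⟨i, by omega⟩).1.1 (d ⟨i + 2, hi⟩).1.1
  obtain ⟨e1, -, he1, he2⟩ := w.exists_boundary_dart {x | f x ≤ α}
    (show f (d ⟨i, by omega⟩).1.1 ≤ α from le_refl _)
    (show ¬ (f (d ⟨i + 2, hi⟩).1.1 ≤ α) from not_le.mpr hlt)
  have hx : f e1.fst ≤ α := he1
  have hy : α < f e1.snd := not_le.mp he2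
  by_cases hyβ : β ≤ f e1.snd
  · exact ⟨e1.fst, e1.snd, e1.adj, hx, hyβ⟩
  push Not at hyβ
  obtain ⟨e2, -, he3, he4⟩ := w.exists_boundary_dart ({x | f x ≤ α} ∪ {e1.snd})
    (Or.inl (show f (d ⟨i, by omega⟩).1.1 ≤ α from le_refl _)) (by
      rintro (h | h)
      · exact absurd (show β ≤ α from h) (not_le.mpr hlt)
      · have h' : (d ⟨i + 2, hi⟩).1.1 = e1.snd := h
        rw [hβ, h'] at hyβ
        exact lt_irrefl _ hyβ)
  have hy' : α < f e2.snd := by
    by_contra hcon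
    exact he4 (Or.inl (not_lt.mp hcon))
  have hne : e2.snd ≠ e1.snd := fun h => he4 (Or.inr h)
  rcases he3 with h | h
  · have h' : f e2.fst ≤ α := h
    by_cases hyβ' : β ≤ f e2.snd
    · exact ⟨e2.fst, e2.snd, e2.adj, h', hyβ'⟩
    · push Not at hyβ'
      have := huniq ⟨(e2.snd, e2.fst), e2.adj.symm⟩ ⟨(e1.snd, e1.fst), e1.adj.symm⟩ hy' hyβ' hy hyβ
      have h2 := congrArg (fun p : Half G => p.1.1) this
      exact absurd h2 hne
  · have h' : e2.fst = e1.snd := h
    have hadj : G.Adj e1.snd e2.snd := by rw [← h']; exact e2.adj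
    have := huniq ⟨(e1.snd, e2.snd), hadj⟩ ⟨(e1.snd, e1.fst), e1.adj.symm⟩ hy hyβ hy hyβ
    have h2 : e2.snd = e1.fst := congrArg (fun p : Half G => p.1.2) this
    rw [h2] at hy'
    linarith

lemma clip_sum (v : ℕ → ℝ) (a b : ℝ) (hab : a ≤ b) (K : ℕ)
    (hmono : ∀ i j, i ≤ j → j ≤ K + 1 → v i ≤ v j) :
    ∑ i ∈ range K, (if a ≤ v i ∧ v (i + 2) ≤ b then (v (i + 2) - v i) else 0) ≤ 2 * (b - a) := by
  set c : ℕ → ℝ := fun i => max a (min (v i) b) with hc
  have h1 : ∀ i ∈ range K, (if a ≤ v i ∧ v (i + 2) ≤ b then (v (i + 2) - v i) else 0) ≤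
      c (i + 2) - c i := by
    intro i hi
    rw [mem_range] at hi
    have hm := hmono i (i + 2) (by omega) (by omega)
    split_ifs with h
    · simp only [hc]
      rw [min_eq_left (by linarith : v i ≤ b), min_eq_left h.2, max_eq_right h.1,
        max_eq_right (by linarith)]
    · have : c i ≤ c (i + 2) := by
        simp only [hc]
        exact max_le_max le_rfl (min_le_min hm le_rfl)
      linarith
  have h2 : ∀ K, ∑ i ∈ range K, (c (i + 2) - c i) = c (K + 1) + c K - c 0 - c 1 := by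
    intro K
    induction K with
    | zero => simp
    | succ K ih => rw [sum_range_succ, ih]; ring
  have hlo : ∀ i, a ≤ c i := fun i => le_max_left _ _
  have hhi : ∀ i, c i ≤ b := fun i => max_le hab (min_le_right _ _)
  calc _ ≤ ∑ i ∈ range K, (c (i + 2) - c i) := sum_le_sum h1
    _ = c (K + 1) + c K - c 0 - c 1 := h2 K
    _ ≤ 2 * (b - a) := by linarith [hlo 0, hlo 1, hhi K, hhi (K + 1)]

lemma sum_half {n : ℕ} (G : SimpleGraph (Fin n)) [DecidableRel G.Adj] (F : Fin n × Fin n → ℝ) :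
    ∑ p : Half G, F p.1 = ∑ u, ∑ v, (if G.Adj u v then F (u, v) else 0) := by
  rw [← Fintype.sum_prod_type' (f := fun u v => if G.Adj u v then F (u, v) else 0)]
  rw [← sum_filter]
  exact (sum_subtype (univ.filter fun p : Fin n × Fin n => G.Adj p.1 p.2)
    (by intro x; simp) F).symm

lemma sum_half_fst {n : ℕ} (G : SimpleGraph (Fin n)) [DecidableRel G.Adj] (F : Fin n → ℝ) :
    ∑ p : Half G, F p.1.1 = ∑ u, (G.degree u : ℝ) * F u := by
  rw [sum_half G (fun p => F p.1)]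
  refine sum_congr rfl fun u _ => ?_
  rw [← sum_filter]
  simp only [sum_const, nsmul_eq_mul]
  rw [← SimpleGraph.card_neighborFinset_eq_degree, SimpleGraph.neighborFinset_eq_filter]

lemma card_half {n : ℕ} (G : SimpleGraph (Fin n)) [DecidableRel G.Adj] :
    Fintype.card (Half G) = 2 * G.edgeFinset.card := by
  have h := sum_half_fst G (fun _ => 1)
  have h2 := G.sum_degrees_eq_twice_card_edges
  simp only [sum_const, card_univ, nsmul_eq_mul, mul_one] at h
  have h3 : ((Fintype.card (Half G) : ℕ) : ℝ) = ((2 * G.edgeFinset.card : ℕ) : ℝ) := by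
    rw [h, ← h2]
    push_cast
    rfl
  exact_mod_cast h3

lemma energy {n : ℕ} (G : SimpleGraph (Fin n)) [DecidableRel G.Adj] (f : Fin n → ℝ) :
    ∑ p : Half G, (max (f p.1.2 - f p.1.1) 0) ^ 2 =
      (1 / 2 : ℝ) * ∑ u, ∑ v, (if G.Adj u v then (f u - f v) ^ 2 else 0) := by
  rw [sum_half G (fun p => (max (f p.2 - f p.1) 0) ^ 2)]
  have h1 : ∑ u, ∑ v, (if G.Adj u v then (max (f v - f u) 0) ^ 2 else 0) =
      ∑ u, ∑ v, (if G.Adj u v then (max (f u - f v) 0) ^ 2 else 0) := by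
    rw [sum_comm]
    refine sum_congr rfl fun u _ => sum_congr rfl fun v _ => ?_
    simp only [G.adj_comm v u]
  have h2 : ∑ u, ∑ v, (if G.Adj u v then (f u - f v) ^ 2 else 0) =
      ∑ u, ∑ v, (if G.Adj u v then (max (f v - f u) 0) ^ 2 else 0) +
      ∑ u, ∑ v, (if G.Adj u v then (max (f u - f v) 0) ^ 2 else 0) := by
    rw [← sum_add_distrib]
    refine sum_congr rfl fun u _ => ?_
    rw [← sum_add_distrib]
    refine sum_congr rfl fun v _ => ?_
    split_ifs
    · rcases le_total (f u) (f v) with h | h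
      · rw [max_eq_left (by linarith : (0:ℝ) ≤ f v - f u),
          max_eq_right (by linarith : f u - f v ≤ 0)]
        ring
      · rw [max_eq_right (by linarith : f v - f u ≤ 0),
          max_eq_left (by linarith : (0:ℝ) ≤ f u - f v)]
        ring
    · simp
  simp only at h1 h2 ⊢
  linarith

/-- Key comparison of the graph energy with the energy of the sorted half-edge sequence. -/
lemma key {n : ℕ} (G : SimpleGraph (Fin n)) [DecidableRel G.Adj] (hG : G.Connected)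
    (f : Fin n → ℝ) (k : ℕ) (hk : 1 ≤ k) (hcard : G.edgeFinset.card = k + 1) :
    ∃ c : ℝ, (2 - 2 * Real.cos (Real.pi / (k + 1 : ℕ))) *
      ∑ v, (G.degree v : ℝ) * (f v - c) ^ 2 ≤
      (1 + (2 - 2 * Real.cos (Real.pi / (k + 1 : ℕ)))) *
        (2 * ((1 / 2 : ℝ) * ∑ u, ∑ v, (if G.Adj u v then (f u - f v) ^ 2 else 0))) := by
  have hN : Fintype.card (Half G) = 2 * (k + 1) := by rw [card_half, hcard]
  set e : Fin (2 * (k + 1)) ≃ Half G := (Fintype.equivFinOfCardEq hN).symm with he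
  set h : Fin (2 * (k + 1)) → ℝ := fun i => f (e i).1.1 with hh
  set d : Fin (2 * (k + 1)) ≃ Half G := (Tuple.sort h).trans e with hd
  have hmono : Monotone fun i => f (d i).1.1 := Tuple.monotone_sort h
  set v : ℕ → ℝ := fun i => if hi : i < 2 * (k + 1) then f (d ⟨i, hi⟩).1.1 else 0 with hv
  have hvi : ∀ i (hi : i < 2 * (k + 1)), v i = f (d ⟨i, hi⟩).1.1 := by
    intro i hi
    simp only [hv, hi, dif_pos]
  have hvmono : ∀ i j, i ≤ j → j ≤ 2 * k + 1 → v i ≤ v j := by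
    intro i j hij hj
    rw [hvi i (by omega), hvi j (by omega)]
    exact hmono (show (⟨i, _⟩ : Fin (2 * (k + 1))) ≤ ⟨j, _⟩ from hij)
  obtain ⟨c, hc⟩ := two_step k hk v (fun i hi => hvmono i (i + 1) (by omega) (by omega))
  refine ⟨c, ?_⟩
  have hV : ∑ i ∈ range (2 * (k + 1)), (v i - c) ^ 2 = ∑ v, (G.degree v : ℝ) * (f v - c) ^ 2 := by
    rw [← sum_half_fst G (fun u => (f u - c) ^ 2), ← Equiv.sum_comp d, ← Fin.sum_univ_eq_sum_range
      (fun i => (v i - c) ^ 2)]
    refine sum_congr rfl fun i _ => ?_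
    rw [hvi i.1 i.2]
  rw [hV] at hc
  refine hc.trans ?_
  have hlam0 : 0 ≤ 1 + (2 - 2 * Real.cos (Real.pi / (k + 1 : ℕ))) := by
    linarith [Real.cos_le_one (Real.pi / (k + 1 : ℕ))]
  refine mul_le_mul_of_nonneg_left ?_ hlam0
  rw [← energy, mul_sum]
  have hcov : ∀ i ∈ range (2 * k), (v (i + 2) - v i) ^ 2 ≤
      ∑ p : Half G, (if f p.1.1 ≤ v i ∧ v (i + 2) ≤ f p.1.2 then (v (i + 2) - v i) ^ 2 else 0) := by
    intro i hi
    rw [mem_range] at hi
    have hm := hvmono i (i + 2) (by omega) (by omega)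
    rcases hm.eq_or_lt with h0 | h0
    · rw [h0]; simp
    · obtain ⟨x, y, hadj, h1, h2⟩ := covering G hG f _ d hmono i (by omega)
        (by rw [← hvi i (by omega), ← hvi (i + 2) (by omega)]; exact h0)
      rw [← hvi i (by omega)] at h1
      rw [← hvi (i + 2) (by omega)] at h2
      have := single_le_sum (f := fun p : Half G =>
        (if f p.1.1 ≤ v i ∧ v (i + 2) ≤ f p.1.2 then (v (i + 2) - v i) ^ 2 else 0))
        (fun p _ => by split_ifs <;> positivity) (mem_univ (⟨(x, y), hadj⟩ : Half G))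
      simp only [h1, h2, and_self, if_true] at this
      exact this
  calc ∑ i ∈ range (2 * k), (v (i + 2) - v i) ^ 2
      ≤ ∑ i ∈ range (2 * k), ∑ p : Half G,
        (if f p.1.1 ≤ v i ∧ v (i + 2) ≤ f p.1.2 then (v (i + 2) - v i) ^ 2 else 0) :=
        sum_le_sum hcov
    _ = ∑ p : Half G, ∑ i ∈ range (2 * k),
        (if f p.1.1 ≤ v i ∧ v (i + 2) ≤ f p.1.2 then (v (i + 2) - v i) ^ 2 else 0) := sum_comm
    _ ≤ ∑ p : Half G, 2 * (max (f p.1.2 - f p.1.1) 0) ^ 2 := by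
        refine sum_le_sum fun p _ => ?_
        rcases le_or_gt (f p.1.1) (f p.1.2) with hab | hab
        · rw [max_eq_left (by linarith)]
          calc ∑ i ∈ range (2 * k),
              (if f p.1.1 ≤ v i ∧ v (i + 2) ≤ f p.1.2 then (v (i + 2) - v i) ^ 2 else 0)
              ≤ ∑ i ∈ range (2 * k), (f p.1.2 - f p.1.1) *
                (if f p.1.1 ≤ v i ∧ v (i + 2) ≤ f p.1.2 then (v (i + 2) - v i) else 0) := by
                refine sum_le_sum fun i hi => ?_
                rw [mem_range] at hi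
                have hm := hvmono i (i + 2) (by omega) (by omega)
                split_ifs with h
                · rw [sq]
                  exact mul_le_mul_of_nonneg_right (by linarith [h.1, h.2]) (by linarith)
                · simp
            _ = (f p.1.2 - f p.1.1) * ∑ i ∈ range (2 * k),
                (if f p.1.1 ≤ v i ∧ v (i + 2) ≤ f p.1.2 then (v (i + 2) - v i) else 0) := by
                rw [mul_sum]
            _ ≤ (f p.1.2 - f p.1.1) * (2 * (f p.1.2 - f p.1.1)) := by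
                refine mul_le_mul_of_nonneg_left ?_ (by linarith)
                exact clip_sum v _ _ hab (2 * k) (fun i j hij hj => hvmono i j hij hj)
            _ = 2 * (f p.1.2 - f p.1.1) ^ 2 := by ring
        · have : ∀ i ∈ range (2 * k), (if f p.1.1 ≤ v i ∧ v (i + 2) ≤ f p.1.2 then
              (v (i + 2) - v i) ^ 2 else 0) = 0 := by
            intro i hi
            rw [mem_range] at hi
            have hm := hvmono i (i + 2) (by omega) (by omega)
            rw [if_neg]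
            rintro ⟨h1, h2⟩
            linarith
          rw [sum_eq_zero this]
          positivity

/-- The elementary asymptotics of the path eigenvalue. -/
lemma asym (ε : ℝ) (hε : 0 < ε) (m : ℕ) (hm : Real.pi ^ 2 * (2 + ε) / ε ≤ m) :
    0 < 2 - 2 * Real.cos (Real.pi / m) ∧
    (1 + (2 - 2 * Real.cos (Real.pi / m))) * 2 ≤
      (1 + ε) * (2 * (m : ℝ) ^ 2 / Real.pi ^ 2) * (2 - 2 * Real.cos (Real.pi / m)) := by
  have hpi := Real.pi_pos
  have hb : 0 < Real.pi ^ 2 * (2 + ε) / ε := by positivity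
  have hmpos : (0:ℝ) < m := lt_of_lt_of_le hb hm
  have hm1 : (1:ℝ) ≤ m := by exact_mod_cast (Nat.cast_pos.mp hmpos)
  set x : ℝ := Real.pi / m with hx
  have hxpos : 0 < x := by positivity
  have hx2 : x ^ 2 * (2 + ε) ≤ ε := by
    have h1 : Real.pi ^ 2 * (2 + ε) ≤ m * ε := by
      rwa [div_le_iff₀ hε] at hm
    have h2 : (m:ℝ) * ε ≤ (m:ℝ) ^ 2 * ε := by
      have : (m:ℝ) ≤ (m:ℝ) ^ 2 := by nlinarith
      exact mul_le_mul_of_nonneg_right this hε.le
    rw [hx, div_pow, div_mul_eq_mul_div, div_le_iff₀ (by positivity)]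
    linarith
  have hx1 : x ^ 2 ≤ 1 := by
    have : x ^ 2 * (2 + ε) ≤ 1 * (2 + ε) := by linarith
    exact le_of_mul_le_mul_right this (by linarith)
  have hxle : x ≤ 1 := by nlinarith
  have hc1 : 1 - x ^ 2 / 2 ≤ Real.cos x := Real.one_sub_sq_div_two_le_cos
  have hc2 : Real.cos x ≤ 1 - x ^ 2 / 2 + x ^ 4 * (5 / 96) := by
    have := Real.cos_bound (x := x) (by rw [abs_of_pos hxpos]; exact hxle)
    rw [abs_of_pos hxpos] at this
    linarith [(abs_le.mp this).2]
  set lam : ℝ := 2 - 2 * Real.cos x with hlam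
  have hl1 : lam ≤ x ^ 2 := by linarith
  have hl2 : x ^ 2 * (1 - x ^ 2 / 8) ≤ lam := by nlinarith [pow_pos hxpos 4]
  have hx2pos : 0 < x ^ 2 := by positivity
  have hl0 : 0 < lam := by
    have : 0 < x ^ 2 * (1 - x ^ 2 / 8) := by
      apply mul_pos hx2pos; linarith
    linarith
  refine ⟨hl0, ?_⟩
  have hmx : (2 * (m : ℝ) ^ 2 / Real.pi ^ 2) = 2 / x ^ 2 := by
    rw [hx]; field_simp
  rw [hmx]
  have hgoal : (1 + lam) * x ^ 2 ≤ (1 + ε) * lam := by
    have h1 : (1 + lam) * x ^ 2 ≤ (1 + x ^ 2) * x ^ 2 := by nlinarith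
    have h2 : (1 + ε) * (x ^ 2 * (1 - x ^ 2 / 8)) ≤ (1 + ε) * lam := by
      apply mul_le_mul_of_nonneg_left hl2; linarith
    have h3 : 1 + x ^ 2 ≤ (1 + ε) * (1 - x ^ 2 / 8) := by nlinarith
    have h4 : (1 + x ^ 2) * x ^ 2 ≤ (1 + ε) * (1 - x ^ 2 / 8) * x ^ 2 :=
      mul_le_mul_of_nonneg_right h3 hx2pos.le
    nlinarith
  have : (1 + ε) * (2 / x ^ 2) * lam = ((1 + ε) * lam) * 2 / x ^ 2 := by ring
  rw [this, le_div_iff₀ hx2pos]
  nlinarith

/-- For every ε>0, every connected graph with enough edges m has simple-random-walk relaxation time (degree-weighted variance over edge Dirichlet form) at most (1+ε)·2m²/π², i.e. the path is asymptotically extremal. -/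
theorem result :
    ∀ ε : ℝ, ε > 0 → ∃ M : ℕ, ∀ (n : ℕ) (G : SimpleGraph (Fin n)) [DecidableRel G.Adj],
      G.Connected → M ≤ G.edgeFinset.card →
      ∀ f : Fin n → ℝ, ∃ c : ℝ,
        ∑ v, (G.degree v : ℝ) * (f v - c) ^ 2 ≤
          (1 + ε) * (2 * (G.edgeFinset.card : ℝ) ^ 2 / Real.pi ^ 2) *
            ((1 / 2 : ℝ) * ∑ u, ∑ v, (if G.Adj u v then (f u - f v) ^ 2 else 0)) := by
  intro ε hε
  refine ⟨max 2 ⌈Real.pi ^ 2 * (2 + ε) / ε⌉₊, ?_⟩
  intro n G _ hG hM f
  have hM2 : 2 ≤ G.edgeFinset.card := le_trans (le_max_left _ _) hM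
  have hM3 : Real.pi ^ 2 * (2 + ε) / ε ≤ (G.edgeFinset.card : ℝ) :=
    le_trans (Nat.le_ceil _) (by exact_mod_cast le_trans (le_max_right _ _) hM)
  obtain ⟨k, hk⟩ : ∃ k, G.edgeFinset.card = k + 1 := ⟨G.edgeFinset.card - 1, by omega⟩
  obtain ⟨c, hc⟩ := key G hG f k (by omega) hk
  obtain ⟨h1, h2⟩ := asym ε hε G.edgeFinset.card hM3
  rw [← hk] at hc
  refine ⟨c, ?_⟩
  set lam : ℝ := 2 - 2 * Real.cos (Real.pi / (G.edgeFinset.card : ℕ)) with hlam
  set V : ℝ := ∑ v, (G.degree v : ℝ) * (f v - c) ^ 2 with hV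
  set E : ℝ := (1 / 2 : ℝ) * ∑ u, ∑ v, (if G.Adj u v then (f u - f v) ^ 2 else 0) with hE
  have hE0 : 0 ≤ E := by
    rw [hE]
    refine mul_nonneg (by norm_num) (sum_nonneg fun u _ => sum_nonneg fun v _ => ?_)
    split_ifs <;> positivity
  have h3 : lam * V ≤ lam * ((1 + ε) * (2 * (G.edgeFinset.card : ℝ) ^ 2 / Real.pi ^ 2) * E) := by
    calc lam * V ≤ (1 + lam) * (2 * E) := hc
      _ = ((1 + lam) * 2) * E := by ring
      _ ≤ ((1 + ε) * (2 * (G.edgeFinset.card : ℝ) ^ 2 / Real.pi ^ 2) * lam) * E :=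
          mul_le_mul_of_nonneg_right h2 hE0
      _ = lam * ((1 + ε) * (2 * (G.edgeFinset.card : ℝ) ^ 2 / Real.pi ^ 2) * E) := by ring
  exact le_of_mul_le_mul_left h3 h1

end Pool.Agent.S12199
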