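import Pool.Statements.S12391
import Pool.Agent.V1125.Sph.Five

set_option autoImplicit false
open Pool Pool.MP_f35a22_co

namespace Pool.Agent.S12391

open Pool.Agent.V1125.Sph

/-- Coordinates. -/
def co (x : EuclideanSpace ℝ (Fin 3)) : Fin 3 → ℝ := fun i => x i

theorem co_inj : Function.Injective co := by
  intro x y h
  ext i
  exact congrFun h i

theorem mem_iff (p c : EuclideanSpace ℝ (Fin 3)) :
    p ∈ Metric.sphere c 1 ↔ d2 (co p) (co c) = 1 := by
  rw [Metric.mem_sphere, EuclideanSpace.dist_eq, Real.sqrt_eq_one, Fin.sum_univ_three]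
  simp only [Real.dist_eq, sq_abs]
  rfl

theorem four {S : Set (EuclideanSpace ℝ (Fin 3))}
    (hS : ∀ T : Set (EuclideanSpace ℝ (Fin 3)), T ⊆ S → T.encard = 4 →
        ∃ p : EuclideanSpace ℝ (Fin 3), ∀ c ∈ T, p ∈ Metric.sphere c 1)
    (f : Fin 4 → EuclideanSpace ℝ (Fin 3)) (hf : Function.Injective f) (hfS : ∀ i, f i ∈ S) :
    ∃ p : EuclideanSpace ℝ (Fin 3), ∀ i, d2 (co p) (co (f i)) = 1 := by
  obtain ⟨p, hp⟩ := hS (Set.range f) (by rintro _ ⟨i, rfl⟩; exact hfS i) (by
    rw [← Set.image_univ, hf.encard_image]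
    simp)
  exact ⟨p, fun i => (mem_iff p (f i)).1 (hp (f i) ⟨i, rfl⟩)⟩

theorem fives {S : Set (EuclideanSpace ℝ (Fin 3))}
    (hS : ∀ T : Set (EuclideanSpace ℝ (Fin 3)), T ⊆ S → T.encard = 4 →
        ∃ p : EuclideanSpace ℝ (Fin 3), ∀ c ∈ T, p ∈ Metric.sphere c 1)
    (f : Fin 5 → EuclideanSpace ℝ (Fin 3)) (hf : Function.Injective f) (hfS : ∀ i, f i ∈ S) :
    ∃ p : EuclideanSpace ℝ (Fin 3), ∀ i, d2 (co p) (co (f i)) = 1 := by
  have h4 : ∀ i : Fin 5, ∃ p : EuclideanSpace ℝ (Fin 3), ∀ j, i ≠ j → d2 (co p) (co (f j)) = 1 := by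
    intro i
    obtain ⟨p, hp⟩ := four hS (fun k => f (i.succAbove k))
      (fun a b hab => Fin.succAbove_right_injective (hf hab)) (fun k => hfS _)
    refine ⟨p, fun j hj => ?_⟩
    obtain ⟨k, rfl⟩ := Fin.exists_succAbove_eq (Ne.symm hj)
    exact hp k
  choose p hp using h4
  obtain ⟨i, hi⟩ := five (fun j => co (f j)) (fun j => co (p j)) (co_inj.comp hf)
    (fun i j hij => hp i j hij)
  refine ⟨p i, fun j => ?_⟩
  by_cases hij : i = j
  · rw [← hij]
    exact hi
  · exact hp i j hij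

theorem inj4 {E : Type} {a b c d : E} (ab : a ≠ b) (ac : a ≠ c) (ad : a ≠ d) (bc : b ≠ c)
    (bd : b ≠ d) (cd : c ≠ d) : Function.Injective ![a, b, c, d] := by
  intro i j h
  fin_cases i <;> fin_cases j <;> first | rfl | (exfalso; first | exact ab h | exact ac h | exact ad h | exact bc h | exact bd h | exact cd h | exact ab h.symm | exact ac h.symm | exact ad h.symm | exact bc h.symm | exact bd h.symm | exact cd h.symm)

theorem inj5 {E : Type} {a b c d e : E} (ab : a ≠ b) (ac : a ≠ c) (ad : a ≠ d) (ae : a ≠ e)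
    (bc : b ≠ c) (bd : b ≠ d) (be : b ≠ e) (cd : c ≠ d) (ce : c ≠ e) (de : d ≠ e) :
    Function.Injective ![a, b, c, d, e] := by
  intro i j h
  fin_cases i <;> fin_cases j <;> first | rfl | (exfalso; first | exact ab h | exact ac h | exact ad h | exact ae h | exact bc h | exact bd h | exact be h | exact cd h | exact ce h | exact de h | exact ab h.symm | exact ac h.symm | exact ad h.symm | exact ae h.symm | exact bc h.symm | exact bd h.symm | exact be h.symm | exact cd h.symm | exact ce h.symm | exact de h.symm)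

theorem all4 {E : Type} {S : Set E} {a b c d : E} (ha : a ∈ S) (hb : b ∈ S) (hc : c ∈ S)
    (hd : d ∈ S) : ∀ i, ![a, b, c, d] i ∈ S := by
  intro i
  fin_cases i
  · exact ha
  · exact hb
  · exact hc
  · exact hd

theorem all5 {E : Type} {S : Set E} {a b c d e : E} (ha : a ∈ S) (hb : b ∈ S) (hc : c ∈ S)
    (hd : d ∈ S) (he : e ∈ S) : ∀ i, ![a, b, c, d, e] i ∈ S := by
  intro i
  fin_cases i
  · exact ha
  · exact hb
  · exact hc
  · exact hd
  · exact he

/-- For any set of at least 5 distinct centers in 3-space, if every 4 of the unit spheres around them share a common point, then one point lies on all of these unit spheres. -/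
theorem result :
    ∀ S : Set (EuclideanSpace ℝ (Fin 3)),
      5 ≤ S.encard →
      (∀ T : Set (EuclideanSpace ℝ (Fin 3)), T ⊆ S → T.encard = 4 →
        ∃ p : EuclideanSpace ℝ (Fin 3), ∀ c ∈ T, p ∈ Metric.sphere c 1) →
      ∃ p : EuclideanSpace ℝ (Fin 3), ∀ c ∈ S, p ∈ Metric.sphere c 1 := by
  intro S h5 hS
  obtain ⟨T, hTS, hT⟩ := Set.exists_subset_encard_eq h5
  have hfin : T.Finite := Set.finite_of_encard_eq_coe (k := 5) hT
  obtain ⟨F, hF⟩ : ∃ F : Finset (EuclideanSpace ℝ (Fin 3)), (F : Set _) = T :=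
    ⟨hfin.toFinset, hfin.coe_toFinset⟩
  have hcard : F.card = 5 := by
    have : (F : Set (EuclideanSpace ℝ (Fin 3))).encard = 5 := by rw [hF]; exact hT
    rw [Set.encard_coe_eq_coe_finsetCard] at this
    exact_mod_cast this
  let e := (Finset.equivFinOfCardEq hcard).symm
  let f : Fin 5 → EuclideanSpace ℝ (Fin 3) := fun i => (e i : EuclideanSpace ℝ (Fin 3))
  have hf : Function.Injective f := fun a b h => e.injective (Subtype.ext h)
  have hfS : ∀ i, f i ∈ S := fun i => hTS (by rw [← hF]; exact (e i).2)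
  -- base point and differences
  obtain ⟨s1, hs1⟩ : ∃ s, s = f 0 := ⟨_, rfl⟩
  obtain ⟨s2, hs2⟩ : ∃ s, s = f 1 := ⟨_, rfl⟩
  obtain ⟨s3, hs3⟩ : ∃ s, s = f 2 := ⟨_, rfl⟩
  have n12 : s1 ≠ s2 := by rw [hs1, hs2]; exact fun h => absurd (hf h) (by decide)
  have n13 : s1 ≠ s3 := by rw [hs1, hs3]; exact fun h => absurd (hf h) (by decide)
  have n23 : s2 ≠ s3 := by rw [hs2, hs3]; exact fun h => absurd (hf h) (by decide)
  have m1 : s1 ∈ S := by rw [hs1]; exact hfS 0
  have m2 : s2 ∈ S := by rw [hs2]; exact hfS 1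
  have m3 : s3 ∈ S := by rw [hs3]; exact hfS 2
  let v : EuclideanSpace ℝ (Fin 3) → (Fin 3 → ℝ) := fun x k => co x k - co s1 k
  have hd2 : ∀ p x, d2 (co p) (co x) = dt (v p) (v p) - 2 * dt (v p) (v x) + dt (v x) (v x) := by
    intro p x
    show (co p 0 - co x 0) ^ 2 + (co p 1 - co x 1) ^ 2 + (co p 2 - co x 2) ^ 2 =
      ((co p 0 - co s1 0) * (co p 0 - co s1 0) + (co p 1 - co s1 1) * (co p 1 - co s1 1) +
        (co p 2 - co s1 2) * (co p 2 - co s1 2)) -
      2 * ((co p 0 - co s1 0) * (co x 0 - co s1 0) + (co p 1 - co s1 1) * (co x 1 - co s1 1) +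
        (co p 2 - co s1 2) * (co x 2 - co s1 2)) +
      ((co x 0 - co s1 0) * (co x 0 - co s1 0) + (co x 1 - co s1 1) * (co x 1 - co s1 1) +
        (co x 2 - co s1 2) * (co x 2 - co s1 2))
    ring
  have hd1 : ∀ p, d2 (co p) (co s1) = dt (v p) (v p) := by
    intro p
    show (co p 0 - co s1 0) ^ 2 + (co p 1 - co s1 1) ^ 2 + (co p 2 - co s1 2) ^ 2 =
      (co p 0 - co s1 0) * (co p 0 - co s1 0) + (co p 1 - co s1 1) * (co p 1 - co s1 1) +
        (co p 2 - co s1 2) * (co p 2 - co s1 2)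
    ring
  have hpos : ∀ x y : EuclideanSpace ℝ (Fin 3), x ≠ y → 0 < d2 (co x) (co y) := by
    intro x y hxy
    by_contra hc
    push Not at hc
    unfold d2 at hc
    apply hxy
    apply co_inj
    funext k
    fin_cases k
    · exact sub_eq_zero.1 (by
        nlinarith [sq_nonneg (co x 0 - co y 0), sq_nonneg (co x 1 - co y 1),
          sq_nonneg (co x 2 - co y 2)] : co x 0 - co y 0 = 0)
    · exact sub_eq_zero.1 (by
        nlinarith [sq_nonneg (co x 0 - co y 0), sq_nonneg (co x 1 - co y 1),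
          sq_nonneg (co x 2 - co y 2)] : co x 1 - co y 1 = 0)
    · exact sub_eq_zero.1 (by
        nlinarith [sq_nonneg (co x 0 - co y 0), sq_nonneg (co x 1 - co y 1),
          sq_nonneg (co x 2 - co y 2)] : co x 2 - co y 2 = 0)
  have half : ∀ p x, d2 (co p) (co s1) = 1 → d2 (co p) (co x) = 1 →
      2 * dt (v p) (v x) = dt (v x) (v x) := by
    intro p x h1 h2
    rw [hd1] at h1
    rw [hd2, h1] at h2
    linarith
  -- it is enough to have the orthogonality
  have fin : ∀ p q x, d2 (co p) (co s1) = 1 → d2 (co q) (co s1) = 1 → d2 (co q) (co x) = 1 →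
      dt (fun k => v p k - v q k) (v x) = 0 → d2 (co p) (co x) = 1 := by
    intro p q x h1 h2 h3 h4
    have h5 := half q x h2 h3
    have h6 : dt (fun k => v p k - v q k) (v x) = dt (v p) (v x) - dt (v q) (v x) := by
      show (v p 0 - v q 0) * v x 0 + (v p 1 - v q 1) * v x 1 + (v p 2 - v q 2) * v x 2 =
        (v p 0 * v x 0 + v p 1 * v x 1 + v p 2 * v x 2) -
        (v q 0 * v x 0 + v q 1 * v x 1 + v q 2 * v x 2)
      ring
    rw [h6] at h4
    rw [hd2, ← hd1 p, h1]
    linarith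
  have diff : ∀ p q x, d2 (co p) (co s1) = 1 → d2 (co q) (co s1) = 1 → d2 (co q) (co x) = 1 →
      d2 (co p) (co x) = 1 → dt (fun k => v p k - v q k) (v x) = 0 := by
    intro p q x h1 h2 h3 h4
    have h5 := half q x h2 h3
    have h7 := half p x h1 h4
    have h6 : dt (fun k => v p k - v q k) (v x) = dt (v p) (v x) - dt (v q) (v x) := by
      show (v p 0 - v q 0) * v x 0 + (v p 1 - v q 1) * v x 1 + (v p 2 - v q 2) * v x 2 =
        (v p 0 * v x 0 + v p 1 * v x 1 + v p 2 * v x 2) -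
        (v q 0 * v x 0 + v q 1 * v x 1 + v q 2 * v x 2)
      ring
    rw [h6]
    linarith
  by_cases hcop : ∃ x ∈ S, dd (v s2) (v s3) (v x) ≠ 0
  · obtain ⟨s4, m4, hdet⟩ := hcop
    have n14 : s1 ≠ s4 := by
      rintro rfl
      apply hdet
      have : v s1 = fun _ => 0 := by funext k; exact sub_self _
      rw [this]
      unfold dd
      ring
    have n24 : s2 ≠ s4 := by
      rintro rfl
      apply hdet
      unfold dd
      ring
    have n34 : s3 ≠ s4 := by
      rintro rfl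
      apply hdet
      unfold dd
      ring
    obtain ⟨p, hp⟩ := four hS ![s1, s2, s3, s4] (inj4 n12 n13 n14 n23 n24 n34)
      (all4 m1 m2 m3 m4)
    have p1 : d2 (co p) (co s1) = 1 := hp 0
    have p2 : d2 (co p) (co s2) = 1 := hp 1
    have p3 : d2 (co p) (co s3) = 1 := hp 2
    have p4 : d2 (co p) (co s4) = 1 := hp 3
    refine ⟨p, fun x hx => (mem_iff p x).2 ?_⟩
    by_cases hx1 : x = s1
    · rw [hx1]; exact p1
    by_cases hx2 : x = s2
    · rw [hx2]; exact p2
    by_cases hx3 : x = s3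
    · rw [hx3]; exact p3
    by_cases hx4 : x = s4
    · rw [hx4]; exact p4
    obtain ⟨q, hq⟩ := fives hS ![s1, s2, s3, s4, x] (inj5 n12 n13 n14 (Ne.symm hx1) n23 n24
      (Ne.symm hx2) n34 (Ne.symm hx3) (Ne.symm hx4)) (all5 m1 m2 m3 m4 hx)
    have q1 : d2 (co q) (co s1) = 1 := hq 0
    have q2 : d2 (co q) (co s2) = 1 := hq 1
    have q3 : d2 (co q) (co s3) = 1 := hq 2
    have q4 : d2 (co q) (co s4) = 1 := hq 3
    have q5 : d2 (co q) (co x) = 1 := hq 4
    exact fin p q x p1 q1 q5 (span3 (v s2) (v s3) (v s4) (v x) _ (diff p q s2 p1 q1 q2 p2)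
      (diff p q s3 p1 q1 q3 p3) (diff p q s4 p1 q1 q4 p4) hdet)
  · push Not at hcop
    have n14 : s1 ≠ f 3 := by rw [hs1]; exact fun h => absurd (hf h) (by decide)
    have n24 : s2 ≠ f 3 := by rw [hs2]; exact fun h => absurd (hf h) (by decide)
    have n34 : s3 ≠ f 3 := by rw [hs3]; exact fun h => absurd (hf h) (by decide)
    have m4 := hfS 3
    obtain ⟨s4, hs4⟩ : ∃ s, s = f 3 := ⟨_, rfl⟩
    rw [← hs4] at n14 n24 n34 m4
    obtain ⟨p, hp⟩ := four hS ![s1, s2, s3, s4] (inj4 n12 n13 n14 n23 n24 n34)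
      (all4 m1 m2 m3 m4)
    have p1 : d2 (co p) (co s1) = 1 := hp 0
    have p2 : d2 (co p) (co s2) = 1 := hp 1
    have p3 : d2 (co p) (co s3) = 1 := hp 2
    have hn : 0 < dt (v s2) (v s2) * dt (v s3) (v s3) - dt (v s2) (v s3) ^ 2 := by
      refine noncol (v s2) (v s3) (v p) ?_ ?_ ?_ (half p s2 p1 p2) (half p s3 p1 p3)
      · rw [← hd1]; exact hpos _ _ (Ne.symm n12)
      · rw [← hd1]; exact hpos _ _ (Ne.symm n13)
      · have := hpos _ _ n23
        rw [hd2] at this
        linarith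
    refine ⟨p, fun x hx => (mem_iff p x).2 ?_⟩
    by_cases hx1 : x = s1
    · rw [hx1]; exact p1
    by_cases hx2 : x = s2
    · rw [hx2]; exact p2
    by_cases hx3 : x = s3
    · rw [hx3]; exact p3
    obtain ⟨q, hq⟩ := four hS ![s1, s2, s3, x] (inj4 n12 n13 (Ne.symm hx1) n23 (Ne.symm hx2)
      (Ne.symm hx3)) (all4 m1 m2 m3 hx)
    have q1 : d2 (co q) (co s1) = 1 := hq 0
    have q2 : d2 (co q) (co s2) = 1 := hq 1
    have q3 : d2 (co q) (co s3) = 1 := hq 2
    have q5 : d2 (co q) (co x) = 1 := hq 3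
    exact fin p q x p1 q1 q5 (span2 (v s2) (v s3) (v x) _ (diff p q s2 p1 q1 q2 p2)
      (diff p q s3 p1 q1 q3 p3) (hcop x hx) hn)

end Pool.Agent.S12391
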