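import Pool.Statements.S12606
import Pool.Agent.Results.MP_fd346d_co.Disproof

set_option autoImplicit false
open scoped Classical
open Pool Pool.MP_fd346d_co

namespace Pool.Agent.S12606


open Pool.Agent.Results.MP_fd346d_co.Disproof in
/-- The literal form of realizability. -/
theorem realizable_iff {P : Type} [PartialOrder P] (d : ℕ) : Realizable P d ↔
    ∃ r : Fin d → P → P → Prop,
        (∀ i, (∀ x, r i x x) ∧ (∀ x y z, r i x y → r i y z → r i x z) ∧
          (∀ x y, r i x y → r i y x → x = y) ∧ (∀ x y, r i x y ∨ r i y x)) ∧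
        ∀ x y, x ≤ y ↔ ∀ i, r i x y := by
  constructor
  · rintro ⟨L, hL, h1, h2⟩
    refine ⟨L, fun i => ?_, fun x y => ⟨fun h i => h1 i x y h, h2 x y⟩⟩
    have := hL i
    exact ⟨fun x => refl_of (L i) x, fun x y z => trans_of (L i), fun x y => antisymm_of (L i),
      fun x y => total_of (L i) x y⟩
  · rintro ⟨r, h1, h2⟩
    refine ⟨r, fun i => ?_, fun i x y h => (h2 x y).1 h i, fun x y h => (h2 x y).2 h⟩
    obtain ⟨a, b, c, d⟩ := h1 i
    exact { refl := a, trans := b, antisymm := c, total := d }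

open Pool.Agent.Results.MP_fd346d_co.Disproof in
theorem dim_le_prod_right {P Q : Type} [PartialOrder P] [PartialOrder Q] (p : P) :
    dim Q ≤ dim (P × Q) := by
  refine le_iInf₂ fun d hd => ?_
  let f : Q ↪o P × Q := OrderEmbedding.ofMapLEIff (fun q => (p, q)) (by
    intro a b
    simp)
  exact dim_le (hd.of_embedding f)

open Pool.Agent.Results.MP_fd346d_co.Disproof in
theorem dim_le_prod_left {P Q : Type} [PartialOrder P] [PartialOrder Q] (q : Q) :
    dim P ≤ dim (P × Q) := by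
  refine le_iInf₂ fun d hd => ?_
  let f : P ↪o P × Q := OrderEmbedding.ofMapLEIff (fun p => (p, q)) (by
    intro a b
    simp)
  exact dim_le (hd.of_embedding f)

open Pool.Agent.Results.MP_fd346d_co.Disproof in
theorem dim_subsingleton {P : Type} [PartialOrder P] (h : Subsingleton P) : dim P = 0 := by
  refine le_antisymm ?_ bot_le
  have h1 : Realizable P 0 := ⟨fun i => i.elim0, fun i => i.elim0, fun i => i.elim0,
    fun x y _ => (Subsingleton.elim x y).le⟩
  exact_mod_cast dim_le h1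

/-- The negation of the preceding statement: For all posets P, Q with at least two elements and finite dimension, dim P + dim Q ≤ dim(P×Q) + b, where b counts the factors lacking a least or greatest element; dimension means the least number of linear orders whose intersection is the order. -/
theorem result :
    ¬ (∀ (P Q : Type) [PartialOrder P] [PartialOrder Q], Nontrivial P → Nontrivial Q →
      (∃ d : ℕ, ∃ r : Fin d → P → P → Prop,
        (∀ i, (∀ x, r i x x) ∧ (∀ x y z, r i x y → r i y z → r i x z) ∧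
          (∀ x y, r i x y → r i y x → x = y) ∧ (∀ x y, r i x y ∨ r i y x)) ∧
        ∀ x y, x ≤ y ↔ ∀ i, r i x y) →
      (∃ d : ℕ, ∃ r : Fin d → Q → Q → Prop,
        (∀ i, (∀ x, r i x x) ∧ (∀ x y z, r i x y → r i y z → r i x z) ∧
          (∀ x y, r i x y → r i y x → x = y) ∧ (∀ x y, r i x y ∨ r i y x)) ∧
        ∀ x y, x ≤ y ↔ ∀ i, r i x y) →
      ∀ n : ℕ,
        (∃ r : Fin n → P × Q → P × Q → Prop,
          (∀ i, (∀ x, r i x x) ∧ (∀ x y z, r i x y → r i y z → r i x z) ∧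
            (∀ x y, r i x y → r i y x → x = y) ∧ (∀ x y, r i x y ∨ r i y x)) ∧
          ∀ x y, x ≤ y ↔ ∀ i, r i x y) →
        ∃ a c : ℕ,
          a + c ≤ n + ((if (∃ x : P, ∀ y, x ≤ y) ∧ (∃ x : P, ∀ y, y ≤ x) then 0 else 1) +
                       (if (∃ x : Q, ∀ y, x ≤ y) ∧ (∃ x : Q, ∀ y, y ≤ x) then 0 else 1)) ∧
          (∃ r : Fin a → P → P → Prop,
            (∀ i, (∀ x, r i x x) ∧ (∀ x y z, r i x y → r i y z → r i x z) ∧
              (∀ x y, r i x y → r i y x → x = y) ∧ (∀ x y, r i x y ∨ r i y x)) ∧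
            ∀ x y, x ≤ y ↔ ∀ i, r i x y) ∧
          (∃ r : Fin c → Q → Q → Prop,
            (∀ i, (∀ x, r i x x) ∧ (∀ x y z, r i x y → r i y z → r i x z) ∧
              (∀ x y, r i x y → r i y x → x = y) ∧ (∀ x y, r i x y ∨ r i y x)) ∧
            ∀ x y, x ≤ y ↔ ∀ i, r i x y)) := by
  intro H
  obtain ⟨P, Q, _, _, _, _, hP, hQ, hPf, hQf, hb, hlt⟩ :=
    Pool.Agent.Results.MP_fd346d_co.Disproof.result 0 1 (Or.inl rfl)
  obtain ⟨p⟩ := hP
  obtain ⟨q⟩ := hQ
  have hPn : Nontrivial P := by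
    rw [← not_subsingleton_iff_nontrivial]
    intro h
    have h1 := dim_le_prod_right (P := P) (Q := Q) p
    rw [dim_subsingleton h] at hlt
    have h2 : Pool.Agent.Results.MP_fd346d_co.Disproof.dim (P × Q) ≤
        Pool.Agent.Results.MP_fd346d_co.Disproof.dim (P × Q) + ((1 : ℕ) : ℕ∞) + ((0 : ℕ) : ℕ∞) :=
      le_trans le_self_add le_self_add
    rw [zero_add] at hlt
    exact absurd (lt_of_le_of_lt h2 hlt) (not_lt.2 h1)
  have hQn : Nontrivial Q := by
    rw [← not_subsingleton_iff_nontrivial]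
    intro h
    have h1 := dim_le_prod_left (P := P) (Q := Q) q
    rw [dim_subsingleton h] at hlt
    have h2 : Pool.Agent.Results.MP_fd346d_co.Disproof.dim (P × Q) ≤
        Pool.Agent.Results.MP_fd346d_co.Disproof.dim (P × Q) + ((1 : ℕ) : ℕ∞) + ((0 : ℕ) : ℕ∞) :=
      le_trans le_self_add le_self_add
    rw [add_zero] at hlt
    exact absurd (lt_of_le_of_lt h2 hlt) (not_lt.2 h1)
  have hfin : ∀ (R : Type) [PartialOrder R],
      Pool.Agent.Results.MP_fd346d_co.Disproof.dim R ≠ ⊤ →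
      ∃ d : ℕ, Pool.Agent.Results.MP_fd346d_co.Disproof.Realizable R d := by
    intro R _ hR
    by_contra hcon
    push Not at hcon
    apply hR
    unfold Pool.Agent.Results.MP_fd346d_co.Disproof.dim
    simp [hcon]
  obtain ⟨d1, hd1⟩ := hfin P hPf
  obtain ⟨d2, hd2⟩ := hfin Q hQf
  have hprod : Pool.Agent.Results.MP_fd346d_co.Disproof.dim (P × Q) ≠ ⊤ := by
    intro h
    rw [h] at hlt
    simp at hlt
  obtain ⟨d3, hd3⟩ := hfin (P × Q) hprod
  obtain ⟨n, hn, hnr⟩ := Pool.Agent.Results.MP_fd346d_co.Disproof.exists_dim_eq hd3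
  obtain ⟨a, c, hac, ha, hc⟩ := H P Q hPn hQn ⟨d1, (realizable_iff d1).1 hd1⟩
    ⟨d2, (realizable_iff d2).1 hd2⟩ n ((realizable_iff n).1 hnr)
  have ha' := Pool.Agent.Results.MP_fd346d_co.Disproof.dim_le ((realizable_iff a).2 ha)
  have hc' := Pool.Agent.Results.MP_fd346d_co.Disproof.dim_le ((realizable_iff c).2 hc)
  have hb' : ((if (∃ x : P, ∀ y, x ≤ y) ∧ (∃ x : P, ∀ y, y ≤ x) then 0 else 1) +
      (if (∃ x : Q, ∀ y, x ≤ y) ∧ (∃ x : Q, ∀ y, y ≤ x) then 0 else 1) : ℕ) = 1 := by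
    have hb2 := hb
    unfold Pool.Agent.Results.MP_fd346d_co.Disproof.numUnbdd
      Pool.Agent.Results.MP_fd346d_co.Disproof.IsBdd at hb2
    by_cases e1 : (∃ x : P, ∀ y, x ≤ y) ∧ (∃ x : P, ∀ y, y ≤ x)
    · by_cases e2 : (∃ x : Q, ∀ y, x ≤ y) ∧ (∃ x : Q, ∀ y, y ≤ x)
      · rw [if_pos e1, if_pos e2] at hb2 ⊢
        exact hb2
      · rw [if_pos e1, if_neg e2] at hb2 ⊢
    · by_cases e2 : (∃ x : Q, ∀ y, x ≤ y) ∧ (∃ x : Q, ∀ y, y ≤ x)
      · rw [if_neg e1, if_pos e2] at hb2 ⊢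
      · rw [if_neg e1, if_neg e2] at hb2 ⊢
        exact hb2
  rw [hb'] at hac
  rw [hn] at hlt
  have h3 : Pool.Agent.Results.MP_fd346d_co.Disproof.dim P +
      Pool.Agent.Results.MP_fd346d_co.Disproof.dim Q ≤ ((a + c : ℕ) : ℕ∞) := by
    push_cast
    exact add_le_add ha' hc'
  have h4 : (((n + 1 + 0 : ℕ)) : ℕ∞) < ((a + c : ℕ) : ℕ∞) := by
    refine lt_of_lt_of_le ?_ h3
    push_cast
    exact_mod_cast hlt
  have h5 : n + 1 + 0 < a + c := by exact_mod_cast h4
  omega


end Pool.Agent.S12606
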