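import Pool.Statements.S12841
import Pool.Agent.S13611
import Pool.Agent.W567.Spencer2
import Pool.Agent.H902R3.ZA.ZSUP

set_option autoImplicit false
open Pool Pool.MP_1bae07_gt

namespace Pool.Agent.S12841

open Pool.Agent.H902R3.ZA Pool.Agent.H172R2.ZS
open scoped RealInnerProductSpace

lemma inner_E {d : ℕ} (a x : Fin d → ℝ) :
    ⟪(WithLp.toLp 2 a : E d), (WithLp.toLp 2 x : E d)⟫ = ∑ i, a i * x i := by
  simp only [PiLp.inner_apply, RCLike.inner_apply, conj_trivial]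
  exact Finset.sum_congr rfl fun j _ => mul_comm _ _

/-- sparsification of the zonotope with factor `3 / 2` -/
lemma sparse : ∃ C : ℝ, 0 < C ∧ ∀ (d m : ℕ) (v : Fin m → (Fin d → ℝ)),
    ∃ (M : ℕ) (b : Fin M → (Fin d → ℝ)), (M : ℝ) ≤ C * d ∧
      (∀ x : Fin d → ℝ, ∑ k, |∑ i, b k i * x i| ≤ ∑ j, |∑ i, v j i * x i|) ∧
      (∀ x : Fin d → ℝ, ∑ j, |∑ i, v j i * x i| ≤ (3 / 2) * ∑ k, |∑ i, b k i * x i|) := by
  obtain ⟨C, hC, h⟩ := Pool.Agent.S13611.result
  refine ⟨4 * C + 1, by positivity, fun d m v => ?_⟩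
  by_cases hdm : d ≤ m
  · obtain ⟨n, hn, B, hB⟩ := h d m hdm (Matrix.of v) (1 / 2) (by norm_num) le_rfl
    refine ⟨n, fun k => B k, ?_, fun x => ?_, fun x => ?_⟩
    · have : C * (d : ℝ) / (1 / 2) ^ 2 = 4 * C * d := by ring
      rw [this] at hn
      have hd : (0 : ℝ) ≤ d := by positivity
      linarith
    · have := (hB x).1
      simpa [Matrix.mulVec, dotProduct] using this
    · have := (hB x).2
      simp only [Matrix.mulVec, dotProduct, Matrix.of_apply] at this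
      norm_num at this ⊢
      exact this
  · push Not at hdm
    refine ⟨m, v, ?_, fun x => le_rfl, fun x => ?_⟩
    · have h1 : (m : ℝ) ≤ d := by exact_mod_cast hdm.le
      have hd : (0 : ℝ) ≤ C * d := by positivity
      linarith
    · have : 0 ≤ ∑ j, |∑ i, v j i * x i| := Finset.sum_nonneg fun _ _ => abs_nonneg _
      linarith

/-- comparison of zonotopes in coordinates -/
lemma comp {d N N' : ℕ} (u : Fin N → (Fin d → ℝ)) (v : Fin N' → (Fin d → ℝ)) (s : ℝ) (hs : 0 ≤ s)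
    (h : ∀ x : Fin d → ℝ, ∑ k, |∑ i, v k i * x i| ≤ s * ∑ j, |∑ i, u j i * x i|)
    (t : Fin N' → ℝ) (ht : ∀ j, t j ∈ Set.Icc (-1 : ℝ) 1) :
    ∃ r : Fin N → ℝ, (∀ j, r j ∈ Set.Icc (-1 : ℝ) 1) ∧ ∑ k, t k • v k = s • ∑ j, r j • u j := by
  obtain ⟨z, ⟨r, hr, hz⟩, hy⟩ := ZSUP_ok d N N' (fun j => WithLp.toLp 2 (u j))
    (fun k => WithLp.toLp 2 (v k)) s hs (by
      intro x
      have := h (WithLp.ofLp x)
      have hx : x = WithLp.toLp 2 (WithLp.ofLp x) := rfl
      rw [hx]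
      simp only [inner_E]
      exact this) (∑ k, t k • (WithLp.toLp 2 (v k) : E d)) ⟨t, ht, rfl⟩
  refine ⟨r, hr, ?_⟩
  rw [hz] at hy
  have := congrArg (WithLp.ofLp) hy
  simpa [WithLp.ofLp_sum, WithLp.ofLp_smul] using this

/-- There is an absolute constant C such that for every origin-centred zonotope K in ℝ^d and any finitely many vectors in K, some choice of signs puts their signed sum in C√d·K, i.e. vb(K,K) ≤ C√d. -/
theorem result :
    ∃ C : ℝ, 0 < C ∧
      ∀ (d m : ℕ) (v : Fin m → (Fin d → ℝ)) (n : ℕ) (u : Fin n → (Fin d → ℝ)),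
        (∀ i, ∃ t : Fin m → ℝ, (∀ j, t j ∈ Set.Icc (-1 : ℝ) 1) ∧
            u i = ∑ j, t j • v j) →
        ∃ ε : Fin n → ℝ, (∀ i, ε i = 1 ∨ ε i = -1) ∧
          ∃ s : Fin m → ℝ, (∀ j, s j ∈ Set.Icc (-1 : ℝ) 1) ∧
            ∑ i, ε i • u i = (C * Real.sqrt d) • ∑ j, s j • v j := by
  obtain ⟨C1, hC1, hsp⟩ := sparse
  obtain ⟨C0, hC0, hcol⟩ := Pool.Agent.W567.Spencer.full_col'
  refine ⟨3 / 2 * (2 * (C0 * √(C1 + 1)) + 1), by positivity, ?_⟩
  intro d m v n u hu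
  rcases Nat.eq_zero_or_pos d with hd0 | hd
  · subst hd0
    refine ⟨fun _ => 1, fun _ => Or.inl rfl, fun _ => 0, fun j => ⟨by norm_num, by norm_num⟩, ?_⟩
    exact Subsingleton.elim _ _
  obtain ⟨M, b, hM, hb1, hb2⟩ := hsp d m v
  -- the vectors in terms of the sparse zonotope
  have hf : ∀ i, ∃ r : Fin M → ℝ, (∀ j, r j ∈ Set.Icc (-1 : ℝ) 1) ∧
      u i = (3 / 2 : ℝ) • ∑ k, r k • b k := by
    intro i
    obtain ⟨t, ht, hti⟩ := hu i
    obtain ⟨r, hr, hr2⟩ := comp b v (3 / 2) (by norm_num) hb2 t ht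
    exact ⟨r, hr, by rw [hti, hr2]⟩
  choose f hf1 hf2 using hf
  obtain ⟨x, hx1, hx2, hx3⟩ := Pool.Agent.W567.Spencer.few_fractional d n u
  set m' : ℕ := M + d with hm'
  obtain ⟨ε, hε, hbd⟩ := Pool.Agent.W567.Spencer.lindisc m' (C0 * √(m' : ℝ))
    (fun J _ _ f hJ hf => hcol m' J f hJ hf) (by positivity) (Fin n)
    (fun i => Fin.append (f i) (fun _ : Fin d => (0 : ℝ))) (by
      intro g i
      refine Fin.addCases (fun k => ?_) (fun k => ?_) i
      · rw [Fin.append_left]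
        exact abs_le.2 (hf1 g k)
      · rw [Fin.append_right]; simp) x hx1 (hx3.trans (by omega))
  have hbd' : ∀ k : Fin M, |∑ g, (ε g - x g) * f g k| ≤ 2 * (C0 * √(m' : ℝ)) + 1 := by
    intro k
    have := hbd (Fin.castAdd d k)
    simpa [Fin.append_left] using this
  set D : ℝ := 2 * (C0 * √(m' : ℝ)) + 1 with hD
  have hDpos : 0 < D := by positivity
  have hsum : ∑ i, ε i • u i = (3 / 2 * D : ℝ) • ∑ k, ((∑ g, (ε g - x g) * f g k) / D) • b k := by
    have h1 : ∑ i, ε i • u i = ∑ i, (ε i - x i) • u i := by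
      simp only [sub_smul, Finset.sum_sub_distrib, hx2, sub_zero]
    rw [h1]
    calc ∑ i, (ε i - x i) • u i = ∑ i, (ε i - x i) • ((3 / 2 : ℝ) • ∑ k, f i k • b k) := by
          refine Finset.sum_congr rfl fun i _ => ?_
          rw [← hf2 i]
      _ = ∑ i, ∑ k, ((3 / 2 : ℝ) * ((ε i - x i) * f i k)) • b k := by
          refine Finset.sum_congr rfl fun i _ => ?_
          rw [Finset.smul_sum, Finset.smul_sum]
          refine Finset.sum_congr rfl fun k _ => ?_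
          rw [smul_smul, smul_smul]
          congr 1; ring
      _ = ∑ k, ∑ i, ((3 / 2 : ℝ) * ((ε i - x i) * f i k)) • b k := Finset.sum_comm
      _ = _ := by
          rw [Finset.smul_sum]
          refine Finset.sum_congr rfl fun k _ => ?_
          rw [← Finset.sum_smul, smul_smul, ← Finset.mul_sum]
          congr 1
          field_simp
  obtain ⟨r, hr, hr2⟩ := comp v b 1 zero_le_one (fun x => by rw [one_mul]; exact hb1 x)
    (fun k => (∑ g, (ε g - x g) * f g k) / D) (fun k => by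
      rw [Set.mem_Icc, ← abs_le, abs_div, abs_of_pos hDpos, div_le_one hDpos]
      exact hbd' k)
  rw [one_smul] at hr2
  have hd1 : (1 : ℝ) ≤ √(d : ℝ) := by
    rw [Real.one_le_sqrt]; exact_mod_cast hd
  set Q : ℝ := 3 / 2 * (2 * (C0 * √(C1 + 1)) + 1) * √(d : ℝ) with hQ
  have hQpos : 0 < Q := by positivity
  have hDQ : 3 / 2 * D ≤ Q := by
    have h1 : √(m' : ℝ) ≤ √(C1 + 1) * √(d : ℝ) := by
      rw [← Real.sqrt_mul (by positivity)]
      apply Real.sqrt_le_sqrt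
      rw [hm']; push_cast; linarith
    have h2 : C0 * √(m' : ℝ) ≤ C0 * (√(C1 + 1) * √(d : ℝ)) :=
      mul_le_mul_of_nonneg_left h1 (by linarith)
    rw [hQ, hD]
    nlinarith
  refine ⟨ε, hε, fun j => (3 / 2 * D) / Q * r j, fun j => ?_, ?_⟩
  · have h1 : 0 ≤ (3 / 2 * D) / Q := by positivity
    have h2 : (3 / 2 * D) / Q ≤ 1 := (div_le_one hQpos).2 hDQ
    rw [Set.mem_Icc, ← abs_le, abs_mul, abs_of_nonneg h1]
    have h3 : |r j| ≤ 1 := abs_le.2 (hr j)
    calc 3 / 2 * D / Q * |r j| ≤ 1 * 1 := mul_le_mul h2 h3 (abs_nonneg _) zero_le_one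
      _ = 1 := one_mul 1
  · rw [hsum, hr2, Finset.smul_sum, Finset.smul_sum]
    refine Finset.sum_congr rfl fun j _ => ?_
    rw [smul_smul, smul_smul]
    congr 1
    field_simp

end Pool.Agent.S12841
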