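import Pool.Statements.S12897
-- import your own Pool.Agent.* helpers here

set_option autoImplicit false
open Pool Pool.MP_26524f_gt

namespace Pool.Agent.S12897

open Set

/-- open γ-cover of the set of reals `X` -/
def IsGamma (X : Set ℝ) (𝒰 : Set (Set ℝ)) : Prop :=
  (∀ U ∈ 𝒰, ∃ V : Set ℝ, IsOpen V ∧ U = V ∩ X) ∧ X ∉ 𝒰 ∧
    X ⊆ ⋃₀ 𝒰 ∧ 𝒰.Infinite ∧ ∀ x ∈ X, {U ∈ 𝒰 | x ∉ U}.Finite

/-- the property `S_fin(Γ,Ω)` -/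
def SfinGO (X : Set ℝ) : Prop :=
  ∀ 𝒰 : ℕ → Set (Set ℝ), (∀ n, IsGamma X (𝒰 n)) →
    ∃ ℱ : ℕ → Set (Set ℝ), (∀ n, (ℱ n).Finite ∧ ℱ n ⊆ 𝒰 n) ∧
      X ∉ (⋃ n, ℱ n) ∧ X ⊆ ⋃₀ (⋃ n, ℱ n) ∧
      ∀ F : Finset ℝ, (↑F : Set ℝ) ⊆ X → ∃ U ∈ (⋃ n, ℱ n), (↑F : Set ℝ) ⊆ U

/-- selection for one closed piece -/
lemma piece (X Y C : Set ℝ) (hX : SfinGO X) (hC : IsClosed C) (hCY : X ∩ C ⊆ Y) (hYX : Y ⊆ X)
    (𝒰 : ℕ → Set (Set ℝ)) (h𝒰 : ∀ n, IsGamma Y (𝒰 n)) :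
    ∃ ℱ : ℕ → Set (Set ℝ), (∀ n, (ℱ n).Finite ∧ ℱ n ⊆ 𝒰 n) ∧
      ∀ F : Finset ℝ, (↑F : Set ℝ) ⊆ X ∩ C → ∃ n, ∃ U ∈ ℱ n, (↑F : Set ℝ) ⊆ U := by
  classical
  by_cases hA : ∃ n, ∃ U ∈ 𝒰 n, X ∩ C ⊆ U
  · obtain ⟨n, U, hU, hCU⟩ := hA
    refine ⟨fun k => if k = n then {U} else ∅, ?_, ?_⟩
    · intro k
      by_cases hk : k = n
      · subst hk
        simp only [if_true]
        exact ⟨finite_singleton U, singleton_subset_iff.2 hU⟩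
      · simp only [if_neg hk]
        exact ⟨finite_empty, empty_subset _⟩
    · intro F hF
      exact ⟨n, U, by simp, hF.trans hCU⟩
  · push Not at hA
    let φ : Set ℝ → Set ℝ := fun U => (U ∩ C) ∪ (X \ C)
    have hφC : ∀ U, ∀ x ∈ C, x ∈ φ U ↔ x ∈ U := by
      intro U x hx
      constructor
      · rintro (h | h)
        · exact h.1
        · exact absurd hx h.2
      · intro h; exact Or.inl ⟨h, hx⟩
    have hg : ∀ n, IsGamma X (φ '' (𝒰 n)) := by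
      intro n
      obtain ⟨h1, h2, h3, h4, h5⟩ := h𝒰 n
      have hfin : ∀ x ∈ X, {T ∈ φ '' (𝒰 n) | x ∉ T}.Finite := by
        intro x hx
        by_cases hxC : x ∈ C
        · refine ((h5 x (hCY ⟨hx, hxC⟩)).image φ).subset ?_
          rintro _ ⟨⟨U, hU, rfl⟩, hxU⟩
          refine ⟨U, ⟨hU, fun h => hxU ((hφC U x hxC).2 h)⟩, rfl⟩
        · have : {T ∈ φ '' (𝒰 n) | x ∉ T} = ∅ := by
            rw [eq_empty_iff_forall_notMem]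
            rintro _ ⟨⟨U, hU, rfl⟩, hxU⟩
            exact hxU (Or.inr ⟨hx, hxC⟩)
          rw [this]; exact finite_empty
      have hinf : (φ '' (𝒰 n)).Infinite := by
        intro hf
        obtain ⟨T, hT⟩ : ∃ T, ({U ∈ 𝒰 n | φ U = T}).Infinite := by
          by_contra hcon
          push Not at hcon
          apply h4
          have : 𝒰 n ⊆ ⋃ T ∈ φ '' (𝒰 n), {U ∈ 𝒰 n | φ U = T} := by
            intro U hU
            simp only [mem_iUnion]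
            exact ⟨φ U, ⟨U, hU, rfl⟩, hU, rfl⟩
          exact (hf.biUnion fun T _ => (hcon T)).subset this
        obtain ⟨U₀, hU₀, hU₀T⟩ := hT.nonempty
        apply hA n U₀ hU₀
        intro x hx
        have h6 := h5 x (hCY hx)
        have h7 : ({U ∈ 𝒰 n | φ U = T} \ {U ∈ 𝒰 n | x ∉ U}).Nonempty :=
          (hT.sdiff h6).nonempty
        obtain ⟨U, ⟨hU, hUT⟩, hxU⟩ := h7
        have hxU' : x ∈ U := by
          by_contra h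
          exact hxU ⟨hU, h⟩
        rw [← hφC U₀ x hx.2, hU₀T, ← hUT, hφC U x hx.2]
        exact hxU'
      refine ⟨?_, ?_, ?_, hinf, hfin⟩
      · rintro _ ⟨U, hU, rfl⟩
        obtain ⟨V, hV, rfl⟩ := h1 U hU
        refine ⟨V ∪ Cᶜ, hV.union hC.isOpen_compl, ?_⟩
        ext x
        simp only [φ, mem_union, mem_inter_iff, mem_sdiff, mem_compl_iff]
        constructor
        · rintro (⟨⟨h1, h2⟩, h3⟩ | ⟨h1, h2⟩)
          · exact ⟨Or.inl h1, hYX h2⟩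
          · exact ⟨Or.inr h2, h1⟩
        · rintro ⟨h1 | h1, h2⟩
          · by_cases hxC : x ∈ C
            · exact Or.inl ⟨⟨h1, hCY ⟨h2, hxC⟩⟩, hxC⟩
            · exact Or.inr ⟨h2, hxC⟩
          · exact Or.inr ⟨h2, h1⟩
      · rintro ⟨U, hU, hUX⟩
        apply hA n U hU
        intro x hx
        have : x ∈ φ U := by rw [hUX]; exact hx.1
        exact (hφC U x hx.2).1 this
      · intro x hx
        obtain ⟨T, hT, hxT⟩ := (hinf.sdiff (hfin x hx)).nonempty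
        refine ⟨T, hT, ?_⟩
        by_contra h
        exact hxT ⟨hT, h⟩
    obtain ⟨𝒢, h𝒢, -, -, hω⟩ := hX (fun n => φ '' (𝒰 n)) hg
    have hpull : ∀ n, ∃ ℱ : Set (Set ℝ), ℱ.Finite ∧ ℱ ⊆ 𝒰 n ∧ φ '' ℱ = 𝒢 n := by
      intro n
      obtain ⟨ℱ, hℱ1, hℱ2⟩ := Set.subset_image_iff.1 (h𝒢 n).2
      have hfin := (h𝒢 n).1
      rw [← hℱ2] at hfin
      obtain ⟨ℱ', hs, hb⟩ := Set.SurjOn.exists_bijOn_subset (surjOn_image φ ℱ)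
      refine ⟨ℱ', ?_, hs.trans hℱ1, by rw [hb.image_eq, hℱ2]⟩
      exact hb.finite_iff_finite.2 hfin
    choose ℱ hℱf hℱs hℱi using hpull
    refine ⟨ℱ, fun n => ⟨hℱf n, hℱs n⟩, ?_⟩
    intro F hF
    obtain ⟨T, hT, hFT⟩ := hω F (hF.trans inter_subset_left)
    obtain ⟨n, hn⟩ := mem_iUnion.1 hT
    rw [← hℱi n] at hn
    obtain ⟨U, hU, rfl⟩ := hn
    refine ⟨n, U, hU, fun x hx => ?_⟩
    exact (hφC U x (hF hx).2).1 (hFT hx)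

theorem main (X Y : Set ℝ) (hY : ∃ K : ℕ → Set ℝ, (∀ n, IsClosed (K n)) ∧ Y = X ∩ (⋃ n, K n))
    (hX : SfinGO X) : SfinGO Y := by
  classical
  obtain ⟨K, hK, rfl⟩ := hY
  intro 𝒰 h𝒰
  let C : ℕ → Set ℝ := fun m => ⋃ i ∈ Finset.range (m + 1), K i
  have hC : ∀ m, IsClosed (C m) := fun m =>
    isClosed_biUnion_finset fun i _ => hK i
  have hCsub : ∀ m, X ∩ C m ⊆ X ∩ (⋃ n, K n) := by
    intro m
    apply inter_subset_inter_right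
    exact iUnion₂_subset fun i _ => subset_iUnion K i
  have hsel : ∀ m : ℕ, ∃ ℱ : ℕ → Set (Set ℝ), (∀ n, (ℱ n).Finite ∧ ℱ n ⊆ 𝒰 (n + m)) ∧
      ∀ F : Finset ℝ, (↑F : Set ℝ) ⊆ X ∩ C m → ∃ n, ∃ U ∈ ℱ n, (↑F : Set ℝ) ⊆ U := fun m =>
    piece X (X ∩ (⋃ n, K n)) (C m) hX (hC m) (hCsub m) inter_subset_left
      (fun n => 𝒰 (n + m)) (fun n => h𝒰 (n + m))
  choose 𝒢 h𝒢 hω using hsel
  let ℱ : ℕ → Set (Set ℝ) := fun n => ⋃ m ∈ Finset.range (n + 1), 𝒢 m (n - m)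
  have hℱω : ∀ F : Finset ℝ, (↑F : Set ℝ) ⊆ X ∩ (⋃ n, K n) →
      ∃ U ∈ (⋃ n, ℱ n), (↑F : Set ℝ) ⊆ U := by
    intro F hF
    have h1 : ∀ x ∈ F, ∃ i, x ∈ K i := fun x hx => mem_iUnion.1 (hF hx).2
    choose! ι hι using h1
    obtain ⟨m, hm⟩ : ∃ m, ∀ x ∈ F, ι x ≤ m := ⟨F.sup ι, fun x hx => Finset.le_sup hx⟩
    have h2 : (↑F : Set ℝ) ⊆ X ∩ C m := by
      intro x hx
      refine ⟨(hF hx).1, ?_⟩
      simp only [C, mem_iUnion]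
      refine ⟨ι x, ?_, hι x hx⟩
      rw [Finset.mem_range]
      have := hm x hx
      omega
    obtain ⟨n, U, hU, hFU⟩ := hω m F h2
    refine ⟨U, mem_iUnion.2 ⟨n + m, ?_⟩, hFU⟩
    simp only [ℱ, mem_iUnion]
    refine ⟨m, by rw [Finset.mem_range]; omega, ?_⟩
    rw [Nat.add_sub_cancel]
    exact hU
  have hℱs : ∀ n, ℱ n ⊆ 𝒰 n := by
    intro n U hU
    simp only [ℱ, mem_iUnion] at hU
    obtain ⟨m, hm, hU⟩ := hU
    have := (h𝒢 m (n - m)).2 hU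
    rw [Finset.mem_range] at hm
    rwa [Nat.sub_add_cancel (by omega)] at this
  refine ⟨ℱ, fun n => ⟨?_, hℱs n⟩, ?_, ?_, hℱω⟩
  · exact (Finset.finite_toSet _).biUnion fun m _ => (h𝒢 m (n - m)).1
  · intro h
    obtain ⟨n, hn⟩ := mem_iUnion.1 h
    exact (h𝒰 n).2.1 (hℱs n hn)
  · intro x hx
    obtain ⟨U, hU, hxU⟩ := hℱω {x} (by simpa using hx)
    exact ⟨U, hU, hxU (by simp)⟩

theorem result :
    ∀ P : Set ℝ → Prop,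
      (∀ X : Set ℝ, P X ↔
        ∀ 𝒰 : ℕ → Set (Set ℝ),
          (∀ n, (∀ U ∈ 𝒰 n, ∃ V : Set ℝ, IsOpen V ∧ U = V ∩ X) ∧ X ∉ 𝒰 n ∧
              X ⊆ ⋃₀ (𝒰 n) ∧ (𝒰 n).Infinite ∧
              ∀ x ∈ X, {U ∈ 𝒰 n | x ∉ U}.Finite) →
          ∃ ℱ : ℕ → Set (Set ℝ), (∀ n, (ℱ n).Finite ∧ ℱ n ⊆ 𝒰 n) ∧
            X ∉ (⋃ n, ℱ n) ∧ X ⊆ ⋃₀ (⋃ n, ℱ n) ∧
            ∀ F : Finset ℝ, (↑F : Set ℝ) ⊆ X →
              ∃ U ∈ (⋃ n, ℱ n), (↑F : Set ℝ) ⊆ U) →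
      ∀ X Y : Set ℝ,
        (∃ K : ℕ → Set ℝ, (∀ n, IsClosed (K n)) ∧ Y = X ∩ (⋃ n, K n)) →
        P X → P Y := by
  intro P hP X Y hY hPX
  rw [hP]
  rw [hP] at hPX
  exact main X Y hY hPX

end Pool.Agent.S12897
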