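import Pool.Statements.S13073
import Pool.Agent.W595.S13073Aux
import Pool.Agent.Helper775.Surf.Fin

set_option autoImplicit false
open scoped Manifold
open CategoryTheory AlgebraicTopology
open Pool Pool.MP_4139f5_gt

namespace Pool.Agent.S13073

/-- For N at least 4, any continuous locally injective map of a compact connected surface with nonempty boundary into R^N, whose image spans R^N affinely and whose half-space preimages inject on mod-2 H0 and H1, has a convex hull spanned by finitely many points. -/
theorem result :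
  ∀ (N : ℕ), 4 ≤ N →
  ∀ (M : Type) [TopologicalSpace M] [T2Space M] [CompactSpace M] [ConnectedSpace M]
    [ChartedSpace (EuclideanHalfSpace 2) M], IsManifold (𝓡∂ 2) 0 M →
    ((𝓡∂ 2).boundary M).Nonempty →
  ∀ f : M → EuclideanSpace ℝ (Fin N), Continuous f →
    (∀ x : M, ∃ U ∈ nhds x, Set.InjOn f U) →
    affineSpan ℝ (Set.range f) = ⊤ →
    (∀ (l : EuclideanSpace ℝ (Fin N) →L[ℝ] ℝ), l ≠ 0 → ∀ c : ℝ, ∀ k : ℕ, k ≤ 1 →
      Mono (((singularHomologyFunctor (ModuleCat.{0} (ZMod 2)) k).obj
          (ModuleCat.of (ZMod 2) (ZMod 2))).map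
        (TopCat.ofHom ⟨Subtype.val, continuous_subtype_val⟩ :
          TopCat.of ↥(f ⁻¹' {y | c ≤ l y}) ⟶ TopCat.of M))) →
    ∃ S : Finset (EuclideanSpace ℝ (Fin N)),
      convexHull ℝ (Set.range f) = convexHull ℝ (↑S : Set (EuclideanSpace ℝ (Fin N))) := by
  intro N hN M _ _ _ _ _ _ hb f hf hloc hspan htight
  haveI : LocallyPathConnectedSpace M :=
    ChartedSpace.locallyPathConnectedSpace (EuclideanHalfSpace 2) M
  haveI : PathConnectedSpace M := PathConnectedSpace.of_locallyPathConnectedSpace
  refine Pool.Agent.Helper775.Surf.final_polytope hb hN f hf hloc ?_ (Or.inl ?_)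
  · intro z t hz
    by_contra hcon
    push Not at hcon
    have key : ∀ y : EuclideanSpace ℝ (Fin N), inner ℝ z y = t := by
      intro y
      have hy : y ∈ affineSpan ℝ (Set.range f) := by rw [hspan]; exact AffineSubspace.mem_top _ _ _
      refine affineSpan_induction (p := fun y => inner ℝ z y = t) hy ?_ ?_
      · rintro _ ⟨x, rfl⟩
        exact hcon x
      · intro r u v w hu hv hw
        simp only [vsub_eq_sub, vadd_eq_add, inner_add_right, inner_smul_right, inner_sub_right]
        rw [hu, hv, hw]
        ring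
    have h0 := key 0
    have h1 := key z
    rw [inner_zero_right] at h0
    rw [← h0, inner_self_eq_zero] at h1
    exact hz h1
  · intro z c hz
    have hl : (innerSL ℝ z : EuclideanSpace ℝ (Fin N) →L[ℝ] ℝ) ≠ 0 := by
      intro h
      apply hz
      have := congrArg (fun g : EuclideanSpace ℝ (Fin N) →L[ℝ] ℝ => g z) h
      simpa using this
    refine ⟨?_, ?_⟩
    · exact Pool.Agent.W595.Bridge.preconnected_of_mono _ (htight (innerSL ℝ z) hl c 0 (by norm_num))
    · intro u hu hc hb
      exact Pool.Agent.W595.Bridge.inj_of_mono _ 1 (htight (innerSL ℝ z) hl c 1 le_rfl) u hu hc hb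

end Pool.Agent.S13073
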