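import Pool.Statements.S13092
import Pool.Agent.W594.Herm3
import Pool.Agent.V11197.Stab

set_option autoImplicit false
open LaurentPolynomial
open scoped Matrix
open Pool Pool.MP_436001_gt

namespace Pool.Agent.S13092

open Matrix Pool.Agent.W594.Herm Pool.Agent.V11197.Stab

/-- the identification of the index sets -/
def idx : Fin 2 ⊕ Fin 2 × Fin 1 ≃ Fin 4 :=
  ((Equiv.refl (Fin 2)).sumCongr (Equiv.prodUnique (Fin 2) (Fin 1))).trans finSumFinEquiv

/-- `t` and `t⁻¹` -/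
noncomputable abbrev tt : ℤ[T;T⁻¹] := T 1

noncomputable abbrev ss : ℤ[T;T⁻¹] := T (-1)

theorem tt_ss : tt * ss = 1 := by
  unfold tt ss
  rw [← T_add]; simp

/-- the form of rank two -/
noncomputable def LL : Matrix (Fin 2) (Fin 2) ℤ[T;T⁻¹] :=
  !![25, 7 + 10 * (tt - ss); 7 - 10 * (tt - ss), 10 - 4 * (tt * tt + ss * ss)]

/-- the block `H2` -/
noncomputable def HH : Matrix (Fin 2) (Fin 2) ℤ[T;T⁻¹] := !![0, T 1 - 1; T (-1) - 1, 0]

theorem LL_eq : LL = blk 1 := by
  unfold LL blk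
  have h1 : (T (2 * 1) : ℤ[T;T⁻¹]) = tt * tt := by unfold tt; rw [← T_add]; norm_num
  have h2 : (T (-(2 * 1)) : ℤ[T;T⁻¹]) = ss * ss := by unfold ss; rw [← T_add]; norm_num
  rw [h1, h2]

theorem LL_det : LL.det = 1 := by rw [LL_eq, det_blk]

theorem gramL_block : Matrix.fromBlocks LL 0 0 (Matrix.blockDiagonal (fun _ : Fin 1 => HH)) =
    (gramL tt ss).submatrix idx idx := by
  apply Matrix.ext
  rintro (i | ⟨i, k⟩) (j | ⟨j, l⟩) <;> fin_cases i <;> fin_cases j <;>
    simp [idx, gramL, LL, HH, Matrix.blockDiagonal_apply, finSumFinEquiv] <;>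
    (intro h; exact absurd (Subsingleton.elim _ _) h)

theorem gramI_block : Matrix.fromBlocks ((1 : Matrix (Fin 2) (Fin 2) ℤ).map
      (Int.castRingHom ℤ[T;T⁻¹])) 0 0 (Matrix.blockDiagonal (fun _ : Fin 1 => HH)) =
    (gramI tt ss).submatrix idx idx := by
  apply Matrix.ext
  rintro (i | ⟨i, k⟩) (j | ⟨j, l⟩) <;> fin_cases i <;> fin_cases j <;>
    simp [idx, gramI, HH, Matrix.blockDiagonal_apply, finSumFinEquiv] <;>
    (intro h; exact absurd (Subsingleton.elim _ _) h)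

/-- `t ↦ t⁻¹` -/
noncomputable def sg : ℤ[T;T⁻¹] →+* ℤ[T;T⁻¹] := (invert : ℤ[T;T⁻¹] ≃ₐ[ℤ] ℤ[T;T⁻¹]).toRingHom

/-- `t ↦ 1` -/
noncomputable def ep : ℤ[T;T⁻¹] →+* ℤ := eval₂ (RingHom.id ℤ) 1

theorem sg_tt : sg tt = ss := by simp [sg]
theorem sg_ss : sg ss = tt := by simp [sg]
theorem ep_tt : ep tt = 1 := by simp [ep]
theorem ep_ss : ep ss = 1 := by simp [ep]

theorem LL_herm : (LL.map sg)ᵀ = LL := by
  have h : ∀ (n : ℕ) [n.AtLeastTwo], sg (OfNat.ofNat n) = OfNat.ofNat n :=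
    fun n _ => map_ofNat sg n
  apply Matrix.ext
  intro i j
  fin_cases i <;> fin_cases j <;> simp [LL, h, sg_tt, sg_ss]
  · ring
  · ring
  · left; ring

theorem LL_one : LL.map ep = !![25, 7; 7, 2] := by
  have h : ∀ (n : ℕ) [n.AtLeastTwo], ep (OfNat.ofNat n) = OfNat.ofNat n :=
    fun n _ => map_ofNat ep n
  apply Matrix.ext
  intro i j
  fin_cases i <;> fin_cases j <;> simp [LL, h, ep_tt, ep_ss]

theorem not_iso (U : Matrix (Fin 2 ⊕ Fin 0) (Fin 2 ⊕ Fin 0) ℤ[T;T⁻¹]) (hU : IsUnit U.det) :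
    conjT U * Am 0 1 * U ≠ 1 := by
  intro hh
  have h11 : ∀ a : ℕ, 0 < a → a ≤ 10 → (a : ZMod 11) * ((1 : ℤ) : ZMod 11) ≠ 0 := by
    intro a ha ha' h
    rw [Int.cast_one, mul_one, ZMod.natCast_eq_zero_iff] at h
    have := Nat.le_of_dvd ha h
    omega
  refine not_isometric 11 1 h11 0 1 1 1 (one_mul 1) ?_ ⟨U, hU, hh⟩
  rw [Matrix.map_one _ (map_zero _) (map_one _), conjG_one, one_mul]

/-- The negation of the preceding statement: Suppose a nondegenerate Hermitian Laurent-polynomial form L has boundary linking form isometric to that of H2^g, L at t=1 equals Q plus 2g zeros, and L plus n H2's ≅ Q plus (g+n) H2's. Then L ≅ Q ⊕ H2^g. -/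
theorem result :
    ¬ (∀ (σ : LaurentPolynomial ℤ →+* LaurentPolynomial ℤ) (ε : LaurentPolynomial ℤ →+* ℤ),
      σ (T 1) = T (-1) → ε (T 1) = 1 →
      ∀ (H2 : Matrix (Fin 2) (Fin 2) (LaurentPolynomial ℤ)),
        H2 = !![0, T 1 - 1; T (-1) - 1, 0] →
      ∀ (k : ℕ) (Q : Matrix (Fin k) (Fin k) ℤ), Qᵀ = Q → IsUnit Q.det →
      ∀ (g r : ℕ) (L : Matrix (Fin r) (Fin r) (LaurentPolynomial ℤ)),
        (L.map σ)ᵀ = L → L.det ≠ 0 →
        (∃ (P Q1 : Matrix (Fin 2 × Fin g) (Fin r) (LaurentPolynomial ℤ))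
            (P' Q2 : Matrix (Fin r) (Fin 2 × Fin g) (LaurentPolynomial ℤ))
            (S1 M : Matrix (Fin r) (Fin r) (LaurentPolynomial ℤ))
            (S2 : Matrix (Fin 2 × Fin g) (Fin 2 × Fin g) (LaurentPolynomial ℤ)),
            P * L = Matrix.blockDiagonal (fun _ : Fin g => H2) * Q1 ∧
            P' * Matrix.blockDiagonal (fun _ : Fin g => H2) = L * Q2 ∧
            P' * P = 1 + L * S1 ∧
            P * P' = 1 + Matrix.blockDiagonal (fun _ : Fin g => H2) * S2 ∧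
            (L.map (algebraMap (LaurentPolynomial ℤ) (FractionRing (LaurentPolynomial ℤ))))⁻¹
              - ((P.map σ)ᵀ).map (algebraMap (LaurentPolynomial ℤ) (FractionRing (LaurentPolynomial ℤ)))
                * ((Matrix.blockDiagonal (fun _ : Fin g => H2)).map
                    (algebraMap (LaurentPolynomial ℤ) (FractionRing (LaurentPolynomial ℤ))))⁻¹
                * P.map (algebraMap (LaurentPolynomial ℤ) (FractionRing (LaurentPolynomial ℤ)))
              = M.map (algebraMap (LaurentPolynomial ℤ) (FractionRing (LaurentPolynomial ℤ)))) →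
        (∃ (P : Matrix (Fin r) (Fin k ⊕ Fin 2 × Fin g) ℤ)
            (P' : Matrix (Fin k ⊕ Fin 2 × Fin g) (Fin r) ℤ),
            P * P' = 1 ∧ P' * P = 1 ∧
            Pᵀ * L.map ε * P = Matrix.fromBlocks Q 0 0 0) →
        (∃ (n : ℕ) (P : Matrix (Fin r ⊕ Fin 2 × Fin n) (Fin k ⊕ Fin 2 × Fin (g + n)) (LaurentPolynomial ℤ))
            (P' : Matrix (Fin k ⊕ Fin 2 × Fin (g + n)) (Fin r ⊕ Fin 2 × Fin n) (LaurentPolynomial ℤ)),
            P * P' = 1 ∧ P' * P = 1 ∧
            (P.map σ)ᵀ * Matrix.fromBlocks L 0 0 (Matrix.blockDiagonal (fun _ : Fin n => H2)) * P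
              = Matrix.fromBlocks (Q.map (Int.castRingHom (LaurentPolynomial ℤ))) 0 0
                  (Matrix.blockDiagonal (fun _ : Fin (g + n) => H2))) →
        ∃ (P : Matrix (Fin r) (Fin k ⊕ Fin 2 × Fin g) (LaurentPolynomial ℤ))
          (P' : Matrix (Fin k ⊕ Fin 2 × Fin g) (Fin r) (LaurentPolynomial ℤ)),
          P * P' = 1 ∧ P' * P = 1 ∧
          (P.map σ)ᵀ * L * P
            = Matrix.fromBlocks (Q.map (Int.castRingHom (LaurentPolynomial ℤ))) 0 0
                (Matrix.blockDiagonal (fun _ : Fin g => H2))) := by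
  intro H
  have h0 := H sg ep sg_tt ep_tt HH rfl 2 1 (by simp) (by simp) 0 2 LL LL_herm
    (by rw [LL_det]; exact one_ne_zero) ?_ ?_ ?_
  · -- the contradiction
    obtain ⟨P, P', h1, h2, h3⟩ := h0
    let e1 : Fin 2 ⊕ Fin 0 ≃ Fin 2 := Equiv.sumEmpty (Fin 2) (Fin 0)
    let e2 : Fin 2 ⊕ Fin 0 ≃ Fin 2 ⊕ Fin 2 × Fin 0 :=
      (Equiv.refl (Fin 2)).sumCongr (Equiv.equivOfIsEmpty (Fin 0) (Fin 2 × Fin 0))
    set U : Matrix (Fin 2 ⊕ Fin 0) (Fin 2 ⊕ Fin 0) ℤ[T;T⁻¹] := P.submatrix e1 e2 with hUdef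
    have hU : U * P'.submatrix e2 e1 = 1 := by
      rw [hUdef, Matrix.submatrix_mul_equiv, h1, Matrix.submatrix_one_equiv]
    have hdet : IsUnit U.det := by
      have := congrArg Matrix.det hU
      rw [Matrix.det_mul, Matrix.det_one] at this
      exact IsUnit.of_mul_eq_one _ this
    refine not_iso U hdet ?_
    have hA : Am 0 1 = LL.submatrix e1 e1 := by
      apply Matrix.ext
      rintro (i | i) (j | j)
      · rw [LL_eq]; rfl
      · exact j.elim0
      · exact i.elim0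
      · exact i.elim0
    have hc : conjT U = (P.map sg)ᵀ.submatrix e2 e1 := rfl
    rw [hA, hc, hUdef, Matrix.submatrix_mul_equiv, Matrix.submatrix_mul_equiv, h3]
    apply Matrix.ext
    rintro (i | i) (j | j)
    · fin_cases i <;> fin_cases j <;> simp [e2]
    · exact j.elim0
    · exact i.elim0
    · exact i.elim0
  · -- the boundary linking form
    refine ⟨0, 0, 0, 0, -LL.adjugate, LL.adjugate, 0, ?_, ?_, ?_, ?_, ?_⟩
    · simp
    · simp
    · rw [Matrix.mul_neg, Matrix.mul_adjugate, LL_det]; simp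
    · apply Matrix.ext
      rintro ⟨_, k⟩
      exact k.elim0
    · have h1 : (LL.map (algebraMap ℤ[T;T⁻¹] (FractionRing ℤ[T;T⁻¹])))⁻¹ =
          LL.adjugate.map (algebraMap ℤ[T;T⁻¹] (FractionRing ℤ[T;T⁻¹])) := by
        apply Matrix.inv_eq_right_inv
        rw [← Matrix.map_mul, Matrix.mul_adjugate, LL_det, one_smul,
          Matrix.map_one _ (map_zero _) (map_one _)]
      rw [h1]
      simp
  · -- the value at one
    let e : Fin 2 ⊕ Fin 2 × Fin 0 ≃ Fin 2 := Equiv.sumEmpty (Fin 2) (Fin 2 × Fin 0)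
    refine ⟨(!![-1, 1; 4, -3] : Matrix (Fin 2) (Fin 2) ℤ).submatrix (Equiv.refl _) e,
      (!![3, 1; 4, 1] : Matrix (Fin 2) (Fin 2) ℤ).submatrix e (Equiv.refl _), ?_, ?_, ?_⟩
    · rw [Matrix.submatrix_mul_equiv]
      decide +kernel
    · rw [Matrix.submatrix_mul_equiv]
      have h1 : (!![3, 1; 4, 1] : Matrix (Fin 2) (Fin 2) ℤ) * !![-1, 1; 4, -3] = 1 := by
        decide +kernel
      rw [h1, Matrix.submatrix_one_equiv]
    · rw [LL_one]
      have h1 : (!![-1, 1; 4, -3] : Matrix (Fin 2) (Fin 2) ℤ)ᵀ * !![25, 7; 7, 2] *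
          !![-1, 1; 4, -3] = 1 := by
        decide +kernel
      have h2 : (!![25, 7; 7, 2] : Matrix (Fin 2) (Fin 2) ℤ) =
          (!![25, 7; 7, 2] : Matrix (Fin 2) (Fin 2) ℤ).submatrix (Equiv.refl _) (Equiv.refl _) := rfl
      rw [h2, Matrix.transpose_submatrix, Matrix.submatrix_mul_equiv, Matrix.submatrix_mul_equiv,
        h1, Matrix.submatrix_one_equiv]
      apply Matrix.ext
      rintro (i | ⟨_, k⟩) (j | ⟨_, l⟩)
      · simp [Matrix.one_apply]
      · exact l.elim0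
      · exact k.elim0
      · exact k.elim0
  · -- stable isometry
    refine ⟨1, (PP tt ss).submatrix idx idx, (Pool.Agent.V11197.Stab.PI tt ss).submatrix idx idx,
      ?_, ?_, ?_⟩
    · rw [Matrix.submatrix_mul_equiv, inv1 _ _ tt_ss, Matrix.submatrix_one_equiv]
    · rw [Matrix.submatrix_mul_equiv, inv2 _ _ tt_ss, Matrix.submatrix_one_equiv]
    · have h1 : (((PP tt ss).submatrix idx idx).map sg)ᵀ = ((PP ss tt)ᵀ).submatrix idx idx := by
        have h2 : ((PP tt ss).submatrix idx idx).map sg = ((PP tt ss).map sg).submatrix idx idx := rfl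
        rw [h2, PP_map, sg_tt, sg_ss, Matrix.transpose_submatrix]
      have h3 := gramI_block
      rw [h1, gramL_block, Matrix.submatrix_mul_equiv, Matrix.submatrix_mul_equiv, isom _ _ tt_ss]
      exact h3.symm

end Pool.Agent.S13092
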