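import Pool.Statements.S13150
import Pool.Agent.V11215.AuthShift

set_option autoImplicit false
open Pool Pool.MP_4f0e62_gt

namespace Pool.Agent.S13150

/-- the copies are locally homeomorphic to the space -/
theorem local_model (N : Type) [TopologicalSpace N] (x : ℕ × N) :
    ∃ V : Set (ℕ × N), IsOpen V ∧ x ∈ V ∧ ∃ U : Set N, IsOpen U ∧ Nonempty (V ≃ₜ U) := by
  refine ⟨{p | p.1 = x.1}, ?_, rfl, Set.univ, isOpen_univ, ⟨?_⟩⟩
  · exact (isOpen_discrete ({x.1} : Set ℕ)).preimage continuous_fst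
  · exact
      { toFun := fun p => ⟨p.1.2, Set.mem_univ _⟩
        invFun := fun y => ⟨(x.1, y.1), rfl⟩
        left_inv := by
          rintro ⟨⟨i, y⟩, h⟩
          have h' : i = x.1 := h
          subst h'
          rfl
        right_inv := fun _ => rfl
        continuous_toFun := by fun_prop
        continuous_invFun := by fun_prop }

/-- The negation of the preceding statement: For every n ≥ 1 and every nonempty separable metrizable space locally homeomorphic to open subsets of the n-dimensional Menger compactum, its homeomorphism group with the compact-open topology is homeomorphic to complete Erdős space. -/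
theorem result :
    ¬ (∀ (n : ℕ), 1 ≤ n →
    ∀ (M : Type) [TopologicalSpace M] [TopologicalSpace.MetrizableSpace M]
      [TopologicalSpace.SeparableSpace M] [Nonempty M],
      (∀ x : M, ∃ V : Set M, IsOpen V ∧ x ∈ V ∧
        ∃ U : Set {y : Fin (2 * n + 1) → ℝ |
            ∀ k : ℕ, ∃ a : Fin (2 * n + 1) → ℕ,
              (∀ i, a i < 3 ^ k ∧ (a i : ℝ) / 3 ^ k ≤ y i ∧ y i ≤ ((a i : ℝ) + 1) / 3 ^ k) ∧
              ∀ j < k, (Finset.univ.filter (fun i => a i / 3 ^ j % 3 = 1)).card ≤ n},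
          IsOpen U ∧ Nonempty (V ≃ₜ U)) →
      Nonempty (@Homeomorph (M ≃ₜ M)
        {x : lp (fun _ : ℕ => ℝ) 2 | ∀ i : ℕ, (x : ℕ → ℝ) i = 0 ∨
            ∃ k : ℕ, 0 < k ∧ (x : ℕ → ℝ) i = 1 / (k : ℝ)}
        (TopologicalSpace.induced (fun g : M ≃ₜ M => ContinuousMap.mk (⇑g) g.continuous)
          inferInstance)
        inferInstance)) := by
  intro H
  have hT : Nonempty {y : Fin (2 * 1 + 1) → ℝ |
            ∀ k : ℕ, ∃ a : Fin (2 * 1 + 1) → ℕ,
              (∀ i, a i < 3 ^ k ∧ (a i : ℝ) / 3 ^ k ≤ y i ∧ y i ≤ ((a i : ℝ) + 1) / 3 ^ k) ∧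
              ∀ j < k, (Finset.univ.filter (fun i => a i / 3 ^ j % 3 = 1)).card ≤ 1} := by
    refine ⟨⟨fun _ => 0, fun k => ⟨fun _ => 0, fun i => ⟨by positivity, by simp, by positivity⟩,
      fun j _ => ?_⟩⟩⟩
    simp
  refine Pool.Agent.V11215.AuthShift.not_homeomorphic
    {y : Fin (2 * 1 + 1) → ℝ |
            ∀ k : ℕ, ∃ a : Fin (2 * 1 + 1) → ℕ,
              (∀ i, a i < 3 ^ k ∧ (a i : ℝ) / 3 ^ k ≤ y i ∧ y i ≤ ((a i : ℝ) + 1) / 3 ^ k) ∧
              ∀ j < k, (Finset.univ.filter (fun i => a i / 3 ^ j % 3 = 1)).card ≤ 1} ?_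
  exact H 1 le_rfl (ℕ × {y : Fin (2 * 1 + 1) → ℝ |
            ∀ k : ℕ, ∃ a : Fin (2 * 1 + 1) → ℕ,
              (∀ i, a i < 3 ^ k ∧ (a i : ℝ) / 3 ^ k ≤ y i ∧ y i ≤ ((a i : ℝ) + 1) / 3 ^ k) ∧
              ∀ j < k, (Finset.univ.filter (fun i => a i / 3 ^ j % 3 = 1)).card ≤ 1})
    (fun x => local_model _ x)

end Pool.Agent.S13150
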