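import Pool.Statements.S13155
import Pool.Agent.V11281.F4.Yam

set_option autoImplicit false
open Pool Pool.MP_5008c3_gt

namespace Pool.Agent.S13155

/-- For every metrizable space X whose non-isolated points form a compact set, the subspace of the free topological group on X of elements of reduced length at most 4 is Fréchet–Urysohn. -/
theorem result :
    ∀ (X : Type) [τ : TopologicalSpace X] [TopologicalSpace.MetrizableSpace X],
      IsCompact {x : X | ¬ IsOpen ({x} : Set X)} →
      @FrechetUrysohnSpace
        {w : FreeGroup X // ∃ L : List (X × Bool), L.length ≤ 4 ∧ FreeGroup.mk L = w}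
        (TopologicalSpace.induced Subtype.val
          (sInf {t : GroupTopology (FreeGroup X) |
            @Continuous X (FreeGroup X) τ t.toTopologicalSpace FreeGroup.of}).toTopologicalSpace) := by
  intro X τ hmet hK
  classical
  have hset : {t : GroupTopology (FreeGroup X) |
      @Continuous X (FreeGroup X) τ t.toTopologicalSpace FreeGroup.of} =
      {b : GroupTopology (FreeGroup X) |
        TopologicalSpace.coinduced FreeGroup.of τ ≤ b.toTopologicalSpace} := by
    ext t
    exact continuous_iff_coinduced_le
  rw [hset]
  letI : MetricSpace X := TopologicalSpace.metrizableSpaceMetric X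
  have key := @Pool.Agent.V11281.F4.Yam.yamada X _ hK
  change @FrechetUrysohnSpace
    {w : Pool.Agent.V11281.F4.FT X // ∃ L : List (X × Bool), L.length ≤ 4 ∧ FreeGroup.mk L = w}
    (TopologicalSpace.induced Subtype.val
      (inferInstance : TopologicalSpace (Pool.Agent.V11281.F4.FT X)))
  constructor
  intro s a ha
  have h1 : (a : Pool.Agent.V11281.F4.FT X) ∈ closure (Subtype.val '' s) :=
    (closure_subtype.1 ha)
  have h2 : Subtype.val '' s ⊆ Pool.Agent.V11281.F4.Fn X 4 := by
    rintro _ ⟨⟨w, L, hL, hw⟩, -, rfl⟩
    change (FreeGroup.toWord (w : FreeGroup X)).length ≤ 4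
    rw [← hw]
    exact (FreeGroup.norm_mk_le (L₁ := L)).trans hL
  obtain ⟨t, ht, hta⟩ := key h2 h1
  choose t' ht' htt using ht
  refine ⟨t', ht', ?_⟩
  rw [Topology.IsInducing.subtypeVal.tendsto_nhds_iff]
  refine hta.congr fun n => ?_
  exact (htt n).symm

end Pool.Agent.S13155
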