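import Pool.Statements.S13204
import Pool.Agent.V11214.Semi2

set_option autoImplicit false
open Pool Pool.MP_58de27_gt

namespace Pool.Agent.S13204

open Pool.Agent.V11214 Pool.Agent.V11214.Semi

lemma surj (z : T) : z ∈ Prod.fst '' N := by
  have hz : ‖(z:ℂ)‖ = 1 := mem_sphere_zero_iff_norm.1 z.2
  have h1 : (z:ℂ) = Complex.exp (Complex.arg z * Complex.I) := by
    have := Complex.norm_mul_exp_arg_mul_I (z:ℂ)
    rw [hz] at this
    simpa using this.symm
  have hpi := Real.pi_pos
  have h2 := Complex.neg_pi_lt_arg (z:ℂ)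
  have h3 := Complex.arg_le_pi (z:ℂ)
  set s : ℝ := Complex.arg z / (2 * Real.pi) with hs
  have h4 : e s = z := by
    apply Subtype.ext
    unfold e
    simp only
    rw [h1]
    congr 2
    rw [hs]
    congr 1
    field_simp
  have h5 : -(1/2) < s := by
    rw [hs, lt_div_iff₀ (by positivity)]; linarith
  have h6 : s ≤ 1/2 := by
    rw [hs, div_le_iff₀ (by positivity)]; linarith
  by_cases h : 1/4 ≤ s
  · exact ⟨_, ⟨s, ⟨h, by linarith⟩, rfl⟩, h4⟩
  · push Not at h
    refine ⟨_, ⟨s + 1, ⟨by linarith, by linarith⟩, rfl⟩, ?_⟩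
    simp only
    rw [← h4, e_eq_iff]
    exact ⟨1, by push_cast; ring⟩

lemma homeo_univ {X : Type} (τ τ' : TopologicalSpace X) (h : τ' = τ) :
    Nonempty (@Homeomorph ↥(Set.univ : Set X) X (@instTopologicalSpaceSubtype X _ τ') τ) := by
  subst h; exact ⟨Homeomorph.Set.univ X⟩

/-- The negation of the preceding statement: For every simple closed curve C in a metric space, the span of C (sup of ε with a connected Z in C×C, equal projections, all pairs at distance ≥ ε) equals the semi-span (same, second projection contained in first). -/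
theorem result :
    ¬ (∀ (X : Type) [MetricSpace X] (C : Set X),
      Nonempty (↥C ≃ₜ ↥(Metric.sphere (0 : ℂ) 1)) →
      sSup {ε : ℝ | ∃ Z : Set (X × X), Z ⊆ C ×ˢ C ∧ IsConnected Z ∧
          Prod.fst '' Z = Prod.snd '' Z ∧ ∀ p ∈ Z, ε ≤ dist p.1 p.2}
        = sSup {ε : ℝ | ∃ Z : Set (X × X), Z ⊆ C ×ˢ C ∧ IsConnected Z ∧
          Prod.snd '' Z ⊆ Prod.fst '' Z ∧ ∀ p ∈ Z, ε ≤ dist p.1 p.2}) := by
  intro H
  obtain ⟨m', η, hη, htop, hle, _, hN, hno⟩ := exists_metric
  have hH := @H T m' Set.univ (homeo_univ _ _ htop)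
  have hcongr := fun Z => Remet.isConnected_prod_congr (X := T) inferInstance
    m'.toPseudoMetricSpace.toUniformSpace.toTopologicalSpace htop Z
  -- the right-hand side is at least 1
  have hR : (1:ℝ) ≤ sSup {ε : ℝ | ∃ Z : Set (T × T), Z ⊆ Set.univ ×ˢ Set.univ ∧
      @IsConnected (T × T) (@instTopologicalSpaceProd T T
        m'.toPseudoMetricSpace.toUniformSpace.toTopologicalSpace
        m'.toPseudoMetricSpace.toUniformSpace.toTopologicalSpace) Z ∧
          Prod.snd '' Z ⊆ Prod.fst '' Z ∧ ∀ p ∈ Z, ε ≤ m'.dist p.1 p.2} := by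
    apply le_csSup
    · refine ⟨1, ?_⟩
      rintro ε ⟨Z, _, hZ, _, hd⟩
      obtain ⟨p, hp⟩ := ((hcongr Z).1 hZ).nonempty
      exact (hd p hp).trans (hle _ _)
    · refine ⟨N, fun p _ => ⟨trivial, trivial⟩, (hcongr N).2 connected_N, fun z _ => surj z,
        fun p hp => (hN p hp).ge⟩
  -- the left-hand side is at most 1 - η
  have hL : sSup {ε : ℝ | ∃ Z : Set (T × T), Z ⊆ Set.univ ×ˢ Set.univ ∧
      @IsConnected (T × T) (@instTopologicalSpaceProd T T
        m'.toPseudoMetricSpace.toUniformSpace.toTopologicalSpace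
        m'.toPseudoMetricSpace.toUniformSpace.toTopologicalSpace) Z ∧
          Prod.fst '' Z = Prod.snd '' Z ∧ ∀ p ∈ Z, ε ≤ m'.dist p.1 p.2} ≤ 1 - η := by
    apply csSup_le
    · refine ⟨0, {(e 0, e 0)}, fun p _ => ⟨trivial, trivial⟩, (hcongr _).2 isConnected_singleton,
        by simp, ?_⟩
      intro p hp
      have := @dist_nonneg T m'.toPseudoMetricSpace p.1 p.2
      exact this
    · rintro ε ⟨Z, _, hZ, hpr, hd⟩
      by_contra hcon
      push Not at hcon
      exact hno Z ((hcongr Z).1 hZ) hpr (fun p hp => hcon.trans_le (hd p hp))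
  have : (1:ℝ) ≤ 1 - η := by
    calc (1:ℝ) ≤ _ := hR
      _ = _ := hH.symm
      _ ≤ 1 - η := hL
  linarith

end Pool.Agent.S13204
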