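import Pool.Statements.S13210
import Pool.Agent.V11187.ZonoMain

set_option autoImplicit false
open MeasureTheory
open scoped Pointwise
open Pool Pool.MP_598757_gt

namespace Pool.Agent.S13210

/-- The negation of the preceding statement: For every convex body K in 3-space and real c: if every orthogonal plane projection has isoperimetric ratio π·area/V₁² at least c, then 9π·vol(K)²/(2·V₂(K)³) is at least c (V₁, V₂ given via Steiner-formula limits). -/
theorem result :
    ¬ (∀ (K : Set (EuclideanSpace ℝ (Fin 3))) (c : ℝ),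
    IsCompact K → Convex ℝ K → (interior K).Nonempty →
    (∀ u ∈ Metric.sphere (0 : EuclideanSpace ℝ (Fin 3)) 1, ∀ L : ℝ,
      Filter.Tendsto (fun t : ℝ =>
        ((volume ((fun x : EuclideanSpace ℝ (Fin 3) => x - (inner ℝ u x) • u) '' K
              + Metric.closedBall (0 : EuclideanSpace ℝ (Fin 3)) t)).toReal
          - 2 * t * ((volume (K + segment ℝ (0 : EuclideanSpace ℝ (Fin 3)) u)).toReal
              - (volume K).toReal)) / (Real.pi * t ^ 2))
        (nhdsWithin 0 (Set.Ioi 0)) (nhds L) →
      c ≤ Real.pi * ((volume (K + segment ℝ (0 : EuclideanSpace ℝ (Fin 3)) u)).toReal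
              - (volume K).toReal) / L ^ 2) →
    ∀ S : ℝ,
      Filter.Tendsto (fun t : ℝ =>
        ((volume (K + Metric.closedBall (0 : EuclideanSpace ℝ (Fin 3)) t)).toReal
          - (volume K).toReal) / (2 * t))
        (nhdsWithin 0 (Set.Ioi 0)) (nhds S) →
      c ≤ 9 * Real.pi * (volume K).toReal ^ 2 / (2 * S ^ 3)) := by
  -- the unit cube: every shadow has planar ratio at least `pi / 5.8`, the spatial ratio is `pi / 6`
  intro H
  have h := H Pool.Agent.V11187.Zono.Cube (Real.pi / 5.8) Pool.Agent.V11187.Zono.cube_compact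
    Pool.Agent.V11187.Zono.cube_convex Pool.Agent.V11187.Zono.cube_interior ?_ 3
    Pool.Agent.V11187.Zono.surface_limit
  · rw [Pool.Agent.V11187.Zono.vol_cube] at h
    have hpi := Real.pi_pos
    norm_num at h
    linarith
  · intro u hu L hL
    have hu1 : ‖u‖ = 1 := by simpa using hu
    have hlim := Pool.Agent.V11187.Zono.width_limit u hu1
    have hLe : L = Pool.Agent.V11187.Zono.sV u := tendsto_nhds_unique hL hlim
    have hpos := Pool.Agent.V11187.Zono.sV_pos hu1
    have hA := Pool.Agent.V11187.Zono.vol_swept hu1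
    unfold Pool.Agent.Helper873.PBody.V at hA
    have hineq := Pool.Agent.V11187.Zono.main_ineq hu1
    have hpi := Real.pi_pos
    have hA2 : (volume (Pool.Agent.V11187.Zono.Cube +
        segment ℝ (0 : EuclideanSpace ℝ (Fin 3)) u)).toReal -
        (volume Pool.Agent.V11187.Zono.Cube).toReal = Pool.Agent.V11187.Zono.sA u := by
      rw [hA]; ring
    rw [hA2, hLe, div_le_div_iff₀ (by norm_num) (by positivity)]
    nlinarith [mul_le_mul_of_nonneg_left hineq hpi.le]

end Pool.Agent.S13210
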