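import Pool.Statements.S13574
import Pool.Agent.V11218.CpT

set_option autoImplicit false
open Pool Pool.MP_916210_gt

namespace Pool.Agent.S13574

/-- The negation of the preceding statement: For every infinite Tychonoff space X: if C_p(X) is linearly homeomorphic to C_p(X ⊕ A) for each subspace A with a continuous linear extender, then C_p(X × convergent sequence) is linearly homeomorphic to C_p(X). -/
theorem result :
    ¬ (∀ (X : Type) [TopologicalSpace X] [T35Space X] [Infinite X],
      (∀ A : Set X,
        (∃ φ : C(A, ℝ) →ₗ[ℝ] C(X, ℝ),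
          @Continuous _ _
            (TopologicalSpace.induced (fun f : C(A, ℝ) => (f : A → ℝ)) inferInstance)
            (TopologicalSpace.induced (fun f : C(X, ℝ) => (f : X → ℝ)) inferInstance)
            (⇑φ) ∧
          ∀ f : C(A, ℝ), ∀ a : A, φ f a = f a) →
        ∃ e : C(X, ℝ) ≃ₗ[ℝ] C(X ⊕ A, ℝ),
          @Continuous _ _
            (TopologicalSpace.induced (fun f : C(X, ℝ) => (f : X → ℝ)) inferInstance)
            (TopologicalSpace.induced (fun f : C(X ⊕ A, ℝ) => (f : X ⊕ A → ℝ)) inferInstance)
            (⇑e) ∧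
          @Continuous _ _
            (TopologicalSpace.induced (fun f : C(X ⊕ A, ℝ) => (f : X ⊕ A → ℝ)) inferInstance)
            (TopologicalSpace.induced (fun f : C(X, ℝ) => (f : X → ℝ)) inferInstance)
            (⇑e.symm)) →
      ∃ e : C(X × OnePoint ℕ, ℝ) ≃ₗ[ℝ] C(X, ℝ),
        @Continuous _ _
          (TopologicalSpace.induced (fun f : C(X × OnePoint ℕ, ℝ) => (f : X × OnePoint ℕ → ℝ)) inferInstance)
          (TopologicalSpace.induced (fun f : C(X, ℝ) => (f : X → ℝ)) inferInstance)
          (⇑e) ∧
        @Continuous _ _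
          (TopologicalSpace.induced (fun f : C(X, ℝ) => (f : X → ℝ)) inferInstance)
          (TopologicalSpace.induced (fun f : C(X × OnePoint ℕ, ℝ) => (f : X × OnePoint ℕ → ℝ)) inferInstance)
          (⇑e.symm)) :=
  fun H => Pool.Agent.V11218.CpT.main H

end Pool.Agent.S13574
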