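import Pool.Statements.S13589
import Pool.Agent.V11216.SqCorner

set_option autoImplicit false
open Pool Pool.MP_93ef73_gt
open Pool.Agent.V11216.SqComb Pool.Agent.V11216.SqMain Pool.Agent.V11216.SqBound
open Pool.Agent.V11216.SqSets Pool.Agent.V11216.SqCorner

namespace Pool.Agent.S13589

/-- There exist d, a nonempty compact totally disconnected A in R^d with two distinct Steiner trees S, T, no terminal interior to segments in both, and nonempty compact M (∣M∣=∣A∣ if A finite) and r>0 with S an r-minimizer for M. -/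
theorem result :
  ∃ (d : ℕ) (A S T M : Set (EuclideanSpace ℝ (Fin d))) (r : ℝ),
    IsCompact A ∧ A.Nonempty ∧ IsTotallyDisconnected A ∧
    (IsCompact S ∧ IsConnected S ∧ A ⊆ S ∧
      MeasureTheory.Measure.hausdorffMeasure 1 S < ⊤ ∧
      ∀ S' : Set (EuclideanSpace ℝ (Fin d)), IsCompact S' → IsConnected S' → A ⊆ S' →
        MeasureTheory.Measure.hausdorffMeasure 1 S ≤ MeasureTheory.Measure.hausdorffMeasure 1 S') ∧
    (IsCompact T ∧ IsConnected T ∧ A ⊆ T ∧
      MeasureTheory.Measure.hausdorffMeasure 1 T < ⊤ ∧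
      ∀ S' : Set (EuclideanSpace ℝ (Fin d)), IsCompact S' → IsConnected S' → A ⊆ S' →
        MeasureTheory.Measure.hausdorffMeasure 1 T ≤ MeasureTheory.Measure.hausdorffMeasure 1 S') ∧
    S ≠ T ∧
    IsCompact M ∧ M.Nonempty ∧ 0 < r ∧
    (A.Finite → M.Finite ∧ M.ncard = A.ncard) ∧
    (¬ ∃ a ∈ A,
        (∃ x y : EuclideanSpace ℝ (Fin d), x ≠ y ∧ segment ℝ x y ⊆ S ∧ a ∈ openSegment ℝ x y) ∧
        (∃ x y : EuclideanSpace ℝ (Fin d), x ≠ y ∧ segment ℝ x y ⊆ T ∧ a ∈ openSegment ℝ x y)) ∧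
    (∀ y ∈ M, Metric.infDist y S ≤ r) ∧
    ∀ W : Set (EuclideanSpace ℝ (Fin d)), IsCompact W → IsConnected W →
      (∀ y ∈ M, Metric.infDist y W ≤ r) →
        MeasureTheory.Measure.hausdorffMeasure 1 S ≤ MeasureTheory.Measure.hausdorffMeasure 1 W := by
  classical
  refine ⟨2, Set.range At, SS, TT, Set.range Mt, rr, (Set.finite_range At).isCompact,
    Set.range_nonempty At, (Set.countable_range At).isTotallyDisconnected,
    ⟨SS_compact, SS_conn, ?_, ?_, ?_⟩, ⟨TT_compact, TT_conn, ?_, ?_, ?_⟩, SS_ne_TT,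
    (Set.finite_range Mt).isCompact, Set.range_nonempty Mt, rr_pos, ?_, ?_, ?_, ?_⟩
  · rintro _ ⟨i, rfl⟩; exact A_sub_S i
  · exact lt_of_le_of_lt SS_len ENNReal.ofReal_lt_top
  · intro W hW hc hA
    exact SS_len.trans (min_of_sub W hW hc fun i => hA ⟨i, rfl⟩)
  · rintro _ ⟨i, rfl⟩; exact A_sub_T i
  · exact lt_of_le_of_lt TT_len ENNReal.ofReal_lt_top
  · intro W hW hc hA
    exact TT_len.trans (min_of_sub W hW hc fun i => hA ⟨i, rfl⟩)
  · intro _
    refine ⟨Set.finite_range Mt, ?_⟩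
    rw [Set.ncard_range_of_injective Mt_inj, Set.ncard_range_of_injective At_inj]
  · rintro ⟨_, ⟨⟨x, y, z⟩, rfl⟩, h1, h2⟩
    cases z
    · exact inner_not x y h2
    · exact outer_not x y h1
  · rintro _ ⟨i, rfl⟩
    exact infDist_SS i
  · intro W hW hc hM
    exact SS_len.trans (min_of_M W hW hc fun i => hM _ ⟨i, rfl⟩)

end Pool.Agent.S13589
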