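import Pool.Statements.S13772
import Pool.Agent.V11192.Sine.Basic

set_option autoImplicit false
open Pool Pool.MP_b1ea19_gt

namespace Pool.Agent.S13772

open Topology Filter Set Pool.Agent.V11192.Sine

/-- Removing a point in the interior of the range of a coordinate function separates. -/
theorem not_preconn {X : Type} [TopologicalSpace X] (g : X → ℝ) (hg : Continuous g) (C : Set X)
    (p : X) (hinj : ∀ q ∈ C, g q = g p → q = p)
    (hlo : ∃ q ∈ C, g q < g p) (hhi : ∃ q ∈ C, g p < g q) :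
    ¬ IsPreconnected (C \ {p}) := by
  intro h
  have h1 : IsPreconnected (g '' (C \ {p})) := h.image g hg.continuousOn
  obtain ⟨q1, hq1, hl⟩ := hlo
  obtain ⟨q2, hq2, hr⟩ := hhi
  have h2 := h1.Icc_subset
    (show g q1 ∈ g '' (C \ {p}) from ⟨q1, ⟨hq1, fun hh => by
      rw [Set.mem_singleton_iff] at hh; rw [hh] at hl; exact lt_irrefl _ hl⟩, rfl⟩)
    (show g q2 ∈ g '' (C \ {p}) from ⟨q2, ⟨hq2, fun hh => by
      rw [Set.mem_singleton_iff] at hh; rw [hh] at hr; exact lt_irrefl _ hr⟩, rfl⟩)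
  obtain ⟨q, hq, hqe⟩ := h2 ⟨hl.le, hr.le⟩
  exact hq.2 (hinj q hq.1 hqe)

theorem sep_of {X : Type} [TopologicalSpace X] (g : X → ℝ) (hg : Continuous g) (C : Set X)
    (hC : IsPreconnected C) (p : X) (hp : p ∈ C) (hinj : ∀ q ∈ C, g q = g p → q = p)
    (hlo : ∃ q ∈ C, g q < g p) (hhi : ∃ q ∈ C, g p < g q) :
    p ∈ {p : X | p ∈ C ∧ ∃ V : Set X, IsOpen V ∧ p ∈ V ∧
          ¬ IsPreconnected (connectedComponentIn (V ∩ C) p \ {p})} := by
  refine ⟨hp, univ, isOpen_univ, mem_univ _, ?_⟩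
  rw [univ_inter, hC.connectedComponentIn hp]
  exact not_preconn g hg C p hinj hlo hhi

/-- The image of an open interval, inside `C` and dense in `C`, gives a connected set of local
separating points. -/
theorem main_aux {X : Type} [TopologicalSpace X] (L C : Set X) (hLC : L ⊆ C)
    (I : Set ℝ) (hI : IsPreconnected I) (c : ℝ → X) (hc : ContinuousOn c I)
    (h1 : ∀ t ∈ I, c t ∈ L) (h2 : C ⊆ closure (c '' I)) : IsPreconnected L := by
  refine IsPreconnected.subset_closure (hI.image c hc) ?_ (hLC.trans h2)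
  rintro _ ⟨t, ht, rfl⟩
  exact h1 t ht

/-- The curve part as a map into the subtype. -/
noncomputable def cc (t : ℝ) : K :=
  if h : t ∈ Ioc (0 : ℝ) 1 then ⟨(t, Real.sin t⁻¹), Or.inr ⟨h, rfl⟩⟩
  else ⟨(0, 0), Or.inl ⟨rfl, by simp⟩⟩

/-- The bar as a map into the subtype. -/
noncomputable def bb (t : ℝ) : K :=
  if h : t ∈ Icc (-1 : ℝ) 1 then ⟨(0, t), Or.inl ⟨rfl, h⟩⟩
  else ⟨(0, 0), Or.inl ⟨rfl, by simp⟩⟩

theorem cc_val {t : ℝ} (h : t ∈ Ioc (0 : ℝ) 1) : (cc t : ℝ × ℝ) = (t, Real.sin t⁻¹) := by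
  simp only [cc, dif_pos h]

theorem bb_val {t : ℝ} (h : t ∈ Icc (-1 : ℝ) 1) : (bb t : ℝ × ℝ) = (0, t) := by
  simp only [bb, dif_pos h]

theorem cc_cont : ContinuousOn cc (Ioc (0 : ℝ) 1) := by
  rw [continuousOn_iff_continuous_domRestrict]
  refine Continuous.congr (f := fun t : Ioc (0 : ℝ) 1 =>
    (⟨((t : ℝ), Real.sin (t : ℝ)⁻¹), Or.inr ⟨t.2, rfl⟩⟩ : K)) ?_ ?_
  · refine Continuous.subtype_mk ?_ _
    refine continuous_subtype_val.prodMk (Real.continuous_sin.comp ?_)
    exact continuous_subtype_val.inv₀ (fun t => t.2.1.ne')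
  · intro t
    apply Subtype.ext
    simp only [domRestrict_apply]
    rw [cc_val t.2]

theorem bb_cont : ContinuousOn bb (Icc (-1 : ℝ) 1) := by
  rw [continuousOn_iff_continuous_domRestrict]
  refine Continuous.congr (f := fun t : Icc (-1 : ℝ) 1 =>
    (⟨((0 : ℝ), (t : ℝ)), Or.inl ⟨rfl, t.2⟩⟩ : K)) ?_ ?_
  · refine Continuous.subtype_mk ?_ _
    exact continuous_const.prodMk continuous_subtype_val
  · intro t
    apply Subtype.ext
    simp only [domRestrict_apply]
    rw [bb_val t.2]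

theorem eq_cc {q : K} (h : 0 < q.1.1) : q = cc q.1.1 := by
  have h1 : q.1.1 ∈ Ioc (0 : ℝ) 1 := ⟨h, (fst_mem q.2).2⟩
  apply Subtype.ext
  rw [cc_val h1]
  exact Prod.ext rfl (mem_K_of_pos h q.2)

theorem eq_bb {q : K} (h : q.1.1 = 0) : q = bb q.1.2 := by
  apply Subtype.ext
  rw [bb_val (snd_mem q.2)]
  exact Prod.ext h rfl

theorem xc : Continuous (fun q : K => q.1.1) := continuous_fst.comp continuous_subtype_val
theorem yc : Continuous (fun q : K => q.1.2) := continuous_snd.comp continuous_subtype_val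

theorem preconn_L (C : Set K) (hC : IsCompact C) (hconn : IsConnected C) :
    IsPreconnected {p : K | p ∈ C ∧ ∃ V : Set K, IsOpen V ∧ p ∈ V ∧
          ¬ IsPreconnected (connectedComponentIn (V ∩ C) p \ {p})} := by
  classical
  -- extreme values of the first coordinate
  obtain ⟨qa, hqa, hmin⟩ := hC.exists_isMinOn hconn.nonempty xc.continuousOn
  obtain ⟨qb, hqb, hmax⟩ := hC.exists_isMaxOn hconn.nonempty xc.continuousOn
  have hmin' : ∀ q ∈ C, qa.1.1 ≤ q.1.1 := fun q hq => hmin hq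
  have hmax' : ∀ q ∈ C, q.1.1 ≤ qb.1.1 := fun q hq => hmax hq
  have ha0 : 0 ≤ qa.1.1 := (fst_mem qa.2).1
  have hb1 : qb.1.1 ≤ 1 := (fst_mem qb.2).2
  have hab : qa.1.1 ≤ qb.1.1 := hmin' qb hqb
  have hsub : ∀ q1 ∈ C, ∀ q2 ∈ C, Icc q1.1.1 q2.1.1 ⊆ (fun q : K => q.1.1) '' C := by
    intro q1 h1 q2 h2
    exact (hconn.isPreconnected.image _ xc.continuousOn).Icc_subset ⟨q1, h1, rfl⟩ ⟨q2, h2, rfl⟩
  rcases hab.eq_or_lt with heq | hlt
  · -- the first coordinate is constant on C
    have hconst : ∀ q ∈ C, q.1.1 = qa.1.1 := fun q hq =>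
      le_antisymm ((hmax' q hq).trans heq.ge) (hmin' q hq)
    rcases ha0.eq_or_lt with h0 | h0
    · -- C lies in the bar
      obtain ⟨qc, hqc, hminy⟩ := hC.exists_isMinOn hconn.nonempty yc.continuousOn
      obtain ⟨qd, hqd, hmaxy⟩ := hC.exists_isMaxOn hconn.nonempty yc.continuousOn
      have hminy' : ∀ q ∈ C, qc.1.2 ≤ q.1.2 := fun q hq => hminy hq
      have hmaxy' : ∀ q ∈ C, q.1.2 ≤ qd.1.2 := fun q hq => hmaxy hq
      have hbar : ∀ q ∈ C, q = bb q.1.2 := fun q hq => eq_bb ((hconst q hq).trans h0.symm)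
      have hcd : qc.1.2 ≤ qd.1.2 := hminy' qd hqd
      rcases hcd.eq_or_lt with heq2 | hlt2
      · apply Set.Subsingleton.isPreconnected
        rintro p ⟨hp, -⟩ q ⟨hq, -⟩
        have e1 : p.1.2 = q.1.2 := le_antisymm
          (((hmaxy' p hp).trans heq2.ge).trans (hminy' q hq))
          (((hmaxy' q hq).trans heq2.ge).trans (hminy' p hp))
        rw [hbar p hp, hbar q hq, e1]
      · have hIcc : Icc qc.1.2 qd.1.2 ⊆ Icc (-1 : ℝ) 1 :=
          Icc_subset_Icc (snd_mem qc.2).1 (snd_mem qd.2).2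
        refine main_aux _ C (fun p hp => hp.1) (Ioo qc.1.2 qd.1.2) isPreconnected_Ioo bb
          (bb_cont.mono (Ioo_subset_Icc_self.trans hIcc)) ?_ ?_
        · intro t ht
          have ht' : t ∈ Icc (-1 : ℝ) 1 := hIcc (Ioo_subset_Icc_self ht)
          have hval := bb_val ht'
          have hin : bb t ∈ C := by
            obtain ⟨q, hq, hqt⟩ := (hconn.isPreconnected.image _ yc.continuousOn).Icc_subset
              ⟨qc, hqc, rfl⟩ ⟨qd, hqd, rfl⟩ (Ioo_subset_Icc_self ht)
            simp only at hqt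
            rw [← hqt, ← hbar q hq]; exact hq
          refine sep_of (fun q : K => q.1.2) yc C hconn.isPreconnected _ hin ?_ ?_ ?_
          · intro q hq hqe
            simp only [hval] at hqe
            rw [hbar q hq, hqe]
          · refine ⟨qc, hqc, ?_⟩
            simp only [hval]; exact ht.1
          · refine ⟨qd, hqd, ?_⟩
            simp only [hval]; exact ht.2
        · intro q hq
          have hq2 : q.1.2 ∈ Icc qc.1.2 qd.1.2 := ⟨hminy' q hq, hmaxy' q hq⟩
          rw [hbar q hq]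
          have h3 : q.1.2 ∈ closure (Ioo qc.1.2 qd.1.2) := by
            rw [closure_Ioo hlt2.ne]; exact hq2
          refine ContinuousWithinAt.mem_closure_image ?_ h3
          exact (bb_cont _ (hIcc hq2)).mono (Ioo_subset_Icc_self.trans hIcc)
    · -- C is a single point of the curve
      apply Set.Subsingleton.isPreconnected
      rintro p ⟨hp, -⟩ q ⟨hq, -⟩
      have e1 := hconst p hp
      have e2 := hconst q hq
      rw [eq_cc (q := p) (by rw [e1]; exact h0), eq_cc (q := q) (by rw [e2]; exact h0), e1, e2]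
  · have hIoo : Ioo qa.1.1 qb.1.1 ⊆ Ioc (0 : ℝ) 1 := fun t ht =>
      ⟨ha0.trans_lt ht.1, ht.2.le.trans hb1⟩
    have hIoc : Ioc qa.1.1 qb.1.1 ⊆ Ioc (0 : ℝ) 1 := fun t ht =>
      ⟨ha0.trans_lt ht.1, ht.2.trans hb1⟩
    refine main_aux _ C (fun p hp => hp.1) (Ioo qa.1.1 qb.1.1) isPreconnected_Ioo cc
      (cc_cont.mono hIoo) ?_ ?_
    · intro t ht
      have ht' : t ∈ Ioc (0 : ℝ) 1 := hIoo ht
      have hval := cc_val ht'
      have hin : cc t ∈ C := by
        obtain ⟨q, hq, hqt⟩ := hsub qa hqa qb hqb (Ioo_subset_Icc_self ht)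
        simp only at hqt
        rw [← hqt, ← eq_cc (q := q) (by rw [hqt]; exact ht'.1)]; exact hq
      refine sep_of (fun q : K => q.1.1) xc C hconn.isPreconnected _ hin ?_ ?_ ?_
      · intro q hq hqe
        simp only [hval] at hqe
        rw [eq_cc (q := q) (by rw [hqe]; exact ht'.1), hqe]
      · refine ⟨qa, hqa, ?_⟩
        simp only [hval]; exact ht.1
      · refine ⟨qb, hqb, ?_⟩
        simp only [hval]; exact ht.2
    · intro q hq
      rcases (fst_mem q.2).1.eq_or_lt with h0 | h0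
      · -- q is in the bar, so qa has first coordinate 0
        have hqa0 : qa.1.1 = 0 := le_antisymm ((hmin' q hq).trans h0.symm.le) ha0
        have hy := snd_mem q.2
        have hev : ∀ᶠ n in atTop, xSeq q.1.2 n < qb.1.1 := by
          have : (0 : ℝ) < qb.1.1 := by rw [← hqa0]; exact hlt
          exact (xSeq_tendsto q.1.2).eventually (gt_mem_nhds this)
        refine mem_closure_of_tendsto (f := fun n : ℕ => cc (xSeq q.1.2 n)) (b := atTop) ?_ ?_
        · rw [tendsto_subtype_rng]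
          have e2 : (q : ℝ × ℝ) = (0, q.1.2) := Prod.ext h0.symm rfl
          rw [e2]
          have h5 : Tendsto (fun n : ℕ => (xSeq q.1.2 n, q.1.2)) atTop (𝓝 (0, q.1.2)) :=
            (xSeq_tendsto q.1.2).prodMk_nhds tendsto_const_nhds
          refine h5.congr' ?_
          filter_upwards [hev] with n hn
          have hmem : xSeq q.1.2 n ∈ Ioc (0 : ℝ) 1 := ⟨xSeq_pos _ _, hn.le.trans hb1⟩
          rw [cc_val hmem, sin_inv_xSeq hy]
        · filter_upwards [hev] with n hn
          exact ⟨_, ⟨by rw [hqa0]; exact xSeq_pos _ _, hn⟩, rfl⟩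
      · have hqm : q.1.1 ∈ Icc qa.1.1 qb.1.1 := ⟨hmin' q hq, hmax' q hq⟩
        rw [eq_cc h0]
        have h3 : q.1.1 ∈ closure (Ioo qa.1.1 qb.1.1) := by
          rw [closure_Ioo hlt.ne]; exact hqm
        refine ContinuousWithinAt.mem_closure_image ?_ h3
        exact (cc_cont _ ⟨h0, (fst_mem q.2).2⟩).mono hIoo

/-- The negation of the preceding statement: If X is a continuum in which every subcontinuum C has a connected set of local separating points, then any two distinct points of any connected subset of X are joined by an arc lying inside that subset. -/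
theorem result :
    ¬ (∀ (X : Type) [MetricSpace X] [CompactSpace X] [ConnectedSpace X],
      (∀ C : Set X, IsCompact C → IsConnected C →
        IsPreconnected {p : X | p ∈ C ∧ ∃ V : Set X, IsOpen V ∧ p ∈ V ∧
          ¬ IsPreconnected (connectedComponentIn (V ∩ C) p \ {p})}) →
      ∀ A : Set X, IsConnected A → ∀ x ∈ A, ∀ y ∈ A, x ≠ y →
        ∃ f : unitInterval → X, Continuous f ∧ Function.Injective f ∧
          f 0 = x ∧ f 1 = y ∧ Set.range f ⊆ A) := by
  intro H
  have : CompactSpace K := isCompact_iff_compactSpace.mp isCompact_K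
  have : ConnectedSpace K := isConnected_iff_connectedSpace.mp isConnected_K
  have hne : bb 0 ≠ cc 1 := by
    intro h
    have h1 : (bb 0 : ℝ × ℝ).1 = (cc 1 : ℝ × ℝ).1 := by rw [h]
    rw [bb_val (show (0 : ℝ) ∈ Icc (-1 : ℝ) 1 by simp),
      cc_val (show (1 : ℝ) ∈ Ioc (0 : ℝ) 1 by simp)] at h1
    simp at h1
  obtain ⟨f, hf, -, h0, h1, -⟩ := H K preconn_L univ isConnected_univ (bb 0) (mem_univ _)
    (cc 1) (mem_univ _) hne
  refine no_path (fun t => (f t : ℝ × ℝ)) (continuous_subtype_val.comp hf) (fun t => (f t).2) ?_ ?_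
  · simp only [h0, bb_val (show (0 : ℝ) ∈ Icc (-1 : ℝ) 1 by simp)]
  · simp only [h1, cc_val (show (1 : ℝ) ∈ Ioc (0 : ℝ) 1 by simp)]

end Pool.Agent.S13772
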