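import Pool.Statements.S14047
import Pool.Agent.V11218.AV

set_option autoImplicit false
open Pool Pool.MP_d985ac_gt

namespace Pool.Agent.S14047

/-- For a Tychonoff space X with a dense countable union of bounded sets, every countably compact set of continuous functions in C_p(X) is compact and embeds into c_0(Γ) with the pointwise topology, i.e. is Eberlein compact. -/
theorem result :
    ∀ (X : Type) [TopologicalSpace X] [T35Space X],
      (∃ A : ℕ → Set X,
          (∀ n, ∀ f : X → ℝ, Continuous f → ∃ C : ℝ, ∀ x ∈ A n, |f x| ≤ C) ∧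
          Dense (⋃ n, A n)) →
      ∀ K : Set (X → ℝ), (∀ f ∈ K, Continuous f) →
        (∀ U : ℕ → Set (X → ℝ), (∀ n, IsOpen (U n)) → K ⊆ ⋃ n, U n →
            ∃ N : ℕ, K ⊆ ⋃ n ∈ Finset.range N, U n) →
        IsCompact K ∧
          ∃ (Γ : Type) (e : K → (Γ → ℝ)), Topology.IsEmbedding e ∧
            ∀ k : K, ∀ ε : ℝ, 0 < ε → {γ : Γ | ε ≤ |e k γ|}.Finite := by
  intro X _ _ ⟨A, hA, hd⟩ K hK hcc
  have hCC : IsCountablyCompact K := by
    rw [isCountablyCompact_iff_countable_open_cover]
    intro U hU hKU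
    obtain ⟨N, hN⟩ := hcc U hU hKU
    exact ⟨Finset.range N, hN⟩
  have hseq : ∀ u : ℕ → K, ∃ p, MapClusterPt p Filter.atTop u := by
    intro u
    have h1 := isCountablyCompact_iff_isCountablyCompact_univ.1 hCC
    obtain ⟨p, -, hp⟩ := (isCountablyCompact_iff_seq_clusterPt.1 h1) u
      (Filter.Eventually.of_forall fun _ => Set.mem_univ _)
    exact ⟨p, hp⟩
  obtain ⟨h1, h2⟩ := Pool.Agent.V11218.AV.main A hA hd K hK hseq
  exact ⟨isCompact_iff_compactSpace.2 h1, h2⟩

end Pool.Agent.S14047
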