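import Pool.Statements.S14257
import Pool.Agent.V11198.CongHyp

set_option autoImplicit false
open Pool Pool.MP_f7c3cd_gt

namespace Pool.Agent.S14257

/-- Every proper system of at most continuum many congruences among at most continuum many (nonempty index set) sets has a solution: a partition of the hyperbolic plane where each congruence holds via some hyperbolic isometry. -/
theorem result :
    ∀ (I M : Type) (L R : M → Set I),
      Nonempty I →
      Cardinal.mk I ≤ Cardinal.continuum →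
      Cardinal.mk M ≤ Cardinal.continuum →
      (∀ i, (L i).Nonempty ∧ L i ≠ Set.univ ∧ (R i).Nonempty ∧ R i ≠ Set.univ) →
      ∃ A : I → Set UpperHalfPlane,
        Pairwise (fun j k => Disjoint (A j) (A k)) ∧
        (⋃ j, A j) = Set.univ ∧
        ∀ i, ∃ g : IsometryEquiv UpperHalfPlane UpperHalfPlane,
          g '' (⋃ j ∈ L i, A j) = ⋃ j ∈ R i, A j := by
  classical
  intro I M L R hI _ hM hproper
  -- a colouring gives a partition
  have hpart : ∀ c : UpperHalfPlane → I,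
      Pairwise (fun j k => Disjoint (c ⁻¹' {j}) (c ⁻¹' {k})) ∧
      (⋃ j, c ⁻¹' {j}) = Set.univ ∧ ∀ E : Set I, (⋃ j ∈ E, c ⁻¹' {j}) = c ⁻¹' E := by
    intro c
    refine ⟨?_, ?_, ?_⟩
    · intro j k hjk
      rw [Set.disjoint_left]
      intro x hx hx'
      exact hjk (hx.symm.trans hx')
    · ext x
      simp
    · intro E
      ext x
      simp
  rcases isEmpty_or_nonempty M with hem | ⟨⟨i0⟩⟩
  · obtain ⟨j0⟩ := hI
    obtain ⟨h1, h2, -⟩ := hpart fun _ => j0
    exact ⟨_, h1, h2, fun i => (hem.false i).elim⟩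
  obtain ⟨j0⟩ := id hI
  -- normalised sets contain `j0`
  let nrm : Set I → Set I := fun E => if j0 ∈ E then E else Eᶜ
  have hnrm0 : ∀ E, j0 ∈ nrm E := by
    intro E
    by_cases h : j0 ∈ E
    · simp [nrm, h]
    · simp [nrm, h]
  have hnrm1 : ∀ E, nrm E = E ∨ nrm E = Eᶜ := by
    intro E
    by_cases h : j0 ∈ E
    · left; simp [nrm, h]
    · right; simp [nrm, h]
  let f : M × Bool → Set I := fun p => if p.2 then nrm (L p.1) else nrm (R p.1)
  let T : Type := Set.range f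
  have hT : Cardinal.mk T ≤ Cardinal.continuum := by
    refine Cardinal.mk_range_le.trans ?_
    rw [Cardinal.mk_prod, Cardinal.lift_id, Cardinal.lift_id]
    refine (mul_le_mul' hM (show Cardinal.mk Bool ≤ Cardinal.continuum from ?_)).trans_eq
      Cardinal.continuum_mul_self
    exact (Cardinal.mk_le_aleph0).trans Cardinal.aleph0_le_continuum
  have hTmem : ∀ k : T, j0 ∈ (k : Set I) := by
    rintro ⟨_, ⟨⟨i, b⟩, rfl⟩⟩
    cases b
    · exact hnrm0 _
    · exact hnrm0 _
  have hprop : ∀ E : Set I, E.Nonempty → E ≠ Set.univ →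
      Pool.Agent.V11198.Cong.Proper (nrm E) := by
    intro E h1 h2
    have h3 : Eᶜ.Nonempty := by
      rw [Set.nonempty_compl]
      exact h2
    rcases hnrm1 E with h | h
    · rw [h]
      exact ⟨h1, h3⟩
    · rw [h]
      exact ⟨h3, by rwa [compl_compl]⟩
  have hTprop : ∀ k : T, Pool.Agent.V11198.Cong.Proper (k : Set I) := by
    rintro ⟨_, ⟨⟨i, b⟩, rfl⟩⟩
    cases b
    · exact hprop _ (hproper i).2.2.1 (hproper i).2.2.2
    · exact hprop _ (hproper i).1 (hproper i).2.1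
  let t0 : T := ⟨f (i0, true), ⟨_, rfl⟩⟩
  let E0 : Set I := (t0 : Set I)
  let RR : T → Set I := fun k => if k = t0 then E0ᶜ else k
  have hE : Pool.Agent.V11198.Cong.Proper E0 := hTprop t0
  have hRR : ∀ t, Pool.Agent.V11198.Cong.Proper (RR t) := by
    intro t
    by_cases h : t = t0
    · simp only [RR, h, if_true]
      exact ⟨hE.2, by rw [compl_compl]; exact hE.1⟩
    · simp only [RR, h, if_false]
      exact hTprop t
  have hneq : ∀ k k' : T, (k : Set I) ≠ (k' : Set I)ᶜ := by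
    intro k k' h
    have h1 := hTmem k
    rw [h] at h1
    exact h1 (hTmem k')
  have hk : ∀ k, k ≠ t0 → RR k ≠ E0 ∧ RR k ≠ E0ᶜ := by
    intro k hk
    simp only [RR, hk, if_false]
    exact ⟨fun h => hk (Subtype.ext h), hneq k t0⟩
  have hkk : ∀ k k', k ≠ k' → k ≠ t0 → RR k ≠ RR k' ∧ RR k ≠ (RR k')ᶜ := by
    intro k k' hne hk0
    by_cases h' : k' = t0
    · have h1 : RR k' = E0ᶜ := by simp [RR, h']
      rw [h1, compl_compl]
      exact ⟨(hk k hk0).2, (hk k hk0).1⟩
    · simp only [RR, hk0, h', if_false]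
      exact ⟨fun h => hne (Subtype.ext h), hneq k k'⟩
  obtain ⟨φ, hφ1, hφ2⟩ := Pool.Agent.V11198.Cong.exists_action T hT
  let _ : MulAction (FreeGroup T) UpperHalfPlane := MulAction.compHom _ φ
  have hsm : ∀ (g : FreeGroup T) (z : UpperHalfPlane), g • z = φ g • z := fun _ _ => rfl
  obtain ⟨c, hc⟩ := Pool.Agent.V11198.Cong.exists_colouring (Ω := UpperHalfPlane) (t0 := t0)
    (E0 := E0) (R := RR) hE hRR hk hkk (fun x g h hg hh => hφ1 x g h hg hh)
    (fun x g hg hfix => hφ2 t0 x g hg hfix)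
  have ht0 : ∀ x, (c x ∈ E0 ↔ c (FreeGroup.of t0 • x) ∉ E0) := by
    intro x
    have := hc x t0
    simpa [RR] using this
  -- every set of the system is congruent to the base set
  have hγ : ∀ E : Set I, nrm E ∈ Set.range f →
      ∃ γ : FreeGroup T, ∀ x, (c x ∈ E0 ↔ c (γ • x) ∈ E) := by
    intro E hE'
    by_cases h : (⟨nrm E, hE'⟩ : T) = t0
    · have h1 : nrm E = E0 := congrArg Subtype.val h
      rcases hnrm1 E with h2 | h2
      · refine ⟨1, fun x => ?_⟩
        rw [one_smul, ← h1, h2]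
      · refine ⟨FreeGroup.of t0, fun x => ?_⟩
        rw [ht0 x, ← h1, h2]
        simp
    · have h3 : ∀ x, (c x ∈ E0 ↔ c (FreeGroup.of (⟨nrm E, hE'⟩ : T) • x) ∈ nrm E) := by
        intro x
        have := hc x ⟨nrm E, hE'⟩
        simpa [RR, h] using this
      rcases hnrm1 E with h2 | h2
      · refine ⟨FreeGroup.of (⟨nrm E, hE'⟩ : T), fun x => ?_⟩
        rw [h3 x]
        generalize FreeGroup.of (⟨nrm E, hE'⟩ : T) • x = y
        rw [h2]
      · refine ⟨FreeGroup.of (⟨nrm E, hE'⟩ : T) * FreeGroup.of t0, fun x => ?_⟩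
        rw [ht0 x, h3 (FreeGroup.of t0 • x), mul_smul]
        generalize FreeGroup.of (⟨nrm E, hE'⟩ : T) • (FreeGroup.of t0 • x) = y
        rw [h2]
        simp
  obtain ⟨h1, h2, h3⟩ := hpart c
  refine ⟨fun j => c ⁻¹' {j}, h1, h2, fun i => ?_⟩
  obtain ⟨γL, hL⟩ := hγ (L i) ⟨(i, true), by simp [f]⟩
  obtain ⟨γR, hR⟩ := hγ (R i) ⟨(i, false), by simp [f]⟩
  refine ⟨IsometryEquiv.constSMul (φ (γR * γL⁻¹)), ?_⟩
  rw [h3, h3]
  have hiff : ∀ x, (c x ∈ L i ↔ c ((γR * γL⁻¹) • x) ∈ R i) := by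
    intro x
    rw [mul_smul, ← hR (γL⁻¹ • x), hL (γL⁻¹ • x), smul_inv_smul]
  ext y
  constructor
  · rintro ⟨x, hx, rfl⟩
    exact (hiff x).1 hx
  · intro hy
    refine ⟨(γR * γL⁻¹)⁻¹ • y, ?_, ?_⟩
    · have := (hiff ((γR * γL⁻¹)⁻¹ • y))
      rw [smul_inv_smul] at this
      exact this.2 hy
    · change φ (γR * γL⁻¹) • ((γR * γL⁻¹)⁻¹ • y) = y
      rw [← hsm, smul_inv_smul]

end Pool.Agent.S14257
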