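import Pool.Statements.S14345
import Pool.Agent.V11255.EE4

set_option autoImplicit false
open Pool Pool.MP_094aee_lc

namespace Pool.Agent.S14345

/-- Every analytic quasi-order on a Polish space is Borel bireducible with first-order elementary embeddability on some isomorphism-invariant Borel set of countable structures on ℕ in a countable relational language (i.e. some Mod_φ, φ in L_ω1ω). -/
theorem result :
  ∀ (X : Type) [TopologicalSpace X] [PolishSpace X] [MeasurableSpace X] [BorelSpace X]
    (R : X → X → Prop),
    (∀ x, R x x) → (∀ x y z, R x y → R y z → R x z) →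
    MeasureTheory.AnalyticSet {p : X × X | R p.1 p.2} →
    ∃ (a : ℕ → ℕ) (B : Set (∀ i : ℕ, (Fin (a i) → ℕ) → Bool)),
      MeasurableSet B ∧
      (∀ (σ : Equiv.Perm ℕ) (u : ∀ i : ℕ, (Fin (a i) → ℕ) → Bool),
        u ∈ B ↔ (fun i v => u i (σ ∘ v)) ∈ B) ∧
      (∃ f : X → (∀ i : ℕ, (Fin (a i) → ℕ) → Bool), Measurable f ∧ (∀ x, f x ∈ B) ∧
        ∀ x y, R x y ↔
          Nonempty (@FirstOrder.Language.ElementaryEmbedding
            (FirstOrder.Language.mk (fun _ => PEmpty.{1}) (fun n => {i : ℕ // a i = n})) ℕ ℕ
            (@FirstOrder.Language.Structure.mk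
              (FirstOrder.Language.mk (fun _ => PEmpty.{1}) (fun n => {i : ℕ // a i = n})) ℕ
              (fun f _ => PEmpty.elim f)
              (fun r xs => f x (Subtype.val r) (xs ∘ Fin.cast (Subtype.property r)) = true))
            (@FirstOrder.Language.Structure.mk
              (FirstOrder.Language.mk (fun _ => PEmpty.{1}) (fun n => {i : ℕ // a i = n})) ℕ
              (fun f _ => PEmpty.elim f)
              (fun r xs => f y (Subtype.val r) (xs ∘ Fin.cast (Subtype.property r)) = true)))) ∧
      (∃ g : B → X, Measurable g ∧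
        ∀ u v : B,
          Nonempty (@FirstOrder.Language.ElementaryEmbedding
            (FirstOrder.Language.mk (fun _ => PEmpty.{1}) (fun n => {i : ℕ // a i = n})) ℕ ℕ
            (@FirstOrder.Language.Structure.mk
              (FirstOrder.Language.mk (fun _ => PEmpty.{1}) (fun n => {i : ℕ // a i = n})) ℕ
              (fun f _ => PEmpty.elim f)
              (fun r xs => u.1 (Subtype.val r) (xs ∘ Fin.cast (Subtype.property r)) = true))
            (@FirstOrder.Language.Structure.mk
              (FirstOrder.Language.mk (fun _ => PEmpty.{1}) (fun n => {i : ℕ // a i = n})) ℕ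
              (fun f _ => PEmpty.elim f)
              (fun r xs => v.1 (Subtype.val r) (xs ∘ Fin.cast (Subtype.property r)) = true)))
          ↔ R (g u) (g v)) := by
  intro X _ _ _ _ R hrefl htrans hR
  rcases isEmpty_or_nonempty X with hX | hX
  · refine ⟨fun _ => 2, ∅, MeasurableSet.empty, ?_, ?_, ?_⟩
    · exact fun _ _ => Iff.rfl
    · exact ⟨fun x => (hX.false x).elim, measurable_of_empty _, fun x => (hX.false x).elim,
        fun x => (hX.false x).elim⟩
    · exact ⟨fun u => absurd u.2 (Set.notMem_empty _), measurable_of_empty _,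
        fun u => absurd u.2 (Set.notMem_empty _)⟩
  · obtain ⟨B, h1, h2, h3, h4⟩ := Pool.Agent.V11255.EE.main X R hrefl htrans hR
    exact ⟨fun _ => 2, B, h1, h2, h3, h4⟩

end Pool.Agent.S14345
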