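import Pool.Statements.S14496
import Pool.Agent.V1170.SE.Asm

set_option autoImplicit false
open MeasureTheory
open scoped Manifold ContDiff
open Pool Pool.MP_2602dd_lc

namespace Pool.Agent.S14496

/-- The negation of the preceding statement: For every compact connected boundaryless smooth manifold of dimension at least 2 with a smooth volume, measure isomorphism of smooth ergodic volume-preserving diffeomorphisms is Borel bi-reducible with isomorphism of countable binary relations on ℕ. -/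
theorem result :
    ¬ (∀ (n : ℕ), 2 ≤ n →
  ∀ (M : Type) [TopologicalSpace M] [ChartedSpace (EuclideanSpace ℝ (Fin n)) M]
    [IsManifold (𝓡 n) ∞ M] [CompactSpace M] [ConnectedSpace M] [T2Space M]
    [MeasurableSpace M] [BorelSpace M] (ν : Measure M),
    (∀ e ∈ atlas (EuclideanSpace ℝ (Fin n)) M, ∃ ρ : EuclideanSpace ℝ (Fin n) → ℝ,
        ContDiffOn ℝ ∞ ρ e.target ∧ (∀ y ∈ e.target, 0 < ρ y) ∧
        Measure.map (⇑e) (ν.restrict e.source) =
          (volume.withDensity (fun y => ENNReal.ofReal (ρ y))).restrict e.target) →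
    (∃ f : {T : Diffeomorph (𝓡 n) (𝓡 n) M M ∞ //
              MeasurePreserving (⇑T) ν ν ∧ Ergodic (⇑T) ν} → (ℕ → ℕ → Bool),
       @Measurable {T : Diffeomorph (𝓡 n) (𝓡 n) M M ∞ //
              MeasurePreserving (⇑T) ν ν ∧ Ergodic (⇑T) ν} (ℕ → ℕ → Bool)
         (MeasurableSpace.comap
           (fun T : {T : Diffeomorph (𝓡 n) (𝓡 n) M M ∞ //
              MeasurePreserving (⇑T) ν ν ∧ Ergodic (⇑T) ν} => (⇑T.1 : M → M))
           (inferInstance : MeasurableSpace (M → M)))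
         (inferInstance : MeasurableSpace (ℕ → ℕ → Bool)) f ∧
       ∀ S T : {T : Diffeomorph (𝓡 n) (𝓡 n) M M ∞ //
              MeasurePreserving (⇑T) ν ν ∧ Ergodic (⇑T) ν},
         (∃ φ ψ : M → M, MeasurePreserving φ ν ν ∧ MeasurePreserving ψ ν ν ∧
            ψ ∘ φ =ᵐ[ν] id ∧ φ ∘ ψ =ᵐ[ν] id ∧ φ ∘ (⇑S.1) =ᵐ[ν] (⇑T.1) ∘ φ) ↔
         (∃ σ : Equiv.Perm ℕ, ∀ i j : ℕ, f S i j = f T (σ i) (σ j))) ∧
    (∃ g : (ℕ → ℕ → Bool) → {T : Diffeomorph (𝓡 n) (𝓡 n) M M ∞ //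
              MeasurePreserving (⇑T) ν ν ∧ Ergodic (⇑T) ν},
       @Measurable (ℕ → ℕ → Bool) {T : Diffeomorph (𝓡 n) (𝓡 n) M M ∞ //
              MeasurePreserving (⇑T) ν ν ∧ Ergodic (⇑T) ν}
         (inferInstance : MeasurableSpace (ℕ → ℕ → Bool))
         (MeasurableSpace.comap
           (fun T : {T : Diffeomorph (𝓡 n) (𝓡 n) M M ∞ //
              MeasurePreserving (⇑T) ν ν ∧ Ergodic (⇑T) ν} => (⇑T.1 : M → M))
           (inferInstance : MeasurableSpace (M → M))) g ∧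
       ∀ G H : ℕ → ℕ → Bool,
         (∃ σ : Equiv.Perm ℕ, ∀ i j : ℕ, G i j = H (σ i) (σ j)) ↔
         (∃ φ ψ : M → M, MeasurePreserving φ ν ν ∧ MeasurePreserving ψ ν ν ∧
            ψ ∘ φ =ᵐ[ν] id ∧ φ ∘ ψ =ᵐ[ν] id ∧
            φ ∘ (⇑(g G).1) =ᵐ[ν] (⇑(g H).1) ∘ φ))) := by
  intro H
  have hchart : ∀ e ∈ atlas (EuclideanSpace ℝ (Fin 2)) Pool.Agent.Helper449.RC.T2,
      ∃ ρ : EuclideanSpace ℝ (Fin 2) → ℝ,
        ContDiffOn ℝ ∞ ρ e.target ∧ (∀ y ∈ e.target, 0 < ρ y) ∧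
        Measure.map (⇑e) (Pool.Agent.V1170.SE.nu.restrict e.source) =
          (volume.withDensity (fun y => ENNReal.ofReal (ρ y))).restrict e.target := by
    rintro e ⟨a, rfl⟩
    refine ⟨fun _ => 1, contDiffOn_const, fun _ _ => one_pos, ?_⟩
    have h1 : (volume : Measure (EuclideanSpace ℝ (Fin 2))).withDensity
        (fun _ => ENNReal.ofReal 1) = volume := by
      rw [ENNReal.ofReal_one]; exact withDensity_one
    rw [h1]
    exact Pool.Agent.V1170.SE.chart_measure a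
  obtain ⟨⟨f, hf, hfr⟩, -⟩ := H 2 le_rfl Pool.Agent.Helper449.RC.T2 Pool.Agent.V1170.SE.nu hchart
  let T : (ℕ → ℝ) → {T : Diffeomorph (𝓡 2) (𝓡 2) Pool.Agent.Helper449.RC.T2
      Pool.Agent.Helper449.RC.T2 ∞ // MeasurePreserving (⇑T) Pool.Agent.V1170.SE.nu
        Pool.Agent.V1170.SE.nu ∧ Ergodic (⇑T) Pool.Agent.V1170.SE.nu} := fun x =>
    ⟨Pool.Agent.V1170.SE.TD x, (Pool.Agent.V1170.SE.TD_ergodic x).toMeasurePreserving,
      Pool.Agent.V1170.SE.TD_ergodic x⟩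
  refine Pool.Agent.V1170.SE.no_red (fun x => f (T x)) ?_ (fun x y => hfr (T x) (T y))
  refine @Measurable.comp _ _ _ _ (_) _ _ _ hf ?_
  rw [measurable_comap_iff]
  exact measurable_pi_iff.2 fun p => Pool.Agent.V1170.SE.TD_meas p

end Pool.Agent.S14496
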