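import Pool.Statements.S14568
import Pool.Agent.V11238.GR.Graph

set_option autoImplicit false
open Classical
open Pool Pool.MP_354b3e_lc

namespace Pool.Agent.S14568

open Pool.Agent.Helper446 Pool.Agent.Helper446.RE Pool.Agent.Helper446.Oracle
  Pool.Agent.V11238.GR in
theorem aux (G : SimpleGraph ℕ) (hG : ComputablePred (fun p : ℕ × ℕ => G.Adj p.1 p.2))
    (N : ℕ → Finset ℕ) (hN : ∀ x y : ℕ, G.Adj x y ↔ y ∈ N x)
    (hNA : TuringReducible (fun x : ℕ => Part.some (Encodable.encode (N x)))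
      (Pool.Agent.Helper446.Defs.chi A)) (hcol : G.Colorable 2) :
    ∃ c : ℕ → ℕ, Computable c ∧ (∀ x, c x < 4) ∧ ∀ x y, G.Adj x y → c x ≠ c y := by
  -- codes of finite sets
  have hgr : REIn A fun p : ℕ × ℕ => Encodable.encode (N p.1) = p.2 :=
    turingReducible_fun_iff.1 hNA
  -- the c.e. set
  let M : Set ℕ := {m | ∃ y, m.unpair.2 ≤ y ∧ G.Adj m.unpair.1 y}
  have hM : REPred fun m : ℕ => m ∈ M := by
    refine exN (p := fun m y : ℕ => m.unpair.2 ≤ y ∧ G.Adj m.unpair.1 y) ?_
    refine RE.and (RE.le (by fun_prop) (by fun_prop)) ?_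
    exact RE.comp hG.to_re (f := fun x : ℕ × ℕ => (x.1.unpair.1, x.2)) (by fun_prop)
  have hMA : REIn A fun m : ℕ => m ∉ M := by
    have h1 : REIn A fun m : ℕ => ∃ k : ℕ, ∃ l : List ℕ,
        Encodable.encode (N m.unpair.1) = k ∧
          (Encodable.decode (α := List ℕ) k = some l ∧ ∀ y ∈ l, y < m.unpair.2) := by
      refine REIn.ex (S := fun (m k : ℕ) => ∃ l : List ℕ,
        Encodable.encode (N m.unpair.1) = k ∧
          (Encodable.decode (α := List ℕ) k = some l ∧ ∀ y ∈ l, y < m.unpair.2)) ?_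
      refine REIn.ex (S := fun (x : ℕ × ℕ) (l : List ℕ) =>
        Encodable.encode (N x.1.unpair.1) = x.2 ∧
          (Encodable.decode (α := List ℕ) x.2 = some l ∧ ∀ y ∈ l, y < x.1.unpair.2)) ?_
      refine REIn.and ?_ (REIn.of_re (RE.and (RE.eq (by fun_prop) (by fun_prop)) ?_))
      · exact REIn.comp hgr (f := fun x : (ℕ × ℕ) × List ℕ => (x.1.1.unpair.1, x.1.2))
          (by fun_prop)
      · exact RE.all_mem (p := fun (x : (ℕ × ℕ) × List ℕ) (y : ℕ) => y < x.1.1.unpair.2)
          (RE.lt (by fun_prop) (by fun_prop)) (by fun_prop)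
    refine h1.of_eq fun m => ?_
    obtain ⟨l0, hl0, hl0'⟩ := enc_fin (N m.unpair.1)
    constructor
    · rintro ⟨k, l, rfl, h2, h3⟩ ⟨y, hy1, hy2⟩
      rw [hl0] at h2
      obtain rfl := Option.some.inj h2
      have := h3 y ((hl0' y).1 ((hN _ _).1 hy2))
      omega
    · intro hm
      refine ⟨_, l0, rfl, hl0, fun y hy => ?_⟩
      by_contra hc
      push Not at hc
      exact hm ⟨y, hc, (hN _ _).2 ((hl0' y).2 hy)⟩
  have hMc := no_ce hM hMA
  -- the bound
  have hex : ∀ x, ∃ n, Nat.pair x n ∉ M := by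
    intro x
    refine ⟨(N x).sup id + 1, ?_⟩
    rintro ⟨y, hy1, hy2⟩
    simp only [Nat.unpair_pair] at hy1 hy2
    have := Finset.le_sup (f := id) ((hN x y).1 hy2)
    simp only [id] at this
    omega
  obtain ⟨b, hb, hb'⟩ := exists_comp (q := fun x n => Nat.pair x n ∉ M)
    (RE.comp hMc.not.to_re (f := fun x : ℕ × ℕ => Nat.pair x.1 x.2) (by fun_prop)) hex
  refine four_colour G hG b hb (fun x y hxy => ?_) hcol
  by_contra hc
  push Not at hc
  exact hb' x ⟨y, by simpa using hc, by simpa using hxy⟩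

/-- The negation of the preceding statement: For every noncomputable A Turing-below the halting set there is a computable, locally finite, planar graph on ℕ whose neighbour lists are A-computable, with chromatic number 2, but with no computable proper colouring using finitely many colours. -/
theorem result :
    ¬ (∀ A : Set ℕ,
      ¬ ComputablePred (fun n : ℕ => n ∈ A) →
      TuringReducible (fun n : ℕ => Part.some (if n ∈ A then (1 : ℕ) else 0))
        (fun n : ℕ => Part.some
          (if ((Denumerable.ofNat Nat.Partrec.Code n).eval n).Dom then (1 : ℕ) else 0)) →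
      ∃ G : SimpleGraph ℕ,
        ComputablePred (fun p : ℕ × ℕ => G.Adj p.1 p.2) ∧
        (∃ N : ℕ → Finset ℕ, (∀ x y : ℕ, G.Adj x y ↔ y ∈ N x) ∧
          TuringReducible (fun x : ℕ => Part.some (Encodable.encode (N x)))
            (fun n : ℕ => Part.some (if n ∈ A then (1 : ℕ) else 0))) ∧
        (∃ f : ℕ → EuclideanSpace ℝ (Fin 2), Function.Injective f ∧
          ∃ γ : ∀ u v : ℕ, Path (f u) (f v),
            (∀ u v : ℕ, G.Adj u v → Function.Injective (fun t : unitInterval => γ u v t)) ∧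
            (∀ u v w : ℕ, G.Adj u v → ∀ t : unitInterval, γ u v t = f w → w = u ∨ w = v) ∧
            (∀ u v u' v' : ℕ, G.Adj u v → G.Adj u' v' →
              Sym2.mk (u, v) ≠ Sym2.mk (u', v') →
              ∀ t t' : unitInterval, γ u v t = γ u' v' t' →
                ∃ w : ℕ, (w = u ∨ w = v) ∧ (w = u' ∨ w = v') ∧ γ u v t = f w)) ∧
        G.chromaticNumber = 2 ∧
        ∀ k : ℕ, ∀ c : ℕ → ℕ, Computable c → (∀ x, c x < k) →
          ∃ x y : ℕ, G.Adj x y ∧ c x = c y) := by
  intro H
  have e1 : ∀ S : Set ℕ, (fun n : ℕ => Part.some (if n ∈ S then (1 : ℕ) else 0)) =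
      Pool.Agent.Helper446.Defs.chi S := by
    intro S
    funext n
    unfold Pool.Agent.Helper446.Defs.chi Pool.Agent.Helper446.Defs.chiN
    congr 1
  have h1 := Pool.Agent.V11238.GR.A_le
  obtain ⟨G, hG, ⟨N, hN, hNA⟩, -, hchi, hno⟩ := H Pool.Agent.V11238.GR.A
    Pool.Agent.V11238.GR.A_not_computable (by
      rw [e1]
      exact h1)
  rw [e1] at hNA
  have hcol : G.Colorable 2 := by
    rw [← SimpleGraph.chromaticNumber_le_iff_colorable, hchi]
    norm_num
  obtain ⟨c, hc, hc4, hprop⟩ := aux G hG N hN hNA hcol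
  obtain ⟨x, y, hxy, hxy'⟩ := hno 4 c hc hc4
  exact hprop x y hxy hxy'

end Pool.Agent.S14568
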