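import Pool.Statements.S14767
import Pool.Agent.V11234.HD.Def
import Pool.Agent.Results.MP_5f3cbe_lc.AdmissibleDefinable

set_option autoImplicit false
open Pool Pool.MP_5f3cbe_lc

namespace Pool.Agent.S14767

open Pool.Agent.V11234.HD

/-- The holomorphic functions on the disc, continued by a constant. -/
def CR : Subring (ℂ → ℂ) where
  carrier := {g : ℂ → ℂ | DifferentiableOn ℂ g (Metric.ball (0:ℂ) 1) ∧
                ∀ z ∉ Metric.ball (0:ℂ) 1, g z = g 0}
  mul_mem' := by
    rintro a b ⟨h1, h2⟩ ⟨h3, h4⟩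
    exact ⟨h1.mul h3, fun z hz => by rw [Pi.mul_apply, Pi.mul_apply, h2 z hz, h4 z hz]⟩
  one_mem' := ⟨differentiableOn_const _, fun _ _ => rfl⟩
  add_mem' := by
    rintro a b ⟨h1, h2⟩ ⟨h3, h4⟩
    exact ⟨h1.add h3, fun z hz => by rw [Pi.add_apply, Pi.add_apply, h2 z hz, h4 z hz]⟩
  zero_mem' := ⟨differentiableOn_const _, fun _ _ => rfl⟩
  neg_mem' := by
    rintro a ⟨h1, h2⟩
    exact ⟨h1.neg, fun z hz => by rw [Pi.neg_apply, Pi.neg_apply, h2 z hz]⟩

theorem closure_eq : Subring.closure {g : ℂ → ℂ | DifferentiableOn ℂ g (Metric.ball (0:ℂ) 1) ∧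
    ∀ z ∉ Metric.ball (0:ℂ) 1, g z = g 0} = CR :=
  Subring.closure_eq CR

/-- Restriction to the disc. -/
def toHD : CR →+* HD where
  toFun f := ⟨fun z => f.1 z, f.1, f.2.1, fun _ => rfl⟩
  map_one' := rfl
  map_mul' _ _ := rfl
  map_zero' := rfl
  map_add' _ _ := rfl

theorem toHD_bij : Function.Bijective toHD := by
  constructor
  · intro f g h
    have h1 : ∀ z : Metric.ball (0:ℂ) 1, f.1 z = g.1 z := fun z =>
      congrFun (congrArg Subtype.val h) z
    apply Subtype.ext
    funext z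
    by_cases hz : z ∈ Metric.ball (0:ℂ) 1
    · exact h1 ⟨z, hz⟩
    · rw [f.2.2 z hz, g.2.2 z hz]
      exact h1 ⟨0, by simp⟩
  · intro f
    obtain ⟨F, hF, rfl⟩ := rep f
    classical
    let G : ℂ → ℂ := fun z => if z ∈ Metric.ball (0:ℂ) 1 then F z else F 0
    have hG : ∀ z ∈ Metric.ball (0:ℂ) 1, G z = F z := fun z hz => if_pos hz
    have hG0 : G 0 = F 0 := hG 0 (by simp)
    refine ⟨⟨G, hF.congr hG, fun z hz => ?_⟩, ?_⟩
    · rw [hG0]
      exact if_neg hz
    · apply ext'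
      intro z
      exact hG z z.2

/-- The isomorphism. -/
noncomputable def eHD : ↥(Subring.closure {g : ℂ → ℂ | DifferentiableOn ℂ g (Metric.ball (0:ℂ) 1) ∧
    ∀ z ∉ Metric.ball (0:ℂ) 1, g z = g 0}) ≃+* HD :=
  (RingEquiv.subringCongr closure_eq).trans (RingEquiv.ofBijective toHD toHD_bij)

theorem eHD_val (f : ↥(Subring.closure {g : ℂ → ℂ | DifferentiableOn ℂ g (Metric.ball (0:ℂ) 1) ∧
    ∀ z ∉ Metric.ball (0:ℂ) 1, g z = g 0})) (z : Metric.ball (0:ℂ) 1) :
    (eHD f).1 z = f.1 z := rfl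

/-- There is a parameter-free first-order ring formula that, in the ring of holomorphic functions on the unit disc, holds of f exactly when its Nevanlinna characteristic T(r,f) is not O(log 1/(1-r)) as r tends to 1 from below. -/
theorem result :
    ∃ φ : FirstOrder.Language.ring.Formula (Fin 1),
      ∀ f : ↥(Subring.closure {g : ℂ → ℂ | DifferentiableOn ℂ g (Metric.ball (0:ℂ) 1) ∧
                ∀ z ∉ Metric.ball (0:ℂ) 1, g z = g 0}),
        (@FirstOrder.Language.Formula.Realize FirstOrder.Language.ring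
            ↥(Subring.closure {g : ℂ → ℂ | DifferentiableOn ℂ g (Metric.ball (0:ℂ) 1) ∧
                ∀ z ∉ Metric.ball (0:ℂ) 1, g z = g 0})
            (FirstOrder.Ring.compatibleRingOfRing
              ↥(Subring.closure {g : ℂ → ℂ | DifferentiableOn ℂ g (Metric.ball (0:ℂ) 1) ∧
                ∀ z ∉ Metric.ball (0:ℂ) 1, g z = g 0})).toStructure
            (Fin 1) φ (fun _ => f)) ↔
        ¬ Asymptotics.IsBigO (nhdsWithin (1:ℝ) (Set.Iio 1))
            (fun r : ℝ => (2 * Real.pi)⁻¹ *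
              ∫ θ in (0:ℝ)..(2 * Real.pi),
                Real.posLog ‖(f : ℂ → ℂ) ((r : ℂ) * Complex.exp ((θ : ℂ) * Complex.I))‖)
            (fun r : ℝ => Real.log (1 - r)⁻¹) := by
  obtain ⟨φ, hφ⟩ := Pool.Agent.Results.MP_5f3cbe_lc.AdmissibleDefinable.result
  refine ⟨φ, fun f => ?_⟩
  let _ := FirstOrder.Ring.compatibleRingOfRing
    ↥(Subring.closure {g : ℂ → ℂ | DifferentiableOn ℂ g (Metric.ball (0:ℂ) 1) ∧
                ∀ z ∉ Metric.ball (0:ℂ) 1, g z = g 0})
  let E := (FirstOrder.Ring.languageEquivEquivRingEquiv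
    (R := ↥(Subring.closure {g : ℂ → ℂ | DifferentiableOn ℂ g (Metric.ball (0:ℂ) 1) ∧
                ∀ z ∉ Metric.ball (0:ℂ) 1, g z = g 0})) (S := HD)).symm eHD
  have h1 := FirstOrder.Language.StrongHomClass.realize_formula E φ (v := fun _ => f)
  rw [← h1]
  refine (hφ (eHD f)).trans ?_
  unfold Pool.Agent.Results.MP_5f3cbe_lc.AdmissibleDefinable.Admissible
  rw [not_iff_not]
  apply Asymptotics.isBigO_congr
  · filter_upwards [Ioo_mem_nhdsLT (by norm_num : (0 : ℝ) < 1)] with r hr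
    unfold Pool.Agent.Results.MP_5f3cbe_lc.AdmissibleDefinable.T
    congr 1
    apply intervalIntegral.integral_congr
    intro θ _
    have h2 : (r : ℂ) * Complex.exp (θ * Complex.I) ∈ Metric.ball (0 : ℂ) 1 := by
      rw [mem_ball_zero_iff, norm_mul, Complex.norm_exp_ofReal_mul_I, mul_one, Complex.norm_real,
        Real.norm_of_nonneg hr.1.le]
      exact hr.2
    simp only
    unfold Pool.Agent.Results.MP_5f3cbe_lc.AdmissibleDefinable.ext0
    rw [dif_pos h2, Real.posLog, max_comm]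
    rfl
  · exact Filter.Eventually.of_forall fun r => by simp only [one_div]

end Pool.Agent.S14767
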