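import Pool.Statements.S14999
import Mathlib

set_option autoImplicit false
open Pool Pool.MP_8565d5_lc

namespace Pool.Agent.S14999

/-! ### Binary exponents -/

theorem testBit_pair_lt {i j : ℕ} (h : i < j) (l : ℕ) :
    (2 ^ i + 2 ^ j).testBit l = (decide (i = l) || decide (j = l)) := by
  have h1 := Nat.two_pow_add_eq_or_of_lt (i := j) (b := 2 ^ i)
    (Nat.pow_lt_pow_right (by norm_num) h) 1
  rw [mul_one] at h1
  rw [add_comm, h1, Nat.testBit_or, Nat.testBit_two_pow, Nat.testBit_two_pow, Bool.or_comm]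

theorem testBit_pair {i j : ℕ} (h : i ≠ j) (l : ℕ) :
    (2 ^ i + 2 ^ j).testBit l = (decide (i = l) || decide (j = l)) := by
  rcases Nat.lt_or_gt_of_ne h with h | h
  · exact testBit_pair_lt h l
  · rw [add_comm, testBit_pair_lt h l, Bool.or_comm]

theorem digits_pow (i : ℕ) : (Nat.digits 2 (2 ^ i)).sum = 1 := by
  have h := Nat.digits_base_pow_mul (b := 2) (k := i) (m := 1) (by norm_num) (by norm_num)
  rw [mul_one] at h
  rw [h]
  simp

theorem digits_pair_lt {i j : ℕ} (h : i < j) : (Nat.digits 2 (2 ^ i + 2 ^ j)).sum = 2 := by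
  obtain ⟨n, rfl⟩ : ∃ n, j = i + (n + 1) := ⟨j - i - 1, by omega⟩
  have h1 : 2 ^ i + 2 ^ (i + (n + 1)) = 2 ^ i * (1 + 2 * 2 ^ n) := by
    rw [pow_add, pow_succ]; ring
  rw [h1, Nat.digits_base_pow_mul (by norm_num) (by positivity),
    Nat.digits_add 2 (by norm_num) 1 (2 ^ n) (by norm_num) (by norm_num), List.sum_append,
    List.sum_cons, digits_pow]
  simp

theorem digits_pair {i j : ℕ} (h : i ≠ j) : (Nat.digits 2 (2 ^ i + 2 ^ j)).sum = 2 := by
  rcases Nat.lt_or_gt_of_ne h with h | h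
  · exact digits_pair_lt h
  · rw [add_comm, digits_pair_lt h]

theorem shadow_single {a e : ℕ} (he : ∀ i, e.testBit i = true → (2 ^ a).testBit i = true) :
    e = 0 ∨ e = 2 ^ a := by
  simp only [Nat.testBit_two_pow, decide_eq_true_eq] at he
  cases ha : e.testBit a
  · left
    apply Nat.eq_of_testBit_eq
    intro l
    rw [Nat.zero_testBit]
    by_contra h
    have h1 := he l (by simpa using h)
    subst h1
    exact h ha
  · right
    apply Nat.eq_of_testBit_eq
    intro l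
    rw [Nat.testBit_two_pow]
    by_cases hl : a = l
    · subst hl; simp [ha]
    · simp only [hl, decide_false]
      by_contra h
      exact hl (he l (by simpa using h))

theorem shadow_pair {a b e : ℕ} (hab : a ≠ b)
    (he : ∀ i, e.testBit i = true → (2 ^ a + 2 ^ b).testBit i = true) :
    e = 0 ∨ e = 2 ^ a ∨ e = 2 ^ b ∨ e = 2 ^ a + 2 ^ b := by
  simp only [testBit_pair hab, Bool.or_eq_true, decide_eq_true_eq] at he
  have key : ∀ l, a ≠ l → b ≠ l → e.testBit l = false := by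
    intro l h1 h2
    by_contra h
    rcases he l (by simpa using h) with h | h
    · exact h1 h
    · exact h2 h
  cases ha : e.testBit a <;> cases hb : e.testBit b
  · left
    apply Nat.eq_of_testBit_eq
    intro l
    rw [Nat.zero_testBit]
    by_cases h1 : a = l
    · subst h1; exact ha
    · by_cases h2 : b = l
      · subst h2; exact hb
      · exact key l h1 h2
  · right; right; left
    apply Nat.eq_of_testBit_eq
    intro l
    rw [Nat.testBit_two_pow]
    by_cases h1 : a = l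
    · subst h1; simp [ha, hab.symm]
    · by_cases h2 : b = l
      · subst h2; simp [hb]
      · simp [key l h1 h2, h2]
  · right; left
    apply Nat.eq_of_testBit_eq
    intro l
    rw [Nat.testBit_two_pow]
    by_cases h1 : a = l
    · subst h1; simp [ha]
    · by_cases h2 : b = l
      · subst h2; simp [hb, hab]
      · simp [key l h1 h2, h1]
  · right; right; right
    apply Nat.eq_of_testBit_eq
    intro l
    rw [testBit_pair hab]
    by_cases h1 : a = l
    · subst h1; simp [ha]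
    · by_cases h2 : b = l
      · subst h2; simp [hb]
      · simp [key l h1 h2, h1, h2]

theorem pair_inj {a b c d : ℕ} (hab : a ≠ b) (hcd : c ≠ d) (h : 2 ^ a + 2 ^ b = 2 ^ c + 2 ^ d) :
    (a = c ∧ b = d) ∨ (a = d ∧ b = c) := by
  have key : ∀ l, (a = l ∨ b = l) ↔ (c = l ∨ d = l) := by
    intro l
    have h1 : (2 ^ a + 2 ^ b).testBit l = (2 ^ c + 2 ^ d).testBit l := by rw [h]
    rw [testBit_pair hab, testBit_pair hcd] at h1
    have h2 : ((decide (a = l) || decide (b = l)) = true) ↔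
      ((decide (c = l) || decide (d = l)) = true) := by rw [h1]
    simpa using h2
  have h1 := key a
  have h2 := key b
  simp only [true_or, or_true, true_iff] at h1 h2
  omega

theorem mod_cases {t i j : ℕ} (hi : i < t) (hj : j < t) :
    (i + j < t ∧ (i + j) % t = i + j) ∨ (t ≤ i + j ∧ (i + j) % t = i + j - t) := by
  rcases lt_or_ge (i + j) t with h | h
  · exact Or.inl ⟨h, Nat.mod_eq_of_lt h⟩
  · refine Or.inr ⟨h, ?_⟩
    rw [Nat.mod_eq_sub_mod h, Nat.mod_eq_of_lt (by omega)]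

/-- The degree set. -/
def DD (t k : ℕ) : Finset ℕ :=
  {0} ∪ (Finset.range t).image (fun i => 2 ^ i) ∪
    ((Finset.range t) ×ˢ (Finset.Icc 1 k)).image (fun p => 2 ^ p.1 + 2 ^ ((p.1 + p.2) % t))

theorem mem_DD {t k d : ℕ} : d ∈ DD t k ↔ d = 0 ∨ (∃ i < t, d = 2 ^ i) ∨
    (∃ i < t, ∃ j, 1 ≤ j ∧ j ≤ k ∧ d = 2 ^ i + 2 ^ ((i + j) % t)) := by
  simp only [DD, Finset.mem_union, Finset.mem_singleton, Finset.mem_image, Finset.mem_range,
    Finset.mem_product, Finset.mem_Icc, Prod.exists]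
  constructor
  · rintro ((h | ⟨i, hi, rfl⟩) | ⟨i, j, ⟨hi, h1, h2⟩, rfl⟩)
    · exact Or.inl h
    · exact Or.inr (Or.inl ⟨i, hi, rfl⟩)
    · exact Or.inr (Or.inr ⟨i, hi, j, h1, h2, rfl⟩)
  · rintro (h | ⟨i, hi, rfl⟩ | ⟨i, hi, j, h1, h2, rfl⟩)
    · exact Or.inl (Or.inl h)
    · exact Or.inl (Or.inr ⟨i, hi, rfl⟩)
    · exact Or.inr ⟨i, j, ⟨hi, h1, h2⟩, rfl⟩

theorem pair_lt {t a b : ℕ} (ha : a < t) (hb : b < t) (hab : a ≠ b) : 2 ^ a + 2 ^ b < 2 ^ t := by
  wlog h : a < b generalizing a b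
  · rw [add_comm]
    exact this hb ha (Ne.symm hab) (by omega)
  · have h1 : 2 ^ a < 2 ^ b := Nat.pow_lt_pow_right (by norm_num) h
    have h2 : 2 ^ (b + 1) ≤ 2 ^ t := Nat.pow_le_pow_right (by norm_num) hb
    rw [pow_succ] at h2
    omega

theorem DD_bound {t k : ℕ} (ht : 2 * k + 4 < t) : ∀ d ∈ DD t k,
    d < 2 ^ t ∧ (Nat.digits 2 d).sum ≤ 2 := by
  intro d hd
  rcases mem_DD.1 hd with rfl | ⟨i, hi, rfl⟩ | ⟨i, hi, j, h1, h2, rfl⟩
  · simp
  · exact ⟨Nat.pow_lt_pow_right (by norm_num) hi, by rw [digits_pow]; norm_num⟩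
  · have hne : i ≠ (i + j) % t := by
      rcases mod_cases hi (show j < t by omega) with ⟨_, h⟩ | ⟨_, h⟩ <;> rw [h] <;> omega
    exact ⟨pair_lt hi (Nat.mod_lt _ (by omega)) hne, by rw [digits_pair hne]⟩

theorem DD_double {t k : ℕ} (ht : 2 * k + 4 < t) : ∀ d ∈ DD t k, d ≠ 0 →
    (2 * d - 1) % (2 ^ t - 1) + 1 ∈ DD t k := by
  intro d hd hd0
  have h2t : ∀ a, a < t → 2 ^ (a + 1) ≤ 2 ^ t := fun a ha => Nat.pow_le_pow_right (by norm_num) ha
  have hpos : ∀ a, 0 < 2 ^ a := fun a => by positivity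
  rcases mem_DD.1 hd with rfl | ⟨i, hi, rfl⟩ | ⟨i, hi, j, h1, h2, rfl⟩
  · exact absurd rfl hd0
  · rcases Nat.lt_or_ge (i + 1) t with h | h
    · have h3 : 2 ^ (i + 1) < 2 ^ t := Nat.pow_lt_pow_right (by norm_num) h
      have h4 : 2 * 2 ^ i = 2 ^ (i + 1) := by rw [pow_succ]; ring
      have h5 := hpos (i + 1)
      rw [h4, Nat.mod_eq_of_lt (by omega), Nat.sub_add_cancel h5]
      exact mem_DD.2 (Or.inr (Or.inl ⟨i + 1, h, rfl⟩))
    · have h3 : i + 1 = t := by omega
      have h4 : 2 * 2 ^ i = 2 ^ t := by rw [← h3, pow_succ]; ring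
      rw [h4, Nat.mod_self]
      exact mem_DD.2 (Or.inr (Or.inl ⟨0, by omega, rfl⟩))
  · have hj : j < t := by omega
    set b := (i + j) % t with hb
    have hbt : b < t := Nat.mod_lt _ (by omega)
    have hcase := mod_cases hi hj
    rw [← hb] at hcase
    have h4 : 2 * (2 ^ i + 2 ^ b) = 2 ^ (i + 1) + 2 ^ (b + 1) := by
      rw [pow_succ, pow_succ]; ring
    rw [h4]
    have h5 := hpos (i + 1)
    have h6 := hpos (b + 1)
    rcases Nat.lt_or_ge (i + 1) t with hi1 | hi1
    · rcases Nat.lt_or_ge (b + 1) t with hb1 | hb1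
      · -- both stay below t
        have hne : i + 1 ≠ b + 1 := by omega
        have h7 := pair_lt hi1 hb1 hne
        have h8 : 2 ^ (i + 1) + 2 ^ (b + 1) - 1 < 2 ^ t - 1 := by omega
        rw [Nat.mod_eq_of_lt h8, Nat.sub_add_cancel (by omega)]
        refine mem_DD.2 (Or.inr (Or.inr ⟨i + 1, hi1, j, h1, h2, ?_⟩))
        have h9 : (i + 1 + j) % t = b + 1 := by
          rcases mod_cases hi1 hj with ⟨_, h⟩ | ⟨_, h⟩ <;> rw [h] <;> omega
        rw [h9]
      · have hbe : b + 1 = t := by omega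
        have h8 : 2 ^ (i + 1) + 2 ^ (b + 1) - 1 = 2 ^ (i + 1) + (2 ^ t - 1) := by
          rw [hbe]
          have := hpos t
          omega
        have h9 : 2 ^ (i + 1) < 2 ^ t := Nat.pow_lt_pow_right (by norm_num) hi1
        have h10 : 2 ^ (i + 1) < 2 ^ t - 1 := by
          have : 2 ^ (i + 2) ≤ 2 ^ t := Nat.pow_le_pow_right (by norm_num) (by omega)
          have h11 : 2 ^ (i + 2) = 2 ^ (i + 1) + 2 ^ (i + 1) := by rw [pow_succ 2 (i + 1)]; ring
          have h12 : 2 ≤ 2 ^ (i + 1) := by rw [pow_succ]; have := hpos i; omega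
          omega
        rw [h8, Nat.add_mod_right, Nat.mod_eq_of_lt h10]
        refine mem_DD.2 (Or.inr (Or.inr ⟨i + 1, hi1, j, h1, h2, ?_⟩))
        have h9 : (i + 1 + j) % t = 0 := by
          have : i + 1 + j = t := by omega
          rw [this, Nat.mod_self]
        rw [h9, pow_zero]
    · have hie : i + 1 = t := by omega
      have hbj : b + 1 = j := by omega
      have h8 : 2 ^ (i + 1) + 2 ^ (b + 1) - 1 = 2 ^ j + (2 ^ t - 1) := by
        rw [hie, hbj, add_comm, Nat.add_sub_assoc (hpos t)]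
      have h10 : 2 ^ j < 2 ^ t - 1 := by
        have : 2 ^ (j + 1) ≤ 2 ^ t := Nat.pow_le_pow_right (by norm_num) (by omega)
        have h11 : 2 ^ (j + 1) = 2 ^ j + 2 ^ j := by rw [pow_succ 2 j]; ring
        have h12 : 2 ≤ 2 ^ j := by
          calc 2 = 2 ^ 1 := rfl
            _ ≤ 2 ^ j := Nat.pow_le_pow_right (by norm_num) h1
        omega
      rw [h8, Nat.add_mod_right, Nat.mod_eq_of_lt h10]
      refine mem_DD.2 (Or.inr (Or.inr ⟨0, by omega, j, h1, h2, ?_⟩))
      rw [zero_add, Nat.mod_eq_of_lt hj, pow_zero, add_comm]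

theorem DD_shadow {t k : ℕ} (ht : 2 * k + 4 < t) : ∀ d ∈ DD t k,
    ∀ e : ℕ, (∀ i : ℕ, e.testBit i = true → d.testBit i = true) → e ∈ DD t k := by
  intro d hd e he
  rcases mem_DD.1 hd with rfl | ⟨i, hi, rfl⟩ | ⟨i, hi, j, h1, h2, rfl⟩
  · have : e = 0 := by
      apply Nat.eq_of_testBit_eq
      intro l
      rw [Nat.zero_testBit]
      by_contra h
      have := he l (by simpa using h)
      simp at this
    rw [this]
    exact mem_DD.2 (Or.inl rfl)
  · rcases shadow_single he with h | h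
    · exact mem_DD.2 (Or.inl h)
    · exact mem_DD.2 (Or.inr (Or.inl ⟨i, hi, h⟩))
  · have hne : i ≠ (i + j) % t := by
      rcases mod_cases hi (show j < t by omega) with ⟨_, h⟩ | ⟨_, h⟩ <;> rw [h] <;> omega
    rcases shadow_pair hne he with h | h | h | h
    · exact mem_DD.2 (Or.inl h)
    · exact mem_DD.2 (Or.inr (Or.inl ⟨i, hi, h⟩))
    · exact mem_DD.2 (Or.inr (Or.inl ⟨_, Nat.mod_lt _ (by omega), h⟩))
    · exact mem_DD.2 (Or.inr (Or.inr ⟨i, hi, j, h1, h2, h⟩))

theorem special_notMem {t k : ℕ} (ht : 2 * k + 4 < t) : 2 ^ 0 + 2 ^ (k + 1) ∉ DD t k := by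
  intro hd
  rcases mem_DD.1 hd with h | ⟨i, hi, h⟩ | ⟨i, hi, j, h1, h2, h⟩
  · simp at h
  · have h1 := digits_pair (show 0 ≠ k + 1 by omega)
    rw [h, digits_pow] at h1
    omega
  · have hne : i ≠ (i + j) % t := by
      rcases mod_cases hi (show j < t by omega) with ⟨_, h⟩ | ⟨_, h⟩ <;> rw [h] <;> omega
    rcases pair_inj (show 0 ≠ k + 1 by omega) hne h with ⟨h3, h4⟩ | ⟨h3, h4⟩
    · subst h3
      rw [zero_add, Nat.mod_eq_of_lt (show j < t by omega)] at h4
      omega
    · rcases mod_cases hi (show j < t by omega) with ⟨_, h⟩ | ⟨_, h⟩ <;> rw [h] at h3 <;> omega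

/-! ### Powers in a finite field -/

section field

variable {F : Type} [Field F] [CharP F 2]

set_option linter.unusedSectionVars false

theorem pow_mod_of {t : ℕ} (hF : ∀ x : F, x ^ (2 ^ t) = x) (x : F) (n : ℕ) :
    x ^ (2 ^ n) = x ^ (2 ^ (n % t)) := by
  have h : ∀ m, x ^ (2 ^ (t * m)) = x := by
    intro m
    induction m with
    | zero => simp
    | succ m ih => rw [Nat.mul_succ, pow_add, pow_mul, ih, hF]
  conv_lhs => rw [← Nat.div_add_mod n t, pow_add, pow_mul, h]

/-- The vectors of `2 ^ n`-th powers of the coordinates. -/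
def uvec {k : ℕ} (a : Fin k → F) (n : ℕ) : Fin k → F := fun i => a i ^ (2 ^ n)

theorem uvec_succ {k : ℕ} (a : Fin k → F) (n : ℕ) :
    (fun i => uvec a n i ^ 2) = uvec a (n + 1) := by
  funext i
  simp only [uvec]
  rw [← pow_mul, pow_succ]

/-- The span of the first `j` vectors. -/
def W {k : ℕ} (a : Fin k → F) (j : ℕ) : Submodule F (Fin k → F) :=
  Submodule.span F (uvec a '' Set.Iio j)

theorem W_frob {k : ℕ} (a : Fin k → F) (j : ℕ) (hj : uvec a j ∈ W a j) (v : Fin k → F)
    (hv : v ∈ W a j) : (fun i => v i ^ 2) ∈ W a j := by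
  unfold W at hv
  induction hv using Submodule.span_induction with
  | mem x hx =>
    obtain ⟨l, hl, rfl⟩ := hx
    rw [uvec_succ]
    rcases Nat.lt_or_ge (l + 1) j with h | h
    · exact Submodule.subset_span ⟨l + 1, h, rfl⟩
    · have : l + 1 = j := by
        have : l < j := hl
        omega
      rw [this]
      exact hj
  | zero =>
    have : (fun i : Fin k => (0 : Fin k → F) i ^ 2) = 0 := by
      funext i; simp
    rw [this]
    exact Submodule.zero_mem _
  | add x y _ _ hx hy =>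
    have : (fun i : Fin k => (x + y) i ^ 2) = (fun i => x i ^ 2) + (fun i => y i ^ 2) := by
      funext i
      simp only [Pi.add_apply]
      exact CharTwo.add_sq _ _
    rw [this]
    exact Submodule.add_mem _ hx hy
  | smul c x _ hx =>
    have : (fun i : Fin k => (c • x) i ^ 2) = (c ^ 2) • (fun i => x i ^ 2) := by
      funext i
      simp only [Pi.smul_apply, smul_eq_mul, mul_pow]
    rw [this]
    exact Submodule.smul_mem _ _ hx

theorem W_all {k : ℕ} (a : Fin k → F) (j : ℕ) (hj : uvec a j ∈ W a j) (n : ℕ) :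
    uvec a n ∈ W a j := by
  rcases Nat.lt_or_ge n j with h | h
  · exact Submodule.subset_span ⟨n, h, rfl⟩
  · obtain ⟨m, rfl⟩ := Nat.exists_eq_add_of_le h
    clear h
    induction m with
    | zero => exact hj
    | succ m ih =>
      have h := W_frob a j hj _ ih
      rw [uvec_succ] at h
      exact h

theorem W_mono {k : ℕ} (a : Fin k → F) {j l : ℕ} (h : j ≤ l) : W a j ≤ W a l :=
  Submodule.span_mono (Set.image_mono (Set.Iio_subset_Iio h))

theorem exists_dep {k : ℕ} (a : Fin k → F) : ∃ j ≤ k, uvec a j ∈ W a j := by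
  by_contra hcon
  push Not at hcon
  have h : ∀ j ≤ k + 1, j ≤ Module.finrank F (W a j) := by
    intro j
    induction j with
    | zero => intro _; exact Nat.zero_le _
    | succ j ih =>
      intro hj
      have h1 := ih (by omega)
      have h2 : W a j < W a (j + 1) := by
        refine lt_of_le_of_ne (W_mono a (Nat.le_succ j)) ?_
        intro he
        apply hcon j (by omega)
        rw [he]
        exact Submodule.subset_span ⟨j, Nat.lt_succ_self j, rfl⟩
      have h3 := Submodule.finrank_lt_finrank_of_lt h2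
      omega
  have h1 := h (k + 1) le_rfl
  have h2 := Submodule.finrank_le (W a (k + 1))
  rw [Module.finrank_fin_fun] at h2
  omega

theorem exists_coeffs {k : ℕ} (a : Fin k → F) (n : ℕ) :
    ∃ c : Fin k → F, ∀ i, a i ^ (2 ^ n) = ∑ l : Fin k, c l * a i ^ (2 ^ (l : ℕ)) := by
  obtain ⟨j, hj, hd⟩ := exists_dep a
  have h1 := W_mono a hj (W_all a j hd n)
  have h2 : uvec a '' Set.Iio k = Set.range (fun l : Fin k => uvec a l) := by
    ext v
    constructor
    · rintro ⟨l, hl, rfl⟩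
      exact ⟨⟨l, hl⟩, rfl⟩
    · rintro ⟨l, rfl⟩
      exact ⟨l, l.2, rfl⟩
  unfold W at h1
  rw [h2, Submodule.mem_span_range_iff_exists_fun] at h1
  obtain ⟨c, hc⟩ := h1
  refine ⟨c, fun i => ?_⟩
  have h3 := congrFun hc i
  simp only [Finset.sum_apply, Pi.smul_apply, smul_eq_mul, uvec] at h3
  exact h3.symm

/-- The space of functions given by polynomials with exponents in `D`. -/
def V (F : Type) [Field F] (D : Finset ℕ) : Submodule F (F → F) :=
  Submodule.span F ((fun d : ℕ => fun x : F => x ^ d) '' (D : Set ℕ))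

theorem mem_V {D : Finset ℕ} {g : F → F} :
    g ∈ V F D ↔ ∃ c : ℕ → F, ∀ x, g x = ∑ d ∈ D, c d * x ^ d := by
  unfold V
  rw [Submodule.mem_span_image_finset_iff_exists_fun']
  constructor
  · rintro ⟨c, rfl⟩
    refine ⟨c, fun x => ?_⟩
    simp [Finset.sum_apply]
  · rintro ⟨c, hc⟩
    refine ⟨c, ?_⟩
    funext x
    simp [Finset.sum_apply, hc]

theorem mono_mem {D : Finset ℕ} {d : ℕ} (hd : d ∈ D) : (fun x : F => x ^ d) ∈ V F D :=
  Submodule.subset_span ⟨d, hd, rfl⟩

/-- The function `x ↦ ∑_{i<t} (∑_l c_l x ^ (2^l + 1)) ^ (2^i)` has exponents in `DD t k`. -/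
theorem trace_mem {k t : ℕ} (ht : 2 * k + 4 < t) (hF : ∀ x : F, x ^ (2 ^ t) = x)
    (c : Fin k → F) :
    (fun x : F => ∑ i ∈ Finset.range t, (∑ l : Fin k, c l * x ^ (2 ^ (l : ℕ) + 1)) ^ (2 ^ i)) ∈
      V F (DD t k) := by
  have h1 : (fun x : F => ∑ i ∈ Finset.range t,
      (∑ l : Fin k, c l * x ^ (2 ^ (l : ℕ) + 1)) ^ (2 ^ i)) =
      ∑ i ∈ Finset.range t, ∑ l : Fin k,
        (c l ^ (2 ^ i)) • (fun x : F => x ^ ((2 ^ (l : ℕ) + 1) * 2 ^ i)) := by
    funext x
    simp only [Finset.sum_apply, Pi.smul_apply, smul_eq_mul]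
    refine Finset.sum_congr rfl fun i _ => ?_
    rw [sum_pow_char_pow]
    refine Finset.sum_congr rfl fun l _ => ?_
    rw [mul_pow, ← pow_mul]
  rw [h1]
  refine Submodule.sum_mem _ fun i hi => Submodule.sum_mem _ fun l _ =>
    Submodule.smul_mem _ _ ?_
  have hi' := Finset.mem_range.1 hi
  by_cases hl : (l : ℕ) = 0
  · have h2 : (fun x : F => x ^ ((2 ^ (l : ℕ) + 1) * 2 ^ i)) =
        fun x : F => x ^ (2 ^ ((i + 1) % t)) := by
      funext x
      rw [hl, ← pow_mod_of hF, pow_succ]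
      congr 1
      ring
    rw [h2]
    exact mono_mem (mem_DD.2 (Or.inr (Or.inl ⟨_, Nat.mod_lt _ (by omega), rfl⟩)))
  · have h2 : (fun x : F => x ^ ((2 ^ (l : ℕ) + 1) * 2 ^ i)) =
        fun x : F => x ^ (2 ^ i + 2 ^ ((i + l) % t)) := by
      funext x
      have h3 : (2 ^ (l : ℕ) + 1) * 2 ^ i = 2 ^ i + 2 ^ (i + (l : ℕ)) := by
        rw [pow_add]; ring
      rw [h3, pow_add, pow_mod_of hF x (i + l), ← pow_add]
    rw [h2]
    have hlk := l.2
    exact mono_mem (mem_DD.2 (Or.inr (Or.inr ⟨i, hi', l, by omega, by omega, rfl⟩)))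

open Polynomial in
/-- `x ↦ ∑_{i<t} (x ^ (2^(k+1) + 1)) ^ (2^i)` has no representation with exponents in
`DD t k`. -/
theorem special_not_mem [Fintype F] {k t : ℕ} (ht : 2 * k + 4 < t) (hF : ∀ x : F, x ^ (2 ^ t) = x)
    (hcard : Fintype.card F = 2 ^ t) (c : ℕ → F)
    (h : ∀ x : F, ∑ i ∈ Finset.range t, (x ^ (2 ^ (k + 1) + 1)) ^ (2 ^ i) =
      ∑ d ∈ DD t k, c d * x ^ d) : False := by
  let e : ℕ → ℕ := fun i => 2 ^ i + 2 ^ ((i + (k + 1)) % t)
  let Q : F[X] := ∑ i ∈ Finset.range t, X ^ (e i) - ∑ d ∈ DD t k, C (c d) * X ^ d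
  have hne : ∀ i < t, i ≠ (i + (k + 1)) % t := by
    intro i hi
    rcases mod_cases hi (show k + 1 < t by omega) with ⟨_, h⟩ | ⟨_, h⟩ <;> rw [h] <;> omega
  have hdeg : Q.degree < ((2 ^ t : ℕ) : WithBot ℕ) := by
    refine lt_of_le_of_lt (degree_sub_le _ _) (max_lt ?_ ?_)
    · refine lt_of_le_of_lt (degree_sum_le _ _) ?_
      rw [Finset.sup_lt_iff (WithBot.bot_lt_coe _)]
      intro i hi
      rw [degree_X_pow]
      have := pair_lt (Finset.mem_range.1 hi) (Nat.mod_lt _ (by omega))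
        (hne i (Finset.mem_range.1 hi))
      exact_mod_cast this
    · refine lt_of_le_of_lt (degree_sum_le _ _) ?_
      rw [Finset.sup_lt_iff (WithBot.bot_lt_coe _)]
      intro d hd
      refine lt_of_le_of_lt (degree_C_mul_X_pow_le _ _) ?_
      exact_mod_cast (DD_bound ht d hd).1
  have heval : ∀ x ∈ (Finset.univ : Finset F), Q.eval x = 0 := by
    intro x _
    simp only [Q, eval_sub, eval_finsetSum, eval_pow, eval_X, eval_mul, eval_C]
    rw [← h x, sub_eq_zero]
    refine Finset.sum_congr rfl fun i _ => ?_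
    have h3 : (2 ^ (k + 1) + 1) * 2 ^ i = 2 ^ i + 2 ^ (i + (k + 1)) := by
      rw [pow_add 2 i (k + 1)]; ring
    show x ^ (2 ^ i + 2 ^ ((i + (k + 1)) % t)) = _
    rw [← pow_mul, h3, pow_add x (2 ^ i) (2 ^ (i + (k + 1))), pow_mod_of hF x (i + (k + 1)),
      ← pow_add]
  have hQ : Q = 0 := by
    refine eq_zero_of_degree_lt_of_eval_finset_eq_zero Finset.univ ?_ heval
    rw [Finset.card_univ, hcard]
    exact hdeg
  have hcoef : Q.coeff (2 ^ 0 + 2 ^ (k + 1)) = 1 := by
    simp only [Q, coeff_sub, finsetSum_coeff, coeff_X_pow, coeff_C_mul]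
    have h1 : ∑ d ∈ DD t k, c d * (if 2 ^ 0 + 2 ^ (k + 1) = d then (1 : F) else 0) = 0 := by
      refine Finset.sum_eq_zero fun d hd => ?_
      rw [if_neg, mul_zero]
      rintro rfl
      exact special_notMem ht hd
    rw [h1, sub_zero, Finset.sum_eq_single 0]
    · rw [if_pos]
      simp only [e]
      rw [zero_add, Nat.mod_eq_of_lt (by omega)]
    · intro i hi hi0
      rw [if_neg]
      intro heq
      have hi' := Finset.mem_range.1 hi
      rcases pair_inj (show 0 ≠ k + 1 by omega) (hne i hi') heq with ⟨h3, h4⟩ | ⟨h3, h4⟩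
      · exact hi0 h3.symm
      · rcases mod_cases hi' (show k + 1 < t by omega) with ⟨_, h⟩ | ⟨_, h⟩ <;>
          rw [h] at h3 <;> omega
    · intro hn
      exact absurd (Finset.mem_range.2 (by omega)) hn
  rw [hQ, coeff_zero] at hcoef
  exact zero_ne_one hcoef

end field

/-- For every k there is a prime t and a proper subset D of the weight-at-most-2 exponents below 2^t, closed under doubling mod 2^t−1 and under binary shadows, such that the F_2-valued functions on F_{2^t} spanned by x^d, d in D, admit no characterization by k-point constraints. -/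
theorem result :
    ∀ k : ℕ, ∃ t : ℕ, t.Prime ∧ ∃ D : Finset ℕ,
      (∀ d ∈ D, d < 2 ^ t ∧ (Nat.digits 2 d).sum ≤ 2) ∧
      (∃ d : ℕ, d < 2 ^ t ∧ (Nat.digits 2 d).sum ≤ 2 ∧ d ∉ D) ∧
      (∀ d ∈ D, d ≠ 0 → (2 * d - 1) % (2 ^ t - 1) + 1 ∈ D) ∧
      (∀ d ∈ D, ∀ e : ℕ, (∀ i : ℕ, e.testBit i = true → d.testBit i = true) → e ∈ D) ∧
      ¬ ∃ C : Set ((Fin k → GaloisField 2 t) × Set (Fin k → ZMod 2)),
          ∀ f : GaloisField 2 t → ZMod 2,
            ((∃ c : ℕ → GaloisField 2 t, ∀ x : GaloisField 2 t,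
                algebraMap (ZMod 2) (GaloisField 2 t) (f x) = ∑ d ∈ D, c d * x ^ d) ↔
              ∀ p ∈ C, (fun i => f (p.1 i)) ∈ p.2) := by
  intro k
  obtain ⟨t, hkt, htp⟩ := Nat.exists_infinite_primes (2 * k + 5)
  have ht : 2 * k + 4 < t := by omega
  refine ⟨t, htp, DD t k, DD_bound ht, ⟨2 ^ 0 + 2 ^ (k + 1),
    pair_lt (by omega) (by omega) (by omega), ?_, special_notMem ht⟩, DD_double ht,
    DD_shadow ht, ?_⟩
  · rw [digits_pair (by omega)]
  rintro ⟨C, hC⟩
  have ht0 : t ≠ 0 := by omega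
  let F := GaloisField 2 t
  haveI : Fintype F := Fintype.ofFinite F
  haveI : CharP F 2 := inferInstanceAs (CharP (GaloisField 2 t) 2)
  have hcard : Fintype.card F = 2 ^ t := by
    rw [← Nat.card_eq_fintype_card]
    exact GaloisField.card 2 t ht0
  have hF : ∀ x : F, x ^ (2 ^ t) = x := by
    intro x
    rw [← hcard]
    exact FiniteField.pow_card x
  have htr : ∀ y : F, algebraMap (ZMod 2) F (Algebra.trace (ZMod 2) F y) =
      ∑ i ∈ Finset.range t, y ^ (2 ^ i) := by
    intro y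
    rw [FiniteField.algebraMap_trace_eq_sum_pow]
    have h1 : Module.finrank (ZMod 2) F = t := GaloisField.finrank 2 ht0
    rw [h1]
    simp
  have hA := (hC (fun x => Algebra.trace (ZMod 2) F (x ^ (2 ^ (k + 1) + 1)))).2 ?_
  · obtain ⟨c, hc⟩ := hA
    refine special_not_mem (F := F) ht hF hcard c ?_
    intro x
    rw [← hc x]
    exact (htr _).symm
  · intro p hp
    obtain ⟨c, hc⟩ := exists_coeffs (F := F) p.1 (k + 1)
    have hB := (hC (fun x => Algebra.trace (ZMod 2) F
      (∑ l : Fin k, c l * x ^ (2 ^ (l : ℕ) + 1)))).1 ?_ p hp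
    · have heq : (fun i => Algebra.trace (ZMod 2) F (p.1 i ^ (2 ^ (k + 1) + 1))) =
          fun i => Algebra.trace (ZMod 2) F (∑ l : Fin k, c l * p.1 i ^ (2 ^ (l : ℕ) + 1)) := by
        funext i
        congr 1
        rw [pow_succ, hc i, Finset.sum_mul]
        refine Finset.sum_congr rfl fun l _ => ?_
        rw [pow_succ, mul_assoc]
      show (fun i => Algebra.trace (ZMod 2) F (p.1 i ^ (2 ^ (k + 1) + 1))) ∈ p.2
      rw [heq]
      exact hB
    · obtain ⟨c', hc'⟩ := mem_V.1 (trace_mem (F := F) ht hF c)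
      refine ⟨c', fun x => ?_⟩
      rw [← hc' x]
      exact htr _

end Pool.Agent.S14999
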