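import Pool.Statements.S15144
import Pool.Agent.V11259.FinCof

set_option autoImplicit false
open Pool Pool.MP_a2ec29_lc

namespace Pool.Agent.S15144

/-- the sets of natural numbers given by half-open intervals are the finite and cofinite sets -/
theorem range_eq : {X : Set ℕ | ∃ S : Finset ℕ, ∃ b : Bool,
    X = {x : ℕ | Xor' (b = true) (Odd (S.filter (fun s => s ≤ x)).card)}} =
    {X : Set ℕ | X.Finite ∨ Xᶜ.Finite} := by
  have hev : ∀ (S : Finset ℕ) (x : ℕ), (∀ s ∈ S, s ≤ x) → S.filter (fun s => s ≤ x) = S := by
    intro S x h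
    exact Finset.filter_true_of_mem h
  have hbd : ∀ S : Finset ℕ, ∃ N, ∀ s ∈ S, s ≤ N := fun S => ⟨S.sup id, fun s hs =>
    Finset.le_sup (f := id) hs⟩
  ext X
  simp only [Set.mem_ofPred_eq]
  constructor
  · rintro ⟨S, b, rfl⟩
    obtain ⟨N, hN⟩ := hbd S
    by_cases h : Xor' (b = true) (Odd S.card)
    · right
      refine (Set.finite_lt_nat N).subset fun x hx => ?_
      by_contra h1
      have h1 : ¬ x < N := h1
      apply hx
      show Xor' (b = true) (Odd (S.filter (fun s => s ≤ x)).card)
      rw [hev S x fun s hs => (hN s hs).trans (by omega)]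
      exact h
    · left
      refine (Set.finite_lt_nat N).subset fun x hx => ?_
      by_contra h1
      have h1 : ¬ x < N := h1
      apply h
      have hx : Xor' (b = true) (Odd (S.filter (fun s => s ≤ x)).card) := hx
      rwa [hev S x fun s hs => (hN s hs).trans (by omega)] at hx
  · intro hX
    -- finite sets
    have hfin : ∀ F : Finset ℕ, ∃ S : Finset ℕ, ∀ x, x ∈ F ↔
        Odd (S.filter (fun s => s ≤ x)).card := by
      intro F
      refine ⟨(F ∪ F.image (· + 1)).filter (fun s => ¬ (s ∈ F ∧ s ≠ 0 ∧ s - 1 ∈ F)), fun x => ?_⟩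
      induction x with
      | zero =>
        by_cases h0 : 0 ∈ F
        · have : ((F ∪ F.image (· + 1)).filter (fun s => ¬ (s ∈ F ∧ s ≠ 0 ∧ s - 1 ∈ F))).filter
              (fun s => s ≤ 0) = {0} := by
            ext s
            simp only [Finset.mem_filter, Finset.mem_union, Finset.mem_image,
              Finset.mem_singleton]
            constructor
            · rintro ⟨_, h⟩; omega
            · rintro rfl; simp [h0]
          rw [this]
          simp [h0]
        · have : ((F ∪ F.image (· + 1)).filter (fun s => ¬ (s ∈ F ∧ s ≠ 0 ∧ s - 1 ∈ F))).filter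
              (fun s => s ≤ 0) = ∅ := by
            ext s
            simp only [Finset.mem_filter, Finset.mem_union, Finset.mem_image,
              Finset.notMem_empty, iff_false]
            rintro ⟨⟨h1, _⟩, h⟩
            have : s = 0 := by omega
            subst this
            rcases h1 with h1 | ⟨a, _, ha⟩
            · exact h0 h1
            · omega
          rw [this]
          simp [h0]
      | succ x ih =>
        set S := (F ∪ F.image (· + 1)).filter (fun s => ¬ (s ∈ F ∧ s ≠ 0 ∧ s - 1 ∈ F)) with hS
        have hmem : x + 1 ∈ S ↔ ¬ (x + 1 ∈ F ↔ x ∈ F) := by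
          rw [hS]
          simp only [Finset.mem_filter, Finset.mem_union, Finset.mem_image]
          have e1 : (∃ a ∈ F, a + 1 = x + 1) ↔ x ∈ F := by
            constructor
            · rintro ⟨a, ha, h⟩
              have : a = x := by omega
              rwa [← this]
            · intro h; exact ⟨x, h, rfl⟩
          rw [e1]
          simp only [Nat.add_sub_cancel]
          tauto
        by_cases h : x + 1 ∈ S
        · have : S.filter (fun s => s ≤ x + 1) = insert (x + 1) (S.filter (fun s => s ≤ x)) := by
            ext s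
            simp only [Finset.mem_filter, Finset.mem_insert]
            constructor
            · rintro ⟨h1, h2⟩
              rcases Nat.lt_or_ge x s with h3 | h3
              · left; omega
              · right; exact ⟨h1, h3⟩
            · rintro (rfl | ⟨h1, h2⟩)
              · exact ⟨h, le_rfl⟩
              · exact ⟨h1, by omega⟩
          rw [this, Finset.card_insert_of_notMem (by simp), Nat.odd_add_one, ← ih]
          have := hmem.1 h
          tauto
        · have : S.filter (fun s => s ≤ x + 1) = S.filter (fun s => s ≤ x) := by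
            ext s
            simp only [Finset.mem_filter]
            constructor
            · rintro ⟨h1, h2⟩
              rcases Nat.lt_or_ge x s with h3 | h3
              · exfalso
                have : s = x + 1 := by omega
                subst this
                exact h h1
              · exact ⟨h1, h3⟩
            · rintro ⟨h1, h2⟩
              exact ⟨h1, by omega⟩
          rw [this, ← ih]
          have h5 : x + 1 ∈ F ↔ x ∈ F := by
            by_contra h6
            exact h (hmem.2 h6)
          exact h5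
    rcases hX with hX | hX
    · obtain ⟨S, hS⟩ := hfin hX.toFinset
      refine ⟨S, false, ?_⟩
      ext x
      have := hS x
      rw [Set.Finite.mem_toFinset] at this
      simp [Xor', this]
    · obtain ⟨S, hS⟩ := hfin hX.toFinset
      refine ⟨S, true, ?_⟩
      ext x
      have := hS x
      rw [Set.Finite.mem_toFinset] at this
      simp only [Set.mem_compl_iff] at this
      simp only [Xor', Set.mem_ofPred_eq]
      rw [← this]
      unfold Xor
      tauto


/-- The negation of the preceding statement: Take any computable infinite linear order L and computable Boolean algebra B isomorphic to the algebra of finite unions of half-open intervals of L. Then some computable copy of L makes B computably isomorphic to that copy's interval algebra. -/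
theorem result :
    ¬ (∀ (β : Type) [LinearOrder β] (l : ℕ ≃ β),
      ComputablePred (fun p : ℕ × ℕ => l p.1 ≤ l p.2) →
      ∀ (α : Type) [BooleanAlgebra α] (e : ℕ ≃ α),
        Computable₂ (fun m n : ℕ => e.symm (e m ⊔ e n)) →
        Computable₂ (fun m n : ℕ => e.symm (e m ⊓ e n)) →
        Computable (fun n : ℕ => e.symm (e n)ᶜ) →
        (∃ φ : α → Set β, Function.Injective φ ∧
            (∀ a b, φ (a ⊔ b) = φ a ∪ φ b) ∧
            (∀ a, φ aᶜ = (φ a)ᶜ) ∧
            Set.range φ = {X : Set β | ∃ S : Finset β, ∃ b : Bool,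
              X = {x : β | Xor' (b = true) (Odd (S.filter (fun s => s ≤ x)).card)}}) →
        ∃ l' : ℕ ≃ β, ComputablePred (fun p : ℕ × ℕ => l' p.1 ≤ l' p.2) ∧
          ∃ ψ : α → Set β, Function.Injective ψ ∧
            (∀ a b, ψ (a ⊔ b) = ψ a ∪ ψ b) ∧
            (∀ a, ψ aᶜ = (ψ a)ᶜ) ∧
            Set.range ψ = {X : Set β | ∃ S : Finset β, ∃ b : Bool,
              X = {x : β | Xor' (b = true) (Odd (S.filter (fun s => s ≤ x)).card)}} ∧
            ∃ c : ℕ → List ℕ × Bool, Computable c ∧
              ∀ n : ℕ, ψ (e n) = {x : β | Xor' ((c n).2 = true)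
                (Odd ((c n).1.filter (fun s => decide (l' s ≤ x))).length)}) := by
  intro H
  obtain ⟨e, he1, he2, he3, he4⟩ := V11259.FinCof.exists_copy
  obtain ⟨l', -, ψ, hψ1, hψ2, hψ3, hψ4, c, hc, hc2⟩ := H ℕ (Equiv.refl ℕ)
    (PrimrecPred.computablePred (Primrec.nat_le.comp Primrec.fst Primrec.snd))
    V11259.FinCof.FC e he1 he2 he3
    ⟨fun a => (a : Set ℕ), Subtype.val_injective, fun a b => rfl, fun a => rfl, by
      rw [range_eq]
      ext X
      constructor
      · rintro ⟨a, rfl⟩; exact a.2
      · intro h; exact ⟨⟨X, h⟩, rfl⟩⟩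
  rw [range_eq] at hψ4
  apply he4
  -- `ψ` preserves finiteness
  have hbot : ψ ⊥ = ∅ := by
    have h1 : ψ (⊥ ⊔ (⊥ : V11259.FinCof.FC)ᶜ) = ψ ⊥ ∪ (ψ ⊥)ᶜ := by rw [hψ2, hψ3]
    have h2 : (⊥ ⊔ (⊥ : V11259.FinCof.FC)ᶜ) = ⊤ := sup_compl_eq_top
    rw [h2, Set.union_compl_self] at h1
    have h3 : ψ (⊥ : V11259.FinCof.FC) = (ψ ⊤)ᶜ := by rw [← hψ3, compl_top]
    rw [h3, h1, Set.compl_univ]
  have hinf : ∀ a b, ψ (a ⊓ b) = ψ a ∩ ψ b := by
    intro a b
    have h1 : a ⊓ b = (aᶜ ⊔ bᶜ)ᶜ := by rw [compl_sup, compl_compl, compl_compl]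
    rw [h1, hψ3, hψ2, hψ3, hψ3, Set.compl_union, compl_compl, compl_compl]
  have hsingle : ∀ x : ℕ, ∀ h : ({x} : Set ℕ) ∈ V11259.FinCof.FC,
      (ψ ⟨{x}, h⟩).Finite := by
    intro x h
    by_contra hinfinite
    have hinfinite : (ψ ⟨{x}, h⟩).Infinite := hinfinite
    obtain ⟨y, hy⟩ := hinfinite.nonempty
    -- the singleton `{y}` is in the range
    obtain ⟨b, hb⟩ : ({y} : Set ℕ) ∈ Set.range ψ := by
      rw [hψ4]; exact Or.inl (Set.finite_singleton y)
    have h1 : ψ (b ⊓ ⟨{x}, h⟩) = {y} := by
      rw [hinf, hb]
      ext z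
      simp only [Set.mem_inter_iff, Set.mem_singleton_iff]
      exact ⟨fun h => h.1, fun h => ⟨h, by rw [h]; exact hy⟩⟩
    have h2 : ((b ⊓ ⟨{x}, h⟩ : V11259.FinCof.FC) : Set ℕ) = (b : Set ℕ) ∩ {x} := rfl
    by_cases hxb : x ∈ (b : Set ℕ)
    · have h3 : b ⊓ ⟨{x}, h⟩ = (⟨{x}, h⟩ : V11259.FinCof.FC) := by
        apply Subtype.ext
        rw [h2]
        ext z
        simp only [Set.mem_inter_iff, Set.mem_singleton_iff]
        exact ⟨fun h => h.2, fun h => ⟨by rw [h]; exact hxb, h⟩⟩
      rw [h3] at h1
      rw [h1] at hinfinite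
      exact hinfinite (Set.finite_singleton y)
    · have h3 : b ⊓ ⟨{x}, h⟩ = (⊥ : V11259.FinCof.FC) := by
        apply Subtype.ext
        rw [h2]
        ext z
        simp only [Set.mem_inter_iff, Set.mem_singleton_iff]
        constructor
        · rintro ⟨h4, rfl⟩; exact absurd h4 hxb
        · intro h4; exact absurd h4 (Set.notMem_empty z)
      rw [h3, hbot] at h1
      exact Set.singleton_ne_empty y h1.symm
  have hfin : ∀ a : V11259.FinCof.FC, (a : Set ℕ).Finite → (ψ a).Finite := by
    rintro ⟨A, hA⟩ hf
    have hf : A.Finite := hf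
    induction A, hf using Set.Finite.induction_on with
    | empty =>
      have : (⟨∅, hA⟩ : V11259.FinCof.FC) = ⊥ := rfl
      rw [this, hbot]
      exact Set.finite_empty
    | @insert x F _ hF ih =>
      have h1 : (⟨insert x F, hA⟩ : V11259.FinCof.FC) =
          ⟨{x}, Or.inl (Set.finite_singleton x)⟩ ⊔ ⟨F, Or.inl hF⟩ := rfl
      rw [h1, hψ2]
      exact (hsingle x _).union (ih _ hF)
  have hiff : ∀ a : V11259.FinCof.FC, (ψ a).Finite ↔ (a : Set ℕ).Finite := by
    intro a
    refine ⟨fun h => ?_, hfin a⟩
    rcases a.2 with h1 | h1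
    · exact h1
    · exfalso
      have h2 := hfin aᶜ h1
      rw [hψ3] at h2
      have h3 := h.union h2
      rw [Set.union_compl_self] at h3
      exact Set.infinite_univ h3
  -- finiteness can be read off the codes
  have hcode : ∀ n, (ψ (e n)).Finite ↔ ¬ Xor' ((c n).2 = true) (Odd (c n).1.length) := by
    intro n
    have hbd : ∃ N, ∀ s ∈ (c n).1, l' s ≤ N := by
      refine ⟨((c n).1.map l').sum, fun s hs => ?_⟩
      exact List.single_le_sum (by simp) _ (List.mem_map.2 ⟨s, hs, rfl⟩)
    obtain ⟨N, hN⟩ := hbd
    have hev : ∀ x, N ≤ x → (x ∈ ψ (e n) ↔ Xor' ((c n).2 = true) (Odd (c n).1.length)) := by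
      intro x hx
      rw [hc2]
      have : (c n).1.filter (fun s => decide (l' s ≤ x)) = (c n).1 := by
        rw [List.filter_eq_self]
        intro s hs
        simpa using (hN s hs).trans hx
      show Xor' ((c n).2 = true)
        (Odd ((c n).1.filter (fun s => decide (l' s ≤ x))).length) ↔ _
      rw [this]
    constructor
    · intro hf hx
      have h1 : Set.Ici N ⊆ ψ (e n) := fun x h => (hev x h).2 hx
      exact Set.Ici_infinite N (hf.subset h1)
    · intro hx
      refine (Set.finite_lt_nat N).subset fun x h => ?_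
      by_contra h1
      have h1 : ¬ x < N := h1
      exact hx ((hev x (by omega)).1 h)
  have hc3 : ComputablePred fun n => ¬ Xor' ((c n).2 = true) (Odd (c n).1.length) := by
    have p1 : PrimrecPred fun q : List ℕ × Bool => Odd q.1.length :=
      V11259.FinCof.odd_prim.comp (Primrec.list_length.comp Primrec.fst)
    have p2 : PrimrecPred fun q : List ℕ × Bool => q.2 = true :=
      Primrec.eq.comp Primrec.snd (Primrec.const true)
    have p3 : PrimrecPred fun q : List ℕ × Bool => ¬ Xor' (q.2 = true) (Odd q.1.length) :=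
      ((p2.and p1.not).or (p1.and p2.not)).not
    obtain ⟨D, hD, hD2⟩ := ComputablePred.computable_iff.1 p3.computablePred
    refine ComputablePred.computable_iff.2 ⟨fun n => D (c n), hD.comp hc, ?_⟩
    funext n
    exact congrFun hD2 (c n)
  refine hc3.of_eq fun n => ?_
  rw [← hcode, hiff]

end Pool.Agent.S15144
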