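import Pool.Statements.S15186
import Pool.Agent.Results.MP_a8f5d0_lc.LogSupply

set_option autoImplicit false
open Pool Pool.MP_a8f5d0_lc

namespace Pool.Agent.S15186

open Pool.Agent.Helper555.JDP in
/-- The mechanism of the frozen statement gives `Suffices`. -/
theorem suff {n m s : ℕ} {ε α β : ℝ} (hα : 0 ≤ α) (hβ : 0 < β) (hβ1 : β < 1)
    (h : ∀ supply : Fin m → ℕ, (∀ j, s ≤ supply j) →
      ∃ M : (Fin n → Finset (Fin m) → ℝ) → PMF (Fin n → Finset (Fin m)),
        (∀ v : Fin n → Finset (Fin m) → ℝ, (∀ i, v i ∈ GrossSubstitutes m) →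
          (∀ ω ∈ (M v).support, ∀ j : Fin m,
            (Finset.univ.filter (fun k : Fin n => j ∈ ω k)).card ≤ supply j) ∧
          (M v).toOuterMeasure {ω | ∀ ω' : Fin n → Finset (Fin m),
            (∀ j : Fin m, (Finset.univ.filter (fun k : Fin n => j ∈ ω' k)).card ≤ supply j) →
            ∑ k, v k (ω' k) - α * (n : ℝ) ≤ ∑ k, v k (ω k)} ≥ ENNReal.ofReal (1 - β)) ∧
        (∀ v : Fin n → Finset (Fin m) → ℝ, (∀ i, v i ∈ GrossSubstitutes m) →
          ∀ (i : Fin n) (w : Finset (Fin m) → ℝ), w ∈ GrossSubstitutes m →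
          ∀ S : Set ({k : Fin n // k ≠ i} → Finset (Fin m)),
            (M v).toOuterMeasure {ω | (fun k : {k : Fin n // k ≠ i} => ω k.1) ∈ S} ≤
              ENNReal.ofReal (Real.exp ε) *
                (M (Function.update v i w)).toOuterMeasure
                  {ω | (fun k : {k : Fin n // k ≠ i} => ω k.1) ∈ S})) :
    Suffices GrossSubstitutes n m ε α β s := by
  classical
  have hfin : ∀ (μ : PMF (Allocation n m)) (E : Set (Allocation n m)),
      μ.toOuterMeasure E ≠ ⊤ := by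
    intro μ E
    refine ne_top_of_le_ne_top ENNReal.one_ne_top ?_
    calc μ.toOuterMeasure E ≤ μ.toOuterMeasure Set.univ := μ.toOuterMeasure.mono (Set.subset_univ _)
      _ = 1 := by
          rw [PMF.toOuterMeasure_apply_eq_one_iff]
          exact Set.subset_univ _
  choose! M hM1 hM2 using h
  refine ⟨M, fun sup hsup => ⟨?_, ?_⟩⟩
  · intro i v w hv hw S
    have h1 := hM2 sup hsup v hv i w hw S
    unfold Pr
    rw [← ENNReal.toReal_ofReal (Real.exp_pos ε).le, ← ENNReal.toReal_mul]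
    exact ENNReal.toReal_mono (ENNReal.mul_ne_top ENNReal.ofReal_ne_top (hfin _ _)) h1
  · intro v hv
    obtain ⟨h1, h2⟩ := hM1 sup hsup v hv
    refine ⟨h1, ?_⟩
    have h3 : {ω : Allocation n m | ∀ ω' : Fin n → Finset (Fin m),
            (∀ j : Fin m, (Finset.univ.filter (fun k : Fin n => j ∈ ω' k)).card ≤ sup j) →
            ∑ k, v k (ω' k) - α * (n : ℝ) ≤ ∑ k, v k (ω k)} ⊆
        {ω | OPT sup v - α * n ≤ welfare v ω} := by
      intro ω hω
      have h4 : OPT sup v ≤ welfare v ω + α * n := by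
        refine OPT_le sup v _ ?_
        intro ω' hω'
        have := hω ω' hω'
        unfold welfare
        linarith
      show OPT sup v - α * n ≤ welfare v ω
      linarith
    have h5 : ENNReal.ofReal (1 - β) ≤ (M sup v).toOuterMeasure
        {ω | OPT sup v - α * n ≤ welfare v ω} := le_trans h2 ((M sup v).toOuterMeasure.mono h3)
    unfold Pr
    have h6 := ENNReal.toReal_mono (hfin _ _) h5
    rwa [ENNReal.toReal_ofReal (by linarith)] at h6

/-- The negation of the preceding statement: For each ε,α,β in (0,1) there is a supply s such that for all n, m and supplies ≥ s, some ε-jointly private mechanism on [0,1]-valued gross-substitute profiles always outputs feasible allocations with welfare ≥ OPT − αn with probability ≥ 1−β. -/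
theorem result :
    ¬ (∀ ε α β : ℝ, 0 < ε → ε < 1 → 0 < α → α < 1 → 0 < β → β < 1 →
  ∃ s : ℕ, ∀ n m : ℕ, ∀ supply : Fin m → ℕ, (∀ j, s ≤ supply j) →
  ∃ M : (Fin n → Finset (Fin m) → ℝ) → PMF (Fin n → Finset (Fin m)),
    (∀ v : Fin n → Finset (Fin m) → ℝ,
      (∀ i, (∀ S, 0 ≤ v i S ∧ v i S ≤ 1) ∧
        ∀ p q : Fin m → ℝ, p ≤ q → ∀ S : Finset (Fin m),
          (∀ T : Finset (Fin m), v i T - ∑ j ∈ T, p j ≤ v i S - ∑ j ∈ S, p j) →
          ∃ T : Finset (Fin m),
            (∀ U : Finset (Fin m), v i U - ∑ j ∈ U, q j ≤ v i T - ∑ j ∈ T, q j) ∧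
            ∀ j ∈ S, q j = p j → j ∈ T) →
      (∀ ω ∈ (M v).support, ∀ j : Fin m,
          (Finset.univ.filter (fun k : Fin n => j ∈ ω k)).card ≤ supply j) ∧
      (M v).toOuterMeasure {ω | ∀ ω' : Fin n → Finset (Fin m),
          (∀ j : Fin m, (Finset.univ.filter (fun k : Fin n => j ∈ ω' k)).card ≤ supply j) →
          ∑ k, v k (ω' k) - α * (n : ℝ) ≤ ∑ k, v k (ω k)} ≥ ENNReal.ofReal (1 - β)) ∧
    (∀ v : Fin n → Finset (Fin m) → ℝ,
      (∀ i, (∀ S, 0 ≤ v i S ∧ v i S ≤ 1) ∧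
        ∀ p q : Fin m → ℝ, p ≤ q → ∀ S : Finset (Fin m),
          (∀ T : Finset (Fin m), v i T - ∑ j ∈ T, p j ≤ v i S - ∑ j ∈ S, p j) →
          ∃ T : Finset (Fin m),
            (∀ U : Finset (Fin m), v i U - ∑ j ∈ U, q j ≤ v i T - ∑ j ∈ T, q j) ∧
            ∀ j ∈ S, q j = p j → j ∈ T) →
      ∀ (i : Fin n) (w : Finset (Fin m) → ℝ),
      ((∀ S, 0 ≤ w S ∧ w S ≤ 1) ∧
        ∀ p q : Fin m → ℝ, p ≤ q → ∀ S : Finset (Fin m),
          (∀ T : Finset (Fin m), w T - ∑ j ∈ T, p j ≤ w S - ∑ j ∈ S, p j) →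
          ∃ T : Finset (Fin m),
            (∀ U : Finset (Fin m), w U - ∑ j ∈ U, q j ≤ w T - ∑ j ∈ T, q j) ∧
            ∀ j ∈ S, q j = p j → j ∈ T) →
      ∀ S : Set ({k : Fin n // k ≠ i} → Finset (Fin m)),
        (M v).toOuterMeasure {ω | (fun k : {k : Fin n // k ≠ i} => ω k.1) ∈ S} ≤
          ENNReal.ofReal (Real.exp ε) *
            (M (Function.update v i w)).toOuterMeasure
              {ω | (fun k : {k : Fin n // k ≠ i} => ω k.1) ∈ S})) := by
  intro H
  obtain ⟨s, hs⟩ := H (1 / 2) (1 / 1000) (1 / 2) (by norm_num) (by norm_num) (by norm_num)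
    (by norm_num) (by norm_num) (by norm_num)
  have key : ∀ n m : ℕ, Pool.Agent.Helper555.JDP.sStar
      Pool.Agent.Helper555.JDP.GrossSubstitutes n m (1 / 2) (1 / 1000) (1 / 2) ≤ s := by
    intro n m
    exact Nat.sInf_le (suff (by norm_num) (by norm_num) (by norm_num) (hs n m))
  obtain ⟨m₀, hm₀⟩ := (Pool.Agent.Results.MP_a8f5d0_lc.LogSupply.result (1 / 2) (1 / 1000) (1 / 2)
    (by norm_num) (by norm_num) (by norm_num) (by norm_num) (by norm_num) (by norm_num)).2
  have hlog : Filter.Tendsto (fun m : ℕ => Real.log m / (2 * (1 / 2)))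
      Filter.atTop Filter.atTop :=
    (Real.tendsto_log_atTop.comp tendsto_natCast_atTop_atTop).atTop_div_const (by norm_num)
  obtain ⟨m, hm, hm2⟩ := ((hlog.eventually_gt_atTop (s : ℝ)).and
    (Filter.eventually_ge_atTop m₀)).exists
  obtain ⟨n, -, h1, h2⟩ := hm₀ m hm2
  have h3 := h2.trans (key n m)
  have h4 : ((Pool.Agent.Helper555.JDP.sStarWeak
      Pool.Agent.Helper555.JDP.GrossSubstitutes n m (1 / 2) (1 / 1000) (1 / 2) : ℕ) : ℝ) ≤ s := by
    exact_mod_cast h3
  linarith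

end Pool.Agent.S15186
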