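import Pool.Statements.S15550

set_option autoImplicit false
open Pool Pool.MP_e6ce3e_lc

namespace Pool.Agent.S15550

open Set

/-- A set all of whose initial segments are countable is countable, when every well-ordered
subset of the order is countable. -/
theorem countable_of_initial {L : Type} [LinearOrder L]
    (h1 : ∀ S : Set L, S.WellFoundedOn (· < ·) → S.Countable)
    (A : Set L) (hA : ∀ a ∈ A, (A ∩ Iic a).Countable) : A.Countable := by
  classical
  let r : L → L → Prop := WellOrderingRel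
  have hwf : WellFounded r := WellOrderingRel.isWellOrder.wf
  let S : Set L := {a | a ∈ A ∧ ∀ b ∈ A, r b a → b < a}
  have hS : S.WellFoundedOn (· < ·) := by
    rw [Set.wellFoundedOn_iff]
    refine Subrelation.wf ?_ hwf
    intro a b hab
    obtain ⟨hlt, ha, hb⟩ := hab
    rcases trichotomous_of r a b with h | h | h
    · exact h
    · exact absurd hlt (by rw [h]; exact lt_irrefl _)
    · exact absurd (ha.2 b hb.1 h) (not_lt.mpr hlt.le)
  have hc := h1 S hS
  have hcof : A ⊆ ⋃ s ∈ S, (A ∩ Iic s) := by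
    intro a ha
    let P : Set L := {b | b ∈ A ∧ a ≤ b}
    have hP : P.Nonempty := ⟨a, ha, le_rfl⟩
    let b := hwf.min P hP
    have hb : b ∈ P := hwf.min_mem P hP
    have hbS : b ∈ S := by
      refine ⟨hb.1, ?_⟩
      intro c hcA hcb
      have : c ∉ P := fun h => hwf.not_lt_min P h hcb
      have hca : c < a := by
        by_contra hn
        exact this ⟨hcA, not_lt.mp hn⟩
      exact lt_of_lt_of_le hca hb.2
    simp only [mem_iUnion]
    exact ⟨b, hbS, ha, hb.2⟩
  refine (hc.biUnion ?_).mono hcof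
  intro s hs
  exact hA s hs.1

theorem countable_of_final {L : Type} [LinearOrder L]
    (h2 : ∀ S : Set L, S.WellFoundedOn (· > ·) → S.Countable)
    (A : Set L) (hA : ∀ a ∈ A, (A ∩ Ici a).Countable) : A.Countable :=
  countable_of_initial (L := Lᵒᵈ) h2 A hA

/-- The relation: the interval between `x` and `y` is countable. -/
def cls {L : Type} [LinearOrder L] : Setoid L where
  r x y := (uIcc x y).Countable
  iseqv :=
    { refl := fun x => by simp
      symm := fun {x y} h => by rwa [uIcc_comm]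
      trans := fun {x y z} h h' => (h.union h').mono uIcc_subset_uIcc_union_uIcc }

theorem cls_countable {L : Type} [LinearOrder L]
    (h1 : ∀ S : Set L, S.WellFoundedOn (· < ·) → S.Countable)
    (h2 : ∀ S : Set L, S.WellFoundedOn (· > ·) → S.Countable) (x : L) :
    {y : L | (uIcc x y).Countable}.Countable := by
  have hU : ({y : L | x ≤ y ∧ (uIcc x y).Countable}).Countable := by
    refine countable_of_initial h1 _ ?_
    intro a ha
    refine ha.2.mono ?_
    intro z hz
    rw [uIcc_of_le ha.1]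
    exact ⟨hz.1.1, hz.2⟩
  have hD : ({y : L | y ≤ x ∧ (uIcc x y).Countable}).Countable := by
    refine countable_of_final h2 _ ?_
    intro a ha
    refine ha.2.mono ?_
    intro z hz
    rw [uIcc_of_ge ha.1]
    exact ⟨hz.2, hz.1.1⟩
  refine (hU.union hD).mono ?_
  intro y hy
  rcases le_total x y with h | h
  · exact Or.inl ⟨h, hy⟩
  · exact Or.inr ⟨h, hy⟩

/-- An uncountable short order has a suborder with at least two points between any two points of
which there are further points, with uncountable intervals of the whole order. -/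
theorem exists_dense {L : Type} [LinearOrder L]
    (h1 : ∀ S : Set L, S.WellFoundedOn (· < ·) → S.Countable)
    (h2 : ∀ S : Set L, S.WellFoundedOn (· > ·) → S.Countable)
    (h3 : Cardinal.aleph 1 ≤ Cardinal.mk L) :
    ∃ T : Set L, (∃ a ∈ T, ∃ b ∈ T, a < b) ∧
      (∀ a ∈ T, ∀ b ∈ T, a < b → (∃ c ∈ T, a < c ∧ c < b) ∧ ¬ (Ioo a b).Countable) := by
  classical
  let rep : L → L := fun x => (Quotient.mk (cls : Setoid L) x).out
  have hrep : ∀ x, (uIcc (rep x) x).Countable := fun x => Quotient.exact (Quotient.out_eq (Quotient.mk (cls : Setoid L) x))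
  have hrr : ∀ x, rep (rep x) = rep x := fun x => by
    simp only [rep, Quotient.out_eq]
  have heq : ∀ x y, (uIcc x y).Countable → rep x = rep y := fun x y h => by
    simp only [rep]
    rw [Quotient.sound (s := cls) h]
  let T : Set L := {x | rep x = x}
  have hunc : ¬ (univ : Set L).Countable := by
    rw [Set.countable_univ_iff, ← Cardinal.mk_le_aleph0_iff]
    intro h
    have := h3.trans h
    exact absurd this (not_le.mpr Cardinal.aleph0_lt_aleph_one)
  have hIoo : ∀ a ∈ T, ∀ b ∈ T, a < b → ¬ (Ioo a b).Countable := by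
    intro a ha b hb hab hc
    have : (uIcc a b).Countable := by
      rw [uIcc_of_le hab.le]
      refine ((hc.insert a).insert b).mono ?_
      intro z hz
      rcases eq_or_lt_of_le hz.1 with h | h
      · right; left; exact h.symm
      · rcases eq_or_lt_of_le hz.2 with h' | h'
        · left; exact h'
        · right; right; exact ⟨h, h'⟩
    have h' := heq a b this
    have ha' : rep a = a := ha
    have hb' : rep b = b := hb
    rw [ha', hb'] at h'
    exact absurd hab (by rw [h']; exact lt_irrefl _)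
  refine ⟨T, ?_, ?_⟩
  · -- nontrivial
    have : Nonempty L := by
      by_contra hne
      rw [not_nonempty_iff] at hne
      exact hunc (Set.countable_univ_iff.mpr inferInstance)
    obtain ⟨x⟩ := this
    have hcx := cls_countable h1 h2 x
    obtain ⟨y, hy⟩ : ∃ y, y ∉ {y : L | (uIcc x y).Countable} := by
      by_contra hn
      push Not at hn
      exact hunc (hcx.mono (fun z _ => hn z))
    have hne : rep x ≠ rep y := by
      intro h
      apply hy
      have h1' := hrep x
      have h2' := hrep y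
      rw [uIcc_comm] at h1'
      rw [h] at h1'
      exact (h1'.union h2').mono uIcc_subset_uIcc_union_uIcc
    rcases lt_or_gt_of_ne hne with h | h
    · exact ⟨rep x, hrr x, rep y, hrr y, h⟩
    · exact ⟨rep y, hrr y, rep x, hrr x, h⟩
  · intro a ha b hb hab
    refine ⟨?_, hIoo a ha b hb hab⟩
    have hca := cls_countable h1 h2 a
    have hcb := cls_countable h1 h2 b
    obtain ⟨z, hz, hz'⟩ : ∃ z ∈ Ioo a b, z ∉ {y : L | (uIcc a y).Countable} ∪ {y : L | (uIcc b y).Countable} := by
      by_contra hn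
      push Not at hn
      exact hIoo a ha b hb hab ((hca.union hcb).mono hn)
    refine ⟨rep z, hrr z, ?_, ?_⟩
    · by_contra hn
      rw [not_lt] at hn
      apply hz'
      left
      refine (hrep z).mono ?_
      rw [uIcc_of_le (hn.trans hz.1.le), uIcc_of_le hz.1.le]
      exact Icc_subset_Icc_left hn
    · by_contra hn
      rw [not_lt] at hn
      apply hz'
      right
      refine (hrep z).mono ?_
      rw [uIcc_of_ge (hz.2.le.trans hn), uIcc_of_ge hz.2.le]
      exact Icc_subset_Icc_right hn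

/-- A copy of the rationals strictly between two points of a dense set. -/
theorem exists_rat {L : Type} [LinearOrder L] (T : Set L)
    (hT : ∀ a ∈ T, ∀ b ∈ T, a < b → ∃ c ∈ T, a < c ∧ c < b) (a b : L) (ha : a ∈ T) (hb : b ∈ T)
    (hab : a < b) : ∃ f : ℚ ↪o L, ∀ q, a < f q ∧ f q < b := by
  let D : Type := {x : L // x ∈ T ∧ a < x ∧ x < b}
  have : DenselyOrdered D := ⟨by
    rintro ⟨x, hx, hax, hxb⟩ ⟨y, hy, hay, hyb⟩ hxy
    obtain ⟨c, hc, hxc, hcy⟩ := hT x hx y hy hxy
    exact ⟨⟨c, hc, hax.trans hxc, hcy.trans hyb⟩, hxc, hcy⟩⟩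
  have : Nontrivial D := by
    obtain ⟨c, hc, hac, hcb⟩ := hT a ha b hb hab
    obtain ⟨d, hd, hcd, hdb⟩ := hT c hc b hb hcb
    refine ⟨⟨⟨c, hc, hac, hcb⟩, ⟨d, hd, hac.trans hcd, hdb⟩, ?_⟩⟩
    intro h
    exact hcd.ne (congrArg Subtype.val h)
  obtain ⟨f⟩ := Order.embedding_from_countable_to_dense ℚ D
  refine ⟨f.trans (OrderEmbedding.subtype _), ?_⟩
  intro q
  exact ⟨(f q).2.2.1, (f q).2.2.2⟩

/-- The negation of the preceding statement: There is a linear order L with no uncountable well-ordered or reverse-well-ordered subset, of size at least aleph_1, mapping monotonically onto every size-aleph_1 linear order embeddable in it, but with no monotone surjection onto the rationals. -/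
theorem result :
    ¬ (∃ (L : Type) (_ : LinearOrder L),
      (∀ S : Set L, S.WellFoundedOn (· < ·) → S.Countable) ∧
      (∀ S : Set L, S.WellFoundedOn (· > ·) → S.Countable) ∧
      Cardinal.aleph 1 ≤ Cardinal.mk L ∧
      (∀ (K : Type) [LinearOrder K], Cardinal.mk K = Cardinal.aleph 1 →
          Nonempty (K ↪o L) → ∃ f : L → K, Monotone f ∧ Function.Surjective f) ∧
      ¬ ∃ f : L → ℚ, Monotone f ∧ Function.Surjective f) := by
  rintro ⟨L, _, h1, h2, h3, h4, h5⟩
  apply h5
  obtain ⟨T, ⟨a, ha, b, hb, hab⟩, hT⟩ := exists_dense h1 h2 h3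
  have hT' : ∀ a ∈ T, ∀ b ∈ T, a < b → ∃ c ∈ T, a < c ∧ c < b := fun a ha b hb hab => (hT a ha b hb hab).1
  obtain ⟨c, hc, hac, hcb⟩ := hT' a ha b hb hab
  obtain ⟨d, hd, hcd, hdb⟩ := hT' c hc b hb hcb
  obtain ⟨e, he⟩ := exists_rat T hT' a c ha hc hac
  obtain ⟨g, hg⟩ := exists_rat T hT' d b hd hb hdb
  have hX : Cardinal.aleph 1 ≤ Cardinal.mk (Ioo c d : Set L) := by
    have := (hT c hc d hd hcd).2
    rw [← Cardinal.le_aleph0_iff_set_countable, not_le] at this
    rw [← Cardinal.succ_aleph0]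
    exact Order.succ_le_of_lt this
  obtain ⟨X, hXs, hXc⟩ := Cardinal.le_mk_iff_exists_subset.mp hX
  let K : Type := (ℚ ⊕ₗ X) ⊕ₗ ℚ
  have hK : Cardinal.mk K = Cardinal.aleph 1 := by
    have : Cardinal.mk K = Cardinal.mk ((ℚ ⊕ X) ⊕ ℚ) := by
      refine Cardinal.mk_congr ?_
      exact (ofLex : (ℚ ⊕ₗ X) ⊕ₗ ℚ ≃ (ℚ ⊕ₗ X) ⊕ ℚ).trans (Equiv.sumCongr (ofLex : ℚ ⊕ₗ X ≃ ℚ ⊕ X) (Equiv.refl _))
    rw [this]
    have hle : Cardinal.aleph0 ≤ Cardinal.aleph 1 := Cardinal.aleph0_le_aleph 1
    simp only [Cardinal.mk_sum, Cardinal.lift_id, Cardinal.mkRat, hXc]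
    rw [Cardinal.add_eq_right hle hle, Cardinal.add_eq_left hle hle]
  -- the embedding of K in L
  let φ : K → L := fun x => match ofLex x with
    | Sum.inl y => (match ofLex y with
      | Sum.inl q => e q
      | Sum.inr z => z.1)
    | Sum.inr q => g q
  have hφ : StrictMono φ := by
    intro x y hxy
    rcases x with (x | x) | x <;> rcases y with (y | y) | y
    · exact e.strictMono (Sum.Lex.inl_lt_inl_iff.mp (Sum.Lex.inl_lt_inl_iff.mp hxy))
    · exact (he x).2.trans (hXs y.2).1
    · exact (he x).2.trans (hcd.trans (hg y).1)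
    · exact absurd (Sum.Lex.inl_lt_inl_iff.mp hxy) Sum.Lex.not_inr_lt_inl
    · have h' : x < y := Sum.Lex.inr_lt_inr_iff.mp (Sum.Lex.inl_lt_inl_iff.mp hxy)
      exact h'
    · exact (hXs x.2).2.trans (hg y).1
    · exact absurd hxy Sum.Lex.not_inr_lt_inl
    · exact absurd hxy Sum.Lex.not_inr_lt_inl
    · exact g.strictMono (Sum.Lex.inr_lt_inr_iff.mp hxy)
  obtain ⟨f, hfm, hfs⟩ := h4 K hK ⟨OrderEmbedding.ofStrictMono φ hφ⟩
  -- collapse K onto the rationals
  have : Countable ((ℚ ⊕ₗ Unit) ⊕ₗ ℚ) := inferInstanceAs (Countable ((ℚ ⊕ Unit) ⊕ ℚ))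
  obtain ⟨ψ⟩ : Nonempty ((ℚ ⊕ₗ Unit) ⊕ₗ ℚ ≃o ℚ) := Order.iso_of_countable_dense _ _
  let χ : K → (ℚ ⊕ₗ Unit) ⊕ₗ ℚ := fun x => match ofLex x with
    | Sum.inl y => (match ofLex y with
      | Sum.inl q => toLex (Sum.inl (toLex (Sum.inl q)))
      | Sum.inr _ => toLex (Sum.inl (toLex (Sum.inr ()))))
    | Sum.inr q => toLex (Sum.inr q)
  have hχ : Monotone χ := by
    intro x y hxy
    rcases x with (x | x) | x <;> rcases y with (y | y) | y
    · have h' : x ≤ y := Sum.Lex.inl_le_inl_iff.mp (Sum.Lex.inl_le_inl_iff.mp hxy)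
      exact Sum.Lex.inl_le_inl_iff.mpr (Sum.Lex.inl_le_inl_iff.mpr h')
    · exact Sum.Lex.inl_le_inl_iff.mpr (Sum.Lex.inl_le_inr _ _)
    · exact Sum.Lex.inl_le_inr _ _
    · exact absurd (Sum.Lex.inl_le_inl_iff.mp hxy) Sum.Lex.not_inr_le_inl
    · exact le_rfl
    · exact Sum.Lex.inl_le_inr _ _
    · exact absurd hxy Sum.Lex.not_inr_le_inl
    · exact absurd hxy Sum.Lex.not_inr_le_inl
    · exact Sum.Lex.inr_le_inr_iff.mpr (Sum.Lex.inr_le_inr_iff.mp hxy)
  have hXne : Nonempty X := by
    rw [← Cardinal.mk_ne_zero_iff, hXc]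
    exact (Cardinal.aleph_pos 1).ne'
  obtain ⟨x0⟩ := hXne
  have hχs : Function.Surjective χ := by
    intro y
    rcases y with (y | y) | y
    · exact ⟨toLex (Sum.inl (toLex (Sum.inl y))), rfl⟩
    · exact ⟨toLex (Sum.inl (toLex (Sum.inr x0))), rfl⟩
    · exact ⟨toLex (Sum.inr y), rfl⟩
  exact ⟨fun x => ψ (χ (f x)), fun x y h => ψ.monotone (hχ (hfm h)),
    ψ.surjective.comp (hχs.comp hfs)⟩

end Pool.Agent.S15550
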