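import Pool.Statements.S15660
-- import your own Pool.Agent.* helpers here
import Pool.Agent.V11253.RO.Main

set_option autoImplicit false
open FirstOrder FirstOrder.Language
open Pool Pool.MP_fedda4_lc

namespace Pool.Agent.S15660

/-- The negation of the preceding statement: Every complete theory of linear orders that has a computably presentable model and a prime model (one elementarily embedding into all models) also has a prime model that is computably presentable. -/
theorem result :
    ¬ (∀ T : Language.order.Theory, T.IsComplete →
      (∀ φ ∈ Language.order.linearOrderTheory, T ⊨ᵇ φ) →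
      (∃ (M : Type) (_ : Language.order.Structure M), M ⊨ T ∧
        ∃ f : M → ℕ, Function.Injective f ∧
          ComputablePred (fun n : ℕ => n ∈ Set.range f) ∧
          ComputablePred (fun p : ℕ × ℕ => ∃ x y : M, f x = p.1 ∧ f y = p.2 ∧
            Structure.RelMap (IsOrdered.leSymb : Language.order.Relations 2) ![x, y])) →
      (∃ (M : Type) (_ : Language.order.Structure M), M ⊨ T ∧
        ∀ (N : Type) (_ : Language.order.Structure N), N ⊨ T →
          Nonempty (M ↪ₑ[Language.order] N)) →
      ∃ (M : Type) (_ : Language.order.Structure M), M ⊨ T ∧
        (∀ (N : Type) (_ : Language.order.Structure N), N ⊨ T →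
          Nonempty (M ↪ₑ[Language.order] N)) ∧
        ∃ f : M → ℕ, Function.Injective f ∧
          ComputablePred (fun n : ℕ => n ∈ Set.range f) ∧
          ComputablePred (fun p : ℕ × ℕ => ∃ x y : M, f x = p.1 ∧ f y = p.2 ∧
            Structure.RelMap (IsOrdered.leSymb : Language.order.Relations 2) ![x, y])) := by
  intro H
  have hlin : ∀ φ ∈ Language.order.linearOrderTheory, V11253.RO.T ⊨ᵇ φ := fun φ hφ =>
    Theory.models_sentence_of_mem
      (Theory.realize_sentence_of_mem (M := V11253.RO.W) Language.order.linearOrderTheory hφ)
  obtain ⟨M, sM, hM, hprime, f, hf, -, hcomp⟩ := H V11253.RO.T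
    (completeTheory.isComplete Language.order V11253.RO.W) hlin
    ⟨V11253.RO.W, V11253.RO.structW, inferInstance, V11253.RO.code, V11253.RO.code_injective,
      V11253.RO.computable_range, V11253.RO.computable_le⟩
    ⟨V11253.RO.P, V11253.RO.structP, V11253.RO.modelP, fun N sN hN => V11253.RO.primeP N hN⟩
  exact V11253.RO.no_computable_prime M hM (hprime V11253.RO.P V11253.RO.structP V11253.RO.modelP)
    f hf hcomp

end Pool.Agent.S15660
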