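import Pool.Statements.S15671
import Pool.Agent.V11260.LP.H4
-- import your own Pool.Agent.* helpers here

set_option autoImplicit false
open MeasureTheory
open Pool Pool.MP_0eac64_mp

namespace Pool.Agent.S15671

/-- For every Cantor group with a minimal translation by α, some dense set of continuous real f exists such that, for Haar-a.e. ω, the ℓ² eigenvectors of the Schrödinger operator with potential f(ω+nα) span a dense subspace of ℓ²(ℤ). -/
theorem result :
    ∀ (Ω : Type) [AddCommGroup Ω] [TopologicalSpace Ω] [IsTopologicalAddGroup Ω]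
      [CompactSpace Ω] [T2Space Ω] [TotallyDisconnectedSpace Ω]
      [TopologicalSpace.MetrizableSpace Ω] [Infinite Ω]
      [MeasurableSpace Ω] [BorelSpace Ω]
      (μ : Measure Ω) [μ.IsAddHaarMeasure] (α : Ω),
      Dense (Set.range (fun n : ℤ => n • α)) →
      ∃ D : Set C(Ω, ℝ), Dense D ∧
        ∀ f ∈ D, ∀ᵐ ω ∂μ,
          (Submodule.span ℂ
            {ψ : lp (fun _ : ℤ => ℂ) 2 |
              ∃ E : ℝ, ∀ n : ℤ,
                ψ (n + 1) + ψ (n - 1) + (f (ω + n • α) : ℂ) * ψ n = (E : ℂ) * ψ n}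
            ).topologicalClosure = ⊤ := by
  intro Ω _ _ _ _ _ _ _ _ _ _ μ _ α hα
  refine ⟨{F : C(Ω, ℝ) | ∀ᵐ ω ∂μ,
      (Submodule.span ℂ
        {ψ : lp (fun _ : ℤ => ℂ) 2 |
          ∃ E : ℝ, ∀ n : ℤ,
            ψ (n + 1) + ψ (n - 1) + (F (ω + n • α) : ℂ) * ψ n = (E : ℂ) * ψ n}
        ).topologicalClosure = ⊤}, ?_, fun f hf => hf⟩
  rw [Metric.dense_iff]
  intro f r hr
  obtain ⟨F, hF, hF'⟩ := Pool.Agent.V11260.LP.main_haar μ α hα f (ε := min (r / 2) 1)
    (by positivity) (min_le_right _ _)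
  refine ⟨F, ?_, hF'⟩
  rw [Metric.mem_ball, dist_eq_norm]
  have := min_le_left (r / 2) 1
  linarith

end Pool.Agent.S15671
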