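import Pool.Statements.S15828
-- import your own Pool.Agent.* helpers here
import Pool.Agent.V11263.CheckB
import Pool.Agent.V11263.CheckC

set_option autoImplicit false
open Pool Pool.MP_f387d3_mp

namespace Pool.Agent.S15828

open Pool.Agent.V11263.Check

/-- monotonicity up to a distance `C` past the turning point -/
lemma mono (C : ℕ) : ∃ N₀ : ℕ, ∀ N : ℕ, N₀ ≤ N → ∀ b : ℕ,
    (N : ℝ) / Real.sqrt 2 - C ≤ (N : ℝ) - 2 * b → 0 < D N b := by
  obtain ⟨K, hK⟩ : ∃ K, K = 3 * C + 3 := ⟨_, rfl⟩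
  refine ⟨1000 * (K + 3 * K ^ 2) * K ^ 2, ?_⟩
  intro N hN b
  have hKR : (K : ℝ) = 3 * C + 3 := by rw [hK]; push_cast; ring
  have hC0 : (0 : ℝ) ≤ C := Nat.cast_nonneg C
  have hNR : 1000 * ((K : ℝ) + 3 * K ^ 2) * K ^ 2 ≤ N := by exact_mod_cast hN
  have hK3 : (3 : ℝ) ≤ K := by rw [hKR]; linarith
  have hNK : 1000 * (K : ℝ) ≤ N := by nlinarith
  have hs : 0 < Real.sqrt 2 := by positivity
  have hs2 : Real.sqrt 2 ^ 2 = 2 := Real.sq_sqrt (by norm_num)
  have hsu : Real.sqrt 2 ≤ 1.4143 := by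
    rw [show (1.4143 : ℝ) = Real.sqrt (1.4143 ^ 2) by rw [Real.sqrt_sq (by norm_num)]]
    exact Real.sqrt_le_sqrt (by norm_num)
  have hsl : 1.414 ≤ Real.sqrt 2 := by
    rw [show (1.414 : ℝ) = Real.sqrt (1.414 ^ 2) by rw [Real.sqrt_sq (by norm_num)]]
    exact Real.sqrt_le_sqrt (by norm_num)
  have hdiv : (N : ℝ) / Real.sqrt 2 = N * Real.sqrt 2 / 2 := by
    rw [div_eq_div_iff hs.ne' (by norm_num)]
    nlinarith
  induction b using Nat.strong_induction_on with
  | _ b ih =>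
    intro hb
    rw [hdiv] at hb
    obtain ⟨m, hm⟩ : ∃ m, m = (N : ℝ) - 2 * b := ⟨_, rfl⟩
    have hlow : (N : ℝ) / 2 ≤ (N : ℝ) - 2 * b := by
      refine le_trans ?_ hb
      nlinarith
    apply main_pos K N b (by omega) hN hlow
    · rw [← hm] at hb ⊢
      have h1 : 0 ≤ (N : ℝ) * Real.sqrt 2 / 2 - C := by nlinarith
      have h2 : ((N : ℝ) * Real.sqrt 2 / 2 - C) ^ 2 ≤ m ^ 2 := pow_le_pow_left₀ h1 hb 2
      have h3 : ((N : ℝ) * Real.sqrt 2 / 2 - C) ^ 2 =
          (N:ℝ) ^ 2 / 2 - Real.sqrt 2 * (C * N) + C ^ 2 := by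
        linear_combination ((N:ℝ) ^ 2 / 4) * hs2
      have h4 : Real.sqrt 2 * ((C:ℝ) * N) ≤ 1.4143 * (C * N) := by
        apply mul_le_mul_of_nonneg_right hsu
        positivity
      have h5 : 0 ≤ (C:ℝ) * N := by positivity
      rw [hKR]
      nlinarith
    · intro i hi
      apply ih i hi
      have : (i : ℝ) ≤ b := by exact_mod_cast hi.le
      linarith

lemma Y_pos {N b : ℕ} (h : ∀ i < b, 0 < D N i) : 0 < Y N b := by
  induction b with
  | zero => rw [Y_zero]; norm_num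
  | succ b ih =>
    have h1 := ih (fun i hi => h i (by omega))
    have h2 := h b (by omega)
    unfold D at h2
    linarith

lemma normSq_H (a b : ℕ) : ‖H (a + 1) (b + 1)‖ ^ 2 =
    (Y (a + b + 1) (b + 1) + Y (a + b) b) ^ 2 + (Y (a + b) b) ^ 2 := by
  have h1 : H (a + 1) (b + 1) =
      ((l a (b + 1) - l a b : ℤ) : ℂ) - Complex.I * ((l a b : ℤ) : ℂ) := by
    simp [H]
  rw [h1, ← Complex.normSq_eq_norm_sq, Complex.normSq_apply]
  simp only [Complex.sub_re, Complex.sub_im, Complex.mul_re, Complex.mul_im, Complex.I_re,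
    Complex.I_im, Complex.intCast_re, Complex.intCast_im]
  unfold Y
  rw [show a + b + 1 - (b + 1) = a by omega, show a + b - b = a by omega]
  have h2 : ((-1 : ℝ) ^ b) ^ 2 = 1 := by rw [← pow_mul, mul_comm, pow_mul]; norm_num
  rw [pow_succ]
  push_cast
  linear_combination (-(((l a (b + 1) : ℤ) : ℝ) - l a b) ^ 2 - ((l a b : ℤ) : ℝ) ^ 2) * h2

/-- beyond the turning point the probability increases towards the centre -/
lemma step_lt (C : ℕ) : ∃ n₀ : ℕ, ∀ n : ℕ, n₀ ≤ n → ∀ p q : ℕ, p + q = n + 1 → 1 ≤ p →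
    ((n : ℝ) + 1) / Real.sqrt 2 - C ≤ (p : ℝ) - q →
    2 ≤ p ∧ ‖H p q‖ ^ 2 < ‖H (p - 1) (q + 1)‖ ^ 2 := by
  obtain ⟨N₀, hN₀⟩ := mono (C + 1)
  refine ⟨N₀ + 10 * C + 20, ?_⟩
  intro n hn p q hpq hp hx
  have hs : 0 < Real.sqrt 2 := by positivity
  have hs2 : Real.sqrt 2 ^ 2 = 2 := Real.sq_sqrt (by norm_num)
  have hsl : 1 ≤ Real.sqrt 2 := by
    rw [show (1 : ℝ) = Real.sqrt 1 by simp]
    exact Real.sqrt_le_sqrt (by norm_num)
  have hsu : Real.sqrt 2 ≤ 1.5 := by
    rw [show (1.5 : ℝ) = Real.sqrt (1.5 ^ 2) by rw [Real.sqrt_sq (by norm_num)]]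
    exact Real.sqrt_le_sqrt (by norm_num)
  have hnR : (N₀ : ℝ) + 10 * C + 20 ≤ n := by exact_mod_cast hn
  have hN0 : (0 : ℝ) ≤ N₀ := Nat.cast_nonneg _
  have hC0 : (0 : ℝ) ≤ C := Nat.cast_nonneg C
  have hdiv : ((n : ℝ) + 1) / 2 ≤ ((n : ℝ) + 1) / Real.sqrt 2 := by
    apply div_le_div_of_nonneg_left <;> linarith
  have hp2 : 2 ≤ p := by
    have hpR : (p : ℝ) + q = n + 1 := by exact_mod_cast hpq
    have : (2 : ℝ) ≤ p := by linarith
    exact_mod_cast this
  refine ⟨hp2, ?_⟩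
  obtain ⟨a, rfl⟩ : ∃ a, p = a + 2 := ⟨p - 2, by omega⟩
  rw [show a + 2 - 1 = a + 1 by omega]
  rcases q with _ | b
  · -- right end
    rw [normSq_H]
    have h1 : H (a + 2) 0 = 1 := by simp [H]
    have h2 : a + 0 = a := rfl
    rw [h1, h2, Y_zero]
    have h3 : 0 < D (a + 1) 0 := by
      apply hN₀ (a + 1) (by omega) 0
      have e : (n : ℝ) = a + 1 := by
        have : n = a + 1 := by omega
        rw [this]; push_cast; ring
      have h4 : ((a + 1 : ℕ) : ℝ) / Real.sqrt 2 ≤ ((a + 1 : ℕ) : ℝ) := div_le_self (by positivity) hsl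
      push_cast at h4 ⊢
      linarith
    have h4 : 0 < Y (a + 1) 1 := by
      unfold D at h3
      rw [Y_zero] at h3
      simpa using (by linarith : 0 < Y (a + 1) (0 + 1))
    simp only [norm_one, one_pow, Nat.zero_add]
    nlinarith
  · -- interior
    have h1 := normSq_H (a + 1) b
    have h2 := normSq_H a (b + 1)
    rw [show a + 1 + 1 = a + 2 by omega] at h1
    rw [h1, h2]
    rw [show a + (b + 1) + 1 = a + b + 2 by omega, show a + (b + 1) = a + b + 1 by omega,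
      show a + 1 + b + 1 = a + b + 2 by omega, show a + 1 + b = a + b + 1 by omega]
    have en : n = a + b + 2 := by omega
    have enR : (n : ℝ) = a + b + 2 := by rw [en]; push_cast; ring
    rw [enR] at hx
    push_cast at hx
    have hq1 : ((a : ℝ) + b + 1) / Real.sqrt 2 ≤ ((a : ℝ) + b + 2 + 1) / Real.sqrt 2 := by
      apply div_le_div_of_nonneg_right _ hs.le
      linarith
    have hq2 : ((a : ℝ) + b + 2) / Real.sqrt 2 ≤ ((a : ℝ) + b + 2 + 1) / Real.sqrt 2 := by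
      apply div_le_div_of_nonneg_right _ hs.le
      linarith
    have hA : ∀ i ≤ b, 0 < D (a + b + 1) i := by
      intro i hi
      apply hN₀ _ (by omega) i
      have : (i : ℝ) ≤ b := by exact_mod_cast hi
      push_cast
      linarith
    have hB : ∀ i ≤ b + 1, 0 < D (a + b + 2) i := by
      intro i hi
      apply hN₀ _ (by omega) i
      have : (i : ℝ) ≤ b + 1 := by exact_mod_cast hi
      push_cast
      linarith
    have y1 : 0 < Y (a + b + 1) b := Y_pos (fun i hi => hA i hi.le)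
    have y2 : 0 < Y (a + b + 2) (b + 1) := Y_pos (fun i hi => hB i hi.le)
    have d1 := hA b le_rfl
    have d2 := hB (b + 1) le_rfl
    unfold D at d1 d2
    have g1 : Y (a + b + 1) b ^ 2 < Y (a + b + 1) (b + 1) ^ 2 := by
      apply pow_lt_pow_left₀ <;> linarith
    have g2 : (Y (a + b + 2) (b + 1) + Y (a + b + 1) b) ^ 2 <
        (Y (a + b + 2) (b + 1 + 1) + Y (a + b + 1) (b + 1)) ^ 2 := by
      apply pow_lt_pow_left₀ <;> linarith
    linarith

/-- The negation of the preceding statement: In the basic Feynman checkers model, with P(x,t) the squared norm of the checker-path amplitude at time t=n+1, there is a constant C such that every maximiser x of P(·,t) is within C of t/√2, for all t. -/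
theorem result :
    ¬ (∃ C : ℝ, ∀ n : ℕ, ∀ x : ℤ,
      (∀ y : ℤ,
        (2:ℝ) ^ (-(n:ℤ)) *
          ‖∑ s ∈ Finset.univ.filter
              (fun s : Fin (n+1) → Bool =>
                s 0 = true ∧ ∑ i, (if s i then (1:ℤ) else -1) = y),
            (-Complex.I) ^ ((Finset.univ.filter
              (fun i : Fin n => s i.castSucc ≠ s i.succ)).card)‖ ^ 2
        ≤
        (2:ℝ) ^ (-(n:ℤ)) *
          ‖∑ s ∈ Finset.univ.filter
              (fun s : Fin (n+1) → Bool =>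
                s 0 = true ∧ ∑ i, (if s i then (1:ℤ) else -1) = x),
            (-Complex.I) ^ ((Finset.univ.filter
              (fun i : Fin n => s i.castSucc ≠ s i.succ)).card)‖ ^ 2) →
      |(x:ℝ) - ((n:ℝ) + 1) / Real.sqrt 2| ≤ C) := by
  rintro ⟨C, hC⟩
  obtain ⟨C', hC'⟩ := exists_nat_ge C
  obtain ⟨n, hn⟩ := step_lt C'
  have hn' := hn n le_rfl
  have hCn := hC n
  -- the maximiser
  obtain ⟨x, hx, hmax⟩ := Finset.exists_max_image (Finset.Icc (-(n + 1 : ℤ)) (n + 1))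
    (fun y => ‖F n true y‖ ^ 2) ⟨0, by rw [Finset.mem_Icc]; constructor <;> omega⟩
  have hrep : ∀ y, F n true y ≠ 0 → ∃ p q : ℕ, p + q = n + 1 ∧ 1 ≤ p ∧ y = (p : ℤ) - q := by
    intro y hy
    obtain ⟨s, hs, hsum⟩ := exists_of_F_ne hy
    rw [sum_pm] at hsum
    obtain ⟨p, hp⟩ : ∃ p, p = (Finset.univ.filter fun i => s i = true).card := ⟨_, rfl⟩
    rw [← hp] at hsum
    have h1 : 0 < p := by
      rw [hp]
      exact Finset.card_pos.mpr ⟨0, by simp [hs]⟩
    have h2 : p ≤ n + 1 := by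
      rw [hp]
      refine (Finset.card_le_univ _).trans ?_
      simp
    refine ⟨p, n + 1 - p, by omega, h1, ?_⟩
    push_cast [Nat.cast_sub h2] at hsum ⊢
    linarith
  have hmax' : ∀ y : ℤ, ‖F n true y‖ ^ 2 ≤ ‖F n true x‖ ^ 2 := by
    intro y
    by_cases hy : F n true y = 0
    · rw [hy]; simp
    · obtain ⟨p, q, hpq, hp, rfl⟩ := hrep y hy
      apply hmax
      rw [Finset.mem_Icc]
      constructor <;> omega
  have h1 := hCn x (fun y => mul_le_mul_of_nonneg_left (hmax' y) (by positivity))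
  -- nonvanishing at the maximiser
  have h2 : F n true x ≠ 0 := by
    intro h0
    have h3 := hmax' (((n + 1 : ℕ) : ℤ) - ((0 : ℕ) : ℤ))
    rw [(F_closed n (n + 1) 0 rfl).1, h0] at h3
    simp [H] at h3
    norm_num at h3
  obtain ⟨p, q, hpq, hp, rfl⟩ := hrep x h2
  have h3 := (abs_le.mp h1).1
  push_cast at h3
  obtain ⟨hp2, h4⟩ := hn' p q hpq hp (by linarith)
  have h5 := hmax' (((p - 1 : ℕ) : ℤ) - ((q + 1 : ℕ) : ℤ))
  rw [(F_closed n p q hpq).1, (F_closed n (p - 1) (q + 1) (by omega)).1] at h5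
  linarith

end Pool.Agent.S15828
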