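import Pool.Statements.S16181
import Pool.Agent.H304R2.Lam

set_option autoImplicit false
open Pool Pool.MP_192724_nt

namespace Pool.Agent.S16181

/-- the Liouville function is not eventually periodic -/
theorem not_periodic (a : ℕ) (ha : 1 ≤ a) (M : ℕ)
    (h : ∀ m : ℕ, M ≤ m → (-1 : ℤ) ^ (ArithmeticFunction.cardFactors m) =
      (-1 : ℤ) ^ (ArithmeticFunction.cardFactors (m + a))) : False := by
  have hstep : ∀ j : ℕ, M + 1 ≤ j → (-1 : ℤ) ^ (ArithmeticFunction.cardFactors j) =
      (-1 : ℤ) ^ (ArithmeticFunction.cardFactors (j + 1)) := by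
    intro j hj
    have h1 := h (a * j) (by nlinarith)
    rw [show a * j + a = a * (j + 1) by ring, Pool.Agent.H304R2.lam_mul a j (by omega) (by omega),
      Pool.Agent.H304R2.lam_mul a (j + 1) (by omega) (by omega)] at h1
    rcases neg_one_pow_eq_or ℤ (ArithmeticFunction.cardFactors a) with h2 | h2 <;>
      rw [h2] at h1 <;> linarith
  have hall : ∀ k : ℕ, (-1 : ℤ) ^ (ArithmeticFunction.cardFactors (M + 1)) =
      (-1 : ℤ) ^ (ArithmeticFunction.cardFactors (M + 1 + k)) := by
    intro k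
    induction k with
    | zero => rfl
    | succ k ih => rw [ih, hstep (M + 1 + k) (by omega)]; rfl
  have h3 := hall (M + 1)
  rw [show M + 1 + (M + 1) = 2 * (M + 1) by ring,
    Pool.Agent.H304R2.lam_mul 2 (M + 1) (by norm_num) (by omega),
    ArithmeticFunction.cardFactors_apply_prime Nat.prime_two] at h3
  rcases neg_one_pow_eq_or ℤ (ArithmeticFunction.cardFactors (M + 1)) with h2 | h2 <;>
    rw [h2] at h3 <;> norm_num at h3

/-- For every nonzero integer d, there are infinitely many n ≥ 1 such that n²+d is positive and has an odd number of prime factors counted with multiplicity, i.e. the Liouville function of n²+d equals −1. -/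
theorem result :
    ∀ d : ℤ, d ≠ 0 →
      Set.Infinite {n : ℕ | 1 ≤ n ∧ 0 < (n : ℤ) ^ 2 + d ∧
        (-1 : ℤ) ^ (ArithmeticFunction.cardFactors (((n : ℤ) ^ 2 + d).toNat)) = -1} := by
  intro d hd
  by_cases hsq : IsSquare ((0 : ℤ) ^ 2 - 4 * d)
  · -- `d = - a ^ 2`
    obtain ⟨m, hm⟩ := hsq
    have hm2 : Even m := by
      have : Even (m * m) := by
        rw [← hm]
        exact ⟨-2 * d, by ring⟩
      rcases Int.even_mul.1 this with h | h <;> exact h
    obtain ⟨a', ha'⟩ := hm2
    obtain ⟨a, haa⟩ : ∃ a : ℕ, a = a'.natAbs := ⟨_, rfl⟩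
    have had : d = -(a : ℤ) ^ 2 := by
      rw [haa, Int.natAbs_sq]
      rw [ha'] at hm
      linarith [hm, sq a']
    have ha1 : 1 ≤ a := by
      rcases Nat.eq_zero_or_pos a with h | h
      · rw [h] at had; simp at had; exact absurd had hd
      · exact h
    intro hfin
    obtain ⟨B, hB⟩ := hfin.bddAbove
    refine not_periodic (2 * a) (by omega) (B + 1) fun m hm1 => ?_
    by_contra hne
    have hn : m + a ∈ {n : ℕ | 1 ≤ n ∧ 0 < (n : ℤ) ^ 2 + d ∧
        (-1 : ℤ) ^ (ArithmeticFunction.cardFactors (((n : ℤ) ^ 2 + d).toNat)) = -1} := by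
      have e : ((m + a : ℕ) : ℤ) ^ 2 + d = ((m * (m + 2 * a) : ℕ) : ℤ) := by
        rw [had]; push_cast; ring
      refine ⟨by omega, ?_, ?_⟩
      · rw [e]
        have : 0 < m * (m + 2 * a) := Nat.mul_pos (by omega) (by omega)
        exact_mod_cast this
      · rw [e, Int.toNat_natCast, Pool.Agent.H304R2.lam_mul m (m + 2 * a) (by omega) (by omega)]
        rcases neg_one_pow_eq_or ℤ (ArithmeticFunction.cardFactors m) with h2 | h2 <;>
        rcases neg_one_pow_eq_or ℤ (ArithmeticFunction.cardFactors (m + 2 * a)) with h3 | h3 <;>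
        rw [h2, h3] at hne ⊢ <;> simp at hne ⊢
    have := hB hn
    omega
  · -- nonsquare discriminant
    intro hfin
    obtain ⟨B, hB⟩ := hfin.bddAbove
    obtain ⟨N0, hN0⟩ := Pool.Agent.H304R2.main_lam 0 d hsq (-1) (Or.inr rfl) (1 / 2) (by norm_num)
    set L : ℕ := B + d.natAbs + 1 with hL
    set N : ℕ := max N0 ((L + 1) ^ 2) with hN
    have h1 := hN0 N (le_max_left _ _)
    have hsub : ((Finset.Icc 1 N).filter (fun n : ℕ =>
        (-1 : ℤ) ^ (ArithmeticFunction.cardFactors ((n : ℤ) ^ 2 + 0 * n + d).natAbs) = -1)) ⊆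
        Finset.Icc 1 L := by
      intro n hn
      rw [Finset.mem_filter, Finset.mem_Icc] at hn
      obtain ⟨⟨hn1, hn2⟩, hn3⟩ := hn
      rw [Finset.mem_Icc]
      refine ⟨hn1, ?_⟩
      by_contra hlt
      push Not at hlt
      have hpos : 0 < (n : ℤ) ^ 2 + d := by
        have h4 : (d.natAbs : ℤ) < n := by
          have : d.natAbs < n := by omega
          exact_mod_cast this
        have h5 : -(d.natAbs : ℤ) ≤ d := by
          rw [Int.natCast_natAbs]; exact neg_abs_le d
        nlinarith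
      have hmem : n ∈ {n : ℕ | 1 ≤ n ∧ 0 < (n : ℤ) ^ 2 + d ∧
        (-1 : ℤ) ^ (ArithmeticFunction.cardFactors (((n : ℤ) ^ 2 + d).toNat)) = -1} := by
        refine ⟨hn1, hpos, ?_⟩
        have e : ((n : ℤ) ^ 2 + 0 * n + d).natAbs = ((n : ℤ) ^ 2 + d).toNat := by
          rw [zero_mul, add_zero]
          omega
        rw [e] at hn3
        exact hn3
      have := hB hmem
      omega
    have hcard := Finset.card_le_card hsub
    rw [Nat.card_Icc, Nat.add_sub_cancel] at hcard
    have h2 : ((N : ℝ)) ^ ((1 : ℝ) - 1 / 2) ≤ L := by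
      refine h1.trans ?_
      exact_mod_cast hcard
    have h3 : ((L : ℝ) + 1) ≤ (N : ℝ) ^ ((1 : ℝ) - 1 / 2) := by
      have h4 : (((L + 1) ^ 2 : ℕ) : ℝ) ≤ N := by exact_mod_cast le_max_right _ _
      have h5 : (((L + 1) ^ 2 : ℕ) : ℝ) ^ ((1 : ℝ) - 1 / 2) ≤ (N : ℝ) ^ ((1 : ℝ) - 1 / 2) :=
        Real.rpow_le_rpow (by positivity) h4 (by norm_num)
      refine le_trans (le_of_eq ?_) h5
      have h6 : (1 : ℝ) - 1 / 2 = 1 / 2 := by norm_num
      rw [h6, ← Real.sqrt_eq_rpow]
      push_cast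
      rw [Real.sqrt_sq (by positivity)]
    linarith

end Pool.Agent.S16181
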