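import Pool.Statements.S16186
import Pool.Agent.V11286.LDeg.Ext

set_option autoImplicit false
open Pool Pool.MP_19fd7d_nt

namespace Pool.Agent.S16186

/-- The negation of the preceding statement: If F in Q̄ is Galois over a number field K and has (USB) (for each rational map of degree at least 2, some c>0 leaves only finitely many points of F with canonical height below c), then F/K has finite local degree at infinitely many finite primes of K. -/
theorem result :
    ¬ (∀ h : AlgebraicClosure ℚ → ℝ,
      (∀ β : AlgebraicClosure ℚ, h β =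
        Real.log (((sInf {n : ℕ | 0 < n ∧ ∀ i : ℕ, ((n : ℚ) * (minpoly ℚ β).coeff i).den = 1} : ℕ) : ℝ) *
          (Polynomial.map (algebraMap ℚ ℂ) (minpoly ℚ β)).mahlerMeasure) /
          ((minpoly ℚ β).natDegree : ℝ)) →
    ∀ Φ : RatFunc (AlgebraicClosure ℚ) → AlgebraicClosure ℚ × AlgebraicClosure ℚ →
        AlgebraicClosure ℚ × AlgebraicClosure ℚ,
      (∀ (f : RatFunc (AlgebraicClosure ℚ)) (z : AlgebraicClosure ℚ × AlgebraicClosure ℚ),
        Φ f z =
          (∑ i ∈ Finset.range (max f.num.natDegree f.denom.natDegree + 1),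
              f.num.coeff i * z.1 ^ i * z.2 ^ (max f.num.natDegree f.denom.natDegree - i),
           ∑ i ∈ Finset.range (max f.num.natDegree f.denom.natDegree + 1),
              f.denom.coeff i * z.1 ^ i * z.2 ^ (max f.num.natDegree f.denom.natDegree - i))) →
    ∀ (K : IntermediateField ℚ (AlgebraicClosure ℚ)) [NumberField K]
      (F : IntermediateField K (AlgebraicClosure ℚ)),
      IsGalois K F →
      (∀ f : RatFunc (AlgebraicClosure ℚ),
        2 ≤ max f.num.natDegree f.denom.natDegree →
        ∃ c : ℝ, 0 < c ∧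
          Set.Finite {α : AlgebraicClosure ℚ | α ∈ F ∧ ∃ L : ℝ,
            Filter.Tendsto
              (fun n : ℕ => h (((Φ f)^[n] (α, 1)).1 / ((Φ f)^[n] (α, 1)).2) /
                ((max f.num.natDegree f.denom.natDegree : ℕ) : ℝ) ^ n)
              Filter.atTop (nhds L) ∧ L < c}) →
      Set.Infinite {v : IsDedekindDomain.HeightOneSpectrum (NumberField.RingOfIntegers K) |
        ∀ ι : AlgebraicClosure ℚ →ₐ[K] AlgebraicClosure (v.adicCompletion K),
          FiniteDimensional (v.adicCompletion K)
            (IntermediateField.adjoin (v.adicCompletion K)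
              (ι '' (F : Set (AlgebraicClosure ℚ))))}) := by
  intro hmain
  obtain ⟨F, hFgal, hFN, hFL⟩ := Pool.Agent.V11286.LDeg.tower
  have hnf : NumberField (⊥ : IntermediateField ℚ (AlgebraicClosure ℚ)) :=
    Pool.Agent.V11286.LDeg.nf _
  have hinf := hmain Pool.Agent.H58W.hM (fun β => rfl)
    (fun f z => Pool.Agent.H58W.lift f.num f.denom (max f.num.natDegree f.denom.natDegree) z)
    (fun f z => rfl) ⊥ (IntermediateField.extendScalars (bot_le : ⊥ ≤ F))
    (Pool.Agent.V11286.LDeg.galois_ext ⊥ F bot_le hFgal) ?_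
  · have hfin : Set.Finite {v : IsDedekindDomain.HeightOneSpectrum (NumberField.RingOfIntegers
        (⊥ : IntermediateField ℚ (AlgebraicClosure ℚ))) | v.asIdeal ∣ Ideal.span {2}} := by
      apply Ideal.finite_factors
      rw [Ne, Ideal.zero_eq_bot, Ideal.span_singleton_eq_bot]
      exact two_ne_zero
    refine hinf (hfin.subset ?_)
    intro v hv
    show v.asIdeal ∣ Ideal.span {2}
    rw [Ideal.dvd_iff_le, Ideal.span_singleton_le_iff_mem]
    exact Pool.Agent.V11286.LDeg.local_infinite F hFL v hv
  · intro f hf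
    obtain ⟨B, hB⟩ := Pool.Agent.V11286.LDeg.small_bound f.num f.denom
      (max f.num.natDegree f.denom.natDegree) rfl hf (RatFunc.isCoprime_num_denom f)
    refine ⟨1, one_pos, (hFN B).subset ?_⟩
    rintro α ⟨hα, L, hL, hL1⟩
    exact ⟨hα, hB α L hL1 hL⟩

end Pool.Agent.S16186
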