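import Pool.Statements.S17203

set_option autoImplicit false
open Pool Pool.MP_637dc3_nt

namespace Pool.Agent.S17203

attribute [local instance] Matrix.seminormedAddCommGroup

/-- Siegel's lemma for one linear equation in `n + 1` unknowns. -/
lemma siegel (n : ℕ) (hn : 1 ≤ n) (x : ℕ → ℤ) (B : ℝ) (hB : 1 ≤ B)
    (hx : ∀ j ≤ n, |(x j : ℝ)| ≤ B) :
    ∃ a : ℕ → ℤ, (∃ j ≤ n, a j ≠ 0) ∧ (∑ j ∈ Finset.range (n+1), a j * x j = 0) ∧
      ∀ j ≤ n, |(a j : ℝ)| ≤ (((n:ℝ)+1) * B) ^ ((1:ℝ)/n) := by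
  classical
  let A : Matrix (Fin 1) (Fin (n+1)) ℤ := fun _ j => x j
  obtain ⟨t, ht0, hAt, htn⟩ := Int.Matrix.exists_ne_zero_int_vec_norm_le A
    (by simp; omega) (by simp)
  have hA : ‖A‖ ≤ B := by
    refine (Matrix.norm_le_iff (by linarith)).2 ?_
    intro i j
    have := hx j (by omega)
    simpa [A, Int.norm_eq_abs] using this
  have hmax : max 1 ‖A‖ ≤ B := max_le hB hA
  have hbound : ‖t‖ ≤ (((n:ℝ)+1) * B) ^ ((1:ℝ)/n) := by
    refine htn.trans ?_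
    simp only [Fintype.card_fin, Nat.cast_add, Nat.cast_one]
    have e1 : (1:ℝ) / ((n:ℝ) + 1 - 1) = (1:ℝ)/n := by ring_nf
    rw [e1]
    apply Real.rpow_le_rpow
    · positivity
    · gcongr
    · positivity
  refine ⟨fun j => if h : j < n + 1 then t ⟨j, h⟩ else 0, ?_, ?_, ?_⟩
  · obtain ⟨i, hi⟩ := Function.ne_iff.1 ht0
    refine ⟨i, by omega, ?_⟩
    show (if h : (i : ℕ) < n + 1 then t ⟨i, h⟩ else 0) ≠ 0
    rw [dif_pos i.2]
    exact hi
  · have h0 := congrFun hAt 0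
    simp only [Matrix.mulVec, dotProduct, Pi.zero_apply, A] at h0
    rw [Finset.sum_range]
    refine Eq.trans ?_ h0
    apply Finset.sum_congr rfl
    intro i _
    show (if h : (i : ℕ) < n + 1 then t ⟨i, h⟩ else 0) * x i = x i * t i
    rw [dif_pos i.2, mul_comm]
  · intro j hj
    have hj' : j < n + 1 := by omega
    simp only [hj', dite_true]
    have := norm_le_pi_norm t ⟨j, hj'⟩
    rw [Int.norm_eq_abs] at this
    exact this.trans hbound

/-- Extension by the recurrence. -/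
lemma extend (ξ : ℝ) (n : ℕ) (k : ℕ) : ∃ C : ℝ, 0 ≤ C ∧
    ∀ (d : ℕ), 1 ≤ d → d ≤ n → ∀ (a : ℕ → ℤ) (H L : ℝ), 0 ≤ L →
      (∀ j ≤ d, |(a j : ℝ)| ≤ H) → ∀ (x : ℕ → ℤ) (q : ℝ),
      (∀ j ≤ n, |q * ξ ^ j - x j| ≤ L) →
      |q * ∑ j ∈ Finset.range (d+1), (a j : ℝ) * ξ ^ j| ≤ ((n:ℝ)+1) * H * L →
      ∃ y : ℕ → ℤ, ∀ j ≤ n + k, |((a d : ℝ) ^ k * q) * ξ ^ j - y j| ≤ C * H ^ k * L := by
  induction k with
  | zero =>
    refine ⟨1, by norm_num, ?_⟩
    intro d _ _ a H L hL ha x q hx _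
    refine ⟨x, ?_⟩
    intro j hj
    simpa using hx j (by omega)
  | succ k ih =>
    obtain ⟨C, hC, ih⟩ := ih
    set M : ℝ := max 1 |ξ| with hM
    have hM1 : 1 ≤ M := le_max_left _ _
    have hMx : |ξ| ≤ M := le_max_right _ _
    refine ⟨M ^ (n + k + 1) * ((n:ℝ)+1) + ((n:ℝ) + 1) * C, by positivity, ?_⟩
    intro d hd1 hdn a H L hL ha x q hx hP
    obtain ⟨y, hy⟩ := ih d hd1 hdn a H L hL ha x q hx hP
    have hH : 0 ≤ H := (abs_nonneg _).trans (ha 0 (by omega))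
    refine ⟨fun j => if j ≤ n + k then a d * y j
      else - ∑ i ∈ Finset.range d, a i * y (n + k + 1 - d + i), ?_⟩
    intro j hj
    have hHk : 0 ≤ H ^ (k+1) * L := by positivity
    by_cases hjk : j ≤ n + k
    · simp only [hjk, if_true]
      have e1 : ((a d : ℝ) ^ (k+1) * q) * ξ ^ j - ((a d * y j : ℤ) : ℝ)
          = (a d : ℝ) * (((a d : ℝ) ^ k * q) * ξ ^ j - y j) := by
        push_cast; ring
      rw [e1, abs_mul]
      calc |(a d : ℝ)| * |((a d : ℝ) ^ k * q) * ξ ^ j - y j|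
          ≤ H * (C * H ^ k * L) := by
            gcongr
            · exact ha d le_rfl
            · exact hy j hjk
        _ = C * (H ^ (k+1) * L) := by ring
        _ ≤ (M ^ (n + k + 1) * ((n:ℝ)+1) + ((n:ℝ) + 1) * C) * (H ^ (k+1) * L) := by
            gcongr
            have h1 : 0 ≤ M ^ (n + k + 1) * ((n:ℝ)+1) := by positivity
            have h2 : 0 ≤ (n:ℝ) * C := by positivity
            nlinarith
        _ = _ := by ring
    · have hj1 : j = n + k + 1 := by omega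
      subst hj1
      simp only [hjk, if_false]
      set P : ℝ := q * ∑ i ∈ Finset.range (d+1), (a i : ℝ) * ξ ^ i with hPdef
      have e1 : ((a d : ℝ) ^ (k+1) * q) * ξ ^ (n + k + 1)
            - ((- ∑ i ∈ Finset.range d, a i * y (n + k + 1 - d + i) : ℤ) : ℝ)
          = (a d : ℝ) ^ k * ξ ^ (n + k + 1 - d) * P
            - ∑ i ∈ Finset.range d, (a i : ℝ) *
              (((a d : ℝ) ^ k * q) * ξ ^ (n + k + 1 - d + i) - y (n + k + 1 - d + i)) := by
        rw [hPdef, Finset.sum_range_succ]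
        push_cast
        simp only [mul_sub, Finset.sum_sub_distrib, mul_add, Finset.mul_sum]
        have e2 : ξ ^ (n + k + 1) = ξ ^ (n + k + 1 - d) * ξ ^ d := by
          rw [← pow_add]; congr 1; omega
        have e3 : ∀ i, (a i : ℝ) * ((a d : ℝ) ^ k * q * ξ ^ (n + k + 1 - d + i))
            = (a d : ℝ) ^ k * ξ ^ (n + k + 1 - d) * (q * ((a i : ℝ) * ξ ^ i)) := by
          intro i; rw [pow_add]; ring
        simp only [e3]
        rw [e2]
        ring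
      rw [e1]
      have had : |(a d : ℝ)| ≤ H := ha d le_rfl
      have hfirst : |(a d : ℝ) ^ k * ξ ^ (n + k + 1 - d) * P|
          ≤ M ^ (n + k + 1) * ((n:ℝ)+1) * (H ^ (k+1) * L) := by
        rw [abs_mul, abs_mul, abs_pow, abs_pow]
        calc |(a d : ℝ)| ^ k * |ξ| ^ (n + k + 1 - d) * |P|
            ≤ H ^ k * M ^ (n + k + 1) * (((n:ℝ)+1) * H * L) := by
              gcongr
              calc |ξ| ^ (n + k + 1 - d) ≤ M ^ (n + k + 1 - d) := by gcongr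
                _ ≤ M ^ (n + k + 1) := pow_le_pow_right₀ hM1 (by omega)
          _ = _ := by ring
      have hsecond : |∑ i ∈ Finset.range d, (a i : ℝ) *
              (((a d : ℝ) ^ k * q) * ξ ^ (n + k + 1 - d + i) - y (n + k + 1 - d + i))|
          ≤ ((n:ℝ) + 1) * C * (H ^ (k+1) * L) := by
        calc |∑ i ∈ Finset.range d, (a i : ℝ) *
              (((a d : ℝ) ^ k * q) * ξ ^ (n + k + 1 - d + i) - y (n + k + 1 - d + i))|
            ≤ ∑ i ∈ Finset.range d, |(a i : ℝ) *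
              (((a d : ℝ) ^ k * q) * ξ ^ (n + k + 1 - d + i) - y (n + k + 1 - d + i))| :=
              Finset.abs_sum_le_sum_abs _ _
          _ ≤ ∑ i ∈ Finset.range d, H * (C * H ^ k * L) := by
              apply Finset.sum_le_sum
              intro i hi
              have hi' : i < d := Finset.mem_range.1 hi
              rw [abs_mul]
              gcongr
              · exact ha i (by omega)
              · exact hy _ (by omega)
          _ = (d:ℝ) * (C * (H ^ (k+1) * L)) := by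
              rw [Finset.sum_const, Finset.card_range, nsmul_eq_mul]; ring
          _ ≤ ((n:ℝ) + 1) * (C * (H ^ (k+1) * L)) := by
              have : (d:ℝ) ≤ n := by exact_mod_cast hdn
              gcongr
              linarith
          _ = _ := by ring
      calc |_ - _| ≤ |(a d : ℝ) ^ k * ξ ^ (n + k + 1 - d) * P| + |∑ i ∈ Finset.range d, (a i : ℝ) *
              (((a d : ℝ) ^ k * q) * ξ ^ (n + k + 1 - d + i) - y (n + k + 1 - d + i))| :=
            abs_sub _ _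
        _ ≤ M ^ (n + k + 1) * ((n:ℝ)+1) * (H ^ (k+1) * L)
            + ((n:ℝ) + 1) * C * (H ^ (k+1) * L) := add_le_add hfirst hsecond
        _ = _ := by ring

/-- One step: from one good `q` in dimension `n` to one good `q'` in dimension `m`. -/
lemma one (ξ : ℝ) (n k : ℕ) (hn : 1 ≤ n) : ∃ C : ℝ, 1 ≤ C ∧
    ∀ (q : ℕ) (L : ℝ), 0 < q → 0 ≤ L →
      (∀ j ∈ Finset.Icc 1 n,
            |(q : ℝ) * ξ ^ j - ((round ((q : ℝ) * ξ ^ j) : ℤ) : ℝ)| ≤ L) →
      ∃ q' : ℕ, q ≤ q' ∧ (q' : ℝ) ≤ C * (q:ℝ) ^ (1 + (k:ℝ)/n) ∧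
        ∀ j ≤ n + k, |(q' : ℝ) * ξ ^ j - ((round ((q' : ℝ) * ξ ^ j) : ℤ) : ℝ)|
          ≤ C * (q:ℝ) ^ ((k:ℝ)/n) * L := by
  obtain ⟨C, hC, hext⟩ := extend ξ n k
  set M : ℝ := max 1 |ξ| with hM
  have hM1 : 1 ≤ M := le_max_left _ _
  have hMx : |ξ| ≤ M := le_max_right _ _
  -- bound for the coordinates
  set D : ℝ := ((n:ℝ) + 1) * (M ^ n + 1) with hD
  have hD1 : 1 ≤ D := by
    have h1 : 1 ≤ M ^ n := one_le_pow₀ hM1
    have h2 : (0:ℝ) ≤ n := by positivity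
    nlinarith
  set E : ℝ := (D ^ ((1:ℝ)/n)) ^ k with hE
  have hE0 : 0 ≤ E := by positivity
  refine ⟨(C + 1) * E + 1, by nlinarith [mul_nonneg (by linarith : (0:ℝ) ≤ C + 1) hE0], ?_⟩
  intro q L hq hL hgood
  have hq1 : (1:ℝ) ≤ q := by exact_mod_cast hq
  have hq0 : (0:ℝ) < q := by linarith
  set x : ℕ → ℤ := fun j => round ((q : ℝ) * ξ ^ j) with hx
  have hx0 : x 0 = q := by simp [hx]
  have herr : ∀ j ≤ n, |(q:ℝ) * ξ ^ j - x j| ≤ L := by
    intro j hj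
    rcases Nat.eq_zero_or_pos j with rfl | hj0
    · rw [hx0]; simpa using hL
    · exact hgood j (Finset.mem_Icc.2 ⟨hj0, hj⟩)
  have hxB : ∀ j ≤ n, |(x j : ℝ)| ≤ (M ^ n + 1) * q := by
    intro j hj
    have h1 : |(q:ℝ) * ξ ^ j - x j| ≤ 1 / 2 := abs_sub_round _
    have h2 : |(q:ℝ) * ξ ^ j| ≤ q * M ^ n := by
      rw [abs_mul, abs_pow, abs_of_pos hq0]
      gcongr
      calc |ξ| ^ j ≤ M ^ j := by gcongr
        _ ≤ M ^ n := pow_le_pow_right₀ hM1 hj
    have h3 : |(x j : ℝ)| ≤ |(q:ℝ) * ξ ^ j| + |(q:ℝ) * ξ ^ j - x j| := by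
      have := abs_sub ((q:ℝ) * ξ ^ j) ((q:ℝ) * ξ ^ j - x j)
      simpa using this
    nlinarith
  obtain ⟨a, ⟨j0, hj0, haj0⟩, hsum, hbd⟩ := siegel n hn x ((M ^ n + 1) * q)
    (by have : 1 ≤ M ^ n := one_le_pow₀ hM1
        nlinarith) hxB
  set H : ℝ := (((n:ℝ)+1) * ((M ^ n + 1) * q)) ^ ((1:ℝ)/n) with hH
  have hHeq : H = D ^ ((1:ℝ)/n) * (q:ℝ) ^ ((1:ℝ)/n) := by
    rw [hH, hD, ← Real.mul_rpow (by positivity) (by positivity)]
    congr 1; ring
  have hH0 : 0 ≤ H := by positivity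
  have hHk : H ^ k = E * (q:ℝ) ^ ((k:ℝ)/n) := by
    rw [hHeq, mul_pow, hE, ← Real.rpow_natCast ((q:ℝ) ^ ((1:ℝ)/n)) k, ← Real.rpow_mul hq0.le]
    congr 2; ring
  -- the degree
  classical
  set d : ℕ := Nat.findGreatest (fun j => a j ≠ 0) n with hd
  have hdn : d ≤ n := Nat.findGreatest_le _
  have had : a d ≠ 0 := Nat.findGreatest_spec (P := fun j => a j ≠ 0) hj0 haj0
  have hzero : ∀ j, d < j → j ≤ n → a j = 0 := by
    intro j h1 h2
    by_contra hne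
    exact absurd (Nat.le_findGreatest (P := fun j => a j ≠ 0) h2 hne) (by omega)
  have hsumd : ∀ f : ℕ → ℝ, ∑ j ∈ Finset.range (n+1), (a j : ℝ) * f j
      = ∑ j ∈ Finset.range (d+1), (a j : ℝ) * f j := by
    intro f
    symm
    apply Finset.sum_subset
    · intro j hj; simp only [Finset.mem_range] at hj ⊢; omega
    · intro j hj hj'
      simp only [Finset.mem_range] at hj hj'
      rw [hzero j (by omega) (by omega)]; simp
  have hsumR : ∑ j ∈ Finset.range (n+1), (a j : ℝ) * (x j : ℝ) = 0 := by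
    exact_mod_cast hsum
  have hd1 : 1 ≤ d := by
    by_contra hcon
    have hd0 : d = 0 := by omega
    have h1 := hsumd (fun j => (x j : ℝ))
    rw [hsumR, hd0] at h1
    simp only [zero_add, Finset.sum_range_one, hx0] at h1
    rw [hd0] at had
    have h2 : (a 0 : ℝ) ≠ 0 := by exact_mod_cast had
    have h3 : ((q:ℤ) : ℝ) ≠ 0 := by exact_mod_cast hq.ne'
    exact (mul_ne_zero h2 h3) h1.symm
  have hP : |(q:ℝ) * ∑ j ∈ Finset.range (d+1), (a j : ℝ) * ξ ^ j| ≤ ((n:ℝ)+1) * H * L := by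
    rw [← hsumd (fun j => ξ ^ j)]
    have e1 : (q:ℝ) * ∑ j ∈ Finset.range (n+1), (a j : ℝ) * ξ ^ j
        = ∑ j ∈ Finset.range (n+1), (a j : ℝ) * ((q:ℝ) * ξ ^ j - x j) := by
      simp only [mul_sub, Finset.sum_sub_distrib, hsumR, sub_zero, Finset.mul_sum]
      apply Finset.sum_congr rfl
      intro i _; ring
    rw [e1]
    calc |∑ j ∈ Finset.range (n+1), (a j : ℝ) * ((q:ℝ) * ξ ^ j - x j)|
        ≤ ∑ j ∈ Finset.range (n+1), |(a j : ℝ) * ((q:ℝ) * ξ ^ j - x j)| :=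
          Finset.abs_sum_le_sum_abs _ _
      _ ≤ ∑ j ∈ Finset.range (n+1), H * L := by
          apply Finset.sum_le_sum
          intro i hi
          have hi' : i < n + 1 := Finset.mem_range.1 hi
          rw [abs_mul]
          gcongr
          · exact hbd i (by omega)
          · exact herr i (by omega)
      _ = ((n:ℝ)+1) * H * L := by
          rw [Finset.sum_const, Finset.card_range, nsmul_eq_mul]; push_cast; ring
  obtain ⟨y, hy⟩ := hext d hd1 hdn a H L hL (fun j hj => hbd j (by omega)) x q herr hP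
  refine ⟨(a d).natAbs ^ k * q, ?_, ?_, ?_⟩
  · have : 1 ≤ (a d).natAbs ^ k := Nat.one_le_pow _ _ (Int.natAbs_pos.2 had)
    nlinarith
  · push_cast
    have h1 : ((a d).natAbs : ℝ) = |(a d : ℝ)| := by
      rw [Nat.cast_natAbs]; simp
    rw [h1]
    have h2 : |(a d : ℝ)| ^ k ≤ H ^ k := by
      gcongr; exact hbd d hdn
    calc |(a d : ℝ)| ^ k * q ≤ H ^ k * q := by gcongr
      _ = E * (q:ℝ) ^ (1 + (k:ℝ)/n) := by
        rw [hHk, Real.rpow_add hq0, Real.rpow_one]; ring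
      _ ≤ ((C + 1) * E + 1) * (q:ℝ) ^ (1 + (k:ℝ)/n) := by
        gcongr
        nlinarith [mul_nonneg hC hE0]
  · intro j hj
    have h1 : ((a d).natAbs : ℝ) = |(a d : ℝ)| := by
      rw [Nat.cast_natAbs]; simp
    have key : ∃ z : ℤ, |(((a d).natAbs ^ k * q : ℕ) : ℝ) * ξ ^ j - z| ≤ C * H ^ k * L := by
      push_cast
      rw [h1, ← abs_pow]
      rcases abs_choice ((a d : ℝ) ^ k) with h | h
      · refine ⟨y j, ?_⟩
        rw [h]; exact hy j hj
      · refine ⟨- y j, ?_⟩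
        rw [h]
        have := hy j hj
        rw [← abs_neg] at this
        convert this using 2
        push_cast; ring
    obtain ⟨z, hz⟩ := key
    refine (round_le _ z).trans (hz.trans ?_)
    rw [hHk]
    have h5 : 0 ≤ (q:ℝ) ^ ((k:ℝ)/n) * L := by positivity
    calc C * (E * (q:ℝ) ^ ((k:ℝ)/n)) * L = (C * E) * ((q:ℝ) ^ ((k:ℝ)/n) * L) := by ring
      _ ≤ ((C + 1) * E + 1) * ((q:ℝ) ^ ((k:ℝ)/n) * L) := by
        gcongr
        nlinarith
      _ = _ := by ring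

/-- For 1≤n≤m and transcendental real ξ: if infinitely many q≥1 have all ‖qξ^j‖≤q^(-l) for j≤n, then for every μ<(nl−m+n)/m infinitely many q≥1 have all ‖qξ^j‖≤q^(-μ) for j≤m; i.e. λ_m(ξ)≥(nλ_n(ξ)−m+n)/m. -/
theorem result :
    ∀ (m n : ℕ), 1 ≤ n → n ≤ m → ∀ ξ : ℝ, Transcendental ℚ ξ →
      ∀ l μ : ℝ,
        {q : ℕ | 0 < q ∧ ∀ j ∈ Finset.Icc 1 n,
            |(q : ℝ) * ξ ^ j - ((round ((q : ℝ) * ξ ^ j) : ℤ) : ℝ)| ≤ (q : ℝ) ^ (-l)}.Infinite →
        μ < ((n : ℝ) * l - (m : ℝ) + (n : ℝ)) / (m : ℝ) →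
        {q : ℕ | 0 < q ∧ ∀ j ∈ Finset.Icc 1 m,
            |(q : ℝ) * ξ ^ j - ((round ((q : ℝ) * ξ ^ j) : ℤ) : ℝ)| ≤ (q : ℝ) ^ (-μ)}.Infinite := by
  intro m n hn hnm ξ _ l μ hinf hμ
  rw [Set.infinite_iff_exists_gt] at hinf ⊢
  obtain ⟨k, rfl⟩ := Nat.exists_eq_add_of_le hnm
  have hn0 : (0:ℝ) < n := by exact_mod_cast hn
  have hm0 : (0:ℝ) < ((n + k : ℕ) : ℝ) := by exact_mod_cast (by omega : 0 < n + k)
  intro N
  rcases lt_or_ge μ 0 with hneg | hpos
  · refine ⟨N + 1, ⟨by omega, ?_⟩, by omega⟩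
    intro j _
    have h1 : (1:ℝ) ≤ ((N + 1 : ℕ) : ℝ) ^ (-μ) := by
      apply Real.one_le_rpow
      · exact_mod_cast (by omega : 1 ≤ N + 1)
      · linarith
    exact (abs_sub_round _).trans (by linarith)
  · obtain ⟨C, hC1, hone⟩ := one ξ n k hn
    -- the exponents
    have hgap : 0 < l - (k:ℝ)/n - μ * (1 + (k:ℝ)/n) := by
      rw [lt_div_iff₀ hm0] at hμ
      push_cast at hμ
      have h1 : 0 < (n:ℝ) * (l - (k:ℝ)/n - μ * (1 + (k:ℝ)/n)) := by
        have : (n:ℝ) * (l - (k:ℝ)/n - μ * (1 + (k:ℝ)/n)) = n * l - k - μ * (n + k) := by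
          field_simp
        rw [this]; nlinarith
      exact (mul_pos_iff_of_pos_left hn0).1 h1
    set δ : ℝ := l - (k:ℝ)/n - μ * (1 + (k:ℝ)/n) with hδ
    -- q large enough that C * C^μ ≤ q^δ
    have hev : ∀ᶠ q : ℕ in Filter.atTop, C * C ^ μ ≤ (q:ℝ) ^ δ :=
      ((tendsto_rpow_atTop hgap).comp tendsto_natCast_atTop_atTop).eventually_ge_atTop _
    obtain ⟨N0, hN0⟩ := Filter.eventually_atTop.1 hev
    obtain ⟨q, ⟨hq0, hq⟩, hqN⟩ := hinf (max N N0)
    have hqN1 : N < q := lt_of_le_of_lt (le_max_left _ _) hqN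
    have hqN2 : N0 ≤ q := (lt_of_le_of_lt (le_max_right _ _) hqN).le
    have hbig := hN0 q hqN2
    have hqR : (0:ℝ) < q := by exact_mod_cast hq0
    obtain ⟨q', hqq', hup, herr⟩ := hone q ((q:ℝ) ^ (-l)) hq0 (by positivity) hq
    refine ⟨q', ⟨by omega, ?_⟩, by omega⟩
    intro j hj
    refine (herr j (Finset.mem_Icc.1 hj).2).trans ?_
    have hq'0 : (0:ℝ) < q' := by exact_mod_cast (by omega : 0 < q')
    have hC0 : (0:ℝ) < C := by linarith
    have h1 : (q':ℝ) ^ μ ≤ C ^ μ * (q:ℝ) ^ ((1 + (k:ℝ)/n) * μ) := by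
      calc (q':ℝ) ^ μ ≤ (C * (q:ℝ) ^ (1 + (k:ℝ)/n)) ^ μ := by
            apply Real.rpow_le_rpow hq'0.le hup hpos
        _ = _ := by
            rw [Real.mul_rpow hC0.le (by positivity), ← Real.rpow_mul hqR.le]
    rw [Real.rpow_neg hq'0.le, ← one_div, le_div_iff₀ (by positivity)]
    calc C * (q:ℝ) ^ ((k:ℝ)/n) * (q:ℝ) ^ (-l) * (q':ℝ) ^ μ
        ≤ C * (q:ℝ) ^ ((k:ℝ)/n) * (q:ℝ) ^ (-l) * (C ^ μ * (q:ℝ) ^ ((1 + (k:ℝ)/n) * μ)) := by
          gcongr
      _ = (C * C ^ μ) * (q:ℝ) ^ (-δ) := by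
          have : (q:ℝ) ^ (-δ) = (q:ℝ) ^ ((k:ℝ)/n) * (q:ℝ) ^ (-l) * (q:ℝ) ^ ((1 + (k:ℝ)/n) * μ) := by
            rw [← Real.rpow_add hqR, ← Real.rpow_add hqR]
            congr 1; rw [hδ]; ring
          rw [this]; ring
      _ ≤ (q:ℝ) ^ δ * (q:ℝ) ^ (-δ) := by gcongr
      _ = 1 := by rw [← Real.rpow_add hqR]; simp

end Pool.Agent.S17203
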