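import Pool.Statements.S17720
import Pool.Agent.V11320.CF.C
import Pool.Agent.V11320.CF.E

set_option autoImplicit false
open Pool Pool.MP_8d5d9c_nt

namespace Pool.Agent.S17720

open Pool.Agent.V11320.CF Pool.Agent.W811.Stu Pool.Agent.W174.Stu in
/-- A normal continued fraction whose image under `x ↦ √2 x + √2` has too many partial
quotients `1` along a sequence of initial blocks. -/
theorem main : ∃ x : ℝ, Irrational x ∧ x ∈ Set.Ioo (0 : ℝ) 1 ∧
    (∀ t : ℝ, 0 ≤ t → t ≤ 1 → Filter.Tendsto (fun N : ℕ =>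
      (((Finset.range N).filter (fun n => gauss^[n] x < t)).card : ℝ) / (N : ℝ)) Filter.atTop
        (nhds (G t))) ∧
    ∀ n0 : ℕ, ∃ N : ℕ, n0 ≤ N ∧
      (cnt (Int.fract (Real.sqrt 2 * x + Real.sqrt 2)) N : ℝ) ≤ 0.55 * N := by
  obtain ⟨β, hβ1, hβ2, hβ3⟩ := exists_normal
  have hb := dig_pos hβ1 hβ2
  obtain ⟨a, ha, hab, hsq⟩ := construct (dig β) hb
  obtain ⟨t, ht, htrec, htF⟩ := exists_val ha
  refine ⟨t 0, irr_of_seq ht htrec, ht 0, ?_, ?_⟩
  · intro x hx0 hx1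
    have h1 := change ha hb (t := t) (s := fun n => gauss^[n] β) ht htrec
      (fun n => (iter_mem hβ1 hβ2 n).2) (fun n => by
        have h2 := (inv_eq_add (iter_mem hβ1 hβ2 n).2).2
        rw [Function.iterate_succ_apply']
        exact h2) hab hβ3 x hx0 hx1
    have h2 : ∀ n, gauss^[n] (t 0) = t n := fun n => by
      rw [htF n]; exact T_F ha n (ht n)
    simp only [h2]
    convert h1
  · intro n0
    obtain ⟨N, h1, h2⟩ := hsq (n0 * n0) ⟨n0, rfl⟩ (t (n0 * n0 + 1)) (Set.Ioo_subset_Icc_self (ht _))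
    rw [← htF] at h2
    exact ⟨N, (Nat.le_mul_self n0).trans h1, h2⟩

open Pool.Agent.V11320.CF in
theorem num : (0.55 : ℝ) < G (1 / 2) := by
  unfold G
  have h2 : 0 < Real.log 2 := Real.log_pos (by norm_num)
  rw [lt_div_iff₀ h2]
  have h3 : Real.log ((2 : ℝ) ^ 11) < Real.log ((1 + 1 / 2 : ℝ) ^ 20) := by
    apply Real.log_lt_log (by positivity)
    norm_num
  rw [Real.log_pow, Real.log_pow] at h3
  push_cast at h3
  linarith

/-- The negation of the preceding statement: If x is continued-fraction normal (its Gauss-map orbit is equidistributed for the Gauss measure) and q, r are irrational roots of nonzero integer quadratics with q nonzero, then q times x plus r is also continued-fraction normal. -/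
theorem result :
    ¬ (∀ x q r : ℝ,
      (Irrational x ∧ ∀ t : ℝ, 0 ≤ t → t ≤ 1 →
        Filter.Tendsto
          (fun N : ℕ =>
            (((Finset.range N).filter
              (fun n => (fun y : ℝ => Int.fract (1 / y))^[n] (Int.fract x) < t)).card : ℝ) / (N : ℝ))
          Filter.atTop (nhds (Real.log (1 + t) / Real.log 2))) →
      (Irrational q ∧ ∃ a b c : ℤ, (a ≠ 0 ∨ b ≠ 0 ∨ c ≠ 0) ∧
        (a : ℝ) * q ^ 2 + (b : ℝ) * q + (c : ℝ) = 0) →
      (Irrational r ∧ ∃ a b c : ℤ, (a ≠ 0 ∨ b ≠ 0 ∨ c ≠ 0) ∧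
        (a : ℝ) * r ^ 2 + (b : ℝ) * r + (c : ℝ) = 0) →
      q ≠ 0 →
      (Irrational (q * x + r) ∧ ∀ t : ℝ, 0 ≤ t → t ≤ 1 →
        Filter.Tendsto
          (fun N : ℕ =>
            (((Finset.range N).filter
              (fun n => (fun y : ℝ => Int.fract (1 / y))^[n] (Int.fract (q * x + r)) < t)).card : ℝ) / (N : ℝ))
          Filter.atTop (nhds (Real.log (1 + t) / Real.log 2)))) := by
  intro H
  obtain ⟨x, hx1, hx2, hx3, hx4⟩ := main
  have hg : (fun y : ℝ => Int.fract (1 / y)) = Pool.Agent.W811.Stu.gauss := by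
    funext y
    unfold Pool.Agent.W811.Stu.gauss
    rw [one_div]
  have hfr : Int.fract x = x := Int.fract_eq_self.2 ⟨hx2.1.le, hx2.2⟩
  have hsq : Real.sqrt 2 ^ 2 = 2 := Real.sq_sqrt (by norm_num)
  have hq : Irrational (Real.sqrt 2) ∧ ∃ a b c : ℤ, (a ≠ 0 ∨ b ≠ 0 ∨ c ≠ 0) ∧
        (a : ℝ) * Real.sqrt 2 ^ 2 + (b : ℝ) * Real.sqrt 2 + (c : ℝ) = 0 := by
    refine ⟨irrational_sqrt_two, 1, 0, -2, Or.inl one_ne_zero, ?_⟩
    rw [hsq]
    norm_num
  obtain ⟨-, h1⟩ := H x (Real.sqrt 2) (Real.sqrt 2) ⟨hx1, by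
    intro t ht0 ht1
    rw [hg, hfr]
    exact hx3 t ht0 ht1⟩ hq hq (by positivity)
  have h2 := h1 (1 / 2) (by norm_num) (by norm_num)
  rw [hg] at h2
  have h3 := h2.eventually (lt_mem_nhds num)
  obtain ⟨n0, hn0⟩ := Filter.eventually_atTop.1 h3
  obtain ⟨N, hN1, hN2⟩ := hx4 n0
  have h4 := hn0 N hN1
  have h5 : (Pool.Agent.V11320.CF.cnt (Int.fract (Real.sqrt 2 * x + Real.sqrt 2)) N : ℝ) / N
      ≤ 0.55 := div_le_of_le_mul₀ (Nat.cast_nonneg _) (by norm_num) hN2
  unfold Pool.Agent.V11320.CF.cnt at h5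
  linarith

end Pool.Agent.S17720
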