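import Pool.Statements.S17945
import Pool.Agent.Results.MP_9fb0d9_nt.InfiniteIndex

set_option autoImplicit false
open Pool Pool.MP_9fb0d9_nt

namespace Pool.Agent.S17945

/-- There is a number field K and f in K[x] of degree at least 2 with 0 not periodic, such that [split field of f^n(x)-t over K(t)] / [split field of f^n over K] is unbounded in n. -/
theorem result :
    ∃ (K : Type) (_ : Field K) (_ : NumberField K) (f : Polynomial K),
      2 ≤ f.natDegree ∧
      (∀ m : ℕ, 1 ≤ m → (fun x => Polynomial.eval x f)^[m] 0 ≠ 0) ∧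
      ∀ M : ℕ, ∃ n : ℕ, 1 ≤ n ∧
        M * Module.finrank K (Polynomial.SplittingField ((f.comp)^[n] Polynomial.X)) <
          Module.finrank (RatFunc K)
            (Polynomial.SplittingField
              (Polynomial.map (algebraMap K (RatFunc K)) ((f.comp)^[n] Polynomial.X)
                - Polynomial.C (RatFunc.X : RatFunc K))) := by
  obtain ⟨f, -, hd, -, hp, -, -, hI⟩ :=
    Pool.Agent.Results.MP_9fb0d9_nt.InfiniteIndex.result ℚ
  refine ⟨ℚ, inferInstance, inferInstance, f, hd.ge, hp, ?_⟩
  intro M
  obtain ⟨n, hn, h⟩ := hI M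
  refine ⟨n, hn, h _ _ ?_ ?_⟩
  · exact Polynomial.IsSplittingField.splittingField _
  · exact Polynomial.IsSplittingField.splittingField _

end Pool.Agent.S17945
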