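import Pool.Statements.S18419

set_option autoImplicit false
open Pool Pool.MP_c520af_nt

namespace Pool.Agent.S18419

open Polynomial

/-- The symmetric set of `d` elements `2 i - (d - 1)`, `i < d`. -/
noncomputable def aset (K : Type) [Field K] (d : ℕ) (i : ℕ) : K := 2 * (i : K) - ((d : K) - 1)

/-- The vanishing polynomial of that set. -/
noncomputable def vpoly (K : Type) [Field K] (d : ℕ) : Polynomial K :=
  ∏ i ∈ Finset.range d, (X - C (aset K d i))

lemma vpoly_natDegree (K : Type) [Field K] (d : ℕ) : (vpoly K d).natDegree = d := by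
  unfold vpoly
  rw [Polynomial.natDegree_prod_of_monic]
  · simp
  · intro i _
    exact monic_X_sub_C _

lemma vpoly_eval (K : Type) [Field K] (d i : ℕ) (hi : i < d) :
    (vpoly K d).eval (aset K d i) = 0 := by
  unfold vpoly
  rw [Polynomial.eval_prod]
  apply Finset.prod_eq_zero (Finset.mem_range.mpr hi)
  simp

lemma aset_neg (K : Type) [Field K] (d i : ℕ) (hi : i < d) :
    - aset K d i = aset K d (d - 1 - i) := by
  unfold aset
  have h1 : ((d - 1 - i : ℕ) : K) = (d : K) - 1 - (i : K) := by
    rw [Nat.cast_sub (by omega), Nat.cast_sub (by omega)]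
    simp
  rw [h1]; ring

lemma aset_inj (K : Type) [Field K] [CharZero K] (d i j : ℕ) (h : aset K d i = aset K d j) :
    i = j := by
  unfold aset at h
  have h2 : (2 : K) ≠ 0 := two_ne_zero
  have h3 : (2 : K) * i = 2 * j := by linear_combination h
  have := mul_left_cancel₀ h2 h3
  exact_mod_cast this

/-- For every number field K there are maps (x,y) to (y, F_d(y) − δ_d x), with deg F_d = d and δ_d ≠ 0, for each d ≥ 2, whose number of K-rational periodic points eventually exceeds C·d for every constant C. -/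
theorem result :
    ∀ (K : Type) [Field K] [NumberField K],
      ∃ (F : ℕ → Polynomial K) (δ : ℕ → K),
        (∀ d : ℕ, 2 ≤ d → (F d).natDegree = d ∧ δ d ≠ 0) ∧
        ∀ C : ℕ, ∃ D : ℕ, ∀ d : ℕ, 2 ≤ d → D ≤ d →
          (((C * d : ℕ) : ℕ∞) <
            {P : K × K | ∃ n : ℕ, 1 ≤ n ∧
              (fun p : K × K => (p.2, (F d).eval p.2 - δ d * p.1))^[n] P = P}.encard) := by
  intro K _ _
  classical
  have : CharZero K := inferInstance
  refine ⟨vpoly K, fun _ => 1, fun d _ => ⟨vpoly_natDegree K d, one_ne_zero⟩, ?_⟩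
  intro C
  refine ⟨C + 1, fun d hd hC => ?_⟩
  -- the square of the symmetric set consists of periodic points
  set S : Finset (K × K) :=
    ((Finset.range d) ×ˢ (Finset.range d)).image (fun p => (aset K d p.1, aset K d p.2)) with hS
  have hcard : S.card = d * d := by
    rw [hS, Finset.card_image_of_injective]
    · simp
    · rintro ⟨a, b⟩ ⟨a', b'⟩ h
      simp only [Prod.mk.injEq] at h
      exact Prod.ext (aset_inj K d _ _ h.1) (aset_inj K d _ _ h.2)
  have hsub : (S : Set (K × K)) ⊆ {P : K × K | ∃ n : ℕ, 1 ≤ n ∧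
      (fun p : K × K => (p.2, (vpoly K d).eval p.2 - 1 * p.1))^[n] P = P} := by
    intro P hP
    rw [hS] at hP
    simp only [Finset.coe_image, Set.mem_image, Finset.mem_coe, Finset.mem_product,
      Finset.mem_range, Prod.exists] at hP
    obtain ⟨i, j, ⟨hi, hj⟩, rfl⟩ := hP
    refine ⟨4, by norm_num, ?_⟩
    have e0 : (vpoly K d).eval (aset K d j) = 0 := vpoly_eval K d j hj
    have e1 : (vpoly K d).eval (-(aset K d i)) = 0 := by
      rw [aset_neg K d i hi]; exact vpoly_eval K d _ (by omega)
    have e2 : (vpoly K d).eval (-(aset K d j)) = 0 := by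
      rw [aset_neg K d j hj]; exact vpoly_eval K d _ (by omega)
    have e3 : (vpoly K d).eval (aset K d i) = 0 := vpoly_eval K d i hi
    simp only [Function.iterate_succ, Function.iterate_zero, Function.comp_apply, id_eq, e0,
      one_mul, zero_sub, e1, e2, neg_neg, e3]
  have hle : ((d * d : ℕ) : ℕ∞) ≤ {P : K × K | ∃ n : ℕ, 1 ≤ n ∧
      (fun p : K × K => (p.2, (vpoly K d).eval p.2 - 1 * p.1))^[n] P = P}.encard := by
    have := Set.encard_le_encard hsub
    rw [Set.encard_coe_eq_coe_finsetCard, hcard] at this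
    exact this
  refine lt_of_lt_of_le ?_ hle
  have : C * d < d * d := by nlinarith
  exact_mod_cast this

end Pool.Agent.S18419
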