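import Pool.Statements.S18732
import Pool.Agent.V11205.LW

set_option autoImplicit false
open Pool Pool.MP_e07dae_nt

namespace Pool.Agent.S18732

/-- The negation of the preceding statement: For each ε>0 there is C>0 such that for all n, positive integers a_i and nonzero integers b_i with product of a_i^b_i not 1, the distance of that product from 1 is at least C times max∣b_j∣ over ∣b_1…b_n a_1…a_n∣^(1+ε). -/
theorem result :
    ¬ (∀ ε : ℝ, 0 < ε → ∃ C : ℝ, 0 < C ∧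
      ∀ n : ℕ, ∀ a : Fin n → ℕ, ∀ b : Fin n → ℤ,
        (∀ i, 0 < a i) → (∀ i, b i ≠ 0) →
        (∏ i, ((a i : ℝ) ^ (b i))) ≠ 1 →
        C * ((Finset.univ.sup (fun j => (b j).natAbs) : ℕ) : ℝ) /
            ((|(∏ i, b i) * ∏ i, (a i : ℤ)| : ℤ) : ℝ) ^ (1 + ε)
          ≤ |(∏ i, ((a i : ℝ) ^ (b i))) - 1|) := by
  intro h
  obtain ⟨C, hC, hmain⟩ := h (1 / 28) (by norm_num)
  obtain ⟨⟨a, b⟩, hab⟩ := (Pool.Agent.V11205.LW.seven (1 / 28) (by norm_num) (by norm_num) C hC).nonempty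
  obtain ⟨_, ha, hb, hP, k, hk, hlt⟩ := hab
  have h1 := hmain 7 a b (fun i => lt_trans Nat.zero_lt_one (ha i)) hb hP
  have hsup : (Finset.univ.sup (fun j => (b j).natAbs) : ℕ) = (b k).natAbs := by
    apply le_antisymm
    · refine Finset.sup_le fun j _ => ?_
      exact Int.natAbs_le_iff_sq_le.2 (sq_le_sq.2 (hk j))
    · exact Finset.le_sup (f := fun j => (b j).natAbs) (Finset.mem_univ k)
  rw [hsup] at h1
  have h2 : (((b k).natAbs : ℕ) : ℝ) = ((|b k| : ℤ) : ℝ) := by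
    exact Nat.cast_natAbs _
  have h3 : (((|(∏ i, b i) * ∏ i, (a i : ℤ)| : ℤ)) : ℝ) = Pool.Agent.V11205.LW.H a b := by
    unfold Pool.Agent.V11205.LW.H
    push_cast
    rfl
  rw [h2, h3] at h1
  have h4 : (∏ i, ((a i : ℝ) ^ (b i))) = Pool.Agent.V11205.LW.P a b := rfl
  rw [h4] at h1
  exact absurd h1 (not_le.2 hlt)

end Pool.Agent.S18732
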