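import Pool.Statements.S19141
import Pool.Agent.HL274.GW.Clip

set_option autoImplicit false
open MeasureTheory ProbabilityTheory
open Pool Pool.MP_0c40c8_pr

namespace Pool.Agent.S19141

/-- For a unimodular Galton–Watson tree whose degree law has finite support and no mass at 0 or 1, the compactly supported measure whose k-th moment is the expected number of length-k closed walks at the root has finitely many atoms. -/
theorem result :
  ∀ (P : PMF ℕ), P.support.Finite → P 0 = 0 → P 1 = 0 →
  ∀ (Ω : Type) [MeasureSpace Ω] [IsProbabilityMeasure (volume : Measure Ω)]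
    (N : List ℕ → Ω → ℕ),
    (∀ w, Measurable (N w)) → iIndepFun N (volume : Measure Ω) →
    (∀ k : ℕ, (volume : Measure Ω) {ω | N [] ω = k} = P k) →
    (∀ w : List ℕ, w ≠ [] → ∀ k : ℕ,
      (volume : Measure Ω) {ω | N w ω = k}
        = ((k : ENNReal) + 1) * P (k + 1) / ∑' j : ℕ, (j : ENNReal) * P j) →
    ∀ ν : Measure ℝ, IsProbabilityMeasure ν →
      (∃ R : ℝ, ν (Set.Icc (-R) R)ᶜ = 0) →
      (∀ k : ℕ, ∫ x, x ^ k ∂ν =
        ∫ ω, ((Set.ncard {f : Fin (k + 1) → List ℕ |
            f 0 = [] ∧ f (Fin.last k) = [] ∧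
            (∀ i, ∀ j < (f i).length, (f i).getD j 0 < N ((f i).take j) ω) ∧
            ∀ i : Fin k, (∃ a : ℕ, f i.succ = f i.castSucc ++ [a]) ∨
                         (∃ a : ℕ, f i.castSucc = f i.succ ++ [a])} : ℕ) : ℝ)
          ∂(volume : Measure Ω)) →
      {x : ℝ | ν {x} ≠ 0}.Finite := by
  classical
  intro P hfin hP0 hP1 Ω _ _ N hN hind hroot hother ν hν hcpt hmom
  obtain ⟨R, hR⟩ := hcpt
  obtain ⟨D, hD⟩ := hfin.bddAbove
  have hPD : ∀ k, D < k → P k = 0 := by
    intro k hk
    by_contra hcon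
    have := hD ((PMF.mem_support_iff P k).2 hcon)
    omega
  set S : ENNReal := ∑' j : ℕ, (j : ENNReal) * P j with hS
  have hSt : S ≠ ⊤ := by
    rw [hS, tsum_eq_sum (s := Finset.range (D + 1)) (fun j hj => by
      rw [Finset.mem_range] at hj
      rw [hPD j (by omega), mul_zero])]
    exact ENNReal.sum_ne_top.2 fun j _ => ENNReal.mul_ne_top (ENNReal.natCast_ne_top j)
      (PMF.apply_ne_top P j)
  have hS0 : S ≠ 0 := by
    intro h
    rw [hS, ENNReal.tsum_eq_zero] at h
    have h1 : ∀ j, P j = 0 := by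
      intro j
      rcases mul_eq_zero.1 (h j) with h2 | h2
      · have : j = 0 := by exact_mod_cast h2
        rw [this, hP0]
      · exact h2
    have h2 := P.tsum_coe
    simp [h1] at h2
  -- the laws
  set f : List ℕ → ℕ → ENNReal := fun w k =>
    if w = [] then P k else ((k : ENNReal) + 1) * P (k + 1) / S with hf
  have hlaw : ∀ w, ∀ k : ℕ, (volume : Measure Ω) {ω | N w ω = k} = f w k := by
    intro w k
    simp only [hf]
    split_ifs with h
    · subst h
      exact hroot k
    · exact hother w h k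
  have hfD : ∀ w, ∀ k, D < k → f w k = 0 := by
    intro w k hk
    simp only [hf]
    split_ifs with h
    · exact hPD k hk
    · rw [hPD (k + 1) (by omega), mul_zero, ENNReal.zero_div]
  have hcm : ∀ w, Measurable fun ω => HL274.GW.clip D (N w ω) := fun w =>
    (HL274.GW.meas_clip D).comp (hN w)
  set r : Measure (Fin (D + 1)) := (volume : Measure Ω).map fun ω => HL274.GW.clip D (N [] ω) with hr
  set q : Measure (Fin (D + 1)) := (volume : Measure Ω).map fun ω => HL274.GW.clip D (N [0] ω) with hq
  haveI : IsProbabilityMeasure r := Measure.isProbabilityMeasure_map (hcm []).aemeasurable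
  haveI : IsProbabilityMeasure q := Measure.isProbabilityMeasure_map (hcm [0]).aemeasurable
  have hrk : ∀ k : Fin (D + 1), r {k} = P k := by
    intro k
    rw [hr, HL274.GW.clip_law _ _ (hN []) (f []) (hlaw []) D (hfD [])]
    simp [hf]
  have hqk : ∀ k : Fin (D + 1), q {k} = ((k : ℕ) + 1) * P (k + 1) / S := by
    intro k
    rw [hq, HL274.GW.clip_law _ _ (hN [0]) (f [0]) (hlaw [0]) D (hfD [0])]
    simp [hf]
  have hqlast : q {Fin.last D} = 0 := by
    rw [hqk]
    rw [Fin.val_last, hPD (D + 1) (by omega), mul_zero, ENNReal.zero_div]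
  have hw : ∀ j : Fin D, S * q {j.castSucc} = ((j : ℕ) + 1) * r {j.succ} := by
    intro j
    rw [hqk, hrk, ENNReal.mul_div_cancel hS0 hSt]
    simp
  have hr2 : ∀ k : Fin (D + 1), (k : ℕ) < 2 → r {k} = 0 := by
    intro k hk
    rw [hrk]
    have : (k : ℕ) = 0 ∨ (k : ℕ) = 1 := by omega
    rcases this with h | h
    · rw [h, hP0]
    · rw [h, hP1]
  have hq0 : q {0} = 0 := by
    rw [hqk]
    simp [hP1]
  -- the tree
  set T : Ω → HL274.GW.Cfg D := fun ω w => HL274.GW.clip D (N w ω) with hT
  have hTm : Measurable T := measurable_pi_lambda _ fun w => hcm w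
  have hTlaw : (volume : Measure Ω).map T = HL274.GW.MM r q := by
    have h1 : iIndepFun (fun w ω => HL274.GW.clip D (N w ω)) (volume : Measure Ω) :=
      hind.comp (fun _ => HL274.GW.clip D) fun _ => HL274.GW.meas_clip D
    have h2 := h1.map_fun_eq_infinitePi_map hcm
    have h3 : (fun w => (volume : Measure Ω).map fun ω => HL274.GW.clip D (N w ω)) =
        HL274.GW.rq r q := by
      funext w
      unfold HL274.GW.rq
      split_ifs with h
      · subst h
        rfl
      · refine Measure.ext_of_singleton fun k => ?_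
        rw [hq, HL274.GW.clip_law _ _ (hN w) (f w) (hlaw w) D (hfD w),
          HL274.GW.clip_law _ _ (hN [0]) (f [0]) (hlaw [0]) D (hfD [0])]
        simp [hf, h]
    refine h2.trans ?_
    unfold HL274.GW.MM
    congr 1
  have hae : ∀ᵐ ω ∂(volume : Measure Ω), ∀ w, N w ω ≤ D := by
    rw [ae_all_iff]
    exact fun w => HL274.GW.clip_ae _ _ (f w) (hlaw w) D (hfD w)
  -- the moments
  have hmom' : ∀ k : ℕ, ∫ x, x ^ k ∂ν =
      ∫ t : HL274.GW.Cfg D, (HL274.GW.wc t k [] : ℝ) ∂(HL274.GW.MM r q) := by
    intro k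
    rw [hmom k, ← hTlaw, integral_map hTm.aemeasurable]
    · refine integral_congr_ae ?_
      filter_upwards [hae] with ω hω
      rw [← (HL274.GW.Wset_eq (T ω) k []).1]
      congr 2
      ext g
      simp only [HL274.GW.Wset, HL274.GW.Vd, Set.mem_setOf_eq, hT]
      have h1 : ∀ w, ((HL274.GW.clip D (N w ω) : Fin (D + 1)) : ℕ) = N w ω := fun w =>
        HL274.GW.clip_val D _ (hω w)
      simp only [h1]
    · exact ((measurable_of_countable (fun n : ℕ => (n : ℝ))).comp
        (HL274.GW.meas_wc k [])).aestronglyMeasurable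
  obtain ⟨L, hL, hL'⟩ := HL274.GW.final r q S hw hqlast hr2 hS0 hq0
  refine hL.subset fun x hx => ?_
  by_contra hcon
  exact hx (HL274.GW.nu_atom (HL274.GW.MM r q) ν R hR hmom' x (hL' x hcon))

end Pool.Agent.S19141
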