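import Pool.Statements.S19226
import Pool.Agent.H921K.All
import Pool.Agent.V11329.TwoSat.Tr

set_option autoImplicit false
open Pool Pool.MP_284d10_pr

namespace Pool.Agent.S19226

/-- The negation of the preceding statement: For each k ≥ 2, under a uniformly random ordering of all k-clauses on n variables, the probability that some non-empty uniquely satisfiable subformula appears by the time the formula first becomes unsatisfiable tends to 1 as n grows. -/
theorem result :
    ¬ (∀ k : ℕ, 2 ≤ k →
    Filter.Tendsto
      (fun n : ℕ =>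
        (Nat.card {e : Fin (Nat.card {c : Finset (Fin n × Bool) // c.card = k ∧ (c.image Prod.fst).card = k}) ≃
                      {c : Finset (Fin n × Bool) // c.card = k ∧ (c.image Prod.fst).card = k} //
            ∃ m : ℕ,
              (∀ j : ℕ, j < m → ∃ a : Fin n → Bool,
                  ∀ c : {c : Finset (Fin n × Bool) // c.card = k ∧ (c.image Prod.fst).card = k},
                    ((e.symm c : Fin _) : ℕ) < j → ∃ l ∈ c.val, a l.1 = l.2) ∧
              ∃ H : Finset {c : Finset (Fin n × Bool) // c.card = k ∧ (c.image Prod.fst).card = k},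
                H.Nonempty ∧
                (∀ c ∈ H, ((e.symm c : Fin _) : ℕ) < m) ∧
                ∃ a : Fin n → Bool,
                  (∀ c ∈ H, ∃ l ∈ c.val, a l.1 = l.2) ∧
                  ∀ b : Fin n → Bool, (∀ c ∈ H, ∃ l ∈ c.val, b l.1 = l.2) →
                    ∀ i : Fin n, (∃ c ∈ H, ∃ l ∈ c.val, l.1 = i) → b i = a i} : ℝ) /
        (Nat.card (Fin (Nat.card {c : Finset (Fin n × Bool) // c.card = k ∧ (c.image Prod.fst).card = k}) ≃
                      {c : Finset (Fin n × Bool) // c.card = k ∧ (c.image Prod.fst).card = k}) : ℝ))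
      Filter.atTop (nhds 1)) := by
  intro hall
  have hlim := hall 2 le_rfl
  obtain ⟨δ, hδ, n0, h⟩ := Pool.Agent.H921K.fin2
  have hle : (1 : ℝ) ≤ 1 - δ := by
    refine le_of_tendsto hlim ?_
    rw [Filter.eventually_atTop]
    refine ⟨n0, fun n hn => ?_⟩
    exact Pool.Agent.V11329.TwoSat.card_le (k := 2) (n := n) (h n hn)
  linarith

end Pool.Agent.S19226
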