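import Pool.Statements.S19332
import Pool.Agent.V11328.RD.Final

set_option autoImplicit false
open Pool Pool.MP_5501f7_pr

namespace Pool.Agent.S19332

/-- The negation of the preceding statement: For every finitely generated group with property RD and every finitely supported symmetric probability ν on it, with ρ the ℓ² norm of convolution by ν, the return probability ν^(2n)(e) is asymptotic to c·n^(-d)·ρ^(2n) for some c>0 and real d. -/
theorem result :
    ¬ (∀ (G : Type) [Group G],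
      (∃ S : Finset G, Subgroup.closure (S : Set G) = ⊤ ∧
        ∃ (C : ℝ) (s : ℕ), ∀ f g : G →₀ ℝ, ∀ T : Finset G,
          ∑ x ∈ T, (f.sum (fun y a => a * g (y⁻¹ * x))) ^ 2 ≤
            C * (f.sum (fun x a => a ^ 2 *
                  (1 + ((sInf {n : ℕ | ∃ l : List G, l.length = n ∧
                      (∀ y ∈ l, y ∈ S ∨ y⁻¹ ∈ S) ∧ l.prod = x} : ℕ) : ℝ)) ^ (2 * s)))
              * g.sum (fun _ a => a ^ 2)) →
      ∀ ν : G →₀ ℝ,
        (∀ x, 0 ≤ ν x) →
        ν.sum (fun _ a => a) = 1 →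
        (∀ x, ν x⁻¹ = ν x) →
        ∀ ρ : ℝ, 0 ≤ ρ →
          (∀ g : G →₀ ℝ, ∀ T : Finset G,
            ∑ x ∈ T, (ν.sum (fun y a => a * g (y⁻¹ * x))) ^ 2 ≤
              ρ ^ 2 * g.sum (fun _ a => a ^ 2)) →
          (∀ r : ℝ, 0 ≤ r → r < ρ → ∃ g : G →₀ ℝ, ∃ T : Finset G,
            r ^ 2 * g.sum (fun _ a => a ^ 2) <
              ∑ x ∈ T, (ν.sum (fun y a => a * g (y⁻¹ * x))) ^ 2) →
          ∃ c d : ℝ, 0 < c ∧
            Asymptotics.IsEquivalent Filter.atTop
              (fun n : ℕ =>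
                ((fun (h : G → ℝ) (x : G) => ν.sum (fun y a => a * h (y⁻¹ * x)))^[2 * n]
                  (Set.indicator ({1} : Set G) (fun _ => (1 : ℝ)))) 1)
              (fun n : ℕ => c * (n : ℝ) ^ (-d) * ρ ^ (2 * n))) := by
  intro h
  obtain ⟨c, d, hc, hE⟩ := h V11328RD.Gm
    V11328RD.rd_prop
    V11328RD.nu V11328RD.nu_nonneg V11328RD.nu_total V11328RD.sym_nu V11328RD.rho
    V11328RD.rho_nonneg V11328RD.rho_bound V11328RD.rho_least
  have h2 : (fun n : ℕ =>
      ((fun (h : V11328RD.Gm → ℝ) (x : V11328RD.Gm) =>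
          V11328RD.nu.sum (fun y a => a * h (y⁻¹ * x)))^[2 * n]
        (Set.indicator ({1} : Set V11328RD.Gm) (fun _ => (1 : ℝ)))) 1) = V11328RD.bb :=
    funext V11328RD.nu_iter
  rw [h2] at hE
  exact V11328RD.no_asymp V11328RD.rho_nonneg hc hE

end Pool.Agent.S19332
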