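import Pool.Statements.S19444
import Pool.Agent.V11327.DR3

set_option autoImplicit false
open Filter Topology
open Pool Pool.MP_85987b_pr

namespace Pool.Agent.S19444

/-- The negation of the preceding statement: For integer m≥2 and any law of X_0 on ℕ with P(X_0=0)>0 and (m−1)E(X_0 m^X_0)=E(m^X_0)<∞, where X_{n+1} is (sum of m iid copies of X_n minus 1)^+: for all s in (0,m), s≠1, (E s^X_n − 1) divided by 4m/(m−1)²·(s−1)/(m−s)/n² tends to 1. -/
theorem result :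
    ¬ (∀ (m : ℕ), 2 ≤ m → ∀ p : ℕ → ℕ → ℝ,
      (∀ k, 0 ≤ p 0 k) → HasSum (p 0) 1 →
      (∀ n k, p (n + 1) k =
          (∑ x : Fin m → Fin (k + 2),
              if (∑ i, (x i : ℕ)) = k + 1 then ∏ i, p n (x i) else 0)
          + (if k = 0 then p n 0 ^ m else 0)) →
      Summable (fun k : ℕ => p 0 k * (m : ℝ) ^ k) →
      Summable (fun k : ℕ => (k : ℝ) * p 0 k * (m : ℝ) ^ k) →
      ((m : ℝ) - 1) * (∑' k : ℕ, (k : ℝ) * p 0 k * (m : ℝ) ^ k)
          = ∑' k : ℕ, p 0 k * (m : ℝ) ^ k →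
      0 < p 0 0 →
      ∀ s : ℝ, 0 < s → s < (m : ℝ) → s ≠ 1 →
        Tendsto
          (fun n : ℕ =>
            ((∑' k : ℕ, p n k * s ^ k) - 1) /
              (4 * (m : ℝ) / (((m : ℝ) - 1) ^ 2) * ((s - 1) / ((m : ℝ) - s)) / ((n : ℝ) ^ 2)))
          atTop (𝓝 1)) := by
  intro H
  have hcr : ∀ n, Pool.Agent.V11327.DR.Crit (Pool.Agent.V11327.DR.P n) :=
    Pool.Agent.V11327.DR.crit_iter Pool.Agent.V11327.DR.crit_p0 fun n => rfl
  have h0 := Pool.Agent.V11327.DR.crit_p0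
  have hT := H 2 le_rfl Pool.Agent.V11327.DR.P (hcr 0).nn (hcr 0).one
    (by
      intro n k
      rw [Pool.Agent.V11327.DR.fin_sum_eq]
      rfl)
    (by
      refine h0.sA.congr fun k => ?_
      show 2 ^ k * Pool.Agent.V11327.DR.p0 k = Pool.Agent.V11327.DR.p0 k * ((2 : ℕ) : ℝ) ^ k
      push_cast; ring)
    (by
      refine h0.sB.congr fun k => ?_
      show (k : ℝ) * (2 ^ k * Pool.Agent.V11327.DR.p0 k)
        = (k : ℝ) * Pool.Agent.V11327.DR.p0 k * ((2 : ℕ) : ℝ) ^ k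
      push_cast; ring)
    (by
      have e1 : (∑' k : ℕ, (k : ℝ) * Pool.Agent.V11327.DR.P 0 k * ((2 : ℕ) : ℝ) ^ k)
          = ∑' k : ℕ, (k : ℝ) * (2 ^ k * Pool.Agent.V11327.DR.p0 k) := by
        refine tsum_congr fun k => ?_
        show (k : ℝ) * Pool.Agent.V11327.DR.p0 k * ((2 : ℕ) : ℝ) ^ k = _
        push_cast; ring
      have e2 : (∑' k : ℕ, Pool.Agent.V11327.DR.P 0 k * ((2 : ℕ) : ℝ) ^ k)
          = ∑' k : ℕ, 2 ^ k * Pool.Agent.V11327.DR.p0 k := by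
        refine tsum_congr fun k => ?_
        show Pool.Agent.V11327.DR.p0 k * ((2 : ℕ) : ℝ) ^ k = _
        push_cast; ring
      rw [e1, e2, h0.eqAB]
      push_cast
      ring)
    Pool.Agent.V11327.DR.p0_zero_pos (1 / 50) (by norm_num) (by norm_num) (by norm_num)
  have hev := hT.eventually (lt_mem_nhds (show (0.99 : ℝ) < 1 by norm_num))
  obtain ⟨n1, hn1⟩ := eventually_atTop.1 hev
  refine Pool.Agent.V11327.DR.no_rate (p := Pool.Agent.V11327.DR.P) h0 (fun n => rfl)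
    (1 / (8 * Pool.Agent.V11327.DR.N))
    (by have := Pool.Agent.V11327.DR.N_pos; positivity)
    (fun M hM => Pool.Agent.V11327.DR.tail_p0 M hM) (max n1 5) (le_max_right _ _) ?_
  intro n hn
  have h1 := hn1 n (le_trans (le_max_left _ _) hn)
  have hn5 : (5 : ℝ) ≤ n := by exact_mod_cast le_trans (le_max_right _ _) hn
  have hnpos : (0 : ℝ) < n := by linarith
  have hle : Pool.Agent.V11327.DR.P n 0
      ≤ ∑' k : ℕ, Pool.Agent.V11327.DR.P n k * (1 / 50 : ℝ) ^ k := by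
    have hsum : Summable (fun k : ℕ => Pool.Agent.V11327.DR.P n k * (1 / 50 : ℝ) ^ k) := by
      refine Summable.of_nonneg_of_le (fun k => ?_) (fun k => ?_) (hcr n).one.summable
      · have := (hcr n).nn k; positivity
      · have : (1 / 50 : ℝ) ^ k ≤ 1 := pow_le_one₀ (by norm_num) (by norm_num)
        nlinarith [(hcr n).nn k]
    have := hsum.le_tsum 0 (fun k _ => by have := (hcr n).nn k; positivity)
    simpa using this
  set G := ∑' k : ℕ, Pool.Agent.V11327.DR.P n k * (1 / 50 : ℝ) ^ k with hG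
  have e : 4 * ((2 : ℕ) : ℝ) / ((((2 : ℕ) : ℝ) - 1) ^ 2) * ((1 / 50 - 1) / (((2 : ℕ) : ℝ) - 1 / 50))
      / ((n : ℝ) ^ 2) = - (392 / 99 / (n : ℝ) ^ 2) := by
    push_cast
    ring
  rw [e] at h1
  have hy : 0 < 392 / 99 / (n : ℝ) ^ 2 := by positivity
  rw [div_neg, ← neg_div, lt_div_iff₀ hy] at h1
  have e3 : 0.99 * (392 / 99 / (n : ℝ) ^ 2) = 3.92 / (n : ℝ) ^ 2 := by
    rw [← mul_div_assoc]; norm_num
  rw [e3] at h1
  linarith

end Pool.Agent.S19444
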