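import Pool.Statements.S19664
import Pool.Agent.V11222.Kik.Lim

set_option autoImplicit false
open Matrix MeasureTheory ProbabilityTheory
open Pool Pool.MP_d47e08_pr

namespace Pool.Agent.S19664

open Pool.Agent.V11222.Kik in
/-- the frozen integrands, in terms of the helper functions -/
theorem shape (n l : ℕ) (c : ℝ) (Z : Finset (Fin n) → ℝ) :
    sSup {t : ℝ | ∃ v : {K : Finset (Fin n) // K.card = l} → ℝ,
      dotProduct v v = 1 ∧
      t = dotProduct v (Matrix.mulVec
        (Matrix.of fun I J : {K : Finset (Fin n) // K.card = l} =>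
          if (symmDiff I.1 J.1).card = 2
          then c + Z (symmDiff I.1 J.1)
          else 0) v)} = f n l (Z + sh n c) := by
  have hM : (Matrix.of fun I J : {K : Finset (Fin n) // K.card = l} =>
      if (symmDiff I.1 J.1).card = 2 then c + Z (symmDiff I.1 J.1) else 0) =
      KM n l (Z + sh n c) := by
    ext I J
    simp only [KM, sh, Matrix.of_apply, Pi.add_apply]
    split_ifs
    · ring
    · rfl
  rw [hM]
  rfl

/-- The negation of the preceding statement: For every even r≥2 and every δ>0, for all large ℓ and every μ>δ, some ε>0 gives, for all large n, E λmax of the Kikuchi matrix at signal μ n^(-r/4) ≥ (1+ε) times E λmax at zero signal; i.e. the threshold tends to 0. -/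
theorem result :
    ¬ (∀ r : ℕ, 2 ≤ r → Even r →
    ∀ δ : ℝ, 0 < δ →
      ∀ᶠ ℓ : ℕ in Filter.atTop, ∀ μ : ℝ, δ < μ →
        ∃ ε : ℝ, 0 < ε ∧ ∀ᶠ n : ℕ in Filter.atTop,
          1 + ε ≤
            (∫ (Z : Finset (Fin n) → ℝ),
                sSup {t : ℝ | ∃ v : {K : Finset (Fin n) // K.card = ℓ} → ℝ,
                  dotProduct v v = 1 ∧
                  t = dotProduct v (Matrix.mulVec
                    (Matrix.of fun I J : {K : Finset (Fin n) // K.card = ℓ} =>
                      if (symmDiff I.1 J.1).card = r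
                      then μ * (n : ℝ) ^ (-(r : ℝ) / 4) + Z (symmDiff I.1 J.1)
                      else 0) v)}
              ∂(Measure.pi fun _ : Finset (Fin n) => gaussianReal 0 1))
            /
            (∫ (Z : Finset (Fin n) → ℝ),
                sSup {t : ℝ | ∃ v : {K : Finset (Fin n) // K.card = ℓ} → ℝ,
                  dotProduct v v = 1 ∧
                  t = dotProduct v (Matrix.mulVec
                    (Matrix.of fun I J : {K : Finset (Fin n) // K.card = ℓ} =>
                      if (symmDiff I.1 J.1).card = r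
                      then (0 : ℝ) + Z (symmDiff I.1 J.1)
                      else 0) v)}
              ∂(Measure.pi fun _ : Finset (Fin n) => gaussianReal 0 1))) := by
  intro H
  have H1 := H 2 le_rfl even_two (1 / 4) (by norm_num)
  obtain ⟨l, hl, hl1⟩ := (H1.and (Filter.eventually_ge_atTop 1)).exists
  obtain ⟨ε, hε, hn⟩ := hl (1 / 2) (by norm_num)
  simp_rw [shape] at hn
  have hz : ∀ n : ℕ, Pool.Agent.V11222.Kik.sh n 0 = 0 := by
    intro n
    funext S
    simp [Pool.Agent.V11222.Kik.sh]
  simp_rw [hz, add_zero] at hn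
  have hc : ∀ n : ℕ, ((1 / 2 : ℝ) * (n : ℝ) ^ (-((2 : ℕ) : ℝ) / 4)) ^ 2 = (1 / 2 : ℝ) ^ 2 / n := by
    intro n
    rw [mul_pow, ← Real.rpow_natCast ((n : ℝ) ^ (-((2 : ℕ) : ℝ) / 4)) 2,
      ← Real.rpow_mul (Nat.cast_nonneg n)]
    have : -((2 : ℕ) : ℝ) / 4 * ((2 : ℕ) : ℝ) = -1 := by norm_num
    rw [this, Real.rpow_neg_one]
    ring
  have hlim := Pool.Agent.V11222.Kik.ratio_lim (l := l) hl1 (μ := 1 / 2) (by norm_num)
    (by norm_num) (fun n => (1 / 2 : ℝ) * (n : ℝ) ^ (-((2 : ℕ) : ℝ) / 4)) hc
  have hge := ge_of_tendsto hlim hn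
  linarith

end Pool.Agent.S19664
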